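import Mathlib

/-!
Semantic computation trees: what can be computed or decided within a given depth.
-/

namespace Pool.Agent.Lib.MP_837412_lc

open Set RCLike

variable {α : Type}

/-- A node: the inputs that reach it and the functions computed so far. -/
structure Ctx (α : Type) where
  Y : Set α
  S : Set (α → ℝ)

instance : Preorder (Ctx α) where
  le Γ Δ := Δ.Y ⊆ Γ.Y ∧ Γ.S ⊆ Δ.S
  le_refl _ := ⟨Subset.rfl, Subset.rfl⟩
  le_trans _ _ _ a b := ⟨b.1.trans a.1, a.2.trans b.2⟩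

/-- The function is in a register. -/
def Ctx.Has (Γ : Ctx α) (u : α → ℝ) : Prop := ∃ v ∈ Γ.S, EqOn u v Γ.Y

/-- One more register. -/
def Ctx.ins (Γ : Ctx α) (u : α → ℝ) : Ctx α := ⟨Γ.Y, insert u Γ.S⟩

/-- One branch of a test. -/
def Ctx.cut (Γ : Ctx α) (u : α → ℝ) (s : SignType) : Ctx α :=
  ⟨Γ.Y ∩ {x | SignType.sign (u x) = s}, Γ.S⟩

/-- One arithmetic step; inverses are allowed if `dv` is true. -/
def Ctx.Step (dv : Bool) (Γ : Ctx α) (w : α → ℝ) : Prop :=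
  w = 1 ∨ ∃ u v, Γ.Has u ∧ Γ.Has v ∧
    (w = u + v ∨ w = u - v ∨ w = u * v ∨ (dv = true ∧ (∀ x ∈ Γ.Y, u x ≠ 0) ∧ w = u⁻¹))

/-- The goal `g` is reached from the node within the given depth. -/
inductive Cp (dv : Bool) (g : Ctx α → Prop) : Ctx α → ℕ → Prop
  | done {Γ : Ctx α} {L : ℕ} : (∀ Δ, Γ ≤ Δ → g Δ) → Cp dv g Γ L
  | op {Γ : Ctx α} {L : ℕ} (w : α → ℝ) : Γ.Step dv w → Cp dv g (Γ.ins w) L → Cp dv g Γ (L + 1)
  | test {Γ : Ctx α} {L : ℕ} (u : α → ℝ) : Γ.Has u → (∀ s, Cp dv g (Γ.cut u s) L) →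
      Cp dv g Γ (L + 1)

variable {Γ Δ : Ctx α} {dv : Bool} {g g' : Ctx α → Prop} {L L' : ℕ}

lemma Ctx.Has.mono {u : α → ℝ} (h : Γ.Has u) (e : Γ ≤ Δ) : Δ.Has u :=
  let ⟨v, a, b⟩ := h; ⟨v, e.2 a, b.mono e.1⟩

lemma Ctx.Has.congr {u v : α → ℝ} (h : Γ.Has u) (e : ∀ x ∈ Γ.Y, v x = u x) : Γ.Has v :=
  let ⟨w, a, b⟩ := h; ⟨w, a, fun x hx => (e x hx).trans (b hx)⟩

lemma Ctx.le_ins (Γ : Ctx α) (u : α → ℝ) : Γ ≤ Γ.ins u := ⟨Subset.rfl, subset_insert _ _⟩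

lemma Ctx.le_cut (Γ : Ctx α) (u : α → ℝ) (s : SignType) : Γ ≤ Γ.cut u s :=
  ⟨inter_subset_left, Subset.rfl⟩

lemma Ctx.has_ins (Γ : Ctx α) (u : α → ℝ) : (Γ.ins u).Has u := ⟨u, mem_insert _ _, fun _ _ => rfl⟩

lemma Ctx.Step.mono {w : α → ℝ} (h : Γ.Step dv w) (e : Γ ≤ Δ) : Δ.Step dv w :=
  h.imp_right fun ⟨u, v, a, b, c⟩ => ⟨u, v, a.mono e, b.mono e,
    c.imp_right (Or.imp_right (Or.imp_right fun ⟨p, q, r⟩ => ⟨p, fun x hx => q x (e.1 hx), r⟩))⟩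

lemma Cp.ext (h : Cp dv g Γ L) (e : Γ ≤ Δ) : Cp dv g Δ L := by
  induction h generalizing Δ with
  | done h => exact .done fun _ e' => h _ (e.trans e')
  | op w h _ ih => exact .op w (h.mono e) (ih ⟨e.1, insert_subset_insert e.2⟩)
  | test u h _ ih => exact .test u (h.mono e) fun s => ih s ⟨inter_subset_inter_left _ e.1, e.2⟩

lemma Cp.mono (h : Cp dv g Γ L) (e : L ≤ L') : Cp dv g Γ L' := by
  induction h generalizing L' with
  | done h => exact .done h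
  | op w h _ ih =>
    obtain ⟨n, rfl⟩ := Nat.exists_eq_add_one_of_ne_zero (by omega : L' ≠ 0)
    exact .op w h (ih (by omega))
  | test u h _ ih =>
    obtain ⟨n, rfl⟩ := Nat.exists_eq_add_one_of_ne_zero (by omega : L' ≠ 0)
    exact .test u h fun s => ih s (by omega)

theorem Cp.bind (h : Cp dv g Γ L) (h' : ∀ Δ, Γ ≤ Δ → g Δ → Cp dv g' Δ L') :
    Cp dv g' Γ (L' + L) := by
  induction h with
  | done h => exact (h' _ le_rfl (h _ le_rfl)).mono (Nat.le_add_right _ _)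
  | op w h _ ih => exact .op w h (ih fun Δ e => h' Δ ((Ctx.le_ins _ _).trans e))
  | test u h _ ih => exact .test u h fun s => ih s fun Δ e => h' Δ ((Ctx.le_cut _ _ _).trans e)

/-- The goal may be assumed to persist. -/
lemma Cp.box (h : Cp dv g Γ L) : Cp dv (fun Δ => ∀ Θ, Δ ≤ Θ → g Θ) Γ L := by
  induction h with
  | done h => exact .done fun _ a _ b => h _ (a.trans b)
  | op w h _ ih => exact .op w h ih
  | test u h _ ih => exact .test u h ih

lemma Cp.imp (h : Cp dv g Γ L) (h' : ∀ Δ, Γ ≤ Δ → g Δ → g' Δ) : Cp dv g' Γ L := by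
  simpa using h.box.bind (L' := 0) fun Δ e a => .done fun Θ e' => h' Θ (e.trans e') (a Θ e')

lemma Cp.and (h : Cp dv g Γ L) (h' : Cp dv g' Γ L') :
    Cp dv (fun Δ => g Δ ∧ g' Δ) Γ (L' + L) :=
  h.box.bind fun _ e a => (h'.ext e).imp fun Θ e' b => ⟨a Θ e', b⟩

lemma Cp.all {ι : Type} (t : Finset ι) {g : ι → Ctx α → Prop} (h : ∀ i ∈ t, Cp dv (g i) Γ L) :
    Cp dv (fun Δ => ∀ i ∈ t, g i Δ) Γ (t.card * L) := by
  classical
  induction t using Finset.induction_on with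
  | empty => exact .done (by simp)
  | insert a t ha ih =>
    rw [Finset.card_insert_of_notMem ha, Nat.succ_mul]
    exact ((h a (by simp)).and (ih fun i hi => h i (by simp [hi]))).imp fun Δ _ e => by
      simpa using e

lemma Cp.step {w : α → ℝ} (h : Γ.Step dv w) : Cp dv (·.Has w) Γ 1 :=
  .op w h (.done fun _ e => (Γ.has_ins w).mono e)

lemma Cp.sign {u : α → ℝ} (h : Γ.Has u) :
    Cp dv (fun Δ => ∀ x ∈ Δ.Y, ∀ y ∈ Δ.Y, SignType.sign (u x) = SignType.sign (u y)) Γ 1 :=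
  .test u h fun _ => .done fun _ e _ hx _ hy => (e.1 hx).2.trans (e.1 hy).2.symm

section Real

variable {u v : α → ℝ}

lemma Cp.two {w : α → ℝ} (hu : Cp dv (·.Has u) Γ L) (hv : Cp dv (·.Has v) Γ L')
    (h : w = u + v ∨ w = u - v ∨ w = u * v) : Cp dv (·.Has w) Γ (1 + (L' + L)) :=
  (hu.and hv).bind fun _ _ a => .step (Or.inr ⟨u, v, a.1, a.2, by tauto⟩)

lemma Cp.has (h : Γ.Has u) : Cp dv (·.Has u) Γ 0 := .done fun _ e => h.mono e

lemma Cp.zero : Cp dv (·.Has fun _ => 0) Γ 2 :=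
  (Cp.step (w := 1) (Or.inl rfl)).bind fun _ _ a =>
    .step (Or.inr ⟨1, 1, a, a, Or.inr (Or.inl (by ext; simp))⟩)

end Real

variable {𝕜 : Type} [RCLike 𝕜]

/-- Real and imaginary part are in registers. -/
def Ctx.HasK (Γ : Ctx α) (z : α → 𝕜) : Prop := Γ.Has (fun x => re (z x)) ∧ Γ.Has fun x => im (z x)

/-- The goal is reached within depth `B ^ e`. -/
def P (B : ℕ) (g : Ctx α → Prop) (Γ : Ctx α) (e : ℕ) : Prop := Cp true g Γ (B ^ e)

/-- The function is computed within depth `B ^ e`. -/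
def A (B : ℕ) (Γ : Ctx α) (e : ℕ) (z : α → 𝕜) : Prop := P B (·.HasK z) Γ e

/-- Within depth `B ^ e`, any two inputs with the same path are related by `r`. -/
def D (B : ℕ) (Γ : Ctx α) (e : ℕ) (r : α → α → Prop) : Prop :=
  P B (fun Δ => ∀ x ∈ Δ.Y, ∀ y ∈ Δ.Y, r x y) Γ e

lemma Ctx.HasK.mono {z : α → 𝕜} (h : Γ.HasK z) (e : Γ ≤ Δ) : Δ.HasK z := ⟨h.1.mono e, h.2.mono e⟩

variable {B : ℕ} [hB : Fact (2 ≤ B)] {e e' : ℕ} {z w : α → 𝕜} {r r' : α → α → Prop}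

lemma pow_le_B (h : e ≤ e') : B ^ e ≤ B ^ e' := Nat.pow_le_pow_right (by have := hB.1; omega) h

lemma one_le_B : 1 ≤ B ^ e := Nat.one_le_pow _ _ (by have := hB.1; omega)

lemma mul_le_B {c : ℕ} (n : ℕ) (h : c ≤ 2 ^ n) : c * B ^ e ≤ B ^ (e + n) := by
  rw [pow_add, mul_comm]
  exact Nat.mul_le_mul_left _ (h.trans (Nat.pow_le_pow_left hB.1 n))

omit hB in
lemma P.ext (h : P B g Γ e) (h' : Γ ≤ Δ) : P B g Δ e := Cp.ext h h'

lemma P.mono (h : P B g Γ e) (h' : e ≤ e') : P B g Γ e' := Cp.mono h (pow_le_B h')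

omit hB in
lemma P.imp (h : P B g Γ e) (h' : ∀ Δ, Γ ≤ Δ → g Δ → g' Δ) : P B g' Γ e := Cp.imp h h'

omit hB in
lemma P.done (h : ∀ Δ, Γ ≤ Δ → g Δ) : P B g Γ e := Cp.done h

lemma add_le_B : B ^ e' + B ^ e ≤ B ^ (max e e' + 1) := by
  have := mul_le_B (B := B) (e := max e e') (c := 2) 1 le_rfl
  have a := pow_le_B (B := B) (le_max_left e e')
  have b := pow_le_B (B := B) (le_max_right e e')
  omega

theorem P.bind (h : P B g Γ e) (h' : ∀ Δ, Γ ≤ Δ → g Δ → P B g' Δ e') : P B g' Γ (max e e' + 1) :=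
  (Cp.bind h h').mono add_le_B

lemma P.and (h : P B g Γ e) (h' : P B g' Γ e') : P B (fun Δ => g Δ ∧ g' Δ) Γ (max e e' + 1) :=
  (Cp.and h h').mono add_le_B

lemma P.all {ι : Type} (t : Finset ι) (ht : t.card ≤ B) {g : ι → Ctx α → Prop}
    (h : ∀ i ∈ t, P B (g i) Γ e) : P B (fun Δ => ∀ i ∈ t, g i Δ) Γ (e + 1) :=
  (Cp.all t h).mono (by rw [pow_succ, mul_comm]; exact Nat.mul_le_mul_left _ ht)

lemma A.mono (h : A B Γ e z) (h' : e ≤ e') : A B Γ e' z := P.mono h h'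

lemma D.mono (h : D B Γ e r) (h' : e ≤ e') : D B Γ e' r := P.mono h h'

omit hB in
lemma A.ext (h : A B Γ e z) (h' : Γ ≤ Δ) : A B Δ e z := P.ext h h'

omit hB in
lemma D.ext (h : D B Γ e r) (h' : Γ ≤ Δ) : D B Δ e r := P.ext h h'

omit hB in
lemma A.imp (h : A B Γ e z) (h' : ∀ Δ, Γ ≤ Δ → Δ.HasK z → g' Δ) : P B g' Γ e := P.imp h h'

omit hB in
lemma A.of_has (h : Γ.HasK z) : A B Γ e z := .done fun _ a => h.mono a

omit hB in
lemma A.congr (h : A B Γ e z) (h' : ∀ x ∈ Γ.Y, w x = z x) : A B Γ e w :=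
  h.imp fun _ a b => ⟨b.1.congr fun x hx => by rw [h' x (a.1 hx)],
    b.2.congr fun x hx => by rw [h' x (a.1 hx)]⟩

/-- Compute a family once and use it many times. -/
theorem P.share {ι : Type} (t : Finset ι) (ht : t.card ≤ B) {u : ι → α → 𝕜}
    (h : ∀ i ∈ t, A B Γ e (u i)) (h' : ∀ Δ, Γ ≤ Δ → (∀ i ∈ t, A B Δ 0 (u i)) → P B g Δ e') :
    P B g Γ (max (e + 1) e' + 1) :=
  (P.all t ht h).bind fun Δ a b => h' Δ a fun i hi => .of_has (b i hi)

theorem P.share1 (h : A B Γ e z) (h' : ∀ Δ, Γ ≤ Δ → A B Δ 0 z → P B g Δ e') :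
    P B g Γ (max e e' + 1) := h.bind fun Δ a b => h' Δ a (.of_has b)

/-- Iteration of a goal that depends on a counter. -/
theorem P.iter {g : ℕ → Ctx α → Prop} {n : ℕ} (hn : n ≤ B) (h0 : P B (g 0) Γ e)
    (h : ∀ m < n, ∀ Δ, Γ ≤ Δ → g m Δ → P B (g (m + 1)) Δ e) : P B (g n) Γ (e + 2) := by
  have key : ∀ m ≤ n, Cp true (g m) Γ ((m + 1) * B ^ e) := by
    intro m hm
    induction m with
    | zero => simpa [P] using h0
    | succ m ih => exact ((ih (by omega)).bind (h m hm)).mono (by ring_nf; omega)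
  refine (key n le_rfl).mono ?_
  rw [pow_add, mul_comm]
  exact Nat.mul_le_mul_left _ (by have := hB.1; nlinarith)

theorem A.iter {ι : Type} (t : Finset ι) (ht : t.card ≤ B) {u : ℕ → ι → α → 𝕜} {n : ℕ} (hn : n ≤ B)
    (h0 : ∀ i ∈ t, A B Γ e (u 0 i))
    (h : ∀ m < n, ∀ Δ, Γ ≤ Δ → (∀ i ∈ t, A B Δ 0 (u m i)) → ∀ i ∈ t, A B Δ e (u (m + 1) i)) :
    ∀ i ∈ t, A B Γ (e + 3) (u n i) := fun i hi =>
  (P.iter (g := fun m Δ => ∀ i ∈ t, Δ.HasK (u m i)) hn (P.all t ht h0) fun m hm Δ a b =>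
    P.all t ht (h m hm Δ a fun i hi => .of_has (b i hi))).imp fun _ _ b => b i hi

theorem A.strong {u : ℕ → α → 𝕜} {n : ℕ} (hn : n < B)
    (h : ∀ m ≤ n, ∀ Δ, Γ ≤ Δ → (∀ j < m, A B Δ 0 (u j)) → A B Δ e (u m)) : A B Γ (e + 2) (u n) :=
  (P.iter (g := fun m Δ => ∀ j < m, Δ.HasK (u j)) (n := n + 1) hn (.done (by simp))
    fun m hm Δ a b => (h m (by omega) Δ a fun j hj => .of_has (b j hj)).imp fun Θ c d j hj => by
      rcases Nat.lt_succ_iff_lt_or_eq.1 hj with hj | rfl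
      exacts [(b j hj).mono c, d]).imp fun _ _ b => b n (by omega)

/-- A formula with at most 14 steps in the parts of `z` and `w`. -/
lemma A.two {v : α → 𝕜} (hz : A B Γ e z) (hw : A B Γ e' w)
    (h : ∀ Δ, Γ ≤ Δ → Δ.HasK z → Δ.HasK w → Cp true (·.HasK v) Δ 14) : A B Γ (max e e' + 4) v := by
  refine ((Cp.and hz hw).bind fun Δ a b => h Δ a b.1 b.2).mono ?_
  have := mul_le_B (B := B) (e := max e e') (c := 16) 4 le_rfl
  have a := pow_le_B (B := B) (le_max_left e e')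
  have b := pow_le_B (B := B) (le_max_right e e')
  have c := one_le_B (B := B) (e := max e e')
  omega

lemma A.add (hz : A B Γ e z) (hw : A B Γ e' w) : A B Γ (max e e' + 4) fun x => z x + w x :=
  hz.two hw fun _ _ a b => (Cp.and ((Cp.has a.1).two (.has b.1) (Or.inl (by ext; simp)))
    ((Cp.has a.2).two (.has b.2) (Or.inl (by ext; simp)))).mono (by omega)

lemma A.sub (hz : A B Γ e z) (hw : A B Γ e' w) : A B Γ (max e e' + 4) fun x => z x - w x :=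
  hz.two hw fun _ _ a b => (Cp.and ((Cp.has a.1).two (.has b.1) (Or.inr (Or.inl (by ext; simp))))
    ((Cp.has a.2).two (.has b.2) (Or.inr (Or.inl (by ext; simp))))).mono (by omega)

lemma A.mul (hz : A B Γ e z) (hw : A B Γ e' w) : A B Γ (max e e' + 4) fun x => z x * w x :=
  hz.two hw fun _ _ a b => (Cp.and
    (((Cp.has a.1).two (.has b.1) (Or.inr (Or.inr rfl))).two
      ((Cp.has a.2).two (.has b.2) (Or.inr (Or.inr rfl))) (Or.inr (Or.inl (by ext; simp))))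
    (((Cp.has a.1).two (.has b.2) (Or.inr (Or.inr rfl))).two
      ((Cp.has a.2).two (.has b.1) (Or.inr (Or.inr rfl))) (Or.inl (by ext; simp)))).mono (by omega)

lemma A.zero : A B Γ 1 fun _ => (0 : 𝕜) :=
  (Cp.zero.imp fun _ _ a => ⟨by simpa using a, by simpa using a⟩).mono (by simpa using hB.1)

lemma A.one : A B Γ 2 fun _ => (1 : 𝕜) :=
  ((Cp.zero.and (.step (w := 1) (Or.inl rfl))).imp fun _ _ a =>
    ⟨a.2.congr (by simp), by simpa using a.1⟩).mono (by have := hB.1; nlinarith)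

lemma A.I : A B Γ 2 fun _ => Complex.I :=
  ((Cp.zero.and (.step (w := 1) (Or.inl rfl))).imp fun _ _ a =>
    ⟨by simpa using a.1, a.2.congr (by simp)⟩).mono (by have := hB.1; nlinarith)

omit hB in
lemma A.ofReal {u : α → ℝ} (h : A B Γ e u) : A B Γ e fun x => (u x : 𝕜) :=
  h.imp fun _ _ a => ⟨by simpa using a.1, by simpa using a.2⟩

lemma A.of_real {u : α → ℝ} (h : Γ.Has u) : A B Γ 1 u :=
  (Cp.zero.imp fun _ c a => ⟨by simpa using h.mono c, by simpa using a⟩).mono (by simpa using hB.1)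

lemma A.re (hz : A B Γ e z) : A B Γ (e + 2) fun x => RCLike.re (z x) :=
  (P.bind hz fun _ _ a => A.of_real a.1).mono (by omega)

lemma A.im (hz : A B Γ e z) : A B Γ (e + 2) fun x => RCLike.im (z x) :=
  (P.bind hz fun _ _ a => A.of_real a.2).mono (by omega)

lemma A.neg (hz : A B Γ e z) : A B Γ (e + 5) fun x => -z x :=
  ((A.zero.sub hz).congr (by simp)).mono (by omega)

lemma A.conj (hz : A B Γ e z) : A B Γ (e + 4) fun x => (starRingEnd 𝕜) (z x) := by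
  simpa using hz.two (v := fun x => (starRingEnd 𝕜) (z x)) hz fun _ _ a _ =>
    ((Cp.zero.two (.has a.2) (Or.inr (Or.inl rfl))).imp fun _ c b =>
      ⟨by simpa using a.1.mono c, b.congr (by simp)⟩).mono (by omega)

lemma A.inv (hz : A B Γ e z) (h0 : ∀ x ∈ Γ.Y, z x ≠ 0) : A B Γ (e + 4) fun x => (z x)⁻¹ := by
  simpa using hz.two (v := fun x => (z x)⁻¹) hz fun Δ c a _ => by
    have n : Cp true (·.Has fun x => (normSq (z x))⁻¹) Δ (1 + (1 + ((1 + (0 + 0)) + (1 + (0 + 0))))) :=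
      (((Cp.has a.1).two (.has a.1) (Or.inr (Or.inr rfl))).two
        ((Cp.has a.2).two (.has a.2) (Or.inr (Or.inr rfl)))
        (w := fun x => normSq (z x)) (Or.inl (by ext; simp [normSq_apply]))).bind fun Θ c' b =>
        .step (Or.inr ⟨_, _, b, b, Or.inr (Or.inr (Or.inr ⟨rfl, fun x hx =>
          mt normSq_eq_zero.1 (h0 x (c.1 (c'.1 hx))), rfl⟩))⟩)
    exact ((((Cp.has a.1).two n (Or.inr (Or.inr rfl))).and (((Cp.zero.two (.has a.2)
      (Or.inr (Or.inl rfl)))).two n (Or.inr (Or.inr rfl)))).imp fun _ _ b =>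
        ⟨b.1.congr (by simp [inv_re, div_eq_mul_inv]),
          b.2.congr (by simp [inv_im, div_eq_mul_inv])⟩).mono (by omega)

lemma A.div (hz : A B Γ e z) (hw : A B Γ e' w) (h0 : ∀ x ∈ Γ.Y, w x ≠ 0) :
    A B Γ (max e e' + 8) fun x => z x / w x :=
  ((hz.mul (hw.inv h0)).congr fun _ _ => div_eq_mul_inv _ _).mono (by omega)

theorem A.fold {ι : Type} (t : Finset ι) (ht : t.card ≤ B) {u : ι → α → 𝕜} (f : Finset ι → α → 𝕜)
    (h : ∀ i ∈ t, A B Γ e (u i)) (h0 : A B Γ 2 (f ∅))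
    (h1 : ∀ (Δ : Ctx α) s i (hi : i ∉ s), A B Δ 0 (f s) → A B Δ e (u i) →
      A B Δ (e + 4) (f (s.cons i hi))) : A B Γ (e + 6) (f t) := by
  refine (P.iter (g := fun m Δ => ∃ s ⊆ t, s.card = m ∧ Δ.HasK (f s)) ht
    ((h0.mono (by omega)).imp fun _ _ a => ⟨∅, t.empty_subset, rfl, a⟩)
    fun m hm Δ a ⟨s, s1, s2, s3⟩ => ?_).imp fun _ _ ⟨s, s1, s2, s3⟩ =>
      Finset.eq_of_subset_of_card_le s1 s2.ge ▸ s3
  obtain ⟨i, hi, hi'⟩ := Finset.exists_mem_notMem_of_card_lt_card (s2 ▸ hm : s.card < t.card)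
  exact (h1 Δ s i hi' (.of_has s3) ((h i hi).ext a)).imp fun _ _ b =>
    ⟨_, Finset.cons_subset.2 ⟨hi, s1⟩, by rw [Finset.card_cons, s2], b⟩

theorem A.sum {ι : Type} (t : Finset ι) (ht : t.card ≤ B) {u : ι → α → 𝕜}
    (h : ∀ i ∈ t, A B Γ e (u i)) : A B Γ (e + 6) fun x => ∑ i ∈ t, u i x :=
  A.fold t ht (fun s x => ∑ i ∈ s, u i x) h (by simpa using A.zero.mono one_le_two)
    fun _ _ _ _ a b => by simpa using b.add a

theorem A.prod {ι : Type} (t : Finset ι) (ht : t.card ≤ B) {u : ι → α → 𝕜}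
    (h : ∀ i ∈ t, A B Γ e (u i)) : A B Γ (e + 6) fun x => ∏ i ∈ t, u i x :=
  A.fold t ht (fun s x => ∏ i ∈ s, u i x) h (by simpa using A.one)
    fun _ _ _ _ a b => by simpa using b.mul a

lemma A.pow (h : A B Γ e z) {n : ℕ} (hn : n ≤ B) : A B Γ (e + 6) fun x => z x ^ n := by
  simpa using A.prod (Finset.range n) (by simpa using hn) (u := fun _ => z) fun _ _ => h

lemma A.nat {n : ℕ} (hn : n ≤ B) : A B Γ 8 fun _ => (n : 𝕜) := by
  simpa using A.sum (Finset.range n) (by simpa using hn) (u := fun _ _ => (1 : 𝕜))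
    fun _ _ => A.one (Γ := Γ)

omit hB in
lemma D.imp (h : D B Γ e r) (h' : ∀ x ∈ Γ.Y, ∀ y ∈ Γ.Y, r x y → r' x y) : D B Γ e r' :=
  P.imp h fun _ a b x hx y hy => h' x (a.1 hx) y (a.1 hy) (b x hx y hy)

omit hB in
lemma D.of_forall (h : ∀ x ∈ Γ.Y, ∀ y ∈ Γ.Y, r x y) : D B Γ e r :=
  .done fun _ a x hx y hy => h x (a.1 hx) y (a.1 hy)

lemma D.and (h : D B Γ e r) (h' : D B Γ e' r') :
    D B Γ (max e e' + 1) fun x y => r x y ∧ r' x y :=
  (P.and h h').imp fun _ _ a x hx y hy => ⟨a.1 x hx y hy, a.2 x hx y hy⟩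

lemma D.all {ι : Type} (t : Finset ι) (ht : t.card ≤ B) {r : ι → α → α → Prop}
    (h : ∀ i ∈ t, D B Γ e (r i)) : D B Γ (e + 1) fun x y => ∀ i ∈ t, r i x y :=
  (P.all t ht h).imp fun _ _ a x hx y hy i hi => a i hi x hx y hy

lemma D.sign {u : α → ℝ} (h : A B Γ e u) :
    D B Γ (e + 1) fun x y => SignType.sign (u x) = SignType.sign (u y) := by
  simpa [D] using P.bind h (e' := 0) fun _ _ a => Cp.sign (by simpa using a.1)

lemma D.zero (h : A B Γ e z) : D B Γ (e + 4) fun x y => z x = 0 ↔ z y = 0 := by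
  refine ((D.sign h.re).and (D.sign h.im)).mono (by omega) |> fun d => D.imp d fun x _ y _ a => ?_
  simp only [RCLike.ext_iff (z := z _), map_zero, ← sign_eq_zero_iff (a := RCLike.re _),
    ← sign_eq_zero_iff (a := RCLike.im _), a.1, a.2]

/-- Case distinction on the value of a function that has been determined. -/
theorem P.cases {β : Type} [Nonempty β] {f : α → β} (h : D B Γ e fun x y => f x = f y)
    (h' : ∀ c Δ, Γ ≤ Δ → (∀ x ∈ Δ.Y, f x = c) → P B g Δ e') : P B g Γ (max e e' + 1) :=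
  P.bind h fun Δ a b => by
    rcases Δ.Y.eq_empty_or_nonempty with h0 | ⟨y, hy⟩
    · exact h' (Classical.arbitrary β) Δ a (by simp [h0])
    · exact h' (f y) Δ a fun x hx => b x hx y hy

/-- Change of base. -/
lemma P.rebase {B' n : ℕ} (h : P B' g Γ e) (h' : B' ≤ B ^ n) : P B g Γ (n * e) :=
  Cp.mono h (by rw [pow_mul]; exact Nat.pow_le_pow_left h' e)

end Pool.Agent.Lib.MP_837412_lc
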