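import Pool.Agent.Lib.MP_837412_lc.C0

/-!
Computing with univariate and multivariate polynomials.
-/

namespace Pool.Agent.Lib.MP_837412_lc

open Set Polynomial

variable {α 𝕜 : Type} [RCLike 𝕜]

/-- All coefficients are computed within depth `B ^ e`. -/
def AP (B : ℕ) (Γ : Ctx α) (e : ℕ) (p : α → 𝕜[X]) : Prop :=
  ∀ i, A B Γ e fun x => (p x).coeff i

/-- A degree bound. -/
def Dg (Γ : Ctx α) (n : ℕ) (p : α → 𝕜[X]) : Prop := ∀ x ∈ Γ.Y, (p x).natDegree ≤ n

/-- The polynomial of the real parts of the coefficients. -/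
noncomputable def rp (q : ℂ[X]) : ℝ[X] := ∑ i ∈ q.support, monomial i (q.coeff i).re

/-- The polynomial of the imaginary parts of the coefficients. -/
noncomputable def ip (q : ℂ[X]) : ℝ[X] := ∑ i ∈ q.support, monomial i (q.coeff i).im

open Classical in
/-- The polynomial itself, or one if it is zero. -/
noncomputable def nz (q : ℝ[X]) : ℝ[X] := if q = 0 then 1 else q

@[simp] lemma coeff_rp (q : ℂ[X]) (i : ℕ) : (rp q).coeff i = (q.coeff i).re := by
  simp only [rp, finsetSum_coeff, coeff_monomial, Finset.sum_ite_eq', mem_support_iff]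
  split_ifs with h
  · rfl
  · rw [not_not.1 h]; rfl

@[simp] lemma coeff_ip (q : ℂ[X]) (i : ℕ) : (ip q).coeff i = (q.coeff i).im := by
  simp only [ip, finsetSum_coeff, coeff_monomial, Finset.sum_ite_eq', mem_support_iff]
  split_ifs with h
  · rfl
  · rw [not_not.1 h]; rfl

lemma natDegree_rp (q : ℂ[X]) : (rp q).natDegree ≤ q.natDegree :=
  natDegree_le_iff_coeff_eq_zero.2 fun _ h => by simp [coeff_eq_zero_of_natDegree_lt h]

lemma natDegree_ip (q : ℂ[X]) : (ip q).natDegree ≤ q.natDegree :=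
  natDegree_le_iff_coeff_eq_zero.2 fun _ h => by simp [coeff_eq_zero_of_natDegree_lt h]

lemma eval_rp (q : ℂ[X]) (t : ℝ) : (rp q).eval t = (q.eval (t : ℂ)).re := by
  rw [eval_eq_sum_range' (Nat.lt_succ_of_le (natDegree_rp q)), eval_eq_sum_range, Complex.re_sum]
  simp [← Complex.ofReal_pow]

lemma eval_ip (q : ℂ[X]) (t : ℝ) : (ip q).eval t = (q.eval (t : ℂ)).im := by
  rw [eval_eq_sum_range' (Nat.lt_succ_of_le (natDegree_ip q)), eval_eq_sum_range, Complex.im_sum]
  simp [← Complex.ofReal_pow]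

lemma rp_ne_zero {q : ℂ[X]} (h : q.Monic) : rp q ≠ 0 := fun e => by
  simpa [h.coeff_natDegree] using congrArg (·.coeff q.natDegree) e

lemma nz_ne_zero (q : ℝ[X]) : nz q ≠ 0 := by unfold nz; split_ifs with h; exacts [one_ne_zero, h]

lemma natDegree_nz (q : ℝ[X]) : (nz q).natDegree ≤ q.natDegree := by
  unfold nz; split_ifs <;> simp

lemma eval_ne_zero_iff {q : ℂ[X]} {t : ℝ} (h1 : (nz (rp q)).eval t ≠ 0)
    (h2 : (nz (ip q)).eval t ≠ 0) : q.eval (t : ℂ) ≠ 0 ↔ q ≠ 0 := by
  refine ⟨fun h e => h (by simp [e]), fun h e => h ?_⟩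
  have a : rp q = 0 := by_contra fun a => h1 (by rw [nz, if_neg a, eval_rp, e]; rfl)
  have b : ip q = 0 := by_contra fun a => h2 (by rw [nz, if_neg a, eval_ip, e]; rfl)
  ext i
  exact Complex.ext (by simpa using congrArg (·.coeff i) a) (by simpa using congrArg (·.coeff i) b)

variable {B : ℕ} [hB : Fact (2 ≤ B)] {Γ Δ : Ctx α} {e e' n m : ℕ} {p q : α → 𝕜[X]} {z : α → 𝕜}

lemma AP.mono (h : AP B Γ e p) (h' : e ≤ e') : AP B Γ e' p := fun i => (h i).mono h'

omit hB in
lemma AP.ext (h : AP B Γ e p) (h' : Γ ≤ Δ) : AP B Δ e p := fun i => (h i).ext h'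

omit hB in
lemma AP.congr (h : AP B Γ e p) (h' : ∀ x ∈ Γ.Y, q x = p x) : AP B Γ e q :=
  fun i => (h i).congr fun x hx => by rw [h' x hx]

lemma Dg.ext (h : Dg Γ n p) (h' : Γ ≤ Δ) : Dg Δ n p := fun x hx => h x (h'.1 hx)

lemma Dg.mono (h : Dg Γ n p) (h' : n ≤ m) : Dg Γ m p := fun x hx => (h x hx).trans h'

lemma AP.of_le (hd : Dg Γ n p) (h : ∀ i ≤ n, A B Γ e fun x => (p x).coeff i) :
    AP B Γ (max e 1) p := fun i => by
  rcases le_or_gt i n with hi | hi
  · exact (h i hi).mono (le_max_left _ _)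
  · exact (A.zero.congr fun x hx => coeff_eq_zero_of_natDegree_lt ((hd x hx).trans_lt hi)).mono
      (le_max_right _ _)

/-- Compute the coefficients once and use them many times. -/
theorem AP.share {g : Ctx α → Prop} (h : AP B Γ e p) (hd : Dg Γ n p) (hn : n < B)
    (h' : ∀ Δ, Γ ≤ Δ → AP B Δ 1 p → P B g Δ e') : P B g Γ (max (e + 1) e' + 1) :=
  P.share (Finset.range (n + 1)) (by simpa using hn) (fun i _ => h i) fun Δ a b =>
    h' Δ a (AP.of_le (hd.ext a) fun i hi => b i (by simpa using Nat.lt_succ_of_le hi))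

lemma AP.C (h : A B Γ e z) : AP B Γ (e + 1) fun x => C (z x) :=
  (AP.of_le (n := 0) (fun _ _ => by simp) fun i hi => h.congr (by simp [Nat.le_zero.1 hi])).mono
    (by omega)

lemma AP.X : AP B Γ 2 fun _ => (X : 𝕜[X]) := fun i => by
  by_cases h : 1 = i
  · exact A.one.congr (by simp [coeff_X, h])
  · exact (A.zero.congr (by simp [coeff_X, h])).mono one_le_two

lemma AP.add (hp : AP B Γ e p) (hq : AP B Γ e' q) : AP B Γ (max e e' + 4) fun x => p x + q x :=
  fun i => ((hp i).add (hq i)).congr (by simp)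

lemma AP.sub (hp : AP B Γ e p) (hq : AP B Γ e' q) : AP B Γ (max e e' + 4) fun x => p x - q x :=
  fun i => ((hp i).sub (hq i)).congr (by simp)

lemma AP.C_mul (h : A B Γ e z) (hq : AP B Γ e' q) :
    AP B Γ (max e e' + 4) fun x => Polynomial.C (z x) * q x :=
  fun i => (h.mul (hq i)).congr (by simp)

lemma AP.mul_X_pow (hp : AP B Γ e p) (n : ℕ) : AP B Γ (e + 1) fun x => p x * Polynomial.X ^ n :=
  fun i => by
    by_cases h : n ≤ i
    · exact ((hp (i - n)).congr (by simp [coeff_mul_X_pow', h])).mono (by omega)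
    · exact (A.zero.congr (by simp [coeff_mul_X_pow', h])).mono (by omega)

lemma AP.sum {ι : Type} (t : Finset ι) (ht : t.card ≤ B) {p : ι → α → 𝕜[X]}
    (h : ∀ i ∈ t, AP B Γ e (p i)) : AP B Γ (e + 6) fun x => ∑ i ∈ t, p i x :=
  fun j => (A.sum t ht fun i hi => h i hi j).congr (by simp)

lemma AP.mul (hp : AP B Γ e p) (hq : AP B Γ e' q) (hd : Dg Γ n p) (hn : n < B) :
    AP B Γ (max e e' + 11) fun x => p x * q x :=
  (AP.sum (Finset.range (n + 1)) (by simpa using hn) fun j _ =>
    (AP.C_mul (hp j) hq).mul_X_pow j).congr fun x hx => by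
      conv_lhs => rw [as_sum_range' (p x) (n + 1) (Nat.lt_succ_of_le (hd x hx)), Finset.sum_mul]
      exact Finset.sum_congr rfl fun j _ => by rw [← C_mul_X_pow_eq_monomial]; ring

theorem AP.prod {ι : Type} (t : Finset ι) (ht : t.card ≤ B) {p : ι → α → 𝕜[X]}
    (h : ∀ i ∈ t, AP B Γ e (p i)) (hd : ∀ i ∈ t, Dg Γ n (p i)) (hn : t.card * n < B) :
    AP B Γ (e + 15) fun x => ∏ i ∈ t, p i x := by
  have dg : ∀ s ⊆ t, Dg Γ (t.card * n) fun x => ∏ i ∈ s, p i x := fun s hs x hx =>
    (natDegree_prod_le _ _).trans ((Finset.sum_le_card_nsmul _ _ n fun i hi =>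
      hd i (hs hi) x hx).trans (Nat.mul_le_mul_right n (Finset.card_le_card hs)))
  have hc : (Finset.range (t.card * n + 1)).card ≤ B := by simpa using hn
  have key := P.iter (B := B) (Γ := Γ) (e := e + 13) (g := fun m Δ => ∃ s ⊆ t, s.card = m ∧
      ∀ j ∈ Finset.range (t.card * n + 1), Δ.HasK fun x => (∏ i ∈ s, p i x).coeff j) ht
    (((P.all _ hc fun j _ => (AP.C (A.one (𝕜 := 𝕜)) j)).mono (by omega)).imp fun _ _ a =>
      ⟨∅, t.empty_subset, rfl, by simpa using a⟩)
    fun m hm Δ a ⟨s, s1, s2, s3⟩ => by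
      obtain ⟨i, hi, hi'⟩ := Finset.exists_mem_notMem_of_card_lt_card (s2 ▸ hm : s.card < t.card)
      have h1 := AP.of_le (B := B) (e := 0) ((dg s s1).ext a) fun j hj =>
        A.of_has (s3 j (by simpa using Nat.lt_succ_of_le hj))
      have h2 := h1.mul ((h i hi).ext a) ((dg s s1).ext a) hn
      exact ((P.all _ hc fun j _ => h2 j).mono (by omega)).imp fun _ _ b =>
        ⟨s.cons i hi', Finset.cons_subset.2 ⟨hi, s1⟩, by rw [Finset.card_cons, s2],
          by simpa [mul_comm] using b⟩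
  refine (AP.of_le (dg t subset_rfl) fun j hj => key.imp fun _ _ ⟨s, s1, s2, s3⟩ => ?_).mono
    (by omega)
  exact Finset.eq_of_subset_of_card_le s1 s2.ge ▸ s3 j (by simpa using Nat.lt_succ_of_le hj)

lemma AP.eval (hp : AP B Γ e p) (hz : A B Γ e' z) (hd : Dg Γ n p) (hn : n < B) :
    A B Γ (max e e' + 16) fun x => (p x).eval (z x) :=
  ((A.sum (Finset.range (n + 1)) (by simpa using hn) fun i hi => ((hp i).mul
    (hz.pow (n := i) (by have := Finset.mem_range.1 hi; omega)))).congr fun x hx =>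
      eval_eq_sum_range' (Nat.lt_succ_of_le (hd x hx)) _).mono (by omega)

lemma AP.derivative (hp : AP B Γ e p) (hd : Dg Γ n p) (hn : n < B) :
    AP B Γ (e + 12) fun x => derivative (p x) :=
  (AP.of_le (n := n) (fun x hx => (natDegree_derivative_le _).trans (by have := hd x hx; omega))
    fun i hi => ((hp (i + 1)).mul (A.nat (n := i + 1) (by omega))).congr
      (by simp [coeff_derivative])).mono (by omega)

lemma AP.iterate_derivative (hp : AP B Γ e p) (hd : Dg Γ n p) (hn : n < B) (j : ℕ) :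
    AP B Γ (e + 22) fun x => Polynomial.derivative^[j] (p x) := fun i => by
  rcases le_or_gt (i + j) n with h | h
  · exact (((hp (i + j)).mul (A.prod (Finset.range j) (by simp; omega) fun l _ =>
      A.nat (𝕜 := 𝕜) (n := i + j - l) (by omega))).congr fun x _ => by
        rw [coeff_iterate_derivative, Nat.descFactorial_eq_prod_range, nsmul_eq_mul, mul_comm,
          Nat.cast_prod]).mono (by omega)
  · exact (A.zero.congr fun x hx => by
      rw [coeff_iterate_derivative, coeff_eq_zero_of_natDegree_lt ((hd x hx).trans_lt h),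
        smul_zero]).mono (by omega)

omit hB in
lemma AP.ofReal {p : α → ℝ[X]} (h : AP B Γ e p) :
    AP B Γ e fun x => (p x).map (algebraMap ℝ 𝕜) := fun i => (h i).ofReal.congr (by simp)

lemma AP.rp {p : α → ℂ[X]} (h : AP B Γ e p) : AP B Γ (e + 2) fun x => rp (p x) :=
  fun i => (h i).re.congr (by simp)

lemma AP.ip {p : α → ℂ[X]} (h : AP B Γ e p) : AP B Γ (e + 2) fun x => ip (p x) :=
  fun i => (h i).im.congr (by simp)

lemma AP.support (h : AP B Γ e p) (hd : Dg Γ n p) (hn : n < B) :
    D B Γ (e + 5) fun x y => (p x).support = (p y).support :=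
  (D.all (Finset.range (n + 1)) (by simpa using hn) fun i _ => D.zero (h i)).imp
    fun x hx y hy a => by
      ext i
      rcases le_or_gt i n with hi | hi
      · simp [a i (by simpa using Nat.lt_succ_of_le hi)]
      · simp [coeff_eq_zero_of_natDegree_lt ((hd x hx).trans_lt hi),
          coeff_eq_zero_of_natDegree_lt ((hd y hy).trans_lt hi)]

lemma AP.nz {p : α → ℝ[X]} (h : AP B Γ e p) (hd : Dg Γ n p) (hn : n < B) :
    AP B Γ (e + 6) fun x => nz (p x) := fun i =>
  (P.cases (h.support hd hn) (e' := e + 3) fun c Δ a b => by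
    by_cases hc : c = ∅
    · exact ((AP.C A.one i).congr fun x hx => by
        simp only [MP_837412_lc.nz, if_pos (support_eq_empty.1 ((b x hx).trans hc))]; rfl).mono (by omega)
    · exact (((h i).ext a).congr fun x hx => by
        have : p x ≠ 0 := fun e => hc (by rw [← b x hx, e]; rfl)
        simp only [MP_837412_lc.nz, if_neg this]).mono (by omega)).mono
    (by omega)

/-- Interpolation at small integers. -/
theorem AP.interp (hd : Dg Γ n p) (hn : n + 1 < B)
    (h : ∀ t ≤ n, A B Γ e fun x => (p x).eval (t : 𝕜)) : AP B Γ (e + 45) p := by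
  classical
  have inj : InjOn (fun t : ℕ => (t : 𝕜)) (Finset.range (n + 1)) := Nat.cast_injective.injOn
  refine ((AP.sum (Finset.range (n + 1)) (by simp; omega) (e := e + 39) fun t ht => ?_).congr
    fun x hx => (Lagrange.eq_interpolate inj ?_).trans (Lagrange.interpolate_apply _ _ _)).mono
      (by omega)
  · have ht' := Finset.mem_range.1 ht
    have hc : ((Finset.range (n + 1)).erase t).card ≤ n := by simp [Finset.card_erase_of_mem ht]
    refine (AP.C_mul (h t (by omega)) (AP.prod ((Finset.range (n + 1)).erase t) (by omega) (n := 1)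
      (e := 20) (fun j hj => ?_) (fun j _ x _ => ?_) (by omega))).mono (by omega)
    · have hj' := Finset.mem_range.1 (Finset.mem_of_mem_erase hj)
      exact (AP.C_mul (((A.nat (n := t) (by omega)).sub (A.nat (n := j) (by omega))).inv fun _ _ =>
        sub_ne_zero.2 fun e => Finset.ne_of_mem_erase hj (Nat.cast_injective e).symm)
        (AP.X.sub (AP.C (A.nat (n := j) (by omega))))).mono (by omega)
    · exact (natDegree_C_mul_le _ _).trans (natDegree_X_sub_C_le _)
  · rw [Finset.card_range]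
    exact degree_le_natDegree.trans_lt (by exact_mod_cast Nat.lt_succ_of_le (hd x hx))

lemma A.choose (hn : n ≤ B) (m : ℕ) : A B Γ 22 fun _ => (n.choose m : 𝕜) := by
  rcases le_or_gt m n with h | h
  · refine (((A.prod (Finset.range m) (by simp; omega) fun l _ =>
      A.nat (𝕜 := 𝕜) (n := n - l) (by omega)).div (A.prod (Finset.range m) (by simp; omega)
        fun l hl => A.nat (𝕜 := 𝕜) (n := l + 1) (by have := Finset.mem_range.1 hl; omega))
        fun _ _ => Finset.prod_ne_zero_iff.2 fun l _ => Nat.cast_ne_zero.2 l.succ_ne_zero).congr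
      fun _ _ => ?_).mono (by omega)
    rw [← Nat.cast_prod, ← Nat.cast_prod, ← Nat.descFactorial_eq_prod_range,
      Finset.prod_range_add_one_eq_factorial, Nat.descFactorial_eq_factorial_mul_choose,
      Nat.cast_mul, mul_div_cancel_left₀ _ (Nat.cast_ne_zero.2 m.factorial_ne_zero)]
  · exact (A.zero.congr (by simp [Nat.choose_eq_zero_of_lt h])).mono (by omega)

section Mv

variable {σ : Type} [Fintype σ]

/-- All coefficients of a multivariate polynomial are computed within depth `B ^ e`. -/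
def AM (B : ℕ) (Γ : Ctx α) (e : ℕ) (p : α → MvPolynomial σ 𝕜) : Prop :=
  ∀ m, A B Γ e fun x => (p x).coeff m

/-- A degree bound. -/
def Dm (Γ : Ctx α) (n : ℕ) (p : α → MvPolynomial σ 𝕜) : Prop :=
  ∀ x ∈ Γ.Y, (p x).totalDegree ≤ n

open Classical in
/-- Exponent vectors with entries at most `n`. -/
noncomputable def box (σ : Type) [Fintype σ] (n : ℕ) : Finset (σ →₀ ℕ) :=
  (Fintype.piFinset fun _ : σ => Finset.range (n + 1)).map
    Finsupp.equivFunOnFinite.symm.toEmbedding

lemma mem_box {m : σ →₀ ℕ} : m ∈ box σ n ↔ ∀ i, m i ≤ n := by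
  classical
  simp [box, Nat.lt_succ_iff]

lemma card_box : (box σ n).card = (n + 1) ^ Fintype.card σ := by
  classical
  simp [box]

lemma support_subset_box {R : Type} [CommSemiring R] {p : MvPolynomial σ R}
    (h : p.totalDegree ≤ n) : p.support ⊆ box σ n := fun m hm =>
  mem_box.2 fun i => (MvPolynomial.monomial_le_degreeOf i hm).trans
    ((MvPolynomial.degreeOf_le_totalDegree p i).trans h)

variable {p q : α → MvPolynomial σ 𝕜}

lemma AM.mono (h : AM B Γ e p) (h' : e ≤ e') : AM B Γ e' p := fun i => (h i).mono h'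

omit hB in
lemma AM.ext (h : AM B Γ e p) (h' : Γ ≤ Δ) : AM B Δ e p := fun i => (h i).ext h'

omit hB in
lemma AM.congr (h : AM B Γ e p) (h' : ∀ x ∈ Γ.Y, q x = p x) : AM B Γ e q :=
  fun i => (h i).congr fun x hx => by rw [h' x hx]

lemma Dm.ext (h : Dm Γ n p) (h' : Γ ≤ Δ) : Dm Δ n p := fun x hx => h x (h'.1 hx)

lemma AM.of_box (hd : Dm Γ n p) (h : ∀ m ∈ box σ n, A B Γ e fun x => (p x).coeff m) :
    AM B Γ (max e 1) p := fun m => by
  by_cases hm : m ∈ box σ n
  · exact (h m hm).mono (le_max_left _ _)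
  · exact (A.zero.congr fun x hx => MvPolynomial.notMem_support_iff.1 fun a =>
      hm (support_subset_box (hd x hx) a)).mono (le_max_right _ _)

lemma AM.monomial (h : A B Γ e z) (m : σ →₀ ℕ) :
    AM B Γ (e + 1) fun x => MvPolynomial.monomial m (z x) := fun j => by
  classical
  by_cases hj : m = j
  · exact (h.congr (by simp [hj])).mono (by omega)
  · exact (A.zero.congr (by simp [hj])).mono (by omega)

lemma AM.C (h : A B Γ e z) : AM B Γ (e + 1) fun x => (MvPolynomial.C (z x) : MvPolynomial σ 𝕜) :=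
  AM.monomial h 0

lemma AM.X (i : σ) : AM B Γ 3 fun _ => (MvPolynomial.X i : MvPolynomial σ 𝕜) :=
  AM.monomial A.one _

lemma AM.add (hp : AM B Γ e p) (hq : AM B Γ e' q) : AM B Γ (max e e' + 4) fun x => p x + q x :=
  fun i => ((hp i).add (hq i)).congr (by simp)

lemma AM.sub (hp : AM B Γ e p) (hq : AM B Γ e' q) : AM B Γ (max e e' + 4) fun x => p x - q x :=
  fun i => ((hp i).sub (hq i)).congr (by simp)

lemma AM.C_mul (h : A B Γ e z) (hq : AM B Γ e' q) :
    AM B Γ (max e e' + 4) fun x => MvPolynomial.C (z x) * q x :=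
  fun i => (h.mul (hq i)).congr (by simp)

lemma AM.sum {ι : Type} (t : Finset ι) (ht : t.card ≤ B) {p : ι → α → MvPolynomial σ 𝕜}
    (h : ∀ i ∈ t, AM B Γ e (p i)) : AM B Γ (e + 6) fun x => ∑ i ∈ t, p i x :=
  fun j => (A.sum t ht fun i hi => h i hi j).congr (by simp [MvPolynomial.coeff_sum])

lemma AM.mul (hp : AM B Γ e p) (hq : AM B Γ e' q) (hd : Dm Γ n p)
    (hn : (n + 1) ^ Fintype.card σ ≤ B) : AM B Γ (max e e' + 11) fun x => p x * q x := by
  classical
  have key : ∀ j, AM B Γ (max e e' + 5) fun x => MvPolynomial.monomial j ((p x).coeff j) * q x :=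
    fun j i => by
      by_cases h : j ≤ i
      · exact (((hp j).mul (hq (i - j))).congr
          (by simp [MvPolynomial.coeff_monomial_mul', h])).mono (by omega)
      · exact (A.zero.congr (by simp [MvPolynomial.coeff_monomial_mul', h])).mono (by omega)
  refine (AM.sum (box σ n) (card_box.trans_le hn) fun j _ => key j).congr fun x hx => ?_
  rw [← Finset.sum_mul, ← Finset.sum_subset (support_subset_box (hd x hx)) fun j _ hj => by
    rw [MvPolynomial.notMem_support_iff.1 hj, map_zero], ← (p x).as_sum]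

theorem AM.prod {ι : Type} (t : Finset ι) (ht : t.card ≤ B) {p : ι → α → MvPolynomial σ 𝕜}
    (h : ∀ i ∈ t, AM B Γ e (p i)) (hd : ∀ i ∈ t, Dm Γ n (p i))
    (hn : (t.card * n + 1) ^ Fintype.card σ ≤ B) : AM B Γ (e + 15) fun x => ∏ i ∈ t, p i x := by
  have dg : ∀ s ⊆ t, Dm Γ (t.card * n) fun x => ∏ i ∈ s, p i x := fun s hs x hx =>
    (MvPolynomial.totalDegree_finsetProd _ _).trans ((Finset.sum_le_card_nsmul _ _ n fun i hi =>
      hd i (hs hi) x hx).trans (Nat.mul_le_mul_right n (Finset.card_le_card hs)))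
  have hc : (box σ (t.card * n)).card ≤ B := card_box.trans_le hn
  have key := P.iter (B := B) (Γ := Γ) (e := e + 13) (g := fun m Δ => ∃ s ⊆ t, s.card = m ∧
      ∀ j ∈ box σ (t.card * n), Δ.HasK fun x => (∏ i ∈ s, p i x).coeff j) ht
    (((P.all _ hc fun j _ => (AM.C (σ := σ) (A.one (𝕜 := 𝕜)) j)).mono (by omega)).imp fun _ _ a =>
      ⟨∅, t.empty_subset, rfl, by simpa using a⟩)
    fun m hm Δ a ⟨s, s1, s2, s3⟩ => by
      obtain ⟨i, hi, hi'⟩ := Finset.exists_mem_notMem_of_card_lt_card (s2 ▸ hm : s.card < t.card)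
      have h1 := AM.of_box (B := B) (e := 0) ((dg s s1).ext a) fun j hj => A.of_has (s3 j hj)
      have h2 := h1.mul ((h i hi).ext a) ((dg s s1).ext a) hn
      exact ((P.all _ hc fun j _ => h2 j).mono (by omega)).imp fun _ _ b =>
        ⟨s.cons i hi', Finset.cons_subset.2 ⟨hi, s1⟩, by rw [Finset.card_cons, s2],
          by simpa [mul_comm] using b⟩
  refine (AM.of_box (dg t subset_rfl) fun j hj => key.imp fun _ _ ⟨s, s1, s2, s3⟩ => ?_).mono
    (by omega)
  exact Finset.eq_of_subset_of_card_le s1 s2.ge ▸ s3 j hj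

lemma AM.pderiv (hp : AM B Γ e p) (hd : Dm Γ n p) (hn : n < B) (i : σ) :
    AM B Γ (e + 12) fun x => MvPolynomial.pderiv i (p x) := fun m => by
  classical
  rcases lt_or_ge (m i) n with h | h
  · exact (((hp (m + Finsupp.single i 1)).mul (A.nat (n := m i + 1) (by omega))).congr
      (by simp [MvPolynomial.coeff_pderiv])).mono (by omega)
  · refine (A.zero.congr fun x hx => ?_).mono (by omega)
    rw [MvPolynomial.coeff_pderiv, MvPolynomial.notMem_support_iff.1 fun a => ?_, zero_mul]
    have := mem_box.1 (support_subset_box (hd x hx) a) i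
    simp at this; omega

omit hB in
lemma AM.ofReal {p : α → MvPolynomial σ ℝ} (h : AM B Γ e p) :
    AM B Γ e fun x => (p x).map (algebraMap ℝ 𝕜) :=
  fun i => (h i).ofReal.congr (by simp [MvPolynomial.coeff_map])

lemma AM.rename {τ : Type} [Fintype τ] {f : σ → τ} (hf : Function.Injective f) (h : AM B Γ e p) :
    AM B Γ (e + 1) fun x => MvPolynomial.rename f (p x) := fun m => by
  by_cases hm : ∃ j, Finsupp.mapDomain f j = m
  · obtain ⟨j, rfl⟩ := hm
    exact ((h j).congr fun x _ => MvPolynomial.coeff_rename_mapDomain f hf _ j).mono (by omega)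
  · exact (A.zero.congr fun x _ => MvPolynomial.coeff_rename_eq_zero f _ m fun j hj =>
      (hm ⟨j, hj⟩).elim).mono (by omega)

end Mv

end Pool.Agent.Lib.MP_837412_lc
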