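import Pool.Agent.Lib.MP_837412_lc.C1

/-!
Finite families of complex numbers: power sums, Newton identities, polynomial dependence on a
parameter.
-/

namespace Pool.Agent.Lib.MP_837412_lc

open Set Polynomial

variable {α T ι κ : Type} [Fintype ι] [Fintype κ]

/-- Power sums. -/
noncomputable def ps (c : ι → ℂ) (j : ℕ) : ℂ := ∑ i, c i ^ j

/-- Elementary symmetric functions. -/
noncomputable def es (c : ι → ℂ) (j : ℕ) : ℂ := (Finset.univ.val.map c).esymm j

/-- The monic polynomial with the given roots. -/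
noncomputable def chi (c : ι → ℂ) : ℂ[X] := ∏ i, (X - C (c i))

open Classical in
/-- The number of zeros in the family. -/
noncomputable def zc (c : ι → ℂ) : ℕ := (Finset.univ.filter fun i => c i = 0).card

/-- All sums. -/
def padd (a : ι → ℂ) (b : κ → ℂ) : ι × κ → ℂ := fun q => a q.1 + b q.2

/-- Polynomial functions of `φ` of degree at most `n`. -/
def IsP (φ : T → ℂ) (n : ℕ) (f : T → ℂ) : Prop :=
  ∃ p : ℂ[X], p.natDegree ≤ n ∧ ∀ t, f t = p.eval (φ t)

open Classical in
/-- The polynomial of a polynomial function of a real variable. -/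
noncomputable def pol (f : ℝ → ℂ) : ℂ[X] :=
  if h : ∃ p : ℂ[X], ∀ t : ℝ, f t = p.eval (t : ℂ) then h.choose else 0

/-- The power sums up to `J` are computed. -/
def PA (B : ℕ) (Γ : Ctx α) (e J : ℕ) (c : α → ι → ℂ) : Prop :=
  ∀ j ≤ J, A B Γ e fun x => ps (c x) j

/-- The power sums are polynomials in the parameter. -/
def PP (φ : T → ℂ) (d : ℕ) (c : T → ι → ℂ) : Prop := ∀ j, IsP φ (j * d) fun t => ps (c t) j

section Alg

variable {c c' : ι → ℂ}

lemma chi_monic (c : ι → ℂ) : (chi c).Monic := monic_prod_X_sub_C _ _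

lemma chi_eq (c : ι → ℂ) : chi c = ((Finset.univ.val.map c).map fun t => X - C t).prod := by
  rw [Multiset.map_map]; rfl

lemma natDegree_chi (c : ι → ℂ) : (chi c).natDegree = Fintype.card ι := by
  rw [chi_eq, natDegree_multiset_prod_X_sub_C_eq_card]; simp

lemma roots_chi (c : ι → ℂ) : (chi c).roots = Finset.univ.val.map c := by
  rw [chi_eq, roots_multiset_prod_X_sub_C]

lemma eval_chi_eq_zero {z : ℂ} : (chi c).eval z = 0 ↔ ∃ i, c i = z := by
  simp only [chi, eval_prod, Finset.prod_eq_zero_iff, eval_sub, eval_X, eval_C, sub_eq_zero,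
    Finset.mem_univ, true_and, eq_comm (a := z)]

lemma coeff_chi (c : ι → ℂ) {k : ℕ} (h : k ≤ Fintype.card ι) :
    (chi c).coeff k = (-1) ^ (Fintype.card ι - k) * es c (Fintype.card ι - k) := by
  rw [chi_eq, Multiset.prod_X_sub_C_coeff _ (by simpa using h)]; simp [es]

lemma es_zero (c : ι → ℂ) : es c 0 = 1 := by simp [es, Multiset.esymm]

lemma es_of_lt (c : ι → ℂ) {k : ℕ} (h : Fintype.card ι < k) : es c k = 0 := by
  rw [es, Finset.esymm_map_val, Finset.powersetCard_eq_empty.2 (by simpa using h), Finset.sum_empty]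

lemma es_newton (c : ι → ℂ) (k : ℕ) : k * es c k = (-1) ^ (k + 1) *
    ∑ a ∈ Finset.HasAntidiagonal.antidiagonal k with a.1 < k, (-1) ^ a.1 * es c a.1 * ps c a.2 := by
  have := congrArg (MvPolynomial.aeval c) (MvPolynomial.mul_esymm_eq_sum ι ℂ k)
  simp only [map_mul, map_sum, map_sub, MvPolynomial.aeval_esymm_eq_multiset_esymm] at this
  simpa [MvPolynomial.psum, es, ps] using this

lemma ps_newton (c : ι → ℂ) {k : ℕ} (h : 0 < k) : ps c k = (-1) ^ (k + 1) * k * es c k -
    ∑ a ∈ Finset.HasAntidiagonal.antidiagonal k with a.1 ∈ Set.Ioo 0 k, (-1) ^ a.1 * es c a.1 * ps c a.2 := by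
  have := congrArg (MvPolynomial.aeval c) (MvPolynomial.psum_eq_mul_esymm_sub_sum ι ℂ k h)
  simp only [map_mul, map_sum, map_sub, MvPolynomial.aeval_esymm_eq_multiset_esymm] at this
  simpa [MvPolynomial.psum, es, ps] using this

lemma es_rec (c : ι → ℂ) {k : ℕ} (h : k ≠ 0) : es c k = (k : ℂ)⁻¹ * ((-1) ^ (k + 1) *
    ∑ a ∈ Finset.HasAntidiagonal.antidiagonal k with a.1 < k, (-1) ^ a.1 * es c a.1 * ps c a.2) := by
  rw [← es_newton, inv_mul_cancel_left₀ (Nat.cast_ne_zero.2 h)]

lemma chi_eq_of_ps (h : ∀ j, ps c j = ps c' j) : chi c = chi c' := by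
  have e : ∀ k, es c k = es c' k := fun k => by
    induction k using Nat.strong_induction_on with
    | _ k ih =>
      rcases eq_or_ne k 0 with rfl | hk
      · rw [es_zero, es_zero]
      · rw [es_rec c hk, es_rec c' hk]
        congr 2
        exact Finset.sum_congr rfl fun a ha => by rw [ih _ (Finset.mem_filter.1 ha).2, h]
  ext k
  rcases le_or_gt k (Fintype.card ι) with hk | hk
  · rw [coeff_chi c hk, coeff_chi c' hk, e]
  · rw [coeff_eq_zero_of_natDegree_lt (natDegree_chi c ▸ hk),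
      coeff_eq_zero_of_natDegree_lt (natDegree_chi c' ▸ hk)]

lemma exists_perm_of_chi (h : chi c = chi c') : ∃ σ : Equiv.Perm ι, c' = c ∘ σ := by
  classical
  have e : Finset.univ.val.map c = Finset.univ.val.map c' := by rw [← roots_chi, h, roots_chi]
  have e2 : ∀ z, Fintype.card {i // c' i = z} = Fintype.card {i // c i = z} := fun z => by
    have := congrArg (Multiset.count z) e
    simp only [Multiset.count_map, ← Finset.filter_val, Finset.card_val] at this
    simpa [Fintype.card_subtype, eq_comm] using this.symm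
  exact ⟨Equiv.ofFiberEquiv fun z => Fintype.equivOfCardEq (e2 z),
    funext fun i => (Equiv.ofFiberEquiv_map _ i).symm⟩

lemma chi_comp (c : ι → ℂ) (σ : κ ≃ ι) : chi (c ∘ σ) = chi c := σ.prod_comp fun i => X - C (c i)

lemma ps_comp (c : ι → ℂ) (σ : κ ≃ ι) (j : ℕ) : ps (c ∘ σ) j = ps c j :=
  σ.sum_comp fun i => c i ^ j

lemma exists_chi {p : ℂ[X]} (h : p.Monic) (hn : p.natDegree = Fintype.card ι) :
    ∃ c : ι → ℂ, chi c = p := by
  have h1 : p.roots.toList.length = Fintype.card ι := by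
    rw [Multiset.length_toList, ← hn, IsAlgClosed.card_roots_eq_natDegree]
  let e := Fintype.equivFinOfCardEq h1.symm
  refine ⟨p.roots.toList.get ∘ e, ?_⟩
  rw [chi_comp, chi_eq, Fin.univ_val_map, List.ofFn_get, Multiset.coe_toList]
  exact prod_multiset_X_sub_C_of_monic_of_roots_card_eq h IsAlgClosed.card_roots_eq_natDegree

lemma zc_eq (c : ι → ℂ) : zc c = (chi c).natTrailingDegree := by
  classical
  rw [← rootMultiplicity_eq_natTrailingDegree', ← count_roots, roots_chi, Multiset.count_map, zc]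
  simp only [← Finset.filter_val, Finset.card_val, eq_comm]

lemma zc_eq_of_support {c' : κ → ℂ} (h : (chi c).support = (chi c').support) : zc c = zc c' := by
  simp only [zc_eq, natTrailingDegree, trailingDegree, h]

lemma coeff_chi_ne_zero_iff {n : ℕ} (h : n ≤ zc c) : (chi c).coeff n ≠ 0 ↔ zc c = n := by
  rw [zc_eq] at *
  exact ⟨fun a => le_antisymm (natTrailingDegree_le_of_ne_zero a) h, fun a =>
    a ▸ trailingCoeff_nonzero_iff_nonzero.2 (chi_monic c).ne_zero⟩

lemma ps_padd (a : ι → ℂ) (b : κ → ℂ) (n : ℕ) : ps (padd a b) n =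
    ∑ m ∈ Finset.range (n + 1), ps a m * ps b (n - m) * (n.choose m : ℂ) := by
  simp only [ps, padd, add_pow]
  rw [Finset.sum_comm]
  refine Finset.sum_congr rfl fun m _ => ?_
  rw [Finset.sum_mul_sum, ← Finset.sum_mul, Fintype.sum_prod_type]

lemma ps_smul (w : ℂ) (c : ι → ℂ) (j : ℕ) : ps (fun i => w * c i) j = w ^ j * ps c j := by
  simp [ps, mul_pow, Finset.mul_sum]

lemma ps_conj (c : ι → ℂ) (j : ℕ) :
    ps (fun i => (starRingEnd ℂ) (c i)) j = (starRingEnd ℂ) (ps c j) := by simp [ps]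

lemma ps_elim (a : ι → ℂ) (b : κ → ℂ) (j : ℕ) : ps (Sum.elim a b) j = ps a j + ps b j := by
  simp [ps]

end Alg

section IsP

variable {φ f g : T → ℂ} {n m : ℕ}

lemma IsP.mono (h : IsP φ n f) (h' : n ≤ m) : IsP φ m f :=
  let ⟨p, a, b⟩ := h; ⟨p, a.trans h', b⟩

lemma IsP.congr (h : IsP φ n f) (h' : ∀ t, g t = f t) : IsP φ n g := funext h' ▸ h

lemma IsP.const (z : ℂ) : IsP φ n fun _ => z := ⟨C z, by simp, by simp⟩

lemma IsP.self : IsP φ 1 φ := ⟨X, by simp, by simp⟩

lemma IsP.add (h : IsP φ n f) (h' : IsP φ n g) : IsP φ n fun t => f t + g t :=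
  let ⟨p, a, b⟩ := h; let ⟨q, c, d⟩ := h'
  ⟨p + q, natDegree_add_le_of_degree_le a c, by simp [b, d]⟩

lemma IsP.mul (h : IsP φ n f) (h' : IsP φ m g) : IsP φ (n + m) fun t => f t * g t :=
  let ⟨p, a, b⟩ := h; let ⟨q, c, d⟩ := h'
  ⟨p * q, natDegree_mul_le_of_le a c, by simp [b, d]⟩

lemma IsP.const_mul (z : ℂ) (h : IsP φ n f) : IsP φ n fun t => z * f t := by
  simpa using (IsP.const (n := 0) z).mul h

lemma IsP.sub (h : IsP φ n f) (h' : IsP φ n g) : IsP φ n fun t => f t - g t :=
  (h.add (h'.const_mul (-1))).congr fun _ => by ring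

lemma IsP.sum {β : Type} (s : Finset β) {f : β → T → ℂ} (h : ∀ i ∈ s, IsP φ n (f i)) :
    IsP φ n fun t => ∑ i ∈ s, f i t := by
  classical
  induction s using Finset.induction_on with
  | empty => simpa using IsP.const 0
  | insert a s ha ih =>
    simpa [Finset.sum_insert ha] using (h a (by simp)).add (ih fun i hi => h i (by simp [hi]))

lemma IsP.pow (h : IsP φ n f) (j : ℕ) : IsP φ (j * n) fun t => f t ^ j :=
  let ⟨p, a, b⟩ := h; ⟨p ^ j, natDegree_pow_le_of_le j a, by simp [b]⟩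

lemma IsP.comp {T' : Type} {ψ : T' → ℂ} {ℓ : T' → T} (h : IsP φ n f) (h' : IsP ψ m (φ ∘ ℓ)) :
    IsP ψ (n * m) fun t => f (ℓ t) :=
  let ⟨p, a, b⟩ := h; let ⟨q, c, d⟩ := h'
  ⟨p.comp q, natDegree_comp_le.trans (Nat.mul_le_mul a c), fun t => by
    rw [eval_comp, ← d]; exact b _⟩

lemma IsP.conj {f : ℝ → ℂ} (h : IsP Complex.ofReal n f) :
    IsP Complex.ofReal n fun t => (starRingEnd ℂ) (f t) :=
  let ⟨p, a, b⟩ := h
  ⟨p.map (starRingEnd ℂ), natDegree_map_le.trans a, fun t => by
    rw [← Complex.conj_ofReal t, eval_map, eval₂_hom, ← b]⟩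

lemma IsP.continuous [TopologicalSpace T] (h : IsP φ n f) (hφ : Continuous φ) : Continuous f :=
  let ⟨p, _, b⟩ := h; funext b ▸ p.continuous.comp hφ

lemma pol_eval (p : ℂ[X]) : pol (fun t => p.eval (t : ℂ)) = p := by
  have h : ∃ q : ℂ[X], ∀ t : ℝ, p.eval (t : ℂ) = q.eval (t : ℂ) := ⟨p, fun _ => rfl⟩
  rw [pol, dif_pos h]
  refine eq_of_infinite_eval_eq _ _ ((infinite_range_of_injective Complex.ofReal_injective).mono ?_)
  rintro _ ⟨t, rfl⟩
  exact (h.choose_spec t).symm

lemma IsP.pol {f : ℝ → ℂ} (h : IsP Complex.ofReal n f) :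
    (pol f).natDegree ≤ n ∧ ∀ t : ℝ, (pol f).eval (t : ℂ) = f t := by
  obtain ⟨p, a, b⟩ := h
  rw [funext b, pol_eval]
  exact ⟨a, fun _ => rfl⟩

variable {a : T → ι → ℂ} {b : T → κ → ℂ} {d : ℕ}

lemma PP.es (h : PP φ d a) (k : ℕ) : IsP φ (k * d) fun t => es (a t) k := by
  induction k using Nat.strong_induction_on with
  | _ k ih =>
    rcases eq_or_ne k 0 with rfl | hk
    · simpa [es_zero] using IsP.const 1
    · refine (((IsP.sum _ fun q hq => ?_).const_mul _).const_mul _).congr fun t => es_rec (a t) hk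
      obtain ⟨h1, h2⟩ := Finset.mem_filter.1 hq
      rw [← Finset.HasAntidiagonal.mem_antidiagonal.1 h1, add_mul]
      exact ((ih _ h2).const_mul _).mul (h _)

lemma PP.coeff_chi (h : PP φ d a) (k : ℕ) :
    IsP φ (Fintype.card ι * d) fun t => (chi (a t)).coeff k := by
  rcases le_or_gt k (Fintype.card ι) with hk | hk
  · exact (((h.es _).const_mul _).mono (Nat.mul_le_mul_right d (Nat.sub_le _ _))).congr fun t =>
      MP_837412_lc.coeff_chi _ hk
  · exact (IsP.const 0).congr fun t => coeff_eq_zero_of_natDegree_lt (natDegree_chi (a t) ▸ hk)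

lemma PP.padd (h : PP φ d a) (h' : PP φ d b) : PP φ d fun t => padd (a t) (b t) := fun n =>
  (IsP.sum _ fun m hm => by
    have := ((h m).mul (h' (n - m))).mul (IsP.const (n := 0) (n.choose m : ℂ))
    rwa [add_zero, ← add_mul, Nat.add_sub_cancel' (Nat.lt_succ_iff.1 (Finset.mem_range.1 hm))]
      at this).congr fun t => ps_padd _ _ n

lemma PP.smul (h : PP φ d a) (w : ℂ) : PP φ d fun t i => w * a t i :=
  fun j => ((h j).const_mul _).congr fun t => ps_smul w _ j

lemma PP.conj {a : ℝ → ι → ℂ} (h : PP Complex.ofReal d a) :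
    PP Complex.ofReal d fun t i => (starRingEnd ℂ) (a t i) :=
  fun j => (h j).conj.congr fun t => ps_conj _ j

lemma PP.elim (h : PP φ d a) (h' : PP φ d b) : PP φ d fun t => Sum.elim (a t) (b t) :=
  fun j => ((h j).add (h' j)).congr fun t => ps_elim _ _ j

lemma PP.comp {T' : Type} {ψ : T' → ℂ} {ℓ : T' → T} (h : PP φ d a) (h' : IsP ψ m (φ ∘ ℓ)) :
    PP ψ (d * m) fun t => a (ℓ t) := fun j => mul_assoc j d m ▸ (h j).comp h'

end IsP

section Av

variable {B : ℕ} [hB : Fact (2 ≤ B)] {Γ Δ : Ctx α} {e e' n J : ℕ} {a : α → ι → ℂ} {b : α → κ → ℂ}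

lemma PA.mono (h : PA B Γ e J a) (h' : e ≤ e') : PA B Γ e' J a := fun j hj => (h j hj).mono h'

omit hB in
lemma PA.ext (h : PA B Γ e J a) (h' : Γ ≤ Δ) : PA B Δ e J a := fun j hj => (h j hj).ext h'

lemma A.neg_one_pow {𝕜 : Type} [RCLike 𝕜] (n : ℕ) : A B Γ 7 fun _ => (-1 : 𝕜) ^ n := by
  rcases neg_one_pow_eq_or 𝕜 n with h | h <;> rw [h]
  exacts [A.one.mono (by omega), A.one.neg]

lemma card_anti (k : ℕ) (p : ℕ × ℕ → Prop) [DecidablePred p] :
    ((Finset.HasAntidiagonal.antidiagonal k).filter p).card ≤ k + 1 :=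
  (Finset.card_filter_le _ _).trans_eq (Finset.Nat.card_antidiagonal k)

lemma PA.es (h : PA B Γ e J a) (hJ : J < B) {k : ℕ} (hk : k ≤ J) :
    A B Γ (e + 31) fun x => es (a x) k := by
  refine A.strong (u := fun k x => MP_837412_lc.es (a x) k) (by omega) fun m hm Δ d ih => ?_
  rcases eq_or_ne m 0 with rfl | h0
  · exact (A.one.congr fun x _ => es_zero _).mono (by omega)
  · refine ((((A.nat (n := m) (by omega)).inv fun _ _ => Nat.cast_ne_zero.2 h0).mul
      ((A.neg_one_pow _).mul (A.sum _ ((card_anti _ _).trans (by omega)) (e := e + 15)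
        fun q hq => ?_))).congr fun x _ => es_rec (a x) h0).mono (by omega)
    obtain ⟨h1, h2⟩ := Finset.mem_filter.1 hq
    have := Finset.HasAntidiagonal.mem_antidiagonal.1 h1
    exact (((A.neg_one_pow _).mul (ih _ h2)).mul ((h _ (by omega)).ext d)).mono (by omega)

/-- From power sums to coefficients. -/
theorem PA.chi (h : PA B Γ e J a) (hJ : J < B) (hn : Fintype.card ι ≤ J) :
    AP B Γ (e + 35) fun x => chi (a x) :=
  (AP.of_le (fun x _ => (natDegree_chi _).le) fun i hi => ((A.neg_one_pow _).mul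
    (h.es hJ ((Nat.sub_le _ _).trans hn))).congr fun x _ => coeff_chi _ hi).mono (by omega)

/-- From coefficients to power sums. -/
theorem AP.ps (h : AP B Γ e fun x => chi (a x)) (hJ : J < B) (hn : Fintype.card ι ≤ B) :
    PA B Γ (e + 31) J a := by
  have he : ∀ k, A B Γ (e + 11) fun x => es (a x) k := fun k => by
    rcases le_or_gt k (Fintype.card ι) with hk | hk
    · refine (((A.neg_one_pow k).mul (h (Fintype.card ι - k))).congr fun x _ => ?_).mono (by omega)
      rw [coeff_chi _ (Nat.sub_le _ _), Nat.sub_sub_self hk, ← mul_assoc, ← mul_pow]; simp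
    · exact (A.zero.congr fun x _ => es_of_lt _ hk).mono (by omega)
  intro k hk
  refine A.strong (u := fun k x => MP_837412_lc.ps (a x) k) (by omega) fun m hm Δ d ih => ?_
  rcases Nat.eq_zero_or_pos m with rfl | h0
  · exact ((A.nat hn).congr fun x _ => by simp [MP_837412_lc.ps]).mono (by omega)
  · refine (((((A.neg_one_pow _).mul (A.nat (n := m) (by omega))).mul ((he m).ext d)).sub
      (A.sum _ ((card_anti _ _).trans (by omega)) (e := e + 19) fun q hq => ?_)).congr
        fun x _ => ps_newton (a x) h0).mono (by omega)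
    obtain ⟨h1, h2⟩ := Finset.mem_filter.1 hq
    have := Finset.HasAntidiagonal.mem_antidiagonal.1 h1
    exact (((A.neg_one_pow _).mul ((he _).ext d)).mul (ih _ (by have := h2.1; omega))).mono
      (by omega)

lemma PA.padd (h : PA B Γ e J a) (h' : PA B Γ e J b) (hJ : J < B) :
    PA B Γ (e + 32) J fun x => padd (a x) (b x) := fun n hn =>
  (A.sum _ (by simp; omega) (e := e + 26) fun m hm => (((h m (by
    have := Finset.mem_range.1 hm; omega)).mul (h' (n - m) (by omega))).mul
      (A.choose (by omega) m)).mono (by omega)).congr fun x _ => ps_padd _ _ n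

lemma PA.smul {w : α → ℂ} (hw : A B Γ e' w) (h : PA B Γ e J a) (hJ : J < B) :
    PA B Γ (max e e' + 10) J fun x i => w x * a x i := fun j hj =>
  (((hw.pow (by omega)).mul (h j hj)).congr fun x _ => ps_smul _ _ j).mono (by omega)

lemma PA.conj (h : PA B Γ e J a) : PA B Γ (e + 4) J fun x i => (starRingEnd ℂ) (a x i) :=
  fun j hj => (h j hj).conj.congr fun x _ => ps_conj _ j

lemma PA.elim (h : PA B Γ e J a) (h' : PA B Γ e J b) :
    PA B Γ (e + 4) J fun x => Sum.elim (a x) (b x) := fun j hj =>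
  (((h j hj).add (h' j hj)).congr fun x _ => ps_elim _ _ j).mono (by omega)

/-- The coefficients of a polynomial function of a real parameter. -/
theorem AP.pol {f : α → ℝ → ℂ} (hf : ∀ x ∈ Γ.Y, IsP Complex.ofReal n (f x)) (hn : n + 1 < B)
    (h : ∀ t : ℕ, t ≤ n → A B Γ e fun x => f x t) : AP B Γ (e + 45) fun x => pol (f x) :=
  AP.interp (fun x hx => (hf x hx).pol.1) hn fun t ht => (h t ht).congr fun x hx => by
    rw [← (hf x hx).pol.2]; simp

lemma AP.divX {𝕜 : Type} [RCLike 𝕜] {p : α → 𝕜[X]} {z : α → 𝕜} (hp : AP B Γ e p) (hz : A B Γ e' z)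
    (hd : ∀ x ∈ Γ.Y, (p x).natDegree = n) (hn : n < B) :
    AP B Γ (max e e' + 16) fun x => p x /ₘ (Polynomial.X - Polynomial.C (z x)) := fun i =>
  ((A.sum (Finset.Icc (i + 1) n) (by simp; omega) fun j hj => (hz.pow (n := j - (i + 1))
    (by have := Finset.mem_Icc.1 hj; omega)).mul (hp j)).congr fun x hx => by
      simp only [coeff_divByMonic_X_sub_C, hd x hx]).mono (by omega)

end Av

end Pool.Agent.Lib.MP_837412_lc
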