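import Mathlib

/-!
Algebraic computation trees over the reals, and mod 2 Betti numbers.
-/

namespace Pool.Agent.Lib.MP_837412_lc

/-- Algebraic computation trees with inputs indexed by `ι`. A node appends one real number to the
list of registers, or branches on the sign of a register; a leaf holds the output. -/
inductive Tree (ι : Type) : Type
  | leaf (out : List ℕ) : Tree ι
  | inp (j : ι) (t : Tree ι) : Tree ι
  | one (t : Tree ι) : Tree ι
  | add (i j : ℕ) (t : Tree ι) : Tree ι
  | sub (i j : ℕ) (t : Tree ι) : Tree ι
  | mul (i j : ℕ) (t : Tree ι) : Tree ι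
  | test (i : ℕ) (neg zero pos : Tree ι) : Tree ι

/-- The largest number of operations and sign tests on a path from the root to a leaf. -/
def Tree.depth {ι : Type} : Tree ι → ℕ
  | leaf _ => 0
  | inp _ t => t.depth + 1
  | one t => t.depth + 1
  | add _ _ t => t.depth + 1
  | sub _ _ t => t.depth + 1
  | mul _ _ t => t.depth + 1
  | test _ a b c => max a.depth (max b.depth c.depth) + 1

/-- The output on the input `a`, starting from the registers `r`. -/
noncomputable def Tree.run {ι : Type} (a : ι → ℝ) : Tree ι → List ℝ → List ℕ
  | leaf out, _ => out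
  | inp j t, r => t.run a (r ++ [a j])
  | one t, r => t.run a (r ++ [1])
  | add i j t, r => t.run a (r ++ [r.getD i 0 + r.getD j 0])
  | sub i j t, r => t.run a (r ++ [r.getD i 0 - r.getD j 0])
  | mul i j t, r => t.run a (r ++ [r.getD i 0 * r.getD j 0])
  | test i n z p, r =>
    if r.getD i 0 < 0 then n.run a r else if r.getD i 0 = 0 then z.run a r else p.run a r

/-- The `i`-th mod 2 Betti number: the dimension of singular homology with coefficients in the
field with two elements. -/
noncomputable def betti2 (X : Type) [TopologicalSpace X] (i : ℕ) : Cardinal :=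
  Module.rank (ZMod 2)
    (((AlgebraicTopology.singularHomologyFunctor (ModuleCat (ZMod 2)) i).obj
      (ModuleCat.of (ZMod 2) (ZMod 2))).obj (TopCat.of X))

/-- Sets of sign vectors defined by formulas built with `and`, `or` from atoms `> 0`, `< 0`:
replacing a zero entry by any sign keeps the vector in the set. -/
def UpClosed {s : ℕ} (Φ : Set (Fin s → SignType)) : Prop :=
  ∀ σ ∈ Φ, ∀ τ : Fin s → SignType, (∀ j, σ j ≠ 0 → τ j = σ j) → τ ∈ Φ

/-- The set of points where the vector of signs of the polynomials lies in `Φ`. -/
def signSet {k s : ℕ} (P : Fin s → MvPolynomial (Fin k) ℝ) (Φ : Set (Fin s → SignType)) :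
    Set (Fin k → ℝ) :=
  {x | (fun j => SignType.sign (MvPolynomial.eval x (P j))) ∈ Φ}

end Pool.Agent.Lib.MP_837412_lc
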