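import Pool.Agent.Lib.MP_837412_lc.LB

/-!
The path from the start of the pencil to a large parameter.
-/

namespace Pool.Agent.Lib.MP_837412_lc

open Pool.Agent.Shared.Mod2 Set Function Filter Topology MvPolynomial

/-- The statements that are used in the assembly. -/
structure All : Prop where
  tree : TreeS
  sigs : SigS
  typ : TypeS
  qv : QvS
  aut : AutS
  near : NearS
  bnd : BndS
  evs : EvS
  trace : TraceS
  cbs : CbS
  cba : CbA
  arcs : ArcS
  crit : CritS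
  zero : ZeroS
  tame : TameS
  grow : GrowS
  lamP : LamP
  opn : OpenS
  cls : ClosedS
  flA : FlA
  lamA : LamA
  rurA : RurA
  count : CountS
  sys : SysS
  st : STS
  ex : ExS
  prop : PropS
  fin : FinS
  smith : SmithS
  vh : VHS
  rm : RMS
  real : RealS
  lim : LimS
  betti : BettiS
  bigS : BigS
  bigA : BigA

variable {σ : Type} [Fintype σ] [DecidableEq σ] {m : ℕ} {p p' : MvPolynomial σ ℂ} {l : ℂ}

/-- The polynomial that vanishes at the bad parameters. -/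
noncomputable def Qp (m : ℕ) (p : MvPolynomial σ ℂ) : Polynomial ℂ :=
  pol fun t : ℝ => Qv (Lam m p t)

/-- A bound for its degree. -/
def nQ (σ : Type) [Fintype σ] [DecidableEq σ] (m : ℕ) : ℕ :=
  Fintype.card (Std σ m ⊕ Std σ m × Std σ m) * (Kf σ m + 1)

/-- The large parameter. -/
noncomputable def ls (m : ℕ) (p : MvPolynomial σ ℂ) : ℝ := cb (Qp m p)

/-- The candidates for the critical values along an arc. -/
noncomputable def La (m : ℕ) (p : MvPolynomial σ ℂ) (η : ℕ) (s : ℝ) : Std σ m → ℂ :=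
  Lam m p (arc (ls m p) η s)

/-- The function defined by a member of the pencil. -/
noncomputable def Gl (m : ℕ) (p : MvPolynomial σ ℂ) (l : ℂ) (y : σ → ℂ) : ℂ := eval y (Fl m p l)

lemma PP.qv {T ι : Type} [Fintype ι] {φ : T → ℂ} {d : ℕ} {c : T → ι → ℂ} (h : PP φ d c) :
    IsP φ (Fintype.card (ι ⊕ ι × ι) * d) fun t => Qv (c t) :=
  (h.elim (h.padd (h.smul (-1)))).coeff_chi _

lemma isP_arc (l : ℝ) (η : ℕ) : IsP Complex.ofReal 2 (id ∘ arc l η) := by
  refine IsP.const_mul _ ((IsP.self.mono one_le_two).add (IsP.const_mul _ ?_))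
  exact IsP.self.mul ((IsP.const 1).sub IsP.self)

lemma arc_zero (l : ℝ) (η : ℕ) : arc l η 0 = 0 := by simp [arc]

lemma arc_one (l : ℝ) (η : ℕ) : arc l η 1 = l := by simp [arc]

lemma continuous_arc (l : ℝ) (η : ℕ) : Continuous (arc l η) :=
  (isP_arc l η).continuous Complex.continuous_ofReal

namespace All

variable (H : All)
include H

lemma isP_Q (p : MvPolynomial σ ℂ) : IsP Complex.ofReal (nQ σ m) fun t : ℝ => Qv (Lam m p t) :=
  let ⟨q, a, b⟩ := (H.lamP σ m p).qv; ⟨q, a, fun t => b t⟩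

lemma Qp_eval (p : MvPolynomial σ ℂ) (l : ℂ) : (Qp m p).eval l = Qv (Lam m p l) := by
  obtain ⟨q, -, b⟩ := (H.lamP σ m p).qv
  rw [Qp, show (fun t : ℝ => Qv (Lam m p t)) = fun t : ℝ => q.eval (t : ℂ) from funext fun t => b t,
    pol_eval]
  exact (b l).symm

lemma pp_La (p : MvPolynomial σ ℂ) (η : ℕ) : PP Complex.ofReal ((Kf σ m + 1) * 2) (La m p η) :=
  (H.lamP σ m p).comp (isP_arc _ η)

lemma cont_chi (p : MvPolynomial σ ℂ) (j : ℕ) : Continuous fun l => (chi (Lam m p l)).coeff j :=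
  ((H.lamP σ m p).coeff_chi j).continuous continuous_id

lemma ls_pos (p : MvPolynomial σ ℂ) : 0 < ls m p := one_pos.trans_le (H.cbs _).1

variable (hm : 2 ≤ m) (hp : p.totalDegree < m)
include hm hp

lemma Qp_ne : Qp m p ≠ 0 := fun e => (H.zero σ m p hm hp).2 (by rw [← H.Qp_eval, e]; simp)

lemma qv_large {l : ℝ} (h : ls m p ≤ l) : Qv (Lam m p l) ≠ 0 := fun e => by
  have := (H.cbs _).2 (H.Qp_ne hm hp) l (by rw [H.Qp_eval, e])
  rw [Complex.norm_real, Real.norm_eq_abs] at this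
  exact absurd ((le_abs_self l).trans_lt this) h.not_gt

lemma good_arc : ∃ η ≤ nQ σ m, ∀ s, Qv (La m p η s) ≠ 0 := by
  obtain ⟨η, a, b⟩ := H.arcs (Qp m p) _ (ls m p) (H.isP_Q p).pol.1 (H.ls_pos p).ne'
    (by rw [H.Qp_eval]; exact (H.zero σ m p hm hp).2) (by rw [H.Qp_eval]; exact H.qv_large hm hp le_rfl)
  exact ⟨η, a, fun s => by rw [La, ← H.Qp_eval]; exact b s⟩

lemma path {η : ℕ} (h : ∀ s ∈ Icc (0 : ℝ) 1, Qv (La m p η s) ≠ 0) :
    ∀ s ∈ Icc (0 : ℝ) 1, Pv m p (arc (ls m p) η s) := by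
  refine IsClosed.Icc_subset_of_forall_mem_nhdsWithin (s := {s | Pv m p (arc (ls m p) η s)})
    (((H.cls σ m p hp).preimage (continuous_arc _ η)).inter isClosed_Icc) ?_ fun s hs => ?_
  · rw [mem_ofPred_eq, arc_zero]; exact (H.zero σ m p hm hp).1
  · exact mem_nhdsWithin_of_mem_nhds ((continuous_arc _ η).tendsto s
      (H.opn σ m p _ hm hp hs.1 ((H.qv _ _).1 (h s (Ico_subset_Icc_self hs.2))).1))

lemma mor (h : Pv m p l) (h' : Qv (Lam m p l) ≠ 0) : ∃ x, Mor (Fl m p l) (Lam m p l) x := by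
  obtain ⟨x, hx⟩ := h
  have i := ((H.qv _ _).1 h').1
  refine ⟨x, i, fun a => (hx a).1, fun a => (hx a).2, fun y hy => ?_,
    fun a => ((H.crit σ m p l hm hp _ (hx a).1).2 i).1⟩
  obtain ⟨a, ha⟩ := (H.crit σ m p l hm hp y hy).1
  exact ⟨a, ((H.crit σ m p l hm hp _ (hx a).1).2 i).2 y hy (ha.symm.trans (hx a).2.symm)⟩

lemma mor_ls : ∃ x, Mor (Fl m p (ls m p)) (Lam m p (ls m p)) x := by
  obtain ⟨η, -, b⟩ := H.good_arc hm hp
  have := H.path hm hp (fun s _ => b s) 1 ⟨zero_le_one, le_rfl⟩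
  rw [arc_one] at this
  exact H.mor hm hp this (H.qv_large hm hp le_rfl)

omit hm in
lemma sys_of {x : Std σ m → σ → ℂ} (h : Mor (Fl m p l) (Lam m p l) x) :
    Sys (Gl m p l) (Lam m p l) (Fintype.card σ + 1) :=
  H.sys σ _ _ _ x h ((H.tame σ ℂ m p ‖l‖ hp).imp fun _ a y hy => (a l le_rfl y hy).1)

lemma mot {T : Type} [TopologicalSpace T] {γ : T → ℂ} (hγ : Continuous γ) {N : ℝ}
    (h : ∀ t, Pv m p (γ t) ∧ Qv (Lam m p (γ t)) ≠ 0 ∧ Bn N (Lam m p (γ t))) :
    Mot N (Fintype.card σ + 1) (fun t => Gl m p (γ t)) fun t => Lam m p (γ t) := by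
  refine ⟨fun t => ⟨?_, (h t).2.2⟩, fun t δ hδ => (hγ.tendsto t).eventually
    ((H.st σ _ m p (γ t) _ hp (fun y hy => (H.crit σ m p _ hm hp y hy).1) δ hδ).and
      (H.near ℂ _ (Lam m p) (γ t) (fun j => (H.cont_chi p j).continuousAt)
        ((H.qv _ _).1 (h t).2.1).1 δ hδ))⟩
  obtain ⟨x, hx⟩ := H.mor hm hp (h t).1 (h t).2.1
  exact H.sys_of hp hx

/-- Inputs with the same events have a common normal form at the end. -/
theorem cn_ls (hp' : p'.totalDegree < m) (h : ∀ η ≤ nQ σ m, Tr (La m p η) (La m p' η)) :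
    ∃ N, Bn N (Lam m p (ls m p)) ∧ Bn N (Lam m p' (ls m p')) ∧
      CN N (Fintype.card σ + 1) (Gl m p (ls m p)) (Lam m p (ls m p)) (Gl m p' (ls m p'))
        (Lam m p' (ls m p')) := by
  obtain ⟨η, hη, g⟩ := H.good_arc hm hp
  obtain ⟨g', hR⟩ := H.evs _ _ _ _ (H.pp_La p η) (H.pp_La p' η) (h η hη) fun s _ => g s
  have bd : ∀ q : MvPolynomial σ ℂ, ∃ N : ℝ, ∀ t ∈ Icc (0 : ℝ) 1, ∀ i, ‖La m q η t i‖ + 2 < N :=
    fun q => H.bnd ℝ _ (La m q η) _ isCompact_Icc fun j =>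
      (H.cont_chi q j).comp (continuous_arc _ η)
  obtain ⟨N₁, n1⟩ := bd p
  obtain ⟨N₂, n2⟩ := bd p'
  have b1 : ∀ t ∈ Icc (0 : ℝ) 1, Bn (max N₁ N₂) (La m p η t) :=
    fun t ht i => (n1 t ht i).trans_le (le_max_left _ _)
  have b2 : ∀ t ∈ Icc (0 : ℝ) 1, Bn (max N₁ N₂) (La m p' η t) :=
    fun t ht i => (n2 t ht i).trans_le (le_max_right _ _)
  have o : (1 : ℝ) ∈ Icc (0 : ℝ) 1 := ⟨zero_le_one, le_rfl⟩
  have z : (0 : ℝ) ∈ Icc (0 : ℝ) 1 := ⟨le_rfl, zero_le_one⟩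
  have key := hR (fun a a' => CN (max N₁ N₂) (Fintype.card σ + 1) (Gl m p (arc (ls m p) η a))
    (La m p η a) (Gl m p' (arc (ls m p') η a')) (La m p' η a')) (fun a ha b hb a' ha' b' hb' s c => by
      have seg : ∀ {a b : ℝ}, a ∈ Icc (0 : ℝ) 1 → b ∈ Icc (0 : ℝ) 1 → ∀ u : I,
          a + u * (b - a) ∈ Icc (0 : ℝ) 1 := fun ha hb u =>
        ⟨by nlinarith [ha.1, hb.1, u.2.1, u.2.2], by nlinarith [ha.2, hb.2, u.2.1, u.2.2]⟩
      have := H.prop I _ _ _ _ _ _ _ _ _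
        (H.mot hm hp (γ := fun u : I => arc (ls m p) η (a + u * (b - a)))
          ((continuous_arc _ η).comp (by fun_prop)) fun u =>
            ⟨H.path hm hp (fun s _ => g s) _ (seg ha hb u), g _, b1 _ (seg ha hb u)⟩)
        (H.mot hm hp' (γ := fun u : I => arc (ls m p') η (a' + u * (b' - a')))
          ((continuous_arc _ η).comp (by fun_prop)) fun u =>
            ⟨H.path hm hp' g' _ (seg ha' hb' u), g' _ (seg ha' hb' u), b2 _ (seg ha' hb' u)⟩)
        (fun u => s u u.2) 0 1 (by simpa [La] using c)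
      simpa [La] using this) (by
      obtain ⟨x, hx⟩ := H.mor hm hp (H.zero σ m p hm hp).1 (H.zero σ m p hm hp).2
      have b := b1 0 z
      simp only [La, arc_zero] at b ⊢
      obtain ⟨L, R, d, t⟩ := H.ex _ _ _ _ _ _ (H.sys_of hp hx) b
      have e : Gl m p' 0 = Gl m p 0 := by ext y; simp only [Gl, Fl_zero]
      rw [e, Lam_zero m p' p]
      exact ⟨1, Iso.refl _, L, R, d, d, t⟩)
  refine ⟨max N₁ N₂, ?_, ?_, ?_⟩
  · simpa only [La, arc_one] using b1 1 o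
  · simpa only [La, arc_one] using b2 1 o
  · simpa only [La, arc_one] using key

end All

end Pool.Agent.Lib.MP_837412_lc
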