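import Pool.Agent.Lib.MP_837412_lc.G1

/-!
Inputs with the same events and labels have sign cells with the same homology.
-/

namespace Pool.Agent.Lib.MP_837412_lc

open Pool.Agent.Shared.Mod2 Set Function Filter Topology MvPolynomial

variable {σ τ ι : Type} [Fintype σ] [DecidableEq σ] [Fintype τ] {m : ℕ}

/-- The product of the squares. -/
noncomputable def sq (P : τ → MvPolynomial σ ℝ) : MvPolynomial σ ℝ := ∏ j, P j ^ 2

/-- The last member of the pencil. -/
noncomputable def Fe (m : ℕ) (P : τ → MvPolynomial σ ℝ) : MvPolynomial σ ℂ :=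
  Fl m (cx' (sq P)) (ls m (cx' (sq P)))

/-- Its critical values. -/
noncomputable def Le (m : ℕ) (P : τ → MvPolynomial σ ℝ) : Std σ m → ℂ :=
  Lam m (cx' (sq P)) (ls m (cx' (sq P)))

/-- The label of a critical value. -/
noncomputable def lab (m : ℕ) (P : τ → MvPolynomial σ ℝ) (z : ℂ) :
    SignType × SignType × (τ → SignType) × ℕ × ℕ :=
  (SignType.sign z.re, SignType.sign z.im,
    fun j => SignType.sign (eval (cpv (Fe m P) z) (cx' (P j))).re,
    sig ((Hess (Fe m P) (cpv (Fe m P) z)).map Complex.re))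

lemma Mor.perm {κ : Type} {G : MvPolynomial σ ℂ} {c : ι → ℂ} {x : ι → σ → ℂ} (h : Mor G c x)
    (e : κ ≃ ι) : Mor G (c ∘ e) (x ∘ e) :=
  ⟨h.inj.comp e.injective, fun _ => h.crit _, fun _ => h.val _,
    fun y hy => (h.all y hy).elim fun a b => ⟨e.symm a, by simpa using b⟩, fun _ => h.hess _⟩

lemma RM.congr {E : Type} [TopologicalSpace E] {f : E → ℝ} {S S' : Set E} {v : ι → ℝ}
    {real side real' side' : ι → Prop} {n n' : ι → ℕ} (h : RM f S S' v real side n)
    (h1 : ∀ i, real' i ↔ real i) (h2 : ∀ i, real i → (side' i ↔ side i)) (h3 : ∀ i, n' i = n i) :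
    RM f S S' v real' side' n' := by
  obtain rfl : real' = real := funext fun i => propext (h1 i)
  obtain rfl : n' = n := funext h3
  exact ⟨h.oS, h.oS', h.dis, h.cov, h.inj, h.ne, h.bot, h.ac, fun a b i c d e g => by
    rw [h2 i d]; exact h.cell a b i c d e g⟩

omit [DecidableEq σ] in
lemma deg_cx (p : MvPolynomial σ ℝ) : (cx' p).totalDegree ≤ p.totalDegree :=
  Finset.sup_mono (support_map_subset _ _)

omit [DecidableEq σ] [Fintype σ] in
lemma isOpen_cell (P : τ → MvPolynomial σ ℝ) {π : τ → SignType} (h : ∀ j, π j ≠ 0) :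
    IsOpen (cell P π) := by
  rw [cell, ofPred_forall]
  refine isOpen_iInter_of_finite fun j => ?_
  rcases hj : π j with _ | _ | _
  · exact absurd hj (h j)
  · simpa only [SignType.neg_eq_neg_one, sign_eq_neg_one_iff] using
      isOpen_lt (MvPolynomial.continuous_eval (P j)) continuous_const
  · simpa only [SignType.pos_eq_one, sign_eq_one_iff] using
      isOpen_lt continuous_const (MvPolynomial.continuous_eval (P j))

/-- The other strict cells. -/
def oth (P : τ → MvPolynomial σ ℝ) (π : τ → SignType) : Set (σ → ℝ) :=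
  ⋃ π' ∈ {π' : τ → SignType | (∀ j, π' j ≠ 0) ∧ π' ≠ π}, cell P π'

omit [DecidableEq σ] [Fintype σ] in
lemma isOpen_oth (P : τ → MvPolynomial σ ℝ) (π : τ → SignType) : IsOpen (oth P π) :=
  isOpen_biUnion fun _ h => isOpen_cell P h.1

omit [DecidableEq σ] [Fintype σ] [Fintype τ] in
lemma disj_oth (P : τ → MvPolynomial σ ℝ) (π : τ → SignType) : Disjoint (cell P π) (oth P π) :=
  disjoint_iUnion₂_right.2 fun _ h => disjoint_left.2 fun _ a b =>
    h.2 (funext fun j => (b j).symm.trans (a j))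

omit [DecidableEq σ] [Fintype σ] in
lemma sq_pos {P : τ → MvPolynomial σ ℝ} {y : σ → ℝ} :
    0 < eval y (sq P) ↔ ∀ j, eval y (P j) ≠ 0 := by
  simp only [sq, map_prod, map_pow]
  exact ⟨fun h j e => h.ne' (Finset.prod_eq_zero (Finset.mem_univ j) (by simp [e])),
    fun h => Finset.prod_pos fun j _ => pow_pos_of_even (h j)⟩
where pow_pos_of_even {x : ℝ} (h : x ≠ 0) : 0 < x ^ 2 := by positivity

omit [DecidableEq σ] [Fintype σ] in
lemma cov_oth (P : τ → MvPolynomial σ ℝ) (π : τ → SignType) :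
    {y | 0 < eval y (sq P)} ⊆ cell P π ∪ oth P π := fun y hy => by
  by_cases h : (fun j => SignType.sign (eval y (P j))) = π
  · exact Or.inl (congrFun h)
  · exact Or.inr (mem_biUnion (x := fun j => SignType.sign (eval y (P j)))
      ⟨fun j => sign_ne_zero.2 (sq_pos.1 hy j), h⟩ fun _ => rfl)

namespace All

variable (H : All)
include H

omit [DecidableEq σ] in
/-- The total dimension of the homology of a real sublevel set. -/
theorem total [Fintype ι] [DecidableEq ι] {f : MvPolynomial σ ℝ} {c : ι → ℂ} {n : ℕ} {N t : ℝ}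
    {L R : Matrix ι ι F} (h1 : Sys (fun y => eval y (cx' f)) c n) (h2 : Bn N c)
    (h3 : Dat N N (fun y => eval y (cx' f)) c n L R) (h4 : Tri c L R) (h5 : ∃ i, (c i).re < t) :
    (∀ j, n + 1 ≤ j → hs univ {y | eval y f < t} j = 0) ∧
    ∑ j ∈ Finset.range (n + 1), hs univ {y | eval y f < t} j +
      2 * rkL {i | (c i).re < t ∨ 0 < (c i).im} {i | (c i).im < 0}
        {i | (c i).im = 0 ∧ t ≤ (c i).re} L = {i | (c i).im = 0 ∧ t ≤ (c i).re}.encard := by
  obtain ⟨i₀, h5⟩ := h5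
  have hN : 0 < N := by linarith [h2 i₀, norm_nonneg (c i₀)]
  obtain ⟨δ, ⟨d1, d2⟩, d3⟩ : ∃ δ, δ ∈ Ioo 0 N ∧ ∀ i, (c i).im ≠ 0 → δ < |(c i).im| := by
    refine (Eventually.and (Ioo_mem_nhdsGT hN) (eventually_all.2 fun i => ?_)).exists
    by_cases h : (c i).im = 0
    · exact .of_forall fun _ a => absurd h a
    · filter_upwards [Ioo_mem_nhdsGT (abs_pos.2 h)] with δ a _ using a.2
  have oB : IsOpen (Bt t δ) := (isOpen_lt Complex.continuous_re continuous_const).union
    (isOpen_lt continuous_const Complex.continuous_im.abs)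
  have k := h1.k3 (ζ := -1) (by simp) (A := univ) (B := Bt t δ) ⟨isOpen_univ, oB, subset_univ _,
    .univ, fun z hz s hs => hz.imp (fun a => by simp; linarith) fun a => by simpa using a,
    fun z _ => ⟨|z.re - t| + 1, by positivity, Or.inl (by simp; linarith [le_abs_self (z.re - t)])⟩⟩
  have e : {i | c i ∈ univ \ Bt t δ} = {i | (c i).im = 0 ∧ t ≤ (c i).re} := by
    ext i
    simp only [Bt, mem_ofPred_eq, Set.mem_sdiff, mem_univ, true_and, not_or, not_lt]
    exact ⟨fun a => ⟨by_contra fun b => (d3 i b).not_ge a.2, a.1⟩,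
      fun a => ⟨a.2, by simpa [a.1] using d1.le⟩⟩
  have inv : ∀ y, kap σ (kap σ y) = y := fun y => by ext; simp [kap]
  have cg : ∀ y, eval (kap σ y) (cx' f) = cj (fun y => eval y (cx' f)) y := eval_cx_conj f
  have mt : MapsTo (kap σ) ((fun y => eval y (cx' f)) ⁻¹' Bt t δ)
      ((fun y => eval y (cx' f)) ⁻¹' Bt t δ) := fun y hy => by
    simpa only [mem_preimage, cg, Bt, mem_ofPred_eq, cj_re, cj_im, abs_neg] using hy
  obtain ⟨s1, s2⟩ := H.smith _ (kap σ) _ n inv mt (H.vh σ _ isOpen_univ (mapsTo_univ _ _))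
    (H.vh σ _ (oB.preimage h1.cont) mt) fun j hj => (k j).trans (if_neg hj)
  let φ : C(σ → ℝ, σ → ℂ) := ⟨fun y i => y i, by fun_prop⟩
  have hφ : IsEmbedding φ := IsEmbedding.piMap fun _ => Complex.isUniformEmbedding_ofReal.isEmbedding
  have f1 : {y | kap σ y = y} = φ '' univ := by
    ext y
    refine ⟨fun h => ⟨fun i => (y i).re, trivial, funext fun i =>
      Complex.conj_eq_iff_re.1 (congrFun h i)⟩, ?_⟩
    rintro ⟨y, -, rfl⟩
    exact funext fun i => Complex.conj_ofReal _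
  have f2 : φ '' univ ∩ (fun y => eval y (cx' f)) ⁻¹' Bt t δ = φ '' {y | eval y f < t} := by
    rw [← image_inter_preimage, univ_inter]
    congr 1
    ext y
    change eval (fun i => (y i : ℂ)) (cx' f) ∈ Bt t δ ↔ _
    rw [eval_cx]
    simp [Bt, d1.not_gt]
  rw [H.fin _ _ N t δ _ c n L R (kap σ) h1 h2 h3 h4 inv cg (by linarith [(abs_lt.1 (h2.abs i₀).2).1])
    d1 d2.le d3] at s2
  simp only [f1, f2, hs_image hφ] at s1 s2
  exact ⟨s1, s2.trans ((k n).trans ((if_pos rfl).trans (congrArg _ e)))⟩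

lemma rm_of {P : τ → MvPolynomial σ ℝ} (hm : 2 ≤ m) (ho : Odd m) (hp : (sq P).totalDegree < m)
    {π : τ → SignType} (hπ : ∀ j, π j ≠ 0) (e : Equiv.Perm (Std σ m)) :
    RM (fun y => eval y (Fl m (sq P) (ls m (cx' (sq P))))) (cell P π) (oth P π)
      (fun i => (Le m P (e i)).re) (fun i => (lab m P (Le m P (e i))).2.1 = 0)
      (fun i => (lab m P (Le m P (e i))).2.2.1 = π)
      (fun i => (lab m P (Le m P (e i))).2.2.2.2 + 1) ∧
    ∀ j, hs (cell P π) ∅ j =
      hs ({y | eval y (Fl m (sq P) (ls m (cx' (sq P)))) < 0} ∩ cell P π) ∅ j := by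
  have hc := (deg_cx _).trans_lt hp
  obtain ⟨x, hx⟩ := H.mor_ls hm hc
  obtain ⟨g1, g2⟩ := H.grow σ m _ ho hp
  have sub : {y | eval y (Fl m (sq P) (ls m (cx' (sq P)))) < 0} ⊆ {y | 0 < eval y (sq P)} :=
    fun y hy => by
      simp only [mem_ofPred_eq, eval_Fl] at hy ⊢
      nlinarith [g1 y, H.ls_pos (m := m) (cx' (sq P))]
  constructor
  · obtain ⟨a, b⟩ := H.rm σ _ (Fl m (sq P) (ls m (cx' (sq P)))) _ _ _ _
      (by rw [cx_Fl]; exact hx.perm e) (fun i => ((H.qv _ _).1 (H.qv_large hm hc le_rfl)).2 _)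
      (g2 _) (isOpen_cell P hπ) (isOpen_oth P π) (disj_oth P π) (sub.trans (cov_oth P π))
    have cp : ∀ i, cpv (Fe m P) (Le m P i) = x i := hx.cpv
    refine b.congr (fun i => sign_eq_zero_iff) (fun i hi => ?_) fun i => ?_
    · have : x (e i) = fun j => ((x (e i) j).re : ℂ) :=
        funext fun j => Complex.ext rfl (a i hi j)
      simp only [lab, cp, cell, mem_ofPred_eq, funext_iff, comp_apply]
      conv_lhs => rw [this]
      simp only [eval_cx, Complex.ofReal_re]
    · simp only [lab, cp, cx_Fl, comp_apply]; rfl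
  · intro j
    have a := H.lim σ m _ _ _ _ ho hp (H.ls_pos (m := m) (cx' (sq P))) (fun l hl y hy h0 => by
      obtain ⟨i, hi⟩ := (H.crit σ m _ l hm hc (fun i => y i) fun i => by
        rw [← cx_Fl, pderiv_cx, eval_cx, hy i, Complex.ofReal_zero]).1
      refine ((H.qv _ _).1 (H.qv_large hm hc hl)).2 i ?_
      rw [hi, ← cx_Fl, eval_cx, h0, Complex.ofReal_zero]) (isOpen_cell P hπ) (isOpen_oth P π)
        (disj_oth P π) (cov_oth P π)
    rw [← a.left (empty_subset _) (inter_subset_inter_left _ sub), inter_eq_right.2]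
    exact fun y hy => sq_pos.2 fun j => sign_ne_zero.1 (hy j ▸ hπ j)

theorem same {P P' : τ → MvPolynomial σ ℝ} (hm : 2 ≤ m) (ho : Odd m) (hp : (sq P).totalDegree < m)
    (hp' : (sq P').totalDegree < m)
    (hT : ∀ η ≤ nQ σ m, Tr (La m (cx' (sq P)) η) (La m (cx' (sq P')) η))
    (hL : ∃ e : Equiv.Perm (Std σ m), Iso (Le m P) (Le m P' ∘ e) ∧
      ∀ i, lab m P (Le m P i) = lab m P' (Le m P' (e i)))
    {π : τ → SignType} (hπ : ∀ j, π j ≠ 0) (j : ℕ) :
    hs (cell P π) ∅ j = hs (cell P' π) ∅ j ∧ hs (cell P π) ∅ j ≠ ⊤ := by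
  have hc := (deg_cx _).trans_lt hp
  have hc' := (deg_cx _).trans_lt hp'
  obtain ⟨e, i1, hL⟩ := hL
  obtain ⟨N, n1, n2, e', i2, L, R, d1, d2, t1⟩ := H.cn_ls hm hc hc' hT
  obtain ⟨x, hx⟩ := H.mor_ls hm hc
  obtain ⟨x', hx'⟩ := H.mor_ls hm hc'
  obtain rfl : e = e' := H.aut _ _ _ e e' hx'.inj i1 i2
  obtain ⟨r1, q1⟩ := H.rm_of hm ho hp hπ 1
  obtain ⟨r2, q2⟩ := H.rm_of hm ho hp' hπ e
  simp only [← hL] at r2
  have sr : ∀ i, SignType.sign (Le m P i).re = SignType.sign (Le m P' (e i)).re :=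
    fun i => congrArg (·.1) (hL i)
  have si : ∀ i, SignType.sign (Le m P i).im = SignType.sign (Le m P' (e i)).im :=
    fun i => congrArg (·.2.1) (hL i)
  rw [q1, q2]
  refine H.real _ _ _ _ _ _ _ _ _ _ _ _ _ _ (Fintype.card σ + 1 + 1) z0_univ z0_univ r1 r2
    (fun i j => (i1 i j).1) (fun i => ?_) (fun t t' a b => ?_) j
  · rw [← sign_eq_neg_one_iff, ← sign_eq_neg_one_iff, ← sr]; rfl
  · obtain ⟨u1, u2⟩ := H.total (f := Fl m (sq P) (ls m (cx' (sq P)))) (c := Le m P) (t := t)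
      (by rw [cx_Fl]; exact H.sys_of hc hx) n1 (by rw [cx_Fl]; exact d1) t1 a
    obtain ⟨v1, v2⟩ := H.total (f := Fl m (sq P') (ls m (cx' (sq P')))) (c := Le m P' ∘ e) (t := t')
      (by rw [cx_Fl]; exact (H.sys_of hc' hx').perm e) (fun i => n2 _) (by rw [cx_Fl]; exact d2)
      (by rw [Tri, ← i1.lx]; exact t1) (a.imp fun i => (b i).1)
    refine ⟨fun j hj => ⟨u1 j hj, v1 j hj⟩, ?_⟩
    have b' : ∀ i, (Le m P i).re < t ↔ (Le m P' (e i)).re < t' := b
    have w1 : ∀ i, 0 < (Le m P' (e i)).im ↔ 0 < (Le m P i).im := fun i => by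
      rw [← sign_eq_one_iff, ← sign_eq_one_iff, si]
    have w2 : ∀ i, (Le m P' (e i)).im < 0 ↔ (Le m P i).im < 0 := fun i => by
      rw [← sign_eq_neg_one_iff, ← sign_eq_neg_one_iff, si]
    have w3 : ∀ i, (Le m P' (e i)).im = 0 ↔ (Le m P i).im = 0 := fun i => by
      rw [← sign_eq_zero_iff, ← si, sign_eq_zero_iff]
    simp only [comp_apply, ← not_lt (a := Complex.re _), ← b', w1, w2, w3] at u2 v2
    exact ENat.add_left_injective_of_ne_top (ne_top_of_le_ne_top (encard_ne_top_iff.2 (toFinite _))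
      (le_add_self.trans_eq u2)) (u2.trans v2.symm)

end All

end Pool.Agent.Lib.MP_837412_lc
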