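import Pool.Agent.Lib.MP_837412_lc.G2

/-!
The tree determines the homology of all strict sign cells.
-/

namespace Pool.Agent.Lib.MP_837412_lc

open Pool.Agent.Shared.Mod2 Set Function MvPolynomial

variable {α σ τ ι : Type} [Fintype σ] [Fintype τ] [Fintype ι] {B : ℕ} [hB : Fact (2 ≤ B)]
  {Γ : Ctx α} {e e' d m J : ℕ}

lemma PA.qv {c : α → ι → ℂ} (h : PA B Γ e J c) (hJ : J < B) (hn : Fintype.card (ι ⊕ ι × ι) ≤ J) :
    A B Γ (e + 88) fun x => Qv (c x) :=
  (((h.mono (by omega)).elim (((h.mono (by omega)).padd ((PA.smul A.one.neg h hJ).mono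
    (by omega : _ ≤ e + 17)) hJ))).chi hJ hn _).mono (by omega)

lemma AM.share_all {𝕜 : Type} [RCLike 𝕜] {p : α → τ → MvPolynomial σ 𝕜} {g : Ctx α → Prop}
    (h : ∀ j, AM B Γ e fun x => p x j) (hd : ∀ j, Dm Γ d fun x => p x j) (h1 : Fintype.card τ ≤ B)
    (h2 : (d + 1) ^ Fintype.card σ ≤ B)
    (h' : ∀ Δ, Γ ≤ Δ → (∀ j, AM B Δ 1 fun x => p x j) → P B g Δ e') :
    P B g Γ (max (e + 2) e' + 1) :=
  (P.all Finset.univ h1 fun j _ => P.all (box σ d) (card_box.trans_le h2) fun m _ => h j m).bind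
    fun Δ a b => h' Δ a fun j => AM.of_box (e := 0) ((hd j).ext a) fun m hm =>
      .of_has (b j (Finset.mem_univ j) m hm)

lemma A.arc {l s : α → ℝ} (hl : A B Γ 0 l) (hs : A B Γ 0 s) {η : ℕ} (h : η ≤ B) :
    A B Γ 24 fun x => arc (l x) η (s x) :=
  (hl.ofReal (𝕜 := ℂ)).mul ((hs.ofReal (𝕜 := ℂ)).add ((A.I.mul (A.nat h)).mul
    ((hs.ofReal (𝕜 := ℂ)).mul (A.one.sub (hs.ofReal (𝕜 := ℂ))))))

omit [Fintype σ] in
lemma deg_sq {P : τ → MvPolynomial σ ℝ} (h : ∀ j, (P j).totalDegree ≤ d) :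
    (sq P).totalDegree < 2 * Fintype.card τ * d + 3 := by
  refine (totalDegree_finsetProd _ _).trans_lt ((Finset.sum_le_card_nsmul _ _ (2 * d) fun j _ =>
    (totalDegree_pow _ _).trans (Nat.mul_le_mul_left 2 (h j))).trans_lt ?_)
  rw [smul_eq_mul, Finset.card_univ]
  nlinarith

lemma sizes [DecidableEq σ] (hm : 3 ≤ m) : 5 ≤ sz σ m ∧ (m + 1) ^ Fintype.card σ ≤ sz σ m ∧
    Fintype.card (Std σ m) ^ 2 ≤ sz σ m ∧ nQ σ m ≤ sz σ m ∧ (Kf σ m + 1) * 2 + 2 ≤ sz σ m ∧
    Fintype.card σ ^ 2 ≤ sz σ m ∧ m + 1 ≤ sz σ m := by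
  have c : Fintype.card (Std σ m) = m ^ Fintype.card σ := by simp
  rw [nQ, Fintype.card_sum, Fintype.card_prod, c, sz]
  have k1 : m + 1 ≤ Kf σ m := Nat.le_mul_of_pos_left _ (by omega)
  have k2 : Fintype.card σ + 1 ≤ Kf σ m := Nat.le_mul_of_pos_right _ (by omega)
  generalize Kf σ m = K at *
  generalize Fintype.card σ = k at *
  have a1 : (m + 1) ^ k ≤ (K + 1) ^ k := Nat.pow_le_pow_left (by omega) k
  have a2 : m ^ k ≤ (K + 1) ^ k := Nat.pow_le_pow_left (by omega) k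
  have a3 : 1 ≤ (K + 1) ^ k := Nat.one_le_pow _ _ (by omega)
  rw [show (K + 1) ^ (2 * k + 2) = ((K + 1) ^ k * (K + 1) ^ k) * ((K + 1) * (K + 1)) by ring]
  generalize (K + 1) ^ k = u at *
  generalize (m + 1) ^ k = v at *
  generalize m ^ k = w at *
  have b1 : u ≤ u * u := Nat.le_mul_self u
  have b2 : w * w ≤ u * u := Nat.mul_le_mul a2 a2
  have b3 : 5 * (K + 1) ≤ (K + 1) * (K + 1) := Nat.mul_le_mul_right _ (by omega)
  have b4 : k * k ≤ (K + 1) * (K + 1) := Nat.mul_le_mul (by omega) (by omega)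
  have b5 : (K + 1) * (K + 1) ≤ u * u * ((K + 1) * (K + 1)) := Nat.le_mul_of_pos_left _ (by omega)
  have b6 : u * u ≤ u * u * ((K + 1) * (K + 1)) := Nat.le_mul_of_pos_right _ (by omega)
  have b7 : (w + w * w) * (K + 1) ≤ u * u * ((K + 1) * (K + 1)) := by
    rw [← mul_assoc]
    exact Nat.mul_le_mul_right _ ((by omega : _ ≤ u * u * 2).trans (Nat.mul_le_mul_left _ (by omega)))
  refine ⟨by omega, by omega, by rw [pow_two]; omega, b7, by omega, by rw [pow_two]; omega, by omega⟩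

lemma le_B {S n j : ℕ} (h : S ^ 200 ≤ B) (h5 : 5 ≤ S) (hn : n ≤ S * S) (hj : j ≤ 100) :
    n ^ j ≤ B :=
  (Nat.pow_le_pow_left hn j).trans ((by
    rw [← pow_two, ← pow_mul]; exact Nat.pow_le_pow_right (by omega) (by omega) :
      (S * S) ^ j ≤ S ^ 200).trans h)

namespace All

variable (H : All)
include H

theorem core1 {p : α → τ → MvPolynomial σ ℝ}
    (h1 : sz σ (2 * Fintype.card τ * d + 3) ^ 200 ≤ B) (h2 : Fintype.card τ ≤ B)
    (hd : ∀ j, Dm Γ d fun x => p x j) (h : ∀ j, AM B Γ 1 fun x => p x j) :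
    D B Γ 4000 fun x y => ∀ π : τ → SignType, (∀ j, π j ≠ 0) → ∀ i,
      hs (cell (p x) π) ∅ i = hs (cell (p y) π) ∅ i ∧ hs (cell (p x) π) ∅ i ≠ ⊤ := by
  classical
  have ho : Odd (2 * Fintype.card τ * d + 3) := ⟨Fintype.card τ * d + 1, by ring⟩
  have dq : ∀ x ∈ Γ.Y, (sq (p x)).totalDegree < 2 * Fintype.card τ * d + 3 :=
    fun x hx => deg_sq fun j => hd j x hx
  have dd : ∀ j : τ, d ≤ 2 * Fintype.card τ * d + 3 := fun j => by
    have := Fintype.card_pos_iff.2 ⟨j⟩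
    nlinarith
  have d2 : Fintype.card τ * (2 * d) ≤ 2 * Fintype.card τ * d + 3 := by nlinarith
  have hm : 3 ≤ 2 * Fintype.card τ * d + 3 := by omega
  generalize 2 * Fintype.card τ * d + 3 = m at *
  obtain ⟨s1, s2, s3, s4, s5, s6, s7⟩ := sizes (σ := σ) hm
  have lt : ∀ n, n ≤ 4 * sz σ m → n < B := fun n hn =>
    (pow_one (n + 1)).ge.trans (le_B h1 s1 (by nlinarith) (by omega : 1 ≤ 100))
  have sB : sz σ m ≤ B := (lt _ (by omega)).le
  have dc : ∀ x ∈ Γ.Y, (cx' (sq (p x))).totalDegree < m := fun x hx => (deg_cx _).trans_lt (dq x hx)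
  have μ := Nat.le_self_pow two_ne_zero (Fintype.card (Std σ m))
  have pw : ∀ n ≤ m, (n + 1) ^ Fintype.card σ ≤ B := fun n hn =>
    (Nat.pow_le_pow_left (by omega) _).trans (s2.trans sB)
  have a1 : AM B Γ 27 fun x => cx' (sq (p x)) :=
    (AM.prod Finset.univ h2 (n := 2 * d) (fun j _ => ((h j).mul (h j) (hd j) (pw _ (dd j))).congr
      fun _ _ => pow_two _) (fun j _ x hx => (totalDegree_pow _ _).trans
        (Nat.mul_le_mul_left 2 (hd j x hx))) (pw _ d2)).ofReal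
  have cQ : Fintype.card (Std σ m ⊕ Std σ m × Std σ m) ≤ sz σ m :=
    (Nat.le_mul_of_pos_right _ (by omega)).trans s4
  have a2 : AP B Γ 330 fun x => Qp m (cx' (sq (p x))) :=
    AP.pol (fun x _ => H.isP_Q _) (lt _ (by omega)) fun t ht =>
      ((H.lamA α σ B Γ 27 m (sz σ m) _ (fun _ => (t : ℂ)) sB sB dc a1
        ((A.nat (lt _ (by omega)).le).mono (by omega))).qv (lt _ (by omega)) cQ).congr (by simp)
  have a3 : A B Γ 370 fun x => ls m (cx' (sq (p x))) :=
    H.cba α B Γ 330 (nQ σ m) _ (lt _ (by omega)) a2 (fun x _ => (H.isP_Q _).pol.1)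
      fun x hx => H.Qp_ne (by omega) (dc x hx)
  refine (P.share1 a3 (e' := 3200) fun Δ le a4 => ?_).mono (by omega)
  have dc' : ∀ x ∈ Δ.Y, (cx' (sq (p x))).totalDegree < m := fun x hx => dc x (le.1 hx)
  have t1 : D B Δ 3198 fun x y => ∀ η ∈ Finset.range (nQ σ m + 1),
      Tr (La m (cx' (sq (p x))) η) (La m (cx' (sq (p y))) η) :=
    D.all _ (by simpa using lt _ (by omega)) fun η hη => H.trace α _ B Δ 197 _ _
      (le_B h1 s1 (by nlinarith) le_rfl) (fun x _ => H.pp_La _ η) fun Θ le' t ht =>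
        H.lamA α σ B Θ 27 m _ _ _ sB (le_B h1 s1 (by nlinarith) (by omega))
          (fun x hx => dc' x (le'.1 hx)) (a1.ext (le.trans le')) (((a4.ext le').arc ht
            (lt _ (by have := Finset.mem_range.1 hη; omega)).le).mono (by omega))
  have a5 : A B Δ 27 fun x => (ls m (cx' (sq (p x))) : ℂ) := (a4.ofReal (𝕜 := ℂ)).mono (by omega)
  have a6 : AM B Δ 107 fun x => Fe m (p x) :=
    (H.flA α σ B Δ 27 m _ _ sB (fun x hx => (dc' x hx).le) (a1.ext le) a5).1
  have dF : Dm Δ (m + 1) fun x => Fe m (p x) := fun x hx => deg_Fl (dc' x hx) _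
  have t2 := H.typ α _ _ B Δ 197 500 (fun x => Le m (p x)) (fun x => lab m (p x))
    (le_B h1 s1 (by nlinarith) (by omega))
    (H.lamA α σ B Δ 27 m _ _ _ sB (s3.trans sB) dc' (a1.ext le) a5) fun Θ le' z hz hr => by
      have ru : ∀ q : α → MvPolynomial σ ℂ, Dm Θ (m + 1) q → AM B Θ 131 q →
          A B Θ 433 fun x => (eval (cpv (Fe m (p x)) (z x)) (q x)).re := fun q a b =>
        (H.rurA α σ B Θ 131 m _ q _ z sB (fun x hx => dc' x (le'.1 hx)) a
          ((a1.ext (le.trans le')).mono (by omega)) b ((a5.ext le').mono (by omega))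
          (hz.mono (by omega)) fun x hx => ⟨hr x hx, H.mor_ls (by omega) (dc' x (le'.1 hx))⟩).re
      have u1 := D.all Finset.univ h2 fun j _ => D.sign (ru (fun x => cx' (p x j)) (fun x hx =>
        (deg_cx _).trans ((hd j x (le.1 (le'.1 hx))).trans (by have := dd j; omega)))
          (((h j).ext (le.trans le')).ofReal.mono (by omega)))
      have dp : ∀ j, Dm Θ (m + 1) fun x => pderiv j (Fe m (p x)) := fun j x hx =>
        (totalDegree_pderiv_le _ _).trans (dF x (le'.1 hx))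
      have u2 := H.sigs α σ B Θ 433 (fun x => (Hess (Fe m (p x)) (cpv (Fe m (p x)) (z x))).map
        Complex.re) (lt _ (by omega)) (fun x _ => (hess_symm _ _).map _) fun i j =>
          ru _ (fun x hx => (totalDegree_pderiv_le _ _).trans (dp j x hx))
            (((a6.ext le').pderiv (dF.ext le') (lt _ (by omega)) j).pderiv (dp j) (lt _ (by omega)) i)
      exact D.imp ((((D.sign hz.re).and (D.sign hz.im)).and (u1.and u2)).mono (by omega))
        fun x _ y _ a => Prod.ext a.1.1 (Prod.ext a.1.2 (Prod.ext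
          (funext fun j => a.2.1 j (Finset.mem_univ j)) a.2.2))
  refine D.imp ((t1.and t2).mono (by omega)) fun x hx y hy a π hπ i => ?_
  have inj : ∀ x ∈ Δ.Y, Injective (Le m (p x)) := fun x hx =>
    (H.mor_ls (by omega) (dc' x hx)).choose_spec.inj
  exact H.same (by omega) ho (dq x (le.1 hx)) (dq y (le.1 hy))
    (fun η hη => a.1 η (Finset.mem_range.2 (by omega))) (a.2 (inj x hx) (inj y hy)) hπ i

/-- The homology of every strict sign cell is determined. -/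
theorem core {p : α → τ → MvPolynomial σ ℝ}
    (h1 : sz σ (2 * Fintype.card τ * (d + 1) + 3) ^ 200 ≤ B)
    (hd : ∀ j, Dm Γ d fun x => p x j) (h : ∀ j, AM B Γ e fun x => p x j) :
    D B Γ (e + 4001) fun x y => ∀ π : τ → SignType, (∀ j, π j ≠ 0) → ∀ i,
      hs (cell (p x) π) ∅ i = hs (cell (p y) π) ∅ i ∧ hs (cell (p x) π) ∅ i ≠ ⊤ := by
  classical
  obtain ⟨s1, s2, -, -, -, -, s7⟩ := sizes (σ := σ) (by omega : 3 ≤ 2 * Fintype.card τ * (d + 1) + 3)
  have sB := (Nat.le_self_pow (by omega) _).trans h1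
  have h2 : Fintype.card τ ≤ B := by nlinarith
  have hd' : ∀ j, Dm Γ (d + 1) fun x => p x j := fun j x hx => (hd j x hx).trans d.le_succ
  rcases isEmpty_or_nonempty τ with h0 | ⟨⟨j⟩⟩
  · exact (H.core1 h1 h2 hd' fun j => isEmptyElim j).mono (by omega)
  · refine (AM.share_all h hd h2 ((Nat.pow_le_pow_left ?_ _).trans (s2.trans sB)) fun Δ a b =>
      H.core1 h1 h2 (fun j => (hd' j).ext a) b).mono (by omega)
    have := Fintype.card_pos_iff.2 ⟨j⟩
    nlinarith

end All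

end Pool.Agent.Lib.MP_837412_lc
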