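import Pool.Agent.Lib.MP_837412_lc.G3

/-!
From strict sign cells to open sets, and the final tree.
-/

namespace Pool.Agent.Lib.MP_837412_lc

open Pool.Agent.Shared.Mod2 Set Function MvPolynomial Filter Topology

lemma D.refl {α : Type} {B e : ℕ} {Γ : Ctx α} {r : α → α → Prop} (h : D B Γ e r) :
    ∀ x ∈ Γ.Y, r x x := by
  unfold D P at h
  generalize B ^ e = L at h
  induction h with
  | done h => exact fun x hx => h _ le_rfl x hx x hx
  | op w _ _ ih => exact ih
  | test u _ _ ih => exact fun x hx => ih _ x ⟨hx, rfl⟩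

lemma hs_one {Y : Type} [TopologicalSpace Y] {A : Set Y} : hs A ∅ 1 ≠ 0 ↔ A.Nonempty := by
  rcases A.eq_empty_or_nonempty with rfl | h
  · simpa using Ac.refl (∅ : Set Y) 1
  · simp [hs_empty h, h]

section Sm

/-- Singly exponential bounds. -/
def Sm (b n c x : ℕ) : Prop := x ≤ b ^ n ^ c

variable {b n c x y j : ℕ} (hb : 2 ≤ b) (hn : 2 ≤ n)
include hb hn

lemma Sm.mono (h : Sm b n c x) (h' : c ≤ j) : Sm b n j x :=
  h.trans (Nat.pow_le_pow_right (by omega) (Nat.pow_le_pow_right (by omega) h'))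

lemma Sm.pow (h : Sm b n c x) (hy : y ≤ n ^ j) : Sm b n (c + j) (x ^ y) := by
  refine (Nat.pow_le_pow_left h y).trans ?_
  rw [← pow_mul, pow_add]
  exact Nat.pow_le_pow_right (by omega) (Nat.mul_le_mul_left _ hy)

lemma Sm.poly (h : Sm b n c x) (hy : y ≤ (x + 2) ^ 4) : Sm b n (c + 4) y := by
  have a : 2 ≤ b ^ n ^ c := hb.trans (Nat.le_self_pow (by positivity) _)
  have e : Sm b n (c + 1) (x + 2) := by
    have := Sm.pow hb hn (x := b ^ n ^ c) (c := c) (j := 1) (y := 2) le_rfl (by simpa)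
    unfold Sm at *
    nlinarith
  exact hy.trans ((e.pow hb hn (j := 2) (by nlinarith)).mono hb hn (by omega))

lemma Sm.add (h : Sm b n c x) (h' : Sm b n c y) : Sm b n (c + 4) (x + y) :=
  Sm.poly hb hn (x := max x y) (max_le h h') (by
    have := le_max_left x y; have := le_max_right x y
    generalize max x y = z at *
    nlinarith [Nat.zero_le (z ^ 4), Nat.zero_le (z ^ 3), Nat.zero_le (z ^ 2)])

omit hn in
lemma Sm.self : Sm b n 1 n := by
  rw [Sm, pow_one]; exact (Nat.lt_pow_self (by omega)).le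

lemma Sm.sz {σ : Type} [Fintype σ] {m : ℕ} (h : Sm b n c (m + n)) (hσ : Fintype.card σ ≤ 3 * n) :
    Sm b n (c + 16) (sz σ m ^ 200) := by
  have a : Sm b n (c + 4) (Kf σ m + 1) := h.poly hb hn (by
    have : Kf σ m ≤ (3 * n + 1) * (m + 1) := Nat.mul_le_mul_right _ (by omega)
    have e : (3 * n + 1) * (m + 1) + 1 ≤ (m + n + 2) ^ 2 * (m + n + 2) ^ 2 := by
      have : 3 * n + 2 ≤ (m + n + 2) ^ 2 := by nlinarith
      have : m + 1 ≤ (m + n + 2) ^ 2 := by nlinarith
      nlinarith
    exact (Nat.succ_le_succ this).trans (e.trans_eq (by ring)))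
  have e8 : 200 ≤ n ^ 8 := le_trans (by norm_num) (Nat.pow_le_pow_left hn 8)
  have e4 : 2 * Fintype.card σ + 2 ≤ n ^ 4 := by
    have := Nat.pow_le_pow_left hn 3
    rw [pow_succ]; nlinarith
  have a' : Sm b n (c + 8) (MP_837412_lc.sz σ m) := Sm.pow hb hn (c := c + 4) (j := 4) a e4
  exact Sm.pow hb hn (c := c + 8) (j := 8) a' e8

lemma Sm.depth (a : 2 ≤ x) (h : Sm b n c x) (hy : y ≤ 8000) : Sm b n (c + 13) (10 * x ^ y) := by
  have e : 4 + y ≤ n ^ 13 := le_trans (by omega) (Nat.pow_le_pow_left hn 13)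
  refine le_trans ?_ (h.pow hb hn e)
  rw [pow_add]
  exact Nat.mul_le_mul_right _ (le_trans (by norm_num) (Nat.pow_le_pow_left a 4))

end Sm

variable {k s : ℕ}

/-- One more variable makes all sign vectors visible as strict sign vectors. -/
noncomputable def Qw (P : Fin s → MvPolynomial (Fin k) ℝ) (q : Fin s × Bool) :
    MvPolynomial (Option (Fin k)) ℝ :=
  X none * rename some (P q.1) + C (if q.2 then 1 else -1)

/-- The sign vector that belongs to a strict sign vector of the new family. -/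
def dec (π : Fin s × Bool → SignType) (j : Fin s) : SignType :=
  if π (j, false) = 1 then 1 else if π (j, true) = -1 then -1 else 0

/-- The realised strict sign vectors. -/
def Tq (P : Fin s → MvPolynomial (Fin k) ℝ) : Set (Fin s × Bool → SignType) :=
  {π | (∀ j, π j ≠ 0) ∧ (cell (Qw P) π).Nonempty}

lemma exists_Tq (P : Fin s → MvPolynomial (Fin k) ℝ) (y : Fin k → ℝ) :
    (fun j => SignType.sign (eval y (P j))) ∈ dec '' Tq P := by
  have key : ∀ u : ℝ, ∀ᶠ w in atTop, u ≠ 0 → 1 < w * |u| := fun u => by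
    by_cases h : u = 0
    · exact .of_forall fun _ a => absurd h a
    · exact ((tendsto_id.atTop_mul_const (abs_pos.2 h)).eventually_gt_atTop 1).mono fun _ a _ => a
  obtain ⟨w, hw, w0⟩ := ((eventually_all.2 fun j => key (eval y (P j))).and
    (eventually_gt_atTop 0)).exists
  have e : ∀ q, eval (fun o => o.elim w y) (Qw P q) =
      w * eval y (P q.1) + if q.2 then 1 else -1 := fun q => by
    simp [Qw, eval_rename, comp_def]
  refine ⟨fun q => SignType.sign (w * eval y (P q.1) + if q.2 then 1 else -1),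
    ⟨fun q => sign_ne_zero.2 ?_, fun o => o.elim w y, fun q => by rw [e]⟩, funext fun j => ?_⟩
  · have := hw q.1
    generalize eval y (P q.1) = u at this
    rcases lt_trichotomy u 0 with a | a | a
    · rw [abs_of_neg a] at this; split_ifs <;> linarith [this a.ne]
    · rw [a]; split_ifs <;> norm_num
    · rw [abs_of_pos a] at this; split_ifs <;> linarith [this a.ne']
  · have := hw j
    simp only [dec, sign_eq_one_iff, sign_eq_neg_one_iff, Bool.false_eq_true, if_false, if_true]
    generalize eval y (P j) = u at this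
    rcases lt_trichotomy u 0 with a | a | a
    · rw [abs_of_neg a] at this
      rw [if_neg (by linarith [this a.ne]), if_pos (by linarith [this a.ne]), sign_neg a]
    · rw [a]; norm_num
    · rw [abs_of_pos a] at this
      rw [if_pos (by linarith [this a.ne']), sign_pos a]

/-- The polynomials that are positive on the open star of a sign vector. -/
noncomputable def Pa (P : Fin s → MvPolynomial (Fin k) ℝ) (σ : Fin s → SignType) :
    Option (Fin s) → MvPolynomial (Fin k) ℝ
  | none => 1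
  | some j => if σ j = 0 then 1 else C (σ j : ℝ) * P j

lemma mem_Pa {P : Fin s → MvPolynomial (Fin k) ℝ} {σ : Fin s → SignType} {y : Fin k → ℝ} :
    y ∈ cell (Pa P σ) (fun _ => 1) ↔ ∀ j, σ j ≠ 0 → SignType.sign (eval y (P j)) = σ j := by
  simp only [cell, mem_ofPred_eq, Option.forall, Pa, map_one, sign_one, true_and]
  refine forall_congr' fun j => ?_
  rcases σ j with _ | _ | _ <;> simp [sign_eq_one_iff, sign_eq_neg_one_iff]

lemma signSet_eq {P : Fin s → MvPolynomial (Fin k) ℝ} {Φ : Set (Fin s → SignType)}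
    (h : UpClosed Φ) {N : ℕ} (e : Fin N ≃ ↥(dec '' Tq P ∩ Φ)) :
    ⋃ a, cell (Pa P (e a)) (fun _ => 1) = signSet P Φ := by
  ext y
  simp only [mem_iUnion, mem_Pa]
  exact ⟨fun ⟨a, b⟩ => h _ (e a).2.2 _ b, fun a => ⟨e.symm ⟨_, exists_Tq P y, a⟩, by simp⟩⟩

lemma isOpen_signSet {P : Fin s → MvPolynomial (Fin k) ℝ} {Φ : Set (Fin s → SignType)}
    (h : UpClosed Φ) : IsOpen (signSet P Φ) := by
  rw [← signSet_eq h (Finite.equivFin _).symm]
  exact isOpen_iUnion fun _ => isOpen_cell _ fun _ => one_ne_zero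

namespace All

variable (H : All)
include H

theorem det {α : Type} {Γ : Ctx α} {d : ℕ} {p : α → Fin s → MvPolynomial (Fin k) ℝ}
    {Φ : Set (Fin s → SignType)} (hΦ : UpClosed Φ) {b B : ℕ} [Fact (2 ≤ B)] (hb : 2 ≤ b)
    (h1 : s ≤ b) (h2 : d ≤ b) (hB : b ^ (k + 2) ^ 50 ≤ B) (hd : ∀ j, Dm Γ d fun x => p x j)
    (h : ∀ j, AM B Γ 1 fun x => p x j) : D B Γ 5000 fun x y => ∀ j < k + 2,
      hs (signSet (p x) Φ) ∅ j = hs (signSet (p y) Φ) ∅ j ∧ hs (signSet (p x) Φ) ∅ j ≠ ⊤ := by
  classical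
  have hn : 2 ≤ k + 2 := by omega
  have le : ∀ {c x}, Sm b (k + 2) c x → c ≤ 50 → x ≤ B := fun a c => (a.mono hb hn c).trans hB
  have sb : Sm b (k + 2) 0 b := by simp [Sm]
  have sn : ∀ {c}, 1 ≤ c → Sm b (k + 2) c (k + 2) := fun a => (Sm.self hb).mono hb hn a
  have p4 : ∀ {x}, x ≤ 8 * (b + 2) ^ 2 → Sm b (k + 2) 4 x := fun a => sb.poly hb hn
    (a.trans (by rw [show 4 = 2 + 2 from rfl, pow_add]; exact Nat.mul_le_mul_right _ (by nlinarith)))
  have cq : Fintype.card (Fin s × Bool) = s * 2 := by simp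
  have dQ : ∀ q, Dm Γ (d + 1) fun x => Qw (p x) q := fun q x hx =>
    (totalDegree_add _ _).trans (max_le ((totalDegree_mul _ _).trans (by
      rw [totalDegree_X, add_comm]
      exact Nat.succ_le_succ ((totalDegree_rename_le _ _).trans (hd _ x hx))))
      (by rw [totalDegree_C]; omega))
  have aQ : ∀ q, AM B Γ 18 fun x => Qw (p x) q := fun q =>
    ((AM.X none).mul (AM.rename (Option.some_injective _) (h q.1)) (n := 1)
      (fun _ _ => (totalDegree_X _).le) (le ((p4 (by nlinarith)).pow hb hn (j := 1) (by simp))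
        (by omega))).add (AM.C (e := 7) (by
          split_ifs
          exacts [A.one.mono (by omega), A.one.neg]))
  have t1 : D B Γ 4019 fun x y => Tq (p x) = Tq (p y) :=
    (H.core (le (((p4 (by rw [cq]; nlinarith)).add hb hn (sn (by omega))).sz hb hn (by simp; omega))
      (by omega)) dQ aQ).imp fun x _ y _ a => Set.ext fun π => and_congr_right fun hπ => by
        rw [← hs_one, ← hs_one, (a π hπ 1).1]
  refine (P.cases t1 (e' := 4200) fun c Δ le' hc => ?_).mono (by omega)
  rcases Δ.Y.eq_empty_or_nonempty with h0 | ⟨x₀, hx₀⟩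
  · exact D.of_forall (by simp [h0])
  have e := (Finite.equivFin ↥(dec '' c ∩ Φ)).symm
  have sN : Sm b (k + 2) 5 (Nat.card ↥(dec '' c ∩ Φ)) := by
    refine le_trans ?_ ((p4 (x := 2 * Fintype.card (Fin s × Bool) * (d + 1) + 3)
      (by rw [cq]; nlinarith)).pow hb hn (j := 1) (y := Fintype.card (Option (Fin k))) (by simp))
    refine le_trans ?_ (H.count _ _ _ _ fun q => dQ q x₀ (le'.1 hx₀))
    rw [Nat.card_coe_set_eq, ← hc x₀ hx₀]
    exact (ncard_le_ncard inter_subset_left).trans (ncard_image_le (toFinite _))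
  generalize Nat.card ↥(dec '' c ∩ Φ) = N at e sN
  have sM : Sm b (k + 2) 9 (N + (d + 2)) := sN.add hb hn ((p4 (by nlinarith)).mono hb hn (by omega))
  have big := fun χ : Fin (k + 2) → Option (Fin s) => H.bigA α _ _ _ B Δ 11 d N
    (fun x a => Pa (p x) (e a)) χ (le ((((sM.poly hb hn (y := 2 * (N + d + 2) ^ 2) (by
      rw [show 4 = 2 + 2 from rfl, pow_add, ← add_assoc]
      exact Nat.mul_le_mul (le_trans (by omega) (Nat.le_self_pow two_ne_zero _))
        (Nat.pow_le_pow_left (by omega) 2))).add hb hn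
        ((p4 (by simp; nlinarith)).mono hb hn (by omega))).add hb hn (by simpa using sn (by omega))).pow
          hb hn (j := 3) (by simp; nlinarith [Nat.zero_le (k ^ 3), Nat.zero_le (k ^ 2)])) (by omega))
    (fun a j x hx => by
      rcases j with _ | j
      · simp [Pa]
      · simp only [Pa]
        split_ifs
        · simp
        · exact (totalDegree_mul _ _).trans (by simpa using hd j x (le'.1 hx)))
    fun a j => by
      rcases j with _ | j
      · exact (AM.C A.one).mono (by omega)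
      · simp only [Pa]
        split_ifs
        · exact (AM.C A.one).mono (by omega)
        · refine AM.C_mul (e := 7) ?_ ((h j).ext le')
          rcases (e a).1 j with _ | _ | _
          exacts [by simpa using A.zero.mono (by omega), by simpa using A.one.neg,
            by simpa using A.one.mono (by omega)]
  have sT : Sm b (k + 2) 5 (Fintype.card (Fin (k + 2) → Option (Fin s))) := by
    simpa using (p4 (x := s + 1) (by nlinarith)).pow hb hn (j := 1) (y := k + 2) (by simp)
  refine D.mono ((H.core (le ((((sM.add hb hn (sT.mono hb hn (by omega))).poly hb hn ?_).add hb hn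
    (sn (by omega))).sz hb hn (by simp; omega)) (by omega)) (fun χ => (big χ).2)
      fun χ => (big χ).1).imp fun x hx y hy a j hj => ?_) (by omega)
  · generalize Fintype.card (Fin (k + 2) → Option (Fin s)) = T
    rw [show 4 = 2 + 2 from rfl, pow_add]
    refine le_trans ?_ (Nat.mul_le_mul_right _
      (le_trans (by omega : 4 ≤ _) (Nat.le_self_pow two_ne_zero _)))
    nlinarith [Nat.zero_le (N * N), Nat.zero_le (T * T), Nat.zero_le (d * d), Nat.zero_le (N * d)]
  · have u : ∀ x ∈ Δ.Y, hs (cell (MP_837412_lc.big (ι := Fin (k + 2)) fun a => Pa (p x) (e a))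
        fun _ => 1) ∅ j = hs (signSet (p x) Φ) ∅ j := fun x hx => by
      obtain rfl := hc x hx
      rw [H.bigS _ _ _ _ _ j (by simpa using hj), signSet_eq hΦ e]
    rw [← u x hx, ← u y hy]
    exact a _ (fun _ => one_ne_zero) j

theorem main0 (k s d : ℕ) (Φ : Set (Fin s → SignType)) (hΦ : UpClosed Φ) {b : ℕ} (hb : 2 ≤ b)
    (h1 : s ≤ b) (h2 : d ≤ b) : ∃ T : Tree (Fin s × (Fin k →₀ ℕ)), T.depth ≤ b ^ (k + 2) ^ 63 ∧
      ∀ P : Fin s → MvPolynomial (Fin k) ℝ, (∀ j, (P j).totalDegree ≤ d) → ∀ i,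
        betti2 (signSet P Φ) i = (T.run (fun q => coeff q.2 (P q.1)) []).getD i 0 := by
  have hn : 2 ≤ k + 2 := by omega
  have : Fact (2 ≤ b ^ (k + 2) ^ 50) := ⟨hb.trans (Nat.le_self_pow (by positivity) _)⟩
  have t := H.det (Γ := ⟨{P | ∀ j, (P j).totalDegree ≤ d},
    range fun (q : Fin s × (Fin k →₀ ℕ)) P => coeff q.2 (P q.1)⟩) (p := id) hΦ hb h1 h2 le_rfl
      (fun j P hP => hP j) fun j m => A.of_real ⟨_, ⟨(j, m), rfl⟩, fun _ _ => rfl⟩
  obtain ⟨T, t1, t2⟩ := H.tree _ _ (fun P (q : Fin s × (Fin k →₀ ℕ)) => coeff q.2 (P q.1)) _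
    (fun P => List.ofFn fun i : Fin (k + 1) => (hs (signSet P Φ) ∅ (i + 1)).toNat) _
    (t.imp fun x _ y _ a => by
      congr 1
      exact funext fun i => congrArg _ (a _ (by omega)).1)
  refine ⟨T, t1.trans ?_, fun P hP i => ?_⟩
  · exact Sm.depth hb hn (c := 50) this.1 le_rfl (by norm_num)
  · have e := H.betti (signSet P Φ) i
    rw [← hs_image (φ := ⟨Subtype.val, continuous_subtype_val⟩) IsEmbedding.subtypeVal] at e
    simp only [ContinuousMap.coe_mk, image_univ, Subtype.range_coe_subtype, image_empty,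
      ofPred_mem_eq] at e
    rw [t2 P hP, ← Cardinal.toENat_eq_natCast, e]
    rcases lt_or_ge i (k + 1) with hi | hi
    · rw [List.getD_eq_getElem _ _ (by simpa using hi), List.getElem_ofFn]
      exact (ENat.natCast_toNat (t.refl P hP _ (by omega)).2).symm
    · rw [List.getD_eq_default _ _ (by simpa using hi)]
      exact hs_open (isOpen_signSet hΦ) (by simpa using hi)

theorem main : ∃ c : ℕ, ∀ (k s d : ℕ) (Φ : Set (Fin s → SignType)), UpClosed Φ →
    ∃ T : Tree (Fin s × (Fin k →₀ ℕ)), T.depth ≤ (s * (d + 1) + 2) ^ (k + 2) ^ c ∧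
      ∀ P : Fin s → MvPolynomial (Fin k) ℝ, (∀ j, (P j).totalDegree ≤ d) → ∀ i,
        betti2 (signSet P Φ) i = (T.run (fun q => coeff q.2 (P q.1)) []).getD i 0 := by
  refine ⟨63, fun k s d Φ hΦ => ?_⟩
  rcases s with _ | s
  · obtain ⟨T, a, b⟩ := H.main0 k 0 0 Φ hΦ le_rfl (by omega) (by omega)
    exact ⟨T, by simpa using a, fun P _ => b P fun j => j.elim0⟩
  · exact H.main0 k _ d Φ hΦ (by omega) (by nlinarith) (by nlinarith)

end All

end Pool.Agent.Lib.MP_837412_lc
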