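import Pool.Agent.Lib.MP_837412_lc.StC

/-!
Reduction modulo a monic polynomial, and computing with an adjoined real root.
-/

namespace Pool.Agent.Lib.MP_837412_lc

open Set Polynomial Function

namespace JAdj

lemma red {p T : ℝ[X]} {k : ℕ} (hp : p.Monic) (hk : p.natDegree = k)
    (hT : ∀ m, k < m → T.coeff m = 0) : T %ₘ p = T - C (T.coeff k) * p := by
  refine (div_modByMonic_unique (C (T.coeff k)) _ hp ⟨by ring, ?_⟩).2
  rw [degree_eq_natDegree hp.ne_zero, hk, degree_lt_iff_coeff_zero]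
  intro m hm
  rw [coeff_sub, coeff_C_mul]
  rcases hm.eq_or_lt with rfl | hm
  · rw [← hk, hp.coeff_natDegree, mul_one, sub_self]
  · rw [hT m hm, coeff_eq_zero_of_natDegree_lt (hk.trans_lt hm), mul_zero, sub_self]

lemma red_succ {p : ℝ[X]} {k : ℕ} (hp : p.Monic) (hk : p.natDegree = k) (m : ℕ) :
    X ^ (m + 1) %ₘ p = X ^ m %ₘ p * X ^ 1 - C ((X ^ m %ₘ p * X ^ 1).coeff k) * p := by
  rw [← red hp hk fun i hi => ?_]
  · refine modByMonic_eq_of_dvd_sub hp ⟨X ^ m /ₘ p * X, ?_⟩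
    linear_combination (-X) * modByMonic_add_div (X ^ m) p
  · obtain ⟨i, rfl⟩ : ∃ l, i = l + 1 := ⟨i - 1, by omega⟩
    rw [coeff_mul_X_pow]
    refine coeff_eq_zero_of_degree_lt ((degree_modByMonic_lt _ hp).trans_le ?_)
    rw [degree_eq_natDegree hp.ne_zero, hk]
    exact_mod_cast Nat.le_of_lt_succ hi

lemma mod_sum {p q : ℝ[X]} {n : ℕ} (hq : q.natDegree ≤ n) :
    q %ₘ p = ∑ i ∈ Finset.range (n + 1), C (q.coeff i) * (X ^ i %ₘ p) := by
  conv_lhs => rw [as_sum_range' q (n + 1) (Nat.lt_succ_of_le hq), ← modByMonicHom_apply, map_sum]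
  refine Finset.sum_congr rfl fun i _ => ?_
  rw [modByMonicHom_apply, ← smul_X_eq_monomial, smul_modByMonic, smul_eq_C_mul]

end JAdj

theorem modS : ModS := by
  intro α B hB Γ e n k p q hn hp hq hm hd hd'
  have dg : ∀ m, Dg Γ n fun x => X ^ m %ₘ p x := fun m x hx =>
    (natDegree_modByMonic_le _ (hm x hx).1).trans (hd x hx)
  have key : ∀ m ≤ n, AP B Γ (e + 14) fun x => X ^ m %ₘ p x := fun m hmn => by
    refine (AP.of_le (e := e + 11 + 3) (dg m) fun i hi => ?_).mono (by omega)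
    refine A.iter (u := fun m i x => (X ^ m %ₘ p x).coeff i) (Finset.range (n + 1))
      (by simp; omega) (by omega) (fun i _ => ?_) (fun l _ Δ a b i _ => ?_) i
      (by simpa using Nat.lt_succ_of_le hi)
    · have h1 : AP B Γ 3 fun _ => (C 1 : ℝ[X]) := AP.C A.one
      refine (((h1.sub (AP.C_mul (h1 k) hp)).congr fun x hx => ?_) i).mono (by omega)
      rw [pow_zero, C_1]
      exact JAdj.red (hm x hx).1 (hm x hx).2 fun l hl => by
        rw [coeff_one, if_neg (by omega)]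
    · have h1 := (AP.of_le ((dg l).ext a) fun j hj =>
        b j (by simpa using Nat.lt_succ_of_le hj)).mul_X_pow 1
      refine (((h1.sub (AP.C_mul (h1 k) (hp.ext a))).congr fun x hx => ?_) i).mono (by omega)
      exact JAdj.red_succ (hm x (a.1 hx)).1 (hm x (a.1 hx)).2 l
  exact ((AP.sum (Finset.range (n + 1)) (by simp; omega) fun i hi => AP.C_mul (hq i)
    (key i (by have := Finset.mem_range.1 hi; omega))).congr fun x hx =>
      JAdj.mod_sum (hd' x hx)).mono (by omega)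

namespace JAdj

variable {α : Type} {B : ℕ} [hB : Fact (2 ≤ B)] {n : ℕ} {ρ : α → ℝ} {Γ Θ Θ' : Ctx α}

/-- The function is a quotient of two available polynomials in `ρ`. -/
def Rep (B n : ℕ) (ρ : α → ℝ) (Θ : Ctx α) (v : α → ℝ) : Prop :=
  ∃ a b : α → ℝ[X], AP B Θ 3 a ∧ AP B Θ 3 b ∧ Dg Θ n a ∧ Dg Θ n b ∧
    ∀ x ∈ Θ.Y, (b x).eval (ρ x) ≠ 0 ∧ v x = (a x).eval (ρ x) / (b x).eval (ρ x)

omit hB in
lemma Rep.mono {v : α → ℝ} (h : Rep B n ρ Θ v) (e : Θ ≤ Θ') : Rep B n ρ Θ' v :=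
  let ⟨a, b, h1, h2, h3, h4, h5⟩ := h
  ⟨a, b, h1.ext e, h2.ext e, h3.ext e, h4.ext e, fun x hx => h5 x (e.1 hx)⟩

omit hB in
lemma Rep.congr {u v : α → ℝ} (h : Rep B n ρ Θ v) (e : ∀ x ∈ Θ.Y, u x = v x) : Rep B n ρ Θ u :=
  let ⟨a, b, h1, h2, h3, h4, h5⟩ := h
  ⟨a, b, h1, h2, h3, h4, fun x hx => ⟨(h5 x hx).1, (e x hx).trans (h5 x hx).2⟩⟩

lemma Rep.poly {v : α → ℝ} {a : α → ℝ[X]} (h1 : AP B Θ 3 a) (h2 : Dg Θ n a)
    (h3 : ∀ x ∈ Θ.Y, v x = (a x).eval (ρ x)) : Rep B n ρ Θ v :=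
  ⟨a, fun _ => C 1, h1, AP.C A.one, h2, fun _ _ => by simp, fun x hx => by simpa using h3 x hx⟩

lemma Rep.const {v : α → ℝ} (h : A B Θ 2 v) : Rep B n ρ Θ v :=
  Rep.poly (AP.C h) (fun _ _ => by simp) fun _ _ => by simp

/-- The monic polynomial that vanishes at `ρ` is available. -/
def Md (B n k : ℕ) (ρ : α → ℝ) (pm : α → ℝ[X]) (Θ : Ctx α) : Prop :=
  AP B Θ 20 pm ∧ Dg Θ n pm ∧
    ∀ x ∈ Θ.Y, ((pm x).Monic ∧ (pm x).natDegree = k) ∧ (pm x).eval (ρ x) = 0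

variable {k : ℕ} {pm : α → ℝ[X]}

omit hB in
lemma Md.mono (h : Md B n k ρ pm Θ) (e : Θ ≤ Θ') : Md B n k ρ pm Θ' :=
  ⟨h.1.ext e, h.2.1.ext e, fun x hx => h.2.2 x (e.1 hx)⟩

lemma eval_mod {p a : ℝ[X]} {t : ℝ} (h : p.eval t = 0) : (a %ₘ p).eval t = a.eval t := by
  conv_rhs => rw [← modByMonic_add_div a p, eval_add, eval_mul, h, zero_mul, add_zero]

lemma reduce (h2 : ModS) (hn : 2 * n + 1 < B) (hm : Md B n k ρ pm Θ) {w : α → ℝ}
    {a b : α → ℝ[X]} (ha : AP B Θ 20 a) (hb : AP B Θ 20 b) (da : Dg Θ (2 * n) a)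
    (db : Dg Θ (2 * n) b)
    (hw : ∀ x ∈ Θ.Y, (b x).eval (ρ x) ≠ 0 ∧ w x = (a x).eval (ρ x) / (b x).eval (ρ x)) :
    P B (Rep B n ρ · w) Θ 300 := by
  have md : ∀ c : α → ℝ[X], Dg Θ n fun x => c x %ₘ pm x := fun c x hx =>
    (natDegree_modByMonic_le _ (hm.2.2 x hx).1.1).trans (hm.2.1 x hx)
  have h3 := h2 α B Θ 20 (2 * n) k pm a hn hm.1 ha (fun x hx => (hm.2.2 x hx).1)
    (hm.2.1.mono (by omega)) da
  have h4 := h2 α B Θ 20 (2 * n) k pm b hn hm.1 hb (fun x hx => (hm.2.2 x hx).1)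
    (hm.2.1.mono (by omega)) db
  refine (h3.share (md a) (by omega) (e' := 52) fun Δ e1 a1 => ?_).mono (by omega)
  refine ((h4.ext e1).share ((md b).ext e1) (by omega) (e' := 0) fun Δ' e2 a2 => ?_).mono
    (by omega)
  refine P.done fun Δ'' e3 => Rep.mono ⟨_, _, (a1.ext e2).mono (by omega), a2.mono (by omega),
    (md a).ext (e1.trans e2), (md b).ext (e1.trans e2), fun x hx => ?_⟩ e3
  have hx' := (e1.trans e2).1 hx
  rw [eval_mod (hm.2.2 x hx').2, eval_mod (hm.2.2 x hx').2]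
  exact hw x hx'

lemma dg_mul {a b : α → ℝ[X]} (da : Dg Θ n a) (db : Dg Θ n b) :
    Dg Θ (2 * n) fun x => a x * b x := fun x hx =>
  natDegree_mul_le.trans (by have := da x hx; have := db x hx; omega)

lemma step (h2 : ModS) (hn : 2 * n + 1 < B) (hm : Md B n k ρ pm Θ) {Δ : Ctx α} {w : α → ℝ}
    (hY : Θ.Y ⊆ Δ.Y) (hS : ∀ v, Δ.Has v → Rep B n ρ Θ v) (hw : Δ.Step true w) :
    P B (Rep B n ρ · w) Θ 300 := by
  rcases hw with rfl | ⟨u, v, hu, hv, hw⟩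
  · exact P.done fun _ _ => Rep.const A.one
  obtain ⟨a, b, a1, b1, a2, b2, h3⟩ := hS u hu
  obtain ⟨c, d, c1, d1, c2, d2, h4⟩ := hS v hv
  have hn' : n < B := by omega
  have bd := (b1.mul d1 b2 hn').mono (show _ ≤ 20 by omega)
  rcases hw with rfl | rfl | rfl | ⟨-, h0, rfl⟩
  · refine reduce h2 hn hm (((a1.mul d1 a2 hn').add (b1.mul c1 b2 hn')).mono (by omega)) bd
      (fun x hx => (natDegree_add_le _ _).trans (max_le (dg_mul a2 d2 x hx) (dg_mul b2 c2 x hx)))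
      (dg_mul b2 d2) fun x hx => ?_
    simp only [eval_add, eval_mul, Pi.add_apply]
    exact ⟨mul_ne_zero (h3 x hx).1 (h4 x hx).1, by
      rw [(h3 x hx).2, (h4 x hx).2, div_add_div _ _ (h3 x hx).1 (h4 x hx).1]⟩
  · refine reduce h2 hn hm (((a1.mul d1 a2 hn').sub (b1.mul c1 b2 hn')).mono (by omega)) bd
      (fun x hx => (natDegree_sub_le _ _).trans (max_le (dg_mul a2 d2 x hx) (dg_mul b2 c2 x hx)))
      (dg_mul b2 d2) fun x hx => ?_
    simp only [eval_sub, eval_mul, Pi.sub_apply]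
    exact ⟨mul_ne_zero (h3 x hx).1 (h4 x hx).1, by
      rw [(h3 x hx).2, (h4 x hx).2, div_sub_div _ _ (h3 x hx).1 (h4 x hx).1]⟩
  · refine reduce h2 hn hm ((a1.mul c1 a2 hn').mono (by omega)) bd (dg_mul a2 c2)
      (dg_mul b2 d2) fun x hx => ?_
    simp only [eval_mul, Pi.mul_apply]
    exact ⟨mul_ne_zero (h3 x hx).1 (h4 x hx).1, by
      rw [(h3 x hx).2, (h4 x hx).2, div_mul_div_comm]⟩
  · refine P.done fun _ e => Rep.mono ⟨b, a, b1, a1, b2, a2, fun x hx => ⟨fun h5 => ?_, ?_⟩⟩ e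
    · exact h0 x (hY hx) (by rw [(h3 x hx).2, h5, zero_div])
    · rw [Pi.inv_apply, (h3 x hx).2, inv_div]

lemma sign_div (a b : ℝ) : SignType.sign (a / b) = SignType.sign a * SignType.sign b := by
  rw [div_eq_mul_inv, sign_mul]
  congr 1
  rcases lt_trichotomy b 0 with h | rfl | h
  · rw [sign_neg h, sign_neg (inv_lt_zero.2 h)]
  · rw [inv_zero]
  · rw [sign_pos h, sign_pos (inv_pos.2 h)]

lemma sim (h2 : ModS) (hn : 2 * n + 1 < B) (hm : Md B n k ρ pm Γ) {r : α → α → Prop}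
    (hs : ∀ Θ, Γ ≤ Θ → ∀ a : α → ℝ[X], AP B Θ 3 a → Dg Θ n a → D B Θ 253 fun x y =>
      SignType.sign ((a x).eval (ρ x)) = SignType.sign ((a y).eval (ρ y)))
    {Δ : Ctx α} {L : ℕ} (h : Cp true (fun Δ => ∀ x ∈ Δ.Y, ∀ y ∈ Δ.Y, r x y) Δ L) :
    ∀ Θ, Γ ≤ Θ → Θ.Y ⊆ Δ.Y → (∀ v ∈ Δ.S, Rep B n ρ Θ v) →
      Cp true (fun Δ => ∀ x ∈ Δ.Y, ∀ y ∈ Δ.Y, r x y) Θ (L * B ^ 300) := by
  have has : ∀ {Δ Θ : Ctx α}, Θ.Y ⊆ Δ.Y → (∀ v ∈ Δ.S, Rep B n ρ Θ v) →
      ∀ v, Δ.Has v → Rep B n ρ Θ v := fun hY hS v ⟨u, a, b⟩ =>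
    (hS u a).congr fun x hx => b (hY hx)
  induction h with
  | done h =>
    exact fun Θ _ hY _ => .done fun _ e x hx y hy => h _ le_rfl x (hY (e.1 hx)) y (hY (e.1 hy))
  | op w hw _ ih =>
    intro Θ e hY hS
    rw [Nat.succ_mul]
    refine Cp.bind (step h2 hn (hm.mono e) hY (has hY hS) hw) fun Θ' e' a =>
      ih Θ' (e.trans e') (e'.1.trans hY) fun v hv => ?_
    rcases hv with rfl | hv
    exacts [a, (hS v hv).mono e']
  | test u hu _ ih =>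
    intro Θ e hY hS
    rw [Nat.succ_mul]
    obtain ⟨a, b, a1, b1, a2, b2, h3⟩ := has hY hS u hu
    have h4 : D B Θ 300 fun x y => SignType.sign (u x) = SignType.sign (u y) :=
      (((hs Θ e a a1 a2).and (hs Θ e b b1 b2)).imp fun x hx y hy c => by
        rw [(h3 x hx).2, (h3 y hy).2, sign_div, sign_div, c.1, c.2]).mono (by omega)
    refine Cp.bind h4 fun Θ' e' c => ?_
    rcases Θ'.Y.eq_empty_or_nonempty with h0 | ⟨y, hy⟩
    · exact .done fun _ e'' x hx => absurd (e''.1 hx) (by simp [h0])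
    · exact ih (SignType.sign (u y)) Θ' (e.trans e')
        (fun x hx => ⟨hY (e'.1 hx), c x hx y hy⟩) fun v hv => (hS v hv).mono e'

end JAdj

theorem adjS (h1 : SignAtS) (h2 : ModS) : AdjS := by
  intro α B hB Γ e e' n j p r hn hp hd hj H
  have hn1 : 2 * n + 4 ≤ B := (Nat.le_self_pow (by norm_num) _).trans hn
  have hn2 : (n + 4) ^ 6 ≤ B := (Nat.pow_le_pow_left (by omega) 6).trans hn
  refine P.mono (hp.share hd (by omega) (e' := e' + 301) fun Γ₁ e1 p1 => ?_) (by omega)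
  have d1 : D B Γ₁ 6 fun x y => (p x).natDegree = (p y).natDegree :=
    (p1.support (hd.ext e1) (by omega)).imp fun x _ y _ a => by
      rw [natDegree, natDegree, degree, degree, a]
  refine P.mono (P.cases d1 (e' := e' + 300) fun k Γ₂ e2 hk => ?_) (by omega)
  have e3 := e1.trans e2
  have lc : ∀ x ∈ Γ₂.Y, (p x).coeff k ≠ 0 := fun x hx => by
    rw [← hk x hx]
    exact leadingCoeff_ne_zero.2 (hj x (e3.1 hx)).1
  have hm : JAdj.Md B n k (fun x => rt (p x) j) (fun x => C ((p x).coeff k)⁻¹ * p x) Γ₂ := by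
    refine ⟨(AP.C_mul ((p1.ext e2 k).inv lc) (p1.ext e2)).mono (by omega),
      fun x hx => (natDegree_C_mul_le _ _).trans (hd x (e3.1 hx)), fun x hx => ⟨⟨?_, ?_⟩, ?_⟩⟩
    · refine monic_C_mul_of_mul_leadingCoeff_eq_one ?_
      rw [leadingCoeff, hk x hx, inv_mul_cancel₀ (lc x hx)]
    · rw [natDegree_C_mul (inv_ne_zero (lc x hx)), hk x hx]
    · rw [eval_mul, rt_root (hj x (e3.1 hx)).2, mul_zero]
  have e4 : Γ₂ ≤ (Γ₂.ins fun x => rt (p x) j).ins 0 := (Ctx.le_ins _ _).trans (Ctx.le_ins _ _)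
  have h3 := H _ (e3.trans e4) (A.of_has
    ⟨((Ctx.has_ins _ _).mono (Ctx.le_ins _ _)).congr fun _ _ => by simp,
      (Ctx.has_ins _ _).congr fun _ _ => by simp⟩)
  have h4 := JAdj.sim h2 (by omega) hm (fun Θ a q q1 q2 =>
    (h1 α B Θ 3 n p q hn2 ((p1.ext (e2.trans a)).mono (by omega)) q1 (hd.ext (e3.trans a)) q2
      fun x hx => (hj x ((e3.trans a).1 hx)).1).imp fun x hx y _ c =>
        c.2 j (hj x ((e3.trans a).1 hx)).2) h3 Γ₂ le_rfl Subset.rfl (by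
    rintro v (rfl | rfl | hv)
    · exact JAdj.Rep.const (A.zero.mono one_le_two)
    · refine JAdj.Rep.poly (AP.X.mono (by omega)) (fun x hx => ?_) fun _ _ => by simp
      have := (hj x (e3.1 hx)).2.trans_le ((nr_le _).trans (hd x (e3.1 hx)))
      rw [natDegree_X]
      omega
    · exact JAdj.Rep.const ((A.of_real ⟨v, hv, fun _ _ => rfl⟩).mono one_le_two))
  rw [← pow_add] at h4
  exact h4

end Pool.Agent.Lib.MP_837412_lc
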