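import Pool.Agent.Lib.MP_837412_lc.StA

/-! Unfolding lemmas are generated once, here, so that later files share one copy. -/

namespace Pool.Agent.Lib.MP_837412_lc.Once

theorem unfold_once : True := by
  have := @Pool.Agent.Lib.MP_837412_lc.NF.eq_def
  trivial

end Pool.Agent.Lib.MP_837412_lc.Once
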