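import Pool.Agent.Lib.MP_837412_lc.StA
import Pool.Agent.Lib.MP_837412_lc.Once

/-!
Computing the pencil, the multiplication matrices, the critical values and the critical points.
-/

namespace Pool.Agent.Lib.MP_837412_lc

open Set Function MvPolynomial

namespace JAlgA

variable {σ : Type} [Fintype σ] {m B : ℕ}

lemma kf_ge : m + 1 ≤ Kf σ m ∧ Fintype.card σ + 1 ≤ Kf σ m ∧
    Fintype.card σ * m + (m + 1) ≤ Kf σ m := by
  unfold Kf
  refine ⟨by nlinarith, by nlinarith, by nlinarith⟩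

lemma sz_ge (h : sz σ m ≤ B) : Kf σ m < B ∧ (Kf σ m + 1) ^ Fintype.card σ < B ∧
    ((Kf σ m + 1) ^ Fintype.card σ) ^ 2 ≤ B := by
  have e : sz σ m = ((Kf σ m + 1) ^ Fintype.card σ) ^ 2 * (Kf σ m + 1) ^ 2 := by
    unfold sz
    ring
  have h1 : 1 ≤ (Kf σ m + 1) ^ Fintype.card σ := Nat.one_le_pow _ _ (by omega)
  have h2 := (kf_ge (σ := σ) (m := m)).1
  rw [e] at h
  generalize (Kf σ m + 1) ^ Fintype.card σ = W at *
  generalize Kf σ m = K at *
  have h3 : 4 ≤ (K + 1) ^ 2 := by nlinarith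
  have h4 : W ≤ W ^ 2 := by nlinarith
  have h5 : W ^ 2 * 4 ≤ W ^ 2 * (K + 1) ^ 2 := Nat.mul_le_mul_left _ h3
  have h6 : 1 * (K + 1) ^ 2 ≤ W ^ 2 * (K + 1) ^ 2 := Nat.mul_le_mul_right _ (by omega)
  refine ⟨by nlinarith, by omega, by omega⟩

lemma pow_le_W {n : ℕ} (h : n ≤ Kf σ m + 1) :
    n ^ Fintype.card σ ≤ (Kf σ m + 1) ^ Fintype.card σ := Nat.pow_le_pow_left h _

lemma card_std [DecidableEq σ] :
    Fintype.card (Std σ m) ≤ (Kf σ m + 1) ^ Fintype.card σ := by
  rw [Fintype.card_fun, Fintype.card_fin]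
  exact pow_le_W (by have := (kf_ge (σ := σ) (m := m)).1; omega)

/-- Exponent vectors of degree at most `n`. -/
noncomputable def dk (σ : Type) [Fintype σ] (n : ℕ) : Finset (σ →₀ ℕ) :=
  (box σ n).filter fun β => ∑ i, β i ≤ n

lemma mem_dk {n : ℕ} {β : σ →₀ ℕ} : β ∈ dk σ n ↔ ∑ i, β i ≤ n := by
  rw [dk, Finset.mem_filter, mem_box]
  exact ⟨fun h => h.2, fun h => ⟨fun i =>
    (Finset.single_le_sum (f := fun i => β i) (fun _ _ => Nat.zero_le _)
      (Finset.mem_univ i)).trans h, h⟩⟩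

lemma card_dk (n : ℕ) : (dk σ n).card ≤ (n + 1) ^ Fintype.card σ :=
  (Finset.card_filter_le _ _).trans card_box.le

lemma support_dk {n : ℕ} {p : MvPolynomial σ ℂ} (h : p.totalDegree ≤ n) : p.support ⊆ dk σ n :=
  fun s hs => mem_dk.2 (by
    have := (le_totalDegree hs).trans h
    rwa [Finsupp.sum_fintype _ _ fun _ => rfl] at this)

lemma sum_dk {n : ℕ} {p : MvPolynomial σ ℂ} (h : p.totalDegree ≤ n) (f : (σ →₀ ℕ) → ℂ) :
    ∑ g ∈ p.support, coeff g p * f g = ∑ g ∈ dk σ n, coeff g p * f g :=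
  Finset.sum_subset (support_dk h) fun g _ hg => by rw [notMem_support_iff.1 hg, zero_mul]

lemma step_dk {n : ℕ} {β γ : σ →₀ ℕ} {i : σ} (hβ : β ∈ dk σ n) (hi : m ≤ β i)
    (hγ : γ ∈ dk σ m) : β - Finsupp.single i m + γ ∈ dk σ n := by
  classical
  rw [mem_dk] at *
  have h1 : β - Finsupp.single i m + Finsupp.single i m = β :=
    tsub_add_cancel_of_le (Finsupp.single_le_iff.2 hi)
  have h2 : ∑ j, (β - Finsupp.single i m) j + m = ∑ j, β j := by
    conv_rhs => rw [← h1]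
    simp only [Finsupp.add_apply, Finset.sum_add_distrib]
    congr 1
    simp [Finsupp.single_apply]
  simp only [Finsupp.add_apply, Finset.sum_add_distrib]
  omega

lemma toF_dk (a : Std σ m) {g : σ →₀ ℕ} (hg : g ∈ dk σ (m + 1)) :
    toF a + g ∈ dk σ (Kf σ m) := by
  rw [mem_dk] at *
  have h1 : ∑ i, toF a i ≤ Fintype.card σ * m :=
    Finset.sum_le_card_nsmul _ _ m fun i _ => (a i).2.le
  have h2 := (kf_ge (σ := σ) (m := m)).2.2
  simp only [Finsupp.add_apply, Finset.sum_add_distrib]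
  omega

variable {α : Type} [hB : Fact (2 ≤ B)] {Γ : Ctx α}

lemma a_ite (c : Prop) {_ : Decidable c} : A B Γ 2 fun _ => (if c then 1 else 0 : ℂ) := by
  split_ifs
  exacts [A.one, A.zero.mono one_le_two]

lemma a_bb (h : Fintype.card σ ≤ B) (i : σ) {n : ℕ} (hn : n ≤ B) :
    A B Γ 20 fun _ => ((bb i ^ n : ℕ) : ℂ) :=
  (((A.nat (𝕜 := ℂ) hB.1).pow ((Fintype.equivFin σ i).2.le.trans h)).pow hn).congr
    fun _ _ => by simp [bb]

lemma quot {ι : Type} [Fintype ι] {c : ι → ℂ} (hc : Injective c) (a : ι) :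
    (chi c /ₘ (Polynomial.X - Polynomial.C (c a))).eval (c a) ≠ 0 ∧
      ∀ b, b ≠ a → (chi c /ₘ (Polynomial.X - Polynomial.C (c a))).eval (c b) = 0 := by
  classical
  rw [chi, ← Finset.mul_prod_erase _ _ (Finset.mem_univ a),
    Polynomial.mul_divByMonic_cancel_left _ (Polynomial.monic_X_sub_C _)]
  simp only [Polynomial.eval_prod, Polynomial.eval_sub, Polynomial.eval_X, Polynomial.eval_C]
  exact ⟨Finset.prod_ne_zero_iff.2 fun b hb => sub_ne_zero.2 fun e =>
      Finset.ne_of_mem_erase hb (hc e).symm,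
    fun b hb => Finset.prod_eq_zero (Finset.mem_erase.2 ⟨hb, Finset.mem_univ b⟩) (sub_self _)⟩

end JAlgA

open JAlgA

theorem flA : FlA := by
  intro α σ _ B hB Γ e m p l hs hd hp hl
  obtain ⟨k1, k2, -⟩ := kf_ge (σ := σ) (m := m)
  have k3 := (sz_ge hs).1
  have hk : Fintype.card σ ≤ B := by omega
  have hm : A B Γ 8 fun _ => ((m + 1 : ℕ) : ℂ) := A.nat (by omega)
  have h1 : ∀ i : σ, AM B Γ 32 fun _ => (X i ^ (m + 1) -
      C (((m + 1) * bb i ^ m : ℕ) : ℂ) * X i : MvPolynomial σ ℂ) := fun i =>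
    ((AM.monomial A.one (Finsupp.single i (m + 1))).sub (AM.C_mul
      (hm.mul (a_bb hk i (n := m) (by omega))) (AM.X i))).congr fun _ _ => by
        rw [X_pow_eq_monomial, Nat.cast_mul]
  have h2 : A B Γ 34 fun _ => ((1 + (m + 1) * ∑ i : σ, bb i ^ (m + 1) : ℕ) : ℂ) :=
    (A.one.add (hm.mul (A.sum Finset.univ hk fun i _ =>
      a_bb hk i (n := m + 1) (by omega)))).congr fun _ _ => by
        rw [Nat.cast_add, Nat.cast_mul, Nat.cast_sum, Nat.cast_one]
  have h3 : AM B Γ 42 fun _ => F0 σ ℂ m := (AM.sum Finset.univ hk fun i _ => h1 i).add (AM.C h2)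
  refine ⟨(h3.sub (AM.C_mul hl hp)).mono (by omega), fun i => ?_⟩
  exact ((AM.C (a_bb hk i (n := m) (by omega))).add (AM.C_mul (hl.div hm fun _ _ =>
    Nat.cast_ne_zero.2 m.succ_ne_zero) (hp.pderiv hd (by omega) i))).mono (by omega)

theorem mmA : MMA := by
  intro α σ _ _ B hB Γ e m q h hs dq dh hq hh a b
  obtain ⟨k1, k2, -⟩ := kf_ge (σ := σ) (m := m)
  obtain ⟨k3, k4, k5⟩ := sz_ge hs
  have key := A.iter (B := B) (Γ := Γ) (e := e + 10) (dk σ (Kf σ m) ×ˢ Finset.univ)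
    (u := fun n (i : (σ →₀ ℕ) × Std σ m) x => NF m (q x) n i.1 i.2) (n := Kf σ m)
    (by
      rw [Finset.card_product, Finset.card_univ]
      exact (Nat.mul_le_mul (card_dk _) card_std).trans (by rw [← sq]; exact k5))
    k3.le (fun i _ => by
      simp only [NF]
      exact (a_ite _).mono (by omega))
    (fun n _ Δ d ih i hi => by
      by_cases hex : ∃ j, m ≤ i.1 j
      · refine ((A.sum (dk σ m) ((card_dk m).trans ((pow_le_W (by omega)).trans k4.le))
          fun γ hγ => ((hq (pk hex) γ).ext d).mul (ih (i.1 - Finsupp.single (pk hex) m + γ, i.2)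
            (Finset.mem_product.2 ⟨step_dk (Finset.mem_product.1 hi).1 (pk_spec hex) hγ,
              Finset.mem_univ _⟩))).congr fun x hx => ?_).mono (by omega)
        simp only [NF, dif_pos hex]
        exact sum_dk (dq x (d.1 hx) _).le _
      · simp only [NF, dif_neg hex]
        exact (a_ite _).mono (by omega))
  refine ((A.sum (dk σ (m + 1)) ((card_dk _).trans ((pow_le_W (by omega)).trans k4.le))
    fun g hg => (hh g).mul (key (toF a + g, b) (Finset.mem_product.2 ⟨toF_dk a hg,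
      Finset.mem_univ _⟩))).congr fun x hx => ?_).mono (by omega)
  exact sum_dk (dh x hx) _

theorem lamA (h1 : TrS) (h2 : FlA) (h3 : MMA) (h4 : MatA) : LamA := by
  intro α σ _ _ B hB Γ e m J p l hs hJ dp hp hl j hj
  obtain ⟨f1, f2⟩ := h2 α σ B Γ e m p l hs (fun x hx => (dp x hx).le) hp hl
  have hM := h3 α σ B Γ (e + 80) m (fun x => qq m (p x) (l x)) (fun x => Fl m (p x) (l x)) hs
    (fun x hx i => deg_qq (dp x hx) _ i) (fun x hx => deg_Fl (dp x hx) _) f2 f1
  refine ((h4 α (Std σ m) B Γ (e + 120) j _ (fun _ => 1)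
    ((Nat.pow_le_pow_left card_std 2).trans (sz_ge hs).2.2) (hj.trans hJ) hM fun a b => ?_).congr
      fun x _ => ?_).mono (by omega)
  · simp only [Matrix.one_apply]
    exact (a_ite _).mono (by omega)
  · rw [one_mul]
    exact h1 _ _ j

theorem rurA (h1 : RurS) (h2 : FlA) (h3 : MMA) (h4 : MatA) (h5 : LamA) : RurA := by
  intro α σ _ _ B hB Γ e m p h l z hs dp dh hp hh hl hz hm
  obtain ⟨f1, f2⟩ := h2 α σ B Γ e m p l hs (fun x hx => (dp x hx).le) hp hl
  have hN : Fintype.card (Std σ m) < B := card_std.trans_lt (sz_ge hs).2.1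
  have hM := h3 α σ B Γ (e + 80) m (fun x => qq m (p x) (l x)) (fun x => Fl m (p x) (l x)) hs
    (fun x hx i => deg_qq (dp x hx) _ i) (fun x hx => deg_Fl (dp x hx) _) f2 f1
  have hH := h3 α σ B Γ (e + 80) m (fun x => qq m (p x) (l x)) h hs
    (fun x hx i => deg_qq (dp x hx) _ i) dh f2 (hh.mono (by omega))
  have hg := ((h5 α σ B Γ e m _ p l hs hN.le dp hp hl).chi hN le_rfl).divX hz
    (fun x _ => natDegree_chi _) hN
  have dg : Dg Γ (Fintype.card (Std σ m)) fun x =>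
      chi (Lam m (p x) (l x)) /ₘ (Polynomial.X - Polynomial.C (z x)) := fun x _ =>
    (Polynomial.natDegree_divByMonic _ (Polynomial.monic_X_sub_C _)).le.trans
      ((Nat.sub_le _ _).trans (natDegree_chi _).le)
  refine (((A.sum (Finset.range (Fintype.card (Std σ m) + 1)) (by simpa using hN) fun j hj =>
    (hg j).mul (h4 α (Std σ m) B Γ (e + 120) j _ _
      ((Nat.pow_le_pow_left card_std 2).trans (sz_ge hs).2.2)
      (by have := Finset.mem_range.1 hj; omega) hM hH)).div (hg.eval hz dg hN)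
        fun x hx => ?_).congr fun x hx => ?_).mono (by omega)
  · obtain ⟨⟨a, ha⟩, y, hy⟩ := hm x hx
    rw [← ha]
    exact (quot hy.inj a).1
  · obtain ⟨⟨a, ha⟩, y, hy⟩ := hm x hx
    rw [← h1 σ m (p x) (h x) (l x) y _ (dp x hx) (dh x hx) hy _ (Nat.lt_succ_of_le (dg x hx))]
    beta_reduce
    rw [← ha, hy.cpv, Finset.sum_eq_single a, mul_div_cancel_right₀ _ (quot hy.inj a).1]
    · intro b _ hb
      rw [(quot hy.inj a).2 b hb, mul_zero]
    · simp

end Pool.Agent.Lib.MP_837412_lc
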