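import Pool.Agent.Lib.MP_837412_lc.StT

/-!
The polynomials that describe the join: topology and cost.
-/

namespace Pool.Agent.Lib.MP_837412_lc

open Set

namespace JBig

lemma map_psi {R R' τ : Type} [CommRing R] [CommRing R'] [Fintype τ] {N : ℕ} (φ : R →+* R')
    (u : Fin N → τ → R) (t : R) (j : τ) :
    φ (psi u t j) = psi (fun a j => φ (u a j)) (φ t) j := by
  simp only [psi, map_sub, map_sum, map_mul, map_prod, map_pow, map_natCast, map_add, map_one,
    map_ofNat]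

/-- Splitting of the coordinates. -/
def spl (σ ι : Type) : (σ ⊕ ι ⊕ ι → ℝ) ≃ₜ (σ → ℝ) × (ι → ℝ × ℝ) where
  toFun y := (fun s => y (.inl s), fun i => (y (.inr (.inl i)), y (.inr (.inr i))))
  invFun q := Sum.elim q.1 (Sum.elim (fun i => (q.2 i).1) fun i => (q.2 i).2)
  left_inv y := by
    funext s
    rcases s with s | s | s <;> rfl
  right_inv _ := rfl
  continuous_toFun := by fun_prop
  continuous_invFun := continuous_pi fun s => by
    rcases s with s | s | s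
    · exact (continuous_apply s).comp continuous_fst
    · exact ((continuous_apply s).comp continuous_snd).fst
    · exact ((continuous_apply s).comp continuous_snd).snd

variable {σ τ ι : Type} [Fintype τ] {N : ℕ}

lemma eval_big [Fintype ι] (p : Fin N → τ → MvPolynomial σ ℝ) (χ : ι → τ) (y : σ ⊕ ι ⊕ ι → ℝ) :
    MvPolynomial.eval y (big p χ) = ∑ i, ((spl σ ι y).2 i).2 ^ 2 *
      psi (fun a j => MvPolynomial.eval (spl σ ι y).1 (p a j)) ((spl σ ι y).2 i).1 (χ i) := by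
  simp only [big, map_sum, map_mul, map_pow, map_psi, MvPolynomial.eval_X,
    MvPolynomial.eval_rename]
  rfl

/-- The least member of the family. -/
noncomputable def gm [Nonempty τ] (p : Fin N → τ → MvPolynomial σ ℝ) (q : (σ → ℝ) × ℝ) : ℝ :=
  Finset.univ.inf' Finset.univ_nonempty fun j =>
    psi (fun a j => MvPolynomial.eval q.1 (p a j)) q.2 j

lemma continuous_gm [Nonempty τ] (p : Fin N → τ → MvPolynomial σ ℝ) : Continuous (gm p) := by
  refine Continuous.finset_inf'_apply Finset.univ_nonempty fun j _ => ?_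
  have h : ∀ a j, Continuous fun q : (σ → ℝ) × ℝ => MvPolynomial.eval q.1 (p a j) := fun a j =>
    (MvPolynomial.continuous_eval (p a j)).comp continuous_fst
  unfold psi
  fun_prop

lemma gm_pos [Nonempty τ] {p : Fin N → τ → MvPolynomial σ ℝ} {q : (σ → ℝ) × ℝ} :
    0 < gm p q ↔ ∀ j, 0 < psi (fun a j => MvPolynomial.eval q.1 (p a j)) q.2 j := by
  simp only [gm, Finset.lt_inf'_iff, Finset.mem_univ, true_imp_iff]

lemma mem_cell [Fintype σ] {κ : Type} {p : κ → MvPolynomial σ ℝ} {y : σ → ℝ} :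
    (y ∈ cell p fun _ => 1) ↔ ∀ j, 0 < MvPolynomial.eval y (p j) :=
  forall_congr' fun _ => sign_eq_one_iff

lemma cell_big [Fintype σ] [Nonempty τ] [Fintype ι] (p : Fin N → τ → MvPolynomial σ ℝ) :
    (cell (big (ι := ι) p) fun _ => 1) =
      spl σ ι ⁻¹' {q | 0 < ∑ i, (q.2 i).2 ^ 2 * gm p (q.1, (q.2 i).1)} := by
  ext y
  rw [mem_cell, mem_preimage, mem_ofPred_eq]
  simp only [eval_big]
  constructor
  · intro h
    choose χ _ hχ using fun i => Finset.exists_mem_eq_inf' (Finset.univ_nonempty (α := τ))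
      fun j => psi (fun a j => MvPolynomial.eval (spl σ ι y).1 (p a j)) ((spl σ ι y).2 i).1 j
    exact (h χ).trans_eq (Finset.sum_congr rfl fun i _ => congrArg _ (hχ i).symm)
  · intro h χ
    exact h.trans_le (Finset.sum_le_sum fun i _ => mul_le_mul_of_nonneg_left
      (Finset.inf'_le _ (Finset.mem_univ (χ i))) (sq_nonneg _))

section Cost

open MvPolynomial

variable {α ρ : Type} [Fintype ρ] {B : ℕ} [hB : Fact (2 ≤ B)] {Γ : Ctx α} {e e' n m : ℕ}
  {p q : α → MvPolynomial ρ ℝ}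

/-- Cost and degree. -/
def AD (B : ℕ) (Γ : Ctx α) (e n : ℕ) (p : α → MvPolynomial ρ ℝ) : Prop := AM B Γ e p ∧ Dm Γ n p

lemma AD.mono (h : AD B Γ e n p) (a : e ≤ e') (b : n ≤ m) : AD B Γ e' m p :=
  ⟨h.1.mono a, fun x hx => (h.2 x hx).trans b⟩

lemma AD.add (hp : AD B Γ e n p) (hq : AD B Γ e' m q) :
    AD B Γ (max e e' + 4) (max n m) fun x => p x + q x :=
  ⟨hp.1.add hq.1, fun x hx => (totalDegree_add _ _).trans (max_le_max (hp.2 x hx) (hq.2 x hx))⟩

lemma AD.sub (hp : AD B Γ e n p) (hq : AD B Γ e' m q) :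
    AD B Γ (max e e' + 4) (max n m) fun x => p x - q x :=
  ⟨hp.1.sub hq.1, fun x hx => (totalDegree_sub _ _).trans (max_le_max (hp.2 x hx) (hq.2 x hx))⟩

lemma AD.mul (hp : AD B Γ e n p) (hq : AD B Γ e' m q) (hn : (n + 1) ^ Fintype.card ρ ≤ B) :
    AD B Γ (max e e' + 11) (n + m) fun x => p x * q x :=
  ⟨hp.1.mul hq.1 hp.2 hn, fun x hx =>
    (totalDegree_mul _ _).trans (add_le_add (hp.2 x hx) (hq.2 x hx))⟩

lemma AD.sq (hp : AD B Γ e n p) (hn : (n + 1) ^ Fintype.card ρ ≤ B) :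
    AD B Γ (e + 11) (2 * n) fun x => p x ^ 2 := by
  simpa only [pow_two, max_self, two_mul] using hp.mul hp hn

lemma AD.sum {κ : Type} (t : Finset κ) (ht : t.card ≤ B) {p : κ → α → MvPolynomial ρ ℝ}
    (h : ∀ i ∈ t, AD B Γ e n (p i)) : AD B Γ (e + 6) n fun x => ∑ i ∈ t, p i x :=
  ⟨AM.sum t ht fun i hi => (h i hi).1, fun x hx =>
    (totalDegree_finsetSum _ _).trans (Finset.sup_le fun i hi => (h i hi).2 x hx)⟩

lemma AD.prod {κ : Type} (t : Finset κ) (ht : t.card ≤ B) {p : κ → α → MvPolynomial ρ ℝ}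
    (h : ∀ i ∈ t, AD B Γ e n (p i)) (hn : (t.card * n + 1) ^ Fintype.card ρ ≤ B) :
    AD B Γ (e + 15) (t.card * n) fun x => ∏ i ∈ t, p i x :=
  ⟨AM.prod t ht (fun i hi => (h i hi).1) (fun i hi => (h i hi).2) hn, fun x hx =>
    (totalDegree_finsetProd _ _).trans
      (Finset.sum_le_card_nsmul _ _ n fun i hi => (h i hi).2 x hx)⟩

lemma AD.nat (hn : n ≤ B) : AD B Γ 9 0 fun _ => (n : MvPolynomial ρ ℝ) :=
  ⟨(AM.C (A.nat hn)).congr fun _ _ => (map_natCast C n).symm, fun _ _ => by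
    rw [← map_natCast (C : ℝ →+* MvPolynomial ρ ℝ) n, totalDegree_C]⟩

lemma AD.X (i : ρ) : AD B Γ 3 1 fun _ => (X i : MvPolynomial ρ ℝ) :=
  ⟨AM.X i, fun _ _ => (totalDegree_X i).le⟩

lemma AD.psi {d : ℕ} {u : α → Fin N → τ → MvPolynomial ρ ℝ} (i : ρ) (j : τ)
    (hu : ∀ a j, AD B Γ e d fun x => u x a j) (h1 : 4 * N ≤ B) (h2 : Fintype.card τ ≤ B)
    (h3 : ∀ n ≤ 2 * (N + d + 1), (n + 1) ^ Fintype.card ρ ≤ B) :
    AD B Γ (e + 70) (2 * (N + d)) fun x => psi (u x) (MvPolynomial.X i) j := by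
  have h2B := hB.1
  have a1 : ∀ t : Finset (Fin N), AD B Γ 39 (2 * N) fun _ =>
      ∏ b ∈ t, ((MvPolynomial.X i : MvPolynomial ρ ℝ) - (((b : Fin N) : ℕ) : MvPolynomial ρ ℝ)) ^ 2 := by
    intro t
    have ht : t.card ≤ N := by simpa using t.card_le_univ
    exact (AD.prod t (by omega) (e := 24) (n := 2) (fun b _ =>
      ((AD.X i).sub (AD.nat (n := b) (by have := b.2; omega))).sq (h3 _ (by omega)))
      (h3 _ (by omega))).mono le_rfl (by omega)
  have hc : (Finset.univ : Finset (Fin N)).card ≤ B := by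
    rw [Finset.card_univ, Fintype.card_fin]
    omega
  have a2 := AD.sum _ hc fun a _ => (a1 (Finset.univ.erase a)).mul (hu a j) (h3 _ (by omega))
  have a3 := (AD.nat (n := 1) (by omega)).add (AD.sum _ hc fun a _ =>
    AD.sum Finset.univ h2 fun l _ => (hu a l).sq (h3 _ (by omega)))
  have a4 := ((AD.nat h1).mul a3 (h3 _ (by omega))).mul (a1 Finset.univ) (h3 _ (by omega))
  have a5 := (a2.sub a4).mono (e' := e + 70) (m := 2 * (N + d)) (by omega) (by omega)
  simpa only [MP_837412_lc.psi, Nat.cast_mul, Nat.cast_ofNat, Nat.cast_one] using a5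

end Cost

end JBig

open JBig in
theorem bigS (h1 : JoinS) (h2 : ScaleS) (h3 : PsiS) : BigS := by
  intro σ τ ι _ _ _ _ N p j hj
  have hg := continuous_gm p
  have g1 : ∀ q, 0 < gm p q → q.1 ∈ ⋃ a, cell (p a) fun _ => 1 := fun q hq => by
    obtain ⟨a, ha⟩ := (h3 τ N _).1 _ (gm_pos.1 hq)
    exact mem_iUnion.2 ⟨a, mem_cell.2 ha⟩
  have g2 : ∀ a : Fin N, ∀ y ∈ cell (p a) fun _ => 1, 0 < gm p (y, ((a : ℕ) : ℝ)) :=
    fun a y hy => gm_pos.2 ((h3 τ N _).2 a (mem_cell.1 hy))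
  have g3 : ∀ a, IsOpen (cell (p a) fun _ => 1) := fun a => by
    have : (cell (p a) fun _ => 1) = ⋂ l, {y | 0 < MvPolynomial.eval y (p a l)} :=
      Set.ext fun y => by simp only [mem_cell, mem_iInter, mem_ofPred_eq]
    rw [this]
    exact isOpen_iInter_of_finite fun l =>
      isOpen_lt continuous_const (MvPolynomial.continuous_eval _)
  rw [cell_big]
  generalize gm p = g at hg g1 g2 ⊢
  have e1 := hs_preimage (spl σ ι) {q | 0 < ∑ i, (q.2 i).2 ^ 2 * g (q.1, (q.2 i).1)} ∅ j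
  have e2 := (h2 (σ → ℝ) ι g hg).left (empty_subset _) (fun q hq => by
    by_contra hn
    exact (Finset.sum_nonpos fun i _ => not_lt.1 fun a => hn ⟨i, a⟩).not_gt hq) j
  have e3 := h1 (σ → ℝ) (ℝ × ℝ) ι (Fin N) (fun a => cell (p a) fun _ => 1)
    {q | 0 < q.2.2 ^ 2 * g (q.1, q.2.1)} g3 (isOpen_lt continuous_const (by fun_prop))
    (fun q hq => g1 (q.1, q.2.1) (pos_of_mul_pos_right hq (sq_nonneg _)))
    (fun a => ⟨(((a : ℕ) : ℝ), 1), fun y hy => mul_pos (pow_pos one_pos 2) (g2 a y hy)⟩) j hj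
  rw [preimage_empty] at e1
  simp only [mem_ofPred_eq] at e3
  rw [e1, ← e2, e3]

open JBig in
theorem bigA : BigA := by
  intro α σ τ ι _ _ _ B _ Γ e d N p χ hK hd hp
  have hq : 2 * (N + d + 2) * 2 ≤ 2 * (N + d + 2) ^ 2 := by nlinarith
  generalize 2 * (N + d + 2) ^ 2 = K at hK hq
  have h0 : K + Fintype.card τ + Fintype.card ι ≤ B :=
    (Nat.le_self_pow (Nat.succ_ne_zero _) _).trans hK
  have h3 : ∀ n ≤ 2 * (N + d + 1), (n + 1) ^ Fintype.card (σ ⊕ ι ⊕ ι) ≤ B := fun n hn => by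
    refine le_trans ((Nat.pow_le_pow_left (by omega) _).trans
      (Nat.pow_le_pow_right (by omega) ?_)) hK
    rw [Fintype.card_sum, Fintype.card_sum]
    omega
  exact (AD.sum Finset.univ (by rw [Finset.card_univ]; omega) fun i _ =>
    ((AD.X (Sum.inr (Sum.inr i))).sq (h3 _ (by omega))).mul
      (AD.psi (u := fun x a j => MvPolynomial.rename Sum.inl (p x a j)) (Sum.inr (Sum.inl i)) (χ i)
        (fun a j => ⟨(hp a j).rename Sum.inl_injective, fun x hx =>
          (MvPolynomial.totalDegree_rename_le _ _).trans (hd a j x hx)⟩) (by omega) (by omega) h3)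
      (h3 _ (by omega))).mono (by omega) (by omega)

end Pool.Agent.Lib.MP_837412_lc
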