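import Pool.Agent.Lib.MP_837412_lc.StC

/-!
Sign determination at the roots of a polynomial from few Tarski queries.
-/

namespace Pool.Agent.Lib.MP_837412_lc

open Set Polynomial Function

namespace JBkr

variable {J : Type}

/-- The vector of signs. -/
noncomputable def sv (q : J → ℝ[X]) (t : ℝ) : J → SignType :=
  fun j => SignType.sign ((q j).eval t)

open Classical in
/-- The subfamily given by `s`. -/
noncomputable def sub (s : Finset J) (q : J → ℝ[X]) : J → ℝ[X] :=
  fun j => if j ∈ s then q j else 0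

/-- The distribution of the sign vectors at the roots. -/
noncomputable def tot (p : ℝ[X]) (q : J → ℝ[X]) (f : (J → SignType) → ℝ) : ℝ :=
  ∑ t ∈ p.roots.toFinset, f (sv q t)

/-- Coefficients of the interpolation polynomials on the three signs. -/
noncomputable def kk (τ : SignType) (b : Fin 3) : ℝ :=
  match τ with
  | .zero => ![1, 0, -1] b
  | .pos => ![0, 1 / 2, 1 / 2] b
  | .neg => ![0, -(1 / 2), 1 / 2] b

lemma kk_sum (τ u : SignType) :
    ∑ b : Fin 3, kk τ b * (u : ℝ) ^ (b : ℕ) = if u = τ then 1 else 0 := by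
  cases τ <;> cases u <;> simp [kk, Fin.sum_univ_three] <;> norm_num

variable [Fintype J]

/-- Monomials in the signs. -/
noncomputable def mon (a : J → Fin 3) (σ : J → SignType) : ℝ := ∏ j, (σ j : ℝ) ^ (a j : ℕ)

lemma span_mon [DecidableEq J] (g : (J → SignType) → ℝ) :
    ∃ c : (J → Fin 3) → ℝ, ∀ σ, g σ = ∑ a, c a * mon a σ := by
  refine ⟨fun a => ∑ τ : J → SignType, g τ * ∏ j, kk (τ j) (a j), fun σ => ?_⟩
  have h1 : ∀ τ : J → SignType, ∑ a : J → Fin 3, (∏ j, kk (τ j) (a j)) * mon a σ =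
      if σ = τ then 1 else 0 := by
    intro τ
    simp only [mon, ← Finset.prod_mul_distrib]
    rw [← Fintype.prod_sum fun j (b : Fin 3) => kk (τ j) b * (σ j : ℝ) ^ (b : ℕ)]
    simp only [kk_sum]
    rw [Finset.prod_boole]
    simp [funext_iff]
  simp only [Finset.sum_mul, mul_assoc]
  rw [Finset.sum_comm]
  simp only [← Finset.mul_sum, h1]
  simp

lemma few_mon (S : Finset (J → SignType)) : ∃ (κ : Type) (_ : Fintype κ) (a : κ → J → Fin 3),
    Fintype.card κ ≤ S.card ∧ ∀ g : (J → SignType) → ℝ, ∃ c : κ → ℝ,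
      ∀ σ ∈ S, g σ = ∑ i, c i * mon (a i) σ := by
  classical
  obtain ⟨κ, a, h1, h2, h3⟩ := exists_linearIndependent' ℝ
    (fun (a : J → Fin 3) (σ : S) => mon a σ.1)
  have : Finite κ := Finite.of_injective a h1
  have := Fintype.ofFinite κ
  refine ⟨κ, this, a, ?_, fun g => ?_⟩
  · simpa using h3.fintype_card_le_finrank
  · obtain ⟨c, hc⟩ := span_mon g
    have h4 : (fun σ : S => g σ.1) ∈ Submodule.span ℝ
        (range fun (a : J → Fin 3) (σ : S) => mon a σ.1) := by
      refine (Submodule.mem_span_range_iff_exists_fun ℝ).2 ⟨c, funext fun σ => ?_⟩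
      rw [hc σ.1, Finset.sum_apply]
      rfl
    rw [← h2] at h4
    obtain ⟨d, hd⟩ := (Submodule.mem_span_range_iff_exists_fun ℝ).1 h4
    refine ⟨d, fun σ hσ => ?_⟩
    have h5 := congrFun hd ⟨σ, hσ⟩
    rw [Finset.sum_apply] at h5
    exact h5.symm

/-- The polynomial of a query. -/
noncomputable def qry (q : J → ℝ[X]) (r : ℝ[X]) (a : J → Fin 3) (b : Fin 3) : ℝ[X] :=
  (∏ j, q j ^ (a j : ℕ)) * r ^ (b : ℕ)

lemma taq_qry (p : ℝ[X]) (q : J → ℝ[X]) (r : ℝ[X]) (a : J → Fin 3) (b : Fin 3) :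
    (taq p (qry q r a b) : ℝ) = ∑ t ∈ p.roots.toFinset,
      mon a (sv q t) * ((SignType.sign (r.eval t) : SignType) : ℝ) ^ (b : ℕ) := by
  rw [taq, Int.cast_sum]
  refine Finset.sum_congr rfl fun t _ => ?_
  have h1 : SignType.sign ((qry q r a b).eval t) =
      (∏ j, sv q t j ^ (a j : ℕ)) * SignType.sign (r.eval t) ^ (b : ℕ) := by
    rw [qry, eval_mul, eval_prod, eval_pow, sign_mul, sign_pow]
    congr 1
    refine (map_prod (signHom : ℝ →*₀ SignType) _ _).trans (Finset.prod_congr rfl fun j _ => ?_)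
    rw [eval_pow]
    exact sign_pow _ _
  have h2 : ∀ u : SignType, ((u : ℤ) : ℝ) = (SignType.castHom : SignType →*₀ ℝ) u := by
    intro u
    cases u <;> simp
  rw [h2, h1, map_mul, map_prod, map_pow, mon]
  simp only [map_pow]
  rfl

omit [Fintype J] in
lemma sv_cons [DecidableEq J] (s : Finset J) (q : J → ℝ[X]) (j : J) (hj : j ∉ s) (t : ℝ) :
    sv (sub (s.cons j hj) q) t = update (sv (sub s q) t) j (SignType.sign ((q j).eval t)) := by
  funext i
  by_cases h : i = j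
  · subst h
    simp [sv, sub]
  · by_cases h' : i ∈ s <;> simp [sv, sub, h, h']

/-- The new distribution is a combination of Tarski queries. -/
lemma tot_cons (s : Finset J) (j : J) (hj : j ∉ s) (S : Finset (J → SignType)) {κ : Type}
    [Fintype κ] (a : κ → J → Fin 3)
    (h : ∀ g : (J → SignType) → ℝ, ∃ c : κ → ℝ, ∀ σ ∈ S, g σ = ∑ i, c i * mon (a i) σ)
    (f : (J → SignType) → ℝ) : ∃ c : κ × Fin 3 → ℝ, ∀ (p : ℝ[X]) (q : J → ℝ[X]),
      (∀ t ∈ p.roots.toFinset, sv (sub s q) t ∈ S) →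
      tot p (sub (s.cons j hj) q) f =
        ∑ i, c i * (taq p (qry (sub s q) (q j) (a i.1) i.2) : ℝ) := by
  classical
  choose c hc using fun b : Fin 3 => h fun σ => ∑ τ : SignType, f (update σ j τ) * kk τ b
  refine ⟨fun i => c i.2 i.1, fun p q hS => ?_⟩
  simp only [taq_qry, Finset.mul_sum, tot]
  rw [Finset.sum_comm]
  refine Finset.sum_congr rfl fun t ht => ?_
  rw [sv_cons, Fintype.sum_prod_type_right]
  simp only [← mul_assoc, ← Finset.sum_mul, ← hc _ _ (hS t ht)]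
  simp only [Finset.sum_mul, mul_assoc]
  rw [Finset.sum_comm]
  simp only [← Finset.mul_sum, kk_sum]
  simp

omit [Fintype J] in
lemma mem_of_tot {p p' : ℝ[X]} {q q' : J → ℝ[X]} (S : Finset (J → SignType))
    (h : tot p q = tot p' q') (hS : ∀ t ∈ p'.roots.toFinset, sv q' t ∈ S) :
    ∀ t ∈ p.roots.toFinset, sv q t ∈ S := by
  classical
  have h1 := congrFun h fun σ => if σ ∈ S then 0 else 1
  rw [tot, tot, Finset.sum_eq_zero fun t ht => if_pos (hS t ht),
    Finset.sum_eq_zero_iff_of_nonneg fun t _ => by split_ifs <;> norm_num] at h1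
  intro t ht
  by_contra hc
  simpa [hc] using h1 t ht

omit [Fintype J] in
lemma cnt_eq [DecidableEq (J → SignType)] (p : ℝ[X]) (q : J → ℝ[X]) (σ : J → SignType) :
    (cnt p q σ : ℝ) = tot p q fun τ => if τ = σ then 1 else 0 := by
  rw [tot, Finset.sum_boole, cnt, ← Set.ncard_coe_finset]
  congr 2
  ext t
  simp [sv, funext_iff]

variable {α : Type} {B : ℕ} [hB : Fact (2 ≤ B)] {Γ : Ctx α} {e n : ℕ}

lemma ap_pow {p : α → ℝ[X]} (h : AP B Γ e p) (hd : Dg Γ n p) (hn : 2 * n + 2 < B) (b : Fin 3) :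
    AP B Γ (e + 15) (fun x => p x ^ (b : ℕ)) ∧ Dg Γ (2 * n) fun x => p x ^ (b : ℕ) := by
  have hb : (b : ℕ) ≤ 2 := Nat.le_of_lt_succ b.2
  have h1 : (b : ℕ) * n ≤ 2 * n := Nat.mul_le_mul_right n hb
  refine ⟨?_, fun x hx => natDegree_pow_le.trans ((Nat.mul_le_mul_left _ (hd x hx)).trans h1)⟩
  simpa using AP.prod (Finset.range b) (by simp; omega) (p := fun _ => p) (fun _ _ => h)
    (fun _ _ => hd) (by simp; omega)

lemma ap_qry {q : α → J → ℝ[X]} {r : α → ℝ[X]} (hJ : Fintype.card J ≤ n)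
    (hn : 2 * n ^ 2 + 2 * n + 2 < B) (hq : ∀ j, AP B Γ e fun x => q x j)
    (dq : ∀ j, Dg Γ n fun x => q x j) (hr : AP B Γ e r) (dr : Dg Γ n r) (a : J → Fin 3)
    (b : Fin 3) : AP B Γ (e + 41) (fun x => qry (q x) (r x) a b) ∧
      Dg Γ (2 * n ^ 2 + 2 * n) fun x => qry (q x) (r x) a b := by
  have h0 : 2 * n + 2 < B := by omega
  have h1 : Fintype.card J * (2 * n) ≤ 2 * n ^ 2 := by nlinarith
  have h2 : Dg Γ (2 * n ^ 2) fun x => ∏ j, q x j ^ (a j : ℕ) := fun x hx =>
    (natDegree_prod_le _ _).trans ((Finset.sum_le_card_nsmul _ _ (2 * n) fun j _ =>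
      (ap_pow (hq j) (dq j) h0 (a j)).2 x hx).trans h1)
  have h3 := AP.prod (Finset.univ : Finset J) (by rw [Finset.card_univ]; omega)
    (p := fun j x => q x j ^ (a j : ℕ)) (fun j _ => (ap_pow (hq j) (dq j) h0 (a j)).1)
    (fun j _ => (ap_pow (hq j) (dq j) h0 (a j)).2) (by rw [Finset.card_univ]; omega)
  exact ⟨(h3.mul (ap_pow hr dr h0 b).1 h2 (by omega)).mono (by omega), fun x hx =>
    natDegree_mul_le.trans (add_le_add (h2 x hx) ((ap_pow hr dr h0 b).2 x hx))⟩

omit [Fintype J] in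
lemma ap_sub {q : α → J → ℝ[X]} (s : Finset J) (hq : ∀ j, AP B Γ e fun x => q x j)
    (dq : ∀ j, Dg Γ n fun x => q x j) (j : J) :
    AP B Γ (e + 1) (fun x => sub s (q x) j) ∧ Dg Γ n fun x => sub s (q x) j := by
  by_cases h : j ∈ s
  · simp only [sub, if_pos h]
    exact ⟨(hq j).mono (by omega), dq j⟩
  · simp only [sub, if_neg h]
    exact ⟨fun i => (A.zero.congr (by simp)).mono (by omega), fun _ _ => by simp⟩

end JBkr

open JBkr in
theorem bkrS (h : TaqS) : BkrS := by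
  intro α J _ B hB Γ e n p q hn hJ hp hq dp dq h0
  classical
  have hN : (2 * n ^ 2 + 2 * n + 2) ^ 2 ≤ B := by
    refine le_trans ?_ hn
    rw [show (n + 2) ^ 6 = ((n + 2) ^ 3) ^ 2 by ring]
    exact Nat.pow_le_pow_left (by nlinarith [Nat.zero_le (n ^ 3)]) 2
  have hN' : 2 * n ^ 2 + 2 * n + 2 < B := by nlinarith [Nat.zero_le (n ^ 2)]
  have hN3 : 3 * n ≤ B := by nlinarith [Nat.zero_le (n ^ 2)]
  have key := P.iter (B := B) (Γ := Γ) (e := e + 193) (n := Fintype.card J)
    (g := fun m Δ => ∃ s : Finset J, s.card = m ∧ ∀ x ∈ Δ.Y, ∀ y ∈ Δ.Y,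
      tot (p x) (sub s (q x)) = tot (p y) (sub s (q y))) (by omega) ?_ ?_
  · refine (key.imp fun Δ _ ⟨s, s1, s2⟩ x hx y hy => funext fun σ => ?_).mono (by omega)
    have hs : s = Finset.univ := Finset.eq_univ_of_card s s1
    have e1 : ∀ r : J → ℝ[X], sub s r = r := fun r => funext fun j => by simp [sub, hs]
    have e2 := s2 x hx y hy
    rw [e1, e1] at e2
    apply Nat.cast_injective (R := ℝ)
    rw [cnt_eq, cnt_eq, e2]
  · have h1 := h α B Γ (e + 3) n p (fun _ => C 1) (le_trans (Nat.pow_le_pow_right (by omega)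
      (by omega)) hn) (hp.mono (by omega)) ((AP.C A.one).mono (by omega)) dp
      (fun _ _ => by simp) h0
    refine (P.imp h1 fun Δ _ a => ⟨∅, rfl, fun x hx y hy => funext fun f => ?_⟩).mono (by omega)
    have e1 := a x hx y hy
    have e2 : ∀ (r : J → ℝ[X]) (t : ℝ), sv (sub ∅ r) t = fun _ => 0 := fun r t =>
      funext fun j => by simp [sv, sub]
    simp only [taq, eval_C, sign_one, SignType.coe_one, Finset.sum_const, nsmul_eq_mul, mul_one,
      Nat.cast_inj] at e1
    simp only [tot, e2, Finset.sum_const, e1]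
  · rintro m hm Δ a ⟨s, s1, s2⟩
    obtain ⟨j, -, hj⟩ := Finset.exists_mem_notMem_of_card_lt_card
      (s1 ▸ hm : s.card < (Finset.univ : Finset J).card)
    have hc : (s.cons j hj).card = m + 1 := by rw [Finset.card_cons, s1]
    rcases Δ.Y.eq_empty_or_nonempty with hY | ⟨y0, hy0⟩
    · exact P.done fun Θ b => ⟨s.cons j hj, hc, fun x hx => by simpa [hY] using b.1 hx⟩
    obtain ⟨κ, _, v, k1, k2⟩ := few_mon ((p y0).roots.toFinset.image (sv (sub s (q y0))))
    have k3 : Fintype.card κ ≤ n :=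
      k1.trans (Finset.card_image_le.trans ((nr_le (p y0)).trans (dp y0 (a.1 hy0))))
    have hS : ∀ x ∈ Δ.Y, ∀ t ∈ (p x).roots.toFinset,
        sv (sub s (q x)) t ∈ (p y0).roots.toFinset.image (sv (sub s (q y0))) := fun x hx =>
      mem_of_tot _ (s2 x hx y0 hy0) fun t ht => Finset.mem_image_of_mem _ ht
    have h1 := D.all (B := B) (Γ := Δ) (e := e + 192) (Finset.univ : Finset (κ × Fin 3))
      (by simp; omega) (r := fun i x y =>
        taq (p x) (qry (sub s (q x)) (q x j) (v i.1) i.2) =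
          taq (p y) (qry (sub s (q y)) (q y j) (v i.1) i.2)) fun i _ => by
      have h2 := ap_qry (q := fun x => sub s (q x)) hJ hN' (fun j => (ap_sub s hq dq j).1)
        (fun j => (ap_sub s hq dq j).2) ((hq j).mono (by omega)) (dq j) (v i.1) i.2
      exact h α B Δ (e + 42) (2 * n ^ 2 + 2 * n) p _ hN ((hp.mono (by omega)).ext a)
        (h2.1.ext a) ((dp.mono (by omega)).ext a) (h2.2.ext a) fun x hx => h0 x (a.1 hx)
    refine P.imp h1 fun Θ b d => ⟨s.cons j hj, hc, fun x hx y hy => funext fun f => ?_⟩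
    obtain ⟨c, hcc⟩ := tot_cons s j hj _ v k2 f
    rw [hcc _ _ (hS x (b.1 hx)), hcc _ _ (hS y (b.1 hy))]
    exact Finset.sum_congr rfl fun i hi => by rw [d x hx y hy i hi]

end Pool.Agent.Lib.MP_837412_lc
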