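import Pool.Agent.Lib.MP_837412_lc.StA
import Pool.Agent.Lib.MP_837412_lc.Once

/-!
Normal forms, critical points as eigenvectors, traces.
-/

namespace Pool.Agent.Lib.MP_837412_lc

open Set Function MvPolynomial

namespace JCrit

variable {σ : Type} [Fintype σ] [DecidableEq σ]

omit [DecidableEq σ] in
lemma toF_apply {m : ℕ} (a : Std σ m) (i : σ) : toF a i = a i := rfl

omit [DecidableEq σ] in
lemma toF_inj {m : ℕ} : Injective (toF : Std σ m → σ →₀ ℕ) := fun a b h =>
  funext fun i => Fin.ext (by rw [← toF_apply, ← toF_apply, h])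

omit [DecidableEq σ] in
lemma std {m : ℕ} (β : σ →₀ ℕ) (h : ∀ i, β i < m) (φ : (σ →₀ ℕ) → ℂ)
    {_ : ∀ a : Std σ m, Decidable (β = toF a)} [Fintype (Std σ m)] :
    ∑ a : Std σ m, (if β = toF a then 1 else 0) * φ (toF a) = φ β := by
  have e : β = toF (fun i => (⟨β i, h i⟩ : Fin m)) := Finsupp.ext fun i => rfl
  rw [Finset.sum_eq_single (fun i => (⟨β i, h i⟩ : Fin m))]
  · rw [if_pos e, one_mul, ← e]
  · intro b _ hb
    rw [if_neg fun h' => hb (toF_inj (h'.symm.trans e)), zero_mul]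
  · simp

omit [Fintype σ] [DecidableEq σ] in
lemma lin_mul (ℓ : MvPolynomial σ ℂ →ₗ[ℂ] ℂ) (β : σ →₀ ℕ) (q : MvPolynomial σ ℂ) :
    ∑ γ ∈ q.support, coeff γ q * ℓ (monomial (β + γ) 1) = ℓ (monomial β 1 * q) := by
  conv_rhs => rw [q.as_sum, Finset.mul_sum, map_sum]
  refine Finset.sum_congr rfl fun γ _ => ?_
  rw [monomial_mul, one_mul, ← smul_eq_mul, ← map_smul, smul_monomial, smul_eq_mul, mul_one]

lemma nf {m : ℕ} {q : σ → MvPolynomial σ ℂ} {ℓ : MvPolynomial σ ℂ →ₗ[ℂ] ℂ}
    (hq : ∀ i, (q i).totalDegree < m) (hl : ∀ i (g : MvPolynomial σ ℂ), ℓ (g * (X i ^ m - q i)) = 0)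
    (n : ℕ) : ∀ β : σ →₀ ℕ, β.degree ≤ n →
      ∑ a, NF m q n β a * ℓ (monomial (toF a) 1) = ℓ (monomial β 1) := by
  induction n with
  | zero =>
    intro β hβ
    have h0 : β = 0 := (Finsupp.degree_eq_zero_iff β).1 (Nat.le_zero.1 hβ)
    simp only [NF]
    exact std β (fun i => by rw [h0]; exact (Nat.zero_le _).trans_lt (hq i))
      fun γ => ℓ (monomial γ 1)
  | succ n ih =>
    intro β hβ
    by_cases h : ∃ i, m ≤ β i
    · simp only [NF, dif_pos h, Finset.sum_mul, mul_assoc]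
      have hi := pk_spec h
      generalize pk h = i at hi ⊢
      have e : β - Finsupp.single i m + Finsupp.single i m = β :=
        tsub_add_cancel_of_le (Finsupp.single_le_iff.2 hi)
      have hd : (β - Finsupp.single i m).degree + m = β.degree := by
        conv_rhs => rw [← e, map_add, Finsupp.degree_single]
      rw [Finset.sum_comm]
      calc _ = ∑ γ ∈ (q i).support,
            coeff γ (q i) * ℓ (monomial (β - Finsupp.single i m + γ) 1) := by
            refine Finset.sum_congr rfl fun γ hγ => ?_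
            rw [← Finset.mul_sum, ih]
            have h1 : γ.degree ≤ (q i).totalDegree := le_totalDegree hγ
            have h2 := hq i
            rw [map_add]
            omega
        _ = ℓ (monomial (β - Finsupp.single i m) 1 * q i) := lin_mul ℓ _ _
        _ = ℓ (monomial (β - Finsupp.single i m) 1 * X i ^ m) := by
            have h1 := hl i (monomial (β - Finsupp.single i m) 1)
            rw [mul_sub, map_sub, sub_eq_zero] at h1
            exact h1.symm
        _ = _ := by rw [X_pow_eq_monomial, monomial_mul, e, one_mul]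
    · simp only [NF, dif_neg h]
      exact std β (fun i => not_le.1 fun h' => h ⟨i, h'⟩) fun γ => ℓ (monomial γ 1)

omit [DecidableEq σ] in
lemma crit_eq {m : ℕ} {p : MvPolynomial σ ℂ} {l : ℂ} {x : σ → ℂ} (h : Crit (Fl m p l) x) (i : σ) :
    eval x (X i ^ m - qq m p l i) = 0 := by
  have h1 := h i
  rw [pderiv_Fl, map_mul, eval_C] at h1
  exact (mul_eq_zero.1 h1).resolve_left (Nat.cast_ne_zero.2 m.succ_ne_zero)

/-- The vector of the standard monomials at a point. -/
noncomputable def vv (m : ℕ) (x : σ → ℂ) : Std σ m → ℂ := fun b => eval x (monomial (toF b) 1)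

lemma eig (h2 : NFS) {m : ℕ} {p h : MvPolynomial σ ℂ} {l : ℂ} {x : σ → ℂ} (hp : p.totalDegree < m)
    (hh : h.totalDegree ≤ m + 1) (hx : Crit (Fl m p l) x) :
    (MM m (qq m p l) h).mulVec (vv m x) = eval x h • vv m x := by
  have h1 := h2 σ m (qq m p l) h (aeval x : MvPolynomial σ ℂ →ₐ[ℂ] ℂ).toLinearMap (deg_qq hp l) hh
    fun i g => by
      change MvPolynomial.eval x (g * (X i ^ m - qq m p l i)) = 0
      rw [map_mul, crit_eq hx, mul_zero]
  refine h1.trans (funext fun a => ?_)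
  change MvPolynomial.eval x (h * monomial (toF a) 1) = _
  rw [map_mul]; rfl

omit [DecidableEq σ] in
lemma toF_zero {m : ℕ} (hm : 0 < m) : toF (fun _ : σ => (⟨0, hm⟩ : Fin m)) = 0 :=
  Finsupp.ext fun _ => rfl

lemma toF_one {m : ℕ} (hm : 2 ≤ m) (i : σ) :
    toF (fun j : σ => (if j = i then ⟨1, hm⟩ else ⟨0, by omega⟩ : Fin m)) = Finsupp.single i 1 :=
  Finsupp.ext fun j => by
    rw [toF_apply, Finsupp.single_apply]
    by_cases h : j = i
    · simp [h]
    · simp [h, Ne.symm h]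

omit [DecidableEq σ] in
lemma vv_zero {m : ℕ} (hm : 0 < m) (x : σ → ℂ) : vv m x (fun _ => ⟨0, hm⟩) = 1 := by
  simp [vv, toF_zero]

omit [DecidableEq σ] in
lemma vv_ne {m : ℕ} (hm : 0 < m) (x : σ → ℂ) : vv m x ≠ 0 := fun h => by
  have h1 := vv_zero hm x
  rw [h] at h1
  exact zero_ne_one h1

end JCrit

open JCrit

theorem nfS : NFS := by
  intro σ _ _ m q h ℓ hq hh hl
  funext a
  simp only [Matrix.mulVec, dotProduct, MM, Matrix.of_apply, Finset.sum_mul, mul_assoc]
  rw [Finset.sum_comm, mul_comm h, ← lin_mul]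
  refine Finset.sum_congr rfl fun g hg => ?_
  rw [← Finset.mul_sum, nf hq hl]
  have h1 : g.degree ≤ h.totalDegree := le_totalDegree hg
  have h2 : (toF a).degree ≤ Fintype.card σ * (m + 1) := by
    rw [Finsupp.degree_eq_sum, ← Finset.card_univ, ← smul_eq_mul]
    exact Finset.sum_le_card_nsmul _ _ _ fun i _ => (a i).2.le.trans m.le_succ
  rw [map_add, Kf, add_mul, one_mul]
  omega

theorem critS (h1 : EigS) (h2 : NFS) : CritS := by
  intro σ _ _ m p l hm hp x hx
  have hm0 : 0 < m := by omega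
  obtain ⟨a1, a2⟩ := h1 _ _ _ _ (eig h2 hp (deg_Fl hp l) hx) (vv_ne hm0 x)
  refine ⟨a1, fun hi => ⟨fun hd => ?_, fun y hy hv => ?_⟩⟩
  · obtain ⟨u, hu, hu0⟩ := Matrix.exists_vecMul_eq_zero_iff.2 hd
    obtain ⟨ℓ, hℓ⟩ : ∃ ℓ : MvPolynomial σ ℂ →ₗ[ℂ] ℂ, ∀ g, ℓ g = ∑ j, u j * eval x (pderiv j g) :=
      ⟨∑ j, u j • ((aeval x : MvPolynomial σ ℂ →ₐ[ℂ] ℂ).toLinearMap ∘ₗ (pderiv j).toLinearMap),
        fun g => by rw [LinearMap.sum_apply]; rfl⟩
    have hmul : ∀ g g', ℓ (g * g') = eval x g * ℓ g' + eval x g' * ℓ g := by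
      intro g g'
      simp only [hℓ, Derivation.leibniz, smul_eq_mul, map_add, map_mul, Finset.mul_sum,
        ← Finset.sum_add_distrib]
      exact Finset.sum_congr rfl fun j _ => by ring
    have hq : ∀ i, ℓ (X i ^ m - qq m p l i) = 0 := by
      intro i
      have e : ℓ (pderiv i (Fl m p l)) = 0 := by rw [hℓ]; exact congrFun hu0 i
      rw [pderiv_Fl, C_mul', map_smul, smul_eq_mul] at e
      exact (mul_eq_zero.1 e).resolve_left (Nat.cast_ne_zero.2 m.succ_ne_zero)
    have hF : ℓ (Fl m p l) = 0 := by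
      rw [hℓ]; exact Finset.sum_eq_zero fun j _ => by rw [hx j, mul_zero]
    obtain ⟨t, ht⟩ := a2 hi (fun b => ℓ (monomial (toF b) 1))
      ((h2 σ m (qq m p l) (Fl m p l) ℓ (deg_qq hp l) (deg_Fl hp l) fun i g => by
        rw [hmul, hq, crit_eq hx, mul_zero, zero_mul, add_zero]).trans (funext fun a => by
          rw [hmul, hF, mul_zero, add_zero]; rfl))
    have ht0 : t = 0 := by
      have e := congrFun ht fun _ => ⟨0, hm0⟩
      rw [Pi.smul_apply, vv_zero, toF_zero, hℓ] at e
      simpa using e.symm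
    refine hu (funext fun i => ?_)
    have e := congrFun ht fun j => if j = i then ⟨1, hm⟩ else ⟨0, hm0⟩
    rw [ht0, zero_smul, toF_one hm, hℓ] at e
    change ∑ j, u j * eval x (pderiv j (X i)) = 0 at e
    simpa [pderiv_X, Pi.single_apply, apply_ite] using e
  · obtain ⟨t, ht⟩ := a2 hi (vv m y) (hv ▸ eig h2 hp (deg_Fl hp l) hy)
    have ht1 : t = 1 := by
      have e := congrFun ht fun _ => ⟨0, hm0⟩
      rw [Pi.smul_apply, vv_zero, vv_zero] at e
      simpa using e.symm
    funext i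
    have e := congrFun ht fun j => if j = i then ⟨1, hm⟩ else ⟨0, hm0⟩
    rw [ht1, one_smul, vv, vv, toF_one hm] at e
    change eval y (X i) = eval x (X i) at e
    simpa using e

theorem rurS (h : NFS) : RurS := by
  intro σ _ _ m p q l x g hp hq hM n hn
  have hm0 : 0 < m := by omega
  obtain ⟨V, hV⟩ : ∃ V : Matrix (Std σ m) (Std σ m) ℂ, ∀ a, V.col a = vv m (x a) :=
    ⟨Matrix.of fun b a => vv m (x a) b, fun _ => rfl⟩
  have hd : ∀ r : MvPolynomial σ ℂ, r.totalDegree ≤ m + 1 →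
      MM m (qq m p l) r * V = V * Matrix.diagonal fun a => eval (x a) r := by
    intro r hr
    ext b a
    have e := congrFun (eig h hp hr (hM.crit a)) b
    rw [← hV] at e
    rw [Matrix.mul_diagonal, mul_comm]
    exact e
  have hu : IsUnit V := by
    rw [← Matrix.linearIndependent_cols_iff_isUnit]
    refine Module.End.eigenvectors_linearIndependent' (Matrix.toLin' (MM m (qq m p l) (Fl m p l)))
      (Lam m p l) hM.inj _ fun a => ?_
    rw [hV]
    exact ⟨Module.End.mem_eigenspace_iff.2 (by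
      rw [Matrix.toLin'_apply, eig h hp (deg_Fl hp l) (hM.crit a), hM.val]), vv_ne hm0 _⟩
  obtain ⟨W, hW⟩ := hu.exists_right_inv
  have hW' : W * V = 1 := mul_eq_one_comm.1 hW
  have hj : ∀ j : ℕ, MM m (qq m p l) (Fl m p l) ^ j * V =
      V * Matrix.diagonal fun a => Lam m p l a ^ j := by
    intro j
    induction j with
    | zero => simp
    | succ j ih =>
      rw [pow_succ', Matrix.mul_assoc, ih, ← Matrix.mul_assoc, hd _ (deg_Fl hp l), Matrix.mul_assoc,
        Matrix.diagonal_mul_diagonal]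
      simp only [hM.val, pow_succ']
  have ht : ∀ j : ℕ, (MM m (qq m p l) q * MM m (qq m p l) (Fl m p l) ^ j).trace =
      ∑ a, eval (x a) q * Lam m p l a ^ j := by
    intro j
    rw [← Matrix.mul_one (_ * _), ← hW, ← Matrix.mul_assoc, Matrix.mul_assoc _ _ V, hj,
      ← Matrix.mul_assoc, hd _ hq, Matrix.trace_mul_comm, ← Matrix.mul_assoc, ← Matrix.mul_assoc,
      hW', Matrix.one_mul, Matrix.diagonal_mul_diagonal, Matrix.trace_diagonal]
  simp only [ht, Polynomial.eval_eq_sum_range' hn, Finset.mul_sum]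
  rw [Finset.sum_comm]
  exact Finset.sum_congr rfl fun j _ => Finset.sum_congr rfl fun a _ => by ring

end Pool.Agent.Lib.MP_837412_lc
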