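import Pool.Agent.Lib.MP_837412_lc.StC

/-!
Between two events the order type is constant; equal traces give equal histories.
-/

namespace Pool.Agent.Lib.MP_837412_lc

open Set Polynomial Function Filter Topology

namespace JEv

variable {ι : Type} [Fintype ι] {d : ℕ} {c : ℝ → ι → ℂ}

lemma nn_ne (f : ℝ → ℂ) : nn f ≠ 0 := mul_ne_zero (nz_ne_zero _) (nz_ne_zero _)

lemma nn_iff {f : ℝ → ℂ} {n : ℕ} (hf : IsP Complex.ofReal n f) {t : ℝ}
    (h : (nn f).eval t ≠ 0) : f t ≠ 0 ↔ pol f ≠ 0 := by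
  rw [nn, eval_mul] at h
  rw [← hf.pol.2 t]
  exact eval_ne_zero_iff (left_ne_zero_of_mul h) (right_ne_zero_of_mul h)

lemma pp_Q (hc : PP Complex.ofReal d c) : PP Complex.ofReal d fun t => Qf (c t) :=
  hc.elim (hc.padd (hc.smul (-1)))

lemma pp_W (hc : PP Complex.ofReal d c) : PP Complex.ofReal d fun t => Wc (c t) :=
  (hc.padd hc.conj).padd ((hc.padd hc.conj).smul (-1))

lemma ev_ne (c : ℝ → ι → ℂ) : ev c ≠ 0 := by
  refine mul_ne_zero (mul_ne_zero (mul_ne_zero X_ne_zero ?_) (nn_ne _))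
    (Finset.prod_ne_zero_iff.2 fun j _ => nn_ne _)
  simpa using X_sub_C_ne_zero (1 : ℝ)

lemma ev_Q {t : ℝ} (h : (ev c).eval t ≠ 0) : (nn fun t => Qv (c t)).eval t ≠ 0 := by
  rw [ev, eval_mul, eval_mul] at h
  exact right_ne_zero_of_mul (left_ne_zero_of_mul h)

lemma ev_W {t : ℝ} (h : (ev c).eval t ≠ 0) {j : ℕ} (hj : j ≤ Fintype.card ι ^ 4) :
    (nn fun t => (chi (Wc (c t))).coeff j).eval t ≠ 0 := by
  rw [ev, eval_mul, eval_prod] at h
  exact Finset.prod_ne_zero_iff.1 (right_ne_zero_of_mul h) j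
    (Finset.mem_range.2 (Nat.lt_succ_of_le hj))

lemma zc_W (hc : PP Complex.ofReal d c) {s t : ℝ} (hs : (ev c).eval s ≠ 0)
    (ht : (ev c).eval t ≠ 0) : zc (Wc (c s)) = zc (Wc (c t)) := by
  refine zc_eq_of_support ?_
  ext j
  rw [mem_support_iff, mem_support_iff]
  rcases le_or_gt j (Fintype.card ι ^ 4) with hj | hj
  · exact (nn_iff ((pp_W hc).coeff_chi j) (ev_W hs hj)).trans
      (nn_iff ((pp_W hc).coeff_chi j) (ev_W ht hj)).symm
  · have e : ∀ u, (chi (Wc (c u))).coeff j = 0 := fun u =>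
      coeff_eq_zero_of_natDegree_lt (by
        rw [natDegree_chi]
        refine lt_of_le_of_lt (le_of_eq ?_) hj
        simp only [Fintype.card_prod]; ring)
    rw [e, e]

lemma zc_perm (a : ι → ℂ) (e : Equiv.Perm ι) : zc (Wc (a ∘ e)) = zc (Wc a) := by
  have h : Wc (a ∘ e) = Wc a ∘ ((e.prodCongr e).prodCongr (e.prodCongr e)) := rfl
  rw [zc_eq, zc_eq, h, chi_comp]

lemma no_root {p : ℝ[X]} (hp : p ≠ 0) {j : ℕ} (hj : j + 1 < nr p) :
    ∀ t ∈ Ioo (rt p j) (rt p (j + 1)), p.eval t ≠ 0 := by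
  intro t ht h
  obtain ⟨i, hi, rfl⟩ := exists_rt hp h
  have h1 := (rt_lt_iff (by omega) hi).1 ht.1
  have h2 := (rt_lt_iff hi hj).1 ht.2
  omega

lemma mem_Ioo {a b u : ℝ} (h : a < b) (h0 : 0 < u) (h1 : u < 1) : a + u * (b - a) ∈ Ioo a b := by
  have e1 : 0 < u * (b - a) := mul_pos h0 (sub_pos.2 h)
  have e2 : 0 < (1 - u) * (b - a) := mul_pos (sub_pos.2 h1) (sub_pos.2 h)
  constructor <;> linarith

end JEv

open JEv

theorem rigS (h1 : QvS) (h2 : DnS) (h3 : NearS) : RigS := by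
  intro ι _ d c hc
  refine ⟨ev_ne c, by simp [ev], by simp [ev], fun ⟨t0, h0⟩ => ?_⟩
  have hq := (pp_Q hc).coeff_chi (Fintype.card ι)
  have hp : pol (fun t => Qv (c t)) ≠ 0 := fun e => h0 (by
    have := hq.pol.2 t0
    rw [Qv, ← this]
    change eval _ (pol fun t => Qv (c t)) = 0
    rw [e, eval_zero])
  have hQ : ∀ t, (ev c).eval t ≠ 0 → Qv (c t) ≠ 0 := fun t ht => (nn_iff hq (ev_Q ht)).2 hp
  refine ⟨hQ, fun a b hab s hs t ht => ?_⟩
  refine isPreconnected_Ioo.induction₂ (fun s t => Sim (c s) (c t)) (fun x hx => ?_)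
    (fun x y z _ _ _ h h' => h.trans h') (fun x y _ _ h => h.symm) hs ht
  obtain ⟨δ, hδ, hD⟩ := h2 ι (c x)
  have hN := h3 ℝ ι c x (fun j => ((hc.coeff_chi j).continuous
    Complex.continuous_ofReal).continuousAt) ((h1 ι _).1 (hQ x (hab x hx))).1 δ hδ
  filter_upwards [mem_nhdsWithin_of_mem_nhds hN, self_mem_nhdsWithin] with y hy hy'
  obtain ⟨e, he⟩ := hy
  exact ⟨e, (hD (c y ∘ e) he).2 ((zc_perm _ e).trans (zc_W hc (hab y hy') (hab x hx)))⟩

theorem evS (h : RigS) (h1 : QvS) : EvS := by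
  intro ι _ d c c' hc hc' ⟨hn, hT⟩ hQ
  obtain ⟨p0, z0, z1, hr⟩ := h ι d c hc
  obtain ⟨p0', -, -, hr'⟩ := h ι d c' hc'
  obtain ⟨-, hS⟩ := hr ⟨0, hQ 0 (left_mem_Icc.2 zero_le_one)⟩
  obtain ⟨j0, l0, e0⟩ := exists_rt p0 z0
  obtain ⟨j1, l1, e1⟩ := exists_rt p0 z1
  have e0' : rt (ev c') j0 = 0 := by
    have := (hT j0 l0).1
    rw [e0, sign_zero] at this
    exact sign_eq_zero_iff.1 this.symm
  have e1' : rt (ev c') j1 = 1 := by
    have := (hT j1 l1).2.1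
    rw [e1, sub_self, sign_zero] at this
    exact sub_eq_zero.1 (sign_eq_zero_iff.1 this.symm)
  have m : ∀ j, j0 ≤ j → j ≤ j1 → rt (ev c) j ∈ Icc (0 : ℝ) 1 := fun j a b =>
    ⟨e0 ▸ (rt_le_iff l0 (by omega)).2 a, e1 ▸ (rt_le_iff (by omega) l1).2 b⟩
  have m' : ∀ j, j0 ≤ j → j ≤ j1 → rt (ev c') j ∈ Icc (0 : ℝ) 1 := fun j a b =>
    ⟨e0' ▸ (rt_le_iff (hn ▸ l0) (by omega)).2 a, e1' ▸ (rt_le_iff (by omega) (hn ▸ l1)).2 b⟩
  have q' : ∀ j, j0 ≤ j → j ≤ j1 → Qv (c' (rt (ev c') j)) ≠ 0 := fun j a b e =>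
    hQ _ (m j a b) ((hT j (by omega)).2.2.1.1.2 e)
  have l01 : j0 ≤ j1 := (rt_le_iff l0 l1).1 (by rw [e0, e1]; exact zero_le_one)
  obtain ⟨hQ1, hS'⟩ := hr' ⟨_, q' j0 le_rfl l01⟩
  have hQ' : ∀ t ∈ Icc (0 : ℝ) 1, Qv (c' t) ≠ 0 := fun t ht => by
    by_cases e : (ev c').eval t = 0
    · obtain ⟨j, hj, rfl⟩ := exists_rt p0' e
      exact q' j ((rt_le_iff (hn ▸ l0) hj).1 (e0' ▸ ht.1)) ((rt_le_iff hj (hn ▸ l1)).1 (e1' ▸ ht.2))
    · exact hQ1 t e
  refine ⟨hQ', fun R hR h0 => ?_⟩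
  have sm : ∀ s ∈ Icc (0 : ℝ) 1, ∀ s' ∈ Icc (0 : ℝ) 1, SimI (c s) (c' s') → Sim (c s) (c' s') :=
    fun s hs s' hs' hI => hI.2 ((h1 ι _).1 (hQ s hs)).1 ((h1 ι _).1 (hQ' s' hs')).1
  have key : ∀ j, j0 ≤ j → j ≤ j1 → R (rt (ev c) j) (rt (ev c') j) := by
    intro j hj
    induction j, hj using Nat.le_induction with
    | base => intro _; rw [e0, e0']; exact h0
    | succ j hj ih =>
      intro hj1
      have a1 := m j hj (by omega)
      have a2 := m (j + 1) (by omega) hj1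
      have b1 := m' j hj (by omega)
      have b2 := m' (j + 1) (by omega) hj1
      have n1 : j + 1 < nr (ev c) := by omega
      have n2 : j + 1 < nr (ev c') := by omega
      have lt1 : rt (ev c) j < rt (ev c) (j + 1) := (rt_lt_iff (by omega) n1).2 (by omega)
      have lt2 : rt (ev c') j < rt (ev c') (j + 1) := (rt_lt_iff (by omega) n2).2 (by omega)
      refine hR _ a1 _ a2 _ b1 _ b2 (fun u hu => ?_) (ih (by omega))
      rcases eq_or_lt_of_le hu.1 with rfl | u0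
      · rw [zero_mul, zero_mul, add_zero, add_zero]
        exact sm _ a1 _ b1 (hT j (by omega)).2.2.1
      rcases eq_or_lt_of_le hu.2 with rfl | u1
      · rw [one_mul, one_mul, add_sub_cancel, add_sub_cancel]
        exact sm _ a2 _ b2 (hT (j + 1) n1).2.2.1
      have k1 : (rt (ev c) j + rt (ev c) (j + 1)) / 2 ∈ Ioo (rt (ev c) j) (rt (ev c) (j + 1)) :=
        ⟨by linarith, by linarith⟩
      have k2 : (rt (ev c') j + rt (ev c') (j + 1)) / 2 ∈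
          Ioo (rt (ev c') j) (rt (ev c') (j + 1)) := ⟨by linarith, by linarith⟩
      refine (hS _ _ (no_root p0 n1) _ (mem_Ioo lt1 u0 u1) _ k1).trans
        ((sm _ ⟨by linarith [a1.1, k1.1], by linarith [a2.2, k1.2]⟩ _
          ⟨by linarith [b1.1, k2.1], by linarith [b2.2, k2.2]⟩
          ((hT j (by omega)).2.2.2 n1)).trans ?_)
      exact hS' _ _ (no_root p0' n2) _ k2 _ (mem_Ioo lt2 u0 u1)
  have := key j1 l01 le_rfl
  rwa [e1, e1'] at this

end Pool.Agent.Lib.MP_837412_lc
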