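import Pool.Agent.Lib.MP_837412_lc.LB

/-!
Existence of normal forms in general and the relation between two of them.
-/

namespace Pool.Agent.Lib.MP_837412_lc

open Pool.Agent.Shared.Mod2 Set Function Filter Topology

namespace JEx

/-- The shear as a linear map. -/
noncomputable def sh0 (θ : ℝ) : ℂ →L[ℝ] ℂ :=
  ContinuousLinearMap.id ℝ ℂ + θ • Complex.ofRealCLM.comp Complex.imCLM

lemma sh0_re (θ : ℝ) (z : ℂ) : (sh0 θ z).re = z.re + θ * z.im := by simp [sh0]

lemma sh0_im (θ : ℝ) (z : ℂ) : (sh0 θ z).im = z.im := by simp [sh0]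

/-- The shear as an equivalence. -/
noncomputable def sh (θ : ℝ) : ℂ ≃L[ℝ] ℂ :=
  ContinuousLinearEquiv.equivOfInverse (sh0 θ) (sh0 (-θ))
    (fun z => Complex.ext (by rw [sh0_re, sh0_re, sh0_im]; ring) (by rw [sh0_im, sh0_im]))
    (fun z => Complex.ext (by rw [sh0_re, sh0_re, sh0_im]; ring) (by rw [sh0_im, sh0_im]))

lemma sh_re (θ : ℝ) (z : ℂ) : (sh θ z).re = z.re + θ * z.im := sh0_re θ z

lemma sh_im (θ : ℝ) (z : ℂ) : (sh θ z).im = z.im := sh0_im θ z

lemma cj_sh {X : Type} (θ : ℝ) (G : X → ℂ) : cj (sh θ ∘ G) = sh (-θ) ∘ cj G := by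
  funext x
  refine Complex.ext ?_ ?_
  · simp only [cj_re, comp_apply, sh_re, cj_im]; ring
  · simp only [cj_im, comp_apply, sh_im]

variable {E ι : Type} [TopologicalSpace E] [Fintype ι] {G : E → ℂ} {c : ι → ℂ} {m : ℕ}
  {N : ℝ} {u u' : ι → Ch (Sx E)}

omit [TopologicalSpace E] in
lemma sh_AU (θ : ℝ) (G : E → ℂ) : (sh θ ∘ G) ⁻¹' AU N = G ⁻¹' AU N := by
  ext y; simp only [mem_preimage, AU, mem_ofPred_eq, comp_apply, sh_im]

/-- A basis for a slightly sheared system is a basis for the system. -/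
lemma ub_sh (h : Sys G c m) (hc : ∀ i, |(c i).im| < N) : ∃ θ₀ > 0, ∀ θ : ℝ, |θ| ≤ θ₀ →
    ∀ e, UB N (sh θ ∘ G) (sh θ ∘ c) m e → UB N G c m e := by
  obtain ⟨η, h0, hη⟩ := exists_gap (finite_range c)
  have hp : 0 < 2 * |N| + η := by positivity
  refine ⟨η / 2 / (2 * |N| + η), by positivity, fun θ hθ e he => h.ub ?_ fun j => ?_⟩
  · rw [← sh_AU θ G]; exact he.ind
  refine ⟨strip N (c j).re ((c j).im - η) η, upw_strip _ _ _ _, fun l hl => ?_, ?_⟩
  · have a := (mem_strip h0 (abs_lt.1 (hc l)).2.le (hη _ ⟨l, rfl⟩ _ ⟨j, rfl⟩)).1.1 hl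
    exact a.2.eq_or_lt.imp (fun b => h.inj (Complex.ext a.1 b.symm)) fun b => ⟨a.1.symm, b⟩
  · have a := he.mem (upw_strip N (sh θ (c j)).re ((c j).im - η) (η / 2)) (i := j)
      (Or.inl ⟨by simpa using h0, by simp only [comp_apply, sh_im]; linarith⟩)
    rw [Im, sh_AU] at a
    refine sup_le_sup_right (Zs_mono (fun y hy => ?_) Subset.rfl m) _ a
    by_cases hN : N < (G y).im
    · exact Or.inr hN
    rcases hy with ⟨b1, b2⟩ | b
    · simp only [comp_apply, sh_re, sh_im] at b1 b2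
      refine Or.inl ⟨?_, b2⟩
      have e1 : |(G y).im - (c j).im| ≤ 2 * |N| + η := by
        have := abs_lt.1 (hc j)
        have := le_abs_self N
        have := abs_nonneg N
        exact abs_le.2 ⟨by linarith, by linarith⟩
      have e2 : |θ * ((G y).im - (c j).im)| ≤ η / 2 := by
        rw [abs_mul]
        exact (mul_le_mul hθ e1 (abs_nonneg _) (by positivity)).trans_eq (div_mul_cancel₀ _ hp.ne')
      have e3 := abs_lt.1 b1
      have e4 := abs_le.1 e2
      exact abs_lt.2 ⟨by linarith [e3.1, e4.2], by linarith [e3.2, e4.1]⟩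
    · exact absurd (by simpa only [AU, mem_ofPred_eq, comp_apply, sh_im] using b) hN

/-- A small shear turns the lexicographic order into the order of the real parts. -/
lemma ord_sh (c : ι → ℂ) : ∃ θ₀ > 0, ∀ θ : ℝ, 0 < θ → θ ≤ θ₀ → ∀ i j, Lx c i j →
    (sh θ (c i)).re < (sh θ (c j)).re := by
  have : ∀ᶠ θ in 𝓝 (0 : ℝ), ∀ i j, (c i).re < (c j).re →
      (c i).re + θ * (c i).im < (c j).re + θ * (c j).im :=
    eventually_all.2 fun i => eventually_all.2 fun j => by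
      by_cases hij : (c i).re < (c j).re
      · refine (ContinuousAt.eventually_lt (f := fun θ : ℝ => (c i).re + θ * (c i).im)
          (g := fun θ : ℝ => (c j).re + θ * (c j).im) (by fun_prop) (by fun_prop)
          (by simpa using hij)).mono fun _ a _ => a
      · exact .of_forall fun _ a => absurd a hij
  obtain ⟨ε, e0, e1⟩ := Metric.eventually_nhds_iff.1 this
  refine ⟨ε / 2, by positivity, fun θ a b i j l => ?_⟩
  rw [sh_re, sh_re]
  rcases l with l | l
  · exact e1 (by rw [Real.dist_eq, sub_zero, abs_of_pos a]; linarith) i j l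
  · rw [l.1]; linarith [mul_lt_mul_of_pos_left l.2 a]

omit [Fintype ι] in
lemma lx_total (h : Injective c) {i j : ι} (e : i ≠ j) : Lx c i j ∨ Lx c j i := by
  rcases lt_trichotomy (c i).re (c j).re with a | a | a
  · exact Or.inl (Or.inl a)
  · rcases lt_trichotomy (c i).im (c j).im with b | b | b
    · exact Or.inl (Or.inr ⟨a, b⟩)
    · exact absurd (h (Complex.ext a b)) e
    · exact Or.inr (Or.inr ⟨a.symm, b⟩)
  · exact Or.inr (Or.inl a)

lemma coef {V : Type} [AddCommGroup V] [Module F V] {e : ι → V} {S : Set ι} {T : Submodule F V}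
    {x : V} (h : x ∈ Submodule.span F (e '' S) ⊔ T) :
    ∃ a : ι → F, (∀ j, a j ≠ 0 → j ∈ S) ∧ x + ∑ j, a j • e j ∈ T := by
  obtain ⟨y, hy, e1⟩ := mem_sup2.1 h
  obtain ⟨l, l1, rfl⟩ := (Finsupp.mem_span_image_iff_linearCombination F).1 hy
  refine ⟨l, fun j hj => l1 (Finsupp.mem_support_iff.2 hj), ?_⟩
  rwa [Finsupp.linearCombination_apply, Finsupp.sum_fintype _ _ (by simp)] at e1

/-- Two adapted bases differ by a unipotent matrix. -/
lemma change (hi : Injective c) (hc : ∀ i, |(c i).im| < N) (hu : UB N G c m u)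
    (hu' : UB N G c m u') : ∃ A : Matrix ι ι F, Uni (Up c) A ∧
      ∀ i, u' i + ∑ j, A i j • u j ∈ Bs univ (G ⁻¹' AU N) m := by
  classical
  obtain ⟨η, h0, hη⟩ := exists_gap (finite_range c)
  have ms := fun i l => mem_strip h0 (abs_lt.1 (hc l)).2.le (hη _ ⟨l, rfl⟩ _ ⟨i, rfl⟩)
  have key : ∀ i, ∃ a : ι → F, (∀ j, a j ≠ 0 → (c j).re = (c i).re ∧ (c i).im ≤ (c j).im) ∧
      u' i + ∑ j, a j • u j ∈ Bs univ (G ⁻¹' AU N) m := fun i => by
    have a := hu'.mem (upw_strip N (c i).re ((c i).im - η) η) ((ms i i).1.2 ⟨rfl, le_rfl⟩)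
    rw [hu.span _ (upw_strip _ _ _ _)] at a
    obtain ⟨b, b1, b2⟩ := coef a
    exact ⟨b, fun j hj => (ms i j).1.1 (b1 j hj), b2⟩
  choose A a1 a2 using key
  have up : ∀ i j, i ≠ j → A i j ≠ 0 → Up c i j := fun i j a b =>
    ⟨(a1 i j b).1.symm, (a1 i j b).2.lt_of_ne fun e => a (hi (Complex.ext (a1 i j b).1.symm e))⟩
  refine ⟨A, ⟨fun i => ?_, up⟩, a2⟩
  have h2 : A i i = 0 ∨ A i i = 1 := by generalize A i i = x; revert x; decide
  refine h2.resolve_left fun e0 => ?_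
  have w := upw_strip N (c i).re ((c i).im + η / 2) η
  have m1 : u' i ∈ Im N G m (strip N (c i).re ((c i).im + η / 2) η) := by
    refine mem_of_add (Submodule.mem_sup_right (a2 i)) (sum_mem fun j _ => ?_)
    by_cases hj : A i j = 0
    · rw [hj, zero_smul]; exact zero_mem _
    · have := up i j (fun e => hj (e ▸ e0)) hj
      exact Submodule.smul_mem _ _ (hu.mem w ((ms i j).2.2 ⟨this.1.symm, this.2⟩))
  rw [hu'.span _ w] at m1
  obtain ⟨b, b1, b2⟩ := coef m1
  have b0 : b i = 0 := by_contra fun e => lt_irrefl _ ((ms i i).2.1 (b1 i e)).2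
  have := congrFun (hu'.ind (Pi.single i 1 + b) (by
    simpa [add_smul, Finset.sum_add_distrib, Pi.single_apply] using b2)) i
  simp [b0] at this

/-- Comparison of coefficients. -/
lemma mat_eq {V : Type} [AddCommGroup V] [Module F V] {T : Submodule F V} {u u' d d' : ι → V}
    {A B L L' : Matrix ι ι F} (h : Ind T u) (hA : ∀ i, u' i + ∑ j, A i j • u j ∈ T)
    (hB : ∀ i, d' i + ∑ j, B i j • d j ∈ T) (hL : ∀ i, d i + ∑ j, L i j • u j ∈ T)
    (hL' : ∀ i, d' i + ∑ j, L' i j • u' j ∈ T) : B * L = L' * A := by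
  have key : ∀ (P Q : Matrix ι ι F) (x : ι → V) (i : ι),
      ∑ j, P i j • (x j + ∑ k, Q j k • u k) = ∑ j, P i j • x j + ∑ k, (P * Q) i k • u k := by
    intro P Q x i
    simp only [smul_add, Finset.sum_add_distrib, Finset.smul_sum, Matrix.mul_apply,
      Finset.sum_smul, smul_smul]
    rw [Finset.sum_comm]
  ext i k
  have x2 := T.sum_mem fun j (_ : j ∈ Finset.univ) => T.smul_mem (B i j) (hL j)
  have x4 := T.sum_mem fun j (_ : j ∈ Finset.univ) => T.smul_mem (L' i j) (hA j)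
  rw [key] at x2 x4
  have := h (fun k => (B * L) i k - (L' * A) i k) (by
    simp only [sub_smul, Finset.sum_sub_distrib]
    convert T.sub_mem (T.sub_mem x2 (hB i)) (T.sub_mem x4 (hL' i)) using 1
    abel)
  exact sub_eq_zero.1 (congrFun this k)

end JEx

open JEx

theorem exS (h : GenS) : ExS := by
  intro E ι _ _ N G c m hs hb
  obtain ⟨t1, p1, q1⟩ := ub_sh hs fun i => (hb.abs i).1
  obtain ⟨t2, p2, q2⟩ := ub_sh hs.cj fun i => (hb.cj.abs i).1
  obtain ⟨t3, p3, q3⟩ := ord_sh c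
  obtain ⟨θ, h0, h1, h2, h3⟩ : ∃ θ : ℝ, 0 < θ ∧ θ ≤ t1 ∧ θ ≤ t2 ∧ θ ≤ t3 :=
    ⟨min t1 (min t2 t3), by positivity, min_le_left _ _,
      (min_le_right _ _).trans (min_le_left _ _), (min_le_right _ _).trans (min_le_right _ _)⟩
  have o := q3 θ h0 h3
  have inj : Injective fun i => ((sh θ ∘ c) i).re := fun i j e => by_contra fun a =>
    (lx_total hs.inj a).elim (fun b => (o i j b).ne e) fun b => (o j i b).ne' e
  have lx : ∀ i j, i ≠ j → Lx (sh θ ∘ c) i j → Lx c i j := fun i j a b =>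
    (lx_total hs.inj a).resolve_right fun e =>
      b.elim (fun b => b.not_gt (o j i e)) fun b => a (inj b.1)
  obtain ⟨L, R, ⟨u, d, hu, hd, e⟩, t⟩ := h E ι N (N + θ * N) (sh θ ∘ G) (sh θ ∘ c) m (hs.lin _)
    (fun i => by
      have a := hb.abs i
      have a1 := abs_lt.1 a.1
      have a2 := abs_lt.1 a.2
      simp only [comp_apply, sh_re, sh_im]
      exact ⟨a.1, abs_lt.2 ⟨by nlinarith, by nlinarith⟩⟩) inj
  rw [cj_sh, cj_sh] at hd
  refine ⟨L, R, ⟨u, d, q1 θ (by rwa [abs_of_pos h0]) u hu,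
    q2 (-θ) (by rwa [abs_neg, abs_of_pos h0]) d hd, fun i =>
      ⟨Bs_mono Subset.rfl (fun y hy => ?_) m (e i).1, Bs_mono Subset.rfl (fun y hy => ?_) m (e i).2⟩⟩,
    ⟨t.1.1, fun i j a b => lx j i a.symm (t.1.2 i j a b)⟩, t.2.1,
    fun i j a b => lx i j a (t.2.2 i j a b)⟩
  · simp only [mem_preimage, AL, mem_ofPred_eq, comp_apply, sh_re, sh_im] at hy ⊢
    refine or_iff_not_imp_left.2 fun a => ?_
    have b := hy.resolve_left a
    have a1 := abs_le.1 (not_lt.1 a)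
    nlinarith
  · simp only [mem_preimage, AR, mem_ofPred_eq, comp_apply, sh_re, sh_im] at hy ⊢
    refine or_iff_not_imp_left.2 fun a => ?_
    have b := hy.resolve_left a
    have a1 := abs_le.1 (not_lt.1 a)
    nlinarith

theorem relS : RelS := by
  intro E ι _ _ N G c m L R L' R' hs hb ⟨u, d, hu, hd, e⟩ ⟨u', d', hu', hd', e'⟩
  obtain ⟨A, a1, a2⟩ := change hs.inj (fun i => (hb.abs i).1) hu hu'
  obtain ⟨B, b1, b2⟩ := change hs.cj.inj (fun i => (hb.cj.abs i).1) hd hd'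
  refine ⟨A, B, a1, ⟨b1.1, fun i j a b => ?_⟩, ?_, ?_⟩
  · have := b1.2 i j a b
    exact ⟨this.1.symm, neg_lt_neg_iff.1 this.2⟩
  · refine mat_eq (hu.ind_of (preimage_mono AU_sub_AL) (hs.ac_LU hb.abs))
      (fun i => Bs_mono Subset.rfl (preimage_mono AU_sub_AL) m (a2 i)) (fun i => ?_)
      (fun i => (e i).1) fun i => (e' i).1
    rw [← cj_AL]
    exact Bs_mono Subset.rfl (preimage_mono AU_sub_AL) m (b2 i)
  · refine mat_eq (hu.ind_of (preimage_mono AU_sub_AR) (hs.ac_RU hb.abs))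
      (fun i => Bs_mono Subset.rfl (preimage_mono AU_sub_AR) m (a2 i)) (fun i => ?_)
      (fun i => (e i).2) fun i => (e' i).2
    rw [← cj_AR]
    exact Bs_mono Subset.rfl (preimage_mono AU_sub_AR) m (b2 i)

end Pool.Agent.Lib.MP_837412_lc
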