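import Pool.Agent.Lib.MP_837412_lc.LB

/-!
The rank of the identity plus conjugation on the relative homology, read off from the matrix `L`.
-/

namespace Pool.Agent.Lib.MP_837412_lc

open Pool.Agent.Shared.Mod2 Set Function

namespace JFin

variable {E ι : Type} [TopologicalSpace E] {G G' : E → ℂ} {c : ι → ℂ} {m : ℕ} {N t δ : ℝ}
  {A : Set ℂ} {X : Set E}

/-- The part of the set `Bt` that is stable under moving up. -/
def Au (t δ : ℝ) : Set ℂ := {z | z.re < t ∨ δ < z.im}

lemma upw_Au (h : δ ≤ N) : Upw N (Au t δ) :=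
  ⟨(isOpen_lt Complex.continuous_re continuous_const).union
      (isOpen_lt continuous_const Complex.continuous_im),
    fun z hz s hs => hz.imp (fun a => by simpa using a) fun a => by simp; linarith,
    fun z hz => Or.inr (lt_of_le_of_lt h hz)⟩

omit [TopologicalSpace E] in
lemma Au_sub : G ⁻¹' Au t δ ⊆ G ⁻¹' Bt t δ :=
  fun _ h => h.imp id fun a => lt_of_lt_of_le a (le_abs_self _)

omit [TopologicalSpace E] in
lemma Au_sub' : cj G ⁻¹' Au t δ ⊆ G ⁻¹' Bt t δ :=
  fun _ h => h.imp id fun a => lt_of_lt_of_le a (neg_le_abs _)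

lemma open_Bt : IsOpen (Bt t δ) :=
  (isOpen_lt Complex.continuous_re continuous_const).union
    (isOpen_lt continuous_const Complex.continuous_im.abs)

lemma mono_Bt : Mono (-1 : ℂ) (Bt t δ) :=
  fun z hz s hs => hz.imp (fun a => by simp; linarith) fun a => by simpa using a

lemma AL_sub (h1 : -N ≤ t) (h2 : δ ≤ N) : AL N N ⊆ Bt t δ :=
  fun _ h => h.elim (fun a => Or.inr (lt_of_le_of_lt h2 a)) fun a => Or.inl (lt_of_lt_of_le a h1)

lemma adm_AL (h1 : -N ≤ t) (h2 : δ ≤ N) : Adm (-1 : ℂ) (Bt t δ) (AL N N) :=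
  ⟨open_Bt, (isOpen_lt continuous_const Complex.continuous_im.abs).union
      (isOpen_lt Complex.continuous_re continuous_const), AL_sub h1 h2, mono_Bt,
    fun z hz s hs => hz.imp (fun a => by simpa using a) fun a => by simp; linarith,
    fun z _ => ⟨|z.re + N| + 1, by positivity, Or.inr (by
      simp; linarith [le_abs_self (z.re + N)])⟩⟩

lemma adm_univ : Adm (-1 : ℂ) univ (Bt t δ) :=
  ⟨isOpen_univ, open_Bt, subset_univ _, .univ, mono_Bt,
    fun z _ => ⟨|z.re - t| + 1, by positivity, Or.inl (by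
      simp; linarith [le_abs_self (z.re - t)])⟩⟩

lemma Im_le (hA : Upw N A) (h : G ⁻¹' A ⊆ X) : Im N G m A ≤ Bs univ X m :=
  sup_le (fun _ hx => Cs_le_Bs _ _ _ (Cs_mono h m hx.1))
    (Bs_mono Subset.rfl ((preimage_mono hA.sub).trans h) m)

lemma cm_Im {κ : C(E, E)} (h : ∀ y, G' (κ y) = G y) {x : Ch (Sx E)} (hx : x ∈ Im N G m A) :
    cm κ x ∈ Im N G' m A := by
  have e : ∀ S : Set ℂ, MapsTo κ (G ⁻¹' S) (G' ⁻¹' S) := fun S y hy => by
    rw [mem_preimage, h]; exact hy
  obtain ⟨a, ha, b, hb, rfl⟩ := Submodule.mem_sup.1 hx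
  rw [map_add]
  exact Submodule.add_mem_sup (cm_Zs (e _) (e _) ha) (cm_Bs (mapsTo_univ _ _) (e _) hb)

lemma not_mem_of_ind {M : Type} [AddCommGroup M] [Module F M] [Fintype ι] {T : Submodule F M}
    {e : ι → M} (h : Ind T e) {s : Set ι} {i : ι} (hi : i ∉ s) :
    e i ∉ Submodule.span F (e '' s) ⊔ T := fun a => by
  refine (ind_iff.1 h).notMem_span_image hi ?_
  have := Submodule.mem_map_of_mem (f := T.mkQ) a
  rwa [Submodule.map_sup, Submodule.mkQ_map_self, sup_bot_eq, Submodule.map_span,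
    image_image] at this

lemma wf_Lx [Finite ι] (c : ι → ℂ) : WellFounded (Lx c) := by
  have : IsTrans ι (Lx c) := ⟨fun i j k a b => by
    rcases a with a | ⟨a, a'⟩ <;> rcases b with b | ⟨b, b'⟩
    · exact Or.inl (a.trans b)
    · exact Or.inl (a.trans_eq b)
    · exact Or.inl (a.trans_lt b)
    · exact Or.inr ⟨a.trans b, a'.trans b'⟩⟩
  have : Std.Irrefl (Lx c) := ⟨fun i a => a.elim (lt_irrefl _) fun a => lt_irrefl _ a.2⟩
  exact Finite.wellFounded_of_trans_of_irrefl _

/-- The unit vectors outside `s` can be replaced by the rows of a triangular matrix. -/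
lemma top_le [Fintype ι] [DecidableEq ι] {L : Matrix ι ι F} (hL : Uni (flip (Lx c)) L)
    {V : Submodule F (ι → F)} (h : ∀ j, Pi.single j 1 ∈ V ∨ L j ∈ V) : ⊤ ≤ V := by
  have key : ∀ j, Pi.single j 1 ∈ V := fun j => by
    induction j using (wf_Lx c).induction with
    | _ j ih =>
      refine (h j).elim id fun a => ?_
      have e : L j = Pi.single j 1 + ∑ l ∈ Finset.univ.erase j, L j l • Pi.single l (1 : F) := by
        conv_lhs => rw [pi_eq_sum_univ' (L j), ← Finset.add_sum_erase _ _ (Finset.mem_univ j),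
          hL.1 j, one_smul]
      refine mem_of_add (e ▸ a) (sum_mem fun l hl => ?_)
      by_cases h0 : L j l = 0
      · rw [h0, zero_smul]; exact zero_mem _
      · exact V.smul_mem _ (ih l (hL.2 j l (Finset.ne_of_mem_erase hl).symm h0))
  intro v _
  rw [pi_eq_sum_univ' v]
  exact sum_mem fun l _ => V.smul_mem _ (key l)

/-- Conjugation carries the upward class of a real critical value to its downward class. -/
lemma conj_real [Fintype ι] {u d : ι → Ch (Sx E)} {κ : C(E, E)} (hS : Sys G c m)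
    (hu : UB N G c m u) (hd : UB N (cj G) (cj c) m d) (k1 : ∀ y, κ (κ y) = y)
    (k2 : ∀ y, G (κ y) = cj G y) (h0 : 0 < δ) (h1 : δ ≤ N)
    (hc : ∀ i, (c i).im ≠ 0 → δ < |(c i).im|) {i : ι} (hi : (c i).im = 0) (ht : t ≤ (c i).re) :
    cm κ (u i) + d i ∈ Im N (cj G) m (Au t δ) := by
  obtain ⟨η, η0, hη⟩ := exists_gap (finite_range c)
  have a1 : u i ∈ Im N G m (strip N (c i).re (-δ) η) :=
    hu.mem (upw_strip _ _ _ _) (Or.inl ⟨by simpa using η0, by rw [hi]; linarith⟩)
  have a2 := cm_Im (G' := cj G) (κ := κ) (fun y => by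
    show (starRingEnd ℂ) (G (κ y)) = G y
    rw [k2]; simp [cj]) a1
  rw [hd.span _ (upw_strip _ _ _ _)] at a2
  have a3 : cm κ (u i) ∈ Submodule.span F {d i} ⊔ Im N (cj G) m (Au t δ) := by
    refine SetLike.le_def.1 (sup_le ?_ (le_sup_of_le_right le_sup_right)) a2
    rw [Submodule.span_le]
    rintro _ ⟨l, hl, rfl⟩
    by_cases e : l = i
    · exact Submodule.mem_sup_left (e ▸ Submodule.mem_span_singleton_self _)
    · refine Submodule.mem_sup_right (hd.mem (upw_Au h1) (Or.inr ?_))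
      rcases hl with ⟨b1, b2⟩ | b
      · rw [cj_re] at b1
        rw [cj_im] at b2 ⊢
        have b3 : (c l).im ≠ 0 := fun b => e (hS.inj (Complex.ext
          ((hη _ ⟨l, rfl⟩ _ ⟨i, rfl⟩).1 b1) (b.trans hi.symm)))
        rcases lt_abs.1 (hc l b3) with b4 | b4 <;> linarith
      · exact lt_of_le_of_lt h1 b
  obtain ⟨y, hy, e⟩ := mem_sup2.1 a3
  obtain ⟨a, rfl⟩ := Submodule.mem_span_singleton.1 hy
  have ha : a = 0 ∨ a = 1 := by generalize a = x; revert x; decide
  rcases ha with rfl | rfl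
  · rw [zero_smul, add_zero] at e
    have a4 := cm_Im (G' := G) (κ := κ) k2 e
    rw [cm_cm, show κ.comp κ = ContinuousMap.id _ from ContinuousMap.ext k1, cm_id,
      hu.span _ (upw_Au h1)] at a4
    refine (not_mem_of_ind hu.ind ?_ a4).elim
    rintro (b | b)
    · exact absurd b ht.not_gt
    · rw [hi] at b; exact absurd b h0.le.not_gt
  · rwa [one_smul] at e

end JFin

open JFin in
theorem finS : FinS := by
  intro E ι _ _ _ N t δ G c m L R κ hS hB ⟨u, d, hu, hd, hL⟩ hT k1 k2 hN h0 h1 hc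
  set B := G ⁻¹' Bt t δ with hBdef
  set φ : (ι → F) →ₗ[F] Ch (Sx E) := Fintype.linearCombination F u with hφ
  have φs : ∀ i, φ (Pi.single i 1) = u i := fun i => by
    rw [hφ, Fintype.linearCombination_apply_single, one_smul]
  have sL : G ⁻¹' AL N N ⊆ B := preimage_mono (AL_sub hN h1)
  have sU : G ⁻¹' AU N ⊆ G ⁻¹' AL N N := preimage_mono AU_sub_AL
  have φL : ∀ i, d i + φ (L i) ∈ Bs univ B m := fun i => by
    rw [hφ, Fintype.linearCombination_apply]
    exact Bs_mono Subset.rfl sL m (hL i).1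
  have uZ : ∀ i, u i ∈ Zs univ B m := fun i => Zs_mono Subset.rfl (sU.trans sL) m (hu.mem_Zs i)
  have rφ : (⊤ : Submodule F (ι → F)).map φ = Submodule.span F (range u) := by
    rw [Submodule.map_top, hφ, Fintype.range_linearCombination]
  have onto : Zs univ B m ≤ (⊤ : Submodule F (ι → F)).map φ ⊔ Bs univ B m := by
    have e : hs B (G ⁻¹' AU N) (m - 1) = 0 := by
      rw [Ac.right sU sL (hS.ac_LU hB.abs)]
      cases m with
      | zero => exact hs_zero _ _
      | succ m => rw [hS.k3 (by norm_num) (adm_AL hN h1), if_neg (by omega)]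
    refine (onto_right (sU.trans sL) (subset_univ _) e).trans (sup_le ?_ le_sup_right)
    rw [← Im_univ, hu.span _ upw_univ, rφ]
    exact sup_le_sup (Submodule.span_mono (image_subset_range _ _))
      (Bs_mono Subset.rfl (sU.trans sL) m)
  set s₃ : Set ι := {i | (c i).im = 0 ∧ t ≤ (c i).re} with hs₃
  set Wt : Submodule F (ι → F) := Submodule.span F ((fun i => (Pi.single i 1 : ι → F)) ''
    {i | (c i).re < t ∨ 0 < (c i).im}) ⊔ Submodule.span F (L '' {i | (c i).im < 0}) with hWt
  have rW : rk ⊤ ((Bs univ B m).comap φ) = s₃.encard := by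
    rw [← rk_map, rk_congr_le (S' := Zs univ B m) (le_sup_of_le_left (by
      rw [rφ, Submodule.span_le]; rintro _ ⟨i, rfl⟩; exact uZ i)) onto]
    have := hS.k3 (by norm_num) (adm_univ (t := t) (δ := δ)) m
    rw [if_pos rfl, preimage_univ] at this
    refine this.trans (congrArg _ (Set.ext fun i => ?_))
    simp only [hs₃, Bt, mem_ofPred_eq, Set.mem_sdiff, mem_univ, true_and, not_or, not_lt]
    refine ⟨fun a => ⟨by_contra fun b => absurd (hc i b) a.2.not_gt, a.1⟩,
      fun a => ⟨a.2, by rw [a.1, abs_zero]; exact h0.le⟩⟩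
  have W1 : Wt ≤ (Bs univ B m).comap φ := by
    refine sup_le (Submodule.span_le.2 ?_) (Submodule.span_le.2 ?_)
    · rintro _ ⟨i, hi, rfl⟩
      show φ _ ∈ Bs univ B m
      rw [φs]
      refine Im_le (upw_Au h1) Au_sub (hu.mem (upw_Au h1) (hi.imp id fun a => ?_))
      have := hc i a.ne'
      rwa [abs_of_pos a] at this
    · rintro _ ⟨i, hi, rfl⟩
      show φ _ ∈ Bs univ B m
      refine mem_of_add (add_comm (d i) _ ▸ φL i)
        (Im_le (upw_Au h1) Au_sub' (hd.mem (upw_Au h1) (Or.inr ?_)))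
      have := hc i (ne_of_lt hi)
      rwa [abs_of_neg hi] at this
  have T1 : ⊤ ≤ Submodule.span F ((fun i => (Pi.single i 1 : ι → F)) '' s₃) ⊔ Wt := by
    refine top_le hT.1 fun j => ?_
    rcases lt_trichotomy (c j).im 0 with a | a | a
    · exact Or.inr (Submodule.mem_sup_right (Submodule.mem_sup_right
        (Submodule.subset_span ⟨j, a, rfl⟩)))
    · rcases lt_or_ge (c j).re t with b | b
      · exact Or.inl (Submodule.mem_sup_right (Submodule.mem_sup_left
          (Submodule.subset_span ⟨j, Or.inl b, rfl⟩)))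
      · exact Or.inl (Submodule.mem_sup_left (Submodule.subset_span ⟨j, ⟨a, b⟩, rfl⟩))
    · exact Or.inl (Submodule.mem_sup_right (Submodule.mem_sup_left
        (Submodule.subset_span ⟨j, Or.inr a, rfl⟩)))
  have W2 : (Bs univ B m).comap φ = Wt := by
    have e := rk_add ⊤ W1
    rw [rW, top_inf_eq, rk_congr_le T1 (le_sup_of_le_left le_top)] at e
    have e2 := (e.symm.trans_le (rk_span_le _ s₃ Wt)).trans_eq (zero_add _).symm
    exact le_antisymm (rk_eq_zero.1 (le_zero_iff.1
      ((ENat.add_le_add_iff_right (encard_ne_top_iff.2 (toFinite _))).1 e2))) W1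
  have κB : MapsTo κ B B := fun y hy => by
    show G (κ y) ∈ Bt t δ
    rw [k2]
    exact hy.imp id fun a => by rwa [cj_im, abs_neg]
  have ρB : ∀ x ∈ Bs univ B m, rho κ x ∈ Bs univ B m := fun x hx =>
    add_mem hx (cm_Bs (mapsTo_univ _ _) κB hx)
  have ρu : ∀ i ∈ s₃, rho κ (u i) + φ (Pi.single i 1 + L i) ∈ Bs univ B m := fun i hi => by
    have := add_mem (Im_le (upw_Au h1) Au_sub' (conj_real hS hu hd k1 k2 h0 h1 hc hi.1 hi.2)) (φL i)
    rw [map_add, φs]
    convert this using 1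
    show u i + cm κ (u i) + _ = _
    linear_combination (norm := abel1) aa (u i) - aa (d i)
  rw [rkL, ← hWt, ← W2, ← rk_map]
  refine rk_congr_le ?_ ?_
  · rw [Submodule.map_le_iff_le_comap]
    refine onto.trans (sup_le ?_ fun x hx => Submodule.mem_sup_right (ρB x hx))
    rw [Submodule.map_le_iff_le_comap]
    refine T1.trans (sup_le (Submodule.span_le.2 ?_) fun x hx =>
      Submodule.mem_sup_right (ρB _ (W1 hx)))
    rintro _ ⟨i, hi, rfl⟩
    rw [SetLike.mem_coe, Submodule.mem_comap, Submodule.mem_comap, φs]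
    exact mem_sup2.2 ⟨_, Submodule.mem_map_of_mem (Submodule.subset_span ⟨i, hi, rfl⟩), ρu i hi⟩
  · rw [Submodule.map_le_iff_le_comap, Submodule.span_le]
    rintro _ ⟨i, hi, rfl⟩
    exact mem_sup2.2 ⟨_, Submodule.mem_map_of_mem (uZ i), add_comm (rho κ (u i)) _ ▸ ρu i hi⟩

end Pool.Agent.Lib.MP_837412_lc
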