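import Pool.Agent.Lib.MP_837412_lc.StT

/-!
The global flow of a bounded locally Lipschitz vector field.
-/

namespace Pool.Agent.Lib.MP_837412_lc

open Set Function Filter Topology Metric
open scoped NNReal

namespace JFlow

variable {E : Type} [NormedAddCommGroup E] [NormedSpace ℝ E] [FiniteDimensional ℝ E]
  {v : E → E} {L : ℝ}

lemma lip (hv : LocallyLipschitz v) (r : ℝ) : ∃ K, LipschitzOnWith K v (closedBall 0 r) :=
  LocallyLipschitzOn.exists_lipschitzOnWith_of_compact (isCompact_closedBall 0 r)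
    hv.locallyLipschitzOn

omit [FiniteDimensional ℝ E] in
lemma stay (hL : ∀ x, ‖v x‖ ≤ L) {R : ℝ} {f : ℝ → E}
    (hf : ∀ t ∈ Ioo (-R) R, HasDerivAt f (v (f t)) t) {t : ℝ} (ht : t ∈ Ioo (-R) R) :
    f t ∈ closedBall (0 : E) (‖f 0‖ + L * R) := by
  have h0 : (0 : ℝ) ∈ Ioo (-R) R := ⟨by linarith [ht.1, ht.2], by linarith [ht.1, ht.2]⟩
  have h1 := (convex_Ioo (-R) R).norm_image_sub_le_of_norm_hasDerivWithin_le
    (fun s hs => (hf s hs).hasDerivWithinAt) (fun s _ => hL (f s)) h0 ht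
  have h2 : ‖t - 0‖ ≤ R := by
    rw [sub_zero, Real.norm_eq_abs]
    exact (abs_lt.2 ht).le
  have h3 := mul_le_mul_of_nonneg_left h2 ((norm_nonneg _).trans (hL 0))
  have h4 := norm_le_insert' (f t) (f 0)
  rw [mem_closedBall_zero_iff]
  linarith

lemma uniq (hv : LocallyLipschitz v) (hL : ∀ x, ‖v x‖ ≤ L) {R : ℝ} {f g : ℝ → E}
    (hf : ∀ t ∈ Ioo (-R) R, HasDerivAt f (v (f t)) t)
    (hg : ∀ t ∈ Ioo (-R) R, HasDerivAt g (v (g t)) t) (h : f 0 = g 0) {t : ℝ} (ht : |t| < R) :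
    f t = g t := by
  obtain ⟨K, hK⟩ := lip hv (‖f 0‖ + L * R)
  have h0 := (abs_nonneg t).trans_lt ht
  exact ODE_solution_unique_of_mem_Ioo (v := fun _ => v) (s := fun _ => closedBall 0 (‖f 0‖ + L * R))
    (t₀ := 0) (fun _ _ => hK) ⟨by linarith, h0⟩ (fun s hs => ⟨hf s hs, stay hL hf hs⟩)
    (fun s hs => ⟨hg s hs, h ▸ stay hL hg hs⟩) h (abs_lt.1 ht)

lemma loc (hv : LocallyLipschitz v) (hL : ∀ x, ‖v x‖ ≤ L) (n : ℕ) :
    ∃ α : E × ℝ → E, (∀ x : E, ‖x‖ ≤ n → α (x, 0) = x ∧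
      ∀ t ∈ Ioo (-n : ℝ) n, HasDerivAt (fun s => α (x, s)) (v (α (x, t))) t) ∧
      ContinuousOn α (closedBall 0 n ×ˢ Icc (-n : ℝ) n) := by
  lift L to ℝ≥0 using (norm_nonneg _).trans (hL 0)
  obtain ⟨K, hK⟩ := lip hv ((n + L * n : ℝ≥0) : ℝ)
  have h0 : (0 : ℝ) ∈ Icc (-n : ℝ) n := ⟨by simp, by simp⟩
  have hP : IsPicardLindelof (fun _ => v) ⟨0, h0⟩ 0 (n + L * n) n L K :=
    IsPicardLindelof.of_time_independent (fun x _ => hL x) hK (by simp)
  obtain ⟨α, h1, h2⟩ := hP.exists_forall_mem_closedBall_eq_hasDerivWithinAt_continuousOn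
  refine ⟨α, fun x hx => ?_, h2⟩
  obtain ⟨h3, h4⟩ := h1 x (mem_closedBall_zero_iff.2 hx)
  exact ⟨h3, fun t ht => (h4 t (Ioo_subset_Icc_self ht)).hasDerivAt (Icc_mem_nhds ht.1 ht.2)⟩

end JFlow

open JFlow in
theorem flowS : FlowS := by
  intro E _ _ _ v L hv hL
  choose α hα hc using loc hv hL
  let N : ℝ → E → ℕ := fun t x => ⌊‖x‖ + |t|⌋₊ + 1
  have hN : ∀ t x, ‖x‖ < N t x ∧ |t| < N t x := fun t x => by
    have h1 := Nat.lt_floor_add_one (‖x‖ + |t|)
    have h2 := norm_nonneg x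
    have h3 := abs_nonneg t
    simp only [N]
    push_cast
    constructor <;> linarith
  let Φ : ℝ → E → E := fun t x => α (N t x) (x, t)
  have key : ∀ (n : ℕ) (t : ℝ) (x : E), ‖x‖ < n → |t| < n → Φ t x = α n (x, t) := fun n t x hx ht => by
    obtain ⟨a1, a2⟩ := hα (N t x) x (hN t x).1.le
    obtain ⟨b1, b2⟩ := hα n x hx.le
    exact uniq hv hL (R := min (N t x : ℝ) n) (f := fun s => α (N t x) (x, s))
      (g := fun s => α n (x, s))
      (fun s hs => a2 s (Ioo_subset_Ioo (neg_le_neg (min_le_left _ _)) (min_le_left _ _) hs))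
      (fun s hs => b2 s (Ioo_subset_Ioo (neg_le_neg (min_le_right _ _)) (min_le_right _ _) hs))
      (a1.trans b1.symm) (lt_min (hN t x).2 ht)
  have h0 : ∀ x, Φ 0 x = x := fun x => (hα _ x (hN 0 x).1.le).1
  have hd : ∀ x t, HasDerivAt (fun s => Φ s x) (v (Φ t x)) t := fun x t => by
    refine ((hα _ x (hN t x).1.le).2 t (abs_lt.1 (hN t x).2)).congr_of_eventuallyEq ?_
    filter_upwards [(continuous_abs.tendsto t).eventually (gt_mem_nhds (hN t x).2)] with s hs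
    exact key _ s x (hN t x).1 hs
  refine ⟨Φ, continuous_iff_continuousAt.2 fun ⟨t, x⟩ => ?_, h0, hd, fun s t x => ?_⟩
  · obtain ⟨h1, h2⟩ := hN t x
    have h3 : ContinuousAt (α (N t x)) (x, t) :=
      (hc _).continuousAt (prod_mem_nhds (closedBall_mem_nhds_of_mem (mem_ball_zero_iff.2 h1))
        (Icc_mem_nhds (abs_lt.1 h2).1 (abs_lt.1 h2).2))
    have h4 : ContinuousAt (fun p : ℝ × E => α (N t x) p.swap) (t, x) :=
      ContinuousAt.comp (f := Prod.swap) (x := (t, x)) h3 continuous_swap.continuousAt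
    refine h4.congr ?_
    filter_upwards [(continuous_snd.norm.tendsto (t, x)).eventually (gt_mem_nhds h1),
      (continuous_fst.abs.tendsto (t, x)).eventually (gt_mem_nhds h2)] with p p1 p2
    exact (key _ p.1 p.2 p1 p2).symm
  · exact uniq hv hL (R := |s| + 1) (f := fun s => Φ s (Φ t x)) (g := fun s => Φ (s + t) x)
      (fun r _ => hd _ r) (fun r _ => (hd x (r + t)).comp_add_const r t) (by simp [h0])
      (lt_add_one _)

end Pool.Agent.Lib.MP_837412_lc
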