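import Pool.Agent.Lib.MP_837412_lc.LB

/-!
Normal forms when the real parts of the critical values are distinct.
-/

namespace Pool.Agent.Lib.MP_837412_lc

open Pool.Agent.Shared.Mod2 Set Function Filter Topology

namespace JGen

variable {E ι : Type} [TopologicalSpace E] [Fintype ι] {G G' : E → ℂ} {c c' : ι → ℂ} {m : ℕ}
  {N M s t : ℝ} {u d : ι → Ch (Sx E)}

/-- Existence of an adapted basis. -/
lemma exists_ub (h : Sys G c m) (hc : ∀ i, |(c i).im| < N) (hi : Injective fun i => (c i).re) :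
    ∃ e, UB N G c m e := by
  classical
  obtain ⟨η, h0, hη⟩ := exists_gap (finite_range c)
  let S : ι → Set ℂ := fun i => strip N (c i).re ((c i).im - η) η
  have uS : ∀ i, Upw N (S i) := fun i => upw_strip _ _ _ _
  have mS : ∀ i l, c l ∈ S i ↔ l = i := fun i l => by
    rw [(mem_strip h0 (abs_lt.1 (hc l)).2.le (hη _ ⟨l, rfl⟩ _ ⟨i, rfl⟩)).1]
    exact ⟨fun a => hi a.1, fun a => by simp [a]⟩
  have nA : ∀ i, c i ∉ AU N := fun i a => (abs_lt.1 (hc i)).2.not_gt a
  have cell : ∀ i, hs (G ⁻¹' S i) (G ⁻¹' AU N) m = 1 := fun i => by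
    have := h.cell _ _ _ i Complex.I_ne_zero ((uS i).adm upw_AU (uS i).sub) ((mS i i).2 rfl)
      (nA i) (fun j hj a => absurd ((mS i j).1 a) hj) m
    rwa [if_pos rfl] at this
  choose e e1 e2 e3 using fun i => rk_eq_one.1 (cell i)
  have key : ∀ T : Finset ι, ∃ A, Upw N A ∧ (∀ l, c l ∈ A ↔ l ∈ T) ∧
      Zs (G ⁻¹' A) (G ⁻¹' AU N) m ≤
        Submodule.span F (range e) ⊔ Bs univ (G ⁻¹' AU N) m := by
    intro T
    induction T using Finset.induction_on with
    | empty =>
      exact ⟨AU N, upw_AU, fun l => by simpa using nA l, le_sup_of_le_right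
        ((hh_eq_zero.1 (Ac.refl _ m)).trans (Bs_mono (subset_univ _) Subset.rfl m))⟩
    | insert i T hT ih =>
      obtain ⟨A, a1, a2, a3⟩ := ih
      refine ⟨A ∪ S i, a1.union (uS i), fun l => by
        rw [mem_union, a2, mS, Finset.mem_insert, or_comm], ?_⟩
      have ac : Ac (G ⁻¹' (A ∩ S i)) (G ⁻¹' AU N) :=
        h.ac _ _ _ Complex.I_ne_zero ((a1.inter (uS i)).adm upw_AU (a1.inter (uS i)).sub)
          fun l hl => absurd ((a2 l).1 hl.1) ((mS i l).1 hl.2 ▸ hT)
      rw [preimage_union]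
      refine (mv_sum (a1.op.preimage h.cont) ((uS i).op.preimage h.cont) (preimage_mono a1.sub)
        (preimage_mono (uS i).sub) (ac _)).trans (sup_le (sup_le a3 ((e3 i).trans ?_))
          (le_sup_of_le_right (Bs_mono (subset_univ _) Subset.rfl m)))
      exact sup_le_sup (Submodule.span_mono (by simp)) (Bs_mono (subset_univ _) Subset.rfl m)
  obtain ⟨A, a1, a2, a3⟩ := key Finset.univ
  have z : Zs univ (G ⁻¹' AU N) m ≤ Submodule.span F (range e) ⊔ Bs univ (G ⁻¹' AU N) m := by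
    rw [← Im_univ]
    exact (h.im_le upw_univ a1 fun i _ => (a2 i).2 (Finset.mem_univ i)).trans
      (sup_le a3 le_sup_right)
  refine ⟨e, h.ub (ind_of_rk ?_) fun j => ⟨S j, uS j, fun l hl => Or.inl ((mS j l).1 hl),
    Submodule.mem_sup_left (e1 j)⟩⟩
  have k := h.k3 Complex.I_ne_zero (upw_univ.adm (upw_AU (N := N)) (subset_univ _)) m
  rw [if_pos rfl, show {i | c i ∈ univ \ AU N} = univ from
    eq_univ_of_forall fun i => ⟨trivial, nA i⟩, preimage_univ, encard_univ,
    ENat.card_eq_coe_fintype_card] at k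
  rw [← k, rk_congr (S := Submodule.span F (range e))
    (S' := Submodule.span F (range e) ⊔ Bs univ (G ⁻¹' AU N) m) (by rw [sup_assoc, sup_idem])]
  exact rk_mono z le_rfl

/-- A half plane together with the upper and the lower base set. -/
def HB (N s t : ℝ) : Set ℂ := HU N s t ∪ {z | z.im < -N}

omit [TopologicalSpace E] in
lemma cj_HB (G : E → ℂ) (N s t : ℝ) : cj G ⁻¹' HB N s t = G ⁻¹' HB N s t := by
  ext y
  simp only [HB, HU, AU, mem_preimage, mem_union, mem_ofPred_eq, cj_re, cj_im]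
  constructor <;> rintro ((a | a) | a) <;>
    first | (left; left; linarith) | (left; right; linarith) | (right; linarith)

lemma HB_mono (h : t ≤ M) : HB N s M ⊆ HB N s t := by
  rintro z ((a | a) | a)
  · exact Or.inl (Or.inl (lt_of_le_of_lt h a))
  · exact Or.inl (Or.inr a)
  · exact Or.inr a

lemma AU_HB : AU N ⊆ HB N s t := fun _ a => Or.inl (Or.inr a)

omit [Fintype ι] in
lemma ac_HB (h : Sys G c m) (hs : s ≠ 0) (hc : ∀ i, |(c i).im| < N)
    (hM : ∀ i, s * (c i).re < M) : Ac (G ⁻¹' HB N s M) (G ⁻¹' AU N) :=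
  Ac.trans (preimage_mono subset_union_right) (preimage_mono subset_union_left)
    (h.ac_HU hs hc) (h.ac _ _ _ Complex.I_ne_zero
      ((upw_HU _ _ _).adm upw_AU subset_union_right) fun i hi =>
        hi.elim (fun a => absurd a (hM i).not_gt) id)

/-- Two adapted bases span the same flag. -/
lemma mem_flag (h : Sys G c m) (hs : s ≠ 0) (hc : ∀ i, |(c i).im| < N)
    (hM : ∀ i, s * (c i).re < M) (hu : UB N G c m u) (hd : UB N G' c' m d)
    (e : ∀ t, G' ⁻¹' HB N s t = G ⁻¹' HB N s t) (ht : t ≤ M) {i : ι} (hi : t < s * (c' i).re) :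
    d i ∈ Submodule.span F (u '' {j | t < s * (c j).re}) ⊔ Bs univ (G ⁻¹' HB N s M) m := by
  have a : Im N G' m (HU N s t) ≤ Zs (G ⁻¹' HB N s t) (G ⁻¹' HB N s M) m ⊔
      Bs univ (G ⁻¹' HB N s M) m := by
    rw [← e, ← e]
    exact sup_le_sup (Zs_mono (preimage_mono subset_union_left) (preimage_mono AU_HB) m)
      (Bs_mono Subset.rfl (preimage_mono AU_HB) m)
  refine (a.trans (sup_le ?_ le_sup_right)) (hd.mem (upw_HU _ _ _) (Or.inl hi))
  refine (Ac.onto (h.ac_HU hs hc) (ac_HB h hs hc hM) (preimage_mono AU_HB)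
    (preimage_mono (HB_mono ht)) (preimage_mono subset_union_right)
    (preimage_mono subset_union_left) m).trans (sup_le ?_
      (le_sup_of_le_right (Bs_mono (subset_univ _) Subset.rfl m)))
  refine (le_sup_left.trans_eq (hu.span _ (upw_HU N s t))).trans
    (sup_le_sup (Submodule.span_mono (image_mono fun j hj => ?_))
      (Bs_mono Subset.rfl (preimage_mono AU_HB) m))
  exact hj.elim id fun b => absurd b (abs_lt.1 (hc j)).2.not_gt

lemma coef {V : Type} [AddCommGroup V] [Module F V] {e : ι → V} {S : Set ι} {T : Submodule F V}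
    {x : V} (h : x ∈ Submodule.span F (e '' S) ⊔ T) :
    ∃ a : ι → F, (∀ j, a j ≠ 0 → j ∈ S) ∧ x + ∑ j, a j • e j ∈ T := by
  obtain ⟨y, hy, e1⟩ := mem_sup2.1 h
  obtain ⟨l, l1, rfl⟩ := (Finsupp.mem_span_image_iff_linearCombination F).1 hy
  refine ⟨l, fun j hj => l1 (Finsupp.mem_support_iff.2 hj), ?_⟩
  rwa [Finsupp.linearCombination_apply, Finsupp.sum_fintype _ _ (by simp)] at e1

omit [TopologicalSpace E] in
lemma exists_cut (v : ι → ℝ) (x : ℝ) : ∃ t < x, ∀ j, t < v j → x ≤ v j := by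
  have : ∀ᶠ t in 𝓝[<] x, ∀ j, t < v j → x ≤ v j := eventually_all.2 fun j => by
    by_cases hj : x ≤ v j
    · exact .of_forall fun _ _ => hj
    · filter_upwards [Ioo_mem_nhdsLT (not_le.1 hj)] with t a b using absurd b a.1.not_gt
  exact (this.and self_mem_nhdsWithin).exists.imp fun _ a => ⟨a.2, a.1⟩

/-- The triangular matrix for one side. -/
lemma side (h : Sys G c m) (hs : s ≠ 0) (hc : ∀ i, |(c i).im| < N)
    (hM : ∀ i, s * (c i).re < M) (hi : Injective fun i => (c i).re) (hu : UB N G c m u)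
    (hd : UB N (cj G) (cj c) m d) :
    ∃ L : Matrix ι ι F, (∀ i, d i + ∑ j, L i j • u j ∈ Bs univ (G ⁻¹' HB N s M) m) ∧
      Uni (fun i j => s * (c i).re < s * (c j).re) L := by
  classical
  have hc' : ∀ i, |(cj c i).im| < N := fun i => by simpa using hc i
  have hM' : ∀ i, s * (cj c i).re < M := hM
  have key : ∀ i, ∃ a : ι → F, (∀ j, a j ≠ 0 → s * (c i).re ≤ s * (c j).re) ∧
      d i + ∑ j, a j • u j ∈ Bs univ (G ⁻¹' HB N s M) m := fun i => by
    obtain ⟨t, t1, t2⟩ := exists_cut (fun j => s * (c j).re) (s * (c i).re)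
    obtain ⟨a, a1, a2⟩ := coef (mem_flag h hs hc hM hu hd (cj_HB G N s)
      (t1.trans (hM i)).le (i := i) t1)
    exact ⟨a, fun j hj => t2 j (a1 j hj), a2⟩
  choose L l1 l2 using key
  have lt : ∀ i j, i ≠ j → L i j ≠ 0 → s * (c i).re < s * (c j).re := fun i j a b =>
    (l1 i j b).lt_of_ne fun e => a (hi (mul_left_cancel₀ hs e))
  refine ⟨L, l2, fun i => ?_, lt⟩
  have h2 : L i i = 0 ∨ L i i = 1 := by generalize L i i = x; revert x; decide
  refine h2.resolve_left fun h0 => ?_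
  have ind : Ind (Bs univ (G ⁻¹' HB N s M) m) d := by
    rw [← cj_HB]
    exact hd.ind_of (preimage_mono AU_HB) (ac_HB h.cj hs hc' hM')
  have m1 : d i ∈ Submodule.span F (d '' {j | s * (c i).re < s * (c j).re}) ⊔
      Bs univ (G ⁻¹' HB N s M) m := by
    refine mem_of_add (Submodule.mem_sup_right (l2 i)) (sum_mem fun j _ => ?_)
    by_cases hj : L i j = 0
    · rw [hj, zero_smul]; exact zero_mem _
    · have := mem_flag (t := s * (c i).re) h.cj hs hc' hM' hd hu (fun t => (cj_HB G N s t).symm)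
        (hM i).le (i := j) (lt i j (fun e => hj (e ▸ h0)) hj)
      rw [cj_HB] at this
      exact Submodule.smul_mem _ _ this
  obtain ⟨a, a1, a2⟩ := coef m1
  have a0 : a i = 0 := by_contra fun e => lt_irrefl (s * (c i).re) (a1 i e)
  have := congrFun (ind (Pi.single i 1 + a) (by
    simpa [add_smul, Finset.sum_add_distrib, Pi.single_apply] using a2)) i
  simp [a0] at this

end JGen

theorem genS : GenS := by
  intro E ι _ _ N M G c m h hc hi
  obtain ⟨u, hu⟩ := JGen.exists_ub h (fun i => (hc i).1) hi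
  obtain ⟨d, hd⟩ := JGen.exists_ub (N := N) h.cj (fun i => by simpa using (hc i).1) hi
  obtain ⟨L, l1, l2, l3⟩ := JGen.side (s := -1) (M := M) h (by norm_num) (fun i => (hc i).1)
    (fun i => by linarith [(abs_lt.1 (hc i).2).1]) hi hu hd
  obtain ⟨R, r1, r2, r3⟩ := JGen.side (s := 1) (M := M) h (by norm_num) (fun i => (hc i).1)
    (fun i => by linarith [(abs_lt.1 (hc i).2).2]) hi hu hd
  refine ⟨L, R, ⟨u, d, hu, hd, fun i => ⟨?_, ?_⟩⟩, ⟨l2, fun i j a b => Or.inl ?_⟩, r2,
    fun i j a b => Or.inl ?_⟩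
  · rw [AL_eq]; exact l1 i
  · rw [AR_eq]; exact r1 i
  · linarith [l3 i j a b]
  · linarith [r3 i j a b]

end Pool.Agent.Lib.MP_837412_lc
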