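import Pool.Agent.Lib.MP_837412_lc.LB

/-!
Morse polynomials give Lefschetz systems.
-/

namespace Pool.Agent.Lib.MP_837412_lc

open Pool.Agent.Shared.Mod2 Set Function Filter Topology

namespace JHalf

section Poly

variable {σ : Type} [Fintype σ]

/-- The gradient is bounded below on closed sets without critical points. -/
lemma n2_lb {G : MvPolynomial σ ℂ} (hR : ∃ R : ℝ, ∀ y, R ≤ ‖y‖ → 1 ≤ n2 G y) {Z : Set (σ → ℂ)}
    (hZ : IsClosed Z) (h : ∀ y ∈ Z, ¬ Crit G y) : ∃ κ > 0, ∀ y ∈ Z, κ ≤ n2 G y := by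
  obtain ⟨R, hR⟩ := hR
  obtain ⟨κ, k0, hk⟩ := ((isCompact_closedBall (0 : σ → ℂ) R).inter_right hZ).exists_forall_le'
    (continuous_n2 G).continuousOn (a := 0) fun y hy =>
      (n2_nonneg G y).lt_of_ne' fun e => h y hy.2 (n2_eq_zero.1 e)
  refine ⟨min κ 1, lt_min k0 one_pos, fun y hy => ?_⟩
  rcases le_total R ‖y‖ with e | e
  · exact (min_le_right _ _).trans (hR y e)
  · exact (min_le_left _ _).trans (hk y ⟨by simpa using e, hy⟩)

lemma grad_le (w : ℂ) (G : MvPolynomial σ ℂ) (y : σ → ℂ) :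
    ‖w‖ ^ 2 * n2 G y ≤ Fintype.card σ *
      ‖fderiv ℝ (fun y : σ → ℂ => RCLike.re (w * MvPolynomial.eval y G)) y‖ ^ 2 := by
  classical
  rw [n2, Finset.mul_sum, ← nsmul_eq_mul, ← Finset.card_univ]
  refine Finset.sum_le_card_nsmul _ _ _ fun j _ => ?_
  rw [← mul_pow, ← norm_mul]
  refine pow_le_pow_left₀ (norm_nonneg _) ?_ 2
  obtain ⟨z, z1, hz⟩ := Complex.exists_norm_eq_mul_self
    (w * MvPolynomial.eval y (MvPolynomial.pderiv j G))
  have e := fderiv_re w G y (Pi.single j z)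
  rw [Finset.sum_eq_single j (fun i _ hi => by simp [hi]) (by simp), Pi.single_eq_same,
    ← mul_assoc, mul_comm _ z, ← hz] at e
  have e2 := (fderiv ℝ (fun y : σ → ℂ => RCLike.re (w * MvPolynomial.eval y G)) y).le_opNorm
    (Pi.single j z)
  rw [e, Pi.norm_single, z1, mul_one] at e2
  simpa using e2

lemma rad [DecidableEq σ] (Q : QuadraticForm ℝ (σ → ℂ)) (w : ℂ) (H : Matrix σ σ ℂ) (hw : w ≠ 0)
    (hs : H.IsSymm) (hd : H.det ≠ 0)
    (hQ : ∀ v, Q v = (w * ∑ i, ∑ j, H i j * (v i * v j)).re) : Q.radical = ⊥ := by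
  refine (Submodule.eq_bot_iff _).2 fun m hm => ?_
  obtain ⟨h0, h1⟩ := QuadraticMap.mem_radical_iff'.1 hm
  have key : ∀ n : σ → ℂ, (w * ∑ i, ∑ j, H i j * (m i * n j)).re = 0 := fun n => by
    have e1 : ∑ i, ∑ j, H i j * (n i * m j) = ∑ i, ∑ j, H i j * (m i * n j) := by
      rw [Finset.sum_comm]
      refine Finset.sum_congr rfl fun i _ => Finset.sum_congr rfl fun j _ => ?_
      rw [hs.apply i j, mul_comm (n j)]
    have e2 : ∑ i, ∑ j, H i j * ((m + n) i * (m + n) j) = ∑ i, ∑ j, H i j * (m i * m j) +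
        ∑ i, ∑ j, H i j * (m i * n j) + ∑ i, ∑ j, H i j * (n i * m j) +
        ∑ i, ∑ j, H i j * (n i * n j) := by
      simp only [← Finset.sum_add_distrib, Pi.add_apply]
      refine Finset.sum_congr rfl fun i _ => Finset.sum_congr rfl fun j _ => ?_
      ring
    have e3 := h1 n
    rw [hQ] at h0
    rw [hQ, hQ, e2, e1] at e3
    simp only [mul_add, Complex.add_re] at e3
    linarith
  refine Matrix.eq_zero_of_vecMul_eq_zero hd (funext fun j => ?_)
  have e : ∀ z : ℂ, (w * Matrix.vecMul m H j * z).re = 0 := fun z => by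
    rw [← key (Pi.single j z), mul_assoc]
    congr 2
    rw [Matrix.vecMul, dotProduct, Finset.sum_mul]
    refine Finset.sum_congr rfl fun i _ => ?_
    rw [Finset.sum_eq_single j (fun l _ hl => by simp [hl]) (by simp), Pi.single_eq_same]
    ring
  have e1 := e 1
  have e2 := e Complex.I
  rw [mul_one] at e1
  rw [Complex.mul_I_re, neg_eq_zero] at e2
  exact (mul_eq_zero.1 (Complex.ext e1 e2)).resolve_left hw

lemma sgn (Q : QuadraticForm ℝ (σ → ℂ)) (h : ∀ v, Q (Complex.I • v) = -Q v) (hr : Q.radical = ⊥) :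
    sigNeg Q = Fintype.card σ := by
  have e : QuadraticMap.Equivalent Q (-Q) :=
    ⟨⟨(LinearEquiv.smulOfNeZero ℂ (σ → ℂ) Complex.I Complex.I_ne_zero).restrictScalars ℝ,
      fun v => by simpa using congrArg Neg.neg (h v)⟩⟩
  have e1 := e.sigPos_eq
  have e2 := QuadraticForm.sigPos_add_sigNeg_add_radical (Q := Q)
  rw [hr, finrank_bot, finrank_real_of_complex, Module.finrank_fintype_fun_eq_card] at e2
  rw [sigPos_neg] at e1
  omega

end Poly

variable {E ι : Type} [TopologicalSpace E] {G : E → ℂ} {c : ι → ℂ} {ζ : ℂ} {A B A' B' : Set ℂ}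

/-- Two admissible pairs are compared through their intersection. -/
lemma cmp (hG : Continuous G) (hζ : ζ ≠ 0)
    (hac : ∀ (ζ : ℂ) A B, ζ ≠ 0 → Adm ζ A B → (∀ i, c i ∈ A → c i ∈ B) → Ac (G ⁻¹' A) (G ⁻¹' B))
    (h : Adm ζ A B) (h' : Adm ζ A' B') (h1 : ∀ j, c j ∈ A → c j ∈ B ∨ c j ∈ A')
    (h2 : ∀ j, c j ∈ A → c j ∈ A' → c j ∈ B → c j ∈ B') (k : ℕ) :
    hs (G ⁻¹' A) (G ⁻¹' B) k = hs (G ⁻¹' (A ∩ A')) (G ⁻¹' (B ∩ B')) k := by
  have oW := h.oA.inter h'.oA
  have mW := h.mA.inter h'.mA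
  have a1 := (h.mid (W := A ∩ A' ∪ B) (oW.union h.oB) (mW.union h.mB) subset_union_right
    (union_subset inter_subset_left h.sub)).1
  have a2 : Adm ζ (A ∩ A' ∩ B) (B ∩ B') :=
    ⟨oW.inter h.oB, h.oB.inter h'.oB, fun z hz => ⟨⟨h.sub hz.1, h'.sub hz.2⟩, hz.1⟩,
      mW.inter h.mB, h.mB.inter h'.mB, fun z hz =>
        (h'.ent z hz.1.2).imp fun t ht => ⟨ht.1, h.mB z hz.2 t ht.1, ht.2⟩⟩
  have b1 := hac ζ _ _ hζ a1 fun j hj => (h1 j hj).elim Or.inr fun e => Or.inl ⟨hj, e⟩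
  have b2 := hac ζ _ _ hζ a2 fun j hj => ⟨hj.2, h2 j hj.1.1 hj.1.2 hj.2⟩
  rw [b1.left (preimage_mono subset_union_right) (preimage_mono a1.sub) k, preimage_union,
    exc (oW.preimage hG) (h.oB.preimage hG), ← preimage_inter,
    b2.right (preimage_mono a2.sub) (preimage_mono inter_subset_left) k]

lemma adm_half {w : ℂ} (hw : (w * ζ).re < 0) {a b : ℝ} (hab : a ≤ b) :
    Adm ζ {z | (w * z).re < b} {z | (w * z).re < a} := by
  have e : ∀ (z : ℂ) (t : ℝ), (w * (z + t • ζ)).re = (w * z).re + t * (w * ζ).re := fun z t => by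
    rw [mul_add, Complex.add_re, mul_smul_comm, Complex.smul_re, smul_eq_mul]
  have mo : ∀ s : ℝ, Mono ζ {z | (w * z).re < s} := fun s z hz t ht => by
    simp only [mem_ofPred_eq] at hz ⊢
    rw [e]
    nlinarith
  refine ⟨isOpen_lt (by fun_prop) continuous_const, isOpen_lt (by fun_prop) continuous_const,
    fun z hz => lt_of_lt_of_le hz hab, mo b, mo a, fun z hz =>
      ⟨(b - a) / (-(w * ζ).re), div_nonneg (by linarith) (by linarith), ?_⟩⟩
  simp only [mem_ofPred_eq] at hz ⊢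
  rw [e, div_neg, neg_mul, div_mul_cancel₀ _ hw.ne]
  linarith

lemma exists_dir [Finite ι] (hc : Injective c) (hζ : ζ ≠ 0) (i : ι) :
    ∃ w : ℂ, (w * ζ).re < 0 ∧ ∀ j ≠ i, (w * c j).re ≠ (w * c i).re := by
  obtain ⟨u, hu⟩ := (finite_range fun j => -((starRingEnd ℂ) ζ * (c j - c i)).re /
    ((starRingEnd ℂ) ζ * (c j - c i)).im).exists_notMem
  refine ⟨(-1 + Complex.I * u) * (starRingEnd ℂ) ζ, ?_, fun j hj e => ?_⟩
  · rw [mul_assoc, ← Complex.normSq_eq_conj_mul_self]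
    simpa using Complex.normSq_pos.2 hζ
  · have h0 : (starRingEnd ℂ) ζ * (c j - c i) ≠ 0 :=
      mul_ne_zero (by simpa using hζ) (sub_ne_zero.2 (hc.ne hj))
    have h1 : ((-1 + Complex.I * u) * ((starRingEnd ℂ) ζ * (c j - c i))).re = 0 := by
      rw [← mul_assoc, mul_sub, Complex.sub_re, e, sub_self]
    have h2 : -((starRingEnd ℂ) ζ * (c j - c i)).re / ((starRingEnd ℂ) ζ * (c j - c i)).im ≠ u :=
      fun e => hu ⟨j, e⟩
    generalize (starRingEnd ℂ) ζ * (c j - c i) = d at h0 h1 h2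
    have h3 : -d.re - u * d.im = 0 := by simpa using h1
    by_cases h4 : d.im = 0
    · exact h0 (Complex.ext (by simpa [h4] using h3) h4)
    · refine h2 ?_
      field_simp
      linarith

end JHalf

open JHalf

theorem halfS (h : MCS) : HalfS := by
  intro σ ι _ _ G c x hM hR w a b i hw hi hj
  set f := fun y : σ → ℂ => RCLike.re (w * MvPolynomial.eval y G) with hf
  let Q : QuadraticForm ℝ (σ → ℂ) :=
    LinearMap.BilinMap.toQuadraticMap (fderiv ℝ (fderiv ℝ f) (x i)).toBilinForm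
  have hQ : ∀ v, Q v = fderiv ℝ (fderiv ℝ f) (x i) v v := fun v => rfl
  have hQ' : ∀ v, Q v = (w * ∑ k, ∑ l, Hess G (x i) k l * (v k * v l)).re := fun v =>
    (hQ v).trans (fderiv2_re w G (x i) v v)
  have hr := rad Q w _ hw (hess_symm G (x i)) (hM.hess i) hQ'
  have hs : sigNeg Q = Fintype.card σ := sgn Q (fun v => by
    rw [hQ', hQ', ← Complex.neg_re, ← mul_neg, ← Finset.sum_neg_distrib]
    congr 2
    refine Finset.sum_congr rfl fun k _ => ?_
    rw [← Finset.sum_neg_distrib]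
    refine Finset.sum_congr rfl fun l _ => ?_
    simp only [Pi.smul_apply, smul_eq_mul]
    linear_combination Hess G (x i) k l * v k * v l * Complex.I_mul_I) hr
  have hv : ∀ j, f (x j) = (w * c j).re := fun j => by
    simp only [hf, hM.val j, RCLike.re_to_complex]
  rw [← hs]
  refine h (σ → ℂ) f (x i) a b Q (contDiff_re w G) ?_ hQ hr (hv i ▸ hi.1) (hv i ▸ hi.2) ?_
  · ext v
    rw [hf, fderiv_re]
    simp [hM.crit i _]
  · intro U hU
    have cf : Continuous f := (contDiff_re w G (n := 0)).continuous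
    obtain ⟨κ, k0, hk⟩ := n2_lb hR (Z := f ⁻¹' Icc a b ∩ (interior U)ᶜ)
      ((isClosed_Icc.preimage cf).inter isOpen_interior.isClosed_compl) fun y hy hc => by
        obtain ⟨j, rfl⟩ := hM.all y hc
        by_cases e : j = i
        · exact hy.2 (e ▸ mem_interior_iff_mem_nhds.2 hU)
        · exact hj j e (hv j ▸ hy.1)
    have w0 : 0 < ‖w‖ := norm_pos_iff.2 hw
    refine ⟨√(‖w‖ ^ 2 * κ / (Fintype.card σ + 1)), by positivity, fun y y1 y2 => ?_⟩
    rw [Real.sqrt_le_iff, div_le_iff₀ (by positivity)]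
    refine ⟨norm_nonneg _, ?_⟩
    have e1 := grad_le w G y
    have e2 := mul_le_mul_of_nonneg_left (hk y ⟨y1, fun e => y2 (interior_subset e)⟩)
      (sq_nonneg ‖w‖)
    nlinarith [sq_nonneg ‖fderiv ℝ f y‖]

theorem k2S : K2S := by
  intro E ι _ _ G c m hG hc hac hcell
  refine ⟨hG, hc, hac, fun ζ A B i hζ hA iA iB ho k => ?_⟩
  obtain ⟨w, w1, w2⟩ := exists_dir hc hζ i
  have w0 : w ≠ 0 := fun e => by simp [e] at w1
  have : ∀ᶠ δ in 𝓝[>] (0 : ℝ), ∀ j, j ≠ i → δ < |(w * c j).re - (w * c i).re| :=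
    eventually_all.2 fun j => by
      by_cases e : j = i
      · exact .of_forall fun _ a => absurd e a
      · exact ((eventually_lt_nhds (abs_pos.2 (sub_ne_zero.2 (w2 j e)))).filter_mono
          nhdsWithin_le_nhds).mono fun _ a _ => a
  obtain ⟨δ, d1, d0⟩ := (this.and self_mem_nhdsWithin).exists
  replace d0 : 0 < δ := d0
  have hj : ∀ j ≠ i, (w * c j).re ∉ Icc ((w * c i).re - δ) ((w * c i).re + δ) := fun j e a =>
    (d1 j e).not_ge (abs_le.2 ⟨by linarith [a.1], by linarith [a.2]⟩)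
  have hA' := adm_half w1 (a := (w * c i).re - δ) (b := (w * c i).re + δ) (by linarith)
  have lo : ∀ j ≠ i, (w * c j).re < (w * c i).re + δ → (w * c j).re < (w * c i).re - δ :=
    fun j e a => not_le.1 fun b => hj j e ⟨b, a.le⟩
  have e1 := cmp hG hζ hac hA hA'
    (fun j a => by
      by_cases e : j = i
      · exact Or.inr (show (w * c j).re < _ by rw [e]; linarith)
      · exact Or.inl (ho j e a))
    (fun j _ a b => lo j (fun e => iB (e ▸ b)) a) k
  have e2 := cmp hG hζ hac hA' hA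
    (fun j a => by
      by_cases e : j = i
      · exact Or.inr (e ▸ iA)
      · exact Or.inl (lo j e a))
    (fun j _ a b => ho j (fun e => by
      have : (w * c j).re < (w * c i).re - δ := b
      rw [e] at this
      linarith) a) k
  rw [e1, inter_comm A, inter_comm B, ← e2]
  exact hcell w _ _ i w0 ⟨by linarith, by linarith⟩ hj k

theorem sysS (h1 : K1S) (h2 : PGC) (h3 : K2S) (h4 : HalfS) : SysS := by
  intro σ ι _ _ _ G c x hM hR
  have hG : Continuous fun y : σ → ℂ => MvPolynomial.eval y G := MvPolynomial.continuous_eval G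
  refine h3 _ ι _ c _ hG hM.inj (fun ζ A B hζ hA hc => ?_) (h4 σ ι G c x hM hR)
  have := h1 _ _ _ _ _ ζ _ A B univ ∅ (h2 σ G ζ hζ) hA isOpen_univ isOpen_empty
    (disjoint_empty _) (by simp) fun Z hZ hs => by
      obtain ⟨κ, k0, hk⟩ := n2_lb hR (hZ.isClosed.preimage hG) fun y hy e => by
        obtain ⟨j, rfl⟩ := hM.all y e
        have a : MvPolynomial.eval (x j) G ∈ A \ B := hs hy
        rw [hM.val j] at a
        exact a.2 (hc j a.1)
      exact ⟨κ, k0, fun y _ hy => hk y hy⟩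
  simpa using this

end Pool.Agent.Lib.MP_837412_lc
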