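import Pool.Agent.Lib.MP_837412_lc.StC

/-!
The signature of the matrix of Hermite, and the Tarski query.
-/

namespace Pool.Agent.Lib.MP_837412_lc

open Set Polynomial Function ComplexConjugate

set_option maxHeartbeats 400000

namespace JHerm

/-- The value at `z` of the polynomial with coefficients `v`. -/
noncomputable def av {n : ℕ} (v : Fin n → ℝ) (z : ℂ) : ℂ := ∑ a, (v a : ℂ) * z ^ (a : ℕ)

lemma av_conj {n : ℕ} (v : Fin n → ℝ) (z : ℂ) : av v (conj z) = conj (av v z) := by
  simp [av, map_sum]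

lemma av_add {n : ℕ} (v v' : Fin n → ℝ) (z : ℂ) : av (v + v') z = av v z + av v' z := by
  simp [av, add_mul, Finset.sum_add_distrib]

lemma av_smul {n : ℕ} (t : ℝ) (v : Fin n → ℝ) (z : ℂ) : av (t • v) z = t * av v z := by
  simp [av, Finset.mul_sum, mul_assoc]

lemma herm_apply {ι : Type} [Fintype ι] (c : ι → ℂ) (q : ℝ[X]) (n : ℕ) (v : Fin n → ℝ) :
    (herm c q n).toQuadraticForm' v = ∑ i, (aeval (c i) q * av v (c i) ^ 2).re := by
  have h1 : (herm c q n).toQuadraticForm' v = ∑ a, ∑ b, v a * (herm c q n a b * v b) := by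
    simp [Matrix.toQuadraticForm', Matrix.toLinearMap₂'_apply', dotProduct, Matrix.mulVec,
      Finset.mul_sum]
  have h2 : ∑ i, aeval (c i) q * av v (c i) ^ 2 = ∑ a : Fin n, ∑ b : Fin n,
      (v a : ℂ) * ((∑ i, aeval (c i) q * c i ^ ((a : ℕ) + (b : ℕ))) * (v b : ℂ)) := by
    simp only [av, sq, Finset.mul_sum, Finset.sum_mul]
    rw [Finset.sum_comm]
    refine Finset.sum_congr rfl fun a _ => ?_
    rw [Finset.sum_comm]
    refine Finset.sum_congr rfl fun b _ => Finset.sum_congr rfl fun i _ => ?_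
    rw [pow_add]; ring
  rw [h1, ← Complex.re_sum, h2, Complex.re_sum]
  refine Finset.sum_congr rfl fun a _ => ?_
  rw [Complex.re_sum]
  refine Finset.sum_congr rfl fun b _ => ?_
  rw [Complex.re_ofReal_mul, Complex.re_mul_ofReal]
  rfl

lemma aeval_real (q : ℝ[X]) (t : ℝ) : aeval (t : ℂ) q = ((q.eval t : ℝ) : ℂ) :=
  Polynomial.aeval_ofReal (K := ℂ) q t

lemma exists_s (q : ℝ[X]) : ∃ (s : ℂ → ℂ) (ε : ℂ → ℝ), (∀ z, s z ≠ 0) ∧
    (∀ z, s (conj z) = conj (s z)) ∧ (∀ z, ε (conj z) = ε z) ∧
    (∀ z, aeval z q = ε z * s z ^ 2) ∧ ∀ z, z.im = 0 → s z = 1 := by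
  have h0 : ∀ z : ℂ, ∃ (s : ℂ) (ε : ℝ), s ≠ 0 ∧ aeval z q = ε * s ^ 2 ∧ (z.im = 0 → s = 1) := by
    intro z
    by_cases hz : z.im = 0
    · refine ⟨1, q.eval z.re, one_ne_zero, ?_, fun _ => rfl⟩
      have : z = (z.re : ℂ) := Complex.ext (by simp) (by simp [hz])
      rw [one_pow, mul_one, ← aeval_real, ← this]
    · by_cases hq : aeval z q = 0
      · exact ⟨1, 0, one_ne_zero, by simp [hq], fun _ => rfl⟩
      · obtain ⟨s, hs⟩ := IsAlgClosed.exists_pow_nat_eq (aeval z q) zero_lt_two
        refine ⟨s, 1, fun e => hq (by rw [← hs, e]; simp), by simp [hs], fun e => (hz e).elim⟩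
  choose s ε h1 h2 h3 using h0
  refine ⟨fun z => if 0 ≤ z.im then s z else conj (s (conj z)),
    fun z => if 0 ≤ z.im then ε z else ε (conj z), fun z => ?_, fun z => ?_, fun z => ?_,
    fun z => ?_, fun z hz => ?_⟩
  · dsimp only
    split_ifs
    · exact h1 z
    · simpa using h1 _
  · dsimp only
    rcases lt_trichotomy z.im 0 with h | h | h
    · rw [if_pos (by simpa using h.le), if_neg (not_le.2 h), Complex.conj_conj]
    · rw [if_pos (by simp [h]), if_pos h.ge, h3 z h, h3 _ (by simp [h]), map_one]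
    · rw [if_neg (by simpa using h), if_pos h.le, Complex.conj_conj]
  · dsimp only
    rcases lt_trichotomy z.im 0 with h | h | h
    · rw [if_pos (by simpa using h.le), if_neg (not_le.2 h)]
    · simp only [Complex.conj_eq_iff_im.2 h]
    · rw [if_neg (by simpa using h), if_pos h.le, Complex.conj_conj]
  · dsimp only
    split_ifs
    · exact h2 z
    · have := congrArg conj (h2 (conj z))
      rw [Polynomial.aeval_conj, Complex.conj_conj] at this
      rw [this]; simp
  · dsimp only
    rw [if_pos hz.ge, h3 z hz]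

lemma ncard_sub {κ : Type} [Fintype κ] (w : κ → ℝ) :
    (({i | 0 < w i}.ncard : ℕ) : ℤ) - ({i | w i < 0}.ncard : ℕ) =
      ∑ i, (SignType.sign (w i) : ℤ) := by
  classical
  rw [Set.ncard_eq_toFinset_card', Set.ncard_eq_toFinset_card', Set.toFinset_ofPred,
    Set.toFinset_ofPred, Finset.card_filter, Finset.card_filter]
  push_cast
  rw [← Finset.sum_sub_distrib]
  refine Finset.sum_congr rfl fun i _ => ?_
  rcases lt_trichotomy (w i) 0 with h | h | h
  · simp [h, h.le, sign_neg h]
  · simp [h]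
  · simp [h, h.le, sign_pos h]

/-- Sums over a set that is closed under conjugation. -/
lemma sum_conj {M : Type} [AddCommMonoid M] (Z : Finset ℂ) (hZ : ∀ z ∈ Z, conj z ∈ Z)
    (f : ℂ → M) : ∑ z ∈ Z, f (conj z) = ∑ z ∈ Z, f z :=
  Finset.sum_nbij' conj conj hZ hZ (fun z _ => Complex.conj_conj z)
    (fun z _ => Complex.conj_conj z) fun _ _ => rfl

/-- Interpolation by a real polynomial. -/
lemma exists_av (Z : Finset ℂ) (hZ : ∀ z ∈ Z, conj z ∈ Z) {n : ℕ} (hn : Z.card ≤ n) (r : ℂ → ℂ)
    (hr : ∀ z ∈ Z, r (conj z) = conj (r z)) : ∃ v : Fin n → ℝ, ∀ z ∈ Z, av v z = r z := by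
  classical
  set p := Lagrange.interpolate Z id r with hp
  have hd : p.degree < n :=
    (Lagrange.degree_interpolate_lt r (injOn_id _)).trans_le (by exact_mod_cast hn)
  have he : ∀ z ∈ Z, ∑ a : Fin n, p.coeff a * z ^ (a : ℕ) = r z := fun z hz => by
    have b1 := eval_eq_sum_degreeLTEquiv (mem_degreeLT.2 hd) z
    have b2 : p.eval z = r z := Lagrange.eval_interpolate_at_node r (injOn_id _) hz
    rw [← b2, b1]
    rfl
  refine ⟨fun a => (p.coeff a).re, fun z hz => ?_⟩
  have h1 := he z hz
  have h2 := congrArg conj (he _ (hZ z hz))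
  rw [hr z hz, Complex.conj_conj, map_sum] at h2
  simp only [map_mul, map_pow, Complex.conj_conj] at h2
  have h3 : av (fun a : Fin n => (p.coeff a).re) z = (∑ a : Fin n, p.coeff a * z ^ (a : ℕ) +
      ∑ a : Fin n, conj (p.coeff a) * z ^ (a : ℕ)) / 2 := by
    rw [av, ← Finset.sum_add_distrib, Finset.sum_div]
    refine Finset.sum_congr rfl fun a _ => ?_
    rw [Complex.re_eq_add_conj]; ring
  rw [h3, h1, h2]; ring

end JHerm

open JHerm

theorem hermS (h : SigRepS) : HermS := by
  classical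
  intro ι _ c p q n hc hn
  have hp0 : p ≠ 0 := fun e => (chi_monic c).ne_zero (by rw [hc, e, Polynomial.map_zero])
  obtain ⟨σ, hσ⟩ : ∃ σ : Equiv.Perm ι, (fun i => conj (c i)) = c ∘ σ := by
    refine exists_perm_of_chi ?_
    have h1 : chi (fun i => conj (c i)) = (chi c).map (starRingEnd ℂ) := by
      simp [chi, Polynomial.map_prod]
    rw [h1, hc, Polynomial.map_map]
    congr 1
    ext t
    simp
  have hσ' : ∀ i, c (σ i) = conj (c i) := fun i => (congrFun hσ i).symm
  set Z : Finset ℂ := Finset.univ.image c with hZ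
  have hZc : ∀ z ∈ Z, conj z ∈ Z := fun z hz => by
    obtain ⟨i, -, rfl⟩ := Finset.mem_image.1 hz
    exact Finset.mem_image.2 ⟨σ i, Finset.mem_univ _, hσ' i⟩
  set μ : ℂ → ℕ := fun z => (Finset.univ.filter fun i => c i = z).card with hμ
  have hμc : ∀ z, μ (conj z) = μ z := fun z => by
    refine (Finset.card_equiv σ fun i => ?_).symm
    simp only [Finset.mem_filter, Finset.mem_univ, true_and, hσ']
    exact (starRingEnd ℂ).injective.eq_iff.symm
  have hμ0 : ∀ z ∈ Z, (0 : ℝ) < μ z := fun z hz => by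
    obtain ⟨i, -, rfl⟩ := Finset.mem_image.1 hz
    exact Nat.cast_pos.2 (Finset.card_pos.2 ⟨i, by simp⟩)
  obtain ⟨s, ε, s0, sc, εc, hs, s1⟩ := exists_s q
  set w : ℂ → ℝ := fun z =>
    if z.im = 0 then μ z * ε z else if z.im < 0 then -(2 * (μ z * ε z)) else 2 * (μ z * ε z)
    with hw
  set l : (Fin n → ℝ) → ℂ → ℝ := fun v z =>
    if z.im < 0 then (s z * av v z).im else (s z * av v z).re with hl
  let L : (Fin n → ℝ) →ₗ[ℝ] Z → ℝ :=
    { toFun := fun v z => l v z
      map_add' := fun v v' => by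
        ext z
        simp only [hl, av_add, Pi.add_apply, mul_add, Complex.add_re, Complex.add_im]
        split_ifs <;> rfl
      map_smul' := fun t v => by
        ext z
        simp only [hl, av_smul, Pi.smul_apply, RingHom.id_apply, smul_eq_mul, mul_left_comm (s z),
          Complex.re_ofReal_mul, Complex.im_ofReal_mul]
        split_ifs <;> rfl }
  have hL : Surjective L := fun y => by
    set y' : ℂ → ℝ := fun z => if hz : z ∈ Z then y ⟨z, hz⟩ else 0 with hy
    set u : ℂ → ℂ := fun z => if z.im = 0 then (y' z : ℂ) else if z.im < 0 then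
      ⟨y' (conj z), y' z⟩ else ⟨y' z, -y' (conj z)⟩ with hu
    have huc : ∀ z, u (conj z) = conj (u z) := fun z => by
      rcases lt_trichotomy z.im 0 with h | h | h
      · have a : ¬ (conj z).im = 0 := by simpa using h.ne
        have b : ¬ (conj z).im < 0 := by simpa using h.le
        simp only [hu, if_neg a, if_neg b, if_neg h.ne, if_pos h, Complex.conj_conj]
        exact Complex.ext rfl rfl
      · simp only [hu, Complex.conj_eq_iff_im.2 h, if_pos h, Complex.conj_ofReal]
      · have a : ¬ (conj z).im = 0 := by simpa using h.ne'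
        have b : (conj z).im < 0 := by simpa using h
        simp only [hu, if_neg a, if_pos b, if_neg h.ne', if_neg h.le.not_gt, Complex.conj_conj]
        exact Complex.ext rfl (by simp)
    obtain ⟨v, hv⟩ := exists_av Z hZc (Finset.card_image_le.trans (by simpa using hn))
      (fun z => (s z)⁻¹ * u z) fun z _ => by rw [sc, huc, map_mul, map_inv₀]
    refine ⟨v, funext fun z => ?_⟩
    have e1 : s z * av v z = u z := by rw [hv z z.2, mul_inv_cancel_left₀ (s0 z)]
    have e2 : y' z = y z := dif_pos z.2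
    change l v z = y z
    simp only [hl, e1, hu, ← e2]
    rcases lt_trichotomy (z : ℂ).im 0 with h | h | h
    · rw [if_pos h, if_neg h.ne, if_pos h]
    · rw [if_neg h.ge.not_gt, if_pos h, Complex.ofReal_re]
    · rw [if_neg h.le.not_gt, if_neg h.ne', if_neg h.le.not_gt]
  have hQ : ∀ v, (herm c q n).toQuadraticForm' v = ∑ z : Z, w z * L v z ^ 2 := fun v => by
    have e1 : ∑ z : Z, w z * L v z ^ 2 = ∑ z ∈ Z, w z * l v z ^ 2 :=
      Finset.sum_coe_sort Z fun z => w z * l v z ^ 2
    have e2 := sum_conj Z hZc fun z => w z * l v z ^ 2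
    have e3 : ∀ z, w (conj z) * l v (conj z) ^ 2 + w z * l v z ^ 2 =
        2 * (μ z • (aeval z q * av v z ^ 2).re) := fun z => by
      have a1 : (aeval z q * av v z ^ 2).re =
          ε z * ((s z * av v z).re ^ 2 - (s z * av v z).im ^ 2) := by
        rw [hs, mul_assoc, ← mul_pow, Complex.re_ofReal_mul, sq (s z * av v z), Complex.mul_re]
        ring
      have a2 : s (conj z) * av v (conj z) = conj (s z * av v z) := by rw [sc, av_conj, map_mul]
      rw [a1, nsmul_eq_mul]
      rcases lt_trichotomy z.im 0 with h | h | h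
      · have a : ¬ (conj z).im = 0 := by simpa using h.ne
        have b : ¬ (conj z).im < 0 := by simpa using h.le
        simp only [hw, hl, if_neg a, if_neg b, if_neg h.ne, if_pos h, a2, hμc, εc, Complex.conj_re]
        ring
      · have b : (s z * av v z).im = 0 := by
          rw [← Complex.conj_eq_iff_im, ← a2, Complex.conj_eq_iff_im.2 h]
        simp only [hw, hl, Complex.conj_eq_iff_im.2 h, if_pos h, if_neg h.ge.not_gt, b]
        ring
      · have a : ¬ (conj z).im = 0 := by simpa using h.ne'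
        have b : (conj z).im < 0 := by simpa using h
        simp only [hw, hl, if_neg a, if_pos b, if_neg h.ne', if_neg h.le.not_gt, a2, hμc, εc]
        rw [Complex.conj_im]
        ring
    have e4 := Finset.sum_congr (rfl : Z = Z) fun z _ => e3 z
    rw [Finset.sum_add_distrib, e2, ← Finset.mul_sum] at e4
    rw [herm_apply, Finset.sum_comp (fun z => (aeval z q * av v z ^ 2).re) c, e1]
    linarith
  obtain ⟨h1, h2⟩ := h (Fin n → ℝ) Z _ L (fun z => w z) hL hQ
  have e0 : ((sig (herm c q n)).1 : ℤ) - (sig (herm c q n)).2 =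
      ∑ z ∈ Z, (SignType.sign (w z) : ℤ) := by
    rw [← Finset.sum_coe_sort Z fun z => (SignType.sign (w z) : ℤ), ← ncard_sub, ← h1, ← h2]
    rfl
  have e2 := sum_conj Z hZc fun z => (SignType.sign (w z) : ℤ)
  have e3 : ∀ z ∈ Z, (SignType.sign (w (conj z)) : ℤ) + (SignType.sign (w z) : ℤ) =
      2 * if z.im = 0 then (SignType.sign (q.eval z.re) : ℤ) else 0 := fun z hz => by
    rcases lt_trichotomy z.im 0 with h | h | h
    · have a : ¬ (conj z).im = 0 := by simpa using h.ne
      have b : ¬ (conj z).im < 0 := by simpa using h.le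
      simp only [hw, if_neg a, if_neg b, if_neg h.ne, if_pos h, hμc, εc, Left.sign_neg]
      simp
    · have b : ε z = q.eval z.re := by
        have a1 := hs z
        have a2 : z = (z.re : ℂ) := Complex.ext (by simp) (by simp [h])
        rw [s1 z h, one_pow, mul_one] at a1
        rw [a2, aeval_real, ← a2] at a1
        exact_mod_cast a1.symm
      simp only [hw, Complex.conj_eq_iff_im.2 h, if_pos h, sign_mul, sign_pos (hμ0 z hz), one_mul,
        b]
      ring
    · have a : ¬ (conj z).im = 0 := by simpa using h.ne'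
      have b : (conj z).im < 0 := by simpa using h
      simp only [hw, if_neg a, if_pos b, if_neg h.ne', if_neg h.le.not_gt, hμc, εc, Left.sign_neg]
      simp
  have e4 := Finset.sum_congr (rfl : Z = Z) e3
  rw [Finset.sum_add_distrib, e2, ← Finset.mul_sum, ← Finset.sum_filter] at e4
  have e5 : taq p q = ∑ z ∈ Z with z.im = 0, (SignType.sign (q.eval z.re) : ℤ) := by
    have key : ∀ t : ℝ, t ∈ p.roots.toFinset ↔ (t : ℂ) ∈ Z := fun t => by
      rw [Multiset.mem_toFinset, mem_roots hp0, IsRoot.def, ← Complex.ofReal_eq_zero, ← aeval_real,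
        aeval_def, ← eval_map, ← hc, eval_chi_eq_zero]
      simp [hZ]
    refine Finset.sum_nbij' (fun t => (t : ℂ)) (fun z => z.re) (fun t ht => ?_) (fun z hz => ?_)
      (fun t _ => by simp) (fun z hz => ?_) fun t _ => by simp
    · exact Finset.mem_filter.2 ⟨(key t).1 ht, by simp⟩
    · obtain ⟨a, b⟩ := Finset.mem_filter.1 hz
      have a2 : (z.re : ℂ) = z := Complex.ext (by simp) (by simp [b])
      rw [key, a2]; exact a
    · exact Complex.ext (by simp) (by simp [(Finset.mem_filter.1 hz).2])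
  rw [e0, e5]
  omega

theorem taqS (h1 : SigS) (h2 : HermS) : TaqS := by
  intro α B _ Γ e n p q hB hp hq dp dq p0
  have hn : n < B := by nlinarith
  have hn3 : 3 * n < B := by nlinarith
  have hn2 : n ^ 2 < B := by nlinarith
  have d1 : D B Γ (e + 5) fun x y => (p x).natDegree = (p y).natDegree :=
    (hp.support dp hn).imp fun x _ y _ a => by simp only [natDegree, degree, a]
  refine (P.cases d1 (e' := e + 111) fun k Δ a hk => ?_).mono (by omega)
  by_cases hkn : k ≤ n
  swap
  · exact D.of_forall fun x hx _ _ => (hkn (hk x hx ▸ dp x (a.1 hx))).elim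
  have l0 : ∀ x ∈ Δ.Y, (p x).coeff k ≠ 0 := fun x hx => by
    rw [← hk x hx]; exact leadingCoeff_ne_zero.2 (p0 x (a.1 hx))
  have hc : ∀ x, ∃ c : Fin k → ℂ, x ∈ Δ.Y →
      chi c = (C ((p x).coeff k)⁻¹ * p x).map (algebraMap ℝ ℂ) := fun x => by
    by_cases hx : x ∈ Δ.Y
    · have m : (C ((p x).coeff k)⁻¹ * p x).Monic := by
        refine monic_C_mul_of_mul_leadingCoeff_eq_one ?_
        rw [leadingCoeff, hk x hx, inv_mul_cancel₀ (l0 x hx)]
      obtain ⟨c, hc⟩ := exists_chi (ι := Fin k) (m.map (algebraMap ℝ ℂ)) (by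
        rw [m.natDegree_map, natDegree_C_mul (inv_ne_zero (l0 x hx)), hk x hx, Fintype.card_fin])
      exact ⟨c, fun _ => hc⟩
    · exact ⟨0, fun a => (hx a).elim⟩
  choose c hc using hc
  have a1 : AP B Δ (e + 8) fun x => C ((p x).coeff k)⁻¹ * p x :=
    (AP.C_mul (((hp k).ext a).inv l0) (hp.ext a)).mono (by omega)
  have a2 : AP B Δ (e + 8) fun x => chi (c x) := (a1.ofReal (𝕜 := ℂ)).congr hc
  have a3 : PA B Δ (e + 39) (3 * n) c := AP.ps a2 hn3 (by rw [Fintype.card_fin]; omega)
  have a4 : ∀ i j, A B Δ (e + 51) fun x => herm (c x) (q x) n i j := fun i j => by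
    have hi := i.2
    have hj := j.2
    have b1 : A B Δ (e + 49) fun x => ∑ l ∈ Finset.range (n + 1),
        (((q x).coeff l : ℝ) : ℂ) * ps (c x) (l + ((i : ℕ) + (j : ℕ))) :=
      A.sum (e := e + 43) _ (by simpa using hn) fun l hl =>
        ((((hq l).ext a).ofReal (𝕜 := ℂ)).mul
          (a3 _ (by have := Finset.mem_range.1 hl; omega))).mono (by omega)
    refine b1.re.congr fun x hx => ?_
    rw [RCLike.re_to_complex, herm, Matrix.of_apply]
    congr 1
    simp only [aeval_eq_sum_range' (Nat.lt_succ_of_le (dq x (a.1 hx))), ps, Finset.mul_sum,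
      Finset.sum_mul]
    rw [Finset.sum_comm]
    refine Finset.sum_congr rfl fun l _ => Finset.sum_congr rfl fun m _ => ?_
    rw [pow_add (c x m) l, Complex.real_smul, mul_assoc]
  have a5 := h1 α (Fin n) B Δ (e + 51) (fun x => herm (c x) (q x) n)
    (by rwa [Fintype.card_fin]) (fun x _ => by
      ext i j
      simp only [herm, Matrix.transpose_apply, Matrix.of_apply, add_comm (i : ℕ)]) a4
  have a6 : ∀ x ∈ Δ.Y, taq (p x) (q x) =
      ((sig (herm (c x) (q x) n)).1 : ℤ) - (sig (herm (c x) (q x) n)).2 := fun x hx => by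
    rw [← h2 (Fin k) (c x) _ (q x) n (hc x hx) (by rwa [Fintype.card_fin]), taq, taq,
      roots_C_mul _ (inv_ne_zero (l0 x hx))]
  exact a5.imp fun x hx y hy b => by rw [a6 x hx, a6 y hy, b]

end Pool.Agent.Lib.MP_837412_lc
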