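import Pool.Agent.Lib.MP_837412_lc.StT

/-!
Joins of fibres over a finite open cover, and a scaling deformation.
-/

namespace Pool.Agent.Lib.MP_837412_lc

open Pool.Agent.Shared.Mod2 Set Function Topology

namespace JJoin

variable {Y Z ι : Type} [TopologicalSpace Y] [NormedAddCommGroup Z] [NormedSpace ℝ Z]

/-- The points whose `i`-th coordinate lies in `W`. -/
def Aw (W : Set (Y × Z)) (i : ι) : Set (Y × (ι → Z)) := {q | (q.1, q.2 i) ∈ W}

omit [NormedSpace ℝ Z] in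
lemma isOpen_Aw {W : Set (Y × Z)} (hW : IsOpen W) (i : ι) : IsOpen (Aw W i) :=
  hW.preimage (f := fun q : Y × (ι → Z) => (q.1, q.2 i)) (by fun_prop)

lemma lemA [DecidableEq ι] {W : Set (Y × Z)} (hW : IsOpen W) (z : Z) (s : Finset ι) :
    ∀ X : Set (Y × (ι → Z)), IsOpen X → (∀ q ∈ X, (q.1, z) ∈ W) →
      (∀ q ∈ X, ∀ i ∈ s, ∀ v, (q.1, update q.2 i v) ∈ X) →
      ∀ j ≤ s.card, hs X (X ∩ ⋃ i ∈ s, Aw W i) j = 0 := by
  induction s using Finset.induction_on with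
  | empty =>
    intro X _ _ _ j hj
    obtain rfl : j = 0 := by simpa using hj
    exact hs_zero _ _
  | insert a s ha ih =>
    intro X hX hz hu j hj
    have oA : IsOpen (⋃ i ∈ s, Aw W i : Set (Y × (ι → Z))) :=
      isOpen_biUnion fun i _ => isOpen_Aw hW i
    have e : X ∩ ⋃ i ∈ insert a s, Aw W i = X ∩ Aw W a ∪ X ∩ ⋃ i ∈ s, Aw W i := by
      rw [Finset.set_biUnion_insert, inter_union_distrib_left]
    rw [e]
    have h1 : hs (X ∩ Aw W a ∪ X ∩ ⋃ i ∈ s, Aw W i) (X ∩ ⋃ i ∈ s, Aw W i) (j - 1) = 0 := by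
      rw [exc (hX.inter (isOpen_Aw hW a)) (hX.inter oA)]
      have e2 : X ∩ Aw W a ∩ (X ∩ ⋃ i ∈ s, Aw W i) = X ∩ Aw W a ∩ ⋃ i ∈ s, Aw W i := by
        ext q; simp only [mem_inter_iff]; tauto
      rw [e2]
      refine ih _ (hX.inter (isOpen_Aw hW a)) (fun q hq => hz q hq.1) ?_ _ ?_
      · intro q hq i hi v
        refine ⟨hu q hq.1 i (Finset.mem_insert_of_mem hi) v, ?_⟩
        have hne : a ≠ i := fun h => ha (h ▸ hi)
        have := hq.2
        simp only [Aw, mem_ofPred_eq] at this ⊢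
        rwa [update_of_ne hne]
      · rw [Finset.card_insert_of_notMem ha] at hj; omega
    refine hh_eq_zero.2 ((onto_right subset_union_right
      (union_subset inter_subset_left inter_subset_left) h1).trans (sup_le ?_ le_rfl))
    refine wd3 (fun K _ hK => ?_) j
    refine ⟨⟨fun p => (p.2.1, update p.2.2 a ((1 - (p.1 : ℝ)) • p.2.2 a + (p.1 : ℝ) • z)), ?_⟩,
      ?_, ?_, ?_, ?_⟩
    · refine Continuous.prodMk (by fun_prop) (Continuous.update (by fun_prop) a (by fun_prop))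
    · intro y; simp
    · intro t y hy
      exact hu y (hK hy) a (Finset.mem_insert_self _ _) _
    · intro t y hy hB
      refine Or.inr ⟨hu y (hK hy) a (Finset.mem_insert_self _ _) _, ?_⟩
      obtain ⟨i, hi, hq⟩ := mem_iUnion₂.1 hB.2
      refine mem_iUnion₂.2 ⟨i, hi, ?_⟩
      have hne : i ≠ a := fun h => ha (h ▸ hi)
      simp only [Aw, mem_ofPred_eq, ContinuousMap.coe_mk] at hq ⊢
      rwa [update_of_ne hne]
    · intro y hy
      refine Or.inl ⟨hu y (hK hy) a (Finset.mem_insert_self _ _) _, ?_⟩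
      simpa [Aw] using hz y (hK hy)

lemma lemA' [Fintype ι] {W : Set (Y × Z)} (hW : IsOpen W) (z : Z) {V : Set Y} (hV : IsOpen V)
    (hz : ∀ y ∈ V, (y, z) ∈ W) (j : ℕ) (hj : j ≤ Fintype.card ι) :
    hs (Prod.fst ⁻¹' V : Set (Y × (ι → Z))) (Prod.fst ⁻¹' V ∩ ⋃ i, Aw W i) j = 0 := by
  classical
  have := lemA hW z (Finset.univ : Finset ι) (Prod.fst ⁻¹' V) (hV.preimage continuous_fst)
    (fun q hq => hz _ hq) (fun q hq _ _ _ => hq) j hj
  simpa using this

lemma lemB [Fintype ι] {κ : Type} {U : κ → Set Y} {W : Set (Y × Z)} (hU : ∀ a, IsOpen (U a))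
    (hW : IsOpen W) (hz : ∀ a, ∃ z, ∀ y ∈ U a, (y, z) ∈ W) (s : Finset κ) :
    ∀ V : Set Y, IsOpen V → V ⊆ ⋃ a ∈ s, U a → ∀ j ≤ Fintype.card ι,
      hs (Prod.fst ⁻¹' V : Set (Y × (ι → Z))) (Prod.fst ⁻¹' V ∩ ⋃ i, Aw W i) j = 0 := by
  classical
  induction s using Finset.induction_on with
  | empty =>
    intro V _ hV j _
    obtain rfl : V = ∅ := by simpa using hV
    simpa using Ac.refl (∅ : Set (Y × (ι → Z))) j
  | insert a s _ ih =>
    intro V oV hV j hj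
    obtain ⟨z, hz'⟩ := hz a
    have oS : IsOpen (⋃ a ∈ s, U a) := isOpen_biUnion fun a _ => hU a
    have e : V = V ∩ U a ∪ V ∩ ⋃ a ∈ s, U a := by
      rw [← inter_union_distrib_left, ← Finset.set_biUnion_insert, inter_eq_left.2 hV]
    rw [e, preimage_union]
    refine mv_rel ((oV.inter (hU a)).preimage continuous_fst)
      ((oV.inter oS).preimage continuous_fst) (isOpen_iUnion fun i => isOpen_Aw hW i) ?_ ?_ ?_
    · exact lemA' hW z (oV.inter (hU a)) (fun y hy => hz' y hy.2) j hj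
    · exact ih _ (oV.inter oS) inter_subset_right j hj
    · rw [← preimage_inter]
      exact lemA' hW z ((oV.inter (hU a)).inter (oV.inter oS)) (fun y hy => hz' y hy.1.2) _
        (by omega)

lemma prod_eq {E : Type} [NormedAddCommGroup E] [NormedSpace ℝ E] (S : Set Y) (j : ℕ) :
    hs (Prod.fst ⁻¹' S : Set (Y × E)) ∅ j = hs S ∅ j := by
  let φ : C(Y, Y × E) := ⟨fun y => (y, 0), by fun_prop⟩
  have h := hs_image (φ := φ) (isEmbedding_prodMkLeft (0 : E)) S ∅ j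
  rw [image_empty] at h
  rw [← h]
  refine Ac.left (empty_subset _) ?_ (wd fun K _ hK => ?_) j
  · rintro _ ⟨y, hy, rfl⟩; exact hy
  refine ⟨⟨fun p => (p.2.1, (1 - (p.1 : ℝ)) • p.2.2), by fun_prop⟩, ?_, ?_, ?_, ?_⟩
  · intro y; simp
  · intro t y hy; exact (hK hy : y.1 ∈ S)
  · rintro t _ - ⟨y, hy, rfl⟩
    exact ⟨y, hy, by simp [φ]⟩
  · intro y hy
    exact ⟨y.1, hK hy, by simp [φ]⟩

/-- The scaling factor. -/
noncomputable def fac (t T g : ℝ) : ℝ := 1 - t * min 1 (T * max (-g) 0)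

lemma fac_pos (t T : ℝ) {g : ℝ} (hg : 0 ≤ g) : fac t T g = 1 := by
  rw [fac, max_eq_right (by linarith), mul_zero, min_eq_right zero_le_one, mul_zero, sub_zero]

lemma fac_sq {t T : ℝ} (g : ℝ) (h0 : 0 ≤ t) (h1 : t ≤ 1) (hT : 0 ≤ T) : fac t T g ^ 2 ≤ 1 := by
  have a : 0 ≤ min 1 (T * max (-g) 0) := le_min zero_le_one (mul_nonneg hT (le_max_right _ _))
  have b : min 1 (T * max (-g) 0) ≤ 1 := min_le_left _ _
  have c : 0 ≤ t * min 1 (T * max (-g) 0) := mul_nonneg h0 a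
  have d : t * min 1 (T * max (-g) 0) ≤ 1 := mul_le_one₀ h1 a b
  rw [fac]; nlinarith

lemma le_fac {t T : ℝ} (g : ℝ) (h0 : 0 ≤ t) (h1 : t ≤ 1) (hT : 0 ≤ T) :
    g ≤ fac t T g ^ 2 * g := by
  rcases le_total 0 g with h | h
  · rw [fac_pos t T h]; simp
  · nlinarith [fac_sq g h0 h1 hT]

lemma fac_one {T : ℝ} (g : ℝ) (hT : 0 ≤ T) : T * max g 0 - 1 ≤ T * (fac 1 T g ^ 2 * g) := by
  rcases le_total 0 g with h | h
  · rw [fac_pos 1 T h, max_eq_left h]; linarith
  · rw [max_eq_right h, mul_zero]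
    rcases le_total 1 (T * -g) with h' | h'
    · rw [fac, max_eq_left (by linarith), min_eq_left h']; norm_num
    · have := mul_le_mul_of_nonneg_left (le_fac g zero_le_one le_rfl hT) hT
      linarith

end JJoin

open JJoin

theorem joinS : JoinS := by
  intro Y Z ι κ _ _ _ _ _ U W hU hW h1 h2 j hj
  have := Fintype.ofFinite κ
  have key := lemB (ι := ι) hU hW h2 Finset.univ (⋃ a, U a) (isOpen_iUnion hU) (by simp)
  have e : (Prod.fst ⁻¹' (⋃ a, U a) : Set (Y × (ι → Z))) ∩ ⋃ i, Aw W i =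
      {q : Y × (ι → Z) | ∃ i, (q.1, q.2 i) ∈ W} := by
    ext q
    constructor
    · rintro ⟨-, hq⟩
      exact mem_iUnion.1 hq
    · rintro ⟨i, hi⟩
      exact ⟨h1 _ hi, mem_iUnion.2 ⟨i, hi⟩⟩
  rw [← e, ← prod_eq (E := ι → Z) (⋃ a, U a)]
  exact (hs_left (empty_subset _) inter_subset_left (key j hj.le) (key (j + 1) hj)).symm

theorem scaleS : ScaleS := by
  intro Y ι _ _ g hg
  refine wd fun K hK hA => ?_
  let c : Y × (ι → ℝ × ℝ) → ℝ := fun q => ∑ i, (q.2 i).2 ^ 2 * max (g (q.1, (q.2 i).1)) 0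
  let M : Y × (ι → ℝ × ℝ) → ℝ := fun q => ∑ i, (q.2 i).2 ^ 2
  have cc : Continuous c := by fun_prop
  have cM : Continuous M := by fun_prop
  have cp : ∀ q ∈ K, 0 < c q := fun q hq => by
    obtain ⟨i, hi⟩ := hA hq
    refine Finset.sum_pos' (fun i _ => mul_nonneg (sq_nonneg _) (le_max_right _ _))
      ⟨i, Finset.mem_univ _, hi.trans_le ?_⟩
    exact mul_le_mul_of_nonneg_left (le_max_left _ _) (sq_nonneg _)
  obtain ⟨b, hb⟩ := hK.bddAbove_image (f := fun q => M q / c q)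
    (cM.continuousOn.div cc.continuousOn fun q hq => (cp q hq).ne')
  have hT : (0 : ℝ) ≤ max b 0 + 1 := by positivity
  have hM : ∀ q ∈ K, M q < (max b 0 + 1) * c q := fun q hq => by
    have h1 : M q / c q ≤ b := hb ⟨q, hq, rfl⟩
    rw [← div_lt_iff₀ (cp q hq)]
    linarith [le_max_left b 0]
  generalize max b 0 + 1 = T at hT hM
  refine ⟨⟨fun p => (p.2.1, fun i => ((p.2.2 i).1,
    fac p.1 T (g (p.2.1, (p.2.2 i).1)) * (p.2.2 i).2)), ?_⟩, ?_, ?_, ?_, ?_⟩
  · unfold fac; fun_prop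
  · intro y; simp [fac]
  · intro t y hy
    obtain ⟨i, hi⟩ := hA hy
    refine ⟨i, ?_⟩
    have : 0 < g (y.1, (y.2 i).1) := pos_of_mul_pos_right hi (sq_nonneg _)
    simp only [ContinuousMap.coe_mk]
    rwa [fac_pos _ _ this.le, one_mul]
  · intro t y _ hB
    refine lt_of_lt_of_le (show 0 < ∑ i, (y.2 i).2 ^ 2 * g (y.1, (y.2 i).1) from hB)
      (Finset.sum_le_sum fun i _ => ?_)
    simp only [ContinuousMap.coe_mk]
    have := mul_le_mul_of_nonneg_left (le_fac (g (y.1, (y.2 i).1)) t.2.1 t.2.2 hT)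
      (sq_nonneg (y.2 i).2)
    nlinarith
  · intro y hy
    have h1 : T * c y - M y ≤ T * ∑ i, (fac 1 T (g (y.1, (y.2 i).1)) * (y.2 i).2) ^ 2 *
        g (y.1, (y.2 i).1) := by
      simp only [c, M, Finset.mul_sum, ← Finset.sum_sub_distrib]
      refine Finset.sum_le_sum fun i _ => ?_
      have := mul_le_mul_of_nonneg_left (fac_one (g (y.1, (y.2 i).1)) hT) (sq_nonneg (y.2 i).2)
      nlinarith
    have h2 := hM y hy
    exact pos_of_mul_pos_right ((sub_pos.2 h2).trans_le h1) hT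

end Pool.Agent.Lib.MP_837412_lc
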