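import Pool.Agent.Lib.MP_837412_lc.StA
import Pool.Agent.Lib.MP_837412_lc.Once

/-!
The candidates for the critical values depend polynomially on the parameter of the pencil, and the
bound for the number of strict sign conditions.
-/

namespace Pool.Agent.Lib.MP_837412_lc

open Set Function Filter Topology MvPolynomial

namespace JLamP

variable {σ : Type}

/-- Families of polynomials that are affine in the parameter. -/
def Fam (q : ℂ → MvPolynomial σ ℂ) : Prop := ∃ a b : MvPolynomial σ ℂ, ∀ l, q l = a + C l * b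

lemma Fam.sum {q : ℂ → MvPolynomial σ ℂ} (hq : Fam q) {n : ℕ} {f : (σ →₀ ℕ) → ℂ → ℂ}
    (hf : ∀ g, IsP id n (f g)) :
    IsP id (n + 1) fun l => ∑ g ∈ (q l).support, coeff g (q l) * f g l := by
  classical
  obtain ⟨a, b, h⟩ := hq
  have e : ∀ g l, coeff g (q l) = coeff g a + coeff g b * l := fun g l => by
    rw [h, coeff_add, coeff_C_mul, mul_comm]
  refine (IsP.sum (a.support ∪ b.support)
    (f := fun g l => (coeff g a + coeff g b * l) * f g l) fun g _ => ?_).congr fun l => ?_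
  · rw [add_comm n 1]
    exact ((IsP.const _).add (IsP.self.const_mul _)).mul (hf g)
  · simp only [← e]
    refine Finset.sum_subset (fun g hg => ?_) fun g _ hg => ?_
    · by_contra hc
      rw [Finset.mem_union, not_or, notMem_support_iff, notMem_support_iff] at hc
      exact mem_support_iff.1 hg (by rw [e, hc.1, hc.2, zero_mul, add_zero])
    · rw [notMem_support_iff.1 hg, zero_mul]

variable [Fintype σ]

lemma isP_NF (m : ℕ) {q : ℂ → σ → MvPolynomial σ ℂ} (hq : ∀ i, Fam fun l => q l i) (n : ℕ) :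
    ∀ β a, IsP id n fun l => NF m (q l) n β a := by
  induction n with
  | zero => intro β a; simp only [NF]; exact IsP.const _
  | succ n ih =>
    intro β a
    by_cases h : ∃ i, m ≤ β i
    · simp only [NF, dif_pos h]
      exact (hq (pk h)).sum fun g => ih _ a
    · simp only [NF, dif_neg h]
      exact IsP.const _

lemma fam_qq (m : ℕ) (p : MvPolynomial σ ℂ) (i : σ) : Fam fun l => qq m p l i :=
  ⟨C ((bb i ^ m : ℕ) : ℂ), C (((m + 1 : ℕ) : ℂ)⁻¹) * pderiv i p, fun l => by
    simp only [qq]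
    rw [← mul_assoc, ← C_mul, div_eq_mul_inv]⟩

lemma fam_Fl (m : ℕ) (p : MvPolynomial σ ℂ) : Fam fun l => Fl m p l :=
  ⟨F0 σ ℂ m, -p, fun l => by simp only [Fl, mul_neg, sub_eq_add_neg]⟩

lemma isP_pow {ι : Type} [Fintype ι] [DecidableEq ι] {M : ℂ → Matrix ι ι ℂ} {d : ℕ}
    (h : ∀ a b, IsP id d fun l => M l a b) (j : ℕ) :
    ∀ a b, IsP id (j * d) fun l => (M l ^ j) a b := by
  induction j with
  | zero => intro a b; simp only [pow_zero]; exact IsP.const _
  | succ j ih =>
    intro a b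
    simp only [pow_succ, Matrix.mul_apply, add_mul, one_mul]
    exact IsP.sum _ fun c _ => (ih a c).mul (h c b)

lemma crit_of_min {G : MvPolynomial σ ℝ} {z : σ → ℝ} (h : IsLocalMin (fun y => eval y G) z) :
    Crit (cx' G) fun i => (z i : ℂ) := fun i => by
  classical
  have e := h.hasFDerivAt_eq_zero (hasStrictFDerivAt_eval G z).hasFDerivAt
  have e2 : eval z (pderiv i G) = 0 := by
    have := dif_apply G z (Pi.single i 1)
    rw [e] at this
    simpa [Pi.single_apply] using this.symm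
  rw [pderiv_cx, eval_cx, e2, Complex.ofReal_zero]

lemma sign_iff {s : SignType} (hs : s ≠ 0) (x : ℝ) : SignType.sign x = s ↔ 0 < (s : ℝ) * x := by
  rcases s with _ | _ | _
  · exact absurd rfl hs
  · simp [sign_eq_neg_one_iff]
  · simp [sign_eq_one_iff]

lemma cast_ne {s : SignType} (hs : s ≠ 0) : (s : ℝ) ≠ 0 := by
  rcases s with _ | _ | _
  · exact absurd rfl hs
  · simp
  · simp

omit [Fintype σ] in
lemma exists_min {τ : Type} [Fintype τ] (p : τ → MvPolynomial σ ℝ) {π : τ → SignType}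
    (hπ : ∀ j, π j ≠ 0) {G : MvPolynomial σ ℝ} (hK : IsCompact {y | eval y G ≤ 0})
    (hG : ∀ y, eval y G < 0 → ∀ j, eval y (p j) ≠ 0) {y : σ → ℝ} (hy : y ∈ cell p π)
    (hy' : eval y G < 0) : ∃ z ∈ cell p π, IsLocalMin (fun y => eval y G) z := by
  have c : ∀ j, Continuous fun y : σ → ℝ => (π j : ℝ) * eval y (p j) := fun j =>
    continuous_const.mul (MvPolynomial.continuous_eval _)
  have cl : IsClosed {y : σ → ℝ | ∀ j, 0 ≤ (π j : ℝ) * eval y (p j)} := by
    rw [ofPred_forall]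
    exact isClosed_iInter fun j => isClosed_le continuous_const (c j)
  have hy2 : y ∈ {y | eval y G ≤ 0} ∩ {y : σ → ℝ | ∀ j, 0 ≤ (π j : ℝ) * eval y (p j)} :=
    ⟨hy'.le, fun j => ((sign_iff (hπ j) _).1 (hy j)).le⟩
  obtain ⟨z, hz, hm⟩ := (hK.inter_right cl).exists_isMinOn ⟨y, hy2⟩
    (MvPolynomial.continuous_eval G).continuousOn
  have z0 : eval z G < 0 := lt_of_le_of_lt (hm hy2) hy'
  have z1 : ∀ j, 0 < (π j : ℝ) * eval z (p j) := fun j =>
    lt_of_le_of_ne (hz.2 j) (mul_ne_zero (cast_ne (hπ j)) (hG z z0 j)).symm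
  refine ⟨z, fun j => (sign_iff (hπ j) _).2 (z1 j), hm.isLocalMin (inter_mem ?_ ?_)⟩
  · exact mem_of_superset ((isOpen_lt (MvPolynomial.continuous_eval G) continuous_const).mem_nhds z0)
      fun w (hw : eval w G < 0) => (le_of_lt hw : eval w G ≤ 0)
  · exact (eventually_all.2 fun j =>
      (isOpen_lt continuous_const (c j)).mem_nhds (z1 j)).mono fun w hw j => le_of_lt (hw j)

end JLamP

open JLamP

theorem lamP (h : TrS) : LamP := by
  intro σ _ _ m p j
  refine (IsP.sum Finset.univ fun a _ => isP_pow (d := Kf σ m + 1)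
    (M := fun l => MM m (qq m p l) (Fl m p l)) (fun a b => ?_) j a a).congr fun l => h _ _ j
  exact (fam_Fl m p).sum fun g => isP_NF m (fam_qq m p) _ _ _

theorem countS (h1 : QvS) (h2 : CritS) (h3 : ZeroS) (h4 : GrowS) (h5 : LamP) : CountS := by
  classical
  intro σ τ _ _ d p hp
  set m := 2 * Fintype.card τ * d + 3 with hm
  set S := {π : τ → SignType | (∀ j, π j ≠ 0) ∧ (cell p π).Nonempty}
  obtain ⟨p0, hp0⟩ : ∃ p0 : MvPolynomial σ ℝ, p0 = ∏ j, p j ^ 2 := ⟨_, rfl⟩
  have ev : ∀ y, eval y p0 = ∏ j, eval y (p j) ^ 2 := fun y => by simp [hp0]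
  have dg : p0.totalDegree < m := by
    have : p0.totalDegree ≤ ∑ _j : τ, 2 * d := hp0 ▸ (totalDegree_finsetProd _ _).trans
      (Finset.sum_le_sum fun j _ => (totalDegree_pow _ _).trans (Nat.mul_le_mul_left 2 (hp j)))
    rw [Finset.sum_const, Finset.card_univ, smul_eq_mul] at this
    have e : Fintype.card τ * (2 * d) = 2 * Fintype.card τ * d := by ring
    omega
  have dc : (cx' p0).totalDegree < m :=
    lt_of_le_of_lt (Finset.sup_mono (support_map_subset _ _)) dg
  have m2 : 2 ≤ m := by omega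
  have mo : Odd m := ⟨Fintype.card τ * d + 1, by rw [hm]; ring⟩
  obtain ⟨g0, g1⟩ := h4 σ m p0 mo dg
  have L := h5 σ m (cx' p0)
  obtain ⟨Q, -, hQ⟩ := (L.elim (L.padd (L.smul (-1)))).coeff_chi (Fintype.card (Std σ m))
  have hQ' : ∀ l, Qv (Lam m (cx' p0) l) = Q.eval l := hQ
  have Q0 : Q ≠ 0 := by
    rintro rfl
    exact (h3 σ m (cx' p0) m2 dc).2 (by rw [hQ', Polynomial.eval_zero])
  have E1 : ∀ᶠ l : ℝ in atTop, Q.eval (l : ℂ) ≠ 0 :=
    atTop_le_cofinite (((Polynomial.finite_setOfPred_isRoot Q0).preimage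
      Complex.ofReal_injective.injOn).eventually_cofinite_notMem)
  have E2 : ∀ᶠ l : ℝ in atTop, ∀ π ∈ S, ∃ y ∈ cell p π, eval y (Fl m p0 l) < 0 := by
    refine (eventually_all_finite (toFinite S)).2 fun π hπ => ?_
    obtain ⟨y, hy⟩ := hπ.2
    have pos : 0 < eval y p0 := ev y ▸ Finset.prod_pos fun j _ => by
      have : eval y (p j) ≠ 0 := fun e => hπ.1 j (by rw [← hy j, e, sign_zero])
      positivity
    refine (eventually_gt_atTop (eval y (F0 σ ℝ m) / eval y p0)).mono fun l hl => ⟨y, hy, ?_⟩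
    rw [eval_Fl, sub_neg]
    exact (div_lt_iff₀ pos).1 hl
  obtain ⟨l, l1, l2⟩ := (E1.and E2).exists
  have inj : Injective (Lam m (cx' p0) l) := ((h1 _ _).1 (hQ' l ▸ l1)).1
  have key : ∀ π ∈ S, ∃ z ∈ cell p π, Crit (Fl m (cx' p0) l) fun i => (z i : ℂ) := by
    intro π hπ
    obtain ⟨y, hy, hy'⟩ := l2 π hπ
    have nz : ∀ w, eval w (Fl m p0 l) < 0 → ∀ j, eval w (p j) ≠ 0 := fun w hw j e => by
      rw [eval_Fl, ev, Finset.prod_eq_zero (Finset.mem_univ j) (by rw [e]; ring), mul_zero,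
        sub_zero] at hw
      exact lt_asymm hw (g0 w)
    obtain ⟨z, hz, hz'⟩ := exists_min p hπ.1 (g1 l 0) nz hy hy'
    exact ⟨z, hz, cx_Fl m p0 l ▸ crit_of_min hz'⟩
  choose! z hz hc using key
  have val : ∀ π ∈ S, ∃ a, Lam m (cx' p0) l a = eval (fun i => (z π i : ℂ)) (Fl m (cx' p0) l) :=
    fun π hπ => (h2 σ m (cx' p0) l m2 dc _ (hc π hπ)).1
  have : Nonempty (Std σ m) := ⟨fun _ => ⟨0, by omega⟩⟩
  choose! a ha using val
  have le := ncard_le_ncard_of_injOn (t := univ) a (fun _ _ => mem_univ _) fun π hπ π' hπ' e => by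
    have e1 := ((h2 σ m (cx' p0) l m2 dc _ (hc π hπ)).2 inj).2 _ (hc π' hπ')
      (by rw [← ha π hπ, ← ha π' hπ', e])
    have e2 : z π' = z π := funext fun i => Complex.ofReal_injective (congrFun e1 i)
    exact funext fun j => by rw [← hz π hπ j, ← hz π' hπ' j, e2]
  simpa [ncard_univ] using le

end Pool.Agent.Lib.MP_837412_lc
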