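import Pool.Agent.Lib.MP_837412_lc.StT

/-!
Passing a nondegenerate critical point attaches one cell.
-/

namespace Pool.Agent.Lib.MP_837412_lc

open Pool.Agent.Shared.Mod2 Set Function Filter Topology Metric

set_option maxHeartbeats 400000

namespace JMBox

variable {N P : Type} [NormedAddCommGroup N] [NormedAddCommGroup P] [NormedSpace ℝ P]

/-- The vertical deformation. -/
lemma ac_vert {X X' : Set (N × P)}
    (h1 : ∀ x y, (x, y) ∈ X → ∀ s ∈ Icc (0 : ℝ) 1, (x, s • y) ∈ X)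
    (h2 : ∀ x y, (x, y) ∈ X' → ∀ s ∈ Icc (0 : ℝ) 1, (x, s • y) ∈ X')
    (h3 : ∀ x y, (x, y) ∈ X → (x, (0 : P)) ∈ X') : Ac X X' := by
  have m : ∀ t : I, 1 - (t : ℝ) ∈ Icc (0 : ℝ) 1 := fun t =>
    ⟨sub_nonneg.2 t.2.2, sub_le_self _ t.2.1⟩
  refine wd fun K _ hK => ⟨⟨fun q => (q.2.1, (1 - (q.1 : ℝ)) • q.2.2), by fun_prop⟩,
    fun y => by simp, fun t y hy => h1 y.1 y.2 (hK hy) _ (m t),
    fun t y _ hy => h2 y.1 y.2 hy _ (m t), fun y hy => ?_⟩
  simpa using h3 y.1 y.2 (hK hy)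

lemma mem_ball_iff {x : N} {y : P} {ρ : ℝ} : (x, y) ∈ ball (0 : N × P) ρ ↔ ‖x‖ < ρ ∧ ‖y‖ < ρ := by
  rw [mem_ball_zero_iff, Prod.norm_def, max_lt_iff]

lemma smul_lt {y : P} {ρ s : ℝ} (h : ‖y‖ < ρ) (hs : s ∈ Icc (0 : ℝ) 1) : ‖s • y‖ < ρ := by
  rw [norm_smul, Real.norm_of_nonneg hs.1]
  exact (mul_le_of_le_one_left (norm_nonneg y) hs.2).trans_lt h

variable {f : N × P → ℝ} {r ρ ε : ℝ}

lemma base_le (h : Sad f r) {x : N} (hx : ‖x‖ < r) : f (x, 0) ≤ f 0 := by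
  rcases eq_or_ne x 0 with rfl | h0
  · exact le_rfl
  · exact (h.neg x hx h0).le

lemma vert_A (h : Sad f r) (hρ : ρ ≤ r) (hε : 0 < ε) (x : N) (y : P)
    (hxy : (x, y) ∈ ball (0 : N × P) ρ ∩ {y | f y < f 0 + ε}) (s : ℝ) (hs : s ∈ Icc (0 : ℝ) 1) :
    (x, s • y) ∈ ball (0 : N × P) ρ ∩ {y | f y < f 0 + ε} := by
  obtain ⟨a, b⟩ := mem_ball_iff.1 hxy.1
  refine ⟨mem_ball_iff.2 ⟨a, smul_lt b hs⟩,
    (h.cvx x y (a.trans_le hρ) (b.trans_le hρ) s hs).trans_lt (max_lt ?_ hxy.2)⟩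
  exact (base_le h (a.trans_le hρ)).trans_lt (lt_add_of_pos_right _ hε)

lemma ne_zero_of (h : Sad f r) (hρ : ρ ≤ r) {x : N} {y : P}
    (hxy : (x, y) ∈ ball (0 : N × P) ρ ∩ {y | f y < f 0}) : x ≠ 0 := by
  rintro rfl
  exact (h.nng y ((mem_ball_iff.1 hxy.1).2.trans_le hρ)).not_gt hxy.2

lemma vert_Y (h : Sad f r) (hρ : ρ ≤ r) (x : N) (y : P)
    (hxy : (x, y) ∈ ball (0 : N × P) ρ ∩ {y | f y < f 0}) (s : ℝ) (hs : s ∈ Icc (0 : ℝ) 1) :
    (x, s • y) ∈ ball (0 : N × P) ρ ∩ {y | f y < f 0} := by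
  obtain ⟨a, b⟩ := mem_ball_iff.1 hxy.1
  exact ⟨mem_ball_iff.2 ⟨a, smul_lt b hs⟩,
    (h.cvx x y (a.trans_le hρ) (b.trans_le hρ) s hs).trans_lt
      (max_lt (h.neg x (a.trans_le hρ) (ne_zero_of h hρ hxy)) hxy.2)⟩

lemma mem_inl {X : Set N} {x : N} {y : P} :
    (x, y) ∈ (fun x : N => (x, (0 : P))) '' X ↔ x ∈ X ∧ y = 0 :=
  ⟨fun ⟨_, a, b⟩ => ⟨(Prod.mk.inj b).1 ▸ a, (Prod.mk.inj b).2.symm⟩,
    fun ⟨a, b⟩ => ⟨x, a, by rw [b]⟩⟩

end JMBox

open JMBox

theorem mboxS : MBoxS := by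
  intro N P _ _ _ _ _ f r r' ε hf h hr' hrr hε
  have oY : IsOpen {y | f y < f 0} := isOpen_lt hf continuous_const
  have oA : IsOpen {y | f y < f 0 + ε} := isOpen_lt hf continuous_const
  have YA : {y | f y < f 0} ⊆ {y | f y < f 0 + ε} := fun y hy =>
    lt_trans hy (lt_add_of_pos_right _ hε)
  constructor
  · intro k
    have e1 : ball (0 : N × P) r' ∩ {y | f y < f 0 + ε} ∩ {y | f y < f 0} =
        ball (0 : N × P) r' ∩ {y | f y < f 0} := by
      rw [inter_assoc, inter_eq_right.2 YA]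
    have s1 : (fun x : N => (x, (0 : P))) '' (ball 0 r' ∩ {0}ᶜ) ⊆
        ball (0 : N × P) r' ∩ {y | f y < f 0} := by
      rintro _ ⟨x, ⟨a, b⟩, rfl⟩
      have a' := mem_ball_zero_iff.1 a
      exact ⟨mem_ball_iff.2 ⟨a', by simpa using hr'⟩, h.neg x (a'.trans_le hrr) b⟩
    have s2 : (fun x : N => (x, (0 : P))) '' ball 0 r' ⊆
        ball (0 : N × P) r' ∩ {y | f y < f 0 + ε} := by
      rintro _ ⟨x, a, rfl⟩
      have a' := mem_ball_zero_iff.1 a
      exact ⟨mem_ball_iff.2 ⟨a', by simpa using hr'⟩,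
        (base_le h (a'.trans_le hrr)).trans_lt (lt_add_of_pos_right _ hε)⟩
    have a1 : Ac (ball (0 : N × P) r' ∩ {y | f y < f 0})
        ((fun x : N => (x, (0 : P))) '' (ball 0 r' ∩ {0}ᶜ)) :=
      ac_vert (vert_Y h hrr) (fun x y a s _ => by
        obtain ⟨b, rfl⟩ := mem_inl.1 a
        exact mem_inl.2 ⟨b, smul_zero s⟩) fun x y a =>
        mem_inl.2 ⟨⟨mem_ball_zero_iff.2 (mem_ball_iff.1 a.1).1, ne_zero_of h hrr a⟩, rfl⟩
    have a2 : Ac (ball (0 : N × P) r' ∩ {y | f y < f 0 + ε})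
        ((fun x : N => (x, (0 : P))) '' ball 0 r') :=
      ac_vert (vert_A h hrr hε) (fun x y a s _ => by
        obtain ⟨b, rfl⟩ := mem_inl.1 a
        exact mem_inl.2 ⟨b, smul_zero s⟩) fun x y a =>
        mem_inl.2 ⟨mem_ball_zero_iff.2 (mem_ball_iff.1 a.1).1, rfl⟩
    have e2 := hs_image (φ := (⟨fun x : N => (x, (0 : P)), by fun_prop⟩ : C(N, N × P)))
      (isEmbedding_prodMkLeft (0 : P)) (ball 0 r') (ball 0 r' ∩ {0}ᶜ) k
    have e3 : ball (0 : N) r' ∪ {0}ᶜ = univ := eq_univ_of_forall fun x => by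
      rcases eq_or_ne x 0 with rfl | h0
      · exact Or.inl (mem_ball_self hr')
      · exact Or.inr h0
    rw [union_comm, exc (isOpen_ball.inter oA) oY, e1,
      ← a1.right s1 (inter_subset_inter_right _ YA),
      a2.left (image_mono inter_subset_left) s2]
    refine e2.trans ?_
    rw [← exc isOpen_ball isOpen_compl_singleton, e3]
    exact cell_punct k
  · intro k
    have e1 : {y | f y < f 0} ∪ ball (0 : N × P) r ∩ {y | f y < f 0 + ε} =
        ball (0 : N × P) r ∩ {y | f y < f 0 + ε} ∪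
          ({y | f y < f 0} ∪ ball (0 : N × P) r' ∩ {y | f y < f 0 + ε}) := by
      rw [union_left_comm, union_eq_left.2 (inter_subset_inter_left _ (ball_subset_ball hrr))]
    rw [e1, exc (isOpen_ball.inter oA) (oY.union (isOpen_ball.inter oA))]
    refine ac_vert (vert_A h le_rfl hε)
      (fun x y a s hs => mem_inter (vert_A h le_rfl hε x y a.1 s hs) ?_) (fun x y a =>
        mem_inter (by simpa only [zero_smul] using vert_A h le_rfl hε x y a 0 ⟨le_rfl, zero_le_one⟩)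
          ?_) k
    · exact a.2.imp (fun b => (vert_Y h le_rfl x y ⟨a.1.1, b⟩ s hs).2)
        fun b => vert_A h hrr hε x y b s hs
    · rcases eq_or_ne x 0 with rfl | h0
      · exact Or.inr ⟨mem_ball_self hr', lt_add_of_pos_right _ hε⟩
      · exact Or.inl (h.neg x (mem_ball_iff.1 a.1).1 h0)

theorem mc0 (h1 : HLS) (h2 : PGS) (h3 : AcS) (h4 : MBoxS) : MC0 := by
  intro N P _ _ _ _ _ _ f r a b hf h ha hb hκ
  have hc := hf.continuous
  have r0 := h.pos
  obtain ⟨κ, κ0, hk⟩ := hκ (ball 0 (r / 2)) (ball_mem_nhds _ (by positivity))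
  obtain ⟨γ, n, M, hG, hn⟩ := h2 _ f hf
  obtain ⟨ε, ε0, ε1, ε2⟩ : ∃ ε > 0, f 0 + ε ≤ b ∧ 2 * (ε * √(M / κ ^ 2)) ≤ r / 2 := by
    have q0 : 0 ≤ √(M / κ ^ 2) := Real.sqrt_nonneg _
    refine ⟨min (b - f 0) (r / (4 * (√(M / κ ^ 2) + 1))), lt_min (sub_pos.2 hb) (by positivity),
      le_sub_iff_add_le'.1 (min_le_left _ _), ?_⟩
    have q1 := (le_div_iff₀ (by positivity)).1
      (min_le_right (b - f 0) (r / (4 * (√(M / κ ^ 2) + 1))))
    have q2 : 0 < min (b - f 0) (r / (4 * (√(M / κ ^ 2) + 1))) :=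
      lt_min (sub_pos.2 hb) (by positivity)
    nlinarith
  obtain ⟨H, s, H0, Hf, Hs, HT, Hd⟩ := h1 _ ℝ f γ n (-1) M ε (κ ^ 2) hG ε0.le (by positivity)
  obtain ⟨c1, c2⟩ := h4 N P f r (r / 2) ε hc h (by positivity) (by linarith) ε0
  have q0 : 0 ≤ ε * √(M / κ ^ 2) := by positivity
  have Hf' : ∀ t x, f (H (t, x)) = f x - s t x := fun t x => by
    rw [Hf, smul_eq_mul]; ring
  have Hm : ∀ t t' x, t ≤ t' → f (H (t', x)) ≤ f (H (t, x)) := fun t t' x e => by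
    rw [Hf', Hf']; exact sub_le_sub_left ((Hs x).2.1 e) _
  have Hm0 : ∀ t x, f (H (t, x)) ≤ f x := fun t x => by
    have := Hm 0 t x t.2.1
    rwa [H0] at this
  have YA : {y | f y < f 0} ⊆ {y | f y < f 0 + ε} := fun y hy =>
    lt_trans hy (lt_add_of_pos_right _ ε0)
  have s0 : {y | f y < a} ⊆ {y | f y < f 0} := fun y hy => lt_trans hy ha
  have s1 : {y | f y < f 0} ∪ ball (0 : N × P) (r / 2) ∩ {y | f y < f 0 + ε} ⊆
      {y | f y < f 0} ∪ ball (0 : N × P) r ∩ {y | f y < f 0 + ε} :=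
    union_subset_union_right _ (inter_subset_inter_left _ (ball_subset_ball (by linarith)))
  have s2 : {y | f y < f 0} ∪ ball (0 : N × P) r ∩ {y | f y < f 0 + ε} ⊆ {y | f y < f 0 + ε} :=
    union_subset YA inter_subset_right
  have s3 : {y | f y < f 0 + ε} ⊆ {y | f y < b} := fun y hy => lt_of_lt_of_le hy ε1
  have a1 : Ac {y | f y < f 0 + ε}
      ({y | f y < f 0} ∪ ball (0 : N × P) (r / 2) ∩ {y | f y < f 0 + ε}) := fun k => by
    refine hh_eq_zero.2 fun z hz => into_right s1 s2 (c2 k) ⟨hz, wd3 (fun K _ hK => ⟨H, H0,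
      fun t y hy => (Hm0 t y).trans_lt (hK hy), fun t y hy hy' => ?_, fun y hy => ?_⟩) k hz⟩
    · refine hy'.imp (fun e => (Hm0 t y).trans_lt e) fun e => ⟨?_, (Hm0 t y).trans_lt e.2⟩
      have b1 := mem_ball_zero_iff.1 e.1
      have b2 := norm_le_norm_add_norm_sub' (H (t, y)) y
      have b3 := Hd t y
      rw [mem_ball_zero_iff]
      linarith
    · have hy' : f y < f 0 + ε := hK hy
      by_cases e : ∀ t, κ ^ 2 ≤ n (H (t, y))
      · left
        change f (H (1, y)) < f 0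
        rw [Hf', HT y e]
        linarith
      · obtain ⟨t, ht⟩ := not_forall.1 e
        have b0 : ¬ κ ≤ ‖fderiv ℝ f (H (t, y))‖ := fun e =>
          ht ((pow_le_pow_left₀ κ0.le e 2).trans (hn _))
        by_cases e1 : H (t, y) ∈ ball (0 : N × P) (r / 2)
        · refine Or.inr ⟨?_, (Hm0 1 y).trans_lt hy'⟩
          have b1 := mem_ball_zero_iff.1 e1
          have b2 := norm_le_norm_add_norm_sub' (H (1, y)) y
          have b3 := Hd t y
          have b4 := Hd 1 y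
          have b5 := norm_le_norm_add_norm_sub (H (t, y)) y
          rw [mem_ball_zero_iff]
          linarith
        · left
          have b1 : f (H (t, y)) < a := by
            by_contra b1
            exact b0 (hk _ ⟨not_lt.1 b1, ((Hm0 t y).trans hy'.le).trans ε1⟩ e1)
          exact ((Hm t 1 y t.2.2).trans_lt b1).trans ha
  have a2 : Ac {y | f y < b} {y | f y < f 0 + ε} := by
    have := h3 _ f (f 0 + ε) b univ ∅ hf ε1 isOpen_univ isOpen_empty (disjoint_empty _)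
      (by simp) fun b' hb' => by
        obtain ⟨κ', k0, k1⟩ := hκ {y | f y < f 0 + ε}
          ((isOpen_lt hc continuous_const).mem_nhds (lt_add_of_pos_right _ ε0))
        exact ⟨κ', k0, fun y _ hy => k1 y ⟨by linarith [hy.1], hy.2.trans hb'.le⟩ hy.1.not_gt⟩
    simpa only [inter_univ] using this
  have a3 : Ac {y | f y < f 0} {y | f y < a} := by
    have := h3 _ f a (f 0) univ ∅ hf ha.le isOpen_univ isOpen_empty (disjoint_empty _)
      (by simp) fun b' hb' => by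
        obtain ⟨κ', k0, k1⟩ := hκ {y | b' < f y} ((isOpen_lt continuous_const hc).mem_nhds hb')
        exact ⟨κ', k0, fun y _ hy => k1 y ⟨hy.1, by linarith [hy.2]⟩ hy.2.not_gt⟩
    simpa only [inter_univ] using this
  intro k
  rw [a3.right s0 (YA.trans s3), a2.left YA s3, a1.left subset_union_left (s1.trans s2)]
  exact c1 k

end Pool.Agent.Lib.MP_837412_lc
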