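import Pool.Agent.Lib.MP_837412_lc.StT

/-!
The shape of a function near a nondegenerate critical point, and the Morse cell.
-/

namespace Pool.Agent.Lib.MP_837412_lc

open Set Function Filter Topology

namespace JMLoc

variable {E : Type} [NormedAddCommGroup E] [NormedSpace ℝ E]

lemma line (z v : E) (t : ℝ) : HasDerivAt (fun s : ℝ => z + s • v) v t := by
  simpa using ((hasDerivAt_id t).smul_const v).const_add z

lemma c1 {f : E → ℝ} (hf : ContDiff ℝ 2 f) : ContDiff ℝ 1 (fderiv ℝ f) :=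
  hf.fderiv_right (by norm_num)

lemma d1 {f : E → ℝ} (hf : ContDiff ℝ 2 f) (z v : E) (t : ℝ) :
    HasDerivAt (fun s : ℝ => f (z + s • v)) (fderiv ℝ f (z + t • v) v) t :=
  ((hf.differentiable (by norm_num) _).hasFDerivAt).comp_hasDerivAt t (line z v t)

lemma d2 {f : E → ℝ} (hf : ContDiff ℝ 2 f) (z v : E) (t : ℝ) :
    HasDerivAt (fun s : ℝ => fderiv ℝ f (z + s • v) v)
      (fderiv ℝ (fderiv ℝ f) (z + t • v) v v) t := by
  have h := (((c1 hf).differentiable (by norm_num) (z + t • v)).hasFDerivAt).comp_hasDerivAt t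
    (line z v t)
  simpa using h.clm_apply (hasDerivAt_const t v)

/-- Definite forms stay definite under small perturbations. -/
lemma near {P : Type} [NormedAddCommGroup P] [NormedSpace ℝ P] [FiniteDimensional ℝ P]
    (j : P →L[ℝ] E) (s : ℝ) {B : E → E →L[ℝ] E →L[ℝ] ℝ} (hB : Continuous B)
    (h : ∀ y, y ≠ 0 → 0 < s * B 0 (j y) (j y)) :
    ∀ᶠ z in 𝓝 (0 : E), ∀ y, y ≠ 0 → 0 < s * B z (j y) (j y) := by
  have := FiniteDimensional.proper_real P
  have h1 : ∀ᶠ z in 𝓝 (0 : E), ∀ y ∈ Metric.sphere (0 : P) 1, 0 < s * B z (j y) (j y) := by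
    refine (isCompact_sphere (0 : P) 1).eventually_forall_of_forall_eventually fun y hy => ?_
    have c : Continuous fun q : E × P => s * B q.1 (j q.2) (j q.2) := by fun_prop
    refine c.continuousAt.eventually (lt_mem_nhds (h y ?_))
    rintro rfl
    simp at hy
  filter_upwards [h1] with z hz y hy
  have n : 0 < ‖y‖ := norm_pos_iff.2 hy
  have := hz (‖y‖⁻¹ • y) (by simp [norm_smul, n.ne'])
  simp only [map_smul, smul_apply, smul_eq_mul] at this
  rw [mul_left_comm, mul_pos_iff_of_pos_left (inv_pos.2 n), mul_left_comm] at this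
  exact (mul_pos_iff_of_pos_left (inv_pos.2 n)).1 this

/-- Along a segment with positive second derivative that starts at a critical point. -/
lemma up {g g' g'' : ℝ → ℝ} (h1 : ∀ t, HasDerivAt g (g' t) t) (h2 : ∀ t, HasDerivAt g' (g'' t) t)
    (h0 : g' 0 = 0) (h : ∀ t ∈ Icc (0 : ℝ) 1, 0 < g'' t) : g 0 < g 1 := by
  have a : StrictMonoOn g' (Icc 0 1) :=
    strictMonoOn_of_deriv_pos (convex_Icc 0 1) (fun t _ => (h2 t).continuousAt.continuousWithinAt)
      fun t ht => (h2 t).deriv ▸ h t (interior_subset ht)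
  have b : StrictMonoOn g (Icc 0 1) :=
    strictMonoOn_of_deriv_pos (convex_Icc 0 1) (fun t _ => (h1 t).continuousAt.continuousWithinAt)
      fun t ht => by
        rw [interior_Icc] at ht
        rw [(h1 t).deriv, ← h0]
        exact a (left_mem_Icc.2 zero_le_one) (Ioo_subset_Icc_self ht) ht.1
  exact b (left_mem_Icc.2 zero_le_one) (right_mem_Icc.2 zero_le_one) zero_lt_one

lemma cv {g g' g'' : ℝ → ℝ} (h1 : ∀ t, HasDerivAt g (g' t) t) (h2 : ∀ t, HasDerivAt g' (g'' t) t)
    (h : ∀ t ∈ Icc (0 : ℝ) 1, 0 ≤ g'' t) {s : ℝ} (hs : s ∈ Icc (0 : ℝ) 1) :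
    g s ≤ max (g 0) (g 1) := by
  have a : MonotoneOn g' (Icc 0 1) :=
    monotoneOn_of_deriv_nonneg (convex_Icc 0 1) (fun t _ => (h2 t).continuousAt.continuousWithinAt)
      (fun t _ => (h2 t).differentiableAt.differentiableWithinAt)
      fun t ht => (h2 t).deriv ▸ h t (interior_subset ht)
  have e : deriv g = g' := funext fun t => (h1 t).deriv
  have b : ConvexOn ℝ (Icc 0 1) g :=
    MonotoneOn.convexOn_of_deriv (convex_Icc 0 1)
      (fun t _ => (h1 t).continuousAt.continuousWithinAt)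
      (fun t _ => (h1 t).differentiableAt.differentiableWithinAt) (e ▸ a.mono interior_subset)
  exact b.le_on_segment (left_mem_Icc.2 zero_le_one) (right_mem_Icc.2 zero_le_one)
    (segment_eq_Icc (zero_le_one (α := ℝ)) ▸ hs)

lemma nrm {r t : ℝ} (ht : t ∈ Icc (0 : ℝ) 1) {y : E} (hy : ‖y‖ < r) : ‖t • y‖ < r := by
  rw [norm_smul, Real.norm_of_nonneg ht.1]
  exact (mul_le_of_le_one_left (norm_nonneg _) ht.2).trans_lt hy

end JMLoc

open JMLoc in
theorem mlocS : MLocS := by
  intro N P _ _ _ _ _ _ f hf h0 hN hP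
  have c2 : Continuous (fderiv ℝ (fderiv ℝ f)) := (c1 hf).continuous_fderiv (by norm_num)
  have a := near (ContinuousLinearMap.inr ℝ N P) 1 c2 fun y hy => by simpa using hP y hy
  have b := near (ContinuousLinearMap.inl ℝ N P) (-1) c2 fun x hx => by simpa using hN x hx
  obtain ⟨r, hr, h⟩ := Metric.eventually_nhds_iff.1 (a.and b)
  simp only [dist_zero_right, ContinuousLinearMap.inr_apply, ContinuousLinearMap.inl_apply,
    one_mul, neg_mul] at h
  refine ⟨r, hr, fun x y hx hy s hs => ?_, fun x hx hx' => ?_, fun y hy => ?_⟩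
  · have := cv (d1 hf (x, 0) (0, y)) (d2 hf (x, 0) (0, y)) (fun t ht => ?_) hs
    · simpa using this
    · rcases eq_or_ne y 0 with rfl | e
      · simp [Prod.mk_zero_zero]
      · refine ((h ?_).1 y e).le
        simpa using ⟨hx, nrm ht hy⟩
  · have := up (g := fun t => -f (0 + t • (x, 0))) (fun t => (d1 hf 0 (x, 0) t).neg)
      (fun t => (d2 hf 0 (x, 0) t).neg) (by simp [h0]) fun t ht => ?_
    · simpa [Prod.mk_zero_zero] using this
    · have := (h (y := 0 + t • (x, 0)) ?_).2 x hx'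
      · simpa using this
      · simpa using nrm ht hx
  · rcases eq_or_ne y 0 with rfl | e
    · exact le_rfl
    have := up (d1 hf 0 (0, y)) (d2 hf 0 (0, y)) (by simp [h0]) fun t ht => ?_
    · simpa [Prod.mk_zero_zero] using this.le
    · refine (h ?_).1 y e
      simpa using nrm ht hy

open JMLoc in
theorem mcS (h1 : MLocS) (h2 : MC0) : MCS := by
  intro E _ _ _ f p a b Q hf h0 hQ hr ha hb hκ
  obtain ⟨N, n1, n2⟩ := exists_finrank_eq_sigNeg_and_negDef Q
  obtain ⟨P, p1, p2⟩ := exists_finrank_eq_sigPos_and_posDef Q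
  have hs := QuadraticForm.sigPos_add_sigNeg_add_radical (Q := Q)
  rw [hr, finrank_bot, add_zero] at hs
  have n3 : ∀ x : N, x ≠ 0 → Q x < 0 := fun x hx => by simpa using n2 x hx
  have p3 : ∀ y : P, y ≠ 0 → 0 < Q y := fun y hy => by simpa using p2 y hy
  have hd : Disjoint N P := Submodule.disjoint_def.2 fun x hx hx' => by
    by_contra e
    exact lt_asymm (n3 ⟨x, hx⟩ (by simpa using e)) (p3 ⟨x, hx'⟩ (by simpa using e))
  have hc : IsCompl N P :=
    ⟨hd, codisjoint_iff.2 (Submodule.eq_top_of_disjoint N P (by omega) hd)⟩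
  let φ : (N × P) ≃L[ℝ] E := (Submodule.prodEquivOfIsCompl N P hc).toContinuousLinearEquiv
  have φ1 : ∀ x : N, φ (x, 0) = x := fun x => by simp [φ]
  have φ2 : ∀ y : P, φ (0, y) = y := fun y => by simp [φ]
  let ψ : (N × P) →L[ℝ] E := φ
  let h : (N × P) ≃ₜ E := φ.toHomeomorph.trans (Homeomorph.addLeft p)
  have hh : ∀ y, HasFDerivAt h ψ y := fun y => ψ.hasFDerivAt.const_add p
  have hp : h 0 = p := by simp [h]
  have g1 : fderiv ℝ (f ∘ h) = fun y => (fderiv ℝ f (h y)).comp ψ := funext fun y =>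
    ((hf.differentiable (by norm_num) _).hasFDerivAt.comp y (hh y)).fderiv
  have g2 : ∀ v, fderiv ℝ (fderiv ℝ (f ∘ h)) 0 v v = Q (φ v) := fun v => by
    have := ((((c1 hf).differentiable (by norm_num) (h 0)).hasFDerivAt.comp 0 (hh 0)).clm_comp
      (hasFDerivAt_const ψ 0)).fderiv
    rw [g1, hQ, ← hp]
    refine (congrArg (fun L => L v v) this).trans ?_
    simp [ψ]
  have cg : ContDiff ℝ 2 (f ∘ h) := hf.comp (contDiff_const.add ψ.contDiff)
  obtain ⟨r, hr⟩ := h1 N P (f ∘ h) cg (by rw [g1]; simp [hp, h0])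
    (fun x hx => by rw [g2, φ1]; exact n3 x hx) fun y hy => by rw [g2, φ2]; exact p3 y hy
  have := h2 N P (f ∘ h) r a b cg hr (by simpa [hp] using ha) (by simpa [hp] using hb)
    fun U hU => ?_
  · intro k
    rw [← n1, ← this k]
    exact (hs_preimage h _ _ k).symm
  · obtain ⟨κ, k1, k2⟩ := hκ (h '' U) (hp ▸ h.isOpenMap.image_mem_nhds hU)
    let χ : E →L[ℝ] N × P := φ.symm
    have o : 0 < ‖χ‖ + 1 := by positivity
    refine ⟨κ / (‖χ‖ + 1), div_pos k1 o, fun y hy hy' => ?_⟩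
    have e : fderiv ℝ f (h y) = (fderiv ℝ (f ∘ h) y).comp χ := by
      rw [g1]; ext v; simp [ψ, χ]
    have := k2 (h y) hy fun ⟨u, hu, e⟩ => hy' (h.injective e ▸ hu)
    rw [e] at this
    rw [div_le_iff₀ o]
    refine this.trans ((ContinuousLinearMap.opNorm_comp_le _ _).trans ?_)
    gcongr
    linarith

end Pool.Agent.Lib.MP_837412_lc
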