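import Pool.Agent.Lib.MP_837412_lc.StA

/-!
Eigenvalues and traces of powers of a matrix.
-/

namespace Pool.Agent.Lib.MP_837412_lc

open Set Function Polynomial

namespace JMat

variable {ι : Type} [Fintype ι] [DecidableEq ι]

lemma mult (M : Matrix ι ι ℂ) (z : ℂ) : (Matrix.toLin' M).charpoly.rootMultiplicity z =
    (Finset.univ.filter fun i => lam M i = z).card := by
  classical
  rw [Matrix.charpoly_toLin', ← chi_lam, ← count_roots, roots_chi, Multiset.count_map]
  simp only [← Finset.filter_val, Finset.card_val, eq_comm]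

lemma tr_pow {V : Type} [AddCommGroup V] [Module ℂ V] [FiniteDimensional ℂ V]
    (g : Module.End ℂ V) (z : ℂ) (h : IsNilpotent (g - algebraMap ℂ _ z)) (j : ℕ) :
    LinearMap.trace ℂ V (g ^ j) = z ^ j * Module.finrank ℂ V := by
  induction j with
  | zero => simp
  | succ j ih =>
    rw [pow_succ, Module.End.mul_eq_comp,
      LinearMap.trace_comp_eq_mul_of_commute_of_isNilpotent z (Commute.self_pow g j).symm h, ih]
    ring

end JMat

theorem eigS : EigS := by
  intro ι _ _ M z v hv h0
  have m : ∀ w, M.mulVec w = z • w → w ∈ Module.End.eigenspace (Matrix.toLin' M) z :=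
    fun w hw => Module.End.mem_eigenspace_iff.2 (by rw [Matrix.toLin'_apply, hw])
  have le := LinearMap.finrank_eigenspace_le (Matrix.toLin' M) z
  rw [JMat.mult] at le
  have sp : Submodule.span ℂ {v} ≤ Module.End.eigenspace (Matrix.toLin' M) z :=
    (Submodule.span_singleton_le_iff_mem _ _).2 (m v hv)
  have one := finrank_span_singleton (K := ℂ) h0
  refine ⟨?_, fun hi w hw => ?_⟩
  · obtain ⟨i, h⟩ := Finset.card_pos.1 ((one.ge.trans (Submodule.finrank_mono sp)).trans le)
    exact ⟨i, (Finset.mem_filter.1 h).2⟩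
  · have c : (Finset.univ.filter fun i => lam M i = z).card ≤ 1 :=
      Finset.card_le_one.2 fun a ha b hb =>
        hi ((Finset.mem_filter.1 ha).2.trans (Finset.mem_filter.1 hb).2.symm)
    have e := Submodule.eq_of_le_of_finrank_le sp ((le.trans c).trans one.ge)
    obtain ⟨t, ht⟩ := Submodule.mem_span_singleton.1 (e ▸ m w hw)
    exact ⟨t, ht.symm⟩

theorem trS : TrS := by
  classical
  intro ι _ _ M j
  set f : Module.End ℂ (ι → ℂ) := Matrix.toLin' M with hf
  have ds := DirectSum.isInternal_submodule_of_iSupIndep_of_iSup_eq_top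
    f.independent_maxGenEigenspace f.iSup_maxGenEigenspace_eq_top
  have fin : {μ | f.maxGenEigenspace μ ≠ ⊥}.Finite :=
    WellFoundedGT.finite_ne_bot_of_iSupIndep f.independent_maxGenEigenspace
  have m1 := fun μ => f.mapsTo_maxGenEigenspace_of_comm (Commute.refl f) μ
  have mj := fun μ => f.mapsTo_maxGenEigenspace_of_comm (Commute.self_pow f j) μ
  have e : (M ^ j).trace = LinearMap.trace ℂ _ (f ^ j) := by
    rw [hf, ← Matrix.toLin'_pow, Matrix.trace_toLin'_eq]
  have r : ∀ μ, Module.finrank ℂ (f.maxGenEigenspace μ) =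
      (Finset.univ.filter fun i => lam M i = μ).card := fun μ => by
    rw [LinearMap.finrank_maxGenEigenspace_eq, hf, JMat.mult]
  rw [e, LinearMap.trace_eq_sum_trace_restrict' ds fin mj, ps,
    ← Finset.sum_fiberwise_of_maps_to (t := fin.toFinset) (g := lam M) fun i _ => ?_]
  · refine Finset.sum_congr rfl fun μ _ => ?_
    rw [← Module.End.pow_restrict j (m1 μ), JMat.tr_pow _ μ
      (f.isNilpotent_restrict_maxGenEigenspace_sub_algebraMap μ), r,
      Finset.sum_congr rfl fun i hi => by rw [(Finset.mem_filter.1 hi).2], Finset.sum_const,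
      nsmul_eq_mul, mul_comm]
  · refine fin.mem_toFinset.2 fun h => ?_
    have := r (lam M i)
    rw [h, finrank_bot] at this
    exact Finset.card_ne_zero_of_mem (a := i) (by simp) this.symm

theorem matA : MatA := by
  intro α ι _ _ B _ Γ e j M N hc hj hM hN
  have c1 : (Finset.univ : Finset ι).card ≤ B :=
    le_trans (Nat.le_self_pow two_ne_zero _) hc
  have c2 : (Finset.univ : Finset (ι × ι)).card ≤ B := by simpa [sq] using hc
  have k := A.iter (u := fun m (p : ι × ι) x => (N x * M x ^ m) p.1 p.2) (e := e + 10)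
    Finset.univ c2 hj (fun p _ => ((hN p.1 p.2).congr (by simp)).mono (by omega))
    fun m _ Δ a b p _ => ((A.sum Finset.univ c1 fun l _ =>
      (b (p.1, l) (Finset.mem_univ _)).mul ((hM l p.2).ext a)).congr fun x _ => by
        rw [pow_succ, ← mul_assoc, Matrix.mul_apply]).mono (by omega)
  exact (A.sum Finset.univ c1 fun a _ => k (a, a) (Finset.mem_univ _)).mono (by omega)

end Pool.Agent.Lib.MP_837412_lc
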