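import Pool.Agent.Lib.MP_837412_lc.StT

/-!
Root bounds, arcs, unipotent matrices and the interpolating family.
-/

namespace Pool.Agent.Lib.MP_837412_lc

open Pool.Agent.Shared.Mod2 Set Function Polynomial

namespace JMisc

variable {ι : Type}

lemma up_trans {c : ι → ℂ} {i j k : ι} (a : Up c i j) (b : Up c j k) : Up c i k :=
  ⟨a.1.trans b.1, a.2.trans b.2⟩

lemma up_irrefl {c : ι → ℂ} {i : ι} (a : Up c i i) : False := lt_irrefl _ a.2

lemma lx_trans {c : ι → ℂ} {i j k : ι} (a : Lx c i j) (b : Lx c j k) : Lx c i k := by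
  rcases a with a | a <;> rcases b with b | b
  exacts [.inl (a.trans b), .inl (b.1 ▸ a), .inl (a.1 ▸ b), .inr (up_trans a b)]

lemma lx_irrefl {c : ι → ℂ} {i : ι} (a : Lx c i i) : False := a.elim (lt_irrefl _) up_irrefl

lemma lx_total {c : ι → ℂ} (hc : Injective c) {i j : ι} (h : i ≠ j) : Lx c i j ∨ Lx c j i := by
  rcases lt_trichotomy (c i).re (c j).re with a | a | a
  · exact .inl (.inl a)
  · rcases lt_trichotomy (c i).im (c j).im with b | b | b
    exacts [.inl (.inr ⟨a, b⟩), absurd (hc (Complex.ext a b)) h, .inr (.inr ⟨a.symm, b⟩)]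
  · exact .inr (.inl a)

variable [Fintype ι] {r : ι → ι → Prop}

lemma uni_mul (tr : ∀ i j k, r i j → r j k → r i k) (ir : ∀ i, ¬ r i i) {A B : Matrix ι ι F}
    (hA : Uni r A) (hB : Uni r B) : Uni r (A * B) := by
  refine ⟨fun i => ?_, fun i j hij h => ?_⟩
  · rw [Matrix.mul_apply, Finset.sum_eq_single i, hA.1, hB.1, mul_one]
    · intro k _ hk
      by_contra h
      exact ir i (tr _ _ _ (hA.2 i k hk.symm (left_ne_zero_of_mul h))
        (hB.2 k i hk (right_ne_zero_of_mul h)))
    · simp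
  · rw [Matrix.mul_apply] at h
    obtain ⟨k, -, hk⟩ := Finset.exists_ne_zero_of_sum_ne_zero h
    by_cases h1 : i = k
    · exact hB.2 i j hij (h1 ▸ right_ne_zero_of_mul hk)
    · by_cases h2 : k = j
      · exact hA.2 i j hij (h2 ▸ left_ne_zero_of_mul hk)
      · exact tr _ _ _ (hA.2 i k h1 (left_ne_zero_of_mul hk))
          (hB.2 k j h2 (right_ne_zero_of_mul hk))

lemma kill (tr : ∀ i j k, r i j → r j k → r i k) (ir : ∀ i, ¬ r i i) {A B L L' : Matrix ι ι F}
    (hL : Uni (flip r) L) (hL' : Uni (flip r) L') (h : B * L = L' * A)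
    (hAB : ∀ i j, i ≠ j → A i j ≠ 0 → B i j ≠ 0 → False) (i j : ι) (hij : r i j) :
    A i j = 0 ∧ B i j = 0 := by
  have w1 : WellFounded r :=
    @Finite.wellFounded_of_trans_of_irrefl ι _ r ⟨tr⟩ ⟨ir⟩
  have w2 : WellFounded (flip r) :=
    @Finite.wellFounded_of_trans_of_irrefl ι _ (flip r) ⟨fun i j k a b => tr k j i b a⟩ ⟨ir⟩
  induction i using w1.induction generalizing j with
  | _ i ih =>
    induction j using w2.induction with
    | _ j ih' =>
      have e1 : (B * L) i j = B i j := by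
        rw [Matrix.mul_apply, Finset.sum_eq_single j, hL.1, mul_one]
        · intro k _ hk
          by_contra h0
          have a : r j k := hL.2 k j hk (right_ne_zero_of_mul h0)
          exact left_ne_zero_of_mul h0 (ih' k a (tr _ _ _ hij a)).2
        · simp
      have e2 : (L' * A) i j = A i j := by
        rw [Matrix.mul_apply, Finset.sum_eq_single i, hL'.1, one_mul]
        · intro k _ hk
          by_contra h0
          have a : r k i := hL'.2 i k hk.symm (left_ne_zero_of_mul h0)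
          exact right_ne_zero_of_mul h0 (ih k a j (tr _ _ _ a hij)).1
        · simp
      have e3 : B i j = A i j := by rw [← e1, h, e2]
      have e4 : A i j = 0 := by
        by_contra h0
        exact hAB i j (fun e => ir j (e ▸ hij)) h0 (e3 ▸ h0)
      exact ⟨e4, e3.trans e4⟩

lemma near {N : ℕ} (hN : 0 < N) (t : ℝ) :
    ∃ a : Fin N, ∀ b ≠ a, 1 ≤ 4 * (t - ((b : ℕ) : ℝ)) ^ 2 := by
  obtain ⟨a, -, ha⟩ := Finset.exists_min_image Finset.univ
    (fun b : Fin N => |t - ((b : ℕ) : ℝ)|) ⟨⟨0, hN⟩, Finset.mem_univ _⟩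
  refine ⟨a, fun b hb => ?_⟩
  have h1 : (1 : ℝ) ≤ |((b : ℕ) : ℝ) - (a : ℕ)| := by
    have h2 : (1 : ℤ) ≤ |((b : ℕ) : ℤ) - (a : ℕ)| :=
      Int.one_le_abs (sub_ne_zero.2 fun e => hb (Fin.ext (by exact_mod_cast e)))
    exact_mod_cast h2
  have h2 := abs_sub_le ((b : ℕ) : ℝ) t (a : ℕ)
  rw [abs_sub_comm _ t] at h2
  have h3 := ha b (Finset.mem_univ _)
  rw [← sq_abs]
  nlinarith

end JMisc

open JMisc

theorem cbS : CbS := by
  intro q
  have h0 : ∀ i, 0 ≤ 1 + Complex.normSq (q.coeff i) / Complex.normSq q.leadingCoeff := fun i =>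
    add_nonneg zero_le_one (div_nonneg (Complex.normSq_nonneg _) (Complex.normSq_nonneg _))
  refine ⟨le_add_of_nonneg_right (Finset.sum_nonneg fun i _ => h0 i), fun hq z hz => ?_⟩
  have h1 : ‖z‖ < (cauchyBound q : ℝ) := by
    exact_mod_cast IsRoot.norm_lt_cauchyBound hq hz
  refine h1.trans_le ?_
  rw [cauchyBound, cb, NNReal.coe_add, NNReal.coe_one, add_comm, NNReal.coe_div, coe_nnnorm]
  refine add_le_add_right ?_ 1
  rcases (Finset.range q.natDegree).eq_empty_or_nonempty with h | h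
  · simp [h]
  · obtain ⟨i, hi, e⟩ := Finset.exists_mem_eq_sup _ h fun i => ‖q.coeff i‖₊
    refine le_trans ?_ (Finset.single_le_sum (fun i _ => h0 i) hi)
    rw [e, coe_nnnorm, Complex.normSq_eq_norm_sq, Complex.normSq_eq_norm_sq, ← div_pow]
    nlinarith [sq_nonneg (‖q.coeff i‖ / ‖q.leadingCoeff‖ - 1)]

theorem cbA : CbA := by
  intro α B _ Γ e n q hn hq hd h0
  have h1 : D B Γ (e + 5) fun x y => (q x).natDegree = (q y).natDegree :=
    (hq.support hd hn).imp fun x _ y _ a => by simp only [natDegree, degree, a]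
  refine (P.cases h1 (e' := e + 32) fun k Δ a b => ?_).mono (by omega)
  have ns : ∀ i, A B Δ (e + 10) fun x => Complex.normSq ((q x).coeff i) := fun i =>
    (((((hq i).ext a).re.mul ((hq i).ext a).re).add
      (((hq i).ext a).im.mul ((hq i).ext a).im)).congr fun x _ => by
        simp [Complex.normSq_apply]).mono (by omega)
  rcases le_or_gt k n with hk | hk
  · refine ((A.one.add (A.sum (Finset.range k) (by simp; omega) fun i _ =>
      A.one.add ((ns i).div (ns k) fun x hx => ?_))).congr fun x hx => ?_).mono (by omega)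
    · rw [← b x hx]
      exact mt Complex.normSq_eq_zero.1 (leadingCoeff_ne_zero.2 (h0 x (a.1 hx)))
    · rw [cb, leadingCoeff, b x hx]
  · refine ((A.zero (𝕜 := ℝ)).congr fun x hx => ?_).mono (by omega)
    have := hd x (a.1 hx)
    have := b x hx
    omega

theorem arcS : ArcS := by
  intro q n l hd hl h0 h1
  by_contra hc
  push Not at hc
  choose! s hs using hc
  have hq : q ≠ 0 := fun e => h0 (by simp [e])
  have re : ∀ η t, (arc l η t).re = l * t := fun η t => by simp [arc]
  have im : ∀ η t, (arc l η t).im = l * (η * (t * (1 - t))) := fun η t => by simp [arc]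
  have h2 : (Finset.range (n + 1)).card ≤ q.roots.toFinset.card := by
    refine Finset.card_le_card_of_injOn (fun η => arc l η (s η)) (fun η hη => ?_)
      fun η hη η' _ e => ?_
    · simpa [hq] using hs η (by simpa [Nat.lt_succ_iff] using hη)
    · have e0 := hs η (by simpa [Nat.lt_succ_iff] using hη)
      have e1 : s η = s η' := mul_left_cancel₀ hl (by rw [← re η, ← re η']; exact congrArg _ e)
      have e2 : (η : ℝ) * (s η * (1 - s η)) = η' * (s η' * (1 - s η')) :=
        mul_left_cancel₀ hl (by rw [← im η, ← im η']; exact congrArg _ e)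
      rw [← e1] at e2
      refine Nat.cast_injective (mul_right_cancel₀ (mul_ne_zero (fun a => h0 ?_) fun a => h1 ?_) e2)
      · simpa [arc, a] using e0
      · simpa [arc, ← sub_eq_zero.1 a] using e0
  have h3 := (Multiset.toFinset_card_le _).trans (card_roots' q)
  rw [Finset.card_range] at h2
  omega

theorem relT : RelT := by
  rintro ι _ c L R L' R' L'' R'' ⟨A, B, a, b, e1, e2⟩ ⟨A', B', a', b', e1', e2'⟩
  refine ⟨A' * A, B' * B, uni_mul (fun _ _ _ => up_trans) (fun _ => up_irrefl) a' a,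
    uni_mul (r := flip (Up c)) (fun _ _ _ x y => up_trans y x) (fun _ => up_irrefl) b' b, ?_, ?_⟩
  · rw [Matrix.mul_assoc, e1, ← Matrix.mul_assoc, e1', Matrix.mul_assoc]
  · rw [Matrix.mul_assoc, e2, ← Matrix.mul_assoc, e2', Matrix.mul_assoc]

theorem uniqS : UniqS := by
  rintro ι _ c₀ c L R L' R' hc h h' ⟨A, B, a, b, e1, e2⟩
  classical
  have hAB : ∀ i j, i ≠ j → A i j ≠ 0 → B i j ≠ 0 → False := fun i j hij x y =>
    up_irrefl (up_trans (a.2 i j hij x) (b.2 i j hij y))
  have key : ∀ i j, i ≠ j → A i j = 0 ∧ B i j = 0 := fun i j hij =>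
    (lx_total hc hij).elim
      (kill (fun _ _ _ => lx_trans) (fun _ => lx_irrefl) h.1 h'.1 e1 hAB i j)
      (kill (r := flip (Lx c)) (fun _ _ _ x y => lx_trans y x) (fun _ => lx_irrefl) h.2 h'.2 e2
        hAB i j)
  have hA : A = 1 := by
    ext i j
    by_cases hij : i = j
    · rw [hij, a.1, Matrix.one_apply_eq]
    · rw [(key i j hij).1, Matrix.one_apply_ne hij]
  have hB : B = 1 := by
    ext i j
    by_cases hij : i = j
    · rw [hij, b.1, Matrix.one_apply_eq]
    · rw [(key i j hij).2, Matrix.one_apply_ne hij]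
  rw [hA, hB, Matrix.one_mul, Matrix.mul_one] at e1 e2
  exact ⟨e1, e2⟩

theorem psiS : PsiS := by
  intro τ _ _ N u
  refine ⟨fun t h => ?_, fun a h j => ?_⟩
  · rcases Nat.eq_zero_or_pos N with rfl | hN
    · simpa [psi] using h (Classical.arbitrary τ)
    obtain ⟨a, ha⟩ := near hN t
    refine ⟨a, fun j => ?_⟩
    by_contra hj
    refine (h j).not_ge ?_
    have M0 : 0 ≤ ∑ a, ∑ i, u a i ^ 2 := by positivity
    have h1 : ∀ a' : Fin N, (∏ b ∈ Finset.univ.erase a', (t - ((b : Fin N) : ℕ)) ^ 2) * u a' j ≤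
        4 * (1 + ∑ a, ∑ i, u a i ^ 2) * ∏ b : Fin N, (t - (b : ℕ)) ^ 2 := by
      intro a'
      have p0 : 0 ≤ ∏ b ∈ Finset.univ.erase a', (t - ((b : Fin N) : ℕ)) ^ 2 := by positivity
      by_cases e : a' = a
      · exact (mul_nonpos_of_nonneg_of_nonpos p0 (e ▸ not_lt.1 hj)).trans (by positivity)
      · have h2 : u a' j ^ 2 ≤ ∑ a, ∑ i, u a i ^ 2 :=
          (Finset.single_le_sum (f := fun i => u a' i ^ 2) (fun _ _ => sq_nonneg _)
            (Finset.mem_univ j)).trans (Finset.single_le_sum (f := fun a => ∑ i, u a i ^ 2)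
              (fun _ _ => by positivity) (Finset.mem_univ a'))
        have h3 : u a' j ≤ 1 + ∑ a, ∑ i, u a i ^ 2 := by nlinarith [sq_nonneg (u a' j - 1)]
        rw [← Finset.mul_prod_erase _ _ (Finset.mem_univ a')]
        calc _ ≤ (∏ b ∈ Finset.univ.erase a', (t - ((b : Fin N) : ℕ)) ^ 2) *
              ((1 + ∑ a, ∑ i, u a i ^ 2) * 1) := by
              rw [mul_one]
              exact mul_le_mul_of_nonneg_left h3 p0
          _ ≤ (∏ b ∈ Finset.univ.erase a', (t - ((b : Fin N) : ℕ)) ^ 2) *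
              ((1 + ∑ a, ∑ i, u a i ^ 2) * (4 * (t - (a' : ℕ)) ^ 2)) := by
              gcongr
              exact ha a' e
          _ = _ := by ring
    have h4 := Finset.sum_le_card_nsmul Finset.univ _ _ fun a' _ => h1 a'
    rw [Finset.card_univ, Fintype.card_fin, nsmul_eq_mul] at h4
    rw [psi, sub_nonpos]
    exact h4.trans (le_of_eq (by ring))
  · rw [psi, Finset.prod_eq_zero (Finset.mem_univ a) (by simp), mul_zero, sub_zero,
      Finset.sum_eq_single a]
    · refine mul_pos (Finset.prod_pos fun b hb => sq_pos_of_ne_zero (sub_ne_zero.2 fun e => ?_))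
        (h j)
      exact Finset.ne_of_mem_erase hb (Fin.ext (Nat.cast_injective e).symm)
    · intro b _ hb
      rw [Finset.prod_eq_zero (Finset.mem_erase.2 ⟨hb.symm, Finset.mem_univ a⟩) (by simp),
        zero_mul]
    · simp

end Pool.Agent.Lib.MP_837412_lc
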