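import Pool.Agent.Lib.MP_837412_lc.StA

/-!
The set of parameters where all candidates are critical values is closed, and open at the
parameters where the candidates are distinct.
-/

namespace Pool.Agent.Lib.MP_837412_lc

open Set Function Filter Topology MvPolynomial

namespace JOpen

variable {σ : Type} [Fintype σ] {m : ℕ} {p : MvPolynomial σ ℂ}

lemma eval_pd (m : ℕ) (p : MvPolynomial σ ℂ) (l : ℂ) (y : σ → ℂ) (i : σ) :
    eval y (pderiv i (Fl m p l)) = eval y (pderiv i (F0 σ ℂ m)) - l * eval y (pderiv i p) := by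
  simp [Fl]

lemma cont_val (m : ℕ) (p : MvPolynomial σ ℂ) :
    Continuous fun q : ℂ × (σ → ℂ) => eval q.2 (Fl m p q.1) := by
  simp only [eval_Fl]
  exact ((MvPolynomial.continuous_eval _).comp continuous_snd).sub
    (continuous_fst.mul ((MvPolynomial.continuous_eval _).comp continuous_snd))

lemma cont_pd (m : ℕ) (p : MvPolynomial σ ℂ) (i : σ) :
    Continuous fun q : ℂ × (σ → ℂ) => eval q.2 (pderiv i (Fl m p q.1)) := by
  simp only [eval_pd]
  exact ((MvPolynomial.continuous_eval _).comp continuous_snd).sub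
    (continuous_fst.mul ((MvPolynomial.continuous_eval _).comp continuous_snd))

lemma map_eq [DecidableEq σ] (A B : σ → MvPolynomial σ ℂ) {l₀ : ℂ} {x : σ → ℂ}
    (hd : (Matrix.of fun j i =>
      eval x (pderiv j (A i)) - l₀ * eval x (pderiv j (B i))).det ≠ 0)
    {Φ : ℂ × (σ → ℂ) → ℂ × (σ → ℂ)}
    (hΦ : ∀ q, Φ q = (q.1, fun i => eval q.2 (A i) - q.1 * eval q.2 (B i))) :
    Filter.map Φ (𝓝 (l₀, x)) = 𝓝 (Φ (l₀, x)) := by
  have s : HasStrictFDerivAt (𝕜 := ℂ) (fun q : ℂ × (σ → ℂ) => q.2) _ (l₀, x) :=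
    hasStrictFDerivAt_snd
  have f : HasStrictFDerivAt (𝕜 := ℂ) (fun q : ℂ × (σ → ℂ) => q.1) _ (l₀, x) :=
    hasStrictFDerivAt_fst
  have d := f.prodMk (hasStrictFDerivAt_pi.2 fun i =>
    ((hasStrictFDerivAt_eval (A i) x).comp (l₀, x) s).sub
      (f.mul ((hasStrictFDerivAt_eval (B i) x).comp (l₀, x) s)))
  rw [funext hΦ]
  refine d.map_nhds_eq_of_surj (LinearMap.range_eq_top.2 fun w => ?_)
  obtain ⟨v, hv⟩ := Matrix.vecMul_surjective_iff_isUnit.2
    ((Matrix.isUnit_iff_isUnit_det _).2 hd.isUnit) fun i => w.2 i + w.1 * eval x (B i)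
  refine ⟨(w.1, v), Prod.ext rfl (funext fun i => ?_)⟩
  have := congrFun hv i
  simp only [Matrix.vecMul, dotProduct, Matrix.of_apply, mul_sub, Finset.sum_sub_distrib] at this
  simp [dif_apply, Finset.mul_sum]
  simp only [mul_comm (v _), mul_assoc] at this
  linear_combination this

lemma near [DecidableEq σ] {l₀ : ℂ} {x : σ → ℂ} (hx : Crit (Fl m p l₀) x)
    (hd : (Hess (Fl m p l₀) x).det ≠ 0) {U : Set ℂ} (hU : U ∈ 𝓝 (eval x (Fl m p l₀))) :
    ∀ᶠ l in 𝓝 l₀, ∃ y, Crit (Fl m p l) y ∧ eval y (Fl m p l) ∈ U := by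
  let Φ : ℂ × (σ → ℂ) → ℂ × (σ → ℂ) := fun q => (q.1, fun i => eval q.2 (pderiv i (Fl m p q.1)))
  have e : Filter.map Φ (𝓝 (l₀, x)) = 𝓝 (Φ (l₀, x)) :=
    map_eq (fun i => pderiv i (F0 σ ℂ m)) (fun i => pderiv i p)
      (by simpa only [Hess, Fl, map_sub, pderiv_C_mul, map_mul, eval_C] using hd)
      fun q => by simp only [Φ, eval_pd]
  have e0 : Φ (l₀, x) = (l₀, 0) := congrArg (Prod.mk l₀) (funext hx)
  have hV : (fun q : ℂ × (σ → ℂ) => eval q.2 (Fl m p q.1)) ⁻¹' U ∈ 𝓝 (l₀, x) :=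
    ((cont_val m p).tendsto (l₀, x)) hU
  have h2 := image_mem_map (m := Φ) hV
  rw [e, e0] at h2
  filter_upwards [(Continuous.prodMk_left (0 : σ → ℂ)).tendsto l₀ h2] with l hl
  obtain ⟨q, h3, h4⟩ := hl
  obtain rfl : q.1 = l := congrArg Prod.fst h4
  exact ⟨q.2, fun i => congrFun (congrArg Prod.snd h4) i, h3⟩

end JOpen

theorem openS (h : CritS) : OpenS := by
  rintro σ _ _ m p l₀ h2 hp ⟨x, hx⟩ hi
  obtain ⟨U, hU, hd⟩ := (finite_range (Lam m p l₀)).t2_separation
  have e := eventually_all.2 fun a => JOpen.near (hx a).1 ((h σ m p l₀ h2 hp _ (hx a).1).2 hi).1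
    (U := U (Lam m p l₀ a)) ((hU _).2.mem_nhds ((hx a).2 ▸ (hU _).1))
  filter_upwards [e] with l hl
  choose y h3 h4 using hl
  choose b hb using fun a => (h σ m p l h2 hp _ (h3 a)).1
  have bi : Injective b := fun a a' haa => by
    by_contra hne
    refine disjoint_left.1 (hd (mem_range_self a) (mem_range_self a') (hi.ne hne)) (h4 a) ?_
    rw [← hb, haa, hb]
    exact h4 a'
  choose r hr using Finite.surjective_of_injective bi
  exact ⟨fun a => y (r a), fun a => ⟨h3 _, by rw [← hb, hr]⟩⟩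

theorem closedS (h1 : TameS) (h2 : LamP) : ClosedS := by
  intro σ _ _ m p hp
  refine isClosed_of_closure_subset fun l₀ hl => ?_
  obtain ⟨R, hR⟩ := h1 σ ℂ m p (‖l₀‖ + 1) hp
  let K : Set (ℂ × (Std σ m → σ → ℂ)) :=
    Metric.closedBall l₀ 1 ×ˢ Metric.closedBall 0 |R| ∩
      ((⋂ a, ⋂ i, {q | eval (q.2 a) (pderiv i (Fl m p q.1)) = 0}) ∩
        ⋂ j, {q | ps (fun a => eval (q.2 a) (Fl m p q.1)) j = ps (Lam m p q.1) j})
  have c : ∀ a, Continuous fun q : ℂ × (Std σ m → σ → ℂ) => (q.1, q.2 a) := fun a => by fun_prop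
  have hK : IsCompact K := by
    refine ((isCompact_closedBall _ _).prod (isCompact_closedBall _ _)).inter_right
      ((isClosed_iInter fun a => isClosed_iInter fun i => isClosed_eq
        ((JOpen.cont_pd m p i).comp (c a)) continuous_const).inter
        (isClosed_iInter fun j => isClosed_eq ?_
          (((h2 σ m p j).continuous continuous_id).comp continuous_fst)))
    exact continuous_finsetSum _ fun a _ => ((JOpen.cont_val m p).comp (c a)).pow j
  have e : Metric.ball l₀ 1 ∩ {l | Pv m p l} ⊆ Prod.fst '' K := by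
    rintro l ⟨hb, x, hx⟩
    refine ⟨(l, x), ⟨⟨Metric.ball_subset_closedBall hb, ?_⟩,
      mem_iInter₂.2 fun a i => (hx a).1 i, mem_iInter.2 fun j => ?_⟩, rfl⟩
    · rw [mem_closedBall_zero_iff, pi_norm_le_iff_of_nonneg (abs_nonneg R)]
      intro a
      by_contra hn
      have hl' : ‖l‖ ≤ ‖l₀‖ + 1 := by
        have := norm_le_norm_add_norm_sub' l l₀
        have := mem_ball_iff_norm.1 hb
        linarith
      have := (hR l hl' (x a) ((le_abs_self R).trans (not_le.1 hn).le)).1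
      rw [n2_eq_zero.2 (hx a).1] at this
      exact absurd this (by norm_num)
    · exact congrArg (ps · j) (funext fun a => (hx a).2)
  obtain ⟨q, ⟨-, h3, h4⟩, rfl⟩ := (hK.image continuous_fst).isClosed.closure_subset_iff.2 e
    (Metric.isOpen_ball.inter_closure ⟨Metric.mem_ball_self one_pos, hl⟩)
  obtain ⟨τ, hτ⟩ := exists_perm_of_chi (chi_eq_of_ps (mem_iInter.1 h4))
  exact ⟨fun a => q.2 (τ a), fun a => ⟨fun i => mem_iInter₂.1 h3 (τ a) i, (congrFun hτ a).symm⟩⟩

end Pool.Agent.Lib.MP_837412_lc
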