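import Pool.Agent.Lib.MP_837412_lc.StC

/-!
Order types of finite families of complex numbers.
-/

namespace Pool.Agent.Lib.MP_837412_lc

open Set Polynomial Function Filter Topology

namespace JOrd

variable {ι : Type} [Fintype ι]

/-- The rank of an element of a real family. -/
noncomputable def rnk (f : ι → ℝ) (i : ι) : ℕ := (Finset.univ.filter fun j => f j ≤ f i).card

lemma rnk_lt {f g : ι → ℝ} {i k : ι} (h : ∀ j, g j ≤ g k → f j < f i) : rnk g k < rnk f i := by
  refine Finset.card_lt_card ⟨fun j hj => ?_, fun hs => ?_⟩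
  · simp only [Finset.mem_filter, Finset.mem_univ, true_and] at hj ⊢
    exact (h j hj).le
  · have : i ∈ Finset.univ.filter fun j => g j ≤ g k := hs (by simp)
    exact lt_irrefl _ (h i (by simpa using this))

lemma rnk_le {f g : ι → ℝ} {i k : ι} (h : ∀ j, g j ≤ g k → f j ≤ f i) : rnk g k ≤ rnk f i := by
  refine Finset.card_le_card fun j hj => ?_
  simp only [Finset.mem_filter, Finset.mem_univ, true_and] at hj ⊢
  exact h j hj

lemma rnk_le_iff (f : ι → ℝ) (i j : ι) : rnk f i ≤ rnk f j ↔ f i ≤ f j :=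
  ⟨fun h => not_lt.1 fun h' => not_lt.2 h (rnk_lt fun _ hk => hk.trans_lt h'),
    fun h => rnk_le fun _ hk => hk.trans h⟩

lemma rnk_congr {f g : ι → ℝ} (h : ∀ i j, f i ≤ f j ↔ g i ≤ g j) (i : ι) : rnk f i = rnk g i :=
  le_antisymm (rnk_le fun j => (h j i).1) (rnk_le fun j => (h j i).2)

lemma rnk_comp (f : ι → ℝ) (e : Equiv.Perm ι) (i : ι) :
    rnk (fun j => f (e j)) i = rnk f (e i) := by
  refine Finset.card_bij (fun j _ => e j) (fun j hj => by simpa using hj)
    (fun _ _ _ _ h => e.injective h) fun j hj => ⟨e.symm j, by simpa using hj, by simp⟩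

lemma aut (f : ι → ℝ) (e e' : Equiv.Perm ι)
    (h : ∀ i j, f (e i) ≤ f (e j) ↔ f (e' i) ≤ f (e' j)) (i : ι) : f (e i) = f (e' i) := by
  have h1 : rnk f (e i) = rnk f (e' i) := by
    rw [← rnk_comp, ← rnk_comp]
    exact rnk_congr h i
  exact le_antisymm ((rnk_le_iff f _ _).1 h1.le) ((rnk_le_iff f _ _).1 h1.ge)

lemma least {f₀ f : ι → ℝ} (h : ∀ i j, f₀ i < f₀ j → f i < f j) (i : ι) :
    IsLeast {v | v ∈ range (rnk f₀) ∧ rnk f i ≤ v} (rnk f₀ i) := by
  refine ⟨⟨⟨i, rfl⟩, rnk_le fun j hj => not_lt.1 fun h' => not_lt.2 hj (h _ _ h')⟩, ?_⟩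
  rintro _ ⟨⟨k, rfl⟩, hk⟩
  rw [rnk_le_iff]
  exact not_lt.1 fun h' => not_lt.2 hk (rnk_lt fun j hj => h _ _ (hj.trans_lt h'))

lemma deg {f₀ f g₀ g : ι → ℝ} (hf : ∀ i j, f₀ i < f₀ j → f i < f j)
    (hg : ∀ i j, g₀ i < g₀ j → g i < g j) (h : ∀ i j, f i ≤ f j ↔ g i ≤ g j) (e : Equiv.Perm ι)
    (he : ∀ i j, f₀ i ≤ f₀ j ↔ g₀ (e i) ≤ g₀ (e j)) (i j : ι) : f₀ i ≤ f₀ j ↔ g₀ i ≤ g₀ j := by
  have h1 : rnk f₀ = rnk g₀ ∘ e := funext fun k => (rnk_congr he k).trans (rnk_comp g₀ e k)
  have h2 : range (rnk f₀) = range (rnk g₀) := by rw [h1, e.surjective.range_comp]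
  have h3 : ∀ k, rnk f₀ k = rnk g₀ k := fun k => by
    have a := least hf k
    rw [h2, rnk_congr h k] at a
    exact a.unique (least hg k)
  rw [← rnk_le_iff, ← rnk_le_iff g₀, h3, h3]

omit [Fintype ι] in
lemma Wc_re (c : ι → ℂ) (i j : ι) : Wc c ((i, i), (j, j)) = 0 ↔ (c i).re = (c j).re := by
  simp only [Wc, padd, Complex.ext_iff, Complex.add_re, Complex.add_im, Complex.conj_re,
    Complex.conj_im, neg_mul, one_mul, Complex.neg_re, Complex.neg_im, Complex.zero_re,
    Complex.zero_im]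
  constructor
  · intro h
    linarith [h.1]
  · intro h
    constructor <;> linarith

omit [Fintype ι] in
lemma Wc_im (c : ι → ℂ) (i j : ι) : Wc c ((i, j), (j, i)) = 0 ↔ (c i).im = (c j).im := by
  simp only [Wc, padd, Complex.ext_iff, Complex.add_re, Complex.add_im, Complex.conj_re,
    Complex.conj_im, neg_mul, one_mul, Complex.neg_re, Complex.neg_im, Complex.zero_re,
    Complex.zero_im]
  constructor
  · intro h
    linarith [h.2]
  · intro h
    constructor <;> linarith

end JOrd

open JOrd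

theorem qvS : QvS := by
  classical
  intro ι _ c
  set Dg : Finset (ι ⊕ ι × ι) := Finset.univ.image fun i : ι => Sum.inr (i, i) with hD
  have hc : Dg.card = Fintype.card ι := by
    rw [hD, Finset.card_image_of_injective _ fun i j h => by simpa using h, Finset.card_univ]
  have hs : Dg ⊆ Finset.univ.filter fun x => Qf c x = 0 := fun x hx => by
    obtain ⟨i, -, rfl⟩ := Finset.mem_image.1 hx
    simp [Qf, padd]
  have hle : Fintype.card ι ≤ zc (Qf c) := by
    rw [← hc, zc]
    convert Finset.card_le_card hs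
  rw [Qv, coeff_chi_ne_zero_iff hle]
  constructor
  · intro h
    have h1 : Dg = Finset.univ.filter fun x => Qf c x = 0 :=
      Finset.eq_of_subset_of_card_le hs (by rw [hc, ← h, zc])
    have h2 : ∀ x, Qf c x = 0 → x ∈ Dg := fun x hx => by
      rw [h1]
      simpa using hx
    refine ⟨fun i j hij => ?_, fun i hi => ?_⟩
    · have := h2 (Sum.inr (i, j)) (by simp [Qf, padd, hij])
      obtain ⟨k, -, hk⟩ := Finset.mem_image.1 this
      simp only [Sum.inr.injEq, Prod.mk.injEq] at hk
      exact hk.1.symm.trans hk.2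
    · have := h2 (Sum.inl i) (by simpa [Qf] using hi)
      simp [hD] at this
  · rintro ⟨h1, h2⟩
    refine le_antisymm ?_ hle
    rw [← hc, zc]
    refine Finset.card_le_card fun x hx => ?_
    have hx' : Qf c x = 0 := by simpa using hx
    rcases x with i | ⟨i, j⟩
    · exact absurd (by simpa [Qf] using hx') (h2 i)
    · have : c i = c j := by
        simp only [Qf, padd, Sum.elim_inr] at hx'
        linear_combination hx'
      obtain rfl := h1 this
      simp [hD]

theorem autS : AutS := by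
  intro ι _ a b e e' hb h h'
  have k := h.symm.trans h'
  refine Equiv.ext fun i => hb (Complex.ext ?_ ?_)
  · exact aut (fun i => (b i).re) e e' (fun i j => (k i j).1) i
  · exact aut (fun i => (b i).im) e e' (fun i j => (k i j).2) i

theorem degS : DegS := by
  intro ι _ a₀ a b₀ b ha hb h ⟨e, he⟩ i j
  exact ⟨deg (f₀ := fun i => (a₀ i).re) (g₀ := fun i => (b₀ i).re) (fun i j => (ha i j).1)
      (fun i j => (hb i j).1) (fun i j => (h i j).1) e (fun i j => (he i j).1) i j,
    deg (f₀ := fun i => (a₀ i).im) (g₀ := fun i => (b₀ i).im) (fun i j => (ha i j).2)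
      (fun i j => (hb i j).2) (fun i j => (h i j).2) e (fun i j => (he i j).2) i j⟩

theorem dnS : DnS := by
  classical
  intro ι _ c₀
  have h1 : ∀ᶠ c in 𝓝 c₀, Dn c₀ c := by
    refine eventually_all.2 fun i => eventually_all.2 fun j => Eventually.and ?_ ?_
    · by_cases h : (c₀ i).re < (c₀ j).re
      · exact (ContinuousAt.eventually_lt (f := fun c : ι → ℂ => (c i).re)
          (g := fun c : ι → ℂ => (c j).re) (Continuous.continuousAt (by fun_prop))
          (Continuous.continuousAt (by fun_prop)) h).mono fun _ k _ => k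
      · exact Eventually.of_forall fun _ k => absurd k h
    · by_cases h : (c₀ i).im < (c₀ j).im
      · exact (ContinuousAt.eventually_lt (f := fun c : ι → ℂ => (c i).im)
          (g := fun c : ι → ℂ => (c j).im) (Continuous.continuousAt (by fun_prop))
          (Continuous.continuousAt (by fun_prop)) h).mono fun _ k _ => k
      · exact Eventually.of_forall fun _ k => absurd k h
  have h2 : ∀ᶠ c in 𝓝 c₀, ∀ q, Wc c q = 0 → Wc c₀ q = 0 := by
    refine eventually_all.2 fun q => ?_
    by_cases h : Wc c₀ q = 0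
    · exact Eventually.of_forall fun _ _ => h
    · have hc : ContinuousAt (fun c : ι → ℂ => Wc c q) c₀ := by
        simp only [Wc, padd]
        fun_prop
      exact (hc.eventually_ne h).mono fun _ k k' => absurd k' k
  obtain ⟨δ, δ0, hδ⟩ := Metric.eventually_nhds_iff.1 (h1.and h2)
  refine ⟨δ, δ0, fun c hc => ?_⟩
  obtain ⟨k1, k2⟩ := hδ (y := c) ((dist_pi_lt_iff δ0).2 fun i => by rw [dist_eq_norm]; exact hc i)
  refine ⟨k1, fun hz => ?_⟩
  have k3 : (Finset.univ.filter fun q => Wc c q = 0) = Finset.univ.filter fun q => Wc c₀ q = 0 := by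
    refine Finset.eq_of_subset_of_card_le (fun q hq => ?_) ?_
    · simp only [Finset.mem_filter, Finset.mem_univ, true_and] at hq ⊢
      exact k2 q hq
    · unfold zc at hz
      convert hz.ge
  have k4 : ∀ q, Wc c₀ q = 0 → Wc c q = 0 := fun q hq => by
    have : q ∈ Finset.univ.filter fun q => Wc c q = 0 := by
      rw [k3]
      simpa using hq
    simpa using this
  intro i j
  refine ⟨⟨fun h => ?_, fun h => not_lt.1 fun h' => not_lt.2 h ((k1 j i).1 h')⟩,
    ⟨fun h => ?_, fun h => not_lt.1 fun h' => not_lt.2 h ((k1 j i).2 h')⟩⟩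
  · rcases h.lt_or_eq with h | h
    · exact ((k1 i j).1 h).le
    · exact ((Wc_re c i j).1 (k4 _ ((Wc_re c₀ i j).2 h))).le
  · rcases h.lt_or_eq with h | h
    · exact ((k1 i j).2 h).le
    · exact ((Wc_im c i j).1 (k4 _ ((Wc_im c₀ i j).2 h))).le

theorem nearS : NearS := by
  intro T ι _ _ c t₀ hc hi δ δ0
  have h0 : ∀ᶠ x in 𝓝[>] (0 : ℝ), (∀ i j, i ≠ j → x ≤ ‖c t₀ i - c t₀ j‖ / 2) ∧ x ≤ δ ∧ 0 < x := by
    refine Eventually.and (eventually_all.2 fun i => eventually_all.2 fun j => ?_)
      (Eventually.and ((eventually_le_nhds δ0).filter_mono nhdsWithin_le_nhds) self_mem_nhdsWithin)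
    by_cases h : i = j
    · exact Eventually.of_forall fun _ k => absurd h k
    · have : 0 < ‖c t₀ i - c t₀ j‖ / 2 := half_pos (norm_pos_iff.2 (sub_ne_zero.2 (hi.ne h)))
      exact ((eventually_le_nhds this).filter_mono nhdsWithin_le_nhds).mono fun _ k _ => k
  obtain ⟨η, η1, η2, η0⟩ := h0.exists
  have h1 : ∀ᶠ t in 𝓝 t₀, ∀ i, ∃ j, ‖c t j - c t₀ i‖ < η := by
    refine eventually_all.2 fun i => ?_
    have e1 : ∀ t, (chi (c t)).eval (c t₀ i) =
        ∑ k ∈ Finset.range (Fintype.card ι + 1), (chi (c t)).coeff k * c t₀ i ^ k := fun t => by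
      rw [eval_eq_sum_range, natDegree_chi]
    have e2 : ContinuousAt (fun t => ‖(chi (c t)).eval (c t₀ i)‖) t₀ := by
      simp only [e1]
      exact (tendsto_finsetSum _ fun k _ => (hc k).mul continuousAt_const).norm
    have e3 : ‖(chi (c t₀)).eval (c t₀ i)‖ < η ^ Fintype.card ι := by
      rw [eval_chi_eq_zero.2 ⟨i, rfl⟩, norm_zero]
      positivity
    refine (e2.eventually_lt continuousAt_const e3).mono fun t ht => ?_
    by_contra h
    push Not at h
    refine not_le.2 ht ?_
    rw [chi, eval_prod, norm_prod, ← Finset.card_univ, ← Finset.prod_const]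
    refine Finset.prod_le_prod (fun _ _ => η0.le) fun j _ => ?_
    rw [eval_sub, eval_X, eval_C, norm_sub_rev]
    exact h j
  refine h1.mono fun t ht => ?_
  choose e he using ht
  have inj : Injective e := fun i j hij => by
    by_contra h
    have a := η1 i j h
    have b := norm_sub_le_norm_sub_add_norm_sub (c t₀ i) (c t (e i)) (c t₀ j)
    have d := he j
    rw [← hij] at d
    rw [norm_sub_rev (c t₀ i) (c t (e i))] at b
    linarith [he i]
  exact ⟨Equiv.ofBijective e (Finite.injective_iff_bijective.1 inj), fun i => (he i).trans_le η2⟩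

theorem bndS : BndS := by
  intro T ι _ _ c K hK hc
  have h1 : Continuous fun t => ∑ k ∈ Finset.range (Fintype.card ι), ‖(chi (c t)).coeff k‖ :=
    continuous_finsetSum _ fun k _ => (hc k).norm
  obtain ⟨M, hM⟩ := hK.bddAbove_image h1.continuousOn
  refine ⟨M + 3, fun t ht i => ?_⟩
  have h2 : ∑ k ∈ Finset.range (Fintype.card ι), ‖(chi (c t)).coeff k‖ ≤ M := hM ⟨t, ht, rfl⟩
  have h3 := IsRoot.norm_lt_cauchyBound (chi_monic (c t)).ne_zero
    (show (chi (c t)).IsRoot (c t i) from eval_chi_eq_zero.2 ⟨i, rfl⟩)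
  rw [cauchyBound, (chi_monic (c t)).leadingCoeff, nnnorm_one, div_one, natDegree_chi] at h3
  have h4 : (Finset.range (Fintype.card ι)).sup (fun k => ‖(chi (c t)).coeff k‖₊) ≤
      ∑ k ∈ Finset.range (Fintype.card ι), ‖(chi (c t)).coeff k‖₊ :=
    Finset.sup_le fun k hk => Finset.single_le_sum (f := fun k => ‖(chi (c t)).coeff k‖₊)
      (fun _ _ => zero_le) hk
  have h5 := h3.trans_le (add_le_add_left h4 1)
  have h6 : ‖c t i‖ < ∑ k ∈ Finset.range (Fintype.card ι), ‖(chi (c t)).coeff k‖ + 1 := by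
    have h7 := NNReal.coe_lt_coe.2 h5
    simpa using h7
  linarith

end Pool.Agent.Lib.MP_837412_lc
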