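import Pool.Agent.Lib.MP_837412_lc.StT

/-!
Gradient-like fields and bands without critical points.
-/

namespace Pool.Agent.Lib.MP_837412_lc

open Set Function MvPolynomial

theorem pgS : PGS := by
  intro E _ _ _ f hf
  let e := Module.finBasis ℝ E
  obtain ⟨C, hC, h⟩ := e.exists_opNorm_le (F := ℝ)
  have hd : ∀ i, ContDiff ℝ 1 fun y => fderiv ℝ f y (e i) := fun i =>
    (hf.fderiv_right (m := 1) le_rfl).clm_apply contDiff_const
  have h0 : ∀ y, 0 ≤ ∑ i, fderiv ℝ f y (e i) ^ 2 := fun y => by positivity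
  refine ⟨fun y => (-C ^ 2) • ∑ i, fderiv ℝ f y (e i) • e i,
    fun y => C ^ 2 * ∑ i, fderiv ℝ f y (e i) ^ 2, C ^ 2 * ∑ i, ‖e i‖ ^ 2 + 1,
    ⟨?_, ?_, by positivity, fun y => ?_, fun y => ?_⟩, fun y => ?_⟩
  · exact (contDiff_const.smul (ContDiff.sum fun i _ => (hd i).smul contDiff_const)).locallyLipschitz
  · exact (contDiff_const.mul (ContDiff.sum fun i _ => (hd i).pow 2)).locallyLipschitz
  · have h1 : ‖∑ i, fderiv ℝ f y (e i) • e i‖ ≤ ∑ i, |fderiv ℝ f y (e i)| * ‖e i‖ :=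
      (norm_sum_le _ _).trans (by simp [norm_smul])
    have h2 := (pow_le_pow_left₀ (norm_nonneg _) h1 2).trans (Finset.sum_mul_sq_le_sq_mul_sq _ _ _)
    simp only [sq_abs] at h2
    rw [norm_smul, mul_pow, Real.norm_eq_abs, sq_abs, neg_sq]
    have h3 := mul_le_mul_of_nonneg_left h2 (sq_nonneg (C ^ 2))
    have h4 := mul_nonneg (sq_nonneg C) (h0 y)
    nlinarith
  · refine ⟨fderiv ℝ f y, (hf.differentiable two_ne_zero y).hasFDerivAt, ?_⟩
    simp [sq]
  · have := h (u := fderiv ℝ f y) (Real.sqrt_nonneg (∑ i, fderiv ℝ f y (e i) ^ 2)) fun i =>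
      Real.abs_le_sqrt (Finset.single_le_sum (f := fun i => fderiv ℝ f y (e i) ^ 2)
        (fun _ _ => sq_nonneg _) (Finset.mem_univ i))
    refine (pow_le_pow_left₀ (norm_nonneg _) this 2).trans_eq ?_
    rw [mul_pow, Real.sq_sqrt (h0 y)]

theorem pgC : PGC := by
  intro σ _ G ζ hζ
  have hd : ∀ i, ContDiff ℝ 1 fun y : σ → ℂ => eval y (pderiv i G) := fun i =>
    (contDiff_eval _).restrict_scalars ℝ
  refine ⟨?_, ?_, by positivity, fun y => ?_, fun y => ?_⟩
  · exact (contDiff_pi.2 fun i =>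
      contDiff_const.mul (Complex.conjCLE.contDiff.comp (hd i))).locallyLipschitz
  · exact (ContDiff.sum fun i _ => (hd i).norm_sq ℂ).locallyLipschitz
  · have : ‖fun i => ζ * (starRingEnd ℂ) (eval y (pderiv i G))‖ ≤ ‖ζ‖ * √(n2 G y) :=
      (pi_norm_le_iff_of_nonneg (by positivity)).2 fun i => by
        rw [norm_mul, Complex.norm_conj]
        exact mul_le_mul_of_nonneg_left (Real.le_sqrt_of_sq_le
          (Finset.single_le_sum (f := fun i => ‖eval y (pderiv i G)‖ ^ 2)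
            (fun _ _ => sq_nonneg _) (Finset.mem_univ i))) (norm_nonneg _)
    refine (pow_le_pow_left₀ (norm_nonneg _) this 2).trans_eq ?_
    rw [mul_pow, Real.sq_sqrt (n2_nonneg G y)]
  · refine ⟨(dif G y).restrictScalars ℝ,
      (hasStrictFDerivAt_eval G y).hasFDerivAt.restrictScalars ℝ, ?_⟩
    rw [ContinuousLinearMap.coe_restrictScalars', dif_apply, n2, Finset.sum_smul]
    refine Finset.sum_congr rfl fun i _ => ?_
    rw [mul_left_comm, Complex.mul_conj', Complex.real_smul, mul_comm]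
    simp

theorem acS (h1 : K1S) (h2 : PGS) : AcS := by
  intro E _ _ _ f a b S S' hf hab hS hS' hd hc h
  obtain ⟨γ, n, M, hp, hn⟩ := h2 E f hf
  have hm : ∀ c : ℝ, Mono (-1 : ℝ) (Iio c) := fun c z hz t ht => by
    simp only [mem_Iio, smul_eq_mul] at hz ⊢
    linarith
  refine h1 E ℝ f γ n (-1) M (Iio b) (Iio a) S S' hp
    ⟨isOpen_Iio, isOpen_Iio, Iio_subset_Iio hab, hm b, hm a, fun z _ =>
      ⟨|z - a| + 1, by positivity, ?_⟩⟩ hS hS' hd hc fun Z hZ hs => ?_
  · have := le_abs_self (z - a)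
    simp only [mem_Iio, smul_eq_mul]
    linarith
  rcases Z.eq_empty_or_nonempty with rfl | h0
  · exact ⟨1, one_pos, fun _ _ h => h.elim⟩
  obtain ⟨b', hb, hb'⟩ := hZ.exists_isGreatest h0
  obtain ⟨κ, hκ, hk⟩ := h b' (hs hb).1
  exact ⟨κ ^ 2, by positivity, fun y hy hz =>
    (pow_le_pow_left₀ hκ.le (hk y hy ⟨not_lt.1 (hs hz).2, hb' hz⟩) 2).trans (hn y)⟩

theorem limS (h1 : AcS) (h2 : GrowS) : LimS := by
  classical
  intro σ _ m p l S S' hm hp hl hc hS hS' hd hs
  obtain ⟨h0, hK⟩ := h2 σ m p hm hp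
  let f : (σ → ℝ) → ℝ := fun y => -eval y p / eval y (F0 σ ℝ m)
  have hf : ContDiff ℝ 2 f := (contDiff_eval p).neg.div (contDiff_eval _) fun y => (h0 y).ne'
  have e0 : {y | f y < 0} = {y | 0 < eval y p} := by
    ext y
    simp only [f, mem_ofPred_eq, div_lt_iff₀ (h0 y), zero_mul, neg_lt_zero]
  have e1 : {y | f y < -l⁻¹} = {y | eval y (Fl m p l) < 0} := by
    ext y
    simp only [f, mem_ofPred_eq, div_lt_iff₀ (h0 y), eval_Fl, neg_mul, neg_lt_neg_iff,
      inv_mul_lt_iff₀ hl, sub_neg]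
  rw [← e0, ← e1]
  refine h1 _ f _ _ S S' hf (neg_nonpos.2 (inv_pos.2 hl).le) hS hS' hd (e0 ▸ hs) fun b hb => ?_
  have hC : IsCompact (f ⁻¹' Icc (-l⁻¹) b) := by
    refine (hK (-b)⁻¹ 0).of_isClosed_subset (isClosed_Icc.preimage hf.continuous) fun y hy => ?_
    have := hy.2
    simp only [f, div_le_iff₀ (h0 y)] at this
    rw [mem_ofPred_eq, eval_Fl, sub_nonpos, le_inv_mul_iff₀ (neg_pos.2 hb)]
    linarith
  obtain ⟨κ, hκ, hk⟩ := hC.exists_forall_le' (f := fun y => ‖fderiv ℝ f y‖) (a := 0)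
    (hf.continuous_fderiv two_ne_zero).norm.continuousOn fun y hy => by
      refine norm_pos_iff.2 fun hz => ?_
      have hy0 : f y < 0 := hy.2.trans_lt hb
      have hv : ∀ z, eval z (Fl m p (-f y)⁻¹) = eval z (F0 σ ℝ m) * (1 + (-f y)⁻¹ * f z) :=
        fun z => by
          have := (h0 z).ne'
          rw [eval_Fl]
          simp only [f]
          field_simp
          ring
      have hw : 1 + (-f y)⁻¹ * f y = 0 := by
        have := hy0.ne
        field_simp
        ring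
      refine hc (-f y)⁻¹ ((le_inv_comm₀ hl (neg_pos.2 hy0)).2 (neg_le.1 hy.1)) y (fun i => ?_)
        (by rw [hv, hw, mul_zero])
      have d1 := (hasStrictFDerivAt_eval (Fl m p (-f y)⁻¹) y).hasFDerivAt
      have d2 := (hasStrictFDerivAt_eval (F0 σ ℝ m) y).hasFDerivAt.mul
        ((((hf.differentiable two_ne_zero y).hasFDerivAt).const_mul (-f y)⁻¹).const_add 1)
      have d3 := congrArg (· (Pi.single i 1)) (d1.unique (d2.congr_of_eventuallyEq (.of_forall hv)))
      rw [hw, hz] at d3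
      simpa [dif_apply, Pi.single_apply] using d3
  exact ⟨κ, hκ, fun y _ hy => hk y hy⟩

end Pool.Agent.Lib.MP_837412_lc
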