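import Pool.Agent.Lib.MP_837412_lc.StT

/-!
The homology of sublevel sets is determined by the Morse data and the total Betti numbers.
-/

namespace Pool.Agent.Lib.MP_837412_lc

open Pool.Agent.Shared.Mod2 Set Function Filter Topology

namespace JReal

/-- A cell creates a class in its degree or kills a class one degree below. -/
def Dich (xb xa : ℕ → ℕ∞) (n : ℕ) : Prop :=
  (∀ j, xb j = xa j + if j = n then 1 else 0) ∨ ∀ j, xa j = xb j + if j + 1 = n then 1 else 0

lemma add_eq_one {x y : ℕ∞} (h : x + y = 1) : (x = 1 ∧ y = 0) ∨ (x = 0 ∧ y = 1) := by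
  have h1 : x + y ≠ ⊤ := h ▸ ENat.one_ne_top
  lift x to ℕ using fun e => h1 (by simp [e])
  lift y to ℕ using fun e => h1 (by simp [e])
  norm_cast at h ⊢
  omega

lemma dich {Y : Type} [TopologicalSpace Y] {A B : Set Y} {n : ℕ} (h : Cell A B n) (hB : B ⊆ A) :
    0 < n ∧ Dich (hs A ∅) (hs B ∅) n := by
  obtain ⟨i, p, δ, a, b, c, d⟩ := triple_s (empty_subset B) hB
  obtain _ | n := n
  · exact absurd ((hs_zero A B).symm.trans (h 0)) (by simp)
  refine ⟨n.succ_pos, ?_⟩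
  have e : ∀ k, k ≠ n → p (k + 1) = 0 ∧ δ k = 0 := fun k hk =>
    add_eq_zero.1 ((c k).symm.trans ((h _).trans (if_neg (by omega))))
  rcases add_eq_one ((c n).symm.trans ((h _).trans (if_pos rfl))) with e' | e'
  · refine Or.inl fun j => ?_
    have h1 : δ j = 0 := by
      rcases eq_or_ne j n with rfl | hj
      exacts [e'.2, (e j hj).2]
    rw [a, b, h1, zero_add]
    congr 1
    obtain _ | j := j
    · rw [d, if_neg (by omega)]
    · rcases eq_or_ne j n with rfl | hj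
      · rw [e'.1, if_pos rfl]
      · rw [(e j hj).1, if_neg (by omega)]
  · refine Or.inr fun j => ?_
    have h1 : p j = 0 := by
      obtain _ | j := j
      · exact d
      · rcases eq_or_ne j n with rfl | hj
        exacts [e'.1, (e j hj).1]
    rw [a, b, h1, add_zero, add_comm]
    congr 1
    rcases eq_or_ne j n with rfl | hj
    · rw [e'.2, if_pos rfl]
    · rw [(e j hj).2, if_neg (by omega)]

lemma clash {xa xb xb' y : ℕ → ℕ∞} {n K : ℕ} (hn : 0 < n) (hK : n < K) (e1 : ∀ j, xa j ≠ ⊤)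
    (e2 : ∀ j, y j ≠ ⊤) (d : ∀ j, xb j = xa j + if j = n then 1 else 0)
    (d' : ∀ j, xa j = xb' j + if j + 1 = n then 1 else 0)
    (tot : ∑ j ∈ Finset.range K, (xb j + y j) = ∑ j ∈ Finset.range K, (xb' j + y j)) : False := by
  obtain ⟨n, rfl⟩ : ∃ m, n = m + 1 := ⟨n - 1, by omega⟩
  have h1 : ∑ j ∈ Finset.range K, (xb j + y j) = ∑ j ∈ Finset.range K, (xa j + y j) + 1 := by
    simp only [d, add_right_comm _ _ (y _)]
    rw [Finset.sum_add_distrib (f := fun j => xa j + y j), Finset.sum_ite_eq',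
      if_pos (Finset.mem_range.2 hK)]
  have h2 : ∑ j ∈ Finset.range K, (xa j + y j) = ∑ j ∈ Finset.range K, (xb' j + y j) + 1 := by
    simp only [d', add_right_comm _ _ (y _), Nat.add_right_cancel_iff]
    rw [Finset.sum_add_distrib (f := fun j => xb' j + y j), Finset.sum_ite_eq',
      if_pos (Finset.mem_range.2 (by omega))]
  have h3 : ∑ j ∈ Finset.range K, (xa j + y j) ≠ ⊤ :=
    WithTop.sum_ne_top.2 fun j _ => WithTop.add_ne_top.2 ⟨e1 j, e2 j⟩
  rw [← tot, h1] at h2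
  generalize ∑ j ∈ Finset.range K, (xa j + y j) = T at h2 h3
  lift T to ℕ using h3
  norm_cast at h2
  omega

lemma comb {xa xb xa' xb' y y' : ℕ → ℕ∞} {n K₀ : ℕ} (hn : 0 < n)
    (e1 : ∀ j, xa j = xa' j ∧ xa j ≠ ⊤) (e2 : ∀ j, y j = y' j ∧ y j ≠ ⊤) (d : Dich xb xa n)
    (d' : Dich xb' xa' n) (tot : ∀ K, K₀ ≤ K →
      ∑ j ∈ Finset.range K, (xb j + y j) = ∑ j ∈ Finset.range K, (xb' j + y' j)) (j : ℕ) :
    xb j = xb' j ∧ xb j ≠ ⊤ := by
  obtain rfl : xa = xa' := funext fun j => (e1 j).1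
  obtain rfl : y = y' := funext fun j => (e2 j).1
  have t := tot (K₀ + n + 1) (by omega)
  have ne : ∀ (c : Prop) [Decidable c], (if c then (1 : ℕ∞) else 0) ≠ ⊤ := fun c _ => by
    split_ifs <;> simp
  rcases d with d | d <;> rcases d' with d' | d'
  · exact ⟨(d j).trans (d' j).symm, d j ▸ WithTop.add_ne_top.2 ⟨(e1 j).2, ne _⟩⟩
  · exact (clash hn (by omega) (fun j => (e1 j).2) (fun j => (e2 j).2) d d' t).elim
  · exact (clash hn (by omega) (fun j => (e1 j).2) (fun j => (e2 j).2) d' d t.symm).elim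
  · exact ⟨WithTop.add_right_cancel (ne _) ((d j).symm.trans (d' j)),
      (WithTop.add_ne_top.1 (d j ▸ (e1 j).2)).1⟩

lemma total {Y : Type} [TopologicalSpace Y] (hZ : ∀ k, Z0 (univ : Set Y) k) {A : Set Y}
    (hA : A.Nonempty) (K : ℕ) : ∑ j ∈ Finset.range (K + 2), hs A ∅ j =
      ∑ j ∈ Finset.range (K + 3), hs univ A j + 1 := by
  induction K with
  | zero =>
    simp only [Finset.sum_range_succ, Finset.range_zero, Finset.sum_empty, hs_zero, zero_add]
    rw [hs_empty hA 0, hs_succ (subset_univ A) hZ 0, hs_succ (subset_univ A) hZ 1, hr_zero hA,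
      if_pos rfl]
    simp only [zero_add]
  | succ K ih =>
    rw [Finset.sum_range_succ, ih, Finset.sum_range_succ _ (K + 3), hs_empty hA (K + 1),
      hs_succ (subset_univ A) hZ (K + 2), if_neg (by omega), add_zero, add_right_comm]

lemma total' {Y : Type} [TopologicalSpace Y] (hZ : ∀ k, Z0 (univ : Set Y) k) {A S S' : Set Y}
    (hS : IsOpen S) (hS' : IsOpen S') (hd : Disjoint S S') (h : A ⊆ S ∪ S') (hA : A.Nonempty)
    {J K : ℕ} (hJ : ∀ j, J ≤ j → hs univ A j = 0) (hK : J + 2 ≤ K) :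
    ∑ j ∈ Finset.range K, (hs (A ∩ S) ∅ j + hs (A ∩ S') ∅ j) =
      ∑ j ∈ Finset.range J, hs univ A j + 1 := by
  obtain ⟨K, rfl⟩ : ∃ L, K = L + 2 := ⟨K - 2, by omega⟩
  rw [Finset.sum_subset (Finset.range_mono (show J ≤ K + 3 by omega)) fun j _ hj =>
    hJ j (by simpa using hj), ← total hZ hA]
  refine Finset.sum_congr rfl fun j _ => ?_
  rw [hs_split hS hS' hd h (empty_subset A), empty_inter, empty_inter]

lemma below {ι : Type} [Fintype ι] (v : ι → ℝ) (m : ℝ) : ∃ a < m, ∀ i, v i < m → v i < a := by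
  have h : ∀ᶠ a in 𝓝[<] m, ∀ i, v i < m → v i < a := by
    refine eventually_all.2 fun i => ?_
    by_cases hi : v i < m
    · exact ((eventually_gt_nhds hi).filter_mono nhdsWithin_le_nhds).mono fun _ h _ => h
    · exact Eventually.of_forall fun _ h => absurd h hi
  exact ((eventually_mem_nhdsWithin (s := Iio m)).and h).exists

lemma sub {E : Type} (f : E → ℝ) (S : Set E) {a b : ℝ} (h : a ≤ b) :
    {y | f y < a} ∩ S ⊆ {y | f y < b} ∩ S := fun _ hy => ⟨lt_of_lt_of_le hy.1 h, hy.2⟩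

end JReal

open JReal in
theorem realS : RealS := by
  classical
  intro E E' ι _ _ _ f f' S₁ S₂ S₁' S₂' v v' real side n J hZ hZ' R R' ord neg tot
  have key : ∀ (N : ℕ) (t t' : ℝ), (Finset.univ.filter fun i => v i < t).card = N → t ≤ 0 →
      t' ≤ 0 → (∀ i, v i < t ↔ v' i < t') → (∀ i, real i → v i ≠ t) → (∀ i, real i → v' i ≠ t') →
      (∀ j, hs ({y | f y < t} ∩ S₁) ∅ j = hs ({y | f' y < t'} ∩ S₁') ∅ j ∧
        hs ({y | f y < t} ∩ S₁) ∅ j ≠ ⊤) ∧
      ∀ j, hs ({y | f y < t} ∩ S₂) ∅ j = hs ({y | f' y < t'} ∩ S₂') ∅ j ∧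
        hs ({y | f y < t} ∩ S₂) ∅ j ≠ ⊤ := by
    intro N
    induction N using Nat.strong_induction_on with
    | _ N ih =>
    intro t t' hN t0 t0' mt ne ne'
    rcases (Finset.univ.filter fun i => v i < t).eq_empty_or_nonempty with h0 | h0
    · have h1 : ∀ i, ¬ v i < t := fun i hi => by
        simpa [h0] using (Finset.mem_filter.2 ⟨Finset.mem_univ i, hi⟩ :
          i ∈ Finset.univ.filter fun i => v i < t)
      rw [R.bot t fun i _ => not_lt.1 (h1 i), R'.bot t' fun i _ => not_lt.1 fun c => h1 i ((mt i).2 c)]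
      simp only [empty_inter]
      refine ⟨fun j => ?_, fun j => ?_⟩ <;> rw [Ac.refl (∅ : Set E) j, Ac.refl (∅ : Set E') j] <;>
        simp
    obtain ⟨i₀, m1, m2⟩ := Finset.exists_max_image _ v h0
    simp only [Finset.mem_filter, Finset.mem_univ, true_and] at m1 m2
    have m1' := (mt i₀).1 m1
    obtain ⟨a, a1, a2⟩ := below v (v i₀)
    obtain ⟨a', a1', a2'⟩ := below v' (v' i₀)
    have lt : ∀ i, v i < v i₀ ↔ v' i < v' i₀ := fun i => by rw [← not_le, ← not_le, ord]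
    have eqv : ∀ i, v i = v i₀ ↔ v' i = v' i₀ := fun i => by
      rw [le_antisymm_iff, le_antisymm_iff, ord, ord]
    have I := ih _ (by
        rw [← hN]
        refine Finset.card_lt_card ⟨fun i hi => ?_, fun hi => ?_⟩
        · simp only [Finset.mem_filter, Finset.mem_univ, true_and] at hi ⊢
          linarith
        · have := hi (Finset.mem_filter.2 ⟨Finset.mem_univ i₀, m1⟩)
          simp only [Finset.mem_filter, Finset.mem_univ, true_and] at this
          linarith) a a' rfl (by linarith) (by linarith)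
      (fun i => ⟨fun h => a2' i ((lt i).1 (h.trans a1)), fun h => a2 i ((lt i).2 (h.trans a1'))⟩)
      (fun i _ h => (a2 i (h.trans_lt a1)).ne h) fun i _ h => (a2' i (h.trans_lt a1')).ne h
    have k1 : ∀ i, real i → v i ∈ Icc a t → v i = v i₀ := fun i hi h =>
      le_antisymm (m2 i (h.2.lt_of_ne (ne i hi))) (not_lt.1 fun c => (a2 i c).not_ge h.1)
    have k2 : ∀ i, real i → v' i ∈ Icc a' t' → v' i = v' i₀ := fun i hi h =>
      le_antisymm ((ord _ _).1 (m2 i ((mt i).2 (h.2.lt_of_ne (ne' i hi)))))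
        (not_lt.1 fun c => (a2' i c).not_ge h.1)
    have l : a ≤ t := by linarith
    have l' : a' ≤ t' := by linarith
    have ac : ∀ {S : Set E} {S' : Set E'}, Ac ({y | f y < t} ∩ S) ({y | f y < a} ∩ S) →
        Ac ({y | f' y < t'} ∩ S') ({y | f' y < a'} ∩ S') →
        (∀ j, hs ({y | f y < a} ∩ S) ∅ j = hs ({y | f' y < a'} ∩ S') ∅ j ∧
          hs ({y | f y < a} ∩ S) ∅ j ≠ ⊤) →
        ∀ j, hs ({y | f y < t} ∩ S) ∅ j = hs ({y | f' y < t'} ∩ S') ∅ j ∧
          hs ({y | f y < t} ∩ S) ∅ j ≠ ⊤ := fun h h' e j => by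
      rw [h.left (empty_subset _) (sub f _ l), h'.left (empty_subset _) (sub f' _ l')]
      exact e j
    by_cases hr : ∃ i, real i ∧ v i = v i₀
    · obtain ⟨i, r1, r2⟩ := hr
      have r2' := (eqv i).1 r2
      obtain ⟨c0, c1, c2⟩ := R.cell a t i t0 r1 ⟨r2 ▸ a1, r2 ▸ m1⟩ fun j hj rj h =>
        hj (R.inj j i rj r1 ((k1 j rj h).trans r2.symm))
      obtain ⟨c0', c1', c2'⟩ := R'.cell a' t' i t0' r1 ⟨r2' ▸ a1', r2' ▸ m1'⟩ fun j hj rj h =>
        hj (R'.inj j i rj r1 ((k2 j rj h).trans r2'.symm))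
      obtain ⟨z, T⟩ := tot t t' ⟨i₀, m1⟩ mt
      have T' : ∀ K, J + 2 ≤ K → ∑ j ∈ Finset.range K,
          (hs ({y | f y < t} ∩ S₁) ∅ j + hs ({y | f y < t} ∩ S₂) ∅ j) = ∑ j ∈ Finset.range K,
          (hs ({y | f' y < t'} ∩ S₁') ∅ j + hs ({y | f' y < t'} ∩ S₂') ∅ j) := fun K hK => by
        rw [total' (A := {y | f y < t}) hZ R.oS R.oS' R.dis
            (fun y hy => R.cov (lt_of_lt_of_le hy t0)) c0
            (fun j hj => (z j hj).1) hK,
          total' (A := {y | f' y < t'}) hZ' R'.oS R'.oS' R'.dis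
            (fun y hy => R'.cov (lt_of_lt_of_le hy t0')) c0'
            (fun j hj => (z j hj).2) hK, T]
      by_cases sd : side i
      · have e := ac (c1 sd).2 (c1' sd).2 I.2
        have d := dich (c1 sd).1 (sub f _ l)
        exact ⟨comb d.1 I.1 e d.2 (dich (c1' sd).1 (sub f' _ l')).2 T', e⟩
      · have e := ac (c2 sd).1 (c2' sd).1 I.1
        have d := dich (c2 sd).2 (sub f _ l)
        exact ⟨e, comb d.1 I.2 e d.2 (dich (c2' sd).2 (sub f' _ l')).2 fun K hK => by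
          simpa only [add_comm] using T' K hK⟩
    · have c := R.ac a t l t0 fun i ri h => hr ⟨i, ri, k1 i ri h⟩
      have c' := R'.ac a' t' l' t0' fun i ri h => hr ⟨i, ri, (eqv i).2 (k2 i ri h)⟩
      exact ⟨ac c.1 c'.1 I.1, ac c.2 c'.2 I.2⟩
  exact (key _ 0 0 rfl le_rfl le_rfl neg R.ne R'.ne).1

end Pool.Agent.Lib.MP_837412_lc
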