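import Pool.Agent.Lib.MP_837412_lc.StT

/-!
Stability of the pencil: nearby members differ, after a homeomorphism, only near the critical values.
-/

namespace Pool.Agent.Lib.MP_837412_lc

open Set Function Filter Topology MvPolynomial

namespace JST

variable {σ : Type} [Fintype σ]

lemma eval_pderiv_Fl (m : ℕ) (p : MvPolynomial σ ℂ) (l : ℂ) (y : σ → ℂ) (i : σ) :
    eval y (pderiv i (Fl m p l)) = eval y (pderiv i (F0 σ ℂ m)) - l * eval y (pderiv i p) := by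
  simp [Fl]

lemma cd_eval (G : MvPolynomial σ ℂ) : ContDiff ℝ 1 fun q : ℂ × (σ → ℂ) => eval q.2 G :=
  ((contDiff_eval G).restrict_scalars ℝ).comp contDiff_snd

lemma cd_D (m : ℕ) (p : MvPolynomial σ ℂ) (i : σ) :
    ContDiff ℝ 1 fun q : ℂ × (σ → ℂ) => eval q.2 (pderiv i (Fl m p q.1)) := by
  simp only [eval_pderiv_Fl]
  exact (cd_eval _).sub (contDiff_fst.mul (cd_eval _))

lemma cd_n (m : ℕ) (p : MvPolynomial σ ℂ) :
    ContDiff ℝ 1 fun q : ℂ × (σ → ℂ) => n2 (Fl m p q.1) q.2 :=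
  ContDiff.sum fun i _ => (cd_D m p i).norm_sq ℂ

lemma lip_inv {κ : ℝ} (hκ : 0 < κ) : LocallyLipschitz fun s : ℝ => (max s κ)⁻¹ := by
  refine LipschitzWith.locallyLipschitz (K := ⟨(κ * κ)⁻¹, by positivity⟩)
    (LipschitzWith.of_dist_le_mul fun s t => ?_)
  have a : κ ≤ max s κ := le_max_right _ _
  have b : κ ≤ max t κ := le_max_right _ _
  have a0 := hκ.trans_le a
  have b0 := hκ.trans_le b
  rw [Real.dist_eq, Real.dist_eq, inv_sub_inv a0.ne' b0.ne', abs_div, abs_of_pos (mul_pos a0 b0),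
    abs_sub_comm, div_eq_inv_mul]
  exact mul_le_mul (inv_anti₀ (mul_pos hκ hκ) (mul_le_mul a b hκ.le a0.le))
    (abs_max_sub_max_le_abs _ _ _) (abs_nonneg _) (by positivity)

/-- The parameter at time `t`, frozen outside the unit interval. -/
noncomputable def lt (l₀ l : ℂ) (t : ℝ) : ℂ := l₀ + (max 0 (min t 1) : ℝ) • (l - l₀)

lemma lt_of_mem (l₀ l : ℂ) {t : ℝ} (h : t ∈ Icc (0 : ℝ) 1) : lt l₀ l t = l₀ + t * (l - l₀) := by
  rw [lt, min_eq_left h.2, max_eq_right h.1, Complex.real_smul]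

lemma norm_lt_sub (l₀ l : ℂ) (t : ℝ) : ‖lt l₀ l t - l₀‖ ≤ ‖l - l₀‖ := by
  rw [lt, add_sub_cancel_left, norm_smul, Real.norm_of_nonneg (le_max_left _ _)]
  exact mul_le_of_le_one_left (norm_nonneg _) (max_le zero_le_one (min_le_right _ _))

lemma lip_lt (l₀ l : ℂ) : LocallyLipschitz (lt l₀ l) := by
  have a : ContDiff ℝ 1 fun s : ℝ => l₀ + s • (l - l₀) :=
    contDiff_const.add (contDiff_id.smul contDiff_const)
  exact a.locallyLipschitz.comp ((LocallyLipschitz.id.min_const 1).const_max 0)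

/-- The field. -/
noncomputable def ww (m : ℕ) (p : MvPolynomial σ ℂ) (l₀ l : ℂ) (κ : ℝ) (q : (σ → ℂ) × ℝ) : σ → ℂ :=
  fun i => (max (n2 (Fl m p (lt l₀ l q.2)) q.1) κ)⁻¹ •
    ((l - l₀) * eval q.1 p * (starRingEnd ℂ) (eval q.1 (pderiv i (Fl m p (lt l₀ l q.2)))))

/-- The smooth part of the field. -/
noncomputable def w0 (m : ℕ) (p : MvPolynomial σ ℂ) (c : ℂ) (r : ℝ × ℂ × (σ → ℂ)) : σ → ℂ :=
  fun i => r.1 • (c * eval r.2.2 p * (starRingEnd ℂ) (eval r.2.2 (pderiv i (Fl m p r.2.1))))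

lemma cd_w0 (m : ℕ) (p : MvPolynomial σ ℂ) (c : ℂ) : ContDiff ℝ 1 (w0 m p c) := by
  refine contDiff_pi.2 fun i => ?_
  have a : ContDiff ℝ 1 fun q : ℂ × (σ → ℂ) =>
      (starRingEnd ℂ) (eval q.2 (pderiv i (Fl m p q.1))) :=
    Complex.conjCLE.contDiff.comp (cd_D m p i)
  have b : ContDiff ℝ 1 fun q : ℂ × (σ → ℂ) =>
      c * eval q.2 p * (starRingEnd ℂ) (eval q.2 (pderiv i (Fl m p q.1))) :=
    (contDiff_const.mul (cd_eval p)).mul a
  exact contDiff_fst.smul (b.comp contDiff_snd)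

lemma lip_comp {X Y Z : Type} [PseudoEMetricSpace X] [PseudoEMetricSpace Y] [PseudoEMetricSpace Z]
    {f : Y → Z} {g : X → Y} {h : X → Z} (hf : LocallyLipschitz f) (hg : LocallyLipschitz g)
    (e : ∀ x, h x = f (g x)) : LocallyLipschitz h := by
  rw [show h = f ∘ g from funext e]
  exact hf.comp hg

lemma lip_ww (m : ℕ) (p : MvPolynomial σ ℂ) (l₀ l : ℂ) {κ : ℝ} (hκ : 0 < κ) :
    LocallyLipschitz (ww m p l₀ l κ) := by
  have a0 : LocallyLipschitz fun q : (σ → ℂ) × ℝ => lt l₀ l q.2 :=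
    lip_comp (lip_lt l₀ l) LipschitzWith.prod_snd.locallyLipschitz fun _ => rfl
  have a : LocallyLipschitz fun q : (σ → ℂ) × ℝ => (lt l₀ l q.2, q.1) :=
    a0.prodMk LipschitzWith.prod_fst.locallyLipschitz
  have b0 : LocallyLipschitz fun q : ℂ × (σ → ℂ) => n2 (Fl m p q.1) q.2 :=
    (cd_n m p).locallyLipschitz
  have b : LocallyLipschitz fun q : (σ → ℂ) × ℝ => n2 (Fl m p (lt l₀ l q.2)) q.1 :=
    lip_comp b0 a fun _ => rfl
  have c : LocallyLipschitz fun q : (σ → ℂ) × ℝ => (max (n2 (Fl m p (lt l₀ l q.2)) q.1) κ)⁻¹ :=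
    lip_comp (lip_inv hκ) b fun _ => rfl
  have d : LocallyLipschitz (w0 m p (l - l₀)) := (cd_w0 m p (l - l₀)).locallyLipschitz
  exact lip_comp d (c.prodMk a) fun _ => rfl

lemma der_fst {E : Type} [NormedAddCommGroup E] [NormedSpace ℝ E] {y : ℝ → E × ℝ} {y' : E × ℝ}
    {t : ℝ} (h : HasDerivAt y y' t) : HasDerivAt (fun s => (y s).1) y'.1 t :=
  (ContinuousLinearMap.fst ℝ E ℝ).hasFDerivAt.comp_hasDerivAt t h

lemma der_snd {E : Type} [NormedAddCommGroup E] [NormedSpace ℝ E] {y : ℝ → E × ℝ} {y' : E × ℝ}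
    {t : ℝ} (h : HasDerivAt y y' t) : HasDerivAt (fun s => (y s).2) y'.2 t :=
  (ContinuousLinearMap.snd ℝ E ℝ).hasFDerivAt.comp_hasDerivAt t h

lemma sq_le_n2 (G : MvPolynomial σ ℂ) (y : σ → ℂ) (i : σ) :
    ‖eval y (pderiv i G)‖ ^ 2 ≤ n2 G y :=
  Finset.single_le_sum (f := fun i => ‖eval y (pderiv i G)‖ ^ 2) (fun _ _ => by positivity)
    (Finset.mem_univ i)

lemma bd_ww (m : ℕ) (p : MvPolynomial σ ℂ) (l₀ l : ℂ) {κ P : ℝ} (hκ : 0 < κ) (h1 : κ ≤ 1)
    (hP : 0 ≤ P) (q : (σ → ℂ) × ℝ)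
    (h : ‖eval q.1 p‖ ≤ P ∨ ‖eval q.1 p‖ ^ 2 ≤ n2 (Fl m p (lt l₀ l q.2)) q.1) :
    ‖ww m p l₀ l κ q‖ ≤ ‖l - l₀‖ * (1 + P / κ) := by
  refine (pi_norm_le_iff_of_nonneg (by positivity)).2 fun i => ?_
  have s := sq_le_n2 (Fl m p (lt l₀ l q.2)) q.1 i
  set n := n2 (Fl m p (lt l₀ l q.2)) q.1
  have a : κ ≤ max n κ := le_max_right _ _
  have b : n ≤ max n κ := le_max_left _ _
  have a0 := hκ.trans_le a
  rw [ww, norm_smul, norm_mul, norm_mul, RCLike.norm_conj, norm_inv, Real.norm_of_nonneg a0.le,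
    mul_assoc, mul_left_comm]
  refine mul_le_mul_of_nonneg_left ?_ (norm_nonneg _)
  set x := ‖eval q.1 (pderiv i (Fl m p (lt l₀ l q.2)))‖
  have x0 : 0 ≤ x := norm_nonneg _
  rw [inv_mul_le_iff₀ a0]
  have pk : 0 ≤ P / κ := by positivity
  rcases h with h | h
  · have c : x * κ ≤ max n κ := by
      rcases le_total x 1 with e | e <;> nlinarith
    have d : x ≤ max n κ / κ := (le_div_iff₀ hκ).2 c
    calc ‖eval q.1 p‖ * x ≤ P * (max n κ / κ) := mul_le_mul h d x0 hP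
      _ = max n κ * (P / κ) := by ring
      _ ≤ _ := by nlinarith
  · nlinarith [sq_nonneg (‖eval q.1 p‖ - x), mul_nonneg a0.le pk]

lemma sum_ww (m : ℕ) (p : MvPolynomial σ ℂ) (l₀ l : ℂ) (κ : ℝ) (q : (σ → ℂ) × ℝ) :
    ∑ i, eval q.1 (pderiv i (Fl m p (lt l₀ l q.2))) * ww m p l₀ l κ q i =
      ((max (n2 (Fl m p (lt l₀ l q.2)) q.1) κ)⁻¹ * n2 (Fl m p (lt l₀ l q.2)) q.1) •
        ((l - l₀) * eval q.1 p) := by
  set M := (max (n2 (Fl m p (lt l₀ l q.2)) q.1) κ)⁻¹ with hM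
  rw [n2, Finset.mul_sum, Finset.sum_smul]
  refine Finset.sum_congr rfl fun i _ => ?_
  rw [ww, ← hM, Complex.real_smul, Complex.real_smul]
  push_cast
  rw [← Complex.mul_conj']
  ring

lemma der_eval (G : MvPolynomial σ ℂ) {y : ℝ → σ → ℂ} {y' : σ → ℂ} {t : ℝ}
    (h : HasDerivAt y y' t) :
    HasDerivAt (fun s => eval (y s) G) (∑ i, eval (y t) (pderiv i G) * y' i) t := by
  have := (((hasStrictFDerivAt_eval G (y t)).hasFDerivAt).restrictScalars ℝ).comp_hasDerivAt t h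
  rw [← dif_apply]
  exact this

lemma der_g (m : ℕ) (p : MvPolynomial σ ℂ) (l₀ l : ℂ) {y : ℝ → σ → ℂ} {y' : σ → ℂ} {t : ℝ}
    (h : HasDerivAt y y' t) :
    HasDerivAt (fun s : ℝ => eval (y s) (Fl m p (l₀ + s * (l - l₀))))
      (∑ i, eval (y t) (pderiv i (Fl m p (l₀ + t * (l - l₀)))) * y' i -
        (l - l₀) * eval (y t) p) t := by
  have a : HasDerivAt (fun s : ℝ => l₀ + (s : ℂ) * (l - l₀)) (l - l₀) t := by
    simpa using ((Complex.ofRealCLM.hasDerivAt (x := t)).mul_const (l - l₀)).const_add l₀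
  simp only [eval_Fl, eval_pderiv_Fl]
  refine ((der_eval (F0 σ ℂ m) h).sub (a.mul (der_eval p h))).congr_deriv ?_
  simp only [sub_mul, Finset.sum_sub_distrib, Finset.mul_sum, mul_assoc]
  ring

end JST

open JST in
theorem stS (h1 : FlowS) (h2 : TameS) : STS := by
  intro σ ι _ m p l₀ c₀ hp hc δ hδ
  obtain ⟨R, hR⟩ := h2 σ ℂ m p (‖l₀‖ + 1) hp
  obtain ⟨P, hP⟩ := (isCompact_closedBall (0 : σ → ℂ) R).exists_bound_of_continuousOn
    (MvPolynomial.continuous_eval p).continuousOn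
  obtain ⟨P, P0, hP⟩ : ∃ P : ℝ, 0 < P ∧ ∀ y : σ → ℂ, ‖y‖ ≤ R → ‖eval y p‖ ≤ P :=
    ⟨max P 1, by positivity, fun y hy => (hP y (mem_closedBall_zero_iff.2 hy)).trans
      (le_max_left _ _)⟩
  set O : Set (σ → ℂ) := ⋃ i, {y | ‖eval y (Fl m p l₀) - c₀ i‖ < δ / 2} with hO
  have oO : IsOpen O := isOpen_iUnion fun i =>
    isOpen_lt ((MvPolynomial.continuous_eval _).sub continuous_const).norm continuous_const
  have cK := (isCompact_closedBall (0 : σ → ℂ) R).diff oO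
  obtain ⟨k, k0, hk⟩ := cK.exists_forall_le' (continuous_n2 (Fl m p l₀)).continuousOn (a := 0)
    fun y hy => (n2_nonneg _ _).lt_of_ne' fun e => hy.2 (by
      obtain ⟨i, hi⟩ := hc y (n2_eq_zero.1 e)
      exact mem_iUnion.2 ⟨i, by simp [hi, hδ]⟩)
  have ev : ∀ᶠ l in 𝓝 l₀, ∀ y ∈ Metric.closedBall (0 : σ → ℂ) R \ O, k / 2 < n2 (Fl m p l) y :=
    cK.eventually_forall_of_forall_eventually fun y hy =>
      (cd_n m p).continuous.continuousAt.eventually (lt_mem_nhds (by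
        have := hk y hy
        dsimp only
        linarith))
  obtain ⟨ε, ε0, hε⟩ := Metric.eventually_nhds_iff.1 ev
  have κ0 : 0 < min 1 (k / 2) := by positivity
  set κ := min 1 (k / 2) with hκ
  have e0 : 0 < min (min 1 ε) (δ / (4 * P)) := by positivity
  filter_upwards [Metric.ball_mem_nhds l₀ e0] with l hl
  rw [Metric.mem_ball, dist_eq_norm, lt_min_iff, lt_min_iff] at hl
  obtain ⟨⟨l1, l2⟩, l3⟩ := hl
  have hΛ : ∀ t, ‖lt l₀ l t‖ ≤ ‖l₀‖ + 1 := fun t => by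
    have := norm_lt_sub l₀ l t
    have := norm_sub_norm_le (lt l₀ l t) l₀
    linarith
  obtain ⟨Φ, cΦ, Φ0, dΦ, aΦ⟩ := h1 ((σ → ℂ) × ℝ) (fun q => (ww m p l₀ l κ q, 1))
    (max (‖l - l₀‖ * (1 + P / κ)) 1) ((lip_ww m p l₀ l κ0).prodMk (LocallyLipschitz.const 1))
    fun q => by
      rw [Prod.norm_mk, norm_one]
      refine max_le_max (bd_ww m p l₀ l κ0 (min_le_left _ _) P0.le q ?_) le_rfl
      rcases le_total ‖q.1‖ R with h | h
      · exact Or.inl (hP _ h)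
      · exact Or.inr (hR _ (hΛ _) _ h).2
  have snd : ∀ s q, (Φ s q).2 = q.2 + s := fun s q => by
    have d : ∀ t, HasDerivAt (fun s => (Φ s q).2 - s) 0 t := fun t =>
      ((der_snd (dΦ q t)).sub (hasDerivAt_id t)).congr_deriv (sub_self _)
    have := is_const_of_deriv_eq_zero (fun t => (d t).differentiableAt) (fun t => (d t).deriv) s 0
    rw [Φ0] at this
    linarith
  have inv : ∀ (s a : ℝ) (y : σ → ℂ), (Φ (-s) ((Φ s (y, a)).1, a + s)).1 = y := fun s a y => by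
    have : ((Φ s (y, a)).1, a + s) = Φ s (y, a) := Prod.ext rfl (snd s (y, a)).symm
    rw [this, aΦ, neg_add_cancel, Φ0]
  have cont : ∀ s a : ℝ, Continuous fun y : σ → ℂ => (Φ s (y, a)).1 := fun s a =>
    (cΦ.comp (continuous_const.prodMk (continuous_id.prodMk continuous_const))).fst
  refine ⟨⟨⟨fun y => (Φ 1 (y, 0)).1, fun y => (Φ (-1) (y, 1)).1, fun y => ?_, fun y => ?_⟩,
    cont 1 0, cont (-1) 1⟩, fun y => ?_⟩
  · simpa using inv 1 0 y
  · simpa using inv (-1) 1 y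
  change eval (Φ 1 (y, 0)).1 (Fl m p l) = eval y (Fl m p l₀) ∨
    ∃ i, ‖eval (Φ 1 (y, 0)).1 (Fl m p l) - c₀ i‖ < δ ∧ ‖eval y (Fl m p l₀) - c₀ i‖ < δ
  set z : ℝ → σ → ℂ := fun s => (Φ s (y, 0)).1 with hz
  set g : ℝ → ℂ := fun s => eval (z s) (Fl m p (l₀ + s * (l - l₀))) with hg
  set n : ℝ → ℝ := fun s => n2 (Fl m p (lt l₀ l s)) (z s) with hn
  have g0 : g 0 = eval y (Fl m p l₀) := by simp [hg, hz, Φ0]
  have g1 : g 1 = eval (Φ 1 (y, 0)).1 (Fl m p l) := by simp [hg, hz]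
  have dg : ∀ t ∈ Icc (0 : ℝ) 1, HasDerivWithinAt g
      (((max (n t) κ)⁻¹ * n t - 1) • ((l - l₀) * eval (z t) p)) (Icc 0 1) t := fun t ht => by
    refine ((der_g m p l₀ l (der_fst (dΦ (y, 0) t))).congr_deriv ?_).hasDerivWithinAt
    have e := sum_ww m p l₀ l κ (Φ t (y, 0))
    rw [snd, zero_add] at e
    rw [← lt_of_mem l₀ l ht, e, sub_smul, one_smul]
  have zero : ∀ t, κ ≤ n t → (max (n t) κ)⁻¹ * n t - 1 = 0 := fun t h => by
    rw [max_eq_left h, inv_mul_cancel₀ (κ0.trans_le h).ne', sub_self]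
  have small : ∀ t, n t < κ → ‖z t‖ ≤ R := fun t h => by
    by_contra c
    exact absurd ((hR _ (hΛ t) _ (not_le.1 c).le).1) (not_le.2 (h.trans_le (min_le_left _ _)))
  rw [← g0, ← g1]
  by_cases all : ∀ t ∈ Icc (0 : ℝ) 1, κ ≤ n t
  · left
    have := (convex_Icc (0 : ℝ) 1).norm_image_sub_le_of_norm_hasDerivWithin_le (C := 0) dg
      (fun t ht => by rw [zero t (all t ht), zero_smul, norm_zero]) (left_mem_Icc.2 zero_le_one)
      (right_mem_Icc.2 zero_le_one)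
    rwa [zero_mul, norm_le_zero_iff, sub_eq_zero] at this
  right
  push Not at all
  obtain ⟨t, ht, hnt⟩ := all
  have tO : z t ∈ O := by
    by_contra c
    have := hε (y := lt l₀ l t) (by rw [dist_eq_norm]; exact (norm_lt_sub l₀ l t).trans_lt l2)
      (z t) ⟨mem_closedBall_zero_iff.2 (small t hnt), c⟩
    exact absurd (hnt.trans_le (min_le_right _ _)) (not_lt.2 this.le)
  obtain ⟨i, hi⟩ := mem_iUnion.1 tO
  have lP : ‖l - l₀‖ * P < δ / 4 := by
    rw [lt_div_iff₀ (by positivity)] at l3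
    linarith
  have bd : ∀ s ∈ Icc (0 : ℝ) 1,
      ‖((max (n s) κ)⁻¹ * n s - 1) • ((l - l₀) * eval (z s) p)‖ ≤ ‖l - l₀‖ * P := fun s _ => by
    rcases le_or_gt κ (n s) with h | h
    · rw [zero s h, zero_smul, norm_zero]
      positivity
    · have a : 0 ≤ (max (n s) κ)⁻¹ * n s := mul_nonneg (by positivity) (n2_nonneg _ _)
      have b : (max (n s) κ)⁻¹ * n s ≤ 1 :=
        inv_mul_le_one_of_le₀ (le_max_left _ _) (by positivity)
      rw [norm_smul, norm_mul]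
      refine (mul_le_of_le_one_left (by positivity) ?_).trans
        (mul_le_mul_of_nonneg_left (hP _ (small s h)) (norm_nonneg _))
      rw [Real.norm_eq_abs, abs_le]
      constructor <;> linarith
  have gt : ‖g t - c₀ i‖ < δ / 2 + δ / 4 := by
    have e : g t - c₀ i = (eval (z t) (Fl m p l₀) - c₀ i) - t * ((l - l₀) * eval (z t) p) := by
      simp only [hg, eval_Fl]
      ring
    have b : ‖(t : ℂ) * ((l - l₀) * eval (z t) p)‖ ≤ ‖l - l₀‖ * P := by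
      rw [norm_mul, norm_mul, Complex.norm_real, Real.norm_of_nonneg ht.1]
      exact (mul_le_of_le_one_left (by positivity) ht.2).trans
        (mul_le_mul_of_nonneg_left (hP _ (small t hnt)) (norm_nonneg _))
    rw [e]
    exact (norm_sub_le _ _).trans_lt (add_lt_add hi (b.trans_lt lP))
  have fin : ∀ s ∈ Icc (0 : ℝ) 1, ‖g s - c₀ i‖ < δ := fun s hs => by
    have a := (convex_Icc (0 : ℝ) 1).norm_image_sub_le_of_norm_hasDerivWithin_le dg bd ht hs
    have b : ‖s - t‖ ≤ 1 := by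
      rw [Real.norm_eq_abs, abs_le]
      constructor <;> linarith [hs.1, hs.2, ht.1, ht.2]
    have c := norm_sub_le_norm_sub_add_norm_sub (g s) (g t) (c₀ i)
    have d : ‖l - l₀‖ * P * ‖s - t‖ ≤ ‖l - l₀‖ * P := mul_le_of_le_one_right (by positivity) b
    linarith
  exact ⟨i, fin 1 (right_mem_Icc.2 zero_le_one), fin 0 (left_mem_Icc.2 zero_le_one)⟩

end Pool.Agent.Lib.MP_837412_lc
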