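import Pool.Agent.Lib.MP_837412_lc.StC

/-!
The signature of a sum of squares; the signature of a symmetric matrix is decided by a tree.
-/

namespace Pool.Agent.Lib.MP_837412_lc

open Set Function Matrix QuadraticMap

namespace JSig

section Abs

variable {M N : Type} [AddCommGroup M] [Module ℝ M] [FiniteDimensional ℝ M]
  [AddCommGroup N] [Module ℝ N] [FiniteDimensional ℝ N]
  {Q : QuadraticForm ℝ M} {R : QuadraticForm ℝ N}

lemma pos_le (f : M →ₗ[ℝ] N) (h : ∀ v, Q v = R (f v)) : sigPos Q ≤ sigPos R := by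
  obtain ⟨V, hV, hp⟩ := exists_finrank_eq_sigPos_and_posDef Q
  have hi : Injective (f ∘ₗ V.subtype) := by
    rw [injective_iff_map_eq_zero]
    intro v hv
    by_contra h0
    have h1 := hp v h0
    have h2 : f v = 0 := hv
    rw [QuadraticMap.restrict_apply, h, h2, map_zero] at h1
    exact lt_irrefl _ h1
  rw [← hV, ← LinearMap.finrank_range_of_inj hi]
  refine le_sigPos_of_posDef R fun ⟨_, v, rfl⟩ h0 => ?_
  have h1 := hp v (by rintro rfl; exact h0 (by simp))
  rw [QuadraticMap.restrict_apply, h] at h1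
  exact h1

lemma sig_eq (f : M →ₗ[ℝ] N) (g : N →ₗ[ℝ] M) (h : ∀ v, Q v = R (f v)) (h' : ∀ v, R v = Q (g v)) :
    sigPos Q = sigPos R ∧ sigNeg Q = sigNeg R := by
  refine ⟨(pos_le f h).antisymm (pos_le g h'), ?_⟩
  rw [← sigPos_neg, ← sigPos_neg]
  exact (pos_le f fun v => by simp [h]).antisymm (pos_le g fun v => by simp [h'])

lemma ncard_option {κ : Type} [Fintype κ] (p : Option κ → Prop) [Decidable (p none)] :
    {i | p i}.ncard = {i | p (some i)}.ncard + if p none then 1 else 0 := by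
  classical
  have e : ∀ {β : Type} [Fintype β] (q : β → Prop), {i | q i}.ncard = ∑ i, if q i then 1 else 0 :=
    fun q => by rw [← Finset.card_filter, ← Set.ncard_coe_finset]; simp
  rw [e, e, Fintype.sum_option, add_comm]
  congr

/-- Splitting off one square. -/
lemma split (R : QuadraticForm ℝ M) (l : M →ₗ[ℝ] ℝ) (v : M) (q : ℝ) (hq : q ≠ 0) (hl : l v = q)
    (h : ∀ u, Q u = R u + q⁻¹ * l u ^ 2) (h' : ∀ u (t : ℝ), R (u + t • v) = R u) :
    sigPos Q = sigPos R + (if 0 < q then 1 else 0) ∧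
      sigNeg Q = sigNeg R + if q < 0 then 1 else 0 := by
  obtain ⟨w, ⟨e⟩⟩ := R.equivalent_weightedSumSquares
  have he : ∀ u, R u = ∑ i, w i * (e u i * e u i) := fun u => by
    rw [← e.map_app, weightedSumSquares_apply]; rfl
  let w' : Option (Fin (Module.finrank ℝ M)) → ℝ := fun i => i.elim q⁻¹ w
  let s : (Option (Fin (Module.finrank ℝ M)) → ℝ) →ₗ[ℝ] M :=
    e.toLinearEquiv.symm.toLinearMap ∘ₗ LinearMap.funLeft ℝ ℝ some
  have hs : ∀ y i, e (s y) i = y (some i) := fun y i =>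
    congrFun (e.toLinearEquiv.apply_symm_apply _) i
  have key := sig_eq (Q := Q) (R := weightedSumSquares ℝ w')
    (LinearMap.pi fun i => i.elim l fun j => LinearMap.proj j ∘ₗ e.toLinearEquiv.toLinearMap)
    (s + (q⁻¹ • (LinearMap.proj none - l ∘ₗ s)).smulRight v)
    (fun u => by
      rw [h, he, weightedSumSquares_apply, Fintype.sum_option, add_comm, pow_two]; rfl)
    (fun y => by
      rw [h, LinearMap.add_apply, LinearMap.smulRight_apply, h', he, weightedSumSquares_apply,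
        Fintype.sum_option, add_comm, map_add, map_smul, hl]
      simp only [hs, w', Option.elim, smul_eq_mul, LinearMap.smul_apply, LinearMap.sub_apply,
        LinearMap.proj_apply, LinearMap.comp_apply]
      congr 1
      field_simp
      ring)
  rw [key.1, key.2, QuadraticForm.sigPos_weightedSumSquares,
    QuadraticForm.sigNeg_weightedSumSquares, ncard_option, ncard_option,
    QuadraticForm.sigPos_of_equiv_weightedSumSquares ⟨e⟩,
    QuadraticForm.sigNeg_of_equiv_weightedSumSquares ⟨e⟩]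
  simp [w']

end Abs

end JSig

theorem sigRepS : SigRepS := by
  intro M ι _ _ _ _ Q L w hL h
  obtain ⟨s, hs⟩ := L.exists_rightInverse_of_surjective (LinearMap.range_eq_top.2 hL)
  have h1 : ∀ v, Q v = weightedSumSquares ℝ w (L v) := fun v => by
    rw [h, weightedSumSquares_apply]; simp [pow_two]
  have key := JSig.sig_eq L s h1 fun y => by rw [h1, ← LinearMap.comp_apply, hs]; rfl
  rw [key.1, key.2]
  exact ⟨QuadraticForm.sigPos_weightedSumSquares, QuadraticForm.sigNeg_weightedSumSquares⟩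

namespace JSig

variable {ι : Type} [Fintype ι] [DecidableEq ι]

lemma qf (H : Matrix ι ι ℝ) (u : ι → ℝ) : H.toQuadraticForm' u = u ⬝ᵥ H *ᵥ u := by
  simp [Matrix.toQuadraticForm', toLinearMap₂'_apply']

lemma sig_zero : sig (0 : Matrix ι ι ℝ) = 0 := by
  have := sigRepS (ι → ℝ) Empty (0 : Matrix ι ι ℝ).toQuadraticForm' 0 Empty.elim
    (fun _ => ⟨0, Subsingleton.elim _ _⟩) (fun v => by simp [qf])
  simp only [sig, this.1, this.2, Set.eq_empty_of_isEmpty, ncard_empty]
  rfl

lemma sig_le (H : Matrix ι ι ℝ) : (sig H).1 + (sig H).2 ≤ Fintype.card ι := by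
  have := QuadraticForm.sigPos_add_sigNeg_add_radical (Q := H.toQuadraticForm')
  simp only [Module.finrank_fintype_fun_eq_card] at this
  simp only [sig]
  omega

lemma step (H : Matrix ι ι ℝ) (hH : H.IsSymm) (v : ι → ℝ) (q : ℝ) (hq : q ≠ 0)
    (hv : v ⬝ᵥ H *ᵥ v = q) : sig H = sig (H - q⁻¹ • vecMulVec (H *ᵥ v) (H *ᵥ v)) +
      (if 0 < q then 1 else 0, if q < 0 then 1 else 0) := by
  have hs : ∀ u, v ⬝ᵥ H *ᵥ u = u ⬝ᵥ H *ᵥ v := fun u => by
    rw [dotProduct_mulVec, ← mulVec_transpose, hH.eq, dotProduct_comm]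
  have h2 : ∀ u, (H - q⁻¹ • vecMulVec (H *ᵥ v) (H *ᵥ v)).toQuadraticForm' u =
      u ⬝ᵥ H *ᵥ u - q⁻¹ * (u ⬝ᵥ H *ᵥ v) ^ 2 := fun u => by
    rw [qf, sub_mulVec, smul_mulVec, vecMulVec_mulVec, dotProduct_sub, dotProduct_smul,
      dotProduct_smul, dotProduct_comm (H *ᵥ v) u]
    simp [pow_two]
  have := split (Q := H.toQuadraticForm') (H - q⁻¹ • vecMulVec (H *ᵥ v) (H *ᵥ v)).toQuadraticForm'
    (toLinearMap₂' ℝ H v) v q hq (by rw [toLinearMap₂'_apply', hv])
    (fun u => by rw [h2, qf, toLinearMap₂'_apply', hs]; ring)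
    (fun u t => by
      rw [h2, h2]
      simp only [mulVec_add, mulVec_smul, add_dotProduct, dotProduct_add, smul_dotProduct,
        dotProduct_smul, smul_eq_mul, hs u, hv]
      field_simp
      ring)
  exact Prod.ext this.1 this.2

/-- The value of the form at the sum of two unit vectors. -/
def qq (H : Matrix ι ι ℝ) (p : ι × ι) : ℝ := (H p.1 p.1 + H p.1 p.2) + (H p.2 p.1 + H p.2 p.2)

/-- The matrix after splitting off one square. -/
noncomputable def red (H : Matrix ι ι ℝ) (p : ι × ι) : Matrix ι ι ℝ := Matrix.of fun k l =>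
  H k l - (H k p.1 + H k p.2) * (H l p.1 + H l p.2) / qq H p

omit [Fintype ι] [DecidableEq ι] in
lemma red_symm {H : Matrix ι ι ℝ} (hH : H.IsSymm) (p : ι × ι) : (red H p).IsSymm :=
  Matrix.IsSymm.ext fun k l => by simp only [red, of_apply, hH.apply k l, mul_comm]

omit [Fintype ι] [DecidableEq ι] in
lemma eq_zero {H : Matrix ι ι ℝ} (hH : H.IsSymm) (h : ∀ p, qq H p = 0) : H = 0 := by
  ext i j
  have a := h (i, i)
  have b := h (j, j)
  have c := h (i, j)
  have d := hH.apply i j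
  simp only [qq] at a b c
  rw [Matrix.zero_apply]
  linarith

lemma sig_red {H : Matrix ι ι ℝ} (hH : H.IsSymm) (p : ι × ι) (h : qq H p ≠ 0) :
    sig H = sig (red H p) + (if 0 < qq H p then 1 else 0, if qq H p < 0 then 1 else 0) := by
  rw [step H hH (Pi.single p.1 1 + Pi.single p.2 1) (qq H p) h
    (by simp [mulVec_add, add_dotProduct, qq]; ring)]
  congr 2
  ext k l
  simp [red, vecMulVec_apply, mulVec_add, div_eq_inv_mul]

end JSig

open JSig in
theorem sigS : SigS := by
  intro α ι _ _ B _ Γ e H hB hH hA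
  have h2 : (Finset.univ : Finset (ι × ι)).card ≤ B := by
    rw [Finset.card_univ, Fintype.card_prod, ← pow_two]; exact hB.le
  have h1 : Fintype.card ι ≤ B := (Nat.le_self_pow two_ne_zero _).trans hB.le
  refine P.mono (P.share Finset.univ h2 (u := fun p x => H x p.1 p.2) (fun p _ => hA p.1 p.2)
    (e' := 24) fun Δ hΔ hs => ?_) (by omega)
  refine (P.iter (e := 22) (g := fun m Θ => ∃ (K : α → Matrix ι ι ℝ) (c : ℕ × ℕ),
    (∀ p ∈ (Finset.univ : Finset (ι × ι)), Θ.HasK fun x => K x p.1 p.2) ∧ ∀ x ∈ Θ.Y, (K x).IsSymm ∧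
      sig (H x) = sig (K x) + c ∧ (m ≤ c.1 + c.2 ∨ K x = 0)) h1 ?_ ?_).imp ?_
  · exact ((P.all _ h2 hs).mono (by omega)).imp fun Θ a b =>
      ⟨H, 0, b, fun x hx => ⟨hH x (hΔ.1 (a.1 hx)), by simp, Or.inl (Nat.zero_le _)⟩⟩
  · rintro m - Θ - ⟨K, c, k1, k2⟩
    have hK : ∀ {Ξ}, Θ ≤ Ξ → ∀ i j, A B Ξ 0 fun x => K x i j := fun a i j =>
      .of_has ((k1 (i, j) (Finset.mem_univ _)).mono a)
    have hq : ∀ {Ξ}, Θ ≤ Ξ → ∀ p, A B Ξ 8 fun x => qq (K x) p := fun a p =>
      ((hK a _ _).add (hK a _ _)).add ((hK a _ _).add (hK a _ _))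
    refine P.cases (e := 10) (e' := 21) (f := fun x p => SignType.sign (qq (K x) p))
      ((D.all _ h2 fun p _ => D.sign (hq le_rfl p)).imp fun x _ y _ h =>
        funext fun p => h p (Finset.mem_univ _)) fun s Ξ a hs => ?_
    by_cases h0 : ∀ p, s p = 0
    · exact .done fun Ω b => ⟨K, c, fun p hp => (k1 p hp).mono (a.trans b), fun x hx =>
        have k := k2 x (a.1 (b.1 hx))
        ⟨k.1, k.2.1, Or.inr (eq_zero k.1 fun p =>
          sign_eq_zero_iff.1 ((congrFun (hs x (b.1 hx)) p).trans (h0 p)))⟩⟩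
    obtain ⟨p, hp⟩ := not_forall.1 h0
    have hn : ∀ x ∈ Ξ.Y, qq (K x) p ≠ 0 := fun x hx h =>
      hp ((congrFun (hs x hx) p).symm.trans (sign_eq_zero_iff.2 h))
    refine (P.all _ h2 (g := fun r Ω => Ω.HasK fun x => red (K x) p r.1 r.2) fun r _ =>
      (hK a r.1 r.2).sub ((((hK a _ _).add (hK a _ _)).mul ((hK a _ _).add (hK a _ _))).div
        (hq a p) hn)).imp fun Ω b d => ⟨fun x => red (K x) p,
          (if s p = 1 then 1 else 0, if s p = -1 then 1 else 0) + c, d, fun x hx => ?_⟩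
    obtain ⟨k3, k4, k5⟩ := k2 x (a.1 (b.1 hx))
    have h3 : SignType.sign (qq (K x) p) = s p := congrFun (hs x (b.1 hx)) p
    refine ⟨red_symm k3 p, ?_, Or.inl ?_⟩
    · rw [k4, sig_red k3 p (hn x (b.1 hx)), add_assoc, ← h3]
      simp only [sign_eq_one_iff, sign_eq_neg_one_iff]
    · have k6 := k5.resolve_right fun h => hn x (b.1 hx) (by simp [h, qq])
      rcases h4 : s p with _ | _ | _
      · exact (hp h4).elim
      · simp; omega
      · simp; omega
  · rintro Θ - ⟨K, c, -, k2⟩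
    have : ∀ x ∈ Θ.Y, sig (H x) = c := fun x hx => by
      obtain ⟨-, k4, k5 | k5⟩ := k2 x hx
      · have := sig_le (H x)
        rw [k4] at this ⊢
        simp only [Prod.fst_add, Prod.snd_add] at this
        exact Prod.ext (by simp; omega) (by simp; omega)
      · rw [k4, k5, sig_zero, zero_add]
    exact fun x hx y hy => (this x hx).trans (this y hy).symm

end Pool.Agent.Lib.MP_837412_lc
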