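import Pool.Agent.Lib.MP_837412_lc.StT

/-!
Smith theory for an involution on a pair with homology in one degree.
-/

namespace Pool.Agent.Lib.MP_837412_lc

open Pool.Agent.Shared.Mod2 Set

namespace JSmith

section Basis

variable {β : Type} {τ : β → β} (hτ : ∀ b, τ (τ b) = b)
include hτ

lemma mp_apply (x : Ch β) (b : β) : mp τ x b = x (τ b) := by
  have := Finsupp.mapDomain_apply (Function.Involutive.injective hτ) x (τ b)
  rwa [hτ, ← mp_eq_mapDomain] at this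

/-- A chain that is invariant outside `t`. -/
lemma split {s t : Set β} (hs : ∀ b ∈ s, τ b ∈ s) {x : Ch β}
    (hx : x ∈ sup s) (h : x + mp τ x ∈ sup t) :
    ∃ y ∈ sup s, x + (y + mp τ y) ∈ sup (t ∪ {b | b ∈ s ∧ τ b = b}) := by
  classical
  let _ : LinearOrder β := linearOrderOfSTO WellOrderingRel
  rw [mem_sup'] at hx h
  refine ⟨x.filter fun b => b < τ b, mem_sup'.2 fun b hb => by simp [Finsupp.filter_apply, hx b hb],
    mem_sup'.2 fun b hb => ?_⟩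
  have h1 : b ∉ t := fun e => hb (Or.inl e)
  have h2 := h b h1
  rw [Finsupp.add_apply, mp_apply hτ] at h2
  rw [Finsupp.add_apply, Finsupp.add_apply, mp_apply hτ, Finsupp.filter_apply,
    Finsupp.filter_apply, hτ]
  by_cases h3 : b ∈ s
  · rcases lt_trichotomy b (τ b) with c | c | c
    · rw [if_pos c, if_neg c.not_gt, add_zero, aa]
    · exact absurd (Or.inr ⟨h3, c.symm⟩) hb
    · rw [if_neg c.not_gt, if_pos c, zero_add, h2]
  · have h4 : τ b ∉ s := fun e => h3 (hτ b ▸ hs _ e)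
    simp [hx _ h3, hx _ h4]

end Basis

variable {E : Type} [TopologicalSpace E] {κ : C(E, E)} {B : Set E} {k : ℕ}

lemma rho_apply (x : Ch (Sx E)) : rho κ x = x + cm κ x := rfl

lemma sd_rho (x : Ch (Sx E)) : sd (rho κ x) = rho κ (sd x) := by
  rw [rho_apply, rho_apply, map_add, cm_sd]

lemma cx_rho (U : Set E) : IsCx sd (rhoC κ U) := (cx U).map sd_rho sd_sd

lemma rho_mem (hB : MapsTo κ B B) {x : Ch (Sx E)} (hx : x ∈ Cs B k) : rho κ x ∈ Cs B k :=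
  add_mem hx (cm_mem hB hx)

lemma smap_eq {σ : Sx E} : smap κ σ = σ ↔ ∀ t, κ (σ.2 t) = σ.2 t := by
  obtain ⟨j, σ⟩ := σ
  simp only [smap, Sigma.mk.injEq, heq_eq_eq, true_and]
  exact ContinuousMap.ext_iff

lemma rho_fix {x : Ch (Sx E)} (hx : x ∈ Cs {y | κ y = y} k) : rho κ x = 0 := by
  refine map_zero' (fun σ hσ => ?_) hx
  rw [rho_apply, cm_sg, smap_eq.2 hσ.2, aa]

variable (hκ : ∀ y, κ (κ y) = y)
include hκ

lemma smap_smap (σ : Sx E) : smap κ (smap κ σ) = σ := by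
  obtain ⟨j, σ⟩ := σ
  exact congrArg (Sigma.mk j) (ContinuousMap.ext fun t => hκ _)

lemma rho_rho (x : Ch (Sx E)) : rho κ (rho κ x) = 0 := by
  have e : κ.comp κ = ContinuousMap.id E := ContinuousMap.ext hκ
  rw [rho_apply, rho_apply, map_add, cm_cm, e, cm_id, add_comm (cm κ x), aa]

lemma mem_Q {x : Ch (Sx E)} (hx : x ∈ Cs univ k) (h : rho κ x ∈ Cs B k) :
    x ∈ (rhoC κ univ k ⊔ Cs B k) ⊔ Cs {y | κ y = y} k := by
  obtain ⟨y, y1, y2⟩ := split (s := {σ : Sx E | σ.1 = k ∧ ∀ t, σ.2 t ∈ univ}) (smap_smap hκ)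
    (fun σ hσ => ⟨hσ.1, fun _ => trivial⟩) hx h
  obtain ⟨l, l1, φ, φ1, e⟩ := sup_split y2
  refine mem_of_add (y := rho κ y) ?_
    (Submodule.mem_sup_left (Submodule.mem_sup_left ⟨y, y1, rfl⟩))
  rw [show x + rho κ y = l + φ from e]
  exact Submodule.add_mem_sup (Submodule.mem_sup_right l1)
    (sup_mono (fun σ hσ => And.intro hσ.1.1 (smap_eq.1 hσ.2)) φ1)

lemma rho_P {x : Ch (Sx E)} (h : x ∈ rhoC κ univ k ⊔ Cs B k) :
    ∃ l ∈ Cs B k, rho κ x = rho κ l := by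
  obtain ⟨_, ⟨y, -, rfl⟩, l, hl, rfl⟩ := Submodule.mem_sup.1 h
  exact ⟨l, hl, by rw [map_add, rho_rho hκ, zero_add]⟩

lemma rho_Q {x : Ch (Sx E)}
    (h : x ∈ (rhoC κ univ k ⊔ Cs B k) ⊔ Cs {y | κ y = y} k) :
    ∃ l ∈ Cs B k, rho κ x = rho κ l := by
  obtain ⟨p, hp, φ, hφ, rfl⟩ := Submodule.mem_sup.1 h
  rw [map_add, rho_fix hφ, add_zero]
  exact rho_P hκ hp

lemma R_inf (hB : MapsTo κ B B) : rhoC κ univ ⊓ Cs B = rhoC κ B := by
  refine le_antisymm (fun k => ?_) fun k => ?_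
  · rintro _ ⟨⟨x, hx, rfl⟩, h⟩
    obtain ⟨l, l1, l2⟩ := rho_Q hκ (mem_Q hκ hx h)
    exact ⟨l, l1, l2.symm⟩
  · rintro _ ⟨x, hx, rfl⟩
    exact ⟨⟨x, Cs_mono (subset_univ B) k hx, rfl⟩, rho_mem hB hx⟩

lemma P_fix {x : Ch (Sx E)} (h : x ∈ rhoC κ univ k ⊔ Cs B k) (h' : x ∈ Cs {y | κ y = y} k) :
    x ∈ Cs B k := by
  obtain ⟨_, ⟨y, -, rfl⟩, l, hl, rfl⟩ := Submodule.mem_sup.1 h
  refine mem_sup'.2 fun σ hσ => ?_
  by_cases c : smap κ σ = σ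
  · rw [Finsupp.add_apply, mem_sup'.1 hl σ hσ, add_zero, rho_apply, Finsupp.add_apply, cm,
      mp_apply (smap_smap hκ), c, aa]
  · exact mem_sup'.1 h' σ fun e => c (smap_eq.2 e.2)

omit hκ in
/-- The count at the end. -/
lemma count {a f h i p δ : ℕ → ℕ∞} {m J : ℕ} (e1 : ∀ k, a k + f k = δ k + i k)
    (e2 : ∀ k, h k = i k + p k) (e3 : ∀ k, a (k + 1) = p (k + 1) + δ k) (e4 : a 0 = p 0)
    (hh : ∀ j ≠ m, h j = 0) (hJ : ∀ j, J ≤ j → a j = 0) :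
    (∀ j, m < j → a j = 0 ∧ f j = 0) ∧
      ∑ j ∈ Finset.range (m + 1), f j + 2 * p m = h m := by
  have z : ∀ j ≠ m, i j = 0 ∧ p j = 0 := fun j hj => add_eq_zero.1 ((e2 j).symm.trans (hh j hj))
  have s : ∀ j, m < j → a (j + 1) = a j + f j := fun j hj => by
    rw [e3, e1, (z j hj.ne').1, (z (j + 1) (by omega)).2, zero_add, add_zero]
  have d : ∀ n j, m < j → J ≤ j + n → a j = 0 := by
    intro n
    induction n with
    | zero => exact fun j _ hj => hJ j hj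
    | succ n ih =>
      exact fun j h1 h2 => (add_eq_zero.1 ((s j h1).symm.trans (ih (j + 1) (by omega) (by omega)))).1
  have d' : ∀ j, m < j → a j = 0 := fun j hj => d J j hj (by omega)
  refine ⟨fun j hj => add_eq_zero.1 ((s j hj).symm.trans (d' _ (by omega))), ?_⟩
  have l : ∀ j, j ≤ m → a j = p j + ∑ r ∈ Finset.range j, f r := by
    intro j
    induction j with
    | zero => exact fun _ => by simpa using e4
    | succ j ih =>
      intro hj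
      have c := e1 j
      rw [(z j (by omega)).1, add_zero, ih (by omega), (z j (by omega)).2, zero_add] at c
      rw [e3, Finset.sum_range_succ, c]
  have c := e1 m
  rw [(add_eq_zero.1 ((e3 m).symm.trans (d' _ m.lt_succ_self))).2, zero_add, l m le_rfl] at c
  rw [e2, ← c, Finset.sum_range_succ]
  ring

end JSmith

open JSmith in
theorem smithS : SmithS := by
  intro E _ κ B m hκ hB ⟨J₁, hJ₁⟩ ⟨J₂, hJ₂⟩ hm
  have cK := cx (univ : Set E)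
  have cL := cx B
  have cF := cx {y | κ y = y}
  have cR := cx_rho (κ := κ) univ
  have cP := cR.sup cL
  have cQ := cP.sup cF
  have lRK : rhoC κ univ ≤ Cs univ := by
    rintro k _ ⟨x, hx, rfl⟩
    exact rho_mem (mapsTo_univ _ _) hx
  have lLP : Cs B ≤ rhoC κ univ ⊔ Cs B := le_sup_right
  have lPQ : rhoC κ univ ⊔ Cs B ≤ (rhoC κ univ ⊔ Cs B) ⊔ Cs {y | κ y = y} := le_sup_left
  have lPK : rhoC κ univ ⊔ Cs B ≤ Cs univ := sup_le lRK (Cs_le (subset_univ _))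
  have lQK : (rhoC κ univ ⊔ Cs B) ⊔ Cs {y | κ y = y} ≤ Cs univ :=
    sup_le lPK (Cs_le (subset_univ _))
  have ea : ∀ k, hh sd (Cs univ) ((rhoC κ univ ⊔ Cs B) ⊔ Cs {y | κ y = y}) k =
      hh sd (rhoC κ univ ⊔ Cs B) (Cs B) k :=
    hh_map (φ := rho κ) sd_rho cK cL (fun k => (le_sup_left : rhoC κ univ k ≤ _ ⊔ Cs B k))
      (by
        rintro k _ ⟨x, hx, rfl⟩
        obtain ⟨l, l1, l2⟩ := rho_Q hκ hx
        exact l2 ▸ rho_mem hB l1)
      (fun k => le_rfl) fun k x hx => mem_Q hκ hx.1 hx.2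
  have ef : ∀ k, hs {y | κ y = y} ({y | κ y = y} ∩ B) k =
      hh sd ((rhoC κ univ ⊔ Cs B) ⊔ Cs {y | κ y = y}) (rhoC κ univ ⊔ Cs B) k := by
    intro k
    have e : Cs ({y | κ y = y} ∩ B) = Cs {y | κ y = y} ⊓ (rhoC κ univ ⊔ Cs B) := by
      rw [Cs_inf]
      exact le_antisymm (inf_le_inf_left _ lLP) fun j x hx => ⟨hx.1, P_fix hκ hx.2 hx.1⟩
    rw [hs, e, hh_sup cF cP, sup_comm]
  have δ : ∀ k, rk ((Zr sd ((rhoC κ univ ⊔ Cs B) ⊔ Cs {y | κ y = y}) (rhoC κ univ ⊔ Cs B)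
      (k + 1)).map sd) (Br sd (rhoC κ univ ⊔ Cs B) (Cs B) k) = 0 := fun k => rk_eq_zero.2 (by
    rintro _ ⟨z, hz, rfl⟩
    obtain ⟨u, hu, e⟩ := mem_sup2.1 hz.1
    refine mem_Br.2 ⟨u, hu, P_fix hκ (add_mem hz.2 (cP.mem k u hu)) ?_⟩
    rw [← map_add]
    exact sd_mem e)
  have eq : ∀ k, hh sd (Cs univ) ((rhoC κ univ ⊔ Cs B) ⊔ Cs {y | κ y = y}) k +
      hs {y | κ y = y} ({y | κ y = y} ∩ B) k =
      hh sd ((rhoC κ univ ⊔ Cs B) ⊔ Cs {y | κ y = y}) (Cs B) k := by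
    intro k
    rw [ea, ef, tri_left cQ cP cL lLP lPQ, δ, zero_add, tri_mid cQ cP cL lLP lPQ]
    cases k with
    | zero => rw [tri_zero (N := Cs B) cQ]
    | succ k => rw [tri_right cQ cP cL lLP lPQ, δ, add_zero]
  have hJ : ∀ j, J₁ + J₂ + 1 ≤ j →
      hh sd (Cs univ) ((rhoC κ univ ⊔ Cs B) ⊔ Cs {y | κ y = y}) j = 0 := by
    rintro (_ | j) hj
    · omega
    obtain ⟨i, p, δ, a, b, c, -⟩ := triple cR (cx_rho B) cR.bot bot_le
      (R_inf hκ hB ▸ inf_le_left)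
    rw [ea, ← hh_sup cR cL, R_inf hκ hB, c,
      (add_eq_zero.1 ((b _).symm.trans (hJ₁ _ (by omega)))).2,
      (add_eq_zero.1 ((a _).symm.trans (hJ₂ _ (by omega)))).1, add_zero]
  obtain ⟨r1, r2⟩ := count (fun k => (eq k).trans (tri_left cK cQ cL (lLP.trans lPQ) lQK k))
    (tri_mid cK cQ cL (lLP.trans lPQ) lQK) (tri_right cK cQ cL (lLP.trans lPQ) lQK)
    (tri_zero cK) hm hJ
  refine ⟨fun j hj => (r1 j hj).2, ?_⟩
  have z : hh sd (Cs univ) (rhoC κ univ ⊔ Cs B) (m + 1) = 0 := by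
    obtain ⟨i, p, δ, a, b, c, -⟩ := triple cK cQ cP lPQ lQK
    obtain ⟨s1, s2⟩ := r1 _ m.lt_succ_self
    rw [b, (add_eq_zero.1 ((a _).symm.trans ((ef _).symm.trans s2))).2,
      (add_eq_zero.1 ((c _).symm.trans s1)).1, add_zero]
  refine Eq.trans ?_ r2
  rw [rk_map]
  congr 2
  refine rk_congr' (le_antisymm ?_ ?_)
  · rintro x ⟨hx, hx'⟩
    have h1 : rho κ x ∈ Zr sd (rhoC κ univ ⊔ Cs B) (Cs B) m :=
      mem_Zr.2 ⟨Submodule.mem_sup_left ⟨x, hx.1, rfl⟩, by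
        rw [sd_rho]; exact rho_mem hB hx.2⟩
    obtain ⟨b, b1, b2⟩ := mem_Br.1 (tri_into cK cP cL lLP lPK z ⟨h1, hx'⟩)
    obtain ⟨_, ⟨y, y1, rfl⟩, l, l1, rfl⟩ := Submodule.mem_sup.1 b1
    refine ⟨hx, mem_Br.2 ⟨y, y1, mem_Q hκ (add_mem hx.1 (sd_mem y1)) ?_⟩⟩
    rw [map_add, ← add_assoc] at b2
    rw [map_add, ← sd_rho]
    exact mem_of_add b2 (sd_mem l1)
  · rintro x ⟨hx, hx'⟩
    obtain ⟨b, b1, b2⟩ := mem_Br.1 hx'
    obtain ⟨l, l1, l2⟩ := rho_Q hκ b2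
    refine ⟨hx, mem_Br.2 ⟨rho κ b, rho_mem (mapsTo_univ _ _) b1, ?_⟩⟩
    rw [sd_rho, ← map_add, l2]
    exact rho_mem hB l1

end Pool.Agent.Lib.MP_837412_lc
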