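import Pool.Agent.Lib.MP_837412_lc.LB

/-!
Stability of the comparison matrices and propagation of the normal form along a family.
-/

namespace Pool.Agent.Lib.MP_837412_lc

open Pool.Agent.Shared.Mod2 Set Function Filter Topology

namespace JStab

variable {E E' ι : Type} [TopologicalSpace E] [TopologicalSpace E'] {G₀ G : E → ℂ}
  {c₀ c : ι → ℂ} {m : ℕ} {N δ : ℝ} {X : Set ℂ} {f : E ≃ₜ E}

/-- Every small disc lies in the set or misses it. -/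
def Sep (δ : ℝ) (c₀ : ι → ℂ) (X : Set ℂ) : Prop :=
  ∀ i, (∀ z, ‖z - c₀ i‖ < δ → z ∈ X) ∨ ∀ z, ‖z - c₀ i‖ < δ → z ∉ X

/-- The homeomorphism compares the two functions. -/
def Cl (δ : ℝ) (G₀ G : E → ℂ) (c₀ : ι → ℂ) (f : E ≃ₜ E) : Prop :=
  ∀ y, G (f y) = G₀ y ∨ ∃ i, ‖G (f y) - c₀ i‖ < δ ∧ ‖G₀ y - c₀ i‖ < δ

/-- Coordinates that are close agree. -/
def Gap (η : ℝ) (c₀ : ι → ℂ) : Prop :=
  ∀ i j, (|(c₀ i).re - (c₀ j).re| < η → (c₀ i).re = (c₀ j).re) ∧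
    (|(c₀ i).im - (c₀ j).im| < η → (c₀ i).im = (c₀ j).im)

lemma Cl.iff (h : Cl δ G₀ G c₀ f) (hX : Sep δ c₀ X) (y : E) : G (f y) ∈ X ↔ G₀ y ∈ X := by
  rcases h y with a | ⟨i, a, b⟩
  · rw [a]
  · rcases hX i with e | e
    · exact iff_of_true (e _ a) (e _ b)
    · exact iff_of_false (e _ a) (e _ b)

lemma Cl.fwd (h : Cl δ G₀ G c₀ f) (hX : Sep δ c₀ X) :
    MapsTo (f : C(E, E)) (G₀ ⁻¹' X) (G ⁻¹' X) := fun y hy => (h.iff hX y).2 hy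

lemma Cl.bwd (h : Cl δ G₀ G c₀ f) (hX : Sep δ c₀ X) :
    MapsTo (f.symm : C(E, E)) (G ⁻¹' X) (G₀ ⁻¹' X) := fun y hy =>
  (h.iff hX (f.symm y)).1 (by simpa using hy)

lemma norm_cj (z w : ℂ) : ‖(starRingEnd ℂ) z - (starRingEnd ℂ) w‖ = ‖z - w‖ := by
  rw [← map_sub, Complex.norm_conj]

lemma Cl.cj (h : Cl δ G₀ G c₀ f) : Cl δ (cj G₀) (cj G) (cj c₀) f := fun y =>
  (h y).imp (congrArg (starRingEnd ℂ)) fun ⟨i, a, b⟩ =>
    ⟨i, (norm_cj _ _).trans_lt a, (norm_cj _ _).trans_lt b⟩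

lemma Gap.cj {η : ℝ} (h : Gap η c₀) : Gap η (cj c₀) := fun i j =>
  ⟨(h i j).1, fun a => by
    simp only [cj_im] at a ⊢
    rw [(h i j).2 (by rwa [neg_sub_neg, abs_sub_comm] at a)]⟩

lemma disc {z w : ℂ} (h : ‖z - w‖ < δ) : |z.re - w.re| < δ ∧ |z.im - w.im| < δ :=
  ⟨(Complex.abs_re_le_norm (z - w)).trans_lt h, (Complex.abs_im_le_norm (z - w)).trans_lt h⟩

lemma small (hB : Bn N c₀) (h1 : δ ≤ 1) {i : ι} {z : ℂ} (h : ‖z - c₀ i‖ < δ) :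
    |z.im| < N ∧ |z.re| < N := by
  have a := hB i
  have b := norm_sub_norm_le z (c₀ i)
  exact ⟨by linarith [Complex.abs_im_le_norm z], by linarith [Complex.abs_re_le_norm z]⟩

lemma sep_AU (hB : Bn N c₀) (h1 : δ ≤ 1) : Sep δ c₀ (AU N) := fun _ =>
  Or.inr fun _ hz a => (abs_lt.1 (small hB h1 hz).1).2.not_gt a

lemma sep_AL (hB : Bn N c₀) (h1 : δ ≤ 1) : Sep δ c₀ (AL N N) := fun _ =>
  Or.inr fun _ hz a => a.elim (small hB h1 hz).1.not_gt (abs_lt.1 (small hB h1 hz).2).1.not_gt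

lemma sep_AR (hB : Bn N c₀) (h1 : δ ≤ 1) : Sep δ c₀ (AR N N) := fun _ =>
  Or.inr fun _ hz a => a.elim (small hB h1 hz).1.not_gt (abs_lt.1 (small hB h1 hz).2).2.not_gt

lemma strip_in {i j : ι} (a : (c₀ i).re = (c₀ j).re) (b : (c₀ j).im ≤ (c₀ i).im) {z : ℂ}
    (hz : ‖z - c₀ i‖ < δ) : z ∈ strip N (c₀ j).re ((c₀ j).im - 2 * δ) (2 * δ) := by
  obtain ⟨d, e⟩ := disc hz
  have h0 := (abs_nonneg _).trans_lt d
  exact Or.inl ⟨by rw [← a]; linarith, by linarith [(abs_lt.1 e).1]⟩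

lemma strip_out (hB : Bn N c₀) (h1 : δ ≤ 1) (hg : Gap (3 * δ) c₀) {i j : ι} {z : ℂ}
    (hz : ‖z - c₀ i‖ < δ) (a : z ∈ strip N (c₀ j).re ((c₀ j).im - 2 * δ) (2 * δ)) :
    (c₀ i).re = (c₀ j).re ∧ (c₀ j).im ≤ (c₀ i).im := by
  obtain ⟨d, e⟩ := disc hz
  rcases a with ⟨a, b⟩ | a
  · rw [abs_lt] at a d e
    refine ⟨(hg i j).1 (abs_lt.2 ⟨by linarith, by linarith⟩), by_contra fun k => ?_⟩
    rw [not_le] at k
    exact k.ne ((hg i j).2 (abs_lt.2 ⟨by linarith, by linarith⟩))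
  · exact absurd a (abs_lt.1 (small hB h1 hz).1).2.not_gt

lemma sep_strip (hB : Bn N c₀) (h1 : δ ≤ 1) (hg : Gap (3 * δ) c₀) (j : ι) :
    Sep δ c₀ (strip N (c₀ j).re ((c₀ j).im - 2 * δ) (2 * δ)) := fun i => by
  by_cases k : (c₀ i).re = (c₀ j).re ∧ (c₀ j).im ≤ (c₀ i).im
  · exact Or.inl fun _ hz => strip_in k.1 k.2 hz
  · exact Or.inr fun _ hz a => k (strip_out hB h1 hg hz a)

lemma cm_back (f : E ≃ₜ E) (x : Ch (Sx E)) :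
    cm (f : C(E, E)) (cm (f.symm : C(E, E)) x) = x := by
  rw [cm_cm, show (f : C(E, E)).comp (f.symm : C(E, E)) = ContinuousMap.id E from by ext; simp,
    cm_id]

lemma cm_Im (h : Cl δ G₀ G c₀ f) (hU : Sep δ c₀ (AU N)) (hX : Sep δ c₀ X) {x : Ch (Sx E)}
    (hx : x ∈ Im N G m X) : cm (f.symm : C(E, E)) x ∈ Im N G₀ m X := by
  obtain ⟨a, ha, b, hb, rfl⟩ := Submodule.mem_sup.1 hx
  rw [map_add]
  exact Submodule.add_mem_sup (cm_Zs (h.bwd hX) (h.bwd hU) ha)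
    (cm_Bs (mapsTo_univ _ _) (h.bwd hU) hb)

variable [Fintype ι]

/-- Adapted bases move along the homeomorphism. -/
lemma ub_move (hS : Sys G₀ c₀ m) (hB : Bn N c₀) (h0 : 0 < δ) (h1 : δ ≤ 1) (hg : Gap (3 * δ) c₀)
    (h : Cl δ G₀ G c₀ f) (hc : ∀ i, ‖c i - c₀ i‖ < δ) {u : ι → Ch (Sx E)} (hu : UB N G c m u) :
    UB N G₀ c₀ m fun i => cm (f.symm : C(E, E)) (u i) := by
  refine hS.ub (fun a ha => hu.ind a ?_) fun j => ⟨_, upw_strip N (c₀ j).re ((c₀ j).im - 2 * δ)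
    (2 * δ), fun l hl => ?_, cm_Im h (sep_AU hB h1) (sep_strip hB h1 hg j)
      (hu.mem (upw_strip _ _ _ _) (strip_in rfl le_rfl (hc j)))⟩
  · simpa only [map_sum, map_smul, cm_back] using
      cm_Bs (mapsTo_univ _ _) (h.fwd (sep_AU hB h1)) ha
  · obtain ⟨a, b⟩ := strip_out hB h1 hg (i := l) (by simpa using h0) hl
    exact b.eq_or_lt.imp (fun e => hS.inj (Complex.ext a e.symm)) fun e => ⟨a.symm, e⟩

/-- The normal form condition for a fixed matching of the indices. -/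
def CM (N : ℝ) (m : ℕ) (G : E → ℂ) (c : ι → ℂ) (G' : E' → ℂ) (c' : ι → ℂ) : Prop :=
  ∃ L R, Dat N N G c m L R ∧ Dat N N G' c' m L R ∧ Tri c L R

lemma cn_iff (h1 : AutS) {G' : E' → ℂ} {c' : ι → ℂ} (π π' : Equiv.Perm ι) (hi : Injective c')
    (h : Iso (c ∘ π) (c' ∘ π')) : CN N m G c G' c' ↔ CM N m G (c ∘ π) G' (c' ∘ π') := by
  constructor
  · rintro ⟨e, a, L, R, d, d', t⟩
    obtain rfl := h1 ι _ _ (π.trans e) π' hi (a.comp π) h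
    exact ⟨_, _, d.perm π, d'.perm π, t.perm π⟩
  · rintro ⟨L, R, d, d', t⟩
    have k : (c ∘ π) ∘ π.symm = c := by ext; simp
    exact ⟨π.symm.trans π', k ▸ h.comp π.symm, _, _, k ▸ d.perm π.symm, d'.perm π.symm,
      k ▸ t.perm π.symm⟩

omit [Fintype ι] in
lemma tri_iso {a b : ι → ℂ} (h : Iso a b) {L R : Matrix ι ι F} (t : Tri b L R) : Tri a L R := by
  unfold Tri at t ⊢
  rwa [h.lx]

lemma rel_iso {a b : ι → ℂ} (h : Iso a b) {L R L' R' : Matrix ι ι F} (t : Rel b L R L' R') :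
    Rel a L R L' R' := by
  unfold Rel at t ⊢
  rwa [h.up]

lemma cm_iff (h4 : RelT) (h5 : UniqS) (h6 : ExS) (h7 : RelS) {G₀' G' : E' → ℂ} {b₀ b : ι → ℂ}
    (s₀ : Sys G₀ c₀ m ∧ Bn N c₀) (s : Sys G c m ∧ Bn N c) (s₀' : Sys G₀' b₀ m ∧ Bn N b₀)
    (s' : Sys G' b m ∧ Bn N b) (k : ∀ L R, Dat N N G c m L R → Dat N N G₀ c₀ m L R)
    (k' : ∀ L R, Dat N N G' b m L R → Dat N N G₀' b₀ m L R) (i₀ : Iso c₀ b₀) (i : Iso c b) :
    CM N m G c G' b ↔ CM N m G₀ c₀ G₀' b₀ := by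
  constructor
  · rintro ⟨L, R, d, d', -⟩
    obtain ⟨L₀, R₀, e, t⟩ := h6 E ι N G₀ c₀ m s₀.1 s₀.2
    obtain ⟨L₁, R₁, e', t'⟩ := h6 E' ι N G₀' b₀ m s₀'.1 s₀'.2
    obtain ⟨rfl, rfl⟩ := h5 ι c₀ c₀ _ _ _ _ s₀.1.inj t (tri_iso i₀ t')
      (h4 ι c₀ _ _ _ _ _ _ (h7 E ι N G₀ c₀ m _ _ _ _ s₀.1 s₀.2 e (k _ _ d))
        (rel_iso i₀ (h7 E' ι N G₀' b₀ m _ _ _ _ s₀'.1 s₀'.2 (k' _ _ d') e')))
    exact ⟨_, _, e, e', t⟩
  · rintro ⟨L, R, d, d', -⟩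
    obtain ⟨L₀, R₀, e, t⟩ := h6 E ι N G c m s.1 s.2
    obtain ⟨L₁, R₁, e', t'⟩ := h6 E' ι N G' b m s'.1 s'.2
    obtain ⟨rfl, rfl⟩ := h5 ι c₀ c _ _ _ _ s.1.inj t (tri_iso i t')
      (h4 ι c₀ _ _ _ _ _ _ (h7 E ι N G₀ c₀ m _ _ _ _ s₀.1 s₀.2 (k _ _ e) d)
        (rel_iso i₀ (h7 E' ι N G₀' b₀ m _ _ _ _ s₀'.1 s₀'.2 d' (k' _ _ e'))))
    exact ⟨_, _, e, e', t⟩

lemma stab_perm {b₀ b : ι → ℂ} (e : Equiv.Perm ι)
    (k : ∀ L R, Dat N N G b m L R → Dat N N G₀ b₀ m L R) (L R : Matrix ι ι F)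
    (d : Dat N N G (b ∘ e) m L R) : Dat N N G₀ (b₀ ∘ e) m L R := by
  have a : (b ∘ e) ∘ e.symm = b := by ext; simp
  have d' := d.perm e.symm
  rw [a] at d'
  have d'' := (k _ _ d').perm e
  have r : ∀ A : Matrix ι ι F, (A.submatrix e.symm e.symm).submatrix e e = A := fun A => by
    ext i j; simp only [Matrix.submatrix_apply, Equiv.symm_apply_apply]
  rwa [r, r] at d''

end JStab

open JStab

theorem stabS : StabS := by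
  intro E ι _ _ N G₀ c₀ m hS hB
  obtain ⟨η, h0, hη⟩ := exists_gap (finite_range c₀)
  have d0 : 0 < min 1 (η / 3) := by positivity
  have d1 : min 1 (η / 3) ≤ 1 := min_le_left _ _
  have d2 : 3 * min 1 (η / 3) ≤ η := by linarith [min_le_right 1 (η / 3)]
  have hg : Gap (3 * min 1 (η / 3)) c₀ := fun i j =>
    ⟨fun a => (hη _ ⟨i, rfl⟩ _ ⟨j, rfl⟩).1 (a.trans_le d2),
      fun a => (hη _ ⟨i, rfl⟩ _ ⟨j, rfl⟩).2 (a.trans_le d2)⟩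
  refine ⟨_, d0, fun G c ⟨f, hf⟩ hc L R ⟨u, d, hu, hd, e⟩ => ?_⟩
  have hf' : Cl (min 1 (η / 3)) G₀ G c₀ f := hf
  refine ⟨_, _, ub_move hS hB d0 d1 hg hf' hc hu, ub_move hS.cj hB.cj d0 d1 hg.cj hf'.cj
    (fun i => (norm_cj _ _).trans_lt (hc i)) hd, fun i => ⟨?_, ?_⟩⟩
  · simpa only [map_add, map_sum, map_smul] using
      cm_Bs (mapsTo_univ _ _) (hf'.bwd (sep_AL hB d1)) (e i).1
  · simpa only [map_add, map_sum, map_smul] using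
      cm_Bs (mapsTo_univ _ _) (hf'.bwd (sep_AR hB d1)) (e i).2

theorem propS (h1 : AutS) (h2 : DegS) (h3 : DnS) (h4 : RelT) (h5 : UniqS) (h6 : ExS) (h7 : RelS)
    (h8 : StabS) : PropS := by
  intro T E E' ι _ _ _ _ _ N m G c G' c' hM hM' hS t₀ t₁ h
  have key : IsLocallyConstant fun t => CN N m (G t) (c t) (G' t) (c' t) := by
    refine (IsLocallyConstant.iff_eventually_eq _).2 fun s => ?_
    obtain ⟨δ₁, p₁, a₁⟩ := h8 E ι N (G s) (c s) m (hM.1 s).1 (hM.1 s).2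
    obtain ⟨δ₂, p₂, a₂⟩ := h8 E' ι N (G' s) (c' s) m (hM'.1 s).1 (hM'.1 s).2
    obtain ⟨δ₃, p₃, a₃⟩ := h3 ι (c s)
    obtain ⟨δ₄, p₄, a₄⟩ := h3 ι (c' s)
    have mono : ∀ {X : Type} [TopologicalSpace X] {δ δ' : ℝ} {H₀ H : X → ℂ} {b : ι → ℂ},
        δ ≤ δ' → Close δ H₀ H b → Close δ' H₀ H b := fun k ⟨f, hf⟩ =>
      ⟨f, fun y => (hf y).imp_right fun ⟨i, a, b⟩ => ⟨i, a.trans_le k, b.trans_le k⟩⟩
    filter_upwards [hM.2 s _ (lt_min p₁ p₃), hM'.2 s _ (lt_min p₂ p₄)] with t ⟨b, π, q⟩ ⟨b', π', q'⟩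
    have s₁ : Sim (c t ∘ π) (c t) := ⟨π, Iso.refl _⟩
    have s₂ : Sim (c' t ∘ π') (c' t) := ⟨π', Iso.refl _⟩
    obtain ⟨e, he⟩ := (s₁.trans (hS t)).trans s₂.symm
    have s₃ : Sim (c' s ∘ e) (c' s) := ⟨e, Iso.refl _⟩
    have n₁ : Dn (c s) (c t ∘ π) := (a₃ _ fun i => (q i).trans_le (min_le_right _ _)).1
    have n₂ : Dn (c' s) (c' t ∘ π') := (a₄ _ fun i => (q' i).trans_le (min_le_right _ _)).1
    have i₀ : Iso (c s) (c' s ∘ e) :=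
      h2 ι _ _ _ _ n₁ (fun i j => n₂ (e i) (e j)) he ((hS s).trans s₃.symm)
    refine propext ((cn_iff h1 π (e.trans π') (hM'.1 t).1.inj he).trans
      (Iff.trans ?_ (cn_iff h1 1 e (hM'.1 s).1.inj i₀).symm))
    exact cm_iff h4 h5 h6 h7 (hM.1 s) ⟨(hM.1 t).1.perm π, fun i => (hM.1 t).2 _⟩
      ⟨(hM'.1 s).1.perm e, fun i => (hM'.1 s).2 _⟩
      ⟨(hM'.1 t).1.perm (e.trans π'), fun i => (hM'.1 t).2 _⟩
      (a₁ _ _ (mono (min_le_left _ _) b) fun i => (q i).trans_le (min_le_left _ _))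
      (stab_perm e (a₂ _ (c' t ∘ π') (mono (min_le_left _ _) b')
        fun i => (q' i).trans_le (min_le_left _ _))) i₀ he
  exact key.apply_eq_of_preconnectedSpace t₀ t₁ ▸ h

end Pool.Agent.Lib.MP_837412_lc
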