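import Pool.Agent.Lib.MP_837412_lc.StA

/-!
Behaviour of the pencil at infinity.
-/

namespace Pool.Agent.Lib.MP_837412_lc

open Set Function Filter Topology MvPolynomial

namespace JTame

variable {σ : Type} [Fintype σ] {𝕜 : Type} [RCLike 𝕜]

lemma ev_le (q : MvPolynomial σ 𝕜) (n : ℕ) (hq : q.totalDegree ≤ n) :
    ∃ K : ℝ, 0 ≤ K ∧ ∀ y : σ → 𝕜, 1 ≤ ‖y‖ → ‖eval y q‖ ≤ K * ‖y‖ ^ n := by
  refine ⟨∑ d ∈ q.support, ‖coeff d q‖, Finset.sum_nonneg fun _ _ => norm_nonneg _,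
    fun y hy => ?_⟩
  rw [eval_eq, Finset.sum_mul]
  refine (norm_sum_le _ _).trans (Finset.sum_le_sum fun d hd => ?_)
  rw [norm_mul, norm_prod]
  refine mul_le_mul_of_nonneg_left ?_ (norm_nonneg _)
  calc ∏ i ∈ d.support, ‖y i ^ d i‖ ≤ ∏ i ∈ d.support, ‖y‖ ^ d i :=
        Finset.prod_le_prod (fun _ _ => norm_nonneg _) fun i _ => by
          rw [norm_pow]
          exact pow_le_pow_left₀ (norm_nonneg _) (norm_le_pi_norm y i) _
    _ = ‖y‖ ^ ∑ i ∈ d.support, d i := Finset.prod_pow_eq_pow_sum _ _ _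
    _ ≤ ‖y‖ ^ n := pow_le_pow_right₀ hy ((le_totalDegree hd).trans hq)

lemma ex_max (y : σ → 𝕜) (hy : 1 ≤ ‖y‖) : ∃ j, ‖y j‖ = ‖y‖ := by
  by_contra h
  have := (pi_norm_lt_iff (x := y) (lt_of_lt_of_le one_pos hy)).2 fun j =>
    lt_of_le_of_ne (norm_le_pi_norm y j) fun e => h ⟨j, e⟩
  exact lt_irrefl _ this

lemma term_nonneg (m : ℕ) (hm : Odd m) (b y : ℝ) (hb : 0 ≤ b) :
    0 ≤ y ^ (m + 1) - (m + 1) * b ^ m * y + (m + 1) * b ^ (m + 1) := by
  rcases le_total y b with h | h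
  · have h1 : 0 ≤ y ^ (m + 1) := hm.add_one.pow_nonneg y
    have h2 : 0 ≤ (m + 1) * b ^ m * (b - y) := mul_nonneg (by positivity) (sub_nonneg.2 h)
    have h3 : (m + 1) * b ^ m * (b - y) = (m + 1) * b ^ (m + 1) - (m + 1) * b ^ m * y := by ring
    linarith
  · have h1 := pow_add_mul_le_add_pow hb (b := y - b) (by linarith) (m + 1)
    rw [add_sub_cancel, Nat.add_sub_cancel] at h1
    push_cast at h1
    have h2 : 0 ≤ b ^ (m + 1) := by positivity
    have h3 : (m + 1) * b ^ m * (y - b) = (m + 1) * b ^ m * y - (m + 1) * b ^ (m + 1) := by ring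
    linarith

lemma eval_F0 (m : ℕ) (y : σ → ℝ) : eval y (F0 σ ℝ m) = 1 + ∑ i,
    (y i ^ (m + 1) - (m + 1) * (bb i : ℝ) ^ m * y i + (m + 1) * (bb i : ℝ) ^ (m + 1)) := by
  simp only [F0, map_add, map_sum, map_sub, map_mul, map_pow, eval_X, eval_C,
    Finset.sum_add_distrib, ← Finset.mul_sum]
  push_cast
  ring

end JTame

open JTame in
theorem tameS : TameS := by
  intro σ 𝕜 _ _ m p Λ hp
  obtain ⟨n, rfl⟩ : ∃ n, m = n + 1 := ⟨m - 1, by omega⟩
  have hn : p.totalDegree ≤ n := by omega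
  obtain ⟨K, hK, hK'⟩ := ev_le p n hn
  choose D hD hD' using fun j : σ => ev_le (pderiv j p) n ((totalDegree_pderiv_le j p).trans hn)
  set S : ℝ := ∑ j : σ, ((bb j : ℝ) ^ (n + 1) + |Λ| * D j) with hS
  have hS0 : ∀ j : σ, 0 ≤ (bb j : ℝ) ^ (n + 1) + |Λ| * D j := fun j =>
    add_nonneg (by positivity) (mul_nonneg (abs_nonneg _) (hD j))
  have hS1 : 0 ≤ S := Finset.sum_nonneg fun j _ => hS0 j
  refine ⟨S + 1 + K, fun l hl y hy => ?_⟩
  have hy1 : 1 ≤ ‖y‖ := by linarith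
  obtain ⟨j, hj⟩ := ex_max y hy1
  have hr : 1 ≤ ‖y‖ ^ n := one_le_pow₀ hy1
  have hj' : (bb j : ℝ) ^ (n + 1) + |Λ| * D j ≤ S :=
    Finset.single_le_sum (fun j _ => hS0 j) (Finset.mem_univ j)
  have hc : (1 : ℝ) ≤ ‖((n + 1 + 1 : ℕ) : 𝕜)‖ := by
    rw [RCLike.norm_natCast]
    exact_mod_cast Nat.succ_pos _
  have h1 : ‖eval y (qq (n + 1) p l j)‖ ≤ S * ‖y‖ ^ n := by
    rw [qq, map_add, map_mul, eval_C, eval_C]
    refine (norm_add_le _ _).trans ?_
    rw [norm_mul, norm_div, RCLike.norm_natCast]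
    have e1 : ‖l‖ / ‖((n + 1 + 1 : ℕ) : 𝕜)‖ ≤ |Λ| :=
      (div_le_self (norm_nonneg _) hc).trans (hl.trans (le_abs_self _))
    have e2 := mul_le_mul e1 (hD' j y hy1) (norm_nonneg _) (abs_nonneg _)
    have e3 : (bb j : ℝ) ^ (n + 1) ≤ (bb j : ℝ) ^ (n + 1) * ‖y‖ ^ n :=
      le_mul_of_one_le_right (by positivity) hr
    have e4 := mul_le_mul_of_nonneg_right hj' (le_trans zero_le_one hr)
    push_cast at e2 ⊢
    nlinarith
  have h2 : (1 + K) * ‖y‖ ^ n ≤ ‖eval y (pderiv j (Fl (n + 1) p l))‖ := by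
    rw [pderiv_Fl, map_mul, eval_C, norm_mul, map_sub, map_pow, eval_X]
    refine le_trans ?_ (le_mul_of_one_le_left (norm_nonneg _) hc)
    refine le_trans ?_ (norm_sub_norm_le _ _)
    rw [norm_pow, hj, pow_succ]
    have := mul_le_mul_of_nonneg_left hy (le_trans zero_le_one hr)
    linarith
  have h3 : ‖eval y (pderiv j (Fl (n + 1) p l))‖ ^ 2 ≤ n2 (Fl (n + 1) p l) y :=
    Finset.single_le_sum (f := fun i => ‖eval y (pderiv i (Fl (n + 1) p l))‖ ^ 2)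
      (fun _ _ => sq_nonneg _) (Finset.mem_univ j)
  have h4 : 0 ≤ K * ‖y‖ ^ n := mul_nonneg hK (le_trans zero_le_one hr)
  refine ⟨le_trans (one_le_pow₀ (by linarith)) h3,
    le_trans (pow_le_pow_left₀ (norm_nonneg _) ?_ 2) h3⟩
  have := hK' y hy1
  linarith

open JTame in
theorem growS : GrowS := by
  intro σ _ m p hm hp
  have ht : ∀ (y : σ → ℝ) (i : σ), 0 ≤ y i ^ (m + 1) - (m + 1) * (bb i : ℝ) ^ m * y i +
      (m + 1) * (bb i : ℝ) ^ (m + 1) := fun y i => term_nonneg m hm _ _ (Nat.cast_nonneg _)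
  refine ⟨fun y => ?_, fun l b => ?_⟩
  · rw [eval_F0]
    exact add_pos_of_pos_of_nonneg one_pos (Finset.sum_nonneg fun i _ => ht y i)
  · obtain ⟨K, hK, hK'⟩ := ev_le p m hp.le
    set S : ℝ := ∑ j : σ, (m + 1) * (bb j : ℝ) ^ m with hS
    have hS1 : 0 ≤ S := Finset.sum_nonneg fun j _ => by positivity
    have hl : 0 ≤ |l| * K := mul_nonneg (abs_nonneg _) hK
    refine (isCompact_closedBall (0 : σ → ℝ) (1 + S + |l| * K + |b|)).of_isClosed_subset
      (isClosed_le (MvPolynomial.continuous_eval _) continuous_const) fun y hy => ?_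
    rw [mem_closedBall_zero_iff]
    by_contra h
    have h := not_le.1 h
    have hb := abs_nonneg b
    have hy1 : 1 ≤ ‖y‖ := by linarith
    obtain ⟨j, hj⟩ := ex_max y hy1
    have hr : 1 ≤ ‖y‖ ^ m := one_le_pow₀ hy1
    have hr' : ‖y‖ ≤ ‖y‖ ^ m := le_self_pow₀ hy1 hm.pos.ne'
    have hy' : eval y (Fl m p l) ≤ b := hy
    rw [eval_Fl, eval_F0] at hy'
    have h1 := Finset.single_le_sum (fun i _ => ht y i) (Finset.mem_univ j)
    have h2 : y j ^ (m + 1) = ‖y‖ ^ m * ‖y‖ := by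
      rw [← pow_succ, ← hj, Real.norm_eq_abs, hm.add_one.pow_abs]
    have h3 : (m + 1) * (bb j : ℝ) ^ m ≤ S :=
      Finset.single_le_sum (f := fun j : σ => (m + 1) * (bb j : ℝ) ^ m)
        (fun _ _ => by positivity) (Finset.mem_univ j)
    have h4 : (m + 1) * (bb j : ℝ) ^ m * y j ≤ S * ‖y‖ ^ m := by
      have e1 : y j ≤ ‖y‖ ^ m := (le_abs_self _).trans ((norm_le_pi_norm y j).trans hr')
      exact (mul_le_mul_of_nonneg_left e1 (by positivity)).trans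
        (mul_le_mul_of_nonneg_right h3 (by positivity))
    have h5 : l * eval y p ≤ |l| * K * ‖y‖ ^ m := by
      refine (le_abs_self _).trans ?_
      rw [abs_mul, mul_assoc]
      exact mul_le_mul_of_nonneg_left (hK' y hy1) (abs_nonneg _)
    have h6 : 0 ≤ (m + 1) * (bb j : ℝ) ^ (m + 1) := by positivity
    have h7 := mul_le_mul_of_nonneg_left h.le (le_trans zero_le_one hr)
    have h8 : |b| ≤ ‖y‖ ^ m * |b| := le_mul_of_one_le_left hb hr
    have h9 := le_abs_self b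
    nlinarith

end Pool.Agent.Lib.MP_837412_lc
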