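import Pool.Agent.Lib.MP_837412_lc.StC

/-!
The lemma of Thom and signs at the real roots.
-/

namespace Pool.Agent.Lib.MP_837412_lc

open Set Polynomial Function

namespace JThom

/-- The sign of a derivative. -/
noncomputable def sg (f : ℝ[X]) (j : ℕ) (t : ℝ) : SignType :=
  SignType.sign ((derivative^[j] f).eval t)

lemma sg_big {f : ℝ[X]} {n j : ℕ} (hf : f.natDegree ≤ n) (h : n < j) (t : ℝ) : sg f j t = 0 := by
  rw [sg, iterate_derivative_eq_zero (hf.trans_lt h), eval_zero, sign_zero]

lemma step {f : ℝ[X]} {a b : ℝ} {k : ℕ} {s : SignType} (h : ∀ t ∈ Icc a b, sg f (k + 1) t = s) :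
    (0 ≤ s → MonotoneOn (sg f k) (Icc a b)) ∧ (s ≤ 0 → AntitoneOn (sg f k) (Icc a b)) := by
  have e : ∀ t, deriv (fun x => (derivative^[k] f).eval x) t = (derivative^[k + 1] f).eval t :=
    fun t => by rw [Polynomial.deriv, iterate_succ_apply']
  constructor
  · intro hs
    have m : MonotoneOn (fun x => (derivative^[k] f).eval x) (Icc a b) :=
      monotoneOn_of_deriv_nonneg (convex_Icc a b) (Polynomial.continuous _).continuousOn
        (Polynomial.differentiable _).differentiableOn fun t ht => by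
          rw [e, ← sign_nonneg_iff]
          exact hs.trans_eq (h t (interior_subset ht)).symm
    exact fun x hx y hy hxy => SignType.sign.monotone (m hx hy hxy)
  · intro hs
    have m : AntitoneOn (fun x => (derivative^[k] f).eval x) (Icc a b) :=
      antitoneOn_of_deriv_nonpos (convex_Icc a b) (Polynomial.continuous _).continuousOn
        (Polynomial.differentiable _).differentiableOn fun t ht => by
          rw [e, ← sign_nonpos_iff]
          exact (h t (interior_subset ht)).trans_le hs
    exact fun x hx y hy hxy => SignType.sign.monotone (m hx hy hxy)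

lemma const {f : ℝ[X]} {n : ℕ} (hf : f.natDegree ≤ n) {a b : ℝ} (hab : a ≤ b) (m : ℕ) :
    ∀ k, n < k + m → (∀ j, k ≤ j → sg f j a = sg f j b) → ∀ t ∈ Icc a b, sg f k t = sg f k a := by
  induction m with
  | zero => exact fun k hk _ t _ => (sg_big hf hk t).trans (sg_big hf hk a).symm
  | succ m ih =>
    intro k hk h t ht
    have h1 := step (ih (k + 1) (by omega) fun j hj => h j (by omega))
    have ha := left_mem_Icc.2 hab
    have hb := right_mem_Icc.2 hab
    rcases le_total 0 (sg f (k + 1) a) with hs | hs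
    · exact le_antisymm ((h1.1 hs ht hb ht.2).trans (h k le_rfl).ge) (h1.1 hs ha ht ht.1)
    · exact le_antisymm (h1.2 hs ha ht ht.1) ((h k le_rfl).le.trans (h1.2 hs ht hb ht.2))

lemma grow {f : ℕ → ℕ} {m : ℕ} (h : ∀ i j, i < j → j < m → f i < f j) (i d : ℕ) :
    i + d < m → f i + d ≤ f (i + d) := by
  induction d with
  | zero => exact fun _ => le_rfl
  | succ d ih =>
    intro hd
    have h1 := ih (by omega)
    have h2 := h (i + d) (i + (d + 1)) (by omega) hd
    omega

lemma le_of_grow {f : ℕ → ℕ} {m m' : ℕ} (h : ∀ i j, i < j → j < m → f i < f j)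
    (h' : ∀ i < m, f i < m') : m ≤ m' := by
  rcases m with _ | m
  · exact Nat.zero_le _
  · have h1 := grow h 0 m (by omega)
    have h2 := h' (0 + m) (by omega)
    omega

lemma eq_of_grow {f : ℕ → ℕ} {m : ℕ} (h : ∀ i j, i < j → j < m → f i < f j)
    (h' : ∀ i < m, f i < m) {i : ℕ} (hi : i < m) : f i = i := by
  have h1 := grow h 0 i (by omega)
  have h2 := grow h i (m - 1 - i) (by omega)
  have h3 := h' (i + (m - 1 - i)) (by omega)
  rw [Nat.zero_add] at h1
  omega

/-- The polynomial `q` and the derivatives of `p`. -/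
noncomputable def fam (n : ℕ) (p q : ℝ[X]) : Option (Fin (n + 1)) → ℝ[X]
  | none => q
  | some j => derivative^[j] p

lemma partner {J : Type} {p p' : ℝ[X]} {Q Q' : J → ℝ[X]} (h : cnt p Q = cnt p' Q') {i : ℕ}
    (hi : i < nr p) : ∃ i' < nr p', ∀ j,
      SignType.sign ((Q j).eval (rt p i)) = SignType.sign ((Q' j).eval (rt p' i')) := by
  have h1 : cnt p Q (fun j => SignType.sign ((Q j).eval (rt p i))) ≠ 0 := by
    unfold cnt
    refine Set.ncard_ne_zero_of_mem (a := rt p i) ⟨rt_mem hi, fun _ => rfl⟩ ?_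
    exact p.roots.finite_toSet.subset fun t ht => ht.1
  rw [h] at h1
  obtain ⟨t, ht, ht'⟩ := Set.nonempty_of_ncard_ne_zero h1
  obtain ⟨i', hi', rfl⟩ := exists_rt (ne_zero_of_mem_roots ht) (isRoot_of_mem_roots ht)
  exact ⟨i', hi', fun j => (ht' j).symm⟩

lemma matching (hT : ThomS) {n : ℕ} {p p' q q' : ℝ[X]} (h0 : p ≠ 0) (hp : p.natDegree ≤ n)
    (hp' : p'.natDegree ≤ n) (h : cnt p (fam n p q) = cnt p' (fam n p' q')) :
    ∃ f : ℕ → ℕ, (∀ i j, i < j → j < nr p → f i < f j) ∧ (∀ i < nr p, f i < nr p') ∧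
      ∀ i < nr p, SignType.sign (q.eval (rt p i)) = SignType.sign (q'.eval (rt p' (f i))) := by
  choose! f h1 h2 using fun i (hi : i < nr p) => partner h hi
  refine ⟨f, fun i j hij hj => ?_, h1, fun i hi => h2 i hi none⟩
  have hi := hij.trans hj
  refine (rt_lt_iff (h1 i hi) (h1 j hj)).1 (hT p p' n (rt p i) (rt p j) _ _ h0 hp hp' (rt_root hi)
    (rt_root hj) ((rt_lt_iff hi hj).2 hij) (fun l hl => ?_) fun l hl => ?_)
  · exact h2 i hi (some ⟨l, Nat.lt_succ_of_le hl⟩)
  · exact h2 j hj (some ⟨l, Nat.lt_succ_of_le hl⟩)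

end JThom

open JThom

theorem thomS : ThomS := by
  classical
  intro p p' n a b a' b' h0 hp hp' ha _ hab h1 h2
  have e1 : ∀ j, sg p j a = sg p' j a' := fun j => (le_or_gt j n).elim (h1 j)
    fun hj => (sg_big hp hj a).trans (sg_big hp' hj a').symm
  have e2 : ∀ j, sg p j b = sg p' j b' := fun j => (le_or_gt j n).elim (h2 j)
    fun hj => (sg_big hp hj b).trans (sg_big hp' hj b').symm
  have ex : ∃ k, sg p k a ≠ sg p k b ∧ ∀ j, k + 1 ≤ j → sg p j a = sg p j b := by
    by_contra hn
    have all : ∀ m k, n < k + m → ∀ j, k ≤ j → sg p j a = sg p j b := by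
      intro m
      induction m with
      | zero =>
        exact fun k hk j hj => (sg_big hp (by omega) a).trans (sg_big hp (by omega) b).symm
      | succ m ih =>
        intro k hk j hj
        rcases hj.eq_or_lt with rfl | hj
        · by_contra hc
          exact hn ⟨k, hc, ih (k + 1) (by omega)⟩
        · exact ih (k + 1) (by omega) j hj
    have h3 := const hp hab.le (n + 1) 0 (by omega) (all (n + 1) 0 (by omega))
    refine h0 (p.eq_zero_of_infinite_isRoot ((Icc_infinite hab).mono fun t ht => ?_))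
    have h4 : SignType.sign (p.eval t) = SignType.sign (p.eval a) := h3 t ht
    rw [ha.eq_zero, sign_zero, sign_eq_zero_iff] at h4
    exact h4
  obtain ⟨k, hk, hk'⟩ := ex
  by_contra hc
  have hc' : b' ≤ a' := not_lt.1 hc
  have s1 := step (const hp hab.le n (k + 1) (by omega) hk')
  have s2 := step (const hp' hc' n (k + 1) (by omega) fun j hj => by
    rw [← e1, ← e2, hk' j hj])
  rw [← e2, ← hk' _ le_rfl] at s2
  have l1 := left_mem_Icc.2 hab.le
  have r1 := right_mem_Icc.2 hab.le
  have l2 := left_mem_Icc.2 hc'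
  have r2 := right_mem_Icc.2 hc'
  refine hk ?_
  rcases le_total 0 (sg p (k + 1) a) with hs | hs
  · have h3 := s2.1 hs l2 r2 hc'
    rw [← e1, ← e2] at h3
    exact le_antisymm (s1.1 hs l1 r1 hab.le) h3
  · have h3 := s2.2 hs l2 r2 hc'
    rw [← e1, ← e2] at h3
    exact le_antisymm h3 (s1.2 hs l1 r1 hab.le)

theorem signAtS (h1 : BkrS) (h2 : ThomS) : SignAtS := by
  intro α B _ Γ e n p q hB hp hq dp dq h0
  have hn : n < B := lt_of_lt_of_le (by omega) ((Nat.le_self_pow (by norm_num) (n + 4)).trans hB)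
  have key := h1 α (Option (Fin (n + 1))) B Γ (e + 22) (n + 2) p (fun x => fam n (p x) (q x)) hB
    (by simp) (hp.mono (by omega)) (fun j => ?_) (dp.mono (by omega)) (fun j => ?_) h0
  · refine (key.mono (by omega)).imp fun x hx y hy h => ?_
    obtain ⟨f, f1, f2, f3⟩ := matching h2 (h0 x hx) (dp x hx) (dp y hy) h
    obtain ⟨g, g1, g2, -⟩ := matching h2 (h0 y hy) (dp y hy) (dp x hx) h.symm
    have e1 : nr (p x) = nr (p y) := le_antisymm (le_of_grow f1 f2) (le_of_grow g1 g2)
    refine ⟨e1, fun j hj => ?_⟩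
    have h3 := f3 j hj
    rwa [eq_of_grow f1 (e1 ▸ f2) hj] at h3
  · cases j with
    | none => exact hq.mono (by omega)
    | some j => exact hp.iterate_derivative dp hn j
  · cases j with
    | none => exact dq.mono (by omega)
    | some j =>
      exact fun x hx => (natDegree_iterate_derivative _ _).trans
        ((Nat.sub_le _ _).trans ((dp x hx).trans (by omega)))

end Pool.Agent.Lib.MP_837412_lc
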