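import Pool.Agent.Lib.MP_837412_lc.StC

/-!
The polynomial of events is computed, and the sequence of events is determined.
-/

namespace Pool.Agent.Lib.MP_837412_lc

open Set Polynomial Function

namespace JTrace

variable {α ι : Type} [Fintype ι] {B : ℕ} [hB : Fact (2 ≤ B)] {Γ : Ctx α} {e n J d : ℕ}

lemma natDegree_nn {f : ℝ → ℂ} (h : IsP Complex.ofReal n f) : (nn f).natDegree ≤ 2 * n := by
  have a := (natDegree_nz _).trans ((natDegree_rp _).trans h.pol.1)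
  have b := (natDegree_nz _).trans ((natDegree_ip _).trans h.pol.1)
  exact (natDegree_mul_le_of_le a b).trans (by omega)

lemma nnA {f : α → ℝ → ℂ} (hf : ∀ x ∈ Γ.Y, IsP Complex.ofReal n (f x)) (hn : n + 1 < B)
    (h : ∀ Δ, Γ ≤ Δ → ∀ t : α → ℝ, A B Δ 0 t → A B Δ e fun x => f x (t x)) :
    AP B Γ (e + 73) fun x => nn (f x) := by
  have h1 : AP B Γ (e + 9 + 45) fun x => pol (f x) := AP.pol hf hn fun t ht =>
    (P.share1 (A.nat (𝕜 := ℝ) (n := t) (by omega)) fun Δ a b => h Δ a _ b).mono (by omega)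
  have d1 : Dg Γ n fun x => rp (pol (f x)) := fun x hx => (natDegree_rp _).trans (hf x hx).pol.1
  have d2 : Dg Γ n fun x => ip (pol (f x)) := fun x hx => (natDegree_ip _).trans (hf x hx).pol.1
  exact ((h1.rp.nz d1 (by omega)).mul (h1.ip.nz d2 (by omega)) (n := n)
    (fun x hx => (natDegree_nz _).trans (d1 x hx)) (by omega)).mono (by omega)

lemma qvA {c : α → ι → ℂ} (h : PA B Γ e J c) (hJ : J < B)
    (hc : Fintype.card ι + Fintype.card ι * Fintype.card ι ≤ J) :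
    A B Γ (e + 88) fun x => Qv (c x) := by
  have h1 : PA B Γ (e + 17) J fun x i => (-1 : ℂ) * c x i :=
    (PA.smul (w := fun _ => -1) A.one.neg h hJ).mono (by omega)
  have h2 := (h.mono (by omega : e ≤ e + 17)).padd h1 hJ
  have h3 := (h.mono (by omega : e ≤ e + 17 + 32)).elim h2
  exact (h3.chi hJ (by simpa using hc) _).mono (by omega)

lemma wcA {c : α → ι → ℂ} (h : PA B Γ e J c) (hJ : J < B) (hc : Fintype.card ι ^ 4 ≤ J) (j : ℕ) :
    A B Γ (e + 120) fun x => (chi (Wc (c x))).coeff j := by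
  have h1 := (h.mono (by omega : e ≤ e + 4)).padd h.conj hJ
  have h2 := (PA.smul (w := fun _ => -1) A.one.neg h1 hJ).mono
    (by omega : max (e + 4 + 32) (2 + 5) + 10 ≤ e + 53)
  have h3 := (h1.mono (by omega : e + 4 + 32 ≤ e + 53)).padd h2 hJ
  refine (h3.chi hJ (le_trans (le_of_eq ?_) hc) j).mono (by omega)
  simp only [Fintype.card_prod]; ring

lemma qvP {c : ℝ → ι → ℂ} (h : PP Complex.ofReal d c) :
    IsP Complex.ofReal ((Fintype.card ι + Fintype.card ι * Fintype.card ι) * d)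
      fun t => Qv (c t) :=
  ((h.elim (h.padd (h.smul (-1)))).coeff_chi (Fintype.card ι)).mono (by simp)

lemma wcP {c : ℝ → ι → ℂ} (h : PP Complex.ofReal d c) (j : ℕ) :
    IsP Complex.ofReal (Fintype.card ι ^ 4 * d) fun t => (chi (Wc (c t))).coeff j := by
  refine (((h.padd h.conj).padd ((h.padd h.conj).smul (-1))).coeff_chi j).mono (le_of_eq ?_)
  simp only [Fintype.card_prod]; ring

lemma bounds (m d : ℕ) : (m + 1) ^ 4 ≤ (m + d + 2) ^ 4 ∧ m + m * m ≤ (m + 1) ^ 4 ∧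
    m ^ 4 + 1 ≤ (m + 1) ^ 4 ∧
    2 + 2 * ((m + m * m) * d) + (m ^ 4 + 1) * (2 * (m ^ 4 * d)) + 2 ≤ (m + d + 2) ^ 13 ∧
    (m + d + 2) ^ 4 ≤ (m + d + 2) ^ 13 ∧ 2 * (m + d + 2) ^ 13 ≤ (m + d + 2) ^ 14 := by
  have h1 : (m + 1) ^ 4 ≤ (m + d + 2) ^ 4 := Nat.pow_le_pow_left (by omega) 4
  have h2 : m + m * m ≤ (m + 1) ^ 4 := by nlinarith [Nat.zero_le (m ^ 4), Nat.zero_le (m ^ 3)]
  have h3 : m ^ 4 + 1 ≤ (m + 1) ^ 4 := by nlinarith [Nat.zero_le (m ^ 2), Nat.zero_le (m ^ 3)]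
  generalize hN : m + d + 2 = N at *
  have hN2 : 2 ≤ N := by omega
  have hd : d ≤ N := by omega
  have a : (m + m * m) * d ≤ N ^ 9 := (Nat.mul_le_mul (h2.trans h1) hd).trans
    (by rw [← pow_succ]; exact Nat.pow_le_pow_right (by omega) (by omega))
  have b : (m ^ 4 + 1) * (m ^ 4 * d) ≤ N ^ 9 :=
    (Nat.mul_le_mul (h3.trans h1) (Nat.mul_le_mul (by omega : m ^ 4 ≤ N ^ 4) hd)).trans
      (le_of_eq (by ring))
  have c : 1 ≤ N ^ 9 := Nat.one_le_pow _ _ (by omega)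
  have f : 2 ^ 4 * N ^ 9 ≤ N ^ 13 :=
    (Nat.mul_le_mul_right _ (Nat.pow_le_pow_left hN2 4)).trans (le_of_eq (by ring))
  refine ⟨h1, h2, h3, ?_, Nat.pow_le_pow_right (by omega) (by omega), ?_⟩
  · rw [mul_left_comm (m ^ 4 + 1)]; omega
  · rw [pow_succ N 13, mul_comm]; exact Nat.mul_le_mul_left _ hN2

end JTrace

open JTrace

theorem evA : EvA := by
  intro α ι _ B _ Γ e d c hB hP hA
  obtain ⟨b1, b2, b3, b4, b5, b6⟩ := bounds (Fintype.card ι) d
  have hJ : (Fintype.card ι + 1) ^ 4 < B := by omega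
  have b7 : 2 * (Fintype.card ι ^ 4 * d) ≤
      (Fintype.card ι ^ 4 + 1) * (2 * (Fintype.card ι ^ 4 * d)) :=
    Nat.le_mul_of_pos_left _ (by omega)
  have h1 := nnA (f := fun x t => Qv (c x t)) (fun x hx => qvP (hP x hx)) (by omega)
    fun Δ a t b => qvA (hA Δ a t b) hJ b2
  have h2 := fun j => nnA (f := fun x t => (chi (Wc (c x t))).coeff j)
    (fun x hx => wcP (hP x hx) j) (by omega) fun Δ a t b => wcA (hA Δ a t b) hJ (by omega) j
  have d2 : ∀ j, Dg Γ (2 * (Fintype.card ι ^ 4 * d))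
      fun x => nn fun t => (chi (Wc (c x t))).coeff j := fun j x hx => natDegree_nn (wcP (hP x hx) j)
  have h3 := AP.prod (Finset.range (Fintype.card ι ^ 4 + 1)) (by simp; omega) (fun j _ => h2 j)
    (fun j _ => d2 j) (by simp; omega)
  have dX : (X * (X - 1) : ℝ[X]).natDegree ≤ 2 :=
    natDegree_mul_le_of_le (m := 1) (n := 1) natDegree_X_le (natDegree_X_sub_C_le 1)
  have h4 : AP B Γ 18 fun _ => (X * (X - 1) : ℝ[X]) :=
    AP.X.mul (AP.X.sub (AP.C A.one)) (n := 1) (fun _ _ => natDegree_X_le) (by omega)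
  have d5 : Dg Γ (2 + 2 * ((Fintype.card ι + Fintype.card ι * Fintype.card ι) * d))
      fun x => X * (X - 1) * nn fun t => Qv (c x t) :=
    fun x hx => natDegree_mul_le_of_le dX (natDegree_nn (qvP (hP x hx)))
  refine ⟨((h4.mul h1 (fun _ _ => dX) (by omega)).mul h3 d5 (by omega)).mono (by omega),
    fun x hx => (natDegree_mul_le_of_le (d5 x hx) ((natDegree_prod_le _ _).trans
      (Finset.sum_le_card_nsmul _ _ _ fun j _ => d2 j x hx))).trans ?_⟩
  simp only [Finset.card_range, smul_eq_mul]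
  omega

theorem traceS (h1 : SignAtS) (h2 : AdjS) (h3 : TypeS) (h4 : RigS) (h5 : EvA) : TraceS := by
  intro α ι _ B _ Γ e d c hB hP hA
  obtain ⟨b1, b2, b3, b4, b5, b6⟩ := bounds (Fintype.card ι) d
  have hN : 2 ≤ Fintype.card ι + d + 2 := by omega
  have pw : ∀ k ≤ 100, (Fintype.card ι + d + 2) ^ k ≤ B := fun k hk =>
    (Nat.pow_le_pow_right (by omega) hk).trans hB
  have b14 := pw 14 (by omega)
  obtain ⟨hev, hd⟩ := h5 α ι B Γ e d c b14 hP hA
  have b15 : 2 * (Fintype.card ι + d + 2) ^ 14 ≤ (Fintype.card ι + d + 2) ^ 15 := by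
    rw [pow_succ _ 14, mul_comm]; exact Nat.mul_le_mul_left _ hN
  have b90 : ∀ k ≤ (Fintype.card ι + d + 2) ^ 15, k ^ 6 ≤ B := fun k hk =>
    (Nat.pow_le_pow_left hk 6).trans (by rw [← pow_mul]; exact pw _ (by omega))
  have b8 : Fintype.card ι ^ 2 ≤ (Fintype.card ι + 1) ^ 4 := by rw [pow_two]; omega
  have hJ : (Fintype.card ι + 1) ^ 4 < B := by omega
  generalize (Fintype.card ι + d + 2) ^ 13 = n at *
  have sim : ∀ Δ, Γ ≤ Δ → ∀ t : α → ℝ, A B Δ 0 t →
      D B Δ (e + 1201) fun x y => SimI (c x (t x)) (c y (t y)) := fun Δ a t b =>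
    (((D.zero (qvA (hA Δ a t b) hJ b2)).and (h3 α ι Unit B Δ e 0 (fun x => c x (t x))
      (fun _ _ => ()) (b90 _ (by omega)) (fun j hj => hA Δ a t b j (hj.trans b8))
      fun _ _ _ _ _ => D.of_forall fun _ _ _ _ => rfl)).mono (by omega)).imp
      fun x _ y _ r => ⟨r.1, fun p q => let ⟨π, s, _⟩ := r.2 p q; ⟨π, s⟩⟩
  refine D.mono (e := max (e + 250 + 1) (e + 2009) + 1)
    (hev.share hd (by omega) fun Δ a ev1 => ?_) (by omega)
  have ne : ∀ x ∈ Δ.Y, ev (c x) ≠ 0 := fun x hx => (h4 ι d (c x) (hP x (a.1 hx))).1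
  have s1 := h1 α B Δ 2 n (fun x => ev (c x)) (fun _ => X) (b90 _ (by omega))
    (ev1.mono one_le_two) AP.X (hd.ext a) (fun _ _ => natDegree_X_le.trans (by omega)) ne
  have s2 := h1 α B Δ 7 n (fun x => ev (c x)) (fun _ => X - C 1) (b90 _ (by omega))
    (ev1.mono (by omega)) (AP.X.sub (AP.C A.one)) (hd.ext a)
    (fun _ _ => (natDegree_X_sub_C_le 1).trans (by omega)) ne
  have s3 : D B Δ (max (2 + 250) (e + 2006) + 1) fun x y => ∀ j < nr (ev (c x)),
      SimI (c x (rt (ev (c x)) j)) (c y (rt (ev (c y)) j)) ∧ (j + 1 < nr (ev (c x)) →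
        SimI (c x ((rt (ev (c x)) j + rt (ev (c x)) (j + 1)) / 2))
          (c y ((rt (ev (c y)) j + rt (ev (c y)) (j + 1)) / 2))) := by
    refine P.cases (f := fun x => nr (ev (c x))) (s1.imp fun _ _ _ _ r => r.1) fun k Θ a' hk => ?_
    rcases Θ.Y.eq_empty_or_nonempty with h0 | ⟨y₀, hy₀⟩
    · exact D.of_forall (by simp [h0])
    have kn : k ≤ n := hk y₀ hy₀ ▸ (nr_le _).trans (hd y₀ (a.1 (a'.1 hy₀)))
    have adj : ∀ j < k, ∀ Ξ, Θ ≤ Ξ → ∀ e' r,
        (∀ Ξ', Ξ ≤ Ξ' → A B Ξ' 0 (fun x => rt (ev (c x)) j) → D B Ξ' e' r) →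
        D B Ξ (1 + e' + 400) r := fun j hj Ξ a'' e' r h =>
      h2 α B Ξ 1 e' n j (fun x => ev (c x)) r (b90 _ (by omega)) (ev1.ext (a'.trans a''))
        (hd.ext (a.trans (a'.trans a''))) (fun x hx =>
          ⟨ne x (a'.1 (a''.1 hx)), by rw [hk x (a''.1 hx)]; exact hj⟩) h
    refine D.imp (D.all (Finset.range k) (by simp; omega) (e := e + 2005) (r := fun j x y =>
      SimI (c x (rt (ev (c x)) j)) (c y (rt (ev (c y)) j)) ∧ (j + 1 < k →
        SimI (c x ((rt (ev (c x)) j + rt (ev (c x)) (j + 1)) / 2))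
          (c y ((rt (ev (c y)) j + rt (ev (c y)) (j + 1)) / 2)))) fun j hj => ?_)
      fun x hx y _ r j hj => ?_
    · have hj' := Finset.mem_range.1 hj
      refine ((adj j hj' Θ le_rfl _ _ fun Ξ p q => sim Ξ (a.trans (a'.trans p)) _ q).and
        (e' := e + 2004) ?_).mono (by omega)
      by_cases hj1 : j + 1 < k
      · refine ((adj j hj' Θ le_rfl _ _ fun Ξ p q => adj (j + 1) hj1 Ξ p _ _ fun Ξ' p' q' =>
          P.share1 (((q.ext p').add q').div (A.nat (n := 2) (by omega)) (by simp))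
            fun Ξ'' p'' q'' => sim Ξ'' (a.trans (a'.trans (p.trans (p'.trans p'')))) _ q'').mono
          (by omega)).imp fun x _ y _ r _ => by simpa using r
      · exact D.of_forall fun _ _ _ _ h => (hj1 h).elim
    · rw [hk x hx] at hj ⊢
      exact r j (Finset.mem_range.2 hj)
  refine (((s1.and s2).and s3).mono (by omega)).imp fun x _ y _ r => ⟨r.1.1.1, fun j hj => ?_⟩
  exact ⟨by simpa using r.1.1.2 j hj, by simpa using r.1.2.2 j hj, r.2 j hj⟩

end Pool.Agent.Lib.MP_837412_lc
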