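import Pool.Agent.Lib.MP_837412_lc.StC

/-!
From semantic trees with division to algebraic computation trees.
-/

namespace Pool.Agent.Lib.MP_837412_lc

open Set

namespace JTree

variable {α ι : Type} {inp : α → ι → ℝ} {f : α → List ℕ} {R : List (α → ℝ)} {Y : Set α} {k : ℕ}
  {p q u v w : α → ℝ}

/-- A tree of depth at most `k` computes `f` on `Y` from the registers `R`. -/
def Tr (inp : α → ι → ℝ) (f : α → List ℕ) (R : List (α → ℝ)) (Y : Set α) (k : ℕ) : Prop :=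
  ∃ T : Tree ι, T.depth ≤ k ∧ ∀ x ∈ Y, T.run (inp x) (R.map fun r => r x) = f x

/-- On `Y` the function is a quotient of two registers. -/
def Rep (R : List (α → ℝ)) (Y : Set α) (u : α → ℝ) : Prop :=
  ∃ p ∈ R, ∃ q ∈ R, ∀ x ∈ Y, q x ≠ 0 ∧ u x = p x / q x

lemma Rep.mono {R' : List (α → ℝ)} {Y' : Set α} (h : Rep R Y u) (a : R ⊆ R') (b : Y' ⊆ Y) :
    Rep R' Y' u :=
  let ⟨p, hp, q, hq, e⟩ := h
  ⟨p, a hp, q, a hq, fun x hx => e x (b hx)⟩

lemma Tr.mono {k' : ℕ} (h : Tr inp f R Y k) (e : k ≤ k') : Tr inp f R Y k' :=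
  let ⟨T, a, b⟩ := h
  ⟨T, a.trans e, b⟩

lemma idx (h : p ∈ R) : ∃ i, ∀ x, (R.map fun r => r x).getD i 0 = p x := by
  obtain ⟨i, hi, rfl⟩ := List.getElem_of_mem h
  refine ⟨i, fun x => ?_⟩
  rw [List.getD_eq_getElem _ _ (by rwa [List.length_map]), List.getElem_map]

lemma Tr.input (j : ι) (h : Tr inp f (R ++ [fun x => inp x j]) Y k) : Tr inp f R Y (k + 1) := by
  obtain ⟨T, a, b⟩ := h
  refine ⟨.inp j T, Nat.succ_le_succ a, fun x hx => ?_⟩
  have e := b x hx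
  rw [List.map_append] at e
  exact e

lemma Tr.one (h : Tr inp f (R ++ [1]) Y k) : Tr inp f R Y (k + 1) := by
  obtain ⟨T, a, b⟩ := h
  refine ⟨.one T, Nat.succ_le_succ a, fun x hx => ?_⟩
  have e := b x hx
  rw [List.map_append] at e
  exact e

lemma Tr.add (hp : p ∈ R) (hq : q ∈ R) (h : Tr inp f (R ++ [p + q]) Y k) :
    Tr inp f R Y (k + 1) := by
  obtain ⟨T, a, b⟩ := h
  obtain ⟨i, hi⟩ := idx hp
  obtain ⟨j, hj⟩ := idx hq
  refine ⟨.add i j T, Nat.succ_le_succ a, fun x hx => ?_⟩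
  have e := b x hx
  rw [List.map_append] at e
  rw [Tree.run, hi, hj]
  exact e

lemma Tr.sub (hp : p ∈ R) (hq : q ∈ R) (h : Tr inp f (R ++ [p - q]) Y k) :
    Tr inp f R Y (k + 1) := by
  obtain ⟨T, a, b⟩ := h
  obtain ⟨i, hi⟩ := idx hp
  obtain ⟨j, hj⟩ := idx hq
  refine ⟨.sub i j T, Nat.succ_le_succ a, fun x hx => ?_⟩
  have e := b x hx
  rw [List.map_append] at e
  rw [Tree.run, hi, hj]
  exact e

lemma Tr.mul (hp : p ∈ R) (hq : q ∈ R) (h : Tr inp f (R ++ [p * q]) Y k) :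
    Tr inp f R Y (k + 1) := by
  obtain ⟨T, a, b⟩ := h
  obtain ⟨i, hi⟩ := idx hp
  obtain ⟨j, hj⟩ := idx hq
  refine ⟨.mul i j T, Nat.succ_le_succ a, fun x hx => ?_⟩
  have e := b x hx
  rw [List.map_append] at e
  rw [Tree.run, hi, hj]
  exact e

lemma Tr.test (hp : p ∈ R) (h : ∀ s, Tr inp f R (Y ∩ {x | SignType.sign (p x) = s}) k) :
    Tr inp f R Y (k + 1) := by
  obtain ⟨T1, a1, b1⟩ := h (-1)
  obtain ⟨T2, a2, b2⟩ := h 0
  obtain ⟨T3, a3, b3⟩ := h 1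
  obtain ⟨i, hi⟩ := idx hp
  refine ⟨.test i T1 T2 T3, Nat.succ_le_succ (max_le a1 (max_le a2 a3)), fun x hx => ?_⟩
  rw [Tree.run, hi]
  split_ifs with c1 c2
  · exact b1 x ⟨hx, sign_neg c1⟩
  · exact b2 x ⟨hx, sign_eq_zero_iff.2 c2⟩
  · exact b3 x ⟨hx, sign_pos (lt_of_le_of_ne (not_lt.1 c1) (Ne.symm c2))⟩

/-- Every function of the node is an input or a quotient of registers. -/
def Inv (inp : α → ι → ℝ) (S : Set (α → ℝ)) (R : List (α → ℝ)) (Y : Set α) : Prop :=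
  ∀ u ∈ S, (∃ j, u = fun x => inp x j) ∨ Rep R Y u

lemma Inv.mono {S : Set (α → ℝ)} {R' : List (α → ℝ)} {Y' : Set α} (h : Inv inp S R Y)
    (a : R ⊆ R') (b : Y' ⊆ Y) : Inv inp S R' Y' :=
  fun u hu => (h u hu).imp_right fun e => e.mono a b

lemma fetch {Γ : Ctx α} (hY : Y ⊆ Γ.Y) (hI : Inv inp Γ.S R Y) (hu : Γ.Has u)
    (h : ∀ R', R ⊆ R' → Rep R' Y u → Tr inp f R' Y k) : Tr inp f R Y (k + 2) := by
  obtain ⟨u', h1, h2⟩ := hu
  rcases hI u' h1 with ⟨j, rfl⟩ | ⟨p, hp, q, hq, e⟩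
  · refine .input j (.one (h _ (fun _ a => by simp [a]) ⟨fun x => inp x j, by simp, 1, by simp,
      fun x hx => ⟨one_ne_zero, ?_⟩⟩))
    rw [h2 (hY hx), Pi.one_apply, div_one]
  · exact (h R (fun _ a => a) ⟨p, hp, q, hq, fun x hx =>
      ⟨(e x hx).1, (h2 (hY hx)).trans (e x hx).2⟩⟩).mono (by omega)

lemma step (hu : Rep R Y u) (hv : Rep R Y v)
    (hw : w = u + v ∨ w = u - v ∨ w = u * v ∨ ((∀ x ∈ Y, u x ≠ 0) ∧ w = u⁻¹))
    (h : ∀ R', R ⊆ R' → Rep R' Y w → Tr inp f R' Y k) : Tr inp f R Y (k + 4) := by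
  obtain ⟨a, ha, b, hb, e1⟩ := hu
  obtain ⟨c, hc, d, hd, e2⟩ := hv
  rcases hw with rfl | rfl | rfl | ⟨h0, rfl⟩
  · refine .mul ha hd (.mul (p := b) (q := c) (by simp [hb]) (by simp [hc])
      (.add (p := a * d) (q := b * c) (by simp) (by simp)
      (.mul (p := b) (q := d) (by simp [hb]) (by simp [hd]) (h _ (fun _ a => by simp [a])
        ⟨a * d + b * c, by simp, b * d, by simp, fun x hx =>
          ⟨mul_ne_zero (e1 x hx).1 (e2 x hx).1, ?_⟩⟩))))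
    rw [Pi.add_apply, (e1 x hx).2, (e2 x hx).2, div_add_div _ _ (e1 x hx).1 (e2 x hx).1]
    rfl
  · refine .mul ha hd (.mul (p := b) (q := c) (by simp [hb]) (by simp [hc])
      (.sub (p := a * d) (q := b * c) (by simp) (by simp)
      (.mul (p := b) (q := d) (by simp [hb]) (by simp [hd]) (h _ (fun _ a => by simp [a])
        ⟨a * d - b * c, by simp, b * d, by simp, fun x hx =>
          ⟨mul_ne_zero (e1 x hx).1 (e2 x hx).1, ?_⟩⟩))))
    rw [Pi.sub_apply, (e1 x hx).2, (e2 x hx).2, div_sub_div _ _ (e1 x hx).1 (e2 x hx).1]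
    rfl
  · refine Tr.mono (k := k + 2) (.mul ha hc (.mul (p := b) (q := d) (by simp [hb]) (by simp [hd])
      (h _ (fun _ a => by simp [a]) ⟨a * c, by simp, b * d, by simp, fun x hx =>
        ⟨mul_ne_zero (e1 x hx).1 (e2 x hx).1, ?_⟩⟩))) (by omega)
    rw [Pi.mul_apply, (e1 x hx).2, (e2 x hx).2, div_mul_div_comm]
    rfl
  · refine (h R (fun _ a => a) ⟨b, hb, a, ha, fun x hx => ⟨fun e => h0 x hx ?_, ?_⟩⟩).mono
      (by omega)
    · rw [(e1 x hx).2, e, zero_div]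
    · rw [Pi.inv_apply, (e1 x hx).2, inv_div]

lemma sign_quot {a b : ℝ} (hb : b ≠ 0) : SignType.sign (a / b) = SignType.sign (a * b) := by
  have e : a * b = a / b * b ^ 2 := by field_simp
  rw [e, sign_mul, sign_pos (by positivity : 0 < b ^ 2), mul_one]

lemma main {Γ : Ctx α} {L : ℕ} (h : Cp true (fun Δ => ∀ x ∈ Δ.Y, ∀ y ∈ Δ.Y, f x = f y) Γ L) :
    ∀ (R : List (α → ℝ)) (Y : Set α), Y ⊆ Γ.Y → Inv inp Γ.S R Y → Tr inp f R Y (10 * L) := by
  induction h with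
  | done h =>
    intro R Y hY _
    rcases Y.eq_empty_or_nonempty with rfl | ⟨y, hy⟩
    · exact ⟨.leaf [], Nat.zero_le _, fun _ hx => hx.elim⟩
    · exact ⟨.leaf (f y), Nat.zero_le _, fun x hx => h _ le_rfl y (hY hy) x (hY hx)⟩
  | @op Γ L w hw _ ih =>
    intro R Y hY hI
    have key : ∀ R', R ⊆ R' → Rep R' Y w → Tr inp f R' Y (10 * L) := fun R' a b =>
      ih R' Y hY fun u hu => by
        rcases hu with rfl | hu
        · exact Or.inr b
        · exact hI.mono a Subset.rfl u hu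
    rcases hw with rfl | ⟨u, v, hu, hv, hw⟩
    · exact (Tr.one (key _ (fun _ a => by simp [a]) ⟨1, by simp, 1, by simp, fun x _ =>
        ⟨one_ne_zero, (div_one _).symm⟩⟩)).mono (by omega)
    · refine (fetch hY hI hu fun R1 a1 b1 => fetch hY (hI.mono a1 Subset.rfl) hv fun R2 a2 b2 =>
        step (b1.mono a2 Subset.rfl) b2 (hw.imp_right (Or.imp_right (Or.imp_right
          fun e => ⟨fun x hx => e.2.1 x (hY hx), e.2.2⟩)))
        fun R3 a3 b3 => key R3 (fun _ a => a3 (a2 (a1 a))) b3).mono (by omega)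
  | @test Γ L u hu _ ih =>
    intro R Y hY hI
    refine (fetch (k := 10 * L + 2) hY hI hu fun R1 a1 ⟨p, hp, q, hq, e⟩ =>
      .mul hp hq (.test (p := p * q) (by simp) fun s => ih s _ _ ?_ ?_)).mono (by omega)
    · rintro x ⟨hx, hs⟩
      refine ⟨hY hx, Eq.trans ?_ hs⟩
      show SignType.sign (u x) = SignType.sign (p x * q x)
      rw [(e x hx).2, sign_quot (e x hx).1]
    · exact hI.mono (fun _ a => by simp [a1 a]) inter_subset_left

end JTree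

theorem treeS : TreeS := fun _ _ _ Y _ _ h =>
  JTree.main h [] Y Subset.rfl fun _ ⟨j, hj⟩ => Or.inl ⟨j, hj.symm⟩

end Pool.Agent.Lib.MP_837412_lc
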