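import Pool.Agent.Lib.MP_837412_lc.StC

/-!
The order type of a family of complex numbers is determined from its power sums.
-/

namespace Pool.Agent.Lib.MP_837412_lc

open Set Polynomial Function

namespace JTyp

variable {α ι β : Type} [Fintype ι]

/-- A real polynomial that vanishes at the real numbers among `a * c i + b * conj (c j)`. -/
noncomputable def R (a b : ℂ) (c : ι → ℂ) : ℝ[X] :=
  rp (chi (padd (fun i => a * c i) fun i => b * (starRingEnd ℂ) (c i)))

lemma R_ne (a b : ℂ) (c : ι → ℂ) : R a b c ≠ 0 := rp_ne_zero (chi_monic _)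

lemma R_deg (a b : ℂ) (c : ι → ℂ) : (R a b c).natDegree ≤ Fintype.card ι ^ 2 :=
  (natDegree_rp _).trans (by rw [natDegree_chi, Fintype.card_prod, sq])

lemma R_root {a b : ℂ} {c : ι → ℂ} {t : ℝ} (i : ι)
    (h : a * c i + b * (starRingEnd ℂ) (c i) = t) : (R a b c).eval t = 0 := by
  rw [R, eval_rp, eval_chi_eq_zero.2 ⟨(i, i), h⟩, Complex.zero_re]

lemma R_re (c : ι → ℂ) (i : ι) : (R (1 / 2) (1 / 2) c).eval (c i).re = 0 :=
  R_root i (by rw [← mul_add, Complex.add_conj]; push_cast; ring)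

lemma R_im (c : ι → ℂ) (i : ι) : (R (-Complex.I / 2) (Complex.I / 2) c).eval (c i).im = 0 :=
  R_root i (by
    have h : -Complex.I / 2 * c i + Complex.I / 2 * (starRingEnd ℂ) (c i) =
        -Complex.I / 2 * (c i - (starRingEnd ℂ) (c i)) := by ring
    rw [h, Complex.sub_conj]
    push_cast
    linear_combination (-((c i).im : ℂ)) * Complex.I_mul_I)

lemma R_AP {B : ℕ} [Fact (2 ≤ B)] {Γ : Ctx α} {e : ℕ} {c : α → ι → ℂ} {a b : ℂ}
    (hn : Fintype.card ι ^ 2 < B) (h : PA B Γ e (Fintype.card ι ^ 2) c)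
    (ha : A B Γ 20 fun _ => a) (hb : A B Γ 20 fun _ => b) :
    AP B Γ (e + 110) fun x => R a b (c x) :=
  ((((PA.smul ha h hn).mono (e' := e + 34) (by omega)).padd
    ((PA.smul hb h.conj hn).mono (by omega)) hn).chi hn
      (by rw [Fintype.card_prod, sq])).rp.mono (by omega)

/-- A point of the grid. -/
noncomputable def zz (U V : ℝ[X]) (j l : ℕ) : ℂ := (rt U j : ℂ) + (rt V l : ℂ) * Complex.I

lemma zz_re (U V : ℝ[X]) (j l : ℕ) : (zz U V j l).re = rt U j := by simp [zz]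

lemma zz_im (U V : ℝ[X]) (j l : ℕ) : (zz U V j l).im = rt V l := by simp [zz]

lemma pure {c c' : ι → ℂ} {lab lab' : ℂ → β} {U V U' V' : ℝ[X]} (hU : U ≠ 0) (hV : V ≠ 0)
    (hre : ∀ i, U.eval (c i).re = 0) (him : ∀ i, V.eval (c i).im = 0) (h1 : nr U = nr U')
    (h2 : nr V = nr V') (h : ∀ j < nr U, ∀ l < nr V, zz U V j l ∈ range c →
      zz U' V' j l ∈ range c' ∧ lab (zz U V j l) = lab' (zz U' V' j l)) (hc : Injective c) :
    ∃ π : Equiv.Perm ι, Iso c (c' ∘ π) ∧ ∀ i, lab (c i) = lab' (c' (π i)) := by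
  choose j hj ej using fun i => exists_rt hU (hre i)
  choose l hl el using fun i => exists_rt hV (him i)
  have ez : ∀ i, zz U V (j i) (l i) = c i := fun i =>
    Complex.ext (by rw [zz_re, ej]) (by rw [zz_im, el])
  have key := fun i => h _ (hj i) _ (hl i) ⟨i, (ez i).symm⟩
  choose π hπ using fun i => (key i).1
  have iso : Iso c (c' ∘ π) := fun i i' => by
    simp only [comp_apply, hπ, zz_re, zz_im]
    rw [← ej i, ← ej i', ← el i, ← el i', rt_le_iff (hj i) (hj i'), rt_le_iff (hl i) (hl i'),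
      rt_le_iff (h1 ▸ hj i) (h1 ▸ hj i'), rt_le_iff (h2 ▸ hl i) (h2 ▸ hl i')]
    exact ⟨Iff.rfl, Iff.rfl⟩
  have inj : Injective π := fun i i' e => hc (Complex.ext
    ((iso.re_eq i i').2 (by simp only [comp_apply, e]))
    ((iso.im_eq i i').2 (by simp only [comp_apply, e])))
  refine ⟨Equiv.ofBijective π (Finite.injective_iff_bijective.1 inj), iso, fun i => ?_⟩
  rw [Equiv.ofBijective_apply, hπ, ← (key i).2, ez]

/-- One point of the grid. -/
lemma point {B : ℕ} [Fact (2 ≤ B)] {Γ : Ctx α} {e e' : ℕ} {c : α → ι → ℂ} {lab : α → ℂ → β}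
    (hn : Fintype.card ι ^ 2 < B) (h : PA B Γ e (Fintype.card ι ^ 2) c)
    (hl : ∀ Δ, Γ ≤ Δ → ∀ z : α → ℂ, A B Δ 0 z → (∀ x ∈ Δ.Y, z x ∈ range (c x)) →
      D B Δ e' fun x y => lab x (z x) = lab y (z y)) {z : α → ℂ} (hz : A B Γ 10 z) :
    D B Γ (e + e' + 70) fun x y => z x ∈ range (c x) →
      z y ∈ range (c y) ∧ lab x (z x) = lab y (z y) := by
  have hμ : Fintype.card ι ≤ Fintype.card ι ^ 2 := Nat.le_self_pow two_ne_zero _
  have h0 : D B Γ (e + 55) fun x y => (z x ∈ range (c x)) = (z y ∈ range (c y)) :=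
    ((D.zero ((h.chi hn hμ).eval hz (fun x _ => (natDegree_chi _).le.trans hμ) hn)).imp
      fun x _ y _ a => propext (by
        rw [eval_chi_eq_zero, eval_chi_eq_zero] at a
        exact a)).mono (by omega)
  refine (P.cases h0 (e' := e' + 11) fun p Δ a b => ?_).mono (by omega)
  by_cases hp : p
  · have hr : ∀ x ∈ Δ.Y, z x ∈ range (c x) := fun x hx => (b x hx).symm ▸ hp
    refine (P.share1 (hz.ext a) (e' := e') fun Θ a' b' => ?_).mono (by omega)
    exact (hl Θ (a.trans a') z b' fun x hx => hr x (a'.1 hx)).imp fun x _ y hy q _ =>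
      ⟨hr y (a'.1 hy), q⟩
  · exact D.of_forall fun x hx y _ q => absurd ((b x hx) ▸ q) hp

end JTyp

open JTyp in
theorem typeS (h1 : SignAtS) (h2 : AdjS) : TypeS := by
  intro α ι β _ B _ Γ e e' c lab hB hc hl
  set n := Fintype.card ι ^ 2 with hn
  have b1 : (n + 4) ^ 6 ≤ B := (Nat.pow_le_pow_left (by omega) 6).trans hB
  have b2 : (n + 4) ^ 2 ≤ B := (Nat.pow_le_pow_right (by omega) (by omega)).trans b1
  have b3 : n < B := by nlinarith
  have b4 : n * n ≤ B := by nlinarith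
  have two : A B Γ 8 fun _ => (2 : ℂ) := (A.nat (n := 2) (Fact.out : 2 ≤ B)).congr (by simp)
  have hU := R_AP b3 hc ((A.one.div two (by simp)).mono (by omega))
    ((A.one.div two (by simp)).mono (by omega))
  have hV := R_AP b3 hc ((A.I.neg.div two (by simp)).mono (by omega))
    ((A.I.div two (by simp)).mono (by omega))
  set U : α → ℝ[X] := fun x => R (1 / 2) (1 / 2) (c x) with eU
  set V : α → ℝ[X] := fun x => R (-Complex.I / 2) (Complex.I / 2) (c x) with eV
  have dU : ∀ Δ : Ctx α, Dg Δ n U := fun _ x _ => R_deg _ _ _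
  have dV : ∀ Δ : Ctx α, Dg Δ n V := fun _ x _ => R_deg _ _ _
  have nU : ∀ x, U x ≠ 0 := fun x => R_ne _ _ _
  have nV : ∀ x, V x ≠ 0 := fun x => R_ne _ _ _
  refine (hU.share (dU Γ) b3 (e' := e + e' + 900) fun Γ1 a1 hU1 => ?_).mono (by omega)
  refine ((hV.ext a1).share (dV Γ1) b3 (e' := e + e' + 890) fun Γ2 a2 hV2 => ?_).mono (by omega)
  have hU2 := hU1.ext a2
  have hnr : D B Γ2 252 fun x y => (nr (U x), nr (V x)) = (nr (U y), nr (V y)) :=
    (((h1 α B Γ2 1 n U U b1 hU2 hU2 (dU _) (dU _) fun x _ => nU x).and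
      (h1 α B Γ2 1 n V V b1 hV2 hV2 (dV _) (dV _) fun x _ => nV x)).imp
        fun x _ y _ a => Prod.ext a.1.1 a.2.1).mono (by omega)
  refine (P.cases hnr (e' := e + e' + 880) fun ab Γ3 a3 b => ?_).mono (by omega)
  have bU : ∀ x ∈ Γ3.Y, nr (U x) = ab.1 := fun x hx => congrArg Prod.fst (b x hx)
  have bV : ∀ x ∈ Γ3.Y, nr (V x) = ab.2 := fun x hx => congrArg Prod.snd (b x hx)
  have all := D.all (B := B) (Γ := Γ3) (e := e + e' + 872) (Finset.range n ×ˢ Finset.range n)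
    (by simpa using b4) (r := fun q x y => q.1 < ab.1 → q.2 < ab.2 →
      zz (U x) (V x) q.1 q.2 ∈ range (c x) → zz (U y) (V y) q.1 q.2 ∈ range (c y) ∧
        lab x (zz (U x) (V x) q.1 q.2) = lab y (zz (U y) (V y) q.1 q.2)) fun q _ => by
    by_cases hq : q.1 < ab.1 ∧ q.2 < ab.2
    · refine (h2 α B Γ3 1 (e + e' + 471) n q.1 U _ hB (hU2.ext a3) (dU _)
        (fun x hx => ⟨nU x, (bU x hx).symm ▸ hq.1⟩) fun Γ4 a4 hu => ?_).mono (by omega)
      refine (h2 α B Γ4 1 (e + e' + 70) n q.2 V _ hB (hV2.ext (a3.trans a4)) (dV _)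
        (fun x hx => ⟨nV x, (bV x (a4.1 hx)).symm ▸ hq.2⟩) fun Γ5 a5 hv => ?_).mono (by omega)
      have a0 : Γ ≤ Γ5 := a1.trans (a2.trans (a3.trans (a4.trans a5)))
      exact (point b3 (hc.ext a0) (fun Δ a => hl Δ (a0.trans a))
        (z := fun x => zz (U x) (V x) q.1 q.2)
        (((hu.ext a5).ofReal.add (hv.ofReal.mul A.I)).mono (by omega))).imp
          fun x _ y _ a _ _ => a
    · exact D.of_forall fun x _ y _ p1 p2 => absurd ⟨p1, p2⟩ hq
  refine (D.imp all fun x hx y hy a ix _ => ?_).mono (by omega)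
  refine pure (nU x) (nV x) (R_re (c x)) (R_im (c x)) ((bU x hx).trans (bU y hy).symm)
    ((bV x hx).trans (bV y hy).symm) (fun j hj l hl' => ?_) ix
  exact a (j, l) (Finset.mem_product.2 ⟨Finset.mem_range.2 (hj.trans_le ((nr_le _).trans
    (R_deg _ _ _))), Finset.mem_range.2 (hl'.trans_le ((nr_le _).trans (R_deg _ _ _)))⟩)
      (bU x hx ▸ hj) (bV x hx ▸ hl')

end Pool.Agent.Lib.MP_837412_lc
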