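import Pool.Agent.Lib.MP_837412_lc.StT

/-!
Vanishing in high degrees of the homology of the image of the identity plus an involution.
-/

namespace Pool.Agent.Lib.MP_837412_lc

open Pool.Agent.Shared.Mod2 Set Function Filter Topology

namespace JVan

section General

variable {E : Type} [TopologicalSpace E] {κ : C(E, E)} {U W : Set E} {k : ℕ}

lemma rho_apply (x : Ch (Sx E)) : rho κ x = x + cm κ x := rfl

lemma comm_rho {T : Ch (Sx E) →ₗ[F] Ch (Sx E)} (h : ∀ x, cm κ (T x) = T (cm κ x))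
    (x : Ch (Sx E)) : rho κ (T x) = T (rho κ x) := by
  rw [rho_apply, rho_apply, map_add, h]

lemma rho_sd (x : Ch (Sx E)) : rho κ (sd x) = sd (rho κ x) := comm_rho (cm_sd κ) x

lemma rho_mem (h : MapsTo κ U U) {x : Ch (Sx E)} (hx : x ∈ Cs U k) : rho κ x ∈ Cs U k :=
  add_mem hx (cm_mem h hx)

lemma cm_cm_self (hκ : ∀ y, κ (κ y) = y) (x : Ch (Sx E)) : cm κ (cm κ x) = x := by
  rw [cm_cm, show κ.comp κ = ContinuousMap.id E from ContinuousMap.ext hκ, cm_id]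

lemma rho_cm (hκ : ∀ y, κ (κ y) = y) (x : Ch (Sx E)) : rho κ (cm κ x) = rho κ x := by
  rw [rho_apply, rho_apply, cm_cm_self hκ, add_comm]

/-- The vanishing of homology in terms of chains. -/
lemma van_iff : hh sd (rhoC κ U) ⊥ k = 0 ↔
    ∀ x ∈ Cs U k, sd (rho κ x) = 0 → ∃ b ∈ Cs U (k + 1), sd (rho κ b) = rho κ x := by
  rw [hh_eq_zero]
  constructor
  · intro h x hx e
    obtain ⟨_, ⟨b, hb, rfl⟩, b2⟩ := mem_Br.1 (h (mem_Zr.2 ⟨⟨x, hx, rfl⟩, e⟩))
    exact ⟨b, hb, (eq_of_add_eq_zero b2).symm⟩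
  · rintro h _ ⟨⟨x, hx, rfl⟩, e⟩
    obtain ⟨b, hb, b2⟩ := h x hx e
    exact mem_Br.2 ⟨_, ⟨b, hb, rfl⟩, by rw [b2, aa]; exact zero_mem _⟩

lemma exists_iter' (κ : C(E, E)) (n : ℕ) : ∃ T : Ch (Sx E) →ₗ[F] Ch (Sx E),
    (∀ x, sd (T x) = T (sd x) + (x + (sS ^ n) x)) ∧ (∀ x, cm κ (T x) = T (cm κ x)) ∧
    ∀ s k, ∀ x ∈ Cs s k, T x ∈ Cs s (k + 1) := by
  induction n with
  | zero => exact ⟨0, fun x => by simp [aa], fun x => by simp, fun s k x hx => zero_mem _⟩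
  | succ n ih =>
    obtain ⟨T, h1, h2, h3⟩ := ih
    refine ⟨sT + T ∘ₗ sS, fun x => ?_, fun x => ?_, fun s k x hx =>
      add_mem (sT_mem hx) (h3 s k _ (sS_mem hx))⟩
    · simp only [LinearMap.add_apply, LinearMap.comp_apply, map_add, h1, sT_eq, sd_sS, pow_succ,
        Module.End.mul_apply]
      linear_combination (norm := abel1) aa (sS x)
    · have a : cm κ (sT x) = sT (cm κ x) := cm_op _ κ x
      have b : cm κ (sS x) = sS (cm κ x) := cm_op _ κ x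
      simp only [LinearMap.add_apply, LinearMap.comp_apply, map_add, h2, a, b]

lemma exists_small (hU : IsOpen U) (hW : IsOpen W) {x : Ch (Sx E)} (hx : x ∈ Cs (U ∪ W) k) :
    ∃ n, (sS ^ n) x ∈ Cs U k ⊔ Cs W k := by
  have st : ∀ n, ∀ y ∈ Cs U k ⊔ Cs W k, (sS ^ n) y ∈ Cs U k ⊔ Cs W k := by
    intro n y hy
    obtain ⟨T, -, h2⟩ := exists_iter (Y := E) n
    obtain ⟨u, hu, w, hw, rfl⟩ := Submodule.mem_sup.1 hy
    rw [map_add]
    exact Submodule.add_mem_sup (h2 _ _ _ hu).2 (h2 _ _ _ hw).2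
  refine sup_ind (P := fun x => ∃ n, (sS ^ n) x ∈ Cs U k ⊔ Cs W k) ⟨0, zero_mem _⟩ ?_ ?_ hx
  · rintro x y ⟨n, hn⟩ ⟨m, hm⟩
    refine ⟨m + n, ?_⟩
    rw [map_add]
    refine add_mem (by rw [pow_add]; exact st m _ hn) (by rw [add_comm, pow_add]; exact st n _ hm)
  · rintro ⟨_ | k, σ⟩ ⟨rfl, h⟩
    · exact ⟨0, Submodule.mem_sup_left (sg_mem ⟨rfl, fun t => isEmptyElim t⟩)⟩
    · obtain ⟨n, hn⟩ := small_sg (U := fun b : Bool => cond b U W)
        (by rintro (_ | _) <;> assumption) σ (by rwa [← union_eq_iUnion])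
      obtain ⟨u, hu, w, hw, e⟩ := sup_split
        (s := {τ : Sx E | τ.1 = k + 1 ∧ ∀ t, τ.2 t ∈ U})
        (t := {τ : Sx E | τ.1 = k + 1 ∧ ∀ t, τ.2 t ∈ W}) (sup_mono (by
          rintro τ ⟨h, _ | _, h'⟩
          · exact Or.inr ⟨h, h'⟩
          · exact Or.inl ⟨h, h'⟩) hn)
      exact ⟨n, e ▸ Submodule.add_mem_sup hu hw⟩

/-- A chain whose image lies in an invariant set may be chosen in this set. -/
lemma rho_inter (hκ : ∀ y, κ (κ y) = y) (hW : MapsTo κ W W) {y : Ch (Sx E)} (hy : y ∈ Cs U k)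
    (h : rho κ y ∈ Cs W k) : ∃ y' ∈ Cs (U ∩ W) k, rho κ y' = rho κ y := by
  obtain ⟨a, ha, b, hb, rfl⟩ := sup_split
    (s := {τ : Sx E | τ.1 = k ∧ ∀ t, τ.2 t ∈ U ∩ W})
    (t := {τ : Sx E | ¬ ∀ t, τ.2 t ∈ W}) (sup_mono (fun τ hτ => by
      by_cases e : ∀ t, τ.2 t ∈ W
      · exact Or.inl ⟨hτ.1, fun t => ⟨hτ.2 t, e t⟩⟩
      · exact Or.inr e) hy)
  refine ⟨a, ha, ?_⟩
  have h1 : rho κ b ∈ Cs W k := by
    rw [map_add, add_comm] at h
    exact mem_of_add h (rho_mem hW (Cs_mono inter_subset_right k ha))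
  have h2 : rho κ b ∈ sup {τ : Sx E | ¬ ∀ t, τ.2 t ∈ W} := by
    refine add_mem hb (Pool.Agent.Shared.Mod2.mp_mem ?_ hb)
    exact fun τ hτ e => hτ fun t => hκ (τ.2 t) ▸ hW (e t)
  rw [map_add, eq_zero_of_mem (sup_inter h1 h2) fun τ hτ => hτ.2 hτ.1.2, add_zero]

lemma cm_prism {H : C(I × E, E)} (h : ∀ t y, H (t, κ y) = κ (H (t, y))) (x : Ch (Sx E)) :
    cm κ (prism H x) = prism H (cm κ x) := by
  refine map_eq' (L := cm κ ∘ₗ prism H) (L' := prism H ∘ₗ cm κ) (fun σ => ?_) x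
  have e : κ.comp (cylH H σ.2) = cylH H (κ.comp σ.2) :=
    ContinuousMap.ext fun t => (h _ _).symm
  simp only [LinearMap.comp_apply, cm_sg, prism, lin_sg, cm_cm, e]
  rfl

end General

section Conj

variable {σ : Type}

lemma kap_kap (y : σ → ℂ) : kap σ (kap σ y) = y := funext fun i => Complex.conj_conj (y i)

lemma kap_im (y : σ → ℂ) (j : σ) : (kap σ y j).im = -(y j).im := Complex.conj_im (y j)

/-- Scaling of the imaginary parts. -/
noncomputable def sc (r : ℝ) (y : σ → ℂ) : σ → ℂ := fun i => (y i).re + r * (y i).im * Complex.I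

lemma continuous_sc : Continuous fun p : ℝ × (σ → ℂ) => sc p.1 p.2 := by
  unfold sc
  fun_prop

lemma sc_one (y : σ → ℂ) : sc 1 y = y := funext fun i => by simp [sc]

lemma sc_sc (r s : ℝ) (y : σ → ℂ) : sc r (sc s y) = sc (r * s) y :=
  funext fun i => by simp [sc, mul_assoc]

lemma sc_kap (r : ℝ) (y : σ → ℂ) : sc r (kap σ y) = kap σ (sc r y) :=
  funext fun i => by simp [sc, kap]

lemma sc_zero_kap (y : σ → ℂ) : sc 0 (kap σ y) = sc 0 y := funext fun i => by simp [sc, kap]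

lemma sc_real (r : ℝ) {y : σ → ℂ} (h : ∀ i, (y i).im = 0) : sc r y = y :=
  funext fun i => Complex.ext (by simp [sc]) (by simp [sc, h])

/-- The points that can be moved to the real locus inside `U`. -/
def Nb (U : Set (σ → ℂ)) : Set (σ → ℂ) := {y | ∀ r ∈ Icc (0 : ℝ) 1, sc r y ∈ U}

lemma isOpen_Nb {U : Set (σ → ℂ)} (hU : IsOpen U) : IsOpen (Nb U) := by
  refine isOpen_iff_mem_nhds.2 fun y hy => ?_
  refine isCompact_Icc.eventually_forall_of_forall_eventually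
    (P := fun (y : σ → ℂ) (r : ℝ) => sc r y ∈ U) fun r hr => ?_
  exact (hU.preimage (continuous_sc.comp continuous_swap)).mem_nhds (hy r hr)

lemma van_Nb (h3 : VnbS) (U : Set (σ → ℂ)) : Van (kap σ) (Nb U) := by
  refine h3 _ _ _ ⟨fun p => sc (1 - (p.1 : ℝ)) p.2, continuous_sc.comp
    (f := fun p : I × (σ → ℂ) => (1 - (p.1 : ℝ), p.2)) (by fun_prop)⟩ (fun y => ?_)
    (fun t y => sc_kap _ y) (fun y => ?_) fun t y hy r hr => ?_
  · simp [sc_one]
  · simp [sc_zero_kap]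
  · change sc r (sc (1 - (t : ℝ)) y) ∈ U
    rw [sc_sc]
    exact hy _ ⟨mul_nonneg hr.1 (sub_nonneg.2 t.2.2),
      mul_le_one₀ hr.2 (sub_nonneg.2 t.2.2) (sub_le_self _ t.2.1)⟩

lemma van_off [Fintype σ] (h2 : VfreeS) {V : Set (σ → ℂ)} (hV : IsOpen V)
    (hκ : MapsTo (kap σ) V V) {j : σ} (h : ∀ y ∈ V, (y j).im ≠ 0) : Van (kap σ) V := by
  have o : IsOpen (V ∩ {y | 0 < (y j).im}) :=
    hV.inter (isOpen_lt continuous_const (by fun_prop))
  have e : V = V ∩ {y | 0 < (y j).im} ∪ kap σ ⁻¹' (V ∩ {y | 0 < (y j).im}) := by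
    ext y
    constructor
    · intro hy
      rcases (h y hy).lt_or_gt with a | a
      · exact Or.inr ⟨hκ hy, by rw [mem_ofPred_eq, kap_im]; exact neg_pos.2 a⟩
      · exact Or.inl ⟨hy, a⟩
    · rintro (hy | hy)
      · exact hy.1
      · exact kap_kap y ▸ hκ hy.1
  rw [e]
  refine h2 _ _ _ kap_kap o (disjoint_left.2 fun y a b => ?_)
    ⟨Module.finrank ℝ (σ → ℂ) + 2, fun k hk => ?_⟩
  · have b2 : 0 < (kap σ y j).im := b.2
    rw [kap_im] at b2
    exact lt_asymm a.2 (neg_pos.1 b2)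
  · obtain ⟨k, rfl⟩ : ∃ k', k = k' + 1 := ⟨k - 1, by omega⟩
    exact hr_open o (by omega)

end Conj

end JVan

open JVan

theorem vmvS : VmvS := by
  rintro E _ κ U W hκ hU hW mU mW ⟨J₁, h₁⟩ ⟨J₂, h₂⟩ ⟨J₃, h₃⟩
  refine ⟨J₁ + J₂ + J₃ + 1, fun k hk => van_iff.2 fun x hx e => ?_⟩
  obtain ⟨k, rfl⟩ : ∃ k', k = k' + 1 := ⟨k - 1, by omega⟩
  obtain ⟨n, hn⟩ := exists_small hU hW hx
  obtain ⟨T, t1, t2, t3⟩ := exists_iter' κ n
  obtain ⟨u, hu, w, hw, e1⟩ := Submodule.mem_sup.1 hn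
  have e2 : sd (rho κ (T x)) = rho κ x + (rho κ u + rho κ w) := by
    rw [← rho_sd, t1, ← e1, map_add, comm_rho t2, rho_sd, e, map_zero, zero_add, map_add, map_add]
  have e3 : sd (rho κ u) = sd (rho κ w) := by
    have := congrArg sd e2
    rw [sd_sd, map_add, e, zero_add, map_add] at this
    exact eq_of_add_eq_zero this.symm
  obtain ⟨y, hy, e4⟩ := rho_inter hκ mW (sd_mem hu)
    (by rw [rho_sd, e3]; exact sd_mem (rho_mem mW hw))
  rw [rho_sd] at e4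
  obtain ⟨b, hb, e5⟩ := van_iff.1 (h₃ k (by omega)) y hy (by rw [e4, sd_sd])
  obtain ⟨a, ha, e6⟩ := van_iff.1 (h₁ (k + 1) (by omega)) (u + b)
    (add_mem hu (Cs_mono inter_subset_left _ hb)) (by rw [map_add, map_add, e5, e4, aa])
  obtain ⟨c, hc, e7⟩ := van_iff.1 (h₂ (k + 1) (by omega)) (w + b)
    (add_mem hw (Cs_mono inter_subset_right _ hb)) (by rw [map_add, map_add, e5, e4, e3, aa])
  refine ⟨T x + (a + c), add_mem (t3 _ _ _ hx)
    (add_mem (Cs_mono subset_union_left _ ha) (Cs_mono subset_union_right _ hc)), ?_⟩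
  simp only [map_add, e2, e6, e7]
  linear_combination (norm := abel1) aa (rho κ u) + aa (rho κ w) + aa (rho κ b)

theorem vfreeS : VfreeS := by
  rintro E _ κ U hκ hU hd ⟨J, h⟩
  have m1 : MapsTo κ U (κ ⁻¹' U) := fun y hy => by rwa [mem_preimage, hκ]
  refine ⟨J + 2, fun k hk => van_iff.2 fun x hx e => ?_⟩
  obtain ⟨k, rfl⟩ : ∃ k', k = k' + 2 := ⟨k - 2, by omega⟩
  obtain ⟨u, hu, w, hw, rfl⟩ := Submodule.mem_sup.1
    (cs_split hU (hU.preimage κ.continuous) hd Subset.rfl _ hx)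
  have hv : u + cm κ w ∈ Cs U (k + 2) := add_mem (Cs_mono inter_subset_right _ hu)
    (cm_mem (fun y hy => hy.2) hw)
  have e1 : rho κ (u + cm κ w) = rho κ (u + w) := by rw [map_add, map_add, rho_cm hκ]
  generalize u + cm κ w = v at hv e1
  rw [← e1] at e ⊢
  have e2 : sd v = 0 := by
    rw [← rho_sd, rho_apply] at e
    have a : sd v ∈ Cs U (k + 1) := sd_mem hv
    have b : sd v ∈ Cs (κ ⁻¹' U) (k + 1) := by
      rw [eq_of_add_eq_zero e]; exact cm_mem m1 a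
    exact Cs_empty (hd.inter_eq ▸ Cs_inter a b)
  obtain ⟨b, hb, e3⟩ := hr_eq_zero.1 (h (k + 2) (by omega)) v hv e2
  exact ⟨b, Cs_mono subset_union_left _ hb, by rw [← rho_sd, e3]⟩

theorem vnbS : VnbS := by
  intro E _ κ U H h0 h1 h2 h3
  refine ⟨0, fun k _ => van_iff.2 fun x hx e => ⟨prism H x, prism_mem h3 hx, ?_⟩⟩
  let g : C(E, E) := H.comp ⟨fun y => (1, y), by fun_prop⟩
  have e1 : cm g (rho κ x) = 0 := by
    rw [rho_apply, map_add, cm_cm, show g.comp κ = g from ContinuousMap.ext h2, aa]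
  rw [comm_rho (cm_prism h1), prism_eq (f := ContinuousMap.id E) (g := g) h0 (fun _ => rfl), e,
    map_zero, zero_add, cm_id, e1, add_zero]

theorem vhS (h1 : VmvS) (h2 : VfreeS) (h3 : VnbS) : VHS := by
  classical
  intro σ _ U hU hκ
  have o : ∀ j : σ, IsOpen {y : σ → ℂ | (y j).im ≠ 0} := fun j =>
    isOpen_ne_fun (by fun_prop) continuous_const
  have m : ∀ j : σ, MapsTo (kap σ) (U ∩ {y | (y j).im ≠ 0}) (U ∩ {y | (y j).im ≠ 0}) :=
    fun j y hy => ⟨hκ hy.1, by rw [mem_ofPred_eq, kap_im]; exact neg_ne_zero.2 hy.2⟩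
  have key : ∀ s : Finset σ, ∃ X, IsOpen X ∧ MapsTo (kap σ) X X ∧ Van (kap σ) X ∧ X ⊆ U ∧
      Nb U ⊆ X ∧ ∀ j ∈ s, U ∩ {y | (y j).im ≠ 0} ⊆ X := by
    intro s
    induction s using Finset.induction_on with
    | empty =>
      refine ⟨Nb U, isOpen_Nb hU, fun y hy r hr => ?_, van_Nb h3 U, fun y hy => ?_, Subset.rfl,
        fun j hj => absurd hj (Finset.notMem_empty j)⟩
      · rw [sc_kap]; exact hκ (hy r hr)
      · exact sc_one y ▸ hy 1 ⟨zero_le_one, le_rfl⟩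
    | insert j s _ ih =>
      obtain ⟨X, x1, x2, x3, x4, x5, x6⟩ := ih
      have oj := hU.inter (o j)
      refine ⟨X ∪ U ∩ {y | (y j).im ≠ 0}, x1.union oj, x2.union_union (m j),
        h1 _ _ _ _ kap_kap x1 oj x2 (m j) x3 (van_off h2 oj (m j) fun y hy => hy.2)
          (van_off h2 (x1.inter oj) (x2.inter_inter (m j)) fun y hy => hy.2.2),
        union_subset x4 inter_subset_left, x5.trans subset_union_left, fun i hi => ?_⟩
      rcases Finset.mem_insert.1 hi with rfl | hi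
      · exact subset_union_right
      · exact (x6 i hi).trans subset_union_left
  obtain ⟨X, -, -, x3, x4, x5, x6⟩ := key Finset.univ
  refine Subset.antisymm x4 (fun y hy => ?_) ▸ x3
  by_cases e : ∀ j, (y j).im = 0
  · exact x5 fun r _ => (sc_real r e).symm ▸ hy
  · obtain ⟨j, hj⟩ := not_forall.1 e
    exact x6 j (Finset.mem_univ j) ⟨hy, hj⟩

end Pool.Agent.Lib.MP_837412_lc
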