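import Pool.Agent.Lib.MP_837412_lc.G4
import Pool.Agent.Lib.MP_837412_lc.JAdj
import Pool.Agent.Lib.MP_837412_lc.JAlgA
import Pool.Agent.Lib.MP_837412_lc.JBetti
import Pool.Agent.Lib.MP_837412_lc.JBig
import Pool.Agent.Lib.MP_837412_lc.JBkr
import Pool.Agent.Lib.MP_837412_lc.JCrit
import Pool.Agent.Lib.MP_837412_lc.JEv
import Pool.Agent.Lib.MP_837412_lc.JEx
import Pool.Agent.Lib.MP_837412_lc.JFin
import Pool.Agent.Lib.MP_837412_lc.JFlow
import Pool.Agent.Lib.MP_837412_lc.JGen
import Pool.Agent.Lib.MP_837412_lc.JHL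
import Pool.Agent.Lib.MP_837412_lc.JHalf
import Pool.Agent.Lib.MP_837412_lc.JHerm
import Pool.Agent.Lib.MP_837412_lc.JJoin
import Pool.Agent.Lib.MP_837412_lc.JLamP
import Pool.Agent.Lib.MP_837412_lc.JMBox
import Pool.Agent.Lib.MP_837412_lc.JMLoc
import Pool.Agent.Lib.MP_837412_lc.JMat
import Pool.Agent.Lib.MP_837412_lc.JMisc
import Pool.Agent.Lib.MP_837412_lc.JOpen
import Pool.Agent.Lib.MP_837412_lc.JOrd
import Pool.Agent.Lib.MP_837412_lc.JPG
import Pool.Agent.Lib.MP_837412_lc.JRM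
import Pool.Agent.Lib.MP_837412_lc.JReal
import Pool.Agent.Lib.MP_837412_lc.JST
import Pool.Agent.Lib.MP_837412_lc.JSig
import Pool.Agent.Lib.MP_837412_lc.JSmith
import Pool.Agent.Lib.MP_837412_lc.JStab
import Pool.Agent.Lib.MP_837412_lc.JTame
import Pool.Agent.Lib.MP_837412_lc.JThom
import Pool.Agent.Lib.MP_837412_lc.JTrace
import Pool.Agent.Lib.MP_837412_lc.JTree
import Pool.Agent.Lib.MP_837412_lc.JTyp
import Pool.Agent.Lib.MP_837412_lc.JVan
import Pool.Agent.Lib.MP_837412_lc.JZero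

/-!
All statements hold.
-/

namespace Pool.Agent.Lib.MP_837412_lc

theorem all : All :=
  have sa := signAtS (bkrS (taqS sigS (hermS sigRepS))) thomS
  have ad := adjS sa modS
  have ty := typeS sa ad
  have rg := rigS qvS dnS nearS
  have cr := critS eigS nfS
  have ze := zeroS qvS cr
  have lp := lamP trS
  have la := lamA trS flA mmA matA
  have hl := hlS flowS
  have k1 := k1S hl
  have ac := acS k1 pgS
  have mc := mcS mlocS (mc0 hl pgS ac mboxS)
  have ex := exS genS
  ⟨treeS, sigS, ty, qvS, autS, nearS, bndS, evS rg qvS, traceS sa ad ty rg evA, cbS, cbA, arcS, cr,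
    ze, tameS, growS, lp, openS cr, closedS tameS lp, flA, la, rurA (rurS nfS) flA mmA matA la,
    countS qvS cr ze growS lp, sysS k1 pgC k2S (halfS mc), stS flowS tameS, ex,
    propS autS degS dnS relT uniqS ex relS stabS, finS, smithS, vhS vmvS vfreeS vnbS, rmS mc ac,
    realS, limS ac growS, bettiS, bigS joinS scaleS psiS, bigA⟩

end Pool.Agent.Lib.MP_837412_lc
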