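import Pool.Agent.Shared.Mod2Manifold

/-!
Dimensions of subquotients and homology of pairs of subcomplexes over the field with two elements.
-/

namespace Pool.Agent.Lib.MP_837412_lc

open Pool.Agent.Shared.Mod2 Set

variable {M M' : Type} [AddCommGroup M] [Module F M] [AddCommGroup M'] [Module F M']

/-- The dimension of `S` modulo `T`. -/
noncomputable def rk (S T : Submodule F M) : ℕ∞ := (Module.rank F (S.map T.mkQ)).toENat

/-- Independence modulo `T`. -/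
def Ind {ι : Type} [Fintype ι] (T : Submodule F M) (e : ι → M) : Prop :=
  ∀ c : ι → F, ∑ i, c i • e i ∈ T → c = 0

section Rk

variable {S S' T T' : Submodule F M}

lemma rk_congr (h : S ⊔ T = S' ⊔ T) : rk S T = rk S' T := by
  have e : ∀ S : Submodule F M, S.map T.mkQ = (S ⊔ T).map T.mkQ := fun S => by
    rw [Submodule.map_sup, Submodule.mkQ_map_self, sup_bot_eq]
  rw [rk, rk, e S, e S', h]

lemma rk_congr_le (h : S ≤ S' ⊔ T) (h' : S' ≤ S ⊔ T) : rk S T = rk S' T :=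
  rk_congr (le_antisymm (sup_le h le_sup_right) (sup_le h' le_sup_right))

lemma rank_map_eq {N N' : Type} [AddCommGroup N] [Module F N] [AddCommGroup N'] [Module F N']
    (f : M →ₗ[F] N) (g : M →ₗ[F] N') (h : S ⊓ LinearMap.ker f = S ⊓ LinearMap.ker g) :
    Module.rank F (S.map f) = Module.rank F (S.map g) := by
  have e : LinearMap.ker (f.domRestrict S) = LinearMap.ker (g.domRestrict S) := by
    ext x
    have := SetLike.ext_iff.1 h (x : M)
    simpa using this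
  rw [← LinearMap.range_domRestrict, ← LinearMap.range_domRestrict,
    ← (f.domRestrict S).quotKerEquivRange.rank_eq, ← (g.domRestrict S).quotKerEquivRange.rank_eq, e]

lemma rk_congr' (h : S ⊓ T = S ⊓ T') : rk S T = rk S T' := by
  rw [rk, rk, rank_map_eq T.mkQ T'.mkQ (by simpa using h)]

lemma rk_map (φ : M →ₗ[F] M') (S : Submodule F M) (T : Submodule F M') :
    rk (S.map φ) T = rk S (T.comap φ) := by
  rw [rk, rk, ← Submodule.map_comp,
    rank_map_eq (T.mkQ ∘ₗ φ) (T.comap φ).mkQ (by simp [LinearMap.ker_comp])]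

lemma rk_add (S : Submodule F M) (h : T ≤ T') : rk S T = rk (S ⊓ T') T + rk S T' := by
  let f : S.map T.mkQ →ₗ[F] M ⧸ T' := (T.mapQ T' LinearMap.id h).domRestrict _
  have e1 : LinearMap.range f = S.map T'.mkQ := by
    rw [LinearMap.range_domRestrict, ← Submodule.map_comp, Submodule.mapQ_mkQ, LinearMap.comp_id]
  have e2 : (LinearMap.ker f).map (S.map T.mkQ).subtype = (S ⊓ T').map T.mkQ := by
    ext y
    constructor
    · rintro ⟨⟨_, x, hx, rfl⟩, h1, rfl⟩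
      exact ⟨x, ⟨hx, by simpa [f] using h1⟩, rfl⟩
    · rintro ⟨x, hx, rfl⟩
      exact ⟨⟨_, x, hx.1, rfl⟩, by simpa [f] using hx.2, rfl⟩
  rw [rk, rk, rk, ← map_add, ← f.rank_range_add_rank_ker, e1, ← e2, add_comm,
    (Submodule.equivMapOfInjective _ (S.map T.mkQ).subtype_injective _).rank_eq]

lemma rk_eq_zero : rk S T = 0 ↔ S ≤ T := by
  rw [rk, Cardinal.toENat_eq_zero, Submodule.rank_eq_zero, ← LinearMap.le_ker_iff_map,
    Submodule.ker_mkQ]

lemma rk_mono (h : S ≤ S') (h' : T' ≤ T) : rk S T ≤ rk S' T' := by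
  refine le_trans ?_ (le_add_self.trans_eq (rk_add S' h').symm)
  exact Cardinal.toENat.monotone' (Submodule.rank_mono (Submodule.map_mono h))

lemma rk_sup (S S' T : Submodule F M) : rk (S ⊔ S') T = rk S T + rk S' (S ⊔ T) := by
  rw [rk_add (S ⊔ S') (le_sup_right : T ≤ S ⊔ T)]
  congr 1
  · exact rk_congr_le inf_le_right (le_sup_of_le_left (le_inf le_sup_left le_sup_left))
  · exact rk_congr_le (sup_le (le_sup_of_le_right le_sup_left) le_sup_left)
      (le_sup_of_le_left le_sup_right)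

/-- A subspace of full finite dimension is everything. -/
lemma le_of_rk_le (h : S ≤ S' ⊔ T) (h1 : rk S' T ≤ rk S T) (h2 : rk S T ≠ ⊤) : S' ≤ S ⊔ T := by
  have e := rk_sup S S' T
  rw [rk_congr_le (S' := S') (sup_le h le_sup_left) (le_sup_of_le_left le_sup_right)] at e
  rw [e] at h1
  exact rk_eq_zero.1 (le_zero_iff.1 ((ENat.add_le_add_iff_left h2).1 (by simpa using h1)))

lemma ind_iff {ι : Type} [Fintype ι] {e : ι → M} :
    Ind T e ↔ LinearIndependent F fun i => T.mkQ (e i) := by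
  rw [Fintype.linearIndependent_iff, Ind]
  refine forall_congr' fun c => ?_
  rw [funext_iff, ← Submodule.Quotient.mk_eq_zero, ← Submodule.mkQ_apply, map_sum]
  simp only [map_smul, Pi.zero_apply]

lemma rk_span {ι : Type} (e : ι → M) (s : Set ι) (T : Submodule F M) :
    rk (Submodule.span F (e '' s)) T =
      (Module.rank F (Submodule.span F (range fun i : s => T.mkQ (e i)))).toENat := by
  rw [rk, Submodule.map_span, image_image, image_eq_range]

lemma Ind.rk_span {ι : Type} [Fintype ι] {e : ι → M} (h : Ind T e) (s : Set ι) :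
    rk (Submodule.span F (e '' s)) T = s.encard := by
  have h1 : LinearIndependent F fun i : s => T.mkQ (e i) :=
    (ind_iff.1 h).comp _ Subtype.val_injective
  rw [MP_837412_lc.rk_span, rank_span h1, Cardinal.mk_range_eq _ h1.injective]
  rfl

lemma rk_span_le {ι : Type} (e : ι → M) (s : Set ι) (T : Submodule F M) :
    rk (Submodule.span F (e '' s)) T ≤ s.encard := by
  rw [rk_span]
  exact Cardinal.toENat.monotone' ((rank_span_le _).trans Cardinal.mk_range_le)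

lemma ind_of_rk {ι : Type} [Fintype ι] {e : ι → M}
    (h : (Fintype.card ι : ℕ∞) ≤ rk (Submodule.span F (range e)) T) : Ind T e := by
  rw [ind_iff, linearIndependent_iff_card_le_finrank_span]
  rw [rk, Submodule.map_span, ← range_comp] at h
  have : Module.Finite F (Submodule.span F (range (T.mkQ ∘ e))) :=
    Module.Finite.span_of_finite _ (finite_range _)
  rw [← Module.finrank_eq_rank, Cardinal.toENat_nat] at h
  exact_mod_cast h

lemma rk_eq_one : rk S T = 1 ↔ ∃ e ∈ S, e ∉ T ∧ S ≤ Submodule.span F {e} ⊔ T := by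
  have key : ∀ e, e ∉ T → rk (Submodule.span F {e}) T = 1 := fun e he => by
    have h : Ind T fun _ : Unit => e := fun c hc => by
      funext u
      have h2 : c u = 0 ∨ c u = 1 := by generalize c u = x; revert x; decide
      refine h2.resolve_right fun h3 => he ?_
      simpa [show c () = 1 from h3] using hc
    simpa using h.rk_span univ
  constructor
  · intro h
    obtain ⟨e, h1, h2⟩ := SetLike.not_le_iff_exists.1 (mt rk_eq_zero.2 (h ▸ one_ne_zero))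
    refine ⟨e, h1, h2, le_of_rk_le (le_sup_of_le_left (by simpa using h1)) ?_ ?_⟩
    · rw [h, key e h2]
    · rw [key e h2]; exact ENat.one_ne_top
  · rintro ⟨e, h1, h2, h3⟩
    rw [← key e h2]
    exact rk_congr_le h3 (le_sup_of_le_left (by simpa using h1))

end Rk

/-- Relative cycles. -/
def Zr (d : M →ₗ[F] M) (K L : ℕ → Submodule F M) (k : ℕ) : Submodule F M :=
  K k ⊓ (L (k - 1)).comap d

/-- Relative boundaries. -/
def Br (d : M →ₗ[F] M) (K L : ℕ → Submodule F M) (k : ℕ) : Submodule F M :=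
  (K (k + 1)).map d ⊔ L k

/-- The dimension of relative homology. -/
noncomputable def hh (d : M →ₗ[F] M) (K L : ℕ → Submodule F M) (k : ℕ) : ℕ∞ :=
  rk (Zr d K L k) (Br d K L k)

/-- A subcomplex. -/
structure IsCx (d : M →ₗ[F] M) (K : ℕ → Submodule F M) : Prop where
  dd : ∀ x, d (d x) = 0
  mem : ∀ k, ∀ x ∈ K (k + 1), d x ∈ K k
  zero : ∀ x ∈ K 0, d x = 0

section Cx

variable {d : M →ₗ[F] M} {d' : M' →ₗ[F] M'} {K L N K₁ L₁ : ℕ → Submodule F M}
  {K' L' : ℕ → Submodule F M'} {k : ℕ} {x : M}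

lemma mem_Zr : x ∈ Zr d K L k ↔ x ∈ K k ∧ d x ∈ L (k - 1) := Iff.rfl

lemma mem_Zr' : x ∈ Zr d K L (k + 1) ↔ x ∈ K (k + 1) ∧ d x ∈ L k := Iff.rfl

lemma mem_Br : x ∈ Br d K L k ↔ ∃ b ∈ K (k + 1), x + d b ∈ L k := by
  rw [Br, Submodule.mem_sup]
  constructor
  · rintro ⟨_, ⟨b, hb, rfl⟩, l, hl, rfl⟩
    exact ⟨b, hb, by rwa [add_right_comm, aa, zero_add]⟩
  · rintro ⟨b, hb, h⟩
    exact ⟨_, ⟨b, hb, rfl⟩, _, h, by rw [add_comm x, ← add_assoc, aa, zero_add]⟩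

lemma mem_sup2 {S T : Submodule F M} : x ∈ S ⊔ T ↔ ∃ y ∈ S, x + y ∈ T := by
  rw [Submodule.mem_sup]
  constructor
  · rintro ⟨y, hy, l, hl, rfl⟩
    exact ⟨y, hy, by rwa [add_right_comm, aa, zero_add]⟩
  · rintro ⟨y, hy, h⟩
    exact ⟨y, hy, _, h, by rw [add_comm x, ← add_assoc, aa, zero_add]⟩

lemma mem_of_add {S : Submodule F M} {y : M} (h : x + y ∈ S) (hy : y ∈ S) : x ∈ S := by
  simpa only [add_assoc, aa, add_zero] using S.add_mem h hy

lemma Zr_mono (h : K ≤ K₁) (h' : L ≤ L₁) (k : ℕ) : Zr d K L k ≤ Zr d K₁ L₁ k :=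
  fun _ hx => ⟨h k hx.1, h' _ hx.2⟩

lemma Br_mono (h : K ≤ K₁) (h' : L ≤ L₁) (k : ℕ) : Br d K L k ≤ Br d K₁ L₁ k :=
  sup_le_sup (Submodule.map_mono (h _)) (h' k)

lemma IsCx.mem' (h : IsCx d K) (hx : x ∈ K k) : d x ∈ K (k - 1) := by
  cases k with
  | zero => rw [h.zero x hx]; exact zero_mem _
  | succ k => exact h.mem k x hx

lemma IsCx.sup (h : IsCx d K) (h' : IsCx d L) : IsCx d (K ⊔ L) := by
  refine ⟨h.dd, fun k x hx => ?_, fun x hx => ?_⟩ <;>
    obtain ⟨a, ha, b, hb, rfl⟩ := Submodule.mem_sup.1 hx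
  · rw [map_add]; exact Submodule.add_mem_sup (h.mem k a ha) (h'.mem k b hb)
  · rw [map_add, h.zero a ha, h'.zero b hb, add_zero]

lemma IsCx.inf (h : IsCx d K) (h' : IsCx d L) : IsCx d (K ⊓ L) :=
  ⟨h.dd, fun k x hx => ⟨h.mem k x hx.1, h'.mem k x hx.2⟩, fun x hx => h.zero x hx.1⟩

lemma IsCx.bot (h : IsCx d K) : IsCx d ⊥ :=
  ⟨h.dd, fun _ x hx => by simp_all, fun x hx => by simp_all⟩

lemma IsCx.map (h : IsCx d K) {φ : M →ₗ[F] M'} (hφ : ∀ x, d' (φ x) = φ (d x))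
    (dd : ∀ x, d' (d' x) = 0) : IsCx d' fun k => (K k).map φ := by
  refine ⟨dd, ?_, ?_⟩
  · rintro k _ ⟨x, hx, rfl⟩
    exact ⟨_, h.mem k x hx, (hφ x).symm⟩
  · rintro _ ⟨x, hx, rfl⟩
    rw [hφ, h.zero x hx, map_zero]

lemma Br_le_Zr (hK : IsCx d K) (hL : IsCx d L) (h : L ≤ K) (k : ℕ) : Br d K L k ≤ Zr d K L k := by
  intro x hx
  obtain ⟨b, b1, b2⟩ := mem_Br.1 hx
  exact ⟨mem_of_add (h k b2) (hK.mem k b b1), by simpa [hK.dd] using hL.mem' b2⟩

lemma hh_eq_zero : hh d K L k = 0 ↔ Zr d K L k ≤ Br d K L k := rk_eq_zero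

section Triple

variable (hK : IsCx d K) (hL : IsCx d L) (hN : IsCx d N) (h1 : N ≤ L) (h2 : L ≤ K)
include hK hL hN h1 h2

lemma tri_mid (k : ℕ) : hh d K N k = rk (Zr d L N k) (Br d K N k) + rk (Zr d K N k) (Br d K L k) := by
  rw [hh, rk_add _ (Br_mono le_rfl h1 k)]
  congr 1
  refine rk_congr_le ?_ (le_sup_of_le_left fun x hx => ⟨⟨h2 k hx.1, hx.2⟩, le_sup_right (α := Submodule F M) hx.1⟩)
  rintro x ⟨hx, hx'⟩
  obtain ⟨b, b1, b2⟩ := mem_Br.1 hx'
  exact mem_sup2.2 ⟨_, ⟨b2, by simpa [hK.dd] using hx.2⟩,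
    mem_Br.2 ⟨b, b1, by rw [← add_assoc x, aa, zero_add, aa]; exact zero_mem _⟩⟩

lemma tri_left (k : ℕ) : hh d L N k =
    rk ((Zr d K L (k + 1)).map d) (Br d L N k) + rk (Zr d L N k) (Br d K N k) := by
  rw [hh, rk_add _ (Br_mono h2 le_rfl k)]
  congr 1
  refine rk_congr_le ?_ (le_sup_of_le_left ?_)
  · rintro x ⟨hx, hx'⟩
    obtain ⟨b, b1, b2⟩ := mem_Br.1 hx'
    exact mem_sup2.2 ⟨_, ⟨b, mem_Zr'.2 ⟨b1, mem_of_add (add_comm x _ ▸ h1 k b2) hx.1⟩, rfl⟩,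
      le_sup_right (α := Submodule F M) b2⟩
  · rintro _ ⟨x, hx, rfl⟩
    exact ⟨⟨hx.2, by simp [hK.dd]⟩, mem_Br.2 ⟨x, hx.1, by simp [aa]⟩⟩

lemma tri_right (k : ℕ) : hh d K L (k + 1) =
    rk (Zr d K N (k + 1)) (Br d K L (k + 1)) + rk ((Zr d K L (k + 1)).map d) (Br d L N k) := by
  have e : Br d K L (k + 1) ≤ (Br d L N k).comap d := fun x hx => by
    obtain ⟨b, b1, b2⟩ := mem_Br.1 hx
    exact mem_Br.2 ⟨_, b2, by simp [hK.dd, aa]⟩
  rw [hh, rk_add _ e, rk_map]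
  congr 1
  refine rk_congr_le ?_ (le_sup_of_le_left fun x hx => ⟨⟨hx.1, h1 _ hx.2⟩,
    le_sup_right (α := Submodule F M) hx.2⟩)
  rintro x ⟨hx, hx'⟩
  obtain ⟨b, b1, b2⟩ := mem_Br.1 hx'
  refine mem_sup2.2 ⟨x + b, ⟨add_mem hx.1 (h2 _ b1), by simpa using b2⟩, ?_⟩
  rw [← add_assoc, aa, zero_add]
  exact le_sup_right (α := Submodule F M) b1

omit hL hN h1 h2 in
lemma tri_zero : hh d K L 0 = rk (Zr d K N 0) (Br d K L 0) := by
  have e : ∀ L, Zr d K L 0 = K 0 := fun L =>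
    inf_eq_left.2 fun x hx => by simp [hK.zero x hx]
  rw [hh, e, e]

/-- The long exact sequence of a triple, in dimensions. -/
theorem triple : ∃ i p δ : ℕ → ℕ∞, (∀ k, hh d L N k = δ k + i k) ∧ (∀ k, hh d K N k = i k + p k) ∧
    (∀ k, hh d K L (k + 1) = p (k + 1) + δ k) ∧ hh d K L 0 = p 0 :=
  ⟨_, _, _, tri_left hK hL hN h1 h2, tri_mid hK hL hN h1 h2, tri_right hK hL hN h1 h2, tri_zero hK⟩

lemma tri_onto (h : hh d K L k = 0) : Zr d K N k ≤ Zr d L N k ⊔ Br d K N k := fun x hx => by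
  obtain ⟨b, b1, b2⟩ := mem_Br.1 (hh_eq_zero.1 h ⟨hx.1, h1 _ hx.2⟩)
  exact mem_sup2.2 ⟨_, ⟨b2, by simpa [hK.dd] using hx.2⟩,
    mem_Br.2 ⟨b, b1, by rw [← add_assoc x, aa, zero_add, aa]; exact zero_mem _⟩⟩

lemma tri_into (h : hh d K L (k + 1) = 0) : Zr d L N k ⊓ Br d K N k ≤ Br d L N k := by
  rintro x ⟨hx, hx'⟩
  obtain ⟨b, b1, b2⟩ := mem_Br.1 hx'
  obtain ⟨a, -, a2⟩ := mem_Br.1
    (hh_eq_zero.1 h (mem_Zr'.2 ⟨b1, mem_of_add (add_comm x _ ▸ h1 k b2) hx.1⟩))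
  exact mem_Br.2 ⟨_, a2, by simpa [hK.dd] using b2⟩

lemma tri_onto' (h : hh d L N (k - 1) = 0) : Zr d K L k ≤ Zr d K N k ⊔ Br d K L k := fun x hx => by
  cases k with
  | zero => exact le_sup_left (α := Submodule F M) ⟨hx.1, by simp [hK.zero x hx.1]⟩
  | succ k =>
    obtain ⟨b, b1, b2⟩ := mem_Br.1
      (hh_eq_zero.1 h ⟨hx.2, by simp [hK.dd]⟩ : d x ∈ Br d L N k)
    refine mem_sup2.2 ⟨x + b, ⟨add_mem hx.1 (h2 _ b1), by simpa using b2⟩, ?_⟩
    rw [← add_assoc, aa, zero_add]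
    exact le_sup_right (α := Submodule F M) b1

lemma tri_into' (h : hh d L N k = 0) : Zr d K N k ⊓ Br d K L k ≤ Br d K N k := by
  rintro x ⟨hx, hx'⟩
  obtain ⟨b, b1, b2⟩ := mem_Br.1 hx'
  have := Br_mono h2 le_rfl k (hh_eq_zero.1 h ⟨b2, by simpa [hK.dd] using hx.2⟩)
  exact mem_of_add this (mem_Br.2 ⟨b, b1, by simp [aa]⟩)

end Triple

/-- A chain map that is onto and one to one on homology in degree `k`. -/
lemma hh_of_bij {φ : M →ₗ[F] M'} (z : (Zr d K L k).map φ ≤ Zr d' K' L' k)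
    (b : Br d K L k ≤ (Br d' K' L' k).comap φ)
    (onto : Zr d' K' L' k ≤ (Zr d K L k).map φ ⊔ Br d' K' L' k)
    (into : Zr d K L k ⊓ (Br d' K' L' k).comap φ ≤ Br d K L k) : hh d K L k = hh d' K' L' k := by
  rw [hh, hh, rk_congr_le onto (le_sup_of_le_left z), rk_map]
  exact rk_congr' (le_antisymm (inf_le_inf_left _ b) (le_inf inf_le_left into))

/-- A chain map that induces an isomorphism of quotient complexes. -/
theorem hh_map {φ : M →ₗ[F] M'} (hφ : ∀ x, d' (φ x) = φ (d x)) (hK : IsCx d K) (hL' : IsCx d' L')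
    (h1 : ∀ k, (K k).map φ ≤ K' k) (h2 : ∀ k, (L k).map φ ≤ L' k)
    (onto : ∀ k, K' k ≤ (K k).map φ ⊔ L' k) (into : ∀ k, K k ⊓ (L' k).comap φ ≤ L k) (k : ℕ) :
    hh d K L k = hh d' K' L' k := by
  refine hh_of_bij (φ := φ) ?_ ?_ ?_ ?_
  · rintro _ ⟨x, hx, rfl⟩
    exact mem_Zr.2 ⟨h1 k ⟨x, hx.1, rfl⟩, by rw [hφ]; exact h2 _ ⟨_, hx.2, rfl⟩⟩
  · intro x hx
    obtain ⟨b, b1, b2⟩ := mem_Br.1 hx
    exact mem_Br.2 ⟨_, h1 _ ⟨b, b1, rfl⟩, by rw [hφ, ← map_add]; exact h2 _ ⟨_, b2, rfl⟩⟩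
  · intro y hy
    obtain ⟨_, ⟨x, hx, rfl⟩, e⟩ := mem_sup2.1 (onto k hy.1)
    refine mem_sup2.2 ⟨_, ⟨x, ⟨hx, into _ ⟨hK.mem' hx, ?_⟩⟩, rfl⟩,
      le_sup_right (α := Submodule F M') e⟩
    have := hL'.mem' e
    rw [map_add, hφ, add_comm] at this
    exact mem_of_add (S := L' (k - 1)) this hy.2
  · rintro x ⟨hx, hx'⟩
    obtain ⟨b, b1, b2⟩ := mem_Br.1 hx'
    obtain ⟨_, ⟨a, ha, rfl⟩, e⟩ := mem_sup2.1 (onto _ b1)
    refine mem_Br.2 ⟨a, ha, into k ⟨add_mem hx.1 (hK.mem k a ha), ?_⟩⟩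
    have := add_mem b2 (hL'.mem k _ e)
    rw [map_add, hφ, add_assoc, ← add_assoc (d' b), aa, zero_add] at this
    rwa [← map_add] at this

/-- Algebraic excision. -/
lemma hh_sup (hK : IsCx d K) (hL : IsCx d L) (k : ℕ) : hh d K (K ⊓ L) k = hh d (K ⊔ L) L k :=
  hh_map (d := d) (d' := d) (φ := LinearMap.id) (fun _ => rfl) hK hL
    (fun j => (Submodule.map_id _).trans_le (le_sup_left : K j ≤ K j ⊔ L j))
    (fun j => (Submodule.map_id _).trans_le (inf_le_right : K j ⊓ L j ≤ L j))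
    (fun j => by rw [Submodule.map_id])
    (fun j => by rw [Submodule.comap_id]) k

end Cx

end Pool.Agent.Lib.MP_837412_lc
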