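import Pool.Agent.Lib.MP_837412_lc.HA

/-!
Relative singular homology of pairs of subsets. The degree is the number of vertices.
-/

namespace Pool.Agent.Lib.MP_837412_lc

open Pool.Agent.Shared.Mod2 Set Topology

variable {Y Y' : Type} [TopologicalSpace Y] [TopologicalSpace Y']

/-- Relative cycles of a pair of subsets. -/
noncomputable abbrev Zs (A B : Set Y) (k : ℕ) : Submodule F (Ch (Sx Y)) := Zr sd (Cs A) (Cs B) k

/-- Relative boundaries of a pair of subsets. -/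
noncomputable abbrev Bs (A B : Set Y) (k : ℕ) : Submodule F (Ch (Sx Y)) := Br sd (Cs A) (Cs B) k

/-- The dimension of the homology of the pair in dimension `k - 1`. -/
noncomputable abbrev hs (A B : Set Y) (k : ℕ) : ℕ∞ := hh sd (Cs A) (Cs B) k

/-- The dimension of the reduced homology in dimension `k - 1`. -/
noncomputable abbrev hr (A : Set Y) (k : ℕ) : ℕ∞ := hh sd (Cs A) ⊥ k

/-- Acyclic pairs. -/
def Ac (A B : Set Y) : Prop := ∀ k, hs A B k = 0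

/-- Pairs with the homology of one cell. -/
def Cell (A B : Set Y) (m : ℕ) : Prop := ∀ k, hs A B k = if k = m then 1 else 0

variable {A B C A' B' U W S S' : Set Y} {k : ℕ}

lemma cx (A : Set Y) : IsCx sd (Cs A) := ⟨sd_sd, fun _ _ h => sd_mem h, fun _ h => sd_zero h⟩

lemma Cs_le (h : A ⊆ B) : Cs A ≤ Cs B := Cs_mono h

lemma Cs_inf (A B : Set Y) : Cs (A ∩ B) = Cs A ⊓ Cs B :=
  le_antisymm (le_inf (Cs_le inter_subset_left) (Cs_le inter_subset_right))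
    fun _ _ h => Cs_inter h.1 h.2

lemma Zs_mono (h : A ⊆ A') (h' : B ⊆ B') (k : ℕ) : Zs A B k ≤ Zs A' B' k :=
  Zr_mono (Cs_le h) (Cs_le h') k

lemma Bs_mono (h : A ⊆ A') (h' : B ⊆ B') (k : ℕ) : Bs A B k ≤ Bs A' B' k :=
  Br_mono (Cs_le h) (Cs_le h') k

lemma Cs_le_Bs (A B : Set Y) (k : ℕ) : Cs B k ≤ Bs A B k := le_sup_right

lemma hs_zero (A B : Set Y) : hs A B 0 = 0 :=
  hh_eq_zero.2 fun _ h => Cs_le_Bs A B 0 (Cs_zero A B ▸ h.1)

lemma Ac.refl (A : Set Y) : Ac A A := fun k => hh_eq_zero.2 fun _ h => Cs_le_Bs A A k h.1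

lemma cm_Zs {g : C(Y, Y')} {A' B' : Set Y'} (h : MapsTo g A A') (h' : MapsTo g B B')
    {x : Ch (Sx Y)} (hx : x ∈ Zs A B k) : cm g x ∈ Zs A' B' k :=
  mem_Zr.2 ⟨cm_mem h hx.1, by rw [← cm_sd]; exact cm_mem h' hx.2⟩

lemma cm_Bs {g : C(Y, Y')} {A' B' : Set Y'} (h : MapsTo g A A') (h' : MapsTo g B B')
    {x : Ch (Sx Y)} (hx : x ∈ Bs A B k) : cm g x ∈ Bs A' B' k := by
  obtain ⟨b, b1, b2⟩ := mem_Br.1 hx
  exact mem_Br.2 ⟨_, cm_mem h b1, by rw [← cm_sd, ← map_add]; exact cm_mem h' b2⟩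

/-- Weak deformations kill relative homology. -/
theorem wd3 (h : ∀ K, IsCompact K → K ⊆ A → ∃ H : C(I × Y, Y), (∀ y, H (0, y) = y) ∧
    (∀ t, ∀ y ∈ K, H (t, y) ∈ A) ∧ (∀ t, ∀ y ∈ K, y ∈ B → H (t, y) ∈ B') ∧
    ∀ y ∈ K, H (1, y) ∈ B') (k : ℕ) : Zs A B k ≤ Bs A B' k := by
  intro z hz
  cases k with
  | zero => exact Cs_le_Bs A B' 0 (Cs_zero A B' ▸ hz.1)
  | succ k =>
    obtain ⟨K, k1, k2, k3⟩ := exists_compact hz.1
    obtain ⟨H, h0, h1, h2, h3⟩ := h K k1 k2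
    let g : C(Y, Y) := H.comp ⟨fun y => (1, y), by fun_prop⟩
    refine mem_Br.2 ⟨prism H z, prism_mem h1 k3, ?_⟩
    rw [prism_eq (f := ContinuousMap.id Y) (g := g) h0 (fun _ => rfl), cm_id, add_left_comm,
      ← add_assoc z, aa, zero_add]
    exact add_mem (prism_mem (s := K ∩ B) (fun t y hy => h2 t y hy.1 hy.2)
      (Cs_inter (sd_mem k3) hz.2)) (cm_mem (g := g) h3 k3)

theorem wd (h : ∀ K, IsCompact K → K ⊆ A → ∃ H : C(I × Y, Y), (∀ y, H (0, y) = y) ∧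
    (∀ t, ∀ y ∈ K, H (t, y) ∈ A) ∧ (∀ t, ∀ y ∈ K, y ∈ B → H (t, y) ∈ B) ∧
    ∀ y ∈ K, H (1, y) ∈ B) : Ac A B := fun k => hh_eq_zero.2 (wd3 h k)

section Triples

variable (h1 : C ⊆ B) (h2 : B ⊆ A)
include h1 h2

theorem triple_s : ∃ i p δ : ℕ → ℕ∞, (∀ k, hs B C k = δ k + i k) ∧ (∀ k, hs A C k = i k + p k) ∧
    (∀ k, hs A B (k + 1) = p (k + 1) + δ k) ∧ p 0 = 0 := by
  obtain ⟨i, p, δ, a, b, c, d⟩ := triple (cx A) (cx B) (cx C) (Cs_le h1) (Cs_le h2)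
  exact ⟨i, p, δ, a, b, c, d.symm.trans (hs_zero A B)⟩

lemma onto_left (h : hs A B k = 0) : Zs A C k ≤ Zs B C k ⊔ Bs A C k :=
  tri_onto (cx A) (cx B) (cx C) (Cs_le h1) (Cs_le h2) h

lemma into_left (h : hs A B (k + 1) = 0) : Zs B C k ⊓ Bs A C k ≤ Bs B C k :=
  tri_into (cx A) (cx B) (cx C) (Cs_le h1) (Cs_le h2) h

lemma onto_right (h : hs B C (k - 1) = 0) : Zs A B k ≤ Zs A C k ⊔ Bs A B k :=
  tri_onto' (cx A) (cx B) (cx C) (Cs_le h1) (Cs_le h2) h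

lemma into_right (h : hs B C k = 0) : Zs A C k ⊓ Bs A B k ≤ Bs A C k :=
  tri_into' (cx A) (cx B) (cx C) (Cs_le h1) (Cs_le h2) h

lemma hs_left (h : hs A B k = 0) (h' : hs A B (k + 1) = 0) : hs A C k = hs B C k := by
  obtain ⟨i, p, δ, a, b, c, d⟩ := triple_s h1 h2
  have e1 : p k = 0 := by
    cases k with
    | zero => exact d
    | succ k => exact (add_eq_zero.1 ((c k).symm.trans h)).1
  rw [a, b, e1, (add_eq_zero.1 ((c k).symm.trans h')).2, zero_add, add_zero]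

lemma Ac.left (h : Ac A B) (k : ℕ) : hs A C k = hs B C k := hs_left h1 h2 (h _) (h _)

lemma Ac.right (h : Ac B C) (k : ℕ) : hs A C k = hs A B k := by
  obtain ⟨i, p, δ, a, b, c, d⟩ := triple_s h1 h2
  have e := fun k => add_eq_zero.1 ((a k).symm.trans (h k))
  cases k with
  | zero => rw [hs_zero, hs_zero]
  | succ k => rw [b, c, (e _).1, (e _).2, zero_add, add_zero]

lemma hs_le : hs A C k ≤ hs B C k + hs A B k := by
  obtain ⟨i, p, δ, a, b, c, d⟩ := triple_s h1 h2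
  cases k with
  | zero => rw [hs_zero]; exact zero_le
  | succ k => rw [a, b, c]; exact add_le_add le_add_self le_self_add

lemma Ac.trans (h : Ac A B) (h' : Ac B C) : Ac A C := fun k => (h.left h1 h2 k).trans (h' k)

end Triples

lemma Ac.onto (h : Ac A A') (h' : Ac B B') (h1 : B' ⊆ B) (h2 : B ⊆ A) (h3 : B' ⊆ A') (h4 : A' ⊆ A)
    (k : ℕ) : Zs A B k ≤ Zs A' B' k ⊔ Bs A B k :=
  (onto_right h1 h2 (h' _)).trans (sup_le ((onto_left h3 h4 (h _)).trans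
    (sup_le_sup_left (Bs_mono Subset.rfl h1 k) _)) le_sup_right)

lemma Ac.into (h : Ac A A') (h' : Ac B B') (h1 : B' ⊆ B) (h2 : B ⊆ A) (h3 : B' ⊆ A') (h4 : A' ⊆ A)
    (k : ℕ) : Zs A' B' k ⊓ Bs A B k ≤ Bs A' B' k := fun _ hx =>
  into_left h3 h4 (h _) ⟨hx.1, into_right h1 h2 (h' _) ⟨Zs_mono h4 Subset.rfl k hx.1, hx.2⟩⟩

section Small

lemma small_ac (hU : IsOpen U) (hW : IsOpen W) (k : ℕ) :
    hh sd (Cs (U ∪ W)) (Cs U ⊔ Cs W) k = 0 := by
  refine hh_eq_zero.2 fun z hz => ?_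
  cases k with
  | zero => exact Submodule.mem_sup_right (Submodule.mem_sup_left
      (Cs_zero (U ∪ W) U ▸ hz.1))
  | succ k =>
    obtain ⟨T, t1, u, hu, w, hw, e⟩ := small2 hU hW hz.1
    obtain ⟨a, ha, b, hb, e'⟩ := Submodule.mem_sup.1 (mem_Zr'.1 hz).2
    refine mem_Br.2 ⟨T z, t1 _ _ _ hz.1, mem_of_add (y := T (sd z)) ?_ ?_⟩
    · rw [e]; exact Submodule.add_mem_sup hu hw
    · rw [← e', map_add]; exact Submodule.add_mem_sup (t1 _ _ _ ha) (t1 _ _ _ hb)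

lemma sup_le_Cs (U W : Set Y) : Cs U ⊔ Cs W ≤ Cs (U ∪ W) :=
  sup_le (Cs_le subset_union_left) (Cs_le subset_union_right)

lemma exc_onto (hU : IsOpen U) (hW : IsOpen W) (k : ℕ) :
    Zs (U ∪ W) W k ≤ Zs U (U ∩ W) k ⊔ Bs (U ∪ W) W k := by
  refine (tri_onto (cx _) ((cx U).sup (cx W)) (cx W) le_sup_right (sup_le_Cs U W)
    (small_ac hU hW k)).trans (sup_le (fun z hz => ?_) le_sup_right)
  obtain ⟨u, hu, e⟩ := mem_sup2.1 hz.1
  refine mem_sup2.2 ⟨u, mem_Zr.2 ⟨hu, Cs_inter ((cx U).mem' hu) ?_⟩, Cs_le_Bs _ _ _ e⟩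
  have := (cx W).mem' e
  rw [map_add, add_comm] at this
  exact mem_of_add this hz.2

lemma exc_into (hU : IsOpen U) (hW : IsOpen W) (k : ℕ) :
    Zs U (U ∩ W) k ⊓ Bs (U ∪ W) W k ≤ Bs U (U ∩ W) k := by
  rintro z ⟨hz, hz'⟩
  obtain ⟨b, b1, b2⟩ := mem_Br.1 (tri_into (cx _) ((cx U).sup (cx W)) (cx W) le_sup_right
    (sup_le_Cs U W) (small_ac hU hW (k + 1))
    ⟨Zr_mono le_sup_left (Cs_le inter_subset_right) k hz, hz'⟩)
  obtain ⟨u, hu, w, hw, rfl⟩ := Submodule.mem_sup.1 b1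
  refine mem_Br.2 ⟨u, hu, Cs_inter (add_mem hz.1 (sd_mem hu)) ?_⟩
  rw [map_add, ← add_assoc] at b2
  exact mem_of_add b2 (sd_mem hw)

/-- Excision. -/
theorem exc (hU : IsOpen U) (hW : IsOpen W) (k : ℕ) : hs (U ∪ W) W k = hs U (U ∩ W) k := by
  refine (hh_of_bij (φ := LinearMap.id) ?_ ?_ ?_ ?_).symm
  · simpa using Zs_mono subset_union_left inter_subset_right k
  · simpa using Bs_mono subset_union_left inter_subset_right k
  · simpa using exc_onto hU hW k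
  · simpa using exc_into hU hW k

lemma mv_sum (hU : IsOpen U) (hW : IsOpen W) (h1 : C ⊆ U) (h2 : C ⊆ W)
    (h : hs (U ∩ W) C (k - 1) = 0) :
    Zs (U ∪ W) C k ≤ (Zs U C k ⊔ Zs W C k) ⊔ Bs (U ∪ W) C k := by
  intro z hz
  obtain ⟨u, hu, e⟩ := mem_sup2.1 (exc_onto hU hW k (Zs_mono Subset.rfl h2 k hz))
  obtain ⟨u', hu', e'⟩ := mem_sup2.1 (onto_right (subset_inter h1 h2) inter_subset_left h hu)
  have e2 : z + u' ∈ Bs (U ∪ W) W k := by
    have := add_mem e (Bs_mono subset_union_left inter_subset_right k e')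
    rwa [add_assoc, ← add_assoc u, aa, zero_add] at this
  obtain ⟨b, b1, b2⟩ := mem_Br.1 e2
  refine mem_sup2.2 ⟨u' + (z + u' + sd b), Submodule.add_mem_sup hu' (mem_Zr.2 ⟨b2, ?_⟩),
    mem_Br.2 ⟨b, b1, ?_⟩⟩
  · rw [map_add, map_add, sd_sd, add_zero]; exact add_mem hz.2 hu'.2
  · have : z + (u' + (z + u' + sd b)) + sd b = 0 := by
      linear_combination (norm := abel1) aa z + aa u' + aa (sd b)
    rw [this]; exact zero_mem _

/-- Relative Mayer-Vietoris, vanishing form. -/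
lemma mv_rel (hU : IsOpen U) (hW : IsOpen W) (hS : IsOpen S) (h1 : hs U (U ∩ S) k = 0)
    (h2 : hs W (W ∩ S) k = 0) (h3 : hs (U ∩ W) (U ∩ W ∩ S) (k - 1) = 0) :
    hs (U ∪ W) ((U ∪ W) ∩ S) k = 0 := by
  have o : IsOpen ((U ∪ W) ∩ S) := (hU.union hW).inter hS
  have a : hs (U ∪ (U ∪ W) ∩ S) ((U ∪ W) ∩ S) k = 0 := by
    rw [exc hU o, ← inter_assoc, inter_eq_left.2 subset_union_left, h1]
  have b : hs (U ∪ W) (U ∪ (U ∪ W) ∩ S) k = 0 := by
    have e : U ∪ W = W ∪ (U ∪ (U ∪ W) ∩ S) := by ext; simp only [mem_union, mem_inter_iff]; tauto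
    have e2 : W ∩ (U ∪ (U ∪ W) ∩ S) = U ∩ W ∪ W ∩ S := by
      ext; simp only [mem_union, mem_inter_iff]; tauto
    have e3 : U ∩ W ∩ (W ∩ S) = U ∩ W ∩ S := by ext; simp only [mem_inter_iff]; tauto
    refine (congrArg (hs · _ k) e).trans ?_
    rw [exc hW (hU.union o), e2]
    refine hh_eq_zero.2 ((onto_right subset_union_right
      (union_subset inter_subset_right inter_subset_left) ?_).trans (sup_le
        ((hh_eq_zero.1 h2).trans (Bs_mono Subset.rfl subset_union_right k)) le_rfl))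
    rw [exc (hU.inter hW) (hW.inter hS), e3, h3]
  refine le_zero_iff.1 ((hs_le subset_union_right
    (union_subset subset_union_left inter_subset_left)).trans_eq ?_)
  rw [a, b, add_zero]

end Small

section Emb

theorem hs_image {φ : C(Y', Y)} (hφ : IsEmbedding φ) (A B : Set Y') (k : ℕ) :
    hs (φ '' A) (φ '' B) k = hs A B k := by
  refine (hh_map (φ := cm φ) (fun x => (cm_sd φ x).symm) (cx A) (cx _) ?_ ?_ ?_ ?_ k).symm
  · rintro k _ ⟨x, hx, rfl⟩; exact cm_mem (mapsTo_image _ _) hx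
  · rintro k _ ⟨x, hx, rfl⟩; exact cm_mem (mapsTo_image _ _) hx
  · intro k x hx
    obtain ⟨u, -, rfl⟩ := exists_cm hφ (Cs_mono (image_subset_range _ _) k hx)
    exact Submodule.mem_sup_left
      ⟨u, preimage_image_eq A hφ.injective ▸ mem_of_cm hφ.injective hx, rfl⟩
  · exact fun k x hx => preimage_image_eq B hφ.injective ▸ mem_of_cm hφ.injective hx.2

theorem hr_image {φ : C(Y', Y)} (hφ : IsEmbedding φ) (A : Set Y') (k : ℕ) :
    hr (φ '' A) k = hr A k := by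
  refine (hh_map (φ := cm φ) (fun x => (cm_sd φ x).symm) (cx A) (cx (φ '' A)).bot
    ?_ ?_ ?_ ?_ k).symm
  · rintro k _ ⟨x, hx, rfl⟩; exact cm_mem (mapsTo_image _ _) hx
  · intro k; simp
  · intro k x hx
    obtain ⟨u, -, rfl⟩ := exists_cm hφ (Cs_mono (image_subset_range _ _) k hx)
    exact Submodule.mem_sup_left
      ⟨u, preimage_image_eq A hφ.injective ▸ mem_of_cm hφ.injective hx, rfl⟩
  · intro k x hx
    have h0 : cm φ x = 0 := hx.2
    cases k with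
    | zero =>
      refine mp_injective (f := smap φ) ?_ (h0.trans (map_zero _).symm)
      rintro ⟨k, σ⟩ ⟨k', σ'⟩ e
      obtain rfl : k = k' := congrArg Sigma.fst e
      exact congrArg _ (ContinuousMap.ext fun t =>
        hφ.injective (ContinuousMap.congr_fun (eq_of_heq (Sigma.mk.inj e).2) t))
    | succ k =>
      exact Cs_empty (preimage_empty (f := φ) ▸ mem_of_cm hφ.injective
        (h0 ▸ zero_mem _ : cm φ x ∈ Cs ∅ (k + 1)))

theorem hs_preimage (f : Y' ≃ₜ Y) (A B : Set Y) (k : ℕ) : hs (f ⁻¹' A) (f ⁻¹' B) k = hs A B k := by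
  have := hs_image (φ := (f : C(Y', Y))) f.isEmbedding (f ⁻¹' A) (f ⁻¹' B) k
  simpa [image_preimage_eq _ f.surjective] using this.symm

end Emb

section Split

variable (hS : IsOpen S) (hS' : IsOpen S') (hd : Disjoint S S')
include hS hS' hd

lemma cs_split (h : A ⊆ S ∪ S') (k : ℕ) : Cs A k ≤ Cs (A ∩ S) k ⊔ Cs (A ∩ S') k := by
  intro x hx
  obtain ⟨u, hu, w, hw, rfl⟩ := sup_split (s := {σ : Sx Y | σ.1 = k ∧ ∀ t, σ.2 t ∈ A ∩ S})
    (t := {σ : Sx Y | σ.1 = k ∧ ∀ t, σ.2 t ∈ A ∩ S'}) (sup_mono (fun σ hσ => by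
      rcases (isPreconnected_range σ.2.continuous).subset_or_subset hS hS' hd
        (range_subset_iff.2 fun t => h (hσ.2 t)) with e | e
      · exact Or.inl ⟨hσ.1, fun t => ⟨hσ.2 t, e ⟨t, rfl⟩⟩⟩
      · exact Or.inr ⟨hσ.1, fun t => ⟨hσ.2 t, e ⟨t, rfl⟩⟩⟩) hx)
  exact Submodule.add_mem_sup hu hw

omit hS hS' in
lemma cs_disj {x : Ch (Sx Y)} (h : x ∈ (Cs (A ∩ S) ⊔ Cs B) k) (h' : x ∈ Cs S' k) :
    x ∈ Cs (B ∩ S') k := by
  cases k with
  | zero => exact Cs_zero S' _ ▸ h'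
  | succ k =>
    obtain ⟨u, hu, w, hw, rfl⟩ := Submodule.mem_sup.1 h
    have : u + w ∈ sup ({σ : Sx Y | σ.1 = k + 1 ∧ ∀ t, σ.2 t ∈ A ∩ S} ∪
        {σ : Sx Y | σ.1 = k + 1 ∧ ∀ t, σ.2 t ∈ B}) :=
      add_mem (sup_mono subset_union_left hu) (sup_mono subset_union_right hw)
    refine sup_mono ?_ (sup_inter this h')
    rintro ⟨j, σ⟩ ⟨e | e, rfl, e'⟩
    · exact (hd.notMem_of_mem_left (e.2 (stdSimplex.vertex 0)).2 (e' _)).elim
    · exact ⟨rfl, fun t => ⟨e.2 t, e' t⟩⟩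

/-- Additivity for two disjoint open sets. -/
theorem hs_split (h : A ⊆ S ∪ S') (hB : B ⊆ A) (k : ℕ) :
    hs A B k = hs (A ∩ S) (B ∩ S) k + hs (A ∩ S') (B ∩ S') k := by
  have l1 : Cs B ≤ Cs (A ∩ S) ⊔ Cs B := le_sup_right
  have l2 : Cs (A ∩ S) ⊔ Cs B ≤ Cs A := sup_le (Cs_le inter_subset_left) (Cs_le hB)
  have cL := (cx (A ∩ S)).sup (cx B)
  have δ : ∀ k, rk ((Zr sd (Cs A) (Cs (A ∩ S) ⊔ Cs B) (k + 1)).map sd)
      (Br sd (Cs (A ∩ S) ⊔ Cs B) (Cs B) k) = 0 := fun k => rk_eq_zero.2 (by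
    rintro _ ⟨z, hz, rfl⟩
    obtain ⟨u, hu, e⟩ := mem_sup2.1 (cs_split hS hS' hd h _ hz.1)
    refine mem_Br.2 ⟨u, Submodule.mem_sup_left hu, Cs_mono inter_subset_left k
      (cs_disj hd (A := A) (add_mem hz.2 (Submodule.mem_sup_left (sd_mem hu))) ?_)⟩
    rw [← map_add]
    exact Cs_mono inter_subset_right k (sd_mem e))
  have e1 : hs (A ∩ S) (B ∩ S) k = hh sd (Cs (A ∩ S) ⊔ Cs B) (Cs B) k := by
    have : A ∩ S ∩ B = B ∩ S :=
      Set.ext fun x => ⟨fun a => ⟨a.2, a.1.2⟩, fun a => ⟨⟨hB a.1, a.2⟩, a.1⟩⟩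
    rw [← hh_sup (cx _) (cx _), ← Cs_inf, this]
  have e2 : hs (A ∩ S') (B ∩ S') k = hh sd (Cs A) (Cs (A ∩ S) ⊔ Cs B) k :=
    hh_map (d := sd) (d' := sd) (φ := LinearMap.id) (fun _ => rfl) (cx _) cL
      (fun j => (Submodule.map_id _).trans_le (Cs_mono inter_subset_left j))
      (fun j => (Submodule.map_id _).trans_le (le_sup_of_le_right (Cs_mono inter_subset_left j)))
      (fun j => by
        rw [Submodule.map_id]
        exact (cs_split hS hS' hd h j).trans (sup_le (le_sup_of_le_right le_sup_left) le_sup_left))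
      (fun j x hx => cs_disj (A := A) (B := B) hd hx.2 (Cs_mono inter_subset_right j hx.1)) k
  cases k with
  | zero => simp only [hs_zero, add_zero]
  | succ k =>
    rw [e1, e2, tri_left (cx A) cL (cx B) l1 l2, tri_right (cx A) cL (cx B) l1 l2, δ, δ, zero_add,
      add_zero]
    exact tri_mid (cx A) cL (cx B) l1 l2 _

end Split

section Reduced

lemma hr_eq_zero : hr A k = 0 ↔ Z0 A k := by
  rw [hh_eq_zero]
  refine ⟨fun h z hz e => ?_, fun h z hz => ?_⟩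
  · obtain ⟨b, b1, b2⟩ := mem_Br.1 (h (mem_Zr.2 ⟨hz, e⟩))
    exact ⟨b, b1, (eq_of_add_eq_zero b2).symm⟩
  · obtain ⟨b, b1, b2⟩ := h z hz.1 hz.2
    exact mem_Br.2 ⟨b, b1, by rw [b2, aa]; exact zero_mem _⟩

lemma hr_eq_one (h : Z1 A k) : hr A k = 1 := by
  have e : ∀ z, z ∈ Br sd (Cs A) ⊥ k ↔ Bd A k z := fun z => mem_Br.trans
    ⟨fun ⟨b, b1, b2⟩ => ⟨b, b1, (eq_of_add_eq_zero b2).symm⟩,
      fun ⟨b, b1, b2⟩ => ⟨b, b1, by rw [b2, aa]; exact zero_mem _⟩⟩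
  obtain ⟨z, z1, z2, z3, z4⟩ := h
  refine rk_eq_one.2 ⟨z, mem_Zr.2 ⟨z1, z2⟩, fun h => z3 ((e _).1 h), fun y hy => ?_⟩
  rcases z4 y hy.1 hy.2 with a | a
  · exact Submodule.mem_sup_right ((e _).2 a)
  · exact mem_sup2.2 ⟨z, Submodule.mem_span_singleton_self z, (e _).2 a⟩

lemma triple_r (h : B ⊆ A) : ∃ i p δ : ℕ → ℕ∞, (∀ k, hr B k = δ k + i k) ∧
    (∀ k, hr A k = i k + p k) ∧ (∀ k, hs A B (k + 1) = p (k + 1) + δ k) := by
  obtain ⟨i, p, δ, a, b, c, -⟩ := triple (cx A) (cx B) (cx B).bot bot_le (Cs_le h)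
  exact ⟨i, p, δ, a, b, c⟩

lemma hs_succ (h : B ⊆ A) (hA : ∀ k, Z0 A k) (k : ℕ) : hs A B (k + 1) = hr B k := by
  obtain ⟨i, p, δ, a, b, c⟩ := triple_r h
  have e := fun k => add_eq_zero.1 ((b k).symm.trans (hr_eq_zero.2 (hA k)))
  rw [a, c, (e _).1, (e _).2, zero_add, add_zero]

lemma hr_empty (k : ℕ) : hr (∅ : Set Y) k = if k = 0 then 1 else 0 := by
  cases k with
  | succ k => exact hh_eq_zero.2 fun z hz => by rw [Cs_empty hz.1]; exact zero_mem _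
  | zero =>
    refine hr_eq_one ⟨sg (SC Y).b0, sg_mem ⟨rfl, fun t : Sp 0 => isEmptyElim t⟩, (SC Y).d_b0, ?_, ?_⟩
    · rintro ⟨b, b1, b2⟩
      rw [Cs_empty b1, map_zero] at b2
      exact Finsupp.single_ne_zero.2 one_ne_zero b2.symm
    · intro z hz _
      have : z = 0 ∨ z + sg (SC Y).b0 = 0 := by
        refine sup_ind (P := fun z => z = 0 ∨ z + sg (SC Y).b0 = 0) (Or.inl rfl) ?_ ?_ hz
        · rintro x y (rfl | a) (rfl | b)
          · simp
          · right; simpa using b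
          · right; simpa using a
          · left; rw [eq_of_add_eq_zero a, eq_of_add_eq_zero b, aa]
        · intro b hb; right; rw [(SC Y).eq_b0 b hb.1, aa]
      exact this.imp (fun e => ⟨0, zero_mem _, by rw [e, map_zero]⟩)
        fun e => ⟨0, zero_mem _, by rw [e, map_zero]⟩

lemma hr_zero (h : A.Nonempty) : hr A 0 = 0 := by
  obtain ⟨a, ha⟩ := h
  refine hr_eq_zero.2 fun z hz e => ?_
  have h := Bd.map (g := ContinuousMap.const (Sp 1) a) (t := A)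
    (z0_point 0 (cm (ContinuousMap.const Y (stdSimplex.vertex 0)) z)
      (cm_mem (mapsTo_univ _ _) hz) (by rw [← cm_sd, e, map_zero])) fun _ _ => ha
  rwa [cm_cm, show cm _ z = z from (map_eq (L' := LinearMap.id) (fun b hb => by
    rw [cm_sg, (SC Y).eq_b0 b hb.1]; exact congrArg sg ((SC Y).eq_b0 _ rfl)) hz)] at h

/-- Unreduced against reduced homology. -/
lemma hs_empty (h : A.Nonempty) (k : ℕ) : hs A ∅ (k + 1) = hr A (k + 1) + if k = 0 then 1 else 0 := by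
  obtain ⟨i, p, δ, a, b, c⟩ := triple_r (empty_subset A)
  have e := add_eq_zero.1 ((a (k + 1)).symm.trans (hr_empty _))
  rw [c, b, e.2, zero_add, ← hr_empty (Y := Y), a]
  cases k with
  | zero => rw [(add_eq_zero.1 ((b 0).symm.trans (hr_zero h))).1, add_zero]
  | succ k => rw [(add_eq_zero.1 ((a (k + 1)).symm.trans (hr_empty _))).2, add_zero]

variable {E : Type} [NormedAddCommGroup E] [NormedSpace ℝ E] [FiniteDimensional ℝ E]

theorem cell_punct : Cell (univ : Set E) {0}ᶜ (Module.finrank ℝ E + 1) := by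
  have h := lh _ E rfl
  rintro (_ | k)
  · simp [hs_zero]
  · rw [hs_succ (subset_univ _) z0_univ]
    by_cases e : k = Module.finrank ℝ E
    · rw [if_pos (by rw [e]), e, hr_eq_one h.2]
    · rw [if_neg (by simpa using e), hr_eq_zero.2 (h.1 k e)]

theorem hr_open {V : Set E} (hV : IsOpen V) (hk : Module.finrank ℝ E < k) : hr V (k + 1) = 0 := by
  classical
  have := FiniteDimensional.proper_real E
  have le : LE E V := fun y => by
    obtain ⟨ψ, h1, h2⟩ := le_shrink (φ := fun x : E => if h : x ∈ V then (⟨x, h⟩ : V) else y)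
      (a := y) (U := V) (hV.mem_nhds y.2) (by
        convert IsOpenEmbedding.id using 1
        exact funext fun x => dif_pos x.2)
    exact ⟨ψ, h1, h2.trans (dif_pos y.2)⟩
  have h := hr_image (φ := ⟨Subtype.val, continuous_subtype_val⟩)
    (IsEmbedding.subtypeVal (p := (· ∈ V))) univ (k + 1)
  rw [hr_eq_zero.2 (z0_high (lh _ E rfl) le hk)] at h
  simpa using h

theorem hs_open {V : Set E} (hV : IsOpen V) (hk : Module.finrank ℝ E < k) :
    hs V ∅ (k + 1) = 0 := by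
  rcases V.eq_empty_or_nonempty with rfl | h
  · exact Ac.refl _ _
  · rw [hs_empty h, hr_open hV hk, if_neg (by omega), add_zero]

end Reduced

end Pool.Agent.Lib.MP_837412_lc
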