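import Pool.Agent.Lib.MP_837412_lc.StT

/-!
Lifting of rays along a pseudo gradient field.
-/

namespace Pool.Agent.Lib.MP_837412_lc

open Pool.Agent.Shared.Mod2 Set Function Filter Topology

namespace JHL

lemma lip_inv {κ : ℝ} (hκ : 0 < κ) (T : ℝ) : LocallyLipschitz fun r : ℝ => T / max r κ := by
  refine (LipschitzWith.of_dist_le' (K := |T| / κ ^ 2) fun a b => ?_).locallyLipschitz
  have ha : κ ≤ max a κ := le_max_right _ _
  have hb : κ ≤ max b κ := le_max_right _ _
  have ha0 := hκ.trans_le ha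
  have hb0 := hκ.trans_le hb
  rw [Real.dist_eq, Real.dist_eq, show T / max a κ - T / max b κ =
    T * (max b κ - max a κ) / (max a κ * max b κ) by field_simp, abs_div, abs_mul,
    abs_of_pos (mul_pos ha0 hb0), div_mul_eq_mul_div, abs_sub_comm (max b κ)]
  exact div_le_div₀ (by positivity) (mul_le_mul_of_nonneg_left (abs_max_sub_max_le_abs a b κ)
    (abs_nonneg T)) (by positivity) (by rw [sq]; gcongr)

end JHL

theorem hlS (h : FlowS) : HLS := by
  intro E V _ _ _ _ _ G γ n ζ M T κ hP hT hκ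
  have n0 : ∀ x, 0 ≤ n x := fun x => nonneg_of_mul_nonneg_right ((sq_nonneg _).trans (hP.bd x)) hP.pos
  have m0 : ∀ x, 0 < max (n x) κ := fun x => hκ.trans_le (le_max_right _ _)
  let v : E → E := fun x => (T / max (n x) κ) • γ x
  have lv : LocallyLipschitz v :=
    (ContDiff.locallyLipschitz (𝕂 := ℝ) (f := fun p : ℝ × E => p.1 • p.2) (by fun_prop)).comp
      (((JHL.lip_inv hκ T).comp hP.lipn).prodMk hP.lip)
  have bv : ∀ x, ‖v x‖ ≤ T * √(M / κ) := fun x => by
    rw [norm_smul, Real.norm_of_nonneg (div_nonneg hT (m0 x).le), div_mul_eq_mul_div,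
      mul_div_assoc]
    refine mul_le_mul_of_nonneg_left (Real.le_sqrt_of_sq_le ?_) hT
    rw [div_pow, div_le_div_iff₀ (pow_pos (m0 x) 2) hκ, sq (max (n x) κ), ← mul_assoc]
    exact mul_le_mul ((hP.bd x).trans (mul_le_mul_of_nonneg_left (le_max_left _ _) hP.pos.le))
      (le_max_right _ _) hκ.le (mul_pos hP.pos (m0 x)).le
  obtain ⟨Φ, c, h0, hd, -⟩ := h E v _ lv bv
  let w : E → ℝ → ℝ := fun x u => T / max (n (Φ u x)) κ * n (Φ u x)
  have cw : ∀ x, Continuous (w x) := fun x => by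
    have a : Continuous fun u => n (Φ u x) :=
      hP.lipn.continuous.comp (continuous_iff_continuousAt.2 fun u => (hd x u).continuousAt)
    exact ((JHL.lip_inv hκ T).continuous.comp a).mul a
  have w0 : ∀ x u, 0 ≤ w x u := fun x u => mul_nonneg (div_nonneg hT (m0 _).le) (n0 _)
  have w1 : ∀ x u, w x u ≤ T := fun x u => by
    simp only [w]
    rw [div_mul_eq_mul_div, div_le_iff₀ (m0 _)]
    exact mul_le_mul_of_nonneg_left (le_max_left _ _) hT
  have ds : ∀ x t, HasDerivAt (fun t => ∫ u in (0 : ℝ)..t, w x u) (w x t) t := fun x t =>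
    ((cw x).integral_hasStrictDerivAt 0 t).hasDerivAt
  refine ⟨⟨fun p => Φ p.1 p.2, c.comp (f := fun p : I × E => ((p.1 : ℝ), p.2)) (by fun_prop)⟩,
    fun t x => ∫ u in (0 : ℝ)..t, w x u, h0, fun t x => ?_, fun x => ⟨by simp, ?_, ?_⟩,
    fun x hx => ?_, fun t x => ?_⟩
  · have a : ∀ t, HasDerivAt (fun t => G (Φ t x) - (∫ u in (0 : ℝ)..t, w x u) • ζ) 0 t := fun t => by
      obtain ⟨L, l1, l2⟩ := hP.der (Φ t x)
      have := (l1.comp_hasDerivAt t (hd x t)).sub ((ds x t).smul_const ζ)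
      rwa [show L (v (Φ t x)) - w x t • ζ = 0 by
        simp only [v, w, map_smul, l2, smul_smul, sub_self]] at this
    have b := is_const_of_deriv_eq_zero (fun t => (a t).differentiableAt) (fun t => (a t).deriv)
      (t : ℝ) 0
    simp only [h0, intervalIntegral.integral_same, zero_smul, sub_zero] at b
    exact sub_eq_iff_eq_add.1 b
  · exact (monotone_of_deriv_nonneg (fun t => (ds x t).differentiableAt) fun t => by
      rw [(ds x t).deriv]; exact w0 x t).comp fun _ _ a => a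
  · have := intervalIntegral.integral_mono_on (μ := MeasureTheory.volume) zero_le_one
      ((cw x).intervalIntegrable 0 1) (continuous_const.intervalIntegrable 0 1)
      fun u _ => w1 x u
    simpa using this
  · have : ∫ u in (0 : ℝ)..1, w x u = ∫ _ in (0 : ℝ)..1, T :=
      intervalIntegral.integral_congr fun u hu => by
        rw [uIcc_of_le zero_le_one] at hu
        have a : κ ≤ n (Φ u x) := hx ⟨u, hu⟩
        simp only [w]
        rw [max_eq_left a, div_mul_cancel₀ _ (hκ.trans_le a).ne']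
    simpa using this
  · have := norm_image_sub_le_of_norm_deriv_le_segment' (a := 0) (b := 1)
      (fun u _ => (hd x u).hasDerivWithinAt) (fun u _ => bv _) t t.2
    rw [h0, sub_zero] at this
    exact this.trans (mul_le_of_le_one_right (by positivity) t.2.2)

theorem k1S (h : HLS) : K1S := by
  intro E V _ _ _ _ _ G γ n ζ M A B S S' hP hA oS oS' hd hc hκ
  have cG : Continuous G := continuous_iff_continuousAt.2 fun x =>
    let ⟨_, a, _⟩ := hP.der x; a.continuousAt
  refine wd fun K k1 k2 => ?_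
  obtain ⟨T, hT⟩ := k1.elim_directed_cover (fun T : ℕ => {y | G y + (T : ℝ) • ζ ∈ B})
    (fun T => hA.oB.preimage (by fun_prop)) (fun y hy => by
      obtain ⟨t, t0, ht⟩ := hA.ent _ (k2 hy).1
      refine mem_iUnion.2 ⟨⌈t⌉₊, ?_⟩
      have := hA.mB _ ht (⌈t⌉₊ - t) (sub_nonneg.2 (Nat.le_ceil t))
      rwa [add_assoc, ← add_smul, add_sub_cancel] at this)
    (Monotone.directed_le fun a b ab y hy => by
      have := hA.mB _ hy ((b : ℝ) - a) (sub_nonneg.2 (Nat.cast_le.2 ab))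
      rwa [add_assoc, ← add_smul, add_sub_cancel] at this)
  obtain ⟨κ, κ0, hκ⟩ := hκ (((fun p : E × ℝ => G p.1 + p.2 • ζ) '' K ×ˢ Icc 0 (T : ℝ)) \ B)
    (((k1.prod isCompact_Icc).image (by fun_prop)).diff hA.oB) (by
      rintro _ ⟨⟨p, hp, rfl⟩, a⟩
      exact ⟨hA.mA _ (k2 hp.1).1 _ hp.2.1, a⟩)
  obtain ⟨H, s, h0, h1, h2, h3, -⟩ := h E V G γ n ζ M T κ hP T.cast_nonneg κ0
  have s0 : ∀ t y, 0 ≤ s t y := fun t y => (h2 y).1 ▸ (h2 y).2.1 t.2.1
  have s1 : ∀ t y, s t y ≤ s 1 y := fun t y => (h2 y).2.1 t.2.2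
  have hA' : ∀ t, ∀ y ∈ K, G (H (t, y)) ∈ A := fun t y hy => by
    rw [h1]; exact hA.mA _ (k2 hy).1 _ (s0 t y)
  have hS : ∀ t, ∀ y ∈ K, H (t, y) ∈ S := fun t y hy =>
    (isPreconnected_range (f := fun t : I => H (t, y)) (by fun_prop)).subset_left_of_subset_union
      oS oS' hd (range_subset_iff.2 fun t => hc (hA' t y hy))
      ⟨_, ⟨0, rfl⟩, by simpa only [h0] using (k2 hy).2⟩ ⟨t, rfl⟩
  refine ⟨H, h0, fun t y hy => ⟨hA' t y hy, hS t y hy⟩, fun t y hy b => ⟨?_, hS t y hy⟩,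
    fun y hy => ⟨?_, hS 1 y hy⟩⟩
  · rw [mem_preimage, h1]; exact hA.mB _ b.1 _ (s0 t y)
  · by_cases e : ∃ t, G (H (t, y)) ∈ B
    · obtain ⟨t, e⟩ := e
      have := hA.mB _ e _ (sub_nonneg.2 (s1 t y))
      rwa [h1, add_assoc, ← add_smul, add_sub_cancel, ← h1] at this
    · rw [mem_preimage, h1, h3 y fun t => hκ _ (hS t y hy)
        ⟨⟨(y, s t y), ⟨hy, s0 t y, (s1 t y).trans (h2 y).2.2⟩, (h1 t y).symm⟩,
          fun a => e ⟨t, a⟩⟩]
      exact hT hy

end Pool.Agent.Lib.MP_837412_lc
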