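import Pool.Agent.Lib.MP_837412_lc.StT

/-!
Real Morse theory for a real polynomial whose complexification is a Morse polynomial.
-/

namespace Pool.Agent.Lib.MP_837412_lc

open Pool.Agent.Shared.Mod2 Set Function Filter Topology MvPolynomial

namespace JRM

variable {σ : Type} [Fintype σ]

lemma fderiv_eval (f : MvPolynomial σ ℝ) (y : σ → ℝ) :
    fderiv ℝ (fun y => eval y f) y = dif f y := (hasStrictFDerivAt_eval f y).hasFDerivAt.fderiv

lemma crit_iff {f : MvPolynomial σ ℝ} {y : σ → ℝ} :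
    fderiv ℝ (fun y => eval y f) y = 0 ↔ Crit f y := by
  classical
  rw [fderiv_eval]
  constructor
  · intro h i
    have := congrArg (· (Pi.single i 1)) h
    simpa [dif_apply, Pi.single_apply] using this
  · intro h
    ext v
    simp [dif_apply, h _]

/-- The gradient is bounded below on a closed part of a band without critical points. -/
lemma bound {f : MvPolynomial σ ℝ} (hc : ∀ b, IsCompact {y | eval y f ≤ b}) (a b : ℝ)
    {T : Set (σ → ℝ)} (hT : IsOpen T) (h : ∀ y, Crit f y → eval y f ∈ Icc a b → y ∈ T) :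
    ∃ κ > 0, ∀ y, eval y f ∈ Icc a b → y ∉ T → κ ≤ ‖fderiv ℝ (fun y => eval y f) y‖ := by
  have k : IsCompact ({y | eval y f ≤ b} ∩ ({y | a ≤ eval y f} ∩ Tᶜ)) :=
    (hc b).inter_right ((isClosed_le continuous_const (MvPolynomial.continuous_eval f)).inter
      hT.isClosed_compl)
  have c : Continuous fun y => ‖fderiv ℝ (fun y => eval y f) y‖ :=
    ((contDiff_eval f (n := 1)).continuous_fderiv one_ne_zero).norm
  obtain ⟨κ, k1, k2⟩ := k.exists_forall_le' c.continuousOn (a := 0) fun y hy =>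
    norm_pos_iff.2 fun e => hy.2.2 (h y (crit_iff.1 e) ⟨hy.2.1, hy.1⟩)
  exact ⟨κ, k1, fun y hy hy' => k2 y ⟨hy.2, hy.1, hy'⟩⟩

lemma crit_cx {f : MvPolynomial σ ℝ} {y : σ → ℝ} :
    Crit (cx' f) (fun i => (y i : ℂ)) ↔ Crit f y := by
  simp only [Crit, pderiv_cx, eval_cx, Complex.ofReal_eq_zero]

omit [Fintype σ] in
lemma hess_cx (f : MvPolynomial σ ℝ) (y : σ → ℝ) :
    Hess (cx' f) (fun i => (y i : ℂ)) = (Hess f y).map Complex.ofRealHom := by
  ext i j
  simp only [Hess, Matrix.of_apply, pderiv_cx, eval_cx, Matrix.map_apply, Complex.ofRealHom_eq_coe]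

lemma quad_apply [DecidableEq σ] (H : Matrix σ σ ℝ) (v : σ → ℝ) :
    H.toQuadraticForm' v = v ⬝ᵥ H.mulVec v := by
  simp [Matrix.toQuadraticForm', Matrix.toLinearMap₂'_apply']

lemma radical_eq [DecidableEq σ] {H : Matrix σ σ ℝ} (hs : H.IsSymm) (hd : H.det ≠ 0) :
    H.toQuadraticForm'.radical = ⊥ := by
  refine eq_bot_iff.2 fun v hv => ?_
  obtain ⟨h1, h2⟩ := QuadraticMap.mem_radical_iff'.1 hv
  refine Matrix.eq_zero_of_mulVec_eq_zero hd (dotProduct_self_eq_zero.1 ?_)
  have h3 := h2 (H.mulVec v)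
  have e : v ⬝ᵥ H.mulVec (H.mulVec v) = H.mulVec v ⬝ᵥ H.mulVec v := by
    rw [Matrix.dotProduct_mulVec v H, ← Matrix.mulVec_transpose, hs.eq]
  rw [quad_apply] at h1
  rw [quad_apply, quad_apply, Matrix.mulVec_add, add_dotProduct, dotProduct_add, dotProduct_add,
    h1, e] at h3
  linarith

lemma quad_hess [DecidableEq σ] (f : MvPolynomial σ ℝ) (y v : σ → ℝ) :
    (Hess f y).toQuadraticForm' v = fderiv ℝ (fderiv ℝ fun y => eval y f) y v v := by
  have := fderiv2_re (1 : ℝ) f y v v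
  simp only [one_mul, RCLike.re_to_real] at this
  rw [this, quad_apply]
  simp only [dotProduct, Matrix.mulVec, Finset.mul_sum]
  exact Finset.sum_congr rfl fun i _ => Finset.sum_congr rfl fun j _ => by ring

/-- One real critical point in the band. -/
lemma one_cell [DecidableEq σ] (h1 : MCS) (h2 : AcS) {f : MvPolynomial σ ℝ}
    (hc : ∀ b, IsCompact {y | eval y f ≤ b}) {a b : ℝ} {p : σ → ℝ} (hp : Crit f p)
    (hd : (Hess f p).det ≠ 0) (hv : eval p f ∈ Ioo a b)
    (hu : ∀ y, Crit f y → eval y f ∈ Icc a b → y = p) {T T' : Set (σ → ℝ)} (hT : IsOpen T)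
    (hT' : IsOpen T') (hj : Disjoint T T') (hb : {y | eval y f < b} ⊆ T ∪ T') (hm : p ∈ T) :
    Cell ({y | eval y f < b} ∩ T) ({y | eval y f < a} ∩ T) ((sig (Hess f p)).2 + 1) ∧
      Ac ({y | eval y f < b} ∩ T') ({y | eval y f < a} ∩ T') := by
  have ab : a ≤ b := (hv.1.trans hv.2).le
  have c1 := h1 _ (fun y => eval y f) p a b (Hess f p).toQuadraticForm' (contDiff_eval f)
    (crit_iff.2 hp) (quad_hess f p) (radical_eq (hess_symm f p) hd) hv.1 hv.2 fun U hU => by
      obtain ⟨κ, k1, k2⟩ := bound hc a b (T := interior U) isOpen_interior fun y y1 y2 =>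
        hu y y1 y2 ▸ mem_interior_iff_mem_nhds.2 hU
      exact ⟨κ, k1, fun y y1 y2 => k2 y y1 fun e => y2 (interior_subset e)⟩
  have c2 := h2 _ (fun y => eval y f) a b T' T (contDiff_eval f) ab hT' hT hj.symm
    (union_comm T T' ▸ hb) fun b' hb' => by
      obtain ⟨κ, k1, k2⟩ := bound hc a b hT fun y y1 y2 => hu y y1 y2 ▸ hm
      exact ⟨κ, k1, fun y y1 y2 => k2 y ⟨y2.1, y2.2.trans hb'.le⟩ (hj.notMem_of_mem_right y1)⟩
  refine ⟨fun k => ?_, c2⟩
  have := hs_split hT hT' hj hb (B := {y | eval y f < a}) (fun y hy => lt_of_lt_of_le hy ab) k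
  rw [c2 k, add_zero] at this
  exact this.symm.trans (c1 k)

end JRM

open JRM

theorem rmS (h1 : MCS) (h2 : AcS) : RMS := by
  intro σ ι _ _ _ f c x S S' hM h0 hc hS hS' hd hcov
  have r1 : ∀ i, (c i).im = 0 → ∀ j, (x i j).im = 0 := by
    intro i hi j
    obtain ⟨a, ha⟩ := hM.all (fun j => (starRingEnd ℂ) (x i j)) fun l => by
      have := hM.crit i l
      rw [pderiv_cx] at this ⊢
      rw [eval_cx_conj, this, map_zero]
    have e : c a = c i := by
      rw [← hM.val a, ← ha, eval_cx_conj, hM.val, Complex.conj_eq_iff_im.2 hi]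
    rw [hM.inj e] at ha
    exact Complex.conj_eq_iff_im.1 (congrFun ha j)
  have r2 : ∀ i, (c i).im = 0 → (fun j => (((x i j).re : ℝ) : ℂ)) = x i := fun i hi =>
    funext fun j => Complex.ext (by simp) (by simp [r1 i hi j])
  have r3 : ∀ i, (c i).im = 0 → eval (fun j => (x i j).re) f = (c i).re := fun i hi => by
    rw [← hM.val i, ← r2 i hi, eval_cx]; simp
  have r4 : ∀ y, Crit f y → ∃ i, (c i).im = 0 ∧ y = (fun j => (x i j).re) ∧
      eval y f = (c i).re := fun y hy => by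
    obtain ⟨i, hi⟩ := hM.all _ (crit_cx.2 hy)
    have e : ((eval y f : ℝ) : ℂ) = c i := by rw [← eval_cx, hi, hM.val]
    exact ⟨i, by rw [← e, Complex.ofReal_im], by rw [← hi]; simp, by rw [← e, Complex.ofReal_re]⟩
  have sub : ∀ b ≤ (0 : ℝ), {y | eval y f < b} ⊆ S ∪ S' := fun b hb y hy =>
    hcov (lt_of_lt_of_le hy hb)
  refine ⟨r1, hS, hS', hd, hcov, fun i j hi hj e => hM.inj (Complex.ext e (hi.trans hj.symm)),
    fun i hi e => h0 i (Complex.ext e hi), fun t ht => ?_, fun a b ab hb h => ?_,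
    fun a b i hb hi hv hu => ?_⟩
  · refine eq_empty_of_forall_notMem fun y hy => ?_
    obtain ⟨z, z1, z2⟩ := (hc (eval y f)).exists_isMinOn ⟨y, le_refl (eval y f)⟩
      (MvPolynomial.continuous_eval f).continuousOn
    have z3 : IsMinOn (fun y => eval y f) univ z := fun w _ => by
      rcases le_total (eval w f) (eval y f) with e | e
      · exact z2 e
      · exact le_trans z1 e
    obtain ⟨i, i1, -, i3⟩ := r4 z (crit_iff.1 (z3.isLocalMin univ_mem).fderiv_eq_zero)
    exact lt_irrefl _ ((ht i i1).trans_lt (i3 ▸ lt_of_le_of_lt z1 hy))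
  · obtain ⟨κ, k1, k2⟩ := bound hc a b isOpen_empty fun y y1 y2 => by
      obtain ⟨i, i1, -, i3⟩ := r4 y y1
      exact h i i1 (i3 ▸ y2)
    exact ⟨h2 _ (fun y => eval y f) a b S S' (contDiff_eval f) ab hS hS' hd (sub b hb)
        fun b' hb' => ⟨κ, k1, fun y _ y2 => k2 y ⟨y2.1, y2.2.trans hb'.le⟩ id⟩,
      h2 _ (fun y => eval y f) a b S' S (contDiff_eval f) ab hS' hS hd.symm
        (union_comm S S' ▸ sub b hb)
        fun b' hb' => ⟨κ, k1, fun y _ y2 => k2 y ⟨y2.1, y2.2.trans hb'.le⟩ id⟩⟩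
  · have hp : Crit f fun j => (x i j).re := crit_cx.1 ((r2 i hi).symm ▸ hM.crit i)
    have eh : Hess (cx' f) (x i) = (Hess f fun j => (x i j).re).map Complex.ofRealHom := by
      rw [← hess_cx, r2 i hi]
    have eh' : (Hess (cx' f) (x i)).map Complex.re = Hess f fun j => (x i j).re := by
      rw [eh]; ext; simp
    have hdet : (Hess f fun j => (x i j).re).det ≠ 0 := fun e => hM.hess i (by
      rw [eh, ← RingHom.mapMatrix_apply, ← RingHom.map_det, e, map_zero])
    have hv' : eval (fun j => (x i j).re) f ∈ Ioo a b := (r3 i hi).symm ▸ hv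
    have hu' : ∀ y, Crit f y → eval y f ∈ Icc a b → y = fun j => (x i j).re := fun y y1 y2 => by
      obtain ⟨j, j1, j2, j3⟩ := r4 y y1
      by_cases e : j = i
      · exact e ▸ j2
      · exact (hu j e j1 (j3 ▸ y2)).elim
    simp only [eh']
    refine ⟨⟨_, hv'.2⟩, fun hm => one_cell h1 h2 hc hp hdet hv' hu' hS hS' hd (sub b hb) hm,
      fun hm => (one_cell h1 h2 hc hp hdet hv' hu' hS' hS hd.symm
        (union_comm S S' ▸ sub b hb) ((sub b hb hv'.2).resolve_left hm)).symm⟩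

end Pool.Agent.Lib.MP_837412_lc
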