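import Pool.Agent.Lib.MP_837412_lc.StA

/-!
The start of the pencil: its critical values are distinct and nonzero.
-/

namespace Pool.Agent.Lib.MP_837412_lc

open Set Function MvPolynomial

namespace JZero

lemma norm_one_sub_pow {t : ℂ} (h : ‖t‖ = 1) (j : ℕ) : ‖1 - t ^ j‖ ≤ j * ‖1 - t‖ := by
  induction j with
  | zero => simp
  | succ j ih =>
    have e : 1 - t ^ (j + 1) = (1 - t ^ j) + t ^ j * (1 - t) := by ring
    rw [e]
    refine (norm_add_le _ _).trans ?_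
    rw [norm_mul, norm_pow, h, one_pow, one_mul]
    push_cast
    linarith

lemma one_le_of_root {m : ℕ} (hm : m ≠ 0) {t : ℂ} (h : t ^ m = 1) (h1 : t ≠ 1) :
    1 ≤ m * ‖1 - t‖ := by
  have hn : ‖t‖ = 1 := Complex.norm_eq_one_of_pow_eq_one h hm
  have s : ∑ j ∈ Finset.range m, t ^ j = 0 := by
    have := geom_sum_mul t m
    rw [h, sub_self] at this
    exact (mul_eq_zero.1 this).resolve_right (sub_ne_zero.2 h1)
  have e : (m : ℂ) = ∑ j ∈ Finset.range m, (1 - t ^ j) := by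
    rw [Finset.sum_sub_distrib, s]; simp
  have b : (m : ℝ) ≤ m * (m * ‖1 - t‖) := by
    calc (m : ℝ) = ‖(m : ℂ)‖ := by simp
      _ ≤ ∑ j ∈ Finset.range m, ‖1 - t ^ j‖ := by rw [e]; exact norm_sum_le _ _
      _ ≤ ∑ _j ∈ Finset.range m, m * ‖1 - t‖ := Finset.sum_le_sum fun j hj =>
        (norm_one_sub_pow hn j).trans (mul_le_mul_of_nonneg_right
          (Nat.cast_le.2 (Finset.mem_range.1 hj).le) (norm_nonneg _))
      _ = m * (m * ‖1 - t‖) := by simp
  have p : (0 : ℝ) < m := Nat.cast_pos.2 (Nat.pos_of_ne_zero hm)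
  exact le_of_mul_le_mul_left (by rw [mul_one]; exact b) p

lemma one_le_of_roots {m : ℕ} (hm : m ≠ 0) {u v : ℂ} (hu : u ^ m = 1) (hv : v ^ m = 1)
    (h : u ≠ v) : 1 ≤ m * ‖u - v‖ := by
  have hn : ‖u‖ = 1 := Complex.norm_eq_one_of_pow_eq_one hu hm
  have u0 : u ≠ 0 := by rintro rfl; simp at hn
  have := one_le_of_root hm (t := v / u) (by rw [div_pow, hu, hv, div_one])
    fun e => h ((div_eq_one_iff_eq u0).1 e).symm
  have e : u - v = u * (1 - v / u) := by field_simp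
  rw [e, norm_mul, hn, one_mul]
  exact this

lemma geom_le (Q : ℝ) (k : ℕ) : (Q - 1) * ∑ j ∈ Finset.range k, Q ^ j ≤ Q ^ k := by
  rw [mul_comm, geom_sum_mul]; linarith

variable {σ : Type} [Fintype σ]

lemma sum_lt_le (m : ℕ) (i₀ : σ) (s : Finset σ)
    (hs : ∀ i ∈ s, (Fintype.equivFin σ i : ℕ) < Fintype.equivFin σ i₀) :
    ((2 : ℝ) ^ (m + 1) - 1) * ∑ i ∈ s, (bb i : ℝ) ^ (m + 1) ≤ (bb i₀ : ℝ) ^ (m + 1) := by
  classical
  have e : ∀ i : σ, (bb i : ℝ) ^ (m + 1) = (2 ^ (m + 1)) ^ (Fintype.equivFin σ i : ℕ) := by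
    intro i
    rw [bb, Nat.cast_pow, ← pow_mul, ← pow_mul, mul_comm]; rfl
  have inj : Injective fun i : σ => (Fintype.equivFin σ i : ℕ) :=
    Fin.val_injective.comp (Fintype.equivFin σ).injective
  have p : (0 : ℝ) ≤ 2 ^ (m + 1) - 1 := sub_nonneg.2 (one_le_pow₀ one_le_two)
  simp only [e]
  refine le_trans (mul_le_mul_of_nonneg_left ?_ p) (geom_le _ _)
  rw [← Finset.sum_image (s := s) (g := fun i : σ => (Fintype.equivFin σ i : ℕ))
    (f := fun j => ((2 : ℝ) ^ (m + 1)) ^ j) fun a _ b _ h => inj h]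
  refine Finset.sum_le_sum_of_subset_of_nonneg ?_ fun _ _ _ => by positivity
  intro j hj
  obtain ⟨i, hi, rfl⟩ := Finset.mem_image.1 hj
  exact Finset.mem_range.2 (hs i hi)

lemma bb_pos (i : σ) : (0 : ℝ) < bb i := by
  rw [bb]; positivity

lemma arith {m B S D Q : ℝ} (pm : 0 ≤ m) (pb : 0 < B) (ps : 0 ≤ S) (q : 2 * m + 2 ≤ Q)
    (b : B * D ≤ 2 * S) (c : (Q - 1) * S ≤ B) (d : 1 ≤ m * D) : False := by
  have f1 : B ≤ m * (2 * S) := by
    calc B = B * 1 := (mul_one _).symm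
      _ ≤ B * (m * D) := mul_le_mul_of_nonneg_left d pb.le
      _ = m * (B * D) := by ring
      _ ≤ m * (2 * S) := mul_le_mul_of_nonneg_left b pm
  have f2 : (2 * m + 1) * S ≤ B := le_trans (mul_le_mul_of_nonneg_right (by linarith) ps) c
  have f3 : S ≤ 0 := by linarith
  have f4 : S = 0 := le_antisymm f3 ps
  rw [f4] at f1
  linarith

lemma eq_of_sum {m : ℕ} (hm : m ≠ 0) {u v : σ → ℂ} (hu : ∀ i, u i ^ m = 1)
    (hv : ∀ i, v i ^ m = 1)
    (h : ∑ i, (bb i : ℂ) ^ (m + 1) * u i = ∑ i, (bb i : ℂ) ^ (m + 1) * v i) : u = v := by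
  classical
  by_contra hne
  have ne : (Finset.univ.filter fun i => u i ≠ v i).Nonempty := by
    obtain ⟨i, hi⟩ := Function.ne_iff.1 hne
    exact ⟨i, by simpa using hi⟩
  obtain ⟨i₀, hi₀, hmax⟩ := Finset.exists_max_image _ (fun i => (Fintype.equivFin σ i : ℕ)) ne
  set s := (Finset.univ.filter fun i => u i ≠ v i).erase i₀ with hs
  have lt : ∀ i ∈ s, (Fintype.equivFin σ i : ℕ) < Fintype.equivFin σ i₀ := by
    intro i hi
    obtain ⟨a, b⟩ := Finset.mem_erase.1 hi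
    exact lt_of_le_of_ne (hmax i b) fun e =>
      a ((Fintype.equivFin σ).injective (Fin.val_injective e))
  have z : (bb i₀ : ℂ) ^ (m + 1) * (u i₀ - v i₀) +
      ∑ i ∈ s, (bb i : ℂ) ^ (m + 1) * (u i - v i) = 0 := by
    rw [hs, Finset.add_sum_erase _ (fun i => (bb i : ℂ) ^ (m + 1) * (u i - v i)) hi₀,
      Finset.sum_filter_of_ne]
    · simp only [mul_sub, Finset.sum_sub_distrib, h, sub_self]
    · intro i _ hi e
      rw [e] at hi; simp at hi
  have nu : ∀ i, ‖u i‖ = 1 := fun i => Complex.norm_eq_one_of_pow_eq_one (hu i) hm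
  have nv : ∀ i, ‖v i‖ = 1 := fun i => Complex.norm_eq_one_of_pow_eq_one (hv i) hm
  have b : (bb i₀ : ℝ) ^ (m + 1) * ‖u i₀ - v i₀‖ ≤ 2 * ∑ i ∈ s, (bb i : ℝ) ^ (m + 1) := by
    have := congrArg norm (eq_neg_of_add_eq_zero_left z)
    rw [norm_neg, norm_mul, norm_pow, Complex.norm_natCast] at this
    rw [this, Finset.mul_sum]
    refine (norm_sum_le _ _).trans (Finset.sum_le_sum fun i _ => ?_)
    rw [norm_mul, norm_pow, Complex.norm_natCast, mul_comm]
    refine mul_le_mul_of_nonneg_right ((norm_sub_le _ _).trans ?_) (by positivity)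
    rw [nu, nv]; norm_num
  have c := sum_lt_le m i₀ s lt
  have d := one_le_of_roots hm (hu i₀) (hv i₀) (Finset.mem_filter.1 hi₀).2
  have q : (2 * m : ℝ) + 2 ≤ 2 ^ (m + 1) := by
    have : m + 1 ≤ 2 ^ m := Nat.lt_two_pow_self
    have : ((m + 1 : ℕ) : ℝ) ≤ ((2 ^ m : ℕ) : ℝ) := Nat.cast_le.2 this
    push_cast at this
    rw [pow_succ]; linarith
  exact arith (Nat.cast_nonneg m) (pow_pos (bb_pos i₀) (m + 1))
    (Finset.sum_nonneg fun i _ => (pow_pos (bb_pos i) (m + 1)).le) q b c d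

lemma crit {m : ℕ} (p : MvPolynomial σ ℂ) {u : σ → ℂ} (hu : ∀ i, u i ^ m = 1) :
    Crit (Fl m p 0) fun i => bb i * u i := by
  intro i
  rw [pderiv_Fl]
  simp [qq, mul_pow, hu]

lemma val {m : ℕ} (p : MvPolynomial σ ℂ) {u : σ → ℂ} (hu : ∀ i, u i ^ m = 1) :
    eval (fun i => bb i * u i) (Fl m p 0) = ((1 + (m + 1) * ∑ i : σ, bb i ^ (m + 1) : ℕ) : ℂ) -
      m * ∑ i, (bb i : ℂ) ^ (m + 1) * u i := by
  rw [Fl_zero, F0, map_add, eval_C, map_sum, add_comm, sub_eq_add_neg]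
  congr 1
  rw [Finset.mul_sum, ← Finset.sum_neg_distrib]
  refine Finset.sum_congr rfl fun i _ => ?_
  rw [map_sub, map_mul, map_pow, eval_C, eval_X, mul_pow, pow_succ (u i), hu]
  push_cast
  ring

lemma val_ne {m : ℕ} (hm : m ≠ 0) (p : MvPolynomial σ ℂ) {u : σ → ℂ} (hu : ∀ i, u i ^ m = 1) :
    eval (fun i => bb i * u i) (Fl m p 0) ≠ 0 := by
  rw [val p hu, sub_ne_zero]
  intro e
  have nu : ∀ i, ‖u i‖ = 1 := fun i => Complex.norm_eq_one_of_pow_eq_one (hu i) hm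
  have a := congrArg norm e
  rw [Complex.norm_natCast, norm_mul, Complex.norm_natCast] at a
  have b : ‖∑ i, (bb i : ℂ) ^ (m + 1) * u i‖ ≤ ∑ i : σ, (bb i : ℝ) ^ (m + 1) := by
    refine (norm_sum_le _ _).trans (Finset.sum_le_sum fun i _ => ?_)
    rw [norm_mul, nu, norm_pow, Complex.norm_natCast, mul_one]
  have ps : (0 : ℝ) ≤ ∑ i : σ, (bb i : ℝ) ^ (m + 1) := by positivity
  have c := mul_le_mul_of_nonneg_left b (Nat.cast_nonneg m : (0 : ℝ) ≤ m)
  push_cast at a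
  nlinarith

end JZero

theorem zeroS (h1 : QvS) (h2 : CritS) : ZeroS := by
  intro σ _ _ m p hm hp
  have m0 : m ≠ 0 := by omega
  have hw := Complex.isPrimitiveRoot_exp m m0
  generalize Complex.exp (2 * Real.pi * Complex.I / m) = w at hw
  let u : Std σ m → σ → ℂ := fun a i => w ^ (a i : ℕ)
  have hu : ∀ a i, u a i ^ m = 1 := fun a i => by
    simp only [u]
    rw [← pow_mul, mul_comm, pow_mul, hw.pow_eq_one, one_pow]
  let x : Std σ m → σ → ℂ := fun a i => bb i * u a i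
  have hx : ∀ a, Crit (Fl m p 0) (x a) := fun a => JZero.crit p (hu a)
  have inj : Injective fun a => eval (x a) (Fl m p 0) := by
    intro a a' e
    simp only [x, JZero.val p (hu _), sub_right_inj] at e
    have := JZero.eq_of_sum m0 (hu a) (hu a') (mul_left_cancel₀ (Nat.cast_ne_zero.2 m0) e)
    funext i
    exact Fin.ext (hw.pow_inj (a i).2 (a' i).2 (congrFun this i))
  choose g hg using fun a => (h2 σ m p 0 hm hp (x a) (hx a)).1
  have gi : Injective g := fun a a' e => inj (by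
    show MvPolynomial.eval (x a) _ = MvPolynomial.eval (x a') _
    rw [← hg, ← hg, e])
  have gs : Surjective g := Finite.surjective_of_injective gi
  choose k hk using gs
  refine ⟨⟨fun b => x (k b), fun b => ⟨hx _, by rw [← hg, hk]⟩⟩, (h1 _ _).2 ⟨?_, fun b => ?_⟩⟩
  · intro b b' e
    rw [← hk b, ← hk b', hg, hg] at e
    rw [← hk b, ← hk b', inj e]
  · rw [← hk b, hg]
    exact JZero.val_ne m0 p (hu _)

end Pool.Agent.Lib.MP_837412_lc
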