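import Pool.Agent.Lib.MP_837412_lc.Defs

/-!
Betti numbers with coefficients in a field.
-/

namespace Pool.Agent.Lib.MP_837412_lc

/-- The `i`-th Betti number over the field `K`: the dimension of singular homology with
coefficients in `K`. -/
noncomputable def betti (K : Type) [Field K] (X : Type) [TopologicalSpace X] (i : ℕ) : Cardinal :=
  Module.rank K
    (((AlgebraicTopology.singularHomologyFunctor (ModuleCat K) i).obj
      (ModuleCat.of K K)).obj (TopCat.of X))

end Pool.Agent.Lib.MP_837412_lc
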