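import Pool.Agent.Lib.MP_837412_lc.KT
import Pool.Agent.Lib.MP_837412_lc.KDefs
import Pool.Agent.Lib.MP_837412_lc.JBetti

/-!
Comparison of the singular homology of Mathlib with the homology of the concrete chain complex.
-/

namespace Pool.Agent.Lib.MP_837412_lc.K

open Pool.Agent.Shared.Mod2 Set CategoryTheory Limits Simplicial

variable [Coef]

namespace KBetti

lemma rank_sc (S : ShortComplex (ModuleCat.{0} F)) :
    (Module.rank F S.homology).toENat = rk (LinearMap.ker S.g.hom) (LinearMap.range S.f.hom) := by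
  rw [S.moduleCatHomologyIso.toLinearEquiv.rank_eq, rk]
  let p := (LinearMap.range S.f.hom).mkQ.domRestrict (LinearMap.ker S.g.hom)
  have e : LinearMap.ker p = LinearMap.range S.moduleCatToCycles := by
    ext x
    simp only [p, LinearMap.mem_ker, LinearMap.domRestrict_apply, Submodule.mkQ_apply,
      Submodule.Quotient.mk_eq_zero, LinearMap.mem_range]
    exact exists_congr fun y => ⟨fun h => Subtype.ext h, fun h => congrArg Subtype.val h⟩
  rw [← LinearMap.range_domRestrict, ← p.quotKerEquivRange.rank_eq, e]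
  rfl

lemma bdl_ofFn {V : Type} (n : ℕ) (v : Fin (n + 1) → V) :
    bdl (List.ofFn v) =
      ∑ i : Fin (n + 1), (-1 : ℤ) ^ i.val • sg (List.ofFn (v ∘ i.succAbove)) := by
  induction n with
  | zero => simp [bdl]
  | succ n ih =>
    rw [List.ofFn_succ, bdl, ih, Fin.sum_univ_succ (n := n + 1), map_sum, sub_eq_add_neg,
      ← Finset.sum_neg_distrib, Fin.val_zero, pow_zero, one_smul]
    congr 1
    refine Finset.sum_congr rfl fun i _ => ?_
    rw [map_zsmul, Fin.val_succ, pow_succ, mul_neg_one, neg_smul, cone_sg,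
      List.ofFn_succ (f := v ∘ _)]
    simp only [Function.comp_apply, Fin.succ_succAbove_zero, Fin.succ_succAbove_succ]
    rfl

variable {X : Type} [TopologicalSpace X]

lemma sd_sg (n : ℕ) (σ : C(Sp (n + 1), X)) : sd (sg (⟨n + 1, σ⟩ : Sx X)) =
    ∑ i : Fin (n + 1), (-1 : ℤ) ^ i.val •
      sg (⟨n, σ.comp (aff (stdSimplex.vertex ∘ i.succAbove))⟩ : Sx X) := by
  rw [sd, op_sg, Pool.Agent.Shared.Mod2.ev, bdl_ofFn, map_sum, map_sum]
  refine Finset.sum_congr rfl fun i _ => ?_
  rw [map_zsmul, map_zsmul, mp_sg, cm_sg, re_ofFn]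
  rfl

variable (X)

/-- The singular simplicial set. -/
noncomputable abbrev SS : SSet.{0} := TopCat.toSSet.obj (TopCat.of X)

/-- The coefficients. -/
abbrev RR : ModuleCat.{0} F := ModuleCat.of F F

/-- The singular chain complex. -/
noncomputable abbrev KK : ChainComplex (ModuleCat.{0} F) ℕ := (SS X).chainComplex RR

variable {X}

/-- The map of a simplex. -/
noncomputable def tm {n : ℕ} : (SS X) _⦋n⦌ ≃ C(Sp (n + 1), X) :=
  (TopCat.of X).toSSetObjEquiv (Opposite.op ⦋n⦌)

/-- A basis element. -/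
noncomputable def bs {n : ℕ} (x : (SS X) _⦋n⦌) : (KK X).X n :=
  ((SS X).ιChainComplex (R := RR) x).hom (1 : F)

lemma ext' {n : ℕ} {M : Type} [AddCommGroup M] [Module F M] {f g : (KK X).X n →ₗ[F] M}
    (h : ∀ x, f (bs x) = g (bs x)) : f = g := by
  have : ModuleCat.ofHom (Y := M) f = ModuleCat.ofHom (Y := M) g :=
    SSet.chainComplex_hom_ext fun x => ModuleCat.hom_ext (LinearMap.ext_ring (h x))
  exact congrArg ModuleCat.Hom.hom this

/-- The comparison map. -/
noncomputable def ph (n : ℕ) : (KK X).X n →ₗ[F] Ch (Sx X) :=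
  (Cofan.IsColimit.desc ((SS X).isColimitChainComplexXCofan RR n)
    (A := ModuleCat.of F (Ch (Sx X)))
    fun x => ModuleCat.ofHom (LinearMap.toSpanSingleton F _ (sg ⟨n + 1, tm x⟩))).hom

lemma ph_bs {n : ℕ} (x : (SS X) _⦋n⦌) : ph n (bs x) = sg ⟨n + 1, tm x⟩ := by
  have := Cofan.IsColimit.fac ((SS X).isColimitChainComplexXCofan RR n)
    (A := ModuleCat.of F (Ch (Sx X)))
    (fun x => ModuleCat.ofHom (LinearMap.toSpanSingleton F _ (sg ⟨n + 1, tm x⟩))) x
  exact (LinearMap.congr_fun (congrArg ModuleCat.Hom.hom this) (1 : F)).trans (one_smul _ _)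

lemma ph_inj (n : ℕ) : Function.Injective (ph (X := X) n) := by
  let ψ : Ch (Sx X) →ₗ[F] (KK X).X n :=
    lin fun σ => if h : σ.1 = n + 1 then bs (tm.symm (h ▸ σ.2)) else 0
  have : ψ ∘ₗ ph n = LinearMap.id := ext' fun x => by simp [ψ, ph_bs]
  exact Function.LeftInverse.injective (g := ψ) (LinearMap.congr_fun this)

lemma ph_range (n : ℕ) : LinearMap.range (ph (X := X) n) = Cs univ (n + 1) := by
  refine le_antisymm ?_ fun y hy => ?_
  · have : (Cs (univ : Set X) (n + 1)).mkQ ∘ₗ ph n = 0 := ext' fun x => by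
      rw [LinearMap.comp_apply, ph_bs, LinearMap.zero_apply, Submodule.mkQ_apply,
        Submodule.Quotient.mk_eq_zero]
      exact sg_mem ⟨rfl, fun _ => trivial⟩
    simpa using LinearMap.range_le_ker_iff.2 this
  · refine map_mem (L := LinearMap.id) ?_ hy
    rintro ⟨k, σ⟩ ⟨rfl, -⟩
    exact ⟨bs (tm.symm σ), by rw [ph_bs, Equiv.apply_symm_apply]; rfl⟩

lemma ph_mem {n : ℕ} (x : (KK X).X n) : ph n x ∈ Cs univ (n + 1) :=
  (ph_range (X := X) n).le ⟨x, rfl⟩

lemma ph_d (n : ℕ) (x : (KK X).X (n + 1)) :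
    ph n (((KK X).d (n + 1) n).hom x) = sd (ph (n + 1) x) := by
  refine LinearMap.congr_fun (f := ph n ∘ₗ ((KK X).d (n + 1) n).hom) (g := sd ∘ₗ ph (n + 1))
    (ext' fun x => ?_) x
  have h := LinearMap.congr_fun
    (congrArg ModuleCat.Hom.hom ((SS X).ιChainComplex_d RR x)) (1 : F)
  have h' : ((KK X).d (n + 1) n).hom (bs x) =
      ∑ i : Fin (n + 2), (-1 : ℤ) ^ i.val • bs ((SS X).δ i x) := by
    refine h.trans ?_
    rw [ModuleCat.hom_sum, LinearMap.sum_apply]
    rfl
  rw [LinearMap.comp_apply, LinearMap.comp_apply, h', ph_bs, sd_sg, map_sum]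
  refine Finset.sum_congr rfl fun i _ => ?_
  have e : tm ((SS X).δ i x) = (tm x).comp (aff (stdSimplex.vertex ∘ i.succAbove)) :=
    ContinuousMap.ext fun t => by
      rw [ContinuousMap.comp_apply, JBetti.aff_eq]
      rfl
  rw [map_zsmul, ph_bs, e]

end KBetti

open KBetti in
theorem bettiS (X : Type) [TopologicalSpace X] (i : ℕ) :
    (betti F X i).toENat = hs (univ : Set X) ∅ (i + 1) := by
  have e : betti F X i = Module.rank F ((KK X).homology i) := rfl
  rw [e, ((KK X).homologyIsoSc' (i + 1) i (i - 1) (by simp)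
    (by cases i <;> simp)).toLinearEquiv.rank_eq, rank_sc]
  have h1 : (LinearMap.ker ((KK X).d i (i - 1)).hom).map (ph i) = Zs univ ∅ (i + 1) := by
    ext y
    rw [mem_Zr']
    constructor
    · rintro ⟨x, hx, rfl⟩
      refine ⟨ph_mem x, ?_⟩
      cases i with
      | zero => exact (Cs_zero (univ : Set X) ∅).le (sd_mem (ph_mem x))
      | succ i =>
        have hx' : ((KK X).d (i + 1) i).hom x = 0 := hx
        rw [← ph_d, hx', map_zero]
        exact zero_mem _
    · rintro ⟨h, h'⟩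
      rw [← ph_range] at h
      obtain ⟨x, rfl⟩ := h
      refine ⟨x, ?_, rfl⟩
      cases i with
      | zero =>
        have : (KK X).d 0 (0 - 1) = 0 := (KK X).shape _ _ (by simp)
        rw [this]
        rfl
      | succ i =>
        refine ph_inj i ?_
        rw [map_zero]
        exact (ph_d i x).trans (Cs_empty h')
  have h2 : (Bs (univ : Set X) ∅ (i + 1)).comap (ph i) =
      LinearMap.range ((KK X).d (i + 1) i).hom := by
    ext x
    rw [Submodule.mem_comap, mem_Br]
    constructor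
    · rintro ⟨b, h, h'⟩
      rw [← ph_range] at h
      obtain ⟨y, rfl⟩ := h
      exact ⟨-y, ph_inj i (by
        rw [map_neg, map_neg, ph_d]; exact (eq_neg_of_add_eq_zero_left (Cs_empty h')).symm)⟩
    · rintro ⟨y, rfl⟩
      refine ⟨_, neg_mem (ph_mem y), ?_⟩
      rw [ph_d, map_neg, add_neg_cancel]
      exact zero_mem _
  change rk (LinearMap.ker ((KK X).d i (i - 1)).hom) (LinearMap.range ((KK X).d (i + 1) i).hom) =
    rk (Zs univ ∅ (i + 1)) (Bs univ ∅ (i + 1))
  rw [← h1, rk_map, h2]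

end Pool.Agent.Lib.MP_837412_lc.K
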