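import Pool.Agent.Lib.MP_837412_lc.KSt

/-!
The Poisson bracket of the real and imaginary parts, and bounds for plane moves.
-/

namespace Pool.Agent.Lib.MP_837412_lc.K

open Set Function Filter Topology MvPolynomial

namespace KBr

variable {σ : Type} [Fintype σ]

/-- The complex point as a linear map. -/
noncomputable def zL (σ : Type) [Fintype σ] : Ph σ →L[ℝ] (σ → ℂ) :=
  LinearMap.toContinuousLinearMap
    { toFun := zz
      map_add' := fun p q => funext fun i => by
        simp only [zz, Prod.fst_add, Prod.snd_add, Pi.add_apply, Complex.ofReal_add]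
        ring
      map_smul' := fun c p => funext fun i => by
        simp only [zz, Prod.smul_fst, Prod.smul_snd, Pi.smul_apply, smul_eq_mul,
          Complex.ofReal_mul, RingHom.id_apply, Complex.real_smul]
        ring }

theorem zL_apply (p : Ph σ) : zL σ p = zz p := rfl

theorem lin_eq (L : ℂ →L[ℝ] ℂ) (z : ℂ) : L z = z.re • L 1 + z.im • L Complex.I := by
  rw [← map_smul, ← map_smul, ← map_add]
  congr 1
  simp

theorem jac_eq (L : ℂ →L[ℝ] ℂ) (a : ℂ) :
    (L a).re * (L (a * Complex.I)).im - (L (a * Complex.I)).re * (L a).im = jac L * ‖a‖ ^ 2 := by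
  rw [lin_eq L a, lin_eq L (a * Complex.I), Complex.sq_norm, Complex.normSq_apply, jac]
  simp only [Complex.add_re, Complex.add_im, Complex.smul_re, Complex.smul_im, smul_eq_mul,
    Complex.mul_re, Complex.mul_im, Complex.I_re, Complex.I_im]
  ring

theorem norm_zz (v : Ph σ) (i : σ) : ‖zz v i‖ ≤ 2 * ‖v‖ := by
  have h1 : ‖v.1 i‖ ≤ ‖v‖ := (norm_le_pi_norm v.1 i).trans (norm_fst_le v)
  have h2 : ‖v.2 i‖ ≤ ‖v‖ := (norm_le_pi_norm v.2 i).trans (norm_snd_le v)
  refine (norm_add_le _ _).trans ?_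
  rw [norm_mul, Complex.norm_I, mul_one, Complex.norm_real, Complex.norm_real]
  linarith

theorem dif_x [DecidableEq σ] (G : MvPolynomial σ ℂ) (z : σ → ℂ) (i : σ) :
    dif G z (zz (Pi.single i 1, 0)) = eval z (pderiv i G) := by
  rw [dif_apply, Finset.sum_eq_single i]
  · simp [zz]
  · intro j _ hj
    simp [zz, Pi.single_eq_of_ne hj]
  · exact fun h => absurd (Finset.mem_univ i) h

theorem dif_y [DecidableEq σ] (G : MvPolynomial σ ℂ) (z : σ → ℂ) (i : σ) :
    dif G z (zz (0, Pi.single i 1)) = eval z (pderiv i G) * Complex.I := by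
  rw [dif_apply, Finset.sum_eq_single i]
  · simp [zz]
  · intro j _ hj
    simp [zz, Pi.single_eq_of_ne hj]
  · exact fun h => absurd (Finset.mem_univ i) h

end KBr

open KBr in
theorem brS : BrS := by
  intro σ _ _ G ψ q hψ
  set L := fderiv ℝ ψ (eval (zz q) G) with hL
  let D : Ph σ →L[ℝ] ℂ := L.comp (((dif G (zz q)).restrictScalars ℝ).comp (zL σ))
  have hD : HasFDerivAt (fun q : Ph σ => ψ (eval (zz q) G)) D q :=
    hψ.hasFDerivAt.comp q
      (((hasStrictFDerivAt_eval G (zz q)).hasFDerivAt.restrictScalars ℝ).comp q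
        (zL σ).hasFDerivAt)
  have hv : ∀ v, D v = L (dif G (zz q) (zz v)) := fun v => rfl
  have hre : fderiv ℝ (fun q : Ph σ => (ψ (eval (zz q) G)).re) q = Complex.reCLM.comp D :=
    (Complex.reCLM.hasFDerivAt.comp q hD).fderiv
  have him : fderiv ℝ (fun q : Ph σ => (ψ (eval (zz q) G)).im) q = Complex.imCLM.comp D :=
    (Complex.imCLM.hasFDerivAt.comp q hD).fderiv
  refine ⟨?_, ?_⟩
  · rw [br, n2, Finset.mul_sum]
    refine Finset.sum_congr rfl fun i _ => ?_
    simp only [dx, dy, hre, him, ContinuousLinearMap.comp_apply, Complex.reCLM_apply,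
      Complex.imCLM_apply, hv, dif_x, dif_y]
    exact jac_eq L _
  · rw [hD.fderiv]
    refine ContinuousLinearMap.opNorm_le_bound _ (by positivity) fun v => ?_
    have h1 : ∀ i, ‖eval (zz q) (pderiv i G)‖ ≤ √(n2 G (zz q)) := fun i =>
      Real.le_sqrt_of_sq_le (Finset.single_le_sum
        (f := fun i => ‖eval (zz q) (pderiv i G)‖ ^ 2) (fun _ _ => sq_nonneg _)
        (Finset.mem_univ i))
    have h2 : ‖dif G (zz q) (zz v)‖ ≤ Fintype.card σ * (√(n2 G (zz q)) * (2 * ‖v‖)) := by
      rw [dif_apply]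
      refine (norm_sum_le _ _).trans ?_
      rw [← nsmul_eq_mul, ← Finset.card_univ]
      refine Finset.sum_le_card_nsmul _ _ _ fun i _ => ?_
      rw [norm_mul]
      exact mul_le_mul (h1 i) (norm_zz v i) (norm_nonneg _) (Real.sqrt_nonneg _)
    rw [hv]
    refine (L.le_opNorm _).trans ((mul_le_mul_of_nonneg_left h2 (norm_nonneg L)).trans_eq ?_)
    ring

theorem plB : PlB := by
  intro T _ _ ψ h
  obtain ⟨N, hN⟩ := h.out
  have hK : IsCompact ((univ : Set T) ×ˢ Metric.closedBall (0 : ℂ) N) :=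
    isCompact_univ.prod (isCompact_closedBall 0 N)
  obtain ⟨c₁, h1⟩ := hK.exists_bound_of_continuousOn (f := fun q : T × ℂ => ψ q.1 q.2 - q.2)
    (h.c0.sub continuous_snd).continuousOn
  obtain ⟨c₂, h2⟩ := hK.exists_bound_of_continuousOn h.c1.continuousOn
  have hj : Continuous fun q : T × ℂ => jac (fderiv ℝ (ψ q.1) q.2) := by
    have e1 := h.c1.clm_apply (continuous_const (y := (1 : ℂ)))
    have e2 := h.c1.clm_apply (continuous_const (y := Complex.I))
    exact ((Complex.continuous_re.comp e1).mul (Complex.continuous_im.comp e2)).sub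
      ((Complex.continuous_re.comp e2).mul (Complex.continuous_im.comp e1))
  obtain ⟨J, hJ, h3⟩ := hK.exists_forall_le' hj.continuousOn (a := 0) fun q _ => h.det q.1 q.2
  refine ⟨max 1 (max c₁ c₂), min 1 J, lt_max_of_lt_left one_pos, lt_min one_pos hJ,
    fun τ z => ?_⟩
  by_cases hz : ‖z‖ ≤ N
  · have hm : (τ, z) ∈ (univ : Set T) ×ˢ Metric.closedBall (0 : ℂ) N :=
      ⟨mem_univ _, mem_closedBall_zero_iff.2 hz⟩
    exact ⟨(h1 _ hm).trans (le_max_of_le_right (le_max_left _ _)),
      (h2 _ hm).trans (le_max_of_le_right (le_max_right _ _)), (min_le_right _ _).trans (h3 _ hm)⟩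
  · have he : ψ τ =ᶠ[𝓝 z] id :=
      ((isOpen_lt continuous_const continuous_norm).eventually_mem (not_le.1 hz)).mono
        fun y hy => hN τ y (le_of_lt hy)
    rw [he.fderiv_eq, fderiv_id, hN τ z (not_le.1 hz).le, sub_self, norm_zero]
    refine ⟨le_max_of_le_left zero_le_one,
      le_max_of_le_left ContinuousLinearMap.norm_id_le, (min_le_left _ _).trans_eq ?_⟩
    simp [jac]

end Pool.Agent.Lib.MP_837412_lc.K
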