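import Pool.Agent.Lib.MP_837412_lc.KSt

/-!
Almost critical points of the discrete action have values outside two windows.
-/

namespace Pool.Agent.Lib.MP_837412_lc.K

open Set Function Filter Topology

namespace KChord

variable {σ : Type} [Fintype σ] [DecidableEq σ] {C a B Y L T₀ : ℝ} {h : Ph σ → ℝ} {ρ : ℝ → ℝ}
  {N : ℕ} {q : Pa σ N}

lemma sl_pos (hC : 0 < C) (ha : 0 < a) (u : ℝ) : 0 < sl C a u := by unfold sl; positivity

lemma sl_le (hC : 0 < C) (ha : 0 < a) (u : ℝ) : sl C a u ≤ C / a :=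
  div_le_self (by positivity) (by nlinarith [sq_nonneg (u / a)])

lemma le_abs_of_sl (ha : 0 < a) (hT : 0 < T₀) (h1 : 2 * a * T₀ ≤ C) {u : ℝ}
    (h2 : sl C a u ≤ T₀) : a ≤ |u| := by
  rw [sl, div_le_iff₀ (by positivity), div_le_iff₀ ha] at h2
  have e : 1 ≤ (u / a) ^ 2 := by
    by_contra k
    nlinarith [mul_pos hT ha]
  rw [div_pow, le_div_iff₀ (by positivity), one_mul] at e
  exact (abs_of_pos ha).symm.trans_le (sq_le_sq.1 e)

lemma hasD (C a u : ℝ) : HasDerivAt (fun u => C * Real.arctan (u / a)) (sl C a u) u := by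
  have := (((hasDerivAt_id' u).div_const a).arctan).const_mul C
  exact this.congr_deriv (by unfold sl; ring)

lemma norm_e (i : σ) : ‖(Pi.single i 1 : σ → ℝ)‖ = 1 := by rw [Pi.norm_single, norm_one]

lemma abs_dx {p : Ph σ} (hB : ‖fderiv ℝ h p‖ ≤ B) (i : σ) : |dx h p i| ≤ B :=
  ((fderiv ℝ h p).unit_le_opNorm _ (by simp [Prod.norm_def, norm_e])).trans hB

lemma abs_dy {p : Ph σ} (hB : ‖fderiv ℝ h p‖ ≤ B) (i : σ) : |dy h p i| ≤ B :=
  ((fderiv ℝ h p).unit_le_opNorm _ (by simp [Prod.norm_def, norm_e])).trans hB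

omit [DecidableEq σ] in
lemma hasF (hd : Differentiable ℝ h) (C a : ℝ) (p : Ph σ) :
    HasFDerivAt (fun p => C * Real.arctan (h p / a)) (sl C a (h p) • fderiv ℝ h p) p :=
  (hasD C a (h p)).comp_hasFDerivAt p (hd p).hasFDerivAt

omit [DecidableEq σ] in
lemma contDiff_Kh (hd : ContDiff ℝ 2 h) (hρ : ContDiff ℝ 2 ρ) (C a : ℝ) :
    ContDiff ℝ 2 (Kh C a ρ h) :=
  contDiff_const.mul (Real.contDiff_arctan.comp ((hd.comp (contDiff_fst.prodMk
    (contDiff_pi.2 fun i => hρ.comp ((contDiff_apply ℝ ℝ i).comp contDiff_snd)))).div_const a))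

lemma dx_Kh (hd : Differentiable ℝ h) (hρ : Differentiable ℝ ρ) (p : Ph σ) (i : σ) :
    dx (Kh C a ρ h) p i =
      sl C a (h (p.1, fun i => ρ (p.2 i))) * dx h (p.1, fun i => ρ (p.2 i)) i := by
  have d : DifferentiableAt ℝ (fun y : σ → ℝ => fun i => ρ (y i)) p.2 := by fun_prop
  have e := (hasF hd C a (p.1, fun i => ρ (p.2 i))).comp p
    ((hasFDerivAt_fst (𝕜 := ℝ) (p := p)).prodMk (d.hasFDerivAt.comp p hasFDerivAt_snd))
  refine (congrArg (· (Pi.single i 1, 0)) e.fderiv).trans ?_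
  simp [dx]

lemma abs_dx_Kh (hC : 0 < C) (ha : 0 < a) (hd : Differentiable ℝ h) (hρ : Differentiable ℝ ρ)
    (hB : ∀ p, ‖fderiv ℝ h p‖ ≤ B) (p : Ph σ) (i : σ) : |dx (Kh C a ρ h) p i| ≤ C / a * B := by
  rw [dx_Kh hd hρ, abs_mul, abs_of_pos (sl_pos hC ha _)]
  exact mul_le_mul (sl_le hC ha _) (abs_dx (hB _) i) (abs_nonneg _) (by positivity)

omit [DecidableEq σ] [Fintype σ] in
lemma Kh_eq (hρ : ∀ s, |s| ≤ Y → ρ s = s) {p : Ph σ} (hp : ∀ i, |p.2 i| < Y) :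
    Kh C a ρ h p = C * Real.arctan (h p / a) := by
  rw [Kh, show (fun i => ρ (p.2 i)) = p.2 from funext fun i => hρ _ (hp i).le]

omit [DecidableEq σ] in
lemma fderiv_Kh (hd : Differentiable ℝ h) (hρ : ∀ s, |s| ≤ Y → ρ s = s) {p : Ph σ}
    (hp : ∀ i, |p.2 i| < Y) : fderiv ℝ (Kh C a ρ h) p = sl C a (h p) • fderiv ℝ h p := by
  have e : ∀ᶠ p' : Ph σ in 𝓝 p, ∀ i, |p'.2 i| < Y := eventually_all.2 fun i =>
    (isOpen_lt (f := fun p' : Ph σ => |p'.2 i|) (by fun_prop) continuous_const).mem_nhds (hp i)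
  rw [← (hasF hd C a p).fderiv]
  exact EventuallyEq.fderiv_eq (e.mono fun _ => Kh_eq hρ)

lemma avg_le (hN : 0 < N) (hL : 0 ≤ L) (s : Finset (Fin N)) {f : Fin N → ℝ}
    (hf : ∀ l, |f l| ≤ L) : |(N : ℝ)⁻¹ * ∑ l ∈ s, f l| ≤ L := by
  have n : (0 : ℝ) < N := Nat.cast_pos.2 hN
  have c : (s.card : ℝ) ≤ N := by exact_mod_cast s.card_le_univ.trans (Fintype.card_fin N).le
  rw [abs_mul, abs_of_pos (inv_pos.2 n), inv_mul_le_iff₀ n]
  refine (Finset.abs_sum_le_sum_abs _ _).trans ((Finset.sum_le_card_nsmul _ _ L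
    fun l _ => hf l).trans ?_)
  rw [nsmul_eq_mul]
  exact mul_le_mul_of_nonneg_right c hL

lemma abs_le_of {x y η L : ℝ} (h1 : |x + y| ≤ η) (h2 : |y| ≤ L) : |x| ≤ η + L := by
  rw [abs_le] at *
  constructor <;> linarith [h1.1, h1.2, h2.1, h2.2]

/-- The points of a path as a sequence. -/
noncomputable def sq (q : Pa σ N) (j : ℕ) : Ph σ := if h : j < N then pt q ⟨j, h⟩ else 0

omit [DecidableEq σ] [Fintype σ] in
lemma sq_eq (q : Pa σ N) {j : ℕ} (hj : j < N) : sq q j = pt q ⟨j, hj⟩ := dif_pos hj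

/-- One step of an approximate chord. -/
lemma step {K : Ph σ → ℝ} {η : ℝ} (h0 : 0 ≤ η) (ch : Chord K η q) {j : ℕ} (hj : j + 1 < N) :
    ‖sq q (j + 1) - sq q j - (N : ℝ)⁻¹ • (-dy K (sq q (j + 1)), dx K (sq q j))‖ ≤ 2 * η := by
  have hj' : j < N := by omega
  have e1 : Finset.Iic (⟨j + 1, hj⟩ : Fin N) = insert ⟨j + 1, hj⟩ (Finset.Iic ⟨j, hj'⟩) := by
    ext l; simp only [Finset.mem_Iic, Finset.mem_insert, Fin.le_def, Fin.ext_iff]; omega
  have e2 : Finset.Ici (⟨j, hj'⟩ : Fin N) = insert ⟨j, hj'⟩ (Finset.Ici ⟨j + 1, hj⟩) := by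
    ext l; simp only [Finset.mem_Ici, Finset.mem_insert, Fin.le_def, Fin.ext_iff]; omega
  rw [sq_eq q hj, sq_eq q hj', norm_prod_le_iff, pi_norm_le_iff_of_nonneg (by positivity),
    pi_norm_le_iff_of_nonneg (by positivity)]
  refine ⟨fun i => ?_, fun i => ?_⟩
  · have := ch.v ⟨j + 1, hj⟩ i
    rw [Real.norm_eq_abs]
    refine le_trans (le_of_eq (congrArg abs ?_)) (this.trans (by linarith))
    simp only [Prod.fst_sub, Prod.smul_fst, Pi.sub_apply, Pi.smul_apply, Pi.neg_apply, smul_eq_mul]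
    change q.1 i + ∑ l ∈ Finset.Iic (⟨j + 1, hj⟩ : Fin N), q.2.1 (l, i) -
      (q.1 i + ∑ l ∈ Finset.Iic (⟨j, hj'⟩ : Fin N), q.2.1 (l, i)) - _ = _
    rw [e1, Finset.sum_insert (by simp [Fin.le_def])]
    ring
  · have a1 := ch.y ⟨j + 1, hj⟩ i
    have a2 := ch.y ⟨j, hj'⟩ i
    rw [e2, Finset.sum_insert (by simp), mul_add] at a2
    rw [Real.norm_eq_abs]
    simp only [Prod.snd_sub, Prod.smul_snd, Pi.sub_apply, Pi.smul_apply, smul_eq_mul]
    change |q.2.2 (⟨j + 1, hj⟩, i) - q.2.2 (⟨j, hj'⟩, i) - _| ≤ _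
    rw [abs_le] at *
    constructor <;> linarith [a1.1, a1.2, a2.1, a2.2]

/-- A sequence that stays away from zero and makes small steps keeps its sign. -/
lemma sign {u : ℕ → ℝ} (h1 : ∀ j < N, a ≤ |u j|) (h2 : ∀ j, j + 1 < N → |u (j + 1) - u j| < 2 * a) :
    (∀ j < N, a ≤ u j) ∨ ∀ j < N, u j ≤ -a := by
  have key : ∀ u : ℕ → ℝ, (∀ j < N, a ≤ |u j|) → (∀ j, j + 1 < N → |u (j + 1) - u j| < 2 * a) →
      a ≤ u 0 → ∀ j < N, a ≤ u j := fun u h1 h2 h0 j => by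
    induction j with
    | zero => exact fun _ => h0
    | succ j ih =>
      intro hj
      have b := ih (by omega)
      have c := (abs_lt.1 (h2 j hj)).1
      rcases le_abs.1 (h1 _ hj) with d | d <;> linarith
  rcases N.eq_zero_or_pos with rfl | hN
  · simp
  rcases le_abs.1 (h1 0 hN) with d | d
  · exact Or.inl (key u h1 h2 d)
  · exact Or.inr fun j hj => le_neg.1 (key (fun j => -u j) (by simpa using h1)
      (fun j hj => by rw [neg_sub_neg, abs_sub_comm]; exact h2 j hj) d j hj)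

lemma atan_ge (ha : 0 < a) {u : ℝ} (hu : a ≤ u) : 3 / 4 ≤ Real.arctan (u / a) := by
  have := Real.arctan_mono ((one_le_div ha).2 hu)
  rw [Real.arctan_one] at this
  linarith [Real.pi_gt_three]

lemma avg_ge (hN : 0 < N) {f : Fin N → ℝ} (hf : ∀ l, L ≤ f l) : L ≤ (N : ℝ)⁻¹ * ∑ l, f l := by
  have n : (0 : ℝ) < N := Nat.cast_pos.2 hN
  rw [le_inv_mul_iff₀ n]
  simpa using Finset.card_nsmul_le_sum Finset.univ f L fun l _ => hf l

/-- The estimate for one path. -/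
lemma core (hC : 0 < C) (ha : 0 < a) (hB0 : 0 < B) (hT : 1 ≤ T₀) (hd : Differentiable ℝ h)
    (hB : ∀ p, ‖fderiv ℝ h p‖ ≤ B) (hρ : Differentiable ℝ ρ)
    (hρ' : ∀ s, |s| ≤ C / a * B + 2 → ρ s = s) (h1 : 2 * a * T₀ ≤ C) (n1 : C / a * B + 2 ≤ N)
    (n2 : B * (T₀ * B + 2) < 2 * a * N) (ch : Chord (Kh C a ρ h) (1 / (N : ℝ) ^ 2) q)
    (hs : ∀ p : ℕ → Ph σ, (∀ j < N, ‖(p j).2‖ ≤ C / a * B + 2) → ‖(p 0).2‖ ≤ 1 →
      ‖(p (N - 1)).2‖ ≤ 1 → (∀ j, j + 1 < N → ‖p (j + 1) - p j - (N : ℝ)⁻¹ •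
        (-sl C a (h (p (j + 1))) • dy h (p (j + 1)), sl C a (h (p j)) • dx h (p j))‖ ≤
          2 / (N : ℝ) ^ 2) → ∀ j < N, sl C a (h (p j)) ≤ T₀) :
    |∑ b, q.2.2 b * q.2.1 b| ≤ Fintype.card σ * (T₀ * B + 1) ^ 2 ∧
    3 / 4 * C ≤ |(N : ℝ)⁻¹ * ∑ j, Kh C a ρ h (pt q j)| ∧
    -(2 * C) ≤ (N : ℝ)⁻¹ * ∑ j, Kh C a ρ h (pt q j) := by
  have L0 : 0 < C / a * B := by positivity
  have N2 : (2 : ℝ) ≤ N := by linarith
  have N0 : (0 : ℝ) < N := by linarith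
  have hN : 0 < N := Nat.cast_pos.1 N0
  have i0 : (0 : ℝ) < (N : ℝ)⁻¹ := inv_pos.2 N0
  have i1 : (N : ℝ)⁻¹ * N = 1 := inv_mul_cancel₀ N0.ne'
  have i2 : (N : ℝ)⁻¹ ≤ 1 / 2 := by nlinarith
  have η : 1 / (N : ℝ) ^ 2 = (N : ℝ)⁻¹ * (N : ℝ)⁻¹ := by field_simp
  have η1 : 1 / (N : ℝ) ^ 2 ≤ (N : ℝ)⁻¹ := by rw [η]; nlinarith
  have bx := abs_dx_Kh hC ha hd hρ hB
  have y1 : ∀ j i, |(pt q j).2 i| < C / a * B + 2 := fun j i =>
    (abs_le_of (ch.y j i) (avg_le hN L0.le _ fun l => bx _ i)).trans_lt (by linarith)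
  have fx : ∀ j, dx (Kh C a ρ h) (pt q j) = sl C a (h (pt q j)) • dx h (pt q j) := fun j => by
    ext i; simp [dx, fderiv_Kh hd hρ' (y1 j)]
  have fy : ∀ j, dy (Kh C a ρ h) (pt q j) = sl C a (h (pt q j)) • dy h (pt q j) := fun j => by
    ext i; simp [dy, fderiv_Kh hd hρ' (y1 j)]
  have st : ∀ j, j + 1 < N → ‖sq q (j + 1) - sq q j - (N : ℝ)⁻¹ •
      (-sl C a (h (sq q (j + 1))) • dy h (sq q (j + 1)), sl C a (h (sq q j)) • dx h (sq q j))‖ ≤
        2 / (N : ℝ) ^ 2 := fun j hj => by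
    have := step (by positivity) ch hj
    rw [sq_eq q hj, sq_eq q (by omega : j < N)] at this ⊢
    rwa [fx, fy, ← neg_smul, mul_one_div] at this
  have s0 : ∀ j < N, sl C a (h (sq q j)) ≤ T₀ := by
    refine hs (sq q) (fun j hj => ?_) ?_ ?_ st
    · rw [sq_eq q hj, pi_norm_le_iff_of_nonneg (by positivity)]
      exact fun i => (y1 _ i).le
    · rw [sq_eq q hN, pi_norm_le_iff_of_nonneg zero_le_one]
      intro i
      have := ch.y ⟨0, hN⟩ i
      rw [show Finset.Ici (⟨0, hN⟩ : Fin N) = Finset.univ by ext l; simp [Fin.le_def]] at this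
      exact (abs_le_of this (ch.x i)).trans (by linarith)
    · rw [sq_eq q (by omega : N - 1 < N), pi_norm_le_iff_of_nonneg zero_le_one]
      intro i
      have := ch.y ⟨N - 1, by omega⟩ i
      rw [show Finset.Ici (⟨N - 1, by omega⟩ : Fin N) = {⟨N - 1, by omega⟩} by
        ext l; simp only [Finset.mem_Ici, Finset.mem_singleton, Fin.le_def, Fin.ext_iff]; omega,
        Finset.sum_singleton] at this
      refine (abs_le_of (L := (N : ℝ)⁻¹ * (C / a * B)) this ?_).trans (by nlinarith)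
      rw [abs_mul, abs_of_pos i0]
      exact mul_le_mul_of_nonneg_left (bx _ i) i0.le
  have s1 : ∀ j, sl C a (h (pt q j)) ≤ T₀ := fun j => sq_eq q j.2 ▸ s0 j j.2
  have TB : 0 < T₀ * B := by positivity
  have bd : ∀ j {x : ℝ}, |x| ≤ B → |sl C a (h (pt q j)) * x| ≤ T₀ * B := fun j x hx => by
    rw [abs_mul, abs_of_pos (sl_pos hC ha _)]
    exact mul_le_mul (s1 j) hx (abs_nonneg _) (by linarith)
  have cx : ∀ j i, |dx (Kh C a ρ h) (pt q j) i| ≤ T₀ * B := fun j i => by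
    rw [fx]; exact bd j (abs_dx (hB _) i)
  have cy : ∀ j i, |dy (Kh C a ρ h) (pt q j) i| ≤ T₀ * B := fun j i => by
    rw [fy]; exact bd j (abs_dy (hB _) i)
  have y2 : ∀ b, |q.2.2 b| ≤ T₀ * B + 1 := fun b =>
    (abs_le_of (ch.y b.1 b.2) (avg_le hN TB.le _ fun l => cx _ _)).trans (by linarith)
  have v2 : ∀ b, |q.2.1 b| ≤ (N : ℝ)⁻¹ * (T₀ * B + 1) := fun b => by
    refine (abs_le_of (L := (N : ℝ)⁻¹ * (T₀ * B)) (ch.v b.1 b.2) ?_).trans (by linarith)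
    rw [abs_mul, abs_of_pos i0]
    exact mul_le_mul_of_nonneg_left (cy _ _) i0.le
  have kv : ∀ j, Kh C a ρ h (pt q j) = C * Real.arctan (h (pt q j) / a) := fun j =>
    Kh_eq hρ' (y1 j)
  refine ⟨?_, ?_, avg_ge hN fun j => ?_⟩
  · refine (Finset.abs_sum_le_sum_abs _ _).trans ((Finset.sum_le_card_nsmul _ _
      ((T₀ * B + 1) * ((N : ℝ)⁻¹ * (T₀ * B + 1))) fun b _ => ?_).trans (le_of_eq ?_))
    · rw [abs_mul]
      exact mul_le_mul (y2 b) (v2 b) (abs_nonneg _) (by positivity)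
    · simp only [Finset.card_univ, Fintype.card_prod, Fintype.card_fin, nsmul_eq_mul, Nat.cast_mul]
      field_simp
  · have := sign (N := N) (a := a) (u := fun j => h (sq q j))
      (fun j hj => le_abs_of_sl ha (by linarith) h1 (s0 j hj)) fun j hj => by
        have b := convex_univ.norm_image_sub_le_of_norm_fderiv_le (fun p _ => hd p)
          (fun p _ => hB p) (mem_univ (sq q j)) (mem_univ (sq q (j + 1)))
        have c := step (by positivity) ch hj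
        have d : ‖(N : ℝ)⁻¹ • (-dy (Kh C a ρ h) (sq q (j + 1)), dx (Kh C a ρ h) (sq q j))‖ ≤
            (N : ℝ)⁻¹ * (T₀ * B) := by
          rw [norm_smul, Real.norm_of_nonneg i0.le, sq_eq q hj, sq_eq q (by omega : j < N)]
          refine mul_le_mul_of_nonneg_left (norm_prod_le_iff.2 ⟨?_, ?_⟩) i0.le
          · rw [norm_neg, pi_norm_le_iff_of_nonneg TB.le]; exact cy _
          · rw [pi_norm_le_iff_of_nonneg TB.le]; exact cx _
        have e := (norm_le_norm_sub_add (sq q (j + 1) - sq q j) _).trans (add_le_add c d)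
        refine (b.trans (mul_le_mul_of_nonneg_left (e.trans
          (by linarith : _ ≤ (N : ℝ)⁻¹ * (T₀ * B + 2))) hB0.le)).trans_lt ?_
        rw [mul_left_comm, inv_mul_lt_iff₀ N0]
        linarith
    rcases this with e | e
    · refine le_abs.2 (Or.inl (avg_ge hN fun j => ?_))
      have := atan_ge ha (sq_eq q j.2 ▸ e j j.2)
      rw [kv]
      nlinarith
    · refine le_abs.2 (Or.inr ?_)
      rw [← mul_neg, ← Finset.sum_neg_distrib]
      refine avg_ge hN fun j => ?_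
      have := atan_ge ha (le_neg.1 (sq_eq q j.2 ▸ e j j.2))
      rw [neg_div, Real.arctan_neg] at this
      rw [kv]
      nlinarith
  · rw [kv]
    nlinarith [Real.neg_pi_div_two_lt_arctan (h (pt q j) / a), Real.pi_lt_four]

end KChord

open KChord

theorem chordS (h1 : CritK) (h2 : SlopeS) : ChordS := by
  intro σ T _ _ _ _ h g ε κ B tm
  obtain ⟨T₀, t1, hT⟩ := h2 σ T h g ε κ B tm
  have e0 := tm.ε0
  have B0 := tm.B0
  obtain ⟨M₀, hM⟩ : ∃ M₀ : ℝ, M₀ = Fintype.card σ * (T₀ * B + 1) ^ 2 := ⟨_, rfl⟩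
  have M0 : 0 ≤ M₀ := by rw [hM]; positivity
  obtain ⟨C, hC⟩ : ∃ C : ℝ, C = 2 * (M₀ + 1) := ⟨_, rfl⟩
  have C0 : 0 < C := by rw [hC]; positivity
  obtain ⟨a, a0, a1, a2, a3⟩ : ∃ a : ℝ, 0 < a ∧ 4 * C * a ≤ ε ^ 2 ∧ 4 * C * a ≤ ε ∧
      2 * a * T₀ ≤ C := by
    refine ⟨min (min (ε ^ 2 / (4 * C)) (ε / (4 * C))) (C / (2 * T₀)), by positivity, ?_, ?_, ?_⟩
    · rw [mul_comm, ← le_div_iff₀ (by positivity)]
      exact (min_le_left _ _).trans (min_le_left _ _)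
    · rw [mul_comm, ← le_div_iff₀ (by positivity)]
      exact (min_le_left _ _).trans (min_le_right _ _)
    · rw [mul_right_comm, mul_comm, ← le_div_iff₀ (by positivity)]
      exact min_le_right _ _
  refine ⟨C, a, 2 * C + M₀ + 1, C / a * B + 2, C0, a0, a2, by linarith, by positivity,
    fun ρ hρ hρ' => ?_⟩
  obtain ⟨N₀, hN⟩ := hT C a (C / a * B + 2) C0 a0 a1
  obtain ⟨N, n⟩ := exists_nat_gt (max (N₀ : ℝ) (max (C / a * B + 2) (B * (T₀ * B + 2) / (2 * a))))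
  simp only [max_lt_iff] at n
  obtain ⟨n0, n1, n2⟩ := n
  have : 0 < C / a * B := by positivity
  refine ⟨N, Nat.cast_pos.1 (by linarith : (0 : ℝ) < N), fun τ q hq => ?_⟩
  obtain ⟨c1, c2, c3⟩ := core C0 a0 B0 t1 ((tm.sm τ).differentiable two_ne_zero) (tm.bd τ)
    (hρ.differentiable two_ne_zero) hρ' a3 n1.le
    (by rwa [div_lt_iff₀ (by positivity), mul_comm (N : ℝ)] at n2)
    ((h1 σ N _ (contDiff_Kh (tm.sm τ) hρ C a)).2 q _ hq) (hN N (Nat.cast_lt.1 n0).le τ)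
  rw [← hM, abs_le] at c1
  rw [act]
  refine ⟨?_, by linarith [c1.1]⟩
  rcases le_abs.1 c2 with d | d
  · exact lt_abs.2 (Or.inl (by linarith [c1.1]))
  · exact lt_abs.2 (Or.inr (by linarith [c1.2]))

end Pool.Agent.Lib.MP_837412_lc.K
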