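import Pool.Agent.Lib.MP_837412_lc.KSt

/-!
Almost critical points of the discrete action, and the deformation to the real locus.
-/

namespace Pool.Agent.Lib.MP_837412_lc.K

open Set Function MvPolynomial
open Pool.Agent.Shared.Mod2 (I)

namespace KCrit

variable {σ : Type} [Fintype σ] [DecidableEq σ] {N : ℕ}

/-- The points of a path depend linearly on the path. -/
noncomputable def ptL (j : Fin N) : Pa σ N →L[ℝ] Ph σ :=
  LinearMap.toContinuousLinearMap
    { toFun := fun q => pt q j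
      map_add' := fun q q' => by
        ext i <;> simp [pt, Finset.sum_add_distrib]
        ring
      map_smul' := fun c q => by ext i <;> simp [pt, Finset.mul_sum, mul_add] }

omit [DecidableEq σ] in
lemma fd {K : Ph σ → ℝ} (hK : Differentiable ℝ K) (q w : Pa σ N) :
    fderiv ℝ (act N K) q w = ∑ a, (q.2.2 a * w.2.1 a + q.2.1 a * w.2.2 a) +
      (N : ℝ)⁻¹ * ∑ j, fderiv ℝ K (pt q j) (pt w j) := by
  let c1 : Fin N × σ → Pa σ N →L[ℝ] ℝ := fun a => ContinuousLinearMap.proj a ∘L
    ContinuousLinearMap.fst ℝ _ _ ∘L ContinuousLinearMap.snd ℝ _ _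
  let c2 : Fin N × σ → Pa σ N →L[ℝ] ℝ := fun a => ContinuousLinearMap.proj a ∘L
    ContinuousLinearMap.snd ℝ _ _ ∘L ContinuousLinearMap.snd ℝ _ _
  have h := (HasFDerivAt.fun_sum (u := Finset.univ) fun a _ =>
    (c2 a).hasFDerivAt.mul (c1 a).hasFDerivAt (x := q)).add
    ((HasFDerivAt.fun_sum (u := Finset.univ) fun j _ =>
      (hK (ptL j q)).hasFDerivAt.comp q (ptL j).hasFDerivAt).const_mul (N : ℝ)⁻¹)
  refine (congrArg (· w) h.fderiv).trans ?_
  simp [c1, c2, ptL]

omit [DecidableEq σ] in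
lemma parts (f : MvPolynomial σ ℝ) : ∃ U G : ℝ × Ph σ → ℝ, ContDiff ℝ 2 U ∧ ContDiff ℝ 2 G ∧
    ∀ (r : ℝ) (p : Ph σ), eval (zz (p.1, r • p.2)) (cx' f) =
      U (r, p) + (r * G (r, p) : ℝ) * Complex.I := by
  induction f using MvPolynomial.induction_on with
  | C a => exact ⟨fun _ => a, fun _ => 0, contDiff_const, contDiff_const, by simp⟩
  | add p q a b =>
    obtain ⟨U, G, h1, h2, h3⟩ := a
    obtain ⟨U', G', h4, h5, h6⟩ := b
    refine ⟨fun z => U z + U' z, fun z => G z + G' z, h1.add h4, h2.add h5, fun r z => ?_⟩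
    rw [cx', map_add, map_add, h3, h6]
    push_cast
    ring
  | mul_X p n a =>
    obtain ⟨U, G, h1, h2, h3⟩ := a
    refine ⟨fun z => U z * z.2.1 n - z.1 ^ 2 * G z * z.2.2 n,
      fun z => U z * z.2.2 n + G z * z.2.1 n, by fun_prop, by fun_prop, fun r z => ?_⟩
    rw [cx', map_mul, map_mul, h3, map_X, eval_X]
    simp only [zz, Pi.smul_apply, smul_eq_mul]
    push_cast
    linear_combination (r ^ 2 * G (r, z) * z.2 n : ℂ) * Complex.I_sq

/-- Scaling of the second group of variables. -/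
noncomputable def sc (r : ℝ) : Ph σ →L[ℝ] Ph σ :=
  (ContinuousLinearMap.fst ℝ _ _).prod (r • ContinuousLinearMap.snd ℝ _ _)

omit [DecidableEq σ] in
lemma fd_sc {h : Ph σ → ℝ} (hh : Differentiable ℝ h) (r : ℝ) (p : Ph σ) :
    fderiv ℝ (fun p : Ph σ => h (p.1, r • p.2)) p = fderiv ℝ h (p.1, r • p.2) ∘L sc r :=
  ((hh (sc r p)).hasFDerivAt.comp p (sc r).hasFDerivAt).fderiv

omit [DecidableEq σ] in
lemma cont_fd {F : ℝ × Ph σ → ℝ} (hF : ContDiff ℝ 2 F) :
    Continuous fun q : ℝ × Ph σ => fderiv ℝ (fun p => F (q.1, p)) q.2 :=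
  Continuous.fderiv (n := 2) (f := fun (q : ℝ × Ph σ) p => F (q.1, p))
    (hF.comp (f := fun z : (ℝ × Ph σ) × Ph σ => (z.1.1, z.2)) (by fun_prop)) continuous_snd
    (by simp)

omit [DecidableEq σ] in
lemma nrm (r : I) (y : σ → ℝ) : ‖(r : ℝ) • y‖ ≤ ‖y‖ := by
  rw [norm_smul, Real.norm_of_nonneg r.2.1]
  exact mul_le_of_le_one_left (norm_nonneg _) r.2.2

end KCrit

open KCrit in
theorem critK : CritK := by
  intro σ _ _ N K hK
  refine ⟨?_, fun q η h => ?_⟩
  · exact (ContDiff.sum fun a _ => by fun_prop).add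
      (contDiff_const.mul (ContDiff.sum fun j _ => hK.comp_continuousLinearMap (g := ptL j)))
  have key : ∀ w : Pa σ N, ‖w‖ ≤ 1 → |∑ a, (q.2.2 a * w.2.1 a + q.2.1 a * w.2.2 a) +
      (N : ℝ)⁻¹ * ∑ j, fderiv ℝ K (pt q j) (pt w j)| ≤ η := fun w hw => by
    rw [← fd (hK.differentiable two_ne_zero), ← Real.norm_eq_abs]
    exact ((fderiv ℝ (act N K) q).unit_le_opNorm w hw).trans h
  refine ⟨fun j i => ?_, fun j i => ?_, fun i => ?_⟩
  · have e : ∀ l, pt ((0, 0, Pi.single (j, i) 1) : Pa σ N) l =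
        if l = j then (0, Pi.single i 1) else 0 := fun l => by
      split_ifs with hl <;> ext k <;> simp [pt, Pi.single_apply, hl]
    simpa [e, apply_ite, Pi.single_apply, dy] using key (0, 0, Pi.single (j, i) 1)
      (by simp [Prod.norm_def, Pi.norm_single])
  · have e : ∀ l, pt ((0, Pi.single (j, i) 1, 0) : Pa σ N) l =
        if l ∈ Finset.Ici j then (Pi.single i 1, 0) else 0 := fun l => by
      have e' : ∀ k, ∑ l' ∈ Finset.Iic l, (Pi.single (j, i) 1 : Fin N × σ → ℝ) (l', k) =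
          if j ≤ l ∧ k = i then 1 else 0 := fun k => by
        simp only [Pi.single_apply, Prod.mk.injEq, ite_and, Finset.sum_ite_eq', Finset.mem_Iic]
      split_ifs with hl <;> ext k <;> rw [Finset.mem_Ici] at hl <;>
        simp only [pt, e'] <;> simp [hl, Pi.single_apply]
    have := key (0, Pi.single (j, i) 1, 0) (by simp [Prod.norm_def, Pi.norm_single])
    simp only [e, apply_ite (fderiv ℝ K _), map_zero, Finset.sum_ite_mem, Finset.univ_inter] at this
    simpa [Pi.single_apply, dx] using this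
  · have e : ∀ l, pt ((Pi.single i 1, 0, 0) : Pa σ N) l = (Pi.single i 1, 0) := fun l => by
      ext k <;> simp [pt]
    simpa [e, dx] using key (Pi.single i 1, 0, 0) (by simp [Prod.norm_def, Pi.norm_single])

open KCrit in
theorem legS : LegS := by
  intro σ T _ _ _ h g ε κ B τ f H hg
  obtain ⟨U, G, -, hG, e⟩ := parts f
  have hh := (H.sm τ).differentiable two_ne_zero
  have hs : ContDiff ℝ 2 fun z : ℝ × Ph σ => h τ (z.2.1, z.1 • z.2.2) :=
    (H.sm τ).comp (by fun_prop)
  have dG : ∀ r : ℝ, Differentiable ℝ fun p => G (r, p) := fun r =>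
    (hG.differentiable two_ne_zero).comp (by fun_prop)
  have cI : Continuous fun q : I × Ph σ => ((q.1, q.2) : ℝ × Ph σ) := by fun_prop
  have e1 : ∀ (r : ℝ) (p w : Ph σ), fderiv ℝ (g τ) (p.1, r • p.2) (w.1, r • w.2) =
      r * fderiv ℝ (fun p => G (r, p)) p w := fun r p w => by
    have a := fd_sc (H.dg τ) r p
    have b : (fun p : Ph σ => g τ (p.1, r • p.2)) = fun p => r * G (r, p) :=
      funext fun p => by rw [hg, e]; simp
    rw [b, ((dG r p).hasFDerivAt.const_mul r).fderiv] at a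
    exact (congrArg (· w) a).symm
  have e2 : ∀ (p : Ph σ) i (r : ℝ),
      dy (fun p => G (r, p)) p i = dy (g τ) (p.1, r • p.2) i := fun p i => by
    refine congrFun (Continuous.ext_on (dense_compl_singleton (0 : ℝ)) ?_ ?_ fun r hr => ?_)
    · exact ((cont_fd hG).comp (continuous_id.prodMk continuous_const)).clm_apply continuous_const
    · exact (H.c1g.comp (f := fun r : ℝ => (τ, (p.1, r • p.2))) (by fun_prop)).clm_apply
        continuous_const
    · have a := e1 r p (0, Pi.single i 1)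
      rw [show (((0 : σ → ℝ), r • Pi.single i 1) : Ph σ) = r • (0, Pi.single i 1) by simp,
        map_smul] at a
      exact (mul_left_cancel₀ hr a).symm
  refine ⟨fun r p => G (r, p), H.ε0, H.κ0, H.B0, fun r => (H.sm τ).comp (by fun_prop),
    fun r => dG r, hs.continuous.comp cI, hG.continuous.comp cI, (cont_fd hs).comp cI,
    (cont_fd hG).comp cI, fun r p => ?_, fun r p hp => (H.pos τ _ hp).trans_eq ?_, fun Y => ?_⟩
  · rw [fd_sc hh]
    refine ContinuousLinearMap.opNorm_le_bound _ H.B0.le fun w => ?_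
    exact ((fderiv ℝ (h τ) _).le_opNorm _).trans (mul_le_mul (H.bd τ _)
      (max_le_max le_rfl (nrm r w.2)) (norm_nonneg _) H.B0.le)
  · refine Finset.sum_congr rfl fun i _ => ?_
    have a := e1 r p (Pi.single i 1, 0)
    have b : sc (r : ℝ) ((0, Pi.single i 1) : Ph σ) = (r : ℝ) • (0, Pi.single i 1) := by simp [sc]
    have c : sc (r : ℝ) ((Pi.single i 1, 0) : Ph σ) = (Pi.single i 1, 0) := by simp [sc]
    rw [smul_zero] at a
    rw [e2]
    simp only [dx, dy, fd_sc hh, ContinuousLinearMap.comp_apply, a, b, c, map_smul, smul_eq_mul]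
    ring
  · obtain ⟨R, hR⟩ := H.far Y
    exact ⟨R, fun r p h1 h2 => hR τ _ ((nrm r p.2).trans h1) h2⟩

end Pool.Agent.Lib.MP_837412_lc.K
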