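import Pool.Agent.Shared.Mod2Sing

/-!
Chains with coefficients in a field. The degree of a list is its length.
-/

namespace Pool.Agent.Lib.MP_837412_lc.K

/-- A field of coefficients. -/
class Coef where
  /-- The field. -/
  F : Type
  [fld : Field F]

/-- The field of coefficients. -/
abbrev F [c : Coef] : Type := c.F

instance [c : Coef] : Field F := c.fld

variable [Coef]

/-- Chains on a set. -/
abbrev Ch (B : Type) := B →₀ F

section Basic

variable {B B' : Type} {C C' : Type} [AddCommGroup C] [Module F C] [AddCommGroup C'] [Module F C']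

/-- The basis chain. -/
noncomputable def sg (b : B) : Ch B := Finsupp.single b 1

/-- Linear extension. -/
noncomputable def lin (φ : B → C) : Ch B →ₗ[F] C := Finsupp.linearCombination F φ

/-- Push forward of chains. -/
noncomputable def mp (f : B → B') : Ch B →ₗ[F] Ch B' := lin fun b => sg (f b)

/-- Chains supported in a set of basis elements. -/
def sup (s : Set B) : Submodule F (Ch B) := Finsupp.supported F F s

@[simp] lemma lin_sg (φ : B → C) (b : B) : lin φ (sg b) = φ b := by simp [lin, sg]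

@[simp] lemma mp_sg (f : B → B') (b : B) : mp f (sg b) = sg (f b) := lin_sg _ _

lemma sg_mem {s : Set B} {b : B} (h : b ∈ s) : sg b ∈ sup s := Finsupp.single_mem_supported _ _ h

lemma sup_mono {s t : Set B} (h : s ⊆ t) : sup s ≤ sup t := Finsupp.supported_mono h

lemma mem_sup' {s : Set B} {x : Ch B} : x ∈ sup s ↔ ∀ b, b ∉ s → x b = 0 :=
  Finsupp.mem_supported' _ _

lemma sup_inter {s t : Set B} {x : Ch B} (h : x ∈ sup s) (h' : x ∈ sup t) : x ∈ sup (s ∩ t) := by
  rw [mem_sup'] at *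
  intro b hb
  by_cases h1 : b ∈ s
  · exact h' b fun h2 => hb ⟨h1, h2⟩
  · exact h b h1

lemma mem_sup_univ (x : Ch B) : x ∈ sup (Set.univ : Set B) := mem_sup'.2 fun _ h => (h trivial).elim

lemma mem_sup_support (x : Ch B) : x ∈ sup (x.support : Set B) :=
  mem_sup'.2 fun _ h => by simpa using h

lemma eq_zero_of_mem {s : Set B} {x : Ch B} (h : x ∈ sup s) (hs : ∀ b, b ∉ s) : x = 0 :=
  Finsupp.ext fun b => mem_sup'.1 h b (hs b)

lemma sup_ind {s : Set B} {P : Ch B → Prop} (h0 : P 0) (ha : ∀ x y, P x → P y → P (x + y))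
    (hs : ∀ (c : F) x, P x → P (c • x)) (h1 : ∀ b ∈ s, P (sg b)) {x : Ch B} (hx : x ∈ sup s) :
    P x := by
  rw [sup, Finsupp.supported_eq_span_single] at hx
  induction hx using Submodule.span_induction with
  | mem x h => obtain ⟨b, hb, rfl⟩ := h; exact h1 b hb
  | zero => exact h0
  | add x y _ _ a b => exact ha _ _ a b
  | smul c x _ a => exact hs c x a

lemma map_mem {s : Set B} {K : Submodule F C} {L : Ch B →ₗ[F] C} (h : ∀ b ∈ s, L (sg b) ∈ K)
    {x : Ch B} (hx : x ∈ sup s) : L x ∈ K :=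
  sup_ind (P := fun x => L x ∈ K) (by simp) (fun _ _ a b => by rw [map_add]; exact K.add_mem a b)
    (fun c _ a => by rw [map_smul]; exact K.smul_mem c a) h hx

lemma map_eq {s : Set B} {L L' : Ch B →ₗ[F] C} (h : ∀ b ∈ s, L (sg b) = L' (sg b)) {x : Ch B}
    (hx : x ∈ sup s) : L x = L' x :=
  sup_ind (P := fun x => L x = L' x) (by simp) (fun _ _ a b => by rw [map_add, map_add, a, b])
    (fun _ _ a => by rw [map_smul, map_smul, a]) h hx

lemma map_eq' {L L' : Ch B →ₗ[F] C} (h : ∀ b, L (sg b) = L' (sg b)) (x : Ch B) : L x = L' x :=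
  map_eq (fun b _ => h b) (mem_sup_univ x)

lemma map_zero' {s : Set B} {L : Ch B →ₗ[F] C} (h : ∀ b ∈ s, L (sg b) = 0) {x : Ch B}
    (hx : x ∈ sup s) : L x = 0 := map_eq (L' := 0) h hx

lemma lin_mem {s : Set B} {K : Submodule F C} {φ : B → C} (h : ∀ b ∈ s, φ b ∈ K)
    {x : Ch B} (hx : x ∈ sup s) : lin φ x ∈ K := map_mem (by simpa using h) hx

lemma lin_congr {s : Set B} {φ ψ : B → C} (h : ∀ b ∈ s, φ b = ψ b) {x : Ch B}
    (hx : x ∈ sup s) : lin φ x = lin ψ x := map_eq (by simpa using h) hx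

lemma lin_add (φ ψ : B → C) (x : Ch B) : lin (fun b => φ b + ψ b) x = lin φ x + lin ψ x :=
  map_eq' (L' := lin φ + lin ψ) (by simp) x

lemma map_lin (L : C →ₗ[F] C') (φ : B → C) (x : Ch B) : L (lin φ x) = lin (fun b => L (φ b)) x :=
  map_eq' (L := L ∘ₗ lin φ) (by simp) x

lemma lin_map (L : Ch B →ₗ[F] C) (x : Ch B) : lin (fun b => L (sg b)) x = L x :=
  map_eq' (by simp) x

lemma lin_mp (φ : B' → C) (f : B → B') (x : Ch B) : lin φ (mp f x) = lin (fun b => φ (f b)) x := by
  rw [mp, map_lin]; simp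

lemma mp_mp {B'' : Type} (g : B' → B'') (f : B → B') (x : Ch B) :
    mp g (mp f x) = mp (fun b => g (f b)) x := lin_mp _ _ _

lemma mp_id (x : Ch B) : mp (fun b => b) x = x := map_eq' (L' := LinearMap.id) (by simp) x

lemma mp_mem {s : Set B} {t : Set B'} {f : B → B'} (h : ∀ b ∈ s, f b ∈ t) {x : Ch B}
    (hx : x ∈ sup s) : mp f x ∈ sup t := lin_mem (fun b hb => sg_mem (h b hb)) hx

lemma mp_congr {s : Set B} {f g : B → B'} (h : ∀ b ∈ s, f b = g b) {x : Ch B}
    (hx : x ∈ sup s) : mp f x = mp g x := lin_congr (fun b hb => by rw [h b hb]) hx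

lemma sup_split {s t : Set B} {x : Ch B} (hx : x ∈ sup (s ∪ t)) :
    ∃ y ∈ sup s, ∃ z ∈ sup t, x = y + z := by
  refine sup_ind (P := fun x => ∃ y ∈ sup s, ∃ z ∈ sup t, x = y + z)
    ⟨0, zero_mem _, 0, zero_mem _, by simp⟩ ?_ ?_ ?_ hx
  · rintro _ _ ⟨y, a, z, b, rfl⟩ ⟨y', a', z', b', rfl⟩
    exact ⟨y + y', add_mem a a', z + z', add_mem b b', by abel⟩
  · rintro c _ ⟨y, a, z, b, rfl⟩
    exact ⟨c • y, Submodule.smul_mem _ c a, c • z, Submodule.smul_mem _ c b, smul_add c y z⟩
  · rintro b (h | h)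
    · exact ⟨sg b, sg_mem h, 0, zero_mem _, by simp⟩
    · exact ⟨0, zero_mem _, sg b, sg_mem h, by simp⟩

lemma exists_mp {s : Set B} {t : Set B'} {f : B → B'} (h : ∀ c ∈ t, ∃ b ∈ s, f b = c) {y : Ch B'}
    (hy : y ∈ sup t) : ∃ x ∈ sup s, mp f x = y := by
  refine sup_ind (P := fun y => ∃ x ∈ sup s, mp f x = y) ⟨0, zero_mem _, by simp⟩ ?_ ?_ ?_ hy
  · rintro _ _ ⟨y, a, rfl⟩ ⟨y', a', rfl⟩
    exact ⟨y + y', add_mem a a', by simp⟩
  · rintro c _ ⟨y, a, rfl⟩
    exact ⟨c • y, Submodule.smul_mem _ c a, by simp⟩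
  · intro c hc
    obtain ⟨b, hb, rfl⟩ := h c hc
    exact ⟨sg b, sg_mem hb, by simp⟩

lemma mp_eq_mapDomain (f : B → B') (x : Ch B) : mp f x = Finsupp.mapDomain f x :=
  map_eq' (L' := Finsupp.lmapDomain F F f) (fun b => by rw [mp_sg]; simp [sg]) x

lemma mp_injective {f : B → B'} (hf : Function.Injective f) : Function.Injective (mp f) := by
  intro x y h
  rw [mp_eq_mapDomain, mp_eq_mapDomain] at h
  exact Finsupp.mapDomain_injective hf h

lemma mem_of_mp_mem {f : B → B'} (hf : Function.Injective f) {t : Set B'} {x : Ch B}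
    (h : mp f x ∈ sup t) : x ∈ sup (f ⁻¹' t) := by
  rw [mem_sup'] at *
  intro b hb
  have := h (f b) hb
  rwa [mp_eq_mapDomain, Finsupp.mapDomain_apply hf] at this

end Basic

section Lists

variable {V W : Type}

/-- Chains of lists of length `k`. -/
def Gr (V : Type) (k : ℕ) : Submodule F (Ch (List V)) := sup {l | l.length = k}

/-- The cone. -/
noncomputable def cone (a : V) : Ch (List V) →ₗ[F] Ch (List V) := mp (List.cons a)

/-- The boundary of a list. -/
noncomputable def bdl : List V → Ch (List V)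
  | [] => 0
  | a :: l => sg l - cone a (bdl l)

@[simp] lemma cone_sg (a : V) (l : List V) : cone a (sg l) = sg (a :: l) := mp_sg _ _

lemma d_cone (a : V) (x : Ch (List V)) : lin bdl (cone a x) = x - cone a (lin bdl x) :=
  map_eq' (L := lin bdl ∘ₗ cone a) (L' := LinearMap.id - cone a ∘ₗ lin bdl)
    (fun l => by simp [bdl]) x

lemma bdl_bdl (l : List V) : lin bdl (bdl l) = 0 := by
  induction l with
  | nil => simp [bdl]
  | cons a l ih => rw [bdl, map_sub, d_cone, ih, lin_sg, map_zero, sub_zero, sub_self]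

lemma bdl_mem (l : List V) : bdl l ∈ sup {c | c.Sublist l ∧ c.length + 1 = l.length} := by
  induction l with
  | nil => exact zero_mem _
  | cons a l ih =>
    refine sub_mem (sg_mem ⟨List.sublist_cons_self a l, rfl⟩) (mp_mem (fun c hc => ?_) ih)
    exact ⟨hc.1.cons_cons a, congrArg (· + 1) hc.2⟩

lemma map_cone (g : V → W) (a : V) (x : Ch (List V)) :
    mp (List.map g) (cone a x) = cone (g a) (mp (List.map g) x) := by
  simp only [cone, mp_mp, List.map_cons]

lemma map_bdl (g : V → W) (l : List V) : mp (List.map g) (bdl l) = bdl (l.map g) := by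
  induction l with
  | nil => simp [bdl]
  | cons a l ih => simp [bdl, map_cone, ih]

lemma bdl_gr {k : ℕ} {l : List V} (h : l.length = k + 1) : bdl l ∈ Gr V k :=
  sup_mono (fun c hc => Nat.succ_injective (hc.2.trans h)) (bdl_mem l)

lemma cone_gr (a : V) {k : ℕ} {x : Ch (List V)} (hx : x ∈ Gr V k) :
    cone a x ∈ Gr V (k + 1) := mp_mem (fun _ hb => congrArg (· + 1) hb) hx

end Lists

end Pool.Agent.Lib.MP_837412_lc.K
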