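import Pool.Agent.Lib.MP_837412_lc.KSt
import Pool.Agent.Lib.MP_837412_lc.JTame

/-!
Estimates for the two parameter family at infinity, and a weight function.
-/

namespace Pool.Agent.Lib.MP_837412_lc.K

open Set Function Filter Topology MvPolynomial

namespace KEst

variable {σ : Type} [Fintype σ]

lemma ev_le (q : MvPolynomial σ ℂ) (n : ℕ) (hq : q.totalDegree ≤ n) :
    ∃ K : ℝ, 0 ≤ K ∧ ∀ y : σ → ℂ, ‖eval y q‖ ≤ K * (1 + ‖y‖) ^ n := by
  refine ⟨∑ d ∈ q.support, ‖coeff d q‖, Finset.sum_nonneg fun _ _ => norm_nonneg _, fun y => ?_⟩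
  rw [eval_eq, Finset.sum_mul]
  refine (norm_sum_le _ _).trans (Finset.sum_le_sum fun d hd => ?_)
  rw [norm_mul, norm_prod]
  refine mul_le_mul_of_nonneg_left ?_ (norm_nonneg _)
  calc ∏ i ∈ d.support, ‖y i ^ d i‖ ≤ ∏ i ∈ d.support, (1 + ‖y‖) ^ d i :=
        Finset.prod_le_prod (fun _ _ => norm_nonneg _) fun i _ => by
          rw [norm_pow]
          exact pow_le_pow_left₀ (norm_nonneg _)
            ((norm_le_pi_norm y i).trans (le_add_of_nonneg_left zero_le_one)) _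
    _ = (1 + ‖y‖) ^ ∑ i ∈ d.support, d i := Finset.prod_pow_eq_pow_sum _ _ _
    _ ≤ (1 + ‖y‖) ^ n := pow_le_pow_right₀ (le_add_of_nonneg_right (norm_nonneg _))
        ((le_totalDegree hd).trans hq)

lemma ev3 (a p p' : MvPolynomial σ ℂ) (n : ℕ) (Λ : ℝ) (ha : a.totalDegree ≤ n)
    (hp : p.totalDegree ≤ n) (hp' : p'.totalDegree ≤ n) :
    ∃ K : ℝ, 0 ≤ K ∧ ∀ l l' : ℂ, ‖l‖ ≤ Λ → ‖l'‖ ≤ Λ → ∀ y : σ → ℂ,
      ‖eval y a - l * eval y p - l' * eval y p'‖ ≤ K * (1 + ‖y‖) ^ n := by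
  obtain ⟨A, A0, hA⟩ := ev_le a n ha
  obtain ⟨P, P0, hP⟩ := ev_le p n hp
  obtain ⟨P', P0', hP'⟩ := ev_le p' n hp'
  refine ⟨A + |Λ| * P + |Λ| * P', by positivity, fun l l' hl hl' y => ?_⟩
  refine (norm_sub_le _ _).trans ((add_le_add_left (norm_sub_le _ _) _).trans ?_)
  rw [norm_mul, norm_mul, add_mul, add_mul, mul_assoc, mul_assoc]
  exact add_le_add (add_le_add (hA y)
    (mul_le_mul (hl.trans (le_abs_self _)) (hP y) (norm_nonneg _) (abs_nonneg _)))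
    (mul_le_mul (hl'.trans (le_abs_self _)) (hP' y) (norm_nonneg _) (abs_nonneg _))

lemma eval_Fl2 (m : ℕ) (p p' : MvPolynomial σ ℂ) (l l' : ℂ) (y : σ → ℂ) :
    eval y (Fl2 m p p' l l') = eval y (F0 σ ℂ m) - l * eval y p - l' * eval y p' := by
  simp [Fl2, Fl]

lemma eval_d (m : ℕ) (p p' : MvPolynomial σ ℂ) (l l' : ℂ) (y : σ → ℂ) (i : σ) :
    eval y (pderiv i (Fl2 m p p' l l')) = ((m + 1 : ℕ) : ℂ) * y i ^ m +
      (eval y (C (-(((m + 1) * bb i ^ m : ℕ) : ℂ))) - l * eval y (pderiv i p) -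
        l' * eval y (pderiv i p')) := by
  have h : ((m : ℂ) + 1) ≠ 0 := by exact_mod_cast m.succ_ne_zero
  rw [Fl2, map_sub, pderiv_Fl, pderiv_C_mul, qq]
  simp only [map_sub, map_mul, map_add, map_pow, eval_C, eval_X]
  push_cast
  field_simp
  ring

lemma pow_sub {a b : ℂ} {r : ℝ} (ha : ‖a‖ ≤ r) (hb : ‖b‖ ≤ r) (n : ℕ) :
    ‖a ^ (n + 1) - b ^ (n + 1)‖ ≤ (n + 1) * ‖a - b‖ * r ^ n := by
  have r0 : 0 ≤ r := (norm_nonneg _).trans ha
  induction n with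
  | zero => simp
  | succ n ih =>
    have e : a ^ (n + 1 + 1) - b ^ (n + 1 + 1) =
        a * (a ^ (n + 1) - b ^ (n + 1)) + (a - b) * b ^ (n + 1) := by ring
    rw [e]
    refine (norm_add_le _ _).trans ?_
    rw [norm_mul, norm_mul, norm_pow]
    refine (add_le_add (mul_le_mul ha ih (norm_nonneg _) r0) (mul_le_mul_of_nonneg_left
      (pow_le_pow_left₀ (norm_nonneg _) hb _) (norm_nonneg _))).trans_eq ?_
    push_cast
    ring

/-- The terms of low degree of the start of the pencil. -/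
noncomputable def low (σ : Type) [Fintype σ] (m : ℕ) : MvPolynomial σ ℂ :=
  C ((1 + (m + 1) * ∑ i : σ, bb i ^ (m + 1) : ℕ) : ℂ) -
    ∑ i, C (((m + 1) * bb i ^ m : ℕ) : ℂ) * X i

lemma deg_low (m : ℕ) : (low σ m).totalDegree ≤ 1 := by
  refine (totalDegree_sub _ _).trans (max_le (by rw [totalDegree_C]; omega) ?_)
  refine totalDegree_finsetSum_le fun i _ => (totalDegree_mul _ _).trans ?_
  rw [totalDegree_C, totalDegree_X]

lemma eval_F0 (m : ℕ) (y : σ → ℂ) :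
    eval y (F0 σ ℂ m) = ∑ i, y i ^ (m + 1) + eval y (low σ m) := by
  simp only [F0, low, map_add, map_sum, map_sub, map_mul, map_pow, eval_X, eval_C,
    Finset.sum_sub_distrib]
  ring

lemma part1 (n : ℕ) (p p' : MvPolynomial σ ℂ) (Λ : ℝ) (hp : p.totalDegree ≤ n)
    (hp' : p'.totalDegree ≤ n) : ∃ c R : ℝ, 0 < c ∧ ∀ l l' : ℂ, ‖l‖ ≤ Λ → ‖l'‖ ≤ Λ → ∀ z,
    ‖eval z (Fl2 (n + 1) p p' l l')‖ ≤ c * (1 + ‖z‖) ^ (n + 1 + 1) ∧
    n2 (Fl2 (n + 1) p p' l l') z ≤ (c * (1 + ‖z‖) ^ (n + 1)) ^ 2 ∧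
    (R ≤ ‖z‖ → (‖z‖ ^ (n + 1)) ^ 2 ≤ n2 (Fl2 (n + 1) p p' l l') z) := by
  obtain ⟨A, A0, hA⟩ := ev3 (F0 σ ℂ (n + 1)) p p' (n + 1 + 1) Λ (deg_F0 _) (by omega) (by omega)
  choose D D0 hD using fun i : σ => ev3 (C (-(((n + 1 + 1) * bb i ^ (n + 1) : ℕ) : ℂ)))
    (pderiv i p) (pderiv i p') n Λ (by rw [totalDegree_C]; omega)
    ((totalDegree_pderiv_le i p).trans hp) ((totalDegree_pderiv_le i p').trans hp')
  set S : ℝ := ∑ i, D i
  have S0 : 0 ≤ S := Finset.sum_nonneg fun i _ => D0 i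
  have hS : ∀ i, D i ≤ S := fun i => Finset.single_le_sum (fun i _ => D0 i) (Finset.mem_univ i)
  set k : ℝ := (Fintype.card σ : ℝ)
  have k0 : 0 ≤ k := Nat.cast_nonneg _
  have hc : ‖((n + 1 + 1 : ℕ) : ℂ)‖ = n + 2 := by rw [Complex.norm_natCast]; push_cast; ring
  refine ⟨A + (k + 1) * (n + 2 + S), 1 + S * 2 ^ n, by positivity, fun l l' hl hl' z => ?_⟩
  have u1 : 1 ≤ 1 + ‖z‖ := le_add_of_nonneg_right (norm_nonneg _)
  have hE := fun i => (hD i l l' hl hl' z).trans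
    (mul_le_mul_of_nonneg_right (hS i) (by positivity))
  refine ⟨?_, ?_, fun hz => ?_⟩
  · rw [eval_Fl2]
    exact (hA l l' hl hl' z).trans (mul_le_mul_of_nonneg_right
      (le_add_of_nonneg_right (by positivity)) (by positivity))
  · have h1 : ∀ i, ‖eval z (pderiv i (Fl2 (n + 1) p p' l l'))‖ ≤
        (n + 2 + S) * (1 + ‖z‖) ^ (n + 1) := fun i => by
      rw [add_mul, eval_d]
      refine (norm_add_le _ _).trans (add_le_add ?_ ((hE i).trans ?_))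
      · rw [norm_mul, hc, norm_pow]
        gcongr
        exact (norm_le_pi_norm z i).trans (le_add_of_nonneg_left zero_le_one)
      · exact mul_le_mul_of_nonneg_left (pow_le_pow_right₀ u1 (Nat.le_succ n)) S0
    have h2 : n2 (Fl2 (n + 1) p p' l l') z ≤ k * ((n + 2 + S) * (1 + ‖z‖) ^ (n + 1)) ^ 2 := by
      refine (Finset.sum_le_sum fun i _ => pow_le_pow_left₀ (norm_nonneg _) (h1 i) 2).trans_eq ?_
      simp [k]
    refine h2.trans (le_trans ?_ (pow_le_pow_left₀ (by positivity) (mul_le_mul_of_nonneg_right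
      (le_add_of_nonneg_left A0) (by positivity)) 2))
    rw [mul_assoc, mul_pow (k + 1)]
    exact mul_le_mul_of_nonneg_right (by nlinarith) (sq_nonneg _)
  · have s0 : 0 ≤ S * 2 ^ n := by positivity
    have z1 : 1 ≤ ‖z‖ := by linarith
    obtain ⟨j, hj⟩ := JTame.ex_max z z1
    refine le_trans (pow_le_pow_left₀ (by positivity) ?_ 2) (Finset.single_le_sum
      (f := fun i => ‖eval z (pderiv i (Fl2 (n + 1) p p' l l'))‖ ^ 2) (fun _ _ => sq_nonneg _)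
      (Finset.mem_univ j))
    rw [eval_d]
    refine le_trans ?_ (norm_sub_le_norm_add _ _)
    rw [norm_mul, hc, norm_pow, hj]
    have h1 : (1 + ‖z‖) ^ n ≤ 2 ^ n * ‖z‖ ^ n := by
      rw [← mul_pow]; exact pow_le_pow_left₀ (by positivity) (by linarith) n
    have h2 := (hE j).trans (mul_le_mul_of_nonneg_left h1 S0)
    have h3 : S * 2 ^ n * ‖z‖ ^ n ≤ ‖z‖ * ‖z‖ ^ n :=
      mul_le_mul_of_nonneg_right (by linarith) (by positivity)
    have h4 : 0 ≤ (n : ℝ) * ‖z‖ ^ (n + 1) := by positivity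
    rw [← pow_succ'] at h3
    nlinarith

lemma part2 (m : ℕ) (p p' : MvPolynomial σ ℂ) (Λ Y : ℝ) (hm : Odd m) (hp : p.totalDegree ≤ m)
    (hp' : p'.totalDegree ≤ m) : ∃ R : ℝ, ∀ l l' : ℂ, ‖l‖ ≤ Λ → ‖l'‖ ≤ Λ → ∀ q : Ph σ, ‖q.2‖ ≤ Y →
    R ≤ ‖q.1‖ → ‖q.1‖ ^ (m + 1) ≤ 2 * (eval (zz q) (Fl2 m p p' l l')).re := by
  obtain ⟨A, A0, hA⟩ := ev3 (low σ m) p p' m Λ ((deg_low m).trans hm.pos) hp hp'
  set k : ℝ := (Fintype.card σ : ℝ)
  have k0 : 0 ≤ k := Nat.cast_nonneg _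
  refine ⟨1 + |Y| + 2 * (k * ((m + 1) * |Y| * 2 ^ m) + A * 3 ^ m), fun l l' hl hl' q hY hR => ?_⟩
  have Y0 := abs_nonneg Y
  have s0 : 0 ≤ 2 * (k * ((m + 1) * |Y| * 2 ^ m) + A * 3 ^ m) := by positivity
  have x1 : 1 ≤ ‖q.1‖ := by linarith
  have hy : ∀ i, ‖zz q i - q.1 i‖ ≤ |Y| := fun i => by
    simpa [zz] using (norm_le_pi_norm q.2 i).trans (hY.trans (le_abs_self Y))
  have hx : ∀ i, ‖(q.1 i : ℂ)‖ ≤ ‖q.1‖ := fun i => by simpa using norm_le_pi_norm q.1 i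
  have hz : ∀ i, ‖zz q i‖ ≤ 2 * ‖q.1‖ := fun i => by
    have := norm_le_norm_sub_add (zz q i) (q.1 i)
    linarith [hy i, hx i]
  have hz' : ‖zz q‖ ≤ 2 * ‖q.1‖ := (pi_norm_le_iff_of_nonneg (by positivity)).2 hz
  have h1 : ∀ i, q.1 i ^ (m + 1) - (m + 1) * |Y| * 2 ^ m * ‖q.1‖ ^ m ≤ (zz q i ^ (m + 1)).re :=
    fun i => by
    have a := pow_sub (hz i) ((hx i).trans (by linarith)) m
    have b := (neg_le_abs _).trans
      (Complex.abs_re_le_norm (zz q i ^ (m + 1) - (q.1 i : ℂ) ^ (m + 1)))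
    have c : (m + 1) * ‖zz q i - q.1 i‖ * (2 * ‖q.1‖) ^ m ≤ (m + 1) * |Y| * (2 * ‖q.1‖) ^ m := by
      gcongr
      exact hy i
    rw [Complex.sub_re, ← Complex.ofReal_pow, Complex.ofReal_re, Complex.ofReal_pow] at b
    rw [mul_pow] at a c
    linarith
  have h2 := Finset.sum_le_sum fun i (_ : i ∈ Finset.univ) => h1 i
  rw [Finset.sum_sub_distrib, Finset.sum_const, Finset.card_univ, nsmul_eq_mul] at h2
  obtain ⟨j, hj⟩ := JTame.ex_max q.1 x1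
  have h3 : ‖q.1‖ ^ (m + 1) ≤ ∑ i, q.1 i ^ (m + 1) := by
    rw [← hj, Real.norm_eq_abs, hm.add_one.pow_abs]
    exact Finset.single_le_sum (f := fun i => q.1 i ^ (m + 1))
      (fun i _ => hm.add_one.pow_nonneg _) (Finset.mem_univ j)
  have h4 : (1 + ‖zz q‖) ^ m ≤ 3 ^ m * ‖q.1‖ ^ m := by
    rw [← mul_pow]; exact pow_le_pow_left₀ (by positivity) (by linarith) m
  have h5 := ((neg_le_abs _).trans (Complex.abs_re_le_norm _)).trans
    ((hA l l' hl hl' (zz q)).trans (mul_le_mul_of_nonneg_left h4 A0))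
  have h6 : 2 * (k * ((m + 1) * |Y| * 2 ^ m) + A * 3 ^ m) * ‖q.1‖ ^ m ≤ ‖q.1‖ * ‖q.1‖ ^ m :=
    mul_le_mul_of_nonneg_right (by linarith) (by positivity)
  rw [← pow_succ'] at h6
  rw [eval_Fl2, eval_F0, add_sub_assoc, add_sub_assoc, Complex.add_re, Complex.re_sum]
  nlinarith

end KEst

open KEst in
theorem estS : EstS := by
  intro σ _ m p p' Λ hm hp hp'
  refine ⟨?_, fun Y => part2 m p p' Λ Y hm hp.le hp'.le⟩
  obtain ⟨n, rfl⟩ : ∃ n, m = n + 1 := ⟨m - 1, by omega⟩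
  exact part1 n p p' Λ (by omega) (by omega)

theorem wtS : WtS := by
  rintro σ _ _ ⟨k, rfl⟩
  let e : Ph σ →L[ℝ] EuclideanSpace ℝ (Fin (Module.finrank ℝ (Ph σ))) :=
    toEuclidean.toContinuousLinearMap
  let e' : EuclideanSpace ℝ (Fin (Module.finrank ℝ (Ph σ))) →L[ℝ] Ph σ :=
    toEuclidean.symm.toContinuousLinearMap
  set a : ℝ := 2 * (1 + ‖e‖ ^ 2 + ‖e'‖ ^ 2)
  have e0 := sq_nonneg ‖e‖
  have e0' := sq_nonneg ‖e'‖
  have a1 : 1 ≤ a := by simp only [a]; linarith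
  refine ⟨fun q => (1 + ‖e q‖ ^ 2) ^ (k + 1), (k + 1) * a ^ (k + 1), by positivity,
    (contDiff_const.add (e.contDiff.norm_sq ℝ)).pow _, fun q => ?_⟩
  have q0 := norm_nonneg q
  have l1 : ‖e q‖ ≤ ‖e‖ * ‖q‖ := e.le_opNorm q
  have l2 : ‖q‖ ≤ ‖e'‖ * ‖e q‖ := by simpa [e, e'] using e'.le_opNorm (e q)
  have l3 := pow_le_pow_left₀ (norm_nonneg _) l1 2
  have l4 := pow_le_pow_left₀ (norm_nonneg _) l2 2
  rw [mul_pow] at l3 l4
  have s0 := sq_nonneg ‖e q‖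
  have h1 : (1 + ‖q‖) ^ 2 ≤ a * (1 + ‖e q‖ ^ 2) := by
    simp only [a]; nlinarith [sq_nonneg (1 - ‖q‖), mul_nonneg e0 s0]
  have h2 : 1 + ‖e q‖ ^ 2 ≤ a * (1 + ‖q‖) ^ 2 := by
    simp only [a]; nlinarith [mul_nonneg e0 q0, mul_nonneg e0' (sq_nonneg (1 + ‖q‖))]
  have k1 : a ^ (k + 1) ≤ (k + 1) * a ^ (k + 1) :=
    le_mul_of_one_le_left (by positivity) (le_add_of_nonneg_left (Nat.cast_nonneg k))
  have ex : 2 * k + 1 + 1 = 2 * (k + 1) := by ring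
  refine ⟨?_, ?_, ?_⟩
  · rw [ex, pow_mul]
    refine (pow_le_pow_left₀ (sq_nonneg _) h1 _).trans ?_
    rw [mul_pow]
    exact mul_le_mul_of_nonneg_right k1 (by positivity)
  · rw [ex, pow_mul]
    refine (pow_le_pow_left₀ (by positivity) h2 _).trans ?_
    rw [mul_pow]
    exact mul_le_mul_of_nonneg_right k1 (by positivity)
  · rw [((e.hasFDerivAt.norm_sq.const_add 1).pow (k + 1)).fderiv, norm_smul, Nat.add_sub_cancel]
    have d1 : ‖2 • (innerSL ℝ (e q)).comp e‖ ≤ a * (1 + ‖q‖) := by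
      rw [two_smul]
      have := ((innerSL ℝ (e q)).opNorm_comp_le e).trans_eq (by rw [innerSL_apply_norm])
      refine (norm_add_le _ _).trans ?_
      have l5 := mul_le_mul_of_nonneg_right l1 (norm_nonneg e)
      simp only [a]
      nlinarith [mul_nonneg e0' q0]
    have d2 : ‖(k + 1) • (1 + ‖e q‖ ^ 2) ^ k‖ ≤ (k + 1) * (a * (1 + ‖q‖) ^ 2) ^ k := by
      rw [nsmul_eq_mul, Real.norm_of_nonneg (by positivity)]
      push_cast
      gcongr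
    refine (mul_le_mul d2 d1 (norm_nonneg _) (by positivity)).trans_eq ?_
    rw [mul_pow, ← pow_mul]
    ring

end Pool.Agent.Lib.MP_837412_lc.K
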