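import Pool.Agent.Lib.MP_837412_lc.KSt
import Pool.Agent.Lib.MP_837412_lc.JTame

/-!
Estimates for the pencil at infinity.
-/

namespace Pool.Agent.Lib.MP_837412_lc.K

open Set Function MvPolynomial

namespace KEst2

variable {σ : Type} [Fintype σ]

lemma ev1 (q : MvPolynomial σ ℂ) {n : ℕ} (hq : q.totalDegree ≤ n) :
    ∃ K : ℝ, 0 ≤ K ∧ ∀ y : σ → ℂ, ‖eval y q‖ ≤ K * (1 + ‖y‖) ^ n := by
  refine ⟨∑ d ∈ q.support, ‖coeff d q‖, Finset.sum_nonneg fun _ _ => norm_nonneg _, fun y => ?_⟩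
  rw [eval_eq, Finset.sum_mul]
  refine (norm_sum_le _ _).trans (Finset.sum_le_sum fun d hd => ?_)
  rw [norm_mul, norm_prod]
  refine mul_le_mul_of_nonneg_left ?_ (norm_nonneg _)
  calc ∏ i ∈ d.support, ‖y i ^ d i‖ ≤ ∏ i ∈ d.support, (1 + ‖y‖) ^ d i :=
        Finset.prod_le_prod (fun _ _ => norm_nonneg _) fun i _ => by
          rw [norm_pow]
          exact pow_le_pow_left₀ (norm_nonneg _) ((norm_le_pi_norm y i).trans (by linarith)) _
    _ = (1 + ‖y‖) ^ ∑ i ∈ d.support, d i := Finset.prod_pow_eq_pow_sum _ _ _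
    _ ≤ (1 + ‖y‖) ^ n := pow_le_pow_right₀ (by linarith [norm_nonneg y])
        ((le_totalDegree hd).trans hq)

lemma ev3 (q p p' : MvPolynomial σ ℂ) {n : ℕ} (hq : q.totalDegree ≤ n) (hp : p.totalDegree ≤ n)
    (hp' : p'.totalDegree ≤ n) (Λ : ℝ) : ∃ K : ℝ, 0 < K ∧ ∀ l l' : ℂ, ‖l‖ ≤ Λ → ‖l'‖ ≤ Λ →
      ∀ y : σ → ℂ, ‖eval y q - l * eval y p - l' * eval y p'‖ ≤ K * (1 + ‖y‖) ^ n := by
  obtain ⟨a, a0, ha⟩ := ev1 q hq
  obtain ⟨b, b0, hb⟩ := ev1 p hp
  obtain ⟨c, c0, hc⟩ := ev1 p' hp'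
  refine ⟨a + |Λ| * b + |Λ| * c + 1, by positivity, fun l l' hl hl' y => ?_⟩
  refine (norm_sub_le _ _).trans ((add_le_add_left (norm_sub_le _ _) _).trans ?_)
  rw [norm_mul, norm_mul]
  have e1 := mul_le_mul (hl.trans (le_abs_self _)) (hb y) (norm_nonneg _) (abs_nonneg _)
  have e2 := mul_le_mul (hl'.trans (le_abs_self _)) (hc y) (norm_nonneg _) (abs_nonneg _)
  have e3 : 0 ≤ (1 + ‖y‖) ^ n := by positivity
  nlinarith [ha y]

lemma pd (m : ℕ) (p p' : MvPolynomial σ ℂ) (l l' : ℂ) (z : σ → ℂ) (i : σ) :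
    eval z (pderiv i (Fl2 m p p' l l')) = (m + 1) * z i ^ m +
      (eval z (C (-((m + 1) * bb i ^ m) : ℂ)) - l * eval z (pderiv i p) -
        l' * eval z (pderiv i p')) := by
  have h : ((m : ℂ) + 1) ≠ 0 := by exact_mod_cast m.succ_ne_zero
  rw [Fl2, map_sub, pderiv_Fl, pderiv_C_mul, qq]
  simp only [map_sub, map_mul, map_add, eval_C, map_pow, eval_X]
  push_cast
  field_simp
  ring

lemma pw (x y : ℝ) (n : ℕ) :
    ‖((x : ℂ) + y * Complex.I) ^ (n + 1) - x ^ (n + 1)‖ ≤ (n + 1) * |y| * (|x| + |y|) ^ n := by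
  have h1 : ‖(x : ℂ) + y * Complex.I‖ ≤ |x| + |y| := (norm_add_le _ _).trans (by simp)
  induction n with
  | zero => simp
  | succ n ih =>
    have e : ((x : ℂ) + y * Complex.I) ^ (n + 1 + 1) - x ^ (n + 1 + 1) =
        (x + y * Complex.I) * ((x + y * Complex.I) ^ (n + 1) - x ^ (n + 1)) +
          y * Complex.I * x ^ (n + 1) := by ring
    rw [e]
    refine (norm_add_le _ _).trans ?_
    have e1 := (norm_mul_le _ _).trans (mul_le_mul h1 ih (norm_nonneg _) (by positivity))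
    have e2 : ‖y * Complex.I * (x : ℂ) ^ (n + 1)‖ ≤ |y| * (|x| + |y|) ^ (n + 1) := by
      simp only [norm_mul, norm_pow, Complex.norm_real, Complex.norm_I, mul_one, Real.norm_eq_abs]
      gcongr
      exact le_add_of_nonneg_right (abs_nonneg _)
    push_cast
    rw [pow_succ (|x| + |y|) n] at e2 ⊢
    nlinarith

end KEst2

open KEst2 JTame in
theorem estS2 : EstS := by
  intro σ _ m p p' Λ hm hp hp'
  obtain ⟨n, rfl⟩ : ∃ n, m = n + 1 := ⟨m - 1, by omega⟩
  refine ⟨?_, fun Y => ?_⟩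
  · obtain ⟨a, a0, ha⟩ := ev3 (F0 σ ℂ (n + 1)) p p' (deg_F0 _) (by omega) (by omega) Λ
    choose b b0 hb using fun i : σ => ev3 (C (-((((n + 1 : ℕ) : ℂ) + 1) * bb i ^ (n + 1)) : ℂ))
      (pderiv i p) (pderiv i p') (n := n) (by rw [totalDegree_C]; omega)
      ((totalDegree_pderiv_le _ _).trans (by omega)) ((totalDegree_pderiv_le _ _).trans (by omega)) Λ
    have S0 : 0 ≤ ∑ i, b i := Finset.sum_nonneg fun i _ => (b0 i).le
    have bS : ∀ i, b i ≤ ∑ i, b i := fun i =>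
      Finset.single_le_sum (fun i _ => (b0 i).le) (Finset.mem_univ i)
    generalize ∑ i, b i = S at S0 bS
    refine ⟨a + (Fintype.card σ + 1) * (n + 2 + S), 1 + S * 2 ^ n, by positivity,
      fun l l' hl hl' z => ⟨?_, ?_, fun hz => ?_⟩⟩
    · have := ha l l' hl hl' z
      simp only [Fl2, map_sub, map_mul, eval_C, eval_Fl]
      refine this.trans ?_
      gcongr
      exact le_add_of_nonneg_right (by positivity)
    · have h1 : ∀ i, ‖eval z (pderiv i (Fl2 (n + 1) p p' l l'))‖ ≤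
          (n + 2 + S) * (1 + ‖z‖) ^ (n + 1) := fun i => by
        rw [pd, add_mul _ S]
        refine (norm_add_le _ _).trans (add_le_add ?_ ((hb i l l' hl hl' z).trans ?_))
        · rw [norm_mul, norm_pow]
          refine mul_le_mul (le_of_eq ?_) (pow_le_pow_left₀ (norm_nonneg _)
            ((norm_le_pi_norm z i).trans (by linarith)) _) (by positivity) (by positivity)
          rw [← Nat.cast_succ, Complex.norm_natCast]
          push_cast; ring
        · exact mul_le_mul (bS i) (pow_le_pow_right₀ (by linarith [norm_nonneg z]) n.le_succ)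
            (by positivity) S0
      refine (Finset.sum_le_card_nsmul _ _ _ fun i _ =>
        pow_le_pow_left₀ (norm_nonneg _) (h1 i) 2).trans ?_
      rw [nsmul_eq_mul, Finset.card_univ]
      have e : 0 ≤ ((n : ℝ) + 2 + S) * (1 + ‖z‖) ^ (n + 1) := by positivity
      have e' : 0 ≤ a * (1 + ‖z‖) ^ (n + 1) := by positivity
      have c0 : (0 : ℝ) ≤ Fintype.card σ := by positivity
      rw [add_mul a, mul_assoc]
      generalize ((n : ℝ) + 2 + S) * (1 + ‖z‖) ^ (n + 1) = u at e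
      generalize a * (1 + ‖z‖) ^ (n + 1) = v at e'
      generalize (Fintype.card σ : ℝ) = k at c0
      nlinarith [mul_nonneg e' (mul_nonneg c0 e), mul_nonneg e e', sq_nonneg (k * u),
        mul_nonneg c0 (sq_nonneg u)]
    · have z1 : 1 ≤ ‖z‖ := le_trans (le_add_of_nonneg_right (by positivity)) hz
      obtain ⟨j, hj⟩ := ex_max z z1
      refine le_trans (pow_le_pow_left₀ (by positivity) ?_ 2) (Finset.single_le_sum
        (f := fun i => ‖eval z (pderiv i (Fl2 (n + 1) p p' l l'))‖ ^ 2) (fun _ _ => sq_nonneg _)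
        (Finset.mem_univ j))
      rw [pd]
      refine le_trans ?_ (norm_sub_le_norm_add _ _)
      have e1 := (hb j l l' hl hl' z).trans (mul_le_mul (bS j)
        (pow_le_pow_left₀ (by positivity) (by linarith : 1 + ‖z‖ ≤ 2 * ‖z‖) n) (by positivity) S0)
      have e2 : ‖(((n + 1 : ℕ) : ℂ) + 1) * z j ^ (n + 1)‖ = (n + 2) * (‖z‖ ^ n * ‖z‖) := by
        rw [norm_mul, norm_pow, hj, ← Nat.cast_succ, Complex.norm_natCast]
        push_cast; ring
      rw [e2, pow_succ]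
      rw [mul_pow] at e1
      have e3 : 0 ≤ ‖z‖ ^ n := by positivity
      have e4 : 0 ≤ (n : ℝ) * (‖z‖ ^ n * ‖z‖) := by positivity
      nlinarith [mul_le_mul_of_nonneg_left hz e3]
  · obtain ⟨a, a0, ha⟩ := ev3 (F0 σ ℂ (n + 1) - ∑ i, X i ^ (n + 2)) p p' (n := n + 1) (by
      rw [F0, Finset.sum_sub_distrib, show ∀ a b c : MvPolynomial σ ℂ, a - b + c - a = c - b from
        fun a b c => by ring]
      refine (totalDegree_sub _ _).trans (max_le (by rw [totalDegree_C]; omega)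
        (totalDegree_finsetSum_le fun i _ => (totalDegree_mul _ _).trans ?_))
      rw [totalDegree_C, totalDegree_X]; omega) hp.le hp'.le Λ
    set k : ℝ := (Fintype.card σ : ℝ) with hk
    have k0 : 0 ≤ k := by positivity
    refine ⟨max (max 1 Y) (2 * (a * 3 ^ (n + 1) + k * ((n + 2) * |Y| * 2 ^ (n + 1)))),
      fun l l' hl hl' q hq hR => ?_⟩
    have x1 : 1 ≤ ‖q.1‖ := ((le_max_left _ _).trans (le_max_left _ _)).trans hR
    have xY : ‖q.2‖ ≤ ‖q.1‖ := hq.trans (((le_max_right _ _).trans (le_max_left _ _)).trans hR)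
    have xR := (le_max_right _ _).trans hR
    obtain ⟨j, hj⟩ := ex_max q.1 x1
    have zq : 1 + ‖zz q‖ ≤ 3 * ‖q.1‖ := by
      have : ‖zz q‖ ≤ 2 * ‖q.1‖ := (pi_norm_le_iff_of_nonneg (by positivity)).2 fun i => by
        refine (norm_add_le _ _).trans ?_
        have := norm_le_pi_norm q.1 i
        have := norm_le_pi_norm q.2 i
        simp only [norm_mul, Complex.norm_real, Complex.norm_I, mul_one]
        linarith
      linarith
    have e1 := (Complex.abs_re_le_norm _).trans ((ha l l' hl hl' (zz q)).trans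
      (mul_le_mul_of_nonneg_left (pow_le_pow_left₀ (by positivity) zq _) a0.le))
    have e2 : ∀ i, q.1 i ^ (n + 2) - (n + 2) * |Y| * 2 ^ (n + 1) * ‖q.1‖ ^ (n + 1) ≤
        (zz q i ^ (n + 2)).re := fun i => by
      have h1 := (Complex.abs_re_le_norm _).trans (pw (q.1 i) (q.2 i) (n + 1))
      have h2 : |q.1 i| ≤ ‖q.1‖ := norm_le_pi_norm q.1 i
      have h3 : |q.2 i| ≤ ‖q.2‖ := norm_le_pi_norm q.2 i
      have h4 : (((n + 1 : ℕ) : ℝ) + 1) * |q.2 i| * (|q.1 i| + |q.2 i|) ^ (n + 1) ≤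
          (n + 2) * |Y| * 2 ^ (n + 1) * ‖q.1‖ ^ (n + 1) := by
        rw [mul_assoc _ (2 ^ _), ← mul_pow]
        refine mul_le_mul (mul_le_mul (by push_cast; linarith) (h3.trans (hq.trans (le_abs_self _)))
          (abs_nonneg _) (by positivity)) (pow_le_pow_left₀ (by positivity) (by linarith) _)
          (by positivity) (by positivity)
      rw [Complex.sub_re, ← Complex.ofReal_pow, Complex.ofReal_re] at h1
      have := (abs_le.1 (h1.trans h4)).1
      simp only [zz]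
      linarith
    have e3 := Finset.sum_le_sum fun i (_ : i ∈ Finset.univ) => e2 i
    have e4 : ‖q.1‖ ^ (n + 1) * ‖q.1‖ ≤ ∑ i, q.1 i ^ (n + 2) := by
      refine le_trans (le_of_eq ?_) (Finset.single_le_sum (f := fun i => q.1 i ^ (n + 2))
        (fun i _ => hm.add_one.pow_nonneg _) (Finset.mem_univ j))
      rw [← pow_succ, ← hj, Real.norm_eq_abs]
      exact hm.add_one.pow_abs _
    rw [Finset.sum_sub_distrib, Finset.sum_const, nsmul_eq_mul, Finset.card_univ, ← hk,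
      ← Complex.re_sum] at e3
    simp only [map_sub, map_sum, map_pow, eval_X, Complex.sub_re] at e1
    simp only [Fl2, map_sub, map_mul, eval_C, eval_Fl, Complex.sub_re]
    rw [mul_pow] at e1
    have e5 : 0 ≤ ‖q.1‖ ^ (n + 1) := by positivity
    rw [pow_succ _ (n + 1)]
    nlinarith [(abs_le.1 e1).1, mul_le_mul_of_nonneg_left xR e5]

theorem wtS2 : WtS := by
  intro σ _ m hm
  obtain ⟨e, rfl⟩ := hm
  set s : Ph σ → ℝ := fun q => 1 + ∑ i, (q.1 i ^ 2 + q.2 i ^ 2) with hs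
  set k : ℝ := (Fintype.card σ : ℝ) with hk
  have k0 : 0 ≤ k := by positivity
  have s1 : ∀ q, (1 + ‖q‖) ^ 2 ≤ 4 * s q := fun q => by
    have n0 : 0 ≤ ∑ i, (q.1 i ^ 2 + q.2 i ^ 2) := Finset.sum_nonneg fun _ _ => by positivity
    have : ‖q‖ ≤ √(∑ i, (q.1 i ^ 2 + q.2 i ^ 2)) := by
      refine max_le ?_ ?_ <;> refine (pi_norm_le_iff_of_nonneg (Real.sqrt_nonneg _)).2 fun i =>
        Real.abs_le_sqrt (le_trans ?_ (Finset.single_le_sum
          (f := fun i => q.1 i ^ 2 + q.2 i ^ 2) (fun _ _ => by positivity) (Finset.mem_univ i)))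
      · exact le_add_of_nonneg_right (sq_nonneg _)
      · exact le_add_of_nonneg_left (sq_nonneg _)
    have := pow_le_pow_left₀ (norm_nonneg _) this 2
    rw [Real.sq_sqrt n0] at this
    simp only [hs]
    nlinarith [sq_nonneg (‖q‖ - 1)]
  have c1 : ∀ (q : Ph σ) i, |q.1 i| ≤ ‖q‖ := fun q i => (norm_le_pi_norm q.1 i).trans (norm_fst_le q)
  have c2 : ∀ (q : Ph σ) i, |q.2 i| ≤ ‖q‖ := fun q i => (norm_le_pi_norm q.2 i).trans (norm_snd_le q)
  have s2 : ∀ q, s q ≤ (1 + 2 * k) * (1 + ‖q‖) ^ 2 := fun q => by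
    have : ∑ i, (q.1 i ^ 2 + q.2 i ^ 2) ≤ k * (2 * ‖q‖ ^ 2) := by
      refine (Finset.sum_le_card_nsmul _ _ (2 * ‖q‖ ^ 2) fun i _ => ?_).trans_eq (by simp [hk])
      have := pow_le_pow_left₀ (abs_nonneg _) (c1 q i) 2
      have := pow_le_pow_left₀ (abs_nonneg _) (c2 q i) 2
      rw [sq_abs] at *
      linarith
    simp only [hs]
    nlinarith [norm_nonneg q, mul_nonneg k0 (norm_nonneg q)]
  have s0 : ∀ q, 0 ≤ s q := fun q => by nlinarith [s1 q, sq_nonneg (1 + ‖q‖)]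
  have sm : ContDiff ℝ 2 s := by simp only [hs]; fun_prop
  have s3 : ∀ q, ‖fderiv ℝ s q‖ ≤ 4 * k * (1 + ‖q‖) := fun q => by
    have h1 : ∀ i, HasFDerivAt (fun q : Ph σ => q.1 i)
      ((ContinuousLinearMap.proj i).comp (ContinuousLinearMap.fst ℝ _ _)) q := fun i =>
      ((ContinuousLinearMap.proj i).comp (ContinuousLinearMap.fst ℝ (σ → ℝ) (σ → ℝ))).hasFDerivAt
    have h2 : ∀ i, HasFDerivAt (fun q : Ph σ => q.2 i)
      ((ContinuousLinearMap.proj i).comp (ContinuousLinearMap.snd ℝ _ _)) q := fun i =>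
      ((ContinuousLinearMap.proj i).comp (ContinuousLinearMap.snd ℝ (σ → ℝ) (σ → ℝ))).hasFDerivAt
    have h3 := (HasFDerivAt.fun_sum fun i (_ : i ∈ Finset.univ) =>
      ((h1 i).pow 2).fun_add ((h2 i).pow 2)).const_add 1
    rw [h3.fderiv]
    refine ContinuousLinearMap.opNorm_le_bound _ (by positivity) fun v => ?_
    rw [sum_apply]
    refine (norm_sum_le _ _).trans ((Finset.sum_le_card_nsmul _ _ (4 * (1 + ‖q‖) * ‖v‖)
      fun i _ => ?_).trans_eq (by simp [hk]; ring))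
    have a1 := mul_le_mul (c1 q i) (c1 v i) (abs_nonneg _) (norm_nonneg _)
    have a2 := mul_le_mul (c2 q i) (c2 v i) (abs_nonneg _) (norm_nonneg _)
    refine (norm_add_le _ _).trans ?_
    simp [abs_mul]
    nlinarith [norm_nonneg v]
  refine ⟨fun q => s q ^ (e + 1), 4 ^ (e + 1) + (1 + 2 * k) ^ (e + 1) +
    (e + 1) * (1 + 2 * k) ^ e * (4 * k), by positivity, sm.pow _, fun q => ⟨?_, ?_, ?_⟩⟩
  · have := pow_le_pow_left₀ (by positivity) (s1 q) (e + 1)
    rw [← pow_mul, mul_pow] at this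
    refine this.trans (mul_le_mul_of_nonneg_right ?_ (pow_nonneg (s0 q) _))
    rw [add_assoc]
    exact le_add_of_nonneg_right (by positivity)
  · have := pow_le_pow_left₀ (s0 q) (s2 q) (e + 1)
    rw [mul_pow, ← pow_mul] at this
    refine this.trans (mul_le_mul_of_nonneg_right ?_ (by positivity))
    exact le_add_of_le_of_nonneg (le_add_of_nonneg_left (by positivity)) (by positivity)
  · rw [((sm.differentiable two_ne_zero q).hasFDerivAt.pow (e + 1)).fderiv, norm_smul]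
    have := pow_le_pow_left₀ (s0 q) (s2 q) e
    rw [mul_pow, ← pow_mul] at this
    have h : ‖(e + 1) • s q ^ (e + 1 - 1)‖ ≤ (e + 1) * ((1 + 2 * k) ^ e * (1 + ‖q‖) ^ (2 * e)) := by
      rw [Nat.add_sub_cancel, nsmul_eq_mul, Real.norm_of_nonneg (by have := s0 q; positivity)]
      push_cast
      gcongr
    refine (mul_le_mul h (s3 q) (norm_nonneg _) (by positivity)).trans ?_
    have : 0 ≤ (4 ^ (e + 1) + (1 + 2 * k) ^ (e + 1)) * (1 + ‖q‖) ^ (2 * e + 1) := by positivity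
    rw [add_mul (_ + _), pow_succ (1 + ‖q‖)] at *
    nlinarith

end Pool.Agent.Lib.MP_837412_lc.K
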