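import Pool.Agent.Lib.MP_837412_lc.KPort

/-!
Inputs with the same events have real sublevel sets with the same homology.
-/

namespace Pool.Agent.Lib.MP_837412_lc.K

open Set Function Filter Topology MvPolynomial
open Pool.Agent.Shared.Mod2 (I)

variable {σ τ ι : Type} [Fintype σ] [DecidableEq σ] [Fintype τ] {m : ℕ}

lemma Pl.comp {T T' : Type} [TopologicalSpace T] [TopologicalSpace T'] {ψ : T → ℂ → ℂ} (h : Pl ψ)
    {γ : T' → T} (hγ : Continuous γ) : Pl fun s => ψ (γ s) :=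
  ⟨fun _ => h.sm _, h.c0.comp (hγ.prodMap continuous_id), h.c1.comp (hγ.prodMap continuous_id),
    fun _ => h.det _, h.out.imp fun _ a _ => a _⟩

lemma mix_lt {r : I} {a b a' b' : ℝ} (h : a < b) (h' : a' < b') :
    (1 - r) * a + r * a' < (1 - r) * b + r * b' := by
  rcases eq_or_lt_of_le r.2.1 with e | e
  · rw [← e]; linarith
  · nlinarith [mul_nonneg (sub_nonneg.2 r.2.2) (sub_pos.2 h).le, mul_pos e (sub_pos.2 h')]

lemma Iso.inj_mix {a b : ι → ℂ} (h : Iso a b) (ha : Injective a) (r : I) :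
    Injective fun i => (1 - (r : ℝ)) * a i + (r : ℝ) * b i := fun i j e => by
  have e1 := congrArg Complex.re e
  have e2 := congrArg Complex.im e
  simp only [Complex.add_re, Complex.add_im, Complex.mul_re, Complex.mul_im, Complex.sub_re,
    Complex.sub_im, Complex.one_re, Complex.one_im, Complex.ofReal_re, Complex.ofReal_im, sub_zero,
    zero_mul, add_zero] at e1 e2
  refine ha (Complex.ext ?_ ?_)
  · rcases lt_trichotomy (a i).re (a j).re with c | c | c
    exacts [absurd e1 (mix_lt c ((h.re_lt i j).1 c)).ne, c,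
      absurd e1 (mix_lt c ((h.re_lt j i).1 c)).ne']
  · rcases lt_trichotomy (a i).im (a j).im with c | c | c
    exacts [absurd e2 (mix_lt c ((h.im_lt i j).1 c)).ne, c,
      absurd e2 (mix_lt c ((h.im_lt j i).1 c)).ne']

/-- The two arcs can be run through at the same time with the same order types. -/
lemma joined {p p' : MvPolynomial σ ℂ} (hm : 2 ≤ m) (hp : p.totalDegree < m)
    (h : ∀ η ≤ nQ σ m, Tr (La m p η) (La m p' η)) :
    ∃ l l' : I → ℂ, Continuous l ∧ Continuous l' ∧ l 0 = 0 ∧ l' 0 = 0 ∧ l 1 = ls m p ∧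
      l' 1 = ls m p' ∧ ∀ u, Injective (Lam m p (l u)) ∧ Injective (Lam m p' (l' u)) ∧
        Sim (Lam m p (l u)) (Lam m p' (l' u)) := by
  obtain ⟨η, hη, g⟩ := all.good_arc hm hp
  obtain ⟨g', hR⟩ := all.evs _ _ _ _ (all.pp_La p η) (all.pp_La p' η) (h η hη) fun s _ => g s
  have key := hR (fun a a' => JoinedIn {x : ℝ × ℝ | x.2 ∈ Icc (0 : ℝ) 1 ∧
    Sim (La m p η x.1) (La m p' η x.2)} (0, 0) (a, a')) (fun a ha b hb a' ha' b' hb' s c =>
      c.trans (JoinedIn.ofLine (f := fun u => (a + u * (b - a), a' + u * (b' - a'))) (by fun_prop)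
        (by simp) (by simp) (by
          rintro _ ⟨u, hu, rfl⟩
          exact ⟨⟨by nlinarith [ha'.1, hb'.1, hu.1, hu.2], by nlinarith [ha'.2, hb'.2, hu.1, hu.2]⟩,
            s u hu⟩)))
    (JoinedIn.refl ⟨⟨le_rfl, zero_le_one⟩, by
      simp only [La, arc_zero, Lam_zero m p' p]; exact Sim.refl _⟩)
  obtain ⟨γ, hγ⟩ := key
  exact ⟨fun u => arc (ls m p) η (γ u).1, fun u => arc (ls m p') η (γ u).2,
    (continuous_arc _ η).comp (by fun_prop), (continuous_arc _ η).comp (by fun_prop),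
    by simp [arc_zero], by simp [arc_zero], by simp [arc_one], by simp [arc_one],
    fun u => ⟨((all.qv _ _).1 (g _)).1, ((all.qv _ _).1 (g' _ (hγ u).1)).1, (hγ u).2⟩⟩

variable [Coef]

/-- The statements that are used in the assembly. -/
structure AllK : Prop where
  tame : TameK
  plane : PlaneS
  lift : LiftS
  iso : IsoS
  ends : EndS
  rm : RmS
  real : RealS

theorem AllK.key (H : AllK) {p p' : MvPolynomial σ ℝ} (hm : 2 ≤ m) (ho : Odd m)
    (hp : p.totalDegree < m) (hp' : p'.totalDegree < m)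
    (h : ∀ η ≤ nQ σ m, Tr (La m (cx' p) η) (La m (cx' p') η)) {e : Equiv.Perm (Std σ m)}
    (he : Iso (Lam m (cx' p) (ls m (cx' p))) (Lam m (cx' p') (ls m (cx' p')) ∘ e)) {t t' : ℝ}
    (ht : ∀ i, (Lam m (cx' p) (ls m (cx' p)) i).re ≠ t ∧
      (Lam m (cx' p') (ls m (cx' p')) (e i)).re ≠ t' ∧ ((Lam m (cx' p) (ls m (cx' p)) i).re < t ↔
        (Lam m (cx' p') (ls m (cx' p')) (e i)).re < t')) (j : ℕ) :
    hs {y | eval y (Fl m p (ls m (cx' p))) < t} ∅ j =
      hs {y | eval y (Fl m p' (ls m (cx' p'))) < t'} ∅ j := by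
  have hc := (deg_cx _).trans_lt hp
  have hc' := (deg_cx _).trans_lt hp'
  obtain ⟨l, l', c1, c2, z1, z2, o1, o2, hl⟩ := joined hm hc h
  obtain ⟨a, a1, a2, a3⟩ := H.lift _ (fun u => Lam m (cx' p) (l u))
    (fun j => (all.cont_chi _ j).comp c1) fun u => (hl u).1
  obtain ⟨b, b1, b2, b3⟩ := H.lift _ (fun u => Lam m (cx' p') (l' u))
    (fun j => (all.cont_chi _ j).comp c2) fun u => (hl u).2.1
  have ab : a 0 = b 0 := by rw [a2, b2, z1, z2]; exact Lam_zero m _ _
  have ia : ∀ u, Injective (a u) := fun u => by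
    obtain ⟨f, hf⟩ := a3 u; rw [hf]; exact (hl u).1.comp f.injective
  have ib : ∀ u, Injective (b u) := fun u => by
    obtain ⟨f, hf⟩ := b3 u; rw [hf]; exact (hl u).2.1.comp f.injective
  have sp : ∀ (c : Std σ m → ℂ) (f : Equiv.Perm (Std σ m)), Sim c (c ∘ f) := fun c f =>
    Sim.symm ⟨f, Iso.refl _⟩
  have is := H.iso _ a b a1 b1 ib (ab ▸ Iso.refl _) fun u => by
    obtain ⟨f, hf⟩ := a3 u
    obtain ⟨f', hf'⟩ := b3 u
    rw [hf, hf']
    exact (sp _ f).symm.trans ((hl u).2.2.trans (sp _ f'))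
  let c : I × I → Std σ m → ℂ := fun x i => (1 - (x.2 : ℝ)) * a x.1 i + (x.2 : ℝ) * b x.1 i
  obtain ⟨ψ, p1, p2, p3⟩ := H.plane _ c (by fun_prop) fun x => Iso.inj_mix (is x.1) (ia x.1) x.2
  have ne : ∀ (r : I) i, (c (1, r) i).re ≠ (1 - r) * t + r * t' := fun r i => by
    obtain ⟨f, hf⟩ := a3 1
    obtain ⟨f', hf'⟩ := b3 1
    have i1 := is 1
    rw [hf, hf', o1, o2] at i1
    have e1 : e = f.symm.trans f' := all.aut _ _ _ _ _ (o2 ▸ (hl 1).2.1) he (by
      simpa [comp_assoc] using i1.comp f.symm)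
    obtain ⟨t1, t2, t3⟩ := ht (f i)
    have e2 : (c (1, r) i).re = (1 - r) * (Lam m (cx' p) (ls m (cx' p)) (f i)).re +
        r * (Lam m (cx' p') (ls m (cx' p')) (e (f i))).re := by
      simp [c, hf, hf', o1, o2, e1]
    rw [e2]
    rcases t1.lt_or_gt with d | d
    · exact (mix_lt d (t3.1 d)).ne
    · exact (mix_lt d (t2.lt_or_gt.resolve_left fun d' => d.not_gt (t3.2 d'))).ne'
  let γ : I → I × I := fun s => (projIcc 0 1 zero_le_one (max (1 - 3 * s) (3 * s - 2)),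
    projIcc 0 1 zero_le_one (3 * s - 1))
  have cγ : Continuous γ := (continuous_projIcc.comp (by fun_prop)).prodMk
    (continuous_projIcc.comp (by fun_prop))
  have γ0 : γ 0 = (1, 0) := Prod.ext (projIcc_of_right_le zero_le_one (by simp))
    (projIcc_of_le_left zero_le_one (by simp))
  have γ1 : γ 1 = (1, 1) := Prod.ext (projIcc_of_right_le zero_le_one (by norm_num))
    (projIcc_of_right_le zero_le_one (by norm_num))
  have γu : ∀ s, (γ s).2 = 0 ∨ (γ s).1 = 0 ∨ (γ s).2 = 1 := fun s => by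
    rcases le_total (3 * s : ℝ) 1 with d | d
    · exact Or.inl (projIcc_of_le_left zero_le_one (by linarith))
    rcases le_total (3 * s : ℝ) 2 with d' | d'
    · exact Or.inr (Or.inl (projIcc_of_le_left zero_le_one (max_le (by linarith) (by linarith))))
    · exact Or.inr (Or.inr (projIcc_of_right_le zero_le_one (by linarith)))
  have f0 : ∀ z : ℂ, Fl2 m (cx' p) (cx' p') z 0 = Fl m (cx' p) z := fun z => by simp [Fl2]
  have f1 : ∀ z : ℂ, Fl2 m (cx' p) (cx' p') 0 z = Fl m (cx' p') z := fun z => by simp [Fl2, Fl]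
  obtain ⟨w, ε, κ, B, w0, tm⟩ := H.tame σ I m (cx' p) (cx' p')
    (fun s => (1 - ((γ s).2 : ℝ)) * l (γ s).1) (fun s => ((γ s).2 : ℝ) * l' (γ s).1)
    (fun s => (1 - (γ s).2) * t + (γ s).2 * t') (fun s => ψ (γ s)) ho hc hc' (by fun_prop)
    (by fun_prop) (by fun_prop) (p1.comp cγ) fun s z hz => by
      have hu := γu s
      generalize γ s = x at hu hz ⊢
      obtain ⟨u, r⟩ := x
      suffices ∃ i, MvPolynomial.eval z (Fl2 m (cx' p) (cx' p') ((1 - (r : ℝ)) * l u) ((r : ℝ) * l' u)) =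
          c (u, r) i by
        obtain ⟨i, hi⟩ := this
        rw [hi, p3]
        exact ne r i
      rcases hu with rfl | rfl | rfl
      · obtain ⟨f, hf⟩ := a3 u
        simp only [Icc.coe_zero, Complex.ofReal_zero, sub_zero, one_mul, zero_mul, f0] at hz ⊢
        obtain ⟨i, hi⟩ := (all.crit σ m _ _ hm hc z hz).1
        exact ⟨f.symm i, by simp [c, hf, hi]⟩
      · simp only [z1, z2, mul_zero, f0] at hz ⊢
        obtain ⟨i, hi⟩ := (all.crit σ m _ _ hm hc z hz).1
        refine ⟨i, ?_⟩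
        simp only [c, ← ab, a2, z1, hi]
        ring
      · obtain ⟨f, hf⟩ := b3 u
        simp only [Icc.coe_one, Complex.ofReal_one, sub_self, one_mul, zero_mul, f1] at hz ⊢
        obtain ⟨i, hi⟩ := (all.crit σ m _ _ hm hc' z hz).1
        exact ⟨f.symm i, by simp [c, hf, hi]⟩
  have zx : ∀ x : σ → ℝ, zz (x, 0) = fun i => (x i : ℂ) := fun x => by ext i; simp [zz]
  have := H.ends σ I _ _ ε κ B 0 1 (Fl m p (ls m (cx' p))) (Fl m p' (ls m (cx' p'))) tm
    (fun q => by simp [γ0, p2, f0, o1, cx_Fl]) (fun q => by simp [γ1, p2, f1, o2, cx_Fl]) j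
  simpa [γ0, γ1, p2, f0, f1, o1, o2, ← cx_Fl, zx, eval_cx, div_neg_iff, w0, (w0 _).not_gt,
    -eval_map] using this

lemma AllK.rm_of (H : AllK) {P : τ → MvPolynomial σ ℝ} (hm : 2 ≤ m) (ho : Odd m)
    (hp : (sq P).totalDegree < m) {π : τ → SignType} (hπ : ∀ j, π j ≠ 0)
    (e : Equiv.Perm (Std σ m)) :
    RM (fun y => eval y (Fl m (sq P) (ls m (cx' (sq P))))) (cell P π) (oth P π)
      (fun i => (Le m P (e i)).re)
      (fun i => (lab m P (Le m P (e i))).2.1 = 0 ∧ (lab m P (Le m P (e i))).2.2.1 = π)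
      (fun i => (lab m P (Le m P (e i))).2.1 = 0 ∧ (lab m P (Le m P (e i))).2.2.1 ≠ π) ∧
    ∀ j, hs (cell P π) ∅ j =
      hs ({y | eval y (Fl m (sq P) (ls m (cx' (sq P)))) < 0} ∩ cell P π) ∅ j := by
  have hc := (deg_cx _).trans_lt hp
  obtain ⟨x, hx⟩ := all.mor_ls hm hc
  obtain ⟨g1, g2⟩ := all.grow σ m _ ho hp
  have sub : {y | eval y (Fl m (sq P) (ls m (cx' (sq P)))) < 0} ⊆ {y | 0 < eval y (sq P)} :=
    fun y hy => by
      simp only [mem_ofPred_eq, eval_Fl] at hy ⊢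
      nlinarith [g1 y, all.ls_pos (m := m) (cx' (sq P))]
  have im : ∀ i, (lab m P (Le m P (e i))).2.1 = 0 → (Le m P (e i)).im = 0 :=
    fun i a => sign_eq_zero_iff.1 a
  constructor
  · refine H.rm σ _ _ _ _ _ _ _ (g2 _) (isOpen_cell P hπ) (isOpen_oth P π) (disj_oth P π)
      (sub.trans (cov_oth P π)) (fun i j a b c => ?_) (fun i a c => ?_) fun y hy => ?_
    · obtain rfl : i = j := e.injective (hx.inj (Complex.ext c ((im i a.1).trans (im j b.1).symm)))
      exact b.2 a.2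
    · exact ((all.qv _ _).1 (all.qv_large hm hc le_rfl)).2 (e i)
        (Complex.ext c (im i (a.elim And.left And.left)))
    · obtain ⟨a, ha⟩ := hx.all (fun i => y i) fun i => by
        rw [← cx_Fl, pderiv_cx, eval_cx, hy i, Complex.ofReal_zero]
      obtain ⟨i, rfl⟩ := e.surjective a
      have v : Le m P (e i) = (eval y (Fl m (sq P) (ls m (cx' (sq P)))) : ℝ) := by
        rw [← eval_cx, cx_Fl, ha]; exact (hx.val _).symm
      have cp : cpv (Fe m P) (Le m P (e i)) = fun i => (y i : ℂ) := (hx.cpv _).trans ha.symm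
      have l1 : (lab m P (Le m P (e i))).2.1 = 0 := by simp [lab, v]
      have l2 : (lab m P (Le m P (e i))).2.2.1 = π ↔ y ∈ cell P π := by
        simp only [lab, cp, eval_cx, Complex.ofReal_re, funext_iff]; rfl
      exact ⟨i, by rw [v, Complex.ofReal_re], fun a => ⟨l1, l2.2 a⟩,
        fun a => ⟨l1, fun b => (disj_oth P π).notMem_of_mem_left (l2.1 b) a⟩⟩
  · intro j
    have a := limS acS growS σ m _ _ _ _ ho hp (all.ls_pos (m := m) (cx' (sq P)))
      (fun l hl y hy h0 => by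
      obtain ⟨i, hi⟩ := (all.crit σ m _ l hm hc (fun i => y i) fun i => by
        rw [← cx_Fl, pderiv_cx, eval_cx, hy i, Complex.ofReal_zero]).1
      refine ((all.qv _ _).1 (all.qv_large hm hc hl)).2 i ?_
      rw [hi, ← cx_Fl, eval_cx, h0, Complex.ofReal_zero]) (isOpen_cell P hπ) (isOpen_oth P π)
        (disj_oth P π) (cov_oth P π)
    rw [← a.left (empty_subset _) (inter_subset_inter_left _ sub), inter_eq_right.2]
    exact fun y hy => sq_pos.2 fun j => sign_ne_zero.1 (hy j ▸ hπ j)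

theorem AllK.same (H : AllK) {P P' : τ → MvPolynomial σ ℝ} (hm : 2 ≤ m) (ho : Odd m)
    (hp : (sq P).totalDegree < m) (hp' : (sq P').totalDegree < m)
    (hT : ∀ η ≤ nQ σ m, Tr (La m (cx' (sq P)) η) (La m (cx' (sq P')) η))
    (hL : ∃ e : Equiv.Perm (Std σ m), Iso (Le m P) (Le m P' ∘ e) ∧
      ∀ i, lab m P (Le m P i) = lab m P' (Le m P' (e i)))
    {π : τ → SignType} (hπ : ∀ j, π j ≠ 0) (j : ℕ) :
    hs (cell P π) ∅ j = hs (cell P' π) ∅ j ∧ hs (cell P π) ∅ j ≠ ⊤ := by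
  obtain ⟨e, i1, hL⟩ := hL
  obtain ⟨r1, q1⟩ := H.rm_of hm ho hp hπ 1
  obtain ⟨r2, q2⟩ := H.rm_of hm ho hp' hπ e
  simp only [← hL] at r2
  have sr : ∀ i, SignType.sign (Le m P i).re = SignType.sign (Le m P' (e i)).re :=
    fun i => congrArg (·.1) (hL i)
  rw [q1, q2]
  refine H.real _ _ _ _ _ _ _ _ _ _ _ _ _ r1 r2 (fun i j => (i1 i j).1) (fun i => ?_)
    (fun t t' a => H.key hm ho hp hp' hT i1 a) j
  rw [← sign_eq_neg_one_iff, ← sign_eq_neg_one_iff, ← sr]; rfl

end Pool.Agent.Lib.MP_837412_lc.K
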