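import Pool.Agent.Lib.MP_837412_lc.KG1
import Pool.Agent.Lib.MP_837412_lc.KBetti

/-!
The tree determines the homology of all strict sign cells and of open sets, over every field.
-/

namespace Pool.Agent.Lib.MP_837412_lc.K

open Set Function MvPolynomial Filter Topology

variable {α σ τ ι : Type} [Fintype σ] [Fintype τ] [Fintype ι] {B : ℕ} [hB : Fact (2 ≤ B)]
  {Γ : Ctx α} {e e' d m J : ℕ} [Coef]

namespace AllK

variable (H : AllK)
include H

theorem core1 {p : α → τ → MvPolynomial σ ℝ}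
    (h1 : sz σ (2 * Fintype.card τ * d + 3) ^ 200 ≤ B) (h2 : Fintype.card τ ≤ B)
    (hd : ∀ j, Dm Γ d fun x => p x j) (h : ∀ j, AM B Γ 1 fun x => p x j) :
    D B Γ 4000 fun x y => ∀ π : τ → SignType, (∀ j, π j ≠ 0) → ∀ i,
      hs (cell (p x) π) ∅ i = hs (cell (p y) π) ∅ i ∧ hs (cell (p x) π) ∅ i ≠ ⊤ := by
  classical
  have ho : Odd (2 * Fintype.card τ * d + 3) := ⟨Fintype.card τ * d + 1, by ring⟩
  have dq : ∀ x ∈ Γ.Y, (sq (p x)).totalDegree < 2 * Fintype.card τ * d + 3 :=
    fun x hx => deg_sq fun j => hd j x hx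
  have dd : ∀ j : τ, d ≤ 2 * Fintype.card τ * d + 3 := fun j => by
    have := Fintype.card_pos_iff.2 ⟨j⟩
    nlinarith
  have d2 : Fintype.card τ * (2 * d) ≤ 2 * Fintype.card τ * d + 3 := by nlinarith
  have hm : 3 ≤ 2 * Fintype.card τ * d + 3 := by omega
  generalize 2 * Fintype.card τ * d + 3 = m at *
  obtain ⟨s1, s2, s3, s4, s5, s6, s7⟩ := sizes (σ := σ) hm
  have lt : ∀ n, n ≤ 4 * sz σ m → n < B := fun n hn =>
    (pow_one (n + 1)).ge.trans (le_B h1 s1 (by nlinarith) (by omega : 1 ≤ 100))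
  have sB : sz σ m ≤ B := (lt _ (by omega)).le
  have dc : ∀ x ∈ Γ.Y, (cx' (sq (p x))).totalDegree < m := fun x hx => (deg_cx _).trans_lt (dq x hx)
  have μ := Nat.le_self_pow two_ne_zero (Fintype.card (Std σ m))
  have pw : ∀ n ≤ m, (n + 1) ^ Fintype.card σ ≤ B := fun n hn =>
    (Nat.pow_le_pow_left (by omega) _).trans (s2.trans sB)
  have a1 : AM B Γ 27 fun x => cx' (sq (p x)) :=
    (AM.prod Finset.univ h2 (n := 2 * d) (fun j _ => ((h j).mul (h j) (hd j) (pw _ (dd j))).congr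
      fun _ _ => pow_two _) (fun j _ x hx => (totalDegree_pow _ _).trans
        (Nat.mul_le_mul_left 2 (hd j x hx))) (pw _ d2)).ofReal
  have cQ : Fintype.card (Std σ m ⊕ Std σ m × Std σ m) ≤ sz σ m :=
    (Nat.le_mul_of_pos_right _ (by omega)).trans s4
  have a2 : AP B Γ 330 fun x => Qp m (cx' (sq (p x))) :=
    AP.pol (fun x _ => all.isP_Q _) (lt _ (by omega)) fun t ht =>
      ((all.lamA α σ B Γ 27 m (sz σ m) _ (fun _ => (t : ℂ)) sB sB dc a1
        ((A.nat (lt _ (by omega)).le).mono (by omega))).qv (lt _ (by omega)) cQ).congr (by simp)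
  have a3 : A B Γ 370 fun x => ls m (cx' (sq (p x))) :=
    all.cba α B Γ 330 (nQ σ m) _ (lt _ (by omega)) a2 (fun x _ => (all.isP_Q _).pol.1)
      fun x hx => all.Qp_ne (by omega) (dc x hx)
  refine (P.share1 a3 (e' := 3200) fun Δ le a4 => ?_).mono (by omega)
  have dc' : ∀ x ∈ Δ.Y, (cx' (sq (p x))).totalDegree < m := fun x hx => dc x (le.1 hx)
  have t1 : D B Δ 3198 fun x y => ∀ η ∈ Finset.range (nQ σ m + 1),
      Tr (La m (cx' (sq (p x))) η) (La m (cx' (sq (p y))) η) :=
    D.all _ (by simpa using lt _ (by omega)) fun η hη => all.trace α _ B Δ 197 _ _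
      (le_B h1 s1 (by nlinarith) le_rfl) (fun x _ => all.pp_La _ η) fun Θ le' t ht =>
        all.lamA α σ B Θ 27 m _ _ _ sB (le_B h1 s1 (by nlinarith) (by omega))
          (fun x hx => dc' x (le'.1 hx)) (a1.ext (le.trans le')) (((a4.ext le').arc ht
            (lt _ (by have := Finset.mem_range.1 hη; omega)).le).mono (by omega))
  have a5 : A B Δ 27 fun x => (ls m (cx' (sq (p x))) : ℂ) := (a4.ofReal (𝕜 := ℂ)).mono (by omega)
  have a6 : AM B Δ 107 fun x => Fe m (p x) :=
    (all.flA α σ B Δ 27 m _ _ sB (fun x hx => (dc' x hx).le) (a1.ext le) a5).1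
  have dF : Dm Δ (m + 1) fun x => Fe m (p x) := fun x hx => deg_Fl (dc' x hx) _
  have t2 := all.typ α _ _ B Δ 197 500 (fun x => Le m (p x)) (fun x => lab m (p x))
    (le_B h1 s1 (by nlinarith) (by omega))
    (all.lamA α σ B Δ 27 m _ _ _ sB (s3.trans sB) dc' (a1.ext le) a5) fun Θ le' z hz hr => by
      have ru : ∀ q : α → MvPolynomial σ ℂ, Dm Θ (m + 1) q → AM B Θ 131 q →
          A B Θ 433 fun x => (eval (cpv (Fe m (p x)) (z x)) (q x)).re := fun q a b =>
        (all.rurA α σ B Θ 131 m _ q _ z sB (fun x hx => dc' x (le'.1 hx)) a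
          ((a1.ext (le.trans le')).mono (by omega)) b ((a5.ext le').mono (by omega))
          (hz.mono (by omega)) fun x hx => ⟨hr x hx, all.mor_ls (by omega) (dc' x (le'.1 hx))⟩).re
      have u1 := D.all Finset.univ h2 fun j _ => D.sign (ru (fun x => cx' (p x j)) (fun x hx =>
        (deg_cx _).trans ((hd j x (le.1 (le'.1 hx))).trans (by have := dd j; omega)))
          (((h j).ext (le.trans le')).ofReal.mono (by omega)))
      have dp : ∀ j, Dm Θ (m + 1) fun x => pderiv j (Fe m (p x)) := fun j x hx =>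
        (totalDegree_pderiv_le _ _).trans (dF x (le'.1 hx))
      have u2 := all.sigs α σ B Θ 433 (fun x => (Hess (Fe m (p x)) (cpv (Fe m (p x)) (z x))).map
        Complex.re) (lt _ (by omega)) (fun x _ => (hess_symm _ _).map _) fun i j =>
          ru _ (fun x hx => (totalDegree_pderiv_le _ _).trans (dp j x hx))
            (((a6.ext le').pderiv (dF.ext le') (lt _ (by omega)) j).pderiv (dp j) (lt _ (by omega)) i)
      exact D.imp ((((D.sign hz.re).and (D.sign hz.im)).and (u1.and u2)).mono (by omega))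
        fun x _ y _ a => Prod.ext a.1.1 (Prod.ext a.1.2 (Prod.ext
          (funext fun j => a.2.1 j (Finset.mem_univ j)) a.2.2))
  refine D.imp ((t1.and t2).mono (by omega)) fun x hx y hy a π hπ i => ?_
  have inj : ∀ x ∈ Δ.Y, Injective (Le m (p x)) := fun x hx =>
    (all.mor_ls (by omega) (dc' x hx)).choose_spec.inj
  exact H.same (by omega) ho (dq x (le.1 hx)) (dq y (le.1 hy))
    (fun η hη => a.1 η (Finset.mem_range.2 (by omega))) (a.2 (inj x hx) (inj y hy)) hπ i

/-- The homology of every strict sign cell is determined. -/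
theorem core {p : α → τ → MvPolynomial σ ℝ}
    (h1 : sz σ (2 * Fintype.card τ * (d + 1) + 3) ^ 200 ≤ B)
    (hd : ∀ j, Dm Γ d fun x => p x j) (h : ∀ j, AM B Γ e fun x => p x j) :
    D B Γ (e + 4001) fun x y => ∀ π : τ → SignType, (∀ j, π j ≠ 0) → ∀ i,
      hs (cell (p x) π) ∅ i = hs (cell (p y) π) ∅ i ∧ hs (cell (p x) π) ∅ i ≠ ⊤ := by
  classical
  obtain ⟨s1, s2, -, -, -, -, s7⟩ := sizes (σ := σ) (by omega : 3 ≤ 2 * Fintype.card τ * (d + 1) + 3)
  have sB := (Nat.le_self_pow (by omega) _).trans h1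
  have h2 : Fintype.card τ ≤ B := by nlinarith
  have hd' : ∀ j, Dm Γ (d + 1) fun x => p x j := fun j x hx => (hd j x hx).trans d.le_succ
  rcases isEmpty_or_nonempty τ with h0 | ⟨⟨j⟩⟩
  · exact (H.core1 h1 h2 hd' fun j => isEmptyElim j).mono (by omega)
  · refine (AM.share_all h hd h2 ((Nat.pow_le_pow_left ?_ _).trans (s2.trans sB)) fun Δ a b =>
      H.core1 h1 h2 (fun j => (hd' j).ext a) b).mono (by omega)
    have := Fintype.card_pos_iff.2 ⟨j⟩
    nlinarith

variable {k s : ℕ}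

theorem det {α : Type} {Γ : Ctx α} {d : ℕ} {p : α → Fin s → MvPolynomial (Fin k) ℝ}
    {Φ : Set (Fin s → SignType)} (hΦ : UpClosed Φ) {b B : ℕ} [Fact (2 ≤ B)] (hb : 2 ≤ b)
    (h1 : s ≤ b) (h2 : d ≤ b) (hB : b ^ (k + 2) ^ 50 ≤ B) (hd : ∀ j, Dm Γ d fun x => p x j)
    (h : ∀ j, AM B Γ 1 fun x => p x j) : D B Γ 5000 fun x y => ∀ j < k + 2,
      hs (signSet (p x) Φ) ∅ j = hs (signSet (p y) Φ) ∅ j ∧ hs (signSet (p x) Φ) ∅ j ≠ ⊤ := by
  classical
  have hn : 2 ≤ k + 2 := by omega
  have le : ∀ {c x}, Sm b (k + 2) c x → c ≤ 50 → x ≤ B := fun a c => (a.mono hb hn c).trans hB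
  have sb : Sm b (k + 2) 0 b := by simp [Sm]
  have sn : ∀ {c}, 1 ≤ c → Sm b (k + 2) c (k + 2) := fun a => (Sm.self hb).mono hb hn a
  have p4 : ∀ {x}, x ≤ 8 * (b + 2) ^ 2 → Sm b (k + 2) 4 x := fun a => sb.poly hb hn
    (a.trans (by rw [show 4 = 2 + 2 from rfl, pow_add]; exact Nat.mul_le_mul_right _ (by nlinarith)))
  have cq : Fintype.card (Fin s × Bool) = s * 2 := by simp
  have dQ : ∀ q, Dm Γ (d + 1) fun x => Qw (p x) q := fun q x hx =>
    (totalDegree_add _ _).trans (max_le ((totalDegree_mul _ _).trans (by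
      rw [totalDegree_X, add_comm]
      exact Nat.succ_le_succ ((totalDegree_rename_le _ _).trans (hd _ x hx))))
      (by rw [totalDegree_C]; omega))
  have aQ : ∀ q, AM B Γ 18 fun x => Qw (p x) q := fun q =>
    ((AM.X none).mul (AM.rename (Option.some_injective _) (h q.1)) (n := 1)
      (fun _ _ => (totalDegree_X _).le) (le ((p4 (by nlinarith)).pow hb hn (j := 1) (by simp))
        (by omega))).add (AM.C (e := 7) (by
          split_ifs
          exacts [A.one.mono (by omega), A.one.neg]))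
  have t1 : D B Γ 4019 fun x y => Tq (p x) = Tq (p y) :=
    (all.core (le (((p4 (by rw [cq]; nlinarith)).add hb hn (sn (by omega))).sz hb hn (by simp; omega))
      (by omega)) dQ aQ).imp fun x _ y _ a => Set.ext fun π => and_congr_right fun hπ => by
        rw [← hs_one, ← hs_one, (a π hπ 1).1]
  refine (P.cases t1 (e' := 4200) fun c Δ le' hc => ?_).mono (by omega)
  rcases Δ.Y.eq_empty_or_nonempty with h0 | ⟨x₀, hx₀⟩
  · exact D.of_forall (by simp [h0])
  have e := (Finite.equivFin ↥(dec '' c ∩ Φ)).symm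
  have sN : Sm b (k + 2) 5 (Nat.card ↥(dec '' c ∩ Φ)) := by
    refine le_trans ?_ ((p4 (x := 2 * Fintype.card (Fin s × Bool) * (d + 1) + 3)
      (by rw [cq]; nlinarith)).pow hb hn (j := 1) (y := Fintype.card (Option (Fin k))) (by simp))
    refine le_trans ?_ (all.count _ _ _ _ fun q => dQ q x₀ (le'.1 hx₀))
    rw [Nat.card_coe_set_eq, ← hc x₀ hx₀]
    exact (ncard_le_ncard inter_subset_left).trans (ncard_image_le (toFinite _))
  generalize Nat.card ↥(dec '' c ∩ Φ) = N at e sN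
  have sM : Sm b (k + 2) 9 (N + (d + 2)) := sN.add hb hn ((p4 (by nlinarith)).mono hb hn (by omega))
  have big := fun χ : Fin (k + 2) → Option (Fin s) => all.bigA α _ _ _ B Δ 11 d N
    (fun x a => MP_837412_lc.Pa (p x) (e a)) χ (le ((((sM.poly hb hn (y := 2 * (N + d + 2) ^ 2) (by
      rw [show 4 = 2 + 2 from rfl, pow_add, ← add_assoc]
      exact Nat.mul_le_mul (le_trans (by omega) (Nat.le_self_pow two_ne_zero _))
        (Nat.pow_le_pow_left (by omega) 2))).add hb hn
        ((p4 (by simp; nlinarith)).mono hb hn (by omega))).add hb hn (by simpa using sn (by omega))).pow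
          hb hn (j := 3) (by simp; nlinarith [Nat.zero_le (k ^ 3), Nat.zero_le (k ^ 2)])) (by omega))
    (fun a j x hx => by
      rcases j with _ | j
      · simp [MP_837412_lc.Pa]
      · simp only [MP_837412_lc.Pa]
        split_ifs
        · simp
        · exact (totalDegree_mul _ _).trans (by simpa using hd j x (le'.1 hx)))
    fun a j => by
      rcases j with _ | j
      · exact (AM.C A.one).mono (by omega)
      · simp only [MP_837412_lc.Pa]
        split_ifs
        · exact (AM.C A.one).mono (by omega)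
        · refine AM.C_mul (e := 7) ?_ ((h j).ext le')
          rcases (e a).1 j with _ | _ | _
          exacts [by simpa using A.zero.mono (by omega), by simpa using A.one.neg,
            by simpa using A.one.mono (by omega)]
  have sT : Sm b (k + 2) 5 (Fintype.card (Fin (k + 2) → Option (Fin s))) := by
    simpa using (p4 (x := s + 1) (by nlinarith)).pow hb hn (j := 1) (y := k + 2) (by simp)
  refine D.mono ((H.core (le ((((sM.add hb hn (sT.mono hb hn (by omega))).poly hb hn ?_).add hb hn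
    (sn (by omega))).sz hb hn (by simp; omega)) (by omega)) (fun χ => (big χ).2)
      fun χ => (big χ).1).imp fun x hx y hy a j hj => ?_) (by omega)
  · generalize Fintype.card (Fin (k + 2) → Option (Fin s)) = T
    rw [show 4 = 2 + 2 from rfl, pow_add]
    refine le_trans ?_ (Nat.mul_le_mul_right _
      (le_trans (by omega : 4 ≤ _) (Nat.le_self_pow two_ne_zero _)))
    nlinarith [Nat.zero_le (N * N), Nat.zero_le (T * T), Nat.zero_le (d * d), Nat.zero_le (N * d)]
  · have u : ∀ x ∈ Δ.Y, hs (cell (MP_837412_lc.big (ι := Fin (k + 2)) fun a => MP_837412_lc.Pa (p x) (e a))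
        fun _ => 1) ∅ j = hs (signSet (p x) Φ) ∅ j := fun x hx => by
      obtain rfl := hc x hx
      rw [bigS joinS scaleS psiS _ _ _ _ _ j (by simpa using hj), signSet_eq hΦ e]
    rw [← u x hx, ← u y hy]
    exact a _ (fun _ => one_ne_zero) j

theorem main0 (k s d : ℕ) (Φ : Set (Fin s → SignType)) (hΦ : UpClosed Φ) {b : ℕ} (hb : 2 ≤ b)
    (h1 : s ≤ b) (h2 : d ≤ b) : ∃ T : Tree (Fin s × (Fin k →₀ ℕ)), T.depth ≤ b ^ (k + 2) ^ 63 ∧
      ∀ P : Fin s → MvPolynomial (Fin k) ℝ, (∀ j, (P j).totalDegree ≤ d) → ∀ i ≤ k,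
        betti F (signSet P Φ) i = (T.run (fun q => coeff q.2 (P q.1)) []).getD i 0 := by
  have hn : 2 ≤ k + 2 := by omega
  have : Fact (2 ≤ b ^ (k + 2) ^ 50) := ⟨hb.trans (Nat.le_self_pow (by positivity) _)⟩
  have t := H.det (Γ := ⟨{P | ∀ j, (P j).totalDegree ≤ d},
    range fun (q : Fin s × (Fin k →₀ ℕ)) P => coeff q.2 (P q.1)⟩) (p := id) hΦ hb h1 h2 le_rfl
      (fun j P hP => hP j) fun j m => A.of_real ⟨_, ⟨(j, m), rfl⟩, fun _ _ => rfl⟩
  obtain ⟨T, t1, t2⟩ := all.tree _ _ (fun P (q : Fin s × (Fin k →₀ ℕ)) => coeff q.2 (P q.1)) _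
    (fun P => List.ofFn fun i : Fin (k + 1) => (hs (signSet P Φ) ∅ (i + 1)).toNat) _
    (t.imp fun x _ y _ a => by
      congr 1
      exact funext fun i => congrArg _ (a _ (by omega)).1)
  refine ⟨T, t1.trans ?_, fun P hP i hi => ?_⟩
  · exact Sm.depth hb hn (c := 50) this.1 le_rfl (by norm_num)
  · have e := bettiS (signSet P Φ) i
    rw [← hs_image (φ := ⟨Subtype.val, continuous_subtype_val⟩) IsEmbedding.subtypeVal] at e
    simp only [ContinuousMap.coe_mk, image_univ, Subtype.range_coe_subtype, image_empty,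
      ofPred_mem_eq] at e
    rw [t2 P hP, ← Cardinal.toENat_eq_natCast, e]
    rw [List.getD_eq_getElem _ _ (by simpa using Nat.lt_succ_of_le hi), List.getElem_ofFn]
    exact (ENat.natCast_toNat (t.refl P hP _ (by omega)).2).symm

theorem main : ∃ c : ℕ, ∀ (k s d : ℕ) (Φ : Set (Fin s → SignType)), UpClosed Φ →
    ∃ T : Tree (Fin s × (Fin k →₀ ℕ)), T.depth ≤ (s * (d + 1) + 2) ^ (k + 2) ^ c ∧
      ∀ P : Fin s → MvPolynomial (Fin k) ℝ, (∀ j, (P j).totalDegree ≤ d) → ∀ i ≤ k,
        betti F (signSet P Φ) i = (T.run (fun q => coeff q.2 (P q.1)) []).getD i 0 := by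
  refine ⟨63, fun k s d Φ hΦ => ?_⟩
  rcases s with _ | s
  · obtain ⟨T, a, b⟩ := H.main0 k 0 0 Φ hΦ le_rfl (by omega) (by omega)
    exact ⟨T, by simpa using a, fun P _ => b P fun j => j.elim0⟩
  · exact H.main0 k _ d Φ hΦ (by omega) (by nlinarith) (by nlinarith)

end AllK

end Pool.Agent.Lib.MP_837412_lc.K
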