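import Pool.Agent.Lib.MP_837412_lc.KSt

/-!
The homology of sublevel sets of discrete actions is locally constant in tame families.
-/

namespace Pool.Agent.Lib.MP_837412_lc.K

open Set Function Filter Topology MvPolynomial
open Pool.Agent.Shared.Mod2 (I)

namespace KGF

lemma arctan_le {x : ℝ} (hx : 0 ≤ x) : Real.arctan x ≤ x := by
  have := Real.le_tan (Real.arctan_nonneg.2 hx) (Real.arctan_lt_pi_div_two x)
  rwa [Real.tan_arctan] at this

lemma gap {C a ε u v : ℝ} (hC : 0 < C) (ha : 0 < a) (hε : 0 < ε) (h : 4 * C * a ≤ ε) (hu : ε < u)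
    (hv : ε < v) : |C * Real.arctan (u / a) - C * Real.arctan (v / a)| ≤ 1 / 2 := by
  have e1 : Real.arctan (ε / a)⁻¹ = Real.pi / 2 - Real.arctan (ε / a) :=
    Real.arctan_inv_of_pos (div_pos hε ha)
  have e2 : Real.arctan (ε / a)⁻¹ ≤ (ε / a)⁻¹ := arctan_le (by positivity)
  have e3 : C * (ε / a)⁻¹ ≤ 1 / 4 := by
    rw [inv_div, ← mul_div_assoc, div_le_iff₀ hε]; linarith
  have u1 := Real.arctan_lt_pi_div_two (u / a)
  have v1 := Real.arctan_lt_pi_div_two (v / a)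
  have u2 : Real.arctan (ε / a) ≤ Real.arctan (u / a) :=
    Real.arctan_mono (div_le_div_of_nonneg_right hu.le ha.le)
  have v2 : Real.arctan (ε / a) ≤ Real.arctan (v / a) :=
    Real.arctan_mono (div_le_div_of_nonneg_right hv.le ha.le)
  have e4 : |Real.arctan (u / a) - Real.arctan (v / a)| ≤ (ε / a)⁻¹ :=
    abs_le.2 ⟨by linarith, by linarith⟩
  rw [← mul_sub, abs_mul, abs_of_pos hC]
  have := mul_le_mul_of_nonneg_left e4 hC.le
  linarith

lemma exists_rho {Y : ℝ} (hY : 0 < Y) : ∃ ρ : ℝ → ℝ, ContDiff ℝ 2 ρ ∧ (∀ s, |s| ≤ Y → ρ s = s) ∧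
    ∀ s, |ρ s| ≤ Y + 1 := by
  let χ : ContDiffBump (0 : ℝ) := ⟨Y, Y + 1, hY, by linarith⟩
  refine ⟨fun s => s * χ s, contDiff_id.mul χ.contDiff, fun s hs => ?_, fun s => ?_⟩
  · have : χ s = 1 := χ.one_of_mem_closedBall (by simpa using hs)
    simp [this]
  · by_cases hs : |s| ≤ Y + 1
    · rw [abs_mul, abs_of_nonneg χ.nonneg]
      exact (mul_le_of_le_one_right (abs_nonneg _) χ.le_one).trans hs
    · have : χ s = 0 := χ.zero_of_le_dist (by simpa using (not_le.1 hs).le)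
      simp only [this, mul_zero, abs_zero]
      linarith

variable {σ T : Type} [Fintype σ] [DecidableEq σ] [TopologicalSpace T]

omit [DecidableEq σ] in
lemma act_close {N : ℕ} (hN : 0 < N) {K K' : Ph σ → ℝ} (h : ∀ p, |K p - K' p| ≤ 1 / 2)
    (q : Pa σ N) : |act N K q - act N K' q| ≤ 1 / 2 := by
  have hN' : (0 : ℝ) < N := Nat.cast_pos.2 hN
  have e : act N K q - act N K' q = (N : ℝ)⁻¹ * ∑ j, (K (pt q j) - K' (pt q j)) := by
    simp only [act, Finset.sum_sub_distrib]; ring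
  have e2 : |∑ j, (K (pt q j) - K' (pt q j))| ≤ N * (1 / 2) := by
    refine (Finset.abs_sum_le_sum_abs _ _).trans ((Finset.sum_le_sum fun j _ => h _).trans ?_)
    simp
  rw [e, abs_mul, abs_of_pos (inv_pos.2 hN'), inv_mul_le_iff₀ hN']
  exact e2

lemma kh_close {h g : T → Ph σ → ℝ} {ε κ B C a Y : ℝ} (H : Tm h g ε κ B) (hC : 0 < C) (ha : 0 < a)
    (h4 : 4 * C * a ≤ ε) (hY : 0 ≤ Y) {ρ : ℝ → ℝ} (hρ : ∀ s, |ρ s| ≤ Y) (τ₀ : T) :
    ∀ᶠ τ in 𝓝 τ₀, ∀ p, |Kh C a ρ (h τ) p - Kh C a ρ (h τ₀) p| ≤ 1 / 2 := by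
  obtain ⟨R, hR⟩ := H.far Y
  have c : Continuous fun z : T × Ph σ =>
      |C * Real.arctan (h z.1 z.2 / a) - C * Real.arctan (h τ₀ z.2 / a)| := by
    have c1 : Continuous fun z : T × Ph σ => h z.1 z.2 := H.c0
    have c2 : Continuous fun z : T × Ph σ => h τ₀ z.2 :=
      (H.sm τ₀).continuous.comp continuous_snd
    exact ((continuous_const.mul (Real.continuous_arctan.comp (c1.div_const a))).sub
      (continuous_const.mul (Real.continuous_arctan.comp (c2.div_const a)))).abs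
  have k := (isCompact_closedBall (0 : Ph σ) (max R Y)).eventually_forall_of_forall_eventually
    (x₀ := τ₀) (P := fun τ p =>
      |C * Real.arctan (h τ p / a) - C * Real.arctan (h τ₀ p / a)| ≤ 1 / 2) fun y _ =>
      (c.tendsto (τ₀, y)).eventually_le_const (by simp)
  refine k.mono fun τ hτ p => ?_
  have y : ‖fun i => ρ (p.2 i)‖ ≤ Y := (pi_norm_le_iff_of_nonneg hY).2 fun i => hρ _
  by_cases hp : R ≤ ‖p.1‖
  · exact gap hC ha H.ε0 h4 (hR τ _ y hp) (hR τ₀ _ y hp)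
  · refine hτ _ ?_
    rw [mem_closedBall_zero_iff, Prod.norm_def]
    exact max_le_max (not_le.1 hp).le y

omit [DecidableEq σ] in
lemma kh_smooth {h : Ph σ → ℝ} (C a : ℝ) {ρ : ℝ → ℝ} (hh : ContDiff ℝ 2 h) (hρ : ContDiff ℝ 2 ρ) :
    ContDiff ℝ 2 (Kh C a ρ h) := by
  have e : ContDiff ℝ 2 fun p : Ph σ => ((p.1, fun i => ρ (p.2 i)) : Ph σ) :=
    contDiff_fst.prodMk (contDiff_pi.2 fun i => hρ.comp ((contDiff_apply ℝ ℝ i).comp contDiff_snd))
  exact contDiff_const.mul (Real.contDiff_arctan.comp ((hh.comp e).div_const a))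

lemma cont_sum {A A' P E : Type} [TopologicalSpace A] [TopologicalSpace A'] [TopologicalSpace P]
    [TopologicalSpace E] {F : (A ⊕ A') × P → E}
    (h : Continuous fun q : A × P => F (Sum.inl q.1, q.2))
    (h' : Continuous fun q : A' × P => F (Sum.inr q.1, q.2)) : Continuous F := by
  have e : F = Sum.elim (fun q : A × P => F (Sum.inl q.1, q.2))
      (fun q : A' × P => F (Sum.inr q.1, q.2)) ∘ Homeomorph.sumProdDistrib := by
    funext ⟨a, p⟩
    cases a <;> rfl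
  rw [e]
  exact (h.sumElim h').comp (Homeomorph.continuous _)

lemma tm_sum {T' : Type} [TopologicalSpace T'] {h g : T → Ph σ → ℝ} {h' g' : T' → Ph σ → ℝ}
    {ε κ B : ℝ} (H : Tm h g ε κ B) (H' : Tm h' g' ε κ B) :
    Tm (Sum.elim h h') (Sum.elim g g') ε κ B where
  ε0 := H.ε0
  κ0 := H.κ0
  B0 := H.B0
  sm := by rintro (τ | τ); exacts [H.sm τ, H'.sm τ]
  dg := by rintro (τ | τ); exacts [H.dg τ, H'.dg τ]
  c0 := cont_sum H.c0 H'.c0
  c0g := cont_sum H.c0g H'.c0g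
  c1 := cont_sum H.c1 H'.c1
  c1g := cont_sum H.c1g H'.c1g
  bd := by rintro (τ | τ); exacts [H.bd τ, H'.bd τ]
  pos := by rintro (τ | τ); exacts [H.pos τ, H'.pos τ]
  far := fun Y => by
    obtain ⟨R, hR⟩ := H.far Y
    obtain ⟨R', hR'⟩ := H'.far Y
    refine ⟨max R R', ?_⟩
    rintro (τ | τ) p h1 h2
    exacts [hR τ p h1 ((le_max_left _ _).trans h2), hR' τ p h1 ((le_max_right _ _).trans h2)]

end KGF

variable [Coef]

theorem gfS (h1 : CritK) (h2 : ChordS) (h3 : AcS) (h4 : LinS) : GFS := by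
  intro σ T _ _ _ _ h g ε κ B H
  obtain ⟨C, a, M, Y, hC, ha, hε, hM, hY, hc⟩ := h2 σ T h g ε κ B H
  obtain ⟨ρ, ρ1, ρ2, ρ3⟩ := KGF.exists_rho hY
  obtain ⟨N, hN, hq⟩ := hc ρ ρ1 ρ2
  have hN' : (0 : ℝ) < N := Nat.cast_pos.2 hN
  have win : ∀ τ, ∀ s ∈ ({0, -M - 1} : Set ℝ), ∀ u v, s - 1 ≤ u → u ≤ v → v ≤ s + 1 →
      Ac {y | act N (Kh C a ρ (h τ)) y < v} {y | act N (Kh C a ρ (h τ)) y < u} := by
    intro τ s hs u v hu huv hv
    have := h3 (Pa σ N) (act N (Kh C a ρ (h τ))) u v univ ∅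
      (h1 σ N _ (KGF.kh_smooth C a (H.sm τ) ρ1)).1 huv isOpen_univ isOpen_empty
      (disjoint_empty _) (by simp) fun b' hb => ⟨1 / (N : ℝ) ^ 2, by positivity, fun y _ hy => by
        by_contra hn
        obtain ⟨e1, e2⟩ := hq τ y (not_le.1 hn).le
        rcases hs with rfl | rfl
        · exact e1.not_ge (abs_le.2 ⟨by linarith [hy.1], by linarith [hy.2]⟩)
        · linarith [hy.2]⟩
    simpa only [inter_univ] using this
  refine ⟨fun k j => hs {q | act N (Kh C a ρ k) q < 0} {q | act N (Kh C a ρ k) q < -M - 1}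
    (j + Fintype.card (Fin N × σ)), ?_, fun τ hτ j => ?_⟩
  · refine (IsLocallyConstant.iff_eventually_eq _).2 fun τ₀ => ?_
    refine (KGF.kh_close H hC ha hε (by linarith) ρ3 τ₀).mono fun τ hτ => funext fun j => ?_
    exact sandwich (by linarith) (KGF.act_close hN hτ)
      (fun s hs u v a1 a2 a3 => ⟨win τ s hs u v a1 a2 a3, win τ₀ s hs u v a1 a2 a3⟩) _
  · let Bf : (σ → ℝ) × (Fin N × σ → ℝ) → ℝ := fun z => (N : ℝ)⁻¹ * ∑ j : Fin N,
      C * Real.arctan (h τ (fun i => z.1 i + ∑ l ∈ Finset.Iic j, z.2 (l, i), 0) / a)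
    have cB : Continuous Bf := by
      have := (H.sm τ).continuous
      have := Real.continuous_arctan
      fun_prop
    have eB : ∀ q : Pa σ N, act N (Kh C a ρ (h τ)) q =
        ∑ b, q.2.2 b * q.2.1 b + Bf (q.1, q.2.1) := fun q => by
      simp only [act, Kh, Bf]
      congr 2
      refine Finset.sum_congr rfl fun j _ => ?_
      rw [hτ]
      rfl
    have e0 : ∀ z, Bf (z, 0) = C * Real.arctan (h τ (z, 0) / a) := fun z => by
      simp only [Bf, Pi.zero_apply, Finset.sum_const_zero, add_zero, Finset.sum_const,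
        Finset.card_univ, Fintype.card_fin, nsmul_eq_mul]
      rw [inv_mul_cancel_left₀ hN'.ne']
    have := h4 (σ → ℝ) (Fin N × σ) Bf 0 (-M - 1) cB (by linarith) j
    simp only [eB]
    rw [this]
    congr 1
    · ext z
      simp only [mem_ofPred_eq, e0]
      rw [← not_le, mul_nonneg_iff_of_pos_left hC, not_le, Real.arctan_lt_zero, div_lt_iff₀ ha,
        zero_mul]
    · refine eq_empty_of_forall_notMem fun z hz => ?_
      simp only [mem_ofPred_eq, e0] at hz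
      have e1 := Real.neg_pi_div_two_lt_arctan (h τ (z, 0) / a)
      have e2 := Real.pi_le_four
      nlinarith

theorem endS (h1 : GFS) (h2 : LegS) : EndS := by
  intro σ T _ _ _ _ _ h g ε κ B τ τ' f f' H hf hf' j
  obtain ⟨Γ, hΓ⟩ := h2 σ T h g ε κ B τ f H hf
  obtain ⟨Γ', hΓ'⟩ := h2 σ T h g ε κ B τ' f' H hf'
  obtain ⟨J, hJ, hJ'⟩ := h1 σ (T ⊕ I ⊕ I) _ _ ε κ B (KGF.tm_sum H (KGF.tm_sum hΓ hΓ'))
  have e1 : J (h τ) = J (h τ') :=
    (hJ.comp_continuous continuous_inl).apply_eq_of_preconnectedSpace τ τ'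
  have e2 := (hJ.comp_continuous
    (continuous_inr.comp continuous_inl)).apply_eq_of_preconnectedSpace (0 : I) 1
  have e3 := (hJ.comp_continuous
    (continuous_inr.comp continuous_inr)).apply_eq_of_preconnectedSpace (0 : I) 1
  have e4 := hJ' (Sum.inr (Sum.inl 0)) (fun p => by simp) j
  have e5 := hJ' (Sum.inr (Sum.inr 0)) (fun p => by simp) j
  simp only [comp_apply, Sum.elim_inr, Sum.elim_inl, Icc.coe_one, one_smul, Prod.mk.eta,
    smul_zero] at e2 e3 e4 e5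
  rw [← e4, ← e5, e2, e3]
  exact congrFun e1 j

end Pool.Agent.Lib.MP_837412_lc.K
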