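import Pool.Agent.Lib.MP_837412_lc.KSt

/-!
Continuous labellings of distinct roots along an interval, and persistence of the order type.
-/

namespace Pool.Agent.Lib.MP_837412_lc.K

open Set Function Filter Topology
open Pool.Agent.Shared.Mod2 (I)

namespace KLift

variable {ι : Type} [Fintype ι]

lemma exists_sep {c : ι → ℂ} (h : Injective c) : ∃ δ > 0, ∀ i j, ‖c i - c j‖ < 3 * δ → i = j := by
  have : ∀ᶠ δ in 𝓝[>] (0 : ℝ), ∀ i j, ‖c i - c j‖ < 3 * δ → i = j := by
    refine eventually_all.2 fun i => eventually_all.2 fun j => ?_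
    by_cases e : i = j
    · exact Eventually.of_forall fun _ _ => e
    · have p : 0 < ‖c i - c j‖ / 3 := div_pos (norm_pos_iff.2 (sub_ne_zero.2 (h.ne e))) three_pos
      exact (eventually_nhdsWithin_of_eventually_nhds (eventually_lt_nhds p)).mono
        fun δ h1 h2 => absurd h2 (by linarith)
  obtain ⟨δ, h1, h2⟩ := (this.and self_mem_nhdsWithin).exists
  exact ⟨δ, h2, h1⟩

lemma local_lift (h : NearS) {b : I → ι → ℂ} (hb : ∀ j, Continuous fun u => (chi (b u)).coeff j)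
    (hi : ∀ u, Injective (b u)) (u₀ : I) : ∃ U ∈ 𝓝 u₀, ∃ a : I → ι → ℂ, ContinuousOn a U ∧
      ∀ u ∈ U, ∃ e : Equiv.Perm ι, a u = b u ∘ e := by
  obtain ⟨δ, δ0, hδ⟩ := exists_sep (hi u₀)
  have hU := h I ι b u₀ (fun j => (hb j).continuousAt) (hi u₀) δ δ0
  have : Nonempty (Equiv.Perm ι) := ⟨1⟩
  choose! e he using fun u (hu : u ∈ {u | ∃ e : Equiv.Perm ι, ∀ i, ‖b u (e i) - b u₀ i‖ < δ}) => hu
  refine ⟨_, hU, fun u => b u ∘ e u, continuousOn_pi.2 fun i u₁ h₁ => ?_, fun u _ => ⟨_, rfl⟩⟩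
  refine Metric.tendsto_nhds.2 fun ε ε0 => ?_
  have h2 := h I ι b u₁ (fun j => (hb j).continuousAt) (hi u₁) _ (lt_min ε0 δ0)
  filter_upwards [eventually_nhdsWithin_of_eventually_nhds h2, self_mem_nhdsWithin] with u ⟨f, hf⟩ hu
  have a1 := hf (e u₁ i)
  have a2 := he u₁ h₁ i
  have a3 := he u hu ((e u).symm (f (e u₁ i)))
  rw [Equiv.apply_symm_apply] at a3
  have a4 : i = (e u).symm (f (e u₁ i)) := by
    refine hδ _ _ ?_
    have a5 := min_le_right ε δ
    rw [← dist_eq_norm] at *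
    have t1 := dist_triangle4 (b u₀ i) (b u₁ (e u₁ i)) (b u (f (e u₁ i)))
      (b u₀ ((e u).symm (f (e u₁ i))))
    rw [dist_comm (b u₀ i) (b u₁ _), dist_comm (b u₁ _) (b u _)] at t1
    linarith
  rw [Equiv.eq_symm_apply] at a4
  rw [dist_eq_norm, comp_apply, comp_apply, a4]
  exact a1.trans_le (min_le_left _ _)

/-- A lift on an initial segment. -/
def Ini (b : I → ι → ℂ) (s : I) : Prop := ∃ a : I → ι → ℂ, ContinuousOn a (Iic s) ∧ a 0 = b 0 ∧
  ∀ u ≤ s, ∃ e : Equiv.Perm ι, a u = b u ∘ e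

omit [Fintype ι] in
lemma Ini.step {b : I → ι → ℂ} {s t : I} (h : Ini b s) {U : Set I} (hU : OrdConnected U)
    (hs : s ∈ U) (ht : t ∈ U) {c : I → ι → ℂ} (hc : ContinuousOn c U)
    (hb : ∀ u ∈ U, ∃ e : Equiv.Perm ι, c u = b u ∘ e) : Ini b t := by
  classical
  obtain ⟨a, a1, a2, a3⟩ := h
  rcases le_total t s with l | l
  · exact ⟨a, a1.mono (Iic_subset_Iic.2 l), a2, fun u hu => a3 u (hu.trans l)⟩
  obtain ⟨e, he⟩ := a3 s le_rfl
  obtain ⟨f, hf⟩ := hb s hs
  have g : c s ∘ (e.trans f.symm) = a s := by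
    rw [he, hf]; funext i; simp
  refine ⟨fun u => if u ≤ s then a u else c u ∘ (e.trans f.symm), ?_, ?_, fun u hu => ?_⟩
  · rw [← Iic_union_Icc_eq_Iic l]
    refine ContinuousOn.union_of_isClosed (a1.congr fun u hu => if_pos hu) ?_ isClosed_Iic
      isClosed_Icc
    refine ContinuousOn.congr (f := fun u => c u ∘ (e.trans f.symm))
      (continuousOn_pi.2 fun i => continuousOn_pi.1 (hc.mono (hU.out hs ht)) _) fun u hu => ?_
    by_cases k : u ≤ s
    · rw [le_antisymm k hu.1]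
      exact (if_pos le_rfl).trans g.symm
    · exact if_neg k
  · exact (if_pos s.2.1).trans a2
  · by_cases k : u ≤ s
    · simpa only [if_pos k] using a3 u k
    · obtain ⟨f', hf'⟩ := hb u (hU.out hs ht ⟨(not_le.1 k).le, hu⟩)
      exact ⟨(e.trans f.symm).trans f', by simp only [if_neg k, hf']; rfl⟩

end KLift

open KLift

theorem liftS (h : NearS) : LiftS := by
  intro ι _ b hb hi
  have lc : IsLocallyConstant (Ini b) := by
    refine (IsLocallyConstant.iff_eventually_eq _).2 fun u₀ => ?_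
    obtain ⟨U, hU, c, hc, hc'⟩ := local_lift h hb hi u₀
    have hV := ordConnectedComponent_mem_nhds.2 hU
    have sV : ordConnectedComponent U u₀ ⊆ U := ordConnectedComponent_subset
    have oV : OrdConnected (ordConnectedComponent U u₀) := inferInstance
    have m := mem_of_mem_nhds hV
    filter_upwards [hV] with u hu
    exact propext ⟨fun k => k.step oV hu m (hc.mono sV) fun v hv => hc' v (sV hv),
      fun k => k.step oV m hu (hc.mono sV) fun v hv => hc' v (sV hv)⟩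
  have h0 : Ini b 0 := ⟨fun _ => b 0, continuousOn_const, rfl, fun u hu => ⟨1, by
    rw [le_antisymm hu u.2.1]; rfl⟩⟩
  obtain ⟨a, a1, a2, a3⟩ : Ini b 1 := lc.apply_eq_of_preconnectedSpace 0 1 ▸ h0
  refine ⟨a, continuousOn_univ.1 (a1.mono fun u _ => u.2.2), a2, fun u => a3 u u.2.2⟩

theorem isoS (h1 : AutS) (h2 : DegS) (h3 : DnS) : IsoS := by
  intro ι _ a a' ha ha' hi h0 hs
  have dn : ∀ c : I → ι → ℂ, Continuous c → ∀ u₀, ∀ᶠ u in 𝓝 u₀, Dn (c u₀) (c u) := fun c hc u₀ => by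
    obtain ⟨δ, δ0, hδ⟩ := h3 ι (c u₀)
    refine (Metric.tendsto_nhds.1 (hc.tendsto u₀) δ δ0).mono fun u hu => (hδ _ fun i => ?_).1
    rw [← dist_eq_norm]
    exact (dist_le_pi_dist _ _ i).trans_lt hu
  have lc : IsLocallyConstant fun u => Iso (a u) (a' u) := by
    refine (IsLocallyConstant.iff_eventually_eq _).2 fun u₀ => ?_
    filter_upwards [dn a ha u₀, dn a' ha' u₀] with u d d'
    refine propext ⟨fun k => h2 ι _ _ _ _ d d' k (hs u₀), fun k => ?_⟩
    obtain ⟨e, he⟩ := hs u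
    have k2 := h2 ι (a u₀) (a u) (a' u₀ ∘ e) (a' u ∘ e) d (fun i j => d' _ _) he
      ⟨e.symm, by simpa [comp_assoc] using k⟩
    obtain rfl : e = 1 := h1 ι _ _ e 1 (hi u₀) k2 k
    exact he
  exact fun u => lc.apply_eq_of_preconnectedSpace 0 u ▸ h0

end Pool.Agent.Lib.MP_837412_lc.K
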