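import Pool.Agent.Lib.MP_837412_lc.KSt

/-!
Functions that are linear in half of the auxiliary variables: the degree shift.
-/

namespace Pool.Agent.Lib.MP_837412_lc.K

open Set Topology
open Pool.Agent.Shared.Mod2 (I)

variable [Coef]

namespace KLin

variable {Y : Type} [TopologicalSpace Y]

/-- A half space of an invariant pair is a weak deformation retract. -/
lemma half {A B : Set Y} (φ : Y → ℝ) (hφ : Continuous φ) (τ : ℝ × Y → Y) (hτ : Continuous τ)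
    (τ0 : ∀ y, τ (0, y) = y) (τφ : ∀ s y, φ (τ (s, y)) = φ y + s)
    (τA : ∀ s, ∀ y ∈ A, τ (s, y) ∈ A) (τB : ∀ s, ∀ y ∈ B, τ (s, y) ∈ B) :
    Ac A (B ∪ A ∩ {y | 0 < φ y}) := by
  refine wd fun K hK hA => ?_
  obtain ⟨b, hb⟩ := hK.bddBelow_image hφ.continuousOn
  have hT : (0 : ℝ) ≤ |b| + 1 := by positivity
  refine ⟨⟨fun p => τ ((p.1 : ℝ) * (|b| + 1), p.2), by fun_prop⟩, ?_, ?_, ?_, ?_⟩
  · intro y
    simp [τ0]
  · intro t y hy
    exact τA _ _ (hA hy)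
  · rintro t y - (h | h)
    · exact Or.inl (τB _ _ h)
    · refine Or.inr ⟨τA _ _ h.1, ?_⟩
      have h1 : 0 < φ y := h.2
      have h2 := mul_nonneg t.2.1 hT
      show 0 < φ (τ ((t : ℝ) * (|b| + 1), y))
      rw [τφ]
      linarith
  · intro y hy
    refine Or.inr ⟨τA _ _ (hA hy), ?_⟩
    have h1 : b ≤ φ y := hb ⟨y, hy, rfl⟩
    have h2 := neg_abs_le b
    show 0 < φ (τ (((1 : I) : ℝ) * (|b| + 1), y))
    rw [τφ]
    simp only [Icc.coe_one, one_mul]
    linarith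

/-- The suspension step. -/
lemma step {A B : Set Y} (oA : IsOpen A) (oB : IsOpen B) (hBA : B ⊆ A) (φ : Y → ℝ)
    (hφ : Continuous φ) (τ : ℝ × Y → Y) (hτ : Continuous τ)
    (τ0 : ∀ y, τ (0, y) = y) (τφ : ∀ s y, φ (τ (s, y)) = φ y + s)
    (τA : ∀ s, ∀ y ∈ A, τ (s, y) ∈ A) (τB : ∀ s, ∀ y ∈ B, τ (s, y) ∈ B) (k : ℕ) :
    hs A (B ∪ A ∩ {y | φ y ≠ 0}) (k + 1) = hs A B k := by
  have hP := half φ hφ τ hτ τ0 τφ τA τB
  have hQ := half (A := A) (B := B) (fun y => -φ y) hφ.neg (fun p => τ (-p.1, p.2)) (by fun_prop)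
    (fun y => by simp [τ0]) (fun s y => by simp only [τφ]; ring) (fun s y hy => τA _ _ hy)
    (fun s y hy => τB _ _ hy)
  have oP : IsOpen (B ∪ A ∩ {y | 0 < φ y}) :=
    oB.union (oA.inter (isOpen_lt continuous_const hφ))
  have oQ : IsOpen (B ∪ A ∩ {y | 0 < -φ y}) :=
    oB.union (oA.inter (isOpen_lt continuous_const hφ.neg))
  have e1 : B ∪ A ∩ {y | φ y ≠ 0} = (B ∪ A ∩ {y | 0 < -φ y}) ∪ (B ∪ A ∩ {y | 0 < φ y}) := by
    ext y
    constructor
    · rintro (h | ⟨h, h'⟩)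
      · exact Or.inl (Or.inl h)
      · rcases lt_or_gt_of_ne (show φ y ≠ 0 from h') with h2 | h2
        · exact Or.inl (Or.inr ⟨h, neg_pos.2 h2⟩)
        · exact Or.inr (Or.inr ⟨h, h2⟩)
    · rintro ((h | ⟨h, h'⟩) | (h | ⟨h, h'⟩))
      · exact Or.inl h
      · exact Or.inr ⟨h, (neg_pos.1 h').ne⟩
      · exact Or.inl h
      · exact Or.inr ⟨h, ne_of_gt h'⟩
  have e2 : (B ∪ A ∩ {y | 0 < -φ y}) ∩ (B ∪ A ∩ {y | 0 < φ y}) = B := by
    refine Subset.antisymm ?_ (subset_inter subset_union_left subset_union_left)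
    rintro y ⟨h | ⟨-, h⟩, h' | ⟨-, h'⟩⟩
    · exact h
    · exact h
    · exact h'
    · have h1 : 0 < -φ y := h
      have h2 : 0 < φ y := h'
      linarith
  have sP : B ∪ A ∩ {y | 0 < φ y} ⊆ A := union_subset hBA inter_subset_left
  have sQ : B ∪ A ∩ {y | 0 < -φ y} ⊆ A := union_subset hBA inter_subset_left
  rw [e1, hP.shift subset_union_right (union_subset sQ sP), exc oQ oP, e2,
    hQ.left subset_union_left sQ]

lemma ac_cyl {E : Type} [NormedAddCommGroup E] [NormedSpace ℝ E] (S : Set Y) :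
    Ac (Prod.fst ⁻¹' S : Set (Y × E)) ((fun y => (y, (0 : E))) '' S) := by
  refine wd fun K _ hK => ?_
  refine ⟨⟨fun p => (p.2.1, (1 - (p.1 : ℝ)) • p.2.2), by fun_prop⟩, ?_, ?_, ?_, ?_⟩
  · intro y; simp
  · intro t y hy; exact (hK hy : y.1 ∈ S)
  · rintro t _ - ⟨y, hy, rfl⟩
    exact ⟨y, hy, by simp⟩
  · intro y hy
    exact ⟨y.1, hK hy, by simp⟩

/-- A vector space factor does not change the homology of a pair. -/
lemma prod_pair {E : Type} [NormedAddCommGroup E] [NormedSpace ℝ E] {U U' : Set Y} (h : U' ⊆ U)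
    (j : ℕ) : hs (Prod.fst ⁻¹' U : Set (Y × E)) (Prod.fst ⁻¹' U') j = hs U U' j := by
  let φ : C(Y, Y × E) := ⟨fun y => (y, 0), by fun_prop⟩
  rw [← hs_image (φ := φ) (isEmbedding_prodMkLeft (0 : E)) U U' j]
  refine Ac.pair (ac_cyl U) (ac_cyl U') ?_ (preimage_mono h) (image_mono h) ?_ j
  · rintro _ ⟨y, hy, rfl⟩; exact hy
  · rintro _ ⟨y, hy, rfl⟩; exact hy

/-- The iterated suspension. -/
lemma susp {ι : Type} [Fintype ι] {U U' : Set Y} (oU : IsOpen U) (oU' : IsOpen U') (h : U' ⊆ U)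
    (s : Finset ι) (j : ℕ) :
    hs (Prod.fst ⁻¹' U : Set (Y × (ι → ℝ) × (ι → ℝ)))
      {q | q.1 ∈ U' ∨ (q.1 ∈ U ∧ ∃ i ∈ s, q.2.1 i ≠ 0)} (j + s.card) = hs U U' j := by
  classical
  induction s using Finset.induction_on with
  | empty =>
    rw [← prod_pair (E := (ι → ℝ) × (ι → ℝ)) h j]
    congr 1
    ext q
    simp
  | insert a s ha ih =>
    rw [← ih, Finset.card_insert_of_notMem ha, ← add_assoc]
    have o1 : IsOpen (Prod.fst ⁻¹' U : Set (Y × (ι → ℝ) × (ι → ℝ))) := oU.preimage continuous_fst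
    have o2 : IsOpen {q : Y × (ι → ℝ) × (ι → ℝ) |
        q.1 ∈ U' ∨ (q.1 ∈ U ∧ ∃ i ∈ s, q.2.1 i ≠ 0)} := by
      have e : {q : Y × (ι → ℝ) × (ι → ℝ) | ∃ i ∈ s, q.2.1 i ≠ 0} =
          ⋃ i ∈ s, {q : Y × (ι → ℝ) × (ι → ℝ) | q.2.1 i ≠ 0} := by
        ext q
        simp
      have o3 : IsOpen {q : Y × (ι → ℝ) × (ι → ℝ) | ∃ i ∈ s, q.2.1 i ≠ 0} := by
        rw [e]
        exact isOpen_biUnion fun i _ => isOpen_ne_fun (by fun_prop) continuous_const
      exact (oU'.preimage continuous_fst).union (o1.inter o3)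
    rw [← step o1 o2 (φ := fun q => q.2.1 a)
      (τ := fun p => (p.2.1, p.2.2.1 + p.1 • (Pi.single a 1 : ι → ℝ), p.2.2.2))
      (by rintro q (hq | hq); exacts [h hq, hq.1]) (by fun_prop) (by fun_prop)
      (fun y => by simp) (fun t y => by simp) (fun t y hy => hy) ?_]
    · congr 1
      ext q
      simp only [mem_ofPred_eq, Finset.mem_insert, exists_eq_or_imp, mem_union, mem_inter_iff,
        mem_preimage]
      constructor
      · rintro (h1 | ⟨h1, h2 | h2⟩)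
        exacts [Or.inl (Or.inl h1), Or.inr ⟨h1, h2⟩, Or.inl (Or.inr ⟨h1, h2⟩)]
      · rintro ((h1 | ⟨h1, h2⟩) | ⟨h1, h2⟩)
        exacts [Or.inl h1, Or.inr ⟨h1, Or.inr h2⟩, Or.inr ⟨h1, Or.inl h2⟩]
    · rintro t q (hq | ⟨hq, i, hi, hq'⟩)
      · exact Or.inl hq
      · refine Or.inr ⟨hq, i, hi, ?_⟩
        have : i ≠ a := fun e => ha (e ▸ hi)
        simpa [Pi.single_eq_of_ne this] using hq'

/-- Excision through a common open neighbourhood of the difference. -/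
lemma exc2 {X X₀ : Set Y} {N : Set Y} (oX : IsOpen X) (oX₀ : IsOpen X₀) (oN : IsOpen N)
    (h : ∀ y, y ∉ N → (y ∈ X ↔ y ∈ X₀)) (k : ℕ) : hs X (X ∩ N) k = hs X₀ (X₀ ∩ N) k := by
  have key : ∀ {X X₀ : Set Y}, IsOpen X → IsOpen X₀ → (∀ y, y ∉ N → y ∈ X → y ∈ X₀) →
      hs X (X ∩ N) k = hs (X ∩ X₀) (X ∩ X₀ ∩ N) k := by
    intro X X₀ oX oX₀ h
    have e : X = X ∩ X₀ ∪ X ∩ N := by
      refine Subset.antisymm (fun y hy => ?_) (union_subset inter_subset_left inter_subset_left)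
      by_cases hN : y ∈ N
      · exact Or.inr ⟨hy, hN⟩
      · exact Or.inl ⟨hy, h y hN hy⟩
    have e2 : X ∩ X₀ ∩ (X ∩ N) = X ∩ X₀ ∩ N := by
      ext y
      simp only [mem_inter_iff]
      tauto
    refine (congrArg (hs · _ k) e).trans ?_
    rw [exc (oX.inter oX₀) (oX.inter oN), e2]
  rw [key oX oX₀ fun y hy => (h y hy).1, key oX₀ oX fun y hy => (h y hy).2, inter_comm]

end KLin

open KLin in
theorem linS : LinS := by
  intro Z ι _ _ B c m hB hm j
  let A : Z × (ι → ℝ) × (ι → ℝ) → ℝ := fun q => ∑ a, q.2.2 a * q.2.1 a + B (q.1, q.2.1)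
  have cA : Continuous A := by fun_prop
  have c0 : Continuous fun z : Z => B (z, 0) := by fun_prop
  have A0 : ∀ q : Z × (ι → ℝ) × (ι → ℝ), q.2.1 = 0 → A q = B (q.1, 0) := fun q hq => by
    simp [A, hq]
  have oX : ∀ t, IsOpen {q | A q < t} := fun t => isOpen_lt cA continuous_const
  have oU : ∀ t, IsOpen {z : Z | B (z, 0) < t} := fun t => isOpen_lt c0 continuous_const
  have oV : IsOpen {q : Z × (ι → ℝ) × (ι → ℝ) | q.2.1 ≠ 0} :=
    isOpen_ne_fun (by fun_prop) continuous_const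
  have sub : {q | A q < m} ⊆ {q | A q < c} := fun q hq => lt_of_lt_of_le hq hm
  have subU : {z : Z | B (z, 0) < m} ⊆ {z | B (z, 0) < c} := fun q hq => lt_of_lt_of_le hq hm
  have ac : Ac ({q | A q < c} ∩ {q | q.2.1 ≠ 0} ∪ {q | A q < m}) {q | A q < m} := by
    intro k
    rw [exc ((oX c).inter oV) (oX m)]
    refine wd (fun K hK hA => ?_) k
    let n : Z × (ι → ℝ) × (ι → ℝ) → ℝ := fun q => ∑ a, q.2.1 a * q.2.1 a
    have cn : Continuous n := by fun_prop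
    have n0 : ∀ q, 0 ≤ n q := fun q => Finset.sum_nonneg fun a _ => mul_self_nonneg _
    have np : ∀ q ∈ K, 0 < n q := fun q hq => by
      obtain ⟨a, ha⟩ := Function.ne_iff.1 (show q.2.1 ≠ 0 from (hA hq).2)
      exact Finset.sum_pos' (fun a _ => mul_self_nonneg _)
        ⟨a, Finset.mem_univ _, mul_self_pos.2 ha⟩
    obtain ⟨b, hb⟩ := hK.bddAbove_image (f := fun q => (c - m) / n q)
      (continuousOn_const.div cn.continuousOn fun q hq => (np q hq).ne')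
    have hT : (0 : ℝ) ≤ |b| := abs_nonneg b
    have hM : ∀ q ∈ K, c - m ≤ |b| * n q := fun q hq => by
      have h1 : (c - m) / n q ≤ b := hb ⟨q, hq, rfl⟩
      rw [← div_le_iff₀ (np q hq)]
      exact h1.trans (le_abs_self b)
    have eA : ∀ (s : ℝ) (q : Z × (ι → ℝ) × (ι → ℝ)),
        A (q.1, q.2.1, q.2.2 - s • q.2.1) = A q - s * n q := fun s q => by
      simp only [A, n, Pi.sub_apply, Pi.smul_apply, smul_eq_mul, sub_mul, Finset.sum_sub_distrib,
        Finset.mul_sum, mul_assoc]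
      ring
    refine ⟨⟨fun p => (p.2.1, p.2.2.1, p.2.2.2 - ((p.1 : ℝ) * |b|) • p.2.2.1), by fun_prop⟩,
      ?_, ?_, ?_, ?_⟩
    · intro y
      simp
    · intro t y hy
      refine ⟨?_, (hA hy).2⟩
      have h1 : A y < c := (hA hy).1
      have h2 := mul_nonneg (mul_nonneg t.2.1 hT) (n0 y)
      show A (y.1, y.2.1, y.2.2 - ((t : ℝ) * |b|) • y.2.1) < c
      rw [eA]
      linarith
    · rintro t y - ⟨⟨h0, h0'⟩, h1⟩
      have h1' : A y < m := h1
      have h2 := mul_nonneg (mul_nonneg t.2.1 hT) (n0 y)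
      have h3 : A (y.1, y.2.1, y.2.2 - ((t : ℝ) * |b|) • y.2.1) < m := by
        rw [eA]
        linarith
      exact ⟨⟨lt_of_lt_of_le h3 hm, h0'⟩, h3⟩
    · intro y hy
      have h1 : A y < c := (hA hy).1
      have h2 := hM y hy
      have h3 : A (y.1, y.2.1, y.2.2 - (((1 : I) : ℝ) * |b|) • y.2.1) < m := by
        rw [eA]
        simp only [Icc.coe_one, one_mul]
        linarith
      exact ⟨⟨lt_of_lt_of_le h3 hm, (hA hy).2⟩, h3⟩
  let N : Set (Z × (ι → ℝ) × (ι → ℝ)) := {q | q.2.1 ≠ 0} ∪ Prod.fst ⁻¹' {z : Z | B (z, 0) < m}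
  have oN : IsOpen N := oV.union ((oU m).preimage continuous_fst)
  have e1 : {q | A q < c} ∩ {q | q.2.1 ≠ 0} ∪ {q | A q < m} = {q | A q < c} ∩ N := by
    ext q
    by_cases hq : q.2.1 = 0
    · have := A0 q hq
      simp only [N, mem_union, mem_inter_iff, mem_ofPred_eq, mem_preimage, hq, this, ne_eq,
        not_true_eq_false, and_false, false_or]
      exact ⟨fun h => ⟨lt_of_lt_of_le h hm, h⟩, fun h => h.2⟩
    · simp only [N, mem_union, mem_inter_iff, mem_ofPred_eq, mem_preimage, hq, ne_eq,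
        not_false_eq_true, and_true, true_or]
      exact ⟨fun h => h.elim id fun h => lt_of_lt_of_le h hm, Or.inl⟩
  have e2 : (Prod.fst ⁻¹' {z : Z | B (z, 0) < c} : Set (Z × (ι → ℝ) × (ι → ℝ))) ∩ N =
      {q | q.1 ∈ {z : Z | B (z, 0) < m} ∨
        (q.1 ∈ {z : Z | B (z, 0) < c} ∧ ∃ i ∈ Finset.univ, q.2.1 i ≠ 0)} := by
    ext q
    constructor
    · rintro ⟨h1, h2 | h2⟩
      · obtain ⟨a, ha⟩ := Function.ne_iff.1 (show q.2.1 ≠ 0 from h2)
        exact Or.inr ⟨h1, a, Finset.mem_univ _, ha⟩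
      · exact Or.inl h2
    · rintro (h1 | ⟨h1, a, -, ha⟩)
      · exact ⟨subU h1, Or.inr h1⟩
      · exact ⟨h1, Or.inl (Function.ne_iff.2 ⟨a, ha⟩)⟩
  show hs {q | A q < c} {q | A q < m} (j + Fintype.card ι) = _
  rw [ac.right subset_union_right (union_subset inter_subset_left sub), e1,
    exc2 (oX c) ((oU c).preimage continuous_fst) oN ?_, e2]
  · exact susp (oU c) (oU m) subU Finset.univ j
  · intro q hq
    have h0 : q.2.1 = 0 := by
      by_contra h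
      exact hq (Or.inl h)
    show A q < c ↔ B (q.1, 0) < c
    rw [A0 q h0]

end Pool.Agent.Lib.MP_837412_lc.K
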