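import Pool.Agent.Lib.MP_837412_lc.KSt

/-!
Moving finitely many points of the plane by orientation preserving maps.
-/

namespace Pool.Agent.Lib.MP_837412_lc.K

open Set Function Filter Topology
open Pool.Agent.Shared.Mod2 (I)

namespace KPlane

theorem clm_apply (L : ℂ →L[ℝ] ℂ) (z : ℂ) : L z = z.re • L 1 + z.im • L Complex.I := by
  have h : z = z.re • (1 : ℂ) + z.im • Complex.I := by
    apply Complex.ext <;> simp
  conv_lhs => rw [h]
  rw [map_add, map_smul, map_smul]

theorem jac_comp (L M : ℂ →L[ℝ] ℂ) : jac (L.comp M) = jac L * jac M := by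
  simp only [jac, ContinuousLinearMap.comp_apply]
  rw [clm_apply L (M 1), clm_apply L (M Complex.I)]
  simp only [Complex.add_re, Complex.add_im, Complex.smul_re, Complex.smul_im, smul_eq_mul]
  ring

theorem jac_id : jac (ContinuousLinearMap.id ℝ ℂ) = 1 := by
  simp [jac]

theorem jac_near (E : ℂ →L[ℝ] ℂ) (hE : ‖E‖ ≤ 1 / 4) :
    0 < jac (ContinuousLinearMap.id ℝ ℂ + E) := by
  have h1 : ‖E 1‖ ≤ 1 / 4 := by
    have := E.le_opNorm 1
    rw [norm_one, mul_one] at this
    exact this.trans hE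
  have h2 : ‖E Complex.I‖ ≤ 1 / 4 := by
    have := E.le_opNorm Complex.I
    rw [Complex.norm_I, mul_one] at this
    exact this.trans hE
  have a1 := abs_le.1 ((Complex.abs_re_le_norm (E 1)).trans h1)
  have a2 := abs_le.1 ((Complex.abs_im_le_norm (E 1)).trans h1)
  have a3 := abs_le.1 ((Complex.abs_re_le_norm (E Complex.I)).trans h2)
  have a4 := abs_le.1 ((Complex.abs_im_le_norm (E Complex.I)).trans h2)
  simp only [jac, add_apply, ContinuousLinearMap.id_apply, Complex.add_re,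
    Complex.add_im, Complex.one_re, Complex.one_im, Complex.I_re, Complex.I_im, zero_add]
  have b1 : (3 / 4 : ℝ) * (3 / 4) ≤ (1 + (E 1).re) * (1 + (E Complex.I).im) :=
    mul_le_mul (by linarith [a1.1]) (by linarith [a4.1]) (by norm_num) (by linarith [a1.1])
  have b2 : (E Complex.I).re * (E 1).im ≤ 1 / 16 := by
    nlinarith [a2.1, a2.2, a3.1, a3.2]
  linarith

variable {T : Type} [TopologicalSpace T]

theorem pl_id : Pl (fun (_ : T) (z : ℂ) => z) where
  sm _ := contDiff_id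
  c0 := continuous_snd
  c1 := by
    have : (fun q : T × ℂ => fderiv ℝ (fun z : ℂ => z) q.2) =
        fun _ => ContinuousLinearMap.id ℝ ℂ := by
      funext q
      exact fderiv_id
    rw [this]
    exact continuous_const
  det _ z := by
    have : fderiv ℝ (fun z : ℂ => z) z = ContinuousLinearMap.id ℝ ℂ := fderiv_id
    rw [this, jac_id]
    exact one_pos
  out := ⟨0, fun _ _ _ => rfl⟩

theorem pl_comp {φ ψ : T → ℂ → ℂ} (hφ : Pl φ) (hψ : Pl ψ) :
    Pl (fun τ z => φ τ (ψ τ z)) := by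
  have hd : ∀ τ z, fderiv ℝ (fun z => φ τ (ψ τ z)) z =
      (fderiv ℝ (φ τ) (ψ τ z)).comp (fderiv ℝ (ψ τ) z) := fun τ z =>
    fderiv_comp z (((hφ.sm τ).differentiable (by norm_num)) _)
      (((hψ.sm τ).differentiable (by norm_num)) _)
  have hc : Continuous fun q : T × ℂ => (q.1, ψ q.1 q.2) := continuous_fst.prodMk hψ.c0
  refine ⟨fun τ => (hφ.sm τ).comp (hψ.sm τ), hφ.c0.comp hc, ?_, ?_, ?_⟩
  · simp only [hd]
    exact (hφ.c1.comp hc).clm_comp hψ.c1
  · intro τ z
    rw [hd, jac_comp]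
    exact mul_pos (hφ.det _ _) (hψ.det _ _)
  · obtain ⟨N, hN⟩ := hφ.out
    obtain ⟨N', hN'⟩ := hψ.out
    refine ⟨max N N', fun τ z hz => ?_⟩
    rw [hN' τ z ((le_max_right _ _).trans hz), hN τ z ((le_max_left _ _).trans hz)]

/-- One small move of all the points. -/
theorem move (ι : Type) [Fintype ι] [CompactSpace T] (ρ : ℝ) (hρ : 0 < ρ) :
    ∃ δ : ℝ, 0 < δ ∧ ∀ a b : T → ι → ℂ, Continuous a → Continuous b →
      (∀ τ i j, i ≠ j → ρ ≤ ‖a τ i - a τ j‖) → (∀ τ i, ‖b τ i - a τ i‖ ≤ δ) →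
      ∃ B : T → ℂ → ℂ, Pl B ∧ (∀ τ, a τ = b τ → ∀ z, B τ z = z) ∧ ∀ τ i, B τ (a τ i) = b τ i := by
  classical
  let χ : ContDiffBump (0 : ℂ) := ⟨ρ / 2, ρ, by positivity, by linarith⟩
  have hχ : ContDiff ℝ 2 χ := χ.contDiff
  have hχd : Differentiable ℝ χ := hχ.differentiable (by norm_num)
  have hχ1 : Continuous (fderiv ℝ χ) := hχ.continuous_fderiv (by norm_num)
  obtain ⟨K, hK⟩ := hχ1.bounded_above_of_compact_support (χ.hasCompactSupport.fderiv ℝ)
  have hK0 : 0 ≤ K := (norm_nonneg _).trans (hK 0)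
  have h0 : χ 0 = 1 := χ.one_of_mem_closedBall (Metric.mem_closedBall_self χ.rIn_pos.le)
  have hz : ∀ w : ℂ, ρ ≤ ‖w‖ → χ w = 0 := fun w hw =>
    χ.zero_of_le_dist (by simpa using hw)
  have hden : 0 < 4 * ((Fintype.card ι : ℝ) * K + 1) := by positivity
  refine ⟨1 / (4 * ((Fintype.card ι : ℝ) * K + 1)), by positivity, fun a b ha hb hs hab => ?_⟩
  have hd : ∀ τ z, HasFDerivAt (fun z => z + ∑ i, χ (z - a τ i) • (b τ i - a τ i))
      (ContinuousLinearMap.id ℝ ℂ +
        ∑ i, (fderiv ℝ χ (z - a τ i)).smulRight (b τ i - a τ i)) z := by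
    intro τ z
    refine (hasFDerivAt_id z).add (HasFDerivAt.fun_sum fun i _ => ?_)
    have h1 : HasFDerivAt (fun z => χ (z - a τ i)) (fderiv ℝ χ (z - a τ i)) z := by
      have := (hχd (z - a τ i)).hasFDerivAt.comp z ((hasFDerivAt_id z).sub_const (a τ i))
      rw [ContinuousLinearMap.comp_id] at this
      exact this
    exact h1.smul_const (b τ i - a τ i)
  have hai : ∀ i, Continuous fun τ => a τ i := fun i => (continuous_apply i).comp ha
  have hbi : ∀ i, Continuous fun τ => b τ i := fun i => (continuous_apply i).comp hb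
  refine ⟨fun τ z => z + ∑ i, χ (z - a τ i) • (b τ i - a τ i), ⟨fun τ => ?_, ?_, ?_, ?_, ?_⟩,
    ?_, ?_⟩
  · refine contDiff_id.add (ContDiff.sum fun i _ => ?_)
    exact (hχ.comp (contDiff_id.sub contDiff_const)).smul contDiff_const
  · refine continuous_snd.add (continuous_finsetSum _ fun i _ => ?_)
    exact (hχ.continuous.comp (continuous_snd.sub ((hai i).comp continuous_fst))).smul
      (((hbi i).comp continuous_fst).sub ((hai i).comp continuous_fst))
  · simp only [fun τ z => (hd τ z).fderiv]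
    refine continuous_const.add (continuous_finsetSum _ fun i _ => ?_)
    exact (ContinuousLinearMap.smulRightL ℝ ℂ ℂ).continuous₂.comp
      ((hχ1.comp (continuous_snd.sub ((hai i).comp continuous_fst))).prodMk
        (((hbi i).comp continuous_fst).sub ((hai i).comp continuous_fst)))
  · intro τ z
    rw [(hd τ z).fderiv]
    apply jac_near
    calc ‖∑ i, (fderiv ℝ χ (z - a τ i)).smulRight (b τ i - a τ i)‖
        ≤ ∑ i, ‖(fderiv ℝ χ (z - a τ i)).smulRight (b τ i - a τ i)‖ := norm_sum_le _ _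
      _ ≤ ∑ _i : ι, K * (1 / (4 * ((Fintype.card ι : ℝ) * K + 1))) := by
          refine Finset.sum_le_sum fun i _ => ?_
          rw [ContinuousLinearMap.norm_smulRight_apply]
          exact mul_le_mul (hK _) (hab τ i) (norm_nonneg _) hK0
      _ = (Fintype.card ι : ℝ) * K / (4 * ((Fintype.card ι : ℝ) * K + 1)) := by
          rw [Finset.sum_const, Finset.card_univ, nsmul_eq_mul]
          ring
      _ ≤ 1 / 4 := by
          rw [div_le_div_iff₀ hden (by norm_num)]
          linarith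
  · obtain ⟨R, hR⟩ := (isCompact_range ha).isBounded.exists_norm_le
    refine ⟨R + ρ, fun τ z hz' => ?_⟩
    have : ∀ i, χ (z - a τ i) = 0 := fun i => by
      apply hz
      have h1 : ‖a τ i‖ ≤ R := (norm_le_pi_norm (a τ) i).trans (hR _ ⟨τ, rfl⟩)
      have h2 := norm_sub_norm_le z (a τ i)
      linarith
    simp [this]
  · intro τ h z
    simp [h]
  · intro τ i
    show a τ i + ∑ j, χ (a τ i - a τ j) • (b τ j - a τ j) = b τ i
    rw [Finset.sum_eq_single i]
    · rw [sub_self, h0, one_smul, add_sub_cancel]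
    · intro j _ hj
      rw [hz _ (hs τ i j (Ne.symm hj)), zero_smul]
    · intro h
      exact absurd (Finset.mem_univ i) h

/-- Uniform separation of a compact family of injective configurations. -/
theorem sep {ι : Type} [Fintype ι] [CompactSpace T] (c : T → ι → ℂ) (hc : Continuous c)
    (hi : ∀ τ, Injective (c τ)) : ∃ ρ : ℝ, 0 < ρ ∧ ∀ τ i j, i ≠ j → ρ ≤ ‖c τ i - c τ j‖ := by
  have h : ∀ p : ι × ι, ∀ᶠ ρ in 𝓝[>] (0 : ℝ), ∀ τ, p.1 ≠ p.2 → ρ ≤ ‖c τ p.1 - c τ p.2‖ := by
    rintro ⟨i, j⟩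
    by_cases hij : i = j
    · exact Eventually.of_forall fun _ _ h => absurd hij h
    have hco : Continuous fun τ => ‖c τ i - c τ j‖ :=
      (((continuous_apply i).comp hc).sub ((continuous_apply j).comp hc)).norm
    obtain ⟨r, hr, hr'⟩ := (isCompact_univ (X := T)).exists_forall_le' (a := (0 : ℝ))
      hco.continuousOn (fun τ _ => norm_pos_iff.2 (sub_ne_zero.2 fun h => hij (hi τ h)))
    filter_upwards [Ioo_mem_nhdsGT hr] with ρ hρ τ _
    exact hρ.2.le.trans (hr' τ (mem_univ τ))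
  obtain ⟨ρ, h1, h2⟩ := ((eventually_all.2 h).and self_mem_nhdsWithin).exists
  exact ⟨ρ, h2, fun τ i j hij => h1 (i, j) τ hij⟩

/-- The intermediate times. -/
noncomputable def tm (s : ℝ) (u : I) : I := u ⊔ projIcc (0 : ℝ) 1 zero_le_one s

theorem tm_cont (s : ℝ) : Continuous (tm s) := continuous_id.sup continuous_const

theorem tm_zero (u : I) : tm 0 u = u := by
  rw [tm, projIcc_left]
  exact sup_eq_left.2 u.2.1

theorem tm_top (s : ℝ) (hs : 1 ≤ s) (u : I) : tm s u = 1 := by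
  rw [tm, projIcc_of_right_le _ hs]
  exact sup_eq_right.2 u.2.2

theorem tm_one (s : ℝ) : tm s 1 = 1 :=
  sup_eq_left.2 (projIcc (0 : ℝ) 1 zero_le_one s).2.2

theorem tm_dist (s t : ℝ) (u : I) : dist (tm s u) (tm t u) ≤ |s - t| := by
  have h1 : dist (tm s u) (tm t u) =
      |max (u : ℝ) (projIcc (0 : ℝ) 1 zero_le_one s) -
        max (u : ℝ) (projIcc (0 : ℝ) 1 zero_le_one t)| := by
    rw [Subtype.dist_eq, Real.dist_eq]
    rfl
  rw [h1, max_comm (u : ℝ), max_comm (u : ℝ)]
  exact (abs_max_sub_max_le_abs _ _ _).trans (abs_projIcc_sub_projIcc _)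

end KPlane

open KPlane in
theorem planeS : PlaneS := by
  intro ι _ c hc hi
  obtain ⟨ρ, hρ, hs⟩ := sep c hc hi
  obtain ⟨δ, hδ, hm⟩ := move (T := I × I) ι ρ hρ
  obtain ⟨η, hη, hu⟩ := Metric.uniformContinuous_iff_le.1
    (CompactSpace.uniformContinuous_of_continuous hc) δ hδ
  have key : ∀ j : ℕ, ∃ ψ : I × I → ℂ → ℂ, Pl ψ ∧ (∀ r z, ψ (1, r) z = z) ∧
      ∀ u r i, ψ (u, r) (c (u, r) i) = c (tm (j * η) u, r) i := by
    intro j
    induction j with
    | zero => exact ⟨fun _ z => z, pl_id, fun _ _ => rfl, fun u r i => by simp [tm_zero]⟩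
    | succ j ih =>
      obtain ⟨ψ, h1, h2, h3⟩ := ih
      have hcs : ∀ s : ℝ, Continuous fun τ : I × I => c (tm s τ.1, τ.2) := fun s =>
        hc.comp (((tm_cont s).comp continuous_fst).prodMk continuous_snd)
      obtain ⟨B, b1, b2, b3⟩ := hm (fun τ => c (tm (j * η) τ.1, τ.2))
        (fun τ => c (tm ((j + 1 : ℕ) * η) τ.1, τ.2)) (hcs _) (hcs _) (fun τ => hs _) (by
          intro τ i
          have hd : dist (tm ((j + 1 : ℕ) * η) τ.1, τ.2) (tm (j * η) τ.1, τ.2) ≤ η := by
            rw [Prod.dist_eq, dist_self]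
            refine max_le ((tm_dist _ _ _).trans ?_) hη.le
            push_cast
            rw [show ((j : ℝ) + 1) * η - j * η = η by ring, abs_of_pos hη]
          have := hu hd
          rw [← dist_eq_norm]
          exact (dist_le_pi_dist _ _ i).trans this)
      refine ⟨fun τ z => B τ (ψ τ z), pl_comp b1 h1, fun r z => ?_, fun u r i => ?_⟩
      · show B (1, r) (ψ (1, r) z) = z
        rw [h2, b2 (1, r) (by simp [tm_one])]
      · show B (u, r) (ψ (u, r) (c (u, r) i)) = _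
        rw [h3]
        exact b3 (u, r) i
  obtain ⟨n, hn⟩ := exists_nat_ge (1 / η)
  obtain ⟨ψ, h1, h2, h3⟩ := key n
  refine ⟨ψ, h1, h2, fun u r i => ?_⟩
  rw [h3, tm_top _ ((div_le_iff₀ hη).1 hn)]

end Pool.Agent.Lib.MP_837412_lc.K
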