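import Pool.Agent.Lib.MP_837412_lc.KSt

/-!
The homology of the parts of a sublevel set is determined by the total Betti numbers.
-/

namespace Pool.Agent.Lib.MP_837412_lc.K

open Set Function Filter Topology MvPolynomial

namespace KReal

lemma below {ι : Type} [Finite ι] (v : ι → ℝ) (m : ℝ) : ∃ a < m, ∀ i, v i < m → v i < a := by
  have h : ∀ᶠ a in 𝓝[<] m, ∀ i, v i < m → v i < a := by
    refine eventually_all.2 fun i => ?_
    by_cases hi : v i < m
    · exact ((eventually_gt_nhds hi).filter_mono nhdsWithin_le_nhds).mono fun _ h _ => h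
    · exact Eventually.of_forall fun _ h => absurd h hi
  exact ((eventually_mem_nhdsWithin (s := Iio m)).and h).exists

lemma sub {E : Type} (f : E → ℝ) (S : Set E) {a b : ℝ} (h : a ≤ b) :
    {y | f y < a} ∩ S ⊆ {y | f y < b} ∩ S := fun _ hy => ⟨lt_of_lt_of_le hy.1 h, hy.2⟩

section Poly

variable {σ : Type} [Fintype σ]

lemma crit_of {f : MvPolynomial σ ℝ} {y : σ → ℝ} (h : fderiv ℝ (fun y => eval y f) y = 0) :
    Crit f y := by
  classical
  rw [(hasStrictFDerivAt_eval f y).hasFDerivAt.fderiv] at h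
  intro i
  have := congrArg (· (Pi.single i 1)) h
  simpa [dif_apply, Pi.single_apply] using this

/-- The gradient is bounded below on a closed part of a band without critical points. -/
lemma bound {f : MvPolynomial σ ℝ} (hc : ∀ b, IsCompact {y | eval y f ≤ b}) (a b : ℝ)
    {T : Set (σ → ℝ)} (hT : IsOpen T) (h : ∀ y, Crit f y → eval y f ∈ Icc a b → y ∈ T) :
    ∃ κ > 0, ∀ y, eval y f ∈ Icc a b → y ∉ T → κ ≤ ‖fderiv ℝ (fun y => eval y f) y‖ := by
  have k : IsCompact ({y | eval y f ≤ b} ∩ ({y | a ≤ eval y f} ∩ Tᶜ)) :=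
    (hc b).inter_right ((isClosed_le continuous_const (MvPolynomial.continuous_eval f)).inter
      hT.isClosed_compl)
  have c : Continuous fun y => ‖fderiv ℝ (fun y => eval y f) y‖ :=
    ((contDiff_eval f (n := 1)).continuous_fderiv one_ne_zero).norm
  obtain ⟨κ, k1, k2⟩ := k.exists_forall_le' c.continuousOn (a := 0) fun y hy =>
    norm_pos_iff.2 fun e => hy.2.2 (h y (crit_of e) ⟨hy.2.1, hy.1⟩)
  exact ⟨κ, k1, fun y hy hy' => k2 y ⟨hy.2, hy.1, hy'⟩⟩

variable [Coef]

/-- No critical point of the band lies in `S`. -/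
lemma ac_part (h : AcS) {f : MvPolynomial σ ℝ} (hc : ∀ b, IsCompact {y | eval y f ≤ b}) {a b : ℝ}
    (ab : a ≤ b) {S S' : Set (σ → ℝ)} (hS : IsOpen S) (hS' : IsOpen S') (hd : Disjoint S S')
    (hb : {y | eval y f < b} ⊆ S ∪ S') (hy : ∀ y ∈ S, Crit f y → eval y f ∉ Icc a b) :
    Ac ({y | eval y f < b} ∩ S) ({y | eval y f < a} ∩ S) := by
  refine h _ (fun y => eval y f) a b S S' (contDiff_eval f) ab hS hS' hd hb fun b' hb' => ?_
  obtain ⟨κ, k1, k2⟩ := bound hc a b' hS' fun y y1 y2 =>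
    (hb (lt_of_le_of_lt y2.2 hb')).resolve_left fun e => hy y e y1 ⟨y2.1, y2.2.trans hb'.le⟩
  exact ⟨κ, k1, fun y y1 y2 => k2 y y2 (hd.notMem_of_mem_left y1)⟩

end Poly

variable [Coef]

lemma split {E ι : Type} [TopologicalSpace E] {f : E → ℝ} {S S' : Set E} {v : ι → ℝ}
    {s s' : ι → Prop} (R : RM f S S' v s s') {t : ℝ} (ht : t ≤ 0) (j : ℕ) :
    hs {y | f y < t} ∅ j = hs ({y | f y < t} ∩ S) ∅ j + hs ({y | f y < t} ∩ S') ∅ j := by
  rw [hs_split R.oS R.oS' R.dis (A := {y | f y < t}) (fun y hy => R.cov (lt_of_lt_of_le hy ht))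
    (empty_subset _), empty_inter, empty_inter]

end KReal

open KReal

variable [Coef]

theorem realS : RealS := by
  classical
  intro E E' ι _ _ _ f f' S₁ S₂ S₁' S₂' v v' s s' R R' ord neg tot
  let : Fintype ι := Fintype.ofFinite ι
  have key : ∀ (N : ℕ) (t t' : ℝ), (Finset.univ.filter fun i => v i < t).card = N → t ≤ 0 →
      t' ≤ 0 → (∀ i, v i ≠ t ∧ v' i ≠ t' ∧ (v i < t ↔ v' i < t')) →
      (∀ j, hs ({y | f y < t} ∩ S₁) ∅ j = hs ({y | f' y < t'} ∩ S₁') ∅ j) ∧
      ∀ j, hs ({y | f y < t} ∩ S₂) ∅ j = hs ({y | f' y < t'} ∩ S₂') ∅ j := by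
    intro N
    induction N using Nat.strong_induction_on with
    | _ N ih =>
    intro t t' hN t0 t0' mt
    rcases (Finset.univ.filter fun i => v i < t).eq_empty_or_nonempty with h0 | h0
    · have h1 : ∀ i, ¬ v i < t := fun i hi => by
        simpa [h0] using (Finset.mem_filter.2 ⟨Finset.mem_univ i, hi⟩ :
          i ∈ Finset.univ.filter fun i => v i < t)
      rw [R.bot t t0 fun i => not_lt.1 (h1 i),
        R'.bot t' t0' fun i => not_lt.1 fun c => h1 i ((mt i).2.2.2 c)]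
      simp only [empty_inter]
      refine ⟨fun j => ?_, fun j => ?_⟩ <;> rw [Ac.refl (∅ : Set E) j, Ac.refl (∅ : Set E') j]
    obtain ⟨i₀, m1, m2⟩ := Finset.exists_max_image _ v h0
    simp only [Finset.mem_filter, Finset.mem_univ, true_and] at m1 m2
    have m1' := (mt i₀).2.2.1 m1
    obtain ⟨a, a1, a2⟩ := below v (v i₀)
    obtain ⟨a', a1', a2'⟩ := below v' (v' i₀)
    have lt : ∀ i, v i < v i₀ ↔ v' i < v' i₀ := fun i => by rw [← not_le, ← not_le, ord]
    have eqv : ∀ i, v i = v i₀ ↔ v' i = v' i₀ := fun i => by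
      rw [le_antisymm_iff, le_antisymm_iff, ord, ord]
    have I := ih _ (by
        rw [← hN]
        refine Finset.card_lt_card ⟨fun i hi => ?_, fun hi => ?_⟩
        · simp only [Finset.mem_filter, Finset.mem_univ, true_and] at hi ⊢
          linarith
        · have := hi (Finset.mem_filter.2 ⟨Finset.mem_univ i₀, m1⟩)
          simp only [Finset.mem_filter, Finset.mem_univ, true_and] at this
          linarith) a a' rfl (by linarith) (by linarith) fun i =>
      ⟨fun h => (a2 i (h.trans_lt a1)).ne h, fun h => (a2' i (h.trans_lt a1')).ne h,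
        fun h => a2' i ((lt i).1 (h.trans a1)), fun h => a2 i ((lt i).2 (h.trans a1'))⟩
    have k1 : ∀ i, v i ∈ Icc a t → v i = v i₀ := fun i h =>
      le_antisymm (m2 i (h.2.lt_of_ne (mt i).1)) (not_lt.1 fun c => (a2 i c).not_ge h.1)
    have k2 : ∀ i, v' i ∈ Icc a' t' → v i = v i₀ := fun i h => (eqv i).2 <|
      le_antisymm ((ord _ _).1 (m2 i ((mt i).2.2.2 (h.2.lt_of_ne (mt i).2.1))))
        (not_lt.1 fun c => (a2' i c).not_ge h.1)
    have l : a ≤ t := by linarith
    have l' : a' ≤ t' := by linarith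
    have T : ∀ j, hs ({y | f y < t} ∩ S₁) ∅ j + hs ({y | f y < t} ∩ S₂) ∅ j =
        hs ({y | f' y < t'} ∩ S₁') ∅ j + hs ({y | f' y < t'} ∩ S₂') ∅ j := fun j => by
      rw [← split R t0, ← split R' t0', tot t t' mt]
    have fn : ∀ j, hs ({y | f' y < t'} ∩ S₁') ∅ j ≠ ⊤ ∧ hs ({y | f' y < t'} ∩ S₂') ∅ j ≠ ⊤ :=
      fun j => WithTop.add_ne_top.1 (split R' t0' j ▸ R'.fin t' t0' (fun i => (mt i).2.1) j)
    by_cases hr : ∃ i, s i ∧ v i = v i₀
    · obtain ⟨i, r1, r2⟩ := hr
      have e : ∀ j, hs ({y | f y < t} ∩ S₂) ∅ j = hs ({y | f' y < t'} ∩ S₂') ∅ j := fun j => by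
        rw [(R.ac' a t l t0 fun k hk h => R.sep i k r1 hk (r2.trans (k1 k h).symm)).left
            (empty_subset _) (sub f _ l),
          (R'.ac' a' t' l' t0' fun k hk h => R.sep i k r1 hk (r2.trans (k2 k h).symm)).left
            (empty_subset _) (sub f' _ l'), I.2]
      refine ⟨fun j => ?_, e⟩
      have := T j
      rw [e] at this
      exact WithTop.add_right_cancel (fn j).2 this
    · have e : ∀ j, hs ({y | f y < t} ∩ S₁) ∅ j = hs ({y | f' y < t'} ∩ S₁') ∅ j := fun j => by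
        rw [(R.ac a t l t0 fun k hk h => hr ⟨k, hk, k1 k h⟩).left (empty_subset _) (sub f _ l),
          (R'.ac a' t' l' t0' fun k hk h => hr ⟨k, hk, k2 k h⟩).left (empty_subset _)
            (sub f' _ l'), I.1]
      refine ⟨e, fun j => ?_⟩
      have := T j
      rw [e] at this
      exact WithTop.add_left_cancel (fn j).1 this
  intro j
  obtain ⟨a, a1, a2⟩ := below v 0
  obtain ⟨a', a1', a2'⟩ := below v' 0
  have ne : ∀ i, v i ≠ a := fun i h => (a2 i (h.trans_lt a1)).ne h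
  rw [(R.ac a 0 a1.le le_rfl fun i hi h =>
      (a2 i (h.2.lt_of_ne (R.ne i (Or.inl hi)))).not_ge h.1).left (empty_subset _) (sub f _ a1.le),
    (R'.ac a' 0 a1'.le le_rfl fun i hi h =>
      (a2' i (h.2.lt_of_ne (R'.ne i (Or.inl hi)))).not_ge h.1).left (empty_subset _)
      (sub f' _ a1'.le)]
  exact ⟨(key _ a a' rfl a1.le a1'.le fun i => ⟨ne i, fun h => (a2' i (h.trans_lt a1')).ne h,
      fun h => a2' i ((neg i).1 (h.trans a1)), fun h => a2 i ((neg i).2 (h.trans a1'))⟩).1 j,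
    (WithTop.add_ne_top.1 (split R a1.le j ▸ R.fin a a1.le ne j)).1⟩

theorem rmS (h : AcS) : RmS := by
  intro σ ι _ _ f v s s' S S' hc hS hS' hd hcov sep ne cr
  have sb : ∀ b ≤ (0 : ℝ), {y | eval y f < b} ⊆ S ∪ S' := fun b hb y hy =>
    hcov (lt_of_lt_of_le hy hb)
  refine ⟨hS, hS', hd, hcov, sep, ne, fun t _ ht => ?_, fun a b ab hb hv => ?_,
    fun a b ab hb hv => ?_, fun t _ ht j => ?_⟩
  · refine eq_empty_of_forall_notMem fun y hy => ?_
    obtain ⟨z, z1, z2⟩ := (hc (eval y f)).exists_isMinOn ⟨y, le_refl (eval y f)⟩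
      (MvPolynomial.continuous_eval f).continuousOn
    have z3 : IsMinOn (fun y => eval y f) univ z := fun w _ => by
      rcases le_total (eval w f) (eval y f) with e | e
      · exact z2 e
      · exact le_trans z1 e
    obtain ⟨i, i1, -⟩ := cr z (crit_of (z3.isLocalMin univ_mem).fderiv_eq_zero)
    exact lt_irrefl _ ((ht i).trans_lt (i1 ▸ lt_of_le_of_lt z1 hy))
  · refine ac_part h hc ab hS hS' hd (sb b hb) fun y y1 y2 => ?_
    obtain ⟨i, i1, i2, -⟩ := cr y y2
    exact i1 ▸ hv i (i2 y1)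
  · refine ac_part h hc ab hS' hS hd.symm (union_comm S S' ▸ sb b hb) fun y y1 y2 => ?_
    obtain ⟨i, i1, -, i2⟩ := cr y y2
    exact i1 ▸ hv i (i2 y1)
  · obtain ⟨a, a1, a2⟩ := below v t
    have := ac_part h hc a1.le isOpen_univ isOpen_empty (disjoint_empty _)
      (fun y _ => Or.inl (mem_univ y)) fun y _ y2 y3 => by
        obtain ⟨i, i1, -⟩ := cr y y2
        rw [i1] at y3
        exact (a2 i (y3.2.lt_of_ne (ht i))).not_ge y3.1
    rw [inter_univ, inter_univ] at this
    have e1 : {y | eval y f < a} ⊆ {y | eval y f ≤ a} :=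
      fun y (hy : eval y f < a) => (hy.le : eval y f ≤ a)
    have e2 : {y | eval y f ≤ a} ⊆ {y | eval y f < t} :=
      fun y (hy : eval y f ≤ a) => (hy.trans_lt a1 : eval y f < t)
    exact fin_of_ac (isOpen_lt (MvPolynomial.continuous_eval f) continuous_const) (hc a) e1 e2
      this j

end Pool.Agent.Lib.MP_837412_lc.K
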