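import Pool.Agent.Lib.MP_837412_lc.KSt

/-!
The slope along approximate chords is bounded.
-/

namespace Pool.Agent.Lib.MP_837412_lc.K

open Set Function

namespace KSlope2

variable {σ T : Type} [Fintype σ] [DecidableEq σ] [TopologicalSpace T]

lemma lin (L : Ph σ →L[ℝ] ℝ) (u w : σ → ℝ) :
    L (u, w) = ∑ i, (u i * L (Pi.single i 1, 0) + w i * L (0, Pi.single i 1)) := by
  have e : ((u, w) : Ph σ) = ∑ i, (u i • ((Pi.single i 1, 0) : Ph σ) + w i • (0, Pi.single i 1)) := by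
    ext j <;> simp [Prod.fst_sum, Prod.snd_sum, Finset.sum_apply, Pi.single_apply]
  rw [e, map_sum]
  simp only [map_add, map_smul, smul_eq_mul]

lemma br_eq (h φ : Ph σ → ℝ) (p : Ph σ) (s : ℝ) :
    fderiv ℝ φ p (-s • dy h p, s • dx h p) = s * br h φ p := by
  rw [lin, br, Finset.mul_sum]
  refine Finset.sum_congr rfl fun i _ => ?_
  simp only [dx, dy, Pi.smul_apply, smul_eq_mul]
  ring

lemma nrm (L : Ph σ →L[ℝ] ℝ) : ‖fun i => L (Pi.single i 1, 0)‖ ≤ ‖L‖ ∧
    ‖fun i => L (0, Pi.single i 1)‖ ≤ ‖L‖ :=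
  ⟨(pi_norm_le_iff_of_nonneg (norm_nonneg _)).2 fun i => L.unit_le_opNorm _ (by
      simp [Prod.norm_def, Pi.norm_single]),
    (pi_norm_le_iff_of_nonneg (norm_nonneg _)).2 fun i => L.unit_le_opNorm _ (by
      simp [Prod.norm_def, Pi.norm_single])⟩

omit [DecidableEq σ] in
lemma unif [CompactSpace T] {D : T × Ph σ → Ph σ →L[ℝ] ℝ} (hD : Continuous D) (R : ℝ) {θ : ℝ}
    (hθ : 0 < θ) : ∃ ι > 0, ∀ τ p q, ‖p‖ ≤ R → ‖q‖ ≤ R → ‖q - p‖ < ι →
      ‖D (τ, q) - D (τ, p)‖ ≤ θ := by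
  have hc : IsCompact ((univ ×ˢ Metric.closedBall (0 : Ph σ) R ×ˢ Metric.closedBall (0 : Ph σ) R) ∩
      {x : T × Ph σ × Ph σ | θ ≤ ‖D (x.1, x.2.2) - D (x.1, x.2.1)‖}) :=
    (isCompact_univ.prod ((isCompact_closedBall _ _).prod (isCompact_closedBall _ _))).inter_right
      (isClosed_le continuous_const (by fun_prop))
  obtain ⟨ι, i0, hι⟩ := hc.exists_forall_le' (f := fun x => ‖x.2.2 - x.2.1‖) (a := 0) (by fun_prop)
    fun x hx => norm_pos_iff.2 fun e => by
      have := hx.2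
      rw [mem_ofPred_eq, sub_eq_zero.1 e, sub_self, norm_zero] at this
      exact this.not_gt hθ
  refine ⟨ι, i0, fun τ p q hp hq h => le_of_not_gt fun a => h.not_ge ?_⟩
  exact hι (τ, p, q) ⟨⟨trivial, by simpa using hp, by simpa using hq⟩, a.le⟩

omit [DecidableEq σ] in
lemma step {φ : Ph σ → ℝ} (hφ : Differentiable ℝ φ) {R θ ι : ℝ} {p q : Ph σ}
    (h : ∀ x, ‖x‖ ≤ R → ‖x - p‖ < ι → ‖fderiv ℝ φ x - fderiv ℝ φ p‖ ≤ θ) (hp : ‖p‖ ≤ R)
    (hq : ‖q‖ ≤ R) (hι : ‖q - p‖ < ι) : |φ q - φ p - fderiv ℝ φ p (q - p)| ≤ θ * ‖q - p‖ :=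
  Convex.norm_image_sub_le_of_norm_fderiv_le' (s := Metric.closedBall 0 R ∩ Metric.ball p ι)
    (fun x _ => hφ x) (fun x hx => h x (by simpa using hx.1) (mem_ball_iff_norm.1 hx.2))
    ((convex_closedBall _ _).inter (convex_ball _ _))
    ⟨by simpa using hp, Metric.mem_ball_self ((norm_nonneg _).trans_lt hι)⟩
    ⟨by simpa using hq, mem_ball_iff_norm.2 hι⟩

lemma sl_le {C a : ℝ} (hC : 0 < C) (ha : 0 < a) (u : ℝ) : 0 < sl C a u ∧ sl C a u ≤ C / a :=
  ⟨by unfold sl; positivity, div_le_self (by positivity) (by nlinarith [sq_nonneg (u / a)])⟩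

lemma sl_lip {C a : ℝ} (hC : 0 < C) (ha : 0 < a) (u v : ℝ) :
    |sl C a u - sl C a v| ≤ C / a ^ 2 * |u - v| := by
  have key : ∀ x y : ℝ, |1 / (1 + x ^ 2) - 1 / (1 + y ^ 2)| ≤ |x - y| := fun x y => by
    have e : 1 / (1 + x ^ 2) - 1 / (1 + y ^ 2) = (x - y) * (-(x + y) / ((1 + x ^ 2) * (1 + y ^ 2))) := by
      field_simp; ring
    rw [e, abs_mul]
    refine mul_le_of_le_one_right (abs_nonneg _) ?_
    rw [abs_div, div_le_one (by positivity), abs_neg, abs_of_pos (a := _ * _) (by positivity)]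
    exact abs_le.2 ⟨by nlinarith [sq_nonneg (x + 1), sq_nonneg (y + 1), sq_nonneg (x * y)],
      by nlinarith [sq_nonneg (x - 1), sq_nonneg (y - 1), sq_nonneg (x * y)]⟩
  have e : sl C a u - sl C a v = C / a * (1 / (1 + (u / a) ^ 2) - 1 / (1 + (v / a) ^ 2)) := by
    unfold sl; ring
  rw [e, abs_mul, abs_of_pos (by positivity : 0 < C / a)]
  refine (mul_le_mul_of_nonneg_left (key _ _) (by positivity)).trans_eq ?_
  rw [← sub_div, abs_div, abs_of_pos ha]
  field_simp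

lemma chain {X : Type} [PseudoMetricSpace X] {f : ℕ → X} {N : ℕ} {c : ℝ} (hc : 0 ≤ c)
    (h : ∀ j, j + 1 < N → dist (f j) (f (j + 1)) ≤ c / N) {i j : ℕ} (hi : i < N) (hj : j < N) :
    dist (f i) (f j) ≤ c := by
  wlog e : i ≤ j generalizing i j
  · rw [dist_comm]; exact this hj hi (by omega)
  refine (dist_le_Ico_sum_of_dist_le e (d := fun _ => c / N) fun {k} _ b => h k (by omega)).trans ?_
  have n0 : (0 : ℝ) < N := by exact_mod_cast (by omega : 0 < N)
  rw [Finset.sum_const, Nat.card_Ico, nsmul_eq_mul, mul_div_assoc', div_le_iff₀ n0, mul_comm]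
  exact mul_le_mul_of_nonneg_left (by exact_mod_cast (by omega : j - i ≤ N)) hc

end KSlope2

open KSlope2 in
theorem slopeS2 : SlopeS := by
  intro σ T _ _ _ _ h g ε κ B H
  obtain ⟨R₁, hR₁⟩ := H.far 1
  obtain ⟨G, hG⟩ := (isCompact_univ.prod (isCompact_closedBall (0 : Ph σ) (max R₁ 1))).exists_bound_of_continuousOn
    H.c0g.continuousOn
  have κ0 := H.κ0
  have ε0 := H.ε0
  have B0 := H.B0
  have gb : ∀ τ p, |h τ p| ≤ ε → ‖p.2‖ ≤ 1 → |g τ p| ≤ max G 0 := fun τ p a b =>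
    le_max_of_le_left (hG (τ, p) ⟨trivial, mem_closedBall_zero_iff.2 (max_le_max
      (le_of_not_ge fun c => (hR₁ τ p b c).not_ge (le_of_abs_le a)) b)⟩)
  have G0 : 0 ≤ max G 0 := le_max_right _ _
  generalize max G 0 = G at gb G0
  have T1 : 1 ≤ 2 * (2 * G + 1) / κ + 1 := le_add_of_nonneg_left (by positivity)
  refine ⟨_, T1, fun C a Y hC ha hCa => ?_⟩
  obtain ⟨R₂, hR₂⟩ := H.far Y
  set A := C / a * B + 2 with hA
  have A0 : 0 < A := by positivity
  set R := max R₂ Y + A with hR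
  obtain ⟨D', hD⟩ := (isCompact_univ.prod (isCompact_closedBall (0 : Ph σ) R)).exists_bound_of_continuousOn
    H.c1g.continuousOn
  set D := max D' B with hDD
  have D0 : 0 < D := lt_max_of_lt_right B0
  set ω := min (ε / 2) (min (a ^ 2 / C) 1) with hω
  have ω0 : 0 < ω := by positivity
  set θ := ω / 2 / (A + D * (C / a)) with hθ
  have θ0 : 0 < θ := by positivity
  obtain ⟨ι₁, i1, u1⟩ := unif H.c1 R θ0
  obtain ⟨ι₂, i2, u2⟩ := unif H.c1g R θ0
  obtain ⟨N₀, hN₀⟩ := exists_nat_gt (max 2 (max (A / min ι₁ ι₂)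
    ((2 * D + D * (C / a ^ 2 * (B * A) * B)) / (ω / 2))))
  refine ⟨N₀, fun N hN τ p hY h0 h1 hs j₀ hj₀ => ?_⟩
  have hN' := hN₀.trans_le (Nat.cast_le.2 hN)
  have n2 : (2 : ℝ) < N := (le_max_left _ _).trans_lt hN'
  have n0 : (0 : ℝ) < N := by linarith
  have nι : A / N < min ι₁ ι₂ := by
    rw [div_lt_comm₀ n0 (by positivity)]
    exact ((le_max_left _ _).trans (le_max_right _ _)).trans_lt hN'
  have nω : (2 * D + D * (C / a ^ 2 * (B * A) * B)) / N ≤ ω / 2 := by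
    rw [div_le_comm₀ n0 (by positivity)]
    exact (((le_max_right _ _).trans (le_max_right _ _)).trans_lt hN').le
  have dh : Differentiable ℝ (h τ) := (H.sm τ).differentiable two_ne_zero
  have bx : ∀ q, ‖dx (h τ) q‖ ≤ B := fun q => (nrm _).1.trans (H.bd τ q)
  have by' : ∀ q, ‖dy (h τ) q‖ ≤ B := fun q => (nrm _).2.trans (H.bd τ q)
  have sb : ∀ u (v : σ → ℝ), ‖v‖ ≤ B → ‖sl C a u • v‖ ≤ C / a * B := fun u v hv => by
    rw [norm_smul, Real.norm_of_nonneg (sl_le hC ha u).1.le]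
    exact mul_le_mul (sl_le hC ha u).2 hv (norm_nonneg _) (by positivity)
  have st : ∀ j, j + 1 < N → ‖p (j + 1) - p j‖ ≤ A / N := fun j hj => by
    refine (norm_le_norm_sub_add _ _).trans ((add_le_add (hs j hj) (?_ : _ ≤ C / a * B / N)).trans ?_)
    · rw [norm_smul, norm_inv, Real.norm_natCast, mul_comm, ← div_eq_mul_inv]
      refine div_le_div_of_nonneg_right (max_le ?_ (sb _ _ (bx _))) n0.le
      rw [neg_smul, norm_neg]; exact sb _ _ (by' _)
    · rw [hA, add_div, add_comm]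
      gcongr
      nlinarith
  by_contra hc
  rw [not_le] at hc
  have b0 : |h τ (p j₀)| < ε / 2 := by
    by_contra b0
    refine hc.not_ge (le_trans ?_ T1)
    have e : (ε / 2) ^ 2 ≤ h τ (p j₀) ^ 2 := by
      rw [← sq_abs (h τ _)]; exact pow_le_pow_left₀ (by positivity) (not_lt.1 b0) 2
    rw [sl, div_le_one (by positivity), div_pow, div_le_iff₀ ha, add_mul, div_mul_eq_mul_div,
      one_mul]
    refine le_add_of_nonneg_of_le ha.le ?_
    rw [le_div_iff₀ (by positivity)]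
    nlinarith
  have bl : ∀ j < N, ‖p j‖ ≤ R := fun j hj => by
    have e := chain (f := p) A0.le (fun j hj => by rw [dist_comm, dist_eq_norm]; exact st j hj) hj hj₀
    rw [dist_eq_norm] at e
    refine (norm_le_norm_sub_add _ (p j₀)).trans ((add_comm _ _).trans_le (add_le_add ?_ e))
    exact max_le_max (le_of_not_ge fun c => by
      have := hR₂ τ _ (hY j₀ hj₀) c; have := le_abs_self (h τ (p j₀)); linarith) (hY j₀ hj₀)
  have key : ∀ φ : Ph σ → ℝ, Differentiable ℝ φ → (∀ q, ‖q‖ ≤ R → ‖fderiv ℝ φ q‖ ≤ D) →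
      (∀ q x, ‖q‖ ≤ R → ‖x‖ ≤ R → ‖x - q‖ < min ι₁ ι₂ → ‖fderiv ℝ φ x - fderiv ℝ φ q‖ ≤ θ) →
      ∀ j, j + 1 < N → |φ (p (j + 1)) - φ (p j) -
        (N : ℝ)⁻¹ * (sl C a (h τ (p j)) * br (h τ) φ (p j))| ≤ ω / N := fun φ dφ bφ uφ j hj => by
    have l1 := bl j (by omega)
    have l2 := bl (j + 1) hj
    have e1 := (step dφ (fun x a b => uφ _ x l1 a b) l1 l2 ((st j hj).trans_lt nι)).trans
      (mul_le_mul_of_nonneg_left (st j hj) θ0.le)
    have e2 := ((fderiv ℝ φ (p j)).le_of_opNorm_le_of_le (bφ _ l1) (hs j hj))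
    have e3 : ‖dy (h τ) (p (j + 1)) - dy (h τ) (p j)‖ ≤ θ :=
      (nrm (fderiv ℝ (h τ) (p (j + 1)) - fderiv ℝ (h τ) (p j))).2.trans
        (u1 τ _ _ l1 l2 (((st j hj).trans_lt nι).trans_le (min_le_left _ _)))
    have e4 : |h τ (p (j + 1)) - h τ (p j)| ≤ B * (A / N) :=
      (convex_univ.norm_image_sub_le_of_norm_fderiv_le (fun x _ => dh x) (fun x _ => H.bd τ x)
        trivial trivial).trans (mul_le_mul_of_nonneg_left (st j hj) B0.le)
    have e5 := (sl_lip hC ha _ _).trans (mul_le_mul_of_nonneg_left e4 (by positivity))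
    generalize sl C a (h τ (p (j + 1))) = s' at e2 e5
    have e6 := sl_le hC ha (h τ (p j))
    have e7 := br_eq (h τ) φ (p j) (sl C a (h τ (p j)))
    generalize sl C a (h τ (p j)) = s at e2 e5 e6 e7 ⊢
    have e8 : ‖((s' • dy (h τ) (p (j + 1)) - s • dy (h τ) (p j), 0) : Ph σ)‖ ≤
        C / a ^ 2 * (B * (A / N)) * B + C / a * θ := by
      rw [Prod.norm_def, norm_zero, max_eq_left (norm_nonneg _),
        show s' • dy (h τ) (p (j + 1)) - s • dy (h τ) (p j) = (s' - s) • dy (h τ) (p (j + 1)) +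
          s • (dy (h τ) (p (j + 1)) - dy (h τ) (p j)) by module]
      refine (norm_add_le _ _).trans (add_le_add ?_ ?_) <;> rw [norm_smul]
      · exact mul_le_mul e5 (by' _) (norm_nonneg _) (by positivity)
      · exact mul_le_mul (by rw [Real.norm_of_nonneg e6.1.le]; exact e6.2) e3 (norm_nonneg _)
          (by positivity)
    have e9 := (fderiv ℝ φ (p j)).le_of_opNorm_le_of_le (bφ _ l1) e8
    have e10 : ((-s' • dy (h τ) (p (j + 1)), s • dx (h τ) (p j)) : Ph σ) =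
        (-s • dy (h τ) (p j), s • dx (h τ) (p j)) -
          (s' • dy (h τ) (p (j + 1)) - s • dy (h τ) (p j), 0) := by
      refine Prod.ext ?_ ?_
      · simp only [Prod.fst_sub]; module
      · simp
    rw [e10, map_sub, map_smul, map_sub _ ((-s • dy (h τ) (p j), s • dx (h τ) (p j)) : Ph σ), e7,
      Real.norm_eq_abs, smul_eq_mul] at e2
    rw [Real.norm_eq_abs] at e9
    generalize fderiv ℝ φ (p j) (s' • dy (h τ) (p (j + 1)) - s • dy (h τ) (p j), 0) = z at e2 e9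
    have e11 : |(N : ℝ)⁻¹ * z| ≤ (N : ℝ)⁻¹ * (D * (C / a ^ 2 * (B * (A / N)) * B + C / a * θ)) := by
      rw [abs_mul, abs_of_pos (inv_pos.2 n0)]
      exact mul_le_mul_of_nonneg_left e9 (by positivity)
    have e12 : θ * (A / N) + D * (2 / N ^ 2) +
        (N : ℝ)⁻¹ * (D * (C / a ^ 2 * (B * (A / N)) * B + C / a * θ)) =
        ((2 * D + D * (C / a ^ 2 * (B * A) * B)) / N + θ * (A + D * (C / a))) / N := by
      field_simp; ring
    have e13 : θ * (A + D * (C / a)) = ω / 2 := div_mul_cancel₀ _ (by positivity)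
    have e14 : ((2 * D + D * (C / a ^ 2 * (B * A) * B)) / N + θ * (A + D * (C / a))) / N ≤ ω / N :=
      div_le_div_of_nonneg_right (by linarith) n0.le
    have a1 := abs_le.1 e1
    have a2 := abs_le.1 e2
    have a3 := abs_le.1 e11
    rw [mul_sub] at a2
    exact abs_le.2 ⟨by linarith [a1.1, a2.1, a3.2], by linarith [a1.2, a2.2, a3.1]⟩
  have kh : ∀ j < N, |h τ (p j) - h τ (p j₀)| ≤ ω := fun j hj =>
    chain (f := fun j => h τ (p j)) ω0.le (fun j hj => by
      have := key (h τ) dh (fun q _ => (H.bd τ q).trans (le_max_right _ _))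
        (fun q x a b c => u1 τ q x a b (c.trans_le (min_le_left _ _))) j hj
      have e : br (h τ) (h τ) (p j) = 0 := Finset.sum_eq_zero fun i _ => by ring
      rwa [e, mul_zero, mul_zero, sub_zero, abs_sub_comm] at this) hj hj₀
  have band : ∀ j < N, |h τ (p j)| ≤ ε := fun j hj => by
    have := abs_sub_abs_le_abs_sub (h τ (p j)) (h τ (p j₀))
    have := kh j hj
    have : ω ≤ ε / 2 := min_le_left _ _
    linarith
  have inc : ∀ j ∈ Finset.range (N - 1), (4 * G + 1) / N ≤ g τ (p (j + 1)) - g τ (p j) := fun j hj => by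
    have hj' : j + 1 < N := by have := Finset.mem_range.1 hj; omega
    have e1 := (abs_le.1 (key (g τ) (H.dg τ) (fun q hq => (hD (τ, q)
      ⟨trivial, mem_closedBall_zero_iff.2 hq⟩).trans (le_max_left _ _))
      (fun q x a b c => u2 τ q x a b (c.trans_le (min_le_right _ _))) j hj')).1
    have e2 := (sl_lip hC ha _ _).trans (mul_le_mul_of_nonneg_left (kh j (by omega)) (by positivity))
    have e3 : C / a ^ 2 * ω ≤ 1 := by
      have : ω ≤ a ^ 2 / C := (min_le_right _ _).trans (min_le_left _ _)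
      refine (mul_le_mul_of_nonneg_left this (by positivity)).trans_eq ?_
      field_simp
    have e4 : 2 * (2 * G + 1) / κ ≤ sl C a (h τ (p j)) := by linarith [(abs_le.1 e2).1]
    have e5 : 2 * (2 * G + 1) ≤ sl C a (h τ (p j)) * br (h τ) (g τ) (p j) :=
      ((div_le_iff₀ κ0).1 e4).trans (mul_le_mul_of_nonneg_left (H.pos τ _ (band j (by omega)))
        (sl_le hC ha _).1.le)
    have e6 : ω ≤ 1 := (min_le_right _ _).trans (min_le_right _ _)
    have e7 := mul_le_mul_of_nonneg_left e5 (inv_pos.2 n0).le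
    have e8 : (4 * G + 1) / N ≤ (N : ℝ)⁻¹ * (2 * (2 * G + 1)) - ω / N := by
      rw [inv_mul_eq_div, ← sub_div]
      exact div_le_div_of_nonneg_right (by linarith) n0.le
    linarith
  have tot := Finset.card_nsmul_le_sum _ _ _ inc
  rw [Finset.sum_range_sub (fun j => g τ (p j)), Finset.card_range, nsmul_eq_mul,
    Nat.cast_sub (by omega), Nat.cast_one, mul_div_assoc', div_le_iff₀ n0] at tot
  have g1 := abs_le.1 (gb τ _ (band 0 (by omega)) h0)
  have g2 := abs_le.1 (gb τ _ (band (N - 1) (by omega)) h1)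
  nlinarith [mul_le_mul_of_nonneg_right (by linarith : g τ (p (N - 1)) - g τ (p 0) ≤ 2 * G) n0.le]

end Pool.Agent.Lib.MP_837412_lc.K
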