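import Pool.Agent.Lib.MP_837412_lc.KG2
import Pool.Agent.Lib.MP_837412_lc.KBr
import Pool.Agent.Lib.MP_837412_lc.KChord
import Pool.Agent.Lib.MP_837412_lc.KCrit
import Pool.Agent.Lib.MP_837412_lc.KEst2
import Pool.Agent.Lib.MP_837412_lc.KGF
import Pool.Agent.Lib.MP_837412_lc.KLift
import Pool.Agent.Lib.MP_837412_lc.KLin
import Pool.Agent.Lib.MP_837412_lc.KPlane
import Pool.Agent.Lib.MP_837412_lc.KReal
import Pool.Agent.Lib.MP_837412_lc.KSlope2
import Pool.Agent.Lib.MP_837412_lc.KTame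

/-!
All statements hold.
-/

namespace Pool.Agent.Lib.MP_837412_lc.K

theorem allK [Coef] : AllK :=
  ⟨tameK estS2 brS plB wtS2, planeS, liftS nearS, isoS autS degS dnS,
    endS (gfS critK (chordS critK slopeS2) acS linS) legS, rmS acS, realS⟩

theorem main63 [Coef] (k s d : ℕ) (Φ : Set (Fin s → SignType)) (hΦ : UpClosed Φ) :
    ∃ T : Tree (Fin s × (Fin k →₀ ℕ)), T.depth ≤ (s * (d + 1) + 2) ^ (k + 2) ^ 63 ∧
      ∀ P : Fin s → MvPolynomial (Fin k) ℝ, (∀ j, (P j).totalDegree ≤ d) → ∀ i ≤ k,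
        betti F (signSet P Φ) i =
          (T.run (fun q => MvPolynomial.coeff q.2 (P q.1)) []).getD i 0 := by
  rcases s with _ | s
  · obtain ⟨T, a, b⟩ := allK.main0 k 0 0 Φ hΦ le_rfl (by omega) (by omega)
    exact ⟨T, by simpa using a, fun P _ => b P fun j => j.elim0⟩
  · exact allK.main0 k _ d Φ hΦ (by omega) (by nlinarith) (by nlinarith)

end Pool.Agent.Lib.MP_837412_lc.K
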