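import Pool.Agent.Lib.MP_837412_lc.KA

/-!
Relative singular homology of pairs of subsets. The degree is the number of vertices.
-/

namespace Pool.Agent.Lib.MP_837412_lc.K

open Pool.Agent.Shared.Mod2 Set Topology

variable [Coef] {Y Y' : Type} [TopologicalSpace Y] [TopologicalSpace Y']

/-- Relative cycles of a pair of subsets. -/
noncomputable abbrev Zs (A B : Set Y) (k : ℕ) : Submodule F (Ch (Sx Y)) := Zr sd (Cs A) (Cs B) k

/-- Relative boundaries of a pair of subsets. -/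
noncomputable abbrev Bs (A B : Set Y) (k : ℕ) : Submodule F (Ch (Sx Y)) := Br sd (Cs A) (Cs B) k

/-- The dimension of the homology of the pair in dimension `k - 1`. -/
noncomputable abbrev hs (A B : Set Y) (k : ℕ) : ℕ∞ := hh sd (Cs A) (Cs B) k

/-- Acyclic pairs. -/
def Ac (A B : Set Y) : Prop := ∀ k, hs A B k = 0

variable {A B C A' B' U W S S' : Set Y} {k : ℕ}

lemma cx (A : Set Y) : IsCx sd (Cs A) := ⟨sd_sd, fun _ _ h => sd_mem h, fun _ h => sd_zero h⟩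

lemma Cs_le (h : A ⊆ B) : Cs A ≤ Cs B := Cs_mono h

lemma Cs_inf (A B : Set Y) : Cs (A ∩ B) = Cs A ⊓ Cs B :=
  le_antisymm (le_inf (Cs_le inter_subset_left) (Cs_le inter_subset_right))
    fun _ _ h => Cs_inter h.1 h.2

lemma Zs_mono (h : A ⊆ A') (h' : B ⊆ B') (k : ℕ) : Zs A B k ≤ Zs A' B' k :=
  Zr_mono (Cs_le h) (Cs_le h') k

lemma Bs_mono (h : A ⊆ A') (h' : B ⊆ B') (k : ℕ) : Bs A B k ≤ Bs A' B' k :=
  Br_mono (Cs_le h) (Cs_le h') k

lemma Cs_le_Bs (A B : Set Y) (k : ℕ) : Cs B k ≤ Bs A B k := le_sup_right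

lemma hs_zero (A B : Set Y) : hs A B 0 = 0 :=
  hh_eq_zero.2 fun _ h => Cs_le_Bs A B 0 (Cs_zero A B ▸ h.1)

lemma Ac.refl (A : Set Y) : Ac A A := fun k => hh_eq_zero.2 fun _ h => Cs_le_Bs A A k h.1

lemma cm_Zs {g : C(Y, Y')} {A' B' : Set Y'} (h : MapsTo g A A') (h' : MapsTo g B B')
    {x : Ch (Sx Y)} (hx : x ∈ Zs A B k) : cm g x ∈ Zs A' B' k :=
  mem_Zr.2 ⟨cm_mem h hx.1, by rw [← cm_sd]; exact cm_mem h' hx.2⟩

lemma cm_Bs {g : C(Y, Y')} {A' B' : Set Y'} (h : MapsTo g A A') (h' : MapsTo g B B')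
    {x : Ch (Sx Y)} (hx : x ∈ Bs A B k) : cm g x ∈ Bs A' B' k := by
  obtain ⟨b, b1, b2⟩ := mem_Br.1 hx
  exact mem_Br.2 ⟨_, cm_mem h b1, by rw [← cm_sd, ← map_add]; exact cm_mem h' b2⟩

/-- Weak deformations kill relative homology. -/
theorem wd3 (h : ∀ K, IsCompact K → K ⊆ A → ∃ H : C(I × Y, Y), (∀ y, H (0, y) = y) ∧
    (∀ t, ∀ y ∈ K, H (t, y) ∈ A) ∧ (∀ t, ∀ y ∈ K, y ∈ B → H (t, y) ∈ B') ∧
    ∀ y ∈ K, H (1, y) ∈ B') (k : ℕ) : Zs A B k ≤ Bs A B' k := by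
  intro z hz
  cases k with
  | zero => exact Cs_le_Bs A B' 0 (Cs_zero A B' ▸ hz.1)
  | succ k =>
    obtain ⟨K, k1, k2, k3⟩ := exists_compact hz.1
    obtain ⟨H, h0, h1, h2, h3⟩ := h K k1 k2
    let g : C(Y, Y) := H.comp ⟨fun y => (1, y), by fun_prop⟩
    refine mem_Br.2 ⟨prism H z, prism_mem h1 k3, ?_⟩
    rw [prism_eq (f := ContinuousMap.id Y) (g := g) h0 (fun _ => rfl), cm_id,
      show z + (cm g z - z - prism H (sd z)) = cm g z - prism H (sd z) by abel]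
    exact sub_mem (cm_mem (g := g) h3 k3) (prism_mem (s := K ∩ B) (fun t y hy => h2 t y hy.1 hy.2)
      (Cs_inter (sd_mem k3) hz.2))

theorem wd (h : ∀ K, IsCompact K → K ⊆ A → ∃ H : C(I × Y, Y), (∀ y, H (0, y) = y) ∧
    (∀ t, ∀ y ∈ K, H (t, y) ∈ A) ∧ (∀ t, ∀ y ∈ K, y ∈ B → H (t, y) ∈ B) ∧
    ∀ y ∈ K, H (1, y) ∈ B) : Ac A B := fun k => hh_eq_zero.2 (wd3 h k)

section Triples

variable (h1 : C ⊆ B) (h2 : B ⊆ A)
include h1 h2

theorem triple_s : ∃ i p δ : ℕ → ℕ∞, (∀ k, hs B C k = δ k + i k) ∧ (∀ k, hs A C k = i k + p k) ∧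
    (∀ k, hs A B (k + 1) = p (k + 1) + δ k) ∧ p 0 = 0 := by
  obtain ⟨i, p, δ, a, b, c, d⟩ := triple (cx A) (cx B) (cx C) (Cs_le h1) (Cs_le h2)
  exact ⟨i, p, δ, a, b, c, d.symm.trans (hs_zero A B)⟩

lemma onto_left (h : hs A B k = 0) : Zs A C k ≤ Zs B C k ⊔ Bs A C k :=
  tri_onto (cx A) (cx B) (cx C) (Cs_le h1) (Cs_le h2) h

lemma into_left (h : hs A B (k + 1) = 0) : Zs B C k ⊓ Bs A C k ≤ Bs B C k :=
  tri_into (cx A) (cx B) (cx C) (Cs_le h1) (Cs_le h2) h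

lemma onto_right (h : hs B C (k - 1) = 0) : Zs A B k ≤ Zs A C k ⊔ Bs A B k :=
  tri_onto' (cx A) (cx B) (cx C) (Cs_le h1) (Cs_le h2) h

lemma into_right (h : hs B C k = 0) : Zs A C k ⊓ Bs A B k ≤ Bs A C k :=
  tri_into' (cx A) (cx B) (cx C) (Cs_le h1) (Cs_le h2) h

lemma hs_left (h : hs A B k = 0) (h' : hs A B (k + 1) = 0) : hs A C k = hs B C k := by
  obtain ⟨i, p, δ, a, b, c, d⟩ := triple_s h1 h2
  have e1 : p k = 0 := by
    cases k with
    | zero => exact d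
    | succ k => exact (add_eq_zero.1 ((c k).symm.trans h)).1
  rw [a, b, e1, (add_eq_zero.1 ((c k).symm.trans h')).2, zero_add, add_zero]

lemma Ac.left (h : Ac A B) (k : ℕ) : hs A C k = hs B C k := hs_left h1 h2 (h _) (h _)

lemma Ac.right (h : Ac B C) (k : ℕ) : hs A C k = hs A B k := by
  obtain ⟨i, p, δ, a, b, c, d⟩ := triple_s h1 h2
  have e := fun k => add_eq_zero.1 ((a k).symm.trans (h k))
  cases k with
  | zero => rw [hs_zero, hs_zero]
  | succ k => rw [b, c, (e _).1, (e _).2, zero_add, add_zero]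

lemma hs_le : hs A C k ≤ hs B C k + hs A B k := by
  obtain ⟨i, p, δ, a, b, c, d⟩ := triple_s h1 h2
  cases k with
  | zero => rw [hs_zero]; exact zero_le
  | succ k => rw [a, b, c]; exact add_le_add le_add_self le_self_add

lemma Ac.trans (h : Ac A B) (h' : Ac B C) : Ac A C := fun k => (h.left h1 h2 k).trans (h' k)

end Triples

lemma Ac.onto (h : Ac A A') (h' : Ac B B') (h1 : B' ⊆ B) (h2 : B ⊆ A) (h3 : B' ⊆ A') (h4 : A' ⊆ A)
    (k : ℕ) : Zs A B k ≤ Zs A' B' k ⊔ Bs A B k :=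
  (onto_right h1 h2 (h' _)).trans (sup_le ((onto_left h3 h4 (h _)).trans
    (sup_le_sup_left (Bs_mono Subset.rfl h1 k) _)) le_sup_right)

lemma Ac.into (h : Ac A A') (h' : Ac B B') (h1 : B' ⊆ B) (h2 : B ⊆ A) (h3 : B' ⊆ A') (h4 : A' ⊆ A)
    (k : ℕ) : Zs A' B' k ⊓ Bs A B k ≤ Bs A' B' k := fun _ hx =>
  into_left h3 h4 (h _) ⟨hx.1, into_right h1 h2 (h' _) ⟨Zs_mono h4 Subset.rfl k hx.1, hx.2⟩⟩

section Small

lemma small_ac (hU : IsOpen U) (hW : IsOpen W) (k : ℕ) :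
    hh sd (Cs (U ∪ W)) (Cs U ⊔ Cs W) k = 0 := by
  refine hh_eq_zero.2 fun z hz => ?_
  cases k with
  | zero => exact Submodule.mem_sup_right (Submodule.mem_sup_left
      (Cs_zero (U ∪ W) U ▸ hz.1))
  | succ k =>
    obtain ⟨T, t1, u, hu, w, hw, e⟩ := small2 hU hW hz.1
    obtain ⟨a, ha, b, hb, e'⟩ := Submodule.mem_sup.1 (mem_Zr'.1 hz).2
    refine mem_Br.2 ⟨T z, t1 _ _ _ hz.1, mem_of_add (y := T (sd z)) ?_ ?_⟩
    · rw [e]; exact Submodule.add_mem_sup hu hw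
    · rw [← e', map_add]; exact Submodule.add_mem_sup (t1 _ _ _ ha) (t1 _ _ _ hb)

lemma sup_le_Cs (U W : Set Y) : Cs U ⊔ Cs W ≤ Cs (U ∪ W) :=
  sup_le (Cs_le subset_union_left) (Cs_le subset_union_right)

lemma exc_onto (hU : IsOpen U) (hW : IsOpen W) (k : ℕ) :
    Zs (U ∪ W) W k ≤ Zs U (U ∩ W) k ⊔ Bs (U ∪ W) W k := by
  refine (tri_onto (cx _) ((cx U).sup (cx W)) (cx W) le_sup_right (sup_le_Cs U W)
    (small_ac hU hW k)).trans (sup_le (fun z hz => ?_) le_sup_right)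
  obtain ⟨u, hu, e⟩ := mem_sup2.1 hz.1
  refine mem_sup2.2 ⟨u, mem_Zr.2 ⟨hu, Cs_inter ((cx U).mem' hu) ?_⟩, Cs_le_Bs _ _ _ e⟩
  have := (cx W).mem' e
  rw [map_add, add_comm] at this
  exact mem_of_add this hz.2

lemma exc_into (hU : IsOpen U) (hW : IsOpen W) (k : ℕ) :
    Zs U (U ∩ W) k ⊓ Bs (U ∪ W) W k ≤ Bs U (U ∩ W) k := by
  rintro z ⟨hz, hz'⟩
  obtain ⟨b, b1, b2⟩ := mem_Br.1 (tri_into (cx _) ((cx U).sup (cx W)) (cx W) le_sup_right
    (sup_le_Cs U W) (small_ac hU hW (k + 1))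
    ⟨Zr_mono le_sup_left (Cs_le inter_subset_right) k hz, hz'⟩)
  obtain ⟨u, hu, w, hw, rfl⟩ := Submodule.mem_sup.1 b1
  refine mem_Br.2 ⟨u, hu, Cs_inter (add_mem hz.1 (sd_mem hu)) ?_⟩
  rw [map_add, ← add_assoc] at b2
  exact mem_of_add b2 (sd_mem hw)

/-- Excision. -/
theorem exc (hU : IsOpen U) (hW : IsOpen W) (k : ℕ) : hs (U ∪ W) W k = hs U (U ∩ W) k := by
  refine (hh_of_bij (φ := LinearMap.id) ?_ ?_ ?_ ?_).symm
  · simpa using Zs_mono subset_union_left inter_subset_right k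
  · simpa using Bs_mono subset_union_left inter_subset_right k
  · simpa using exc_onto hU hW k
  · simpa using exc_into hU hW k

/-- Relative Mayer-Vietoris, vanishing form. -/
lemma mv_rel (hU : IsOpen U) (hW : IsOpen W) (hS : IsOpen S) (h1 : hs U (U ∩ S) k = 0)
    (h2 : hs W (W ∩ S) k = 0) (h3 : hs (U ∩ W) (U ∩ W ∩ S) (k - 1) = 0) :
    hs (U ∪ W) ((U ∪ W) ∩ S) k = 0 := by
  have o : IsOpen ((U ∪ W) ∩ S) := (hU.union hW).inter hS
  have a : hs (U ∪ (U ∪ W) ∩ S) ((U ∪ W) ∩ S) k = 0 := by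
    rw [exc hU o, ← inter_assoc, inter_eq_left.2 subset_union_left, h1]
  have b : hs (U ∪ W) (U ∪ (U ∪ W) ∩ S) k = 0 := by
    have e : U ∪ W = W ∪ (U ∪ (U ∪ W) ∩ S) := by ext; simp only [mem_union, mem_inter_iff]; tauto
    have e2 : W ∩ (U ∪ (U ∪ W) ∩ S) = U ∩ W ∪ W ∩ S := by
      ext; simp only [mem_union, mem_inter_iff]; tauto
    have e3 : U ∩ W ∩ (W ∩ S) = U ∩ W ∩ S := by ext; simp only [mem_inter_iff]; tauto
    refine (congrArg (hs · _ k) e).trans ?_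
    rw [exc hW (hU.union o), e2]
    refine hh_eq_zero.2 ((onto_right subset_union_right
      (union_subset inter_subset_right inter_subset_left) ?_).trans (sup_le
        ((hh_eq_zero.1 h2).trans (Bs_mono Subset.rfl subset_union_right k)) le_rfl))
    rw [exc (hU.inter hW) (hW.inter hS), e3, h3]
  refine le_zero_iff.1 ((hs_le subset_union_right
    (union_subset subset_union_left inter_subset_left)).trans_eq ?_)
  rw [a, b, add_zero]

end Small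

section Emb

theorem hs_image {φ : C(Y', Y)} (hφ : IsEmbedding φ) (A B : Set Y') (k : ℕ) :
    hs (φ '' A) (φ '' B) k = hs A B k := by
  refine (hh_map (φ := cm φ) (fun x => (cm_sd φ x).symm) (cx A) (cx _) ?_ ?_ ?_ ?_ k).symm
  · rintro k _ ⟨x, hx, rfl⟩; exact cm_mem (mapsTo_image _ _) hx
  · rintro k _ ⟨x, hx, rfl⟩; exact cm_mem (mapsTo_image _ _) hx
  · intro k x hx
    obtain ⟨u, -, rfl⟩ := exists_cm hφ (Cs_mono (image_subset_range _ _) k hx)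
    exact Submodule.mem_sup_left
      ⟨u, preimage_image_eq A hφ.injective ▸ mem_of_cm hφ.injective hx, rfl⟩
  · exact fun k x hx => preimage_image_eq B hφ.injective ▸ mem_of_cm hφ.injective hx.2

theorem hs_preimage (f : Y' ≃ₜ Y) (A B : Set Y) (k : ℕ) : hs (f ⁻¹' A) (f ⁻¹' B) k = hs A B k := by
  have := hs_image (φ := (f : C(Y', Y))) f.isEmbedding (f ⁻¹' A) (f ⁻¹' B) k
  simpa [image_preimage_eq _ f.surjective] using this.symm

end Emb

instance (k : ℕ) : PreconnectedSpace (Sp k) :=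
  isPreconnected_iff_preconnectedSpace.1 (convex_stdSimplex ℝ _).isPreconnected

section Split

variable (hS : IsOpen S) (hS' : IsOpen S') (hd : Disjoint S S')
include hS hS' hd

lemma cs_split (h : A ⊆ S ∪ S') (k : ℕ) : Cs A k ≤ Cs (A ∩ S) k ⊔ Cs (A ∩ S') k := by
  intro x hx
  obtain ⟨u, hu, w, hw, rfl⟩ := sup_split (s := {σ : Sx Y | σ.1 = k ∧ ∀ t, σ.2 t ∈ A ∩ S})
    (t := {σ : Sx Y | σ.1 = k ∧ ∀ t, σ.2 t ∈ A ∩ S'}) (sup_mono (fun σ hσ => by
      rcases (isPreconnected_range σ.2.continuous).subset_or_subset hS hS' hd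
        (range_subset_iff.2 fun t => h (hσ.2 t)) with e | e
      · exact Or.inl ⟨hσ.1, fun t => ⟨hσ.2 t, e ⟨t, rfl⟩⟩⟩
      · exact Or.inr ⟨hσ.1, fun t => ⟨hσ.2 t, e ⟨t, rfl⟩⟩⟩) hx)
  exact Submodule.add_mem_sup hu hw

omit hS hS' in
lemma cs_disj {x : Ch (Sx Y)} (h : x ∈ (Cs (A ∩ S) ⊔ Cs B) k) (h' : x ∈ Cs S' k) :
    x ∈ Cs (B ∩ S') k := by
  cases k with
  | zero => exact Cs_zero S' _ ▸ h'
  | succ k =>
    obtain ⟨u, hu, w, hw, rfl⟩ := Submodule.mem_sup.1 h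
    have : u + w ∈ sup ({σ : Sx Y | σ.1 = k + 1 ∧ ∀ t, σ.2 t ∈ A ∩ S} ∪
        {σ : Sx Y | σ.1 = k + 1 ∧ ∀ t, σ.2 t ∈ B}) :=
      add_mem (sup_mono subset_union_left hu) (sup_mono subset_union_right hw)
    refine sup_mono ?_ (sup_inter this h')
    rintro ⟨j, σ⟩ ⟨e | e, rfl, e'⟩
    · exact (hd.notMem_of_mem_left (e.2 (stdSimplex.vertex 0)).2 (e' _)).elim
    · exact ⟨rfl, fun t => ⟨e.2 t, e' t⟩⟩

/-- Additivity for two disjoint open sets. -/
theorem hs_split (h : A ⊆ S ∪ S') (hB : B ⊆ A) (k : ℕ) :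
    hs A B k = hs (A ∩ S) (B ∩ S) k + hs (A ∩ S') (B ∩ S') k := by
  have l1 : Cs B ≤ Cs (A ∩ S) ⊔ Cs B := le_sup_right
  have l2 : Cs (A ∩ S) ⊔ Cs B ≤ Cs A := sup_le (Cs_le inter_subset_left) (Cs_le hB)
  have cL := (cx (A ∩ S)).sup (cx B)
  have δ : ∀ k, rk ((Zr sd (Cs A) (Cs (A ∩ S) ⊔ Cs B) (k + 1)).map sd)
      (Br sd (Cs (A ∩ S) ⊔ Cs B) (Cs B) k) = 0 := fun k => rk_eq_zero.2 (by
    rintro _ ⟨z, hz, rfl⟩
    obtain ⟨u, hu, e⟩ := mem_sup2.1 (cs_split hS hS' hd h _ hz.1)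
    refine mem_Br.2 ⟨u, Submodule.mem_sup_left hu, Cs_mono inter_subset_left k
      (cs_disj hd (A := A) (add_mem hz.2 (Submodule.mem_sup_left (sd_mem hu))) ?_)⟩
    rw [← map_add]
    exact Cs_mono inter_subset_right k (sd_mem e))
  have e1 : hs (A ∩ S) (B ∩ S) k = hh sd (Cs (A ∩ S) ⊔ Cs B) (Cs B) k := by
    have : A ∩ S ∩ B = B ∩ S :=
      Set.ext fun x => ⟨fun a => ⟨a.2, a.1.2⟩, fun a => ⟨⟨hB a.1, a.2⟩, a.1⟩⟩
    rw [← hh_sup (cx _) (cx _), ← Cs_inf, this]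
  have e2 : hs (A ∩ S') (B ∩ S') k = hh sd (Cs A) (Cs (A ∩ S) ⊔ Cs B) k :=
    hh_map (d := sd) (d' := sd) (φ := LinearMap.id) (fun _ => rfl) (cx _) cL
      (fun j => (Submodule.map_id _).trans_le (Cs_mono inter_subset_left j))
      (fun j => (Submodule.map_id _).trans_le (le_sup_of_le_right (Cs_mono inter_subset_left j)))
      (fun j => by
        rw [Submodule.map_id]
        exact (cs_split hS hS' hd h j).trans (sup_le (le_sup_of_le_right le_sup_left) le_sup_left))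
      (fun j x hx => cs_disj (A := A) (B := B) hd hx.2 (Cs_mono inter_subset_right j hx.1)) k
  cases k with
  | zero => simp only [hs_zero, add_zero]
  | succ k =>
    rw [e1, e2, tri_left (cx A) cL (cx B) l1 l2, tri_right (cx A) cL (cx B) l1 l2, δ, δ, zero_add,
      add_zero]
    exact tri_mid (cx A) cL (cx B) l1 l2 _

end Split

section More

lemma hs_le' (h1 : C ⊆ B) (h2 : B ⊆ A) : hs A B (k + 1) ≤ hs A C (k + 1) + hs B C k := by
  obtain ⟨i, p, δ, a, b, c, -⟩ := triple_s h1 h2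
  rw [a, b, c]; exact add_le_add le_add_self le_self_add

/-- If the outer pair is acyclic, the degrees shift by one. -/
lemma Ac.shift (h1 : C ⊆ B) (h2 : B ⊆ A) (h : Ac A C) (k : ℕ) : hs A B (k + 1) = hs B C k := by
  obtain ⟨i, p, δ, a, b, c, -⟩ := triple_s h1 h2
  have e := fun k => add_eq_zero.1 ((b k).symm.trans (h k))
  rw [a, c, (e _).1, (e _).2, zero_add, add_zero]

/-- Both members of a pair are replaced. -/
lemma Ac.pair (h : Ac A A') (h' : Ac B B') (h1 : B' ⊆ B) (h2 : B ⊆ A) (h3 : B' ⊆ A') (h4 : A' ⊆ A)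
    (k : ℕ) : hs A B k = hs A' B' k := by
  rw [← h'.right h1 h2, h.left h3 h4]

/-- Four nested sets. -/
lemma Ac.six {A₀ A₁ A₂ A₃ : Set Y} (h1 : A₀ ⊆ A₁) (h2 : A₁ ⊆ A₂) (h3 : A₂ ⊆ A₃) (a : Ac A₂ A₀)
    (b : Ac A₃ A₁) : Ac A₂ A₁ := by
  rintro (_ | k)
  · exact hs_zero _ _
  refine hh_eq_zero.2 fun z hz => ?_
  have e1 : sd z ∈ Bs A₁ ∅ k := into_left (empty_subset _) (h2.trans h3) (b _)
    ⟨mem_Zr.2 ⟨hz.2, by rw [sd_sd]; exact zero_mem _⟩,
      mem_Br.2 ⟨-z, neg_mem (Cs_mono h3 _ hz.1), by simp⟩⟩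
  obtain ⟨w, w1, w2⟩ := mem_Br.1 e1
  have e2 : z + w ∈ Zs A₀ ∅ (k + 1) ⊔ Bs A₂ ∅ (k + 1) :=
    onto_left (empty_subset _) (h1.trans h2) (a _)
      (mem_Zr'.2 ⟨add_mem hz.1 (Cs_mono h2 _ w1), by rwa [map_add]⟩)
  refine mem_of_add ((sup_le (fun x hx => Cs_le_Bs _ _ _ (Cs_mono h1 _ (mem_Zr.1 hx).1))
    (Bs_mono Subset.rfl (empty_subset _) _) : _ ≤ Bs A₂ A₁ (k + 1)) e2) (Cs_le_Bs _ _ _ w1)

/-- Close functions without critical values in two windows have the same relative homology. -/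
theorem sandwich {f f' : Y → ℝ} {c m : ℝ} (hm : m ≤ c) (h : ∀ y, |f y - f' y| ≤ 1 / 2)
    (a : ∀ s ∈ ({c, m} : Set ℝ), ∀ u v, s - 1 ≤ u → u ≤ v → v ≤ s + 1 →
      Ac {y | f y < v} {y | f y < u} ∧ Ac {y | f' y < v} {y | f' y < u}) (k : ℕ) :
    hs {y | f y < c} {y | f y < m} k = hs {y | f' y < c} {y | f' y < m} k := by
  have l : ∀ {u v : ℝ}, u + 1 / 2 ≤ v → {y | f y < u} ⊆ {y | f' y < v} ∧
      {y | f' y < u} ⊆ {y | f y < v} := fun e =>
    ⟨fun y hy => by have := abs_le.1 (h y); simp only [mem_ofPred_eq] at *; linarith,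
      fun y hy => by have := abs_le.1 (h y); simp only [mem_ofPred_eq] at *; linarith⟩
  have l' : ∀ (g : Y → ℝ) {u v : ℝ}, u ≤ v → {y | g y < u} ⊆ {y | g y < v} :=
    fun g _ _ e _ hy => lt_of_lt_of_le hy e
  have b : ∀ s ∈ ({c, m} : Set ℝ), Ac {y | f y < s} {y | f' y < s - 1 / 2} ∧
      Ac {y | f' y < s} {y | f' y < s - 1 / 2} := fun s hs =>
    ⟨Ac.six (A₀ := {y | f y < s - 1}) (A₃ := {y | f' y < s + 1 / 2}) (l (by linarith)).1
      (l (by linarith)).2 (l le_rfl).1 (a s hs _ _ le_rfl (by linarith) (by linarith)).1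
      (a s hs _ _ (by linarith) (by linarith) (by linarith)).2,
      (a s hs _ _ (by linarith) (by linarith) (by linarith)).2⟩
  rw [(b c (by simp)).1.pair (b m (by simp)).1 (l (by linarith)).2 (l' f hm) (l' f' (by linarith))
    (l (by linarith)).2, (b c (by simp)).2.pair (b m (by simp)).2 (l' f' (by linarith)) (l' f' hm)
    (l' f' (by linarith)) (l' f' (by linarith))]

lemma Ac.le_mid (h1 : C ⊆ B) (h2 : B ⊆ A) (h : Ac A C) (k : ℕ) : hs A ∅ k ≤ hs B ∅ k := by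
  have e := onto_left (empty_subset C) (h1.trans h2) (h k)
  refine (rk_congr_le (e.trans (sup_le_sup_right (Zs_mono h1 Subset.rfl k) _))
    (le_sup_of_le_left (Zs_mono h2 Subset.rfl k))).trans_le
    (rk_mono le_rfl (Bs_mono h2 Subset.rfl k))

lemma hs_point (a : Y) (k : ℕ) : hs {a} B k ≤ 1 := by
  have e : Cs {a} k ≤ Submodule.span F (sg '' {(⟨k, ContinuousMap.const _ a⟩ : Sx Y)}) := by
    intro x hx
    refine map_mem (L := LinearMap.id) ?_ hx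
    rintro ⟨j, σ⟩ ⟨rfl, h⟩
    exact Submodule.subset_span ⟨_, rfl, congrArg (fun τ => sg (⟨j, τ⟩ : Sx Y))
      (ContinuousMap.ext fun t => (h t).symm)⟩
  exact (rk_mono (inf_le_left.trans e) le_rfl).trans ((rk_le_card _ _ _).trans (by simp))

variable {E : Type} [NormedAddCommGroup E] [NormedSpace ℝ E]

lemma ac_convex {V : Set E} (hV : Convex ℝ V) {a : E} (ha : a ∈ V) : Ac V {a} := by
  refine wd fun K _ hK => ⟨⟨fun p => (1 - (p.1 : ℝ)) • p.2 + (p.1 : ℝ) • a, by fun_prop⟩,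
    fun y => by simp, fun t y hy => hV (hK hy) ha (sub_nonneg.2 t.2.2) t.2.1 (by ring), ?_,
    fun y _ => by simp⟩
  rintro t _ - rfl
  simp [← add_smul]

lemma fin_convex {V : Set E} (hV : Convex ℝ V) (k : ℕ) : hs V ∅ k ≠ ⊤ := by
  rcases V.eq_empty_or_nonempty with rfl | ⟨a, ha⟩
  · rw [Ac.refl]; exact ENat.zero_ne_top
  · rw [(ac_convex hV ha).left (empty_subset _) (singleton_subset_iff.2 ha)]
    exact ne_top_of_le_ne_top ENat.one_ne_top (hs_point a k)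

lemma add_ne_top' {a b : ℕ∞} (h : a ≠ ⊤) (h' : b ≠ ⊤) : a + b ≠ ⊤ := WithTop.add_ne_top.2 ⟨h, h'⟩

lemma fin_union {ι : Type} (s : Finset ι) : ∀ V : ι → Set E, (∀ i, IsOpen (V i)) →
    (∀ i, Convex ℝ (V i)) → ∀ k, hs (⋃ i ∈ s, V i) ∅ k ≠ ⊤ := by
  classical
  induction s using Finset.induction_on with
  | empty => intro V _ _ k; simpa using fin_convex (E := E) convex_empty k
  | insert a s _ ih =>
    intro V o c k
    rw [Finset.set_biUnion_insert]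
    refine ne_top_of_le_ne_top (add_ne_top' (ih V o c k) ?_)
      (hs_le (empty_subset _) subset_union_right)
    rw [exc (W := ⋃ i ∈ s, V i) (o a) (isOpen_biUnion fun i _ => o i)]
    cases k with
    | zero => rw [hs_zero]; exact ENat.zero_ne_top
    | succ k =>
      refine ne_top_of_le_ne_top (add_ne_top' (fin_convex (c a) _) ?_)
        (hs_le' (empty_subset _) inter_subset_left)
      rw [inter_iUnion₂]
      exact ih _ (fun i => (o a).inter (o i)) (fun i => (c a).inter (c i)) k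

/-- An open set with the homology of a relatively compact subset has finite Betti numbers. -/
theorem fin_of_ac {U V K : Set E} (hU : IsOpen U) (hK : IsCompact K) (h1 : V ⊆ K) (h2 : K ⊆ U)
    (h : Ac U V) (k : ℕ) : hs U ∅ k ≠ ⊤ := by
  choose r r0 hr using fun x : K => Metric.isOpen_iff.1 hU x (h2 x.2)
  obtain ⟨s, hs⟩ := hK.elim_finite_subcover (fun x : K => Metric.ball (x : E) (r x))
    (fun _ => Metric.isOpen_ball) fun x hx => mem_iUnion.2 ⟨⟨x, hx⟩, Metric.mem_ball_self (r0 _)⟩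
  exact ne_top_of_le_ne_top (fin_union s _ (fun _ => Metric.isOpen_ball)
    (fun _ => convex_ball _ _) k) (h.le_mid (h1.trans hs) (iUnion₂_subset fun x _ => hr x) k)

end More

end Pool.Agent.Lib.MP_837412_lc.K
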