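import Pool.Agent.Lib.MP_837412_lc.StT
import Pool.Agent.Lib.MP_837412_lc.KT

/-!
Statements about discrete action functions, plane moves and sublevel sets.
-/

namespace Pool.Agent.Lib.MP_837412_lc.K

open Set Function Filter Topology MvPolynomial
open Pool.Agent.Shared.Mod2 (I)

/-- The phase space. -/
abbrev Ph (σ : Type) : Type := (σ → ℝ) × (σ → ℝ)

/-- The space of discrete paths. -/
abbrev Pa (σ : Type) (N : ℕ) : Type := (σ → ℝ) × (Fin N × σ → ℝ) × (Fin N × σ → ℝ)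

section Defs

variable {σ T ι : Type} [Fintype σ] [DecidableEq σ] [TopologicalSpace T]

/-- The derivatives in the first group of variables. -/
noncomputable def dx (h : Ph σ → ℝ) (p : Ph σ) : σ → ℝ := fun i => fderiv ℝ h p (Pi.single i 1, 0)

/-- The derivatives in the second group of variables. -/
noncomputable def dy (h : Ph σ → ℝ) (p : Ph σ) : σ → ℝ := fun i => fderiv ℝ h p (0, Pi.single i 1)

/-- The Poisson bracket. -/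
noncomputable def br (h g : Ph σ → ℝ) (p : Ph σ) : ℝ :=
  ∑ i, (dx h p i * dy g p i - dy h p i * dx g p i)

/-- Tame families of pairs of functions on the phase space. -/
structure Tm (h g : T → Ph σ → ℝ) (ε κ B : ℝ) : Prop where
  ε0 : 0 < ε
  κ0 : 0 < κ
  B0 : 0 < B
  sm : ∀ τ, ContDiff ℝ 2 (h τ)
  dg : ∀ τ, Differentiable ℝ (g τ)
  c0 : Continuous (uncurry h)
  c0g : Continuous (uncurry g)
  c1 : Continuous fun q : T × Ph σ => fderiv ℝ (h q.1) q.2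
  c1g : Continuous fun q : T × Ph σ => fderiv ℝ (g q.1) q.2
  bd : ∀ τ p, ‖fderiv ℝ (h τ) p‖ ≤ B
  pos : ∀ τ p, |h τ p| ≤ ε → κ ≤ br (h τ) (g τ) p
  far : ∀ Y : ℝ, ∃ R : ℝ, ∀ τ p, ‖p.2‖ ≤ Y → R ≤ ‖p.1‖ → ε < h τ p

/-- The points of a discrete path. -/
noncomputable def pt {N : ℕ} (q : Pa σ N) (j : Fin N) : Ph σ :=
  (fun i => q.1 i + ∑ l ∈ Finset.Iic j, q.2.1 (l, i), fun i => q.2.2 (j, i))

/-- The discrete action. -/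
noncomputable def act (N : ℕ) (K : Ph σ → ℝ) (q : Pa σ N) : ℝ :=
  ∑ a, q.2.2 a * q.2.1 a + (N : ℝ)⁻¹ * ∑ j, K (pt q j)

/-- Approximate chords. -/
structure Chord {N : ℕ} (K : Ph σ → ℝ) (η : ℝ) (q : Pa σ N) : Prop where
  v : ∀ j i, |q.2.1 (j, i) + (N : ℝ)⁻¹ * dy K (pt q j) i| ≤ η
  y : ∀ j i, |q.2.2 (j, i) + (N : ℝ)⁻¹ * ∑ l ∈ Finset.Ici j, dx K (pt q l) i| ≤ η
  x : ∀ i, |(N : ℝ)⁻¹ * ∑ l, dx K (pt q l) i| ≤ η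

/-- The slope. -/
noncomputable def sl (C a u : ℝ) : ℝ := C / a / (1 + (u / a) ^ 2)

/-- The cut off Hamiltonian. -/
noncomputable def Kh (C a : ℝ) (ρ : ℝ → ℝ) (h : Ph σ → ℝ) (p : Ph σ) : ℝ :=
  C * Real.arctan (h (p.1, fun i => ρ (p.2 i)) / a)

/-- The complex point. -/
noncomputable def zz (p : Ph σ) : σ → ℂ := fun i => p.1 i + p.2 i * Complex.I

/-- The determinant of a real linear map of the plane. -/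
noncomputable def jac (L : ℂ →L[ℝ] ℂ) : ℝ :=
  (L 1).re * (L Complex.I).im - (L Complex.I).re * (L 1).im

/-- Families of orientation preserving maps of the plane that are the identity far out. -/
structure Pl (ψ : T → ℂ → ℂ) : Prop where
  sm : ∀ τ, ContDiff ℝ 2 (ψ τ)
  c0 : Continuous (uncurry ψ)
  c1 : Continuous fun q : T × ℂ => fderiv ℝ (ψ q.1) q.2
  det : ∀ τ z, 0 < jac (fderiv ℝ (ψ τ) z)
  out : ∃ N : ℝ, ∀ τ z, N ≤ ‖z‖ → ψ τ z = z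

/-- A family with two parameters. -/
noncomputable def Fl2 (m : ℕ) (p p' : MvPolynomial σ ℂ) (l l' : ℂ) : MvPolynomial σ ℂ :=
  Fl m p l - C l' * p'

variable [Coef]

/-- Sublevel sets on two disjoint open sets. -/
structure RM {E : Type} [TopologicalSpace E] (f : E → ℝ) (S S' : Set E) (v : ι → ℝ)
    (s s' : ι → Prop) : Prop where
  oS : IsOpen S
  oS' : IsOpen S'
  dis : Disjoint S S'
  cov : {y | f y < 0} ⊆ S ∪ S'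
  sep : ∀ i j, s i → s' j → v i ≠ v j
  ne : ∀ i, s i ∨ s' i → v i ≠ 0
  bot : ∀ t ≤ 0, (∀ i, t ≤ v i) → {y | f y < t} = ∅
  ac : ∀ a b, a ≤ b → b ≤ 0 → (∀ i, s i → v i ∉ Icc a b) →
    Ac ({y | f y < b} ∩ S) ({y | f y < a} ∩ S)
  ac' : ∀ a b, a ≤ b → b ≤ 0 → (∀ i, s' i → v i ∉ Icc a b) →
    Ac ({y | f y < b} ∩ S') ({y | f y < a} ∩ S')
  fin : ∀ t ≤ 0, (∀ i, v i ≠ t) → ∀ j, hs {y | f y < t} ∅ j ≠ ⊤

end Defs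

def CritK : Prop := ∀ (σ : Type) [Fintype σ] [DecidableEq σ] (N : ℕ) (K : Ph σ → ℝ),
  ContDiff ℝ 2 K → ContDiff ℝ 2 (act N K) ∧
    ∀ q η, ‖fderiv ℝ (act N K) q‖ ≤ η → Chord K η q

def SlopeS : Prop := ∀ (σ T : Type) [Fintype σ] [DecidableEq σ] [TopologicalSpace T]
  [CompactSpace T] (h g : T → Ph σ → ℝ) (ε κ B : ℝ), Tm h g ε κ B →
  ∃ T₀ : ℝ, 1 ≤ T₀ ∧ ∀ C a Y : ℝ, 0 < C → 0 < a → 4 * C * a ≤ ε ^ 2 → ∃ N₀ : ℕ, ∀ N, N₀ ≤ N →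
    ∀ τ (p : ℕ → Ph σ), (∀ j < N, ‖(p j).2‖ ≤ Y) → ‖(p 0).2‖ ≤ 1 → ‖(p (N - 1)).2‖ ≤ 1 →
    (∀ j, j + 1 < N → ‖p (j + 1) - p j - (N : ℝ)⁻¹ •
      (-sl C a (h τ (p (j + 1))) • dy (h τ) (p (j + 1)), sl C a (h τ (p j)) • dx (h τ) (p j))‖ ≤
        2 / (N : ℝ) ^ 2) → ∀ j < N, sl C a (h τ (p j)) ≤ T₀

def ChordS : Prop := ∀ (σ T : Type) [Fintype σ] [DecidableEq σ] [TopologicalSpace T]
  [CompactSpace T] (h g : T → Ph σ → ℝ) (ε κ B : ℝ), Tm h g ε κ B →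
  ∃ C a M Y : ℝ, 0 < C ∧ 0 < a ∧ 4 * C * a ≤ ε ∧ 2 * C ≤ M ∧ 0 < Y ∧ ∀ ρ : ℝ → ℝ, ContDiff ℝ 2 ρ →
    (∀ s, |s| ≤ Y → ρ s = s) → ∃ N : ℕ, 0 < N ∧ ∀ τ q,
      ‖fderiv ℝ (act N (Kh C a ρ (h τ))) q‖ ≤ 1 / (N : ℝ) ^ 2 →
      1 < |act N (Kh C a ρ (h τ)) q| ∧ -M < act N (Kh C a ρ (h τ)) q

def LegS : Prop := ∀ (σ T : Type) [Fintype σ] [DecidableEq σ] [TopologicalSpace T]
  (h g : T → Ph σ → ℝ) (ε κ B : ℝ) (τ : T) (f : MvPolynomial σ ℝ), Tm h g ε κ B →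
  (∀ p, g τ p = (eval (zz p) (cx' f)).im) →
  ∃ Γ : I → Ph σ → ℝ, Tm (fun (r : I) p => h τ (p.1, (r : ℝ) • p.2)) Γ ε κ B

def EstS : Prop := ∀ (σ : Type) [Fintype σ] (m : ℕ) (p p' : MvPolynomial σ ℂ) (Λ : ℝ), Odd m →
  p.totalDegree < m → p'.totalDegree < m →
  (∃ c R : ℝ, 0 < c ∧ ∀ l l' : ℂ, ‖l‖ ≤ Λ → ‖l'‖ ≤ Λ → ∀ z,
    ‖eval z (Fl2 m p p' l l')‖ ≤ c * (1 + ‖z‖) ^ (m + 1) ∧
    n2 (Fl2 m p p' l l') z ≤ (c * (1 + ‖z‖) ^ m) ^ 2 ∧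
    (R ≤ ‖z‖ → (‖z‖ ^ m) ^ 2 ≤ n2 (Fl2 m p p' l l') z)) ∧
  ∀ Y : ℝ, ∃ R : ℝ, ∀ l l' : ℂ, ‖l‖ ≤ Λ → ‖l'‖ ≤ Λ → ∀ q : Ph σ, ‖q.2‖ ≤ Y → R ≤ ‖q.1‖ →
    ‖q.1‖ ^ (m + 1) ≤ 2 * (eval (zz q) (Fl2 m p p' l l')).re

def BrS : Prop := ∀ (σ : Type) [Fintype σ] [DecidableEq σ] (G : MvPolynomial σ ℂ) (ψ : ℂ → ℂ)
  (q : Ph σ), DifferentiableAt ℝ ψ (eval (zz q) G) →
  br (fun q => (ψ (eval (zz q) G)).re) (fun q => (ψ (eval (zz q) G)).im) q =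
    jac (fderiv ℝ ψ (eval (zz q) G)) * n2 G (zz q) ∧
  ‖fderiv ℝ (fun q : Ph σ => ψ (eval (zz q) G)) q‖ ≤
    2 * Fintype.card σ * ‖fderiv ℝ ψ (eval (zz q) G)‖ * √(n2 G (zz q))

def PlB : Prop := ∀ (T : Type) [TopologicalSpace T] [CompactSpace T] (ψ : T → ℂ → ℂ), Pl ψ →
  ∃ c J : ℝ, 0 < c ∧ 0 < J ∧ ∀ τ z, ‖ψ τ z - z‖ ≤ c ∧ ‖fderiv ℝ (ψ τ) z‖ ≤ c ∧
    J ≤ jac (fderiv ℝ (ψ τ) z)

def WtS : Prop := ∀ (σ : Type) [Fintype σ] (m : ℕ), Odd m → ∃ (w : Ph σ → ℝ) (c : ℝ), 0 < c ∧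
  ContDiff ℝ 2 w ∧ ∀ q, (1 + ‖q‖) ^ (m + 1) ≤ c * w q ∧ w q ≤ c * (1 + ‖q‖) ^ (m + 1) ∧
    ‖fderiv ℝ w q‖ ≤ c * (1 + ‖q‖) ^ m

def TameK : Prop := ∀ (σ T : Type) [Fintype σ] [DecidableEq σ] [TopologicalSpace T]
  [CompactSpace T] (m : ℕ) (p p' : MvPolynomial σ ℂ) (l l' : T → ℂ) (t : T → ℝ) (ψ : T → ℂ → ℂ),
  Odd m → p.totalDegree < m → p'.totalDegree < m → Continuous l → Continuous l' → Continuous t →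
  Pl ψ → (∀ τ z, Crit (Fl2 m p p' (l τ) (l' τ)) z →
    (ψ τ (eval z (Fl2 m p p' (l τ) (l' τ)))).re ≠ t τ) →
  ∃ (w : Ph σ → ℝ) (ε κ B : ℝ), (∀ q, 0 < w q) ∧
    Tm (fun τ q => ((ψ τ (eval (zz q) (Fl2 m p p' (l τ) (l' τ)))).re - t τ) / w q)
      (fun τ q => (ψ τ (eval (zz q) (Fl2 m p p' (l τ) (l' τ)))).im) ε κ B

def PlaneS : Prop := ∀ (ι : Type) [Fintype ι] (c : I × I → ι → ℂ), Continuous c →
  (∀ τ, Injective (c τ)) → ∃ ψ : I × I → ℂ → ℂ, Pl ψ ∧ (∀ r z, ψ (1, r) z = z) ∧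
    ∀ u r i, ψ (u, r) (c (u, r) i) = c (1, r) i

def LiftS : Prop := ∀ (ι : Type) [Fintype ι] (b : I → ι → ℂ),
  (∀ j, Continuous fun u => (chi (b u)).coeff j) → (∀ u, Injective (b u)) →
  ∃ a : I → ι → ℂ, Continuous a ∧ a 0 = b 0 ∧ ∀ u, ∃ e : Equiv.Perm ι, a u = b u ∘ e

def IsoS : Prop := ∀ (ι : Type) [Fintype ι] (a a' : I → ι → ℂ), Continuous a → Continuous a' →
  (∀ u, Injective (a' u)) → Iso (a 0) (a' 0) → (∀ u, Sim (a u) (a' u)) → ∀ u, Iso (a u) (a' u)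

variable [Coef]

def AcS : Prop := ∀ (E : Type) [NormedAddCommGroup E] [NormedSpace ℝ E] [FiniteDimensional ℝ E]
  (f : E → ℝ) (a b : ℝ) (S S' : Set E), ContDiff ℝ 2 f → a ≤ b → IsOpen S → IsOpen S' →
  Disjoint S S' → {y | f y < b} ⊆ S ∪ S' →
  (∀ b' < b, ∃ κ > 0, ∀ y ∈ S, f y ∈ Icc a b' → κ ≤ ‖fderiv ℝ f y‖) →
  Ac ({y | f y < b} ∩ S) ({y | f y < a} ∩ S)

def LinS : Prop := ∀ (Z ι : Type) [TopologicalSpace Z] [Fintype ι] (B : Z × (ι → ℝ) → ℝ) (c m : ℝ),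
  Continuous B → m ≤ c → ∀ j,
  hs {q : Z × (ι → ℝ) × (ι → ℝ) | ∑ a, q.2.2 a * q.2.1 a + B (q.1, q.2.1) < c}
    {q | ∑ a, q.2.2 a * q.2.1 a + B (q.1, q.2.1) < m} (j + Fintype.card ι) =
  hs {z | B (z, 0) < c} {z | B (z, 0) < m} j

def GFS : Prop := ∀ (σ T : Type) [Fintype σ] [DecidableEq σ] [TopologicalSpace T]
  [CompactSpace T] (h g : T → Ph σ → ℝ) (ε κ B : ℝ), Tm h g ε κ B →
  ∃ J : (Ph σ → ℝ) → ℕ → ℕ∞, IsLocallyConstant (fun τ => J (h τ)) ∧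
    ∀ τ, (∀ p, h τ p = h τ (p.1, 0)) → ∀ j, J (h τ) j = hs {x | h τ (x, 0) < 0} ∅ j

def EndS : Prop := ∀ (σ T : Type) [Fintype σ] [DecidableEq σ] [TopologicalSpace T]
  [CompactSpace T] [PreconnectedSpace T] (h g : T → Ph σ → ℝ) (ε κ B : ℝ) (τ τ' : T)
  (f f' : MvPolynomial σ ℝ), Tm h g ε κ B → (∀ p, g τ p = (eval (zz p) (cx' f)).im) →
  (∀ p, g τ' p = (eval (zz p) (cx' f')).im) →
  ∀ j, hs {x | h τ (x, 0) < 0} ∅ j = hs {x | h τ' (x, 0) < 0} ∅ j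

def RmS : Prop := ∀ (σ ι : Type) [Fintype σ] [Finite ι] (f : MvPolynomial σ ℝ) (v : ι → ℝ)
  (s s' : ι → Prop) (S S' : Set (σ → ℝ)), (∀ b, IsCompact {y | eval y f ≤ b}) → IsOpen S →
  IsOpen S' → Disjoint S S' → {y | eval y f < 0} ⊆ S ∪ S' → (∀ i j, s i → s' j → v i ≠ v j) →
  (∀ i, s i ∨ s' i → v i ≠ 0) →
  (∀ y, Crit f y → ∃ i, eval y f = v i ∧ (y ∈ S → s i) ∧ (y ∈ S' → s' i)) →
  RM (fun y => eval y f) S S' v s s'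

def RealS : Prop := ∀ (E E' ι : Type) [TopologicalSpace E] [TopologicalSpace E'] [Finite ι]
  (f : E → ℝ) (f' : E' → ℝ) (S₁ S₂ : Set E) (S₁' S₂' : Set E') (v v' : ι → ℝ) (s s' : ι → Prop),
  RM f S₁ S₂ v s s' → RM f' S₁' S₂' v' s s' → (∀ i j, v i ≤ v j ↔ v' i ≤ v' j) →
  (∀ i, v i < 0 ↔ v' i < 0) →
  (∀ t t', (∀ i, v i ≠ t ∧ v' i ≠ t' ∧ (v i < t ↔ v' i < t')) →
    ∀ j, hs {y | f y < t} ∅ j = hs {y | f' y < t'} ∅ j) →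
  ∀ j, hs ({y | f y < 0} ∩ S₁) ∅ j = hs ({y | f' y < 0} ∩ S₁') ∅ j ∧
    hs ({y | f y < 0} ∩ S₁) ∅ j ≠ ⊤

end Pool.Agent.Lib.MP_837412_lc.K
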