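import Pool.Agent.Lib.MP_837412_lc.G5
import Pool.Agent.Lib.MP_837412_lc.KSt

/-!
Bands without critical points, joins and scaling, with coefficients in a field.
-/

namespace Pool.Agent.Lib.MP_837412_lc.K

open Set Function Filter Topology MvPolynomial
open Pool.Agent.Shared.Mod2 (I)

variable [Coef]

def K1S : Prop := ∀ (E V : Type) [NormedAddCommGroup E] [NormedSpace ℝ E] [FiniteDimensional ℝ E]
  [NormedAddCommGroup V] [NormedSpace ℝ V] (G : E → V) (γ : E → E) (n : E → ℝ) (ζ : V) (M : ℝ)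
  (A B : Set V) (S S' : Set E), PG G γ n ζ M → Adm ζ A B → IsOpen S → IsOpen S' → Disjoint S S' →
  G ⁻¹' A ⊆ S ∪ S' → (∀ Z, IsCompact Z → Z ⊆ A \ B → ∃ κ > 0, ∀ y ∈ S, G y ∈ Z → κ ≤ n y) →
  Ac (G ⁻¹' A ∩ S) (G ⁻¹' B ∩ S)

def LimS : Prop := ∀ (σ : Type) [Fintype σ] (m : ℕ) (p : MvPolynomial σ ℝ) (l : ℝ)
  (S S' : Set (σ → ℝ)), Odd m → p.totalDegree < m → 0 < l →
  (∀ l', l ≤ l' → ∀ y, Crit (Fl m p l') y → MvPolynomial.eval y (Fl m p l') ≠ 0) →
  IsOpen S → IsOpen S' → Disjoint S S' → {y | 0 < MvPolynomial.eval y p} ⊆ S ∪ S' →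
  Ac ({y | 0 < MvPolynomial.eval y p} ∩ S) ({y | MvPolynomial.eval y (Fl m p l) < 0} ∩ S)

def JoinS : Prop := ∀ (Y Z ι κ : Type) [TopologicalSpace Y] [NormedAddCommGroup Z]
  [NormedSpace ℝ Z] [Fintype ι] [Finite κ] (U : κ → Set Y) (W : Set (Y × Z)), (∀ a, IsOpen (U a)) →
  IsOpen W → (∀ q ∈ W, q.1 ∈ ⋃ a, U a) → (∀ a, ∃ z, ∀ y ∈ U a, (y, z) ∈ W) →
  ∀ j < Fintype.card ι, hs {q : Y × (ι → Z) | ∃ i, (q.1, q.2 i) ∈ W} ∅ j = hs (⋃ a, U a) ∅ j

def ScaleS : Prop := ∀ (Y ι : Type) [TopologicalSpace Y] [Fintype ι] (g : Y × ℝ → ℝ),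
  Continuous g → Ac {q : Y × (ι → ℝ × ℝ) | ∃ i, 0 < (q.2 i).2 ^ 2 * g (q.1, (q.2 i).1)}
    {q | 0 < ∑ i, (q.2 i).2 ^ 2 * g (q.1, (q.2 i).1)}

def BigS : Prop := ∀ (σ τ ι : Type) [Fintype σ] [Fintype τ] [Nonempty τ] [Fintype ι] (N : ℕ)
  (p : Fin N → τ → MvPolynomial σ ℝ), ∀ j < Fintype.card ι,
  hs (cell (big (ι := ι) p) fun _ => 1) ∅ j = hs (⋃ a, cell (p a) fun _ => 1) ∅ j

theorem k1S (h : HLS) : K1S := by
  intro E V _ _ _ _ _ G γ n ζ M A B S S' hP hA oS oS' hd hc hκ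
  have cG : Continuous G := continuous_iff_continuousAt.2 fun x =>
    let ⟨_, a, _⟩ := hP.der x; a.continuousAt
  refine wd fun K k1 k2 => ?_
  obtain ⟨T, hT⟩ := k1.elim_directed_cover (fun T : ℕ => {y | G y + (T : ℝ) • ζ ∈ B})
    (fun T => hA.oB.preimage (by fun_prop)) (fun y hy => by
      obtain ⟨t, t0, ht⟩ := hA.ent _ (k2 hy).1
      refine mem_iUnion.2 ⟨⌈t⌉₊, ?_⟩
      have := hA.mB _ ht (⌈t⌉₊ - t) (sub_nonneg.2 (Nat.le_ceil t))
      rwa [add_assoc, ← add_smul, add_sub_cancel] at this)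
    (Monotone.directed_le fun a b ab y hy => by
      have := hA.mB _ hy ((b : ℝ) - a) (sub_nonneg.2 (Nat.cast_le.2 ab))
      rwa [add_assoc, ← add_smul, add_sub_cancel] at this)
  obtain ⟨κ, κ0, hκ⟩ := hκ (((fun p : E × ℝ => G p.1 + p.2 • ζ) '' K ×ˢ Icc 0 (T : ℝ)) \ B)
    (((k1.prod isCompact_Icc).image (by fun_prop)).diff hA.oB) (by
      rintro _ ⟨⟨p, hp, rfl⟩, a⟩
      exact ⟨hA.mA _ (k2 hp.1).1 _ hp.2.1, a⟩)
  obtain ⟨H, s, h0, h1, h2, h3, -⟩ := h E V G γ n ζ M T κ hP T.cast_nonneg κ0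
  have s0 : ∀ t y, 0 ≤ s t y := fun t y => (h2 y).1 ▸ (h2 y).2.1 t.2.1
  have s1 : ∀ t y, s t y ≤ s 1 y := fun t y => (h2 y).2.1 t.2.2
  have hA' : ∀ t, ∀ y ∈ K, G (H (t, y)) ∈ A := fun t y hy => by
    rw [h1]; exact hA.mA _ (k2 hy).1 _ (s0 t y)
  have hS : ∀ t, ∀ y ∈ K, H (t, y) ∈ S := fun t y hy =>
    (isPreconnected_range (f := fun t : I => H (t, y)) (by fun_prop)).subset_left_of_subset_union
      oS oS' hd (range_subset_iff.2 fun t => hc (hA' t y hy))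
      ⟨_, ⟨0, rfl⟩, by simpa only [h0] using (k2 hy).2⟩ ⟨t, rfl⟩
  refine ⟨H, h0, fun t y hy => ⟨hA' t y hy, hS t y hy⟩, fun t y hy b => ⟨?_, hS t y hy⟩,
    fun y hy => ⟨?_, hS 1 y hy⟩⟩
  · rw [mem_preimage, h1]; exact hA.mB _ b.1 _ (s0 t y)
  · by_cases e : ∃ t, G (H (t, y)) ∈ B
    · obtain ⟨t, e⟩ := e
      have := hA.mB _ e _ (sub_nonneg.2 (s1 t y))
      rwa [h1, add_assoc, ← add_smul, add_sub_cancel, ← h1] at this
    · rw [mem_preimage, h1, h3 y fun t => hκ _ (hS t y hy)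
        ⟨⟨(y, s t y), ⟨hy, s0 t y, (s1 t y).trans (h2 y).2.2⟩, (h1 t y).symm⟩,
          fun a => e ⟨t, a⟩⟩]
      exact hT hy

theorem acS' (h1 : K1S) (h2 : PGS) : AcS := by
  intro E _ _ _ f a b S S' hf hab hS hS' hd hc h
  obtain ⟨γ, n, M, hp, hn⟩ := h2 E f hf
  have hm : ∀ c : ℝ, Mono (-1 : ℝ) (Iio c) := fun c z hz t ht => by
    simp only [mem_Iio, smul_eq_mul] at hz ⊢
    linarith
  refine h1 E ℝ f γ n (-1) M (Iio b) (Iio a) S S' hp
    ⟨isOpen_Iio, isOpen_Iio, Iio_subset_Iio hab, hm b, hm a, fun z _ =>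
      ⟨|z - a| + 1, by positivity, ?_⟩⟩ hS hS' hd hc fun Z hZ hs => ?_
  · have := le_abs_self (z - a)
    simp only [mem_Iio, smul_eq_mul]
    linarith
  rcases Z.eq_empty_or_nonempty with rfl | h0
  · exact ⟨1, one_pos, fun _ _ h => h.elim⟩
  obtain ⟨b', hb, hb'⟩ := hZ.exists_isGreatest h0
  obtain ⟨κ, hκ, hk⟩ := h b' (hs hb).1
  exact ⟨κ ^ 2, by positivity, fun y hy hz =>
    (pow_le_pow_left₀ hκ.le (hk y hy ⟨not_lt.1 (hs hz).2, hb' hz⟩) 2).trans (hn y)⟩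

theorem limS (h1 : AcS) (h2 : GrowS) : LimS := by
  classical
  intro σ _ m p l S S' hm hp hl hc hS hS' hd hs
  obtain ⟨h0, hK⟩ := h2 σ m p hm hp
  let f : (σ → ℝ) → ℝ := fun y => -eval y p / eval y (F0 σ ℝ m)
  have hf : ContDiff ℝ 2 f := (contDiff_eval p).neg.div (contDiff_eval _) fun y => (h0 y).ne'
  have e0 : {y | f y < 0} = {y | 0 < eval y p} := by
    ext y
    simp only [f, mem_ofPred_eq, div_lt_iff₀ (h0 y), zero_mul, neg_lt_zero]
  have e1 : {y | f y < -l⁻¹} = {y | eval y (Fl m p l) < 0} := by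
    ext y
    simp only [f, mem_ofPred_eq, div_lt_iff₀ (h0 y), eval_Fl, neg_mul, neg_lt_neg_iff,
      inv_mul_lt_iff₀ hl, sub_neg]
  rw [← e0, ← e1]
  refine h1 _ f _ _ S S' hf (neg_nonpos.2 (inv_pos.2 hl).le) hS hS' hd (e0 ▸ hs) fun b hb => ?_
  have hC : IsCompact (f ⁻¹' Icc (-l⁻¹) b) := by
    refine (hK (-b)⁻¹ 0).of_isClosed_subset (isClosed_Icc.preimage hf.continuous) fun y hy => ?_
    have := hy.2
    simp only [f, div_le_iff₀ (h0 y)] at this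
    rw [mem_ofPred_eq, eval_Fl, sub_nonpos, le_inv_mul_iff₀ (neg_pos.2 hb)]
    linarith
  obtain ⟨κ, hκ, hk⟩ := hC.exists_forall_le' (f := fun y => ‖fderiv ℝ f y‖) (a := 0)
    (hf.continuous_fderiv two_ne_zero).norm.continuousOn fun y hy => by
      refine norm_pos_iff.2 fun hz => ?_
      have hy0 : f y < 0 := hy.2.trans_lt hb
      have hv : ∀ z, eval z (Fl m p (-f y)⁻¹) = eval z (F0 σ ℝ m) * (1 + (-f y)⁻¹ * f z) :=
        fun z => by
          have := (h0 z).ne'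
          rw [eval_Fl]
          simp only [f]
          field_simp
          ring
      have hw : 1 + (-f y)⁻¹ * f y = 0 := by
        have := hy0.ne
        field_simp
        ring
      refine hc (-f y)⁻¹ ((le_inv_comm₀ hl (neg_pos.2 hy0)).2 (neg_le.1 hy.1)) y (fun i => ?_)
        (by rw [hv, hw, mul_zero])
      have d1 := (hasStrictFDerivAt_eval (Fl m p (-f y)⁻¹) y).hasFDerivAt
      have d2 := (hasStrictFDerivAt_eval (F0 σ ℝ m) y).hasFDerivAt.mul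
        ((((hf.differentiable two_ne_zero y).hasFDerivAt).const_mul (-f y)⁻¹).const_add 1)
      have d3 := congrArg (· (Pi.single i 1)) (d1.unique (d2.congr_of_eventuallyEq (.of_forall hv)))
      rw [hw, hz] at d3
      simpa [dif_apply, Pi.single_apply] using d3
  exact ⟨κ, hκ, fun y _ hy => hk y hy⟩

theorem acS : AcS := acS' (k1S (hlS flowS)) pgS

open JJoin

namespace KPort

variable {Y Z ι : Type} [TopologicalSpace Y] [NormedAddCommGroup Z] [NormedSpace ℝ Z]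

lemma lemA [DecidableEq ι] {W : Set (Y × Z)} (hW : IsOpen W) (z : Z) (s : Finset ι) :
    ∀ X : Set (Y × (ι → Z)), IsOpen X → (∀ q ∈ X, (q.1, z) ∈ W) →
      (∀ q ∈ X, ∀ i ∈ s, ∀ v, (q.1, update q.2 i v) ∈ X) →
      ∀ j ≤ s.card, hs X (X ∩ ⋃ i ∈ s, Aw W i) j = 0 := by
  induction s using Finset.induction_on with
  | empty =>
    intro X _ _ _ j hj
    obtain rfl : j = 0 := by simpa using hj
    exact hs_zero _ _
  | insert a s ha ih =>
    intro X hX hz hu j hj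
    have oA : IsOpen (⋃ i ∈ s, Aw W i : Set (Y × (ι → Z))) :=
      isOpen_biUnion fun i _ => isOpen_Aw hW i
    have e : X ∩ ⋃ i ∈ insert a s, Aw W i = X ∩ Aw W a ∪ X ∩ ⋃ i ∈ s, Aw W i := by
      rw [Finset.set_biUnion_insert, inter_union_distrib_left]
    rw [e]
    have h1 : hs (X ∩ Aw W a ∪ X ∩ ⋃ i ∈ s, Aw W i) (X ∩ ⋃ i ∈ s, Aw W i) (j - 1) = 0 := by
      rw [exc (hX.inter (isOpen_Aw hW a)) (hX.inter oA)]
      have e2 : X ∩ Aw W a ∩ (X ∩ ⋃ i ∈ s, Aw W i) = X ∩ Aw W a ∩ ⋃ i ∈ s, Aw W i := by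
        ext q; simp only [mem_inter_iff]; tauto
      rw [e2]
      refine ih _ (hX.inter (isOpen_Aw hW a)) (fun q hq => hz q hq.1) ?_ _ ?_
      · intro q hq i hi v
        refine ⟨hu q hq.1 i (Finset.mem_insert_of_mem hi) v, ?_⟩
        have hne : a ≠ i := fun h => ha (h ▸ hi)
        have := hq.2
        simp only [Aw, mem_ofPred_eq] at this ⊢
        rwa [update_of_ne hne]
      · rw [Finset.card_insert_of_notMem ha] at hj; omega
    refine hh_eq_zero.2 ((onto_right subset_union_right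
      (union_subset inter_subset_left inter_subset_left) h1).trans (sup_le ?_ le_rfl))
    refine wd3 (fun K _ hK => ?_) j
    refine ⟨⟨fun p => (p.2.1, update p.2.2 a ((1 - (p.1 : ℝ)) • p.2.2 a + (p.1 : ℝ) • z)), ?_⟩,
      ?_, ?_, ?_, ?_⟩
    · refine Continuous.prodMk (by fun_prop) (Continuous.update (by fun_prop) a (by fun_prop))
    · intro y; simp
    · intro t y hy
      exact hu y (hK hy) a (Finset.mem_insert_self _ _) _
    · intro t y hy hB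
      refine Or.inr ⟨hu y (hK hy) a (Finset.mem_insert_self _ _) _, ?_⟩
      obtain ⟨i, hi, hq⟩ := mem_iUnion₂.1 hB.2
      refine mem_iUnion₂.2 ⟨i, hi, ?_⟩
      have hne : i ≠ a := fun h => ha (h ▸ hi)
      simp only [Aw, mem_ofPred_eq, ContinuousMap.coe_mk] at hq ⊢
      rwa [update_of_ne hne]
    · intro y hy
      refine Or.inl ⟨hu y (hK hy) a (Finset.mem_insert_self _ _) _, ?_⟩
      simpa [Aw] using hz y (hK hy)

lemma lemA' [Fintype ι] {W : Set (Y × Z)} (hW : IsOpen W) (z : Z) {V : Set Y} (hV : IsOpen V)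
    (hz : ∀ y ∈ V, (y, z) ∈ W) (j : ℕ) (hj : j ≤ Fintype.card ι) :
    hs (Prod.fst ⁻¹' V : Set (Y × (ι → Z))) (Prod.fst ⁻¹' V ∩ ⋃ i, Aw W i) j = 0 := by
  classical
  have := lemA hW z (Finset.univ : Finset ι) (Prod.fst ⁻¹' V) (hV.preimage continuous_fst)
    (fun q hq => hz _ hq) (fun q hq _ _ _ => hq) j hj
  simpa using this

lemma lemB [Fintype ι] {κ : Type} {U : κ → Set Y} {W : Set (Y × Z)} (hU : ∀ a, IsOpen (U a))
    (hW : IsOpen W) (hz : ∀ a, ∃ z, ∀ y ∈ U a, (y, z) ∈ W) (s : Finset κ) :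
    ∀ V : Set Y, IsOpen V → V ⊆ ⋃ a ∈ s, U a → ∀ j ≤ Fintype.card ι,
      hs (Prod.fst ⁻¹' V : Set (Y × (ι → Z))) (Prod.fst ⁻¹' V ∩ ⋃ i, Aw W i) j = 0 := by
  classical
  induction s using Finset.induction_on with
  | empty =>
    intro V _ hV j _
    obtain rfl : V = ∅ := by simpa using hV
    simpa using Ac.refl (∅ : Set (Y × (ι → Z))) j
  | insert a s _ ih =>
    intro V oV hV j hj
    obtain ⟨z, hz'⟩ := hz a
    have oS : IsOpen (⋃ a ∈ s, U a) := isOpen_biUnion fun a _ => hU a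
    have e : V = V ∩ U a ∪ V ∩ ⋃ a ∈ s, U a := by
      rw [← inter_union_distrib_left, ← Finset.set_biUnion_insert, inter_eq_left.2 hV]
    rw [e, preimage_union]
    refine mv_rel ((oV.inter (hU a)).preimage continuous_fst)
      ((oV.inter oS).preimage continuous_fst) (isOpen_iUnion fun i => isOpen_Aw hW i) ?_ ?_ ?_
    · exact lemA' hW z (oV.inter (hU a)) (fun y hy => hz' y hy.2) j hj
    · exact ih _ (oV.inter oS) inter_subset_right j hj
    · rw [← preimage_inter]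
      exact lemA' hW z ((oV.inter (hU a)).inter (oV.inter oS)) (fun y hy => hz' y hy.1.2) _
        (by omega)

lemma prod_eq {E : Type} [NormedAddCommGroup E] [NormedSpace ℝ E] (S : Set Y) (j : ℕ) :
    hs (Prod.fst ⁻¹' S : Set (Y × E)) ∅ j = hs S ∅ j := by
  let φ : C(Y, Y × E) := ⟨fun y => (y, 0), by fun_prop⟩
  have h := hs_image (φ := φ) (isEmbedding_prodMkLeft (0 : E)) S ∅ j
  rw [image_empty] at h
  rw [← h]
  refine Ac.left (empty_subset _) ?_ (wd fun K _ hK => ?_) j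
  · rintro _ ⟨y, hy, rfl⟩; exact hy
  refine ⟨⟨fun p => (p.2.1, (1 - (p.1 : ℝ)) • p.2.2), by fun_prop⟩, ?_, ?_, ?_, ?_⟩
  · intro y; simp
  · intro t y hy; exact (hK hy : y.1 ∈ S)
  · rintro t _ - ⟨y, hy, rfl⟩
    exact ⟨y, hy, by simp [φ]⟩
  · intro y hy
    exact ⟨y.1, hK hy, by simp [φ]⟩

end KPort

open KPort

theorem joinS : JoinS := by
  intro Y Z ι κ _ _ _ _ _ U W hU hW h1 h2 j hj
  have := Fintype.ofFinite κ
  have key := KPort.lemB (ι := ι) hU hW h2 Finset.univ (⋃ a, U a) (isOpen_iUnion hU) (by simp)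
  have e : (Prod.fst ⁻¹' (⋃ a, U a) : Set (Y × (ι → Z))) ∩ ⋃ i, Aw W i =
      {q : Y × (ι → Z) | ∃ i, (q.1, q.2 i) ∈ W} := by
    ext q
    constructor
    · rintro ⟨-, hq⟩
      exact mem_iUnion.1 hq
    · rintro ⟨i, hi⟩
      exact ⟨h1 _ hi, mem_iUnion.2 ⟨i, hi⟩⟩
  rw [← e, ← KPort.prod_eq (E := ι → Z) (⋃ a, U a)]
  exact (hs_left (empty_subset _) inter_subset_left (key j hj.le) (key (j + 1) hj)).symm

theorem scaleS : ScaleS := by
  intro Y ι _ _ g hg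
  refine wd fun K hK hA => ?_
  let c : Y × (ι → ℝ × ℝ) → ℝ := fun q => ∑ i, (q.2 i).2 ^ 2 * max (g (q.1, (q.2 i).1)) 0
  let M : Y × (ι → ℝ × ℝ) → ℝ := fun q => ∑ i, (q.2 i).2 ^ 2
  have cc : Continuous c := by fun_prop
  have cM : Continuous M := by fun_prop
  have cp : ∀ q ∈ K, 0 < c q := fun q hq => by
    obtain ⟨i, hi⟩ := hA hq
    refine Finset.sum_pos' (fun i _ => mul_nonneg (sq_nonneg _) (le_max_right _ _))
      ⟨i, Finset.mem_univ _, hi.trans_le ?_⟩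
    exact mul_le_mul_of_nonneg_left (le_max_left _ _) (sq_nonneg _)
  obtain ⟨b, hb⟩ := hK.bddAbove_image (f := fun q => M q / c q)
    (cM.continuousOn.div cc.continuousOn fun q hq => (cp q hq).ne')
  have hT : (0 : ℝ) ≤ max b 0 + 1 := by positivity
  have hM : ∀ q ∈ K, M q < (max b 0 + 1) * c q := fun q hq => by
    have h1 : M q / c q ≤ b := hb ⟨q, hq, rfl⟩
    rw [← div_lt_iff₀ (cp q hq)]
    linarith [le_max_left b 0]
  generalize max b 0 + 1 = T at hT hM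
  refine ⟨⟨fun p => (p.2.1, fun i => ((p.2.2 i).1,
    fac p.1 T (g (p.2.1, (p.2.2 i).1)) * (p.2.2 i).2)), ?_⟩, ?_, ?_, ?_, ?_⟩
  · unfold fac; fun_prop
  · intro y; simp [fac]
  · intro t y hy
    obtain ⟨i, hi⟩ := hA hy
    refine ⟨i, ?_⟩
    have : 0 < g (y.1, (y.2 i).1) := pos_of_mul_pos_right hi (sq_nonneg _)
    simp only [ContinuousMap.coe_mk]
    rwa [fac_pos _ _ this.le, one_mul]
  · intro t y _ hB
    refine lt_of_lt_of_le (show 0 < ∑ i, (y.2 i).2 ^ 2 * g (y.1, (y.2 i).1) from hB)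
      (Finset.sum_le_sum fun i _ => ?_)
    simp only [ContinuousMap.coe_mk]
    have := mul_le_mul_of_nonneg_left (le_fac (g (y.1, (y.2 i).1)) t.2.1 t.2.2 hT)
      (sq_nonneg (y.2 i).2)
    nlinarith
  · intro y hy
    have h1 : T * c y - M y ≤ T * ∑ i, (fac 1 T (g (y.1, (y.2 i).1)) * (y.2 i).2) ^ 2 *
        g (y.1, (y.2 i).1) := by
      simp only [c, M, Finset.mul_sum, ← Finset.sum_sub_distrib]
      refine Finset.sum_le_sum fun i _ => ?_
      have := mul_le_mul_of_nonneg_left (fac_one (g (y.1, (y.2 i).1)) hT) (sq_nonneg (y.2 i).2)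
      nlinarith
    have h2 := hM y hy
    exact pos_of_mul_pos_right ((sub_pos.2 h2).trans_le h1) hT

open JBig in
theorem bigS (h1 : JoinS) (h2 : ScaleS) (h3 : PsiS) : BigS := by
  intro σ τ ι _ _ _ _ N p j hj
  have hg := continuous_gm p
  have g1 : ∀ q, 0 < gm p q → q.1 ∈ ⋃ a, cell (p a) fun _ => 1 := fun q hq => by
    obtain ⟨a, ha⟩ := (h3 τ N _).1 _ (gm_pos.1 hq)
    exact mem_iUnion.2 ⟨a, mem_cell.2 ha⟩
  have g2 : ∀ a : Fin N, ∀ y ∈ cell (p a) fun _ => 1, 0 < gm p (y, ((a : ℕ) : ℝ)) :=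
    fun a y hy => gm_pos.2 ((h3 τ N _).2 a (mem_cell.1 hy))
  have g3 : ∀ a, IsOpen (cell (p a) fun _ => 1) := fun a => by
    have : (cell (p a) fun _ => 1) = ⋂ l, {y | 0 < MvPolynomial.eval y (p a l)} :=
      Set.ext fun y => by simp only [mem_cell, mem_iInter, mem_ofPred_eq]
    rw [this]
    exact isOpen_iInter_of_finite fun l =>
      isOpen_lt continuous_const (MvPolynomial.continuous_eval _)
  rw [cell_big]
  generalize gm p = g at hg g1 g2 ⊢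
  have e1 := hs_preimage (spl σ ι) {q | 0 < ∑ i, (q.2 i).2 ^ 2 * g (q.1, (q.2 i).1)} ∅ j
  have e2 := (h2 (σ → ℝ) ι g hg).left (empty_subset _) (fun q hq => by
    by_contra hn
    exact (Finset.sum_nonpos fun i _ => not_lt.1 fun a => hn ⟨i, a⟩).not_gt hq) j
  have e3 := h1 (σ → ℝ) (ℝ × ℝ) ι (Fin N) (fun a => cell (p a) fun _ => 1)
    {q | 0 < q.2.2 ^ 2 * g (q.1, q.2.1)} g3 (isOpen_lt continuous_const (by fun_prop))
    (fun q hq => g1 (q.1, q.2.1) (pos_of_mul_pos_right hq (sq_nonneg _)))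
    (fun a => ⟨(((a : ℕ) : ℝ), 1), fun y hy => mul_pos (pow_pos one_pos 2) (g2 a y hy)⟩) j hj
  rw [preimage_empty] at e1
  simp only [mem_ofPred_eq] at e3
  rw [e1, ← e2, e3]

end Pool.Agent.Lib.MP_837412_lc.K
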