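import Pool.Agent.Lib.MP_837412_lc.KCx

/-! Singular chains with coefficients in a field: boundary, subdivision and prism operators. -/

namespace Pool.Agent.Lib.MP_837412_lc.K

open Pool.Agent.Shared.Mod2 Set Topology

variable [Coef] {Y Y' Y'' : Type} [TopologicalSpace Y] [TopologicalSpace Y'] [TopologicalSpace Y'']

/-- The induced map on singular chains. -/
noncomputable def cm (g : C(Y, Y')) : Ch (Sx Y) →ₗ[F] Ch (Sx Y') := mp (smap g)

@[simp] lemma cm_sg (g : C(Y, Y')) (σ : Sx Y) : cm g (sg σ) = sg (smap g σ) := mp_sg _ _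

lemma cm_cm (g : C(Y', Y'')) (f : C(Y, Y')) (x : Ch (Sx Y)) : cm g (cm f x) = cm (g.comp f) x :=
  mp_mp _ _ _

lemma cm_id (x : Ch (Sx Y)) : cm (ContinuousMap.id Y) x = x := mp_id x

section Affine

variable {A A' : Type} [NormedAddCommGroup A] [NormedSpace ℝ A] [NormedAddCommGroup A']
  [NormedSpace ℝ A'] {V : Set A} {V' : Set A'} [hV : Fact (Convex ℝ V)] [Fact (Convex ℝ V')]

lemma aff_cm_re {g : C(V, V')} (h : IsAff g) (x : Ch (List V)) :
    cm g (mp re x) = mp re (mp (List.map g) x) := by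
  simp only [cm, mp_mp, h.smap_re]

/-- The natural operator defined by a family of affine chains in the standard simplices. -/
noncomputable def op (u : ∀ k, Ch (List (Sp k))) : Ch (Sx Y) →ₗ[F] Ch (Sx Y) :=
  lin fun σ => cm σ.2 (mp re (u σ.1))

lemma op_sg (u : ∀ k, Ch (List (Sp k))) (σ : Sx Y) : op u (sg σ) = cm σ.2 (mp re (u σ.1)) :=
  lin_sg _ _

lemma cm_op (u : ∀ k, Ch (List (Sp k))) (g : C(Y, Y')) (x : Ch (Sx Y)) :
    cm g (op u x) = op u (cm g x) :=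
  map_eq' (L := cm g ∘ₗ op u) (L' := op u ∘ₗ cm g) (fun σ => by simp [op_sg, cm_cm, smap]) x

lemma op_re (u : ∀ k, Ch (List (Sp k))) (l : List V) :
    op u (sg (re l)) = mp re (mp (List.map (aff l.get)) (u l.length)) := by
  rw [op_sg, ← aff_cm_re (isAff_aff _)]; rfl

/-- The singular boundary. -/
noncomputable def sd : Ch (Sx Y) →ₗ[F] Ch (Sx Y) := op fun k => bdl (ev k)

lemma cm_sd (g : C(Y, Y')) (x : Ch (Sx Y)) : cm g (sd x) = sd (cm g x) := cm_op _ g x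

lemma sd_re (x : Ch (List V)) : sd (mp re x) = mp re (lin bdl x) :=
  map_eq' (L := sd ∘ₗ mp re) (L' := mp re ∘ₗ lin bdl)
    (fun l => by simp [sd, op_re, map_bdl, map_ev]) x

lemma sd_sd (x : Ch (Sx Y)) : sd (sd x) = 0 :=
  map_zero' (L := sd ∘ₗ sd) (fun σ _ => by
    rw [LinearMap.comp_apply, sd, op_sg, ← sd, ← cm_sd, sd_re, bdl_bdl, map_zero, map_zero])
    (mem_sup_univ x)

/-- Chains of degree `k` in the subset `s`. -/
def Cs (s : Set Y) (k : ℕ) : Submodule F (Ch (Sx Y)) := sup {σ | σ.1 = k ∧ ∀ t, σ.2 t ∈ s}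

lemma Cs_mono {s t : Set Y} (h : s ⊆ t) (k : ℕ) : Cs s k ≤ Cs t k :=
  sup_mono fun _ hσ => ⟨hσ.1, fun x => h (hσ.2 x)⟩

lemma Cs_inter {s t : Set Y} {k : ℕ} {x : Ch (Sx Y)} (h : x ∈ Cs s k) (h' : x ∈ Cs t k) :
    x ∈ Cs (s ∩ t) k := by
  refine sup_mono ?_ (sup_inter h h')
  exact fun _ hσ => ⟨hσ.1.1, fun x => ⟨hσ.1.2 x, hσ.2.2 x⟩⟩

lemma cm_mem {g : C(Y, Y')} {s : Set Y} {t : Set Y'} (h : MapsTo g s t) {k : ℕ} {x : Ch (Sx Y)}
    (hx : x ∈ Cs s k) : cm g x ∈ Cs t k := by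
  refine mp_mem ?_ hx
  exact fun _ hσ => ⟨hσ.1, fun y => h (hσ.2 y)⟩

lemma re_mem {k : ℕ} {x : Ch (List V)} (hx : x ∈ Gr V k) : mp re x ∈ Cs univ k := by
  refine mp_mem ?_ hx
  exact fun _ hl => ⟨hl, fun _ => trivial⟩

lemma op_mem {u : ∀ k, Ch (List (Sp k))} {k k' : ℕ} (hu : u k ∈ Gr _ k') {s : Set Y}
    {x : Ch (Sx Y)} (hx : x ∈ Cs s k) : op u x ∈ Cs s k' := by
  refine lin_mem ?_ hx
  rintro ⟨k, σ⟩ ⟨rfl, h⟩
  exact cm_mem (fun t _ => h t) (re_mem hu)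

lemma ev_gr (k : ℕ) : sg (ev k) ∈ Gr _ k := sg_mem (ev_length k)

lemma sd_mem {s : Set Y} {k : ℕ} {x : Ch (Sx Y)} (hx : x ∈ Cs s (k + 1)) : sd x ∈ Cs s k :=
  op_mem (bdl_gr (ev_length (k + 1))) hx

lemma sd_zero {s : Set Y} {x : Ch (Sx Y)} (hx : x ∈ Cs s 0) : sd x = 0 := by
  refine map_zero' ?_ hx
  rintro ⟨k, σ⟩ ⟨rfl, -⟩
  simp [sd, op_sg, ev, bdl]

lemma Cs_zero (s t : Set Y) : Cs s 0 = Cs t 0 := by
  have : ∀ s t : Set Y, Cs s 0 ≤ Cs t 0 := fun s t => sup_mono (by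
    rintro ⟨k, σ⟩ ⟨rfl, -⟩
    exact ⟨rfl, fun x => isEmptyElim x⟩)
  exact le_antisymm (this _ _) (this _ _)

lemma Cs_empty {k : ℕ} {x : Ch (Sx Y)} (hx : x ∈ Cs ∅ (k + 1)) : x = 0 := by
  refine eq_zero_of_mem hx ?_
  rintro ⟨k, σ⟩ ⟨rfl, h⟩
  exact h (stdSimplex.vertex 0)

/-- Barycentric subdivision of affine chains. -/
noncomputable def SL : ℕ → Ch (List V) →ₗ[F] Ch (List V)
  | 0 => LinearMap.id
  | k + 1 => lin fun l => match l with
    | [] => 0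
    | a :: l => cone (bary a l) (SL k (bdl (a :: l)))

/-- The homotopy between the identity and the subdivision. -/
noncomputable def TL : ℕ → Ch (List V) →ₗ[F] Ch (List V)
  | 0 => 0
  | k + 1 => lin fun l => match l with
    | [] => 0
    | a :: l => cone (bary a l) (sg (a :: l) - TL k (bdl (a :: l)))

lemma SL_gr (k : ℕ) {x : Ch (List V)} (hx : x ∈ Gr V k) : SL k x ∈ Gr V k := by
  induction k generalizing x with
  | zero => exact hx
  | succ k ih =>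
    refine lin_mem ?_ hx
    rintro (_ | ⟨a, l⟩) h
    · exact zero_mem _
    · exact cone_gr _ (ih (bdl_gr h))

lemma TL_gr (k : ℕ) {x : Ch (List V)} (hx : x ∈ Gr V k) : TL k x ∈ Gr V (k + 1) := by
  induction k generalizing x with
  | zero => exact zero_mem _
  | succ k ih =>
    refine lin_mem ?_ hx
    rintro (_ | ⟨a, l⟩) h
    · exact zero_mem _
    · exact cone_gr _ (sub_mem (sg_mem h) (ih (bdl_gr h)))

lemma aff_SL {g : C(V, V')} (h : IsAff g) (k : ℕ) (x : Ch (List V)) :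
    mp (List.map g) (SL k x) = SL k (mp (List.map g) x) := by
  induction k generalizing x with
  | zero => rfl
  | succ k ih =>
    refine map_eq' (L := mp (List.map g) ∘ₗ SL (k + 1))
      (L' := SL (k + 1) ∘ₗ mp (List.map g)) ?_ x
    rintro (_ | ⟨a, l⟩) <;> simp [SL, map_cone, ih, map_bdl, h.bary]

lemma aff_TL {g : C(V, V')} (h : IsAff g) (k : ℕ) (x : Ch (List V)) :
    mp (List.map g) (TL k x) = TL k (mp (List.map g) x) := by
  induction k generalizing x with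
  | zero => simp [TL]
  | succ k ih =>
    refine map_eq' (L := mp (List.map g) ∘ₗ TL (k + 1))
      (L' := TL (k + 1) ∘ₗ mp (List.map g)) ?_ x
    rintro (_ | ⟨a, l⟩) <;> simp [TL, map_cone, ih, map_bdl, h.bary]

lemma TL_eq (k : ℕ) {x : Ch (List V)} (hx : x ∈ Gr V k) :
    lin bdl (TL k x) = x - SL k x - TL (k - 1) (lin bdl x) := by
  induction k generalizing x with
  | zero => simp [TL, SL]
  | succ k ih =>
    refine map_eq (s := {l | l.length = k + 1}) (L := lin bdl ∘ₗ TL (k + 1))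
      (L' := LinearMap.id - SL (k + 1) - TL k ∘ₗ lin bdl) ?_ hx |>.trans (by
        rw [Nat.add_sub_cancel]; rfl) |> (LinearMap.comp_apply _ _ _).symm.trans
    rintro (_ | ⟨a, l⟩) h
    · cases h
    · simp only [LinearMap.comp_apply, LinearMap.sub_apply, LinearMap.id_apply, TL, SL, lin_sg,
        d_cone, map_sub, ih (bdl_gr h), bdl_bdl, map_zero]
      abel

/-- Barycentric subdivision. -/
noncomputable def sS : Ch (Sx Y) →ₗ[F] Ch (Sx Y) := op fun k => SL k (sg (ev k))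

/-- The homotopy between the identity and the subdivision. -/
noncomputable def sT : Ch (Sx Y) →ₗ[F] Ch (Sx Y) := op fun k => TL k (sg (ev k))

lemma sS_re {k : ℕ} {x : Ch (List V)} (hx : x ∈ Gr V k) : sS (mp re x) = mp re (SL k x) := by
  refine map_eq (L := sS ∘ₗ mp re) (L' := mp re ∘ₗ SL k) ?_ hx
  rintro l rfl
  simp [sS, op_re, aff_SL (isAff_aff _), map_ev]

lemma sT_re {k : ℕ} {x : Ch (List V)} (hx : x ∈ Gr V k) : sT (mp re x) = mp re (TL k x) := by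
  refine map_eq (L := sT ∘ₗ mp re) (L' := mp re ∘ₗ TL k) ?_ hx
  rintro l rfl
  simp [sT, op_re, aff_TL (isAff_aff _), map_ev]

lemma sT_eq (x : Ch (Sx Y)) : sd (sT x) = x - sS x - sT (sd x) := by
  refine map_eq' (L := sd ∘ₗ sT) (L' := LinearMap.id - sS - sT ∘ₗ sd) (fun σ => ?_) x
  have e : sT (mp re (bdl (ev σ.1))) = mp re (TL (σ.1 - 1) (bdl (ev σ.1))) :=
    sT_re (sup_mono (fun c hc => by
      have := hc.2; rw [ev_length] at this; exact Nat.eq_sub_of_add_eq this) (bdl_mem _))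
  simp only [LinearMap.comp_apply, LinearMap.sub_apply, LinearMap.id_apply]
  rw [sT, op_sg, ← cm_sd, sd_re, TL_eq _ (ev_gr _), sd, op_sg, ← cm_op, ← sT, e, sS, op_sg]
  simp [smap_re_ev]

lemma SL_small {K : ℕ} {δ : ℝ} (k : ℕ) (hk : k ≤ K) (l : List V) (hl : l.length = k)
    (h : ∀ x ∈ l, ∀ y ∈ l, dist x y ≤ δ) :
    SL k (sg l) ∈ sup {l' | (∀ x ∈ l', ∀ y ∈ l', dist x y ≤ (1 - 1 / K) * δ) ∧
      ∀ c ρ, (∀ x ∈ l, dist x c ≤ ρ) → ∀ x ∈ l', dist x c ≤ ρ} := by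
  induction k generalizing l with
  | zero =>
    rw [List.length_eq_zero_iff.1 hl]
    exact sg_mem ⟨by simp, by simp⟩
  | succ k ih =>
    obtain ⟨a, l, rfl⟩ := List.exists_cons_of_length_eq_add_one hl
    have h1 : SL k (bdl (a :: l)) ∈ sup {l' | (∀ x ∈ l', ∀ y ∈ l', dist x y ≤ (1 - 1 / K) * δ) ∧
        ∀ c ρ, (∀ x ∈ a :: l, dist x c ≤ ρ) → ∀ x ∈ l', dist x c ≤ ρ} :=
      map_mem (fun f hf => sup_mono (fun l' hl' => And.intro hl'.1 fun c ρ e =>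
        hl'.2 c ρ fun x hx => e x (hf.1.subset hx))
        (ih (by omega) f (by have := hf.2; omega) fun x hx y hy =>
          h x (hf.1.subset hx) y (hf.1.subset hy))) (bdl_mem _)
    simp only [SL, lin_sg]
    refine mp_mem (fun l' hl' => ?_) h1
    have h2 := hl'.2 _ _ fun y hy => dist_bary_le (hl ▸ hk) h hy
    have h3 : 0 ≤ (1 - 1 / K) * δ := dist_nonneg.trans (dist_bary_le (hl ▸ hk) h List.mem_cons_self)
    refine ⟨?_, fun c ρ e => List.forall_mem_cons.2 ⟨dist_aff_le (fun i => e _ (List.get_mem _ i)) _,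
      hl'.2 c ρ e⟩⟩
    simp only [List.forall_mem_cons, dist_self]
    exact ⟨⟨h3, fun y hy => by rw [dist_comm]; exact h2 y hy⟩, fun x hx => ⟨h2 x hx, hl'.1 x hx⟩⟩

lemma sS_mem {s : Set Y} {k : ℕ} {x : Ch (Sx Y)} (hx : x ∈ Cs s k) : sS x ∈ Cs s k :=
  op_mem (SL_gr k (ev_gr k)) hx

lemma sT_mem {s : Set Y} {k : ℕ} {x : Ch (Sx Y)} (hx : x ∈ Cs s k) : sT x ∈ Cs s (k + 1) :=
  op_mem (TL_gr k (ev_gr k)) hx

lemma sd_sS (x : Ch (Sx Y)) : sd (sS x) = sS (sd x) := by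
  have a := congrArg sd (sT_eq x)
  have b := sT_eq (sd x)
  simp only [map_sub, sd_sd, map_zero, sub_zero] at a b
  linear_combination (norm := abel1) a - b

lemma exists_iter (n : ℕ) : ∃ T : Ch (Sx Y) →ₗ[F] Ch (Sx Y),
    (∀ x, sd (T x) = (sS ^ n) x - x - T (sd x)) ∧
    ∀ s k, ∀ x ∈ Cs s k, T x ∈ Cs s (k + 1) ∧ (sS ^ n) x ∈ Cs s k := by
  induction n with
  | zero => exact ⟨0, fun x => by simp, fun s k x hx => ⟨zero_mem _, hx⟩⟩
  | succ n ih =>
    obtain ⟨T, h1, h2⟩ := ih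
    refine ⟨T ∘ₗ sS - sT, fun x => ?_, fun s k x hx =>
      ⟨sub_mem (h2 s k _ (sS_mem hx)).1 (sT_mem hx), (h2 s k _ (sS_mem hx)).2⟩⟩
    simp only [LinearMap.sub_apply, LinearMap.comp_apply, map_sub, h1, sT_eq, sd_sS, pow_succ,
      Module.End.mul_apply]
    abel

lemma small_sg {ι : Type} {U : ι → Set Y} (hU : ∀ i, IsOpen (U i)) {k : ℕ} (σ : C(Sp (k + 1), Y))
    (h : ∀ t, σ t ∈ ⋃ i, U i) :
    ∃ n, (sS ^ n) (sg ⟨k + 1, σ⟩) ∈ sup {τ : Sx Y | τ.1 = k + 1 ∧ ∃ i, ∀ t, τ.2 t ∈ U i} := by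
  obtain ⟨δ, hδ, h1⟩ := lebesgue_number_lemma_of_metric (isCompact_univ (X := Sp (k + 1)))
    (c := fun i => σ ⁻¹' U i) (fun i => (hU i).preimage σ.continuous)
    (fun t _ => by simpa using h t)
  set θ : ℝ := 1 - 1 / (k + 1 : ℕ) with hθ
  have t0 : 0 ≤ θ := sub_nonneg.2 ((div_le_one (by positivity)).2 (by simp))
  have t1 : θ < 1 := sub_lt_self _ (by positivity)
  have key : ∀ n, ∃ y ∈ sup {l : List (Sp (k + 1)) | l.length = k + 1 ∧
      ∀ x ∈ l, ∀ y ∈ l, dist x y ≤ θ ^ n * 2}, (sS ^ n) (sg ⟨k + 1, σ⟩) = cm σ (mp re y) := by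
    intro n
    induction n with
    | zero =>
      refine ⟨sg (ev _), sg_mem ⟨ev_length _, fun x _ y _ => ?_⟩, by
        simpa using congrArg sg (smap_re_ev ⟨k + 1, σ⟩).symm⟩
      have := dist_triangle_right x.1 y.1 0
      have a := Metric.mem_closedBall.1 (stdSimplex_subset_closedBall x.2)
      have b := Metric.mem_closedBall.1 (stdSimplex_subset_closedBall y.2)
      rw [Subtype.dist_eq]; linarith
    | succ n ih =>
      obtain ⟨y, y1, y2⟩ := ih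
      have y3 : y ∈ Gr _ (k + 1) := sup_mono (fun l hl => hl.1) y1
      refine ⟨SL (k + 1) y, sup_inter (SL_gr _ y3) (map_mem (fun l hl => sup_mono
        (fun l' hl' => ?_) (SL_small _ le_rfl l hl.1 hl.2)) y1), ?_⟩
      · intro x hx y hy
        rw [pow_succ', mul_assoc]
        exact hl'.1 x hx y hy
      · rw [pow_succ', Module.End.mul_apply, y2, sS, ← cm_op, ← sS, sS_re y3]
  obtain ⟨n, hn⟩ := exists_pow_lt_of_lt_one (half_pos hδ) t1
  obtain ⟨y, y1, y2⟩ := key n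
  refine ⟨n, ?_⟩
  rw [y2, cm, mp_mp]
  refine mp_mem (fun l hl => ?_) y1
  refine ⟨hl.1, ?_⟩
  obtain ⟨a, ha⟩ := List.exists_mem_of_length_eq_add_one hl.1
  obtain ⟨i, hi⟩ := h1 a trivial
  refine ⟨i, fun t => hi ?_⟩
  exact lt_of_le_of_lt (dist_aff_le (fun j => hl.2 _ (List.get_mem _ j) a ha) t) (by linarith)

/-- Every chain is homologous to a chain of small simplices, by a natural homotopy. -/
theorem small {ι : Type} [Nonempty ι] {U : ι → Set Y} (hU : ∀ i, IsOpen (U i)) {k : ℕ}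
    {x : Ch (Sx Y)} (hx : x ∈ Cs (⋃ i, U i) k) : ∃ T : Ch (Sx Y) →ₗ[F] Ch (Sx Y),
      (∀ s k, ∀ x ∈ Cs s k, T x ∈ Cs s (k + 1)) ∧
      x + sd (T x) + T (sd x) ∈ sup {τ : Sx Y | τ.1 = k ∧ ∃ i, ∀ t, τ.2 t ∈ U i} := by
  have st : ∀ n, ∀ y ∈ sup {τ : Sx Y | τ.1 = k ∧ ∃ i, ∀ t, τ.2 t ∈ U i},
      (sS ^ n) y ∈ sup {τ : Sx Y | τ.1 = k ∧ ∃ i, ∀ t, τ.2 t ∈ U i} := by
    intro n y hy
    obtain ⟨T, -, h2⟩ := exists_iter (Y := Y) n
    refine map_mem ?_ hy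
    rintro τ ⟨h, i, hi⟩
    refine sup_mono ?_ (h2 (U i) k _ (sg_mem ⟨h, hi⟩)).2
    exact fun c hc => ⟨hc.1, i, hc.2⟩
  obtain ⟨n, hn⟩ : ∃ n, (sS ^ n) x ∈ sup {τ : Sx Y | τ.1 = k ∧ ∃ i, ∀ t, τ.2 t ∈ U i} := by
    refine sup_ind (P := fun x => ∃ n, (sS ^ n) x ∈ _) ⟨0, zero_mem _⟩ ?_
      (fun c x ⟨n, hn⟩ => ⟨n, by rw [map_smul]; exact Submodule.smul_mem _ c hn⟩) ?_ hx
    · rintro x y ⟨n, hn⟩ ⟨m, hm⟩
      refine ⟨m + n, ?_⟩
      rw [map_add]
      refine add_mem (by rw [pow_add]; exact st m _ hn) (by rw [add_comm, pow_add]; exact st n _ hm)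
    · rintro ⟨_ | k, σ⟩ ⟨rfl, h⟩
      · exact ⟨0, sg_mem ⟨rfl, Classical.arbitrary ι, fun t => isEmptyElim t⟩⟩
      · exact small_sg hU σ h
  obtain ⟨T, h1, h2⟩ := exists_iter (Y := Y) n
  refine ⟨T, fun s k x hx => (h2 s k x hx).1, ?_⟩
  convert hn using 1
  rw [h1]
  abel

theorem small2 {U W : Set Y} (hU : IsOpen U) (hW : IsOpen W) {k : ℕ} {x : Ch (Sx Y)}
    (hx : x ∈ Cs (U ∪ W) k) : ∃ T : Ch (Sx Y) →ₗ[F] Ch (Sx Y),
      (∀ s k, ∀ x ∈ Cs s k, T x ∈ Cs s (k + 1)) ∧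
      ∃ u ∈ Cs U k, ∃ w ∈ Cs W k, x + sd (T x) + T (sd x) = u + w := by
  obtain ⟨T, h1, h2⟩ := small (U := fun b : Bool => cond b U W) (by rintro (_ | _) <;> assumption)
    (by rwa [← union_eq_iUnion]) (x := x) (k := k)
  refine ⟨T, h1, sup_split (sup_mono ?_ h2)⟩
  rintro τ ⟨h, _ | _, h'⟩
  · exact Or.inr ⟨h, h'⟩
  · exact Or.inl ⟨h, h'⟩

/-- The prism over a list. -/
noncomputable def PL {W W' : Type} (i j : W → W') : List W → Ch (List W')
  | [] => 0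
  | a :: l => cone (i a) (sg ((a :: l).map j) - PL i j l)

lemma PL_gr {W W' : Type} (i j : W → W') (l : List W) : PL i j l ∈ Gr W' (l.length + 1) := by
  induction l with
  | nil => exact zero_mem _
  | cons a l ih => exact cone_gr _ (sub_mem (sg_mem (List.length_map _)) ih)

lemma PL_eq {W W' : Type} (i j : W → W') (l : List W) :
    lin bdl (PL i j l) = sg (l.map j) - sg (l.map i) - lin (PL i j) (bdl l) := by
  induction l with
  | nil => simp [PL, bdl]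
  | cons a l ih =>
    have e : ∀ x, lin (PL i j) (cone a x) =
        cone (i a) (cone (j a) (mp (List.map j) x)) - cone (i a) (lin (PL i j) x) := fun x =>
      map_eq' (L := lin (PL i j) ∘ₗ cone a) (L' := cone (i a) ∘ₗ cone (j a) ∘ₗ mp (List.map j) -
        cone (i a) ∘ₗ lin (PL i j)) (fun l => by simp [PL]) x
    rw [PL, d_cone]
    simp only [bdl, map_sub, ih, lin_sg, e, cone_sg, List.map_cons, map_bdl]
    abel

lemma map_PL {W W' W'' : Type} (i j : W → W') (g : W' → W'') (l : List W) :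
    mp (List.map g) (PL i j l) = PL (g ∘ i) (g ∘ j) l := by
  induction l with
  | nil => simp [PL]
  | cons a l ih => simp [PL, map_cone, ih]

lemma PL_map {W W' W'' : Type} (i j : W' → W'') (g : W → W') (l : List W) :
    PL i j (l.map g) = PL (i ∘ g) (j ∘ g) l := by
  induction l with
  | nil => simp [PL]
  | cons a l ih => simp [PL, ih]

/-- The prism operator. -/
noncomputable def prism (H : C(I × Y, Y')) : Ch (Sx Y) →ₗ[F] Ch (Sx Y') :=
  lin fun σ => cm (cylH H σ.2) (mp re (PL (slice _ 0) (slice _ 1) (ev σ.1)))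

lemma prism_re (H : C(I × Y, Y')) (σ : C(V, Y)) (x : Ch (List V)) :
    prism H (cm σ (mp re x)) = cm (cylH H σ) (mp re (lin (PL (slice V 0) (slice V 1)) x)) := by
  refine map_eq' (L := prism H ∘ₗ cm σ ∘ₗ mp re)
    (L' := cm (cylH H σ) ∘ₗ mp re ∘ₗ lin (PL (slice V 0) (slice V 1))) (fun l => ?_) x
  have h : IsAff (cyl (aff l.get)) :=
    isAff_of ((Fintype.linearCombination ℝ fun i => (l.get i).1).prodMap LinearMap.id) 0 fun t => by
      simp [cyl, aff_val, Fintype.linearCombination_apply]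
  simp only [LinearMap.comp_apply, mp_sg, cm_sg, prism, lin_sg]
  conv_rhs => rw [← map_ev l, PL_map]
  have e : cm (cyl (aff l.get)) (mp re (PL (slice _ 0) (slice _ 1) (ev l.length))) =
      mp re (PL (slice V 0 ∘ aff l.get) (slice V 1 ∘ aff l.get) (ev l.length)) := by
    rw [aff_cm_re h, map_PL]; rfl
  rw [← e, cm_cm]
  rfl

lemma prism_mem {H : C(I × Y, Y')} {s : Set Y} {t : Set Y'} (h : ∀ c, ∀ y ∈ s, H (c, y) ∈ t)
    {k : ℕ} {x : Ch (Sx Y)} (hx : x ∈ Cs s k) : prism H x ∈ Cs t (k + 1) := by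
  refine lin_mem ?_ hx
  rintro ⟨k, σ⟩ ⟨rfl, e⟩
  refine cm_mem (s := univ) (g := cylH H σ) (fun y _ => h _ _ (e _)) (re_mem ?_)
  simpa only [ev_length] using PL_gr (slice _ 0) (slice _ 1) (ev k)

lemma prism_eq {H : C(I × Y, Y')} {f g : C(Y, Y')} (h0 : ∀ y, H (0, y) = f y)
    (h1 : ∀ y, H (1, y) = g y) (x : Ch (Sx Y)) :
    sd (prism H x) = cm g x - cm f x - prism H (sd x) := by
  refine map_eq' (L := sd ∘ₗ prism H) (L' := cm g - cm f - prism H ∘ₗ sd) (fun σ => ?_) x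
  have e : ∀ (c : I) (f : C(Y, Y')), (∀ y, H (c, y) = f y) →
      smap (cylH H σ.2) (re ((ev σ.1).map (slice _ c))) = smap f σ := fun c f h => by
    rw [← (isAff_slice c).smap_re, re_ev]
    exact congrArg (Sigma.mk σ.1) (ContinuousMap.ext fun t => h _)
  simp only [LinearMap.comp_apply, LinearMap.sub_apply]
  rw [show sd (sg σ) = _ from op_sg _ σ, prism_re, prism, lin_sg, ← cm_sd, sd_re, PL_eq]
  simp [e 0 f h0, e 1 g h1]

end Affine

lemma exists_compact {s : Set Y} {k : ℕ} {x : Ch (Sx Y)} (hx : x ∈ Cs s k) :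
    ∃ C, IsCompact C ∧ C ⊆ s ∧ x ∈ Cs C k := by
  refine sup_ind (P := fun x => ∃ C, IsCompact C ∧ C ⊆ s ∧ x ∈ Cs C k)
    ⟨∅, isCompact_empty, empty_subset _, zero_mem _⟩ ?_
    (fun c x ⟨C, c1, c2, c3⟩ => ⟨C, c1, c2, Submodule.smul_mem _ c c3⟩) ?_ hx
  · rintro x y ⟨C, c1, c2, c3⟩ ⟨D, d1, d2, d3⟩
    exact ⟨C ∪ D, c1.union d1, union_subset c2 d2,
      add_mem (Cs_mono subset_union_left _ c3) (Cs_mono subset_union_right _ d3)⟩
  · rintro σ ⟨h, h'⟩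
    exact ⟨range σ.2, isCompact_range σ.2.continuous, range_subset_iff.2 h',
      sg_mem ⟨h, fun t => ⟨t, rfl⟩⟩⟩

variable {φ : C(Y', Y)} {k : ℕ}

lemma exists_cm (hφ : IsEmbedding φ) {x : Ch (Sx Y)} (hx : x ∈ Cs (range φ) k) :
    ∃ u ∈ Cs univ k, cm φ u = x := by
  refine exists_mp ?_ hx
  rintro ⟨k, σ⟩ ⟨rfl, h⟩
  choose τ hτ using h
  have e : φ ∘ τ = σ := funext hτ
  exact ⟨⟨k, τ, hφ.continuous_iff.2 (e ▸ σ.continuous)⟩, ⟨rfl, fun _ => trivial⟩,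
    congrArg (Sigma.mk k) (ContinuousMap.ext hτ)⟩

lemma mem_of_cm (hφ : Function.Injective φ) {s : Set Y} {u : Ch (Sx Y')} (h : cm φ u ∈ Cs s k) :
    u ∈ Cs (φ ⁻¹' s) k := by
  refine mem_of_mp_mem ?_ h
  rintro ⟨k, σ⟩ ⟨k', σ'⟩ e
  obtain rfl : k = k' := congrArg Sigma.fst e
  have := eq_of_heq (Sigma.mk.inj e).2
  exact congrArg _ (ContinuousMap.ext fun t => hφ (ContinuousMap.congr_fun this t))

end Pool.Agent.Lib.MP_837412_lc.K
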