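import Pool.Agent.Lib.MP_837412_lc.KSt

/-!
The slope along approximate discrete chords is bounded.
-/

namespace Pool.Agent.Lib.MP_837412_lc.K

open Set Function Filter Topology

namespace KSlope

lemma unif {T E F : Type} [TopologicalSpace T] [CompactSpace T] [NormedAddCommGroup E]
    [ProperSpace E] [NormedAddCommGroup F] (Φ : T × E → F) (hΦ : Continuous Φ) (ρ θ : ℝ)
    (hθ : 0 < θ) : ∃ δ > 0, ∀ τ p q, ‖p‖ ≤ ρ → ‖q - p‖ ≤ δ → ‖Φ (τ, q) - Φ (τ, p)‖ ≤ θ := by
  have hK : IsCompact ((univ : Set T) ×ˢ Metric.closedBall (0 : E) ρ) :=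
    isCompact_univ.prod (isCompact_closedBall _ _)
  have hc : Continuous fun z : E × (T × E) => ‖Φ (z.2.1, z.2.2 + z.1) - Φ (z.2.1, z.2.2)‖ := by
    fun_prop
  have h1 : ∀ᶠ v in 𝓝 (0 : E), ∀ y ∈ (univ : Set T) ×ˢ Metric.closedBall (0 : E) ρ,
      ‖Φ (y.1, y.2 + v) - Φ (y.1, y.2)‖ < θ := by
    apply hK.eventually_forall_of_forall_eventually
    intro y _
    apply (hc.tendsto (0, y)).eventually (gt_mem_nhds _)
    simpa using hθ
  obtain ⟨δ, hδ, h2⟩ := Metric.eventually_nhds_iff.mp h1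
  refine ⟨δ / 2, by positivity, fun τ p q hp hq => ?_⟩
  have h3 : dist (q - p) 0 < δ := by
    rw [dist_zero_right]; linarith
  have := h2 h3 (τ, p) ⟨mem_univ _, by simpa using hp⟩
  simpa using this.le

lemma bdd {T E F : Type} [TopologicalSpace T] [CompactSpace T] [NormedAddCommGroup E]
    [ProperSpace E] [NormedAddCommGroup F] (Φ : T × E → F) (hΦ : Continuous Φ) (ρ : ℝ) :
    ∃ D > 0, ∀ τ p, ‖p‖ ≤ ρ → ‖Φ (τ, p)‖ ≤ D := by
  have hK : IsCompact ((univ : Set T) ×ˢ Metric.closedBall (0 : E) ρ) :=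
    isCompact_univ.prod (isCompact_closedBall _ _)
  obtain ⟨D, hD⟩ := hK.exists_bound_of_continuousOn hΦ.continuousOn
  refine ⟨max D 1, by positivity, fun τ p hp => ?_⟩
  exact (hD (τ, p) ⟨mem_univ _, by simpa using hp⟩).trans (le_max_left _ _)

lemma taylor {E : Type} [NormedAddCommGroup E] [NormedSpace ℝ E] (φ : E → ℝ)
    (hφ : Differentiable ℝ φ) (p q : E) (δ θ : ℝ) (hq : ‖q - p‖ ≤ δ)
    (hb : ∀ x, ‖x - p‖ ≤ δ → ‖fderiv ℝ φ x - fderiv ℝ φ p‖ ≤ θ) :
    |φ q - φ p - fderiv ℝ φ p (q - p)| ≤ θ * ‖q - p‖ := by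
  have h0 : 0 ≤ δ := (norm_nonneg _).trans hq
  have := (convex_closedBall p δ).norm_image_sub_le_of_norm_fderiv_le' (𝕜 := ℝ) (f := φ)
    (φ := fderiv ℝ φ p) (C := θ) (x := p) (y := q) (fun x _ => hφ x)
    (fun x hx => hb x (by simpa [dist_eq_norm] using hx)) (Metric.mem_closedBall_self h0)
    (by simpa [dist_eq_norm] using hq)
  simpa using this

lemma tele {E : Type} [NormedAddCommGroup E] (u : ℕ → E) (N : ℕ) (c : ℝ) (hc : 0 ≤ c)
    (h : ∀ j, j + 1 < N → ‖u (j + 1) - u j‖ ≤ c) (i j : ℕ) (hi : i < N) (hj : j < N) :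
    ‖u i - u j‖ ≤ N * c := by
  have key : ∀ i k, i + k < N → ‖u (i + k) - u i‖ ≤ k * c := by
    intro i k
    induction k with
    | zero => intro _; simp
    | succ k ih =>
      intro hk
      have h1 := ih (by omega)
      have h2 := h (i + k) (by omega)
      have h3 : u (i + (k + 1)) - u i = (u (i + k + 1) - u (i + k)) + (u (i + k) - u i) := by
        rw [← add_assoc]; abel
      rw [h3]
      have := norm_add_le (u (i + k + 1) - u (i + k)) (u (i + k) - u i)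
      push_cast
      linarith
  have key2 : ∀ i j, i ≤ j → j < N → ‖u j - u i‖ ≤ N * c := by
    intro i j hij hj
    obtain ⟨k, rfl⟩ := Nat.exists_eq_add_of_le hij
    refine (key i k hj).trans (mul_le_mul_of_nonneg_right ?_ hc)
    exact_mod_cast (by omega : k ≤ N)
  rcases le_total i j with hij | hij
  · rw [norm_sub_rev]; exact key2 i j hij hj
  · exact key2 j i hij hi

lemma tele2 (u : ℕ → ℝ) (N : ℕ) (c : ℝ) (h : ∀ j, j + 1 < N → c ≤ u (j + 1) - u j) (k : ℕ)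
    (hk : k < N) : k * c ≤ u k - u 0 := by
  induction k with
  | zero => simp
  | succ k ih =>
    have h1 := ih (by omega)
    have h2 := h k hk
    push_cast
    linarith

lemma sl_pos {C a : ℝ} (hC : 0 < C) (ha : 0 < a) (u : ℝ) : 0 < sl C a u := by
  unfold sl; positivity

lemma sl_le {C a : ℝ} (hC : 0 < C) (ha : 0 < a) (u : ℝ) : sl C a u ≤ C / a := by
  unfold sl
  apply div_le_self (by positivity)
  nlinarith [sq_nonneg (u / a)]

lemma sl_lip {C a : ℝ} (hC : 0 < C) (ha : 0 < a) (u v : ℝ) :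
    |sl C a u - sl C a v| ≤ C / a ^ 2 * |u - v| := by
  unfold sl
  set x := u / a with hx
  set y := v / a with hy
  have hu : u - v = a * (x - y) := by rw [hx, hy]; field_simp
  have e1 : C / a / (1 + x ^ 2) - C / a / (1 + y ^ 2) =
      C / a * (x - y) * (-(x + y) / ((1 + x ^ 2) * (1 + y ^ 2))) := by
    field_simp; ring
  have e2 : |-(x + y) / ((1 + x ^ 2) * (1 + y ^ 2))| ≤ 1 := by
    rw [abs_div, abs_of_pos (by positivity : 0 < (1 + x ^ 2) * (1 + y ^ 2)),
      div_le_one (by positivity), abs_le]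
    constructor <;> nlinarith [sq_nonneg (x - 1), sq_nonneg (x + 1), sq_nonneg (y - 1),
      sq_nonneg (y + 1), sq_nonneg (x * y), sq_nonneg x, sq_nonneg y]
  rw [e1, hu, abs_mul, abs_mul, abs_mul, abs_of_pos ha, abs_of_pos (by positivity : 0 < C / a)]
  have e3 : C / a ^ 2 * (a * |x - y|) = C / a * |x - y| := by field_simp
  rw [e3]
  exact mul_le_of_le_one_right (by positivity) e2

lemma sl_small {C a ε u : ℝ} (ha : 0 < a) (hε : 0 < ε) (h : 4 * C * a ≤ ε ^ 2)
    (hu : ε / 2 ≤ |u|) : sl C a u ≤ 1 := by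
  unfold sl
  have h1 : (ε / 2) ^ 2 ≤ u ^ 2 := by
    rw [← sq_abs u]; exact pow_le_pow_left₀ (by positivity) hu 2
  rw [div_le_one (by positivity), div_le_iff₀ ha]
  have e : (1 + (u / a) ^ 2) * a = (a ^ 2 + u ^ 2) / a := by field_simp
  rw [e, le_div_iff₀ ha]
  nlinarith [sq_nonneg a]

variable {σ : Type} [Fintype σ] [DecidableEq σ]

/-- First components of a linear form. -/
def fx (L : Ph σ →L[ℝ] ℝ) : σ → ℝ := fun i => L (Pi.single i 1, 0)

/-- Second components of a linear form. -/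
def fy (L : Ph σ →L[ℝ] ℝ) : σ → ℝ := fun i => L (0, Pi.single i 1)

lemma nsingle (i : σ) : ‖(Pi.single i 1 : σ → ℝ)‖ ≤ 1 := by
  rw [Pi.norm_single]; simp

lemma fx_le (L : Ph σ →L[ℝ] ℝ) : ‖fx L‖ ≤ ‖L‖ := by
  rw [pi_norm_le_iff_of_nonneg (norm_nonneg _)]
  intro i
  refine (L.le_opNorm _).trans (mul_le_of_le_one_right (norm_nonneg _) ?_)
  rw [Prod.norm_def]
  exact max_le (nsingle i) (by simp)

lemma fy_le (L : Ph σ →L[ℝ] ℝ) : ‖fy L‖ ≤ ‖L‖ := by
  rw [pi_norm_le_iff_of_nonneg (norm_nonneg _)]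
  intro i
  refine (L.le_opNorm _).trans (mul_le_of_le_one_right (norm_nonneg _) ?_)
  rw [Prod.norm_def]
  exact max_le (by simp) (nsingle i)

omit [Fintype σ] in
lemma fy_sub (L M : Ph σ →L[ℝ] ℝ) : fy (L - M) = fy L - fy M := by
  ext i; simp [fy]

lemma expand (M : Ph σ →L[ℝ] ℝ) (u w : σ → ℝ) :
    M (u, w) = ∑ i, (u i * fx M i + w i * fy M i) := by
  have e : ((u, w) : Ph σ) =
      ∑ i, (u i • ((Pi.single i 1, 0) : Ph σ) + w i • ((0, Pi.single i 1) : Ph σ)) := by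
    ext j
    · simp [Prod.fst_sum, Finset.sum_apply, Pi.single_apply]
    · simp [Prod.snd_sum, Finset.sum_apply, Pi.single_apply]
  rw [e, map_sum]
  apply Finset.sum_congr rfl
  intro i _
  rw [map_add, map_smul, map_smul]
  rfl

lemma step (L L' M : Ph σ →L[ℝ] ℝ) (d : Ph σ) (s s' n e : ℝ) (hn : 0 ≤ n)
    (hd : ‖d - n • ((-s' • fy L', s • fx L) : Ph σ)‖ ≤ e) :
    |M d - n * s * ∑ i, (fx L i * fy M i - fy L i * fx M i)| ≤
      ‖M‖ * (e + n * ‖s' • fy L' - s • fy L‖) := by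
  have e1 : M ((-s • fy L, s • fx L) : Ph σ) = s * ∑ i, (fx L i * fy M i - fy L i * fx M i) := by
    rw [expand, Finset.mul_sum]
    apply Finset.sum_congr rfl
    intro i _
    simp only [Pi.smul_apply, smul_eq_mul]
    ring
  have e2 : d = (d - n • ((-s' • fy L', s • fx L) : Ph σ) -
      n • ((s' • fy L' - s • fy L, 0) : Ph σ)) + n • ((-s • fy L, s • fx L) : Ph σ) := by
    ext j
    · simp; ring
    · simp
  have e3 : M d - n * s * ∑ i, (fx L i * fy M i - fy L i * fx M i) =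
      M (d - n • ((-s' • fy L', s • fx L) : Ph σ) - n • ((s' • fy L' - s • fy L, 0) : Ph σ)) := by
    conv_lhs => rw [e2]
    rw [map_add, map_smul, e1, smul_eq_mul]
    ring
  rw [e3, ← Real.norm_eq_abs]
  refine (M.le_opNorm _).trans (mul_le_mul_of_nonneg_left ?_ (norm_nonneg _))
  refine (norm_sub_le _ _).trans (add_le_add hd ?_)
  rw [norm_smul, Real.norm_of_nonneg hn, Prod.norm_def]
  simp

end KSlope

open KSlope in
theorem slopeS : SlopeS := by
  intro σ T _ _ _ _ h g ε κ B H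
  have hε := H.ε0
  have hκ := H.κ0
  have hB := H.B0
  obtain ⟨R₁, hR₁⟩ := H.far 1
  obtain ⟨G₀, hG₀, hG⟩ := bdd (uncurry g) H.c0g (max R₁ 1)
  refine ⟨1 + (8 * G₀ + 4) / κ, le_add_of_nonneg_right (by positivity), ?_⟩
  intro C a Y hC ha hCa
  obtain ⟨R, hR⟩ := H.far Y
  set S := C / a * B + 2 with hS
  have hS0 : 0 < S := by positivity
  set ρ := max R Y + S with hρ
  obtain ⟨D₀, hD₀, hD⟩ := bdd _ H.c1g ρ
  set D := max D₀ B with hDdef
  have hDpos : 0 < D := lt_max_of_lt_left hD₀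
  set δ := min (min (ε / 2) 1) (a ^ 2 / (2 * C)) with hδ
  have hδ0 : 0 < δ := by positivity
  have hδ1 : δ ≤ ε / 2 := (min_le_left _ _).trans (min_le_left _ _)
  have hδ2 : δ ≤ 1 := (min_le_left _ _).trans (min_le_right _ _)
  have hδ3 : δ ≤ a ^ 2 / (2 * C) := min_le_right _ _
  set θ := δ / (2 * (S + D * (C / a))) with hθ
  have hθ0 : 0 < θ := by positivity
  obtain ⟨δ₁, hδ₁, u1⟩ := unif _ H.c1 ρ θ hθ0
  obtain ⟨δ₂, hδ₂, u2⟩ := unif _ H.c1g ρ θ hθ0
  set W := D * (2 + C / a ^ 2 * (B * S) * B) with hW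
  have hW0 : 0 < W := by positivity
  obtain ⟨N₀, hN₀⟩ := exists_nat_ge (max (max (S / δ₁) (S / δ₂)) (max 2 (2 * W / δ)))
  refine ⟨N₀, fun N hN τ p hY h0 h1 hst j₀ hj₀ => ?_⟩
  have hNN : (N₀ : ℝ) ≤ N := by exact_mod_cast hN
  have hN1 : S / δ₁ ≤ N := ((le_max_left _ _).trans (le_max_left _ _)).trans (hN₀.trans hNN)
  have hN2 : S / δ₂ ≤ N := ((le_max_right _ _).trans (le_max_left _ _)).trans (hN₀.trans hNN)
  have hN3 : (2 : ℝ) ≤ N := ((le_max_left _ _).trans (le_max_right _ _)).trans (hN₀.trans hNN)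
  have hN4 : 2 * W / δ ≤ N := ((le_max_right _ _).trans (le_max_right _ _)).trans (hN₀.trans hNN)
  have hNpos : (0 : ℝ) < N := by linarith
  set n : ℝ := (N : ℝ)⁻¹ with hn
  have hn0 : 0 < n := by positivity
  have hnN : (N : ℝ) * n = 1 := mul_inv_cancel₀ hNpos.ne'
  have hn1 : n ≤ 1 / 2 := by
    have := mul_le_mul_of_nonneg_right hN3 hn0.le
    linarith
  have h2n : 2 / (N : ℝ) ^ 2 = 2 * n ^ 2 := by rw [hn]; field_simp
  have hd : Differentiable ℝ (h τ) := (H.sm τ).differentiable (by norm_num)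
  by_contra hcon
  push Not at hcon
  have hT1 : (1 : ℝ) ≤ 1 + (8 * G₀ + 4) / κ := le_add_of_nonneg_right (by positivity)
  have hh0 : |h τ (p j₀)| < ε / 2 := by
    by_contra hh
    push Not at hh
    have := sl_small ha hε hCa hh
    linarith
  have hst' : ∀ j, j + 1 < N → ‖p (j + 1) - p j - n •
      ((-sl C a (h τ (p (j + 1))) • fy (fderiv ℝ (h τ) (p (j + 1))),
        sl C a (h τ (p j)) • fx (fderiv ℝ (h τ) (p j))) : Ph σ)‖ ≤ 2 * n ^ 2 := by
    intro j hj
    rw [← h2n]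
    exact hst j hj
  have hstep : ∀ j, j + 1 < N → ‖p (j + 1) - p j‖ ≤ n * S := by
    intro j hj
    have a1 := hst' j hj
    set V : Ph σ := (-sl C a (h τ (p (j + 1))) • fy (fderiv ℝ (h τ) (p (j + 1))),
        sl C a (h τ (p j)) • fx (fderiv ℝ (h τ) (p j))) with hV
    have a2 : ‖V‖ ≤ C / a * B := by
      rw [hV, Prod.norm_def]
      apply max_le
      · simp only [norm_smul, norm_neg, Real.norm_of_nonneg (sl_pos hC ha _).le]
        exact mul_le_mul (sl_le hC ha _) ((fy_le _).trans (H.bd τ _)) (norm_nonneg _)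
          (by positivity)
      · simp only [norm_smul, Real.norm_of_nonneg (sl_pos hC ha _).le]
        exact mul_le_mul (sl_le hC ha _) ((fx_le _).trans (H.bd τ _)) (norm_nonneg _)
          (by positivity)
    have a3 : p (j + 1) - p j = (p (j + 1) - p j - n • V) + n • V := by abel
    rw [a3]
    refine (norm_add_le _ _).trans ?_
    rw [norm_smul, Real.norm_of_nonneg hn0.le]
    have a4 : n * ‖V‖ ≤ n * (C / a * B) := mul_le_mul_of_nonneg_left a2 hn0.le
    have a5 : 2 * n ^ 2 ≤ n * 2 := by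
      have := mul_le_mul_of_nonneg_left hn1 hn0.le
      have e : 2 * n ^ 2 = 2 * (n * n) := by ring
      linarith
    have a6 : n * S = n * (C / a * B) + n * 2 := by rw [hS]; ring
    linarith
  have hp0 : ‖p j₀‖ ≤ max R Y := by
    rw [Prod.norm_def]
    apply max_le_max _ (hY j₀ hj₀)
    by_contra hh
    push Not at hh
    have := hR τ (p j₀) (hY j₀ hj₀) hh.le
    have := (abs_lt.mp hh0).2
    linarith
  have hball : ∀ j < N, ‖p j‖ ≤ ρ := by
    intro j hj
    have a1 := tele p N (n * S) (by positivity) hstep j j₀ hj hj₀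
    rw [← mul_assoc, hnN, one_mul] at a1
    have a2 : ‖p j‖ ≤ ‖p j - p j₀‖ + ‖p j₀‖ := by
      simpa using norm_add_le (p j - p j₀) (p j₀)
    linarith
  have hs1 : n * S ≤ δ₁ := by
    rw [div_le_iff₀ hδ₁] at hN1
    have : n * S ≤ n * (N * δ₁) := mul_le_mul_of_nonneg_left hN1 hn0.le
    rwa [← mul_assoc, mul_comm n (N : ℝ), hnN, one_mul] at this
  have hs2 : n * S ≤ δ₂ := by
    rw [div_le_iff₀ hδ₂] at hN2
    have : n * S ≤ n * (N * δ₂) := mul_le_mul_of_nonneg_left hN2 hn0.le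
    rwa [← mul_assoc, mul_comm n (N : ℝ), hnN, one_mul] at this
  have hs3 : n * W ≤ δ / 2 := by
    rw [div_le_iff₀ hδ0] at hN4
    have : n * (2 * W) ≤ n * (N * δ) := mul_le_mul_of_nonneg_left hN4 hn0.le
    rw [← mul_assoc n (N : ℝ), mul_comm n (N : ℝ), hnN, one_mul] at this
    linarith
  have hs4 : θ * (S + D * (C / a)) = δ / 2 := by
    rw [hθ]; field_simp
  have hlip : ∀ x y : Ph σ, |h τ x - h τ y| ≤ B * ‖x - y‖ := by
    intro x y
    have := (convex_univ (𝕜 := ℝ) (E := Ph σ)).norm_image_sub_le_of_norm_fderiv_le (𝕜 := ℝ)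
      (f := h τ) (C := B) (x := y) (y := x) (fun z _ => hd z) (fun z _ => H.bd τ z) (mem_univ _)
      (mem_univ _)
    simpa using this
  have hdiff : ∀ j, j + 1 < N → ‖sl C a (h τ (p (j + 1))) • fy (fderiv ℝ (h τ) (p (j + 1))) -
      sl C a (h τ (p j)) • fy (fderiv ℝ (h τ) (p j))‖ ≤
      n * (C / a ^ 2 * (B * S) * B) + C / a * θ := by
    intro j hj
    set s' := sl C a (h τ (p (j + 1))) with hs'
    set s := sl C a (h τ (p j)) with hs
    set L' := fderiv ℝ (h τ) (p (j + 1)) with hL'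
    set L := fderiv ℝ (h τ) (p j) with hL
    have a1 : s' • fy L' - s • fy L = (s' - s) • fy L' + s • fy (L' - L) := by
      rw [fy_sub, sub_smul, smul_sub]; abel
    have a2 : |s' - s| ≤ C / a ^ 2 * (B * (n * S)) := by
      refine (sl_lip hC ha _ _).trans (mul_le_mul_of_nonneg_left ?_ (by positivity))
      exact (hlip _ _).trans (mul_le_mul_of_nonneg_left (hstep j hj) hB.le)
    have a3 : ‖fy L'‖ ≤ B := (fy_le _).trans (H.bd τ _)
    have a4 : ‖fy (L' - L)‖ ≤ θ :=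
      (fy_le _).trans (u1 τ (p j) (p (j + 1)) (hball j (by omega)) ((hstep j hj).trans hs1))
    rw [a1]
    refine (norm_add_le _ _).trans (add_le_add ?_ ?_)
    · rw [norm_smul, Real.norm_eq_abs]
      refine (mul_le_mul a2 a3 (norm_nonneg _) (by positivity)).trans (le_of_eq ?_)
      ring
    · rw [norm_smul, Real.norm_of_nonneg (sl_pos hC ha _).le]
      exact mul_le_mul (sl_le hC ha _) a4 (norm_nonneg _) (by positivity)
  have main : ∀ (φ : Ph σ → ℝ) (δ' : ℝ), Differentiable ℝ φ → n * S ≤ δ' →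
      (∀ x, ‖x‖ ≤ ρ → ‖fderiv ℝ φ x‖ ≤ D) →
      (∀ x y, ‖x‖ ≤ ρ → ‖y - x‖ ≤ δ' → ‖fderiv ℝ φ y - fderiv ℝ φ x‖ ≤ θ) →
      ∀ j, j + 1 < N →
      |φ (p (j + 1)) - φ (p j) - n * sl C a (h τ (p j)) * br (h τ) φ (p j)| ≤ n * δ := by
    intro φ δ' hφ hδ' b1 b2 j hj
    have hb := hball j (by omega)
    have a1 := taylor φ hφ (p j) (p (j + 1)) δ' θ ((hstep j hj).trans hδ')
      (fun x hx => b2 _ x hb hx)
    have a2 := step _ _ (fderiv ℝ φ (p j)) _ _ _ n _ hn0.le (hst' j hj)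
    have a3 : br (h τ) φ (p j) = ∑ i, (fx (fderiv ℝ (h τ) (p j)) i * fy (fderiv ℝ φ (p j)) i -
        fy (fderiv ℝ (h τ) (p j)) i * fx (fderiv ℝ φ (p j)) i) := rfl
    rw [← a3] at a2
    have a4 : θ * ‖p (j + 1) - p j‖ ≤ θ * (n * S) :=
      mul_le_mul_of_nonneg_left (hstep j hj) hθ0.le
    have a5 := hdiff j hj
    have a6 : ‖fderiv ℝ φ (p j)‖ * (2 * n ^ 2 + n *
        ‖sl C a (h τ (p (j + 1))) • fy (fderiv ℝ (h τ) (p (j + 1))) -
          sl C a (h τ (p j)) • fy (fderiv ℝ (h τ) (p j))‖) ≤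
        D * (2 * n ^ 2 + n * (n * (C / a ^ 2 * (B * S) * B) + C / a * θ)) := by
      apply mul_le_mul (b1 _ hb) _ (by positivity) hDpos.le
      exact add_le_add le_rfl (mul_le_mul_of_nonneg_left a5 hn0.le)
    have a7 : θ * (n * S) + D * (2 * n ^ 2 + n * (n * (C / a ^ 2 * (B * S) * B) + C / a * θ)) =
        n * (θ * (S + D * (C / a)) + n * W) := by
      rw [hW]; ring
    have a8 : n * (θ * (S + D * (C / a)) + n * W) ≤ n * δ := by
      apply mul_le_mul_of_nonneg_left _ hn0.le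
      linarith
    have a9 := abs_add_le (φ (p (j + 1)) - φ (p j) - fderiv ℝ φ (p j) (p (j + 1) - p j))
      (fderiv ℝ φ (p j) (p (j + 1) - p j) - n * sl C a (h τ (p j)) * br (h τ) φ (p j))
    have e : φ (p (j + 1)) - φ (p j) - fderiv ℝ φ (p j) (p (j + 1) - p j) +
        (fderiv ℝ φ (p j) (p (j + 1) - p j) - n * sl C a (h τ (p j)) * br (h τ) φ (p j)) =
        φ (p (j + 1)) - φ (p j) - n * sl C a (h τ (p j)) * br (h τ) φ (p j) := by ring
    rw [e] at a9
    linarith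
  have mh := main (h τ) δ₁ hd hs1 (fun x _ => (H.bd τ x).trans (le_max_right _ _)) (u1 τ)
  have mg := main (g τ) δ₂ (H.dg τ) hs2 (fun x hx => (hD τ x hx).trans (le_max_left _ _)) (u2 τ)
  have brh : ∀ x, br (h τ) (h τ) x = 0 := by
    intro x
    apply Finset.sum_eq_zero
    intro i _
    ring
  have hcons : ∀ j < N, |h τ (p j) - h τ (p j₀)| ≤ δ := by
    intro j hj
    have a1 := tele (fun j => h τ (p j)) N (n * δ) (by positivity)
      (fun j hj => by simpa [brh] using mh j hj) j j₀ hj hj₀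
    rwa [← mul_assoc, hnN, one_mul, Real.norm_eq_abs] at a1
  have hsm : ∀ j < N, |h τ (p j)| ≤ ε := by
    intro j hj
    have a1 := abs_le.mp (hcons j hj)
    have a2 := abs_lt.mp hh0
    rw [abs_le]
    constructor <;> linarith [a1.1, a1.2, a2.1, a2.2]
  have hsl : ∀ j < N, (8 * G₀ + 4) / κ ≤ sl C a (h τ (p j)) := by
    intro j hj
    have a1 := sl_lip hC ha (h τ (p j)) (h τ (p j₀))
    have a2 : C / a ^ 2 * |h τ (p j) - h τ (p j₀)| ≤ C / a ^ 2 * (a ^ 2 / (2 * C)) :=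
      mul_le_mul_of_nonneg_left ((hcons j hj).trans hδ3) (by positivity)
    have a3 : C / a ^ 2 * (a ^ 2 / (2 * C)) = 1 / 2 := by field_simp
    have a4 := (abs_le.mp (a1.trans a2)).1
    linarith
  have hinc : ∀ j, j + 1 < N → n * (8 * G₀ + 3) ≤ g τ (p (j + 1)) - g τ (p j) := by
    intro j hj
    have a1 := (abs_le.mp (mg j hj)).1
    have a2 := H.pos τ (p j) (hsm j (by omega))
    have a3 : (8 * G₀ + 4) / κ * κ ≤ sl C a (h τ (p j)) * br (h τ) (g τ) (p j) :=
      mul_le_mul (hsl j (by omega)) a2 hκ.le (sl_pos hC ha _).le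
    rw [div_mul_cancel₀ _ hκ.ne'] at a3
    have a4 := mul_le_mul_of_nonneg_left a3 hn0.le
    have a5 := mul_le_mul_of_nonneg_left hδ2 hn0.le
    have a6 : n * sl C a (h τ (p j)) * br (h τ) (g τ) (p j) =
        n * (sl C a (h τ (p j)) * br (h τ) (g τ) (p j)) := by ring
    have a7 : n * (8 * G₀ + 4) = n * (8 * G₀ + 3) + n * 1 := by ring
    linarith
  have hN5 : 0 < N := by exact_mod_cast hNpos
  have hend : ∀ j < N, ‖(p j).2‖ ≤ 1 → |g τ (p j)| ≤ G₀ := by
    intro j hj hy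
    have a1 : ‖p j‖ ≤ max R₁ 1 := by
      rw [Prod.norm_def]
      apply max_le_max _ hy
      by_contra hh
      push Not at hh
      have := hR₁ τ (p j) hy hh.le
      have := (abs_le.mp (hsm j hj)).2
      linarith
    simpa using hG τ (p j) a1
  have f1 := abs_le.mp (hend 0 hN5 h0)
  have f2 := abs_le.mp (hend (N - 1) (by omega) h1)
  have f3 := tele2 (fun j => g τ (p j)) N _ hinc (N - 1) (by omega)
  have f4 : ((N - 1 : ℕ) : ℝ) = N - 1 := by
    rw [Nat.cast_sub hN5]; simp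
  rw [f4] at f3
  have f5 : ((N : ℝ) - 1) * (n * (8 * G₀ + 3)) = (1 - n) * (8 * G₀ + 3) := by
    rw [← mul_assoc, sub_mul, hnN, one_mul]
  rw [f5] at f3
  have f6 : 1 / 2 * (8 * G₀ + 3) ≤ (1 - n) * (8 * G₀ + 3) :=
    mul_le_mul_of_nonneg_right (by linarith) (by positivity)
  have f7 : g τ (p (N - 1)) - g τ (p 0) ≤ 2 * G₀ := by linarith [f1.1, f2.2]
  have f8 := (f6.trans f3).trans f7
  linarith

end Pool.Agent.Lib.MP_837412_lc.K
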