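import Pool.Agent.Lib.MP_837412_lc.KSt

/-!
The normalised real part and the imaginary part of the deformed pencil form a tame family.
-/

namespace Pool.Agent.Lib.MP_837412_lc.K

open Set Function Filter Topology MvPolynomial

namespace KTame

variable {σ T : Type} [Fintype σ] [DecidableEq σ]

lemma abs_dx (f : Ph σ → ℝ) (q : Ph σ) (i : σ) : |dx f q i| ≤ ‖fderiv ℝ f q‖ := by
  have h := (fderiv ℝ f q).le_opNorm ((Pi.single i 1, 0) : Ph σ)
  have e : ‖((Pi.single i 1, 0) : Ph σ)‖ = 1 := by simp [Prod.norm_def, Pi.norm_single]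
  rw [e, mul_one] at h
  exact h

lemma abs_dy (f : Ph σ → ℝ) (q : Ph σ) (i : σ) : |dy f q i| ≤ ‖fderiv ℝ f q‖ := by
  have h := (fderiv ℝ f q).le_opNorm ((0, Pi.single i 1) : Ph σ)
  have e : ‖((0, Pi.single i 1) : Ph σ)‖ = 1 := by simp [Prod.norm_def, Pi.norm_single]
  rw [e, mul_one] at h
  exact h

lemma abs_br (f g : Ph σ → ℝ) (q : Ph σ) :
    |br f g q| ≤ 2 * Fintype.card σ * (‖fderiv ℝ f q‖ * ‖fderiv ℝ g q‖) := by
  unfold br
  refine (Finset.abs_sum_le_sum_abs _ _).trans ?_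
  refine (Finset.sum_le_card_nsmul _ _ (2 * (‖fderiv ℝ f q‖ * ‖fderiv ℝ g q‖)) fun i _ => ?_).trans
    (by simp [Finset.card_univ]; exact le_of_eq (by ring))
  refine (abs_sub _ _).trans ?_
  rw [abs_mul, abs_mul]
  have a := mul_le_mul (abs_dx f q i) (abs_dy g q i) (abs_nonneg _) (norm_nonneg _)
  have b := mul_le_mul (abs_dy f q i) (abs_dx g q i) (abs_nonneg _) (norm_nonneg _)
  linarith

omit [DecidableEq σ] in
lemma fderiv_quot {H w : Ph σ → ℝ} (hH : Differentiable ℝ H) (hw : Differentiable ℝ w)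
    (w0 : ∀ q, w q ≠ 0) (q : Ph σ) :
    fderiv ℝ (fun q => H q / w q) q =
      (w q)⁻¹ • (fderiv ℝ H q - (H q / w q) • fderiv ℝ w q) := by
  have d : DifferentiableAt ℝ (fun q => H q / w q) q := by
    simp only [div_eq_mul_inv]
    exact (hH q).mul ((hw q).inv (w0 q))
  have e : H = fun q => (H q / w q) * w q := funext fun q => (div_mul_cancel₀ _ (w0 q)).symm
  have k := fderiv_fun_mul d (hw q)
  rw [← e] at k
  rw [k, add_sub_cancel_left, smul_smul, inv_mul_cancel₀ (w0 q), one_smul]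

lemma br_quot {H w : Ph σ → ℝ} (g : Ph σ → ℝ) (hH : Differentiable ℝ H) (hw : Differentiable ℝ w)
    (w0 : ∀ q, w q ≠ 0) (q : Ph σ) :
    br (fun q => H q / w q) g q = (w q)⁻¹ * (br H g q - (H q / w q) * br w g q) := by
  unfold br
  simp only [dx, dy, fderiv_quot hH hw w0, Finset.mul_sum, ← Finset.sum_sub_distrib,
    smul_apply, sub_apply, smul_eq_mul]
  exact Finset.sum_congr rfl fun i _ => by ring

variable [TopologicalSpace T]

lemma cont_br {f g : T → Ph σ → ℝ} (a : Continuous fun q : T × Ph σ => fderiv ℝ (f q.1) q.2)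
    (b : Continuous fun q : T × Ph σ => fderiv ℝ (g q.1) q.2) :
    Continuous fun q : T × Ph σ => br (f q.1) (g q.1) q.2 := by
  unfold br dx dy
  refine continuous_finsetSum _ fun i _ => ?_
  exact ((a.clm_apply continuous_const).mul (b.clm_apply continuous_const)).sub
    ((a.clm_apply continuous_const).mul (b.clm_apply continuous_const))

lemma quot_tm [CompactSpace T] {H g s : T → Ph σ → ℝ} {w : Ph σ → ℝ} {m : ℕ} (hm : 1 ≤ m)
    {cw cH cg cs cf J R : ℝ} (hw : 0 < cw) (hH : 0 < cH) (hg : 0 < cg) (hs : 0 < cs) (hf : 0 < cf)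
    (hJ : 0 < J) (sH : ∀ τ, ContDiff ℝ 2 (H τ)) (dg : ∀ τ, Differentiable ℝ (g τ))
    (c0H : Continuous (uncurry H)) (c0g : Continuous (uncurry g))
    (c1H : Continuous fun q : T × Ph σ => fderiv ℝ (H q.1) q.2)
    (c1g : Continuous fun q : T × Ph σ => fderiv ℝ (g q.1) q.2) (sw : ContDiff ℝ 2 w)
    (w1 : ∀ q, (1 + ‖q‖) ^ (m + 1) ≤ cw * w q) (w2 : ∀ q, w q ≤ cw * (1 + ‖q‖) ^ (m + 1))
    (w3 : ∀ q, ‖fderiv ℝ w q‖ ≤ cw * (1 + ‖q‖) ^ m)
    (bH : ∀ τ q, |H τ q| ≤ cH * (1 + ‖q‖) ^ (m + 1))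
    (bdH : ∀ τ q, ‖fderiv ℝ (H τ) q‖ ≤ cH * (1 + ‖q‖) ^ m)
    (bdg : ∀ τ q, ‖fderiv ℝ (g τ) q‖ ≤ cg * s τ q)
    (hbr : ∀ τ q, J * s τ q ^ 2 ≤ br (H τ) (g τ) q) (s0 : ∀ τ q, H τ q = 0 → s τ q ≠ 0)
    (sR : ∀ τ q, R ≤ ‖q‖ → (1 + ‖q‖) ^ m ≤ cs * s τ q)
    (far : ∀ Y : ℝ, ∃ R : ℝ, ∀ τ q, ‖q.2‖ ≤ Y → R ≤ ‖q.1‖ → (1 + ‖q‖) ^ (m + 1) ≤ cf * H τ q) :
    ∃ ε κ B : ℝ, Tm (fun τ q => H τ q / w q) g ε κ B := by
  have n1 : ∀ q : Ph σ, 1 ≤ 1 + ‖q‖ := fun q => by linarith [norm_nonneg q]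
  have wp : ∀ q, 0 < w q := fun q =>
    (mul_pos_iff_of_pos_left hw).1 ((pow_pos (one_pos.trans_le (n1 q)) _).trans_le (w1 q))
  have w0 : ∀ q, w q ≠ 0 := fun q => (wp q).ne'
  have dw : Differentiable ℝ w := sw.differentiable two_ne_zero
  have dH : ∀ τ, Differentiable ℝ (H τ) := fun τ => (sH τ).differentiable two_ne_zero
  have cw0 : Continuous fun q : T × Ph σ => w q.2 := sw.continuous.comp continuous_snd
  have c0 : Continuous fun q : T × Ph σ => H q.1 q.2 / w q.2 := c0H.div cw0 fun q => w0 _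
  have c1 : Continuous fun q : T × Ph σ => fderiv ℝ (fun x => H q.1 x / w x) q.2 := by
    simp only [fderiv_quot (dH _) dw w0]
    exact (cw0.inv₀ fun q => w0 _).smul (c1H.sub (c0.smul
      ((sw.continuous_fderiv two_ne_zero).comp continuous_snd)))
  have cb := cont_br (f := fun τ q => H τ q / w q) c1 c1g
  obtain ⟨δ, hδ, hK⟩ := (isCompact_univ.prod (isCompact_closedBall (0 : Ph σ) R)).exists_forall_le'
    (f := fun q : T × Ph σ => max (br (fun x => H q.1 x / w x) (g q.1) q.2) |H q.1 q.2 / w q.2|)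
    (cb.max c0.abs).continuousOn (a := 0) (fun q _ => by
      by_cases e : H q.1 q.2 = 0
      · refine lt_max_of_lt_left ?_
        rw [br_quot _ (dH _) dw w0, e, zero_div, zero_mul, sub_zero]
        have := s0 _ _ e
        exact mul_pos (inv_pos.2 (wp _)) (lt_of_lt_of_le (by positivity) (hbr _ _))
      · exact lt_max_of_lt_right (abs_pos.2 (div_ne_zero e (w0 _))))
  set k : ℝ := 2 * Fintype.card σ + 1 with hk
  have k0 : 0 < k := by positivity
  have hb : ∀ τ q, |H τ q / w q| ≤ cH * cw := fun τ q => by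
    rw [abs_div, abs_of_pos (wp q), div_le_iff₀ (wp q), mul_assoc]
    exact (bH τ q).trans (mul_le_mul_of_nonneg_left (w1 q) hH.le)
  refine ⟨min (δ / 2) (min (J / (2 * (k * cw * cs * cg))) (1 / (2 * (cf * cw)))),
    min δ (J / (2 * (cw * cs ^ 2))), cw * (cH + cH * cw * cw), by positivity, by positivity,
    by positivity, fun τ => (sH τ).div sw w0, dg, c0, c0g, c1, c1g, fun τ q => ?_,
    fun τ q hq => ?_, fun Y => ?_⟩
  · rw [fderiv_quot (dH _) dw w0, norm_smul, Real.norm_eq_abs, abs_of_pos (inv_pos.2 (wp q)),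
      inv_mul_le_iff₀ (wp q)]
    refine (norm_sub_le _ _).trans ?_
    rw [norm_smul, Real.norm_eq_abs]
    have a := mul_le_mul (hb τ q) (w3 q) (norm_nonneg _) (by positivity)
    have b : (1 + ‖q‖) ^ m ≤ cw * w q :=
      (pow_le_pow_right₀ (n1 q) (Nat.le_succ m)).trans (w1 q)
    have c := mul_le_mul_of_nonneg_left b (show 0 ≤ cH + cH * cw * cw by positivity)
    have := bdH τ q
    nlinarith
  · by_cases hR : ‖q‖ ≤ R
    · have a := hK (τ, q) ⟨mem_univ _, mem_closedBall_zero_iff.2 hR⟩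
      have b : |H τ q / w q| < δ := (hq.trans (min_le_left _ _)).trans_lt (half_lt_self hδ)
      rcases le_max_iff.1 a with c | c
      · exact (min_le_left _ _).trans c
      · exact absurd c (not_le.2 b)
    · have a := sR τ q (not_le.1 hR).le
      have ap : 1 ≤ (1 + ‖q‖) ^ m := one_le_pow₀ (n1 q)
      have sp : 0 < s τ q := pos_of_mul_pos_left (by linarith) hs.le
      refine (min_le_right _ _).trans ?_
      rw [br_quot _ (dH _) dw w0, le_inv_mul_iff₀ (wp q)]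
      have e1 : |H τ q / w q| ≤ J / (2 * (k * cw * cs * cg)) :=
        hq.trans ((min_le_right _ _).trans (min_le_left _ _))
      have e2 : |br w (g τ) q| ≤ k * (cw * (cs * s τ q) * (cg * s τ q)) := by
        refine (abs_br _ _ _).trans (mul_le_mul (by linarith) (mul_le_mul ((w3 q).trans
          (mul_le_mul_of_nonneg_left a hw.le)) (bdg τ q) (norm_nonneg _) (by positivity))
          (by positivity) k0.le)
      have e3 : H τ q / w q * br w (g τ) q ≤ J / 2 * s τ q ^ 2 := by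
        refine (le_abs_self _).trans ?_
        rw [abs_mul]
        refine (mul_le_mul e1 e2 (abs_nonneg _) (by positivity)).trans (le_of_eq ?_)
        field_simp
      have e4 : w q ≤ cw * (cs * s τ q) ^ 2 := by
        refine (w2 q).trans (mul_le_mul_of_nonneg_left ?_ hw.le)
        refine (pow_le_pow_right₀ (n1 q) (show m + 1 ≤ m * 2 by omega)).trans ?_
        rw [pow_mul]
        exact pow_le_pow_left₀ (by positivity) a 2
      have e5 : w q * (J / (2 * (cw * cs ^ 2))) ≤ J / 2 * s τ q ^ 2 := by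
        refine (mul_le_mul_of_nonneg_right e4 (by positivity)).trans (le_of_eq ?_)
        field_simp
      have := hbr τ q
      linarith
  · obtain ⟨R', hR'⟩ := far Y
    refine ⟨R', fun τ q a b => ?_⟩
    refine ((min_le_right _ _).trans (min_le_right _ _)).trans_lt ?_
    have c := hR' τ q a b
    have d := (w2 q).trans (mul_le_mul_of_nonneg_left c hw.le)
    rw [div_lt_div_iff₀ (by positivity) (wp q)]
    have := wp q
    nlinarith

omit [DecidableEq σ] in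
lemma contDiff_zz : ContDiff ℝ 2 (zz : Ph σ → σ → ℂ) :=
  contDiff_pi.2 fun i =>
    (Complex.ofRealCLM.contDiff.comp ((contDiff_apply ℝ ℝ i).comp contDiff_fst)).add
      ((Complex.ofRealCLM.contDiff.comp ((contDiff_apply ℝ ℝ i).comp contDiff_snd)).mul
        contDiff_const)

omit [DecidableEq σ] in
lemma norm_le_zz (q : Ph σ) : ‖q‖ ≤ ‖zz q‖ := by
  refine max_le ((pi_norm_le_iff_of_nonneg (norm_nonneg _)).2 fun i => ?_)
    ((pi_norm_le_iff_of_nonneg (norm_nonneg _)).2 fun i => ?_)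
  · refine le_trans ?_ (norm_le_pi_norm (zz q) i)
    simpa [zz] using Complex.abs_re_le_norm (zz q i)
  · refine le_trans ?_ (norm_le_pi_norm (zz q) i)
    simpa [zz] using Complex.abs_im_le_norm (zz q i)

omit [DecidableEq σ] in
lemma zz_le (q : Ph σ) : ‖zz q‖ ≤ 2 * ‖q‖ := by
  refine (pi_norm_le_iff_of_nonneg (by positivity)).2 fun i => (norm_add_le _ _).trans ?_
  have a := (norm_le_pi_norm q.1 i).trans (norm_fst_le q)
  have b := (norm_le_pi_norm q.2 i).trans (norm_snd_le q)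
  rw [norm_mul, Complex.norm_I, mul_one, Complex.norm_real, Complex.norm_real]
  linarith

omit [DecidableEq σ] in
lemma contDiff_ev (G : MvPolynomial σ ℂ) : ContDiff ℝ 2 fun q : Ph σ => eval (zz q) G :=
  ((contDiff_eval G).restrict_scalars ℝ).comp contDiff_zz

omit [DecidableEq σ] in
lemma contDiff_Fl2 (m : ℕ) (p p' : MvPolynomial σ ℂ) :
    ContDiff ℝ 2 fun x : (ℂ × ℂ) × Ph σ => eval (zz x.2) (Fl2 m p p' x.1.1 x.1.2) := by
  simp only [Fl2, map_sub, map_mul, eval_C, eval_Fl]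
  exact (((contDiff_ev _).comp contDiff_snd).sub
    (contDiff_fst.fst.mul ((contDiff_ev _).comp contDiff_snd))).sub
    (contDiff_fst.snd.mul ((contDiff_ev _).comp contDiff_snd))

omit [DecidableEq σ] in
lemma cont_par (F : ℂ × ℂ → Ph σ → ℂ) (hF : ContDiff ℝ 2 fun x : (ℂ × ℂ) × Ph σ => F x.1 x.2)
    {a : T → ℂ × ℂ} (ha : Continuous a) :
    (Continuous fun q : T × Ph σ => F (a q.1) q.2) ∧
      Continuous fun q : T × Ph σ => fderiv ℝ (F (a q.1)) q.2 := by
  have c := (ha.comp (continuous_fst (Y := Ph σ))).prodMk continuous_snd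
  exact ⟨hF.continuous.comp c, (Continuous.fderiv (f := fun (x : (ℂ × ℂ) × Ph σ) => F x.1)
    (hF.comp (contDiff_fst.fst.prodMk contDiff_snd)) continuous_snd one_le_two).comp c⟩

omit [DecidableEq σ] in
lemma fderiv_clm (L : ℂ →L[ℝ] ℝ) {Φ : Ph σ → ℂ} (h : Differentiable ℝ Φ) (q : Ph σ) :
    fderiv ℝ (fun q => L (Φ q)) q = L.comp (fderiv ℝ Φ q) :=
  (L.hasFDerivAt.comp q (h q).hasFDerivAt).fderiv

end KTame

open KTame in
theorem tameK (h1 : EstS) (h2 : BrS) (h3 : PlB) (h4 : WtS) : TameK := by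
  intro σ T _ _ _ _ m p p' l l' t ψ hm hp hp' cl cl' ct hψ hc
  obtain ⟨Λ, hΛ⟩ := isCompact_univ.exists_bound_of_continuousOn (cl.prodMk cl').continuousOn
  obtain ⟨b, hb⟩ := isCompact_univ.exists_bound_of_continuousOn ct.continuousOn
  have hl : ∀ τ, ‖l τ‖ ≤ Λ := fun τ => (norm_fst_le (l τ, l' τ)).trans (hΛ τ (mem_univ _))
  have hl' : ∀ τ, ‖l' τ‖ ≤ Λ := fun τ => (norm_snd_le (l τ, l' τ)).trans (hΛ τ (mem_univ _))
  have ht : ∀ τ, |t τ| ≤ |b| := fun τ => (hb τ (mem_univ _)).trans (le_abs_self b)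
  obtain ⟨⟨c, R, c0, hE⟩, hF⟩ := h1 σ m p p' Λ hm hp hp'
  obtain ⟨d, J, d0, J0, hP⟩ := h3 T ψ hψ
  obtain ⟨w, cw, cw0, sw, hw⟩ := h4 σ m hm
  have n1 : ∀ q : Ph σ, 1 ≤ 1 + ‖q‖ := fun q => by linarith [norm_nonneg q]
  have n2' : ∀ (q : Ph σ) (n : ℕ), (1 + ‖zz q‖) ^ n ≤ 2 ^ n * (1 + ‖q‖) ^ n := fun q n => by
    rw [← mul_pow]
    exact pow_le_pow_left₀ (by positivity) (by linarith [zz_le q]) n
  obtain ⟨cE, cE1⟩ := cont_par (fun x q => eval (zz q) (Fl2 m p p' x.1 x.2))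
    (contDiff_Fl2 m p p') (cl.prodMk cl')
  dsimp only at cE cE1
  have hE' := fun τ => hE (l τ) (l' τ) (hl τ) (hl' τ)
  have hF' : ∀ Y : ℝ, ∃ R : ℝ, ∀ τ (q : Ph σ), ‖q.2‖ ≤ Y → R ≤ ‖q.1‖ →
      ‖q.1‖ ^ (m + 1) ≤ 2 * (eval (zz q) (Fl2 m p p' (l τ) (l' τ))).re := fun Y =>
    (hF Y).imp fun R h τ => h (l τ) (l' τ) (hl τ) (hl' τ)
  clear hE hF
  generalize hG : (fun τ => Fl2 m p p' (l τ) (l' τ)) = G
  have eG : ∀ τ, Fl2 m p p' (l τ) (l' τ) = G τ := fun τ => congrFun hG τ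
  simp only [eG] at hc cE cE1 hE' hF' ⊢
  clear eG hG
  have dψ : ∀ τ, Differentiable ℝ (ψ τ) := fun τ => (hψ.sm τ).differentiable two_ne_zero
  have sΦ : ∀ τ, ContDiff ℝ 2 fun q : Ph σ => ψ τ (eval (zz q) (G τ)) := fun τ =>
    (hψ.sm τ).comp (contDiff_ev _)
  have dΦ := fun τ => (sΦ τ).differentiable two_ne_zero
  have cΦ : Continuous fun q : T × Ph σ => ψ q.1 (eval (zz q.2) (G q.1)) :=
    hψ.c0.comp (continuous_fst.prodMk cE)
  have cΦ1 : Continuous fun q : T × Ph σ =>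
      fderiv ℝ (fun x : Ph σ => ψ q.1 (eval (zz x) (G q.1))) q.2 := by
    have e : ∀ q : T × Ph σ, fderiv ℝ (fun x : Ph σ => ψ q.1 (eval (zz x) (G q.1))) q.2 =
        (fderiv ℝ (ψ q.1) (eval (zz q.2) (G q.1))).comp
          (fderiv ℝ (fun x : Ph σ => eval (zz x) (G q.1)) q.2) := fun q =>
      fderiv_comp q.2 (dψ _ _) ((contDiff_ev _).differentiable two_ne_zero _)
    simp only [e]
    exact (hψ.c1.comp (continuous_fst.prodMk cE)).clm_comp cE1
  have eH : ∀ τ q, fderiv ℝ (fun q : Ph σ => (ψ τ (eval (zz q) (G τ))).re - t τ) q =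
      Complex.reCLM.comp (fderiv ℝ (fun q : Ph σ => ψ τ (eval (zz q) (G τ))) q) := fun τ q => by
    rw [fderiv_sub_const]
    exact fderiv_clm Complex.reCLM (dΦ τ) q
  have eg : ∀ τ q, fderiv ℝ (fun q : Ph σ => (ψ τ (eval (zz q) (G τ))).im) q =
      Complex.imCLM.comp (fderiv ℝ (fun q : Ph σ => ψ τ (eval (zz q) (G τ))) q) := fun τ q =>
    fderiv_clm Complex.imCLM (dΦ τ) q
  set k : ℝ := 2 * Fintype.card σ + 1 with hk
  have k0 : 0 < k := by positivity
  have bΦ : ∀ τ q, ‖fderiv ℝ (fun q : Ph σ => ψ τ (eval (zz q) (G τ))) q‖ ≤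
      k * d * √(n2 (G τ) (zz q)) := fun τ q =>
    (h2 σ (G τ) (ψ τ) q (dψ _ _)).2.trans (mul_le_mul_of_nonneg_right
      (mul_le_mul (by linarith) (hP τ _).2.1 (norm_nonneg _) k0.le) (Real.sqrt_nonneg _))
  have bs : ∀ τ (q : Ph σ), √(n2 (G τ) (zz q)) ≤ c * 2 ^ m * (1 + ‖q‖) ^ m := fun τ q => by
    refine (Real.sqrt_le_sqrt (hE' τ (zz q)).2.1).trans ?_
    rw [Real.sqrt_sq (by positivity), mul_assoc]
    exact mul_le_mul_of_nonneg_left (n2' q m) c0.le
  have m1 : 1 ≤ m := hm.pos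
  refine ⟨w, ?_⟩
  have wp : ∀ q, 0 < w q := fun q =>
    (mul_pos_iff_of_pos_left cw0).1 ((pow_pos (one_pos.trans_le (n1 q)) _).trans_le (hw q).1)
  suffices h : ∃ ε κ B : ℝ, Tm (fun τ q => ((ψ τ (eval (zz q) (G τ))).re - t τ) / w q)
      (fun τ q => (ψ τ (eval (zz q) (G τ))).im) ε κ B by
    obtain ⟨ε, κ, B, h⟩ := h
    exact ⟨ε, κ, B, wp, h⟩
  refine quot_tm (H := fun τ q => (ψ τ (eval (zz q) (G τ))).re - t τ)
    (s := fun τ q => √(n2 (G τ) (zz q)))
    (cH := c * 2 ^ (m + 1) + d + |b| + k * d * (c * 2 ^ m)) (cg := k * d) (cs := 2 ^ m)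
    (cf := 2 ^ (m + 1) * 4) (R := max R 1) m1 cw0 (by positivity) (by positivity) (by positivity)
    (by positivity) J0 (fun τ => (Complex.reCLM.contDiff.comp (sΦ τ)).sub contDiff_const)
    (fun τ => Complex.imCLM.differentiable.comp (dΦ τ))
    ((Complex.continuous_re.comp cΦ).sub (ct.comp continuous_fst))
    (Complex.continuous_im.comp cΦ) ?_ ?_ sw (fun q => (hw q).1) (fun q => (hw q).2.1)
    (fun q => (hw q).2.2) (fun τ q => ?_) (fun τ q => ?_) (fun τ q => ?_) (fun τ q => ?_)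
    (fun τ q hq => ?_) (fun τ q hq => ?_) (fun Y => ?_)
  · simp only [eH]
    exact continuous_const.clm_comp cΦ1
  · simp only [eg]
    exact continuous_const.clm_comp cΦ1
  · have a := (hE' τ (zz q)).1.trans (mul_le_mul_of_nonneg_left (n2' q (m + 1)) c0.le)
    have e := (hP τ (eval (zz q) (G τ))).1
    have f := norm_le_norm_add_norm_sub' (ψ τ (eval (zz q) (G τ))) (eval (zz q) (G τ))
    have g := Complex.abs_re_le_norm (ψ τ (eval (zz q) (G τ)))
    have i := abs_sub (ψ τ (eval (zz q) (G τ))).re (t τ)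
    have j : 1 ≤ (1 + ‖q‖) ^ (m + 1) := one_le_pow₀ (n1 q)
    have o := mul_le_mul_of_nonneg_left j (show 0 ≤ d + |b| by positivity)
    have r : 0 ≤ k * d * (c * 2 ^ m) * (1 + ‖q‖) ^ (m + 1) := by positivity
    have := ht τ
    linarith
  · rw [eH]
    refine (ContinuousLinearMap.opNorm_comp_le _ _).trans ?_
    rw [Complex.reCLM_norm, one_mul]
    have a := (bΦ τ q).trans (mul_le_mul_of_nonneg_left (bs τ q) (by positivity))
    have r : 0 ≤ (c * 2 ^ (m + 1) + d + |b|) * (1 + ‖q‖) ^ m := by positivity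
    linarith
  · rw [eg]
    refine (ContinuousLinearMap.opNorm_comp_le _ _).trans ?_
    rw [Complex.imCLM_norm, one_mul]
    exact bΦ τ q
  · have e : br (fun q : Ph σ => (ψ τ (eval (zz q) (G τ))).re - t τ)
        (fun q : Ph σ => (ψ τ (eval (zz q) (G τ))).im) q =
        br (fun q : Ph σ => (ψ τ (eval (zz q) (G τ))).re)
        (fun q : Ph σ => (ψ τ (eval (zz q) (G τ))).im) q := by
      simp only [br, dx, dy, fderiv_sub_const]
    rw [e, (h2 σ (G τ) (ψ τ) q (dψ _ _)).1, Real.sq_sqrt (n2_nonneg _ _)]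
    exact mul_le_mul_of_nonneg_right (hP τ _).2.2 (n2_nonneg _ _)
  · intro e
    exact hc τ _ (n2_eq_zero.1 ((Real.sqrt_eq_zero (n2_nonneg _ _)).1 e)) (sub_eq_zero.1 hq)
  · have a := (hE' τ (zz q)).2.2 (((le_max_left _ _).trans hq).trans (norm_le_zz q))
    have e : 1 ≤ ‖q‖ := (le_max_right _ _).trans hq
    have f : ‖zz q‖ ^ m ≤ √(n2 (G τ) (zz q)) := Real.le_sqrt_of_sq_le a
    refine le_trans ?_ (mul_le_mul_of_nonneg_left f (by positivity))
    rw [← mul_pow]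
    exact pow_le_pow_left₀ (by positivity) (by linarith [norm_le_zz q]) m
  · obtain ⟨R', hR'⟩ := hF' Y
    refine ⟨max R' (max (max Y 1) (4 * (d + |b|))), fun τ q a e => ?_⟩
    simp only [max_le_iff] at e
    obtain ⟨e1, ⟨e2, e3⟩, e4⟩ := e
    have f := hR' τ q a e1
    have g : ‖q‖ = ‖q.1‖ := max_eq_left (a.trans e2)
    have i : ‖q.1‖ ≤ ‖q.1‖ ^ (m + 1) := le_self_pow₀ e3 (Nat.succ_ne_zero m)
    have j := (Complex.abs_re_le_norm _).trans (hP τ (eval (zz q) (G τ))).1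
    rw [Complex.sub_re] at j
    have o := (abs_le.1 j).1
    have r := (abs_le.1 (ht τ)).2
    have u : (1 + ‖q‖) ^ (m + 1) ≤ 2 ^ (m + 1) * ‖q.1‖ ^ (m + 1) := by
      rw [← mul_pow, g]
      exact pow_le_pow_left₀ (by positivity) (by linarith) _
    refine u.trans ?_
    rw [mul_assoc]
    exact mul_le_mul_of_nonneg_left (by linarith) (by positivity)

end Pool.Agent.Lib.MP_837412_lc.K
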