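import Pool.Agent.Lib.MP_837412_lc.StT

/-!
Basic facts about Lefschetz systems.
-/

namespace Pool.Agent.Lib.MP_837412_lc

open Pool.Agent.Shared.Mod2 Set Function Filter Topology

variable {E E' ι : Type} [TopologicalSpace E] [TopologicalSpace E'] {G : E → ℂ} {c : ι → ℂ} {m : ℕ}
  {ζ : ℂ} {A B A' B' W : Set ℂ} {N M : ℝ}

lemma Mono.union (h : Mono ζ A) (h' : Mono ζ B) : Mono ζ (A ∪ B) :=
  fun z hz t ht => hz.imp (h z · t ht) (h' z · t ht)

lemma Mono.inter (h : Mono ζ A) (h' : Mono ζ B) : Mono ζ (A ∩ B) :=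
  fun z hz t ht => ⟨h z hz.1 t ht, h' z hz.2 t ht⟩

lemma Mono.univ : Mono ζ (univ : Set ℂ) := fun _ _ _ _ => trivial

lemma Adm.lin (h : Adm ζ A B) (ψ : ℂ ≃L[ℝ] ℂ) : Adm (ψ.symm ζ) (ψ ⁻¹' A) (ψ ⁻¹' B) where
  oA := h.oA.preimage ψ.continuous
  oB := h.oB.preimage ψ.continuous
  sub := preimage_mono h.sub
  mA z hz t ht := by
    simpa only [mem_preimage, map_add, map_smul, ψ.apply_symm_apply] using h.mA _ hz t ht
  mB z hz t ht := by
    simpa only [mem_preimage, map_add, map_smul, ψ.apply_symm_apply] using h.mB _ hz t ht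
  ent z hz := by
    simpa only [mem_preimage, map_add, map_smul, ψ.apply_symm_apply] using h.ent _ hz

/-- An intermediate set. -/
lemma Adm.mid (h : Adm ζ A B) (o : IsOpen W) (hW : Mono ζ W) (h1 : B ⊆ W) (h2 : W ⊆ A) :
    Adm ζ A W ∧ Adm ζ W B :=
  ⟨⟨h.oA, o, h2, h.mA, hW, fun z hz => (h.ent z hz).imp fun _ a => ⟨a.1, h1 a.2⟩⟩,
    ⟨o, h.oB, h1, hW, h.mB, fun z hz => h.ent z (h2 hz)⟩⟩

lemma Sys.lin (h : Sys G c m) (ψ : ℂ ≃L[ℝ] ℂ) : Sys (ψ ∘ G) (ψ ∘ c) m where
  cont := ψ.continuous.comp h.cont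
  inj := ψ.injective.comp h.inj
  ac ζ A B a b d := h.ac (ψ.symm ζ) (ψ ⁻¹' A) (ψ ⁻¹' B) (ψ.symm.map_ne_zero_iff.2 a) (b.lin ψ) d
  cell ζ A B i a b d e f :=
    h.cell (ψ.symm ζ) (ψ ⁻¹' A) (ψ ⁻¹' B) i (ψ.symm.map_ne_zero_iff.2 a) (b.lin ψ) d e f

lemma Sys.cj (h : Sys G c m) : Sys (cj G) (cj c) m := h.lin Complex.conjCLE

lemma Sys.perm {κ : Type} (h : Sys G c m) (e : κ ≃ ι) : Sys G (c ∘ e) m where
  cont := h.cont
  inj := h.inj.comp e.injective
  ac ζ A B a b d := h.ac ζ A B a b fun i => by simpa using d (e.symm i)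
  cell ζ A B i a b d f g := h.cell ζ A B (e i) a b d f fun j hj => by
    simpa using g (e.symm j) fun x => hj (by rw [← x]; simp)

@[simp] lemma cj_cj {X : Type} (G : X → ℂ) : cj (cj G) = G := by ext; simp [cj]

@[simp] lemma cj_re {X : Type} (G : X → ℂ) (x : X) : (cj G x).re = (G x).re := rfl

@[simp] lemma cj_im {X : Type} (G : X → ℂ) (x : X) : (cj G x).im = -(G x).im := rfl

lemma cj_AL (G : E → ℂ) : cj G ⁻¹' AL N M = G ⁻¹' AL N M := by ext; simp [AL]

lemma cj_AR (G : E → ℂ) : cj G ⁻¹' AR N M = G ⁻¹' AR N M := by ext; simp [AR]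

lemma Bn.cj (h : Bn N c) : Bn N (cj c) := fun i => by simpa [MP_837412_lc.cj] using h i

lemma Bn.abs (h : Bn N c) (i : ι) : |(c i).im| < N ∧ |(c i).re| < N :=
  ⟨by linarith [h i, Complex.abs_im_le_norm (c i)], by linarith [h i, Complex.abs_re_le_norm (c i)]⟩

/-- The homology of an admissible pair. -/
theorem Sys.k3 [Finite ι] (h : Sys G c m) (hζ : ζ ≠ 0) (hA : Adm ζ A B) (j : ℕ) :
    hs (G ⁻¹' A) (G ⁻¹' B) j = if j = m then {i | c i ∈ A \ B}.encard else 0 := by
  obtain ⟨n, hn⟩ : ∃ n : ℕ, {i | c i ∈ A \ B}.encard = n := ⟨_, (toFinite _).cast_ncard_eq.symm⟩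
  induction n generalizing B j with
  | zero =>
    have e : {i | c i ∈ A \ B} = ∅ := encard_eq_zero.1 hn
    rw [hn, h.ac ζ A B hζ hA fun i hi => by_contra fun a => (e.subset (⟨hi, a⟩ : i ∈ {i | c i ∈ A \ B}) :)]
    simp
  | succ n ih =>
    obtain ⟨i, hi, hm⟩ := exists_max_image {i | c i ∈ A \ B} (fun i => ((starRingEnd ℂ) ζ * c i).re)
      (toFinite _) (nonempty_of_encard_ne_zero (by rw [hn]; exact Nat.cast_ne_zero.2 n.succ_ne_zero))
    let Z : Set ℂ := ⋃ l ∈ {l | c l ∈ A \ B ∧ l ≠ i}, range fun t : Ici (0 : ℝ) => c l - t.1 • ζ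
    have cZ : IsClosed Z := (toFinite _).isClosed_biUnion fun l _ => by
      have : IsClosedEmbedding fun t : ℝ => c l - t • ζ :=
        (Homeomorph.subLeft (c l)).isClosedEmbedding.comp (isClosedEmbedding_smul_left hζ)
      rw [← image_eq_range (fun t : ℝ => c l - t • ζ)]
      exact this.isClosedMap _ isClosed_Ici
    have mZ : Mono ζ Zᶜ := fun z hz t ht a => hz (by
      simp only [Z, mem_iUnion] at a ⊢
      obtain ⟨l, hl, s, hs⟩ := a
      exact ⟨l, hl, ⟨s + t, add_nonneg s.2 ht⟩, by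
        simp only [add_smul] at hs ⊢; linear_combination hs⟩)
    have iZ : c i ∉ Z := fun a => by
      simp only [Z, mem_iUnion] at a
      obtain ⟨l, hl, ⟨s, hs⟩, e⟩ := a
      have e1 := hm l hl.1
      have e2 : c l = c i + s * ζ := by simp only [Complex.real_smul] at e; linear_combination e
      have e3 : ((starRingEnd ℂ) ζ * (c i + s * ζ)).re =
          ((starRingEnd ℂ) ζ * c i).re + s * Complex.normSq ζ := by
        simp [Complex.normSq_apply]; ring
      rw [e2, e3] at e1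
      have e4 : s = 0 := le_antisymm (by
        by_contra a; nlinarith [Complex.normSq_pos.2 hζ]) hs
      exact hl.2 (h.inj (by simpa [e4] using e2))
    have lZ : ∀ l ≠ i, c l ∈ A → c l ∉ B → c l ∈ Z := fun l a b d => by
      simp only [Z, mem_iUnion]
      exact ⟨l, ⟨⟨b, d⟩, a⟩, ⟨0, mem_Ici.2 le_rfl⟩, by simp⟩
    obtain ⟨a1, a2⟩ := hA.mid (W := B ∪ A ∩ Zᶜ) (hA.oB.union (hA.oA.inter cZ.isOpen_compl))
      (hA.mB.union (hA.mA.inter mZ)) subset_union_left (union_subset hA.sub inter_subset_left)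
    have e : {l | c l ∈ A \ B} = insert i {l | c l ∈ A \ (B ∪ A ∩ Zᶜ)} := by
      ext l
      by_cases hl : l = i
      · simpa [hl] using hi
      · have := lZ l hl
        simp only [mem_ofPred_eq, Set.mem_sdiff, mem_insert_iff, hl, false_or, mem_union, mem_inter_iff,
          mem_compl_iff]
        tauto
    rw [e, encard_insert_of_notMem fun a => a.2 (Or.inr ⟨hi.1, iZ⟩), Nat.cast_succ] at hn
    replace hn := ENat.add_left_injective_of_ne_top ENat.one_ne_top hn
    have c1 := h.cell ζ _ _ i hζ a2 (Or.inr ⟨hi.1, iZ⟩) hi.2 fun l hl a =>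
      a.elim id fun a => by_contra fun b => a.2 (lZ l hl a.1 b)
    have c2 := fun j => ih a1 j hn
    obtain ⟨p, q, δ, t1, t2, t3, t4⟩ := triple_s (preimage_mono (f := G) a2.sub) (preimage_mono a1.sub)
    have d0 : ∀ k, δ k = 0 := fun k => by
      by_cases hk : k = m
      · have := t3 k
        rw [c2, if_neg (by omega)] at this
        exact (add_eq_zero.1 this.symm).2
      · have := t1 k
        rw [c1, if_neg hk] at this
        exact (add_eq_zero.1 this.symm).1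
    have q0 : q j = hs (G ⁻¹' A) (G ⁻¹' (B ∪ A ∩ Zᶜ)) j := by
      cases j with
      | zero => rw [t4, hs_zero]
      | succ j => rw [t3, d0, add_zero]
    have p0 := t1 j
    rw [d0, zero_add] at p0
    rw [t2, q0, ← p0, c1, c2, e, encard_insert_of_notMem fun a => a.2 (Or.inr ⟨hi.1, iZ⟩)]
    split_ifs <;> simp [add_comm]

lemma upw_AU : Upw N (AU N) :=
  ⟨isOpen_lt continuous_const Complex.continuous_im, fun z hz t ht => by
    simp only [AU, mem_ofPred_eq] at *; simp; linarith, Subset.rfl⟩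

lemma upw_univ : Upw N univ := ⟨isOpen_univ, .univ, subset_univ _⟩

lemma Upw.union (h : Upw N A) (h' : Upw N B) : Upw N (A ∪ B) :=
  ⟨h.op.union h'.op, h.mono.union h'.mono, h.sub.trans subset_union_left⟩

lemma Upw.inter (h : Upw N A) (h' : Upw N B) : Upw N (A ∩ B) :=
  ⟨h.op.inter h'.op, h.mono.inter h'.mono, subset_inter h.sub h'.sub⟩

lemma Upw.adm (h : Upw N A) (h' : Upw N B) (e : B ⊆ A) : Adm Complex.I A B :=
  ⟨h.op, h'.op, e, h.mono, h'.mono, fun z _ => ⟨|N - z.im| + 1, by positivity, h'.sub (by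
    simp only [AU, mem_ofPred_eq]; simp; linarith [le_abs_self (N - z.im)])⟩⟩

lemma Upw.up (h : Upw N A) {i j : ι} (e : Up c i j) (hi : c i ∈ A) : c j ∈ A := by
  have := h.mono _ hi ((c j).im - (c i).im) (by linarith [e.2])
  rwa [show c i + _ = c j from Complex.ext (by simp [e.1]) (by simp)] at this

lemma Im_mono (h : A ⊆ B) : Im N G m A ≤ Im N G m B :=
  sup_le_sup_right (Zs_mono (preimage_mono h) Subset.rfl m) _

lemma Im_univ : Im N G m univ = Zs univ (G ⁻¹' AU N) m :=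
  sup_eq_left.2 (Br_le_Zr (cx _) (cx _) (Cs_le (subset_univ _)) m)

/-- The image depends only on the critical values in the set. -/
lemma Sys.im_le (h : Sys G c m) (hA : Upw N A) (hB : Upw N B) (e : ∀ i, c i ∈ A → c i ∈ B) :
    Im N G m A ≤ Im N G m B := by
  have a := h.ac _ _ _ Complex.I_ne_zero (hA.adm (hA.inter hB) inter_subset_left)
    fun i hi => ⟨hi, e i hi⟩
  refine sup_le ((onto_left (preimage_mono (hA.inter hB).sub) (preimage_mono inter_subset_left)
    (a m)).trans (sup_le_sup (Zs_mono (preimage_mono inter_subset_right) Subset.rfl m)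
      (Bs_mono (subset_univ _) Subset.rfl m))) le_sup_right

lemma Sys.rk_im [Finite ι] (h : Sys G c m) (hA : Upw N A) :
    rk (Im N G m A) (Bs univ (G ⁻¹' AU N) m) ≤ {i | c i ∈ A}.encard := by
  have := h.k3 Complex.I_ne_zero (hA.adm upw_AU hA.sub) m
  rw [if_pos rfl] at this
  refine le_trans ?_ (this.le.trans (encard_le_encard fun _ a => a.1))
  rw [Im, rk_congr (S' := Zs (G ⁻¹' A) (G ⁻¹' AU N) m) (by rw [sup_assoc, sup_idem])]
  exact rk_mono le_rfl (Bs_mono (subset_univ _) Subset.rfl m)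

variable [Fintype ι] {e : ι → Ch (Sx E)}

lemma UB.mem (h : UB N G c m e) (hA : Upw N A) {i : ι} (hi : c i ∈ A) : e i ∈ Im N G m A :=
  h.span A hA ▸ Submodule.mem_sup_left (Submodule.subset_span ⟨i, hi, rfl⟩)

lemma UB.mem_Zs (h : UB N G c m e) (i : ι) : e i ∈ Zs univ (G ⁻¹' AU N) m :=
  Im_univ (G := G) ▸ h.mem upw_univ trivial

/-- A criterion for adapted bases. -/
theorem Sys.ub (h : Sys G c m) (h1 : Ind (Bs univ (G ⁻¹' AU N) m) e)
    (h2 : ∀ j, ∃ W, Upw N W ∧ (∀ l, c l ∈ W → l = j ∨ Up c j l) ∧ e j ∈ Im N G m W) :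
    UB N G c m e := by
  refine ⟨h1, fun A hA => ?_⟩
  have a : Submodule.span F (e '' {i | c i ∈ A}) ≤ Im N G m A := by
    rw [Submodule.span_le]
    rintro _ ⟨j, hj, rfl⟩
    obtain ⟨W, w1, w2, w3⟩ := h2 j
    exact h.im_le w1 hA (fun l hl => (w2 l hl).elim (fun a => a ▸ hj) (hA.up · hj)) w3
  refine le_antisymm (le_of_rk_le (a.trans le_sup_left) ?_ ?_) (sup_le a le_sup_right)
  · rw [h1.rk_span]; exact h.rk_im hA
  · rw [h1.rk_span]; exact encard_ne_top_iff.2 (toFinite _)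

/-- A vertical strip that starts at height `b`. -/
def strip (N a b η : ℝ) : Set ℂ := {z | |z.re - a| < η ∧ b < z.im} ∪ AU N

lemma upw_strip (N a b η : ℝ) : Upw N (strip N a b η) :=
  ⟨IsOpen.union ((isOpen_lt (f := fun z : ℂ => |z.re - a|) (by fun_prop) continuous_const).inter
      (isOpen_lt continuous_const Complex.continuous_im)) upw_AU.op,
    Mono.union (fun z hz t ht => ⟨by simpa using hz.1, by simp; linarith [hz.2]⟩) upw_AU.mono,
    subset_union_right⟩

/-- A gap for the real and imaginary parts of a finite set. -/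
lemma exists_gap {Z : Set ℂ} (h : Z.Finite) : ∃ η > 0, ∀ z ∈ Z, ∀ w ∈ Z,
    (|z.re - w.re| < η → z.re = w.re) ∧ (|z.im - w.im| < η → z.im = w.im) := by
  have key : ∀ x : ℝ, ∀ᶠ η in 𝓝[>] (0 : ℝ), |x| < η → x = 0 := fun x => by
    by_cases hx : x = 0
    · exact .of_forall fun _ _ => hx
    · filter_upwards [Ioo_mem_nhdsGT (abs_pos.2 hx)] with η a b using absurd b a.2.le.not_gt
  have : ∀ᶠ η in 𝓝[>] (0 : ℝ), ∀ z ∈ Z, ∀ w ∈ Z,
      (|z.re - w.re| < η → z.re = w.re) ∧ (|z.im - w.im| < η → z.im = w.im) :=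
    (eventually_all_finite h).2 fun z _ => (eventually_all_finite h).2 fun w _ =>
      ((key _).and (key _)).mono fun _ a => ⟨fun b => sub_eq_zero.1 (a.1 b),
        fun b => sub_eq_zero.1 (a.2 b)⟩
  exact (this.and self_mem_nhdsWithin).exists.imp fun _ a => ⟨a.2, a.1⟩

lemma mem_strip {η : ℝ} {z w : ℂ} (h0 : 0 < η) (hz : z.im ≤ N)
    (h : (|z.re - w.re| < η → z.re = w.re) ∧ (|z.im - w.im| < η → z.im = w.im)) :
    (z ∈ strip N w.re (w.im - η) η ↔ z.re = w.re ∧ w.im ≤ z.im) ∧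
    (z ∈ strip N w.re (w.im + η / 2) η ↔ z.re = w.re ∧ w.im < z.im) := by
  simp only [strip, AU, mem_union, mem_ofPred_eq, hz.not_gt, or_false]
  refine ⟨⟨fun a => ⟨h.1 a.1, by_contra fun b => ?_⟩, fun a => ⟨by simpa [a.1], by linarith [a.2]⟩⟩,
    fun a => ⟨h.1 a.1, by linarith [a.2]⟩, fun a => ⟨by simpa [a.1], by_contra fun b => ?_⟩⟩
  · linarith [h.2 (abs_lt.2 ⟨by linarith [a.2], by linarith⟩)]
  · linarith [h.2 (abs_lt.2 ⟨by linarith [a.2], by linarith⟩), a.2]

omit [Fintype ι] in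
/-- From the upper base set to a set that also contains a half plane. -/
lemma Sys.ac_half (h : Sys G c m) {s : ℝ} (hs : s ≠ 0) (hA : Upw N A) (h1 : Mono (s : ℂ) A)
    {t : ℝ} (h2 : ∀ z : ℂ, t < s * z.re → z ∈ A) (h3 : ∀ i, -N ≤ (c i).im) :
    Ac (G ⁻¹' (A ∪ {z | z.im < -N})) (G ⁻¹' A) := by
  refine h.ac (s : ℂ) _ _ (by simpa using hs) ⟨hA.op.union (isOpen_lt Complex.continuous_im
    continuous_const), hA.op, subset_union_left, h1.union fun z hz t _ => by simpa using hz, h1,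
      fun z _ => ⟨(|t - s * z.re| + 1) / s ^ 2, by positivity, h2 _ ?_⟩⟩
    fun i hi => hi.elim id fun a => absurd a (h3 i).not_gt
  simp only [Complex.real_smul, Complex.add_re, ← Complex.ofReal_mul, Complex.ofReal_re]
  rw [mul_add, show s * ((|t - s * z.re| + 1) / s ^ 2 * s) = |t - s * z.re| + 1 by field_simp]
  linarith [le_abs_self (t - s * z.re)]

/-- The half plane `t < s * re z` together with the upper base set. -/
def HU (N s t : ℝ) : Set ℂ := {z | t < s * z.re} ∪ AU N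

lemma upw_HU (N s t : ℝ) : Upw N (HU N s t) :=
  ⟨(isOpen_lt continuous_const (by fun_prop)).union upw_AU.op,
    Mono.union (fun z hz t ht => by simpa using hz) upw_AU.mono, subset_union_right⟩

lemma mono_HU (N s t : ℝ) : Mono (s : ℂ) (HU N s t) :=
  Mono.union (fun z hz u hu => by
    simp only [mem_ofPred_eq] at *; simp; nlinarith [mul_self_nonneg s])
    fun z hz u hu => by simpa [AU] using hz

lemma AL_eq (N M : ℝ) : AL N M = HU N (-1) M ∪ {z | z.im < -N} := by
  ext z; simp only [AL, HU, AU, mem_union, mem_ofPred_eq, lt_abs]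
  constructor <;> rintro ((a | a) | a) <;>
    first | (left; left; linarith) | (left; right; linarith) | (right; linarith)

lemma AR_eq (N M : ℝ) : AR N M = HU N 1 M ∪ {z | z.im < -N} := by
  ext z; simp only [AR, HU, AU, mem_union, mem_ofPred_eq, lt_abs]
  constructor <;> rintro ((a | a) | a) <;>
    first | (left; left; linarith) | (left; right; linarith) | (right; linarith)

omit [Fintype ι] in
lemma Sys.ac_HU (h : Sys G c m) {s t : ℝ} (hs : s ≠ 0) (hc : ∀ i, |(c i).im| < N) :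
    Ac (G ⁻¹' (HU N s t ∪ {z | z.im < -N})) (G ⁻¹' HU N s t) :=
  h.ac_half hs (upw_HU _ _ _) (mono_HU _ _ _) (fun _ a => Or.inl a) fun i => (abs_lt.1 (hc i)).1.le

omit [Fintype ι] in
lemma Sys.ac_LU (h : Sys G c m) (hc : ∀ i, |(c i).im| < N ∧ |(c i).re| < M) :
    Ac (G ⁻¹' AL N M) (G ⁻¹' AU N) := by
  rw [AL_eq]
  exact Ac.trans (preimage_mono subset_union_right) (preimage_mono subset_union_left)
    (h.ac_HU (by norm_num) fun i => (hc i).1) (h.ac _ _ _ Complex.I_ne_zero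
      ((upw_HU _ _ _).adm upw_AU subset_union_right) fun i hi => hi.elim (fun a => by
        have := (abs_lt.1 (hc i).2).1; simp only [mem_ofPred_eq] at a; linarith) id)

omit [Fintype ι] in
lemma Sys.ac_RU (h : Sys G c m) (hc : ∀ i, |(c i).im| < N ∧ |(c i).re| < M) :
    Ac (G ⁻¹' AR N M) (G ⁻¹' AU N) := by
  rw [AR_eq]
  exact Ac.trans (preimage_mono subset_union_right) (preimage_mono subset_union_left)
    (h.ac_HU (by norm_num) fun i => (hc i).1) (h.ac _ _ _ Complex.I_ne_zero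
      ((upw_HU _ _ _).adm upw_AU subset_union_right) fun i hi => hi.elim (fun a => by
        have := (abs_lt.1 (hc i).2).2; simp only [mem_ofPred_eq] at a; linarith) id)

lemma AU_sub_AL : AU N ⊆ AL N M := fun _ h => Or.inl (lt_of_lt_of_le h (le_abs_self _))

lemma AU_sub_AR : AU N ⊆ AR N M := fun _ h => Or.inl (lt_of_lt_of_le h (le_abs_self _))

/-- A basis stays independent for a larger base set with the same homology. -/
lemma UB.ind_of (h : UB N G c m e) {X : Set E} (h1 : G ⁻¹' AU N ⊆ X) (h2 : Ac X (G ⁻¹' AU N)) :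
    Ind (Bs univ X m) e := fun a ha => h.ind a (into_right h1 (subset_univ _) (h2 m)
      ⟨sum_mem fun i _ => Submodule.smul_mem _ _ (h.mem_Zs i), ha⟩)

lemma UB.perm {κ : Type} [Fintype κ] (h : UB N G c m e) (π : κ ≃ ι) :
    UB N G (c ∘ π) m (e ∘ π) := by
  refine ⟨fun a ha => ?_, fun A hA => ?_⟩
  · have := h.ind (a ∘ π.symm) (by simpa [← π.sum_comp] using ha)
    simpa [comp_assoc] using congrArg (· ∘ π) this
  · rw [h.span A hA, image_comp,
      show π '' {i | (c ∘ π) i ∈ A} = {i | c i ∈ A} from π.surjective.image_preimage {i | c i ∈ A}]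

lemma Dat.perm {κ : Type} [Fintype κ] {L R : Matrix ι ι F} (h : Dat N M G c m L R) (π : κ ≃ ι) :
    Dat N M G (c ∘ π) m (L.submatrix π π) (R.submatrix π π) :=
  let ⟨u, d, a, b, e⟩ := h
  ⟨u ∘ π, d ∘ π, a.perm π, b.perm π, fun i => by simpa [← π.sum_comp] using e (π i)⟩

omit [Fintype ι] in
lemma Iso.up {a b : ι → ℂ} (h : Iso a b) : Up a = Up b := by
  ext i j; rw [Up, Up, h.re_eq, h.im_lt]

omit [Fintype ι] in
lemma Iso.lx {a b : ι → ℂ} (h : Iso a b) : Lx a = Lx b := by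
  ext i j; rw [Lx, Lx, h.up, h.re_lt]

omit [Fintype ι] in
lemma Tri.perm {κ : Type} {L R : Matrix ι ι F} (h : Tri c L R) (π : κ ≃ ι) :
    Tri (c ∘ π) (L.submatrix π π) (R.submatrix π π) :=
  ⟨⟨fun _ => h.1.1 _, fun _ _ a => h.1.2 _ _ (π.injective.ne a)⟩,
    fun _ => h.2.1 _, fun _ _ a => h.2.2 _ _ (π.injective.ne a)⟩

end Pool.Agent.Lib.MP_837412_lc
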