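import Pool.Agent.Lib.MP_837412_lc.UE
import Pool.Agent.Lib.MP_837412_lc.G4

/-!
Statements about what the machine computes in polynomial time.
-/

namespace Pool.Agent.Lib.MP_837412_lc

open Set Function Polynomial
open Pool.Agent.Shared.PolyTime (PT)

section Defs

variable {α : Type} [RE α]

/-- The polynomial with the roots `c a` is computed. -/
def PC {ι : α → Type} [∀ a, Fintype (ι a)] (c : ∀ a, ι a → ℂ) : Prop := RPT fun a => chi (c a)

/-- The entries of a matrix are computed. -/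
def En {ι : α → Type} (n : α → ℕ) (e : ∀ a, Fin (n a) ≃ ι a) (M : ∀ a, Matrix (ι a) (ι a) ℂ) :
    Prop :=
  RPT fun q : {q : α × Un × Un // q.2.1.val < n q.1 ∧ q.2.2.val < n q.1} =>
    M q.1.1 (e _ ⟨_, q.2.1⟩) (e _ ⟨_, q.2.2⟩)

/-- The number of variables, the degree and a bound for the sizes are available. -/
structure Sz (σ : α → Type) [∀ a, Fintype (σ a)] (m : α → ℕ) : Prop where
  card : RPT fun a => Fintype.card (σ a)
  deg : RPT m
  bd : RPB fun a => sz (σ a) (m a)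
  le : ∀ a, 3 ≤ m a

/-- The signs of the polynomials `q` at the real roots of `p`. -/
noncomputable def sv (p : ℝ[X]) (q : List ℝ[X]) : List (List SignType) :=
  (List.range (nr p)).map fun j => q.map fun g => SignType.sign (g.eval (rt p j))

variable {σ : Type} [Fintype σ]

/-- The standard monomials are numbered by digits. -/
noncomputable def stdE (σ : Type) [Fintype σ] (m : ℕ) : Fin (m ^ Fintype.card σ) ≃ Std σ m :=
  finFunctionFinEquiv.symm.trans ((Fintype.equivFin σ).symm.arrowCongr (Equiv.refl _))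

/-- A family as a list. -/
noncomputable def lst {X : Type} (q : σ → X) : List X :=
  List.ofFn fun i => q ((Fintype.equivFin σ).symm i)

variable [DecidableEq σ]

open Classical in
/-- The first good arc. -/
noncomputable def eta (m : ℕ) (p : MvPolynomial σ ℂ) (l : ℝ) : ℕ :=
  ((List.range (nQ σ m + 1)).find? fun η => ∀ s, Qv (Lam m p (arc l η s)) ≠ 0).getD 0

/-- The order types along the first good arc. -/
noncomputable def trk (m : ℕ) (p : MvPolynomial σ ℂ) (l : ℝ) : List (Tl × Tl × Tl) :=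
  segs fun s => Lam m p (arc l (eta m p l) s)

/-- The signs of the polynomials at a critical point and its index. -/
noncomputable def labL {n : ℕ} (m : ℕ) (P : Fin n → MvPolynomial σ ℝ) (z : ℂ) :
    List SignType × ℕ :=
  (List.ofFn (lab m P z).2.2.1, (lab m P z).2.2.2.2)

/-- The labels of all critical values. -/
noncomputable def labs {n : ℕ} (m : ℕ) (P : Fin n → MvPolynomial σ ℝ) :
    List (ℤ × ℤ × List SignType × ℕ) :=
  (typ (Le m P)).map fun x => (sgn (gp (Le m P) x).re, sgn (gp (Le m P) x).im,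
    labL m P (gp (Le m P) x))

omit [Fintype σ] [DecidableEq σ] in
/-- The numbering of the variables of the join. -/
def jB (K r : ℕ) (j : σ → ℕ) : σ ⊕ Fin r ⊕ Fin r → ℕ :=
  Sum.elim j (Sum.elim (fun i => K + i) fun i => K + r + i)

end Defs

/-- Operations on families of complex numbers. -/
structure ChiU : Prop where
  card : ∀ {α : Type} [RE α] {ι : α → Type} [∀ a, Fintype (ι a)] {c : ∀ a, ι a → ℂ}, PC c →
    (RPT fun a => Fintype.card (ι a)) ∧ RPB fun a => Fintype.card (ι a)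
  ps : ∀ {α : Type} [RE α] {ι : α → Type} [∀ a, Fintype (ι a)] {c : ∀ a, ι a → ℂ} {j : α → ℕ},
    PC c → RPT j → RPB j → RPT fun a => ps (c a) (j a)
  of_ps : ∀ {α : Type} [RE α] {ι : α → Type} [∀ a, Fintype (ι a)] {c : ∀ a, ι a → ℂ},
    (RPT fun a => Fintype.card (ι a)) → (RPB fun a => Fintype.card (ι a)) →
    (RPT fun q : α × Un => MP_837412_lc.ps (c q.1) q.2.val) → PC c
  padd : ∀ {α : Type} [RE α] {ι κ : α → Type} [∀ a, Fintype (ι a)] [∀ a, Fintype (κ a)]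
    {c : ∀ a, ι a → ℂ} {c' : ∀ a, κ a → ℂ}, PC c → PC c' → PC fun a => padd (c a) (c' a)
  elim : ∀ {α : Type} [RE α] {ι κ : α → Type} [∀ a, Fintype (ι a)] [∀ a, Fintype (κ a)]
    {c : ∀ a, ι a → ℂ} {c' : ∀ a, κ a → ℂ}, PC c → PC c' → PC fun a => Sum.elim (c a) (c' a)
  smul : ∀ {α : Type} [RE α] {ι : α → Type} [∀ a, Fintype (ι a)] {c : ∀ a, ι a → ℂ} {w : α → ℂ},
    RPT w → PC c → PC fun a i => w a * c a i
  conj : ∀ {α : Type} [RE α] {ι : α → Type} [∀ a, Fintype (ι a)] {c : ∀ a, ι a → ℂ},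
    PC c → PC fun a i => (starRingEnd ℂ) (c a i)
  qv : ∀ {α : Type} [RE α] {ι : α → Type} [∀ a, Fintype (ι a)] {c : ∀ a, ι a → ℂ},
    PC c → RPT fun a => Qv (c a)
  wc : ∀ {α : Type} [RE α] {ι : α → Type} [∀ a, Fintype (ι a)] {c : ∀ a, ι a → ℂ},
    PC c → PC fun a => Wc (c a)

def SigU : Prop := ∀ (α : Type) [RE α] (n : α → ℕ) (H : ∀ a, Matrix (Fin (n a)) (Fin (n a)) ℝ),
  RPT n → RPB n → (∀ a, (H a).IsSymm) →
  (RPT fun q : {q : α × Un × Un // q.2.1.val < n q.1 ∧ q.2.2.val < n q.1} =>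
    H q.1.1 ⟨_, q.2.1⟩ ⟨_, q.2.2⟩) → RPT fun a => sig (H a)

def TaqU : Prop := ∀ (α : Type) [RE α] (p q : α → ℝ[X]), RPT p → RPT q → (∀ a, p a ≠ 0) →
  RPT fun a => taq (p a) (q a)

def LinU : Prop := ∃ f : ℕ → List (List ℝ) → List ℕ × List (List ℝ),
  (RPT fun q : Un × List (List ℝ) => f q.1.val q.2) ∧ ∀ m v, (f m v).1.length ≤ m ∧
    (∀ i ∈ (f m v).1, i < v.length) ∧ (f m v).2.length = m ∧
    (∀ x ∈ (f m v).2, x.length = (f m v).1.length) ∧
    (Submodule.span ℝ {y : Fin m → ℝ | ∃ x ∈ v, y = fun t : Fin m => x.getD t 0} = ⊤ →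
      ∀ s < m, ∀ t < m, ∑ i ∈ Finset.range (f m v).1.length, ((f m v).2.getD s []).getD i 0 *
        (v.getD ((f m v).1.getD i 0) []).getD t 0 = if s = t then 1 else 0)

def BkrU : Prop := ∃ f : ℝ[X] × List ℝ[X] → List (List SignType),
  (RPT fun q : {q : ℝ[X] × List ℝ[X] // q.1 ≠ 0} => f q.1) ∧
  ∀ p q, p ≠ 0 → (f (p, q)).Nodup ∧ ∀ x, x ∈ f (p, q) ↔ x ∈ sv p q

def SignAtU : Prop := ∀ (α : Type) [RE α] (p q : α → ℝ[X]) (j : α → ℕ), RPT p → RPT q → RPT j →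
  (∀ a, p a ≠ 0) → (RPT fun a => nr (p a)) ∧
    RPT fun a => SignType.sign ((q a).eval (rt (p a) (j a)))

def AdjU : Prop := ∀ (α β : Type) [RE α] [RE β] [N487b59b3 β] [Disc β] (p : α → ℝ[X]) (j : α → ℕ)
  (f : α → β), RPT p → RPT j → (∀ a, p a ≠ 0) →
  (RPT fun q : {q : α × ℝ // q.2 = rt (p q.1) (j q.1)} => f q.1.1) → RPT f

def TypU : Prop := ∀ (α β : Type) [RE α] [RE β] [Law β] [N487b59b3 β] [Disc β] (ι : α → Type)
  [∀ a, Fintype (ι a)] (c : ∀ a, ι a → ℂ) (lab : α → ℂ → β), PC c →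
  (RPT fun a => typ (c a)) ∧
  ((RPT fun q : {q : α × ℂ // q.2 ∈ range (c q.1)} => lab q.1.1 q.1.2) →
    RPT fun a => (typ (c a)).map fun x => lab a (gp (c a) x))

def EvU : Prop := ∀ (α : Type) [RE α] (ι : α → Type) [∀ a, Fintype (ι a)]
  (c : ∀ a, ℝ → ι a → ℂ) (d : α → ℕ), RPT d → RPB d → (∀ a, PP Complex.ofReal (d a) (c a)) →
  (PC fun q : α × ℝ => c q.1 q.2) → RPT fun a => ev (c a)

def TraceU : Prop := ∀ (α : Type) [RE α] (ι : α → Type) [∀ a, Fintype (ι a)]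
  (c : ∀ a, ℝ → ι a → ℂ) (d : α → ℕ), RPT d → RPB d → (∀ a, PP Complex.ofReal (d a) (c a)) →
  (PC fun q : α × ℝ => c q.1 q.2) → RPT fun a => segs (c a)

def MatU : Prop := ∀ (α : Type) [RE α] (ι : α → Type) [∀ a, Fintype (ι a)] [∀ a, DecidableEq (ι a)]
  (n : α → ℕ) (e : ∀ a, Fin (n a) ≃ ι a) (M : ∀ a, Matrix (ι a) (ι a) ℂ), RPT n → RPB n →
  En n e M → (PC fun a => lam (M a)) ∧ ∀ (N : ∀ a, Matrix (ι a) (ι a) ℂ) (j : α → ℕ), En n e N →
    RPT j → RPB j → RPT fun a => (N a * M a ^ j a).trace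

def MMU : Prop := ∀ (α : Type) [RE α] (σ : α → Type) [∀ a, Fintype (σ a)] (m : α → ℕ)
  (q : ∀ a, σ a → MvPolynomial (σ a) ℂ) (h : ∀ a, MvPolynomial (σ a) ℂ), Sz σ m →
  (∀ a i, (q a i).totalDegree < m a) → (∀ a, (h a).totalDegree ≤ m a + 1) →
  (RPT fun a => lst fun i => up (q a i)) → (RPT fun a => up (h a)) →
  En _ (fun a => stdE (σ a) (m a)) fun a => MM (m a) (q a) (h a)

def FlU : Prop := ∀ (α : Type) [RE α] (σ : α → Type) [∀ a, Fintype (σ a)] (m : α → ℕ), Sz σ m →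
  (RPT fun a => up (F0 (σ a) ℝ (m a))) ∧ ∀ (p : ∀ a, MvPolynomial (σ a) ℂ) (l : α → ℂ),
    (RPT fun a => up (p a)) → RPT l → (RPT fun a => up (Fl (m a) (p a) (l a))) ∧
      RPT fun a => lst fun i => up (qq (m a) (p a) (l a) i)

def LamU : Prop := ∀ (α : Type) [RE α] (σ : α → Type) [∀ a, Fintype (σ a)] [∀ a, DecidableEq (σ a)]
  (m : α → ℕ) (p : ∀ a, MvPolynomial (σ a) ℂ) (l : α → ℂ), Sz σ m →
  (∀ a, (p a).totalDegree < m a) → (RPT fun a => up (p a)) → RPT l →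
  PC fun a => Lam (m a) (p a) (l a)

def RurU : Prop := ∀ (α : Type) [RE α] (σ : α → Type) [∀ a, Fintype (σ a)] [∀ a, DecidableEq (σ a)]
  (m : α → ℕ) (p h : ∀ a, MvPolynomial (σ a) ℂ) (l z : α → ℂ), Sz σ m →
  (∀ a, (p a).totalDegree < m a) → (∀ a, (h a).totalDegree ≤ m a + 1) → (RPT fun a => up (p a)) →
  (RPT fun a => up (h a)) → RPT l → RPT z → (∀ a, z a ∈ range (Lam (m a) (p a) (l a)) ∧
    ∃ y, Mor (Fl (m a) (p a) (l a)) (Lam (m a) (p a) (l a)) y) →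
  RPT fun a => MvPolynomial.eval (cpv (Fl (m a) (p a) (l a)) (z a)) (h a)

def PathU : Prop := ∀ (α : Type) [RE α] (σ : α → Type) [∀ a, Fintype (σ a)]
  [∀ a, DecidableEq (σ a)] (m : α → ℕ) (p : ∀ a, MvPolynomial (σ a) ℂ), Sz σ m →
  (∀ a, (p a).totalDegree < m a) → (RPT fun a => up (p a)) → (RPT fun a => ls (m a) (p a)) ∧
    ∀ l : α → ℝ, RPT l → RPT fun a => trk (m a) (p a) (l a)

def IniU : Prop := ∀ (α : Type) [RE α] (σ : α → Type) [∀ a, Fintype (σ a)] (m : α → ℕ), Sz σ m →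
  (RPT fun a => up (p0 (σ a) (m a))) ∧ (RPT fun a => iniT (Fintype.card (σ a)) (m a)) ∧
    ∀ b, RPT fun a => iniM (Fintype.card (σ a)) (m a) b

def LabU : Prop := ∀ (α : Type) [RE α] (σ : α → Type) [∀ a, Fintype (σ a)] [∀ a, DecidableEq (σ a)]
  (m n d : α → ℕ) (P : ∀ a, Fin (n a) → MvPolynomial (σ a) ℝ), Sz σ m →
  (∀ a, 2 * n a * d a < m a ∧ ∀ j, (P a j).totalDegree ≤ d a) →
  (RPT fun a => List.ofFn fun j => up (P a j)) →
  (RPT fun a => up (cx' (sq (P a)))) ∧ (RPT fun a => typ (Le (m a) (P a))) ∧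
    RPT fun a => labs (m a) (P a)

def FmU : Prop := ∃ f : List ℕ × List SignType → Bool, PT f ∧ ∀ (s : ℕ) (φ : Fm s)
  (x : Fin s → SignType), f (φ.code, List.ofFn x) = true ↔ x ∈ φ.set

def InpU : Prop := ∀ (α : Type) [RE α] (k s d : α → ℕ)
  (P : ∀ a, Fin (s a) → MvPolynomial (Fin (k a)) ℝ), RPT k → RPT s → RPT d → RPB k → RPB d →
  (RPB fun a => (d a + 1) ^ k a) → (∀ a j, (P a j).totalDegree ≤ d a) →
  (RPT fun a => coeffs (d a) (P a)) →
  RPT fun a => List.ofFn fun j => MvPolynomial.rename Fin.val (P a j)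

def BigU : Prop := ∀ (α : Type) [RE α] (σ : α → Type) (K N M r d : α → ℕ) (j : ∀ a, σ a → ℕ)
  (p : ∀ a, Fin (N a) → Fin (M a) → MvPolynomial (σ a) ℝ), RPT K → RPB K → RPT r → RPB r → RPT M →
  RPB d → (∀ a i, j a i < K a) → (∀ a x y, (p a x y).totalDegree ≤ d a) →
  (RPB fun a => M a ^ r a) → (RPB fun a => (2 * (N a + d a + 1) + 1) ^ (K a + 2 * r a)) →
  (RPT fun a => List.ofFn fun x => List.ofFn fun y => MvPolynomial.rename (j a) (p a x y)) →
  RPT fun a => List.ofFn fun n : Fin (M a ^ r a) =>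
    MvPolynomial.rename (jB (K a) (r a) (j a)) (big (p a) (finFunctionFinEquiv.symm n))

end Pool.Agent.Lib.MP_837412_lc
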