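import Pool.Agent.Lib.MP_837412_lc.StC

/-!
The pencil of polynomials and the algebra of its critical values.
-/

namespace Pool.Agent.Lib.MP_837412_lc

open Set Function Filter Topology MvPolynomial

section Defs

variable {σ : Type} [Fintype σ] {𝕜 : Type} [RCLike 𝕜]

/-- Distinct powers of two. -/
noncomputable def bb (i : σ) : ℕ := 2 ^ (Fintype.equivFin σ i : ℕ)

/-- The start of the pencil. -/
noncomputable def F0 (σ : Type) [Fintype σ] (𝕜 : Type) [RCLike 𝕜] (m : ℕ) : MvPolynomial σ 𝕜 :=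
  ∑ i, (X i ^ (m + 1) - C (((m + 1) * bb i ^ m : ℕ) : 𝕜) * X i) +
    C ((1 + (m + 1) * ∑ i : σ, bb i ^ (m + 1) : ℕ) : 𝕜)

/-- The pencil. -/
noncomputable def Fl (m : ℕ) (p : MvPolynomial σ 𝕜) (l : 𝕜) : MvPolynomial σ 𝕜 :=
  F0 σ 𝕜 m - C l * p

/-- Critical points. -/
def Crit (G : MvPolynomial σ 𝕜) (x : σ → 𝕜) : Prop := ∀ i, eval x (pderiv i G) = 0

/-- The Hessian matrix. -/
noncomputable def Hess (G : MvPolynomial σ 𝕜) (x : σ → 𝕜) : Matrix σ σ 𝕜 :=
  Matrix.of fun i j => eval x (pderiv i (pderiv j G))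

/-- The square of the length of the gradient. -/
noncomputable def n2 (G : MvPolynomial σ 𝕜) (x : σ → 𝕜) : ℝ := ∑ i, ‖eval x (pderiv i G)‖ ^ 2

/-- The right hand sides of the equations for the critical points. -/
noncomputable def qq (m : ℕ) (p : MvPolynomial σ 𝕜) (l : 𝕜) (i : σ) : MvPolynomial σ 𝕜 :=
  C ((bb i ^ m : ℕ) : 𝕜) + C (l / (m + 1 : ℕ)) * pderiv i p

/-- Standard monomials. -/
abbrev Std (σ : Type) (m : ℕ) : Type := σ → Fin m

/-- The exponent vector of a standard monomial. -/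
noncomputable def toF {m : ℕ} (a : Std σ m) : σ →₀ ℕ :=
  Finsupp.equivFunOnFinite.symm fun i => (a i : ℕ)

/-- The first variable with a large exponent. -/
noncomputable def pk {m : ℕ} {β : σ →₀ ℕ} (h : ∃ i, m ≤ β i) : σ :=
  Function.argminOn (fun i => (Fintype.equivFin σ i : ℕ)) {i | m ≤ β i} h

lemma pk_spec {m : ℕ} {β : σ →₀ ℕ} (h : ∃ i, m ≤ β i) : m ≤ β (pk h) :=
  Function.argminOn_mem (fun i => (Fintype.equivFin σ i : ℕ)) {i | m ≤ β i} h

lemma pk_le {m : ℕ} {β : σ →₀ ℕ} (h : ∃ i, m ≤ β i) {i : σ} (hi : m ≤ β i) :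
    (Fintype.equivFin σ (pk h) : ℕ) ≤ Fintype.equivFin σ i :=
  Function.argminOn_le (fun i => (Fintype.equivFin σ i : ℕ)) {i | m ≤ β i} hi

open Classical in
/-- Normal forms of monomials for the rules `X i ^ m = q i`, with a bound on the number of steps. -/
noncomputable def NF (m : ℕ) (q : σ → MvPolynomial σ ℂ) : ℕ → (σ →₀ ℕ) → Std σ m → ℂ
  | 0, β => fun a => if β = toF a then 1 else 0
  | n + 1, β => if h : ∃ i, m ≤ β i then fun a => ∑ γ ∈ (q (pk h)).support,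
      coeff γ (q (pk h)) * NF m q n (β - Finsupp.single (pk h) m + γ) a
    else fun a => if β = toF a then 1 else 0

/-- The number of steps. -/
def Kf (σ : Type) [Fintype σ] (m : ℕ) : ℕ := (Fintype.card σ + 1) * (m + 1)

/-- A bound for all sizes. -/
def sz (σ : Type) [Fintype σ] (m : ℕ) : ℕ := (Kf σ m + 1) ^ (2 * Fintype.card σ + 2)

/-- The matrix of multiplication by `h`. -/
noncomputable def MM (m : ℕ) (q : σ → MvPolynomial σ ℂ) (h : MvPolynomial σ ℂ) :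
    Matrix (Std σ m) (Std σ m) ℂ :=
  Matrix.of fun a b => ∑ g ∈ h.support, coeff g h * NF m q (Kf σ m) (toF a + g) b

/-- The eigenvalues of a matrix. -/
noncomputable def lam {ι : Type} [Fintype ι] [DecidableEq ι] (M : Matrix ι ι ℂ) : ι → ℂ :=
  (exists_chi M.charpoly_monic M.charpoly_natDegree_eq_dim).choose

lemma chi_lam {ι : Type} [Fintype ι] [DecidableEq ι] (M : Matrix ι ι ℂ) :
    chi (lam M) = M.charpoly := (exists_chi M.charpoly_monic M.charpoly_natDegree_eq_dim).choose_spec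

/-- The candidates for the critical values. -/
noncomputable def Lam [DecidableEq σ] (m : ℕ) (p : MvPolynomial σ ℂ) (l : ℂ) : Std σ m → ℂ :=
  lam (MM m (qq m p l) (Fl m p l))

/-- All candidates are critical values. -/
def Pv [DecidableEq σ] (m : ℕ) (p : MvPolynomial σ ℂ) (l : ℂ) : Prop :=
  ∃ x : Std σ m → σ → ℂ, ∀ a, Crit (Fl m p l) (x a) ∧ eval (x a) (Fl m p l) = Lam m p l a

/-- A Morse polynomial with the list of its critical values and points. -/
structure Mor [DecidableEq σ] {ι : Type} (G : MvPolynomial σ ℂ) (c : ι → ℂ) (x : ι → σ → ℂ) :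
    Prop where
  inj : Injective c
  crit : ∀ a, Crit G (x a)
  val : ∀ a, eval (x a) G = c a
  all : ∀ y, Crit G y → ∃ a, y = x a
  hess : ∀ a, (Hess G (x a)).det ≠ 0

open Classical in
/-- A critical point with the given value. -/
noncomputable def cpv (G : MvPolynomial σ ℂ) (z : ℂ) : σ → ℂ :=
  if h : ∃ y, Crit G y ∧ eval y G = z then h.choose else 0

lemma Mor.cpv [DecidableEq σ] {ι : Type} {G : MvPolynomial σ ℂ} {c : ι → ℂ} {x : ι → σ → ℂ}
    (h : Mor G c x) (a : ι) : cpv G (c a) = x a := by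
  have e : ∃ y, Crit G y ∧ eval y G = c a := ⟨x a, h.crit a, h.val a⟩
  rw [MP_837412_lc.cpv, dif_pos e]
  obtain ⟨b, hb⟩ := h.all _ e.choose_spec.1
  have := e.choose_spec.2
  rw [hb] at this ⊢
  rw [h.inj ((h.val b).symm.trans this)]

/-- Complexification. -/
noncomputable abbrev cx' (p : MvPolynomial σ ℝ) : MvPolynomial σ ℂ := map (algebraMap ℝ ℂ) p

/-- The set where the polynomials have the given signs. -/
def cell {τ : Type} (p : τ → MvPolynomial σ ℝ) (π : τ → SignType) : Set (σ → ℝ) :=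
  {y | ∀ j, SignType.sign (eval y (p j)) = π j}

omit [Fintype σ] in
lemma pderiv_comm {R : Type} [CommRing R] (i j : σ) (G : MvPolynomial σ R) :
    pderiv i (pderiv j G) = pderiv j (pderiv i G) := by
  classical
  induction G using MvPolynomial.induction_on with
  | C a => simp
  | add p q a b => simp [a, b]
  | mul_X p n a =>
    simp only [Derivation.leibniz, map_add, smul_eq_mul, a, pderiv_X, Pi.single_apply]
    split_ifs <;> simp <;> ring

omit [Fintype σ] in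
lemma hess_symm (G : MvPolynomial σ 𝕜) (x : σ → 𝕜) : (Hess G x).IsSymm := by
  ext i j; simp [Hess, pderiv_comm i j]

lemma pderiv_Fl (m : ℕ) (p : MvPolynomial σ 𝕜) (l : 𝕜) (i : σ) :
    pderiv i (Fl m p l) = C ((m + 1 : ℕ) : 𝕜) * (X i ^ m - qq m p l i) := by
  classical
  have h : ((m + 1 : ℕ) : 𝕜) ≠ 0 := Nat.cast_ne_zero.2 m.succ_ne_zero
  have e : pderiv i (F0 σ 𝕜 m) =
      C ((m + 1 : ℕ) : 𝕜) * X i ^ m - C (((m + 1) * bb i ^ m : ℕ) : 𝕜) := by
    rw [F0, map_add, pderiv_C, add_zero, map_sum, Finset.sum_eq_single i]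
    · rw [map_sub, pderiv_C_mul, pderiv_pow, pderiv_X_self]; simp
    · intro j _ hj
      rw [map_sub, pderiv_C_mul, pderiv_pow, pderiv_X_of_ne hj]; simp
    · simp
  rw [Fl, map_sub, e, pderiv_C_mul, qq, mul_sub, mul_add, ← mul_assoc, ← C_mul, ← C_mul,
    mul_div_cancel₀ _ h, Nat.cast_mul, sub_sub]

omit [Fintype σ] in
lemma totalDegree_pderiv_le {R : Type} [CommRing R] (i : σ) (p : MvPolynomial σ R) :
    (pderiv i p).totalDegree ≤ p.totalDegree := by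
  classical
  conv_lhs => rw [p.as_sum, map_sum]
  refine totalDegree_finsetSum_le fun s hs => ?_
  rw [pderiv_monomial]
  refine (totalDegree_monomial_le _ _).trans (le_trans ?_ (le_totalDegree hs))
  exact Finsupp.sum_le_sum_index tsub_le_self (fun _ _ => monotone_id) fun _ _ => rfl

lemma deg_qq {m : ℕ} {p : MvPolynomial σ 𝕜} (h : p.totalDegree < m) (l : 𝕜) (i : σ) :
    (qq m p l i).totalDegree < m := by
  refine (totalDegree_add _ _).trans_lt (max_lt (by rw [totalDegree_C]; omega) ?_)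
  exact (totalDegree_mul _ _).trans_lt (by
    rw [totalDegree_C, zero_add]; exact (totalDegree_pderiv_le i p).trans_lt h)

lemma deg_F0 (m : ℕ) : (F0 σ 𝕜 m).totalDegree ≤ m + 1 := by
  refine (totalDegree_add _ _).trans (max_le (totalDegree_finsetSum_le fun i _ => ?_)
    (by rw [totalDegree_C]; omega))
  refine (totalDegree_sub _ _).trans (max_le (totalDegree_X_pow _ _).le ?_)
  exact (totalDegree_mul _ _).trans (by rw [totalDegree_C, totalDegree_X]; omega)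

lemma deg_Fl {m : ℕ} {p : MvPolynomial σ 𝕜} (h : p.totalDegree < m) (l : 𝕜) :
    (Fl m p l).totalDegree ≤ m + 1 :=
  (totalDegree_sub _ _).trans (max_le (deg_F0 m)
    ((totalDegree_mul _ _).trans (by rw [totalDegree_C]; omega)))

lemma Fl_zero (m : ℕ) (p : MvPolynomial σ 𝕜) : Fl m p 0 = F0 σ 𝕜 m := by simp [Fl]

lemma Lam_zero [DecidableEq σ] (m : ℕ) (p p' : MvPolynomial σ ℂ) : Lam m p 0 = Lam m p' 0 := by
  have : qq m p 0 = qq m p' 0 := by ext1 i; simp [qq]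
  rw [Lam, Lam, this, Fl_zero, Fl_zero]

lemma cx_Fl (m : ℕ) (p : MvPolynomial σ ℝ) (l : ℝ) : cx' (Fl m p l) = Fl m (cx' p) (l : ℂ) := by
  simp [Fl, F0, cx']

lemma eval_Fl (m : ℕ) (p : MvPolynomial σ 𝕜) (l : 𝕜) (y : σ → 𝕜) :
    eval y (Fl m p l) = eval y (F0 σ 𝕜 m) - l * eval y p := by simp [Fl]

omit [Fintype σ] in
lemma eval_cx (p : MvPolynomial σ ℝ) (y : σ → ℝ) :
    eval (fun i => (y i : ℂ)) (cx' p) = ((eval y p : ℝ) : ℂ) := by
  induction p using MvPolynomial.induction_on <;> simp_all [cx']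

omit [Fintype σ] in
lemma eval_cx_conj (p : MvPolynomial σ ℝ) (y : σ → ℂ) :
    eval (fun i => (starRingEnd ℂ) (y i)) (cx' p) = (starRingEnd ℂ) (eval y (cx' p)) := by
  induction p using MvPolynomial.induction_on <;> simp_all [cx']

omit [Fintype σ] in
lemma pderiv_cx (p : MvPolynomial σ ℝ) (i : σ) : pderiv i (cx' p) = cx' (pderiv i p) := pderiv_map

lemma n2_eq_zero {G : MvPolynomial σ 𝕜} {x : σ → 𝕜} : n2 G x = 0 ↔ Crit G x := by
  simp [n2, Crit, Finset.sum_eq_zero_iff_of_nonneg]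

lemma n2_nonneg (G : MvPolynomial σ 𝕜) (x : σ → 𝕜) : 0 ≤ n2 G x := by unfold n2; positivity

lemma continuous_n2 (G : MvPolynomial σ 𝕜) : Continuous (n2 G) :=
  continuous_finsetSum _ fun _ _ => (MvPolynomial.continuous_eval _).norm.pow 2

/-- The differential. -/
noncomputable def dif (G : MvPolynomial σ 𝕜) (x : σ → 𝕜) : (σ → 𝕜) →L[𝕜] 𝕜 :=
  ∑ i, eval x (pderiv i G) • ContinuousLinearMap.proj (R := 𝕜) (φ := fun _ : σ => 𝕜) i

lemma dif_apply (G : MvPolynomial σ 𝕜) (x v : σ → 𝕜) :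
    dif G x v = ∑ i, eval x (pderiv i G) * v i := by simp [dif]

lemma hasStrictFDerivAt_eval (G : MvPolynomial σ 𝕜) (x : σ → 𝕜) :
    HasStrictFDerivAt (fun y => eval y G) (dif G x) x := by
  classical
  induction G using MvPolynomial.induction_on with
  | C a =>
    simp only [eval_C]
    exact (hasStrictFDerivAt_const (𝕜 := 𝕜) a x).congr_fderiv (by ext v; simp [dif_apply])
  | add p q a b =>
    simp only [map_add]
    exact (a.add b).congr_fderiv (by ext v; simp [dif_apply, add_mul, Finset.sum_add_distrib])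
  | mul_X p n a =>
    simp only [map_mul, eval_X]
    refine (a.mul (hasStrictFDerivAt_apply (𝕜 := 𝕜) n x)).congr_fderiv ?_
    ext v
    simp [dif_apply, add_mul, Finset.sum_add_distrib, pderiv_X, Pi.single_apply, Finset.mul_sum,
      apply_ite, mul_assoc]

lemma contDiff_eval (G : MvPolynomial σ 𝕜) {n : WithTop ℕ∞} : ContDiff 𝕜 n fun y => eval y G := by
  induction G using MvPolynomial.induction_on with
  | C a => simpa using contDiff_const
  | add p q a b => simpa using a.add b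
  | mul_X p n a => simpa using a.mul (contDiff_apply 𝕜 𝕜 n)

lemma contDiff_re (w : 𝕜) (G : MvPolynomial σ 𝕜) {n : WithTop ℕ∞} :
    ContDiff ℝ n fun y : σ → 𝕜 => RCLike.re (w * eval y G) :=
  RCLike.reCLM.contDiff.comp (contDiff_const.mul ((contDiff_eval G).restrict_scalars ℝ))

lemma fderiv_re (w : 𝕜) (G : MvPolynomial σ 𝕜) (x v : σ → 𝕜) :
    fderiv ℝ (fun y : σ → 𝕜 => RCLike.re (w * eval y G)) x v =
      RCLike.re (w * ∑ i, eval x (pderiv i G) * v i) := by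
  have := (RCLike.reCLM (K := 𝕜)).hasFDerivAt.comp x
    (((hasStrictFDerivAt_eval G x).hasFDerivAt.const_mul w).restrictScalars ℝ)
  refine (congrArg (· v) this.fderiv).trans ?_
  simp [dif_apply]

lemma fderiv2_re (w : 𝕜) (G : MvPolynomial σ 𝕜) (x u v : σ → 𝕜) :
    fderiv ℝ (fderiv ℝ fun y : σ → 𝕜 => RCLike.re (w * eval y G)) x u v =
      RCLike.re (w * ∑ i, ∑ j, Hess G x i j * (u i * v j)) := by
  have d : DifferentiableAt ℝ (fderiv ℝ fun y : σ → 𝕜 => RCLike.re (w * eval y G)) x :=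
    (((contDiff_re w G (n := 2)).fderiv_right (m := 1) le_rfl).differentiable one_ne_zero) x
  have e := fderiv_clm_apply d (differentiableAt_const v)
  simp only [fderiv_re] at e
  have e2 := fderiv_re w (∑ j, C (v j) * pderiv j G) x u
  simp only [map_sum, map_mul, eval_C, pderiv_C_mul, mul_comm (v _)] at e2
  rw [e] at e2
  simp only [fderiv_fun_const, Pi.zero_apply, ContinuousLinearMap.comp_zero, zero_add,
    ContinuousLinearMap.flip_apply] at e2
  rw [e2]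
  simp only [Finset.sum_mul, Hess, Matrix.of_apply, mul_assoc, mul_comm (v _)]

end Defs

def EigS : Prop := ∀ (ι : Type) [Fintype ι] [DecidableEq ι] (M : Matrix ι ι ℂ) (z : ℂ) (v : ι → ℂ),
  M.mulVec v = z • v → v ≠ 0 → z ∈ range (lam M) ∧
    (Injective (lam M) → ∀ w, M.mulVec w = z • w → ∃ t : ℂ, w = t • v)

def TrS : Prop := ∀ (ι : Type) [Fintype ι] [DecidableEq ι] (M : Matrix ι ι ℂ) (j : ℕ),
  ps (lam M) j = (M ^ j).trace

def NFS : Prop := ∀ (σ : Type) [Fintype σ] [DecidableEq σ] (m : ℕ) (q : σ → MvPolynomial σ ℂ)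
  (h : MvPolynomial σ ℂ) (ℓ : MvPolynomial σ ℂ →ₗ[ℂ] ℂ), (∀ i, (q i).totalDegree < m) →
  h.totalDegree ≤ m + 1 → (∀ i (g : MvPolynomial σ ℂ), ℓ (g * (X i ^ m - q i)) = 0) →
  (MM m q h).mulVec (fun b => ℓ (monomial (toF b) 1)) = fun a => ℓ (h * monomial (toF a) 1)

def CritS : Prop := ∀ (σ : Type) [Fintype σ] [DecidableEq σ] (m : ℕ) (p : MvPolynomial σ ℂ) (l : ℂ),
  2 ≤ m → p.totalDegree < m → ∀ x, Crit (Fl m p l) x → eval x (Fl m p l) ∈ range (Lam m p l) ∧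
    (Injective (Lam m p l) → (Hess (Fl m p l) x).det ≠ 0 ∧
      ∀ y, Crit (Fl m p l) y → eval y (Fl m p l) = eval x (Fl m p l) → y = x)

def ZeroS : Prop := ∀ (σ : Type) [Fintype σ] [DecidableEq σ] (m : ℕ) (p : MvPolynomial σ ℂ),
  2 ≤ m → p.totalDegree < m → Pv m p 0 ∧ Qv (Lam m p 0) ≠ 0

def TameS : Prop := ∀ (σ 𝕜 : Type) [Fintype σ] [RCLike 𝕜] (m : ℕ) (p : MvPolynomial σ 𝕜) (Λ : ℝ),
  p.totalDegree < m → ∃ R : ℝ, ∀ l : 𝕜, ‖l‖ ≤ Λ → ∀ y : σ → 𝕜, R ≤ ‖y‖ →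
    1 ≤ n2 (Fl m p l) y ∧ ‖eval y p‖ ^ 2 ≤ n2 (Fl m p l) y

def GrowS : Prop := ∀ (σ : Type) [Fintype σ] (m : ℕ) (p : MvPolynomial σ ℝ), Odd m →
  p.totalDegree < m → (∀ y, 0 < eval y (F0 σ ℝ m)) ∧
    ∀ l b : ℝ, IsCompact {y | eval y (Fl m p l) ≤ b}

def LamP : Prop := ∀ (σ : Type) [Fintype σ] [DecidableEq σ] (m : ℕ) (p : MvPolynomial σ ℂ),
  PP id (Kf σ m + 1) (Lam m p)

def OpenS : Prop := ∀ (σ : Type) [Fintype σ] [DecidableEq σ] (m : ℕ) (p : MvPolynomial σ ℂ)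
  (l₀ : ℂ), 2 ≤ m → p.totalDegree < m → Pv m p l₀ → Injective (Lam m p l₀) →
  ∀ᶠ l in 𝓝 l₀, Pv m p l

def ClosedS : Prop := ∀ (σ : Type) [Fintype σ] [DecidableEq σ] (m : ℕ) (p : MvPolynomial σ ℂ),
  p.totalDegree < m → IsClosed {l | Pv m p l}

def RurS : Prop := ∀ (σ : Type) [Fintype σ] [DecidableEq σ] (m : ℕ) (p h : MvPolynomial σ ℂ) (l : ℂ)
  (x : Std σ m → σ → ℂ) (g : Polynomial ℂ), p.totalDegree < m → h.totalDegree ≤ m + 1 →
  Mor (Fl m p l) (Lam m p l) x → ∀ n, g.natDegree < n →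
  ∑ a, eval (x a) h * g.eval (Lam m p l a) = ∑ j ∈ Finset.range n,
    g.coeff j * (MM m (qq m p l) h * MM m (qq m p l) (Fl m p l) ^ j).trace

def FlA : Prop := ∀ (α σ : Type) [Fintype σ] (B : ℕ) [Fact (2 ≤ B)] (Γ : Ctx α) (e m : ℕ)
  (p : α → MvPolynomial σ ℂ) (l : α → ℂ), sz σ m ≤ B → Dm Γ m p → AM B Γ e p → A B Γ e l →
  AM B Γ (e + 80) (fun x => Fl m (p x) (l x)) ∧ ∀ i, AM B Γ (e + 80) fun x => qq m (p x) (l x) i

def MMA : Prop := ∀ (α σ : Type) [Fintype σ] [DecidableEq σ] (B : ℕ) [Fact (2 ≤ B)] (Γ : Ctx α)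
  (e m : ℕ) (q : α → σ → MvPolynomial σ ℂ) (h : α → MvPolynomial σ ℂ), sz σ m ≤ B →
  (∀ x ∈ Γ.Y, ∀ i, (q x i).totalDegree < m) → Dm Γ (m + 1) h → (∀ i, AM B Γ e fun x => q x i) →
  AM B Γ e h → ∀ a b, A B Γ (e + 40) fun x => MM m (q x) (h x) a b

def MatA : Prop := ∀ (α ι : Type) [Fintype ι] [DecidableEq ι] (B : ℕ) [Fact (2 ≤ B)] (Γ : Ctx α)
  (e j : ℕ) (M N : α → Matrix ι ι ℂ), Fintype.card ι ^ 2 ≤ B → j ≤ B →
  (∀ a b, A B Γ e fun x => M x a b) → (∀ a b, A B Γ e fun x => N x a b) →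
  A B Γ (e + 40) fun x => (N x * M x ^ j).trace

def LamA : Prop := ∀ (α σ : Type) [Fintype σ] [DecidableEq σ] (B : ℕ) [Fact (2 ≤ B)] (Γ : Ctx α)
  (e m J : ℕ) (p : α → MvPolynomial σ ℂ) (l : α → ℂ), sz σ m ≤ B → J ≤ B →
  (∀ x ∈ Γ.Y, (p x).totalDegree < m) → AM B Γ e p → A B Γ e l →
  PA B Γ (e + 170) J fun x => Lam m (p x) (l x)

def RurA : Prop := ∀ (α σ : Type) [Fintype σ] [DecidableEq σ] (B : ℕ) [Fact (2 ≤ B)] (Γ : Ctx α)
  (e m : ℕ) (p h : α → MvPolynomial σ ℂ) (l z : α → ℂ), sz σ m ≤ B →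
  (∀ x ∈ Γ.Y, (p x).totalDegree < m) → Dm Γ (m + 1) h → AM B Γ e p → AM B Γ e h → A B Γ e l →
  A B Γ e z → (∀ x ∈ Γ.Y, z x ∈ range (Lam m (p x) (l x)) ∧
    ∃ y, Mor (Fl m (p x) (l x)) (Lam m (p x) (l x)) y) →
  A B Γ (e + 300) fun x => eval (cpv (Fl m (p x) (l x)) (z x)) (h x)

def CountS : Prop := ∀ (σ τ : Type) [Fintype σ] [Fintype τ] (d : ℕ) (p : τ → MvPolynomial σ ℝ),
  (∀ j, (p j).totalDegree ≤ d) → {π : τ → SignType | (∀ j, π j ≠ 0) ∧ (cell p π).Nonempty}.ncard ≤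
    (2 * Fintype.card τ * d + 3) ^ Fintype.card σ

end Pool.Agent.Lib.MP_837412_lc
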