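import Pool.Agent.Lib.MP_837412_lc.C2
import Pool.Agent.Lib.MP_837412_lc.Defs

/-!
Statements about trees, signatures, real roots and order types.
-/

namespace Pool.Agent.Lib.MP_837412_lc

open Set Polynomial Function Filter Topology

def TreeS : Prop := ∀ (α ι : Type) (inp : α → ι → ℝ) (Y : Set α) (f : α → List ℕ) (L : ℕ),
  Cp true (fun Δ => ∀ x ∈ Δ.Y, ∀ y ∈ Δ.Y, f x = f y) ⟨Y, range fun j x => inp x j⟩ L →
  ∃ T : Tree ι, T.depth ≤ 10 * L ∧ ∀ x ∈ Y, T.run (inp x) [] = f x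

/-- The signature of a matrix. -/
noncomputable def sig {ι : Type} [Fintype ι] [DecidableEq ι] (H : Matrix ι ι ℝ) : ℕ × ℕ :=
  (sigPos H.toQuadraticForm', sigNeg H.toQuadraticForm')

def SigRepS : Prop := ∀ (M ι : Type) [AddCommGroup M] [Module ℝ M] [FiniteDimensional ℝ M]
  [Fintype ι] (Q : QuadraticForm ℝ M) (L : M →ₗ[ℝ] ι → ℝ) (w : ι → ℝ), Surjective L →
  (∀ v, Q v = ∑ i, w i * L v i ^ 2) →
  sigPos Q = {i | 0 < w i}.ncard ∧ sigNeg Q = {i | w i < 0}.ncard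

def SigS : Prop := ∀ (α ι : Type) [Fintype ι] [DecidableEq ι] (B : ℕ) [Fact (2 ≤ B)] (Γ : Ctx α)
  (e : ℕ) (H : α → Matrix ι ι ℝ), Fintype.card ι ^ 2 < B → (∀ x ∈ Γ.Y, (H x).IsSymm) →
  (∀ i j, A B Γ e fun x => H x i j) → D B Γ (e + 60) fun x y => sig (H x) = sig (H y)

/-- The Tarski query. -/
noncomputable def taq (p q : ℝ[X]) : ℤ :=
  ∑ t ∈ p.roots.toFinset, (SignType.sign (q.eval t) : ℤ)

/-- The matrix of Hermite. -/
noncomputable def herm {ι : Type} [Fintype ι] (c : ι → ℂ) (q : ℝ[X]) (n : ℕ) :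
    Matrix (Fin n) (Fin n) ℝ :=
  Matrix.of fun a b => (∑ i, aeval (c i) q * c i ^ ((a : ℕ) + (b : ℕ))).re

def HermS : Prop := ∀ (ι : Type) [Fintype ι] (c : ι → ℂ) (p q : ℝ[X]) (n : ℕ),
  chi c = p.map (algebraMap ℝ ℂ) → Fintype.card ι ≤ n →
  taq p q = ((sig (herm c q n)).1 : ℤ) - (sig (herm c q n)).2

def TaqS : Prop := ∀ (α : Type) (B : ℕ) [Fact (2 ≤ B)] (Γ : Ctx α) (e n : ℕ) (p q : α → ℝ[X]),
  (n + 2) ^ 2 ≤ B → AP B Γ e p → AP B Γ e q → Dg Γ n p → Dg Γ n q → (∀ x ∈ Γ.Y, p x ≠ 0) →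
  D B Γ (e + 150) fun x y => taq (p x) (q x) = taq (p y) (q y)

/-- The number of real roots with a given vector of signs. -/
noncomputable def cnt {J : Type} (p : ℝ[X]) (q : J → ℝ[X]) (σ : J → SignType) : ℕ :=
  {t | t ∈ p.roots ∧ ∀ j, SignType.sign ((q j).eval t) = σ j}.ncard

def BkrS : Prop := ∀ (α J : Type) [Fintype J] (B : ℕ) [Fact (2 ≤ B)] (Γ : Ctx α) (e n : ℕ)
  (p : α → ℝ[X]) (q : α → J → ℝ[X]), (n + 2) ^ 6 ≤ B → Fintype.card J ≤ n → AP B Γ e p →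
  (∀ j, AP B Γ e fun x => q x j) → Dg Γ n p → (∀ j, Dg Γ n fun x => q x j) →
  (∀ x ∈ Γ.Y, p x ≠ 0) → D B Γ (e + 200) fun x y => cnt (p x) (q x) = cnt (p y) (q y)

def ThomS : Prop := ∀ (p p' : ℝ[X]) (n : ℕ) (a b a' b' : ℝ), p ≠ 0 → p.natDegree ≤ n →
  p'.natDegree ≤ n → p.IsRoot a → p.IsRoot b → a < b →
  (∀ j ≤ n, SignType.sign ((derivative^[j] p).eval a) =
    SignType.sign ((derivative^[j] p').eval a')) →
  (∀ j ≤ n, SignType.sign ((derivative^[j] p).eval b) =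
    SignType.sign ((derivative^[j] p').eval b')) → a' < b'

/-- The number of distinct real roots. -/
noncomputable def nr (p : ℝ[X]) : ℕ := p.roots.toFinset.card

/-- The real roots in increasing order. -/
noncomputable def rt (p : ℝ[X]) (j : ℕ) : ℝ :=
  if h : j < nr p then p.roots.toFinset.orderEmbOfFin rfl ⟨j, h⟩ else 0

section Rt

variable {p : ℝ[X]} {i j : ℕ} {t : ℝ}

lemma nr_le (p : ℝ[X]) : nr p ≤ p.natDegree :=
  (Multiset.toFinset_card_le _).trans (card_roots' p)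

lemma rt_mem (h : j < nr p) : rt p j ∈ p.roots := by
  rw [rt, dif_pos h, ← Multiset.mem_toFinset]
  exact Finset.orderEmbOfFin_mem _ _ _

lemma rt_root (h : j < nr p) : p.eval (rt p j) = 0 := isRoot_of_mem_roots (rt_mem h)

lemma rt_lt_iff (hi : i < nr p) (hj : j < nr p) : rt p i < rt p j ↔ i < j := by
  rw [rt, rt, dif_pos hi, dif_pos hj, OrderEmbedding.lt_iff_lt, Fin.mk_lt_mk]

lemma rt_le_iff (hi : i < nr p) (hj : j < nr p) : rt p i ≤ rt p j ↔ i ≤ j := by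
  rw [← not_lt, rt_lt_iff hj hi, not_lt]

lemma exists_rt (hp : p ≠ 0) (h : p.eval t = 0) : ∃ j < nr p, rt p j = t := by
  have : t ∈ range (p.roots.toFinset.orderEmbOfFin rfl) := by
    rw [Finset.range_orderEmbOfFin]; simpa [hp] using h
  obtain ⟨j, rfl⟩ := this
  exact ⟨j, j.2, dif_pos j.2⟩

end Rt

def SignAtS : Prop := ∀ (α : Type) (B : ℕ) [Fact (2 ≤ B)] (Γ : Ctx α) (e n : ℕ)
  (p q : α → ℝ[X]), (n + 4) ^ 6 ≤ B → AP B Γ e p → AP B Γ e q → Dg Γ n p → Dg Γ n q →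
  (∀ x ∈ Γ.Y, p x ≠ 0) → D B Γ (e + 250) fun x y => nr (p x) = nr (p y) ∧ ∀ j < nr (p x),
    SignType.sign ((q x).eval (rt (p x) j)) = SignType.sign ((q y).eval (rt (p y) j))

def ModS : Prop := ∀ (α : Type) (B : ℕ) [Fact (2 ≤ B)] (Γ : Ctx α) (e n k : ℕ) (p q : α → ℝ[X]),
  n + 1 < B → AP B Γ e p → AP B Γ e q → (∀ x ∈ Γ.Y, (p x).Monic ∧ (p x).natDegree = k) →
  Dg Γ n p → Dg Γ n q → AP B Γ (e + 30) fun x => q x %ₘ p x

def AdjS : Prop := ∀ (α : Type) (B : ℕ) [Fact (2 ≤ B)] (Γ : Ctx α) (e e' n j : ℕ) (p : α → ℝ[X])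
  (r : α → α → Prop), (2 * n + 4) ^ 6 ≤ B → AP B Γ e p → Dg Γ n p →
  (∀ x ∈ Γ.Y, p x ≠ 0 ∧ j < nr (p x)) →
  (∀ Δ, Γ ≤ Δ → A B Δ 0 (fun x => rt (p x) j) → D B Δ e' r) → D B Γ (e + e' + 400) r

section Ord

variable {ι : Type}

/-- The orders of the real parts and of the imaginary parts agree. -/
def Iso (c c' : ι → ℂ) : Prop := ∀ i j, ((c i).re ≤ (c j).re ↔ (c' i).re ≤ (c' j).re) ∧
  ((c i).im ≤ (c j).im ↔ (c' i).im ≤ (c' j).im)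

/-- The same order type. -/
def Sim (c c' : ι → ℂ) : Prop := ∃ e : Equiv.Perm ι, Iso c (c' ∘ e)

/-- Strict inequalities for `c₀` hold for `c`. -/
def Dn (c₀ c : ι → ℂ) : Prop := ∀ i j, ((c₀ i).re < (c₀ j).re → (c i).re < (c j).re) ∧
  ((c₀ i).im < (c₀ j).im → (c i).im < (c j).im)

variable {a b c : ι → ℂ}

lemma Iso.refl (c : ι → ℂ) : Iso c c := fun _ _ => ⟨Iff.rfl, Iff.rfl⟩

lemma Iso.symm (h : Iso a b) : Iso b a := fun i j => ⟨(h i j).1.symm, (h i j).2.symm⟩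

lemma Iso.trans (h : Iso a b) (h' : Iso b c) : Iso a c :=
  fun i j => ⟨(h i j).1.trans (h' i j).1, (h i j).2.trans (h' i j).2⟩

lemma Iso.comp {κ : Type} (h : Iso a b) (e : κ → ι) : Iso (a ∘ e) (b ∘ e) := fun _ _ => h _ _

lemma Iso.re_lt (h : Iso a b) (i j : ι) : (a i).re < (a j).re ↔ (b i).re < (b j).re := by
  rw [← not_le, ← not_le, (h j i).1]

lemma Iso.im_lt (h : Iso a b) (i j : ι) : (a i).im < (a j).im ↔ (b i).im < (b j).im := by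
  rw [← not_le, ← not_le, (h j i).2]

lemma Iso.re_eq (h : Iso a b) (i j : ι) : (a i).re = (a j).re ↔ (b i).re = (b j).re := by
  rw [le_antisymm_iff, le_antisymm_iff, (h j i).1, (h i j).1]

lemma Iso.im_eq (h : Iso a b) (i j : ι) : (a i).im = (a j).im ↔ (b i).im = (b j).im := by
  rw [le_antisymm_iff, le_antisymm_iff, (h j i).2, (h i j).2]

lemma Sim.refl (c : ι → ℂ) : Sim c c := ⟨1, Iso.refl c⟩

lemma Sim.symm (h : Sim a b) : Sim b a :=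
  let ⟨e, h⟩ := h; ⟨e.symm, by simpa [comp_assoc] using (h.comp e.symm).symm⟩

lemma Sim.trans (h : Sim a b) (h' : Sim b c) : Sim a c :=
  let ⟨e, h⟩ := h; let ⟨f, h'⟩ := h'; ⟨e.trans f, h.trans (h'.comp e)⟩

variable [Fintype ι]

/-- Contains the differences of the real parts and of the imaginary parts. -/
noncomputable def Wc (c : ι → ℂ) : (ι × ι) × ι × ι → ℂ :=
  padd (padd c fun i => (starRingEnd ℂ) (c i))
    fun q => (-1) * padd c (fun i => (starRingEnd ℂ) (c i)) q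

/-- The numbers and their differences. -/
noncomputable def Qf (c : ι → ℂ) : ι ⊕ ι × ι → ℂ := Sum.elim c (padd c fun i => (-1) * c i)

/-- Nonzero if and only if the numbers are distinct and nonzero. -/
noncomputable def Qv (c : ι → ℂ) : ℂ := (chi (Qf c)).coeff (Fintype.card ι)

/-- A nonzero real polynomial outside whose roots `f` vanishes only if it is zero. -/
noncomputable def nn (f : ℝ → ℂ) : ℝ[X] := nz (rp (pol f)) * nz (ip (pol f))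

/-- The polynomial of events. -/
noncomputable def ev (c : ℝ → ι → ℂ) : ℝ[X] := X * (X - 1) * nn (fun t => Qv (c t)) *
  ∏ j ∈ Finset.range (Fintype.card ι ^ 4 + 1), nn fun t => (chi (Wc (c t))).coeff j

/-- What is determined at one parameter. -/
def SimI (c c' : ι → ℂ) : Prop := (Qv c = 0 ↔ Qv c' = 0) ∧ (Injective c → Injective c' → Sim c c')

/-- The same sequence of events. -/
def Tr (c c' : ℝ → ι → ℂ) : Prop := nr (ev c) = nr (ev c') ∧ ∀ j < nr (ev c),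
  SignType.sign (rt (ev c) j) = SignType.sign (rt (ev c') j) ∧
  SignType.sign (rt (ev c) j - 1) = SignType.sign (rt (ev c') j - 1) ∧
  SimI (c (rt (ev c) j)) (c' (rt (ev c') j)) ∧ (j + 1 < nr (ev c) →
    SimI (c ((rt (ev c) j + rt (ev c) (j + 1)) / 2)) (c' ((rt (ev c') j + rt (ev c') (j + 1)) / 2)))

end Ord

def TypeS : Prop := ∀ (α ι β : Type) [Fintype ι] (B : ℕ) [Fact (2 ≤ B)] (Γ : Ctx α) (e e' : ℕ)
  (c : α → ι → ℂ) (lab : α → ℂ → β), (2 * Fintype.card ι ^ 2 + 4) ^ 6 ≤ B →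
  PA B Γ e (Fintype.card ι ^ 2) c →
  (∀ Δ, Γ ≤ Δ → ∀ z : α → ℂ, A B Δ 0 z → (∀ x ∈ Δ.Y, z x ∈ range (c x)) →
    D B Δ e' fun x y => lab x (z x) = lab y (z y)) →
  D B Γ (e + e' + 1200) fun x y => Injective (c x) → Injective (c y) →
    ∃ π : Equiv.Perm ι, Iso (c x) (c y ∘ π) ∧ ∀ i, lab x (c x i) = lab y (c y (π i))

def QvS : Prop := ∀ (ι : Type) [Fintype ι] (c : ι → ℂ), Qv c ≠ 0 ↔ Injective c ∧ ∀ i, c i ≠ 0

def AutS : Prop := ∀ (ι : Type) [Fintype ι] (a b : ι → ℂ) (e e' : Equiv.Perm ι), Injective b →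
  Iso a (b ∘ e) → Iso a (b ∘ e') → e = e'

def DegS : Prop := ∀ (ι : Type) [Fintype ι] (a₀ a b₀ b : ι → ℂ), Dn a₀ a → Dn b₀ b → Iso a b →
  Sim a₀ b₀ → Iso a₀ b₀

def DnS : Prop := ∀ (ι : Type) [Fintype ι] (c₀ : ι → ℂ), ∃ δ > 0, ∀ c : ι → ℂ,
  (∀ i, ‖c i - c₀ i‖ < δ) → Dn c₀ c ∧ (zc (Wc c) = zc (Wc c₀) → Iso c₀ c)

def NearS : Prop := ∀ (T ι : Type) [TopologicalSpace T] [Fintype ι] (c : T → ι → ℂ) (t₀ : T),
  (∀ j, ContinuousAt (fun t => (chi (c t)).coeff j) t₀) → Injective (c t₀) →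
  ∀ δ > 0, ∀ᶠ t in 𝓝 t₀, ∃ e : Equiv.Perm ι, ∀ i, ‖c t (e i) - c t₀ i‖ < δ

def BndS : Prop := ∀ (T ι : Type) [TopologicalSpace T] [Fintype ι] (c : T → ι → ℂ) (K : Set T),
  IsCompact K → (∀ j, Continuous fun t => (chi (c t)).coeff j) →
  ∃ N : ℝ, ∀ t ∈ K, ∀ i, ‖c t i‖ + 2 < N

def RigS : Prop := ∀ (ι : Type) [Fintype ι] (d : ℕ) (c : ℝ → ι → ℂ), PP Complex.ofReal d c →
  ev c ≠ 0 ∧ (ev c).eval 0 = 0 ∧ (ev c).eval 1 = 0 ∧
  ((∃ t, Qv (c t) ≠ 0) → (∀ t, (ev c).eval t ≠ 0 → Qv (c t) ≠ 0) ∧ ∀ a b : ℝ,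
    (∀ t ∈ Ioo a b, (ev c).eval t ≠ 0) → ∀ s ∈ Ioo a b, ∀ t ∈ Ioo a b, Sim (c s) (c t))

def EvS : Prop := ∀ (ι : Type) [Fintype ι] (d : ℕ) (c c' : ℝ → ι → ℂ), PP Complex.ofReal d c →
  PP Complex.ofReal d c' → Tr c c' → (∀ t ∈ Icc (0 : ℝ) 1, Qv (c t) ≠ 0) →
  (∀ t ∈ Icc (0 : ℝ) 1, Qv (c' t) ≠ 0) ∧ ∀ R : ℝ → ℝ → Prop,
    (∀ a ∈ Icc (0 : ℝ) 1, ∀ b ∈ Icc (0 : ℝ) 1, ∀ a' ∈ Icc (0 : ℝ) 1, ∀ b' ∈ Icc (0 : ℝ) 1,
      (∀ u ∈ Icc (0 : ℝ) 1, Sim (c (a + u * (b - a))) (c' (a' + u * (b' - a')))) →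
      R a a' → R b b') → R 0 0 → R 1 1

def EvA : Prop := ∀ (α ι : Type) [Fintype ι] (B : ℕ) [Fact (2 ≤ B)] (Γ : Ctx α) (e d : ℕ)
  (c : α → ℝ → ι → ℂ), (Fintype.card ι + d + 2) ^ 14 ≤ B →
  (∀ x ∈ Γ.Y, PP Complex.ofReal d (c x)) →
  (∀ Δ, Γ ≤ Δ → ∀ t : α → ℝ, A B Δ 0 t →
    PA B Δ e ((Fintype.card ι + 1) ^ 4) fun x => c x (t x)) →
  AP B Γ (e + 250) (fun x => ev (c x)) ∧ Dg Γ ((Fintype.card ι + d + 2) ^ 13) fun x => ev (c x)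

def TraceS : Prop := ∀ (α ι : Type) [Fintype ι] (B : ℕ) [Fact (2 ≤ B)] (Γ : Ctx α) (e d : ℕ)
  (c : α → ℝ → ι → ℂ), (Fintype.card ι + d + 2) ^ 100 ≤ B →
  (∀ x ∈ Γ.Y, PP Complex.ofReal d (c x)) →
  (∀ Δ, Γ ≤ Δ → ∀ t : α → ℝ, A B Δ 0 t →
    PA B Δ e ((Fintype.card ι + 1) ^ 4) fun x => c x (t x)) →
  D B Γ (e + 3000) fun x y => Tr (c x) (c y)

/-- A bound for the roots that is a rational function of the coefficients. -/
noncomputable def cb (q : ℂ[X]) : ℝ := 1 + ∑ i ∈ Finset.range q.natDegree,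
  (1 + Complex.normSq (q.coeff i) / Complex.normSq q.leadingCoeff)

def CbS : Prop := ∀ q : ℂ[X], 1 ≤ cb q ∧ (q ≠ 0 → ∀ z : ℂ, q.eval z = 0 → ‖z‖ < cb q)

def CbA : Prop := ∀ (α : Type) (B : ℕ) [Fact (2 ≤ B)] (Γ : Ctx α) (e n : ℕ) (q : α → ℂ[X]),
  n < B → AP B Γ e q → Dg Γ n q → (∀ x ∈ Γ.Y, q x ≠ 0) → A B Γ (e + 40) fun x => cb (q x)

/-- Arcs from `0` to `l`. -/
noncomputable def arc (l : ℝ) (η : ℕ) (s : ℝ) : ℂ := l * (s + Complex.I * η * (s * (1 - s)))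

def ArcS : Prop := ∀ (q : ℂ[X]) (n : ℕ) (l : ℝ), q.natDegree ≤ n → l ≠ 0 → q.eval 0 ≠ 0 →
  q.eval (l : ℂ) ≠ 0 → ∃ η ≤ n, ∀ s, q.eval (arc l η s) ≠ 0

end Pool.Agent.Lib.MP_837412_lc
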