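import Pool.Agent.Lib.MP_837412_lc.StA
import Pool.Agent.Lib.MP_837412_lc.HT

/-!
Statements about flows, Morse cells, Lefschetz systems, Smith theory and joins.
-/

namespace Pool.Agent.Lib.MP_837412_lc

open Pool.Agent.Shared.Mod2 Set Function Filter Topology

section Flow

variable {E V : Type} [NormedAddCommGroup E] [NormedSpace ℝ E] [NormedAddCommGroup V]
  [NormedSpace ℝ V]

/-- A field `γ` along which `G` moves in the direction `ζ` with speed `n`. -/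
structure PG (G : E → V) (γ : E → E) (n : E → ℝ) (ζ : V) (M : ℝ) : Prop where
  lip : LocallyLipschitz γ
  lipn : LocallyLipschitz n
  pos : 0 < M
  bd : ∀ x, ‖γ x‖ ^ 2 ≤ M * n x
  der : ∀ x, ∃ L : E →L[ℝ] V, HasFDerivAt G L x ∧ L (γ x) = n x • ζ

/-- Stable under moving in the direction `ζ`. -/
def Mono (ζ : V) (A : Set V) : Prop := ∀ z ∈ A, ∀ t : ℝ, 0 ≤ t → z + t • ζ ∈ A

/-- Admissible pairs. -/
structure Adm (ζ : V) (A B : Set V) : Prop where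
  oA : IsOpen A
  oB : IsOpen B
  sub : B ⊆ A
  mA : Mono ζ A
  mB : Mono ζ B
  ent : ∀ z ∈ A, ∃ t : ℝ, 0 ≤ t ∧ z + t • ζ ∈ B

end Flow

def FlowS : Prop := ∀ (E : Type) [NormedAddCommGroup E] [NormedSpace ℝ E] [FiniteDimensional ℝ E]
  (v : E → E) (L : ℝ), LocallyLipschitz v → (∀ x, ‖v x‖ ≤ L) →
  ∃ Φ : ℝ → E → E, Continuous (uncurry Φ) ∧ (∀ x, Φ 0 x = x) ∧
    (∀ x t, HasDerivAt (fun s => Φ s x) (v (Φ t x)) t) ∧ ∀ s t x, Φ s (Φ t x) = Φ (s + t) x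

def HLS : Prop := ∀ (E V : Type) [NormedAddCommGroup E] [NormedSpace ℝ E] [FiniteDimensional ℝ E]
  [NormedAddCommGroup V] [NormedSpace ℝ V] (G : E → V) (γ : E → E) (n : E → ℝ) (ζ : V)
  (M T κ : ℝ), PG G γ n ζ M → 0 ≤ T → 0 < κ →
  ∃ (H : C(I × E, E)) (s : I → E → ℝ), (∀ x, H (0, x) = x) ∧
    (∀ t x, G (H (t, x)) = G x + s t x • ζ) ∧ (∀ x, s 0 x = 0 ∧ Monotone (s · x) ∧ s 1 x ≤ T) ∧
    (∀ x, (∀ t, κ ≤ n (H (t, x))) → s 1 x = T) ∧ ∀ t x, ‖H (t, x) - x‖ ≤ T * √(M / κ)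

def K1S : Prop := ∀ (E V : Type) [NormedAddCommGroup E] [NormedSpace ℝ E] [FiniteDimensional ℝ E]
  [NormedAddCommGroup V] [NormedSpace ℝ V] (G : E → V) (γ : E → E) (n : E → ℝ) (ζ : V) (M : ℝ)
  (A B : Set V) (S S' : Set E), PG G γ n ζ M → Adm ζ A B → IsOpen S → IsOpen S' → Disjoint S S' →
  G ⁻¹' A ⊆ S ∪ S' → (∀ Z, IsCompact Z → Z ⊆ A \ B → ∃ κ > 0, ∀ y ∈ S, G y ∈ Z → κ ≤ n y) →
  Ac (G ⁻¹' A ∩ S) (G ⁻¹' B ∩ S)

def PGS : Prop := ∀ (E : Type) [NormedAddCommGroup E] [NormedSpace ℝ E] [FiniteDimensional ℝ E]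
  (f : E → ℝ), ContDiff ℝ 2 f → ∃ γ n M, PG f γ n (-1) M ∧ ∀ y, ‖fderiv ℝ f y‖ ^ 2 ≤ n y

def PGC : Prop := ∀ (σ : Type) [Fintype σ] (G : MvPolynomial σ ℂ) (ζ : ℂ), ζ ≠ 0 →
  PG (fun y => MvPolynomial.eval y G)
    (fun y i => ζ * (starRingEnd ℂ) (MvPolynomial.eval y (MvPolynomial.pderiv i G))) (n2 G) ζ
    (‖ζ‖ ^ 2)

def AcS : Prop := ∀ (E : Type) [NormedAddCommGroup E] [NormedSpace ℝ E] [FiniteDimensional ℝ E]
  (f : E → ℝ) (a b : ℝ) (S S' : Set E), ContDiff ℝ 2 f → a ≤ b → IsOpen S → IsOpen S' →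
  Disjoint S S' → {y | f y < b} ⊆ S ∪ S' →
  (∀ b' < b, ∃ κ > 0, ∀ y ∈ S, f y ∈ Icc a b' → κ ≤ ‖fderiv ℝ f y‖) →
  Ac ({y | f y < b} ∩ S) ({y | f y < a} ∩ S)

/-- The shape of a function near a nondegenerate critical point. -/
structure Sad {N P : Type} [NormedAddCommGroup N] [NormedAddCommGroup P] [NormedSpace ℝ P]
    (f : N × P → ℝ) (r : ℝ) : Prop where
  pos : 0 < r
  cvx : ∀ x y, ‖x‖ < r → ‖y‖ < r → ∀ s ∈ Icc (0 : ℝ) 1, f (x, s • y) ≤ max (f (x, 0)) (f (x, y))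
  neg : ∀ x, ‖x‖ < r → x ≠ 0 → f (x, 0) < f 0
  nng : ∀ y, ‖y‖ < r → f 0 ≤ f (0, y)

def MLocS : Prop := ∀ (N P : Type) [NormedAddCommGroup N] [NormedSpace ℝ N] [FiniteDimensional ℝ N]
  [NormedAddCommGroup P] [NormedSpace ℝ P] [FiniteDimensional ℝ P] (f : N × P → ℝ),
  ContDiff ℝ 2 f → fderiv ℝ f 0 = 0 →
  (∀ x, x ≠ 0 → fderiv ℝ (fderiv ℝ f) 0 (x, 0) (x, 0) < 0) →
  (∀ y, y ≠ 0 → 0 < fderiv ℝ (fderiv ℝ f) 0 (0, y) (0, y)) → ∃ r, Sad f r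

def MBoxS : Prop := ∀ (N P : Type) [NormedAddCommGroup N] [NormedSpace ℝ N] [FiniteDimensional ℝ N]
  [NormedAddCommGroup P] [NormedSpace ℝ P] (f : N × P → ℝ) (r r' ε : ℝ), Continuous f → Sad f r →
  0 < r' → r' ≤ r → 0 < ε →
  Cell ({y | f y < f 0} ∪ Metric.ball 0 r' ∩ {y | f y < f 0 + ε}) {y | f y < f 0}
    (Module.finrank ℝ N + 1) ∧
  Ac ({y | f y < f 0} ∪ Metric.ball 0 r ∩ {y | f y < f 0 + ε})
    ({y | f y < f 0} ∪ Metric.ball 0 r' ∩ {y | f y < f 0 + ε})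

def MC0 : Prop := ∀ (N P : Type) [NormedAddCommGroup N] [NormedSpace ℝ N] [FiniteDimensional ℝ N]
  [NormedAddCommGroup P] [NormedSpace ℝ P] [FiniteDimensional ℝ P] (f : N × P → ℝ) (r a b : ℝ),
  ContDiff ℝ 2 f → Sad f r → a < f 0 → f 0 < b →
  (∀ U ∈ 𝓝 (0 : N × P), ∃ κ > 0, ∀ y, f y ∈ Icc a b → y ∉ U → κ ≤ ‖fderiv ℝ f y‖) →
  Cell {y | f y < b} {y | f y < a} (Module.finrank ℝ N + 1)

def MCS : Prop := ∀ (E : Type) [NormedAddCommGroup E] [NormedSpace ℝ E] [FiniteDimensional ℝ E]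
  (f : E → ℝ) (p : E) (a b : ℝ) (Q : QuadraticForm ℝ E), ContDiff ℝ 2 f → fderiv ℝ f p = 0 →
  (∀ v, Q v = fderiv ℝ (fderiv ℝ f) p v v) → Q.radical = ⊥ → a < f p → f p < b →
  (∀ U ∈ 𝓝 p, ∃ κ > 0, ∀ y, f y ∈ Icc a b → y ∉ U → κ ≤ ‖fderiv ℝ f y‖) →
  Cell {y | f y < b} {y | f y < a} (sigNeg Q + 1)

section Lef

variable {E E' ι : Type} [TopologicalSpace E] [TopologicalSpace E']

/-- Lefschetz systems. -/
structure Sys (G : E → ℂ) (c : ι → ℂ) (m : ℕ) : Prop where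
  cont : Continuous G
  inj : Injective c
  ac : ∀ (ζ : ℂ) A B, ζ ≠ 0 → Adm ζ A B → (∀ i, c i ∈ A → c i ∈ B) → Ac (G ⁻¹' A) (G ⁻¹' B)
  cell : ∀ (ζ : ℂ) A B i, ζ ≠ 0 → Adm ζ A B → c i ∈ A → c i ∉ B → (∀ j ≠ i, c j ∈ A → c j ∈ B) →
    Cell (G ⁻¹' A) (G ⁻¹' B) m

/-- After a homeomorphism the functions differ only near the critical values. -/
def Close (δ : ℝ) (G₀ G : E → ℂ) (c₀ : ι → ℂ) : Prop :=
  ∃ f : E ≃ₜ E, ∀ y, G (f y) = G₀ y ∨ ∃ i, ‖G (f y) - c₀ i‖ < δ ∧ ‖G₀ y - c₀ i‖ < δ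

/-- A bound for the critical values. -/
def Bn (N : ℝ) (c : ι → ℂ) : Prop := ∀ i, ‖c i‖ + 2 < N

/-- The upper base set. -/
def AU (N : ℝ) : Set ℂ := {z | N < z.im}

/-- The left base set. -/
def AL (N M : ℝ) : Set ℂ := {z | N < |z.im| ∨ z.re < -M}

/-- The right base set. -/
def AR (N M : ℝ) : Set ℂ := {z | N < |z.im| ∨ M < z.re}

/-- Conjugate functions. -/
def cj {X : Type} (G : X → ℂ) : X → ℂ := fun x => (starRingEnd ℂ) (G x)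

/-- The image of the homology over `A` in the homology of the whole space. -/
noncomputable def Im (N : ℝ) (G : E → ℂ) (m : ℕ) (A : Set ℂ) : Submodule F (Ch (Sx E)) :=
  Zs (G ⁻¹' A) (G ⁻¹' AU N) m ⊔ Bs univ (G ⁻¹' AU N) m

/-- Open sets that are stable under moving up and contain the upper base set. -/
structure Upw (N : ℝ) (A : Set ℂ) : Prop where
  op : IsOpen A
  mono : Mono Complex.I A
  sub : AU N ⊆ A

/-- `c j` lies above `c i`. -/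
def Up (c : ι → ℂ) (i j : ι) : Prop := (c i).re = (c j).re ∧ (c i).im < (c j).im

/-- The lexicographic order. -/
def Lx (c : ι → ℂ) (i j : ι) : Prop := (c i).re < (c j).re ∨ Up c i j

/-- Unipotent matrices supported on a relation. -/
def Uni (r : ι → ι → Prop) (A : Matrix ι ι F) : Prop :=
  (∀ i, A i i = 1) ∧ ∀ i j, i ≠ j → A i j ≠ 0 → r i j

/-- A lower and an upper triangular matrix. -/
def Tri (c : ι → ℂ) (L R : Matrix ι ι F) : Prop := Uni (flip (Lx c)) L ∧ Uni (Lx c) R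

variable [Fintype ι]

/-- Change of both bases. -/
def Rel (c : ι → ℂ) (L R L' R' : Matrix ι ι F) : Prop :=
  ∃ A B, Uni (Up c) A ∧ Uni (flip (Up c)) B ∧ B * L = L' * A ∧ B * R = R' * A

/-- Bases adapted to upward rays. -/
structure UB (N : ℝ) (G : E → ℂ) (c : ι → ℂ) (m : ℕ) (e : ι → Ch (Sx E)) : Prop where
  ind : Ind (Bs univ (G ⁻¹' AU N) m) e
  span : ∀ A, Upw N A →
    Im N G m A = Submodule.span F (e '' {i | c i ∈ A}) ⊔ Bs univ (G ⁻¹' AU N) m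

/-- The two matrices that compare upward and downward bases. -/
def Dat (N M : ℝ) (G : E → ℂ) (c : ι → ℂ) (m : ℕ) (L R : Matrix ι ι F) : Prop :=
  ∃ u d : ι → Ch (Sx E), UB N G c m u ∧ UB N (cj G) (cj c) m d ∧ ∀ i,
    d i + ∑ j, L i j • u j ∈ Bs univ (G ⁻¹' AL N M) m ∧
    d i + ∑ j, R i j • u j ∈ Bs univ (G ⁻¹' AR N M) m

/-- Two systems with the same order type and the same normal form. -/
def CN (N : ℝ) (m : ℕ) (G : E → ℂ) (c : ι → ℂ) (G' : E' → ℂ) (c' : ι → ℂ) : Prop :=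
  ∃ e : Equiv.Perm ι, Iso c (c' ∘ e) ∧
    ∃ L R, Dat N N G c m L R ∧ Dat N N G' (c' ∘ e) m L R ∧ Tri c L R

/-- Continuous families of systems. -/
def Mot {T : Type} [TopologicalSpace T] (N : ℝ) (m : ℕ) (G : T → E → ℂ) (c : T → ι → ℂ) : Prop :=
  (∀ t, Sys (G t) (c t) m ∧ Bn N (c t)) ∧ ∀ t₀, ∀ δ > 0, ∀ᶠ t in 𝓝 t₀,
    Close δ (G t₀) (G t) (c t₀) ∧ ∃ e : Equiv.Perm ι, ∀ i, ‖c t (e i) - c t₀ i‖ < δ

/-- The rank read off from the lower triangular matrix. -/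
noncomputable def rkL [DecidableEq ι] (s₁ s₂ s₃ : Set ι) (L : Matrix ι ι F) : ℕ∞ :=
  rk (Submodule.span F ((fun i => Pi.single i 1 + L i) '' s₃))
    (Submodule.span F ((fun i => (Pi.single i 1 : ι → F)) '' s₁) ⊔ Submodule.span F (L '' s₂))

/-- The identity plus the involution. -/
noncomputable def rho (κ : C(E, E)) : Ch (Sx E) →ₗ[F] Ch (Sx E) := LinearMap.id + cm κ

/-- The image of `rho` on the chains of a subset. -/
noncomputable def rhoC (κ : C(E, E)) (U : Set E) (k : ℕ) : Submodule F (Ch (Sx E)) :=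
  (Cs U k).map (rho κ)

/-- Vanishing in high degrees. -/
def Van (κ : C(E, E)) (U : Set E) : Prop := ∃ J, ∀ j, J ≤ j → hh sd (rhoC κ U) ⊥ j = 0

/-- The set to the left of `t` or away from the real line. -/
def Bt (t δ : ℝ) : Set ℂ := {z | z.re < t ∨ δ < |z.im|}

/-- Real Morse theory below the level zero, on two disjoint open sets. -/
structure RM (f : E → ℝ) (S S' : Set E) (v : ι → ℝ) (real side : ι → Prop) (n : ι → ℕ) :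
    Prop where
  oS : IsOpen S
  oS' : IsOpen S'
  dis : Disjoint S S'
  cov : {y | f y < 0} ⊆ S ∪ S'
  inj : ∀ i j, real i → real j → v i = v j → i = j
  ne : ∀ i, real i → v i ≠ 0
  bot : ∀ t, (∀ i, real i → t ≤ v i) → {y | f y < t} = ∅
  ac : ∀ a b, a ≤ b → b ≤ 0 → (∀ i, real i → v i ∉ Icc a b) →
    Ac ({y | f y < b} ∩ S) ({y | f y < a} ∩ S) ∧ Ac ({y | f y < b} ∩ S') ({y | f y < a} ∩ S')
  cell : ∀ a b i, b ≤ 0 → real i → v i ∈ Ioo a b → (∀ j ≠ i, real j → v j ∉ Icc a b) →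
    {y | f y < b}.Nonempty ∧
    (side i → Cell ({y | f y < b} ∩ S) ({y | f y < a} ∩ S) (n i) ∧
      Ac ({y | f y < b} ∩ S') ({y | f y < a} ∩ S')) ∧
    (¬ side i → Ac ({y | f y < b} ∩ S) ({y | f y < a} ∩ S) ∧
      Cell ({y | f y < b} ∩ S') ({y | f y < a} ∩ S') (n i))

end Lef

/-- Complex conjugation of the coordinates. -/
noncomputable def kap (σ : Type) : C(σ → ℂ, σ → ℂ) :=
  ⟨fun y i => (starRingEnd ℂ) (y i),
    continuous_pi fun i => Complex.continuous_conj.comp (continuous_apply i)⟩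

def K2S : Prop := ∀ (E ι : Type) [TopologicalSpace E] [Finite ι] (G : E → ℂ) (c : ι → ℂ) (m : ℕ),
  Continuous G → Injective c →
  (∀ (ζ : ℂ) A B, ζ ≠ 0 → Adm ζ A B → (∀ i, c i ∈ A → c i ∈ B) → Ac (G ⁻¹' A) (G ⁻¹' B)) →
  (∀ (w : ℂ) (a b : ℝ) i, w ≠ 0 → (w * c i).re ∈ Ioo a b → (∀ j ≠ i, (w * c j).re ∉ Icc a b) →
    Cell {y | (w * G y).re < b} {y | (w * G y).re < a} m) → Sys G c m

def HalfS : Prop := ∀ (σ ι : Type) [Fintype σ] [DecidableEq σ] (G : MvPolynomial σ ℂ) (c : ι → ℂ)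
  (x : ι → σ → ℂ), Mor G c x → (∃ R : ℝ, ∀ y, R ≤ ‖y‖ → 1 ≤ n2 G y) →
  ∀ (w : ℂ) (a b : ℝ) i, w ≠ 0 → (w * c i).re ∈ Ioo a b → (∀ j ≠ i, (w * c j).re ∉ Icc a b) →
    Cell {y | (w * MvPolynomial.eval y G).re < b} {y | (w * MvPolynomial.eval y G).re < a}
      (Fintype.card σ + 1)

def SysS : Prop := ∀ (σ ι : Type) [Fintype σ] [DecidableEq σ] [Finite ι] (G : MvPolynomial σ ℂ)
  (c : ι → ℂ) (x : ι → σ → ℂ), Mor G c x → (∃ R : ℝ, ∀ y, R ≤ ‖y‖ → 1 ≤ n2 G y) →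
  Sys (fun y => MvPolynomial.eval y G) c (Fintype.card σ + 1)

def STS : Prop := ∀ (σ ι : Type) [Fintype σ] (m : ℕ) (p : MvPolynomial σ ℂ) (l₀ : ℂ) (c₀ : ι → ℂ),
  p.totalDegree < m → (∀ y, Crit (Fl m p l₀) y → MvPolynomial.eval y (Fl m p l₀) ∈ range c₀) →
  ∀ δ > 0, ∀ᶠ l in 𝓝 l₀, Close δ (fun y => MvPolynomial.eval y (Fl m p l₀))
    (fun y => MvPolynomial.eval y (Fl m p l)) c₀

def RelT : Prop := ∀ (ι : Type) [Fintype ι] (c : ι → ℂ) (L R L' R' L'' R'' : Matrix ι ι F),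
  Rel c L R L' R' → Rel c L' R' L'' R'' → Rel c L R L'' R''

def UniqS : Prop := ∀ (ι : Type) [Fintype ι] (c₀ c : ι → ℂ) (L R L' R' : Matrix ι ι F),
  Injective c → Tri c L R → Tri c L' R' → Rel c₀ L R L' R' → L = L' ∧ R = R'

def GenS : Prop := ∀ (E ι : Type) [TopologicalSpace E] [Fintype ι] (N M : ℝ) (G : E → ℂ)
  (c : ι → ℂ) (m : ℕ), Sys G c m → (∀ i, |(c i).im| < N ∧ |(c i).re| < M) →
  (Injective fun i => (c i).re) → ∃ L R, Dat N M G c m L R ∧ Tri c L R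

def ExS : Prop := ∀ (E ι : Type) [TopologicalSpace E] [Fintype ι] (N : ℝ) (G : E → ℂ)
  (c : ι → ℂ) (m : ℕ), Sys G c m → Bn N c → ∃ L R, Dat N N G c m L R ∧ Tri c L R

def RelS : Prop := ∀ (E ι : Type) [TopologicalSpace E] [Fintype ι] (N : ℝ) (G : E → ℂ)
  (c : ι → ℂ) (m : ℕ) (L R L' R' : Matrix ι ι F), Sys G c m → Bn N c → Dat N N G c m L R →
  Dat N N G c m L' R' → Rel c L R L' R'

def StabS : Prop := ∀ (E ι : Type) [TopologicalSpace E] [Fintype ι] (N : ℝ) (G₀ : E → ℂ)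
  (c₀ : ι → ℂ) (m : ℕ), Sys G₀ c₀ m → Bn N c₀ → ∃ δ > 0, ∀ (G : E → ℂ) (c : ι → ℂ),
    Close δ G₀ G c₀ → (∀ i, ‖c i - c₀ i‖ < δ) → ∀ L R, Dat N N G c m L R → Dat N N G₀ c₀ m L R

def PropS : Prop := ∀ (T E E' ι : Type) [TopologicalSpace T] [PreconnectedSpace T]
  [TopologicalSpace E] [TopologicalSpace E'] [Fintype ι] (N : ℝ) (m : ℕ) (G : T → E → ℂ)
  (c : T → ι → ℂ) (G' : T → E' → ℂ) (c' : T → ι → ℂ), Mot N m G c → Mot N m G' c' →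
  (∀ t, Sim (c t) (c' t)) → ∀ t₀ t₁, CN N m (G t₀) (c t₀) (G' t₀) (c' t₀) →
  CN N m (G t₁) (c t₁) (G' t₁) (c' t₁)

def FinS : Prop := ∀ (E ι : Type) [TopologicalSpace E] [Fintype ι] [DecidableEq ι] (N t δ : ℝ)
  (G : E → ℂ) (c : ι → ℂ) (m : ℕ) (L R : Matrix ι ι F) (κ : C(E, E)), Sys G c m → Bn N c →
  Dat N N G c m L R → Tri c L R → (∀ y, κ (κ y) = y) → (∀ y, G (κ y) = cj G y) → -N ≤ t →
  0 < δ → δ ≤ N → (∀ i, (c i).im ≠ 0 → δ < |(c i).im|) →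
  rk ((Zs univ (G ⁻¹' Bt t δ) m).map (rho κ)) (Bs univ (G ⁻¹' Bt t δ) m) =
    rkL {i | (c i).re < t ∨ 0 < (c i).im} {i | (c i).im < 0} {i | (c i).im = 0 ∧ t ≤ (c i).re} L

def SmithS : Prop := ∀ (E : Type) [TopologicalSpace E] (κ : C(E, E)) (B : Set E) (m : ℕ),
  (∀ y, κ (κ y) = y) → MapsTo κ B B → Van κ univ → Van κ B → (∀ j ≠ m, hs univ B j = 0) →
  (∀ j, m < j → hs {y | κ y = y} ({y | κ y = y} ∩ B) j = 0) ∧
  ∑ j ∈ Finset.range (m + 1), hs {y | κ y = y} ({y | κ y = y} ∩ B) j +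
    2 * rk ((Zs univ B m).map (rho κ)) (Bs univ B m) = hs univ B m

def VmvS : Prop := ∀ (E : Type) [TopologicalSpace E] (κ : C(E, E)) (U W : Set E),
  (∀ y, κ (κ y) = y) → IsOpen U → IsOpen W → MapsTo κ U U → MapsTo κ W W → Van κ U → Van κ W →
  Van κ (U ∩ W) → Van κ (U ∪ W)

def VfreeS : Prop := ∀ (E : Type) [TopologicalSpace E] (κ : C(E, E)) (U : Set E),
  (∀ y, κ (κ y) = y) → IsOpen U → Disjoint U (κ ⁻¹' U) → (∃ J, ∀ j, J ≤ j → hr U j = 0) →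
  Van κ (U ∪ κ ⁻¹' U)

def VnbS : Prop := ∀ (E : Type) [TopologicalSpace E] (κ : C(E, E)) (U : Set E) (H : C(I × E, E)),
  (∀ y, H (0, y) = y) → (∀ t y, H (t, κ y) = κ (H (t, y))) → (∀ y, H (1, κ y) = H (1, y)) →
  (∀ t, ∀ y ∈ U, H (t, y) ∈ U) → Van κ U

def VHS : Prop := ∀ (σ : Type) [Fintype σ] (U : Set (σ → ℂ)), IsOpen U → MapsTo (kap σ) U U →
  Van (kap σ) U

def RMS : Prop := ∀ (σ ι : Type) [Fintype σ] [DecidableEq σ] [Fintype ι] (f : MvPolynomial σ ℝ)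
  (c : ι → ℂ) (x : ι → σ → ℂ) (S S' : Set (σ → ℝ)), Mor (cx' f) c x → (∀ i, c i ≠ 0) →
  (∀ b, IsCompact {y | MvPolynomial.eval y f ≤ b}) → IsOpen S → IsOpen S' → Disjoint S S' →
  {y | MvPolynomial.eval y f < 0} ⊆ S ∪ S' →
  (∀ i, (c i).im = 0 → ∀ j, (x i j).im = 0) ∧
  RM (fun y => MvPolynomial.eval y f) S S' (fun i => (c i).re) (fun i => (c i).im = 0)
    (fun i => (fun j => (x i j).re) ∈ S)
    fun i => (sig ((Hess (cx' f) (x i)).map Complex.re)).2 + 1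

def RealS : Prop := ∀ (E E' ι : Type) [TopologicalSpace E] [TopologicalSpace E'] [Fintype ι]
  (f : E → ℝ) (f' : E' → ℝ) (S₁ S₂ : Set E) (S₁' S₂' : Set E') (v v' : ι → ℝ)
  (real side : ι → Prop) (n : ι → ℕ) (J : ℕ), (∀ k, Z0 (univ : Set E) k) →
  (∀ k, Z0 (univ : Set E') k) → RM f S₁ S₂ v real side n → RM f' S₁' S₂' v' real side n →
  (∀ i j, v i ≤ v j ↔ v' i ≤ v' j) → (∀ i, v i < 0 ↔ v' i < 0) →
  (∀ t t', (∃ i, v i < t) → (∀ i, v i < t ↔ v' i < t') →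
    (∀ j, J ≤ j → hs univ {y | f y < t} j = 0 ∧ hs univ {y | f' y < t'} j = 0) ∧
    ∑ j ∈ Finset.range J, hs univ {y | f y < t} j =
      ∑ j ∈ Finset.range J, hs univ {y | f' y < t'} j) →
  ∀ j, hs ({y | f y < 0} ∩ S₁) ∅ j = hs ({y | f' y < 0} ∩ S₁') ∅ j ∧
    hs ({y | f y < 0} ∩ S₁) ∅ j ≠ ⊤

def LimS : Prop := ∀ (σ : Type) [Fintype σ] (m : ℕ) (p : MvPolynomial σ ℝ) (l : ℝ)
  (S S' : Set (σ → ℝ)), Odd m → p.totalDegree < m → 0 < l →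
  (∀ l', l ≤ l' → ∀ y, Crit (Fl m p l') y → MvPolynomial.eval y (Fl m p l') ≠ 0) →
  IsOpen S → IsOpen S' → Disjoint S S' → {y | 0 < MvPolynomial.eval y p} ⊆ S ∪ S' →
  Ac ({y | 0 < MvPolynomial.eval y p} ∩ S) ({y | MvPolynomial.eval y (Fl m p l) < 0} ∩ S)

def BettiS : Prop := ∀ (X : Type) [TopologicalSpace X] (i : ℕ),
  (betti2 X i).toENat = hs (univ : Set X) ∅ (i + 1)

def JoinS : Prop := ∀ (Y Z ι κ : Type) [TopologicalSpace Y] [NormedAddCommGroup Z]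
  [NormedSpace ℝ Z] [Fintype ι] [Finite κ] (U : κ → Set Y) (W : Set (Y × Z)), (∀ a, IsOpen (U a)) →
  IsOpen W → (∀ q ∈ W, q.1 ∈ ⋃ a, U a) → (∀ a, ∃ z, ∀ y ∈ U a, (y, z) ∈ W) →
  ∀ j < Fintype.card ι, hs {q : Y × (ι → Z) | ∃ i, (q.1, q.2 i) ∈ W} ∅ j = hs (⋃ a, U a) ∅ j

def ScaleS : Prop := ∀ (Y ι : Type) [TopologicalSpace Y] [Fintype ι] (g : Y × ℝ → ℝ),
  Continuous g → Ac {q : Y × (ι → ℝ × ℝ) | ∃ i, 0 < (q.2 i).2 ^ 2 * g (q.1, (q.2 i).1)}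
    {q | 0 < ∑ i, (q.2 i).2 ^ 2 * g (q.1, (q.2 i).1)}

/-- One more variable `t` selects a member of a family. -/
noncomputable def psi {R τ : Type} [CommRing R] [Fintype τ] {N : ℕ} (u : Fin N → τ → R) (t : R)
    (j : τ) : R :=
  ∑ a : Fin N, (∏ b ∈ Finset.univ.erase a, (t - (((b : Fin N) : ℕ) : R)) ^ 2) * u a j -
    4 * N * (1 + ∑ a, ∑ i, u a i ^ 2) * ∏ b : Fin N, (t - ((b : ℕ) : R)) ^ 2

def PsiS : Prop := ∀ (τ : Type) [Fintype τ] [Nonempty τ] (N : ℕ) (u : Fin N → τ → ℝ),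
  (∀ t, (∀ j, 0 < psi u t j) → ∃ a, ∀ j, 0 < u a j) ∧
  ∀ a, (∀ j, 0 < u a j) → ∀ j, 0 < psi u ((a : ℕ) : ℝ) j

open MvPolynomial in
/-- The polynomials that describe the join. -/
noncomputable def big {σ τ ι : Type} [Fintype τ] [Fintype ι] {N : ℕ}
    (p : Fin N → τ → MvPolynomial σ ℝ) (χ : ι → τ) : MvPolynomial (σ ⊕ ι ⊕ ι) ℝ :=
  ∑ i, X (Sum.inr (Sum.inr i)) ^ 2 *
    psi (fun a j => rename Sum.inl (p a j)) (X (Sum.inr (Sum.inl i))) (χ i)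

def BigS : Prop := ∀ (σ τ ι : Type) [Fintype σ] [Fintype τ] [Nonempty τ] [Fintype ι] (N : ℕ)
  (p : Fin N → τ → MvPolynomial σ ℝ), ∀ j < Fintype.card ι,
  hs (cell (big (ι := ι) p) fun _ => 1) ∅ j = hs (⋃ a, cell (p a) fun _ => 1) ∅ j

def BigA : Prop := ∀ (α σ τ ι : Type) [Fintype σ] [Fintype τ] [Fintype ι] (B : ℕ) [Fact (2 ≤ B)]
  (Γ : Ctx α) (e d N : ℕ) (p : α → Fin N → τ → MvPolynomial σ ℝ) (χ : ι → τ),
  (2 * (N + d + 2) ^ 2 + Fintype.card τ + Fintype.card ι) ^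
    (Fintype.card σ + 2 * Fintype.card ι + 1) ≤ B →
  (∀ a j, Dm Γ d fun x => p x a j) → (∀ a j, AM B Γ e fun x => p x a j) →
  AM B Γ (e + 120) (fun x => big (p x) χ) ∧ Dm Γ (2 * (N + d + 1)) fun x => big (p x) χ

end Pool.Agent.Lib.MP_837412_lc
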