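import Pool.Agent.Lib.MP_837412_lc.Defs
import Pool.Prelude.Def_H_3587d628

/-!
A machine with real registers and a discrete control, and quantifier-free formulas.
-/

namespace Pool.Agent.Lib.MP_837412_lc

/-- An instruction: a code and two addresses. -/
abbrev Ins : Type := ℕ × ℕ × ℕ

/-- The value that an instruction appends to the registers: one, or a sum, a difference or a
product of two registers. -/
noncomputable def Ins.val (r : List ℝ) (c : Ins) : ℝ :=
  if c.1 = 0 then 1 else if c.1 = 1 then r.getD c.2.1 0 + r.getD c.2.2 0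
  else if c.1 = 2 then r.getD c.2.1 0 - r.getD c.2.2 0 else r.getD c.2.1 0 * r.getD c.2.2 0

/-- The sign of a real number as an integer. -/
noncomputable def sgn (x : ℝ) : ℤ := SignType.sign x

/-- One step. The control sees only the signs of the registers. It answers with a flag (halt or
not), an output and an instruction; if it does not halt, the instruction is carried out. -/
noncomputable def mstep (ctl : List ℤ → Bool × List ℕ × Ins) (r : List ℝ) : List ℝ :=
  if (ctl (r.map sgn)).1 then r else r ++ [Ins.val r (ctl (r.map sgn)).2.2]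

/-- The answer of the control after `n` steps from the registers `r`. -/
noncomputable def answer (ctl : List ℤ → Bool × List ℕ × Ins) (n : ℕ) (r : List ℝ) :
    Bool × List ℕ × Ins :=
  ctl (((mstep ctl)^[n] r).map sgn)

/-- The coefficients of all monomials with exponents at most `d`, polynomial by polynomial. -/
noncomputable def coeffs {k s : ℕ} (d : ℕ) (P : Fin s → MvPolynomial (Fin k) ℝ) : List ℝ :=
  (List.finRange s).flatMap fun j => (List.range ((d + 1) ^ k)).map fun n =>
    MvPolynomial.coeff (Finsupp.equivFunOnFinite.symm fun i : Fin k => n / (d + 1) ^ (i : ℕ) % (d + 1))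
      (P j)

/-- Quantifier-free formulas in sign conditions on `s` polynomials. -/
inductive Fm (s : ℕ) : Type
  | lt (j : Fin s) : Fm s
  | eq (j : Fin s) : Fm s
  | gt (j : Fin s) : Fm s
  | not (φ : Fm s) : Fm s
  | and (φ ψ : Fm s) : Fm s
  | or (φ ψ : Fm s) : Fm s

/-- The vectors of signs that satisfy a formula. -/
def Fm.set {s : ℕ} : Fm s → Set (Fin s → SignType)
  | lt j => {σ | σ j = -1}
  | eq j => {σ | σ j = 0}
  | gt j => {σ | σ j = 1}
  | not φ => φ.setᶜ
  | and φ ψ => φ.set ∩ ψ.set
  | or φ ψ => φ.set ∪ ψ.set

/-- A formula in reverse Polish form. -/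
def Fm.code {s : ℕ} : Fm s → List ℕ
  | lt j => [3 * j + 3]
  | eq j => [3 * j + 4]
  | gt j => [3 * j + 5]
  | not φ => φ.code ++ [0]
  | and φ ψ => φ.code ++ ψ.code ++ [1]
  | or φ ψ => φ.code ++ ψ.code ++ [2]

end Pool.Agent.Lib.MP_837412_lc
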