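import Pool.Agent.Lib.MP_837412_lc.U0
import Pool.Agent.Shared.PolyTimeInt

/-!
Functions that the machine computes in polynomial time: definitions and basic closure properties.
-/

namespace Pool.Agent.Lib.MP_837412_lc

open Pool.Agent.Shared.PolyTime List

/-- A result with the number of registers, or a request for an instruction. -/
abbrev Res (γ : Type) : Type := Option (γ × ℕ) × Ins

/-- Programs get the number of registers at the start and the signs of all registers. -/
abbrev Pg (γ : Type) : Type := ℕ → List ℤ → Res γ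

/-- Instructions with small addresses. -/
def WF (i : Ins) (n : ℕ) : Prop := i.1 ≤ 3 ∧ i.2.1 ≤ n ∧ i.2.2 ≤ n

section Go

variable {γ δ : Type} {f g : List ℤ → Res γ} {u u' v w : List ℝ} {c : γ}

/-- A run from the registers `u` to the registers `u'` with the result `c`. -/
inductive Go (f : List ℤ → Res γ) : List ℝ → List ℝ → γ → Prop
  | fin {u : List ℝ} {c : γ} :
      (∀ v, u <+: v → f (v.map sgn) = (some (c, u.length), (0, 0, 0))) → Go f u u c
  | step {u u' : List ℝ} {c : γ} {i : Ins} : f (u.map sgn) = (none, i) → WF i u.length →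
      Go f (u ++ [i.val u]) u' c → Go f u u' c

lemma Go.pre (h : Go f u u' c) : u <+: u' := by
  induction h with
  | fin _ => exact prefix_rfl
  | step _ _ _ ih => exact (prefix_append _ _).trans ih

lemma pre_snoc {x : ℝ} (h : u <+: v) (hne : v ≠ u) (h1 : u ++ [x] <+: w) (h2 : v <+: w ∨ w <+: v) :
    u ++ [x] <+: v := by
  rcases h2 with h2 | h2
  · refine prefix_of_prefix_length_le h1 h2 ?_
    have := h.length_le
    have := mt h.eq_of_length hne.symm
    simp only [length_append, length_singleton]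
    omega
  · exact h1.trans h2

lemma Go.cases (h : Go f u u' c) (h1 : u <+: v) (h2 : v <+: u' ∨ u' <+: v) :
    (∃ i, f (v.map sgn) = (none, i) ∧ WF i v.length) ∨
      (u' <+: v ∧ f (v.map sgn) = (some (c, u'.length), (0, 0, 0))) := by
  induction h with
  | fin h => exact Or.inr ⟨h1, h v h1⟩
  | @step u _ _ _ a b d ih =>
    by_cases e : v = u
    · exact Or.inl ⟨_, e ▸ a, e ▸ b⟩
    · exact ih (pre_snoc h1 e d.pre h2) h2

lemma Go.congr (h : Go f u u' c)
    (e : ∀ v, u <+: v → v <+: u' ∨ u' <+: v → g (v.map sgn) = f (v.map sgn)) : Go g u u' c := by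
  induction h with
  | fin h => exact .fin fun v hv => (e v hv (Or.inr hv)).trans (h v hv)
  | step a b d ih =>
    exact .step ((e _ prefix_rfl (Or.inl ((prefix_append _ _).trans d.pre))).trans a) b
      (ih fun v hv => e v ((prefix_append _ _).trans hv))

/-- Sequential composition. -/
def Res.bind (s : Res γ) (k : γ → ℕ → Res δ) : Res δ := s.1.elim (none, s.2) fun p => k p.1 p.2

lemma Go.bind {k : γ → Pg δ} {d : δ} (h : Go f u v c) (h' : Go (k c v.length) v w d) :
    Go (fun s => (f s).bind fun c n => k c n s) u w d := by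
  induction h with
  | fin h => exact h'.congr fun v hv _ => by rw [h v hv]; rfl
  | step a b _ ih => exact .step (by rw [a]; rfl) b (ih h')

/-- Return a value. -/
def ret (c : γ) (n : ℕ) : Res γ := (some (c, n), (0, 0, 0))

lemma Go.ret (c : γ) (u : List ℝ) : Go (fun _ => ret c u.length) u u c := .fin fun _ _ => rfl

lemma Go.look (g : List ℤ → γ) (u : List ℝ) :
    Go (fun s => MP_837412_lc.ret (g (s.take u.length)) u.length) u u (g (u.map sgn)) :=
  .fin fun v hv => by
    obtain ⟨t, rfl⟩ := hv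
    rw [map_append, take_left' (by simp)]; rfl

/-- Carry out an instruction and return the address of the new register. -/
def emit (i : Ins) (n : ℕ) (s : List ℤ) : Res ℕ :=
  if s.length ≤ n then (none, i) else ret n (n + 1)

lemma Go.emit {i : Ins} (h : WF i u.length) :
    Go (emit i u.length) u (u ++ [i.val u]) u.length :=
  .step (by simp [MP_837412_lc.emit]) h (.fin fun v hv => by
    have := hv.length_le
    simp only [length_append, length_singleton] at this ⊢
    rw [MP_837412_lc.emit, if_neg (by simp; omega)]; rfl)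

section PT

variable {α : Type} [N487b59b3 α] [N487b59b3 γ] [N487b59b3 δ]

@[fun_prop] lemma pt_bind {s : α → Res γ} {k : α → γ → ℕ → Res δ} (hs : PT s)
    (hk : PT fun p : α × γ × ℕ => k p.1 p.2.1 p.2.2) : PT fun a => (s a).bind (k a) := by
  unfold Res.bind; fun_prop

@[fun_prop] lemma pt_ret {c : α → γ} {n : α → ℕ} (hc : PT c) (hn : PT n) :
    PT fun a => ret (c a) (n a) := by
  unfold ret; fun_prop

@[fun_prop] lemma pt_emit {i : α → Ins} {n : α → ℕ} {s : α → List ℤ} (hi : PT i) (hn : PT n)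
    (hs : PT s) : PT fun a => emit (i a) (n a) (s a) := by
  unfold emit; fun_prop

end PT

end Go

/-- Types whose elements are represented by a discrete code that may point to registers. -/
class RE (X : Type) where
  C : Type
  enc : N487b59b3 C
  Rep : List ℝ → C → X → Prop
  mono : ∀ {r r' c x}, Rep r c x → r <+: r' → Rep r' c x
  rsz : X → ℕ
  csz : C → ℕ
  pt : PT csz
  le : ∀ c, csz c ≤ sz c
  eq : ∀ {r c x}, Rep r c x → csz c = rsz x

attribute [instance_reducible, instance] RE.enc

export RE (C Rep rsz csz)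

/-- The space that an address needs. -/
def wd' (n : ℕ) : ℕ := 3 * sz n + 3

lemma wd'_mono {m n : ℕ} (h : m ≤ n) : wd' m ≤ wd' n := by
  have := sz_nat_mono h; unfold wd'; omega

/-- The size of a code is bounded in terms of the size of the value. -/
class Law (X : Type) [RE X] : Prop where
  le : ∀ {r : List ℝ} {c : C X} {x : X}, Rep r c x → sz c ≤ rsz x * wd' r.length

variable {α β γ δ σ : Type} [RE α] [RE β] [RE γ] [RE δ] [RE σ]

/-- Bounded by a polynomial in the size of the input. -/
@[fun_prop] def RPB (g : α → ℕ) : Prop := ∃ q : Polynomial ℕ, ∀ x, g x ≤ q.eval (rsz x)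

/-- Computed by the machine in polynomial time. -/
@[fun_prop] def RPT (f : α → β) : Prop := ∃ (p : C α → Pg (C β)) (g : α → ℕ),
  PT (fun z : C α × ℕ × List ℤ => p z.1 z.2.1 z.2.2) ∧ RPB g ∧ RPB (fun x => rsz (f x)) ∧
    ∀ r c x, Rep r c x → ∃ r' c', Go (p c r.length) r r' c' ∧ Rep r' c' (f x) ∧
      r'.length ≤ r.length + g x

namespace RPB

variable {f g : α → ℕ}

@[fun_prop] theorem const (c : ℕ) : RPB fun _ : α => c := ⟨Polynomial.C c, by simp⟩

theorem self : RPB fun a : α => rsz a := ⟨Polynomial.X, by simp⟩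

theorem mono (h : RPB g) (e : ∀ a, f a ≤ g a) : RPB f := h.imp fun _ h a => (e a).trans (h a)

@[fun_prop] theorem add (hf : RPB f) (hg : RPB g) : RPB fun a => f a + g a :=
  let ⟨p, hp⟩ := hf; let ⟨q, hq⟩ := hg
  ⟨p + q, fun a => by simpa using Nat.add_le_add (hp a) (hq a)⟩

@[fun_prop] theorem mul (hf : RPB f) (hg : RPB g) : RPB fun a => f a * g a :=
  let ⟨p, hp⟩ := hf; let ⟨q, hq⟩ := hg
  ⟨p * q, fun a => by simpa using Nat.mul_le_mul (hp a) (hq a)⟩

theorem eval (hf : RPB f) (q : Polynomial ℕ) : RPB fun a => q.eval (f a) :=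
  let ⟨p, hp⟩ := hf
  ⟨q.comp p, fun a => by simpa [Polynomial.eval_comp] using eval_mono q (hp a)⟩

@[fun_prop] theorem pow (hf : RPB f) (k : ℕ) : RPB fun a => f a ^ k := by
  simpa using hf.eval (Polynomial.X ^ k)

@[fun_prop] theorem rsz {f : α → β} (hf : RPT f) : RPB fun a => rsz (f a) :=
  let ⟨_, _, _, _, h, _⟩ := hf; h

theorem comp₀ {g : β → ℕ} (hg : RPB g) {f : α → β} (hf : RPB fun a => RE.rsz (f a)) :
    RPB fun a => g (f a) :=
  let ⟨q, hq⟩ := hg; (hf.eval q).mono fun a => hq (f a)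

@[fun_prop] theorem comp {g : β → ℕ} {f : α → β} (hg : RPB g) (hf : RPT f) :
    RPB fun a => g (f a) := hg.comp₀ (rsz hf)

@[fun_prop] theorem succ (hf : RPB f) : RPB fun a => (f a).succ := hf.add (const 1)

@[fun_prop] theorem sub (hf : RPB f) (g : α → ℕ) : RPB fun a => f a - g a :=
  hf.mono fun _ => Nat.sub_le _ _

@[fun_prop] theorem div (hf : RPB f) (g : α → ℕ) : RPB fun a => f a / g a :=
  hf.mono fun _ => Nat.div_le_self _ _

@[fun_prop] theorem mod (hf : RPB f) (g : α → ℕ) : RPB fun a => f a % g a :=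
  hf.mono fun _ => Nat.mod_le _ _

@[fun_prop] theorem max (hf : RPB f) (hg : RPB g) : RPB fun a => max (f a) (g a) :=
  (hf.add hg).mono fun _ => by omega

theorem min_left (hf : RPB f) (g : α → ℕ) : RPB fun a => min (f a) (g a) :=
  hf.mono fun _ => by omega

@[fun_prop] theorem min_right (hg : RPB g) (f : α → ℕ) : RPB fun a => min (f a) (g a) :=
  hg.mono fun _ => by omega

@[fun_prop] theorem ite {p : α → Prop} {i : ∀ a, Decidable (p a)} (hf : RPB f) (hg : RPB g) :
    RPB fun a => if p a then f a else g a :=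
  (hf.add hg).mono fun _ => by split_ifs <;> omega

end RPB

section Inst

instance : RE (α × β) where
  C := C α × C β
  enc := inferInstance
  Rep r c x := Rep r c.1 x.1 ∧ Rep r c.2 x.2
  mono h e := ⟨RE.mono h.1 e, RE.mono h.2 e⟩
  rsz x := 2 * rsz x.1 + 1 + rsz x.2
  csz c := 2 * csz c.1 + 1 + csz c.2
  pt := by have := RE.pt (X := α); have := RE.pt (X := β); fun_prop
  le c := by have := RE.le c.1; have := RE.le c.2; rw [sz_prod]; omega
  eq h := by rw [RE.eq h.1, RE.eq h.2]

@[simp] lemma rsz_pair (a : α) (b : β) : rsz (a, b) = 2 * rsz a + 1 + rsz b := rfl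

lemma rsz_prod (p : α × β) : rsz p = 2 * rsz p.1 + 1 + rsz p.2 := rfl

instance [Law α] [Law β] : Law (α × β) := ⟨fun {r c x} h => by
  have a := Law.le h.1
  have b := Law.le h.2
  have : 3 ≤ wd' r.length := by unfold wd'; omega
  rw [show sz c = 2 * sz c.1 + 1 + sz c.2 from sz_prod c, rsz_prod]
  nlinarith⟩

instance : RE (List α) where
  C := List (C α)
  enc := inferInstance
  Rep r := Forall₂ (Rep r)
  mono h e := h.imp fun _ _ a => RE.mono a e
  rsz l := (l.map fun x => 2 * rsz x + 1).sum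
  csz l := (l.map fun x => 2 * csz x + 1).sum
  pt := by have := RE.pt (X := α); fun_prop
  le c := by
    induction c with
    | nil => simp
    | cons a l ih => have := RE.le a; simp only [map_cons, sum_cons, sz_cons]; omega
  eq h := by
    induction h with
    | nil => rfl
    | cons a _ ih => simp only [map_cons, sum_cons, ih, RE.eq a]

@[simp] lemma rsz_nil : rsz ([] : List α) = 0 := rfl

@[simp] lemma rsz_cons (a : α) (l : List α) : rsz (a :: l) = 2 * rsz a + 1 + rsz l := rfl

instance [Law α] : Law (List α) := ⟨fun {r c x} h => by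
  have : 3 ≤ wd' r.length := by unfold wd'; omega
  induction (show Forall₂ (Rep r) c x from h) with
  | nil => exact (sz_nil (α := C α)).le.trans (Nat.zero_le _)
  | cons a b ih =>
    have a := Law.le a
    have := ih b
    refine (sz_cons (α := C α) _ _).le.trans ?_
    rw [rsz_cons]
    nlinarith⟩

/-- A type with a relation to a represented type. -/
@[instance_reducible] def RE.ofRel {X : Type} (R : β → X → Prop) (z : X → ℕ)
    (h : ∀ b x, R b x → rsz b = z x) : RE X where
  C := C β
  enc := inferInstance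
  Rep r c x := ∃ b, Rep r c b ∧ R b x
  mono := fun ⟨b, a, h⟩ e => ⟨b, RE.mono a e, h⟩
  rsz := z
  csz := csz
  pt := RE.pt
  le := RE.le
  eq := fun ⟨b, a, e⟩ => (RE.eq a).trans (h b _ e)

lemma Law.ofRel {X : Type} [Law β] (R : β → X → Prop) (z : X → ℕ)
    (h : ∀ b x, R b x → rsz b = z x) : @Law X (RE.ofRel R z h) :=
  @Law.mk X (RE.ofRel R z h) fun ⟨b, a, e⟩ => (Law.le a).trans_eq (by rw [h b _ e]; rfl)

/-- A type with a map to a represented type. -/
@[instance_reducible] def RE.ofFun {X : Type} (φ : X → β) : RE X where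
  C := C β
  enc := inferInstance
  Rep r c x := Rep r c (φ x)
  mono := RE.mono
  rsz x := rsz (φ x)
  csz := csz
  pt := RE.pt
  le := RE.le
  eq := RE.eq

lemma Law.ofFun {X : Type} [Law β] (φ : X → β) : @Law X (RE.ofFun φ) :=
  @Law.mk X (RE.ofFun φ) fun h => Law.le (X := β) h

instance {p : α → Prop} : RE {a // p a} := .ofFun Subtype.val

instance {p : α → Prop} [Law α] : Law {a // p a} := .ofFun _

instance : RE (Option α) := .ofFun Option.toList

instance [Law α] : Law (Option α) := .ofFun _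

/-- A type without pointers. -/
@[instance_reducible] def RE.disc (X : Type) [N487b59b3 X] : RE X where
  C := X
  enc := inferInstance
  Rep _ c x := c = x
  mono h _ := h
  rsz := sz
  csz := sz
  pt := by fun_prop
  le _ := le_rfl
  eq h := by rw [h]

lemma Law.disc (X : Type) [N487b59b3 X] : @Law X (RE.disc X) :=
  @Law.mk X (RE.disc X) fun {r c x} (h : c = x) => h ▸
    Nat.le_mul_of_pos_right _ (by unfold wd'; omega)

instance : RE ℕ := .disc ℕ
instance : RE ℤ := .disc ℤ
instance : RE Bool := .disc Bool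
instance : Law ℕ := .disc ℕ
instance : Law ℤ := .disc ℤ
instance : Law Bool := .disc Bool

/-- Real numbers are quotients of two registers. -/
instance : RE ℝ where
  C := ℕ × ℕ
  enc := inferInstance
  Rep r c x := c.1 < r.length ∧ c.2 < r.length ∧ r.getD c.2 0 ≠ 0 ∧ x = r.getD c.1 0 / r.getD c.2 0
  mono := fun {r _ c _} ⟨a, b, h⟩ ⟨t, e⟩ => by
    subst e
    rw [getD_append _ _ _ _ a, getD_append _ _ _ _ b, length_append]
    exact ⟨by omega, by omega, h⟩
  rsz _ := 1
  csz _ := 1
  pt := by fun_prop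
  le c := by rw [sz_prod]; omega
  eq _ := rfl

@[simp] lemma rsz_real (x : ℝ) : rsz x = 1 := rfl

instance : Law ℝ := ⟨fun {r c x} h => by
  have a := sz_nat_mono h.1.le
  have b := sz_nat_mono h.2.1.le
  rw [show sz c = 2 * sz c.1 + 1 + sz c.2 from sz_prod (α := ℕ) (β := ℕ) c, rsz_real, wd']
  omega⟩

/-- Discrete data whose size does not count. -/
structure Hid (X : Type) where
  val : X

instance {X : Type} [N487b59b3 X] : RE (Hid X) where
  C := X
  enc := inferInstance
  Rep _ c x := c = x.val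
  mono h _ := h
  rsz _ := 0
  csz _ := 0
  pt := by fun_prop
  le _ := Nat.zero_le _
  eq _ := rfl

end Inst

namespace RPT

variable {f : α → β}

theorem of_eq {g : α → β} (h : RPT f) (e : ∀ a, f a = g a) : RPT g := (funext e : f = g) ▸ h

/-- A program that is run after `f`. -/
theorem post (hf : RPT f) (p : C β → Pg (C γ))
    (hp : PT fun z : C β × ℕ × List ℤ => p z.1 z.2.1 z.2.2) {k : α → γ} {g : α → ℕ} (hg : RPB g)
    (hk : RPB fun a => rsz (k a)) (h : ∀ a r c, Rep r c (f a) → ∃ r' c',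
      Go (p c r.length) r r' c' ∧ Rep r' c' (k a) ∧ r'.length ≤ r.length + g a) : RPT k := by
  obtain ⟨q, g', a1, a2, -, a4⟩ := hf
  refine ⟨fun c n s => (q c n s).bind fun c n => p c n s, fun a => g' a + g a, pt_bind a1
    (hp.comp' (f := fun z : (C α × ℕ × List ℤ) × C β × ℕ => (z.2.1, z.2.2, z.1.2.2))
      (by fun_prop)), a2.add hg, hk, fun r c x hx => ?_⟩
  obtain ⟨r1, c1, b1, b2, b3⟩ := a4 r c x hx
  obtain ⟨r2, c2, d1, d2, d3⟩ := h x r1 c1 b2
  exact ⟨r2, c2, b1.bind d1, d2, by beta_reduce; omega⟩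

@[fun_prop] theorem id' : RPT fun a : α => a :=
  ⟨fun c n _ => ret c n, fun _ => 0, by fun_prop, .const 0, .self,
    fun r c _ h => ⟨r, c, .ret c r, h, le_rfl⟩⟩

@[fun_prop] theorem comp' {g : β → γ} {f : α → β} (hg : RPT g) (hf : RPT f) :
    RPT fun a => g (f a) :=
  let ⟨p, _, a1, a2, a3, a4⟩ := hg
  hf.post p a1 (a2.comp hf) (a3.comp hf) fun _ r c => a4 r c _

/-- A map on codes that is applied after `f`. -/
theorem pure (hf : RPT f) (g : C β → C γ) (hg : PT g) {k : α → γ} (hk : RPB fun a => rsz (k a))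
    (h : ∀ a r c, Rep r c (f a) → Rep r (g c) (k a)) : RPT k :=
  hf.post (fun c n _ => ret (g c) n) (by fun_prop) (.const 0) hk
    fun a r c e => ⟨r, _, .ret _ r, h a r c e, le_rfl⟩

/-- A map on codes that also reads the signs of the registers. -/
theorem look (hf : RPT f) (g : C β → List ℤ → C γ) (hg : PT fun z : C β × List ℤ => g z.1 z.2)
    {k : α → γ} (hk : RPB fun a => rsz (k a))
    (h : ∀ a r c, Rep r c (f a) → Rep r (g c (r.map sgn)) (k a)) : RPT k :=
  hf.post (fun c n s => ret (g c (s.take n)) n)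
    (pt_ret (hg.comp' (f := fun z : C β × ℕ × List ℤ => (z.1, z.2.2.take z.2.1)) (by fun_prop))
      (by fun_prop)) (.const 0) hk fun a r c e => ⟨r, _, .look (g c) r, h a r c e, le_rfl⟩

@[fun_prop] theorem pair {g : α → γ} (hf : RPT f) (hg : RPT g) : RPT fun a => (f a, g a) := by
  obtain ⟨p, g1, a1, a2, a3, a4⟩ := hf
  obtain ⟨q, g2, b1, b2, b3, b4⟩ := hg
  refine ⟨fun c n s => (p c n s).bind fun c1 n => (q c n s).bind fun c2 n => ret (c1, c2) n,
    fun a => g1 a + g2 a, pt_bind a1 (pt_bind (b1.comp'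
      (f := fun z : (C α × ℕ × List ℤ) × C β × ℕ => (z.1.1, z.2.2, z.1.2.2)) (by fun_prop))
        (pt_ret (γ := C β × C γ) (by fun_prop) (by fun_prop))), a2.add b2,
    (((RPB.const 2).mul a3).add (.const 1)).add b3, fun r c x hx => ?_⟩
  obtain ⟨r1, c1, d1, d2, d3⟩ := a4 r c x hx
  obtain ⟨r2, c2, e1, e2, e3⟩ := b4 r1 c x (RE.mono hx d1.pre)
  exact ⟨r2, (c1, c2), d1.bind (k := fun c1 n s => (q c n s).bind fun c2 n => ret (c1, c2) n)
    (e1.bind (k := fun c2 n _ => ret (c1, c2) n) (.ret _ r2)), ⟨RE.mono d2 e1.pre, e2⟩,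
    by beta_reduce; omega⟩

@[fun_prop] theorem fst {f : α → β × γ} (hf : RPT f) : RPT fun a => (f a).1 :=
  hf.pure (Prod.fst : C β × C γ → C β) (by fun_prop)
    ((RPB.rsz hf).mono fun a => by rw [rsz_prod]; omega) fun _ _ _ h => h.1

@[fun_prop] theorem snd {f : α → β × γ} (hf : RPT f) : RPT fun a => (f a).2 :=
  hf.pure (Prod.snd : C β × C γ → C γ) (by fun_prop)
    ((RPB.rsz hf).mono fun a => by rw [rsz_prod]; omega) fun _ _ _ h => h.2

/-- Only one of the two branches is run. -/
theorem sel {c : α → Bool} (hc : RPT c) {f : α → β} (hf : RPT fun a : {a // c a = true} => f a.1)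
    (hg : RPT fun a : {a // c a = false} => f a.1) : RPT f := by
  obtain ⟨p, g1, a1, ⟨q1, a2⟩, ⟨s1, a3⟩, a4⟩ := hf
  obtain ⟨q, g2, b1, ⟨q2, b2⟩, ⟨s2, b3⟩, b4⟩ := hg
  refine (hc.pair id').post (fun (c : Bool × C α) n s => cond c.1 (p c.2 n s) (q c.2 n s))
    (PT.cond (α := (Bool × C α) × ℕ × List ℤ) (by fun_prop)
      (a1.comp' (f := fun z : (Bool × C α) × ℕ × List ℤ => (z.1.2, z.2)) (by fun_prop))
      (b1.comp' (f := fun z : (Bool × C α) × ℕ × List ℤ => (z.1.2, z.2)) (by fun_prop)))
    ((RPB.self.eval q1).add (RPB.self.eval q2)) ⟨s1 + s2, fun a => ?_⟩ fun a r ⟨b, c'⟩ h => ?_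
  · rw [Polynomial.eval_add]
    cases e : c a
    · exact le_add_left (b3 ⟨a, e⟩)
    · exact le_add_right (a3 ⟨a, e⟩)
  · obtain rfl : b = c a := h.1
    cases e : c a
    · obtain ⟨r', c'', d1, d2, d3⟩ := b4 r c' ⟨a, e⟩ h.2
      exact ⟨r', c'', d1, d2, d3.trans (Nat.add_le_add_left (le_add_left (b2 ⟨a, e⟩)) _)⟩
    · obtain ⟨r', c'', d1, d2, d3⟩ := a4 r c' ⟨a, e⟩ h.2
      exact ⟨r', c'', d1, d2, d3.trans (Nat.add_le_add_left (le_add_right (a2 ⟨a, e⟩)) _)⟩

@[fun_prop] theorem val {p : β → Prop} {f : α → {b // p b}} (hf : RPT f) : RPT fun a => (f a).1 :=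
  hf.pure (fun c => c) PT.id' (RPB.rsz hf) fun _ _ _ h => h

@[fun_prop] theorem mk {p : β → Prop} (hf : RPT f) (h : ∀ a, p (f a)) :
    RPT fun a => (⟨f a, h a⟩ : {b // p b}) :=
  hf.pure (fun c => c) PT.id' (RPB.rsz hf) fun _ _ _ h => h

/-- Stop when the state gets too large. -/
def clip {X : Type} [N487b59b3 X] (B : ℕ) (s : Res X) : Res X :=
  if sz s ≤ B then s else (none, (0, 0, 0))

lemma pt_clip {A X : Type} [N487b59b3 A] [N487b59b3 X] {B : A → ℕ} {s : A → Res X} (hB : PT B)
    (hs : PT s) : PT fun a => clip (B a) (s a) := by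
  unfold clip; fun_prop

lemma sz_clip {X : Type} [N487b59b3 X] (B : ℕ) (s : Res X) : sz (clip B s) ≤ B + 3 := by
  unfold clip
  split_ifs
  · omega
  · simp [show sz 0 = 0 from rfl]

lemma go_clip [Law σ] {f : List ℤ → Res (C σ)} {u v : List ℝ} {c : C σ} {x : σ} {B : ℕ}
    (h : Go f u v c) (h1 : Rep v c x) (h2 : rsz x ≤ B) :
    Go (fun s => clip ((8 * B + 3) * wd' s.length) (f s)) u v c := by
  refine h.congr fun w a b => if_pos ?_
  rw [length_map]
  rcases h.cases a b with ⟨⟨i, j, l⟩, e, w1, w2, w3⟩ | ⟨e1, e⟩ <;> rw [e]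
  · have := sz_nat_mono w1
    have := sz_nat_mono w2
    have := sz_nat_mono w3
    have : sz 3 = 2 := by rw [sz_nat]; rfl
    have : 3 * wd' w.length ≤ (8 * B + 3) * wd' w.length := Nat.mul_le_mul_right _ (by omega)
    simp only [sz_pair, sz_none, wd'] at *
    omega
  · have a1 := (Law.le h1).trans (Nat.mul_le_mul h2 (wd'_mono e1.length_le))
    have a2 := sz_nat_mono e1.length_le
    simp only [sz_pair, sz_some, show sz 0 = 0 from rfl]
    rw [add_mul, mul_assoc]
    generalize B * wd' w.length = t at *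
    unfold wd'
    omega

lemma length_le (l : List β) : l.length ≤ rsz l := by
  induction l with
  | nil => simp
  | cons a l ih => simp; omega

lemma rsz_mem {a : β} {l : List β} (h : a ∈ l) : 2 * rsz a + 1 ≤ rsz l := by
  induction l with
  | nil => simp at h
  | cons b l ih =>
    rcases List.mem_cons.1 h with rfl | h
    · simp
    · have := ih h; simp; omega

lemma pt_csz (q : Polynomial ℕ) : PT (fun c : C α => q.eval (csz (X := α) c)) ∧
    PB fun c : C α => q.eval (csz (X := α) c) := by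
  have b : PB fun c : C α => csz (X := α) c := (PB.sz PT.id').mono RE.le
  refine ⟨?_, PBe.eval b q⟩
  induction q using Polynomial.induction_on' with
  | add p q a b => simpa using a.add b
  | monomial n a =>
    have := RE.pt (X := α)
    simp only [Polynomial.eval_monomial]
    fun_prop

/-- Left fold. The step has to work only for the states that occur. -/
theorem foldl_pre [Law σ] {f : α → σ → β → σ} {l : α → List β} {s0 : α → σ}
    (hf : RPT fun p : {p : α × σ × β // ∃ u v, l p.1 = u ++ p.2.2 :: v ∧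
      p.2.1 = u.foldl (f p.1) (s0 p.1)} => f p.1.1 p.1.2.1 p.1.2.2)
    (hl : RPT l) (hs : RPT s0) {B : α → ℕ} (hB : RPB B)
    (hb : ∀ a u v, l a = u ++ v → rsz (u.foldl (f a) (s0 a)) ≤ B a) :
    RPT fun a => (l a).foldl (f a) (s0 a) := by
  obtain ⟨p, g, a1, ⟨q, a2⟩, -, a4⟩ := hf
  obtain ⟨qB, hq⟩ := hB
  let bd : C α → List ℤ → ℕ := fun c s => (8 * qB.eval (csz (X := α) c) + 3) * wd' s.length
  let G : α → ℕ := fun a => q.eval (2 * rsz a + 1 + (2 * qB.eval (rsz a) + 1 + rsz (l a)))
  have key : ∀ a ca (m : List β) (cm : List (C β)) (r : List ℝ), Rep r ca a →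
      Forall₂ (Rep r) cm m → ∀ u, l a = u ++ m → ∀ (F : List ℤ → Res (C σ)) r1 c,
      Go F r r1 c → Rep r1 c (u.foldl (f a) (s0 a)) → ∃ r2 c2, Go (fun h => cm.foldl (fun t x =>
        clip (bd ca h) (t.bind fun c n => p (ca, c, x) n h)) (F h)) r r2 c2 ∧
          Rep r2 c2 ((l a).foldl (f a) (s0 a)) ∧ r2.length ≤ r1.length + m.length * G a := by
    intro a ca m cm r ha hm
    induction hm with
    | nil => exact fun u e F r1 c h1 h2 => ⟨r1, c, h1, by rwa [e, append_nil], by simp⟩
    | @cons cx x cm m hx _ ih =>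
      intro u e F r1 c h1 h2
      have mx : x ∈ l a := by simp [e]
      have e' : l a = (u ++ [x]) ++ m := by simp [e]
      obtain ⟨r2, c2, d1, d2, d3⟩ := a4 r1 (ca, c, cx) ⟨(a, _, x), u, m, e, rfl⟩
        ⟨RE.mono ha h1.pre, h2, RE.mono hx h1.pre⟩
      have i2 := hb a _ _ e'
      rw [foldl_concat] at i2
      obtain ⟨r3, c3, e1, e2, e4⟩ := ih _ e' _ r2 c2
        (go_clip (h1.bind (k := fun c => p (ca, c, cx)) d1) d2
          ((i2.trans (hq a)).trans_eq (by rw [← RE.eq ha]))) (by rw [foldl_concat]; exact d2)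
      refine ⟨r3, c3, e1, e2, ?_⟩
      have : g ⟨(a, _, x), u, m, e, rfl⟩ ≤ G a := (a2 _).trans (eval_mono q (by
        have := (hb a _ _ e).trans (hq a)
        have := rsz_mem mx
        change 2 * rsz a + 1 + (2 * rsz (u.foldl (f a) (s0 a)) + 1 + rsz x) ≤ _
        omega))
      rw [length_cons, add_mul]
      omega
  have pq : ∀ q : Polynomial ℕ, PT (fun c : C α => q.eval (csz (X := α) c)) ∧
      PB fun c : C α => q.eval (csz (X := α) c) := pt_csz
  have hb2 := (pq qB).2
  refine (id'.pair (hl.pair hs)).post (fun (z : C α × List (C β) × C σ) n h => z.2.1.foldl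
    (fun t x => clip (bd z.1 h) (t.bind fun c n => p (z.1, c, x) n h)) (ret z.2.2 n)) ?_
    (g := fun a => (l a).length * G a) ((((RPB.rsz hl).mono fun a => length_le _)).mul
      (RPB.eval (by have := RPB.self (α := α); have := RPB.self.eval (α := α) qB; fun_prop) q))
    ⟨qB, fun a => (hb a _ [] (append_nil _).symm).trans (hq a)⟩ fun a r z h => ?_
  · refine PT.foldl_inv (α := (C α × List (C β) × C σ) × ℕ × List ℤ) ?_ (by fun_prop) (by fun_prop)
      (fun z t => sz t ≤ sz (ret z.1.2.2 z.2.1) + bd z.1.1 z.2.2 + 3) (fun _ => by omega)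
      (fun z t x _ _ => (sz_clip _ _).trans (by omega)) ?_ fun _ _ h => h
    · have : PT fun z : ((C α × List (C β) × C σ) × ℕ × List ℤ) × Res (C σ) × C β =>
          z.2.1.bind fun c n => p (z.1.1.1, c, z.2.2) n z.1.2.2 := pt_bind (by fun_prop)
        (a1.comp' (f := fun y : (((C α × List (C β) × C σ) × ℕ × List ℤ) × Res (C σ) × C β) ×
          C σ × ℕ => ((y.1.1.1.1, y.2.1, y.1.2.2), y.2.2, y.1.1.2.2)) (by fun_prop))
      exact pt_clip (PT.mul (((PT.const 8).mul ((pq qB).1.comp' (by fun_prop))).add (.const 3))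
        (by unfold wd'; fun_prop)) this
    · have := hb2.comp (f := fun z : (C α × List (C β) × C σ) × ℕ × List ℤ => z.1.1) (by fun_prop)
      unfold bd wd'
      fun_prop
  · exact key a z.1 (l a) z.2.1 r h.1 h.2.1 [] rfl _ r z.2.2 (.ret _ r) h.2.2

end RPT

end Pool.Agent.Lib.MP_837412_lc
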