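import Pool.Agent.Lib.MP_837412_lc.U1

/-!
Functions that the machine computes in polynomial time: discrete data and lists.
-/

namespace Pool.Agent.Lib.MP_837412_lc

open Pool.Agent.Shared.PolyTime List

variable {α β γ δ σ : Type} [RE α] [RE β] [RE γ] [RE δ] [RE σ]

/-- Types whose codes contain no pointers. -/
class Disc (X : Type) [RE X] [N487b59b3 X] where
  toC : X → C X
  ofC : C X → X
  pt_to : PT toC
  pt_of : PT ofC
  rep_to : ∀ r x, Rep r (toC x) x
  rep_of : ∀ {r c x}, Rep r c x → ofC c = x
  rsz_eq : ∀ x : X, rsz x = sz x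

/-- The structure for types that are their own codes. -/
@[instance_reducible] def Disc.disc (X : Type) [N487b59b3 X] : @Disc X (.disc X) _ :=
  @Disc.mk X (.disc X) _ (fun x => x) (fun x => x) PT.id' PT.id' (fun _ _ => rfl) (fun h => h)
    fun _ => rfl

instance : Disc ℕ := .disc ℕ
instance : Disc ℤ := .disc ℤ
instance : Disc Bool := .disc Bool

instance [N487b59b3 β] [N487b59b3 γ] [Disc β] [Disc γ] : Disc (β × γ) where
  toC x := (Disc.toC x.1, Disc.toC x.2)
  ofC c := (Disc.ofC (c : C β × C γ).1, Disc.ofC (c : C β × C γ).2)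
  pt_to := (Disc.pt_to.comp' (by fun_prop)).pair (Disc.pt_to.comp' (by fun_prop))
  pt_of := PT.pair (α := C β × C γ) (Disc.pt_of.comp' (by fun_prop))
    (Disc.pt_of.comp' (by fun_prop))
  rep_to r x := ⟨Disc.rep_to r _, Disc.rep_to r _⟩
  rep_of h := Prod.ext (Disc.rep_of h.1) (Disc.rep_of h.2)
  rsz_eq x := by rw [rsz_prod, sz_prod, Disc.rsz_eq, Disc.rsz_eq]

instance [N487b59b3 β] [Disc β] : Disc (List β) where
  toC x := x.map Disc.toC
  ofC c := (c : List (C β)).map Disc.ofC
  pt_to := PT.map (h := fun _ => Disc.toC) .id' (Disc.pt_to.comp' (by fun_prop))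
  pt_of := PT.map (α := List (C β)) (h := fun _ => Disc.ofC) .id' (Disc.pt_of.comp' (by fun_prop))
  rep_to r x := forall₂_map_left_iff.2 (forall₂_same.2 fun y _ => Disc.rep_to r y)
  rep_of {r c x} h := by
    induction (show Forall₂ (Rep r) c x from h) with
    | nil => rfl
    | cons a b ih => rw [map_cons, Disc.rep_of a, ih b]
  rsz_eq x := by
    induction x with
    | nil => rfl
    | cons a l ih => rw [rsz_cons, sz_cons, Disc.rsz_eq, ih]

/-- The structure for types that are encoded through a map with a left inverse. -/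
@[instance_reducible] def Disc.ofFun {X : Type} [N487b59b3 β] [Disc β] (φ : X → β)
    (ψ : β → Option X) (h : ∀ x, ψ (φ x) = some x) (ψ' : β → X) (h' : ∀ x, ψ' (φ x) = x)
    (hp : PT fun b => φ (ψ' b)) :
    @Disc X (.ofFun φ) (.ofLeftInverse φ ψ h) :=
  letI := N487b59b3.ofLeftInverse φ ψ h
  @Disc.mk X (.ofFun φ) _ (fun x => Disc.toC (X := β) (φ x)) (fun c => ψ' (Disc.ofC (X := β) c))
    ((Disc.pt_to (X := β)).comp' (PT.of_enc PT.id' fun _ => rfl))
    (PT.of_enc (hp.comp' (Disc.pt_of (X := β))) fun _ => rfl) (fun r x => Disc.rep_to r (φ x))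
    (fun a => (congrArg ψ' (Disc.rep_of (X := β) a)).trans (h' _)) fun x => Disc.rsz_eq (φ x)

instance [N487b59b3 β] [Disc β] : Disc (Option β) :=
  .ofFun Option.toList _ _ List.head? (fun o => by cases o <;> rfl) (by fun_prop)

/-- Natural numbers in unary. -/
structure Un where
  val : ℕ

instance : N487b59b3 Un :=
  .ofLeftInverse (fun n => replicate n.val true) (fun l => some ⟨l.length⟩) (by simp)

instance : RE Un := .ofFun fun n => replicate n.val true
instance : Law Un := .ofFun _
instance : Disc Un := .ofFun _ _ _ (fun l => ⟨l.length⟩) (by simp) (by fun_prop)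

@[simp] lemma rsz_un (n : Un) : rsz n = 3 * n.val := by
  change rsz (replicate n.val true) = _
  induction n.val with
  | zero => rfl
  | succ k ih => rw [replicate_succ, rsz_cons, ih]; change 2 * 1 + 1 + _ = _; omega

noncomputable instance : N487b59b3 SignType :=
  .ofLeftInverse (fun s => (s : ℤ)) (fun z => some (SignType.sign z)) (by decide)

instance : RE SignType := .ofFun fun s => (s : ℤ)
instance : Law SignType := .ofFun _
noncomputable instance : Disc SignType := .ofFun _ _ _ SignType.sign (by decide)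
  (PT.of_eq (f := fun z : ℤ => if 0 < z.toNat then 1 else if 0 < (-z).toNat then -1 else 0)
    (by fun_prop) fun z => by
      rcases lt_trichotomy z 0 with h | h | h
      · rw [sign_neg h, if_neg (by omega), if_pos (by omega)]; rfl
      · simp [h]
      · rw [sign_pos h, if_pos (by omega)]; rfl)

@[simp] lemma rsz_bool (b : Bool) : rsz b = 1 := rfl

lemma rsz_nat (n : ℕ) : rsz n = sz n := rfl

lemma rsz_nat_le (n : ℕ) : rsz n ≤ n := by rw [rsz_nat, sz_nat]; exact Nat.size_le.2 n.lt_two_pow_self

lemma rsz_sign (s : SignType) : rsz s ≤ 3 := by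
  change sz (s : ℤ) ≤ 3
  have : sz 1 = 1 := by rw [sz_nat]; rfl
  rw [sz_int]
  rcases s with _ | _ | _ <;> simp [this, show sz 0 = 0 from rfl]

@[simp] lemma rsz_val {p : β → Prop} (x : {b // p b}) : rsz x = rsz x.1 := rfl

@[simp] lemma rsz_none : rsz (none : Option β) = 0 := rfl

@[simp] lemma rsz_some (x : β) : rsz (some x) = 2 * rsz x + 1 := rfl

@[simp] lemma rsz_append (l m : List β) : rsz (l ++ m) = rsz l + rsz m := by
  induction l with
  | nil => simp
  | cons a l ih => simp [ih]; omega

lemma rsz_sublist {l m : List β} (h : l.Sublist m) : rsz l ≤ rsz m := by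
  induction h with
  | slnil => simp
  | cons a _ ih => simp; omega
  | cons_cons a _ ih => simp; omega

lemma rsz_perm {l m : List β} (h : l.Perm m) : rsz l = rsz m := (h.map _).sum_eq

@[simp] lemma rsz_reverse (l : List β) : rsz l.reverse = rsz l := rsz_perm (reverse_perm l)

lemma rsz_list_le {l : List β} {B : ℕ} (h : ∀ a ∈ l, rsz a ≤ B) :
    rsz l ≤ l.length * (2 * B + 1) := by
  induction l with
  | nil => simp
  | cons a l ih =>
    have := h a mem_cons_self
    have := ih fun b hb => h b (mem_cons_of_mem _ hb)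
    rw [rsz_cons, length_cons, add_mul]
    omega

lemma rsz_flatten (l : List (List β)) : rsz l.flatten ≤ rsz l := by
  induction l with
  | nil => simp
  | cons a l ih => simp; omega

namespace RPB

@[fun_prop] theorem length {l : α → List β} (h : RPT l) : RPB fun a => (l a).length :=
  (rsz h).mono fun _ => RPT.length_le _

@[fun_prop] theorem val {f : α → Un} (h : RPT f) : RPB fun a => (f a).val :=
  (rsz h).mono fun a => by rw [rsz_un]; omega

theorem of_pb [N487b59b3 β] [Disc β] {g : β → ℕ} (hg : PB g) {f : α → β} (hf : RPT f) :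
    RPB fun a => g (f a) :=
  let ⟨q, hq⟩ := hg
  ((rsz hf).eval q).mono fun a => by rw [Disc.rsz_eq]; exact hq _

/-- A bound for all members of a list. -/
theorem bound_sub {l : α → List β} {g : α → β → ℕ} (hl : RPT l)
    (hg : RPB fun p : {p : α × β // p.2 ∈ l p.1} => g p.1.1 p.1.2) :
    ∃ B : α → ℕ, RPB B ∧ ∀ a, ∀ x ∈ l a, g a x ≤ B a := by
  obtain ⟨q, hq⟩ := hg
  refine ⟨fun a => q.eval (2 * RE.rsz a + 1 + RE.rsz (l a)), RPB.eval
    (by have := self (α := α); fun_prop) q, fun a x hx => (hq ⟨(a, x), hx⟩).trans (eval_mono q ?_)⟩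
  have := RPT.rsz_mem hx
  change 2 * RE.rsz a + 1 + RE.rsz x ≤ _
  omega

end RPB

namespace RPT

/-- Polynomial time functions on discrete data. -/
theorem pt [N487b59b3 β] [N487b59b3 γ] [Disc β] [Disc γ] {g : β → γ} (hg : PT g) {f : α → β}
    (hf : RPT f) : RPT fun a => g (f a) :=
  hf.pure (fun c => Disc.toC (g (Disc.ofC c))) (Disc.pt_to.comp' (hg.comp' Disc.pt_of))
    ((RPB.of_pb (PB.sz hg) hf).mono fun a => (Disc.rsz_eq _).le)
    fun a r c h => by rw [Disc.rep_of h]; exact Disc.rep_to r _

theorem pt₂ [N487b59b3 β] [N487b59b3 γ] [N487b59b3 δ] [Disc β] [Disc γ] [Disc δ] {g : β → γ → δ}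
    (hg : PT fun p : β × γ => g p.1 p.2) {f : α → β} {f' : α → γ} (hf : RPT f) (hf' : RPT f') :
    RPT fun a => g (f a) (f' a) := pt hg (hf.pair hf')

@[fun_prop] theorem const [N487b59b3 β] [Disc β] (b : β) : RPT fun _ : α => b :=
  id'.pure (fun _ => Disc.toC b) (.const _) (.const _) fun _ r _ _ => Disc.rep_to r b

/-- A weaker promise is enough. -/
theorem sub {p : α → Prop} {f : α → β} (h : RPT f) : RPT fun a : {a // p a} => f a.1 := by
  fun_prop

theorem weaken {p q : α → Prop} {f : {a // q a} → β} (h : RPT f)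
    (e : ∀ a, p a → q a) : RPT fun a : {a // p a} => f ⟨a.1, e _ a.2⟩ :=
  h.comp' (f := fun a : {a // p a} => ⟨a.1, e _ a.2⟩) (mk (val id') _)

theorem of_forall {p : α → Prop} {f : α → β} (h : RPT fun a : {a // p a} => f a.1)
    (e : ∀ a, p a) : RPT f := h.comp' (f := fun a => ⟨a, e a⟩) (mk id' _)

/-- Branching; each branch may use the outcome of the test. -/
theorem branch {p : α → Prop} {i : ∀ a, Decidable (p a)} (hp : RPT fun a => @decide (p a) (i a))
    {f : α → β} (hf : RPT fun a : {a // p a} => f a.1) (hg : RPT fun a : {a // ¬ p a} => f a.1) :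
    RPT f := hp.sel (hf.weaken (by simp)) (hg.weaken (by simp))

@[fun_prop] theorem cond {c : α → Bool} {f g : α → β} (hc : RPT c) (hf : RPT f) (hg : RPT g) :
    RPT fun a => cond (c a) (f a) (g a) :=
  hc.sel (hf.sub.of_eq fun a => by rw [a.2]; rfl) (hg.sub.of_eq fun a => by rw [a.2]; rfl)

@[fun_prop] theorem ite {p : α → Prop} {i : ∀ a, Decidable (p a)} {f g : α → β}
    (hp : RPT fun a => @decide (p a) (i a)) (hf : RPT f) (hg : RPT g) :
    RPT fun a => @_root_.ite _ (p a) (i a) (f a) (g a) :=
  (hp.cond hf hg).of_eq fun a => by simp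

section Bool

variable {f g : α → Bool} {p q : α → Prop} {i : ∀ a, Decidable (p a)} {j : ∀ a, Decidable (q a)}

@[fun_prop] theorem not (hf : RPT f) : RPT fun a => !f a := pt (g := fun b => !b) (by fun_prop) hf

@[fun_prop] theorem and (hf : RPT f) (hg : RPT g) : RPT fun a => f a && g a :=
  pt₂ (g := fun b c => b && c) (by fun_prop) hf hg

@[fun_prop] theorem or (hf : RPT f) (hg : RPT g) : RPT fun a => f a || g a :=
  pt₂ (g := fun b c => b || c) (by fun_prop) hf hg

@[fun_prop] theorem xor (hf : RPT f) (hg : RPT g) : RPT fun a => xor (f a) (g a) :=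
  pt₂ (g := fun b c => Bool.xor b c) (by fun_prop) hf hg

@[fun_prop] theorem decide_bool {i : ∀ a, Decidable (f a = true)} (hf : RPT f) :
    RPT fun a => @decide (f a = true) (i a) := hf.of_eq fun a => by simp

@[fun_prop] theorem decide_not {k : ∀ a, Decidable (¬ p a)} (hp : RPT fun a => @decide (p a) (i a)) :
    RPT fun a => @decide (¬ p a) (k a) := hp.not.of_eq fun a => by simp

theorem decide_and {k : ∀ a, Decidable (p a ∧ q a)} (hp : RPT fun a => @decide (p a) (i a))
    (hq : RPT fun a => @decide (q a) (j a)) : RPT fun a => @decide (p a ∧ q a) (k a) :=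
  (hp.and hq).of_eq fun a => by simp

theorem decide_or {k : ∀ a, Decidable (p a ∨ q a)} (hp : RPT fun a => @decide (p a) (i a))
    (hq : RPT fun a => @decide (q a) (j a)) : RPT fun a => @decide (p a ∨ q a) (k a) :=
  (hp.or hq).of_eq fun a => by simp

theorem decide_iff {f : α → Bool} (hf : RPT f) (e : ∀ a, f a = true ↔ p a) :
    RPT fun a => @decide (p a) (i a) := hf.of_eq fun a => by rw [Bool.eq_iff_iff, e]; simp

@[fun_prop] theorem decide_eq [N487b59b3 β] [Disc β] {f g : α → β}
    {i : ∀ a, Decidable (f a = g a)} (hf : RPT f) (hg : RPT g) :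
    RPT fun a => @decide (f a = g a) (i a) := by
  classical
  exact (pt₂ (g := fun b c => decide (b = c)) (by fun_prop) hf hg).of_eq fun a => by simp

@[fun_prop] theorem beq [N487b59b3 β] [Disc β] [BEq β] [LawfulBEq β] {f g : α → β} (hf : RPT f)
    (hg : RPT g) : RPT fun a => f a == g a := pt₂ (g := fun b c => b == c) (by fun_prop) hf hg

end Bool

section Nat

variable {f g : α → ℕ}

@[fun_prop] theorem nadd (hf : RPT f) (hg : RPT g) : RPT fun a => f a + g a :=
  pt₂ (g := fun b c => b + c) (by fun_prop) hf hg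

@[fun_prop] theorem nsub (hf : RPT f) (hg : RPT g) : RPT fun a => f a - g a :=
  pt₂ (g := fun b c => b - c) (by fun_prop) hf hg

@[fun_prop] theorem nmul (hf : RPT f) (hg : RPT g) : RPT fun a => f a * g a :=
  pt₂ (g := fun b c => b * c) (by fun_prop) hf hg

@[fun_prop] theorem ndiv (hf : RPT f) (hg : RPT g) : RPT fun a => f a / g a :=
  pt₂ (g := fun b c => b / c) (by fun_prop) hf hg

@[fun_prop] theorem nmod (hf : RPT f) (hg : RPT g) : RPT fun a => f a % g a :=
  pt₂ (g := fun b c => b % c) (by fun_prop) hf hg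

@[fun_prop] theorem nmax (hf : RPT f) (hg : RPT g) : RPT fun a => max (f a) (g a) :=
  pt₂ (g := fun b c => max b c) (by fun_prop) hf hg

@[fun_prop] theorem nmin (hf : RPT f) (hg : RPT g) : RPT fun a => min (f a) (g a) :=
  pt₂ (g := fun b c => min b c) (by fun_prop) hf hg

@[fun_prop] theorem nsucc (hf : RPT f) : RPT fun a => (f a).succ := hf.nadd (const 1)

@[fun_prop] theorem decide_lt {i : ∀ a, Decidable (f a < g a)} (hf : RPT f) (hg : RPT g) :
    RPT fun a => @decide (f a < g a) (i a) :=
  (pt₂ (g := fun b c => decide (b < c)) (by fun_prop) hf hg).of_eq fun a => by simp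

@[fun_prop] theorem decide_le {i : ∀ a, Decidable (f a ≤ g a)} (hf : RPT f) (hg : RPT g) :
    RPT fun a => @decide (f a ≤ g a) (i a) :=
  (pt₂ (g := fun b c => decide (b ≤ c)) (by fun_prop) hf hg).of_eq fun a => by simp

@[fun_prop] theorem unVal {f : α → Un} (hf : RPT f) : RPT fun a => (f a).val :=
  pt (g := Un.val) (PT.of_eq (PT.length (PT.of_enc (f := fun n : Un => replicate n.val true)
    PT.id' fun _ => rfl)) (by simp)) hf

@[fun_prop] theorem unMk (hf : RPT f) (hb : RPB f) : RPT fun a => Un.mk (f a) := by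
  obtain ⟨q, hq⟩ := hb
  obtain ⟨a1, a2⟩ := pt_csz (α := α) q
  refine (id'.pair hf).pure (fun c : C α × ℕ => (replicate (min c.2 (q.eval (csz (X := α) c.1)))
    true : List Bool)) (PT.replicate (PT.min (by fun_prop) (a1.comp' (by fun_prop)))
      ((a2.comp (f := fun c : C α × ℕ => c.1) (by fun_prop)).min_right _) (.const _))
    (((RPB.const 3).mul ⟨q, hq⟩).mono fun a => (rsz_un _).le) fun a r c h => ?_
  rw [RE.eq h.1, show c.2 = f a from h.2, min_eq_left (hq a)]
  exact forall₂_same.2 fun _ _ => rfl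

/-- Polynomial time functions of a number in unary. -/
theorem pt_un [N487b59b3 β] [N487b59b3 γ] [Disc β] [Disc γ] {g : β → ℕ → γ}
    (hg : PT fun p : β × List Bool => g p.1 p.2.length) {f : α → β} {n : α → ℕ} (hf : RPT f)
    (hn : RPT n) (hb : RPB n) : RPT fun a => g (f a) (n a) :=
  (pt₂ (g := fun b (l : List Bool) => g b l.length) hg hf (f' := fun a => replicate (n a) true)
    ((unMk hn hb).pure (fun c => c) PT.id' (RPB.rsz (unMk hn hb)) fun _ _ _ h => h)).of_eq
      (by simp)

@[fun_prop] theorem npow (hf : RPT f) (hg : RPT g) (hb : RPB g) : RPT fun a => f a ^ g a :=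
  pt_un (g := fun b n => b ^ n) (by fun_prop) hf hg hb

@[fun_prop] theorem range (hf : RPT f) (hb : RPB f) : RPT fun a => range (f a) :=
  pt_un (g := fun (_ : ℕ) n => List.range n) (by fun_prop) hf hf hb

/-- The numbers below `n` in unary. -/
theorem rangeU (hf : RPT f) (hb : RPB f) : RPT fun a => (List.range (f a)).map Un.mk :=
  pt_un (g := fun (_ : ℕ) n => (List.range n).map Un.mk) (PT.of_eq (f := fun p : ℕ × List Bool =>
    (List.range p.2.length).map fun i => Un.mk (min i p.2.length)) (PT.map (by fun_prop)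
      (PT.of_enc (g := fun q : (ℕ × List Bool) × ℕ => List.replicate (min q.2 q.1.2.length) true)
        (by fun_prop) fun _ => rfl)) fun p => map_congr_left fun i hi => by
          rw [min_eq_left (mem_range.1 hi).le]) hf hf hb

@[fun_prop] theorem toNat {f : α → Bool} (hf : RPT f) : RPT fun a => (f a).toNat :=
  pt (g := Bool.toNat) (by fun_prop) hf

@[fun_prop] theorem nsum {l : α → List ℕ} (hl : RPT l) : RPT fun a => (l a).sum :=
  pt (g := List.sum) (by fun_prop) hl

end Nat

section Int

variable {f g : α → ℤ}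

@[fun_prop] theorem zadd (hf : RPT f) (hg : RPT g) : RPT fun a => f a + g a :=
  pt₂ (g := fun b c => b + c) (by fun_prop) hf hg

@[fun_prop] theorem zsub (hf : RPT f) (hg : RPT g) : RPT fun a => f a - g a :=
  pt₂ (g := fun b c => b - c) (by fun_prop) hf hg

@[fun_prop] theorem zmul (hf : RPT f) (hg : RPT g) : RPT fun a => f a * g a :=
  pt₂ (g := fun b c => b * c) (by fun_prop) hf hg

@[fun_prop] theorem zneg (hf : RPT f) : RPT fun a => -f a := pt (g := fun b => -b) (by fun_prop) hf

@[fun_prop] theorem ztoNat (hf : RPT f) : RPT fun a => (f a).toNat :=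
  pt (g := Int.toNat) (by fun_prop) hf

@[fun_prop] theorem zcast {f : α → ℕ} (hf : RPT f) : RPT fun a => (f a : ℤ) :=
  pt (g := fun b : ℕ => (b : ℤ)) (by fun_prop) hf

@[fun_prop] theorem zsum {l : α → List ℤ} (hl : RPT l) : RPT fun a => (l a).sum :=
  pt (g := List.sum) (by fun_prop) hl

@[fun_prop] theorem signCast {f : α → SignType} (hf : RPT f) : RPT fun a => (f a : ℤ) :=
  hf.pure (fun c => c) PT.id' (RPB.rsz hf) fun _ _ _ h => h

@[fun_prop] theorem zsign (hf : RPT f) : RPT fun a => SignType.sign (f a) :=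
  pt (g := fun z : ℤ => SignType.sign z) (Disc.pt_of (X := SignType)) hf

end Int

section List

variable {l m : α → List β} {n : α → ℕ} {f g : α → β}

@[fun_prop] theorem nil : RPT fun _ : α => ([] : List β) :=
  id'.pure (fun _ => ([] : List (C β))) (.const _) (.const _) fun _ _ _ _ => Forall₂.nil

@[fun_prop] theorem none' : RPT fun _ : α => (none : Option β) :=
  id'.pure (fun _ => ([] : List (C β))) (.const _) (.const _) fun _ _ _ _ => Forall₂.nil

@[fun_prop] theorem cons (hf : RPT f) (hl : RPT l) : RPT fun a => f a :: l a :=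
  (hf.pair hl).pure (fun c : C β × List (C β) => c.1 :: c.2) (by fun_prop)
    ((RPB.rsz (hf.pair hl)).mono fun _ => le_rfl) fun _ _ _ h => Forall₂.cons h.1 h.2

@[fun_prop] theorem append (hl : RPT l) (hm : RPT m) : RPT fun a => l a ++ m a :=
  (hl.pair hm).pure (fun c : List (C β) × List (C β) => c.1 ++ c.2) (by fun_prop)
    (((RPB.rsz hl).add (RPB.rsz hm)).mono fun a => (rsz_append _ _).le)
    fun _ _ _ h => rel_append h.1 h.2

@[fun_prop] theorem reverse (hl : RPT l) : RPT fun a => (l a).reverse :=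
  hl.pure (fun c : List (C β) => c.reverse) (by fun_prop)
    ((RPB.rsz hl).mono fun a => (rsz_reverse _).le) fun _ _ _ h => rel_reverse h

@[fun_prop] theorem length (hl : RPT l) : RPT fun a => (l a).length :=
  hl.pure (fun c : List (C β) => c.length) (by fun_prop)
    ((RPB.length hl).mono fun a => rsz_nat_le _) fun _ _ _ h => Forall₂.length_eq h

@[fun_prop] theorem isEmpty (hl : RPT l) : RPT fun a => (l a).isEmpty :=
  (decide_eq (i := fun _ => inferInstance) hl.length (const 0)).of_eq fun a => by
    cases l a <;> simp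

@[fun_prop] theorem take (hn : RPT n) (hl : RPT l) : RPT fun a => (l a).take (n a) :=
  (hn.pair hl).pure (fun c : ℕ × List (C β) => c.2.take c.1) (by fun_prop)
    ((RPB.rsz hl).mono fun a => rsz_sublist (take_sublist _ _))
    fun _ _ c h => by rw [show c.1 = _ from h.1]; exact forall₂_take _ h.2

@[fun_prop] theorem drop (hn : RPT n) (hl : RPT l) : RPT fun a => (l a).drop (n a) :=
  (hn.pair hl).pure (fun c : ℕ × List (C β) => c.2.drop c.1) (by fun_prop)
    ((RPB.rsz hl).mono fun a => rsz_sublist (drop_sublist _ _))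
    fun _ _ c h => by rw [show c.1 = _ from h.1]; exact forall₂_drop _ h.2

@[fun_prop] theorem tail (hl : RPT l) : RPT fun a => (l a).tail :=
  (drop (const 1) hl).of_eq fun a => drop_one

@[fun_prop] theorem dropLast (hl : RPT l) : RPT fun a => (l a).dropLast :=
  (take (hl.length.nsub (const 1)) hl).of_eq fun a => dropLast_eq_take.symm

@[fun_prop] theorem flatten {l : α → List (List β)} (hl : RPT l) : RPT fun a => (l a).flatten :=
  hl.pure (fun c : List (List (C β)) => c.flatten) (by fun_prop)
    ((RPB.rsz hl).mono fun a => rsz_flatten _) fun _ _ _ h => rel_flatten h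

@[fun_prop] theorem toList {o : α → Option β} (ho : RPT o) : RPT fun a => (o a).toList :=
  ho.pure (fun c => c) PT.id' (RPB.rsz ho) fun _ _ _ h => h

theorem of_toList {o : α → Option β} (ho : RPT fun a => (o a).toList) : RPT o :=
  ho.pure (fun c => c) PT.id' (RPB.rsz ho) fun _ _ _ h => h

@[fun_prop] theorem some' (hf : RPT f) : RPT fun a => some (f a) := of_toList (hf.cons nil)

@[fun_prop] theorem head? (hl : RPT l) : RPT fun a => (l a).head? :=
  of_toList ((take (const 1) hl).of_eq fun a => by cases l a <;> rfl)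

@[fun_prop] theorem getElem? (hn : RPT n) (hl : RPT l) : RPT fun a => (l a)[n a]? :=
  (drop hn hl).head?.of_eq fun a => head?_drop

@[fun_prop] theorem getLast? (hl : RPT l) : RPT fun a => (l a).getLast? :=
  hl.reverse.head?.of_eq fun a => head?_reverse

@[fun_prop] theorem headD (hl : RPT l) (hf : RPT f) : RPT fun a => (l a).headD (f a) :=
  (hl.pair hf).pure (fun c : List (C β) × C β => c.1.headD c.2) (by fun_prop)
    (((RPB.rsz hl).add (RPB.rsz hf)).mono fun a => by cases l a <;> simp; omega)
    fun a r c h => by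
      have := h.1
      have h2 := h.2
      dsimp only at this h2 ⊢
      generalize l a = u at this
      generalize c.1 = v at this
      cases (show Forall₂ (Rep r) v u from this) with
      | nil => exact h2
      | cons b _ => exact b

@[fun_prop] theorem ogetD {o : α → Option β} (ho : RPT o) (hf : RPT f) :
    RPT fun a => (o a).getD (f a) := (ho.toList.headD hf).of_eq fun a => by cases o a <;> rfl

@[fun_prop] theorem getD (hn : RPT n) (hl : RPT l) (hf : RPT f) :
    RPT fun a => (l a).getD (n a) (f a) := (getElem? hn hl).ogetD hf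

@[fun_prop] theorem isSome {o : α → Option β} (ho : RPT o) : RPT fun a => (o a).isSome :=
  ho.toList.isEmpty.not.of_eq fun a => by cases o a <;> rfl

@[fun_prop] theorem zip {m : α → List γ} (hl : RPT l) (hm : RPT m) :
    RPT fun a => (l a).zip (m a) := by
  have b : ∀ (u : List β) (v : List γ), rsz (u.zip v) ≤ 4 * rsz u + 2 * rsz v := fun u => by
    induction u with
    | nil => simp
    | cons x u ih =>
      rintro (_ | ⟨y, v⟩)
      · simp
      · have := ih v; simp; omega
  refine (hl.pair hm).pure (fun c : List (C β) × List (C γ) => c.1.zip c.2) (by fun_prop)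
    (RPB.mono (by fun_prop) fun a => b _ _) fun a r c h => ?_
  have h1 : Forall₂ (Rep r) c.1 (l a) := h.1
  have h2 : Forall₂ (Rep r) c.2 (m a) := h.2
  generalize c.1 = c1, c.2 = c2, l a = u, m a = v at h1 h2 ⊢
  induction h1 generalizing c2 v with
  | nil => exact Forall₂.nil
  | cons x _ ih =>
    cases h2 with
    | nil => exact Forall₂.nil
    | cons y z => exact Forall₂.cons ⟨x, y⟩ (ih _ _ z)

@[fun_prop] theorem zipIdx (hl : RPT l) : RPT fun a => (l a).zipIdx :=
  (hl.zip (range hl.length (.length hl))).of_eq fun a => by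
    rw [zipIdx_eq_zip_range', range_eq_range']

@[fun_prop] theorem set (hn : RPT n) (hl : RPT l) (hf : RPT f) :
    RPT fun a => (l a).set (n a) (f a) :=
  RPT.of_eq (f := fun a => if n a < (l a).length then
    (l a).take (n a) ++ f a :: (l a).drop (n a + 1) else l a) (by fun_prop)
    fun a => (set_eq_take_append_cons_drop).symm

end List

section Fold

variable [Law σ] {f : α → σ → β → σ} {l : α → List β} {s0 : α → σ} {B : α → ℕ}

/-- Left fold with an invariant that bounds the size of the state. The step may use the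
invariant. -/
theorem foldl_sub (I : α → σ → Prop)
    (hf : RPT fun p : {p : α × σ × β // I p.1 p.2.1 ∧ p.2.2 ∈ l p.1} => f p.1.1 p.1.2.1 p.1.2.2)
    (hl : RPT l) (hs : RPT s0) (h0 : ∀ a, I a (s0 a))
    (hI : ∀ a s, ∀ x ∈ l a, I a s → I a (f a s x)) (hB : RPB B)
    (hb : ∀ a s, I a s → rsz s ≤ B a) : RPT fun a => (l a).foldl (f a) (s0 a) := by
  have k : ∀ a u v, l a = u ++ v → I a (u.foldl (f a) (s0 a)) := fun a u v e =>
    foldlRecOn _ _ (h0 a) fun s hs x hx => hI a s x (by simp [e, hx]) hs
  refine foldl_pre (hf.weaken ?_) hl hs hB fun a u v e => hb a _ (k a u v e)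
  rintro ⟨a, s, x⟩ ⟨u, v, e, e'⟩
  exact ⟨e' ▸ k a u _ e, by simp [show l a = _ from e]⟩

theorem foldl_inv (hf : RPT fun p : α × σ × β => f p.1 p.2.1 p.2.2) (hl : RPT l) (hs : RPT s0)
    (I : α → σ → Prop) (h0 : ∀ a, I a (s0 a)) (hI : ∀ a s, ∀ x ∈ l a, I a s → I a (f a s x))
    (hB : RPB B) (hb : ∀ a s, I a s → rsz s ≤ B a) : RPT fun a => (l a).foldl (f a) (s0 a) :=
  foldl_sub I hf.sub hl hs h0 hI hB hb

/-- Left fold in which each round adds at most `B a` to the size of the state. -/
theorem foldl_grow_sub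
    (hf : RPT fun p : {p : α × σ × β // p.2.2 ∈ l p.1} => f p.1.1 p.1.2.1 p.1.2.2)
    (hl : RPT l) (hs : RPT s0) (hB : RPB B)
    (hb : ∀ a s, ∀ x ∈ l a, rsz (f a s x) ≤ rsz s + B a) :
    RPT fun a => (l a).foldl (f a) (s0 a) := by
  refine foldl_pre (hf.weaken ?_) hl hs (B := fun a => rsz (s0 a) + (l a).length * B a)
    (by fun_prop) fun a u v e => ?_
  · rintro ⟨a, s, x⟩ ⟨u, v, e, -⟩
    simp [show l a = _ from e]
  · have : ∀ (m : List β) (s : σ), (∀ x ∈ m, x ∈ l a) →
        rsz (m.foldl (f a) s) ≤ rsz s + m.length * B a := by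
      intro m
      induction m with
      | nil => simp
      | cons x m ih =>
        intro s hm
        have h1 := ih (f a s x) fun y hy => hm y (mem_cons_of_mem _ hy)
        have h2 := hb a s x (hm x mem_cons_self)
        rw [foldl_cons, length_cons, add_mul]
        omega
    refine (this u _ fun x hx => by simp [e, hx]).trans ?_
    rw [e, length_append, add_mul]
    omega

theorem foldl_grow (hf : RPT fun p : α × σ × β => f p.1 p.2.1 p.2.2) (hl : RPT l) (hs : RPT s0)
    (hB : RPB B) (hb : ∀ a s, ∀ x ∈ l a, rsz (f a s x) ≤ rsz s + B a) :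
    RPT fun a => (l a).foldl (f a) (s0 a) := foldl_grow_sub hf.sub hl hs hB hb

theorem foldr_inv {f : α → β → σ → σ} (hf : RPT fun p : α × β × σ => f p.1 p.2.1 p.2.2)
    (hl : RPT l) (hs : RPT s0) (I : α → σ → Prop) (h0 : ∀ a, I a (s0 a))
    (hI : ∀ a s, ∀ x ∈ l a, I a s → I a (f a x s)) (hB : RPB B) (hb : ∀ a s, I a s → rsz s ≤ B a) :
    RPT fun a => (l a).foldr (f a) (s0 a) :=
  (foldl_inv (f := fun a s x => f a x s) (hf.comp' (f := fun p : α × σ × β => (p.1, p.2.2, p.2.1))
    (by fun_prop)) hl.reverse hs I h0 (fun a s x hx => hI a s x (mem_reverse.1 hx)) hB hb).of_eq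
      fun a => foldl_reverse

/-- A sequence of states `u a i`, each computed from the previous one. -/
theorem seq {u : α → ℕ → σ} {n : α → ℕ} {f : α → σ → ℕ → σ}
    (hf : RPT fun p : {p : α × σ × Un // p.2.2.val < n p.1 ∧ p.2.1 = u p.1 p.2.2.val} =>
      f p.1.1 p.1.2.1 p.1.2.2.val) (hn : RPT n) (hnb : RPB n) (h0 : RPT fun a => u a 0)
    (hu : ∀ a, ∀ i < n a, u a (i + 1) = f a (u a i) i) (hB : RPB B)
    (hb : ∀ a, ∀ i ≤ n a, rsz (u a i) ≤ B a) : RPT fun a => u a (n a) := by
  have k : ∀ a, ∀ i ≤ n a, ((List.range i).map Un.mk).foldl (fun s x => f a s x.val) (u a 0) =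
      u a i := fun a i hi => by
    induction i with
    | zero => rfl
    | succ i ih => rw [range_succ, map_append, foldl_append, ih (by omega), hu a i hi]; rfl
  have e : ∀ a u v, (List.range (n a)).map Un.mk = u ++ v →
      u.length ≤ n a ∧ u = (List.range u.length).map Un.mk := fun a u v e => by
    have := congrArg List.length e
    rw [length_map, length_range, length_append] at this
    refine ⟨by omega, ?_⟩
    conv_lhs => rw [← take_left (l₁ := u) (l₂ := v), ← e, ← map_take, take_range,
      min_eq_left (by omega)]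
  refine (foldl_pre (f := fun a s (x : Un) => f a s x.val) (hf.weaken ?_) (rangeU hn hnb) h0 hB
    fun a u v h => ?_).of_eq fun a => k a _ le_rfl
  · rintro ⟨a, s, x⟩ ⟨u, v, h, h'⟩
    dsimp only at h h' ⊢
    subst h'
    obtain ⟨b, c⟩ := e a (u ++ [x]) v (by simpa using h)
    rw [length_append, length_singleton] at b c
    rw [range_succ, map_append] at c
    obtain ⟨c1, c2⟩ := append_inj' c rfl
    obtain rfl : x = ⟨u.length⟩ := by simpa using c2
    exact ⟨b, by rw [c1, length_map, length_range]; exact k a _ (by omega)⟩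
  · obtain ⟨b, c⟩ := e a u v h
    rw [c, k a _ b]
    exact hb a _ b

theorem iterate {f : α → σ → σ} {n : α → ℕ} (hf : RPT fun p : α × σ => f p.1 p.2) (hn : RPT n)
    (hnb : RPB n) (hs : RPT s0) (hB : RPB B) (hb : ∀ a, ∀ i ≤ n a, rsz ((f a)^[i] (s0 a)) ≤ B a) :
    RPT fun a => (f a)^[n a] (s0 a) :=
  seq (u := fun a i => (f a)^[i] (s0 a)) (f := fun a s _ => f a s)
    (hf.comp' (f := fun p : {p : α × σ × Un // _} => (p.1.1, p.1.2.1)) (by fun_prop)) hn hnb hs
    (fun _ _ _ => Function.iterate_succ_apply' _ _ _) hB hb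

end Fold

section Map

variable {l : α → List β}

theorem flatMap_sub [Law γ] {h : α → β → List γ} (hl : RPT l)
    (hh : RPT fun p : {p : α × β // p.2 ∈ l p.1} => h p.1.1 p.1.2) :
    RPT fun a => (l a).flatMap (h a) := by
  obtain ⟨B, b1, b2⟩ := RPB.bound_sub hl (g := fun a x => rsz (h a x)) (RPB.rsz hh)
  refine (foldl_grow_sub (f := fun a s x => s ++ h a x) (s0 := fun _ => [])
    (append (by fun_prop) (hh.comp' (f := fun p : {p : α × List γ × β // p.2.2 ∈ l p.1} =>
      ⟨(p.1.1, p.1.2.2), p.2⟩) (by fun_prop))) hl nil b1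
    fun a s x hx => by simpa using b2 a x hx).of_eq fun a => ?_
  rw [flatMap_eq_foldl]

@[fun_prop] theorem flatMap [Law γ] {h : α → β → List γ} (hl : RPT l)
    (hh : RPT fun p : α × β => h p.1 p.2) : RPT fun a => (l a).flatMap (h a) :=
  flatMap_sub hl hh.sub

theorem map_sub [Law γ] {h : α → β → γ} (hl : RPT l)
    (hh : RPT fun p : {p : α × β // p.2 ∈ l p.1} => h p.1.1 p.1.2) :
    RPT fun a => (l a).map (h a) :=
  (flatMap_sub (h := fun a x => [h a x]) hl (hh.cons nil)).of_eq fun a => map_eq_flatMap.symm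

@[fun_prop] theorem map [Law γ] {h : α → β → γ} (hl : RPT l)
    (hh : RPT fun p : α × β => h p.1 p.2) : RPT fun a => (l a).map (h a) := map_sub hl hh.sub

/-- A list indexed by the numbers below `n a`, which are given in unary. -/
theorem map_range_sub [Law γ] {h : α → ℕ → γ} {n : α → ℕ} (hn : RPT n) (hb : RPB n)
    (hh : RPT fun p : {p : α × Un // p.2.val < n p.1} => h p.1.1 p.1.2.val) :
    RPT fun a => (List.range (n a)).map (h a) :=
  (map_sub (h := fun a (x : Un) => h a x.val) (rangeU hn hb) (hh.weaken (by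
    rintro ⟨a, x⟩ hx
    obtain ⟨i, hi, rfl⟩ := mem_map.1 hx
    exact mem_range.1 hi))).of_eq fun a => by rw [map_map]; rfl

theorem map_range [Law γ] {h : α → ℕ → γ} {n : α → ℕ} (hn : RPT n) (hb : RPB n)
    (hh : RPT fun p : α × Un => h p.1 p.2.val) : RPT fun a => (List.range (n a)).map (h a) :=
  map_range_sub hn hb hh.sub

@[fun_prop] theorem filterMap [Law γ] {h : α → β → Option γ} (hl : RPT l)
    (hh : RPT fun p : α × β => h p.1 p.2) : RPT fun a => (l a).filterMap (h a) :=
  (flatMap (h := fun a x => (h a x).toList) hl hh.toList).of_eq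
    fun a => (filterMap_eq_flatMap_toList _ _).symm

theorem filter_sub [Law β] {h : α → β → Bool} (hl : RPT l)
    (hh : RPT fun p : {p : α × β // p.2 ∈ l p.1} => h p.1.1 p.1.2) :
    RPT fun a => (l a).filter (h a) :=
  (flatMap_sub (h := fun a x => bif h a x then [x] else []) hl
    (hh.cond (by fun_prop) nil)).of_eq fun a => by
      induction l a with
      | nil => rfl
      | cons x u ih => rw [flatMap_cons, ih, filter_cons]; cases h a x <;> rfl

@[fun_prop] theorem filter [Law β] {h : α → β → Bool} (hl : RPT l)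
    (hh : RPT fun p : α × β => h p.1 p.2) : RPT fun a => (l a).filter (h a) :=
  filter_sub hl hh.sub

theorem countP_sub {h : α → β → Bool} (hl : RPT l)
    (hh : RPT fun p : {p : α × β // p.2 ∈ l p.1} => h p.1.1 p.1.2) :
    RPT fun a => (l a).countP (h a) :=
  (pt (g := fun u : List Bool => u.countP id) (by fun_prop) (map_sub hl hh)).of_eq
    fun a => by rw [countP_map]; rfl

@[fun_prop] theorem countP {h : α → β → Bool} (hl : RPT l)
    (hh : RPT fun p : α × β => h p.1 p.2) : RPT fun a => (l a).countP (h a) :=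
  countP_sub hl hh.sub

theorem any_sub {h : α → β → Bool} (hl : RPT l)
    (hh : RPT fun p : {p : α × β // p.2 ∈ l p.1} => h p.1.1 p.1.2) :
    RPT fun a => (l a).any (h a) :=
  (pt (g := fun u : List Bool => u.any id) (by fun_prop) (map_sub hl hh)).of_eq
    fun a => by rw [any_map]; rfl

@[fun_prop] theorem any {h : α → β → Bool} (hl : RPT l)
    (hh : RPT fun p : α × β => h p.1 p.2) : RPT fun a => (l a).any (h a) := any_sub hl hh.sub

theorem all_sub {h : α → β → Bool} (hl : RPT l)
    (hh : RPT fun p : {p : α × β // p.2 ∈ l p.1} => h p.1.1 p.1.2) :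
    RPT fun a => (l a).all (h a) :=
  (pt (g := fun u : List Bool => u.all id) (by fun_prop) (map_sub hl hh)).of_eq
    fun a => by rw [all_map]; rfl

@[fun_prop] theorem all {h : α → β → Bool} (hl : RPT l)
    (hh : RPT fun p : α × β => h p.1 p.2) : RPT fun a => (l a).all (h a) := all_sub hl hh.sub

@[fun_prop] theorem findIdx {h : α → β → Bool} (hl : RPT l)
    (hh : RPT fun p : α × β => h p.1 p.2) : RPT fun a => (l a).findIdx (h a) :=
  (pt (g := fun u : List Bool => u.findIdx id) (by fun_prop) (map hl hh)).of_eq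
    fun a => by rw [findIdx_map]; rfl

@[fun_prop] theorem find? [Law β] {h : α → β → Bool} (hl : RPT l)
    (hh : RPT fun p : α × β => h p.1 p.2) : RPT fun a => (l a).find? (h a) :=
  (filter hl hh).head?.of_eq fun a => head?_filter

@[fun_prop] theorem replicate [Law β] {n : α → ℕ} {f : α → β} (hn : RPT n) (hb : RPB n)
    (hf : RPT f) : RPT fun a => List.replicate (n a) (f a) :=
  (map (h := fun a _ => f a) (range hn hb) (by fun_prop)).of_eq fun a => by simp

@[fun_prop] theorem product [Law β] [Law γ] {m : α → List γ} (hl : RPT l) (hm : RPT m) :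
    RPT fun a => (l a).product (m a) := by unfold List.product; fun_prop

@[fun_prop] theorem zipWith [Law δ] {m : α → List γ} {h : α → β → γ → δ} (hl : RPT l) (hm : RPT m)
    (hh : RPT fun p : α × β × γ => h p.1 p.2.1 p.2.2) :
    RPT fun a => List.zipWith (h a) (l a) (m a) :=
  (map (h := fun a p => h a p.1 p.2) (hl.zip hm) hh).of_eq fun a => by
    rw [List.zip, map_zipWith]

@[fun_prop] theorem omap [Law γ] {o : α → Option β} {h : α → β → γ} (ho : RPT o)
    (hh : RPT fun p : α × β => h p.1 p.2) : RPT fun a => (o a).map (h a) :=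
  of_toList ((map ho.toList hh).of_eq fun a => by cases o a <;> rfl)

@[fun_prop] theorem elim [Law γ] {o : α → Option β} {g : α → γ} {h : α → β → γ} (ho : RPT o)
    (hg : RPT g) (hh : RPT fun p : α × β => h p.1 p.2) : RPT fun a => (o a).elim (g a) (h a) :=
  ((omap ho hh).ogetD hg).of_eq fun a => by cases o a <;> rfl

@[fun_prop] theorem decide_mem [N487b59b3 β] [Disc β] {x : α → β} {i : ∀ a, Decidable (x a ∈ l a)}
    (hx : RPT x) (hl : RPT l) : RPT fun a => @decide (x a ∈ l a) (i a) := by
  classical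
  exact (pt₂ (g := fun b (u : List β) => decide (b ∈ u)) (by fun_prop) hx hl).of_eq
    fun a => by simp

@[fun_prop] theorem dedup [N487b59b3 β] [Disc β] [DecidableEq β] (hl : RPT l) :
    RPT fun a => (l a).dedup := pt (g := List.dedup) (by fun_prop) hl

@[fun_prop] theorem count [N487b59b3 β] [Disc β] [BEq β] [LawfulBEq β] {x : α → β} (hx : RPT x)
    (hl : RPT l) : RPT fun a => (l a).count (x a) :=
  pt₂ (g := fun b (u : List β) => u.count b) (by fun_prop) hx hl

end Map

section Hid

variable {X Y : Type} [N487b59b3 X] [N487b59b3 Y]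

/-- Polynomial time functions on hidden data. -/
theorem hid {g : X → Y} (hg : PT g) {f : α → Hid X} (hf : RPT f) :
    RPT fun a => Hid.mk (g (f a).val) :=
  hf.pure g hg (.const 0) fun _ _ _ h => congrArg g h

theorem hid_pair {f : α → Hid X} {g : α → Hid Y} (hf : RPT f) (hg : RPT g) :
    RPT fun a => Hid.mk ((f a).val, (g a).val) :=
  (hf.pair hg).pure (fun c : X × Y => c) PT.id' (.const 0) fun _ _ _ h => Prod.ext h.1 h.2

theorem hide [N487b59b3 β] [Disc β] {f : α → β} (hf : RPT f) : RPT fun a => Hid.mk (f a) :=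
  hf.pure Disc.ofC Disc.pt_of (.const 0) fun _ _ _ h => Disc.rep_of h

theorem unhide [N487b59b3 β] [Disc β] {f : α → Hid β} (hf : RPT f)
    (hb : RPB fun a => rsz (f a).val) : RPT fun a => (f a).val :=
  hf.pure Disc.toC Disc.pt_to hb fun _ r c h => by
    rw [show c = _ from h]; exact Disc.rep_to r _

end Hid

end RPT

end Pool.Agent.Lib.MP_837412_lc
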