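import Pool.Agent.Lib.MP_837412_lc.U2

/-!
Functions that the machine computes in polynomial time: real and complex numbers, rings, sums.
-/

namespace Pool.Agent.Lib.MP_837412_lc

open Pool.Agent.Shared.PolyTime List

variable {α β γ : Type} [RE α] [RE β] [RE γ]

/-- The register `i` holds `x`. -/
def At (r : List ℝ) (i : ℕ) (x : ℝ) : Prop := i < r.length ∧ r.getD i 0 = x

lemma At.mono {r r' : List ℝ} {i : ℕ} {x : ℝ} (h : At r i x) (e : r <+: r') : At r' i x := by
  obtain ⟨t, rfl⟩ := e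
  exact ⟨by rw [length_append]; have := h.1; omega, by rw [getD_append _ _ _ _ h.1, h.2]⟩

lemma At.snoc (r : List ℝ) (x : ℝ) : At (r ++ [x]) r.length x := by simp [At]

lemma At.sgn {r : List ℝ} {i : ℕ} {x : ℝ} (h : At r i x) : (r.map sgn).getD i 0 = sgn x := by
  rw [← h.2, getD_eq_getElem _ _ h.1, getD_eq_getElem _ _ (by simpa using h.1), getElem_map]

@[simp] lemma sgn_eq_zero {x : ℝ} : sgn x = 0 ↔ x = 0 := by
  rcases lt_trichotomy x 0 with h | h | h <;> simp [sgn, h, sign_neg, sign_pos, ne_of_lt, ne_of_gt]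

lemma rep_real {r : List ℝ} {c : ℕ × ℕ} {x : ℝ} :
    Rep r c x ↔ ∃ u v, At r c.1 u ∧ At r c.2 v ∧ v ≠ 0 ∧ x = u / v :=
  ⟨fun h => ⟨_, _, ⟨h.1, rfl⟩, ⟨h.2.1, rfl⟩, h.2.2⟩,
    fun ⟨_, _, a, b, h⟩ => ⟨a.1, b.1, by rw [a.2, b.2]; exact h⟩⟩

lemma Go.op {r : List ℝ} {o i j : ℕ} {x y : ℝ} (ho : o ≤ 3) (hi : At r i x) (hj : At r j y) :
    ∃ r', Go (MP_837412_lc.emit (o, i, j) r.length) r r' r.length ∧ r'.length = r.length + 1 ∧
      At r' r.length (if o = 0 then 1 else if o = 1 then x + y else if o = 2 then x - y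
        else x * y) :=
  ⟨_, .emit ⟨ho, hi.1.le, hj.1.le⟩, by simp, by rw [← hi.2, ← hj.2]; exact At.snoc _ _⟩

namespace RPT

variable {f g : α → ℝ}

theorem rone : RPT fun _ : α => (1 : ℝ) := by
  refine id'.post (fun _ n s => (emit (0, 0, 0) n s).bind fun x n => ret ((x, x) : ℕ × ℕ) n) ?_
    (.const 1) (.const 1) fun _ r _ _ => ?_
  · exact pt_bind (α := C α × ℕ × List ℤ) (by fun_prop)
      (pt_ret (γ := ℕ × ℕ) (by fun_prop) (by fun_prop))
  · have c := Go.emit (u := r) (i := (0, 0, 0)) (by simp [WF])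
    exact ⟨_, _, c.bind (k := fun x n _ => ret ((x, x) : ℕ × ℕ) n) (.ret _ _),
      rep_real.2 ⟨_, _, At.snoc _ _, At.snoc _ _, by simp [Ins.val], by simp [Ins.val]⟩, by simp⟩

theorem raddsub (hf : RPT f) (hg : RPT g) (o : ℕ) (ho : o = 1 ∨ o = 2) :
    RPT fun a => if o = 1 then f a + g a else f a - g a := by
  refine (hf.pair hg).post (fun (c : (ℕ × ℕ) × ℕ × ℕ) n s =>
    (emit (3, c.1.1, c.2.2) n s).bind fun x n => (emit (3, c.2.1, c.1.2) n s).bind fun y n =>
      (emit (o, x, y) n s).bind fun z n => (emit (3, c.1.2, c.2.2) n s).bind fun w n =>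
        ret ((z, w) : ℕ × ℕ) n) ?_ (.const 4) (.const 1) fun a r c h => ?_
  · exact pt_bind (α := ((ℕ × ℕ) × ℕ × ℕ) × ℕ × List ℤ) (by fun_prop) (pt_bind (by fun_prop)
      (pt_bind (by fun_prop) (pt_bind (by fun_prop)
        (pt_ret (γ := ℕ × ℕ) (by fun_prop) (by fun_prop)))))
  obtain ⟨u, v, a1, a2, a3, a4⟩ := rep_real.1 h.1
  obtain ⟨x, y, b1, b2, b3, b4⟩ := rep_real.1 h.2
  obtain ⟨r1, c1, d1, e1⟩ := Go.op (o := 3) le_rfl a1 b2
  obtain ⟨r2, c2, d2, e2⟩ := Go.op (o := 3) le_rfl (b1.mono c1.pre) (a2.mono c1.pre)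
  obtain ⟨r3, c3, d3, e3⟩ := Go.op (o := o) (by omega) (e1.mono c2.pre) e2
  have p := c1.pre.trans (c2.pre.trans c3.pre)
  obtain ⟨r4, c4, d4, e4⟩ := Go.op (o := 3) le_rfl (a2.mono p) (b2.mono p)
  refine ⟨r4, _, c1.bind (k := fun x n s => (emit (3, c.2.1, c.1.2) n s).bind fun y n =>
      (emit (o, x, y) n s).bind fun z n => (emit (3, c.1.2, c.2.2) n s).bind fun w n =>
        ret ((z, w) : ℕ × ℕ) n) (c2.bind (k := fun y n s => (emit (o, _, y) n s).bind fun z n =>
      (emit (3, c.1.2, c.2.2) n s).bind fun w n => ret ((z, w) : ℕ × ℕ) n)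
    (c3.bind (k := fun z n s => (emit (3, c.1.2, c.2.2) n s).bind fun w n =>
      ret ((z, w) : ℕ × ℕ) n) (c4.bind (k := fun w n _ => ret ((_, w) : ℕ × ℕ) n) (.ret _ _)))),
    rep_real.2 ⟨_, _, e3.mono c4.pre, e4, by simp [a3, b3], ?_⟩, by omega⟩
  dsimp only at a4 b4
  rw [a4, b4]
  rcases ho with rfl | rfl <;> simp <;> field_simp

theorem rmul (hf : RPT f) (hg : RPT g) : RPT fun a => f a * g a := by
  refine (hf.pair hg).post (fun (c : (ℕ × ℕ) × ℕ × ℕ) n s =>
    (emit (3, c.1.1, c.2.1) n s).bind fun z n => (emit (3, c.1.2, c.2.2) n s).bind fun w n =>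
        ret ((z, w) : ℕ × ℕ) n) ?_ (.const 2) (.const 1) fun a r c h => ?_
  · exact pt_bind (α := ((ℕ × ℕ) × ℕ × ℕ) × ℕ × List ℤ) (by fun_prop) (pt_bind (by fun_prop)
      (pt_ret (γ := ℕ × ℕ) (by fun_prop) (by fun_prop)))
  obtain ⟨u, v, a1, a2, a3, a4⟩ := rep_real.1 h.1
  obtain ⟨x, y, b1, b2, b3, b4⟩ := rep_real.1 h.2
  obtain ⟨r1, c1, d1, e1⟩ := Go.op (o := 3) le_rfl a1 b1
  obtain ⟨r2, c2, d2, e2⟩ := Go.op (o := 3) le_rfl (a2.mono c1.pre) (b2.mono c1.pre)
  refine ⟨r2, _, c1.bind (k := fun z n s => (emit (3, c.1.2, c.2.2) n s).bind fun w n =>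
      ret ((z, w) : ℕ × ℕ) n) (c2.bind (k := fun w n _ => ret ((_, w) : ℕ × ℕ) n) (.ret _ _)),
    rep_real.2 ⟨_, _, e1.mono c2.pre, e2, by simp [a3, b3], ?_⟩, by omega⟩
  dsimp only at a4 b4
  rw [a4, b4]
  simp
  field_simp

theorem rinv (hf : RPT f) : RPT fun a => (f a)⁻¹ :=
  hf.look (fun (c : ℕ × ℕ) s => if s.getD c.1 0 = 0 then c else (c.2, c.1))
    (PT.ite (α := (ℕ × ℕ) × List ℤ) (by fun_prop) (by fun_prop) (by fun_prop)) (.const 1)
    fun a r c h => by
      obtain ⟨u, v, a1, a2, a3, a4⟩ := rep_real.1 h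
      rw [a1.sgn, a4]
      split_ifs with e
      · obtain rfl : u = 0 := by simpa using e
        exact rep_real.2 ⟨_, _, a1, a2, a3, by simp⟩
      · exact rep_real.2 ⟨_, _, a2, a1, by simpa using e, by simp⟩

@[fun_prop] theorem sgn (hf : RPT f) : RPT fun a => sgn (f a) :=
  hf.look (fun (c : ℕ × ℕ) s => s.getD c.1 0 * s.getD c.2 0)
    (PT.intMul (α := (ℕ × ℕ) × List ℤ) (by fun_prop) (by fun_prop))
    ((RPB.const 3).mono fun a => rsz_sign _) fun a r c h => by
      obtain ⟨u, v, a1, a2, a3, a4⟩ := rep_real.1 h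
      rw [a1.sgn, a2.sgn, a4, div_eq_mul_inv]
      change _ = _
      simp only [MP_837412_lc.sgn, sign_mul, SignType.coe_mul]
      rcases lt_or_gt_of_ne a3 with e | e
      · rw [sign_neg e, sign_neg (inv_lt_zero.2 e)]
      · rw [sign_pos e, sign_pos (inv_pos.2 e)]

@[fun_prop] theorem sign (hf : RPT f) : RPT fun a => SignType.sign (f a) :=
  hf.sgn.pure (fun c => c) PT.id' (RPB.rsz hf.sgn) fun _ _ _ h => h

end RPT

/-- Equality can be tested. -/
class RD (X : Type) [RE X] : Prop where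
  deq : RPT fun p : X × X => @decide (p.1 = p.2) (Classical.dec _)

instance [N487b59b3 β] [Disc β] : RD β := ⟨by fun_prop⟩

/-- Sums can be computed. -/
class RA (M : Type) [AddCommMonoid M] [RE M] : Prop extends Law M where
  add : RPT fun p : M × M => p.1 + p.2
  zero : RPT fun _ : Bool => (0 : M)
  sz_add : ∀ x y : M, rsz (x + y) ≤ rsz x + 4 * rsz y + 4

/-- The ring operations can be computed. -/
class RR (R : Type) [CommRing R] [RE R] : Prop extends RA R where
  neg : RPT fun x : R => -x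
  mul : RPT fun p : R × R => p.1 * p.2
  one : RPT fun _ : Bool => (1 : R)

/-- Long products stay small. -/
class RS (R : Type) [Mul R] [RE R] : Prop where
  sz_mul : ∀ x y : R, rsz (x * y) ≤ rsz x + 4 * rsz y + 4

/-- The field operations can be computed. -/
class RF (K : Type) [Field K] [RE K] : Prop extends RR K, RD K where
  inv : RPT fun x : K => x⁻¹
  rsz_le : ∀ x : K, rsz x ≤ 4

instance {K : Type} [Field K] [RE K] [RF K] : RS K :=
  ⟨fun x y => (RF.rsz_le _).trans (by omega)⟩

instance : RA ℕ where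
  add := by fun_prop
  zero := by fun_prop
  sz_add x y := by
    simp only [rsz_nat, sz_nat]
    refine Nat.size_le.2 ?_
    have := Nat.lt_size_self x
    have := Nat.lt_size_self y
    have : 2 ^ x.size ≤ 2 ^ (x.size + 4 * y.size + 3) := Nat.pow_le_pow_right (by omega) (by omega)
    have : 2 ^ y.size ≤ 2 ^ (x.size + 4 * y.size + 3) := Nat.pow_le_pow_right (by omega) (by omega)
    rw [pow_succ]
    omega

instance : RF ℝ where
  add := RPT.raddsub (.fst .id') (.snd .id') 1 (Or.inl rfl)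
  zero := (RPT.raddsub .rone .rone 2 (Or.inr rfl)).of_eq (by simp)
  sz_add := by simp
  neg := (RPT.raddsub (RPT.raddsub .rone .rone 2 (Or.inr rfl)) .id' 2 (Or.inr rfl)).of_eq (by simp)
  mul := RPT.rmul (.fst .id') (.snd .id')
  one := .rone
  deq := (RPT.decide_eq (i := fun _ => inferInstance) (RPT.raddsub (.fst .id') (.snd .id') 2
    (Or.inr rfl)).sign (.const 0)).of_eq (by simp [sub_eq_zero])
  inv := RPT.rinv .id'
  rsz_le := by simp

namespace RPT

@[fun_prop] theorem decide_eq' [RD β] {f g : α → β} {i : ∀ a, Decidable (f a = g a)} (hf : RPT f)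
    (hg : RPT g) : RPT fun a => @decide (f a = g a) (i a) :=
  (RD.deq.comp' (hf.pair hg)).of_eq fun a => by simp

@[fun_prop] theorem decide_ne [RD β] {f g : α → β} {i : ∀ a, Decidable (f a ≠ g a)} (hf : RPT f)
    (hg : RPT g) : RPT fun a => @decide (f a ≠ g a) (i a) :=
  (RD.deq.comp' (hf.pair hg)).not.of_eq fun a => by simp

section Add

variable {M : Type} [AddCommMonoid M] [RE M] [RA M] {f g : α → M}

@[fun_prop] theorem add (hf : RPT f) (hg : RPT g) : RPT fun a => f a + g a :=
  RA.add.comp' (hf.pair hg)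

@[fun_prop] theorem zero : RPT fun _ : α => (0 : M) := RA.zero.comp' (const true)

@[fun_prop] theorem lsum {l : α → List M} (hl : RPT l) : RPT fun a => (l a).sum :=
  (foldl_grow (f := fun _ s x => s + x) (by fun_prop) hl zero (B := fun a => 4 * rsz (l a) + 4)
    (by fun_prop) fun a s x hx => by
      have := RA.sz_add s x
      have := rsz_mem hx
      omega).of_eq fun a => sum_eq_foldl.symm

theorem sum_range_sub {n : α → ℕ} {h : α → ℕ → M} (hn : RPT n) (hb : RPB n)
    (hh : RPT fun p : {p : α × Un // p.2.val < n p.1} => h p.1.1 p.1.2.val) :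
    RPT fun a => ∑ i ∈ Finset.range (n a), h a i :=
  (map_range_sub hn hb hh).lsum.of_eq fun a => by rw [Finset.sum_range, ← sum_ofFn,
    ofFn_eq_map, ← map_coe_finRange_eq_range, map_map]; rfl

@[fun_prop] theorem sum_range {n : α → ℕ} {h : α → ℕ → M} (hn : RPT n) (hb : RPB n)
    (hh : RPT fun p : α × Un => h p.1 p.2.val) :
    RPT fun a => ∑ i ∈ Finset.range (n a), h a i := sum_range_sub hn hb hh.sub

end Add

section Ring

variable {R : Type} [CommRing R] [RE R] [RR R] {f g : α → R}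

@[fun_prop] theorem neg (hf : RPT f) : RPT fun a => -f a := RR.neg.comp' hf

@[fun_prop] theorem sub' (hf : RPT f) (hg : RPT g) : RPT fun a => f a - g a :=
  (hf.add hg.neg).of_eq fun _ => (sub_eq_add_neg _ _).symm

@[fun_prop] theorem mul (hf : RPT f) (hg : RPT g) : RPT fun a => f a * g a :=
  RR.mul.comp' (hf.pair hg)

@[fun_prop] theorem one : RPT fun _ : α => (1 : R) := RR.one.comp' (const true)

/-- A fixed power. -/
theorem pow_const (hf : RPT f) (k : ℕ) : RPT fun a => f a ^ k := by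
  induction k with
  | zero => simpa using one
  | succ k ih => simpa [pow_succ] using ih.mul hf

@[fun_prop] theorem sq (hf : RPT f) : RPT fun a => f a ^ 2 := hf.pow_const 2

variable [RS R]

@[fun_prop] theorem lprod {l : α → List R} (hl : RPT l) : RPT fun a => (l a).prod :=
  (foldl_grow (f := fun _ s x => s * x) (by fun_prop) hl one (B := fun a => 4 * rsz (l a) + 4)
    (by fun_prop) fun a s x hx => by
      have := RS.sz_mul s x
      have := rsz_mem hx
      omega).of_eq fun a => prod_eq_foldl.symm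

theorem prod_range_sub {n : α → ℕ} {h : α → ℕ → R} (hn : RPT n) (hb : RPB n)
    (hh : RPT fun p : {p : α × Un // p.2.val < n p.1} => h p.1.1 p.1.2.val) :
    RPT fun a => ∏ i ∈ Finset.range (n a), h a i :=
  (map_range_sub hn hb hh).lprod.of_eq fun a => by rw [Finset.prod_range, ← prod_ofFn,
    ofFn_eq_map, ← map_coe_finRange_eq_range, map_map]; rfl

@[fun_prop] theorem prod_range {n : α → ℕ} {h : α → ℕ → R} (hn : RPT n) (hb : RPB n)
    (hh : RPT fun p : α × Un => h p.1 p.2.val) :
    RPT fun a => ∏ i ∈ Finset.range (n a), h a i := prod_range_sub hn hb hh.sub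

@[fun_prop] theorem pow {n : α → ℕ} (hf : RPT f) (hn : RPT n) (hb : RPB n) :
    RPT fun a => f a ^ n a := (replicate hn hb hf).lprod.of_eq fun a => prod_replicate _ _

end Ring

section Field

variable {K : Type} [Field K] [RE K] [RF K] {f g : α → K}

@[fun_prop] theorem inv (hf : RPT f) : RPT fun a => (f a)⁻¹ := RF.inv.comp' hf

@[fun_prop] theorem div (hf : RPT f) (hg : RPT g) : RPT fun a => f a / g a :=
  (hf.mul hg.inv).of_eq fun _ => (div_eq_mul_inv _ _).symm

@[fun_prop] theorem natCast {n : α → ℕ} (hn : RPT n) : RPT fun a => (n a : K) := by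
  have e : ∀ n : ℕ, n.bits.foldr (fun b s => s + s + bif b then 1 else 0) (0 : K) = n := fun n => by
    induction n using Nat.binaryRec' with
    | zero => simp
    | bit b n h ih => rw [Nat.bits_append_bit n b h, foldr_cons, ih]; cases b <;> simp [two_mul]
  exact (foldr_inv (f := fun _ b (s : K) => s + s + bif b then 1 else 0) (by fun_prop)
    (pt (g := Nat.bits) (by fun_prop) hn) zero (fun _ _ => True) (by simp) (by simp) (.const 4)
    fun _ s _ => RF.rsz_le s).of_eq fun a => e _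

@[fun_prop] theorem intCast {n : α → ℤ} (hn : RPT n) : RPT fun a => (n a : K) :=
  (sub' (natCast hn.ztoNat) (natCast hn.zneg.ztoNat)).of_eq fun a => by
    rw [← Int.cast_natCast, ← Int.cast_natCast (-n a).toNat, ← Int.cast_sub,
      Int.toNat_sub_toNat_neg]

@[fun_prop] theorem ofNat (n : ℕ) [n.AtLeastTwo] : RPT fun _ : α => (OfNat.ofNat n : K) :=
  natCast (const n)

end Field

section Real

variable {f g : α → ℝ}

@[fun_prop] theorem decide_rlt {i : ∀ a, Decidable (f a < g a)} (hf : RPT f) (hg : RPT g) :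
    RPT fun a => @decide (f a < g a) (i a) :=
  (decide_eq (i := fun _ => inferInstance) (hg.sub' hf).sign (const 1)).of_eq
    fun a => by simp [sign_eq_one_iff]

@[fun_prop] theorem decide_rle {i : ∀ a, Decidable (f a ≤ g a)} (hf : RPT f) (hg : RPT g) :
    RPT fun a => @decide (f a ≤ g a) (i a) :=
  (decide_rlt (i := fun _ => inferInstance) hg hf).not.of_eq fun a => by
    rw [Bool.eq_iff_iff]; simp

@[fun_prop] theorem signReal {s : α → SignType} (hs : RPT s) : RPT fun a => (s a : ℝ) :=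
  (intCast hs.signCast).of_eq fun a => by rcases s a with _ | _ | _ <;> simp

end Real

end RPT

instance : RE ℂ := .ofFun fun z => (z.re, z.im)
instance : Law ℂ := .ofFun _

@[simp] lemma rsz_complex (z : ℂ) : rsz z = 4 := rfl

namespace RPT

variable {f g : α → ℝ} {z : α → ℂ}

@[fun_prop] theorem re (h : RPT z) : RPT fun a => (z a).re :=
  fst (f := fun a => ((z a).re, (z a).im)) (h.pure (fun c => c) PT.id' (.const 4) fun _ _ _ h => h)

@[fun_prop] theorem im (h : RPT z) : RPT fun a => (z a).im :=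
  snd (f := fun a => ((z a).re, (z a).im)) (h.pure (fun c => c) PT.id' (.const 4) fun _ _ _ h => h)

theorem of_re_im (h : RPT fun a => (z a).re) (h' : RPT fun a => (z a).im) : RPT z :=
  (h.pair h').pure (fun c => c) PT.id' (.const 4) fun _ _ _ h => h

end RPT

instance : RF ℂ where
  add := .of_re_im (by simp only [Complex.add_re]; fun_prop) (by simp only [Complex.add_im]; fun_prop)
  zero := .of_re_im .zero .zero
  sz_add := by simp
  neg := .of_re_im (by simp only [Complex.neg_re]; fun_prop) (by simp only [Complex.neg_im]; fun_prop)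
  mul := .of_re_im (by simp only [Complex.mul_re]; fun_prop) (by simp only [Complex.mul_im]; fun_prop)
  one := .of_re_im .one .zero
  deq := (RPT.decide_and (p := fun p : ℂ × ℂ => p.1.re = p.2.re) (q := fun p => p.1.im = p.2.im)
    (i := fun _ => inferInstance) (j := fun _ => inferInstance) (k := fun _ => inferInstance)
    (by fun_prop) (by fun_prop)).of_eq (by simp [Complex.ext_iff])
  inv := .of_re_im (by simp only [Complex.inv_re, Complex.normSq_apply]; fun_prop)
    (by simp only [Complex.inv_im, Complex.normSq_apply]; fun_prop)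
  rsz_le := by simp

namespace RPT

variable {f g : α → ℝ} {z : α → ℂ}

@[fun_prop] theorem ofReal (h : RPT f) : RPT fun a => (f a : ℂ) := of_re_im h zero

@[fun_prop] theorem cI : RPT fun _ : α => Complex.I := of_re_im zero one

@[fun_prop] theorem conj (h : RPT z) : RPT fun a => (starRingEnd ℂ) (z a) :=
  of_re_im h.re h.im.neg

@[fun_prop] theorem normSq (h : RPT z) : RPT fun a => Complex.normSq (z a) := by
  simp only [Complex.normSq_apply]; fun_prop

end RPT

section Run

lemma Go.run {γ : Type} {f : List ℤ → Res γ} {u u' : List ℝ} {c : γ} (h : Go f u u' c)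
    {ctl : List ℤ → Bool × List ℕ × Ins} (e : ∀ s, (ctl s).1 = (f s).1.isSome ∧ (ctl s).2.2 = (f s).2)
    {n : ℕ} (hn : u'.length ≤ u.length + n) :
    (mstep ctl)^[n] u = u' ∧ f (u'.map sgn) = (some (c, u'.length), (0, 0, 0)) := by
  induction h generalizing n with
  | @fin u c h =>
    refine ⟨Function.iterate_fixed ?_ n, h u prefix_rfl⟩
    rw [mstep, (e _).1, h u prefix_rfl]; rfl
  | @step u u' c i a b d ih =>
    have := d.pre.length_le
    rw [length_append, length_singleton] at this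
    obtain ⟨n, rfl⟩ : ∃ k, n = k + 1 := ⟨n - 1, by omega⟩
    rw [Function.iterate_succ_apply, mstep, (e _).1, (e _).2, a]
    exact ih (by rw [length_append, length_singleton]; omega)

lemma eval_le_pow (q : Polynomial ℕ) : ∃ c, ∀ n, 2 ≤ n → q.eval n ≤ n ^ c := by
  induction q using Polynomial.induction_on' with
  | add p q a b =>
    obtain ⟨c, a⟩ := a
    obtain ⟨d, b⟩ := b
    refine ⟨c + d + 1, fun n hn => ?_⟩
    have := (a n hn).trans (Nat.pow_le_pow_right (by omega) (by omega : c ≤ c + d))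
    have := (b n hn).trans (Nat.pow_le_pow_right (by omega) (by omega : d ≤ c + d))
    rw [Polynomial.eval_add, pow_succ]
    nlinarith
  | monomial k a =>
    refine ⟨a + k, fun n hn => ?_⟩
    rw [Polynomial.eval_monomial, pow_add]
    exact Nat.mul_le_mul_right _ (a.lt_two_pow_self.le.trans (Nat.pow_le_pow_left hn a))

/-- From programs to controls. -/
theorem RPT.run {D : Type} [N487b59b3 D] {p : Hid D × List Bool × List ℝ → Prop}
    {f : {x // p x} → List ℕ} (hf : RPT fun x => Hid.mk (f x)) {len : D × List Bool → ℕ}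
    (hl : PT len) (h : ∀ x, p x → len (x.1.val, x.2.1) = x.2.2.length ∧
      x.2.2.length ≤ x.2.1.length ∧ 2 ≤ x.2.1.length) :
    ∃ (c : ℕ) (A : D × List Bool × List ℤ → Bool × List ℕ × Ins), N68a2faeb.IsPolyTime A ∧
      ∀ x : {x // p x}, ∀ n, x.1.2.1.length ^ c ≤ n →
        (answer (fun s => A (x.1.1.val, x.1.2.1, s)) n x.1.2.2).1 = true ∧
        (answer (fun s => A (x.1.1.val, x.1.2.1, s)) n x.1.2.2).2.1 = f x := by
  obtain ⟨P, g, a1, ⟨q, a2⟩, -, a4⟩ := hf
  obtain ⟨c, hc⟩ := eval_le_pow (q.comp (12 * Polynomial.X) + 1)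
  let F : D × List Bool × List ℤ → Res (List ℕ) := fun z =>
    (emit (0, 0, 0) (len (z.1, z.2.1)) z.2.2).bind fun o n => P ((z.1, z.2.1,
      (List.range (min (len (z.1, z.2.1)) z.2.1.length)).map fun i => (i, o)) :
        D × List Bool × List (ℕ × ℕ)) n z.2.2
  have hF : PT F := pt_bind (by fun_prop) (a1.comp'
    (f := fun y : (D × List Bool × List ℤ) × ℕ × ℕ => (((y.1.1, y.1.2.1, (List.range (min
      (len (y.1.1, y.1.2.1)) y.1.2.1.length)).map fun i => (i, y.2.1)) :
        D × List Bool × List (ℕ × ℕ)), y.2.2, y.1.2.2)) (by fun_prop))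
  refine ⟨c, fun z => ((F z).1.isSome, ((F z).1.map Prod.fst).getD [], (F z).2),
    PT.isPolyTime (by fun_prop), fun x n hn => ?_⟩
  obtain ⟨h1, h2, h3⟩ := h _ x.2
  have c0 := Go.emit (u := x.1.2.2) (i := (0, 0, 0)) (by simp [WF])
  obtain ⟨r, o, b1, b2, b3⟩ := a4 (x.1.2.2 ++ [Ins.val x.1.2.2 (0, 0, 0)]) ((x.1.1.val, x.1.2.1,
    (List.range x.1.2.2.length).map fun i => (i, x.1.2.2.length)) : D × List Bool × List (ℕ × ℕ)) x
    ⟨rfl, forall₂_same.2 fun _ _ => rfl, forall₂_of_length_eq_of_get (by simp) fun i h1 h2 =>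
      rep_real.2 ⟨_, _, by simpa using At.mono ⟨h2, rfl⟩ (prefix_append _ _),
        by simpa using At.snoc _ _, by simp [Ins.val], by simp [Ins.val, h2]⟩⟩
  have b := (c0.bind (k := fun o => P ((x.1.1.val, x.1.2.1, (List.range x.1.2.2.length).map
    fun i => (i, o)) : D × List Bool × List (ℕ × ℕ))) b1).run (n := n)
    (ctl := fun s => ((F (x.1.1.val, x.1.2.1, s)).1.isSome,
      ((F (x.1.1.val, x.1.2.1, s)).1.map Prod.fst).getD [], (F (x.1.1.val, x.1.2.1, s)).2))
    (fun s => by simp only [F, h1, min_eq_left h2, and_self]) (by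
      have e1 := rsz_list_le (l := x.1.2.1) (B := 1) (by simp)
      have e2 := rsz_list_le (l := x.1.2.2) (B := 1) (by simp)
      have e3 := (a2 x).trans (eval_mono q (show rsz x ≤ 12 * x.1.2.1.length by
        change 2 * 0 + 1 + (2 * rsz x.1.2.1 + 1 + rsz x.1.2.2) ≤ _
        omega))
      have e4 := hc _ h3
      simp only [Polynomial.eval_add, Polynomial.eval_comp, Polynomial.eval_mul, Polynomial.eval_X,
        Polynomial.eval_ofNat, Polynomial.eval_one, length_append, length_singleton] at e4 b3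
      omega)
  unfold answer
  rw [b.1]
  simp only [F, h1, min_eq_left h2, b.2]
  exact ⟨rfl, b2⟩

end Run

end Pool.Agent.Lib.MP_837412_lc
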