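import Pool.Agent.Lib.MP_837412_lc.G2
import Pool.Agent.Lib.MP_837412_lc.JTyp
import Pool.Agent.Lib.MP_837412_lc.U0
import Pool.Agent.Shared.PolyTimeInt

/-!
Explicit data: order types as lists, matrices as tables, the start of the tracking.
-/

namespace Pool.Agent.Lib.MP_837412_lc

open Pool.Agent.Shared.Mod2 Set Function Filter Topology Polynomial
open Pool.Agent.Shared.PolyTime (PT)

/-- Order types. -/
abbrev Tl : Type := List (ℕ × ℕ)

/-- Tables of bits. -/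
abbrev Ml : Type := List (List Bool)

/-- Labels: the signs of the real and of the imaginary part, the side and the degree. -/
abbrev Lb : Type := ℤ × ℤ × Bool × ℕ

section Defs

variable {E ι : Type} [TopologicalSpace E]

/-- The points of an order type. -/
noncomputable def pts (t : Tl) (i : Fin t.length) : ℂ := (t[i].1 : ℂ) + (t[i].2 : ℂ) * Complex.I

/-- The vector of a row of bits. -/
def vec (n : ℕ) (v : List Bool) : Fin n → F := fun j => if v.getD j false then 1 else 0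

/-- The matrix of a table. -/
def mat (n : ℕ) (L : Ml) : Matrix (Fin n) (Fin n) F := Matrix.of fun i => vec n (L.getD i [])

/-- `c` has the order type `t`. -/
def Ty (c : ι → ℂ) (t : Tl) : Prop := ∃ e : Fin t.length ≃ ι, Iso (c ∘ e) (pts t)

/-- The system has the order type `t` and the normal form `w`. -/
def St (N : ℝ) (m : ℕ) (G : E → ℂ) (c : ι → ℂ) (t : Tl) (w : Ml × Ml) : Prop :=
  ∃ e : Fin t.length ≃ ι, Iso (c ∘ e) (pts t) ∧
    Dat N N G (c ∘ e) m (mat _ w.1) (mat _ w.2) ∧ Tri (c ∘ e) (mat _ w.1) (mat _ w.2)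

/-- The change of the normal form from the type `t` to the type `t'`; the flag is true if `t` is
the more degenerate type. -/
def IsStep (step : Tl × Tl × Bool × Ml × Ml → Ml × Ml) : Prop :=
  ∀ (t t' : Tl) (b : Bool) (w : Ml × Ml) (e : Fin t.length ≃ Fin t'.length), Injective (pts t) →
    Injective (pts t') → (if b then Dn (pts t) (pts t' ∘ e) else Dn (pts t' ∘ e) (pts t)) →
    Tri (pts t) (mat _ w.1) (mat _ w.2) →
    Tri (pts t') (mat _ (step (t, t', b, w)).1) (mat _ (step (t, t', b, w)).2) ∧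
    Rel (if b then pts t else pts t' ∘ e) (mat _ w.1) (mat _ w.2)
      ((mat _ (step (t, t', b, w)).1).submatrix e e) ((mat _ (step (t, t', b, w)).2).submatrix e e)

/-- Tracking forward. -/
def fwd (step : Tl × Tl × Bool × Ml × Ml → Ml × Ml) (s : List (Tl × Tl × Tl)) (w : Ml × Ml) :
    Ml × Ml :=
  s.foldl (fun w x => step (x.2.1, x.2.2, false, step (x.1, x.2.1, true, w))) w

/-- Tracking backward. -/
def bwd (step : Tl × Tl × Bool × Ml × Ml → Ml × Ml) (s : List (Tl × Tl × Tl)) (w : Ml × Ml) :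
    Ml × Ml :=
  s.foldr (fun x w => step (x.2.1, x.1, false, step (x.2.2, x.2.1, true, w))) w

/-- An upper left region with its corner near `c`. -/
def Wp (c δ : ℝ) : Set ℂ := {z | z.re < c + δ ∧ c - δ < z.re + z.im}

/-- A lower left region with its corner near `c`. -/
def Wm (c δ : ℝ) : Set ℂ := {z | z.re < c + δ ∧ c - δ < z.re - z.im}

/-- A left half plane. -/
def Hl (M : ℝ) : Set ℂ := {z | z.re < -M}

variable [Fintype ι]

/-- Cycles that go to the left above and below real critical values, and their relation. -/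
def LD (G : E → ℂ) (c : ι → ℝ) (m : ℕ) (L : Matrix ι ι F) : Prop :=
  ∃ M₀ : ℝ, ∀ M' M δ : ℝ, M₀ ≤ M' → M' ≤ M → 0 < δ → ∃ u d : ι → Ch (Sx E),
    (∀ i, u i ∈ Zs (G ⁻¹' Wp (c i) δ) (G ⁻¹' (Wp (c i) δ ∩ Hl M)) m ∧
      d i ∈ Zs (G ⁻¹' Wm (c i) δ) (G ⁻¹' (Wm (c i) δ ∩ Hl M)) m) ∧
    Ind (Bs univ (G ⁻¹' Hl M') m) u ∧ ∀ i, d i + ∑ j, L i j • u j ∈ Bs univ (G ⁻¹' Hl M') m

/-- The grid polynomial for the real parts. -/
noncomputable def gU (c : ι → ℂ) : ℝ[X] := JTyp.R (1 / 2) (1 / 2) c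

/-- The grid polynomial for the imaginary parts. -/
noncomputable def gV (c : ι → ℂ) : ℝ[X] := JTyp.R (-Complex.I / 2) (Complex.I / 2) c

/-- A point of the grid. -/
noncomputable def gp (c : ι → ℂ) (x : ℕ × ℕ) : ℂ := JTyp.zz (gU c) (gV c) x.1 x.2

open Classical in
/-- The order type. -/
noncomputable def typ (c : ι → ℂ) : Tl :=
  ((List.range (nr (gU c))).product (List.range (nr (gV c)))).filter fun x => gp c x ∈ range c

/-- The midpoint of two consecutive roots. -/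
noncomputable def mid (p : ℝ[X]) (j : ℕ) : ℝ := (rt p j + rt p (j + 1)) / 2

/-- The order types at an event, after it and at the next event. -/
noncomputable def segs (c : ℝ → ι → ℂ) : List (Tl × Tl × Tl) :=
  ((List.range (nr (ev c))).filter fun j => 0 ≤ rt (ev c) j ∧ rt (ev c) j < 1).map fun j =>
    (typ (c (rt (ev c) j)), typ (c (mid (ev c) j)), typ (c (rt (ev c) (j + 1))))

open Classical in
/-- The matrix in one variable. -/
noncomputable def L1 {m : ℕ} (s : Fin m → Prop) : Matrix (Fin m) (Fin m) F :=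
  Matrix.of fun j l => if j = l ∨ (s j ∧ ((j : ℕ) = l + 1 ∨ (l : ℕ) = j + 1)) then 1 else 0

/-- A sum of polynomials in one variable. -/
noncomputable def sumP {σ : Type} [Fintype σ] (c : ℝ) (g : σ → ℝ[X]) : MvPolynomial σ ℝ :=
  MvPolynomial.C c + ∑ i, aeval (MvPolynomial.X i) (g i)

/-- The number of a variable. -/
noncomputable def ix {σ : Type} [Fintype σ] (i : σ) : ℕ := Fintype.equivFin σ i

/-- Powers of two, moved so that their sum is zero. -/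
noncomputable def r0 (m j : ℕ) : ℝ := 2 ^ j - (2 ^ m - 1) / m

/-- The polynomial with these roots. -/
noncomputable def d0 (m : ℕ) : ℝ[X] := ∏ j ∈ Finset.range m, (X - C (r0 m j))

/-- A monic polynomial with these critical points. -/
noncomputable def g0 (m : ℕ) : ℝ[X] :=
  ∑ i ∈ Finset.range (m + 1), monomial (i + 1) ((m + 1) * (d0 m).coeff i / (i + 1))

/-- Its critical values. -/
noncomputable def v0 (m j : ℕ) : ℝ := (g0 m).eval (r0 m j)

/-- A large scale. -/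
noncomputable def s0 (m : ℕ) : ℝ := 2 + 2 * ∑ j ∈ Finset.range m, v0 m j ^ 2 +
  2 * ∑ j ∈ Finset.range m, ∑ l ∈ Finset.range m, (v0 m j - v0 m l)⁻¹ ^ 2

/-- A large constant. -/
noncomputable def c0 (k m : ℕ) : ℝ := 1 + ∑ i ∈ Finset.range k, ∑ j ∈ Finset.range m,
  (1 + ((s0 m ^ i) ^ (m + 1) * v0 m j) ^ 2)

/-- The polynomial after scaling. -/
noncomputable def g1 (m i : ℕ) : ℝ[X] :=
  ∑ n ∈ Finset.range (m + 2), monomial n ((g0 m).coeff n * (s0 m ^ i) ^ (m + 1 - n))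

/-- The difference between the start of the pencil and a polynomial with real critical points. -/
noncomputable def p0 (σ : Type) [Fintype σ] (m : ℕ) : MvPolynomial σ ℝ :=
  F0 σ ℝ m - sumP (c0 (Fintype.card σ) m) fun i => g1 m (ix i)

/-- The critical values of that polynomial. -/
noncomputable def cn (k m n : ℕ) : ℝ :=
  c0 k m + ∑ i ∈ Finset.range k, (s0 m ^ i) ^ (m + 1) * v0 m (n / m ^ i % m)

/-- Their order type. -/
noncomputable def iniT (k m : ℕ) : Tl := (List.range (m ^ k)).map fun n =>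
  ((List.range (m ^ k)).countP fun n' => cn k m n' < cn k m n, 0)

/-- The tables at the start. -/
def iniM (k m b : ℕ) : Ml := (List.range (m ^ k)).map fun n => (List.range (m ^ k)).map fun n' =>
  (List.range k).all fun i => n / m ^ i % m = n' / m ^ i % m ∨ (n / m ^ i % m % 2 = b ∧
    (n / m ^ i % m = n' / m ^ i % m + 1 ∨ n' / m ^ i % m = n / m ^ i % m + 1))

end Defs

def StepS : Prop := ∃ step : Tl × Tl × Bool × Ml × Ml → Ml × Ml, PT step ∧
  (∀ x, Shared.PolyTime.sz (step x) ≤ 40 * (x.2.1.length + 1) ^ 2) ∧ IsStep step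

def SegS : Prop := ∀ step, IsStep step → ∀ (E ι : Type) [TopologicalSpace E] [Fintype ι] (N : ℝ)
  (m : ℕ) (G : I → E → ℂ) (c : I → ι → ℂ), Mot N m G c →
  (∀ u u' : I, u ≠ 0 → u' ≠ 0 → Sim (c u) (c u')) → ∀ t t' w, Ty (c 0) t → Ty (c 1) t' →
  (St N m (G 0) (c 0) t w → St N m (G 1) (c 1) t' (step (t, t', true, w))) ∧
  (St N m (G 1) (c 1) t' w → St N m (G 0) (c 0) t (step (t', t, false, w)))

def TypM : Prop := ∀ (ι : Type) [Fintype ι] (c : ι → ℂ), (typ c).length ≤ Fintype.card ι ∧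
  (Injective c → ∃ e : Fin (typ c).length ≃ ι, Iso (c ∘ e) (pts (typ c)) ∧
    ∀ i, c (e i) = gp c (typ c)[i])

def TrkS : Prop := ∀ step, IsStep step → ∀ (E ι : Type) [TopologicalSpace E] [Fintype ι] (N : ℝ)
  (m d : ℕ) (G : ℝ → E → ℂ) (c : ℝ → ι → ℂ), PP Complex.ofReal d c →
  (∀ t ∈ Icc (0 : ℝ) 1, Qv (c t) ≠ 0) → Mot N m (fun u : I => G u) (fun u : I => c u) → ∀ w,
  (St N m (G 0) (c 0) (typ (c 0)) w → St N m (G 1) (c 1) (typ (c 1)) (fwd step (segs c) w)) ∧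
  (St N m (G 1) (c 1) (typ (c 1)) w → St N m (G 0) (c 0) (typ (c 0)) (bwd step (segs c) w))

def SegEq : Prop := ∀ (ι : Type) [Fintype ι] (d : ℕ) (c c' : ℝ → ι → ℂ), PP Complex.ofReal d c →
  PP Complex.ofReal d c' → (∀ t ∈ Icc (0 : ℝ) 1, Qv (c t) ≠ 0) →
  (∀ t ∈ Icc (0 : ℝ) 1, Qv (c' t) ≠ 0) → segs c = segs c' → ∀ R : ℝ → ℝ → Prop,
    (∀ a ∈ Icc (0 : ℝ) 1, ∀ b ∈ Icc (0 : ℝ) 1, ∀ a' ∈ Icc (0 : ℝ) 1, ∀ b' ∈ Icc (0 : ℝ) 1,
      (∀ u ∈ Icc (0 : ℝ) 1, Sim (c (a + u * (b - a))) (c' (a' + u * (b' - a')))) →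
      R a a' → R b b') → R 0 0 → R 1 1

def RankS : Prop := ∃ rank2 : ℕ × Ml → ℕ, PT rank2 ∧ ∀ n V,
  rank2 (n, V) = Module.finrank F (Submodule.span F {x | ∃ v ∈ V, vec n v = x})

def RealU : Prop := ∀ (E ι : Type) [TopologicalSpace E] [Fintype ι] (f : E → ℝ) (S S' : Set E)
  (v : ι → ℝ) (real side cr : ι → Prop) (n : ι → ℕ) (J : ℕ), (∀ k, Z0 (univ : Set E) k) →
  RM f S S' v real side n →
  (∀ t, (∃ i, real i ∧ v i < t) → ∀ j, J ≤ j → hs univ {y | f y < t} j = 0) →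
  (∀ i, real i → (∀ j, real j → v i ≤ v j) → cr i) →
  (∀ i, real i → v i < 0 → (∃ j, real j ∧ v j < v i) → ∃ a b, a < v i ∧ v i < b ∧ b ≤ 0 ∧
    (∀ j ≠ i, real j → v j ∉ Icc a b) ∧ (cr i ↔ ∑ j ∈ Finset.range J, hs univ {y | f y < a} j <
      ∑ j ∈ Finset.range J, hs univ {y | f y < b} j)) →
  ∀ j, hs ({y | f y < 0} ∩ S) ∅ j + {i | real i ∧ v i < 0 ∧ side i ∧ ¬ cr i ∧ n i = j + 1}.encard =
    {i | real i ∧ v i < 0 ∧ side i ∧ cr i ∧ n i = j}.encard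

def OutS : Prop := ∃ out : Tl × Ml × List Lb × ℕ → ℕ, PT out ∧ ∀ (σ : Type) [Fintype σ]
  (f : MvPolynomial σ ℝ) (t : Tl) (c : Fin t.length → ℂ) (N : ℝ) (L R : Ml) (lb : List Lb)
  (S S' : Set (σ → ℝ)) (side : Fin t.length → Prop) (n : Fin t.length → ℕ),
  Sys (fun y => MvPolynomial.eval y (cx' f)) c (Fintype.card σ + 1) → Bn N c → Iso c (pts t) →
  Dat N N (fun y => MvPolynomial.eval y (cx' f)) c (Fintype.card σ + 1) (mat _ L) (mat _ R) →
  Tri c (mat _ L) (mat _ R) →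
  RM (fun y => MvPolynomial.eval y f) S S' (fun i => (c i).re) (fun i => (c i).im = 0) side n →
  (∀ i : Fin t.length, ∃ b : Bool, (b = true ↔ side i) ∧
    lb[(i : ℕ)]? = some (sgn (c i).re, sgn (c i).im, b, n i)) →
  ∀ j, hs ({y | MvPolynomial.eval y f < 0} ∩ S) ∅ j = out (t, L, lb, j)

def GenL : Prop := ∀ (E ι : Type) [TopologicalSpace E] [Fintype ι] (G : E → ℂ) (c : ι → ℝ) (m : ℕ),
  Sys G (fun i => c i) m → ∃ M₀ : ℝ, ∀ M' M δ : ℝ, M₀ ≤ M' → M' ≤ M → 0 < δ →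
    hs univ (G ⁻¹' Hl M') m = Fintype.card ι ∧ ∃ u : ι → Ch (Sx E),
      (∀ i, u i ∈ Zs (G ⁻¹' Wp (c i) δ) (G ⁻¹' (Wp (c i) δ ∩ Hl M)) m) ∧
      Ind (Bs univ (G ⁻¹' Hl M') m) u

def LDatS : Prop := ∀ (E ι : Type) [TopologicalSpace E] [Fintype ι] (N : ℝ) (G : E → ℂ) (c : ι → ℝ)
  (m : ℕ) (L R : Matrix ι ι F), Sys G (fun i => c i) m → Bn N (fun i => c i) →
  (∀ i, L i i = 1) → (∀ i, R i i = 1) → LD G c m L →
  LD (fun y => -cj G y) (fun i => -c i) m R → Dat N N G (fun i => c i) m L R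

def TsS : Prop := ∀ (E Z ι κ : Type) [TopologicalSpace E] [NormedAddCommGroup Z] [NormedSpace ℝ Z]
  [Fintype ι] [Fintype κ] (G : E → ℂ) (g : Z → ℂ) (c : ι → ℝ) (v : κ → ℝ) (m : ℕ)
  (L : Matrix ι ι F) (L' : Matrix κ κ F), Continuous G → Continuous g → LD G c (m + 1) L →
  LD g v 2 L' → (∃ M₀ : ℝ, ∀ M, M₀ ≤ M →
    hs univ ((fun q : E × Z => G q.1 + g q.2) ⁻¹' Hl M) (m + 2) ≤ Fintype.card (ι × κ)) →
  LD (fun q : E × Z => G q.1 + g q.2) (fun a : ι × κ => c a.1 + v a.2) (m + 2)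
    (Matrix.of fun a b => L a.1 b.1 * L' a.2 b.2)

def OvS : Prop := ∀ (m : ℕ) (g : ℝ[X]) (κ t : ℝ) (r : Fin m → ℝ), StrictMono r →
  derivative g = C κ * ∏ j, (X - C (r j)) →
  (∀ j : Fin m, 0 < κ * (-1) ^ (m - j) * (g.eval (r j) - t)) → (Injective fun j => g.eval (r j)) →
  LD (fun z : ℂ => aeval z g) (fun j => g.eval (r j)) 2 (L1 fun j => t < g.eval (r j))

def SumS : Prop := ∀ (σ : Type) [Fintype σ] [DecidableEq σ] (m : ℕ) (c : ℝ) (g : σ → ℝ[X])
  (κ t : σ → ℝ) (r : σ → Fin m → ℝ), 0 < m → (∀ i, StrictMono (r i)) →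
  (∀ i, derivative (g i) = C (κ i) * ∏ j, (X - C (r i j))) →
  (∀ i (j : Fin m), 0 < κ i * (-1) ^ (m - j) * ((g i).eval (r i j) - t i)) →
  (Injective fun a : σ → Fin m => c + ∑ i, (g i).eval (r i (a i))) →
  Mor (cx' (sumP c g)) (fun a : σ → Fin m => ((c + ∑ i, (g i).eval (r i (a i)) : ℝ) : ℂ))
    (fun a i => r i (a i)) ∧ (∃ R : ℝ, ∀ y, R ≤ ‖y‖ → 1 ≤ n2 (cx' (sumP c g)) y) ∧
  LD (fun y => MvPolynomial.eval y (cx' (sumP c g)))
    (fun a : σ → Fin m => c + ∑ i, (g i).eval (r i (a i))) (Fintype.card σ + 1)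
    (Matrix.of fun a b => ∏ i, L1 (fun j => t i < (g i).eval (r i j)) (a i) (b i))

def OneS : Prop := ∀ m : ℕ, 2 ≤ m → Odd m → StrictMono (r0 m) ∧
  derivative (g0 m) = C (m + 1 : ℝ) * d0 m ∧ (g0 m - X ^ (m + 1)).natDegree < m ∧
  (∃ t, ∀ j < m, 0 < (-1) ^ (m - j) * (v0 m j - t)) ∧ 1 ≤ s0 m ∧
  ∀ k, (∀ n, 0 < cn k m n) ∧ InjOn (cn k m) (Iio (m ^ k))

def InitS : Prop := ∀ (σ : Type) [Fintype σ] [DecidableEq σ] (m : ℕ), 2 ≤ m → Odd m →
  (p0 σ m).totalDegree < m ∧ Qv (Lam m (cx' (p0 σ m)) 1) ≠ 0 ∧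
  ∀ N, Bn N (Lam m (cx' (p0 σ m)) 1) →
    St N (Fintype.card σ + 1) (Gl m (cx' (p0 σ m)) 1) (Lam m (cx' (p0 σ m)) 1)
      (iniT (Fintype.card σ) m) (iniM (Fintype.card σ) m 1, iniM (Fintype.card σ) m 0)

def HitS : Prop := ∀ (σ τ : Type) [Fintype σ] [DecidableEq σ] [Fintype τ] (m : ℕ)
  (P : τ → MvPolynomial σ ℝ) (π : τ → SignType), 2 ≤ m → Odd m → (sq P).totalDegree < m →
  (∀ j, π j ≠ 0) → (cell P π).Nonempty → ∃ a, (lab m P (Le m P a)).2.2.1 = π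

end Pool.Agent.Lib.MP_837412_lc
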