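import Pool.Agent.Lib.MP_837412_lc.U3
import Pool.Agent.Lib.MP_837412_lc.USt

/-!
Representations of polynomials on the machine.
-/

namespace Pool.Agent.Lib.MP_837412_lc

open Pool.Agent.Shared.PolyTime

variable {α β γ K : Type} [RE α] [RE β] [RE γ]

theorem RPT.ofFun_iff {X : Type} {φ : X → β} {f : α → X} :
    @RPT α X _ (.ofFun φ) f ↔ RPT fun a => φ (f a) := Iff.rfl

theorem RPT.rel_intro {X : Type} {R : β → X → Prop} {z : X → ℕ} {h : ∀ b x, R b x → rsz b = z x}
    {l : α → β} {f : α → X} (hl : RPT l) (e : ∀ a, R (l a) (f a)) :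
    @RPT α X _ (.ofRel R z h) f :=
  letI := RE.ofRel R z h
  hl.pure (γ := X) (fun c => c) PT.id' ((RPB.rsz hl).mono fun a => (h _ _ (e a)).ge)
    fun a _ _ r => ⟨_, r, e a⟩

theorem RPT.rel_elim {X : Type} {R : β → X → Prop} {z : X → ℕ} {h : ∀ b x, R b x → rsz b = z x}
    {f : α → X} (hf : @RPT α X _ (.ofRel R z h) f) (ex : ∀ x, ∃ b, R b x) {g : α → γ}
    (hg : RPT fun q : {q : α × β // R q.2 (f q.1)} => g q.1.1) : RPT g := by
  letI := RE.ofRel R z h
  obtain ⟨p, t, a1, ⟨q, a2⟩, ⟨s, a3⟩, a4⟩ := hg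
  have k := RPB.rsz (RPT.id'.pair hf)
  refine (RPT.id'.pair hf).post p a1 (k.eval q) ((k.eval s).mono fun a => ?_) fun a r c e => ?_
  · obtain ⟨b, hb⟩ := ex (f a)
    exact (a3 ⟨(a, b), hb⟩).trans_eq (congrArg (fun n => s.eval (2 * rsz a + 1 + n)) (h _ _ hb))
  · obtain ⟨b, b1, b2⟩ := e.2
    obtain ⟨r', c', d1, d2, d3⟩ := a4 r c ⟨(a, b), b2⟩ ⟨e.1, b1⟩
    exact ⟨r', c', d1, d2, d3.trans (Nat.add_le_add_left ((a2 _).trans_eq
      (congrArg (fun n => q.eval (2 * rsz a + 1 + n)) (h _ _ b2))) _)⟩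

/-- Polynomials are lists of coefficients. -/
noncomputable instance [Semiring K] [RE K] : RE (Polynomial K) :=
  .ofFun fun p => (List.range (p.natDegree + 1)).map p.coeff

instance [Semiring K] [RE K] [Law K] : Law (Polynomial K) := .ofFun _

/-- A bound for the variables that occur. -/
def bnd (b : ℕ →₀ ℕ) : ℕ := b.support.sup Nat.succ

/-- Exponent vectors are lists of numbers in unary. -/
instance : RE (ℕ →₀ ℕ) := .ofFun fun b => (List.range (bnd b)).map fun i => Un.mk (b i)

instance : Law (ℕ →₀ ℕ) := .ofFun _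

/-- The list `l` contains each term of `p` once. -/
def Terms [CommSemiring K] (l : List ((ℕ →₀ ℕ) × K)) (p : MvPolynomial ℕ K) : Prop :=
  (l.map Prod.fst).Nodup ∧ (l.map Prod.fst).toFinset = p.support ∧ ∀ x ∈ l, x.2 = p.coeff x.1

lemma Terms.rsz [CommSemiring K] [RE K] (l : List ((ℕ →₀ ℕ) × K)) (p : MvPolynomial ℕ K)
    (h : Terms l p) : rsz l = ∑ b ∈ p.support, (2 * rsz (b, p.coeff b) + 1) := by
  rw [← h.2.1, List.sum_toFinset _ h.1, List.map_map]
  exact congrArg List.sum (List.map_congr_left fun x hx => by simp [← h.2.2 x hx, rsz_prod])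

lemma exists_terms [CommSemiring K] (p : MvPolynomial ℕ K) : ∃ l, Terms l p :=
  ⟨p.support.toList.map fun b => (b, p.coeff b), by
    simp [Terms, Function.comp_def, Finset.nodup_toList]⟩

/-- Polynomials in several variables are lists of terms in any order. -/
noncomputable instance [CommSemiring K] [RE K] : RE (MvPolynomial ℕ K) := .ofRel Terms _ Terms.rsz

instance [CommSemiring K] [RE K] [Law K] : Law (MvPolynomial ℕ K) := .ofRel _ _ _

/-- Only the first `k` variables occur and the degree is at most `D`. -/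
def Box [CommSemiring K] (k D : ℕ) (p : MvPolynomial ℕ K) : Prop :=
  (∀ b ∈ p.support, bnd b ≤ k) ∧ p.totalDegree ≤ D

/-- All exponent vectors in `k` variables with entries at most `D`. -/
noncomputable def mons (k D : ℕ) : List (ℕ →₀ ℕ) := (List.range ((D + 1) ^ k)).map fun n =>
  ∑ i ∈ Finset.range k, Finsupp.single i (n / (D + 1) ^ i % (D + 1))

/-- The variables are numbered. -/
noncomputable def up {σ : Type} [Fintype σ] [CommSemiring K] (p : MvPolynomial σ K) :
    MvPolynomial ℕ K := MvPolynomial.rename ix p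

end Pool.Agent.Lib.MP_837412_lc
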