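import Pool.Agent.Lib.MP_837412_lc.U4

/-!
Exponent vectors on the machine.
-/

namespace Pool.Agent.Lib.MP_837412_lc

open Pool.Agent.Shared.PolyTime List

variable {α : Type} [RE α]

lemma bnd_le {b : ℕ →₀ ℕ} {k : ℕ} : bnd b ≤ k ↔ ∀ i, k ≤ i → b i = 0 := by
  simp only [bnd, Finset.sup_le_iff, Finsupp.mem_support_iff, Nat.succ_le_iff]
  exact ⟨fun h i hi => by_contra fun e => (h i e).not_ge hi, fun h i e => by_contra fun hi =>
    e (h i (not_lt.1 hi))⟩

lemma bnd_add (b c : ℕ →₀ ℕ) : bnd (b + c) = max (bnd b) (bnd c) :=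
  eq_of_forall_ge_iff fun k => by simp [bnd_le, forall_and]

lemma bnd_mono {b c : ℕ →₀ ℕ} (h : b ≤ c) : bnd b ≤ bnd c :=
  bnd_le.2 fun i hi => Nat.eq_zero_of_le_zero ((h i).trans_eq (bnd_le.1 le_rfl i hi))

lemma bnd_single (i n : ℕ) : bnd (Finsupp.single i n) ≤ i + 1 :=
  bnd_le.2 fun _ hj => Finsupp.single_eq_of_ne (by omega)

lemma degree_eq {b : ℕ →₀ ℕ} {k : ℕ} (h : bnd b ≤ k) : b.degree = ∑ i ∈ Finset.range k, b i :=
  Finset.sum_subset (fun i hi => Finset.mem_range.2 (by_contra fun e =>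
    Finsupp.mem_support_iff.1 hi (bnd_le.1 h i (not_lt.1 e)))) (by simp)

lemma rsz_exp (b : ℕ →₀ ℕ) : rsz b = 6 * b.degree + bnd b := by
  rw [degree_eq le_rfl]
  change rsz ((List.range (bnd b)).map fun i => Un.mk (b i)) = _
  induction bnd b with
  | zero => rfl
  | succ k ih => rw [range_succ, map_append, rsz_append, ih, Finset.sum_range_succ]; simp; omega

/-- The exponent vector of a list. -/
noncomputable def ofL (l : List Un) : ℕ →₀ ℕ :=
  Finsupp.onFinset (Finset.range l.length) (fun i => (l.getD i ⟨0⟩).val) fun i h =>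
    Finset.mem_range.2 (by_contra fun e => h (by rw [getD_eq_default _ _ (not_lt.1 e)]))

lemma ofL_range {b : ℕ →₀ ℕ} {k : ℕ} (h : bnd b ≤ k) :
    ofL ((List.range k).map fun i => Un.mk (b i)) = b := by
  ext i
  rcases lt_or_ge i k with e | e
  · simp [ofL, e]
  · simp [ofL, e, bnd_le.1 h i e]

lemma bnd_ofL (l : List Un) : bnd (ofL l) =
    (((List.range l.length).filter fun i => (l.getD i ⟨0⟩).val != 0).getLast?.map (· + 1)).getD 0 := by
  have s : ((List.range l.length).filter fun i => (l.getD i ⟨0⟩).val != 0).Pairwise (· < ·) :=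
    pairwise_lt_range.filter _
  have m : ∀ i, i ∈ (List.range l.length).filter (fun i => (l.getD i ⟨0⟩).val != 0) ↔
      ofL l i ≠ 0 := fun i => by
    simp only [mem_filter, mem_range, bne_iff_ne, ofL, Finsupp.onFinset_apply]
    exact ⟨fun h => h.2, fun h => ⟨by_contra fun e =>
      h (by rw [getD_eq_default _ _ (not_lt.1 e)]), h⟩⟩
  generalize (List.range l.length).filter _ = u at s m
  rcases eq_nil_or_concat u with rfl | ⟨v, x, rfl⟩
  · exact Nat.eq_zero_of_le_zero (bnd_le.2 fun i _ => by simpa using m i)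
  · rw [concat_eq_append] at *
    rw [getLast?_concat]
    refine le_antisymm (bnd_le.2 fun i hi => by_contra fun e => ?_)
      (Finset.le_sup (f := Nat.succ) (Finsupp.mem_support_iff.2 ((m x).1 (by simp))))
    rcases mem_append.1 ((m i).2 e) with h | h
    · have := (pairwise_append.1 s).2.2 i h x (by simp)
      simp at hi; omega
    · simp at hi h; omega

noncomputable instance : N487b59b3 (ℕ →₀ ℕ) :=
  .ofLeftInverse (fun b => (List.range (bnd b)).map fun i => Un.mk (b i)) (fun l => some (ofL l))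
    fun _ => congrArg some (ofL_range le_rfl)

lemma pt_unVal : PT Un.val := PT.of_eq (PT.length (PT.of_enc
  (f := fun n : Un => replicate n.val true) PT.id' fun _ => rfl)) (by simp)

lemma pt_norm : PT fun l : List Un => (List.range (bnd (ofL l))).map fun i => Un.mk (ofL l i) := by
  have := pt_unVal
  refine PT.of_eq (f := fun l : List Un => l.take ((((List.range l.length).filter fun i =>
    (l.getD i ⟨0⟩).val != 0).getLast?.map (· + 1)).getD 0)) (by fun_prop) fun l => ?_
  rw [← bnd_ofL]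
  have : bnd (ofL l) ≤ l.length := bnd_le.2 fun i hi => by simp [ofL, hi]
  refine ext_getElem (by simpa using this) fun i h1 h2 => ?_
  have : i < l.length := by simp at h1; omega
  simp [ofL, this]

noncomputable instance : Disc (ℕ →₀ ℕ) := .ofFun _ _ _ ofL (fun _ => ofL_range le_rfl) pt_norm

variable {b c : α → ℕ →₀ ℕ} {i n k : α → ℕ}

@[fun_prop] theorem RPB.bnd (h : RPT b) : RPB fun a => bnd (b a) :=
  (RPB.rsz h).mono fun a => by rw [rsz_exp]; omega

@[fun_prop] theorem RPB.degree (h : RPT b) : RPB fun a => (b a).degree :=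
  (RPB.rsz h).mono fun a => by rw [rsz_exp]; omega

@[fun_prop] theorem RPB.expApply (h : RPT b) (i : α → ℕ) : RPB fun a => b a (i a) :=
  (RPB.degree h).mono fun _ => Finsupp.le_degree _ _

namespace RPT

@[fun_prop] theorem bnd (h : RPT b) : RPT fun a => bnd (b a) :=
  (ofFun_iff.1 h).length.of_eq (by simp)

@[fun_prop] theorem expApply (h : RPT b) (hi : RPT i) : RPT fun a => b a (i a) :=
  (getD hi (ofFun_iff.1 h) (const (⟨0⟩ : Un))).unVal.of_eq fun a =>
    DFunLike.congr_fun (ofL_range (b := b a) le_rfl) (i a)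

/-- An exponent vector from its entries. -/
theorem ofEntries (hk : RPT k) (hb : RPB k) (h0 : ∀ a, MP_837412_lc.bnd (b a) ≤ k a)
    (h : RPT fun q : α × Un => b q.1 q.2.val) (h' : RPB fun q : α × Un => b q.1 q.2.val) :
    RPT b :=
  ofFun_iff.2 ((pt pt_norm (map_range (h := fun a i => Un.mk (b a i)) hk hb
    (unMk h h'))).of_eq fun a => by rw [ofL_range (h0 a)])

@[fun_prop] theorem degree (h : RPT b) : RPT fun a => (b a).degree :=
  RPT.of_eq (f := fun a => ∑ i ∈ Finset.range (MP_837412_lc.bnd (b a)), b a i) (by fun_prop)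
    fun _ => (degree_eq le_rfl).symm

theorem expAdd (h : RPT b) (h' : RPT c) : RPT fun a => b a + c a :=
  ofEntries (k := fun a => max (MP_837412_lc.bnd (b a)) (MP_837412_lc.bnd (c a))) (by fun_prop)
    (by fun_prop) (fun _ => (bnd_add _ _).le) (by simp only [Finsupp.add_apply]; fun_prop)
    (by simp only [Finsupp.add_apply]; fun_prop)

@[fun_prop] theorem expSub (h : RPT b) (h' : RPT c) : RPT fun a => b a - c a :=
  ofEntries h.bnd (.bnd h) (fun _ => bnd_mono tsub_le_self)
    (by simp only [Finsupp.tsub_apply]; fun_prop) (by simp only [Finsupp.tsub_apply]; fun_prop)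

@[fun_prop] theorem single (hi : RPT i) (hi' : RPB i) (hn : RPT n) (hn' : RPB n) :
    RPT fun a => Finsupp.single (i a) (n a) :=
  ofEntries (k := fun a => i a + 1) (by fun_prop) (by fun_prop) (fun _ => bnd_single _ _)
    (by simp only [Finsupp.single_apply]; fun_prop) (by simp only [Finsupp.single_apply]; fun_prop)

end RPT

instance : RA (ℕ →₀ ℕ) where
  add := RPT.expAdd (.fst .id') (.snd .id')
  zero := .const 0
  sz_add x y := by simp only [rsz_exp, map_add, bnd_add]; omega

@[fun_prop] theorem RPT.mons {D : α → ℕ} (hk : RPT k) (hk' : RPB k) (hD : RPT D) (hD' : RPB D)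
    (h : RPB fun a => (D a + 1) ^ k a) : RPT fun a => mons (k a) (D a) := by
  unfold MP_837412_lc.mons
  refine RPT.map (by fun_prop) (RPT.sum_range (by fun_prop) (by fun_prop)
    (RPT.single (by fun_prop) (by fun_prop) (by fun_prop) ?_))
  exact RPB.mono (g := fun q : (α × ℕ) × Un => D q.1.1 + 1) (by fun_prop)
    fun q => (Nat.mod_lt _ (by omega)).le

lemma length_mons (k D : ℕ) : (mons k D).length = (D + 1) ^ k := by simp [mons]

lemma mem_mons {k D : ℕ} {b : ℕ →₀ ℕ} : b ∈ mons k D ↔ bnd b ≤ k ∧ ∀ i, b i ≤ D := by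
  have ap : ∀ (f : ℕ → ℕ) i, (∑ j ∈ Finset.range k, Finsupp.single j (f j)) i =
      if i < k then f i else 0 := fun f i => by
    simp [Finsupp.finsetSum_apply, Finsupp.single_apply]
  simp only [mons, mem_map, mem_range]
  constructor
  · rintro ⟨n, -, rfl⟩
    exact ⟨bnd_le.2 fun i hi => by rw [ap, if_neg hi.not_gt], fun i => by
      rw [ap]; split_ifs; exacts [Nat.le_of_lt_succ (Nat.mod_lt _ (by omega)), Nat.zero_le _]⟩
  · rintro ⟨h1, h2⟩
    refine ⟨finFunctionFinEquiv fun i : Fin k => (⟨b i, Nat.lt_succ_of_le (h2 i)⟩ : Fin (D + 1)),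
      Fin.is_lt _, Finsupp.ext fun i => ?_⟩
    rw [ap]
    split_ifs with h
    · exact (finFunctionFinEquiv_symm_apply_val _ ⟨i, h⟩).symm.trans (by simp)
    · exact (bnd_le.1 h1 i (not_lt.1 h)).symm

end Pool.Agent.Lib.MP_837412_lc
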