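import Pool.Agent.Lib.MP_837412_lc.UE

/-!
Polynomials in several variables on the machine.
-/

namespace Pool.Agent.Lib.MP_837412_lc

open Pool.Agent.Shared.PolyTime MvPolynomial

section Exp

lemma prod_bnd {M : Type} [CommMonoid M] (b : ℕ →₀ ℕ) (x : ℕ → M) :
    ∏ i ∈ b.support, x i ^ b i = ∏ i ∈ Finset.range (bnd b), x i ^ b i :=
  Finset.prod_subset (fun i hi => Finset.mem_range.2 (by_contra fun e =>
    Finsupp.mem_support_iff.1 hi (bnd_le.1 le_rfl i (not_lt.1 e))))
    fun i _ hi => by rw [Finsupp.notMem_support_iff.1 hi, pow_zero]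

lemma mapDomain_bnd (f : ℕ → ℕ) (b : ℕ →₀ ℕ) :
    b.mapDomain f = ∑ i ∈ Finset.range (bnd b), Finsupp.single (f i) (b i) :=
  Finset.sum_subset (fun i hi => Finset.mem_range.2 (by_contra fun e =>
    Finsupp.mem_support_iff.1 hi (bnd_le.1 le_rfl i (not_lt.1 e))))
    fun i _ hi => by rw [Finsupp.notMem_support_iff.1 hi]; exact Finsupp.single_zero _

lemma bnd_zero : bnd 0 = 0 := rfl

lemma bnd_mapDomain {σ : Type} {f : σ → ℕ} {b : σ →₀ ℕ} {k : ℕ} (h : ∀ i ∈ b.support, f i < k) :
    bnd (b.mapDomain f) ≤ k := by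
  refine Finset.sup_le fun j hj => ?_
  obtain ⟨i, hi, rfl⟩ := Finset.mem_image.1 (Finsupp.mapDomain_support hj)
  exact h i hi

lemma lt_bnd {b : ℕ →₀ ℕ} {i : ℕ} (h : i ∈ b.support) : i < bnd b :=
  Finset.le_sup (f := Nat.succ) h

end Exp

section Box

variable {K K' : Type} [CommSemiring K] [CommSemiring K'] {k k' D D' E : ℕ}
  {p q : MvPolynomial ℕ K}

lemma totalDegree_sup {σ : Type} (p : MvPolynomial σ K) :
    p.totalDegree = p.support.sup Finsupp.degree := rfl

lemma degree_le_total {σ : Type} {p : MvPolynomial σ K} {b : σ →₀ ℕ} (h : b ∈ p.support) :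
    b.degree ≤ p.totalDegree := le_totalDegree h

lemma box_iff : Box k D p ↔ ∀ b ∈ p.support, bnd b ≤ k ∧ b.degree ≤ D := by
  simp only [Box, totalDegree_sup, Finset.sup_le_iff, forall_and]

namespace Box

lemma mono (h : Box k D p) (hk : k ≤ k') (hD : D ≤ D') : Box k' D' p :=
  ⟨fun b hb => (h.1 b hb).trans hk, h.2.trans hD⟩

lemma of_subset {q : MvPolynomial ℕ K'} (h : Box k D p) (e : q.support ⊆ p.support) : Box k D q :=
  box_iff.2 fun b hb => box_iff.1 h b (e hb)

lemma self (h : Box k D p) : Box k p.totalDegree p := ⟨h.1, le_rfl⟩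

lemma mem_mons (h : Box k D p) {b : ℕ →₀ ℕ} (hb : b ∈ p.support) : b ∈ mons k D :=
  MP_837412_lc.mem_mons.2 ⟨h.1 b hb, fun i =>
    (Finsupp.le_degree i b).trans (box_iff.1 h b hb).2⟩

lemma card_le (h : Box k D p) : p.support.card ≤ (D + 1) ^ k :=
  (Finset.card_le_card fun _ hb => List.mem_toFinset.2 (h.mem_mons hb)).trans
    ((List.toFinset_card_le _).trans_eq (length_mons k D))

lemma monomial {b : ℕ →₀ ℕ} (h : bnd b ≤ k) (h' : b.degree ≤ D) (c : K) :
    Box k D (MvPolynomial.monomial b c) :=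
  box_iff.2 fun _ hb => Finset.mem_singleton.1 (support_monomial_subset hb) ▸ ⟨h, h'⟩

lemma C (c : K) : Box k D (MvPolynomial.C c : MvPolynomial ℕ K) :=
  monomial (b := 0) (Nat.zero_le _) (Nat.zero_le _) c

lemma zero : Box k D (0 : MvPolynomial ℕ K) := by simpa using C (k := k) (D := D) (0 : K)

lemma one : Box k D (1 : MvPolynomial ℕ K) := C 1

lemma X {i : ℕ} (h : i < k) : Box k 1 (MvPolynomial.X i : MvPolynomial ℕ K) :=
  monomial ((bnd_single _ _).trans h) (by simp) 1

lemma add (h : Box k D p) (h' : Box k D q) : Box k D (p + q) :=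
  box_iff.2 fun b hb => (Finset.mem_union.1 (support_add hb)).elim (box_iff.1 h b) (box_iff.1 h' b)

lemma mul (h : Box k D p) (h' : Box k E q) : Box k (D + E) (p * q) := box_iff.2 fun b hb => by
  obtain ⟨c, hc, d, hd, rfl⟩ := Finset.mem_add.1 (support_mul p q hb)
  have a := box_iff.1 h c hc
  have b := box_iff.1 h' d hd
  rw [bnd_add, map_add]
  omega

lemma C_mul (h : Box k D p) (c : K) : Box k D (MvPolynomial.C c * p) := by
  simpa using (C (D := 0) c).mul h

lemma smul (h : Box k D p) (c : K) : Box k D (c • p) := h.of_subset support_smul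

lemma sum {ι : Type} {s : Finset ι} {f : ι → MvPolynomial ℕ K} (h : ∀ i ∈ s, Box k D (f i)) :
    Box k D (∑ i ∈ s, f i) :=
  Finset.sum_induction f (Box k D) (fun _ _ => add) zero h

lemma lsum {l : List (MvPolynomial ℕ K)} (h : ∀ q ∈ l, Box k D q) : Box k D l.sum :=
  List.sum_induction (Box k D) (fun _ _ => add) zero h

lemma prod {ι : Type} {s : Finset ι} {f : ι → MvPolynomial ℕ K} {D : ι → ℕ}
    (h : ∀ i ∈ s, Box k (D i) (f i)) : Box k (∑ i ∈ s, D i) (∏ i ∈ s, f i) := by
  classical
  induction s using Finset.induction_on with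
  | empty => exact one
  | insert a s ha ih =>
    rw [Finset.sum_insert ha, Finset.prod_insert ha]
    exact (h a (by simp)).mul (ih fun i hi => h i (by simp [hi]))

lemma prod_const {ι : Type} {s : Finset ι} {f : ι → MvPolynomial ℕ K}
    (h : ∀ i ∈ s, Box k D (f i)) : Box k (s.card * D) (∏ i ∈ s, f i) := by
  simpa using prod (D := fun _ => D) h

lemma lprod {l : List (MvPolynomial ℕ K)} (h : ∀ q ∈ l, Box k D q) :
    Box k (l.length * D) l.prod := by
  induction l with
  | nil => exact one
  | cons a l ih =>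
    rw [List.prod_cons, List.length_cons, add_mul, one_mul, add_comm]
    exact (h a (by simp)).mul (ih fun q hq => h q (by simp [hq]))

lemma pow (h : Box k D p) (n : ℕ) : Box k (n * D) (p ^ n) := by
  simpa using lprod (l := List.replicate n p) fun q hq => List.eq_of_mem_replicate hq ▸ h

lemma pderiv (h : Box k D p) (i : ℕ) : Box k D (MvPolynomial.pderiv i p) := by
  rw [p.as_sum, map_sum]
  refine sum fun b hb => ?_
  rw [pderiv_monomial]
  exact monomial ((bnd_mono tsub_le_self).trans (h.1 b hb))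
    ((Finsupp.degree_mono tsub_le_self).trans (box_iff.1 h b hb).2) _

lemma map (h : Box k D p) (φ : K →+* K') : Box k D (MvPolynomial.map φ p) :=
  h.of_subset (support_map_subset _ _)

lemma rename (h : Box k D p) {f : ℕ → ℕ} (hf : ∀ i < k, f i < k') :
    Box k' D (MvPolynomial.rename f p) := by
  rw [p.as_sum, map_sum]
  refine sum fun b hb => ?_
  rw [rename_monomial]
  exact monomial (bnd_mapDomain fun i hi => hf i ((lt_bnd hi).trans_le (h.1 b hb)))
    ((Finsupp.degree_mapDomain _ _).trans_le (box_iff.1 h b hb).2) _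

lemma aeval_sub (h : Box k' D p) {g : ℕ → MvPolynomial ℕ K} (hg : ∀ i < k', Box k E (g i)) :
    Box k (D * E) (MvPolynomial.aeval g p) := by
  rw [aeval_def, eval₂_eq]
  refine sum fun b hb => C_mul ((prod (D := fun i => b i * E) fun i hi =>
    (hg i ((lt_bnd hi).trans_le (h.1 b hb))).pow _).mono le_rfl ?_) _
  rw [← Finset.sum_mul]
  exact Nat.mul_le_mul_right _ (box_iff.1 h b hb).2

lemma aeval {g : ℕ → MvPolynomial ℕ K} (hg : ∀ i, Box k E (g i)) (p : MvPolynomial ℕ K) :
    Box k (p.totalDegree * E) (MvPolynomial.aeval g p) :=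
  aeval_sub (k' := p.support.sup bnd) ⟨fun _ hb => Finset.le_sup hb, le_rfl⟩ fun i _ => hg i

lemma aevalX {i : ℕ} (h : i < k) (g : Polynomial K) :
    Box k g.natDegree (Polynomial.aeval (MvPolynomial.X i : MvPolynomial ℕ K) g) := by
  rw [Polynomial.aeval_eq_sum_range]
  exact sum fun j hj => (((X h).pow j).mono le_rfl
    (by simpa using Nat.le_of_lt_succ (Finset.mem_range.1 hj))).smul _

lemma neg {K : Type} [CommRing K] {p : MvPolynomial ℕ K} (h : Box k D p) : Box k D (-p) :=
  h.of_subset (by rw [support_neg])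

lemma sub {K : Type} [CommRing K] {p q : MvPolynomial ℕ K} (h : Box k D p) (h' : Box k D q) :
    Box k D (p - q) := by
  rw [sub_eq_add_neg]; exact h.add h'.neg

end Box

end Box

section Up

variable {σ : Type} [Fintype σ] {K K' : Type} [CommSemiring K] [CommSemiring K']

lemma ix_lt (i : σ) : ix i < Fintype.card σ := (Fintype.equivFin σ i).2

lemma ix_injective : Function.Injective (ix : σ → ℕ) :=
  fun _ _ h => (Fintype.equivFin σ).injective (Fin.ext h)

lemma exists_ix {n : ℕ} (h : n < Fintype.card σ) : ∃ i : σ, ix i = n :=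
  ⟨(Fintype.equivFin σ).symm ⟨n, h⟩, by simp [ix]⟩

lemma prod_ix {M : Type} [CommMonoid M] (f : ℕ → M) :
    ∏ i : σ, f (ix i) = ∏ n ∈ Finset.range (Fintype.card σ), f n := by
  rw [Finset.prod_range]
  exact (Fintype.equivFin σ).prod_comp fun j => f j

lemma sum_ix {M : Type} [AddCommMonoid M] (f : ℕ → M) :
    ∑ i : σ, f (ix i) = ∑ n ∈ Finset.range (Fintype.card σ), f n := by
  rw [Finset.sum_range]
  exact (Fintype.equivFin σ).sum_comp fun j => f j

lemma exists_perm_ix {j : σ → ℕ} (hj : Function.Injective j) (h : ∀ i, j i < Fintype.card σ) :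
    ∃ e : Equiv.Perm σ, ∀ i, ix (e i) = j i := by
  choose e he using fun i => exists_ix (h i)
  exact ⟨Equiv.ofBijective e (Finite.injective_iff_bijective.1 fun a b x =>
    hj (by rw [← he, ← he, x])), he⟩

lemma up_rename {τ : Type} (e : τ → σ) (p : MvPolynomial τ K) :
    up (rename e p) = rename (fun i => ix (e i)) p := rename_rename _ _ _

variable (p q : MvPolynomial σ K)

@[simp] lemma up_add : up (p + q) = up p + up q := map_add _ _ _

@[simp] lemma up_mul : up (p * q) = up p * up q := map_mul _ _ _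

@[simp] lemma up_C (c : K) : up (MvPolynomial.C c : MvPolynomial σ K) = MvPolynomial.C c :=
  rename_C _ _

@[simp] lemma up_X (i : σ) : up (X i : MvPolynomial σ K) = X (ix i) := rename_X _ _

@[simp] lemma up_one : up (1 : MvPolynomial σ K) = 1 := map_one _

@[simp] lemma up_zero : up (0 : MvPolynomial σ K) = 0 := map_zero _

@[simp] lemma up_pow (n : ℕ) : up (p ^ n) = up p ^ n := map_pow _ _ _

@[simp] lemma up_smul (c : K) : up (c • p) = c • up p := map_smul _ _ _

@[simp] lemma up_sum {ι : Type} (s : Finset ι) (f : ι → MvPolynomial σ K) :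
    up (∑ i ∈ s, f i) = ∑ i ∈ s, up (f i) := map_sum _ _ _

@[simp] lemma up_prod {ι : Type} (s : Finset ι) (f : ι → MvPolynomial σ K) :
    up (∏ i ∈ s, f i) = ∏ i ∈ s, up (f i) := map_prod _ _ _

@[simp] lemma up_monomial (b : σ →₀ ℕ) (c : K) :
    up (monomial b c) = monomial (b.mapDomain ix) c := rename_monomial _ _ _

@[simp] lemma up_neg {K : Type} [CommRing K] (p : MvPolynomial σ K) : up (-p) = -up p :=
  map_neg _ _

@[simp] lemma up_sub {K : Type} [CommRing K] (p q : MvPolynomial σ K) :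
    up (p - q) = up p - up q := map_sub _ _ _

@[simp] lemma coeff_up (b : σ →₀ ℕ) : coeff (b.mapDomain ix) (up p) = coeff b p :=
  coeff_rename_mapDomain _ ix_injective _ _

@[simp] lemma up_pderiv (i : σ) : up (pderiv i p) = pderiv (ix i) (up p) :=
  (pderiv_rename ix_injective i p).symm

@[simp] lemma up_map (φ : K →+* K') : up (map φ p) = map φ (up p) := (map_rename _ _ _).symm

lemma up_injective : Function.Injective (up : MvPolynomial σ K → MvPolynomial ℕ K) :=
  rename_injective _ ix_injective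

lemma support_up : (up p).support = p.support.image (Finsupp.mapDomain ix) :=
  support_rename_of_injective ix_injective

@[simp] lemma totalDegree_up : (up p).totalDegree = p.totalDegree := by
  rw [totalDegree_sup, totalDegree_sup, support_up, Finset.sup_image]
  exact Finset.sup_congr rfl fun b _ => Finsupp.degree_mapDomain _ _

@[simp] lemma eval_up (x : ℕ → K) : eval x (up p) = eval (fun i => x (ix i)) p := eval_rename _ _ _

lemma aeval_up {A : Type} [CommSemiring A] [Algebra K A] (x : ℕ → A) :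
    aeval x (up p) = aeval (fun i => x (ix i)) p := aeval_rename _ _ _

lemma up_aeval {τ : Type} (g : τ → MvPolynomial σ K) (r : MvPolynomial τ K) :
    up (aeval g r) = aeval (fun i => up (g i)) r :=
  DFunLike.congr_fun (comp_aeval g (rename ix)) r

@[simp] lemma up_aevalX (i : σ) (g : Polynomial K) :
    up (Polynomial.aeval (X i : MvPolynomial σ K) g) =
      Polynomial.aeval (X (ix i) : MvPolynomial ℕ K) g := by
  rw [← up_X]
  exact (Polynomial.aeval_algHom_apply (rename ix) _ _).symm

lemma box_up : Box (Fintype.card σ) p.totalDegree (up p) := by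
  refine ⟨fun b hb => ?_, (totalDegree_up p).le⟩
  rw [support_up] at hb
  obtain ⟨c, -, rfl⟩ := Finset.mem_image.1 hb
  exact bnd_mapDomain fun i _ => ix_lt i

end Up

variable {α β γ K : Type} [RE α] [RE β] [RE γ] [Field K] [RE K] [RF K]

omit [RF K] in
lemma rsz_mv (p : MvPolynomial ℕ K) :
    rsz p = ∑ b ∈ p.support, (4 * rsz b + 3 + 2 * rsz (coeff b p)) :=
  Finset.sum_congr rfl fun b _ => by rw [rsz_pair]; ring

lemma Box.rsz_le {k D : ℕ} {p : MvPolynomial ℕ K} (h : Box k D p) :
    rsz p ≤ (D + 1) ^ k * (24 * D + 4 * k + 11) := by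
  rw [rsz_mv]
  refine (Finset.sum_le_card_nsmul _ _ (24 * D + 4 * k + 11) fun b hb => ?_).trans
    (Nat.mul_le_mul_right _ h.card_le)
  have := box_iff.1 h b hb
  have := RF.rsz_le (coeff b p)
  rw [rsz_exp]
  omega

omit [RF K] in
lemma rsz_le_mv {p : MvPolynomial ℕ K} {b : ℕ →₀ ℕ} (h : b ∈ p.support) : rsz b ≤ rsz p := by
  rw [rsz_mv]
  refine le_trans ?_ (Finset.single_le_sum
    (f := fun b => 4 * rsz b + 3 + 2 * rsz (coeff b p)) (fun _ _ => Nat.zero_le _) h)
  omega

lemma rsz_mv_add (p q : MvPolynomial ℕ K) : rsz (p + q) ≤ rsz p + 4 * rsz q + 4 := by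
  have s : (p + q).support ⊆ p.support \ q.support ∪ q.support := by
    rw [Finset.sdiff_union_self_eq_union]; exact support_add
  rw [rsz_mv, rsz_mv p, rsz_mv q]
  refine (Finset.sum_le_sum_of_subset s).trans ?_
  rw [Finset.sum_union Finset.sdiff_disjoint, Finset.mul_sum]
  refine le_add_right (add_le_add ((Finset.sum_congr rfl fun b hb => ?_).trans_le
    (Finset.sum_le_sum_of_subset (Finset.sdiff_subset (t := q.support))))
    (Finset.sum_le_sum fun b _ => ?_))
  · rw [coeff_add, notMem_support_iff.1 (Finset.mem_sdiff.1 hb).2, add_zero]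
  · have := RF.rsz_le (coeff b (p + q))
    omega

omit [RE K] [RF K] in
lemma Terms.sum_eq {M : Type} [AddCommMonoid M] {l : List ((ℕ →₀ ℕ) × K)} {p : MvPolynomial ℕ K}
    (h : Terms l p) (F : (ℕ →₀ ℕ) → K → M) :
    (l.map fun x => F x.1 x.2).sum = ∑ b ∈ p.support, F b (coeff b p) := by
  rw [← h.2.1, List.sum_toFinset _ h.1, List.map_map]
  exact congrArg List.sum (List.map_congr_left fun x hx => by simp [← h.2.2 x hx])

variable {p q : α → MvPolynomial ℕ K} {b : α → ℕ →₀ ℕ} {c : α → K} {i n k D : α → ℕ}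

omit [RF K] in
@[fun_prop] theorem RPB.totalDegree (hp : RPT p) : RPB fun a => (p a).totalDegree :=
  (RPB.rsz hp).mono fun a => Finset.sup_le fun b hb => by
    have := rsz_le_mv hb
    rw [rsz_exp] at this
    change b.degree ≤ _
    omega

/-- A bound for the size from a box. -/
theorem RPB.of_box (hb : ∀ a, Box (k a) (D a) (p a)) (hk : RPB k) (hD : RPB D)
    (h : RPB fun a => (D a + 1) ^ k a) : RPB fun a => RE.rsz (p a) :=
  RPB.mono (g := fun a => (D a + 1) ^ k a * (24 * D a + 4 * k a + 11)) (h.mul (by fun_prop))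
    fun a => (hb a).rsz_le

namespace RPT

omit [RF K] in
theorem supp_elim {g : α → γ} (hp : RPT p)
    (hg : RPT fun x : {x : α × List (ℕ →₀ ℕ) // x.2.Nodup ∧ x.2.toFinset = (p x.1).support} =>
      g x.1.1) : RPT g :=
  rel_elim (R := Terms) hp exists_terms (hg.comp'
    (f := fun q : {q : α × List ((ℕ →₀ ℕ) × K) // Terms q.2 (p q.1)} =>
      ⟨(q.1.1, q.1.2.map Prod.fst), q.2.1, q.2.2.1⟩) (by fun_prop))

@[fun_prop] theorem mvCoeff (hb : RPT b) (hp : RPT p) : RPT fun a => coeff (b a) (p a) :=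
  rel_elim (R := Terms) hp exists_terms (RPT.of_eq
    (f := fun q : {q : α × List ((ℕ →₀ ℕ) × K) // Terms q.2 (p q.1)} =>
      (q.1.2.map fun x => if x.1 = b q.1.1 then x.2 else 0).sum) (by fun_prop) fun q => by
    rw [q.2.sum_eq fun d c => if d = b q.1.1 then c else 0, Finset.sum_ite_eq']
    split_ifs with h
    exacts [rfl, (notMem_support_iff.1 h).symm])

theorem ofTerms {l : α → List (ℕ →₀ ℕ)} (hl : RPT l) (hs : ∀ a, ∀ b ∈ (p a).support, b ∈ l a)
    (h : RPT fun x : {x : α × (ℕ →₀ ℕ) // x.2 ∈ l x.1} => coeff x.1.2 (p x.1.1)) : RPT p := by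
  classical
  refine rel_intro (R := Terms) (l := fun a => (((l a).dedup.map fun b => (b, coeff b (p a))).filter
    fun x => decide (x.2 ≠ 0))) (filter (map_sub hl.dedup (pair (by fun_prop)
      (h.weaken fun x hx => List.mem_dedup.1 hx))) (by fun_prop)) fun a => ⟨?_, ?_, ?_⟩
  · refine List.Nodup.sublist (List.filter_sublist.map _) ?_
    simpa [Function.comp_def] using List.nodup_dedup (l a)
  · ext b
    simpa using hs a b ∘ mem_support_iff.2
  · intro x hx
    obtain ⟨b, -, rfl⟩ := List.mem_map.1 (List.mem_filter.1 hx).1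
    rfl

omit [RF K] in
theorem sum_support_sub {M : Type} [AddCommMonoid M] [RE M] [RA M] {h : α → (ℕ →₀ ℕ) → M}
    (hp : RPT p)
    (hh : RPT fun x : {x : α × (ℕ →₀ ℕ) // x.2 ∈ (p x.1).support} => h x.1.1 x.1.2) :
    RPT fun a => ∑ b ∈ (p a).support, h a b :=
  supp_elim hp ((map_sub (l := fun x : {x : α × List (ℕ →₀ ℕ) //
      x.2.Nodup ∧ x.2.toFinset = (p x.1).support} => x.1.2) (h := fun x b => h x.1.1 b)
    (by fun_prop) (hh.comp' (f := fun y : {y : {x : α × List (ℕ →₀ ℕ) //
        x.2.Nodup ∧ x.2.toFinset = (p x.1).support} × (ℕ →₀ ℕ) // y.2 ∈ y.1.1.2} =>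
      ⟨(y.1.1.1.1, y.1.2), y.1.1.2.2 ▸ List.mem_toFinset.2 y.2⟩) (by fun_prop))).lsum.of_eq
    fun x => by rw [← x.2.2, List.sum_toFinset _ x.2.1])

omit [RF K] in
@[fun_prop] theorem sum_support {M : Type} [AddCommMonoid M] [RE M] [RA M] {h : α → (ℕ →₀ ℕ) → M}
    (hp : RPT p) (hh : RPT fun x : α × (ℕ →₀ ℕ) => h x.1 x.2) :
    RPT fun a => ∑ b ∈ (p a).support, h a b := sum_support_sub hp hh.sub

@[fun_prop] theorem mvMonomial (hb : RPT b) (hc : RPT c) : RPT fun a => monomial (b a) (c a) :=
  ofTerms (l := fun a => [b a]) (by fun_prop)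
    (fun _ _ h => List.mem_singleton.2 (Finset.mem_singleton.1 (support_monomial_subset h)))
    (by simp only [coeff_monomial]; fun_prop)

theorem mvAdd (hp : RPT p) (hq : RPT q) : RPT fun a => p a + q a :=
  supp_elim hp (supp_elim (p := fun x => q x.1.1) (by fun_prop)
    (ofTerms (l := fun y => y.1.1.1.2 ++ y.1.2) (by fun_prop) (fun y b hb => by
      have := support_add hb
      rw [← y.2.2, ← y.1.1.2.2] at this
      simpa using this) (by simp only [coeff_add]; fun_prop)))

end RPT

instance : RA (MvPolynomial ℕ K) where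
  add := RPT.mvAdd (.fst .id') (.snd .id')
  zero := RPT.rel_intro (R := Terms) RPT.nil fun _ => by simp [Terms]
  sz_add := rsz_mv_add

namespace RPT

theorem mvMul (hp : RPT p) (hq : RPT q) : RPT fun a => p a * q a :=
  RPT.of_eq (f := fun a => ∑ b ∈ (p a).support, ∑ d ∈ (q a).support,
    monomial (b + d) (coeff b (p a) * coeff d (q a))) (by fun_prop) fun a => by
      conv_rhs => rw [(p a).as_sum, (q a).as_sum, Finset.sum_mul_sum]
      simp only [monomial_mul]

theorem mvNeg (hp : RPT p) : RPT fun a => -p a :=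
  RPT.of_eq (f := fun a => ∑ b ∈ (p a).support, monomial b (-coeff b (p a))) (by fun_prop)
    fun a => by simp only [map_neg, Finset.sum_neg_distrib, support_sum_monomial_coeff]

@[fun_prop] theorem mvC (hc : RPT c) : RPT fun a => (MvPolynomial.C (c a) : MvPolynomial ℕ K) :=
  mvMonomial (const 0) hc

@[fun_prop] theorem mvX (hi : RPT i) (hi' : RPB i) : RPT fun a => (X (i a) : MvPolynomial ℕ K) :=
  mvMonomial (single hi hi' (const 1) (.const 1)) one

end RPT

instance : RR (MvPolynomial ℕ K) where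
  neg := RPT.mvNeg .id'
  mul := RPT.mvMul (.fst .id') (.snd .id')
  one := RPT.mvC .one

instance : RD (MvPolynomial ℕ K) :=
  ⟨RPT.supp_elim (p := fun x => x.1 - x.2) (by fun_prop)
    (RPT.of_eq (f := fun x => x.1.2.isEmpty) (by fun_prop) fun x => by
      have := x.2.2
      rw [Bool.eq_iff_iff, @decide_eq_true_eq _ (Classical.dec _), ← sub_eq_zero (a := x.1.1.1),
        ← support_eq_empty, ← this]
      simp)⟩

namespace RPT

@[fun_prop] theorem mvSmul (hc : RPT c) (hp : RPT p) : RPT fun a => c a • p a :=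
  (mvMul (mvC hc) hp).of_eq fun _ => C_mul'

@[fun_prop] theorem pderiv (hi : RPT i) (hp : RPT p) :
    RPT fun a => MvPolynomial.pderiv (i a) (p a) :=
  RPT.of_eq (f := fun a => ∑ b ∈ (p a).support, monomial (b - Finsupp.single
    (min (i a) (MP_837412_lc.bnd b)) 1) (coeff b (p a) * (b (i a) : K))) (by fun_prop) fun a => by
      conv_rhs => rw [(p a).as_sum, map_sum]
      refine Finset.sum_congr rfl fun b _ => ?_
      rw [pderiv_monomial]
      rcases le_total (i a) (MP_837412_lc.bnd b) with h | h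
      · rw [min_eq_left h]
      · simp [bnd_le.1 le_rfl _ h]

@[fun_prop] theorem totalDegree (hp : RPT p) : RPT fun a => (p a).totalDegree := by
  have e : ∀ l : List (ℕ →₀ ℕ), l.foldr (fun b s => max b.degree s) 0 =
      l.toFinset.sup Finsupp.degree := fun l => by
    induction l with
    | nil => rfl
    | cons a l ih => rw [List.foldr_cons, ih, List.toFinset_cons, Finset.sup_insert]
  refine supp_elim hp ((foldr_inv (f := fun _ (b : ℕ →₀ ℕ) s => max b.degree s)
    (l := fun x : {x : α × List (ℕ →₀ ℕ) // x.2.Nodup ∧ x.2.toFinset = (p x.1).support} => x.1.2)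
    (s0 := fun _ => 0) (by fun_prop) (by fun_prop) (by fun_prop)
    (fun x s => s ≤ (p x.1.1).totalDegree) (fun _ => Nat.zero_le _)
    (fun x s b hb h => max_le (degree_le_total (p := p x.1.1) (x.2.2 ▸ List.mem_toFinset.2 hb)) h)
    (B := fun x => (p x.1.1).totalDegree) (by fun_prop)
    fun _ s h => (rsz_nat_le s).trans h).of_eq fun x => ?_)
  rw [e, x.2.2, totalDegree_sup]

theorem mapDomain {f : α → ℕ → ℕ} (hf : RPT fun x : α × Un => f x.1 x.2.val)
    (hf' : RPB fun x : α × Un => f x.1 x.2.val) (hb : RPT b) :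
    RPT fun a => (b a).mapDomain (f a) :=
  (sum_range (h := fun a i => Finsupp.single (f a i) (b a i)) hb.bnd (.bnd hb)
    (single hf hf' (by fun_prop) (by fun_prop))).of_eq fun _ => (mapDomain_bnd _ _).symm

theorem mvRename {f : α → ℕ → ℕ} (hf : RPT fun x : α × Un => f x.1 x.2.val)
    (hf' : RPB fun x : α × Un => f x.1 x.2.val) (hp : RPT p) :
    RPT fun a => rename (f a) (p a) :=
  (sum_support (h := fun a b => monomial (b.mapDomain (f a)) (coeff b (p a))) hp (mvMonomial
    (mapDomain (f := fun x : α × (ℕ →₀ ℕ) => f x.1)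
      (hf.comp' (f := fun y : (α × (ℕ →₀ ℕ)) × Un => (y.1.1, y.2)) (by fun_prop))
      (hf'.comp (f := fun y : (α × (ℕ →₀ ℕ)) × Un => (y.1.1, y.2)) (by fun_prop)) (by fun_prop))
    (by fun_prop))).of_eq fun a => by
      conv_rhs => rw [(p a).as_sum, map_sum]
      simp only [rename_monomial]

theorem mvMap {K' : Type} [Field K'] [RE K'] [RF K'] {φ : K →+* K'} (hφ : RPT fun x => φ x)
    (hp : RPT p) : RPT fun a => MvPolynomial.map φ (p a) :=
  (sum_support (h := fun a b => monomial b (φ (coeff b (p a)))) hp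
    (mvMonomial (by fun_prop) (hφ.comp' (by fun_prop)))).of_eq fun a => by
      conv_rhs => rw [(p a).as_sum, map_sum]
      simp only [map_monomial]

@[fun_prop] theorem mvMapReal {p : α → MvPolynomial ℕ ℝ} (hp : RPT p) :
    RPT fun a => MvPolynomial.map (algebraMap ℝ ℂ) (p a) := mvMap (ofReal id') hp

@[fun_prop] theorem mvMapOfReal {p : α → MvPolynomial ℕ ℝ} (hp : RPT p) :
    RPT fun a => MvPolynomial.map Complex.ofRealHom (p a) := mvMap (ofReal id') hp

@[fun_prop] theorem mvMapConj {p : α → MvPolynomial ℕ ℂ} (hp : RPT p) :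
    RPT fun a => MvPolynomial.map (starRingEnd ℂ) (p a) := mvMap (conj id') hp

theorem mvEval {x : α → ℕ → K} (hx : RPT fun y : α × Un => x y.1 y.2.val) (hp : RPT p) :
    RPT fun a => eval (x a) (p a) :=
  (sum_support (h := fun a b => coeff b (p a) * ∏ i ∈ Finset.range (MP_837412_lc.bnd b),
    x a i ^ b i) hp (mul (by fun_prop) (prod_range (by fun_prop) (by fun_prop) (pow
      (hx.comp' (f := fun y : (α × (ℕ →₀ ℕ)) × Un => (y.1.1, y.2)) (by fun_prop))
      (by fun_prop) (by fun_prop))))).of_eq fun a => by simp only [eval_eq, prod_bnd]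

theorem mvProd {l : α → List (MvPolynomial ℕ K)} (hl : RPT l)
    (hb : ∀ a, ∀ q ∈ l a, Box (k a) (D a) q) (hk : RPB k) (hD : RPB D)
    (h : RPB fun a => ((l a).length * D a + 1) ^ k a) : RPT fun a => (l a).prod := by
  refine (foldl_pre (f := fun _ s x => s * x) (s0 := fun _ => 1) (by fun_prop) hl one
    (B := fun a => ((l a).length * D a + 1) ^ k a * (24 * ((l a).length * D a) + 4 * k a + 11))
    (h.mul (by fun_prop)) fun a u v e => Box.rsz_le ?_).of_eq fun a => List.prod_eq_foldl.symm
  rw [← List.prod_eq_foldl]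
  exact (Box.lprod fun q hq => hb a q (by simp [e, hq])).mono le_rfl
    (Nat.mul_le_mul_right _ (by simp [e]))

theorem mvProd_range_sub {h : α → ℕ → MvPolynomial ℕ K} (hn : RPT n) (hn' : RPB n)
    (hh : RPT fun x : {x : α × Un // x.2.val < n x.1} => h x.1.1 x.1.2.val)
    (hb : ∀ a, ∀ i < n a, Box (k a) (D a) (h a i)) (hk : RPB k) (hD : RPB D)
    (hB : RPB fun a => (n a * D a + 1) ^ k a) :
    RPT fun a => ∏ i ∈ Finset.range (n a), h a i :=
  (mvProd (map_range_sub hn hn' hh) (fun a q hq => by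
    obtain ⟨i, hi, rfl⟩ := List.mem_map.1 hq
    exact hb a i (List.mem_range.1 hi)) hk hD (by simpa using hB)).of_eq fun a => by
      rw [Finset.prod_range, ← List.prod_ofFn, List.ofFn_eq_map,
        ← List.map_coe_finRange_eq_range, List.map_map]; rfl

theorem mvProd_range {h : α → ℕ → MvPolynomial ℕ K} (hn : RPT n) (hn' : RPB n)
    (hh : RPT fun x : α × Un => h x.1 x.2.val)
    (hb : ∀ a, ∀ i < n a, Box (k a) (D a) (h a i)) (hk : RPB k) (hD : RPB D)
    (hB : RPB fun a => (n a * D a + 1) ^ k a) :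
    RPT fun a => ∏ i ∈ Finset.range (n a), h a i := mvProd_range_sub hn hn' hh.sub hb hk hD hB

theorem mvPow (hp : RPT p) (hn : RPT n) (hn' : RPB n) (hb : ∀ a, Box (k a) (D a) (p a))
    (hk : RPB k) (hD : RPB D) (hB : RPB fun a => (n a * D a + 1) ^ k a) :
    RPT fun a => p a ^ n a :=
  (mvProd (replicate hn hn' hp) (fun a _ hq => List.eq_of_mem_replicate hq ▸ hb a) hk hD
    (by simpa using hB)).of_eq fun _ => List.prod_replicate _ _

/-- Powers of a variable need no box. -/
@[fun_prop] theorem mvXPow (hi : RPT i) (hi' : RPB i) (hn : RPT n) (hn' : RPB n) :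
    RPT fun a => (X (i a) : MvPolynomial ℕ K) ^ n a :=
  (mvMonomial (single hi hi' hn hn') one).of_eq fun _ => X_pow_eq_monomial.symm

/-- Substitution. -/
theorem mvBind {g : α → ℕ → MvPolynomial ℕ K} {E : α → ℕ} (hp : RPT p)
    (hg : RPT fun y : α × Un => g y.1 y.2.val) (hb : ∀ a i, Box (k a) (E a) (g a i)) (hk : RPB k)
    (hE : RPB E) (h : RPB fun a => ((p a).totalDegree * E a + 1) ^ k a) :
    RPT fun a => aeval (g a) (p a) := by
  have e : ∀ (b : ℕ →₀ ℕ) (x : ℕ → MvPolynomial ℕ K) (m : ℕ),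
      ((List.range m).map fun i => List.replicate (b i) (x i)).flatten.prod =
        ∏ i ∈ Finset.range m, x i ^ b i ∧
      ((List.range m).map fun i => List.replicate (b i) (x i)).flatten.length =
        ∑ i ∈ Finset.range m, b i := fun b x m => by
    induction m with
    | zero => simp
    | succ m ih =>
      rw [List.range_succ, List.map_append, List.flatten_append, List.prod_append,
        List.length_append, ih.1, ih.2, Finset.prod_range_succ, Finset.sum_range_succ]
      simp
  refine (sum_support_sub (h := fun a b => MvPolynomial.C (coeff b (p a)) * ((List.range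
    (MP_837412_lc.bnd b)).map fun i => List.replicate (b i) (g a i)).flatten.prod) hp
    (mul (by fun_prop) (mvProd (k := fun x => k x.1.1) (D := fun x => E x.1.1)
      (flatten (map_range (by fun_prop) (by fun_prop) (replicate (by fun_prop) (by fun_prop)
        (hg.comp' (f := fun y : {x : α × (ℕ →₀ ℕ) // x.2 ∈ (p x.1).support} × Un =>
          (y.1.1.1, y.2)) (by fun_prop))))) (fun x q hq => ?_) (by fun_prop) (by fun_prop)
      ((h.comp (f := fun x : {x : α × (ℕ →₀ ℕ) // x.2 ∈ (p x.1).support} => x.1.1)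
        (by fun_prop)).mono fun x => ?_)))).of_eq fun a => ?_
  · obtain ⟨u, hu, hq⟩ := List.mem_flatten.1 hq
    obtain ⟨i, -, rfl⟩ := List.mem_map.1 hu
    exact List.eq_of_mem_replicate hq ▸ hb _ i
  · rw [(e _ _ _).2, ← degree_eq le_rfl]
    exact Nat.pow_le_pow_left (Nat.succ_le_succ
      (Nat.mul_le_mul_right _ (degree_le_total x.2))) _
  · simp only [(e _ _ _).1, aeval_def, eval₂_eq, prod_bnd, algebraMap_eq]

@[fun_prop] theorem aevalX {g : α → Polynomial K} (hi : RPT i) (hi' : RPB i) (hg : RPT g) :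
    RPT fun a => Polynomial.aeval (X (i a) : MvPolynomial ℕ K) (g a) := by
  have hl := ofFun_iff.1 hg
  refine (sum_range (n := fun a => ((List.range ((g a).natDegree + 1)).map (g a).coeff).length)
    (h := fun a j => monomial (Finsupp.single (i a) j)
      (((List.range ((g a).natDegree + 1)).map (g a).coeff).getD j 0)) hl.length (.length hl)
    (mvMonomial (by fun_prop) (getD (by fun_prop)
      (hl.comp' (f := fun y : α × Un => y.1) (by fun_prop)) zero))).of_eq fun a => ?_
  rw [Polynomial.aeval_eq_sum_range, List.length_map, List.length_range]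
  refine Finset.sum_congr rfl fun j hj => ?_
  rw [X_pow_eq_monomial, smul_monomial]
  simp [Finset.mem_range.1 hj]

end RPT

end Pool.Agent.Lib.MP_837412_lc
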