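import Pool.Agent.Lib.MP_837412_lc.U4

/-!
Polynomials in one variable on the machine.
-/

namespace Pool.Agent.Lib.MP_837412_lc

open Polynomial

variable {α K L : Type} [RE α] [Field K] [RE K] [RF K] [Field L] [RE L] [RF L] {p q : α → K[X]}
  {n i : α → ℕ} {c : α → K}

lemma rsz_poly_le (p : K[X]) : rsz p ≤ 9 * (p.natDegree + 1) :=
  (rsz_list_le (l := (List.range (p.natDegree + 1)).map p.coeff) (B := 4)
    fun a _ => RF.rsz_le a).trans (by simp [mul_comm])

omit [RF K] in
lemma le_rsz_poly (p : K[X]) : p.natDegree + 1 ≤ rsz p :=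
  le_trans (by simp) (RPT.length_le ((List.range (p.natDegree + 1)).map p.coeff))

omit [RF K] in
@[fun_prop] theorem RPB.natDegree (hp : RPT p) : RPB fun a => (p a).natDegree :=
  (RPB.rsz hp).mono fun _ => (Nat.le_succ _).trans (le_rsz_poly _)

namespace RPT

omit [RF K] in
theorem coeffList (hp : RPT p) :
    RPT fun a => (List.range ((p a).natDegree + 1)).map (p a).coeff := hp

omit [RF K] in
@[fun_prop] theorem natDegree (hp : RPT p) : RPT fun a => (p a).natDegree :=
  (hp.coeffList.length.nsub (const 1)).of_eq (by simp)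

@[fun_prop] theorem coeff (hp : RPT p) (hi : RPT i) : RPT fun a => (p a).coeff (i a) :=
  (getD hi hp.coeffList zero).of_eq fun a => by
    rcases le_or_gt (i a) (p a).natDegree with h | h
    · simp [Nat.lt_succ_of_le h]
    · rw [coeff_eq_zero_of_natDegree_lt h, List.getD_eq_default _ _ (by simpa using h)]

theorem ofCoeff_sub (hn : RPT n) (hb : RPB n) (hd : ∀ a, (p a).natDegree ≤ n a)
    (h : RPT fun x : {x : α × Un // x.2.val ≤ n x.1} => (p x.1.1).coeff x.1.2.val) : RPT p := by
  classical
  have h1 : RPT fun a => (List.range (n a + 1)).map (p a).coeff :=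
    map_range_sub (by fun_prop) (by fun_prop) (h.weaken fun _ => Nat.le_of_lt_succ)
  have h2 : RPT fun x : α × ℕ => decide ((p x.1).natDegree ≤ x.2) := by
    refine decide_iff (f := fun x : α × ℕ => (((List.range (n x.1 + 1)).map (p x.1).coeff).drop
      (x.2 + 1)).all fun y => decide (y = 0))
      (all (drop (by fun_prop) (h1.comp' (by fun_prop))) (by fun_prop)) fun x => ?_
    rw [natDegree_le_iff_coeff_eq_zero, ← List.map_drop]
    simp only [List.all_map, List.all_eq_true, Function.comp, decide_eq_true_eq]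
    refine ⟨fun e j hj => ?_, fun e j hj => e j ?_⟩
    · rcases le_or_gt j (n x.1) with a | a
      · exact e j (List.mem_iff_getElem?.2 ⟨j - (x.2 + 1), by
          rw [List.getElem?_drop, Nat.add_sub_cancel' hj, List.getElem?_range (by omega)]⟩)
      · exact coeff_eq_zero_of_natDegree_lt ((hd _).trans_lt a)
    · obtain ⟨k, hk⟩ := List.mem_iff_getElem?.1 hj
      rw [List.getElem?_drop, List.getElem?_eq_some_iff] at hk
      obtain ⟨_, hk⟩ := hk
      rw [List.getElem_range] at hk
      omega
  have h3 : RPT fun a => (p a).natDegree :=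
    (findIdx (h := fun a j => decide ((p a).natDegree ≤ j)) (range (f := fun a => n a + 1)
      (by fun_prop) (by fun_prop)) h2).of_eq fun a => by
        rw [List.findIdx_eq (by simpa using Nat.lt_succ_of_le (hd a))]
        simp
  exact RPT.ofFun_iff.2 ((take (h3.nadd (const 1)) h1).of_eq fun a => by
    rw [← List.map_take, List.take_range, min_eq_left (Nat.succ_le_succ (hd a))])

theorem ofCoeff (hn : RPT n) (hb : RPB n) (hd : ∀ a, (p a).natDegree ≤ n a)
    (h : RPT fun x : α × Un => (p x.1).coeff x.2.val) : RPT p := ofCoeff_sub hn hb hd h.sub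

@[fun_prop] theorem monomial (hn : RPT n) (hb : RPB n) (hc : RPT c) :
    RPT fun a => Polynomial.monomial (n a) (c a) :=
  ofCoeff hn hb (fun _ => natDegree_monomial_le _) (by simp only [coeff_monomial]; fun_prop)

@[fun_prop] theorem polyC (hc : RPT c) : RPT fun a => Polynomial.C (c a) :=
  monomial (const 0) (.const 0) hc

@[fun_prop] theorem polyX : RPT fun _ : α => (X : K[X]) := monomial (const 1) (.const 1) one

@[fun_prop] theorem leadingCoeff (hp : RPT p) : RPT fun a => (p a).leadingCoeff :=
  hp.coeff hp.natDegree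

@[fun_prop] theorem eval (hp : RPT p) (hc : RPT c) : RPT fun a => (p a).eval (c a) := by
  simp only [eval_eq_sum_range]
  exact sum_range (by fun_prop) (by fun_prop) (by fun_prop)

@[fun_prop] theorem derivative (hp : RPT p) : RPT fun a => Polynomial.derivative (p a) :=
  ofCoeff hp.natDegree (.natDegree hp) (fun _ => (natDegree_derivative_le _).trans (by omega))
    (by simp only [coeff_derivative]; fun_prop)

@[fun_prop] theorem iterate_derivative (hp : RPT p) (hn : RPT n) (hb : RPB n) :
    RPT fun a => Polynomial.derivative^[n a] (p a) :=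
  iterate (f := fun _ s => Polynomial.derivative s) (by fun_prop) hn hb hp
    (B := fun a => 9 * ((p a).natDegree + 1)) (by fun_prop) fun a j _ =>
      (rsz_poly_le _).trans (Nat.mul_le_mul_left _ (Nat.succ_le_succ
        ((natDegree_iterate_derivative (p a) j).trans (Nat.sub_le _ _))))

theorem polyMap (f : K →+* L) (hf : RPT fun x => f x) (hp : RPT p) : RPT fun a => (p a).map f :=
  ofCoeff hp.natDegree (.natDegree hp) (fun _ => natDegree_map_le)
    (by simp only [coeff_map]; exact hf.comp' (by fun_prop))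

end RPT

instance : RD K[X] := ⟨by
  classical
  refine RPT.decide_iff (f := fun x : K[X] × K[X] =>
    (List.range (max x.1.natDegree x.2.natDegree + 1)).all
      fun j => decide (x.1.coeff j = x.2.coeff j)) (by fun_prop) fun x => ?_
  rw [ext_iff_natDegree_le (le_max_left _ _) (le_max_right _ _)]
  simp only [List.all_eq_true, List.mem_range, Nat.lt_succ_iff, decide_eq_true_eq]⟩

/-- All elements have the same size. -/
class RK (X : Type) [RE X] : Prop where
  eq : ∀ x y : X, rsz x = rsz y

instance : RK ℝ := ⟨fun _ _ => rfl⟩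
instance : RK ℂ := ⟨fun _ _ => rfl⟩

variable [RK K]

omit [RF K] in
lemma rsz_poly (p : K[X]) : rsz p = (p.natDegree + 1) * (2 * rsz (0 : K) + 1) := by
  change (((List.range (p.natDegree + 1)).map p.coeff).map fun x => 2 * rsz x + 1).sum = _
  simp [fun x : K => RK.eq x 0, Function.comp_def]

instance : RR K[X] where
  add := .ofCoeff (n := fun x : K[X] × K[X] => max x.1.natDegree x.2.natDegree) (by fun_prop)
    (by fun_prop) (fun _ => natDegree_add_le _ _) (by simp only [coeff_add]; fun_prop)
  zero := (RPT.polyC .zero).of_eq fun _ => C_0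
  sz_add x y := by
    have := Nat.mul_le_mul_right (2 * rsz (0 : K) + 1) (show (x + y).natDegree + 1 ≤
      x.natDegree + 1 + (y.natDegree + 1) by have := natDegree_add_le x y; omega)
    simp only [rsz_poly, add_mul _ (y.natDegree + 1)] at this ⊢
    omega
  neg := .ofCoeff (n := fun x : K[X] => x.natDegree) (by fun_prop) (by fun_prop)
    (fun _ => (natDegree_neg _).le) (by simp only [coeff_neg]; fun_prop)
  mul := .ofCoeff (n := fun x : K[X] × K[X] => x.1.natDegree + x.2.natDegree) (by fun_prop)
    (by fun_prop) (fun _ => natDegree_mul_le) (by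
      simp only [coeff_mul, Finset.Nat.sum_antidiagonal_eq_sum_range_succ_mk]
      exact .sum_range (by fun_prop) (by fun_prop) (by fun_prop))
  one := RPT.polyC .one

instance : RS K[X] := ⟨fun x y => by
  have := Nat.mul_le_mul_right (2 * rsz (0 : K) + 1) (show (x * y).natDegree + 1 ≤
    x.natDegree + 1 + (y.natDegree + 1) by have := natDegree_mul_le (p := x) (q := y); omega)
  simp only [rsz_poly, add_mul _ (y.natDegree + 1)] at this ⊢
  omega⟩

open Classical in
/-- One step of the division with remainder. -/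
noncomputable def divStep (q : K[X]) (s : K[X] × K[X]) : K[X] × K[X] :=
  if q.natDegree ≤ s.2.natDegree ∧ s.2 ≠ 0 then
    (s.1 + Polynomial.C s.2.leadingCoeff * X ^ (s.2.natDegree - q.natDegree),
      s.2 - q * (Polynomial.C s.2.leadingCoeff * X ^ (s.2.natDegree - q.natDegree))) else s

omit [RE K] [RF K] [RK K] in
lemma divStep_inv (p : K[X]) {q : K[X]} (hq : q.Monic) (i : ℕ) (s : K[X] × K[X])
    (hs : s = (divStep q)^[i] (0, p)) : s.2 + q * s.1 = p ∧
      (s.2.degree < q.degree ∨ s.2.natDegree + i ≤ p.natDegree) ∧ s.1.natDegree ≤ p.natDegree ∧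
      s.2.natDegree ≤ p.natDegree := by
  induction i generalizing s with
  | zero => subst hs; simp
  | succ i ih =>
    rw [Function.iterate_succ_apply'] at hs
    obtain ⟨a, b, c, d⟩ := ih _ rfl
    generalize (divStep q)^[i] (0, p) = u at *
    have q0 := hq.ne_zero
    rw [divStep] at hs
    split_ifs at hs with h <;> subst hs
    · have e : q.degree ≤ u.2.degree := by
        rw [degree_eq_natDegree q0, degree_eq_natDegree h.2]; exact_mod_cast h.1
      have w := div_wf_lemma ⟨e, h.2⟩ hq
      refine ⟨by rw [← a]; ring, ?_, (natDegree_add_le _ _).trans (max_le c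
        ((natDegree_C_mul_X_pow_le _ _).trans (by omega))), (natDegree_le_natDegree w.le).trans d⟩
      dsimp only
      by_cases z : u.2 - q * (Polynomial.C u.2.leadingCoeff * X ^ (u.2.natDegree - q.natDegree)) = 0
      · exact .inl (by rw [z, degree_zero]; exact bot_lt_iff_ne_bot.2 (degree_ne_bot.2 q0))
      · have := natDegree_lt_natDegree z w
        have := b.resolve_left e.not_gt
        exact .inr (by omega)
    · refine ⟨a, .inl ?_, c, d⟩
      by_cases z : s.2 = 0
      · rw [z, degree_zero]; exact bot_lt_iff_ne_bot.2 (degree_ne_bot.2 q0)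
      · exact degree_lt_degree (not_le.1 fun x => h ⟨x, z⟩)

namespace RPT

@[fun_prop] theorem comp (hp : RPT p) (hq : RPT q) : RPT fun a => (p a).comp (q a) := by
  simp only [Polynomial.comp, eval₂_eq_sum_range]
  exact sum_range (by fun_prop) (by fun_prop) (by fun_prop)

@[fun_prop] theorem smul (hc : RPT c) (hp : RPT p) : RPT fun a => c a • p a :=
  (hc.polyC.mul hp).of_eq fun _ => (smul_eq_C_mul _).symm

theorem divMod₀ (hp : RPT p) (hq : RPT q) (hm : ∀ a, (q a).Monic) :
    RPT fun a => (p a /ₘ q a, p a %ₘ q a) := by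
  classical
  refine (iterate (f := fun a => divStep (q a)) (n := fun a => (p a).natDegree + 1)
    (s0 := fun a => (0, p a)) ?_ (by fun_prop) (by fun_prop) (by fun_prop)
    (B := fun a => 27 * ((p a).natDegree + 1) + 1) (by fun_prop) fun a j _ => ?_).of_eq fun a => ?_
  · unfold divStep
    exact ite (decide_and (i := fun _ => inferInstance) (j := fun _ => inferInstance) (by fun_prop)
      (by fun_prop)) (by fun_prop) (by fun_prop)
  · obtain ⟨-, -, c, d⟩ := divStep_inv (p a) (hm a) j _ rfl
    have := rsz_poly_le ((divStep (q a))^[j] (0, p a)).1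
    have := rsz_poly_le ((divStep (q a))^[j] (0, p a)).2
    rw [rsz_prod]
    omega
  · obtain ⟨b, c, -⟩ := divStep_inv (p a) (hm a) ((p a).natDegree + 1) _ rfl
    obtain ⟨d, e⟩ := div_modByMonic_unique _ _ (hm a) ⟨b, c.resolve_right (by omega)⟩
    rw [d, e]

theorem divMod (hp : RPT p) (hq : RPT q) : RPT fun a => (p a /ₘ q a, p a %ₘ q a) := by
  classical
  refine branch (p := fun a => (q a).leadingCoeff = 1) (i := fun _ => inferInstance) (by fun_prop)
    (divMod₀ hp.sub hq.sub fun a => a.2) ((zero.pair hp.sub).of_eq fun a => ?_)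
  rw [divByMonic_eq_of_not_monic _ a.2, modByMonic_eq_of_not_monic _ a.2]

@[fun_prop] theorem divByMonic (hp : RPT p) (hq : RPT q) : RPT fun a => p a /ₘ q a :=
  (divMod hp hq).fst

@[fun_prop] theorem modByMonic (hp : RPT p) (hq : RPT q) : RPT fun a => p a %ₘ q a :=
  (divMod hp hq).snd

@[fun_prop] theorem polyDiv (hp : RPT p) (hq : RPT q) : RPT fun a => p a / q a := by
  simp only [div_def]; fun_prop

@[fun_prop] theorem polyMod (hp : RPT p) (hq : RPT q) : RPT fun a => p a % q a := by
  simp only [mod_def]; fun_prop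

/-- Interpolation at small integers. -/
theorem interp_sub [CharZero K] (hn : RPT n) (hb : RPB n) (hd : ∀ a, (p a).natDegree ≤ n a)
    (h : RPT fun x : {x : α × Un // x.2.val ≤ n x.1} => (p x.1.1).eval (x.1.2.val : K)) :
    RPT p := by
  classical
  refine (sum_range_sub (n := fun a => n a + 1) (h := fun a t => Polynomial.C ((p a).eval (t : K)) *
    ∏ j ∈ Finset.range (n a + 1), if j ≠ t then
      Polynomial.C ((t : K) - j)⁻¹ * (X - Polynomial.C (j : K)) else 1) (by fun_prop) (by fun_prop)
    ((h.weaken fun _ => Nat.le_of_lt_succ).polyC.mul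
      (prod_range (by fun_prop) (by fun_prop) (by fun_prop)))).of_eq fun a => ?_
  have inj : Set.InjOn (fun t : ℕ => (t : K)) (Finset.range (n a + 1)) := Nat.cast_injective.injOn
  refine ((Lagrange.eq_interpolate inj ?_).trans ((Lagrange.interpolate_apply _ _ _).trans
    (Finset.sum_congr rfl fun t _ => ?_))).symm
  · rw [Finset.card_range]
    exact degree_le_natDegree.trans_lt (by exact_mod_cast Nat.lt_succ_of_le (hd a))
  · rw [← Finset.prod_filter, Finset.filter_ne']
    rfl

theorem interp [CharZero K] (hn : RPT n) (hb : RPB n) (hd : ∀ a, (p a).natDegree ≤ n a)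
    (h : RPT fun x : α × Un => (p x.1).eval (x.2.val : K)) : RPT p := interp_sub hn hb hd h.sub

section RC

variable {p : α → ℝ[X]} {q : α → ℂ[X]} {z : α → ℂ}

@[fun_prop] theorem mapReal (hp : RPT p) : RPT fun a => (p a).map (algebraMap ℝ ℂ) :=
  polyMap _ (ofReal id') hp

@[fun_prop] theorem mapConj (hq : RPT q) : RPT fun a => (q a).map (starRingEnd ℂ) :=
  polyMap _ (conj id') hq

@[fun_prop] theorem aevalC (hz : RPT z) (hp : RPT p) : RPT fun a => aeval (z a) (p a) :=
  (hp.mapReal.eval hz).of_eq fun _ => eval_map_algebraMap _ _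

@[fun_prop] theorem rp (hq : RPT q) : RPT fun a => rp (q a) :=
  ofCoeff hq.natDegree (.natDegree hq) (fun _ => natDegree_rp _)
    (by simp only [coeff_rp]; fun_prop)

@[fun_prop] theorem ip (hq : RPT q) : RPT fun a => ip (q a) :=
  ofCoeff hq.natDegree (.natDegree hq) (fun _ => natDegree_ip _)
    (by simp only [coeff_ip]; fun_prop)

@[fun_prop] theorem nz (hp : RPT p) : RPT fun a => nz (p a) := by
  unfold MP_837412_lc.nz; fun_prop

theorem pol_sub {f : α → ℝ → ℂ} (hn : RPT n) (hb : RPB n)
    (hf : ∀ a, IsP Complex.ofReal (n a) (f a))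
    (h : RPT fun x : {x : α × Un // x.2.val ≤ n x.1} => f x.1.1 (x.1.2.val : ℝ)) :
    RPT fun a => pol (f a) :=
  interp_sub hn hb (fun a => (hf a).pol.1) (h.of_eq fun x => by rw [← (hf _).pol.2]; simp)

theorem pol {f : α → ℝ → ℂ} (hn : RPT n) (hb : RPB n) (hf : ∀ a, IsP Complex.ofReal (n a) (f a))
    (h : RPT fun x : α × Un => f x.1 (x.2.val : ℝ)) : RPT fun a => pol (f a) :=
  pol_sub hn hb hf h.sub

@[fun_prop] theorem cb (hq : RPT q) : RPT fun a => cb (q a) :=
  one.add (sum_range hq.natDegree (.natDegree hq) (by fun_prop))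

@[fun_prop] theorem arc {l s : α → ℝ} (hl : RPT l) (hn : RPT n) (hs : RPT s) :
    RPT fun a => arc (l a) (n a) (s a) := by
  unfold MP_837412_lc.arc; fun_prop

end RC

end RPT

end Pool.Agent.Lib.MP_837412_lc
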