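import Pool.Agent.Lib.MP_837412_lc.RSt
import Pool.Agent.Lib.MP_837412_lc.UP

/-!
Adjunction of a real root: the machine simulates a run on virtual registers.
-/

namespace Pool.Agent.Lib.MP_837412_lc

open Pool.Agent.Shared.PolyTime List Polynomial

namespace VAdj

/-- An input together with its code and the registers at the start. -/
structure Wr (α : Type) [RE α] where
  r : List ℝ
  c : C α
  x : α
  rep : Rep r c x

instance {α : Type} [RE α] : RE (Wr α) where
  C := C α × ℕ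
  enc := inferInstance
  Rep r k w := w.r <+: r ∧ k = (w.c, w.r.length)
  mono h e := ⟨h.1.trans e, h.2⟩
  rsz w := rsz w.x
  csz k := csz k.1
  pt := by have := RE.pt (X := α); fun_prop
  le k := by have := RE.le k.1; rw [sz_prod]; omega
  eq := fun {_ _ w} h => by rw [h.2]; exact RE.eq w.rep

variable {α β γ : Type} [RE α] [RE β] [RE γ]

lemma reflect {f : α → β} (h : RPT fun w : Wr α => f w.x) (hb : RPB fun a => rsz (f a)) :
    RPT f := by
  obtain ⟨P, g, a1, ⟨q, a2⟩, -, a4⟩ := h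
  refine ⟨fun c n s => P (c, n) n s, fun a => q.eval (rsz a), a1.comp'
    (f := fun z : C α × ℕ × List ℤ => (((z.1, z.2.1) : C α × ℕ), z.2.1, z.2.2)) (by fun_prop),
    ⟨q, fun _ => le_rfl⟩, hb, fun r c x hx => ?_⟩
  obtain ⟨r', c', b1, b2, b3⟩ := a4 r (c, r.length) ⟨r, c, x, hx⟩ ⟨prefix_rfl, rfl⟩
  exact ⟨r', c', b1, b2, b3.trans (Nat.add_le_add_left (a2 _) _)⟩

lemma rpt_x : RPT fun w : Wr α => w.x :=
  RPT.id'.pure (Prod.fst : C α × ℕ → C α) (by fun_prop) RPB.self fun w _ _ h => by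
    rw [h.2]; exact RE.mono w.rep h.1

lemma rpt_k : RPT fun w : Wr α => Hid.mk (w.c, w.r.length) :=
  RPT.id'.pure (fun k : C α × ℕ => k) PT.id' (.const 0) fun _ _ _ h => h.2

lemma rpt_s : RPT fun w : Wr α => Hid.mk (w.r.map sgn) :=
  RPT.id'.look (fun (k : C α × ℕ) s => s.take k.2)
    (PT.take (α := (C α × ℕ) × List ℤ) (by fun_prop) (by fun_prop)) (.const 0) fun w r k h => by
      obtain ⟨⟨t, rfl⟩, rfl⟩ := h
      change _ = _
      rw [map_append, take_left' (by simp)]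

lemma rpt_reg : RPT fun z : {z : Wr α × Hid ℕ // z.2.val < z.1.r.length} =>
    z.1.1.r.getD z.1.2.val 0 := by
  refine RPT.id'.post (fun (c : (C α × ℕ) × ℕ) n s => (emit (0, 0, 0) n s).bind fun x n =>
    ret ((c.2, x) : ℕ × ℕ) n) ?_ (.const 1) (.const 1) fun z r c h => ?_
  · exact pt_bind (α := ((C α × ℕ) × ℕ) × ℕ × List ℤ) (by fun_prop)
      (pt_ret (γ := ℕ × ℕ) (by fun_prop) (by fun_prop))
  · have e := Go.emit (u := r) (i := (0, 0, 0)) (by simp [WF])
    have a : At (r ++ [Ins.val r (0, 0, 0)]) c.2 (z.1.1.r.getD z.1.2.val 0) := by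
      rw [show c.2 = z.1.2.val from h.2]
      exact At.mono ⟨z.2, rfl⟩ (h.1.1.trans (prefix_append _ _))
    exact ⟨_, _, e.bind (k := fun x n _ => ret ((c.2, x) : ℕ × ℕ) n) (.ret _ _),
      rep_real.2 ⟨_, _, a, At.snoc _ _, by simp [Ins.val], by simp [Ins.val]⟩, by simp⟩

lemma rpt_size (q : ℕ[X]) : RPT fun a : α => q.eval (rsz a) :=
  RPT.id'.pure (γ := ℕ) (fun c => (q.eval (csz (X := α) c) : ℕ)) (RPT.pt_csz q).1
    ⟨q, fun _ => rsz_nat_le _⟩ fun _ _ _ h => congrArg (fun n : ℕ => q.eval n) (RE.eq h)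

/-- The polynomial in a register. -/
noncomputable def opd (r : List ℝ) (L : List ℝ[X]) (k : ℕ) : ℝ[X] :=
  if k < r.length then Polynomial.C (r.getD k 0) else L.getD (k - r.length) 0

/-- The polynomial that an instruction produces. -/
noncomputable def nw (r : List ℝ) (L : List ℝ[X]) (i : Ins) : ℝ[X] :=
  if i.1 = 0 then 1 else if i.1 = 1 then opd r L i.2.1 + opd r L i.2.2
  else if i.1 = 2 then opd r L i.2.1 - opd r L i.2.2 else opd r L i.2.1 * opd r L i.2.2

/-- The virtual registers. -/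
noncomputable def regs (r : List ℝ) (ρ : ℝ) (L : List ℝ[X]) : List ℝ := r ++ L.map (eval ρ)

lemma eval_opd (r : List ℝ) (ρ : ℝ) (L : List ℝ[X]) (k : ℕ) :
    (opd r L k).eval ρ = (regs r ρ L).getD k 0 := by
  unfold opd regs
  split_ifs with h
  · rw [eval_C, getD_append _ _ _ _ h]
  · rw [getD_append_right _ _ _ _ (not_lt.1 h), ← getD_map (f := eval ρ), eval_zero]

lemma eval_nw (r : List ℝ) (ρ : ℝ) (L : List ℝ[X]) (i : Ins) :
    (nw r L i).eval ρ = i.val (regs r ρ L) := by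
  unfold nw Ins.val
  split_ifs <;> simp only [eval_one, eval_add, eval_sub, eval_mul, eval_opd]

section Round

variable {δ : Type} (F : List ℤ → Res δ) (r : List ℝ) (ρ : ℝ) (m : ℝ[X])

/-- One round of the simulation. -/
noncomputable def rd (L : List ℝ[X]) : List ℝ[X] :=
  bif (F ((regs r ρ L).map sgn)).1.isSome then L
  else L ++ [nw r L (F ((regs r ρ L).map sgn)).2 % m]

lemma regs_rd (hm : m.eval ρ = 0) (L : List ℝ[X]) : regs r ρ (rd F r ρ m L) =
    mstep (fun s => ((F s).1.isSome, [], (F s).2)) (regs r ρ L) := by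
  unfold rd mstep
  dsimp only
  by_cases h : (F ((regs r ρ L).map sgn)).1.isSome = true
  · rw [if_pos h, h, cond_true]
  · have e := congrArg (eval ρ)
      (EuclideanDomain.div_add_mod (nw r L (F ((regs r ρ L).map sgn)).2) m)
    rw [eval_add, eval_mul, hm, zero_mul, zero_add, eval_nw] at e
    rw [if_neg h, Bool.eq_false_iff.2 h, cond_false, ← e, regs, map_append, ← append_assoc]
    rfl

lemma rd_bound (hm : m ≠ 0) (n : ℕ) : ((rd F r ρ m)^[n] [X, 1]).length ≤ n + 2 ∧
    ∀ g ∈ (rd F r ρ m)^[n] [X, 1], g.natDegree ≤ m.natDegree + 1 := by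
  induction n with
  | zero => simp
  | succ n ih =>
    rw [Function.iterate_succ_apply', rd]
    cases (F ((regs r ρ ((rd F r ρ m)^[n] [X, 1])).map sgn)).1.isSome
    · refine ⟨by simpa using ih.1, fun g hg => (mem_append.1 hg).elim (ih.2 g) fun e => ?_⟩
      rw [mem_singleton.1 e]
      exact (natDegree_le_natDegree (degree_mod_lt _ hm).le).trans (Nat.le_succ _)
    · exact ⟨ih.1.trans (Nat.le_succ _), ih.2⟩

end Round

variable {w : γ → Wr α} {L : γ → List ℝ[X]}

lemma rpt_opd {k : γ → Hid ℕ} (hw : RPT w) (hL : RPT L) (hk : RPT k) :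
    RPT fun z => opd (w z).r (L z) (k z).val := by
  have h1 := RPT.hid_pair hk (rpt_k.comp' hw)
  refine RPT.branch (p := fun z => (k z).val < (w z).r.length) (i := fun _ => inferInstance)
    (RPT.unhide (RPT.hid (g := fun y : ℕ × C α × ℕ => decide (y.1 < y.2.2)) (by fun_prop) h1)
      (.const 1)) ?_ ?_
  · exact (rpt_reg.comp' (RPT.mk (p := fun z : Wr α × Hid ℕ => z.2.val < z.1.r.length)
      (hw.sub.pair hk.sub) fun z => z.2)).polyC.of_eq fun z => (if_pos z.2).symm
  · have h2 := RPT.unhide (RPT.hid (g := fun y : (ℕ × C α × ℕ) × ℕ => min (y.1.1 - y.1.2.2) y.2)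
      (by fun_prop) (RPT.hid_pair h1 hL.length.hide))
      ((RPB.length hL).mono fun z => (rsz_nat_le _).trans (min_le_right _ _))
    refine (RPT.getD h2 hL RPT.zero).sub.of_eq fun z => ?_
    rw [opd, if_neg z.2]
    rcases le_total ((k z.1).val - (w z.1).r.length) (L z.1).length with e | e
    · exact congrArg (getD _ · _) (min_eq_left e)
    · rw [getD_eq_default _ _ e]
      exact getD_eq_default _ _ (le_min e le_rfl)

lemma rpt_nw {i : γ → Hid Ins} (hw : RPT w) (hL : RPT L) (hi : RPT i) :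
    RPT fun z => nw (w z).r (L z) (i z).val := by
  have h1 := rpt_opd hw hL (RPT.hid (g := fun y : Ins => y.2.1) (by fun_prop) hi)
  have h2 := rpt_opd hw hL (RPT.hid (g := fun y : Ins => y.2.2) (by fun_prop) hi)
  have h3 : ∀ n, RPT fun z => decide ((i z).val.1 = n) := fun n =>
    RPT.unhide (RPT.hid (g := fun y : Ins => decide (y.1 = n)) (by fun_prop) hi) (.const 1)
  exact RPT.ite (h3 0) RPT.one (RPT.ite (h3 1) (h1.add h2) (RPT.ite (h3 2) (h1.sub' h2) (h1.mul h2)))

end VAdj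

open VAdj

theorem adjU (h : SignAtU) : AdjU := by
  intro α β _ _ _ _ p j f hp hj h0 hf
  obtain ⟨P, g, a1, ⟨q, a2⟩, ⟨s, a3⟩, a4⟩ := hf
  let ρ : α → ℝ := fun a => rt (p a) (j a)
  let m : α → ℝ[X] := fun a => if j a < nr (p a) then p a else X
  let q' : ℕ[X] := q.comp (2 * X + 2)
  let F : C α × ℕ → List ℤ → Res (C β) := fun k =>
    P ((k.1, k.2, k.2 + 1) : C α × ℕ × ℕ) (k.2 + 2)
  have hF : PT fun z : (C α × ℕ) × List ℤ => F z.1 z.2 := a1.comp'
    (f := fun z : (C α × ℕ) × List ℤ =>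
      (((z.1.1, z.1.2, z.1.2 + 1) : C α × ℕ × ℕ), z.1.2 + 2, z.2)) (by fun_prop)
  have m0 : ∀ a, m a ≠ 0 := fun a => by
    unfold m
    split_ifs
    exacts [h0 a, X_ne_zero]
  have m1 : ∀ a, (m a).eval (ρ a) = 0 := fun a => by
    unfold m ρ
    split_ifs with e
    · exact rt_root e
    · rw [eval_X, rt, dif_neg e]
  have hm : RPT m := RPT.ite (hj.decide_lt (h α p p j hp hp hj h0).1) hp RPT.polyX
  have ho : RPT fun z : Wr α × List ℝ[X] =>
      Hid.mk (F (z.1.c, z.1.r.length) ((regs z.1.r (ρ z.1.x) z.2).map sgn)) := by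
    have x : RPT fun y : (Wr α × List ℝ[X]) × ℝ[X] => y.1.1.x := rpt_x.comp' (by fun_prop)
    have x' : RPT fun y : (Wr α × List ℝ[X]) × ℝ[X] => sgn (y.2.eval (ρ y.1.1.x)) :=
      (h _ (fun y : (Wr α × List ℝ[X]) × ℝ[X] => p y.1.1.x) (fun y => y.2) (fun y => j y.1.1.x)
        (hp.comp' x) (RPT.snd RPT.id') (hj.comp' x) fun y => h0 _).2.signCast
    have b := RPT.map (α := Wr α × List ℝ[X]) (l := fun z => z.2)
      (h := fun z g => sgn (g.eval (ρ z.1.x))) (RPT.snd RPT.id') x'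
    have c := RPT.hid (g := fun y : List ℤ × List ℤ => y.1 ++ y.2) (by fun_prop)
      (RPT.hid_pair (rpt_s.comp' (RPT.fst RPT.id')) b.hide)
    refine (RPT.hid hF (RPT.hid_pair (rpt_k.comp' (RPT.fst RPT.id')) c)).of_eq fun z => ?_
    simp only [regs, map_append, map_map]
    rfl
  have hr : RPT fun z : Wr α × List ℝ[X] =>
      rd (F (z.1.c, z.1.r.length)) z.1.r (ρ z.1.x) (m z.1.x) z.2 :=
    RPT.cond (RPT.unhide (RPT.hid (g := fun y : Res (C β) => y.1.isSome) (by fun_prop) ho)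
      (.const 1)) (by fun_prop) (RPT.append (by fun_prop) (RPT.cons (RPT.polyMod
        (rpt_nw (RPT.fst RPT.id') (RPT.snd RPT.id')
          (RPT.hid (g := fun y : Res (C β) => y.2) (by fun_prop) ho))
        (hm.comp' (rpt_x.comp' (RPT.fst RPT.id')))) RPT.nil))
  have hT : RPB fun w : Wr α => q'.eval (rsz w) := ⟨q', fun _ => le_rfl⟩
  have hd := RPB.natDegree (hm.comp' rpt_x)
  have hi := RPT.iterate (f := fun w : Wr α => rd (F (w.c, w.r.length)) w.r (ρ w.x) (m w.x))
    (s0 := fun _ => [X, 1]) hr (rpt_size q') hT (RPT.polyX.cons (RPT.one.cons RPT.nil))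
    (B := fun w => (q'.eval (rsz w) + 2) * (2 * (9 * ((m w.x).natDegree + 2)) + 1))
    (by fun_prop) fun w i hi => by
      obtain ⟨b1, b2⟩ := rd_bound (F (w.c, w.r.length)) w.r (ρ w.x) (m w.x) (m0 _) i
      exact (rsz_list_le fun g hg => (rsz_poly_le g).trans (Nat.mul_le_mul_left _
        (Nat.succ_le_succ (b2 g hg)))).trans (Nat.mul_le_mul_right _ (by omega))
  have hb : RPB fun a => rsz (f a) := (RPB.eval (f := fun a : α => 2 * rsz a + 1 + 1)
    (by have := RPB.self (α := α); fun_prop) s).mono fun a => a3 ⟨(a, ρ a), rfl⟩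
  refine reflect ((ho.comp' (RPT.id'.pair hi)).post (fun (c : Res (C β)) n _ =>
    (c.1.map fun y => (Disc.toC (Disc.ofC y.1 : β), n), (0, 0, 0))) ?_ (.const 0)
    (hb.comp rpt_x) fun w r c e => ?_) hb
  · have := Disc.pt_to (X := β)
    have := Disc.pt_of (X := β)
    exact PT.pair (α := Res (C β) × ℕ × List ℤ) (by fun_prop) (by fun_prop)
  · have l : (regs w.r (ρ w.x) [X, 1]).length = w.r.length + 2 := by simp [regs]
    obtain ⟨u, c', b1, b2, b3⟩ := a4 (regs w.r (ρ w.x) [X, 1])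
      ((w.c, w.r.length, w.r.length + 1) : C α × ℕ × ℕ) ⟨(w.x, ρ w.x), rfl⟩
      ⟨RE.mono w.rep (prefix_append _ _), rep_real.2 ⟨ρ w.x, 1, by simp [At, regs],
        by simp [At, regs], one_ne_zero, (div_one _).symm⟩⟩
    rw [l] at b1
    have b4 := b1.run (ctl := fun s => ((F (w.c, w.r.length) s).1.isSome, [],
      (F (w.c, w.r.length) s).2)) (fun _ => ⟨rfl, rfl⟩) (n := q'.eval (rsz w))
      (b3.trans (Nat.add_le_add_left ((a2 _).trans_eq (by simp [q', eval_comp]; rfl)) _))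
    have b5 := Function.Semiconj.iterate_right
      (regs_rd (F (w.c, w.r.length)) w.r (ρ w.x) (m w.x) (m1 _)) (q'.eval (rsz w)) [X, 1]
    obtain rfl : c = (some (c', u.length), (0, 0, 0)) := by
      rw [← b4.2, ← b4.1, ← b5]
      exact e
    exact ⟨r, _, .ret _ r, by rw [Disc.rep_of b2]; exact Disc.rep_to r _, le_rfl⟩

end Pool.Agent.Lib.MP_837412_lc
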