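import Pool.Agent.Lib.MP_837412_lc.RSt
import Pool.Agent.Lib.MP_837412_lc.UP
import Pool.Agent.Lib.MP_837412_lc.UM

/-!
The polynomials of the join are computed by the machine.
-/

namespace Pool.Agent.Lib.MP_837412_lc

open MvPolynomial

namespace VBig

/-- The product of the squares of the linear factors other than the one with number `a`. -/
noncomputable def gq (N a : ℕ) : Polynomial ℝ :=
  ∏ b ∈ Finset.range N, if b = a then 1 else (Polynomial.X - Polynomial.C (b : ℝ)) ^ 2

/-- One polynomial of the join. -/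
noncomputable def bg (K r M : ℕ) (L : List (List (MvPolynomial ℕ ℝ))) (n : ℕ) :
    MvPolynomial ℕ ℝ :=
  ∑ i ∈ Finset.range r, X (K + r + i) ^ 2 *
    (∑ a ∈ Finset.range L.length, Polynomial.aeval (X (K + i)) (gq L.length a) *
      (L.getD a []).getD (n / M ^ i % M) 0 -
    MvPolynomial.C (4 * L.length : ℝ) * (1 + (L.map fun w => (w.map fun q => q ^ 2).sum).sum) *
      Polynomial.aeval (X (K + i)) (gq L.length L.length))

@[fun_prop] lemma rpt_gq {α : Type} [RE α] {N a : α → ℕ} (hN : RPT N) (hN' : RPB N) (ha : RPT a) :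
    RPT fun x => gq (N x) (a x) := by
  unfold gq; fun_prop

lemma rpt_bg {α : Type} [RE α] {K r M n : α → ℕ} {L : α → List (List (MvPolynomial ℕ ℝ))}
    (hK : RPT K) (hK' : RPB K) (hr : RPT r) (hr' : RPB r) (hM : RPT M) (hL : RPT L) (hn : RPT n) :
    RPT fun a => bg (K a) (r a) (M a) (L a) (n a) := by
  unfold bg; fun_prop

lemma gq_lt {N : ℕ} (a : Fin N) (t : MvPolynomial ℕ ℝ) : Polynomial.aeval t (gq N a) =
    ∏ b ∈ Finset.univ.erase a, (t - (((b : Fin N) : ℕ) : MvPolynomial ℕ ℝ)) ^ 2 := by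
  rw [gq, map_prod, Finset.prod_range, ← Finset.mul_prod_erase _ _ (Finset.mem_univ a), if_pos rfl,
    map_one, one_mul]
  refine Finset.prod_congr rfl fun b hb => ?_
  rw [if_neg (Fin.val_ne_of_ne (Finset.ne_of_mem_erase hb))]
  simp

lemma gq_self (N : ℕ) (t : MvPolynomial ℕ ℝ) : Polynomial.aeval t (gq N N) =
    ∏ b : Fin N, (t - ((b : ℕ) : MvPolynomial ℕ ℝ)) ^ 2 := by
  rw [gq, map_prod, Finset.prod_range]
  refine Finset.prod_congr rfl fun b _ => ?_
  rw [if_neg b.2.ne]
  simp

lemma bg_eq {σ : Type} (K : ℕ) {r N M : ℕ} (j : σ → ℕ) (p : Fin N → Fin M → MvPolynomial σ ℝ)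
    (n : Fin (M ^ r)) : bg K r M (List.ofFn fun x => List.ofFn fun y => rename j (p x y)) n =
      rename (jB K r j) (big p (finFunctionFinEquiv.symm n)) := by
  rw [bg, big, map_sum, Finset.sum_range]
  refine Finset.sum_congr rfl fun i _ => ?_
  have e : ∀ x y, rename (jB K r j) (rename Sum.inl (p x y)) = rename j (p x y) :=
    fun x y => rename_rename _ _ _
  simp only [psi, map_mul, map_pow, map_sub, map_sum, map_prod, map_add, map_one, map_natCast,
    map_ofNat, rename_X, e, List.length_ofFn, gq_self, List.map_ofFn, List.sum_ofFn,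
    Function.comp_def, Finset.sum_range, gq_lt]
  rw [show (n : ℕ) / M ^ (i : ℕ) % M = finFunctionFinEquiv.symm n i from rfl]
  generalize finFunctionFinEquiv.symm n i = y
  simp [jB]

end VBig

open VBig in
theorem bigU : BigU := by
  intro α _ σ K N M r d j p hK hK' hr hr' hM _ _ _ hb _ hp
  generalize hL : (fun a => List.ofFn fun x => List.ofFn fun y => rename (j a) (p a x y)) = L at hp
  refine RPT.of_eq (RPT.map_range (h := fun a n => bg (K a) (r a) (M a) (L a) n) (hM.npow hr hr') hb
    (rpt_bg (by fun_prop) (by fun_prop) (by fun_prop) (by fun_prop) (by fun_prop) (by fun_prop)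
      (by fun_prop))) fun a => ?_
  subst hL
  rw [List.ofFn_eq_map, ← List.map_coe_finRange_eq_range, List.map_map]
  exact List.map_congr_left fun n _ => bg_eq _ _ _ n

end Pool.Agent.Lib.MP_837412_lc
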