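import Pool.Agent.Lib.MP_837412_lc.RSt
import Pool.Agent.Lib.MP_837412_lc.UP

/-!
The machine finds the realised sign vectors at the real roots of a polynomial.
-/

namespace Pool.Agent.Lib.MP_837412_lc

open Polynomial

namespace VBkr

/-- The powers `0, 1, 2`, indexed by signs. -/
def pw {R : Type} [Monoid R] (u : R) (b : SignType) : R :=
  if b = 0 then 1 else if b = 1 then u else u * u

/-- Monomials in the signs. -/
noncomputable def mon (a s : List SignType) : ℝ :=
  (List.zipWith (fun b (u : SignType) => pw (u : ℝ) b) a s).prod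

/-- The vector of signs at a point. -/
noncomputable def cls (u : List ℝ[X]) (r : ℝ) : List SignType :=
  u.map fun g => SignType.sign (g.eval r)

/-- A query restricted to the roots at which `q` has the sign `t`. -/
noncomputable def tq (T : ℝ[X] → ℝ) (g q : ℝ[X]) (t : SignType) : ℝ :=
  if t = 0 then T g - T (g * (q * q)) else ((t : ℝ) * T (g * q) + T (g * (q * q))) / 2

/-- Polynomials with their exponents. -/
abbrev Gs : Type := List (ℝ[X] × List SignType)

/-- Chosen indices and coefficients. -/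
abbrev Ls : Type := List ℕ × List (List ℝ)

/-- The three signs. -/
def sg : List SignType := [0, 1, -1]

/-- A chosen polynomial. -/
noncomputable def gk (G : Gs) (L : Ls) (k : ℕ) : ℝ[X] × List SignType :=
  G.getD (L.1.getD k 0) (0, [])

/-- The number of roots in the class `i` at which `q` has the sign `t`. -/
noncomputable def num (T : ℝ[X] → ℝ) (q : ℝ[X]) (G : Gs) (L : Ls) (i : ℕ) (t : SignType) : ℝ :=
  ∑ k ∈ Finset.range L.1.length, (L.2.getD i []).getD k 0 * tq T (gk G L k).1 q t

/-- The new classes. -/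
noncomputable def newS (T : ℝ[X] → ℝ) (q : ℝ[X]) (S : List (List SignType)) (G : Gs) (L : Ls) :
    List (List SignType) :=
  ((sg.product (List.range S.length)).filter fun x => decide (num T q G L x.2 x.1 ≠ 0)).map
    fun x => x.1 :: S.getD x.2 []

/-- The new polynomials. -/
noncomputable def newG (p q : ℝ[X]) (G : Gs) (L : Ls) : Gs :=
  (sg.product (List.range L.1.length)).map
    fun x => ((gk G L x.2).1 * pw q x.1 % p, x.1 :: (gk G L x.2).2)

/-- The values of the monomials on the classes. -/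
noncomputable def vals (S : List (List SignType)) (G : Gs) : List (List ℝ) :=
  G.map fun g => S.map fun s => mon g.2 s

/-- One round. -/
noncomputable def step (F : ℕ → List (List ℝ) → Ls) (T : ℝ[X] → ℝ) (p q : ℝ[X])
    (z : List (List SignType) × Gs) : List (List SignType) × Gs :=
  (newS T q z.1 z.2 (F z.1.length (vals z.1 z.2)), newG p q z.2 (F z.1.length (vals z.1 z.2)))

/-- The start. -/
noncomputable def init (T : ℝ[X] → ℝ) : List (List SignType) × Gs :=
  (if T 1 = 0 then [] else [[]], [(1, [])])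

/-- The invariant. -/
structure Inv (p : ℝ[X]) (u : List ℝ[X]) (S : List (List SignType)) (G : Gs) : Prop where
  nd : S.Nodup
  mem : ∀ s, s ∈ S ↔ ∃ r ∈ p.roots.toFinset, cls u r = s
  sgn : ∀ g ∈ G, ∀ r ∈ p.roots.toFinset, (SignType.sign (g.1.eval r) : ℝ) = mon g.2 (cls u r)
  len : G.length ≤ 3 * p.natDegree + 1
  siz : ∀ g ∈ G, g.1.natDegree ≤ p.natDegree ∧ g.2.length = u.length
  spn : ∀ s0 ∈ S, ∃ ψ ∈ Submodule.span ℝ {y | ∃ g ∈ G, y = mon g.2},
    ∀ s ∈ S, ψ s = if s = s0 then 1 else 0

/-- What the linear algebra gives. -/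
structure Good (S : List (List SignType)) (G : Gs) (L : Ls) : Prop where
  len : L.1.length ≤ S.length
  mem : ∀ k < L.1.length, gk G L k ∈ G
  sum : ∀ i < S.length, ∀ s ∈ S, ∑ k ∈ Finset.range L.1.length,
    (L.2.getD i []).getD k 0 * mon (gk G L k).2 s = if s = S.getD i [] then 1 else 0

lemma mem_sg (t : SignType) : t ∈ sg := by cases t <;> simp [sg]

lemma mon_cons (b t : SignType) (a s : List SignType) :
    mon (b :: a) (t :: s) = pw (t : ℝ) b * mon a s := by simp [mon]

lemma sign_pw (q : ℝ[X]) (b : SignType) (r : ℝ) :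
    (SignType.sign ((pw q b).eval r) : ℝ) = pw (SignType.sign (q.eval r) : ℝ) b := by
  unfold pw
  split_ifs <;> simp [sign_mul]

lemma taq_eq (p g : ℝ[X]) :
    (taq p g : ℝ) = ∑ r ∈ p.roots.toFinset, (SignType.sign (g.eval r) : ℝ) := by
  rw [taq, Int.cast_sum]
  refine Finset.sum_congr rfl fun r _ => ?_
  cases SignType.sign (g.eval r) <;> simp

lemma tq_eq (p g q : ℝ[X]) (t : SignType) : tq (fun g => (taq p g : ℝ)) g q t =
    ∑ r ∈ p.roots.toFinset, (SignType.sign (g.eval r) : ℝ) *
      if SignType.sign (q.eval r) = t then 1 else 0 := by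
  unfold tq
  simp only [taq_eq, eval_mul, sign_mul, SignType.coe_mul]
  split_ifs with h
  · rw [← Finset.sum_sub_distrib]
    refine Finset.sum_congr rfl fun r _ => ?_
    subst h
    cases SignType.sign (q.eval r) <;> simp
  · rw [Finset.mul_sum, ← Finset.sum_add_distrib, Finset.sum_div]
    refine Finset.sum_congr rfl fun r _ => ?_
    cases t <;> cases SignType.sign (q.eval r) <;> simp at h ⊢

variable {p q : ℝ[X]} {u : List ℝ[X]} {S : List (List SignType)} {G : Gs} {L : Ls}

lemma Inv.card (h : Inv p u S G) : S.length ≤ p.natDegree := by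
  classical
  rw [← List.toFinset_card_of_nodup h.nd]
  refine le_trans (Finset.card_le_card (t := p.roots.toFinset.image (cls u)) fun s hs => ?_)
    (Finset.card_image_le.trans (nr_le p))
  exact Finset.mem_image.2 ((h.mem s).1 (List.mem_toFinset.1 hs))

lemma num_ne (h : Inv p u S G) (k : Good S G L) {i : ℕ} (hi : i < S.length) (t : SignType) :
    num (fun g => (taq p g : ℝ)) q G L i t ≠ 0 ↔
      ∃ r ∈ p.roots.toFinset, cls (q :: u) r = t :: S.getD i [] := by
  have e : num (fun g => (taq p g : ℝ)) q G L i t = ∑ r ∈ p.roots.toFinset,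
      if cls (q :: u) r = t :: S.getD i [] then 1 else 0 := by
    simp only [num, tq_eq, Finset.mul_sum]
    rw [Finset.sum_comm]
    refine Finset.sum_congr rfl fun r hr => ?_
    have e1 := k.sum i hi _ ((h.mem _).2 ⟨r, hr, rfl⟩)
    rw [Finset.sum_congr rfl fun j hj => by
      rw [h.sgn _ (k.mem j (Finset.mem_range.1 hj)) r hr, ← mul_assoc], ← Finset.sum_mul, e1,
      show cls (q :: u) r = SignType.sign (q.eval r) :: cls u r from rfl]
    simp only [List.cons.injEq]
    by_cases a : cls u r = S.getD i [] <;> by_cases b : SignType.sign (q.eval r) = t <;>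
      simp only [a, b, if_true, if_false, and_self, and_true, and_false, mul_one, mul_zero]
  rw [e, Ne, Finset.sum_eq_zero_iff_of_nonneg fun r _ => by split_ifs <;> norm_num]
  push Not
  exact exists_congr fun r => and_congr_right fun _ => by simp

lemma mem_newS (h : Inv p u S G) (k : Good S G L) (s : List SignType) :
    s ∈ newS (fun g => (taq p g : ℝ)) q S G L ↔ ∃ r ∈ p.roots.toFinset, cls (q :: u) r = s := by
  simp only [newS, List.mem_map, List.mem_filter, decide_eq_true_eq, Prod.exists,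
    List.pair_mem_product, List.mem_range]
  constructor
  · rintro ⟨t, i, ⟨⟨-, hi⟩, a⟩, rfl⟩
    exact (num_ne h k hi t).1 a
  · rintro ⟨r, hr, rfl⟩
    obtain ⟨i, hi, e⟩ := List.getElem_of_mem ((h.mem _).2 ⟨r, hr, rfl⟩)
    have e' : cls (q :: u) r = SignType.sign (q.eval r) :: S.getD i [] := by
      rw [List.getD_eq_getElem _ _ hi, e]; rfl
    exact ⟨_, i, ⟨⟨mem_sg _, hi⟩, (num_ne h k hi _).2 ⟨r, hr, e'⟩⟩, e'.symm⟩

lemma mem_newG {g : ℝ[X] × List SignType} : g ∈ newG p q G L ↔
    ∃ b, ∃ j < L.1.length, ((gk G L j).1 * pw q b % p, b :: (gk G L j).2) = g := by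
  simp only [newG, List.mem_map, Prod.exists, List.pair_mem_product, List.mem_range, mem_sg,
    true_and]

lemma Inv.step (hp : p ≠ 0) (h : Inv p u S G) (k : Good S G L) :
    Inv p (q :: u) (newS (fun g => (taq p g : ℝ)) q S G L) (newG p q G L) := by
  refine ⟨?_, mem_newS h k, fun g hg r hr => ?_, ?_, fun g hg => ?_, fun s0 h0 => ?_⟩
  · refine List.Nodup.map_on ?_ (List.Nodup.filter _
      (List.Nodup.product (by decide) List.nodup_range))
    rintro ⟨t, i⟩ a ⟨t', j⟩ b e
    have a := List.mem_range.1 (List.pair_mem_product.1 (List.mem_filter.1 a).1).2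
    have b := List.mem_range.1 (List.pair_mem_product.1 (List.mem_filter.1 b).1).2
    obtain ⟨e1, e2⟩ := List.cons.inj e
    rw [List.getD_eq_getElem _ _ a, List.getD_eq_getElem _ _ b, h.nd.getElem_inj_iff] at e2
    exact Prod.ext e1 e2
  · obtain ⟨b, j, hj, rfl⟩ := mem_newG.1 hg
    have e : ∀ f : ℝ[X], (f % p).eval r = f.eval r := fun f => by
      conv_rhs => rw [← EuclideanDomain.mod_add_div f p, eval_add, eval_mul,
        (isRoot_of_mem_roots (Multiset.mem_toFinset.1 hr)).eq_zero, zero_mul, add_zero]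
    rw [e, eval_mul, sign_mul, SignType.coe_mul, sign_pw, h.sgn _ (k.mem j hj) r hr, mul_comm]
    exact (mon_cons _ _ _ _).symm
  · have := k.len.trans h.card
    rw [newG, List.length_map, show ∀ (a : List SignType) (b : List ℕ),
      (a.product b).length = a.length * b.length from List.length_product, List.length_range,
      show sg.length = 3 from rfl]
    omega
  · obtain ⟨b, j, hj, rfl⟩ := mem_newG.1 hg
    exact ⟨natDegree_le_natDegree (degree_mod_lt _ hp).le, congrArg (· + 1) (h.siz _ (k.mem j hj)).2⟩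
  · obtain ⟨r0, hr0, rfl⟩ := (mem_newS h k _).1 h0
    obtain ⟨i, hi, e⟩ := List.getElem_of_mem ((h.mem _).2 ⟨r0, hr0, rfl⟩)
    have m : ∀ b, ∀ j ∈ Finset.range L.1.length, mon (b :: (gk G L j).2) ∈
        Submodule.span ℝ {y | ∃ g ∈ newG p q G L, y = mon g.2} := fun b j hj =>
      Submodule.subset_span ⟨_, mem_newG.2 ⟨b, j, Finset.mem_range.1 hj, rfl⟩, rfl⟩
    generalize ht : SignType.sign (q.eval r0) = t0
    refine ⟨∑ j ∈ Finset.range L.1.length, (L.2.getD i []).getD j 0 • if t0 = 0 then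
      mon (0 :: (gk G L j).2) - mon (-1 :: (gk G L j).2) else
        ((t0 : ℝ) / 2) • mon (1 :: (gk G L j).2) + (1 / 2 : ℝ) • mon (-1 :: (gk G L j).2),
      Submodule.sum_mem _ fun j hj => Submodule.smul_mem _ _ ?_, fun s hs => ?_⟩
    · split_ifs
      · exact Submodule.sub_mem _ (m _ j hj) (m _ j hj)
      · exact Submodule.add_mem _ (Submodule.smul_mem _ _ (m _ j hj))
          (Submodule.smul_mem _ _ (m _ j hj))
    · obtain ⟨r, hr, rfl⟩ := (mem_newS h k _).1 hs
      have e1 := k.sum i hi _ ((h.mem _).2 ⟨r, hr, rfl⟩)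
      rw [List.getD_eq_getElem _ _ hi, e] at e1
      have e2 : ∀ (a s : List SignType) (t : SignType), (if t0 = 0 then mon (0 :: a) - mon (-1 :: a)
          else ((t0 : ℝ) / 2) • mon (1 :: a) + (1 / 2 : ℝ) • mon (-1 :: a)) (t :: s) =
            mon a s * if t = t0 then 1 else 0 := fun a s t => by
        cases t0 <;> cases t <;> simp [mon_cons, pw] <;> ring
      rw [show cls (q :: u) r = SignType.sign (q.eval r) :: cls u r from rfl,
        show cls (q :: u) r0 = SignType.sign (q.eval r0) :: cls u r0 from rfl, ht, Finset.sum_apply]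
      simp only [Pi.smul_apply, e2, smul_eq_mul, ← mul_assoc, ← Finset.sum_mul, e1,
        List.cons.injEq]
      by_cases a : cls u r = cls u r0 <;> by_cases b : SignType.sign (q.eval r) = t0 <;>
        simp only [a, b, if_true, if_false, and_self, and_true, and_false, mul_one, mul_zero]

lemma inv_init (p : ℝ[X]) :
    Inv p [] (init fun g => (taq p g : ℝ)).1 (init fun g => (taq p g : ℝ)).2 := by
  have e : (taq p 1 : ℝ) = 0 ↔ p.roots.toFinset = ∅ := by simp [taq_eq]
  refine ⟨?_, fun s => ?_, ?_, ?_, ?_, fun s0 h0 => ⟨mon [],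
    Submodule.subset_span ⟨_, List.mem_singleton_self _, rfl⟩, fun s hs => ?_⟩⟩
  · simp only [init]
    split_ifs <;> simp
  · simp only [init, e, cls, List.map_nil]
    split_ifs with a
    · simp [a]
    · obtain ⟨r, hr⟩ := Finset.nonempty_iff_ne_empty.2 a
      rw [List.mem_singleton]
      exact ⟨fun b => ⟨r, hr, b.symm⟩, fun ⟨_, _, b⟩ => b.symm⟩
  · simp [init, mon]
  · simp [init]
  · simp [init]
  · simp only [init] at h0 hs
    split_ifs at h0 hs <;> simp_all [mon]

lemma Inv.top (h : Inv p u S G) : Submodule.span ℝ {y : Fin S.length → ℝ |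
    ∃ x ∈ vals S G, y = fun t : Fin S.length => x.getD t 0} = ⊤ := by
  rw [Submodule.eq_top_iff_forall_basis_mem (Pi.basisFun ℝ (Fin S.length))]
  intro i
  obtain ⟨ψ, a, b⟩ := h.spn S[i] (List.getElem_mem _)
  have c := Submodule.mem_map_of_mem
    (f := LinearMap.funLeft ℝ ℝ fun t : Fin S.length => S[t]) a
  rw [Submodule.map_span] at c
  have d : Pi.basisFun ℝ (Fin S.length) i =
      LinearMap.funLeft ℝ ℝ (fun t : Fin S.length => S[t]) ψ := by
    funext t
    rw [LinearMap.funLeft_apply, b S[t] (List.getElem_mem _)]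
    simp [Pi.single_apply, h.nd.getElem_inj_iff, Fin.ext_iff]
  rw [d]
  refine Submodule.span_mono ?_ c
  rintro _ ⟨_, ⟨g, hg, rfl⟩, rfl⟩
  exact ⟨_, List.mem_map_of_mem hg, funext fun t => by simp [LinearMap.funLeft_apply]⟩

lemma good (h : Inv p u S G) (h1 : L.1.length ≤ S.length) (h2 : ∀ i ∈ L.1, i < (vals S G).length)
    (h3 : ∀ s < S.length, ∀ t < S.length, ∑ i ∈ Finset.range L.1.length,
      (L.2.getD s []).getD i 0 * ((vals S G).getD (L.1.getD i 0) []).getD t 0 =
        if s = t then 1 else 0) : Good S G L := by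
  have a : ∀ k < L.1.length, L.1.getD k 0 < G.length := fun k hk => by
    rw [List.getD_eq_getElem _ _ hk]
    simpa [vals] using h2 _ (List.getElem_mem hk)
  refine ⟨h1, fun k hk => ?_, fun i hi s hs => ?_⟩
  · rw [gk, List.getD_eq_getElem _ _ (a k hk)]
    exact List.getElem_mem _
  · obtain ⟨j, hj, rfl⟩ := List.getElem_of_mem hs
    rw [List.getD_eq_getElem _ _ hi]
    simp only [h.nd.getElem_inj_iff, eq_comm (a := j), ← h3 i hi j hj]
    refine Finset.sum_congr rfl fun k hk => ?_
    have b := a k (Finset.mem_range.1 hk)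
    rw [gk, List.getD_eq_getElem _ _ b, List.getD_eq_getElem (vals S G) _ (by simpa [vals] using b)]
    simp [vals, hj]

lemma Inv.size (h : Inv p u S G) {N : ℕ} (hN : u.length ≤ N) :
    rsz (S, G) ≤ 2 * (p.natDegree * (2 * (N * 7) + 1)) + 1 +
      (3 * p.natDegree + 1) * (2 * (2 * (9 * (p.natDegree + 1)) + 1 + N * 7) + 1) := by
  have a : ∀ s : List SignType, s.length = u.length → rsz s ≤ N * 7 := fun s hs =>
    (rsz_list_le (B := 3) fun x _ => rsz_sign x).trans (Nat.mul_le_mul_right _ (hs.trans_le hN))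
  have b := (rsz_list_le (l := S) (B := N * 7) fun s hs => by
    obtain ⟨r, -, rfl⟩ := (h.mem s).1 hs
    exact a _ (List.length_map _)).trans (Nat.mul_le_mul_right _ h.card)
  have c := (rsz_list_le (l := G) (B := 2 * (9 * (p.natDegree + 1)) + 1 + N * 7) fun g hg => by
    have := a _ (h.siz g hg).2
    have := (h.siz g hg).1
    have := rsz_poly_le g.1
    rw [rsz_prod]
    omega).trans (Nat.mul_le_mul_right _ h.len)
  rw [rsz_pair]
  omega

section Run

variable {α : Type} [RE α]

@[fun_prop] lemma rpt_pw {R : Type} [CommRing R] [RE R] [RR R] {x : α → R} {b : α → SignType}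
    (hx : RPT x) (hb : RPT b) : RPT fun a => pw (x a) (b a) := by
  unfold pw; fun_prop

@[fun_prop] lemma rpt_mon {x y : α → List SignType} (hx : RPT x) (hy : RPT y) :
    RPT fun a => mon (x a) (y a) := by
  unfold mon; fun_prop

@[fun_prop] lemma rpt_vals {S : α → List (List SignType)} {G : α → Gs} (hS : RPT S) (hG : RPT G) :
    RPT fun a => vals (S a) (G a) := by
  unfold vals; fun_prop

@[fun_prop] lemma rpt_gk {G : α → Gs} {L : α → Ls} {k : α → ℕ} (hG : RPT G) (hL : RPT L)
    (hk : RPT k) : RPT fun a => gk (G a) (L a) (k a) := by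
  unfold gk; fun_prop

@[fun_prop] lemma rpt_tq {T : α → ℝ[X] → ℝ} {g q : α → ℝ[X]} {t : α → SignType}
    (hT : RPT fun x : α × ℝ[X] => T x.1 x.2) (hg : RPT g) (hq : RPT q) (ht : RPT t) :
    RPT fun a => tq (T a) (g a) (q a) (t a) := by
  unfold tq; fun_prop

@[fun_prop] lemma rpt_num {T : α → ℝ[X] → ℝ} {q : α → ℝ[X]} {G : α → Gs} {L : α → Ls} {i : α → ℕ}
    {t : α → SignType} (hT : RPT fun x : α × ℝ[X] => T x.1 x.2) (hq : RPT q) (hG : RPT G)
    (hL : RPT L) (hi : RPT i) (ht : RPT t) :
    RPT fun a => num (T a) (q a) (G a) (L a) (i a) (t a) := by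
  unfold num; fun_prop

lemma rpt_newS {T : α → ℝ[X] → ℝ} {q : α → ℝ[X]} {S : α → List (List SignType)} {G : α → Gs}
    {L : α → Ls} (hT : RPT fun x : α × ℝ[X] => T x.1 x.2) (hq : RPT q) (hS : RPT S) (hG : RPT G)
    (hL : RPT L) : RPT fun a => newS (T a) (q a) (S a) (G a) (L a) := by
  unfold newS; fun_prop

lemma rpt_newG {p q : α → ℝ[X]} {G : α → Gs} {L : α → Ls} (hp : RPT p) (hq : RPT q) (hG : RPT G)
    (hL : RPT L) : RPT fun a => newG (p a) (q a) (G a) (L a) := by
  unfold newG; fun_prop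

lemma rpt_step {F : ℕ → List (List ℝ) → Ls} (hF : RPT fun x : Un × List (List ℝ) => F x.1.val x.2)
    {T : α → ℝ[X] → ℝ} {p q : α → ℝ[X]} {z : α → List (List SignType) × Gs}
    (hT : RPT fun x : α × ℝ[X] => T x.1 x.2) (hp : RPT p) (hq : RPT q) (hz : RPT z) :
    RPT fun a => step F (T a) (p a) (q a) (z a) :=
  have hL : RPT fun a => F (z a).1.length (vals (z a).1 (z a).2) :=
    hF.comp' (f := fun a => (⟨(z a).1.length⟩, vals (z a).1 (z a).2)) (by fun_prop)
  (rpt_newS hT hq hz.fst hz.snd hL).pair (rpt_newG hp hq hz.snd hL)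

lemma rpt_init {T : α → ℝ[X] → ℝ} (hT : RPT fun x : α × ℝ[X] => T x.1 x.2) :
    RPT fun a => init (T a) := by
  unfold init; fun_prop

lemma foldr_len {β σ : Type} [RE β] [RE σ] [Law σ] {f : α → β → σ → σ} {l : α → List β}
    {s0 : α → σ} (hf : RPT fun y : α × σ × β => f y.1 y.2.2 y.2.1) (hl : RPT l) (hs : RPT s0)
    {B : α → ℕ} (hB : RPB B)
    (hb : ∀ a (u : List β), u.length ≤ (l a).length → rsz (u.foldr (f a) (s0 a)) ≤ B a) :
    RPT fun a => (l a).foldr (f a) (s0 a) := by
  refine (RPT.foldl_pre (f := fun a s x => f a x s) hf.sub hl.reverse hs hB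
    fun a u v e => ?_).of_eq fun a => List.foldl_reverse
  have := congrArg List.length e
  rw [List.length_reverse, List.length_append] at this
  rw [← List.foldr_reverse]
  exact hb a _ (by rw [List.length_reverse]; omega)

lemma rpt_run {F : ℕ → List (List ℝ) → Ls} (hF : RPT fun x : Un × List (List ℝ) => F x.1.val x.2)
    {T : α → ℝ[X] → ℝ} {p : α → ℝ[X]} {l : α → List ℝ[X]}
    (hT : RPT fun x : α × ℝ[X] => T x.1 x.2) (hp : RPT p) (hl : RPT l)
    (h : ∀ a u, Inv (p a) u (u.foldr (step F (T a) (p a)) (init (T a))).1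
      (u.foldr (step F (T a) (p a)) (init (T a))).2) :
    RPT fun a => (l a).foldr (step F (T a) (p a)) (init (T a)) := by
  have hs : RPT fun y : α × (List (List SignType) × Gs) × ℝ[X] =>
      step F (T y.1) (p y.1) y.2.2 y.2.1 :=
    rpt_step hF (T := fun y : α × (List (List SignType) × Gs) × ℝ[X] => T y.1)
      (p := fun y => p y.1) (q := fun y => y.2.2) (z := fun y => y.2.1) (by fun_prop) (by fun_prop)
      (by fun_prop) (by fun_prop)
  exact foldr_len (f := fun a => step F (T a) (p a)) hs hl (rpt_init hT)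
    (B := fun a => 2 * ((p a).natDegree * (2 * ((l a).length * 7) + 1)) + 1 +
      (3 * (p a).natDegree + 1) * (2 * (2 * (9 * ((p a).natDegree + 1)) + 1 +
        (l a).length * 7) + 1)) (by fun_prop) fun a u e => (h a u).size e

end Run

end VBkr

open VBkr in
theorem bkrU (h1 : TaqU) (h2 : LinU) : BkrU := by
  obtain ⟨F, hF, hs⟩ := h2
  have inv : ∀ p : ℝ[X], p ≠ 0 → ∀ u : List ℝ[X], Inv p u
      (u.foldr (step F (fun g => (taq p g : ℝ)) p) (init fun g => (taq p g : ℝ))).1
      (u.foldr (step F (fun g => (taq p g : ℝ)) p) (init fun g => (taq p g : ℝ))).2 := by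
    intro p hp u
    induction u with
    | nil => exact inv_init p
    | cons q u ih =>
      rw [List.foldr_cons]
      generalize u.foldr (step F (fun g => (taq p g : ℝ)) p) (init fun g => (taq p g : ℝ)) = z at ih
      obtain ⟨a, b, -, -, c⟩ := hs z.1.length (vals z.1 z.2)
      exact ih.step hp (good ih a b (c ih.top))
  refine ⟨fun x => (x.2.foldr (step F (fun g => (taq x.1 g : ℝ)) x.1)
    (init fun g => (taq x.1 g : ℝ))).1, RPT.fst (rpt_run hF (RPT.intCast (h1 _ _ _ (by fun_prop)
      (by fun_prop) fun x => x.1.2)) (by fun_prop) (by fun_prop) fun a => inv _ a.2),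
    fun p q hp => ⟨(inv p hp q).nd, fun x => ((inv p hp q).mem x).trans ?_⟩⟩
  simp only [sv, List.mem_map, List.mem_range, Multiset.mem_toFinset]
  constructor
  · rintro ⟨r, hr, e⟩
    obtain ⟨j, hj, rfl⟩ := exists_rt hp (isRoot_of_mem_roots hr)
    exact ⟨j, hj, e⟩
  · rintro ⟨j, hj, e⟩
    exact ⟨_, rt_mem hj, e⟩

end Pool.Agent.Lib.MP_837412_lc
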