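import Pool.Agent.Lib.MP_837412_lc.RSt
import Pool.Agent.Lib.MP_837412_lc.UP

/-!
Operations on families of complex numbers on the machine, through the identities of Newton.
-/

namespace Pool.Agent.Lib.MP_837412_lc

open Polynomial

namespace VChi

variable {α : Type} [RE α]

/-- Linear recurrences with computed coefficients. -/
theorem lin {v g : α → ℕ → ℂ} {h : α → ℕ → ℕ → ℂ} {n : α → ℕ} (hn : RPT n) (hb : RPB n)
    (hg : RPT fun q : α × Un => g q.1 q.2.val)
    (hh : RPT fun q : (α × Un) × Un => h q.1.1 q.1.2.val q.2.val)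
    (e : ∀ a k, v a k = g a k + ∑ i ∈ Finset.range k, h a k i * v a i) :
    RPT fun a => v a (n a) := by
  have h1 : RPT fun a => (List.range (n a + 1)).map (v a) := by
    refine RPT.seq (u := fun a i => (List.range i).map (v a)) (n := fun a => n a + 1)
      (f := fun a s i => s ++ [g a i + ∑ j ∈ Finset.range i, h a i j * s.getD j 0])
      (RPT.sub (f := fun p : α × List ℂ × Un => p.2.1 ++ [g p.1 p.2.2.val +
        ∑ j ∈ Finset.range p.2.2.val, h p.1 p.2.2.val j * p.2.1.getD j 0]) ?_)
      (by fun_prop) (by fun_prop) RPT.nil (fun a i _ => ?_) (B := fun a => (n a + 1) * 9)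
      (by fun_prop) fun a i hi => ?_
    · refine RPT.append (by fun_prop) (RPT.cons (RPT.add
        (hg.comp' (f := fun p : α × List ℂ × Un => (p.1, p.2.2)) (by fun_prop))
        (RPT.sum_range (by fun_prop) (by fun_prop) (RPT.mul
          (hh.comp' (f := fun p : (α × List ℂ × Un) × Un => ((p.1.1, p.1.2.2), p.2))
            (by fun_prop)) (by fun_prop)))) RPT.nil)
    · rw [List.range_succ, List.map_append, List.map_singleton, e a i]
      refine congrArg (fun z => _ ++ [g a i + z]) (Finset.sum_congr rfl fun j hj => ?_)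
      simp [Finset.mem_range.1 hj]
    · refine (rsz_list_le (B := 4) fun z _ => (rsz_complex z).le).trans ?_
      simpa using Nat.mul_le_mul_right 9 hi
  exact (RPT.getD hn h1 RPT.zero).of_eq fun a => by simp

section Alg

variable {ι : Type} [Fintype ι]

lemma es_lin (c : ι → ℂ) (k : ℕ) : es c k = (if k = 0 then 1 else 0) +
    ∑ i ∈ Finset.range k, (k : ℂ)⁻¹ * (-1) ^ (k + 1) * (-1) ^ i * ps c (k - i) * es c i := by
  rcases eq_or_ne k 0 with rfl | hk
  · simp [es_zero]
  · rw [es_rec c hk, if_neg hk, zero_add, Finset.sum_filter,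
      Finset.Nat.sum_antidiagonal_eq_sum_range_succ_mk, Finset.sum_range_succ, if_neg (lt_irrefl _),
      add_zero, Finset.mul_sum, Finset.mul_sum]
    refine Finset.sum_congr rfl fun i hi => ?_
    rw [if_pos (Finset.mem_range.1 hi)]
    ring

lemma ps_lin (c : ι → ℂ) (k : ℕ) : ps c k =
    (if k = 0 then (Fintype.card ι : ℂ) else (-1) ^ (k + 1) * k * es c k) +
    ∑ i ∈ Finset.range k, (if i = 0 then 0 else -((-1) ^ (k - i) * es c (k - i))) * ps c i := by
  rcases eq_or_ne k 0 with rfl | hk
  · simp [ps]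
  · rw [ps_newton c (Nat.pos_of_ne_zero hk), if_neg hk, Finset.sum_filter,
      ← Finset.Nat.sum_antidiagonal_swap, Finset.Nat.sum_antidiagonal_eq_sum_range_succ_mk,
      Finset.sum_range_succ, if_neg (by simp), add_zero, sub_eq_add_neg, ← Finset.sum_neg_distrib]
    refine congrArg _ (Finset.sum_congr rfl fun i hi => ?_)
    have := Finset.mem_range.1 hi
    rcases eq_or_ne i 0 with rfl | h0
    · simp
    · rw [if_neg h0, if_pos (by simp only [Prod.fst_swap, Set.mem_Ioo]; omega)]
      simp

lemma es_coeff (c : ι → ℂ) (k : ℕ) : es c k =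
    if k ≤ Fintype.card ι then (-1) ^ k * (chi c).coeff (Fintype.card ι - k) else 0 := by
  split_ifs with h
  · rw [coeff_chi _ (Nat.sub_le _ _), Nat.sub_sub_self h, ← mul_assoc, ← mul_pow]; simp
  · exact es_of_lt c (not_le.1 h)

lemma choose_eq (n m : ℕ) :
    (n.choose m : ℂ) = ∏ i ∈ Finset.range m, ((n - i : ℕ) : ℂ) * ((i + 1 : ℕ) : ℂ)⁻¹ := by
  rw [Finset.prod_mul_distrib, Finset.prod_inv_distrib, ← Nat.cast_prod, ← Nat.cast_prod,
    ← Nat.descFactorial_eq_prod_range, Finset.prod_range_add_one_eq_factorial,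
    Nat.descFactorial_eq_factorial_mul_choose, Nat.cast_mul, mul_comm, ← mul_assoc,
    inv_mul_cancel₀ (Nat.cast_ne_zero.2 m.factorial_ne_zero), one_mul]

end Alg

variable {ι κ : α → Type} [∀ a, Fintype (ι a)] [∀ a, Fintype (κ a)] {c : ∀ a, ι a → ℂ}
  {c' : ∀ a, κ a → ℂ} {j : α → ℕ}

theorem card (h : PC c) :
    (RPT fun a => Fintype.card (ι a)) ∧ RPB fun a => Fintype.card (ι a) :=
  ⟨(RPT.natDegree h).of_eq fun _ => natDegree_chi _,
    (RPB.natDegree h).mono fun _ => (natDegree_chi _).ge⟩

theorem es_un (h : PC c) : RPT fun q : α × Un => es (c q.1) q.2.val := by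
  have h1 := (card h).1.comp' (f := fun q : α × Un => q.1) (by fun_prop)
  have h2 := RPT.comp' (g := fun a => chi (c a)) h (f := fun q : α × Un => q.1) (by fun_prop)
  exact (RPT.ite (RPT.decide_le (by fun_prop) h1) (RPT.mul (by fun_prop)
    (h2.coeff (h1.nsub (by fun_prop)))) RPT.zero).of_eq fun q => (es_coeff _ _).symm

theorem ps_of (h : PC c) (hj : RPT j) (hb : RPB j) : RPT fun a => ps (c a) (j a) := by
  have h1 := (card h).1.comp' (f := fun q : α × Un => q.1) (by fun_prop)
  have h2 := es_un h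
  have h3 := h2.comp' (f := fun q : (α × Un) × Un => (q.1.1, Un.mk (q.1.2.val - q.2.val)))
    (by fun_prop)
  exact lin (v := fun a k => ps (c a) k) hj hb
    (RPT.ite (by fun_prop) h1.natCast (RPT.mul (by fun_prop) h2))
    (RPT.ite (by fun_prop) RPT.zero (RPT.mul (by fun_prop) h3).neg) fun a k => ps_lin (c a) k

theorem ps_un (h : PC c) : RPT fun q : α × Un => ps (c q.1) q.2.val :=
  ps_of (c := fun q : α × Un => c q.1)
    (RPT.comp' (g := fun a => chi (c a)) h (f := fun q : α × Un => q.1) (by fun_prop))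
    (by fun_prop) (by fun_prop)

theorem of_ps (h1 : RPT fun a => Fintype.card (ι a)) (h2 : RPB fun a => Fintype.card (ι a))
    (h : RPT fun q : α × Un => ps (c q.1) q.2.val) : PC c := by
  obtain ⟨n, hn⟩ : ∃ n : α → ℕ, ∀ a, Fintype.card (ι a) = n a := ⟨_, fun _ => rfl⟩
  simp only [hn] at h1 h2
  have h3 := h.comp' (f := fun q : ((α × Un) × Un) × Un =>
    (q.1.1.1, Un.mk (q.1.2.val - q.2.val))) (by fun_prop)
  have h4 : RPT fun q : α × Un => es (c q.1) (n q.1 - q.2.val) :=
    lin (v := fun (q : α × Un) k => es (c q.1) k) (by fun_prop) (by fun_prop) (by fun_prop)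
      (RPT.mul (by fun_prop) h3) fun q k => es_lin (c q.1) k
  refine RPT.ofCoeff_sub h1 h2 (fun _ => (natDegree_chi _).le.trans (hn _).le)
    (RPT.of_eq (RPT.sub (f := fun q : α × Un => (-1) ^ (n q.1 - q.2.val) *
      es (c q.1) (n q.1 - q.2.val)) (RPT.mul (by fun_prop) h4)) fun q => ?_)
  rw [coeff_chi _ (q.2.trans (hn _).ge), hn]

theorem padd_of (h : PC c) (h' : PC c') : PC fun a => padd (c a) (c' a) := by
  obtain ⟨a1, a2⟩ := card h
  obtain ⟨b1, b2⟩ := card h'
  refine of_ps (by simp only [Fintype.card_prod]; fun_prop)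
    (by simp only [Fintype.card_prod]; fun_prop) ?_
  simp only [ps_padd, choose_eq]
  have h1 := (ps_un h).comp' (f := fun q : (α × Un) × Un => (q.1.1, q.2)) (by fun_prop)
  have h2 := (ps_un h').comp'
    (f := fun q : (α × Un) × Un => (q.1.1, Un.mk (q.1.2.val - q.2.val))) (by fun_prop)
  exact RPT.sum_range (by fun_prop) (by fun_prop)
    ((h1.mul h2).mul (RPT.prod_range (by fun_prop) (by fun_prop) (by fun_prop)))

theorem elim_of (h : PC c) (h' : PC c') : PC fun a => Sum.elim (c a) (c' a) :=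
  (RPT.mul h h').of_eq fun a => by simp [chi]

theorem smul_of {w : α → ℂ} (hw : RPT w) (h : PC c) : PC fun a i => w a * c a i := by
  refine of_ps (card h).1 (card h).2 ?_
  have h1 := ps_un h
  simp only [ps_smul]
  fun_prop

theorem conj_of (h : PC c) : PC fun a i => (starRingEnd ℂ) (c a i) :=
  (RPT.mapConj h).of_eq fun a => by simp [chi, Polynomial.map_prod]

end VChi

open VChi in
theorem chiU : ChiU where
  card := card
  ps := ps_of
  of_ps := of_ps
  padd := padd_of
  elim := elim_of
  smul := smul_of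
  conj := conj_of
  qv h := RPT.coeff (elim_of h (padd_of h (smul_of RPT.one.neg h))) (card h).1
  wc h := padd_of (padd_of h (conj_of h)) (smul_of RPT.one.neg (padd_of h (conj_of h)))

end Pool.Agent.Lib.MP_837412_lc
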