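import Pool.Agent.Lib.MP_837412_lc.RSt
import Pool.Agent.Lib.MP_837412_lc.UM

/-!
Evaluation of formulas, and the input polynomials on the machine.
-/

namespace Pool.Agent.Lib.MP_837412_lc

open Pool.Agent.Shared.PolyTime MvPolynomial

namespace VFm

/-- One step of the stack machine. -/
def step (x : List SignType) (st : List Bool) (c : ℕ) : List Bool :=
  if c = 0 then (!st.headD false) :: st.tail
  else if c = 1 then (st.tail.headD false && st.headD false) :: st.tail.tail
  else if c = 2 then (st.tail.headD false || st.headD false) :: st.tail.tail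
  else decide (x.getD (c / 3 - 1) 0 = if c % 3 = 0 then -1 else if c % 3 = 1 then 0 else 1) :: st

lemma length_step (x : List SignType) (st : List Bool) (c : ℕ) :
    (step x st c).length ≤ st.length + 1 := by
  unfold step
  split_ifs <;> simp
  all_goals omega

lemma pt_run : PT fun p : List ℕ × List SignType => p.1.foldl (step p.2) [] :=
  PT.foldl_grow (f := fun p : List ℕ × List SignType => step p.2) (by unfold step; fun_prop)
    (by fun_prop) (by fun_prop) (g := fun _ => 3) (by fun_prop) fun p st c _ => by
      have := length_step p.2 st c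
      rw [sz_listBool, sz_listBool]
      omega

open Classical in
lemma run {s : ℕ} (x : Fin s → SignType) (φ : Fm s) (st : List Bool) :
    φ.code.foldl (step (List.ofFn x)) st = decide (x ∈ φ.set) :: st := by
  induction φ generalizing st with
  | lt j =>
    have h2 : (3 * j.1 + 3) % 3 = 0 := by omega
    simp [Fm.code, Fm.set, step, h2]
  | eq j =>
    have h1 : (3 * j.1 + 4) / 3 - 1 = j.1 := by omega
    have h2 : (3 * j.1 + 4) % 3 = 1 := by omega
    simp [Fm.code, Fm.set, step, h1, h2]
  | gt j =>
    have h1 : (3 * j.1 + 5) / 3 - 1 = j.1 := by omega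
    have h2 : (3 * j.1 + 5) % 3 = 2 := by omega
    simp [Fm.code, Fm.set, step, h1, h2]
  | not φ ih => simp [Fm.code, Fm.set, step, ih]
  | and φ ψ a b => simp [Fm.code, Fm.set, step, a, b]
  | or φ ψ a b => simp [Fm.code, Fm.set, step, a, b]

lemma getElem?_flatMap {ι β : Type} {f : ι → List β} {N n : ℕ} (h : ∀ x, (f x).length = N)
    (hn : n < N) (l : List ι) (j : ℕ) (hj : j < l.length) :
    (l.flatMap f)[j * N + n]? = (f l[j])[n]? := by
  induction l generalizing j with
  | nil => simp at hj
  | cons y l ih =>
    cases j with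
    | zero => simp [List.getElem?_append_left, h, hn]
    | succ j =>
      rw [List.flatMap_cons, List.getElem?_append_right (by rw [h]; nlinarith), h,
        show (j + 1) * N + n - N = j * N + n by rw [Nat.succ_mul]; omega, ih j (by simpa using hj)]
      rfl

variable {k s : ℕ} (d : ℕ) (P : Fin s → MvPolynomial (Fin k) ℝ)

lemma length_coeffs : (coeffs d P).length = s * (d + 1) ^ k := by
  simp [coeffs, List.length_flatMap]

lemma mapDomain_val (f : ℕ → ℕ) :
    (Finsupp.equivFunOnFinite.symm fun i : Fin k => f i).mapDomain Fin.val =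
      ∑ i ∈ Finset.range k, Finsupp.single i (f i) := by
  rw [Finsupp.mapDomain, Finsupp.sum_fintype _ _ (by simp), Finset.sum_range]
  rfl

lemma coeff_eq (j : Fin s) {b : ℕ →₀ ℕ} (hb : b ∈ mons k d) :
    (coeffs d P).getD (j * (d + 1) ^ k + (mons k d).findIdx fun c => decide (c = b)) 0 =
      coeff b (rename Fin.val (P j)) := by
  have hn : ((mons k d).findIdx fun c => decide (c = b)) < (mons k d).length :=
    List.findIdx_lt_length_of_exists ⟨b, hb, by simp⟩
  have he := of_decide_eq_true (List.findIdx_getElem (w := hn))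
  generalize ((mons k d).findIdx fun c => decide (c = b)) = n at hn he
  have hn' : n < (d + 1) ^ k := hn.trans_eq (length_mons k d)
  rw [List.getD_eq_getElem?_getD, coeffs, getElem?_flatMap (by simp) hn' _ _ (by simp), ← he]
  simp only [mons, List.getElem_map, List.getElem_range]
  rw [← mapDomain_val fun i => n / (d + 1) ^ i % (d + 1),
    coeff_rename_mapDomain _ Fin.val_injective]
  simp [hn']

lemma box {p : MvPolynomial (Fin k) ℝ} (h : p.totalDegree ≤ d) : Box k d (rename Fin.val p) := by
  refine ⟨fun b hb => ?_, (totalDegree_rename_le _ _).trans h⟩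
  rw [support_rename_of_injective Fin.val_injective, Finset.mem_image] at hb
  obtain ⟨c, -, rfl⟩ := hb
  exact bnd_mapDomain fun i _ => i.2

lemma look {α : Type} [RE α] {N : α → ℕ} {L : α → List ℝ} {M : α → List (ℕ →₀ ℕ)} (hN : RPT N)
    (hL : RPT L) (hM : RPT M) : RPT fun x : (α × Un) × (ℕ →₀ ℕ) =>
      (L x.1.1).getD (x.1.2.val * N x.1.1 + (M x.1.1).findIdx fun c => decide (c = x.2)) 0 :=
  .getD (.nadd (by fun_prop) (.findIdx (by fun_prop) (by fun_prop))) (by fun_prop) .zero

end VFm

theorem fmU : FmU :=
  ⟨fun p => (p.1.foldl (VFm.step p.2) []).headD false, VFm.pt_run.headD (.const _),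
    fun s φ x => by simp [VFm.run]⟩

theorem inpU : InpU := by
  intro α _ k s d P hk hs hd hk' hd' hN hP hc
  have hs' : RPB s := (RPB.length hc).mono fun a => by
    rw [VFm.length_coeffs]
    exact Nat.le_mul_of_pos_right _ (by positivity)
  have hm := RPT.mons hk hk' hd hd' hN
  have hn : RPT fun a => (d a + 1) ^ k a := by fun_prop
  refine (RPT.map_range_sub (h := fun a j =>
    if h : j < s a then rename Fin.val (P a ⟨j, h⟩) else 0) hs hs' ?_).of_eq fun a => ?_
  · refine RPT.ofTerms (l := fun x => mons (k x.1.1) (d x.1.1)) (hm.comp' (by fun_prop))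
      (fun x b hb => ?_) (((VFm.look hn hc hm).comp' (f := fun x => (x.1.1.1, x.1.2))
        (by fun_prop)).of_eq fun x => ?_)
    · rw [dif_pos x.2] at hb
      exact (VFm.box _ (hP _ _)).mem_mons hb
    · rw [dif_pos x.1.1.2]
      exact VFm.coeff_eq _ _ ⟨_, x.1.1.2⟩ x.2
  · exact List.ext_getElem (by simp) fun i h1 h2 => by
      simp [show i < s a by simpa using h1]

end Pool.Agent.Lib.MP_837412_lc
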