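import Pool.Agent.Lib.MP_837412_lc.RSt
import Pool.Agent.Lib.MP_837412_lc.UP
import Pool.Agent.Lib.MP_837412_lc.UM
import Pool.Agent.Lib.MP_837412_lc.JAlgA

/-!
The start of the tracking on the machine.
-/

namespace Pool.Agent.Lib.MP_837412_lc

open Set Function

attribute [local irreducible] RPT RPB

namespace VIni

variable {α : Type} [RE α] {k m i j n : α → ℕ}

@[fun_prop] lemma rpt_r0 (hm : RPT m) (hm' : RPB m) (hj : RPT j) (hj' : RPB j) :
    RPT fun a => r0 (m a) (j a) := by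
  unfold r0
  fun_prop

@[fun_prop] lemma rpt_d0 (hm : RPT m) (hm' : RPB m) : RPT fun a => d0 (m a) := by
  unfold d0
  fun_prop

@[fun_prop] lemma rpt_g0 (hm : RPT m) (hm' : RPB m) : RPT fun a => g0 (m a) := by
  unfold g0
  fun_prop

@[fun_prop] lemma rpt_v0 (hm : RPT m) (hm' : RPB m) (hj : RPT j) (hj' : RPB j) :
    RPT fun a => v0 (m a) (j a) := by
  unfold v0
  fun_prop

@[fun_prop] lemma rpt_s0 (hm : RPT m) (hm' : RPB m) : RPT fun a => s0 (m a) := by
  unfold s0
  fun_prop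

@[fun_prop] lemma rpt_c0 (hk : RPT k) (hk' : RPB k) (hm : RPT m) (hm' : RPB m) :
    RPT fun a => c0 (k a) (m a) := by
  unfold c0
  fun_prop

@[fun_prop] lemma rpt_g1 (hm : RPT m) (hm' : RPB m) (hi : RPT i) (hi' : RPB i) :
    RPT fun a => g1 (m a) (i a) := by
  unfold g1
  fun_prop

@[fun_prop] lemma rpt_cn (hk : RPT k) (hk' : RPB k) (hm : RPT m) (hm' : RPB m) (hn : RPT n)
    (hn' : RPB n) : RPT fun a => cn (k a) (m a) (n a) := by
  unfold cn
  fun_prop

lemma rpt_iniT (hk : RPT k) (hk' : RPB k) (hm : RPT m) (hm' : RPB m)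
    (hb : RPB fun a => m a ^ k a) : RPT fun a => iniT (k a) (m a) := by
  unfold iniT
  refine RPT.map_range (by fun_prop) hb (RPT.pair ?_ (.const 0))
  refine RPT.of_eq (f := fun p : α × Un => ((List.range (m p.1 ^ k p.1)).map Un.mk).countP
    fun u => decide (cn (k p.1) (m p.1) u.val < cn (k p.1) (m p.1) p.2.val))
    (RPT.countP (RPT.rangeU (by fun_prop) (hb.comp (.fst .id'))) (by fun_prop)) fun p => ?_
  rw [List.countP_map]
  rfl

lemma rpt_iniM (hk : RPT k) (hk' : RPB k) (hm : RPT m) (hb : RPB fun a => m a ^ k a) (b : ℕ) :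
    RPT fun a => iniM (k a) (m a) b := by
  unfold iniM
  refine RPT.map_range (by fun_prop) hb
    (RPT.map_range (by fun_prop) (hb.comp (.fst .id')) ?_)
  refine RPT.of_eq (f := fun p : (α × Un) × Un => ((List.range (k p.1.1)).map Un.mk).all
    fun u => decide (p.1.2.val / m p.1.1 ^ u.val % m p.1.1 = p.2.val / m p.1.1 ^ u.val % m p.1.1 ∨
      (p.1.2.val / m p.1.1 ^ u.val % m p.1.1 % 2 = b ∧
        (p.1.2.val / m p.1.1 ^ u.val % m p.1.1 = p.2.val / m p.1.1 ^ u.val % m p.1.1 + 1 ∨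
          p.2.val / m p.1.1 ^ u.val % m p.1.1 = p.1.2.val / m p.1.1 ^ u.val % m p.1.1 + 1))))
    (RPT.all (RPT.rangeU (by fun_prop) (by fun_prop)) ?_) fun p => ?_
  · refine RPT.decide_or (i := fun _ => inferInstance) (j := fun _ => inferInstance) (by fun_prop)
      (RPT.decide_and (i := fun _ => inferInstance) (j := fun _ => inferInstance) (by fun_prop)
        (RPT.decide_or (i := fun _ => inferInstance) (j := fun _ => inferInstance) (by fun_prop)
          (by fun_prop)))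
  · rw [List.all_map]
    rfl

variable {σ : α → Type} [∀ a, Fintype (σ a)]

lemma bds (h : Sz σ m) : (RPB fun a => Fintype.card (σ a)) ∧ RPB m ∧
    RPB fun a => m a ^ Fintype.card (σ a) := by
  refine ⟨h.bd.mono fun a => ?_, h.bd.mono fun a => ?_, h.bd.mono fun a => ?_⟩
  all_goals
    obtain ⟨k1, k2, -⟩ := JAlgA.kf_ge (σ := σ a) (m := m a)
    obtain ⟨k3, k4, -⟩ := JAlgA.sz_ge (le_refl (sz (σ a) (m a)))
  · omega
  · omega
  · exact (JAlgA.pow_le_W (by omega)).trans k4.le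

lemma up_p0 (σ : Type) [Fintype σ] (m : ℕ) : up (p0 σ m) = up (F0 σ ℝ m) -
    (MvPolynomial.C (c0 (Fintype.card σ) m) + ∑ i ∈ Finset.range (Fintype.card σ),
      Polynomial.aeval (MvPolynomial.X i : MvPolynomial ℕ ℝ) (g1 m i)) := by
  rw [p0, sumP, up_sub, up_add, up_C, up_sum, ← sum_ix (σ := σ)]
  simp only [up_aevalX]

end VIni

open VIni

theorem iniU (h : FlU) : IniU := by
  intro α _ σ _ m hs
  obtain ⟨b1, b2, b3⟩ := bds hs
  have c1 := hs.card
  have c2 := hs.deg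
  have c3 := (h α σ m hs).1
  refine ⟨?_, rpt_iniT c1 b1 c2 b2 b3, rpt_iniM c1 b1 c2 b3⟩
  simp only [up_p0]
  exact c3.sub' (by fun_prop)

end Pool.Agent.Lib.MP_837412_lc
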