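import Pool.Agent.Lib.MP_837412_lc.USt
import Pool.Agent.Lib.MP_837412_lc.G5

/-!
The start of the tracking, and a critical point in every nonempty cell.
-/

namespace Pool.Agent.Lib.MP_837412_lc

open Pool.Agent.Shared.Mod2 Set Function Filter Topology Polynomial

namespace VInit

lemma coeff_g1 (m i n : ℕ) :
    (g1 m i).coeff n = if n < m + 2 then (g0 m).coeff n * (s0 m ^ i) ^ (m + 1 - n) else 0 := by
  rw [g1, finsetSum_coeff]
  simp only [coeff_monomial]
  rw [Finset.sum_ite_eq']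
  simp only [Finset.mem_range]

lemma coeff_top {m n : ℕ} {g : ℝ[X]} (h : (g - X ^ (m + 1)).natDegree < m) (hn : m ≤ n) :
    g.coeff n = if n = m + 1 then 1 else 0 := by
  have := coeff_eq_zero_of_natDegree_lt (h.trans_le hn)
  rwa [coeff_sub, coeff_X_pow, sub_eq_zero] at this

lemma g1_eq {m : ℕ} (h : (g0 m - X ^ (m + 1)).natDegree < m) (hs : s0 m ≠ 0) (i : ℕ) :
    g1 m i = C ((s0 m ^ i) ^ (m + 1)) * (g0 m).comp (C (s0 m ^ i)⁻¹ * X) := by
  have h0 : s0 m ^ i ≠ 0 := pow_ne_zero _ hs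
  ext n
  rw [coeff_g1, coeff_C_mul, comp_C_mul_X_coeff]
  split_ifs with a
  · rw [pow_sub₀ _ h0 (by omega), inv_pow]; ring
  · rw [coeff_top h (by omega), if_neg (by omega)]; simp

lemma eval_g1 {m : ℕ} (h : (g0 m - X ^ (m + 1)).natDegree < m) (hs : s0 m ≠ 0) (i j : ℕ) :
    (g1 m i).eval (s0 m ^ i * r0 m j) = (s0 m ^ i) ^ (m + 1) * v0 m j := by
  have h0 : s0 m ^ i ≠ 0 := pow_ne_zero _ hs
  rw [g1_eq h hs, eval_mul, eval_C, eval_comp, eval_mul, eval_C, eval_X, inv_mul_cancel_left₀ h0, v0]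

lemma der_g1 {m : ℕ} (h : (g0 m - X ^ (m + 1)).natDegree < m) (hs : s0 m ≠ 0)
    (hd : derivative (g0 m) = C (m + 1 : ℝ) * d0 m) (i : ℕ) :
    derivative (g1 m i) = C (m + 1 : ℝ) * ∏ j : Fin m, (X - C (s0 m ^ i * r0 m j)) := by
  have h0 : s0 m ^ i ≠ 0 := pow_ne_zero _ hs
  rw [g1_eq h hs]
  generalize s0 m ^ i = S at h0
  refine Polynomial.funext fun x => ?_
  have e : ∀ j : ℕ, x - S * r0 m j = S * (S⁻¹ * x - r0 m j) := fun j => by field_simp
  rw [derivative_C_mul, derivative_comp, hd, d0, Fin.prod_univ_eq_prod_range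
    (fun j => (X - C (S * r0 m j) : ℝ[X]))]
  simp only [derivative_C_mul, derivative_X, mul_one, eval_mul, eval_C, eval_comp, eval_X,
    eval_prod, eval_sub, e, Finset.prod_mul_distrib, Finset.prod_const, Finset.card_range]
  generalize ∏ j ∈ Finset.range m, (S⁻¹ * x - r0 m j) = y
  field_simp
  ring

lemma deg_g1 {m : ℕ} (h : (g0 m - X ^ (m + 1)).natDegree < m) (i : ℕ) :
    (g1 m i - X ^ (m + 1)).natDegree ≤ m - 1 := by
  refine natDegree_le_iff_coeff_eq_zero.2 fun n hn => ?_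
  rw [coeff_sub, coeff_X_pow, coeff_g1, coeff_top h (by omega)]
  split_ifs with a b b
  · simp [b]
  · simp
  · omega
  · simp

lemma deg_aeval {σ : Type} (i : σ) (q : ℝ[X]) :
    (aeval (MvPolynomial.X i : MvPolynomial σ ℝ) q).totalDegree ≤ q.natDegree := by
  rw [aeval_eq_sum_range]
  refine MvPolynomial.totalDegree_finsetSum_le fun n hn => ?_
  refine (MvPolynomial.totalDegree_smul_le _ _).trans ?_
  rw [MvPolynomial.totalDegree_X_pow]
  exact Nat.lt_succ_iff.1 (Finset.mem_range.1 hn)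

lemma deg_p0 (σ : Type) [Fintype σ] {m : ℕ} (hm : 2 ≤ m)
    (h : (g0 m - X ^ (m + 1)).natDegree < m) : (p0 σ m).totalDegree < m := by
  have e : p0 σ m = MvPolynomial.C (((1 + (m + 1) * ∑ i : σ, bb i ^ (m + 1) : ℕ) : ℝ) -
      c0 (Fintype.card σ) m) - ∑ i : σ, (MvPolynomial.C (((m + 1) * bb i ^ m : ℕ) : ℝ) *
        MvPolynomial.X i + aeval (MvPolynomial.X i) (g1 m (ix i) - X ^ (m + 1))) := by
    simp only [p0, F0, sumP, map_sub, map_pow, aeval_X, Finset.sum_add_distrib,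
      Finset.sum_sub_distrib]
    ring
  rw [e]
  refine lt_of_le_of_lt (b := m - 1) ((MvPolynomial.totalDegree_sub _ _).trans (max_le
    (by rw [MvPolynomial.totalDegree_C]; omega) (MvPolynomial.totalDegree_finsetSum_le
      fun i _ => (MvPolynomial.totalDegree_add _ _).trans (max_le ?_ ?_)))) (by omega)
  · exact (MvPolynomial.totalDegree_mul _ _).trans
      (by rw [MvPolynomial.totalDegree_C, MvPolynomial.totalDegree_X]; omega)
  · exact (deg_aeval _ _).trans (deg_g1 h _)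

lemma Fl_p0 (σ : Type) [Fintype σ] (m : ℕ) : Fl m (cx' (p0 σ m)) 1 =
    cx' (sumP (c0 (Fintype.card σ) m) fun i : σ => g1 m (ix i)) := by
  rw [← Complex.ofReal_one, ← cx_Fl, Fl, p0]
  simp

lemma sumP_neg {σ : Type} [Fintype σ] (c : ℝ) (g : σ → ℝ[X]) :
    sumP (-c) (fun i => -g i) = -sumP c g := by
  simp only [sumP, map_neg, Finset.sum_neg_distrib]; ring

lemma ld_inv {E ι : Type} [TopologicalSpace E] [Fintype ι] {G : E → ℂ} {c : ι → ℝ} {m : ℕ}
    {L : Matrix ι ι F} (κ : C(E, E)) (hκ : ∀ y, κ (κ y) = y) (h : LD G c m L) :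
    LD (fun y => G (κ y)) c m L := by
  obtain ⟨M₀, h⟩ := h
  refine ⟨M₀, fun M' M δ a b d => ?_⟩
  obtain ⟨u, w, h1, h2, h3⟩ := h M' M δ a b d
  have m1 : ∀ A : Set ℂ, MapsTo κ (G ⁻¹' A) ((fun y => G (κ y)) ⁻¹' A) := fun A y hy => by
    simpa only [mem_preimage, hκ] using hy
  have m2 : ∀ A : Set ℂ, MapsTo κ ((fun y => G (κ y)) ⁻¹' A) (G ⁻¹' A) := fun A y hy => hy
  have kk : ∀ x, cm κ (cm κ x) = x := fun x => by
    rw [cm_cm, show κ.comp κ = ContinuousMap.id E from ContinuousMap.ext hκ, cm_id]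
  refine ⟨fun i => cm κ (u i), fun i => cm κ (w i), fun i => ⟨cm_Zs (m1 _) (m1 _) (h1 i).1,
    cm_Zs (m1 _) (m1 _) (h1 i).2⟩, fun x hx => h2 x ?_, fun i => ?_⟩
  · simpa only [map_sum, map_smul, kk] using cm_Bs (mapsTo_univ _ _) (m2 _) hx
  · simpa only [map_add, map_sum, map_smul] using cm_Bs (mapsTo_univ _ _) (m1 _) (h3 i)

lemma countP_lt {α : Type} {l : List α} {p q : α → Bool} (h : ∀ x, p x → q x) {a : α}
    (ha : a ∈ l) (h1 : q a) (h2 : ¬ p a) : l.countP p < l.countP q := by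
  obtain ⟨s, t, rfl⟩ := List.append_of_mem ha
  have e1 := List.countP_mono_left (l := s) fun x _ => h x
  have e2 := List.countP_mono_left (l := t) fun x _ => h x
  rw [List.countP_append, List.countP_append, List.countP_cons_of_pos h1,
    List.countP_cons_of_neg h2]
  omega

lemma rank_le {N : ℕ} (f : ℕ → ℝ) {a b : ℕ} (hb : b < N) :
    f a ≤ f b ↔ ((List.range N).countP fun n => f n < f a) ≤
      (List.range N).countP fun n => f n < f b := by
  refine ⟨fun h => List.countP_mono_left fun x _ hx => ?_, fun h => by_contra fun e => ?_⟩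
  · simp only [decide_eq_true_eq] at hx ⊢; linarith
  · refine absurd h (not_le.2 (countP_lt (fun x hx => ?_) (List.mem_range.2 hb) ?_ (by simp)))
    · simp only [decide_eq_true_eq] at hx ⊢; linarith
    · simpa using e

lemma len_iniT (k m : ℕ) : (iniT k m).length = m ^ k := by simp [iniT]

lemma get_ini (k m n : ℕ) (h : n < (iniT k m).length) :
    (iniT k m)[n] = ((List.range (m ^ k)).countP fun n' => cn k m n' < cn k m n, 0) := by
  simp [iniT]

lemma pts_ini (k m : ℕ) (n : Fin (iniT k m).length) :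
    pts (iniT k m) n = ((List.range (m ^ k)).countP fun n' => cn k m n' < cn k m n : ℕ) := by
  simp only [pts, Fin.getElem_fin, get_ini, Nat.cast_zero, zero_mul, add_zero]

/-- The digits of a number. -/
noncomputable def dig (σ : Type) [Fintype σ] (m : ℕ) :
    Fin (iniT (Fintype.card σ) m).length ≃ (σ → Fin m) :=
  ((finCongr (len_iniT _ m)).trans finFunctionFinEquiv.symm).trans
    (Equiv.arrowCongr (Fintype.equivFin σ).symm (Equiv.refl _))

lemma dig_val {σ : Type} [Fintype σ] {m : ℕ} (n : Fin (iniT (Fintype.card σ) m).length) (i : σ) :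
    (dig σ m n i : ℕ) = n / m ^ ix i % m := rfl

lemma cn_dig {σ : Type} [Fintype σ] {m : ℕ} (n : Fin (iniT (Fintype.card σ) m).length) :
    c0 (Fintype.card σ) m + ∑ i : σ, (s0 m ^ ix i) ^ (m + 1) * v0 m (dig σ m n i) =
      cn (Fintype.card σ) m n := by
  rw [cn, ← Fin.sum_univ_eq_sum_range (fun i => (s0 m ^ i) ^ (m + 1) * v0 m (n / m ^ i % m)),
    ← (Fintype.equivFin σ).sum_comp]
  rfl

lemma mat_ini {σ : Type} [Fintype σ] {m b : ℕ} {s : σ → Fin m → Prop}
    (h : ∀ i j, s i j ↔ (j : ℕ) % 2 = b) :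
    mat _ (iniM (Fintype.card σ) m b) =
      (Matrix.of fun a a' => ∏ i, L1 (s i) (a i) (a' i)).submatrix (dig σ m) (dig σ m) := by
  classical
  ext n n'
  have h1 : (n : ℕ) < m ^ Fintype.card σ := len_iniT _ m ▸ n.2
  have h2 : (n' : ℕ) < m ^ Fintype.card σ := len_iniT _ m ▸ n'.2
  simp only [mat, vec, iniM, Matrix.of_apply, Matrix.submatrix_apply, L1, Finset.prod_boole,
    List.getD_eq_getElem?_getD, List.getElem?_map, List.getElem?_range h1, List.getElem?_range h2,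
    Option.map_some, Option.getD_some, List.all_eq_true, List.mem_range, decide_eq_true_eq,
    Finset.mem_univ, forall_true_left, h, Fin.ext_iff, dig_val]
  refine if_congr ⟨fun a i => a _ (Fintype.equivFin σ i).2, fun a i hi => ?_⟩ rfl rfl
  simpa only [ix, Equiv.apply_symm_apply] using a ((Fintype.equivFin σ).symm ⟨i, hi⟩)

lemma par {m j : ℕ} (ho : Odd m) (hj : j < m) {S x t : ℝ} (hS : 0 < S)
    (h : 0 < (-1) ^ (m - j) * (x - t)) :
    (S * t < S * x ↔ j % 2 = 1) ∧ (S * x < S * t ↔ j % 2 = 0) := by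
  rw [mul_lt_mul_iff_right₀ hS, mul_lt_mul_iff_right₀ hS]
  obtain ⟨n, rfl⟩ := ho
  rcases Nat.mod_two_eq_zero_or_one j with e | e
  · rw [Odd.neg_one_pow (Nat.odd_iff.2 (by omega))] at h
    exact ⟨⟨fun a => by linarith, fun a => by omega⟩, fun _ => e, fun _ => by linarith⟩
  · rw [Even.neg_one_pow (Nat.even_iff.2 (by omega))] at h
    exact ⟨⟨fun _ => e, fun _ => by linarith⟩, fun a => by linarith, fun a => by omega⟩

lemma L1_diag {σ : Type} [Fintype σ] {m : ℕ} (s : σ → Fin m → Prop) (a : σ → Fin m) :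
    (Matrix.of fun a a' => ∏ i, L1 (s i) (a i) (a' i)) a a = 1 := by simp [L1]

lemma L1_le {σ : Type} [Fintype σ] {m b : ℕ} {w : σ → Fin m → ℝ} {t : σ → ℝ}
    (h : ∀ i j, t i < w i j ↔ (j : ℕ) % 2 = b) {a a' : σ → Fin m}
    (e : (Matrix.of fun a a' => ∏ i, L1 (fun j => t i < w i j) (a i) (a' i)) a a' ≠ 0) :
    ∑ i, w i (a' i) ≤ ∑ i, w i (a i) := by
  refine Finset.sum_le_sum fun i _ => ?_
  have := Finset.prod_ne_zero_iff.1 e i (Finset.mem_univ i)
  simp only [L1, Matrix.of_apply, ne_eq, ite_eq_right_iff, one_ne_zero, imp_false, not_not] at this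
  rcases this with d | ⟨d, f⟩
  · rw [d]
  · refine le_trans (not_lt.1 fun g => ?_) d.le
    have := (h _ _).1 d
    have := (h _ _).1 g
    omega

theorem init (H : All) (h1 : SumS) (h2 : LDatS) (h3 : OneS) : InitS := by
  intro σ _ _ m hm ho
  obtain ⟨a1, a2, a3, ⟨t, a4⟩, a5, a6⟩ := h3 m hm ho
  obtain ⟨a6, a7⟩ := a6 (Fintype.card σ)
  have s0p : 0 < s0 m := one_pos.trans_le a5
  have dg := deg_p0 σ hm a3
  have dc := (deg_cx _).trans_lt dg
  let c := c0 (Fintype.card σ) m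
  let g : σ → ℝ[X] := fun i => g1 m (ix i)
  let r : σ → Fin m → ℝ := fun i j => s0 m ^ ix i * r0 m j
  let T : σ → ℝ := fun i => (s0 m ^ ix i) ^ (m + 1) * t
  let val : (σ → Fin m) → ℝ := fun a => c + ∑ i, (g i).eval (r i (a i))
  have Sp : ∀ i : σ, 0 < (s0 m ^ ix i) ^ (m + 1) := fun i => by positivity
  have ev : ∀ i j, (g i).eval (r i j) = (s0 m ^ ix i) ^ (m + 1) * v0 m j :=
    fun i j => eval_g1 a3 s0p.ne' _ _
  have vd : ∀ n, val (dig σ m n) = cn (Fintype.card σ) m n := fun n => by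
    simp only [val, ev]; exact cn_dig n
  have lt : ∀ n : Fin (iniT (Fintype.card σ) m).length, (n : ℕ) < m ^ Fintype.card σ :=
    fun n => len_iniT _ m ▸ n.2
  have vi : Injective val := (dig σ m).injective_comp val |>.1 fun n n' e =>
    Fin.ext (a7 (lt n) (lt n') (by rw [← vd, ← vd]; exact e))
  have rm : ∀ i, StrictMono (r i) := fun i j l e =>
    mul_lt_mul_of_pos_left (a1 e) (pow_pos s0p _)
  have sg : ∀ i (j : Fin m), 0 < (m + 1 : ℝ) * (-1) ^ (m - j) * ((g i).eval (r i j) - T i) :=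
    fun i j => by
      rw [ev, ← mul_sub, mul_assoc, mul_left_comm ((-1 : ℝ) ^ _)]
      exact mul_pos (by positivity) (mul_pos (Sp i) (a4 j j.2))
  have p1 : ∀ i j, T i < (g i).eval (r i j) ↔ (j : ℕ) % 2 = 1 := fun i j => by
    rw [ev]; exact (par ho j.2 (Sp i) (a4 j j.2)).1
  have p2 : ∀ i j, -T i < (-g i).eval (r i j) ↔ (j : ℕ) % 2 = 0 := fun i j => by
    rw [eval_neg, neg_lt_neg_iff, ev]; exact (par ho j.2 (Sp i) (a4 j j.2)).2
  have vn : (fun a : σ → Fin m => -c + ∑ i, (-g i).eval (r i (a i))) = fun a => -val a := by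
    ext a; simp only [val, eval_neg, Finset.sum_neg_distrib]; ring
  obtain ⟨b1, b2, b3⟩ := h1 σ m c g (fun _ => m + 1) T r (by omega) rm
    (fun i => der_g1 a3 s0p.ne' a2 _) sg vi
  obtain ⟨-, -, b4⟩ := h1 σ m (-c) (fun i => -g i) (fun _ => -(m + 1)) (fun i => -T i) r (by omega)
    rm (fun i => by rw [derivative_neg, der_g1 a3 s0p.ne' a2, C_neg, neg_mul])
    (fun i j => by have := sg i j; rw [eval_neg]; linarith) (by
      rw [vn]; exact neg_injective.comp vi)
  have b5 := ld_inv (kap σ) (fun y => by ext; simp [kap]) b4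
  have eG : (fun y => MvPolynomial.eval (kap σ y) (cx' (sumP (-c) fun i => -g i))) =
      fun y => -cj (fun y => MvPolynomial.eval y (cx' (sumP c g))) y := by
    ext y
    rw [sumP_neg, cx', map_neg, map_neg]
    exact congrArg _ (eval_cx_conj _ y)
  rw [eG, vn] at b5
  have eF : Fl m (cx' (p0 σ m)) 1 = cx' (sumP c g) := Fl_p0 σ m
  choose γ hγ using fun a => (H.crit σ m _ 1 hm dc _ (eF ▸ b1.crit a)).1
  have hv : ∀ a, Lam m (cx' (p0 σ m)) 1 (γ a) = (val a : ℂ) := fun a => by rw [hγ, eF, b1.val]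
  let γ' : (σ → Fin m) ≃ Std σ m := Equiv.ofBijective γ (Finite.injective_iff_bijective.1
    fun a a' e => vi (Complex.ofReal_injective (by rw [← hv, ← hv, e])))
  have eL : Lam m (cx' (p0 σ m)) 1 ∘ γ' = fun a => (val a : ℂ) := funext hv
  refine ⟨dg, (H.qv _ _).2 ⟨(γ'.injective_comp _).1 (eL ▸ b1.inj), fun b => ?_⟩,
    fun N hN => ⟨(dig σ m).trans γ', ?_⟩⟩
  · obtain ⟨n, rfl⟩ := ((dig σ m).trans γ').surjective b
    rw [show ((dig σ m).trans γ') n = γ (dig σ m n) from rfl, hv, vd]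
    exact Complex.ofReal_ne_zero.2 (a6 _).ne'
  have e : Lam m (cx' (p0 σ m)) 1 ∘ (dig σ m).trans γ' = (fun a => (val a : ℂ)) ∘ dig σ m :=
    funext fun n => hv _
  have eG' : Gl m (cx' (p0 σ m)) 1 = fun y => MvPolynomial.eval y (cx' (sumP c g)) :=
    funext fun y => by rw [Gl, eF]
  have hB : Bn N fun a => (val a : ℂ) := fun a => by simpa only [hv] using hN (γ a)
  rw [e, eG', mat_ini p1, mat_ini p2]
  refine ⟨fun n n' => ⟨?_, ?_⟩, Dat.perm ?_ _, Tri.perm ⟨⟨L1_diag _, fun a a' d f => Or.inl ?_⟩,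
    L1_diag _, fun a a' d f => Or.inl ?_⟩ _⟩
  · simp only [comp_apply, vd, Complex.ofReal_re, rank_le _ (lt n'), pts_ini, Complex.natCast_re,
      Nat.cast_le]
  · simp only [comp_apply, Complex.ofReal_im, pts_ini, Complex.natCast_im]
  · exact h2 _ _ N _ val _ _ _ (H.sys σ _ _ _ _ b1 b2) hB (L1_diag _) (L1_diag _) b3 b5
  · exact lt_of_le_of_ne (add_le_add_right (L1_le p1 f) c) (vi.ne d.symm)
  · have := L1_le p2 f
    simp only [eval_neg, Finset.sum_neg_distrib, neg_le_neg_iff] at this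
    exact lt_of_le_of_ne (add_le_add_right this c) (vi.ne d)

theorem hit (H : All) : HitS := by
  intro σ τ _ _ _ m P π hm ho hp hπ hne
  have hc := (deg_cx _).trans_lt hp
  obtain ⟨x, hx⟩ := H.mor_ls hm hc
  obtain ⟨g1, g2⟩ := H.grow σ m _ ho hp
  obtain ⟨y, y1, y2⟩ : ({y | MvPolynomial.eval y (Fl m (sq P) (ls m (cx' (sq P)))) < 0} ∩
      cell P π).Nonempty := by
    refine nonempty_iff_ne_empty.2 fun e => ?_
    have := (H.rm_of hm ho hp hπ 1).2 1
    rw [e, Ac.refl _ 1, hs_empty hne] at this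
    simp at this
  obtain ⟨z, z1, z2⟩ := JLamP.exists_min P hπ (g2 _ 0) (fun w hw => sq_pos.1 (by
    rw [eval_Fl] at hw
    nlinarith [g1 w, H.ls_pos (m := m) (cx' (sq P))])) y2 y1
  obtain ⟨a, ha⟩ := hx.all _ (cx_Fl m (sq P) _ ▸ JLamP.crit_of_min z2)
  have cp : cpv (Fe m P) (Le m P a) = x a := hx.cpv a
  refine ⟨a, funext fun j => ?_⟩
  simp only [lab, cp, ← ha, eval_cx, Complex.ofReal_re]
  exact z1 j

end VInit

theorem initS (h1 : SumS) (h2 : LDatS) (h3 : OneS) : InitS := VInit.init all h1 h2 h3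

theorem hitS : HitS := VInit.hit all

end Pool.Agent.Lib.MP_837412_lc
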