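import Pool.Agent.Lib.MP_837412_lc.USt
import Pool.Agent.Lib.MP_837412_lc.JGen

/-!
Cycles that go to the left of real critical values, and the normal form that they determine.
-/

namespace Pool.Agent.Lib.MP_837412_lc

open Pool.Agent.Shared.Mod2 Set Function Filter Topology

namespace VLDat

/-- A linear map that turns the direction `-1 + i` into the direction `i`. -/
noncomputable def tw : ℂ ≃L[ℝ] ℂ := LinearEquiv.toContinuousLinearEquiv
  { toFun := fun z => ⟨z.re + z.im, -z.re⟩
    invFun := fun w => ⟨-w.im, w.re + w.im⟩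
    map_add' := fun z w => Complex.ext (by simp; ring) (by simp; ring)
    map_smul' := fun t z => Complex.ext (by simp; ring) (by simp)
    left_inv := fun z => Complex.ext (by simp) (by simp)
    right_inv := fun z => Complex.ext (by simp) (by simp) }

lemma tw_re (z : ℂ) : (tw z).re = z.re + z.im := rfl

lemma tw_im (z : ℂ) : (tw z).im = -z.re := rfl

variable {E ι : Type} [TopologicalSpace E] {G : E → ℂ} {c : ι → ℂ} {v : ι → ℝ} {m : ℕ}
  {N M M' δ : ℝ} {u d : ι → Ch (Sx E)}

omit [TopologicalSpace E] in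
lemma tw_AU (G : E → ℂ) (M : ℝ) : (tw ∘ G) ⁻¹' AU M = G ⁻¹' Hl M := by
  ext y
  simp only [mem_preimage, AU, Hl, mem_ofPred_eq, comp_apply, tw_im, lt_neg]

lemma open_Hl (M : ℝ) : IsOpen (Hl M) := isOpen_lt Complex.continuous_re continuous_const

lemma open_Wp (a δ : ℝ) : IsOpen (Wp a δ) :=
  (isOpen_lt Complex.continuous_re continuous_const).inter
    (isOpen_lt continuous_const (Complex.continuous_re.add Complex.continuous_im))

lemma mono_Hl (M : ℝ) : Mono (-1 : ℂ) (Hl M) := fun z hz t ht => by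
  simp only [Hl, mem_ofPred_eq] at *
  simp
  linarith

/-- Moving to the left one enters a half plane. -/
lemma adm_Hl {A : Set ℂ} (o : IsOpen A) (h : Mono (-1 : ℂ) A) (e : Hl M ⊆ A) :
    Adm (-1 : ℂ) A (Hl M) :=
  ⟨o, open_Hl M, e, h, mono_Hl M, fun z _ => ⟨|z.re + M| + 1, by positivity, by
    simp only [Hl, mem_ofPred_eq]
    simp
    linarith [le_abs_self (z.re + M)]⟩⟩

lemma Hl_AL (h : N ≤ M) : Hl M ⊆ AL N N := fun _ hz =>
  Or.inr (lt_of_lt_of_le hz (neg_le_neg h))

lemma adm_AL (h : N ≤ M) : Adm (-1 : ℂ) (AL N N) (Hl M) :=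
  adm_Hl ((isOpen_lt continuous_const Complex.continuous_im.abs).union (open_Hl N))
    (Mono.union (A := {z | N < |z.im|}) (fun z hz t _ => by simpa using hz) (mono_Hl N)) (Hl_AL h)

/-- Two nonzero vectors on a line are equal. -/
lemma add_mem_of_rk {V : Type} [AddCommGroup V] [Module F V] {S T T' : Submodule F V} {x y : V}
    (h : rk S T = 1) (e : T ≤ T') (hx : x ∈ S) (hy : y ∈ S) (hx' : x ∉ T') (hy' : y ∉ T') :
    x + y ∈ T' := by
  obtain ⟨z, -, -, h3⟩ := rk_eq_one.1 h
  have key : ∀ x ∈ S, x ∉ T' → x + z ∈ T' := fun x hx hx' => by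
    obtain ⟨w, hw, e1⟩ := mem_sup2.1 (h3 hx)
    obtain ⟨a, rfl⟩ := Submodule.mem_span_singleton.1 hw
    have h2 : a = 0 ∨ a = 1 := by generalize a = x; revert x; decide
    rcases h2 with rfl | rfl
    · exact absurd (e (by simpa using e1)) hx'
    · exact e (by simpa using e1)
  have := add_mem (key x hx hx') (key y hy hy')
  rwa [add_add_add_comm, aa, add_zero] at this

variable [Fintype ι]

lemma not_mem {V : Type} [AddCommGroup V] [Module F V] {T : Submodule F V} {e : ι → V}
    (h : Ind T e) (i : ι) : e i ∉ T := fun a =>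
  (ind_iff.1 h).ne_zero i ((Submodule.Quotient.mk_eq_zero T).2 a)

/-- A cycle that goes to the upper left is the element of an adapted basis. -/
lemma key (h : Sys G c m) (hv : ∀ i, c i = v i) (hN : ∀ i, |v i| < N) (hu : UB N G c m u)
    (h0 : 0 < δ) (hM : N ≤ M) {i : ι} (gap : ∀ j, |v j - v i| < δ → j = i) {x : Ch (Sx E)}
    (hx : x ∈ Zs (G ⁻¹' Wp (v i) δ) (G ⁻¹' (Wp (v i) δ ∩ Hl M)) m)
    (hx' : x ∉ Bs univ (G ⁻¹' Hl M) m) : u i + x ∈ Bs univ (G ⁻¹' AL N N) m := by
  have hc : ∀ i, |(c i).im| < N ∧ |(c i).re| < N := fun i => by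
    simpa [hv] using ⟨(abs_nonneg _).trans_lt (hN i), hN i⟩
  have nL : ∀ j, c j ∉ AL N N := fun j a =>
    a.elim (hc j).1.not_gt (abs_lt.1 (hc j).2).1.not_gt
  have BL : HU N (-1) M ⊆ AL N N := fun z hz => hz.elim
    (fun a => Or.inr (by simp only [mem_ofPred_eq] at a; linarith)) fun a => AU_sub_AL a
  have wA : Upw N (Wp (v i) δ ∪ HU N (-1) M) :=
    ⟨(open_Wp _ _).union (upw_HU _ _ _).op, Mono.union (fun z hz t ht =>
      ⟨by simpa using hz.1, by simp; linarith [hz.2]⟩) (upw_HU _ _ _).mono,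
      subset_union_of_subset_right (upw_HU _ _ _).sub _⟩
  have ci : c i ∈ Wp (v i) δ ∪ HU N (-1) M := Or.inl (by simpa [Wp, hv] using h0)
  have cell := h.cell _ _ _ i Complex.I_ne_zero (wA.adm (upw_HU N (-1) M) subset_union_right) ci
    (fun a => nL i (BL a)) (fun j hj a => a.elim (fun a => absurd (gap j (by
      simp only [Wp, hv, mem_ofPred_eq, Complex.ofReal_re, Complex.ofReal_im] at a
      exact abs_lt.2 ⟨by linarith [a.2], by linarith [a.1]⟩)) hj) id) m
  rw [if_pos rfl] at cell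
  obtain ⟨y, y1, y2⟩ := mem_sup2.1 (hu.mem wA ci)
  replace y2 := Bs_mono Subset.rfl (preimage_mono (AU_sub_AL (M := N))) m y2
  have := add_mem_of_rk cell (Bs_mono (subset_univ _) (preimage_mono BL) m)
    (Zs_mono Subset.rfl (preimage_mono (upw_HU N (-1) M).sub) m y1)
    (Zs_mono (preimage_mono subset_union_left) (preimage_mono fun z hz => Or.inl (by
      have : z.re < -M := hz.2
      simp only [mem_ofPred_eq]
      linarith)) m hx)
    (fun a => not_mem (hu.ind_of (preimage_mono AU_sub_AL) (h.ac_LU hc)) i (mem_of_add y2 a))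
    fun a => hx' (into_right (preimage_mono (Hl_AL hM)) (subset_univ _)
      (h.ac _ _ _ (by norm_num) (adm_AL hM) (fun j b => absurd b (nL j)) m)
      ⟨Zs_mono (subset_univ _) (preimage_mono inter_subset_right) m hx, a⟩)
  have := add_mem y2 this
  rwa [add_assoc, ← add_assoc y, aa, zero_add] at this

/-- The relation on the left side. -/
lemma side {L : Matrix ι ι F} (h : Sys G c m) (hv : ∀ i, c i = v i) (hN : ∀ i, |v i| < N)
    (hu : UB N G c m u) (hd : UB N (cj G) (cj c) m d) (hL : ∀ i, L i ≠ 0) (hl : LD G v m L)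
    (i : ι) : d i + ∑ j, L i j • u j ∈ Bs univ (G ⁻¹' AL N N) m := by
  obtain ⟨M₀, hl⟩ := hl
  obtain ⟨η, h0, hη⟩ := exists_gap (finite_range c)
  have gap : ∀ i j, |v j - v i| < η → j = i := fun i j a => h.inj (by
    have := (hη _ ⟨j, rfl⟩ _ ⟨i, rfl⟩).1 (by simpa [hv] using a)
    simpa [hv] using this)
  obtain ⟨u', d', a1, a2, a3⟩ := hl (max M₀ N) (max M₀ N) η (le_max_left _ _) le_rfl h0
  have b1 := fun j => key h hv hN hu h0 (le_max_right M₀ N) (gap j) (a1 j).1 (not_mem a2 j)
  have b2 := key (x := d' i) h.cj (fun j => by simp [cj, hv]) hN hd h0 (le_max_right M₀ N) (gap i)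
    (a1 i).2 fun a => hL i (a2 _ (mem_of_add (add_comm (d' i) _ ▸ a3 i) a))
  rw [cj_AL] at b2
  have b3 := Bs_mono Subset.rfl (preimage_mono (Hl_AL (le_max_right M₀ N))) m (a3 i)
  have := add_mem (add_mem b2 b3)
    (sum_mem fun j (_ : j ∈ Finset.univ) => Submodule.smul_mem _ (L i j) (b1 j))
  simp only [smul_add, Finset.sum_add_distrib] at this
  convert this using 1
  linear_combination (norm := abel1) -aa (d' i) - aa (∑ j, L i j • u' j)

/-- Adapted bases after a reflection in the imaginary axis. -/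
lemma ub_refl (h : UB N G c m u) : UB N (fun y => -cj G y) (fun i => -cj c i) m u := by
  have e : (fun y => -cj G y) ⁻¹' AU N = G ⁻¹' AU N := by ext; simp [AU]
  refine ⟨e ▸ h.ind, fun A hA => ?_⟩
  have := h.span ((fun z => -(starRingEnd ℂ) z) ⁻¹' A) ⟨hA.op.preimage (by fun_prop),
    fun z hz t ht => by
      have := hA.mono _ hz t ht
      simpa [add_comm] using this, fun z hz => hA.sub (by simpa [AU] using hz)⟩
  rw [Im] at this ⊢
  rw [e]
  exact this

/-- The normal form from the relations on both sides. -/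
theorem ldat {L R : Matrix ι ι F} (h : Sys G (fun i => v i) m) (hb : Bn N fun i => v i)
    (hL : ∀ i, L i ≠ 0) (hR : ∀ i, R i ≠ 0) (hl : LD G v m L)
    (hr : LD (fun y => -cj G y) (fun i => -v i) m R) : Dat N N G (fun i => v i) m L R := by
  have hi : Injective fun i => ((v i : ℂ)).re := fun i j e => h.inj (by simpa using e)
  have hN : ∀ i, |v i| < N := fun i => by simpa using (hb.abs i).2
  obtain ⟨u, hu⟩ := JGen.exists_ub h (fun i => (hb.abs i).1) hi
  obtain ⟨d, hd⟩ := JGen.exists_ub h.cj (fun i => (hb.cj.abs i).1) hi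
  refine ⟨u, d, hu, hd, fun i => ⟨side h (fun _ => rfl) hN hu hd hL hl i, ?_⟩⟩
  have e : ∀ {X : Type} (f : X → ℂ), (fun y => -cj (cj f) y) = cj fun y => -cj f y := fun f => by
    ext; simp [cj]
  have hd' := ub_refl hd
  rw [e, e] at hd'
  have := side (h.cj.lin (ContinuousLinearEquiv.neg ℝ)) (fun j => by simp [cj])
    (fun j => by simpa using hN j) (ub_refl hu) hd' hR hr i
  rwa [show (ContinuousLinearEquiv.neg ℝ ∘ cj G) ⁻¹' AL N N = G ⁻¹' AR N N by
    ext; simp [AL, AR]] at this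

end VLDat

open VLDat

theorem genL : GenL := by
  intro E ι _ _ G c m h
  obtain ⟨M₀, h0⟩ : ∃ M₀, ∀ i, |c i| < M₀ :=
    ((finite_range fun i => |c i|).bddAbove.imp fun M a i => a ⟨i, rfl⟩).elim fun M a =>
      ⟨M + 1, fun i => (a i).trans_lt (lt_add_one M)⟩
  refine ⟨M₀, fun M' M δ h1 h2 h3 => ?_⟩
  have nH : ∀ i, (c i : ℂ) ∉ Hl M' := fun i a => by
    have : c i < -M' := a
    linarith [(abs_lt.1 (h0 i)).1]
  have sub : Hl M ⊆ Hl M' := fun z hz => lt_of_lt_of_le hz (neg_le_neg h2)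
  constructor
  · have k := h.k3 (by norm_num) (adm_Hl (M := M') isOpen_univ Mono.univ (subset_univ _)) m
    rwa [if_pos rfl, show {i | (c i : ℂ) ∈ univ \ Hl M'} = univ from
      eq_univ_of_forall fun i => ⟨trivial, nH i⟩, preimage_univ, encard_univ,
      ENat.card_eq_coe_fintype_card] at k
  obtain ⟨e, he⟩ := JGen.exists_ub (N := M) (h.lin tw)
    (fun i => by simpa [tw_im] using (h0 i).trans_le (h1.trans h2))
    fun i j a => h.inj (by simpa [tw_re] using a)
  have key : ∀ i, ∃ y ∈ Zs (G ⁻¹' Wp (c i) δ) (G ⁻¹' (Wp (c i) δ ∩ Hl M)) m,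
      e i + y ∈ Bs univ (G ⁻¹' Hl M) m := fun i => by
    have := he.mem (A := {w | -w.im < c i + δ ∧ c i - δ < w.re} ∪ AU M) (i := i)
      ⟨((isOpen_lt Complex.continuous_im.neg continuous_const).inter
        (isOpen_lt continuous_const Complex.continuous_re)).union upw_AU.op,
        Mono.union (fun z hz t ht => ⟨by simp; linarith [hz.1], by simpa using hz.2⟩) upw_AU.mono,
        subset_union_right⟩ (Or.inl (by simpa [tw_re, tw_im] using h3))
    rw [Im, preimage_union, tw_AU, show (tw ∘ G) ⁻¹' {w | -w.im < c i + δ ∧ c i - δ < w.re} =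
      G ⁻¹' Wp (c i) δ by ext; simp [tw_re, tw_im, Wp]] at this
    exact mem_sup2.1 (sup_le ((exc_onto ((open_Wp _ _).preimage h.cont)
      ((open_Hl _).preimage h.cont) m).trans (sup_le_sup_left
        (Bs_mono (subset_univ _) Subset.rfl m) _)) le_sup_right this)
  choose u u1 u2 using key
  have ind : Ind (Bs univ (G ⁻¹' Hl M') m) e := he.ind_of (tw_AU G M ▸ preimage_mono sub)
    (tw_AU G M ▸ h.ac _ _ _ (by norm_num) (adm_Hl (open_Hl M') (mono_Hl M') sub)
      fun i a => absurd a (nH i))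
  refine ⟨u, u1, fun a ha => ind a (mem_of_add ?_ ha)⟩
  rw [← Finset.sum_add_distrib]
  exact sum_mem fun i _ => by
    rw [← smul_add]
    exact Submodule.smul_mem _ _ (Bs_mono Subset.rfl (preimage_mono sub) m (u2 i))

/-- The normal form for real critical values, for matrices with ones on the diagonal. -/
theorem ldatS1 : ∀ (E ι : Type) [TopologicalSpace E] [Fintype ι] (N : ℝ) (G : E → ℂ) (c : ι → ℝ)
    (m : ℕ) (L R : Matrix ι ι F), Sys G (fun i => c i) m → Bn N (fun i => c i) →
    (∀ i, L i i = 1) → (∀ i, R i i = 1) → LD G c m L →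
    LD (fun y => -cj G y) (fun i => -c i) m R → Dat N N G (fun i => c i) m L R :=
  fun _ _ _ _ _ _ _ _ _ _ h hb hL hR => ldat h hb
    (fun i a => one_ne_zero ((hL i).symm.trans (congrFun a i)))
    fun i a => one_ne_zero ((hR i).symm.trans (congrFun a i))

theorem ldatS : LDatS := ldatS1

end Pool.Agent.Lib.MP_837412_lc
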