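import Pool.Agent.Lib.MP_837412_lc.RSt
import Pool.Agent.Lib.MP_837412_lc.UP
import Pool.Agent.Lib.MP_837412_lc.UM
import Pool.Agent.Lib.MP_837412_lc.G5

/-!
The machine computes the labels of the critical values at the end of the pencil.
-/

namespace Pool.Agent.Lib.MP_837412_lc

open Set Function MvPolynomial

attribute [local irreducible] RPT RPB

namespace VLab

lemma sig_sub {ι κ : Type} [Fintype ι] [DecidableEq ι] [Fintype κ] [DecidableEq κ] (e : κ ≃ ι)
    (H : Matrix ι ι ℝ) : sig (H.submatrix e e) = sig H := by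
  have h : QuadraticMap.Equivalent H.toQuadraticForm' (H.submatrix e e).toQuadraticForm' :=
    ⟨⟨LinearEquiv.funCongrLeft ℝ ℝ e, fun v => by
      simp only [JSig.qf, dotProduct, Matrix.mulVec, Matrix.submatrix_apply]
      rw [← e.sum_comp]
      refine Finset.sum_congr rfl fun i _ => ?_
      rw [← e.sum_comp]
      rfl⟩⟩
  rw [sig, sig, h.sigPos_eq, h.sigNeg_eq]

lemma deg_sq' {σ : Type} {n d : ℕ} {P : Fin n → MvPolynomial σ ℝ} (h : ∀ j, (P j).totalDegree ≤ d) :
    (sq P).totalDegree ≤ 2 * n * d := by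
  refine (totalDegree_finsetProd _ _).trans ((Finset.sum_le_card_nsmul _ _ (2 * d) fun j _ =>
    (totalDegree_pow _ _).trans (Nat.mul_le_mul_left 2 (h j))).trans_eq ?_)
  rw [smul_eq_mul, Finset.card_univ, Fintype.card_fin]
  ring

lemma two_le {n d : ℕ} (j : Fin n) : 2 * d ≤ 2 * n * d :=
  Nat.mul_le_mul_right _ (by have := j.pos; omega)

/-- The family, extended by zero. -/
noncomputable def ex {σ : Type} {n : ℕ} (P : Fin n → MvPolynomial σ ℝ) (j : ℕ) :
    MvPolynomial σ ℝ := if h : j < n then P ⟨j, h⟩ else 0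

lemma up_ex {σ : Type} [Fintype σ] {n : ℕ} (P : Fin n → MvPolynomial σ ℝ) (j : ℕ) :
    (List.ofFn fun j => up (P j)).getD j 0 = up (ex P j) := by
  unfold ex
  split_ifs with h
  · simp [h]
  · simp [h]

lemma ofFn_ex {σ X : Type} {n : ℕ} (P : Fin n → MvPolynomial σ ℝ) (f : MvPolynomial σ ℝ → X) :
    ((List.range n).map fun j => f (ex P j)) = List.ofFn fun j => f (P j) := by
  refine List.ext_getElem (by simp) fun i h _ => ?_
  have h' : i < n := by simpa using h
  simp [ex, h']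

lemma ix_symm {σ : Type} [Fintype σ] (i : Fin (Fintype.card σ)) :
    ix ((Fintype.equivFin σ).symm i) = i := by simp [ix]

variable {α β : Type} [RE α] [RE β] {σ : α → Type} [∀ a, Fintype (σ a)] {m n d : α → ℕ}

lemma szc (h : Sz σ m) {f : β → α} (hf : RPT f) : Sz (fun b => σ (f b)) fun b => m (f b) :=
  ⟨h.card.comp' hf, h.deg.comp' hf, h.bd.comp hf, fun _ => h.le _⟩

lemma bds (h : Sz σ m) : (RPB fun a => Fintype.card (σ a)) ∧ RPB m ∧
    RPB fun a => (m a + 1) ^ Fintype.card (σ a) := by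
  classical
  exact ⟨h.bd.mono fun a => (Nat.le_self_pow two_ne_zero _).trans (sizes (h.le a)).2.2.2.2.2.1,
    h.bd.mono fun a => (Nat.le_succ _).trans (sizes (h.le a)).2.2.2.2.2.2,
    h.bd.mono fun a => (sizes (h.le a)).2.1⟩

lemma rpt_sq {P : ∀ a, Fin (n a) → MvPolynomial (σ a) ℝ} (hs : Sz σ m)
    (hb : ∀ a, 2 * n a * d a < m a ∧ ∀ j, (P a j).totalDegree ≤ d a)
    (hP : RPT fun a => List.ofFn fun j => up (P a j)) : RPT fun a => up (cx' (sq (P a))) := by
  obtain ⟨b1, b2, b3⟩ := bds hs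
  refine (RPT.mvProd (k := fun a => Fintype.card (σ a)) (D := fun a => min (2 * d a) (m a))
    (RPT.map (h := fun _ q => q ^ 2) hP (RPT.sq (.snd .id'))) (fun a q hq => ?_) b1
    (b2.min_right _) (b3.mono fun a => Nat.pow_le_pow_left ?_ _)).mvMapReal.of_eq fun a => ?_
  · obtain ⟨r, hr, rfl⟩ := List.mem_map.1 hq
    obtain ⟨j, rfl⟩ := List.mem_ofFn.1 hr
    have := two_le (d := d a) j
    have := (hb a).1
    exact (((box_up _).mono le_rfl ((hb a).2 j)).pow 2).mono le_rfl (by omega)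
  · rw [List.length_map, List.length_ofFn]
    have := Nat.mul_le_mul_left (n a) (min_le_left (2 * d a) (m a))
    have := (hb a).1
    nlinarith
  · rw [up_map, sq, up_prod, List.map_ofFn, List.prod_ofFn]
    simp only [up_pow, comp]

/-- The real part of the value of `h` at the critical point with the critical value `z`. -/
noncomputable def vl {σ : Type} [Fintype σ] [DecidableEq σ] {n : ℕ} (m : ℕ)
    (P : Fin n → MvPolynomial σ ℝ) (z : ℂ) (h : MvPolynomial σ ℂ) : ℝ :=
  (eval (cpv (Fe m P) z) h).re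

/-- The real part of the Hessian matrix, with numbered rows and columns. -/
noncomputable def he {σ : Type} [Fintype σ] [DecidableEq σ] {n : ℕ} (m : ℕ)
    (P : Fin n → MvPolynomial σ ℝ) (z : ℂ) : Matrix (Fin (Fintype.card σ)) (Fin (Fintype.card σ)) ℝ :=
  ((Hess (Fe m P) (cpv (Fe m P) z)).map Complex.re).submatrix (Fintype.equivFin σ).symm
    (Fintype.equivFin σ).symm

section

variable {σ : Type} [Fintype σ] [DecidableEq σ] {n : ℕ} (m : ℕ) (P : Fin n → MvPolynomial σ ℝ)
  (z : ℂ)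

lemma he_symm : (he m P z).IsSymm := ((hess_symm _ _).map _).submatrix _

lemma he_apply (i j : Fin (Fintype.card σ)) : vl m P z (pderiv ((Fintype.equivFin σ).symm i)
    (pderiv ((Fintype.equivFin σ).symm j) (Fe m P))) = he m P z i j := rfl

lemma labL_eq : (((List.range n).map fun j => SignType.sign (vl m P z (cx' (ex P j)))),
    (sig (he m P z)).2) = labL m P z := by
  rw [ofFn_ex P fun p => SignType.sign (vl m P z (cx' p)), he, sig_sub]
  rfl

end

attribute [local irreducible] vl he Fe Le ex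

variable [∀ a, DecidableEq (σ a)] {P : ∀ a, Fin (n a) → MvPolynomial (σ a) ℝ}

/-- The values at the critical points are computed. -/
def Ru (m : α → ℕ) (P : ∀ a, Fin (n a) → MvPolynomial (σ a) ℝ) : Prop :=
  ∀ (β : Type) [RE β] (f : β → α) (z : β → ℂ) (h : ∀ b, MvPolynomial (σ (f b)) ℂ), RPT f → RPT z →
    (∀ b, z b ∈ range (Le (m (f b)) (P (f b)))) → (∀ b, (h b).totalDegree ≤ m (f b) + 1) →
    (RPT fun b => up (h b)) → RPT fun b => vl (m (f b)) (P (f b)) (z b) (h b)

lemma signs (ru : Ru m P) (hb : ∀ a, 2 * n a * d a < m a ∧ ∀ j, (P a j).totalDegree ≤ d a)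
    (hP : RPT fun a => List.ofFn fun j => up (P a j)) {f : β → α} {z : β → ℂ} (hf : RPT f)
    (hz : RPT z) (h : ∀ b, z b ∈ range (Le (m (f b)) (P (f b)))) :
    RPT fun b => (List.range (n (f b))).map fun j =>
      SignType.sign (vl (m (f b)) (P (f b)) (z b) (cx' (ex (P (f b)) j))) := by
  have n1 : RPT n := hP.length.of_eq fun _ => List.length_ofFn
  have n2 : RPB n := (RPB.length hP).mono fun _ => List.length_ofFn.ge
  have f1 : RPT fun x : β × Un => f x.1 := hf.comp' (.fst .id')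
  have u : RPT fun x : β × Un => up (cx' (ex (P (f x.1)) x.2.val)) :=
    (RPT.getD (.unVal (.snd .id')) (hP.comp' f1) .zero).mvMapReal.of_eq fun x => by
      rw [up_map, up_ex]
  have v := ru (β × Un) (fun x => f x.1) (fun x => z x.1) (fun x => cx' (ex (P (f x.1)) x.2.val))
    f1 (hz.comp' (.fst .id')) (fun x => h x.1) (fun x => (deg_cx _).trans (by
      unfold ex
      split_ifs with h
      · have := two_le (d := d (f x.1)) ⟨_, h⟩
        have := (hb (f x.1)).1
        have := (hb (f x.1)).2 ⟨_, h⟩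
        omega
      · simp)) u
  exact RPT.map_range (n1.comp' hf) (n2.comp hf) v.sign

lemma entry (ru : Ru m P) (dF : ∀ a, (Fe (m a) (P a)).totalDegree ≤ m a + 1)
    (hF : RPT fun a => up (Fe (m a) (P a))) {f : β → α} {z : β → ℂ} (hf : RPT f) (hz : RPT z)
    (h : ∀ b, z b ∈ range (Le (m (f b)) (P (f b)))) {i j : ∀ b, Fin (Fintype.card (σ (f b)))}
    (hi : RPT fun b => (i b : ℕ)) (hj : RPT fun b => (j b : ℕ)) :
    RPT fun b => he (m (f b)) (P (f b)) (z b) (i b) (j b) := by
  have u : RPT fun b => up (pderiv ((Fintype.equivFin _).symm (i b))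
      (pderiv ((Fintype.equivFin _).symm (j b)) (Fe (m (f b)) (P (f b))))) :=
    (RPT.pderiv hi (RPT.pderiv hj (hF.comp' hf))).of_eq fun b => by
      rw [up_pderiv, up_pderiv, ix_symm, ix_symm]
  exact (ru β f z _ hf hz h (fun b => (totalDegree_pderiv_le _ _).trans
    ((totalDegree_pderiv_le _ _).trans (dF _))) u).of_eq fun b => he_apply _ _ _ _ _

lemma index (h1 : SigU) (ru : Ru m P) (hs : Sz σ m)
    (dF : ∀ a, (Fe (m a) (P a)).totalDegree ≤ m a + 1) (hF : RPT fun a => up (Fe (m a) (P a)))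
    {f : β → α} {z : β → ℂ} (hf : RPT f) (hz : RPT z)
    (h : ∀ b, z b ∈ range (Le (m (f b)) (P (f b)))) :
    RPT fun b => sig (he (m (f b)) (P (f b)) (z b)) := by
  have g : RPT fun x : {q : β × Un × Un // q.2.1.val < Fintype.card (σ (f q.1)) ∧
      q.2.2.val < Fintype.card (σ (f q.1))} => x.1 := .val .id'
  have e := entry ru dF hF (hf.comp' g.fst) (hz.comp' g.fst) (fun x => h _)
    (i := fun x => ⟨x.1.2.1.val, x.2.1⟩) (j := fun x => ⟨x.1.2.2.val, x.2.2⟩)
    g.snd.fst.unVal g.snd.snd.unVal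
  exact h1 β (fun b => Fintype.card (σ (f b))) (fun b => he (m (f b)) (P (f b)) (z b))
    (hs.card.comp' hf) ((bds hs).1.comp hf) (fun b => he_symm _ _ _) e

end VLab

open VLab in
theorem labU (h1 : SigU) (h2 : TypU) (h3 : FlU) (h4 : LamU) (h5 : RurU) (h6 : PathU) : LabU := by
  intro α _ σ _ _ m n d P hs hb hP
  have hq := rpt_sq hs hb hP
  have dc : ∀ a, (cx' (sq (P a))).totalDegree < m a := fun a =>
    ((deg_cx _).trans (deg_sq' (hb a).2)).trans_lt (hb a).1
  have hl : RPT fun a => (ls (m a) (cx' (sq (P a))) : ℂ) := (h6 α σ m _ hs dc hq).1.ofReal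
  have hF : RPT fun a => up (Fe (m a) (P a)) := ((h3 α σ m hs).2 _ _ hq hl).1
  have ru : Ru m P := fun β _ f z h hf hz hr dh uh =>
    (h5 β (fun b => σ (f b)) (fun b => m (f b)) (fun b => cx' (sq (P (f b)))) h
      (fun b => (ls (m (f b)) (cx' (sq (P (f b)))) : ℂ)) z (szc hs hf) (fun _ => dc _) dh
      (hq.comp' hf) uh (hl.comp' hf) hz
      fun b => ⟨hr b, all.mor_ls ((Nat.le_succ 2).trans (hs.le _)) (dc _)⟩).re
  obtain ⟨t1, t2⟩ := h2 α (ℤ × ℤ × List SignType × ℕ) (fun a => Std (σ a) (m a))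
    (fun a => Le (m a) (P a)) (fun a z => (sgn z.re, sgn z.im, labL (m a) (P a) z))
    (h4 α σ m _ _ hs dc hq hl)
  have q1 : RPT fun q : {q : α × ℂ // q.2 ∈ range (Le (m q.1) (P q.1))} => q.1.1 := .fst (.val .id')
  have q2 : RPT fun q : {q : α × ℂ // q.2 ∈ range (Le (m q.1) (P q.1))} => q.1.2 := .snd (.val .id')
  have u := ((signs ru hb hP q1 q2 fun q => q.2).pair (index h1 ru hs (fun a => deg_Fl (dc a) _) hF
    q1 q2 fun q => q.2).snd).of_eq fun q => labL_eq _ _ _
  exact ⟨hq, t1, t2 (q2.re.sgn.pair (q2.im.sgn.pair u))⟩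

end Pool.Agent.Lib.MP_837412_lc
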