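import Pool.Agent.Lib.MP_837412_lc.RSt
import Pool.Agent.Lib.MP_837412_lc.UP
import Pool.Agent.Lib.MP_837412_lc.UM
import Pool.Agent.Lib.MP_837412_lc.JCrit
import Pool.Agent.Lib.MP_837412_lc.JAlgA

/-!
The pencil, the critical values and the critical points on the machine.
-/

namespace Pool.Agent.Lib.MP_837412_lc

open Set Function MvPolynomial

attribute [local irreducible] RPT RPB

namespace VLam

/-- The start of the pencil with numbered variables. -/
noncomputable def FN (K : Type) [Field K] (k m : ℕ) : MvPolynomial ℕ K :=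
  ∑ i ∈ Finset.range k,
    (X i ^ (m + 1) - MvPolynomial.C (((m + 1) * (2 ^ i) ^ m : ℕ) : K) * X i) +
    MvPolynomial.C ((1 + (m + 1) * ∑ i ∈ Finset.range k, (2 ^ i) ^ (m + 1) : ℕ) : K)

lemma up_F0 (σ K : Type) [Fintype σ] [RCLike K] (m : ℕ) :
    up (F0 σ K m) = FN K (Fintype.card σ) m := by
  rw [F0, FN, up_add, up_sum, up_C, ← sum_ix (σ := σ), ← sum_ix (σ := σ)]
  simp only [up_sub, up_pow, up_mul, up_C, up_X]
  rfl

lemma lst_ix {σ X : Type} [Fintype σ] (f : ℕ → X) :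
    (List.range (Fintype.card σ)).map f = lst fun i : σ => f (ix i) := by
  refine List.ext_getElem (by simp [lst]) fun i _ _ => ?_
  simp [lst, ix]

variable {α : Type} [RE α]

lemma rpt_FN (K : Type) [Field K] [RE K] [RF K] {k m : α → ℕ} (hk : RPT k) (hk' : RPB k)
    (hm : RPT m) (hm' : RPB m) : RPT fun a => FN K (k a) (m a) := by
  unfold FN
  fun_prop

variable {σ : α → Type} [∀ a, Fintype (σ a)] {m : α → ℕ}

lemma bds (h : Sz σ m) : (RPB fun a => Fintype.card (σ a)) ∧ RPB m ∧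
    RPB fun a => m a ^ Fintype.card (σ a) := by
  refine ⟨h.bd.mono fun a => ?_, h.bd.mono fun a => ?_, h.bd.mono fun a => ?_⟩
  all_goals
    obtain ⟨k1, k2, -⟩ := JAlgA.kf_ge (σ := σ a) (m := m a)
    obtain ⟨k3, k4, -⟩ := JAlgA.sz_ge (le_refl (sz (σ a) (m a)))
  · omega
  · omega
  · exact (JAlgA.pow_le_W (by omega)).trans k4.le

lemma en_fst {ι : α → Type} {n : α → ℕ} {e : ∀ a, Fin (n a) ≃ ι a}
    {M : ∀ a, Matrix (ι a) (ι a) ℂ} (h : En n e M) :
    En (fun q : α × Un => n q.1) (fun q => e q.1) fun q => M q.1 :=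
  RPT.comp' (f := fun q : {q : (α × Un) × Un × Un // q.2.1.val < n q.1.1 ∧ q.2.2.val < n q.1.1} =>
    (⟨(q.1.1.1, q.1.2), q.2⟩ : {q : α × Un × Un // q.2.1.val < n q.1 ∧ q.2.2.val < n q.1})) h
    (by fun_prop)

end VLam

open VLam

theorem flU : FlU := by
  intro α _ σ _ m h
  obtain ⟨b1, b2, -⟩ := bds h
  have c1 := h.card
  have c2 := h.deg
  refine ⟨(rpt_FN ℝ c1 b1 c2 b2).of_eq fun a => (up_F0 _ _ _).symm, fun p l hp hl => ⟨?_, ?_⟩⟩
  · refine ((rpt_FN ℂ c1 b1 c2 b2).sub' ((RPT.mvC hl).mul hp)).of_eq fun a => ?_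
    rw [Fl, up_sub, up_mul, up_C, up_F0]
  · refine (RPT.map_range (h := fun a i => MvPolynomial.C (((2 ^ i) ^ m a : ℕ) : ℂ) +
      MvPolynomial.C (l a / (m a + 1 : ℕ)) * pderiv i (up (p a))) c1 b1
      (RPT.add (by fun_prop) (RPT.mul (by fun_prop) (RPT.pderiv (by fun_prop)
        (hp.comp' (f := fun q : α × Un => q.1) (by fun_prop)))))).of_eq fun a => ?_
    rw [lst_ix]
    simp only [qq, up_add, up_mul, up_C, up_pderiv]
    rfl

theorem lamU (h1 : FlU) (h2 : MMU) (h3 : MatU) : LamU := by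
  intro α _ σ _ _ m p l h dp hp hl
  obtain ⟨b1, -, b3⟩ := bds h
  obtain ⟨f1, f2⟩ := (h1 α σ m h).2 p l hp hl
  exact (h3 α (fun a => Std (σ a) (m a)) _ _ _ (h.deg.npow h.card b1) b3 (h2 α σ m _ _ h
    (fun a i => deg_qq (dp a) _ i) (fun a => deg_Fl (dp a) _) f2 f1)).1

theorem rurU (_h0 : ChiU) (h1 : FlU) (h2 : MMU) (h3 : MatU) : RurU := by
  intro α _ σ _ _ m p h l z hs dp dh hp hh hl hz hm
  obtain ⟨b1, -, b3⟩ := bds hs
  obtain ⟨f1, f2⟩ := (h1 α σ m hs).2 p l hp hl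
  have hn := hs.deg.npow hs.card b1
  have hM := h2 α σ m _ _ hs (fun a i => deg_qq (dp a) _ i) (fun a => deg_Fl (dp a) _) f2 f1
  have hH := h2 α σ m _ _ hs (fun a i => deg_qq (dp a) _ i) dh f2 hh
  have hc : RPT fun a => chi (Lam (m a) (p a) (l a)) := lamU h1 h2 h3 α σ m p l hs dp hp hl
  have ht := (h3 (α × Un) (fun q => Std (σ q.1) (m q.1)) _ _ _ (hn.comp' (by fun_prop))
    (b3.comp (by fun_prop)) (en_fst hM)).2 _ (fun q => q.2.val) (en_fst hH) (by fun_prop)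
    (by fun_prop)
  obtain ⟨g, hg⟩ : ∃ g : α → Polynomial ℂ, ∀ a, g a =
      chi (Lam (m a) (p a) (l a)) /ₘ (Polynomial.X - Polynomial.C (z a)) := ⟨_, fun _ => rfl⟩
  have gr : RPT g := (hc.divByMonic (RPT.polyX.sub' hz.polyC)).of_eq fun a => (hg a).symm
  refine ((RPT.sum_range (n := fun a => (g a).natDegree + 1) (h := fun a j => (g a).coeff j *
    (MM (m a) (qq (m a) (p a) (l a)) (h a) *
      MM (m a) (qq (m a) (p a) (l a)) (Fl (m a) (p a) (l a)) ^ j).trace) (by fun_prop)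
    (by fun_prop) (RPT.mul (by fun_prop) ht)).div (gr.eval hz)).of_eq fun x => ?_
  obtain ⟨⟨a, ha⟩, y, hy⟩ := hm x
  rw [← rurS nfS (σ x) (m x) (p x) (h x) (l x) y _ (dp x) (dh x) hy _ (Nat.lt_succ_self _), hg,
    ← ha, hy.cpv, Finset.sum_eq_single a, mul_div_cancel_right₀ _ (JAlgA.quot hy.inj a).1]
  · intro b _ hb
    rw [(JAlgA.quot hy.inj a).2 b hb, mul_zero]
  · simp

end Pool.Agent.Lib.MP_837412_lc
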