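import Pool.Agent.Lib.MP_837412_lc.RSt

/-!
Selection of a basis from a spanning family and the inverse matrix, on the machine.
-/

namespace Pool.Agent.Lib.MP_837412_lc

open Set Function

namespace VLin

/-- Chosen indices and coefficients. -/
abbrev St : Type := List ℕ × List (List ℝ)

/-- An entry of a table. -/
noncomputable def ent (L : List (List ℝ)) (s i : ℕ) : ℝ := (L.getD s []).getD i 0

/-- What is missing to the unit matrix. -/
noncomputable def P (v : List (List ℝ)) (w : St) (s t : ℕ) : ℝ :=
  (if s = t then 1 else 0) -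
    ∑ i ∈ Finset.range w.1.length, ent w.2 s i * ent v (w.1.getD i 0) t

/-- A vector times that matrix. -/
noncomputable def W (m : ℕ) (v : List (List ℝ)) (w : St) (x : List ℝ) (t : ℕ) : ℝ :=
  ∑ s ∈ Finset.range m, x.getD s 0 * P v w s t

/-- The vector `j` is added with the pivot `t`. -/
noncomputable def upd (m : ℕ) (v : List (List ℝ)) (w : St) (t j : ℕ) : St :=
  (w.1 ++ [j], (List.range m).map fun s => ((List.range w.1.length).map fun i =>
    ent w.2 s i - P v w s t / W m v w (v.getD j []) t *
      ∑ r ∈ Finset.range m, ent v j r * ent w.2 r i) ++ [P v w s t / W m v w (v.getD j []) t])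

open Classical in
/-- The first vector that does not vanish in the column `t`. -/
noncomputable def idx (m : ℕ) (v : List (List ℝ)) (w : St) (t : ℕ) : ℕ :=
  v.findIdx fun x => decide (W m v w x t ≠ 0)

/-- One round. -/
noncomputable def step (m : ℕ) (v : List (List ℝ)) (w : St) (t : ℕ) : St :=
  if idx m v w t < v.length then upd m v w t (idx m v w t) else w

/-- The state after `n` rounds. -/
noncomputable def run (m : ℕ) (v : List (List ℝ)) : ℕ → St
  | 0 => ([], List.replicate m [])
  | n + 1 => step m v (run m v n) n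

section PT

variable {α : Type} [RE α] {m s t j : α → ℕ} {v : α → List (List ℝ)} {w : α → St}

@[fun_prop] lemma pt_ent (hv : RPT v) (hs : RPT s) (ht : RPT t) :
    RPT fun a => ent (v a) (s a) (t a) := by unfold ent; fun_prop

@[fun_prop] lemma pt_P (hv : RPT v) (hw : RPT w) (hs : RPT s) (ht : RPT t) :
    RPT fun a => P (v a) (w a) (s a) (t a) := by unfold P; fun_prop

@[fun_prop] lemma pt_W {x : α → List ℝ} (hm : RPT m) (hb : RPB m) (hv : RPT v) (hw : RPT w)
    (hx : RPT x) (ht : RPT t) : RPT fun a => W (m a) (v a) (w a) (x a) (t a) := by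
  unfold W; fun_prop

@[fun_prop] lemma pt_upd (hm : RPT m) (hb : RPB m) (hv : RPT v) (hw : RPT w) (ht : RPT t)
    (hj : RPT j) : RPT fun a => upd (m a) (v a) (w a) (t a) (j a) := by
  unfold upd; fun_prop

@[fun_prop] lemma pt_idx (hm : RPT m) (hb : RPB m) (hv : RPT v) (hw : RPT w) (ht : RPT t) :
    RPT fun a => idx (m a) (v a) (w a) (t a) := by
  unfold idx; fun_prop

@[fun_prop] lemma pt_step (hm : RPT m) (hb : RPB m) (hv : RPT v) (hw : RPT w) (ht : RPT t) :
    RPT fun a => step (m a) (v a) (w a) (t a) := by
  unfold step; fun_prop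

end PT

variable {m s t j n : ℕ} {v : List (List ℝ)} {w : St}

lemma P_upd (hs : s < m) {r : ℕ} (hr : r < m) : P v (upd m v w t j) s r =
    P v w s r - P v w s t / W m v w (v.getD j []) t * W m v w (v.getD j []) r := by
  have e : W m v w (v.getD j []) r = ent v j r - ∑ i ∈ Finset.range w.1.length,
      (∑ q ∈ Finset.range m, ent v j q * ent w.2 q i) * ent v (w.1.getD i 0) r := by
    simp only [W, P, mul_sub, Finset.sum_sub_distrib, Finset.sum_mul, Finset.mul_sum, mul_ite,
      mul_one, mul_zero, Finset.sum_ite_eq', Finset.mem_range, hr, if_true, mul_assoc]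
    rw [Finset.sum_comm]
    rfl
  rw [e]
  generalize hc : P v w s t / W m v w (v.getD j []) t = c
  have e1 : ∀ i ∈ Finset.range w.1.length,
      ent (upd m v w t j).2 s i * ent v ((upd m v w t j).1.getD i 0) r = (ent w.2 s i -
        c * ∑ q ∈ Finset.range m, ent v j q * ent w.2 q i) * ent v (w.1.getD i 0) r := by
    intro i hi
    rw [Finset.mem_range] at hi
    rw [← hc]
    simp [upd, ent, hs, hi, List.getElem?_append_left]
  have e2 : ent (upd m v w t j).2 s w.1.length = c := by
    rw [← hc]
    simp [upd, ent, hs]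
  have e3 : (upd m v w t j).1.getD w.1.length 0 = j := by simp [upd]
  rw [P, show (upd m v w t j).1.length = w.1.length + 1 by simp [upd], Finset.sum_range_succ,
    Finset.sum_congr rfl e1, e2, e3, P]
  simp only [sub_mul, Finset.sum_sub_distrib, mul_assoc, ← Finset.mul_sum]
  ring

lemma W_upd (x : List ℝ) {r : ℕ} (hr : r < m) : W m v (upd m v w t j) x r =
    W m v w x r - W m v w x t / W m v w (v.getD j []) t * W m v w (v.getD j []) r := by
  rw [W, Finset.sum_congr rfl fun s hs => by rw [P_upd (Finset.mem_range.1 hs) hr]]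
  generalize W m v w (v.getD j []) t = a, W m v w (v.getD j []) r = b
  simp only [W, mul_sub, Finset.sum_sub_distrib, Finset.sum_div, Finset.sum_mul, mul_div_assoc,
    mul_assoc]

lemma shape (n : ℕ) : (run m v n).1.length ≤ n ∧ (∀ i ∈ (run m v n).1, i < v.length) ∧
    (run m v n).2.length = m ∧ ∀ x ∈ (run m v n).2, x.length = (run m v n).1.length := by
  induction n with
  | zero => simp +contextual [run]
  | succ n ih =>
    rw [run, step]
    split_ifs with h
    · refine ⟨by simpa [upd] using ih.1, fun i hi => ?_, by simp [upd], fun x hx => ?_⟩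
      · rcases List.mem_append.1 hi with e | e
        · exact ih.2.1 i e
        · rwa [List.mem_singleton.1 e]
      · obtain ⟨s, -, rfl⟩ := List.mem_map.1 hx
        simp [upd]
    · exact ⟨ih.1.trans n.le_succ, ih.2⟩

lemma van (hn : n ≤ m) : ∀ x ∈ v, ∀ r < n, W m v (run m v n) x r = 0 := by
  induction n with
  | zero => simp
  | succ n ih =>
    intro x hx r hr
    rw [run, step]
    split_ifs with h
    · rw [W_upd x (by omega)]
      have e : v.getD (idx m v (run m v n) n) [] = v[idx m v (run m v n) n] :=
        List.getD_eq_getElem _ _ h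
      rcases Nat.lt_succ_iff_lt_or_eq.1 hr with a | rfl
      · rw [ih (by omega) x hx r a, ih (by omega) _ (e ▸ List.getElem_mem h) r a]
        simp
      · have : W m v (run m v r) (v.getD (idx m v (run m v r) r) []) r ≠ 0 := by
          rw [e]
          exact of_decide_eq_true (List.findIdx_getElem (w := h))
        rw [div_mul_cancel₀ _ this, sub_self]
    · rcases Nat.lt_succ_iff_lt_or_eq.1 hr with a | rfl
      · exact ih (by omega) x hx r a
      · simpa using List.findIdx_eq_length.1 (le_antisymm List.findIdx_le_length (not_lt.1 h)) x hx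

lemma P_zero (h : Submodule.span ℝ {y : Fin m → ℝ | ∃ x ∈ v, y = fun t : Fin m => x.getD t 0} = ⊤)
    (hs : s < m) (ht : t < m) : P v (run m v m) s t = 0 := by
  have : ∀ y ∈ Submodule.span ℝ {y : Fin m → ℝ | ∃ x ∈ v, y = fun t : Fin m => x.getD t 0},
      ∑ q : Fin m, y q * P v (run m v m) q t = 0 := by
    intro y hy
    induction hy using Submodule.span_induction with
    | mem y hy =>
      obtain ⟨x, hx, rfl⟩ := hy
      have := van le_rfl x hx t ht
      rwa [W, Finset.sum_range] at this
    | zero => simp
    | add x y _ _ a b => simp [add_mul, Finset.sum_add_distrib, a, b]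
    | smul c x _ a => simp [mul_assoc, ← Finset.mul_sum, a]
  simpa [Pi.single_apply] using this (Pi.single ⟨s, hs⟩ 1) (h ▸ Submodule.mem_top)

end VLin

open VLin in
theorem linU : LinU := by
  refine ⟨fun m v => run m v m, ?_, fun m v => ⟨(shape m).1, (shape m).2.1, (shape m).2.2.1,
    (shape m).2.2.2, fun h s hs t ht => (sub_eq_zero.1 (P_zero h hs ht)).symm⟩⟩
  refine RPT.seq (u := fun (q : Un × List (List ℝ)) i => run q.1.val q.2 i)
    (f := fun q w i => step q.1.val q.2 w i)
    (B := fun q => 2 * (q.1.val * (2 * q.2.length + 1)) + 1 + q.1.val * (2 * (q.1.val * 3) + 1))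
    (by fun_prop) (by fun_prop) (by fun_prop) (by unfold run; fun_prop) (fun _ _ _ => rfl)
    (by fun_prop) fun q i hi => ?_
  obtain ⟨a1, a2, a3, a4⟩ := shape (m := q.1.val) (v := q.2) i
  have b1 := (rsz_list_le fun x hx => (rsz_nat_le x).trans (a2 x hx).le).trans
    (Nat.mul_le_mul_right _ (a1.trans hi))
  have b2 := rsz_list_le (B := q.1.val * 3) fun x hx => (rsz_list_le (l := x) (B := 1)
    (by simp)).trans (Nat.mul_le_mul_right _ ((a4 x hx).le.trans (a1.trans hi)))
  rw [a3] at b2
  rw [rsz_prod]
  omega

end Pool.Agent.Lib.MP_837412_lc
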