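import Pool.Agent.Lib.MP_837412_lc.RSt
import Pool.Agent.Lib.MP_837412_lc.UM
import Pool.Agent.Lib.MP_837412_lc.JAlgA

/-!
The machine computes the entries of the multiplication matrices.
-/

namespace Pool.Agent.Lib.MP_837412_lc

open Set Function MvPolynomial

attribute [local irreducible] RPT RPB

namespace VMM

/-- The first variable with a large exponent. -/
def pj (k m : ℕ) (b : ℕ →₀ ℕ) : ℕ := (List.range k).findIdx fun i => decide (m ≤ b i)

/-- One step of the reduction, for the coefficient of `t`. -/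
noncomputable def st (k m : ℕ) (Q : List (MvPolynomial ℕ ℂ)) (t : ℕ →₀ ℕ) (g : (ℕ →₀ ℕ) → ℂ)
    (b : ℕ →₀ ℕ) : ℂ :=
  if pj k m b < k then ∑ c ∈ (Q.getD (pj k m b) 0).support,
    coeff c (Q.getD (pj k m b) 0) * g (b - Finsupp.single (pj k m b) m + c)
  else if b = t then 1 else 0

/-- The coefficient of `t` in the normal form. -/
noncomputable def nf (k m : ℕ) (Q : List (MvPolynomial ℕ ℂ)) (t : ℕ →₀ ℕ) : ℕ → (ℕ →₀ ℕ) → ℂ
  | 0 => fun b => if b = t then 1 else 0
  | n + 1 => st k m Q t (nf k m Q t n)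

/-- Exponent vectors of small degree. -/
noncomputable def dom (k K : ℕ) : List (ℕ →₀ ℕ) := (mons k K).filter fun b => b.degree ≤ K

/-- An entry of a table. -/
noncomputable def look (L : List (ℕ →₀ ℕ)) (s : List ℂ) (b : ℕ →₀ ℕ) : ℂ :=
  s.getD (L.findIdx fun c => decide (c = b)) 0

/-- The exponent vector of the digits. -/
noncomputable def dig (k m x : ℕ) : ℕ →₀ ℕ :=
  ∑ i ∈ Finset.range k, Finsupp.single i (x / m ^ i % m)

lemma mem_dom {k K : ℕ} {b : ℕ →₀ ℕ} : b ∈ dom k K ↔ bnd b ≤ k ∧ b.degree ≤ K := by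
  simp only [dom, List.mem_filter, mem_mons, decide_eq_true_eq]
  exact ⟨fun h => ⟨h.1.1, h.2⟩, fun h => ⟨⟨h.1, fun i => (Finsupp.le_degree i b).trans h.2⟩, h.2⟩⟩

lemma look_map {L : List (ℕ →₀ ℕ)} (g : (ℕ →₀ ℕ) → ℂ) {b : ℕ →₀ ℕ} (h : b ∈ L) :
    look L (L.map g) b = g b := by
  have a : L.findIdx (fun c => decide (c = b)) < L.length :=
    List.findIdx_lt_length_of_exists ⟨b, h, by simp⟩
  rw [look, List.getD_eq_getElem _ _ (by simpa using a), List.getElem_map,
    of_decide_eq_true (List.findIdx_getElem (w := a))]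

lemma pj_spec {k m : ℕ} {b : ℕ →₀ ℕ} (h : pj k m b < k) : m ≤ b (pj k m b) := by
  have := List.findIdx_getElem (p := fun i => decide (m ≤ b i)) (xs := List.range k)
    (w := by simpa [pj] using h)
  simpa [pj] using this

lemma st_look {k m K : ℕ} {Q : List (MvPolynomial ℕ ℂ)} (hQ : ∀ j, Box k m (Q.getD j 0))
    (t : ℕ →₀ ℕ) (g : (ℕ →₀ ℕ) → ℂ) {b : ℕ →₀ ℕ} (hb : b ∈ dom k K) :
    st k m Q t (look (dom k K) ((dom k K).map g)) b = st k m Q t g b := by
  unfold st
  split_ifs with h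
  · refine Finset.sum_congr rfl fun c hc => ?_
    rw [look_map]
    have a := box_iff.1 (hQ _) c hc
    have e := congrArg Finsupp.degree (tsub_add_cancel_of_le (Finsupp.single_le_iff.2 (pj_spec h)))
    rw [map_add, Finsupp.degree_single] at e
    rw [mem_dom] at hb ⊢
    rw [bnd_add, map_add]
    exact ⟨max_le ((bnd_mono tsub_le_self).trans hb.1) a.1, by omega⟩
  all_goals rfl

section

variable {σ : Type} [Fintype σ] {m : ℕ}

lemma getD_lst {X : Type} (f : σ → X) (i : σ) (x : X) : (lst f).getD (ix i) x = f i := by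
  simp [lst, ix]

lemma box_lst {q : σ → MvPolynomial σ ℂ} (h : ∀ i, (q i).totalDegree < m) (j : ℕ) :
    Box (Fintype.card σ) m ((lst fun i => up (q i)).getD j 0) := by
  rcases lt_or_ge j (Fintype.card σ) with a | a
  · obtain ⟨i, rfl⟩ := exists_ix a
    rw [getD_lst]
    exact (box_up _).mono le_rfl (h i).le
  · rw [List.getD_eq_default _ _ (by simpa [lst] using a)]
    exact .zero

lemma sum_up (p : MvPolynomial σ ℂ) (g : (ℕ →₀ ℕ) → ℂ) :
    ∑ c ∈ (up p).support, coeff c (up p) * g c =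
      ∑ c ∈ p.support, coeff c p * g (c.mapDomain ix) := by
  rw [support_up, Finset.sum_image (Finsupp.mapDomain_injective ix_injective).injOn]
  simp only [coeff_up]

lemma pj_eq {b : σ →₀ ℕ} (h : ∃ i, m ≤ b i) :
    pj (Fintype.card σ) m (b.mapDomain ix) = ix (pk h) := by
  rw [pj, List.findIdx_eq (by simpa using ix_lt _)]
  refine ⟨by simpa [Finsupp.mapDomain_apply ix_injective] using pk_spec h, fun j hj => ?_⟩
  obtain ⟨i, rfl⟩ := exists_ix (hj.trans (ix_lt _))
  simpa [Finsupp.mapDomain_apply ix_injective] using lt_of_not_ge fun a => hj.not_ge (pk_le h a)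

lemma nf_eq (q : σ → MvPolynomial σ ℂ) (a : Std σ m) (n : ℕ) (b : σ →₀ ℕ) :
    nf (Fintype.card σ) m (lst fun i => up (q i)) ((toF a).mapDomain ix) n (b.mapDomain ix) =
      NF m q n b a := by
  have inj := (Finsupp.mapDomain_injective (M := ℕ) (ix_injective (σ := σ))).eq_iff
    (a := b) (b := toF a)
  induction n generalizing b with
  | zero => simp only [nf, NF, inj]; congr
  | succ n ih =>
    by_cases h : ∃ i, m ≤ b i
    · simp only [nf, st, NF, dif_pos h, pj_eq h, if_pos (ix_lt _), getD_lst, sum_up]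
      refine Finset.sum_congr rfl fun c _ => ?_
      rw [← ih _ (Finsupp.mapDomain_injective ix_injective).eq_iff, Finsupp.mapDomain_add,
        Finsupp.mapDomain_tsub ix_injective, Finsupp.mapDomain_single]
    · have e : ¬ pj (Fintype.card σ) m (b.mapDomain ix) < Fintype.card σ := fun e => by
        have := pj_spec e
        obtain ⟨i, hi⟩ := exists_ix e
        rw [← hi, Finsupp.mapDomain_apply ix_injective] at this
        exact h ⟨i, this⟩
      simp only [nf, st, NF, dif_neg h, if_neg e, inj]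
      congr

lemma dig_eq (x : Fin (m ^ Fintype.card σ)) :
    (toF (stdE σ m x)).mapDomain ix = dig (Fintype.card σ) m x := by
  rw [dig, ← sum_ix, Finsupp.mapDomain, Finsupp.sum_fintype _ _ fun _ => Finsupp.single_zero _]
  exact Finset.sum_congr rfl fun i _ =>
    congrArg _ (finFunctionFinEquiv_symm_apply_val x (Fintype.equivFin σ i))

lemma mm_eq {q : σ → MvPolynomial σ ℂ} {h : MvPolynomial σ ℂ} (dh : h.totalDegree ≤ m + 1)
    (x y : Fin (m ^ Fintype.card σ)) : ∑ c ∈ (up h).support, coeff c (up h) *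
      look (dom (Fintype.card σ) (Kf σ m)) ((dom (Fintype.card σ) (Kf σ m)).map
        (nf (Fintype.card σ) m (lst fun i => up (q i)) (dig (Fintype.card σ) m y) (Kf σ m)))
        (dig (Fintype.card σ) m x + c) = MM m q h (stdE σ m x) (stdE σ m y) := by
  rw [sum_up]
  refine Finset.sum_congr rfl fun c hc => ?_
  rw [← dig_eq, ← dig_eq, ← Finsupp.mapDomain_add, look_map, nf_eq]
  refine mem_dom.2 ⟨bnd_mapDomain fun i _ => ix_lt i, ?_⟩
  rw [Finsupp.degree_mapDomain, Finsupp.degree_eq_sum]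
  exact JAlgA.mem_dk.1 (JAlgA.toF_dk _ (JAlgA.support_dk dh hc))

end

variable {α : Type} [RE α] {k m K x : α → ℕ} {b t : α → ℕ →₀ ℕ}
  {Q : α → List (MvPolynomial ℕ ℂ)} {L : α → List (ℕ →₀ ℕ)} {s : α → List ℂ}

@[fun_prop] theorem pj' (hk : RPT k) (kb : RPB k) (hm : RPT m) (hb : RPT b) :
    RPT fun a => pj (k a) (m a) (b a) := by
  unfold pj; fun_prop

@[fun_prop] theorem pj_b (kb : RPB k) : RPB fun a => pj (k a) (m a) (b a) :=
  kb.mono fun _ => List.findIdx_le_length.trans_eq List.length_range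

@[fun_prop] theorem look' (hL : RPT L) (hs : RPT s) (hb : RPT b) :
    RPT fun a => look (L a) (s a) (b a) := by
  unfold look; fun_prop

@[fun_prop] theorem dig' (hk : RPT k) (kb : RPB k) (hm : RPT m) (hx : RPT x) (xb : RPB x) :
    RPT fun a => dig (k a) (m a) (x a) :=
  RPT.sum_range hk kb (RPT.single (by fun_prop) (by fun_prop) (by fun_prop) (by fun_prop))

theorem dom' (hk : RPT k) (kb : RPB k) (hK : RPT K) (Kb : RPB K)
    (h : RPB fun a => (K a + 1) ^ k a) : RPT fun a => dom (k a) (K a) :=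
  RPT.filter (RPT.mons hk kb hK Kb h) (by fun_prop)

theorem st' (hk : RPT k) (kb : RPB k) (hm : RPT m) (mb : RPB m) (hQ : RPT Q) (ht : RPT t)
    (hL : RPT L) (hs : RPT s) (hb : RPT b) :
    RPT fun a => st (k a) (m a) (Q a) (t a) (look (L a) (s a)) (b a) :=
  RPT.ite (by fun_prop) (RPT.sum_support (by fun_prop) (by fun_prop)) (by fun_prop)

theorem tab (hk : RPT k) (kb : RPB k) (hm : RPT m) (mb : RPB m) (hK : RPT K) (Kb : RPB K)
    (h : RPB fun a => (K a + 1) ^ k a) (hQ : RPT Q) (ht : RPT t)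
    (box : ∀ a j, Box (k a) (m a) ((Q a).getD j 0)) :
    RPT fun a => (dom (k a) (K a)).map (nf (k a) (m a) (Q a) (t a) (K a)) := by
  have d := dom' hk kb hK Kb h
  refine RPT.seq (u := fun a i => (dom (k a) (K a)).map (nf (k a) (m a) (Q a) (t a) i))
    (f := fun a s _ => (dom (k a) (K a)).map
      (st (k a) (m a) (Q a) (t a) (look (dom (k a) (K a)) s)))
    (RPT.map (d.comp' (by fun_prop)) (st' (by fun_prop) (by fun_prop) (by fun_prop) (by fun_prop)
      (by fun_prop) (by fun_prop) (d.comp' (by fun_prop)) (by fun_prop) (by fun_prop))) hK Kb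
    (RPT.map d (by unfold nf; fun_prop))
    (fun a i _ => List.map_congr_left fun b hb => (st_look (box a) _ _ hb).symm)
    (B := fun a => (dom (k a) (K a)).length * 9) ((RPB.length d).mul (.const 9)) fun a i _ => ?_
  simpa using rsz_list_le (l := (dom (k a) (K a)).map (nf (k a) (m a) (Q a) (t a) i)) (B := 4)
    (by simp)

end VMM

open VMM in
theorem mmU : MMU := by
  intro α _ σ _ m q h hs dq dh hq hh
  have hk := hs.card
  have hm := hs.deg
  have Kb : RPB fun a => Kf (σ a) (m a) := hs.bd.mono fun a => (JAlgA.sz_ge le_rfl).1.le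
  have kb : RPB fun a => Fintype.card (σ a) :=
    Kb.mono fun a => (Nat.le_succ _).trans JAlgA.kf_ge.2.1
  have mb : RPB m := Kb.mono fun a => (Nat.le_succ _).trans JAlgA.kf_ge.1
  have hK : RPT fun a => Kf (σ a) (m a) := (hk.nadd (.const 1)).nmul (hm.nadd (.const 1))
  have hb : RPB fun a => (Kf (σ a) (m a) + 1) ^ Fintype.card (σ a) :=
    hs.bd.mono fun a => (JAlgA.sz_ge le_rfl).2.1.le
  have f : RPT fun x : {x : α × Un × Un // x.2.1.val < m x.1 ^ Fintype.card (σ x.1) ∧
      x.2.2.val < m x.1 ^ Fintype.card (σ x.1)} => x.1.1 := by fun_prop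
  have t := tab (hk.comp' f) (kb.comp f) (hm.comp' f) (mb.comp f) (hK.comp' f) (Kb.comp f)
    (hb.comp f) (hq.comp' f) (dig' (hk.comp' f) (kb.comp f) (hm.comp' f)
      (x := fun x => x.1.2.2.val) (by fun_prop) (by fun_prop)) fun x => box_lst (dq x.1.1)
  have d := dig' (hk.comp' f) (kb.comp f) (hm.comp' f) (x := fun x => x.1.2.1.val) (by fun_prop)
    (by fun_prop)
  exact (RPT.sum_support (hh.comp' f) (RPT.mul
    (RPT.mvCoeff (.snd .id') ((hh.comp' f).comp' (.fst .id')))
    (look' (((dom' hk kb hK Kb hb).comp' f).comp' (.fst .id')) (t.comp' (.fst .id'))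
      ((d.comp' (.fst .id')).add (.snd .id'))))).of_eq
    fun x => mm_eq (dh x.1.1) ⟨_, x.2.1⟩ ⟨_, x.2.2⟩

end Pool.Agent.Lib.MP_837412_lc
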