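import Pool.Agent.Lib.MP_837412_lc.RSt
import Pool.Agent.Lib.MP_837412_lc.JMat

/-!
Traces of powers and eigenvalues of a matrix on the machine.
-/

namespace Pool.Agent.Lib.MP_837412_lc

open Finset

namespace VMat

section Tab

variable {ι : Type} {n : ℕ} (e : Fin n ≃ ι)

/-- The entries of a matrix. -/
noncomputable def ent (M : Matrix ι ι ℂ) (x y : ℕ) : ℂ :=
  if h : x < n ∧ y < n then M (e ⟨x, h.1⟩) (e ⟨y, h.2⟩) else 0

/-- A square table. -/
def mk (n : ℕ) (f : ℕ → ℕ → ℂ) : List (List ℂ) :=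
  (List.range n).map fun x => (List.range n).map fun y => f x y

/-- An entry of a table. -/
noncomputable def get (t : List (List ℂ)) (x y : ℕ) : ℂ := (t.getD x []).getD y 0

lemma get_mk {f : ℕ → ℕ → ℂ} {x y : ℕ} (hx : x < n) (hy : y < n) : get (mk n f) x y = f x y := by
  simp [get, mk, hx, hy]

lemma mk_congr {f g : ℕ → ℕ → ℂ} (h : ∀ x < n, ∀ y < n, f x y = g x y) : mk n f = mk n g :=
  List.map_congr_left fun x hx => List.map_congr_left fun y hy =>
    h x (List.mem_range.1 hx) y (List.mem_range.1 hy)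

lemma rsz_mk (f : ℕ → ℕ → ℂ) : rsz (mk n f) ≤ n * (2 * (n * 9) + 1) := by
  refine (rsz_list_le (B := n * 9) fun l hl => ?_).trans (by simp [mk])
  obtain ⟨x, -, rfl⟩ := List.mem_map.1 hl
  exact (rsz_list_le (B := 4) fun z _ => (rsz_complex z).le).trans (by simp)

variable [Fintype ι]

lemma sum_e (f : ι → ℂ) (g : ℕ → ℂ) (h : ∀ k : Fin n, f (e k) = g k) :
    ∑ i, f i = ∑ k ∈ range n, g k := by
  rw [← e.sum_comp, sum_range]
  exact sum_congr rfl fun k _ => h k

lemma mk_mul (M N : Matrix ι ι ℂ) : mk n (ent e (M * N)) =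
    mk n fun x y => ∑ k ∈ range n, get (mk n (ent e M)) x k * get (mk n (ent e N)) k y :=
  mk_congr fun x hx y hy => by
    rw [ent, dif_pos ⟨hx, hy⟩, Matrix.mul_apply]
    exact sum_e e _ _ fun k => by
      rw [get_mk hx k.2, get_mk k.2 hy, ent, ent, dif_pos ⟨hx, k.2⟩, dif_pos ⟨k.2, hy⟩]

lemma trace_eq (M : Matrix ι ι ℂ) : M.trace = ∑ k ∈ range n, get (mk n (ent e M)) k k :=
  sum_e e _ _ fun k => by rw [get_mk k.2 k.2, ent, dif_pos ⟨k.2, k.2⟩]; rfl

omit [Fintype ι] in
lemma mk_one [DecidableEq ι] :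
    mk n (ent e 1) = mk n fun x y => if x = y then 1 else 0 :=
  mk_congr fun x hx y hy => by
    rw [ent, dif_pos ⟨hx, hy⟩, Matrix.one_apply]
    simp

end Tab

variable {α : Type} [RE α] {ι : α → Type} {n : α → ℕ} {e : ∀ a, Fin (n a) ≃ ι a}
  {M N : ∀ a, Matrix (ι a) (ι a) ℂ}

@[fun_prop] lemma rpt_get {t : α → List (List ℂ)} {x y : α → ℕ} (ht : RPT t) (hx : RPT x)
    (hy : RPT y) : RPT fun a => get (t a) (x a) (y a) := by
  unfold get
  fun_prop

lemma rpt_mk {f : α → ℕ → ℕ → ℂ} (hn : RPT n) (hb : RPB n)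
    (h : RPT fun q : (α × Un) × Un => f q.1.1 q.1.2.val q.2.val) :
    RPT fun a => mk (n a) (f a) :=
  RPT.map_range hn hb (RPT.map_range (h := fun (p : α × Un) y => f p.1 p.2.val y)
    (by fun_prop) (by fun_prop) h)

lemma rpt_en (hn : RPT n) (hb : RPB n) (h : En n e M) :
    RPT fun a => mk (n a) (ent (e a) (M a)) := by
  refine rpt_mk hn hb (RPT.branch (p := fun q : (α × Un) × Un =>
    q.1.2.val < n q.1.1 ∧ q.2.val < n q.1.1) (i := fun _ => inferInstance)
    (RPT.decide_and (i := fun _ => inferInstance) (j := fun _ => inferInstance) (by fun_prop)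
      (by fun_prop)) ?_ (RPT.zero.of_eq fun q => by rw [ent, dif_neg q.2]))
  exact (RPT.comp' h (f := fun q : {q : (α × Un) × Un // q.1.2.val < n q.1.1 ∧ q.2.val < n q.1.1} =>
    ⟨(q.1.1.1, q.1.1.2, q.1.2), q.2⟩) (by fun_prop)).of_eq fun q => by
      rw [ent, dif_pos q.2]

variable [∀ a, Fintype (ι a)] [∀ a, DecidableEq (ι a)]

lemma rpt_tr {j : α → ℕ} (hn : RPT n) (hb : RPB n) (hM : RPT fun a => mk (n a) (ent (e a) (M a)))
    (hN : RPT fun a => mk (n a) (ent (e a) (N a))) (hj : RPT j) (hj' : RPB j) :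
    RPT fun a => (N a * M a ^ j a).trace := by
  have st : RPT fun p : α × List (List ℂ) => mk (n p.1) fun x y =>
      ∑ k ∈ range (n p.1), get p.2 x k * get (mk (n p.1) (ent (e p.1) (M p.1))) k y :=
    rpt_mk (by fun_prop) (by fun_prop) (RPT.sum_range (by fun_prop) (by fun_prop)
      ((rpt_get (by fun_prop) (by fun_prop) (by fun_prop)).mul
        (rpt_get (hM.comp' (by fun_prop)) (by fun_prop) (by fun_prop))))
  have k := RPT.seq (u := fun a i => mk (n a) (ent (e a) (N a * M a ^ i)))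
    (f := fun a s _ => mk (n a) fun x y =>
      ∑ k ∈ range (n a), get s x k * get (mk (n a) (ent (e a) (M a))) k y)
    (st.comp' (f := fun p : {p : α × List (List ℂ) × Un // _} => (p.1.1, p.1.2.1)) (by fun_prop))
    hj hj' (by simpa using hN) (fun a i _ => by rw [pow_succ, ← mul_assoc, mk_mul])
    (B := fun a => n a * (2 * (n a * 9) + 1)) (by fun_prop) fun a i _ => rsz_mk _
  exact (RPT.sum_range hn hb (rpt_get (k.comp' (by fun_prop)) (by fun_prop)
    (by fun_prop))).of_eq fun a => (trace_eq _ _).symm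

end VMat

open VMat in
theorem matU (h : ChiU) : MatU := by
  intro α _ ι _ _ n e M hn hb hM
  have t := rpt_en hn hb hM
  have c : ∀ a, n a = Fintype.card (ι a) := fun a => by
    rw [← Fintype.card_congr (e a), Fintype.card_fin]
  refine ⟨h.of_ps (hn.of_eq c) (hb.mono fun a => (c a).ge) ?_,
    fun N j hN => rpt_tr hn hb t (rpt_en hn hb hN)⟩
  refine (rpt_tr (e := fun q : α × Un => e q.1) (M := fun q => M q.1) (N := fun _ => 1)
    (j := fun q => q.2.val) (by fun_prop) (by fun_prop) (t.comp' (by fun_prop))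
    ((rpt_mk (f := fun _ x y => if x = y then 1 else 0) (by fun_prop) (by fun_prop)
      (by fun_prop)).of_eq fun q => (mk_one _).symm) (by fun_prop) (by fun_prop)).of_eq
    fun q => by rw [one_mul, trS]

end Pool.Agent.Lib.MP_837412_lc
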