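import Pool.Agent.Lib.MP_837412_lc.USt

/-!
The polynomial in one variable at the start of the tracking.
-/

namespace Pool.Agent.Lib.MP_837412_lc

open Set Function Polynomial

namespace VOne

lemma monic_d0 (m : ℕ) : (d0 m).Monic := monic_prod_X_sub_C _ _

lemma natDegree_d0 (m : ℕ) : (d0 m).natDegree = m := by
  rw [d0, natDegree_finsetProd_X_sub_C_eq_card, Finset.card_range]

lemma coeff_g0 (m i : ℕ) : (g0 m).coeff (i + 1) = (m + 1) * (d0 m).coeff i / (i + 1) := by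
  rw [g0, finsetSum_coeff, Finset.sum_eq_single i]
  · rw [coeff_monomial, if_pos rfl]
  · intro j _ hj
    rw [coeff_monomial, if_neg (by omega)]
  · intro hi
    rw [coeff_monomial, if_pos rfl, coeff_eq_zero_of_natDegree_lt (by
      rw [natDegree_d0]; simpa using hi)]
    simp

lemma deriv_g0 (m : ℕ) : derivative (g0 m) = C (m + 1 : ℝ) * d0 m := by
  ext i
  rw [coeff_derivative, coeff_g0, coeff_C_mul, div_mul_cancel₀ _ (by positivity)]

lemma coeff_pred (n : ℕ) : (d0 (n + 1)).coeff n = 0 := by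
  have h := prod_X_sub_C_coeff_card_pred (Finset.range (n + 1)) (r0 (n + 1)) (by simp)
  rw [Finset.card_range, Nat.add_sub_cancel] at h
  rw [d0, h, neg_eq_zero]
  have g := geom_sum_mul (2 : ℝ) (n + 1)
  simp only [r0, Finset.sum_sub_distrib, Finset.sum_const, Finset.card_range, nsmul_eq_mul]
  rw [mul_div_cancel₀ _ (by positivity)]
  linarith

lemma deg_lt {m : ℕ} (hm : 1 ≤ m) : (g0 m - X ^ (m + 1)).natDegree < m := by
  obtain ⟨n, rfl⟩ : ∃ n, m = n + 1 := ⟨m - 1, by omega⟩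
  refine Nat.lt_succ_of_le (natDegree_le_iff_coeff_eq_zero.2 fun N hN => ?_)
  obtain ⟨i, rfl⟩ : ∃ i, N = i + 1 := ⟨N - 1, by omega⟩
  rw [coeff_sub, coeff_g0, coeff_X_pow]
  rcases lt_trichotomy i (n + 1) with h | h | h
  · rw [show i = n by omega, coeff_pred, if_neg (by omega)]; simp
  · have e := (monic_d0 (n + 1)).coeff_natDegree
    rw [natDegree_d0] at e
    rw [h, e, if_pos rfl, mul_one, div_self (by positivity), sub_self]
  · rw [coeff_eq_zero_of_natDegree_lt (by rw [natDegree_d0]; exact h), if_neg (by omega)]; simp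

/-- The polynomial with critical points at the powers of two. -/
noncomputable def G (m : ℕ) (x : ℝ) : ℝ := (g0 m).eval (x - (2 ^ m - 1) / m)

lemma G_pow (m j : ℕ) : G m (2 ^ j) = v0 m j := rfl

lemma hasDerivAt_G (m : ℕ) (x : ℝ) :
    HasDerivAt (G m) ((m + 1) * ∏ i ∈ Finset.range m, (x - 2 ^ i)) x := by
  have h := ((g0 m).hasDerivAt (x - (2 ^ m - 1) / m)).comp_sub_const x ((2 ^ m - 1) / m)
  rw [deriv_g0, eval_mul, eval_C, d0, eval_prod] at h
  exact h.congr_deriv (by simp [r0])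

lemma sign_prod {j : ℕ} {x : ℝ} (h1 : 2 ^ j < x) (h2 : x < 2 ^ (j + 1)) (c : ℕ) :
    0 < (-1) ^ c * ∏ i ∈ Finset.range (j + 1 + c), (x - 2 ^ i) := by
  induction c with
  | zero =>
    rw [pow_zero, one_mul]
    exact Finset.prod_pos fun i hi => sub_pos.2
      ((pow_le_pow_right₀ one_le_two (by simpa [Nat.lt_succ_iff] using hi)).trans_lt h1)
  | succ c ih =>
    rw [← add_assoc, Finset.prod_range_succ, pow_succ]
    have : x < 2 ^ (j + 1 + c) := h2.trans_le (pow_le_pow_right₀ one_le_two (by omega))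
    have := mul_pos ih (sub_pos.2 this)
    linarith

lemma pow_lt (j : ℕ) : (2 : ℝ) ^ j < 2 ^ (j + 1) := pow_lt_pow_right₀ one_lt_two j.lt_succ_self

lemma first {m : ℕ} (hm : Odd m) : v0 m 0 < v0 m 1 := by
  obtain ⟨c, rfl⟩ := hm
  obtain ⟨x, hx, e⟩ := exists_hasDerivAt_eq_slope (G (2 * c + 1)) _ (pow_lt 0)
    (fun x _ => (hasDerivAt_G _ x).continuousAt.continuousWithinAt) fun x _ => hasDerivAt_G _ x
  have h := sign_prod hx.1 hx.2 (2 * c)
  rw [pow_mul, neg_one_sq, one_pow, one_mul, show 0 + 1 + 2 * c = 2 * c + 1 by ring] at h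
  have h2 := mul_pos (show (0 : ℝ) < ((2 * c + 1 : ℕ) : ℝ) + 1 by positivity) h
  rw [e, G_pow, G_pow] at h2
  exact sub_pos.1 ((div_pos_iff_of_pos_right (sub_pos.2 (pow_lt 0))).1 h2)

lemma step (j c : ℕ) : 0 < (-1) ^ c * (v0 (j + 1 + c + 1) (j + 2) - v0 (j + 1 + c + 1) j) := by
  set n := j + 1 + c with hn
  have d : ∀ x, HasDerivAt (fun x => G (n + 1) (2 * x) + G (n + 1) x)
      (((n + 1 : ℕ) + 1) * (∏ i ∈ Finset.range n, (x - 2 ^ i)) *
        (2 ^ n * (4 * x - 3) + x)) x := fun x => by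
    have h := ((hasDerivAt_G (n + 1) (2 * x)).comp x ((hasDerivAt_id x).const_mul 2)).add
      (hasDerivAt_G (n + 1) x)
    refine h.congr_deriv ?_
    have e : ∏ i ∈ Finset.range n, (2 * x - 2 ^ (i + 1)) =
        2 ^ n * ∏ i ∈ Finset.range n, (x - 2 ^ i) := by
      rw [show (2 : ℝ) ^ n = ∏ _i ∈ Finset.range n, 2 by simp, ← Finset.prod_mul_distrib]
      exact Finset.prod_congr rfl fun i _ => by ring
    rw [Finset.prod_range_succ', Finset.prod_range_succ, e]
    ring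
  obtain ⟨x, hx, e⟩ := exists_hasDerivAt_eq_slope _ _ (pow_lt j)
    (fun x _ => (d x).continuousAt.continuousWithinAt) fun x _ => d x
  have h := sign_prod hx.1 hx.2 c
  have h1 : 1 < x := (one_le_pow₀ one_le_two).trans_lt hx.1
  have h2 : (0 : ℝ) < 2 ^ n * (4 * x - 3) + x :=
    add_pos (mul_pos (by positivity) (by linarith)) (by linarith)
  have h3 := mul_pos (mul_pos (show (0 : ℝ) < ((n + 1 : ℕ) : ℝ) + 1 by positivity) h) h2
  have e1 : ∀ i : ℕ, (2 : ℝ) * 2 ^ i = 2 ^ (i + 1) := fun i => by ring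
  simp only [e1, G_pow] at e
  have p := sub_pos.2 (pow_lt j)
  rw [eq_div_iff p.ne'] at e
  have h4 := mul_pos h3 p
  rw [show v0 (n + 1) (j + 2) - v0 (n + 1) j = v0 (n + 1) (j + 1 + 1) + v0 (n + 1) (j + 1) -
    (v0 (n + 1) (j + 1) + v0 (n + 1) j) by ring, ← e]
  linarith

lemma sgn_eq {m j c : ℕ} (hm : Odd m) (h : m = j + c) : (-1 : ℝ) ^ c = (-1) ^ (j + 1) := by
  have : Even (c + (j + 1)) := by
    obtain ⟨k, hk⟩ := hm
    exact ⟨k + 1, by omega⟩
  rcases Nat.even_or_odd c with a | a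
  · rw [a.neg_one_pow, ((Nat.even_add.1 this).1 a).neg_one_pow]
  · rw [a.neg_one_pow, ((Nat.even_add'.1 this).1 a).neg_one_pow]

/-- The signed distances from a level. -/
noncomputable def w (m j : ℕ) : ℝ := (-1) ^ (j + 1) * (v0 m j - (v0 m 0 + v0 m 1) / 2)

lemma w_lt {m j : ℕ} (hm : Odd m) (h : j + 2 < m) : w m j < w m (j + 2) := by
  obtain ⟨c, hc⟩ : ∃ c, m = j + 1 + c + 1 := ⟨m - j - 2, by omega⟩
  have s := step j c
  rw [← hc, sgn_eq hm (j := j + 2) (by omega)] at s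
  have e : (-1 : ℝ) ^ (j + 2 + 1) = (-1) ^ (j + 1) := by ring
  rw [w, w, e]
  rw [e] at s
  linarith

lemma w_pos {m : ℕ} (hm : Odd m) : ∀ j, j < m → 0 < w m j
  | 0, _ => by have := first hm; rw [w]; linarith
  | 1, _ => by have := first hm; rw [w]; linarith
  | j + 2, h => (w_pos hm j (by omega)).trans (w_lt hm h)

lemma w_lt' {m j : ℕ} (hm : Odd m) (c : ℕ) (h : j + 2 * (c + 1) < m) :
    w m j < w m (j + 2 * (c + 1)) := by
  induction c with
  | zero => exact w_lt hm h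
  | succ c ih => exact (ih (by omega)).trans (w_lt hm (j := j + 2 * (c + 1)) h)

lemma v_ne {m j l : ℕ} (hm : Odd m) (h : j < l) (hl : l < m) : v0 m j ≠ v0 m l := by
  intro e
  obtain ⟨c, rfl⟩ := Nat.exists_eq_add_of_lt h
  rcases Nat.even_or_odd' c with ⟨k, rfl | rfl⟩
  · have a := w_pos hm j (by omega)
    have b := w_pos hm _ hl
    have s : (-1 : ℝ) ^ (j + 2 * k + 1 + 1) = -(-1) ^ (j + 1) := by
      rw [show j + 2 * k + 1 + 1 = j + 1 + 2 * k + 1 by ring, pow_succ, pow_add, pow_mul]; simp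
    rw [w, s, ← e] at b
    rw [w] at a
    linarith
  · have a := w_lt' hm k (j := j) (by omega)
    have s : (-1 : ℝ) ^ (j + 2 * (k + 1) + 1) = (-1) ^ (j + 1) := by
      rw [show j + 2 * (k + 1) + 1 = j + 1 + 2 * (k + 1) by ring, pow_add, pow_mul]; simp
    rw [w, w, s, show j + 2 * (k + 1) = j + (2 * k + 1) + 1 by ring, ← e] at a
    exact a.false

lemma two_le_s0 (m : ℕ) : 2 ≤ s0 m := by
  rw [s0, add_assoc]
  exact le_add_of_nonneg_right (by positivity)

lemma bound {m a b j l : ℕ} (ha : a < m) (hb : b < m) (hj : j < m) (hl : l < m)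
    (h : v0 m a ≠ v0 m b) : |v0 m j - v0 m l| ≤ |v0 m a - v0 m b| * (s0 m ^ (m + 1) - 1) := by
  have A : ∀ i < m, v0 m i ^ 2 ≤ ∑ j ∈ Finset.range m, v0 m j ^ 2 := fun i hi =>
    Finset.single_le_sum (f := fun j => v0 m j ^ 2) (fun _ _ => sq_nonneg _) (Finset.mem_range.2 hi)
  have B : (v0 m a - v0 m b)⁻¹ ^ 2 ≤
      ∑ j ∈ Finset.range m, ∑ l ∈ Finset.range m, (v0 m j - v0 m l)⁻¹ ^ 2 :=
    (Finset.single_le_sum (f := fun l => (v0 m a - v0 m l)⁻¹ ^ 2) (fun _ _ => sq_nonneg _)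
      (Finset.mem_range.2 hb)).trans (Finset.single_le_sum
        (f := fun j => ∑ l ∈ Finset.range m, (v0 m j - v0 m l)⁻¹ ^ 2)
        (fun _ _ => Finset.sum_nonneg fun _ _ => sq_nonneg _) (Finset.mem_range.2 ha))
  have q : s0 m ≤ s0 m ^ (m + 1) :=
    le_self_pow₀ (one_le_two.trans (two_le_s0 m)) m.succ_ne_zero
  have p : 0 < |v0 m a - v0 m b| := abs_pos.2 (sub_ne_zero.2 h)
  rw [← sq_abs, abs_inv] at B
  rw [← inv_mul_le_iff₀ p]
  have t := mul_le_mul_of_nonneg_left (abs_sub (v0 m j) (v0 m l)) (inv_pos.2 p).le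
  have a1 := A j hj
  have a2 := A l hl
  rw [← sq_abs] at a1 a2
  have b1 := sq_nonneg (|v0 m a - v0 m b|⁻¹ - |v0 m j|)
  have b2 := sq_nonneg (|v0 m a - v0 m b|⁻¹ - |v0 m l|)
  have b3 := sq_nonneg |v0 m j|
  have b4 := sq_nonneg |v0 m a - v0 m b|⁻¹
  have s : s0 m = 2 + 2 * ∑ j ∈ Finset.range m, v0 m j ^ 2 +
    2 * ∑ j ∈ Finset.range m, ∑ l ∈ Finset.range m, (v0 m j - v0 m l)⁻¹ ^ 2 := rfl
  linarith

lemma digits_eq {m : ℕ} (hm : Odd m) (a b : ℕ → ℕ) (ha : ∀ i, a i < m) (hb : ∀ i, b i < m)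
    (k : ℕ) (h : ∑ i ∈ Finset.range k, (s0 m ^ (m + 1)) ^ i * (v0 m (a i) - v0 m (b i)) = 0) :
    ∀ i < k, a i = b i := by
  induction k with
  | zero => exact fun i hi => absurd hi (Nat.not_lt_zero i)
  | succ k ih =>
    rw [Finset.sum_range_succ] at h
    have e : a k = b k := by
      by_contra ne
      have ne' : v0 m (a k) ≠ v0 m (b k) := by
        rcases lt_or_gt_of_ne ne with c | c
        · exact v_ne hm c (hb k)
        · exact (v_ne hm c (ha k)).symm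
      have q : 0 < s0 m ^ (m + 1) := pow_pos (two_pos.trans_le (two_le_s0 m)) _
      have p : 0 < |v0 m (a k) - v0 m (b k)| := abs_pos.2 (sub_ne_zero.2 ne')
      have u := congrArg abs (eq_neg_of_add_eq_zero_right h)
      rw [abs_neg, abs_mul, abs_of_pos (pow_pos q k)] at u
      have z : |∑ i ∈ Finset.range k, (s0 m ^ (m + 1)) ^ i * (v0 m (a i) - v0 m (b i))| ≤
          ∑ i ∈ Finset.range k, (s0 m ^ (m + 1)) ^ i *
            (|v0 m (a k) - v0 m (b k)| * (s0 m ^ (m + 1) - 1)) :=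
        (Finset.abs_sum_le_sum_abs _ _).trans (Finset.sum_le_sum fun i _ => by
          rw [abs_mul, abs_of_pos (pow_pos q i)]
          exact mul_le_mul_of_nonneg_left (bound (ha k) (hb k) (ha i) (hb i) ne') (pow_pos q i).le)
      rw [← Finset.sum_mul, mul_left_comm, geom_sum_mul, ← u] at z
      linarith
    rw [e, sub_self, mul_zero, add_zero] at h
    intro i hi
    rcases Nat.lt_succ_iff_lt_or_eq.1 hi with c | rfl
    · exact ih h i c
    · exact e

lemma mod_eq {m n n' : ℕ} (k : ℕ) (h : ∀ i < k, n / m ^ i % m = n' / m ^ i % m) :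
    n % m ^ k = n' % m ^ k := by
  induction k with
  | zero => simp [Nat.mod_one]
  | succ k ih =>
    rw [Nat.mod_pow_succ, Nat.mod_pow_succ, ih fun i hi => h i (by omega), h k k.lt_succ_self]

lemma cn_pos {m : ℕ} (hm : 0 < m) (k n : ℕ) : 0 < cn k m n := by
  rw [cn, c0, add_assoc, ← Finset.sum_add_distrib]
  refine add_pos_of_pos_of_nonneg one_pos (Finset.sum_nonneg fun i _ => ?_)
  have := Finset.single_le_sum (f := fun j => 1 + ((s0 m ^ i) ^ (m + 1) * v0 m j) ^ 2)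
    (fun _ _ => by positivity) (Finset.mem_range.2 (Nat.mod_lt (n / m ^ i) hm))
  have b := sq_nonneg ((s0 m ^ i) ^ (m + 1) * v0 m (n / m ^ i % m) + 1)
  have c := sq_nonneg ((s0 m ^ i) ^ (m + 1) * v0 m (n / m ^ i % m))
  linarith

end VOne

theorem oneS : OneS := by
  intro m h2 hm
  refine ⟨fun a b h => sub_lt_sub_right (pow_lt_pow_right₀ one_lt_two h) _, VOne.deriv_g0 m,
    VOne.deg_lt (by omega), ⟨(v0 m 0 + v0 m 1) / 2, fun j hj => ?_⟩,
    one_le_two.trans (VOne.two_le_s0 m), fun k => ⟨VOne.cn_pos (by omega) k, fun n hn n' hn' e => ?_⟩⟩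
  · rw [VOne.sgn_eq hm (j := j) (by omega)]
    exact VOne.w_pos hm j hj
  · have m0 : 0 < m := by omega
    rw [← Nat.mod_eq_of_lt (mem_Iio.1 hn), ← Nat.mod_eq_of_lt (mem_Iio.1 hn')]
    refine VOne.mod_eq k (VOne.digits_eq hm _ _ (fun i => Nat.mod_lt _ m0)
      (fun i => Nat.mod_lt _ m0) k ?_)
    rw [cn, cn, add_right_inj, ← sub_eq_zero, ← Finset.sum_sub_distrib] at e
    rw [← e]
    exact Finset.sum_congr rfl fun i _ => by rw [← pow_mul, ← pow_mul, mul_comm i, mul_sub]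

end Pool.Agent.Lib.MP_837412_lc
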