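import Pool.Agent.Lib.MP_837412_lc.USt
import Pool.Agent.Lib.MP_837412_lc.G5

/-!
The Betti numbers are read off from the order type, the lower triangular matrix and the labels.
-/

namespace Pool.Agent.Lib.MP_837412_lc

open Pool.Agent.Shared.Mod2 Set Function Filter Topology
open Pool.Agent.Shared.PolyTime (PT)

namespace VOut

/-- A unit row. -/
def un (n i : ℕ) : List Bool := (List.range n).map fun j => j == i

/-- A row plus a unit row. -/
def rx (n i : ℕ) (r : List Bool) : List Bool :=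
  (List.range n).map fun j => xor (j == i) (r.getD j false)

/-- The rank of the real part. -/
def ab (t : Tl) (i : ℕ) : ℕ := (t.getD i (0, 0)).1

/-- The label. -/
def lb (l : List Lb) (i : ℕ) : Lb := l.getD i (0, 0, false, 0)

/-- The rows that span the subspace. -/
def rT (t : Tl) (L : Ml) (l : List Lb) (τ : ℕ) : Ml :=
  ((List.range t.length).filter fun j => decide (ab t j < τ) || (lb l j).2.1 == 1).map
    (un t.length) ++
  ((List.range t.length).filter fun j => (lb l j).2.1 == -1).map fun j => L.getD j []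

/-- The rows whose rank modulo the subspace is wanted. -/
def rS (t : Tl) (L : Ml) (l : List Lb) (τ : ℕ) : Ml :=
  ((List.range t.length).filter fun j => (lb l j).2.1 == 0 && decide (τ ≤ ab t j)).map
    fun j => rx t.length j (L.getD j [])

/-- The rank modulo the subspace. -/
def rN (r : ℕ × Ml → ℕ) (t : Tl) (L : Ml) (l : List Lb) (τ : ℕ) : ℕ :=
  r (t.length, rT t L l τ ++ rS t L l τ) - r (t.length, rT t L l τ)

/-- The critical value creates a class. -/
def cr (r : ℕ × Ml → ℕ) (t : Tl) (L : Ml) (l : List Lb) (i : ℕ) : Bool :=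
  ((List.range t.length).all fun j => !((lb l j).2.1 == 0) || decide (ab t i ≤ ab t j)) ||
    decide (rN r t L l (ab t i + 1) < rN r t L l (ab t i))

/-- Real, negative and on the right side. -/
def ok (l : List Lb) (i : ℕ) : Bool := (lb l i).2.1 == 0 && (lb l i).1 == -1 && (lb l i).2.2.1

/-- The output. -/
def out (r : ℕ × Ml → ℕ) (x : Tl × Ml × List Lb × ℕ) : ℕ :=
  ((List.range x.1.length).countP fun i =>
    ok x.2.2.1 i && cr r x.1 x.2.1 x.2.2.1 i && (lb x.2.2.1 i).2.2.2 == x.2.2.2) -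
  (List.range x.1.length).countP fun i =>
    ok x.2.2.1 i && !cr r x.1 x.2.1 x.2.2.1 i && (lb x.2.2.1 i).2.2.2 == x.2.2.2 + 1

section Time

variable {α : Type} [N487b59b3 α] {t : α → Tl} {L : α → Ml} {l : α → List Lb} {i : α → ℕ}
  {r : ℕ × Ml → ℕ}

@[fun_prop] lemma un_pt (ht : PT t) (hi : PT i) : PT fun a => un (t a).length (i a) := by
  unfold un; fun_prop

@[fun_prop] lemma rx_pt {v : α → List Bool} (ht : PT t) (hi : PT i) (hv : PT v) :
    PT fun a => rx (t a).length (i a) (v a) := by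
  unfold rx; fun_prop

@[fun_prop] lemma ab_pt (ht : PT t) (hi : PT i) : PT fun a => ab (t a) (i a) := by
  unfold ab; fun_prop

@[fun_prop] lemma lb_pt (hl : PT l) (hi : PT i) : PT fun a => lb (l a) (i a) := by
  unfold lb; fun_prop

@[fun_prop] lemma rT_pt (ht : PT t) (hL : PT L) (hl : PT l) (hi : PT i) :
    PT fun a => rT (t a) (L a) (l a) (i a) := by
  unfold rT; fun_prop

@[fun_prop] lemma rS_pt (ht : PT t) (hL : PT L) (hl : PT l) (hi : PT i) :
    PT fun a => rS (t a) (L a) (l a) (i a) := by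
  unfold rS; fun_prop

lemma rN_pt (hr : PT r) (ht : PT t) (hL : PT L) (hl : PT l) (hi : PT i) :
    PT fun a => rN r (t a) (L a) (l a) (i a) := by
  unfold rN
  exact (hr.comp' (by fun_prop)).sub (hr.comp' (by fun_prop))

lemma cr_pt (hr : PT r) (ht : PT t) (hL : PT L) (hl : PT l) (hi : PT i) :
    PT fun a => cr r (t a) (L a) (l a) (i a) := by
  unfold cr
  exact PT.or (by fun_prop) (PT.decide_lt (rN_pt hr ht hL hl (by fun_prop))
    (rN_pt hr ht hL hl (by fun_prop)))

@[fun_prop] lemma ok_pt (hl : PT l) (hi : PT i) : PT fun a => ok (l a) (i a) := by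
  unfold ok; fun_prop

lemma out_pt (hr : PT r) : PT (out r) := by
  have h : PT fun p : (Tl × Ml × List Lb × ℕ) × ℕ => cr r p.1.1 p.1.2.1 p.1.2.2.1 p.2 :=
    cr_pt hr (by fun_prop) (by fun_prop) (by fun_prop) (by fun_prop)
  unfold out
  exact PT.sub (PT.countP (by fun_prop) ((PT.and (by fun_prop) h).and (by fun_prop)))
    (PT.countP (by fun_prop) ((PT.and (by fun_prop) h.not).and (by fun_prop)))

end Time

lemma encard_eq {n : ℕ} (p : ℕ → Bool) {s : Set (Fin n)} (h : ∀ i, i ∈ s ↔ p i = true) :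
    s.encard = ((List.range n).countP p : ℕ) := by
  have e : Fin.val '' s = ((List.range n).filter p).toFinset := by
    ext i
    simp only [mem_image, List.coe_toFinset, List.mem_filter, List.mem_range, mem_ofPred_eq]
    exact ⟨fun ⟨j, a, b⟩ => b ▸ ⟨j.2, (h j).1 a⟩, fun a => ⟨⟨i, a.1⟩, (h _).2 a.2, rfl⟩⟩
  rw [← Fin.val_injective.encard_image, e, encard_coe_eq_coe_finsetCard,
    List.toFinset_card_of_nodup (List.nodup_range.filter _), List.countP_eq_length_filter]

lemma vec_un {n : ℕ} (i : Fin n) : vec n (un n i) = Pi.single i 1 := by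
  funext j
  simp [vec, un, List.getD_eq_getElem?_getD, Pi.single_apply, Fin.ext_iff]

lemma vec_rx {n : ℕ} (i : Fin n) (r : List Bool) : vec n (rx n i r) = Pi.single i 1 + vec n r := by
  funext j
  simp only [vec, rx, List.getD_eq_getElem?_getD, List.getElem?_map, List.getElem?_range j.2,
    Option.map_some, Option.getD_some, Pi.add_apply, Pi.single_apply, Fin.ext_iff]
  by_cases h : (j : ℕ) = i <;> cases r[(j : ℕ)]?.getD false <;> simp [h]
  rfl

/-- The set of vectors of a list of rows. -/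
def vs (n : ℕ) (V : Ml) : Set (Fin n → F) := {x | ∃ v ∈ V, vec n v = x}

lemma vs_append (n : ℕ) (V W : Ml) : vs n (V ++ W) = vs n V ∪ vs n W := by
  ext x; simp [vs, or_and_right, exists_or]

lemma vs_map {n : ℕ} (p : ℕ → Bool) (g : ℕ → List Bool) {s : Set (Fin n)} {e : Fin n → Fin n → F}
    (h : ∀ i, i ∈ s ↔ p i = true) (h' : ∀ i : Fin n, vec n (g i) = e i) :
    vs n (((List.range n).filter p).map g) = e '' s := by
  ext x
  simp only [vs, List.mem_map, List.mem_filter, List.mem_range, mem_ofPred_eq, mem_image]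
  exact ⟨fun ⟨_, ⟨j, a, rfl⟩, b⟩ => ⟨⟨j, a.1⟩, (h _).2 a.2, (h' _).symm.trans b⟩,
    fun ⟨j, a, b⟩ => ⟨_, ⟨j, ⟨j.2, (h j).1 a⟩, rfl⟩, (h' j).trans b⟩⟩

lemma sub_of {x : ℕ∞} {p q : ℕ} (h : x + p = q) : x = (q - p : ℕ) := by
  lift x to ℕ using ne_top_of_le_ne_top (by simp) (le_self_add.trans_eq h)
  norm_cast at h ⊢
  omega

lemma rk_bot {M : Type} [AddCommGroup M] [Module F M] [Module.Finite F M] (S : Submodule F M) :
    rk S ⊥ = Module.finrank F S := by
  rw [rk, rank_map_eq (S := S) _ LinearMap.id (by simp), Submodule.map_id,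
    ← Module.finrank_eq_rank, Cardinal.toENat_nat]

lemma rk_eq {M : Type} [AddCommGroup M] [Module F M] [Module.Finite F M] (S T : Submodule F M) :
    rk S T = (Module.finrank F (T ⊔ S : Submodule F M) - Module.finrank F T : ℕ) := by
  have h := rk_sup T S ⊥
  rw [rk_bot, rk_bot, sup_bot_eq] at h
  exact sub_of (add_comm _ _ |>.trans h.symm)

lemma rkL_eq {r : ℕ × Ml → ℕ}
    (hr : ∀ n V, r (n, V) = Module.finrank F (Submodule.span F {x | ∃ v ∈ V, vec n v = x}))
    (t : Tl) (L : Ml) (l : List Lb) (τ : ℕ) {s₁ s₂ s₃ : Set (Fin t.length)}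
    (h1 : ∀ j, j ∈ s₁ ↔ (decide (ab t j < τ) || (lb l j).2.1 == 1) = true)
    (h2 : ∀ j, j ∈ s₂ ↔ ((lb l j).2.1 == -1) = true)
    (h3 : ∀ j, j ∈ s₃ ↔ ((lb l j).2.1 == 0 && decide (τ ≤ ab t j)) = true) :
    rkL s₁ s₂ s₃ (mat _ L) = rN r t L l τ := by
  have e : ∀ n V, r (n, V) = Module.finrank F (Submodule.span F (vs n V)) := hr
  rw [rkL, rk_eq, rN, e, e, vs_append, rT, vs_append, rS,
    vs_map _ _ h1 vec_un, vs_map _ _ h2 (e := mat _ L) (fun _ => rfl),
    vs_map _ _ h3 (e := fun i => Pi.single i 1 + mat _ L i) (fun i => vec_rx i _),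
    Submodule.span_union, Submodule.span_union]

lemma sgn_one {x : ℝ} : sgn x = 1 ↔ 0 < x := by
  rw [sgn, ← sign_eq_one_iff]; cases SignType.sign x <;> decide

lemma sgn_neg {x : ℝ} : sgn x = -1 ↔ x < 0 := by
  rw [sgn, ← sign_eq_neg_one_iff]; cases SignType.sign x <;> decide

lemma sgn_zero {x : ℝ} : sgn x = 0 ↔ x = 0 := by
  rw [sgn, ← sign_eq_zero_iff (a := x)]; cases SignType.sign x <;> decide

/-- Levels close to a value. -/
lemma levels {ι : Type} [Finite ι] (v : ι → ℝ) (i : ι) (h : v i < 0) : ∃ a b, a < v i ∧ v i < b ∧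
    b ≤ 0 ∧ ∀ j, (v j < v i → v j < a) ∧ (v i < v j → b < v j) := by
  have h1 : ∀ᶠ a in 𝓝[<] v i, ∀ j, v j < v i → v j < a := eventually_all.2 fun j => by
    by_cases e : v j < v i
    · filter_upwards [Ioo_mem_nhdsLT e] with a ha _ using ha.1
    · exact .of_forall fun _ a => absurd a e
  have h2 : ∀ᶠ b in 𝓝[>] v i, ∀ j, v i < v j → b < v j := eventually_all.2 fun j => by
    by_cases e : v i < v j
    · filter_upwards [Ioo_mem_nhdsGT e] with a ha _ using ha.2
    · exact .of_forall fun _ a => absurd a e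
  obtain ⟨a, a1, a2⟩ := (h1.and self_mem_nhdsWithin).exists
  obtain ⟨b, b1, b2⟩ := (h2.and (Ioo_mem_nhdsGT h)).exists
  exact ⟨a, b, a2, b2.1, b2.2.le, fun j => ⟨a1 j, b1 j⟩⟩

lemma arith {x y : ℕ∞} {p q k : ℕ} (h1 : x + 2 * p = k + 1) (h2 : y + 2 * q = k) :
    q < p ↔ x < y := by
  lift x to ℕ using ne_top_of_le_ne_top (by simp) (le_self_add.trans_eq h1)
  lift y to ℕ using ne_top_of_le_ne_top (by simp) (le_self_add.trans_eq h2)
  norm_cast at h1 h2 ⊢
  omega

theorem main (H : All) (h1 : RankS) (h2 : RealU) : OutS := by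
  obtain ⟨r, rp, hr⟩ := h1
  refine ⟨out r, out_pt rp, fun σ _ f t c N L R l S S' side n sy bn is da tr rm hl j => ?_⟩
  choose b hb hl using hl
  have el : ∀ i : Fin t.length, lb l i = (sgn (c i).re, sgn (c i).im, b i, n i) := fun i => by
    rw [lb, List.getD_eq_getElem?_getD, hl, Option.getD_some]
  have ea : ∀ i : Fin t.length, (pts t i).re = ab t i := fun i => by
    simp [pts, ab, List.getD_eq_getElem?_getD]
  have lt : ∀ i j : Fin t.length, (c i).re < (c j).re ↔ ab t i < ab t j := fun i j => by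
    rw [is.re_lt, ea, ea, Nat.cast_lt]
  have le : ∀ i j : Fin t.length, (c i).re ≤ (c j).re ↔ ab t i ≤ ab t j := fun i j => by
    rw [← not_lt, lt, not_lt]
  have rkq : ∀ (a : ℝ) (τ : ℕ), (∀ j, (c j).re < a ↔ ab t j < τ) →
      rkL {i | (c i).re < a ∨ 0 < (c i).im} {i | (c i).im < 0}
        {i | (c i).im = 0 ∧ a ≤ (c i).re} (mat _ L) = rN r t L l τ := fun a τ h =>
    rkL_eq hr t L l τ (fun j => by simp [el, sgn_one, h]) (fun j => by simp [el, sgn_neg])
      fun j => by rw [mem_ofPred_eq, ← not_lt, h]; simp [el, sgn_zero]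
  have key := h2 _ _ _ S S' _ _ side (fun i => cr r t L l i = true) n (Fintype.card σ + 1 + 1)
    z0_univ rm (fun a ⟨i, _, hi⟩ => (H.total sy bn da tr ⟨i, hi⟩).1) (fun i _ h => ?_)
    (fun i hi h0 ⟨k, k1, k2⟩ => ?_) j
  · rw [encard_eq (fun i => ok l i && !cr r t L l i && (lb l i).2.2.2 == j + 1)
      (fun i => by simp [ok, el, sgn_zero, sgn_neg, hb, and_assoc]),
      encard_eq (fun i => ok l i && cr r t L l i && (lb l i).2.2.2 == j)
      (fun i => by simp [ok, el, sgn_zero, sgn_neg, hb, and_assoc])] at key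
    exact sub_of key
  · rw [cr, Bool.or_eq_true, List.all_eq_true]
    refine Or.inl fun k hk => ?_
    have := h ⟨k, List.mem_range.1 hk⟩
    have e := el ⟨k, List.mem_range.1 hk⟩
    simp only [le] at this e
    simpa [e, sgn_zero, ← imp_iff_not_or] using this
  · obtain ⟨a, a', a1, a2, a3, a4⟩ := levels (fun i => (c i).re) i h0
    have m1 : ∀ j, (c j).re < a ↔ (c j).re < (c i).re := fun j =>
      ⟨fun h => h.trans a1, (a4 j).1⟩
    have m2 : ∀ j, (c j).re < a' ↔ (c j).re ≤ (c i).re := fun j =>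
      ⟨fun h => le_of_not_gt fun g => lt_asymm h ((a4 j).2 g), fun h => h.trans_lt a2⟩
    refine ⟨a, a', a1, a2, a3, fun j hj rj hm => ?_, ?_⟩
    · rcases lt_trichotomy (c j).re (c i).re with g | g | g
      · exact ((a4 j).1 g).not_ge hm.1
      · exact hj (rm.inj j i rj hi g)
      · exact ((a4 j).2 g).not_ge hm.2
    have t1 := (H.total (t := a) sy bn da tr ⟨k, (m1 k).2 k2⟩).2
    have t2 := (H.total (t := a') sy bn da tr ⟨i, a2⟩).2
    rw [rkq a (ab t i) fun j => (m1 j).trans (lt j i)] at t1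
    rw [rkq a' (ab t i + 1) fun j => (m2 j).trans ((le j i).trans Nat.lt_succ_iff.symm)] at t2
    have e : {j | (c j).im = 0 ∧ a ≤ (c j).re} = insert i {j | (c j).im = 0 ∧ a' ≤ (c j).re} := by
      ext j
      rw [mem_ofPred_eq, mem_insert_iff, mem_ofPred_eq, ← not_lt, ← not_lt, m1, m2]
      refine ⟨fun h => or_iff_not_imp_left.2 fun g => ⟨h.1, fun g' =>
        g (rm.inj j i h.1 hi (le_antisymm g' (not_lt.1 h.2)))⟩, ?_⟩
      rintro (rfl | h)
      · exact ⟨hi, lt_irrefl _⟩
      · exact ⟨h.1, fun g => h.2 g.le⟩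
    rw [e, encard_insert_of_notMem fun g => a2.not_ge g.2] at t1
    rw [← (toFinite _).cast_ncard_eq] at t1 t2
    rw [← arith t1 t2, cr, Bool.or_eq_true, decide_eq_true_eq, or_iff_right]
    rw [List.all_eq_true]
    intro g
    have := g k (List.mem_range.2 k.2)
    simp only [el, Bool.or_eq_true, Bool.not_eq_eq_eq_not, Bool.not_true, beq_eq_false_iff_ne,
      decide_eq_true_eq, ne_eq, sgn_zero, ← le] at this
    exact this.elim (fun h => h k1) k2.not_ge

end VOut

theorem outS (h1 : RankS) (h2 : RealU) : OutS := VOut.main all h1 h2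

end Pool.Agent.Lib.MP_837412_lc
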