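import Pool.Agent.Lib.MP_837412_lc.USt
import Pool.Agent.Lib.MP_837412_lc.G5

/-!
The relation between the upper and the lower cycles of a polynomial in one variable.
-/

namespace Pool.Agent.Lib.MP_837412_lc

open Pool.Agent.Shared.Mod2 Set Function Filter Topology Polynomial

namespace VOv

section Top

variable {Y Λ : Type} [TopologicalSpace Y] [Inhabited Y] {A B B' S S' : Set Y} {ℓ : Y → Λ}

open Classical in
/-- A point of a simplex. -/
noncomputable def pt (σ : Sx Y) : Y := if h : Nonempty (Sp σ.1) then σ.2 h.some else default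

lemma pt_eq {σ : Sx Y} (h : σ.1 = 1) : ∃ t, pt σ = σ.2 t ∧ ∀ g : C(Y, Y), pt (smap g σ) = g (σ.2 t) := by
  obtain ⟨k, σ⟩ := σ
  obtain rfl : k = 1 := h
  have n : Nonempty (Sp 1) := ⟨stdSimplex.vertex 0⟩
  exact ⟨n.some, dif_pos n, fun g => dif_pos n⟩

omit [Inhabited Y] in
lemma sd_one {σ : Sx Y} (h : σ.1 = 1) : sd (sg σ) = sg (SC Y).b0 := by
  obtain ⟨k, σ⟩ := σ
  obtain rfl : k = 1 := h
  have : bdl (Shared.Mod2.ev 1) = sg [] := by simp [Shared.Mod2.ev, bdl]
  rw [sd, op_sg, this, mp_sg, cm_sg]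
  exact congrArg sg ((SC Y).eq_b0 _ rfl)

/-- The labels of the end points. -/
noncomputable def Ph (ℓ : Y → Λ) : Ch (Sx Y) →ₗ[F] Ch Λ := mp (fun σ => ℓ (pt σ)) ∘ₗ sd

lemma two {q q' : Λ} (h : ∀ y ∈ A, ℓ y = q ∨ ℓ y = q') {x : Ch (Sx Y)} (hx : sd x ∈ Cs A 1) :
    Ph ℓ x = 0 ∨ Ph ℓ x = sg q + sg q' := by
  have h1 : lin (fun _ => sg q) (sd x) = 0 := by
    have := map_eq (L := lin fun _ : Sx Y => sg q) (L' := lin (fun _ : Sx Y => sg q) ∘ₗ sd)
      (fun σ hσ => by rw [LinearMap.comp_apply, sd_one hσ.1, lin_sg, lin_sg]) hx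
    rwa [LinearMap.comp_apply, sd_sd, map_zero] at this
  have h2 : lin (fun σ => sg (ℓ (pt σ)) + sg q) (sd x) ∈ Submodule.span F {sg q + sg q'} :=
    lin_mem (fun σ hσ => by
      obtain ⟨t, e, -⟩ := pt_eq hσ.1
      rcases h _ (hσ.2 t) with b | b <;> rw [e, b]
      · rw [aa]; exact zero_mem _
      · rw [add_comm]; exact Submodule.mem_span_singleton_self _) hx
  rw [lin_add, h1, add_zero] at h2
  obtain ⟨c, e⟩ := Submodule.mem_span_singleton.1 h2
  have : c = 0 ∨ c = 1 := by generalize c = x; revert x; decide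
  rcases this with rfl | rfl
  · exact Or.inl (by rw [zero_smul] at e; exact e.symm)
  · exact Or.inr (by rw [one_smul] at e; exact e.symm)

lemma Ph_cm {g : C(Y, Y)} {f : Λ → Λ} (h : ∀ y ∈ B, ℓ (g y) = f (ℓ y)) {x : Ch (Sx Y)}
    (hx : sd x ∈ Cs B 1) : Ph ℓ (cm g x) = mp f (Ph ℓ x) := by
  simp only [Ph, LinearMap.comp_apply]
  rw [← cm_sd, cm, mp_mp, mp_mp]
  refine mp_congr (fun σ hσ => ?_) hx
  obtain ⟨t, e, e'⟩ := pt_eq hσ.1
  rw [e, e', h _ (hσ.2 t)]

variable [TopologicalSpace Λ] [DiscreteTopology Λ]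

lemma Ph_bd (h : ContinuousOn ℓ B) {x : Ch (Sx Y)} (hx : x ∈ Bs univ B 2) : Ph ℓ x = 0 := by
  obtain ⟨b, -, b2⟩ := mem_Br.1 hx
  have := map_zero' (L := Ph ℓ) (fun σ hσ => by
    obtain ⟨k, σ⟩ := σ
    obtain rfl : k = 2 := hσ.1
    have m : sg (⟨2, σ⟩ : Sx Y) ∈ Cs (range σ) 2 := sg_mem ⟨rfl, fun t => ⟨t, rfl⟩⟩
    have c : ∀ y ∈ range σ, ℓ y = ℓ (σ (stdSimplex.vertex 0)) := fun y hy =>
      (isPreconnected_range σ.continuous).constant (h.mono (range_subset_iff.2 hσ.2)) hy ⟨_, rfl⟩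
    exact (two (fun y hy => Or.inl (c y hy)) (sd_mem m)).elim id fun e => e.trans (aa _)) b2
  rwa [map_add, show Ph ℓ (sd b) = 0 by simp [Ph, sd_sd], add_zero] at this

lemma Ph_inj [ContractibleSpace Y] (h : ContinuousOn ℓ B) {m : ℕ} (hm : hs univ B 2 = m)
    {y : Fin (m + 1) → Y} (h1 : ∀ k, y k ∈ B) (h2 : Injective fun k => ℓ (y k)) {x : Ch (Sx Y)}
    (hx : x ∈ Zs univ B 2) (h0 : Ph ℓ x = 0) : x ∈ Bs univ B 2 := by
  let p : Fin (m + 1) → Sx Y := fun k => ⟨1, ContinuousMap.const _ (y k)⟩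
  have p1 : ∀ k, sg (p k) ∈ Cs B 1 := fun k => sg_mem ⟨rfl, fun _ => h1 k⟩
  have p2 : ∀ k, pt (p k) = y k := fun k => let ⟨_, e, _⟩ := pt_eq (σ := p k) rfl; e
  choose u u1 u2 using fun k : Fin m => z0_univ (Y := Y) 1 (sg (p 0) + sg (p k.succ))
    (Cs_mono (subset_univ _) 1 (add_mem (p1 _) (p1 _)))
    (by rw [map_add, sd_one rfl, sd_one rfl, aa])
  have u3 : ∀ k, Ph ℓ (u k) = sg (ℓ (y 0)) + sg (ℓ (y k.succ)) := fun k => by
    rw [Ph, LinearMap.comp_apply, u2, map_add, mp_sg, mp_sg, p2, p2]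
  have i : Ind (LinearMap.ker (Ph ℓ)) u := fun c hc => by
    funext k
    have := DFunLike.congr_fun (LinearMap.mem_ker.1 hc) (ℓ (y k.succ))
    classical
    simpa [u3, sg, Finsupp.single_apply, h2.eq_iff, (Fin.succ_ne_zero k).symm,
      show ∀ a b, ℓ (y a) = ℓ (y b) ↔ a = b from fun _ _ => h2.eq_iff] using this
  have le : (m : ℕ∞) ≤ rk (Zs univ B 2) (LinearMap.ker (Ph ℓ)) := by
    have := i.rk_span univ
    rw [encard_univ, ENat.card_eq_coe_fintype_card, Fintype.card_fin] at this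
    rw [← this]
    refine rk_mono (Submodule.span_le.2 ?_) le_rfl
    rintro _ ⟨k, -, rfl⟩
    exact mem_Zr.2 ⟨u1 k, by rw [u2]; exact add_mem (p1 _) (p1 _)⟩
  have e := rk_add (Zs univ B 2) (T := Bs univ B 2) (T' := LinearMap.ker (Ph ℓ))
    fun _ a => Ph_bd h a
  have e0 : rk (Zs univ B 2 ⊓ LinearMap.ker (Ph ℓ)) (Bs univ B 2) = 0 := by
    have e1 : rk (Zs univ B 2 ⊓ LinearMap.ker (Ph ℓ)) (Bs univ B 2) + m ≤ 0 + m := by
      rw [zero_add]
      exact (add_le_add_right le _).trans_eq (e.symm.trans hm)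
    exact le_zero_iff.1 ((ENat.add_le_add_iff_right (ENat.natCast_ne_top m)).1 e1)
  exact rk_eq_zero.1 e0 ⟨hx, h0⟩

omit [Inhabited Y] in
lemma split (hS : IsOpen S) (hS' : IsOpen S') (hd : Disjoint S S') (h : A ⊆ S ∪ S')
    (h0 : Ac (A ∩ S') (B ∩ S')) (hB : B ⊆ B') {x : Ch (Sx Y)} (hx : x ∈ Zs A B 2) :
    ∃ z, sd z ∈ Cs (B ∩ S) 1 ∧ x + z ∈ Bs univ B' 2 := by
  obtain ⟨u, hu, w, hw, rfl⟩ := Submodule.mem_sup.1 (cs_split hS hS' hd h 2 hx.1)
  have e : sd u + sd w ∈ Cs B 1 := by rw [← map_add]; exact hx.2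
  refine ⟨u, cs_disj (A := A) hd.symm (mem_sup2.2 ⟨_, sd_mem hw, e⟩)
    (Cs_mono inter_subset_right 1 (sd_mem hu)), ?_⟩
  rw [add_right_comm, aa, zero_add]
  exact Bs_mono (subset_univ _) (inter_subset_left.trans hB) 2 (hh_eq_zero.1 (h0 2) ⟨hw,
    cs_disj (A := A) hd (mem_sup2.2 ⟨_, sd_mem hu, by rwa [add_comm]⟩)
      (Cs_mono inter_subset_right 1 (sd_mem hw))⟩)

end Top

section Roots

variable {m : ℕ} {g : ℝ[X]} {κ t : ℝ} {r : Fin m → ℝ}

lemma deg (h : derivative g = C κ * ∏ j, (X - C (r j))) (hκ : κ ≠ 0) (t : ℝ) :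
    (g - C t).natDegree = m + 1 ∧ (g - C t).leadingCoeff = κ / (m + 1) := by
  have hm : (∏ j, (X - C (r j)) : ℝ[X]).Monic := monic_prod_of_monic _ _ fun _ _ => monic_X_sub_C _
  have hd : (∏ j, (X - C (r j)) : ℝ[X]).natDegree = m := by
    rw [natDegree_prod_of_monic _ _ fun _ _ => monic_X_sub_C _]; simp
  have c : ∀ n, (g - C t).coeff (n + 1) * (n + 1) = κ * (∏ j, (X - C (r j)) : ℝ[X]).coeff n :=
    fun n => by rw [← coeff_C_mul, ← h, coeff_derivative]; simp
  have c1 : (g - C t).coeff (m + 1) = κ / (m + 1) := by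
    have := hm.coeff_natDegree
    rw [hd] at this
    rw [eq_div_iff (by positivity), c, this, mul_one]
  have c2 : (g - C t).natDegree = m + 1 := by
    refine natDegree_eq_of_le_of_coeff_ne_zero (natDegree_le_iff_coeff_eq_zero.2 fun n hn => ?_)
      (by rw [c1]; positivity)
    obtain ⟨n, rfl⟩ : ∃ l, n = l + 1 := ⟨n - 1, by omega⟩
    have := c n
    rw [coeff_eq_zero_of_natDegree_lt (by omega : (∏ j, (X - C (r j)) : ℝ[X]).natDegree < n),
      mul_zero] at this
    exact (mul_eq_zero.1 this).resolve_right (by positivity)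
  exact ⟨c2, by rw [leadingCoeff, c2, c1]⟩

lemma far {P : ℝ[X]} {k : ℝ} (h : 0 < P.natDegree) (hk : 0 < k * P.leadingCoeff) :
    ∀ᶠ x in atTop, 0 < k * P.eval x := by
  have k0 : k ≠ 0 := fun e => by simp [e] at hk
  have := (C k * P).tendsto_atTop_of_leadingCoeff_nonneg
    (by rw [degree_C_mul k0]; exact natDegree_pos_iff_degree_pos.1 h) (by simpa using hk.le)
  simpa using this.eventually_gt_atTop 0

lemma roots (hr : StrictMono r) (h : derivative g = C κ * ∏ j, (X - C (r j))) (hκ : κ ≠ 0)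
    (hs : ∀ j : Fin m, 0 < κ * (-1) ^ (m - j) * (g.eval (r j) - t)) :
    ∃ a : Fin (m + 1) → ℝ, g - C t = C (κ / (m + 1)) * ∏ i, (X - C (a i)) ∧
      ∀ (i : Fin (m + 1)) (j : Fin m), ((i : ℕ) ≤ j → a i < r j) ∧ ((j : ℕ) < i → r j < a i) := by
  obtain ⟨d1, d2⟩ := deg h hκ t
  have k2 : 0 < κ * (κ / (m + 1)) := by
    rw [← mul_div_assoc]; exact div_pos (mul_self_pos.2 hκ) (by positivity)
  have f1 := far (P := g - C t) (k := κ) (by omega) (by rwa [d2])
  have f2 := far (P := (g - C t).comp (-X)) (k := κ * (-1) ^ (m + 1))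
    (by rw [natDegree_comp]; simp [d1]) (by
      rw [leadingCoeff_comp (by simp), d1, d2]
      simp only [leadingCoeff_neg, leadingCoeff_X]
      rwa [mul_mul_mul_comm, ← mul_pow, neg_one_mul, neg_neg, one_pow, mul_one])
  have f3 : ∀ᶠ x in atTop, ∀ j, |r j| < x := eventually_all.2 fun j => eventually_gt_atTop _
  obtain ⟨R, ⟨R1, R2⟩, R3, R4⟩ := ((f1.and f2).and (f3.and (eventually_gt_atTop 0))).exists
  let b : ℕ → ℝ := fun n => if n = 0 then -R else if e : n - 1 < m then r ⟨n - 1, e⟩ else R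
  have b1 : ∀ j : Fin m, b (j + 1) = r j := fun j => by simp [b]
  have b2 : ∀ n ≤ m + 1, 0 < κ * (-1) ^ (m + 1 - n) * (g - C t).eval (b n) := by
    intro n hn
    by_cases e : n = 0
    · simpa [b, e] using R2
    by_cases e' : n - 1 < m
    · have := hs ⟨n - 1, e'⟩
      rw [show m - (n - 1) = m + 1 - n by omega] at this
      simpa [b, e, e'] using this
    · simpa [b, e, e', show m + 1 - n = 0 by omega] using R1
  have b3 : ∀ n n', n < n' → n' ≤ m + 1 → b n < b n' := by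
    intro n n' h1 h2
    simp only [b, if_neg (by omega : n' ≠ 0)]
    split_ifs with e1 e2 e3 e4
    · exact (abs_lt.1 (R3 _)).1
    · linarith
    · exact hr (by simp only [Fin.mk_lt_mk]; omega)
    · exact (abs_lt.1 (R3 _)).2
    · omega
    · omega
  have b4 : ∀ n n', n ≤ n' → n' ≤ m + 1 → b n ≤ b n' := fun n n' h1 h2 =>
    h1.eq_or_lt.elim (fun e => by rw [e]) fun e => (b3 n n' e h2).le
  have ex : ∀ i : Fin (m + 1), ∃ x ∈ Ioo (b i) (b (i + 1)), (g - C t).eval x = 0 := by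
    intro i
    have h1 := b2 i (by omega)
    have h2 := b2 (i + 1) (by omega)
    rw [show m + 1 - (i : ℕ) = m + 1 - (i + 1) + 1 by omega, pow_succ] at h1
    obtain ⟨x, hx, e⟩ := intermediate_value_Ioo (b3 i (i + 1) (by omega) (by omega)).le
      (f := fun x => κ * (-1) ^ (m + 1 - (i + 1)) * (g - C t).eval x) (by fun_prop)
      (⟨by linarith, h2⟩ : (0 : ℝ) ∈ Ioo _ _)
    exact ⟨x, hx, (mul_eq_zero.1 e).resolve_left (by positivity)⟩
  choose a a1 a2 using ex
  have am : StrictMono a := fun i j hij =>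
    (a1 i).2.trans_le ((b4 _ _ hij (by omega)).trans (a1 j).1.le)
  have hm : (∏ i, (X - C (a i)) : ℝ[X]).Monic := monic_prod_of_monic _ _ fun _ _ => monic_X_sub_C _
  have hd : (∏ i, (X - C (a i)) : ℝ[X]).natDegree = m + 1 := by
    rw [natDegree_prod_of_monic _ _ fun _ _ => monic_X_sub_C _]; simp
  have k0 : κ / (m + 1) ≠ 0 := by positivity
  have g0 : g - C t ≠ 0 := fun e => by simp [e] at d1
  refine ⟨a, eq_of_degree_sub_lt_of_eval_index_eq Finset.univ am.injective.injOn ?_ fun i _ => ?_,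
    fun i j => ⟨fun e => ?_, fun e => ?_⟩⟩
  · refine (degree_sub_lt_left ?_ g0 ?_).trans_eq ?_
    · rw [degree_C_mul k0, degree_eq_natDegree g0, degree_eq_natDegree hm.ne_zero, d1, hd]
    · rw [d2, leadingCoeff_mul, hm.leadingCoeff, leadingCoeff_C, mul_one]
    · rw [degree_eq_natDegree g0, d1]; simp
  · rw [a2, eval_mul, eval_prod, Finset.prod_eq_zero (Finset.mem_univ i) (by simp), mul_zero]
  · exact (a1 i).2.trans_le (b1 j ▸ b4 _ _ (by omega) (by omega))
  · exact (b1 j ▸ b4 _ _ e (by omega)).trans_lt (a1 i).1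

end Roots

section Angle

open Real

variable {D : ℕ} {a : Fin D → ℝ} {y : ℂ}

/-- The sum of the angles under which the points are seen. -/
noncomputable def th (a : Fin D → ℝ) (y : ℂ) : ℝ := ∑ i, arccos ((y - a i).re / ‖y - a i‖)

lemma th_conj (y : ℂ) : th a ((starRingEnd ℂ) y) = th a y :=
  Finset.sum_congr rfl fun i _ => by
    rw [← Complex.norm_conj (y - a i)]; simp

lemma th_cont (h : ∀ i, y ≠ a i) : ContinuousAt (th a) y :=
  tendsto_finsetSum _ fun i _ => continuous_arccos.continuousAt.comp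
    (ContinuousAt.div (f := fun y : ℂ => (y - a i).re) (g := fun y : ℂ => ‖y - a i‖)
      (by fun_prop) (by fun_prop) (norm_ne_zero_iff.2 (sub_ne_zero.2 (h i))))

lemma th_real {x : ℝ} {s : Finset (Fin D)} (h1 : ∀ i ∈ s, x < a i) (h2 : ∀ i ∉ s, a i < x) :
    th a x = s.card * π := by
  have : ∀ i, arccos (((x : ℂ) - a i).re / ‖(x : ℂ) - a i‖) = if i ∈ s then π else 0 := fun i => by
    rw [← Complex.ofReal_sub, Complex.ofReal_re, Complex.norm_real, Real.norm_eq_abs]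
    split_ifs with e
    · rw [abs_of_neg (sub_neg.2 (h1 i e)), div_neg, div_self (sub_neg.2 (h1 i e)).ne, arccos_neg_one]
    · rw [abs_of_pos (sub_pos.2 (h2 i e)), div_self (sub_pos.2 (h2 i e)).ne', arccos_one]
  simp only [th, this]
  simp

lemma polar_up (h : ∀ i, y ≠ a i) (h0 : 0 ≤ y.im) :
    ∏ i, (y - a i) = (∏ i, ‖y - a i‖ : ℝ) * Complex.exp (th a y * Complex.I) := by
  rw [th, Complex.ofReal_sum, Finset.sum_mul, Complex.exp_sum, Complex.ofReal_prod,
    ← Finset.prod_mul_distrib]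
  refine Finset.prod_congr rfl fun i _ => ?_
  rw [← Complex.arg_of_im_nonneg_of_ne_zero (by simpa using h0) (sub_ne_zero.2 (h i)),
    Complex.norm_mul_exp_arg_mul_I]

lemma polar (h : ∀ i, y ≠ a i) : ∃ ρ > 0, (∏ i, (y - a i)).re = ρ * cos (th a y) ∧
    (0 ≤ y.im → (∏ i, (y - a i)).im = ρ * sin (th a y)) ∧
    (y.im ≤ 0 → (∏ i, (y - a i)).im = -(ρ * sin (th a y))) := by
  have up : ∀ y : ℂ, (∀ i, y ≠ a i) → 0 ≤ y.im →
      (∏ i, (y - a i)).re = (∏ i, ‖y - a i‖) * cos (th a y) ∧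
      (∏ i, (y - a i)).im = (∏ i, ‖y - a i‖) * sin (th a y) := fun y h h0 => by
    rw [polar_up h h0, Complex.re_ofReal_mul, Complex.im_ofReal_mul, Complex.exp_ofReal_mul_I_re,
      Complex.exp_ofReal_mul_I_im]
    exact ⟨rfl, rfl⟩
  have dn : y.im ≤ 0 → (∏ i, (y - a i)).re = (∏ i, ‖y - a i‖) * cos (th a y) ∧
      (∏ i, (y - a i)).im = -((∏ i, ‖y - a i‖) * sin (th a y)) := fun h0 => by
    have := up ((starRingEnd ℂ) y) (fun i e => h i (by simpa using congrArg (starRingEnd ℂ) e))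
      (by simpa using h0)
    have e : ∀ i, (starRingEnd ℂ) y - a i = (starRingEnd ℂ) (y - a i) := fun i => by simp
    simp only [e, ← map_prod, Complex.norm_conj, th_conj, Complex.conj_re, Complex.conj_im] at this
    exact ⟨this.1, by rw [← this.2, neg_neg]⟩
  exact ⟨∏ i, ‖y - a i‖, Finset.prod_pos fun i _ => norm_pos_iff.2 (sub_ne_zero.2 (h i)),
    (le_total 0 y.im).elim (fun e => (up y h e).1) fun e => (dn e).1, fun e => (up y h e).2,
    fun e => (dn e).2⟩

lemma th_onto {R : ℝ} (hR : ∀ i, |a i| < R) (h0 : 0 ≤ R) {θ : ℝ} (h : θ ∈ Icc 0 (D * π)) :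
    ∃ y : ℂ, ‖y‖ = R ∧ 0 ≤ y.im ∧ th a y = θ := by
  have n : ∀ s : ℝ, ‖R * Complex.exp (s * Complex.I)‖ = R := fun s => by
    simp [abs_of_nonneg h0]
  have c : Continuous fun s : ℝ => th a (R * Complex.exp (s * Complex.I)) :=
    continuous_iff_continuousAt.2 fun s => ContinuousAt.comp
      (f := fun s : ℝ => R * Complex.exp (s * Complex.I)) (th_cont fun i e => by
        have := n s
        rw [e, Complex.norm_real] at this
        exact (hR i).ne this) (by fun_prop)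
  have e0 : th a (R * Complex.exp ((0 : ℝ) * Complex.I)) = 0 := by
    simpa using th_real (a := a) (x := R) (s := ∅) (by simp) fun i _ => (abs_lt.1 (hR i)).2
  have e1 : th a (R * Complex.exp (π * Complex.I)) = D * π := by
    simpa using th_real (a := a) (x := -R) (s := Finset.univ)
      (fun i _ => (abs_lt.1 (hR i)).1) (by simp)
  obtain ⟨s, hs, e⟩ := intermediate_value_Icc pi_pos.le c.continuousOn (by rwa [e0, e1])
  refine ⟨_, n s, ?_, e⟩
  rw [Complex.im_ofReal_mul, Complex.exp_ofReal_mul_I_im]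
  exact mul_nonneg h0 (sin_nonneg_of_nonneg_of_le_pi hs.1 hs.2)

lemma rnd {x : ℝ} {n : ℤ} (h1 : n * π - π / 2 < x) (h2 : x < n * π + π / 2) :
    round (x / π) = n :=
  round_eq_iff.2 ⟨by rw [le_div_iff₀ pi_pos]; linarith, by rw [div_lt_iff₀ pi_pos]; linarith⟩

lemma rnd' {x : ℝ} (h : cos x ≠ 0) :
    round (x / π) * π - π / 2 < x ∧ x < round (x / π) * π + π / 2 := by
  obtain ⟨h1, h2⟩ := round_eq_iff.1 (rfl : round (x / π) = _)
  rw [le_div_iff₀ pi_pos] at h1
  rw [div_lt_iff₀ pi_pos] at h2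
  refine ⟨lt_of_le_of_ne (by linarith) fun e => h ?_, by linarith⟩
  rw [← e, cos_sub_pi_div_two, sin_int_mul_pi]

/-- The label of a point. -/
noncomputable def lbl (a : Fin D → ℝ) (y : ℂ) : ZMod (2 * D) :=
  if 0 ≤ y.im then round (th a y / π) else -round (th a y / π)

lemma neg_eq {n : ℤ} (h : n = 0 ∨ n = D) : -(n : ZMod (2 * D)) = n := by
  rcases h with rfl | rfl
  · simp
  · rw [neg_eq_iff_add_eq_zero, ← two_mul]
    exact_mod_cast ZMod.natCast_self (2 * D)

/-- Points at which the label behaves well. -/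
structure Good (a : Fin D → ℝ) (y : ℂ) : Prop where
  ne : ∀ i, y ≠ a i
  cs : cos (th a y) ≠ 0
  re : y.im = 0 → round (th a y / π) = 0 ∨ round (th a y / π) = D

lemma Good.conj (h : Good a y) : lbl a ((starRingEnd ℂ) y) = -lbl a y := by
  simp only [lbl, th_conj, Complex.conj_im, Left.nonneg_neg_iff]
  rcases lt_trichotomy y.im 0 with e | e | e
  · rw [if_pos e.le, if_neg e.not_ge, neg_neg]
  · rw [if_pos e.le, if_pos e.ge, neg_eq (h.re e)]
  · rw [if_neg e.not_ge, if_pos e.le]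

lemma Good.cont (h : Good a y) : ContinuousAt (lbl a) y := by
  obtain ⟨h1, h2⟩ := rnd' h.cs
  have e : ∀ᶠ z in 𝓝 y, round (th a z / π) = round (th a y / π) :=
    (((th_cont h.ne).eventually_const_lt h1).and ((th_cont h.ne).eventually_lt_const h2)).mono
      fun _ b => rnd b.1 b.2
  refine (continuousAt_const (y := lbl a y)).congr ?_
  have c := Complex.continuous_im.continuousAt (x := y)
  rcases lt_trichotomy y.im 0 with b | b | b
  · filter_upwards [e, c.eventually_lt_const b] with z z1 z2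
    rw [lbl, lbl, z1, if_neg b.not_ge, if_neg z2.not_ge]
  · filter_upwards [e] with z z1
    rw [lbl, lbl, z1, neg_eq (h.re b), ite_self, ite_self]
  · filter_upwards [e, c.eventually_const_lt b] with z z1 z2
    rw [lbl, lbl, z1, if_pos b.le, if_pos z2.le]

lemma win1 {x : ℝ} (h : |x| < π) (h1 : 0 < cos x) : |x| < π / 2 := by
  by_contra e
  rw [← cos_abs] at h1
  exact h1.not_ge (cos_nonpos_of_pi_div_two_le_of_le (not_lt.1 e) (by linarith [pi_pos]))

lemma win2 {x : ℝ} (h1 : cos x < 0) : π / 2 < |x| := by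
  by_contra e
  exact h1.not_ge (cos_nonneg_of_mem_Icc (abs_le.1 (not_lt.1 e)))

end Angle

section Main

open Real

variable {m : ℕ} {g : ℝ[X]} {κ k t : ℝ} {r : Fin m → ℝ} {a : Fin (m + 1) → ℝ} {y : ℂ}

lemma big {p : ℝ[X]} (h : 0 < p.natDegree) (K : ℝ) :
    ∀ᶠ b in atTop, ∀ z : ℂ, ‖z‖ = b → K < ‖aeval z p‖ := by
  have := ((p.map (algebraMap ℝ ℂ)).tendsto_norm_atTop (z := fun z : ℂ => z)
    (by rw [degree_map]; exact natDegree_pos_iff_degree_pos.1 h) tendsto_comap).eventually_gt_atTop K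
  simpa only [eval_map_algebraMap] using eventually_comap.1 this

lemma crit (h : derivative g = C κ * ∏ j, (X - C (r j))) (hκ : κ ≠ 0)
    (e : aeval y (derivative g) = 0) : ∃ j, y = r j := by
  simpa [h, hκ, Finset.prod_eq_zero_iff, sub_eq_zero] using e

lemma sys (hr : StrictMono r) (h : derivative g = C κ * ∏ j, (X - C (r j))) (hκ : κ ≠ 0)
    (hm : 0 < m) (hi : Injective fun j => g.eval (r j)) :
    Sys (fun z : ℂ => aeval z g) (fun j => (g.eval (r j) : ℝ)) 2 := by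
  let T : ℝ[X] → MvPolynomial Unit ℂ := fun p => (p.map (algebraMap ℝ ℂ)).toMvPolynomial ()
  have e : ∀ p y, MvPolynomial.eval y (T p) = aeval (y ()) p := fun p y => by
    simp [T, eval_map_algebraMap]
  have d : ∀ p, MvPolynomial.pderiv () (T p) = T (derivative p) := fun p => by
    simp only [T, toMvPolynomial, Derivation.map_aeval, derivative_map,
      MvPolynomial.pderiv_X_self, smul_eq_mul, mul_one]
  have z : ∀ j, aeval (r j : ℂ) (∏ j, (X - C (r j)) : ℝ[X]) = 0 := fun j => by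
    rw [map_prod]; exact Finset.prod_eq_zero (Finset.mem_univ j) (by simp)
  have v : ∀ j, aeval (r j : ℂ) g = (g.eval (r j) : ℝ) := fun j => aeval_ofReal (K := ℂ) g _
  have hd : 0 < (derivative g).natDegree := by
    rw [h, natDegree_C_mul hκ, natDegree_prod_of_monic _ _ fun _ _ => monic_X_sub_C _]
    simpa using hm
  have s := all.sys Unit (Fin m) (T g) (fun j => (g.eval (r j) : ℝ)) (fun j _ => r j)
    ⟨Complex.ofReal_injective.comp hi, fun j _ => by rw [d, e, h, map_mul, z, mul_zero],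
      fun j => by rw [e, v], fun y hy => by
        obtain ⟨j, hj⟩ := crit h hκ (y := y ()) (by rw [← e, ← d]; exact hy ())
        exact ⟨j, funext fun _ => hj⟩, fun j => by
        rw [Matrix.det_unique, Hess, Matrix.of_apply, d, d, e, h, derivative_C_mul, map_mul]
        exact mul_ne_zero (by simpa using hκ)
          ((separable_prod_X_sub_C_iff.2 hr.injective).aeval_derivative_ne_zero (z j))⟩
    (by
      obtain ⟨R, hR⟩ := eventually_atTop.1 (big hd 1)
      refine ⟨R, fun y hy => ?_⟩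
      have := hR _ hy (y ()) (by rw [Pi.norm_def]; simp)
      simp only [n2, Finset.univ_unique, Finset.sum_singleton]
      rw [d, e]
      nlinarith)
  let f := (Homeomorph.funUnique Unit ℂ).symm
  have p : ∀ A : Set ℂ, (fun z : ℂ => aeval z g) ⁻¹' A =
      f ⁻¹' ((fun y => MvPolynomial.eval y (T g)) ⁻¹' A) := fun A => by
    ext; simp [e, f]
  refine ⟨g.continuous_aeval, s.inj, fun ζ A B a b c k => ?_, fun ζ A B i a b c d e k => ?_⟩
  · rw [p, p, hs_preimage]; exact s.ac ζ A B a b c k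
  · rw [p, p, hs_preimage]; exact s.cell ζ A B i a b c d e k

lemma pg (g : ℝ[X]) {ζ : ℂ} (hζ : ζ ≠ 0) : PG (fun z : ℂ => aeval z g)
    (fun y => ζ * (starRingEnd ℂ) (aeval y (derivative g))) (fun y => ‖aeval y (derivative g)‖ ^ 2)
    ζ (‖ζ‖ ^ 2) := by
  have hd : ContDiff ℝ 1 fun y : ℂ => aeval y (derivative g) :=
    (contDiff_aeval _ _).restrict_scalars ℝ
  refine ⟨(contDiff_const.mul (Complex.conjCLE.contDiff.comp hd)).locallyLipschitz,
    (hd.norm_sq ℂ).locallyLipschitz, by positivity, fun y => by simp [mul_pow], fun y =>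
    ⟨_, (g.hasDerivAt_aeval y).hasFDerivAt.restrictScalars ℝ, ?_⟩⟩
  simp [mul_assoc, Complex.conj_mul', mul_comm _ ζ]

section Fac

variable (hf : g - C t = C k * ∏ i, (X - C (a i)))
include hf

lemma pol (h : aeval y g ≠ t) (p : ℕ) : (∀ i, y ≠ a i) ∧ ∃ ρ > 0,
    (aeval y g).re - t = k * (-1) ^ p * (ρ * cos (th a y - p * π)) ∧
    (0 ≤ y.im → (aeval y g).im = k * (-1) ^ p * (ρ * sin (th a y - p * π))) ∧
    (y.im ≤ 0 → (aeval y g).im = -(k * (-1) ^ p * (ρ * sin (th a y - p * π)))) := by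
  have e : aeval y g = t + k * ∏ i, (y - a i) := by
    have := congrArg (aeval y) hf
    simp only [map_sub, map_mul, map_prod, aeval_C, aeval_X, Complex.coe_algebraMap] at this
    linear_combination this
  have n : ∀ i, y ≠ a i := fun i b => h (by
    rw [e, Finset.prod_eq_zero (Finset.mem_univ i) (sub_eq_zero.2 b)]; simp)
  obtain ⟨ρ, r0, r1, r2, r3⟩ := polar n
  have s : ((-1 : ℝ) ^ p) * (-1) ^ p = 1 := by rw [← mul_pow]; simp
  refine ⟨n, ρ, r0, ?_, fun b => ?_, fun b => ?_⟩ <;>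
    simp only [e, Complex.add_re, Complex.add_im, Complex.re_ofReal_mul, Complex.im_ofReal_mul,
      Complex.ofReal_re, Complex.ofReal_im, cos_sub_nat_mul_pi, sin_sub_nat_mul_pi]
  · rw [r1]; linear_combination (-k * ρ * cos (th a y)) * s
  · rw [r2 b]; linear_combination (-k * ρ * sin (th a y)) * s
  · rw [r3 b]; linear_combination (k * ρ * sin (th a y)) * s

lemma good : ∃ K, -K ≤ t ∧ ∀ y : ℂ, (aeval y g).re < -K → Good a y := by
  obtain ⟨R, hR⟩ := (finite_range fun i => |a i|).bddAbove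
  obtain ⟨K, hK⟩ := (isCompact_Icc (a := -R) (b := R)).exists_bound_of_continuousOn
    g.continuous.continuousOn
  refine ⟨max K (-t), by linarith [le_max_right K (-t)], fun y hy => ?_⟩
  have h1 : (aeval y g).re < t := by linarith [le_max_right K (-t)]
  obtain ⟨n, ρ, -, r1, -⟩ := pol hf (y := y) (fun e => by simp [e] at h1) 0
  refine ⟨n, fun e => ?_, fun e => ?_⟩
  · simp only [Nat.cast_zero, zero_mul, sub_zero, e, mul_zero] at r1
    linarith
  · obtain ⟨x, rfl⟩ : ∃ x : ℝ, y = x := ⟨y.re, Complex.ext rfl e⟩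
    have h2 : (aeval (x : ℂ) g).re = g.eval x :=
      congrArg Complex.re (aeval_ofReal (K := ℂ) g x)
    have h3 := fun i => abs_le.1 (hR (mem_range_self i))
    by_cases b : x < -R
    · right
      rw [th_real (s := Finset.univ) (fun i _ => b.trans_le (h3 i).1) (by simp),
        mul_div_cancel_right₀ _ pi_ne_zero, round_natCast]
      simp
    by_cases b' : R < x
    · left
      rw [th_real (s := ∅) (by simp) fun i _ => (h3 i).2.trans_lt b']
      simp
    · have := (abs_le.1 (hK x ⟨not_lt.1 b, not_lt.1 b'⟩)).1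
      linarith [le_max_left K (-t)]

lemma occ (hd : 0 < (g - C t).natDegree) (M : ℝ) {q : ℕ} (hq : q ≤ m + 1) (h : k * (-1) ^ q < 0) :
    ∃ y : ℂ, (aeval y g).re < -M ∧ lbl a y = q := by
  have f3 : ∀ᶠ x in atTop, ∀ i, |a i| < x := eventually_all.2 fun j => eventually_gt_atTop _
  obtain ⟨R, R1, R2, R3⟩ := ((big hd (|t + M|)).and (f3.and (eventually_ge_atTop 0))).exists
  obtain ⟨y, y1, y2, y3⟩ := th_onto R2 R3 (θ := q * π)
    ⟨by positivity, mul_le_mul_of_nonneg_right (by exact_mod_cast hq) pi_pos.le⟩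
  have b := R1 y y1
  rw [map_sub, aeval_C, Complex.coe_algebraMap] at b
  obtain ⟨-, ρ, r0, r1, r2, -⟩ := pol hf (y := y)
    (fun e => by rw [e, sub_self, norm_zero] at b; exact b.not_ge (abs_nonneg _)) q
  rw [y3, sub_self] at r1 r2
  refine ⟨y, ?_, by rw [lbl, if_pos y2, y3, mul_div_cancel_right₀ _ pi_ne_zero, round_natCast,
    Int.cast_natCast]⟩
  have e : aeval y g - t = ((aeval y g).re - t : ℝ) :=
    Complex.ext (by simp) (by simpa using r2 y2)
  rw [cos_zero, mul_one] at r1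
  rw [e, Complex.norm_real, Real.norm_eq_abs,
    abs_of_neg (r1.trans_lt (mul_neg_of_neg_of_pos h r0))] at b
  linarith [le_abs_self (t + M)]

lemma occ' (hd : 0 < (g - C t).natDegree) (hk : k ≠ 0) {M : ℝ}
    (hM : ∀ y : ℂ, (aeval y g).re < -M → Good a y) :
    ∃ y : Fin (m + 1) → ℂ, (∀ i, (aeval (y i) g).re < -M) ∧ Injective fun i => lbl a (y i) := by
  obtain ⟨ε, e1, e2⟩ : ∃ ε : ℕ, ε ≤ 1 ∧ k * (-1) ^ ε < 0 :=
    hk.lt_or_gt.elim (fun e => ⟨0, zero_le_one, by simpa using e⟩)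
      fun e => ⟨1, le_rfl, by simpa using e⟩
  have : ∀ i : Fin (m + 1), ∃ y : ℂ, (aeval y g).re < -M ∧ lbl a y = (ε + 2 * i : ℕ) := by
    intro i
    by_cases b : ε + 2 * i ≤ m + 1
    · exact occ hf hd M b (by rwa [pow_add, pow_mul, neg_one_sq, one_pow, mul_one])
    · obtain ⟨y, y1, y2⟩ := occ hf hd M (q := ε + 2 * (m + 1 - ε - i)) (by omega)
        (by rwa [pow_add, pow_mul, neg_one_sq, one_pow, mul_one])
      refine ⟨(starRingEnd ℂ) y, by rwa [aeval_conj (K := ℂ)], ?_⟩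
      rw [(hM y y1).conj, y2, neg_eq_iff_add_eq_zero, ← Nat.cast_add,
        show ε + 2 * (m + 1 - ε - i) + (ε + 2 * i) = 2 * (m + 1) by omega, ZMod.natCast_self]
  choose y y1 y2 using this
  refine ⟨y, y1, fun i j e => ?_⟩
  have := congrArg ZMod.val ((y2 i).symm.trans (e.trans (y2 j)))
  rw [ZMod.val_cast_of_lt (by omega), ZMod.val_cast_of_lt (by omega)] at this
  exact Fin.ext (by omega)

lemma lbl_val {p : ℕ} (h : |th a y - p * π| < π) (h1 : (aeval y g).re < t)
    (h2 : 0 < (aeval y g).im) :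
    (k * (-1) ^ p < 0 → lbl a y = p ∨ lbl a y = -p) ∧
    (0 < k * (-1) ^ p → lbl a y = p + 1 ∨ lbl a y = -(p - 1)) := by
  obtain ⟨-, ρ, r0, r1, r2, r3⟩ := pol hf (y := y) (fun e => by simp [e] at h1) p
  have h0 := sub_neg.2 h1
  rw [r1] at h0
  refine ⟨fun b => ?_, fun b => ?_⟩
  · have := abs_lt.1 (win1 h ((mul_pos_iff_of_pos_left r0).1 (pos_of_mul_neg_right h0 b.le)))
    rw [lbl, rnd (n := p) (by push_cast; linarith) (by push_cast; linarith), Int.cast_natCast]
    split_ifs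
    exacts [Or.inl rfl, Or.inr rfl]
  · have w := win2 (neg_of_mul_neg_right (neg_of_mul_neg_right h0 b.le) r0.le)
    obtain ⟨h3, h4⟩ := abs_lt.1 h
    by_cases e : 0 ≤ y.im
    · rw [r2 e] at h2
      have s := (mul_pos_iff_of_pos_left r0).1 ((mul_pos_iff_of_pos_left b).1 h2)
      have : 0 < th a y - p * π := not_le.1 fun c =>
        s.not_ge (sin_nonpos_of_nonpos_of_neg_pi_le c h3.le)
      rw [abs_of_pos this] at w
      left
      rw [lbl, if_pos e, rnd (n := p + 1) (by push_cast; linarith) (by push_cast; linarith)]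
      push_cast; rfl
    · rw [r3 (not_le.1 e).le, neg_pos] at h2
      have s := neg_of_mul_neg_right (neg_of_mul_neg_right h2 b.le) r0.le
      have : th a y - p * π < 0 := not_le.1 fun c =>
        s.not_ge (sin_nonneg_of_nonneg_of_le_pi c h4.le)
      rw [abs_of_neg this] at w
      right
      rw [lbl, if_neg e, rnd (n := p - 1) (by push_cast; linarith) (by push_cast; linarith)]
      push_cast; rfl

lemma sep {p : ℕ} {c δ : ℝ} (h : 0 < k * (-1) ^ p * (c - t)) (hδ : δ < |c - t|)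
    (hy : aeval y g ∈ Wp c δ) : (∀ i, y ≠ a i) ∧ |th a y - p * π| ≠ π := by
  have key : (aeval y g).im = 0 → 0 < k * (-1) ^ p * ((aeval y g).re - t) := fun e => by
    obtain ⟨h1, h2⟩ := hy
    rw [e, add_zero] at h2
    rcases pos_and_pos_or_neg_and_neg_of_mul_pos h with b | b
    · rw [abs_of_pos b.2] at hδ
      exact mul_pos b.1 (by linarith)
    · rw [abs_of_neg b.2] at hδ
      exact mul_pos_of_neg_of_neg b.1 (by linarith)
  obtain ⟨n, ρ, r0, r1, r2, r3⟩ := pol hf (y := y) (fun e => by simp [e] at key) p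
  refine ⟨n, fun e => ?_⟩
  have s : sin (th a y - p * π) = 0 ∧ cos (th a y - p * π) = -1 := by
    rcases (abs_eq pi_pos.le).1 e with b | b <;> simp [b]
  have := key ((le_total 0 y.im).elim (fun b => by simp [r2 b, s.1]) fun b => by simp [r3 b, s.1])
  rw [r1, s.2] at this
  nlinarith [mul_self_nonneg (k * (-1) ^ p)]

lemma loc (hd : derivative g = C κ * ∏ j, (X - C (r j))) (hκ : κ ≠ 0) (hg : 0 < g.natDegree)
    {j : Fin m} (hj : th a (r j) = (m - j : ℕ) * π) {δ M : ℝ}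
    (h : 0 < k * (-1) ^ (m - j) * (g.eval (r j) - t)) (hδ : δ < |g.eval (r j) - t|)
    (hδ' : ∀ l ≠ j, δ < |g.eval (r l) - g.eval (r j)|) {B : Set ℂ}
    (hB : (fun z : ℂ => aeval z g) ⁻¹' Hl M ⊆ B) {x : Ch (Sx ℂ)}
    (hx : x ∈ Zs ((fun z : ℂ => aeval z g) ⁻¹' Wp (g.eval (r j)) δ)
      ((fun z : ℂ => aeval z g) ⁻¹' (Wp (g.eval (r j)) δ ∩ Hl M)) 2) :
    ∃ z, sd z ∈ Cs {y | |th a y - (m - j : ℕ) * π| < π ∧ aeval y g ∈ Wp (g.eval (r j)) δ ∩ Hl M} 1 ∧
      x + z ∈ Bs univ B 2 := by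
  set c := g.eval (r j)
  set p := m - j
  have oU : IsOpen {y : ℂ | ∀ i, y ≠ a i} := by
    rw [ofPred_forall]; exact isOpen_iInter_of_finite fun _ => isOpen_ne
  have cU : ContinuousOn (fun y => |th a y - p * π|) {y : ℂ | ∀ i, y ≠ a i} := fun y hy =>
    ((th_cont hy).sub continuousAt_const).abs.continuousWithinAt
  have oS := cU.isOpen_inter_preimage oU (isOpen_Iio (a := π))
  have oS' := cU.isOpen_inter_preimage oU (isOpen_Ioi (a := π))
  have dj : Disjoint ({y : ℂ | ∀ i, y ≠ a i} ∩ (fun y => |th a y - p * π|) ⁻¹' Iio π)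
      ({y : ℂ | ∀ i, y ≠ a i} ∩ (fun y => |th a y - p * π|) ⁻¹' Ioi π) :=
    disjoint_left.2 fun y b b' => lt_asymm (a := π) b'.2 b.2
  have cov : (fun z : ℂ => aeval z g) ⁻¹' Wp c δ ⊆
      {y : ℂ | ∀ i, y ≠ a i} ∩ (fun y => |th a y - p * π|) ⁻¹' Iio π ∪
      {y : ℂ | ∀ i, y ≠ a i} ∩ (fun y => |th a y - p * π|) ⁻¹' Ioi π := fun y hy =>
    (sep hf h hδ hy).2.lt_or_gt.imp (fun b => ⟨(sep hf h hδ hy).1, b⟩)
      fun b => ⟨(sep hf h hδ hy).1, b⟩
  have oW : IsOpen (Wp c δ) := (isOpen_lt Complex.continuous_re continuous_const).inter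
    (isOpen_lt continuous_const (Complex.continuous_re.add Complex.continuous_im))
  have mW : Mono (-1 + Complex.I) (Wp c δ) := fun z hz s hs =>
    ⟨by simp; linarith [hz.1], by simp; linarith [hz.2]⟩
  have ac := k1S (hlS flowS) ℂ ℂ _ _ _ _ _ (Wp c δ) (Wp c δ ∩ Hl M) _ _
    (pg g (ζ := -1 + Complex.I) fun e => by simpa using congrArg Complex.im e)
    ⟨oW, oW.inter (isOpen_lt Complex.continuous_re continuous_const), inter_subset_left, mW,
      mW.inter fun z hz s hs => by simp only [Hl, mem_ofPred_eq] at *; simp; linarith,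
      fun z hz => ⟨|z.re + M| + 1, by positivity, mW z hz _ (by positivity), by
        simp only [Hl, mem_ofPred_eq]; simp; linarith [le_abs_self (z.re + M)]⟩⟩
    oS' oS dj.symm (union_comm _ _ ▸ cov) fun Z hZ hs => by
      have k1 : IsCompact ((fun z : ℂ => aeval z g) ⁻¹' Z) := by
        have := ((g.map (algebraMap ℝ ℂ)).isProperMap_eval
          (by rw [degree_map]; exact natDegree_pos_iff_degree_pos.1 hg)).isCompact_preimage hZ
        simpa only [preimage, eval_map_algebraMap] using this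
      obtain ⟨η, e0, e⟩ := (k1.diff oS).exists_forall_le'
        (f := fun y => ‖aeval y (derivative g)‖ ^ 2) (by fun_prop) (a := 0) fun y hy => by
          refine pow_pos (norm_pos_iff.2 fun b => hy.2 ?_) 2
          obtain ⟨l, rfl⟩ := crit hd hκ b
          have w : aeval (r l : ℂ) g ∈ Wp c δ := (hs hy.1).1
          obtain rfl : l = j := by_contra fun n => by
            rw [show aeval (r l : ℂ) g = (g.eval (r l) : ℝ) from aeval_ofReal (K := ℂ) g _] at w
            obtain ⟨w1, w2⟩ := w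
            simp only [Complex.ofReal_re, Complex.ofReal_im] at w1 w2
            exact (hδ' l n).not_gt (abs_lt.2 ⟨by linarith, by linarith⟩)
          exact ⟨(sep hf h hδ w).1, by simpa [hj] using pi_pos⟩
      exact ⟨η, e0, fun y hy b => e y ⟨b, disjoint_right.1 dj hy⟩⟩
  obtain ⟨z, z1, z2⟩ := split oS oS' dj cov ac (fun y hy => hB hy.2) hx
  refine ⟨z, Cs_mono ?_ 1 z1, z2⟩
  exact fun y hy => ⟨hy.2.2, hy.1⟩

end Fac

lemma comb {s : Fin m → Prop} (hs : ∀ j l : Fin m, (j : ℕ) = l + 1 → ¬ (s j ∧ s l))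
    {φ : Fin m → Ch (ZMod (2 * (m + 1)))}
    (h1 : ∀ j, s j → φ j = sg (((m - j : ℕ) : ZMod (2 * (m + 1))) + 1) +
      sg (-(((m - j : ℕ) : ZMod (2 * (m + 1))) - 1)))
    (h2 : ∀ j, ¬ s j → φ j = sg ((m - j : ℕ) : ZMod (2 * (m + 1))) +
      sg (-((m - j : ℕ) : ZMod (2 * (m + 1))))) (j : Fin m) :
    mp Neg.neg (φ j) + ∑ l, L1 s j l • φ l = 0 := by
  classical
  by_cases b : s j
  swap
  · have : ∑ l, L1 s j l • φ l = φ j := by simp [L1, b]
    rw [this, h2 j b, map_add, mp_sg, mp_sg, neg_neg, add_comm (sg (-_)), aa]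
  let f : ZMod (2 * (m + 1)) → Ch (ZMod (2 * (m + 1))) := fun q => sg q + sg (-q)
  have e : ∀ l, L1 s j l • φ l = (if j = l then φ j else 0) +
      ((if (j : ℕ) = l + 1 then f ((m - j : ℕ) + 1) else 0) +
        if (l : ℕ) = j + 1 then f ((m - j : ℕ) - 1) else 0) := fun l => by
    simp only [L1, Matrix.of_apply, b, true_and]
    by_cases e1 : j = l
    · subst e1; simp
    by_cases e2 : (j : ℕ) = l + 1
    · rw [if_pos (Or.inr (Or.inl e2)), if_neg e1, if_pos e2, if_neg (by omega), one_smul,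
        h2 l fun c => hs j l e2 ⟨b, c⟩, show m - l = m - j + 1 by omega, Nat.cast_succ, zero_add,
        add_zero]
    by_cases e3 : (l : ℕ) = j + 1
    · rw [if_pos (Or.inr (Or.inr e3)), if_neg e1, if_neg e2, if_pos e3, one_smul,
        h2 l fun c => hs l j e3 ⟨c, b⟩, show m - j = m - l + 1 by omega, Nat.cast_succ, zero_add,
        zero_add, add_sub_cancel_right]
    · simp [e1, e2, e3]
  have s1 : ∑ l : Fin m, (if (j : ℕ) = l + 1 then f ((m - j : ℕ) + 1) else 0) =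
      f ((m - j : ℕ) + 1) := by
    by_cases c : (j : ℕ) = 0
    · rw [Finset.sum_eq_zero fun l _ => if_neg (by omega), c]
      have := neg_eq (D := m + 1) (n := (m + 1 : ℕ)) (Or.inr rfl)
      push_cast at this
      simp only [f, Nat.sub_zero, this, aa]
    · rw [Finset.sum_eq_single (⟨j - 1, by omega⟩ : Fin m)
        (fun l _ n => if_neg fun c => n (Fin.ext (by simp only; omega))) (by simp),
        if_pos (by simp only; omega)]
  have s2 : ∑ l : Fin m, (if (l : ℕ) = j + 1 then f ((m - j : ℕ) - 1) else 0) =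
      f ((m - j : ℕ) - 1) := by
    by_cases c : (j : ℕ) + 1 = m
    · rw [Finset.sum_eq_zero fun l _ => if_neg (by omega), show m - j = 1 by omega]
      simp [f, aa]
    · rw [Finset.sum_eq_single (⟨j + 1, by omega⟩ : Fin m)
        (fun l _ n => if_neg fun c => n (Fin.ext c)) (by simp), if_pos rfl]
  simp only [e, Finset.sum_add_distrib, s1, s2, Finset.sum_ite_eq, Finset.mem_univ, if_true]
  rw [h1 j b, map_add, mp_sg, mp_sg, neg_neg]
  simp only [f]
  linear_combination (norm := abel1) aa (sg (((m - j : ℕ) : ZMod (2 * (m + 1))) + 1)) +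
    aa (sg (-(((m - j : ℕ) : ZMod (2 * (m + 1))) + 1))) +
    aa (sg (((m - j : ℕ) : ZMod (2 * (m + 1))) - 1)) +
    aa (sg (-(((m - j : ℕ) : ZMod (2 * (m + 1))) - 1)))

end Main

end VOv

open VOv in
theorem ovS (h : GenL) : OvS := by
  intro m g κ t r hr hd hs hi
  rcases m.eq_zero_or_pos with rfl | hm
  · exact ⟨0, fun _ _ _ _ _ _ => ⟨Fin.elim0, Fin.elim0, fun i => i.elim0,
      fun _ _ => Subsingleton.elim _ _, fun i => i.elim0⟩⟩
  have hκ : κ ≠ 0 := fun e => by simpa [e] using hs ⟨0, hm⟩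
  obtain ⟨a, hf, ha⟩ := roots hr hd hκ hs
  have d1 := (deg hd hκ t).1
  have d0 : 0 < g.natDegree := by rw [← natDegree_sub_C (a := t), d1]; omega
  have hs' : ∀ j : Fin m, 0 < κ / (m + 1) * (-1) ^ (m - j) * (g.eval (r j) - t) := fun j => by
    rw [div_mul_eq_mul_div, div_mul_eq_mul_div]
    exact div_pos (hs j) (by positivity)
  have hj : ∀ j : Fin m, th a (r j) = (m - j : ℕ) * Real.pi := fun j => by
    rw [th_real (s := Finset.Ioi j.castSucc) (fun i b => (ha i j).2 (Finset.mem_Ioi.1 b :))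
      fun i b => (ha i j).1 (not_lt.1 (mt Finset.mem_Ioi.2 b) :), Fin.card_Ioi]
    rfl
  obtain ⟨M₁, h₁⟩ := h ℂ (Fin m) _ _ 2 (sys hr hd hκ hm hi)
  obtain ⟨K, k1, k2⟩ := good hf
  obtain ⟨N, hN⟩ := (finite_range fun j => |g.eval (r j)| + |g.eval (r j) - t|).bddAbove
  refine ⟨max M₁ (max K N), fun M' M δ m1 m2 δ0 => ?_⟩
  simp only [max_le_iff] at m1
  have ev : ∀ x : ℝ, x ≠ 0 → ∀ᶠ η in 𝓝[>] (0 : ℝ), η < |x| := fun x hx =>
    mem_nhdsWithin_of_mem_nhds (gt_mem_nhds (abs_pos.2 hx))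
  have ev1 : ∀ᶠ η in 𝓝[>] (0 : ℝ), ∀ j, η < |g.eval (r j) - t| :=
    eventually_all.2 fun j => ev _ (right_ne_zero_of_mul (hs j).ne')
  have ev2 : ∀ᶠ η in 𝓝[>] (0 : ℝ), ∀ j, ∀ l ≠ j, η < |g.eval (r l) - g.eval (r j)| :=
    eventually_all.2 fun j => eventually_all.2 fun l => eventually_all.2 fun n =>
      ev _ (sub_ne_zero.2 (hi.ne n))
  obtain ⟨η, ⟨η1, η2⟩, η3, η0⟩ := ((ev1.and ev2).and ((ev δ δ0.ne').and self_mem_nhdsWithin)).exists
  rw [abs_of_pos δ0] at η3
  obtain ⟨r1, u, u1, u2⟩ := h₁ M' M η m1.1 m2 η0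
  set G := fun z : ℂ => aeval z g
  have gd : ∀ y : ℂ, (aeval y g).re < -M' → Good a y := fun y hy => k2 y (by linarith [m1.2.1])
  have cl : ContinuousOn (lbl a) (G ⁻¹' Hl M') := fun y hy => (gd y hy).cont.continuousWithinAt
  obtain ⟨y, y1, y2⟩ := occ' hf (by omega) (by positivity) gd
  have inj := fun x => Ph_inj (x := x) cl (by rw [r1, Fintype.card_fin]) y1 y2
  have hB : G ⁻¹' Hl M ⊆ G ⁻¹' Hl M' := fun y hy => lt_of_lt_of_le hy (neg_le_neg m2)
  have uZ : ∀ j, u j ∈ Zs univ (G ⁻¹' Hl M') 2 := fun j =>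
    Zs_mono (subset_univ _) (fun y hy => hB hy.2) 2 (u1 j)
  have u0 : ∀ j, Ph (lbl a) (u j) ≠ 0 := fun j e => by
    have := u2 (Pi.single j 1) (by simpa [Pi.single_apply] using inj _ (uZ j) e)
    simpa using congrFun this j
  have val : ∀ (j : Fin m) q q', (∀ y : ℂ, |th a y - (m - j : ℕ) * Real.pi| < Real.pi →
      (aeval y g).re < t → 0 < (aeval y g).im → lbl a y = q ∨ lbl a y = q') →
      Ph (lbl a) (u j) = sg q + sg q' := fun j q q' e => by
    obtain ⟨z, z1, z2⟩ := loc hf hd hκ d0 (hj j) (hs' j) (η1 j) (η2 j) hB (u1 j)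
    have e1 := Ph_bd cl z2
    rw [map_add] at e1
    have := two (ℓ := lbl a) (fun y hy => by
      have b1 : (aeval y g).re < -M := hy.2.2
      have b2 := hy.2.1.2
      have b3 : _ + _ ≤ N := hN (mem_range_self j)
      exact e y hy.1 (by linarith [m1.2.1]) (by
        linarith [m1.2.2, η1 j, neg_abs_le (g.eval (r j))])) z1
    rw [← eq_of_add_eq_zero e1] at this
    exact this.resolve_left (u0 j)
  let cc : C(ℂ, ℂ) := ⟨starRingEnd ℂ, Complex.continuous_conj⟩
  have gc : ∀ y, G (cc y) = (starRingEnd ℂ) (G y) := fun y => aeval_conj (K := ℂ) g y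
  have sub : ∀ c, Wp c η ⊆ Wp c δ := fun c z hz => ⟨by linarith [hz.1], by linarith [hz.2]⟩
  have mt : ∀ c, MapsTo cc (G ⁻¹' Wp c η) (G ⁻¹' Wm c δ) := fun c y hy => by
    rw [mem_preimage, gc]; simpa [Wm, Wp] using sub c hy
  have mh : ∀ L, MapsTo cc (G ⁻¹' Hl L) (G ⁻¹' Hl L) := fun L y hy => by
    rw [mem_preimage, gc]; exact hy
  refine ⟨u, fun j => cm cc (u j), fun j => ⟨Zs_mono (preimage_mono (sub _))
    (preimage_mono (inter_subset_inter_left _ (sub _))) 2 (u1 j),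
    cm_Zs (mt _) ((mt _).inter_inter (mh _)) (u1 j)⟩, u2, fun j => inj _
      (add_mem (cm_Zs (mapsTo_univ _ _) (mh _) (uZ j))
        (sum_mem fun l _ => Submodule.smul_mem _ _ (uZ l))) ?_⟩
  rw [map_add, map_sum, Ph_cm (f := Neg.neg) (fun y hy => (gd y hy).conj) (uZ j).2]
  simp only [map_smul]
  refine comb (fun j l e b => ?_) (fun j b => val j _ _ fun y b1 b2 b3 =>
    (lbl_val hf b1 b2 b3).2 ((mul_pos_iff_of_pos_right (sub_pos.2 b)).1 (hs' j))) (fun j b =>
      val j _ _ fun y b1 b2 b3 => (lbl_val hf b1 b2 b3).1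
        (neg_of_mul_pos_left (hs' j) (sub_nonpos.2 (not_lt.1 b)))) j
  have b1 := (pos_iff_pos_of_mul_pos (hs j)).2 (sub_pos.2 b.1)
  have b2 := (pos_iff_pos_of_mul_pos (hs l)).2 (sub_pos.2 b.2)
  rw [show m - l = m - j + 1 by omega, pow_succ] at b2
  linarith

end Pool.Agent.Lib.MP_837412_lc
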