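import Pool.Agent.Lib.MP_837412_lc.RSt
import Pool.Agent.Lib.MP_837412_lc.UP
import Pool.Agent.Lib.MP_837412_lc.JLamP
import Pool.Agent.Lib.MP_837412_lc.JMat

/-!
The machine computes the large parameter and the order types along the first good arc.
-/

namespace Pool.Agent.Lib.MP_837412_lc

open Set Function Polynomial

namespace VPath

/-- The arc as a polynomial in the parameter. -/
noncomputable def ap (l : ℝ) (η : ℕ) : ℂ[X] :=
  Polynomial.C (l : ℂ) * (X + Polynomial.C (Complex.I * η) * (X * (1 - X)))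

lemma eval_ap (l : ℝ) (η : ℕ) (s : ℝ) : (ap l η).eval (s : ℂ) = arc l η s := by
  simp [ap, arc]

/-- The square of the absolute value on the real line. -/
noncomputable def rr (q : ℂ[X]) : ℝ[X] := rp q ^ 2 + ip q ^ 2

lemma eval_rr (q : ℂ[X]) (s : ℝ) : (rr q).eval s = 0 ↔ q.eval (s : ℂ) = 0 := by
  rw [rr, eval_add, eval_pow, eval_pow, eval_rp, eval_ip, Complex.ext_iff,
    add_eq_zero_iff_of_nonneg (sq_nonneg _) (sq_nonneg _)]
  simp

lemma good_iff (q : ℂ[X]) : (rr q ≠ 0 ∧ nr (nz (rr q)) = 0) ↔ ∀ s : ℝ, q.eval (s : ℂ) ≠ 0 := by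
  constructor
  · rintro ⟨a, b⟩ s e
    rw [nz, if_neg a] at b
    obtain ⟨j, hj, -⟩ := exists_rt a ((eval_rr q s).2 e)
    omega
  · intro h
    have a : rr q ≠ 0 := fun e => h 0 ((eval_rr q 0).1 (by rw [e, eval_zero]))
    refine ⟨a, by_contra fun b => ?_⟩
    rw [nz, if_neg a] at b
    exact h _ ((eval_rr q _).1 (rt_root (Nat.pos_of_ne_zero b)))

section Q

variable {σ : Type} [Fintype σ] [DecidableEq σ] (m : ℕ) (p : MvPolynomial σ ℂ)

lemma isP_Q : IsP Complex.ofReal (nQ σ m) fun t : ℝ => Qv (Lam m p t) :=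
  let ⟨q, a, b⟩ := (lamP trS σ m p).qv; ⟨q, a, fun t => b t⟩

lemma Qp_eval (l : ℂ) : (Qp m p).eval l = Qv (Lam m p l) := by
  obtain ⟨q, -, b⟩ := (lamP trS σ m p).qv
  rw [Qp, show (fun t : ℝ => Qv (Lam m p t)) = fun t : ℝ => q.eval (t : ℂ) from funext fun t => b t,
    pol_eval]
  exact (b l).symm

lemma nQ_eq : nQ σ m = (m ^ Fintype.card σ + m ^ Fintype.card σ * m ^ Fintype.card σ) *
    ((Fintype.card σ + 1) * (m + 1) + 1) := by
  rw [nQ, Fintype.card_sum, Fintype.card_prod,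
    show Fintype.card (Std σ m) = m ^ Fintype.card σ by simp, Kf]

end Q

variable {α β : Type} [RE α] [RE β] {σ : α → Type} [∀ a, Fintype (σ a)] {m : α → ℕ}

lemma szc (h : Sz σ m) {f : β → α} (hf : RPT f) : Sz (fun b => σ (f b)) fun b => m (f b) :=
  ⟨h.card.comp' hf, h.deg.comp' hf, h.bd.comp hf, fun _ => h.le _⟩

end VPath

open VPath in
theorem pathU (h1 : ChiU) (h2 : SignAtU) (h3 : TraceU) (h4 : LamU) : PathU := by
  intro α _ σ _ _ m p hs hp hu
  have k1 := hs.card
  have k2 := hs.deg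
  have k3 : RPB fun a => Fintype.card (σ a) := hs.bd.mono fun a =>
    (Nat.le_self_pow two_ne_zero _).trans (sizes (hs.le a)).2.2.2.2.2.1
  have n1 : RPT fun a => nQ (σ a) (m a) := by
    simp only [nQ_eq]
    exact ((k2.npow k1 k3).nadd ((k2.npow k1 k3).nmul (k2.npow k1 k3))).nmul
      (((k1.nadd (.const 1)).nmul (k2.nadd (.const 1))).nadd (.const 1))
  have n2 : RPB fun a => nQ (σ a) (m a) := hs.bd.mono fun a => (sizes (hs.le a)).2.2.2.1
  have lm : ∀ (β : Type) [RE β] (f : β → α) (l : β → ℂ), RPT f → RPT l →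
      PC fun b => Lam (m (f b)) (p (f b)) (l b) := fun β _ f l hf hl =>
    h4 β (fun b => σ (f b)) (fun b => m (f b)) (fun b => p (f b)) l (szc hs hf) (fun b => hp _)
      (hu.comp' hf) hl
  have q : RPT fun a => Qp (m a) (p a) :=
    RPT.pol n1 n2 (fun a => isP_Q (m a) (p a)) (h1.qv (lm (α × Un) Prod.fst
      (fun x => ((x.2.val : ℝ) : ℂ)) (.fst .id') (RPT.ofReal (.natCast (.unVal (.snd .id'))))))
  refine ⟨q.cb, fun l hl => ?_⟩
  have r : RPT fun x : α × ℕ => rr ((Qp (m x.1) (p x.1)).comp (ap (l x.1) x.2)) := by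
    have a : RPT fun x : α × ℕ => ap (l x.1) x.2 :=
      (RPT.polyC (.ofReal (hl.comp' (.fst .id')))).mul (RPT.polyX.add
        ((RPT.polyC (RPT.cI.mul (.natCast (.snd .id')))).mul (RPT.polyX.mul
          (RPT.one.sub' .polyX))))
    have b := (q.comp' (f := fun x : α × ℕ => x.1) (.fst .id')).comp a
    exact b.rp.sq.add b.ip.sq
  have e : RPT fun a => eta (m a) (p a) (l a) := by
    classical
    refine RPT.ogetD (RPT.find? (.range (n1.nadd (.const 1)) (n2.add (.const 1))) ?_) (.const 0)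
    refine (RPT.decide_and (i := fun _ => inferInstance) (j := fun _ => inferInstance)
      (k := fun _ => inferInstance) (r.decide_ne .zero) (RPT.decide_eq (h2 _ _ _ (fun _ => 0) r.nz r
        (.const 0) fun _ => nz_ne_zero _).1 (.const 0))).of_eq fun x => ?_
    rw [decide_eq_decide, good_iff]
    simp only [eval_comp, eval_ap, Qp_eval]
  exact h3 α (fun a => Std (σ a) (m a))
    (fun a s => Lam (m a) (p a) (arc (l a) (eta (m a) (p a) (l a)) s))
    (fun a => (Kf (σ a) (m a) + 1) * 2)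
    ((((k1.nadd (.const 1)).nmul (k2.nadd (.const 1))).nadd (.const 1)).nmul (.const 2))
    (hs.bd.mono fun a => le_trans (Nat.le_add_right _ 2) (sizes (hs.le a)).2.2.2.2.1)
    (fun a => (lamP trS (σ a) (m a) (p a)).comp (isP_arc _ _))
    (lm (α × ℝ) Prod.fst _ (.fst .id')
      (RPT.arc (hl.comp' (.fst .id')) (e.comp' (.fst .id')) (.snd .id')))

end Pool.Agent.Lib.MP_837412_lc
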