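import Pool.Agent.Lib.MP_837412_lc.USt

/-!
The rank of a table of bits in polynomial time: elimination column by column.
-/

namespace Pool.Agent.Lib.MP_837412_lc

open Pool.Agent.Shared.Mod2 Set
open Pool.Agent.Shared.PolyTime (PT PB)

namespace VRank

/-- The sum of two rows on the positions `R`. -/
def xr (R : List ℕ) (u v : List Bool) : List Bool :=
  R.map fun i => xor (u.getD i false) (v.getD i false)

/-- Clear the column `j`. -/
def cl (R : List ℕ) (s : ℕ × Ml) (j : ℕ) : ℕ × Ml :=
  (s.2.find? fun v => v.getD j false).elim s fun p =>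
    (s.1 + 1, s.2.map fun v => cond (v.getD j false) (xr R v p) v)

/-- The span of the rows. -/
def sp (n : ℕ) (V : Ml) : Submodule F (Fin n → F) := Submodule.span F {x | ∃ v ∈ V, vec n v = x}

/-- The algorithm. -/
def rank2 (a : ℕ × Ml) : ℕ :=
  ((List.range (min a.1 (Shared.PolyTime.sz a.2))).foldl
    (cl (List.range (Shared.PolyTime.sz a.2))) (0, a.2)).1

theorem getD_ge {v : List Bool} {i : ℕ} (h : v.length ≤ i) : v.getD i false = false :=
  List.getD_eq_default _ _ h

theorem xr_getD {W : ℕ} {u v : List Bool} (hu : u.length ≤ W) (hv : v.length ≤ W) (i : ℕ) :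
    (xr (List.range W) u v).getD i false = xor (u.getD i false) (v.getD i false) := by
  by_cases h : i < W
  · simp [xr, List.getD_eq_getElem?_getD, h]
  · rw [getD_ge (v := u) (by omega), getD_ge (v := v) (by omega), getD_ge (by simp [xr]; omega)]
    rfl

theorem vec_xr {W : ℕ} {u v : List Bool} (hu : u.length ≤ W) (hv : v.length ≤ W) (n : ℕ) :
    vec n (xr (List.range W) u v) = vec n u + vec n v := by
  funext i
  simp only [vec, Pi.add_apply, xr_getD hu hv]
  cases u.getD i false <;> cases v.getD i false <;> decide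

theorem cl_cases (R : List ℕ) (s : ℕ × Ml) (j : ℕ) :
    (cl R s j = s ∧ ∀ v ∈ s.2, v.getD j false = false) ∨ ∃ p ∈ s.2, p.getD j false = true ∧
      cl R s j = (s.1 + 1, s.2.map fun v => cond (v.getD j false) (xr R v p) v) := by
  rcases hp : s.2.find? fun v => v.getD j false with _ | p
  · exact Or.inl ⟨by rw [cl, hp]; rfl, fun v hv => by simpa using List.find?_eq_none.1 hp v hv⟩
  · exact Or.inr ⟨p, List.mem_of_find?_eq_some hp,
      List.find?_some (p := fun v : List Bool => v.getD j false) hp, by rw [cl, hp]; rfl⟩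

theorem cl_size (W : ℕ) (s : ℕ × Ml) (j : ℕ) (hs : ∀ v ∈ s.2, v.length ≤ W) :
    (cl (List.range W) s j).1 ≤ s.1 + 1 ∧ (cl (List.range W) s j).2.length = s.2.length ∧
      ∀ v ∈ (cl (List.range W) s j).2, v.length ≤ W := by
  rcases cl_cases (List.range W) s j with ⟨h, -⟩ | ⟨p, -, -, h⟩ <;> rw [h]
  · exact ⟨Nat.le_succ _, rfl, hs⟩
  · refine ⟨le_rfl, by simp, fun v hv => ?_⟩
    obtain ⟨u, hu, rfl⟩ := List.mem_map.1 hv
    cases u.getD j false
    · exact hs u hu
    · simp [xr]

theorem cl_zero (W : ℕ) (s : ℕ × Ml) (j : ℕ) (hs : ∀ v ∈ s.2, v.length ≤ W) (i : ℕ)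
    (hi : i = j ∨ ∀ v ∈ s.2, v.getD i false = false) :
    ∀ v ∈ (cl (List.range W) s j).2, v.getD i false = false := by
  rcases cl_cases (List.range W) s j with ⟨h, h0⟩ | ⟨p, hm, h1, h⟩ <;> rw [h]
  · rcases hi with rfl | hi
    · exact h0
    · exact hi
  · intro v hv
    obtain ⟨u, hu, rfl⟩ := List.mem_map.1 hv
    cases h : u.getD j false
    · rcases hi with rfl | hi
      · exact h
      · exact hi u hu
    · change (xr (List.range W) u p).getD i false = false
      rw [xr_getD (hs u hu) (hs p hm)]
      rcases hi with rfl | hi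
      · rw [h, h1]; rfl
      · rw [hi u hu, hi p hm]; rfl

theorem cl_rank (n W : ℕ) (s : ℕ × Ml) (j : ℕ) (hj : j < n) (hs : ∀ v ∈ s.2, v.length ≤ W) :
    (cl (List.range W) s j).1 + Module.finrank F (sp n (cl (List.range W) s j).2) =
      s.1 + Module.finrank F (sp n s.2) := by
  have hz := cl_zero W s j hs j (Or.inl rfl)
  rcases cl_cases (List.range W) s j with ⟨h, -⟩ | ⟨p, hm, h1, h⟩ <;> rw [h] at hz ⊢
  · set M := s.2.map fun v => cond (v.getD j false) (xr (List.range W) v p) v with hM
    have hn : vec n p ∉ sp n M := by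
      intro h
      have hk : sp n M ≤
          LinearMap.ker (LinearMap.proj (R := F) (φ := fun _ : Fin n => F) ⟨j, hj⟩) := by
        refine Submodule.span_le.2 ?_
        rintro _ ⟨v, hv, rfl⟩
        have := hz v hv
        simp [vec, -List.getD_eq_getElem?_getD, this]
      have := hk h
      simp [vec, -List.getD_eq_getElem?_getD, h1] at this
    have hp' : vec n p ∈ sp n s.2 := Submodule.subset_span ⟨p, hm, rfl⟩
    have he : sp n s.2 = sp n M ⊔ Submodule.span F {vec n p} := by
      apply le_antisymm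
      · refine Submodule.span_le.2 ?_
        rintro _ ⟨v, hv, rfl⟩
        have hv' : vec n (cond (v.getD j false) (xr (List.range W) v p) v) ∈ sp n M :=
          Submodule.subset_span ⟨_, List.mem_map.2 ⟨v, hv, rfl⟩, rfl⟩
        revert hv'
        cases v.getD j false
        · exact fun h => Submodule.mem_sup_left h
        · intro h
          change vec n (xr (List.range W) v p) ∈ _ at h
          rw [vec_xr (hs v hv) (hs p hm)] at h
          have := Submodule.sub_mem _ (Submodule.mem_sup_left (T := Submodule.span F {vec n p}) h)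
            (Submodule.mem_sup_right (Submodule.mem_span_singleton_self (vec n p)))
          simpa using this
      · refine sup_le (Submodule.span_le.2 ?_) (Submodule.span_le.2 (singleton_subset_iff.2 hp'))
        rintro _ ⟨w, hw, rfl⟩
        obtain ⟨v, hv, rfl⟩ := List.mem_map.1 hw
        have hv' : vec n v ∈ sp n s.2 := Submodule.subset_span ⟨v, hv, rfl⟩
        cases v.getD j false
        · exact hv'
        · change vec n (xr (List.range W) v p) ∈ _
          rw [vec_xr (hs v hv) (hs p hm)]
          exact Submodule.add_mem _ hv' hp'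
    change s.1 + 1 + Module.finrank F (sp n M) = _
    rw [he, Submodule.finrank_sup_span_singleton hn]
    omega

theorem fold_size (W : ℕ) (l : List ℕ) : ∀ s : ℕ × Ml, (∀ v ∈ s.2, v.length ≤ W) →
    (l.foldl (cl (List.range W)) s).1 ≤ s.1 + l.length ∧
      (l.foldl (cl (List.range W)) s).2.length = s.2.length ∧
      ∀ v ∈ (l.foldl (cl (List.range W)) s).2, v.length ≤ W := by
  induction l with
  | nil => exact fun s hs => ⟨le_rfl, rfl, hs⟩
  | cons j l ih =>
    intro s hs
    obtain ⟨h1, h2, h3⟩ := cl_size W s j hs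
    obtain ⟨k1, k2, k3⟩ := ih _ h3
    exact ⟨by rw [List.foldl_cons, List.length_cons]; omega, k2.trans h2, k3⟩

theorem fold_rank (n W : ℕ) (l : List ℕ) : ∀ s : ℕ × Ml, (∀ j ∈ l, j < n) →
    (∀ v ∈ s.2, v.length ≤ W) →
    (l.foldl (cl (List.range W)) s).1 + Module.finrank F (sp n (l.foldl (cl (List.range W)) s).2) =
      s.1 + Module.finrank F (sp n s.2) ∧
    ∀ i, (i ∈ l ∨ ∀ v ∈ s.2, v.getD i false = false) →
      ∀ v ∈ (l.foldl (cl (List.range W)) s).2, v.getD i false = false := by
  induction l with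
  | nil => exact fun s _ _ => ⟨rfl, fun i hi => hi.resolve_left (by simp)⟩
  | cons j l ih =>
    intro s hl hs
    obtain ⟨k1, k2⟩ := ih _ (fun i hi => hl i (List.mem_cons_of_mem _ hi)) (cl_size W s j hs).2.2
    refine ⟨k1.trans (cl_rank n W s j (hl j List.mem_cons_self) hs), fun i hi => k2 i ?_⟩
    rcases hi with hi | hi
    · rcases List.mem_cons.1 hi with hi | hi
      · exact Or.inr (cl_zero W s j hs i (Or.inl hi))
      · exact Or.inl hi
    · exact Or.inr (cl_zero W s j hs i (Or.inr hi))

theorem len_le (V : Ml) : ∀ v ∈ V, v.length ≤ Shared.PolyTime.sz V := fun v hv => by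
  have := Shared.PolyTime.sz_mem hv
  have := Shared.PolyTime.length_le_sz v
  omega

theorem rank2_eq (n : ℕ) (V : Ml) : rank2 (n, V) = Module.finrank F (sp n V) := by
  obtain ⟨h1, h2⟩ := fold_rank n (Shared.PolyTime.sz V) (List.range (min n (Shared.PolyTime.sz V)))
    (0, V) (fun j hj => by have := List.mem_range.1 hj; omega) (len_le V)
  have h0 : sp n ((List.range (min n (Shared.PolyTime.sz V))).foldl
      (cl (List.range (Shared.PolyTime.sz V))) (0, V)).2 = ⊥ := by
    refine Submodule.span_eq_bot.2 ?_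
    rintro _ ⟨v, hv, rfl⟩
    funext i
    have : v.getD i false = false := by
      refine h2 i ?_ v hv
      by_cases h : (i : ℕ) < Shared.PolyTime.sz V
      · exact Or.inl (List.mem_range.2 (lt_min i.2 h))
      · exact Or.inr fun u hu => getD_ge (by have := len_le V u hu; omega)
    simp [vec, -List.getD_eq_getElem?_getD, this]
  rw [h0, finrank_bot] at h1
  simpa [rank2] using h1

theorem rank2_pt : PT rank2 := by
  unfold rank2
  refine PT.fst (PT.foldl (f := fun a : ℕ × Ml => cl (List.range (Shared.PolyTime.sz a.2)))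
    (by unfold cl xr; fun_prop) (by fun_prop) (by fun_prop)
    (B := fun a => 2 * Shared.PolyTime.sz a.2 + 1 +
      Shared.PolyTime.sz a.2 * (2 * (3 * Shared.PolyTime.sz a.2) + 1)) (by fun_prop) fun a i => ?_)
  obtain ⟨h1, h2, h3⟩ := fold_size (Shared.PolyTime.sz a.2)
    ((List.range (min a.1 (Shared.PolyTime.sz a.2))).take i) (0, a.2) (len_le a.2)
  rw [Shared.PolyTime.sz_prod]
  have k1 := Shared.PolyTime.sz_nat_le (((List.range (min a.1 (Shared.PolyTime.sz a.2))).take i).foldl
    (cl (List.range (Shared.PolyTime.sz a.2))) (0, a.2)).1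
  have k2 := Shared.PolyTime.sz_list_le (B := 3 * Shared.PolyTime.sz a.2) fun v hv => by
    rw [Shared.PolyTime.sz_listBool]; exact Nat.mul_le_mul_left 3 (h3 v hv)
  rw [h2] at k2
  have k3 := Nat.mul_le_mul_right (2 * (3 * Shared.PolyTime.sz a.2) + 1)
    (Shared.PolyTime.length_le_sz a.2)
  simp only [List.length_take, List.length_range] at h1
  dsimp only at k2
  omega

end VRank

theorem rankS : RankS := ⟨VRank.rank2, VRank.rank2_pt, VRank.rank2_eq⟩

end Pool.Agent.Lib.MP_837412_lc
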