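import Pool.Agent.Lib.MP_837412_lc.USt
import Pool.Agent.Lib.MP_837412_lc.JReal

/-!
The homology of a sublevel set as the number of creating cells minus the number of killing cells.
-/

namespace Pool.Agent.Lib.MP_837412_lc

open Pool.Agent.Shared.Mod2 Set Function Filter Topology

namespace VReal

open JReal

lemma which {xa xb y : ℕ → ℕ∞} {n K : ℕ} {c : Prop} (hn : 0 < n) (hK : n < K)
    (e1 : ∀ j, xa j ≠ ⊤) (e2 : ∀ j, y j ≠ ⊤) (d : Dich xb xa n)
    (h : c ↔ ∑ j ∈ Finset.range K, (xa j + y j) < ∑ j ∈ Finset.range K, (xb j + y j)) :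
    (c ∧ ∀ j, xb j = xa j + if j = n then 1 else 0) ∨
      (¬ c ∧ ∀ j, xa j = xb j + if j + 1 = n then 1 else 0) := by
  obtain ⟨n, rfl⟩ : ∃ m, n = m + 1 := ⟨n - 1, by omega⟩
  rcases d with d | d
  · refine Or.inl ⟨h.2 ?_, d⟩
    have h1 : ∑ j ∈ Finset.range K, (xb j + y j) = ∑ j ∈ Finset.range K, (xa j + y j) + 1 := by
      simp only [d, add_right_comm _ _ (y _)]
      rw [Finset.sum_add_distrib (f := fun j => xa j + y j), Finset.sum_ite_eq',
        if_pos (Finset.mem_range.2 hK)]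
    have h3 : ∑ j ∈ Finset.range K, (xa j + y j) ≠ ⊤ :=
      WithTop.sum_ne_top.2 fun j _ => WithTop.add_ne_top.2 ⟨e1 j, e2 j⟩
    rw [h1]
    exact (ENat.lt_add_one_iff h3).2 le_rfl
  · refine Or.inr ⟨fun hc => ?_, d⟩
    have h2 : ∑ j ∈ Finset.range K, (xa j + y j) = ∑ j ∈ Finset.range K, (xb j + y j) + 1 := by
      simp only [d, add_right_comm _ _ (y _), Nat.add_right_cancel_iff]
      rw [Finset.sum_add_distrib (f := fun j => xb j + y j), Finset.sum_ite_eq',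
        if_pos (Finset.mem_range.2 (by omega))]
    have h4 := h.1 hc
    rw [h2] at h4
    exact h4.not_ge le_self_add

open Classical in
lemma count {ι : Type} {P P' : ι → Prop} {i₀ : ι} (h0 : P' i₀) (h1 : ¬ P i₀)
    (h2 : ∀ i ≠ i₀, P' i ↔ P i) (Q : ι → Prop) :
    {i | P' i ∧ Q i}.encard = {i | P i ∧ Q i}.encard + if Q i₀ then 1 else 0 := by
  split_ifs with hQ
  · rw [← encard_insert_of_notMem (a := i₀) fun h => h1 h.1]
    congr 1
    ext i
    rcases eq_or_ne i i₀ with rfl | hi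
    · simp [h0, hQ]
    · simp [hi, h2 i hi]
  · rw [add_zero]
    congr 1
    ext i
    rcases eq_or_ne i i₀ with rfl | hi
    · simp [hQ]
    · simp [h2 i hi]

/-- The formula for the indices in `P` on the side `sd`. -/
def Frm {ι : Type} (x : ℕ → ℕ∞) (P sd cr : ι → Prop) (n : ι → ℕ) : Prop :=
  ∀ j, x j + {i | P i ∧ sd i ∧ ¬ cr i ∧ n i = j + 1}.encard =
    {i | P i ∧ sd i ∧ cr i ∧ n i = j}.encard

lemma Frm.fin {ι : Type} [Finite ι] {x : ℕ → ℕ∞} {P sd cr : ι → Prop} {n : ι → ℕ}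
    (h : Frm x P sd cr n) (j : ℕ) : x j ≠ ⊤ :=
  (WithTop.add_ne_top.1 ((h j).symm ▸ (toFinite _).encard_lt_top.ne)).1

lemma Frm.off {ι : Type} {x : ℕ → ℕ∞} {P P' sd cr : ι → Prop} {n : ι → ℕ} {i₀ : ι}
    (h : Frm x P sd cr n) (h0 : P' i₀) (h1 : ¬ P i₀) (h2 : ∀ i ≠ i₀, P' i ↔ P i) (hs : ¬ sd i₀) :
    Frm x P' sd cr n := fun j => by
  rw [count h0 h1 h2, count h0 h1 h2, if_neg fun c => hs c.1, if_neg fun c => hs c.1, add_zero,
    add_zero]
  exact h j

lemma Frm.on {ι : Type} {xa xb : ℕ → ℕ∞} {P P' sd cr : ι → Prop} {n : ι → ℕ} {i₀ : ι}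
    (h : Frm xa P sd cr n) (h0 : P' i₀) (h1 : ¬ P i₀) (h2 : ∀ i ≠ i₀, P' i ↔ P i) (hs : sd i₀)
    (d : (cr i₀ ∧ ∀ j, xb j = xa j + if j = n i₀ then 1 else 0) ∨
      (¬ cr i₀ ∧ ∀ j, xa j = xb j + if j + 1 = n i₀ then 1 else 0)) :
    Frm xb P' sd cr n := fun j => by
  rw [count h0 h1 h2, count h0 h1 h2, ← h j]
  rcases d with ⟨c, d⟩ | ⟨c, d⟩
  · rw [if_neg fun e => e.2.1 c, add_zero, d j, add_right_comm]
    congr 1
    by_cases e : j = n i₀
    · rw [if_pos e, if_pos ⟨hs, c, e.symm⟩]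
    · rw [if_neg e, if_neg fun e' => e e'.2.2.symm]
  · rw [if_neg (c := sd i₀ ∧ cr i₀ ∧ n i₀ = j) fun e => c e.2.1, add_zero, d j, add_right_comm,
      add_assoc]
    congr 2
    by_cases e : j + 1 = n i₀
    · rw [if_pos e, if_pos ⟨hs, c, e.symm⟩]
    · rw [if_neg e, if_neg fun e' => e e'.2.2.symm]

end VReal

open JReal VReal in
theorem realU : RealU := by
  classical
  intro E ι _ _ f S S' v real side cr n J hZ R hJ hmin hcr
  have key : ∀ (N : ℕ) (t : ℝ), (Finset.univ.filter fun i => real i ∧ v i < t).card = N → t ≤ 0 →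
      (∀ i, real i → v i ≠ t) →
      ((∃ i, real i ∧ v i < t) → {y | f y < t}.Nonempty) ∧
      Frm (hs ({y | f y < t} ∩ S) ∅) (fun i => real i ∧ v i < t) side cr n ∧
      Frm (hs ({y | f y < t} ∩ S') ∅) (fun i => real i ∧ v i < t) (fun i => ¬ side i) cr n := by
    intro N
    induction N using Nat.strong_induction_on with
    | _ N ih =>
    intro t hN t0 ne
    rcases (Finset.univ.filter fun i => real i ∧ v i < t).eq_empty_or_nonempty with h0 | h0
    · have h1 : ∀ i, ¬ (real i ∧ v i < t) := fun i hi => by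
        simpa [h0] using (Finset.mem_filter.2 ⟨Finset.mem_univ i, hi⟩ :
          i ∈ Finset.univ.filter fun i => real i ∧ v i < t)
      rw [R.bot t fun i ri => not_lt.1 fun c => h1 i ⟨ri, c⟩]
      simp only [empty_inter]
      refine ⟨fun ⟨i, hi⟩ => (h1 i hi).elim, fun j => ?_, fun j => ?_⟩ <;>
        rw [Ac.refl (∅ : Set E) j] <;> simp [h1]
    obtain ⟨i₀, m1, m2⟩ := Finset.exists_max_image _ v h0
    simp only [Finset.mem_filter, Finset.mem_univ, true_and] at m1 m2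
    obtain ⟨r0, m1⟩ := m1
    have tot : ∀ s, s ≤ 0 → (∃ i, real i ∧ v i < s) → {y | f y < s}.Nonempty →
        ∑ j ∈ Finset.range (J + n i₀ + 2),
          (hs ({y | f y < s} ∩ S) ∅ j + hs ({y | f y < s} ∩ S') ∅ j) =
        ∑ j ∈ Finset.range J, hs univ {y | f y < s} j + 1 := fun s s0 h1 h2 =>
      total' (A := {y | f y < s}) hZ R.oS R.oS' R.dis (fun y hy => R.cov (lt_of_lt_of_le hy s0))
        h2 (hJ s h1) (by omega)
    have hle : ∀ j, real j → v j ≤ t → v j ≤ v i₀ := fun j rj h =>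
      m2 j ⟨rj, h.lt_of_ne (ne j rj)⟩
    obtain ⟨a, a1, a2, a3⟩ : ∃ a, a < v i₀ ∧ (∀ j ≠ i₀, real j → v j ∉ Icc a t) ∧
        (((∃ i, real i ∧ v i < a) → {y | f y < a}.Nonempty) → {y | f y < t}.Nonempty →
          (cr i₀ ↔ ∑ j ∈ Finset.range (J + n i₀ + 2),
            (hs ({y | f y < a} ∩ S) ∅ j + hs ({y | f y < a} ∩ S') ∅ j) <
          ∑ j ∈ Finset.range (J + n i₀ + 2),
            (hs ({y | f y < t} ∩ S) ∅ j + hs ({y | f y < t} ∩ S') ∅ j))) := by
      by_cases hx : ∃ j, real j ∧ v j < v i₀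
      · obtain ⟨a, b, b1, b2, b3, b4, b5⟩ := hcr i₀ r0 (m1.trans_le t0) hx
        refine ⟨a, b1, fun j hj rj h => b4 j hj rj ⟨h.1, (hle j rj h.2).trans b2.le⟩,
          fun h1 _ => ?_⟩
        obtain ⟨j, rj, hj⟩ := hx
        have ja : v j < a := not_le.1 fun c =>
          b4 j (fun e => hj.ne (e ▸ rfl)) rj ⟨c, (hj.trans b2).le⟩
        have na := h1 ⟨j, rj, ja⟩
        have e : (∀ k, hs ({y | f y < t} ∩ S) ∅ k = hs ({y | f y < b} ∩ S) ∅ k) ∧
            ∀ k, hs ({y | f y < t} ∩ S') ∅ k = hs ({y | f y < b} ∩ S') ∅ k := by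
          rcases le_total b t with l | l
          · have c := R.ac b t l t0 fun i ri h => (b2.trans_le h.1).not_ge (hle i ri h.2)
            exact ⟨c.1.left (empty_subset _) (sub f _ l), c.2.left (empty_subset _) (sub f _ l)⟩
          · have c := R.ac t b l b3 fun i ri h =>
              b4 i (fun e => m1.not_ge (e ▸ h.1)) ri ⟨(b1.trans m1).le.trans h.1, h.2⟩
            exact ⟨fun k => (c.1.left (empty_subset _) (sub f _ l) k).symm,
              fun k => (c.2.left (empty_subset _) (sub f _ l) k).symm⟩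
        simp only [e.1, e.2]
        rw [tot a (by linarith) ⟨j, rj, ja⟩ na, tot b b3 ⟨i₀, r0, b2⟩
          (na.mono fun y hy => lt_trans hy (b1.trans b2)), b5,
          ENat.add_lt_add_iff_right ENat.one_ne_top]
      · have hm : ∀ j, real j → v i₀ ≤ v j := fun j rj => not_lt.1 fun c => hx ⟨j, rj, c⟩
        refine ⟨v i₀ - 1, by linarith, fun j hj rj h =>
          hj (R.inj j i₀ rj r0 (le_antisymm (hle j rj h.2) (hm j rj))), fun _ h2 => ?_⟩
        rw [tot t t0 ⟨i₀, r0, m1⟩ h2, R.bot (v i₀ - 1) fun i ri => by linarith [hm i ri]]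
        simp only [empty_inter, Ac.refl (∅ : Set E) _, add_zero, Finset.sum_const_zero]
        exact iff_of_true (hmin i₀ r0 hm) (lt_of_lt_of_le zero_lt_one le_add_self)
    have l : a ≤ t := by linarith
    have p0 : real i₀ ∧ v i₀ < t := ⟨r0, m1⟩
    have p1 : ¬ (real i₀ ∧ v i₀ < a) := fun c => c.2.not_ge a1.le
    have p2 : ∀ i ≠ i₀, (real i ∧ v i < t) ↔ (real i ∧ v i < a) := fun i hi =>
      ⟨fun h => ⟨h.1, not_le.1 fun c => a2 i hi h.1 ⟨c, h.2.le⟩⟩, fun h => ⟨h.1, h.2.trans_le l⟩⟩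
    obtain ⟨I0, I1, I2⟩ := ih _ (by
        rw [← hN]
        refine Finset.card_lt_card ⟨fun i hi => ?_, fun hi => ?_⟩
        · simp only [Finset.mem_filter, Finset.mem_univ, true_and] at hi ⊢
          exact ⟨hi.1, hi.2.trans_le l⟩
        · exact p1 (Finset.mem_filter.1 (hi (Finset.mem_filter.2 ⟨Finset.mem_univ i₀, p0⟩))).2)
      a rfl (l.trans t0) fun i ri h => by
        rcases eq_or_ne i i₀ with rfl | hi
        · exact a1.ne' h
        · exact a2 i hi ri ⟨h.ge, h.le.trans l⟩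
    obtain ⟨c0, c1, c2⟩ := R.cell a t i₀ t0 r0 ⟨a1, m1⟩ a2
    have T := a3 I0 c0
    refine ⟨fun _ => c0, ?_⟩
    by_cases sd : side i₀
    · have e : hs ({y | f y < t} ∩ S') ∅ = hs ({y | f y < a} ∩ S') ∅ :=
        funext ((c1 sd).2.left (empty_subset _) (sub f _ l))
      have d := dich (c1 sd).1 (sub f _ l)
      rw [e] at T ⊢
      exact ⟨I1.on p0 p1 p2 sd (which d.1 (by omega) I1.fin I2.fin d.2 T),
        I2.off p0 p1 p2 (not_not.2 sd)⟩
    · have e : hs ({y | f y < t} ∩ S) ∅ = hs ({y | f y < a} ∩ S) ∅ :=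
        funext ((c2 sd).1.left (empty_subset _) (sub f _ l))
      have d := dich (c2 sd).2 (sub f _ l)
      rw [e] at T ⊢
      exact ⟨I1.off p0 p1 p2 sd, I2.on p0 p1 p2 sd
        (which (K := J + n i₀ + 2) d.1 (by omega) I2.fin I1.fin d.2
          (by simpa only [add_comm] using T))⟩
  intro j
  simpa only [and_assoc] using (key _ 0 rfl le_rfl R.ne).2.1 j

end Pool.Agent.Lib.MP_837412_lc
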