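import Pool.Agent.Lib.MP_837412_lc.USt
import Pool.Agent.Lib.MP_837412_lc.JStab
import Pool.Agent.Lib.MP_837412_lc.JOrd
import Pool.Agent.Lib.MP_837412_lc.JEx
import Pool.Agent.Lib.MP_837412_lc.JGen
import Pool.Agent.Lib.MP_837412_lc.JMisc

/-!
Tracking the normal form along one segment.
-/

namespace Pool.Agent.Lib.MP_837412_lc

open Pool.Agent.Shared.Mod2 Set Function Filter Topology JStab

namespace VSeg

variable {E ι κ : Type} [TopologicalSpace E] {N : ℝ} {m : ℕ}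

lemma iso_inj {a b : κ → ℂ} (h : Iso a b) (ha : Injective a) : Injective b := fun i j e =>
  ha (Complex.ext ((h.re_eq i j).2 (congrArg Complex.re e)) ((h.im_eq i j).2 (congrArg Complex.im e)))

lemma dn_iso {a b a' b' : κ → ℂ} (h : Dn a b) (ha : Iso a a') (hb : Iso b b') : Dn a' b' :=
  fun i j => ⟨fun x => (hb.re_lt i j).1 ((h i j).1 ((ha.re_lt i j).2 x)),
    fun x => (hb.im_lt i j).1 ((h i j).2 ((ha.im_lt i j).2 x))⟩

lemma sub_inj {A B : Matrix ι ι F} (e : κ ≃ ι) (h : A.submatrix e e = B.submatrix e e) : A = B := by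
  ext i j
  simpa using congrFun (congrFun h (e.symm i)) (e.symm j)

lemma close_mono {δ δ' : ℝ} {H₀ H : E → ℂ} {b : ι → ℂ} (k : δ ≤ δ') (h : Close δ H₀ H b) :
    Close δ' H₀ H b :=
  let ⟨f, hf⟩ := h
  ⟨f, fun y => (hf y).imp_right fun ⟨i, a, b⟩ => ⟨i, a.trans_le k, b.trans_le k⟩⟩

variable [Fintype ι]

lemma stab_equiv [Fintype κ] {G₀ G : E → ℂ} {b₀ b : ι → ℂ} (e : κ ≃ ι)
    (k : ∀ L R, Dat N N G b m L R → Dat N N G₀ b₀ m L R) {L R : Matrix κ κ F}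
    (d : Dat N N G (b ∘ e) m L R) : Dat N N G₀ (b₀ ∘ e) m L R := by
  have a : (b ∘ e) ∘ e.symm = b := by ext; simp
  have d' := d.perm e.symm
  rw [a] at d'
  have d'' := (k _ _ d').perm e
  have r : ∀ A : Matrix κ κ F, (A.submatrix e.symm e.symm).submatrix e e = A := fun A => by
    ext i j; simp only [Matrix.submatrix_apply, Equiv.symm_apply_apply]
  rwa [r, r] at d''

instance pre : PreconnectedSpace {u : I // u ≠ 0} := by
  have e : {u : I | u ≠ 0} = Ioi 0 := by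
    ext u
    exact ⟨fun h => lt_of_le_of_ne (show (0 : I) ≤ u from u.2.1) (Ne.symm h), fun h => ne_of_gt h⟩
  have : IsPreconnected {u : I | u ≠ 0} := e ▸ isPreconnected_Ioi
  exact isPreconnected_iff_preconnectedSpace.1 this

variable {G : I → E → ℂ} {c : I → ι → ℂ}

/-- The normal form does not change as long as the order type does not change. -/
lemma move (hM : Mot N m G c) (hS : ∀ u u' : I, u ≠ 0 → u' ≠ 0 → Sim (c u) (c u')) {u u' : I}
    (hu : u ≠ 0) (hu' : u' ≠ 0) {t : Tl} {w : Ml × Ml} (h : St N m (G u) (c u) t w) :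
    St N m (G u') (c u') t w := by
  obtain ⟨e, h1, h2, h3⟩ := h
  have s := hM.1 u
  have m1 : Mot N m (fun _ : {u : I // u ≠ 0} => G u) fun _ => c u :=
    ⟨fun _ => s, fun _ δ hδ => .of_forall fun _ =>
      ⟨⟨Homeomorph.refl E, fun _ => Or.inl rfl⟩, 1, fun i => by simpa using hδ⟩⟩
  have m2 : Mot N m (fun v : {u : I // u ≠ 0} => G v) fun v => c v :=
    ⟨fun v => hM.1 v, fun v δ hδ => (continuous_subtype_val.tendsto v).eventually (hM.2 v δ hδ)⟩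
  obtain ⟨L₀, R₀, d₀, t₀⟩ := exS genS E ι N (G u) (c u) m s.1 s.2
  obtain ⟨π, i1, L, R, d, d', t1⟩ := propS autS degS dnS relT uniqS (exS genS) relS stabS
    {u : I // u ≠ 0} E E ι N m _ _ _ _ m1 m2 (fun v => hS u v hu v.2) ⟨u, hu⟩ ⟨u', hu'⟩
    ⟨1, Iso.refl _, L₀, R₀, d₀, d₀, t₀⟩
  obtain ⟨e1, e2⟩ := uniqS _ (c u ∘ e) (c u ∘ e) _ _ _ _ (s.1.perm e).inj h3 (t1.perm e)
    (relS E _ N (G u) (c u ∘ e) m _ _ _ _ (s.1.perm e) (fun i => s.2 _) h2 (d.perm e))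
  refine ⟨e.trans π, (i1.comp e).symm.trans h1, ?_, tri_iso (i1.comp e).symm h3⟩
  rw [e1, e2]
  exact d'.perm e

lemma near (hM : Mot N m G c) : ∃ (u : I) (π : Equiv.Perm ι), u ≠ 0 ∧ Dn (c 0) (c u ∘ π) ∧
    ∀ L R, Dat N N (G u) (c u ∘ π) m L R → Dat N N (G 0) (c 0) m L R := by
  obtain ⟨δ₁, p₁, a₁⟩ := stabS E ι N (G 0) (c 0) m (hM.1 0).1 (hM.1 0).2
  obtain ⟨δ₃, p₃, a₃⟩ := dnS ι (c 0)
  obtain ⟨u, ⟨b, π, q⟩, hu⟩ := (((hM.2 0 _ (lt_min p₁ p₃)).filter_mono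
    (nhdsWithin_le_nhds (s := {0}ᶜ))).and self_mem_nhdsWithin).exists
  exact ⟨u, π, hu, (a₃ _ fun i => (q i).trans_le (min_le_right _ _)).1,
    a₁ _ _ (close_mono (min_le_left _ _) b) fun i => (q i).trans_le (min_le_left _ _)⟩

end VSeg

open VSeg in
theorem segS : SegS := by
  intro step hstep E ι _ _ N m G c hM hS t t' w ⟨e₀, i₀⟩ ⟨e₁, i₁⟩
  obtain ⟨u, π, hu, dn, k⟩ := near hM
  have s0 := hM.1 0
  have su := hM.1 u
  constructor
  · rintro ⟨e₀, i₀, d₀, t₀⟩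
    refine move hM hS hu one_ne_zero ?_
    obtain ⟨ρ, hρ⟩ := hS 1 u one_ne_zero hu
    let e' : Fin t'.length ≃ ι := e₁.trans ρ
    have i' : Iso (c u ∘ e') (pts t') := (hρ.comp e₁).symm.trans i₁
    let e : Fin t.length ≃ Fin t'.length := e₀.trans (π.trans e'.symm)
    have q : (c u ∘ e') ∘ e = (c u ∘ π) ∘ e₀ := by ext i; simp [e]
    have j' := iso_inj i' (su.1.perm e').inj
    obtain ⟨a1, a2⟩ := hstep t t' true w e (iso_inj i₀ (s0.1.perm e₀).inj) j'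
      (dn_iso (b := (c u ∘ π) ∘ e₀) (fun i j => dn (e₀ i) (e₀ j)) i₀ (q ▸ i'.comp e))
      (tri_iso i₀.symm t₀)
    obtain ⟨L, R, d, t1⟩ := exS genS E _ N (G u) (c u ∘ e') m (su.1.perm e') fun i => su.2 _
    have d1 := stab_equiv e₀ k (q ▸ d.perm e)
    obtain ⟨e1, e2⟩ := uniqS _ (c 0 ∘ e₀) (pts t' ∘ e) _ _ _ _ (j'.comp e.injective)
      ((tri_iso i'.symm t1).perm e) (a1.perm e) (relT _ _ _ _ _ _ _ _
        (relS E _ N (G 0) (c 0 ∘ e₀) m _ _ _ _ (s0.1.perm e₀) (fun i => s0.2 _) d1 d₀)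
        (rel_iso i₀ a2))
    refine ⟨e', i', ?_, tri_iso i' a1⟩
    rw [← sub_inj e e1, ← sub_inj e e2]
    exact d
  · intro h
    obtain ⟨e', i', d', t1⟩ := move hM hS one_ne_zero hu h
    let e : Fin t'.length ≃ Fin t.length := e'.trans (π.symm.trans e₀.symm)
    have q : (c u ∘ π) ∘ (e.trans e₀) = c u ∘ e' := by ext i; simp [e]
    have j₀ := iso_inj i₀ (s0.1.perm e₀).inj
    obtain ⟨a1, a2⟩ := hstep t' t false w e (iso_inj i' (su.1.perm e').inj) j₀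
      (dn_iso (a := c 0 ∘ (e.trans e₀)) (b := (c u ∘ π) ∘ (e.trans e₀)) (fun i j => dn _ _)
        (i₀.comp e) (q ▸ i'))
      (tri_iso i'.symm t1)
    obtain ⟨L, R, d, t0⟩ := exS genS E _ N (G 0) (c 0 ∘ e₀) m (s0.1.perm e₀) fun i => s0.2 _
    have d1 := stab_equiv (e.trans e₀) k (q ▸ d')
    obtain ⟨e1, e2⟩ := uniqS _ (c 0 ∘ (e.trans e₀)) (pts t ∘ e) _ _ _ _ (j₀.comp e.injective)
      ((tri_iso i₀.symm t0).perm e) (a1.perm e) (relT _ _ _ _ _ _ _ _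
        (relS E _ N (G 0) (c 0 ∘ (e.trans e₀)) m _ _ _ _ (s0.1.perm _) (fun i => s0.2 _)
          (d.perm e) d1) (rel_iso (i₀.comp e) a2))
    refine ⟨e₀, i₀, ?_, tri_iso i₀ a1⟩
    rw [← sub_inj e e1, ← sub_inj e e2]
    exact d

end Pool.Agent.Lib.MP_837412_lc
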