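import Pool.Agent.Lib.MP_837412_lc.RSt
import Pool.Agent.Lib.MP_837412_lc.JSig

/-!
The machine computes the signature of a symmetric matrix.
-/

namespace Pool.Agent.Lib.MP_837412_lc

open Matrix JSig

namespace VSig

/-- An entry of a table. -/
def en (T : List (List ℝ)) (i j : ℕ) : ℝ := (T.getD i []).getD j 0

/-- The table of a function. -/
def tb (n : ℕ) (f : ℕ → ℕ → ℝ) : List (List ℝ) :=
  (List.range n).map fun i => (List.range n).map (f i)

/-- The matrix of a table. -/
def mt (n : ℕ) (T : List (List ℝ)) : Matrix (Fin n) (Fin n) ℝ := .of fun i j => en T i j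

/-- The value of the form at the sum of two unit vectors. -/
def qv (T : List (List ℝ)) (x : ℕ × ℕ) : ℝ :=
  (en T x.1 x.1 + en T x.1 x.2) + (en T x.2 x.1 + en T x.2 x.2)

open Classical in
/-- One round. -/
noncomputable def rnd (n : ℕ) (s : List (List ℝ) × ℕ × ℕ) : List (List ℝ) × ℕ × ℕ :=
  (((List.range n).product (List.range n)).find? fun x => decide (qv s.1 x ≠ 0)).elim s fun x =>
    (tb n fun k l => en s.1 k l -
      (en s.1 k x.1 + en s.1 k x.2) * (en s.1 l x.1 + en s.1 l x.2) / qv s.1 x,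
    (if 0 < qv s.1 x then 1 else 0) + s.2.1, (if qv s.1 x < 0 then 1 else 0) + s.2.2)

lemma en_tb {n : ℕ} (f : ℕ → ℕ → ℝ) (i j : Fin n) : en (tb n f) i j = f i j := by simp [en, tb]

lemma rsz_tb (n : ℕ) (f : ℕ → ℕ → ℝ) : rsz (tb n f) ≤ n * (2 * (n * 3) + 1) := by
  refine (rsz_list_le (B := n * 3) fun a ha => ?_).trans (by simp [tb])
  obtain ⟨p, -, rfl⟩ := List.mem_map.1 ha
  exact (rsz_list_le (B := 1) fun _ _ => le_rfl).trans (by simp)

lemma inv {n : ℕ} (f : ℕ → ℕ → ℝ) (hs : (mt n (tb n f)).IsSymm) (m : ℕ)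
    (s : List (List ℝ) × ℕ × ℕ) (e : s = (rnd n)^[m] (tb n f, 0, 0)) : (mt n s.1).IsSymm ∧
      sig (mt n (tb n f)) = sig (mt n s.1) + s.2 ∧ (m ≤ s.2.1 + s.2.2 ∨ mt n s.1 = 0) ∧
      rsz s.1 ≤ n * (2 * (n * 3) + 1) := by
  induction m generalizing s with
  | zero => subst e; exact ⟨hs, (add_zero _).symm, .inl (Nat.zero_le _), rsz_tb _ _⟩
  | succ m ih =>
    rw [Function.iterate_succ_apply'] at e
    obtain ⟨a, b, c, d⟩ := ih _ rfl
    generalize (rnd n)^[m] (tb n f, 0, 0) = u at *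
    rw [rnd] at e
    cases hf : List.find? _ _ with
    | none =>
      rw [hf] at e
      subst e
      refine ⟨a, b, .inr (eq_zero a fun p => ?_), d⟩
      change qv s.1 (p.1, p.2) = 0
      simpa using List.find?_eq_none.1 hf (p.1, p.2) (List.pair_mem_product.2
        ⟨List.mem_range.2 p.1.2, List.mem_range.2 p.2.2⟩)
    | some x =>
      rw [hf] at e
      obtain ⟨i, j⟩ := x
      obtain ⟨hi, hj⟩ := List.pair_mem_product.1 (List.mem_of_find?_eq_some hf)
      lift i to Fin n using List.mem_range.1 hi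
      lift j to Fin n using List.mem_range.1 hj
      have h0 : JSig.qq (mt n u.1) (i, j) ≠ 0 := by
        change qv u.1 (i, j) ≠ 0
        simpa using List.find?_some hf
      have h1 : mt n s.1 = red (mt n u.1) (i, j) := by
        subst e
        ext k l
        exact en_tb _ k l
      have h2 : s.2 = (if 0 < JSig.qq (mt n u.1) (i, j) then 1 else 0,
          if JSig.qq (mt n u.1) (i, j) < 0 then 1 else 0) + u.2 := by subst e; rfl
      refine ⟨h1 ▸ red_symm a _, by rw [h1, h2, b, sig_red a _ h0, add_assoc], .inl ?_,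
        by subst e; exact rsz_tb _ _⟩
      have := c.resolve_right fun z => h0 (by simp [z, JSig.qq])
      rw [h2]
      rcases lt_or_gt_of_ne h0 with z | z <;> simp [z, z.not_gt] <;> omega

variable {α : Type} [RE α]

@[fun_prop] lemma en_pt {T : α → List (List ℝ)} {i j : α → ℕ} (h1 : RPT T) (h2 : RPT i)
    (h3 : RPT j) : RPT fun a => en (T a) (i a) (j a) := by
  unfold en; fun_prop

@[fun_prop] lemma qv_pt {T : α → List (List ℝ)} {x : α → ℕ × ℕ} (h1 : RPT T) (h2 : RPT x) :
    RPT fun a => qv (T a) (x a) := by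
  unfold qv; fun_prop

lemma rnd_pt {n : α → ℕ} {s : α → List (List ℝ) × ℕ × ℕ} (h1 : RPT n) (h2 : RPB n) (h3 : RPT s) :
    RPT fun a => rnd (n a) (s a) := by
  unfold rnd tb; fun_prop

end VSig

open VSig in
theorem sigU (_h1 : ChiU) (_h2 : MatU) : SigU := by
  intro α _ n H hn hb hs hH
  let f : α → ℕ → ℕ → ℝ := fun a i j =>
    if h : i < n a ∧ j < n a then H a ⟨i, h.1⟩ ⟨j, h.2⟩ else 0
  have e : ∀ a, mt (n a) (tb (n a) (f a)) = H a := fun a => by
    ext i j
    exact (en_tb _ i j).trans (dif_pos ⟨i.2, j.2⟩)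
  have k := fun a m => inv (f a) (e a ▸ hs a) m _ rfl
  have b : ∀ a m, ((rnd (n a))^[m] (tb (n a) (f a), 0, 0)).2 ≤ sig (H a) ∧
      (sig (H a)).1 + (sig (H a)).2 ≤ n a := fun a m =>
    ⟨by rw [← e, (k a m).2.1]; exact le_add_self, by simpa using sig_le (H a)⟩
  have t : RPT fun a => tb (n a) (f a) := RPT.map_range_sub hn hb (RPT.map_range_sub (by fun_prop)
    (by fun_prop) ((hH.comp' (f := fun x : {x : {p : α × Un // p.2.val < n p.1} × Un //
      x.2.val < n x.1.1.1} => ⟨(x.1.1.1.1, x.1.1.1.2, x.1.2), x.1.1.2, x.2⟩) (by fun_prop)).of_eq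
        fun x => by simp only [f, dif_pos (And.intro x.1.1.2 x.2)]))
  refine (RPT.iterate (f := fun a => rnd (n a)) (s0 := fun a => (tb (n a) (f a), 0, 0))
    (rnd_pt (by fun_prop) (by fun_prop) (by fun_prop)) hn hb (by fun_prop)
    (B := fun a => 2 * (n a * (2 * (n a * 3) + 1)) + 3 * n a + 2) (by fun_prop)
    fun a m _ => ?_).snd.of_eq fun a => ?_
  · have := (k a m).2.2.2
    have := (rsz_nat_le _).trans (b a m).1.1
    have := (rsz_nat_le _).trans (b a m).1.2
    have := (b a m).2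
    rw [rsz_prod, rsz_prod (_ : ℕ × ℕ)]
    omega
  · obtain ⟨-, k4, k5 | k5, -⟩ := k a (n a)
    · have := (b a (n a)).1.1
      have := (b a (n a)).1.2
      have := (b a (n a)).2
      exact Prod.ext (by omega) (by omega)
    · rw [← e, k4, k5, sig_zero, zero_add]

end Pool.Agent.Lib.MP_837412_lc
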