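import Pool.Agent.Lib.MP_837412_lc.RSt
import Pool.Agent.Lib.MP_837412_lc.UP
import Pool.Agent.Lib.MP_837412_lc.JThom

/-!
The machine finds the sign of a polynomial at a given real root of another one.
-/

namespace Pool.Agent.Lib.MP_837412_lc

open Set Function Polynomial

namespace VSign

open JThom

/-- Comparison of two vectors of signs of derivatives. -/
noncomputable def cmp (x y : List SignType) : Bool :=
  (List.range x.length).any fun k => decide (x.drop (k + 1) = y.drop (k + 1)) &&
    decide (0 < ((x.getD (k + 1) 0 : ℤ) * ((y.getD k 0 : ℤ) - (x.getD k 0 : ℤ))).toNat)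

/-- The signs of all derivatives. -/
noncomputable def W (p : ℝ[X]) (t : ℝ) : List SignType :=
  (List.range (p.natDegree + 1)).map fun k => sg p k t

lemma W_getD (p : ℝ[X]) (t : ℝ) (k : ℕ) : (W p t).getD k 0 = sg p k t := by
  rw [W, List.getD_eq_getElem?_getD, List.getElem?_map]
  by_cases h : k < p.natDegree + 1
  · rw [List.getElem?_range h]; rfl
  · rw [List.getElem?_eq_none (by simpa using h), sg_big le_rfl (by omega)]; rfl

lemma W_drop (p : ℝ[X]) (a b : ℝ) (k : ℕ) :
    (W p a).drop k = (W p b).drop k ↔ ∀ j, k ≤ j → sg p j a = sg p j b := by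
  constructor
  · intro h j hj
    have := congrArg (fun l => l.getD (j - k) 0) h
    simp only [List.getD_eq_getElem?_getD, List.getElem?_drop, Nat.add_sub_cancel' hj] at this
    rw [← W_getD, ← W_getD]
    exact this
  · intro h
    refine List.ext_getElem (by simp [W]) fun i _ _ => ?_
    simp only [W, List.getElem_drop, List.getElem_map, List.getElem_range]
    exact h _ (Nat.le_add_right _ _)

lemma cmp_W (p : ℝ[X]) (a b : ℝ) : cmp (W p a) (W p b) = true ↔ ∃ k,
    (∀ j, k + 1 ≤ j → sg p j a = sg p j b) ∧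
      0 < (sg p (k + 1) a : ℤ) * ((sg p k b : ℤ) - (sg p k a : ℤ)) := by
  simp only [cmp, List.any_eq_true, Bool.and_eq_true, decide_eq_true_eq, W_getD, W_drop,
    List.mem_range, Int.lt_toNat, Nat.cast_zero]
  refine ⟨fun ⟨k, _, h⟩ => ⟨k, h⟩, fun ⟨k, h⟩ => ⟨k, ?_, h⟩⟩
  rw [W, List.length_map, List.length_range]
  by_contra hk
  have := h.2
  rw [sg_big le_rfl (by omega : p.natDegree < k + 1)] at this
  simp at this

lemma ex {p : ℝ[X]} {a b : ℝ} (h0 : p ≠ 0) (ha : p.eval a = 0) (hab : a < b) :
    ∃ k, sg p k a ≠ sg p k b ∧ ∀ j, k + 1 ≤ j → sg p j a = sg p j b := by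
  by_contra hn
  have all : ∀ m k, p.natDegree < k + m → ∀ j, k ≤ j → sg p j a = sg p j b := by
    intro m
    induction m with
    | zero =>
      exact fun k hk j hj => (sg_big le_rfl (by omega) a).trans (sg_big le_rfl (by omega) b).symm
    | succ m ih =>
      intro k hk j hj
      rcases hj.eq_or_lt with rfl | hj
      · by_contra hc
        exact hn ⟨k, hc, ih (k + 1) (by omega)⟩
      · exact ih (k + 1) (by omega) j hj
  have h3 := const le_rfl hab.le (p.natDegree + 1) 0 (by omega) (all (p.natDegree + 1) 0 (by omega))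
  refine h0 (p.eq_zero_of_infinite_isRoot ((Icc_infinite hab).mono fun t ht => ?_))
  have h4 : SignType.sign (p.eval t) = SignType.sign (p.eval a) := h3 t ht
  rw [ha, sign_zero, sign_eq_zero_iff] at h4
  exact h4

lemma mon {p : ℝ[X]} {a b : ℝ} (hab : a ≤ b) {k : ℕ} (h : ∀ j, k + 1 ≤ j → sg p j a = sg p j b) :
    (0 ≤ sg p (k + 1) a → sg p k a ≤ sg p k b) ∧ (sg p (k + 1) a ≤ 0 → sg p k b ≤ sg p k a) :=
  have s := step (const le_rfl hab p.natDegree (k + 1) (by omega) h)
  ⟨fun e => s.1 e (left_mem_Icc.2 hab) (right_mem_Icc.2 hab) hab,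
    fun e => s.2 e (left_mem_Icc.2 hab) (right_mem_Icc.2 hab) hab⟩

lemma cmp_iff {p : ℝ[X]} {a b : ℝ} (h0 : p ≠ 0) (ha : p.eval a = 0) :
    cmp (W p a) (W p b) = true ↔ a < b := by
  rw [cmp_W]
  constructor
  · rintro ⟨k, h1, h2⟩
    by_contra hc
    have := mon (not_lt.1 hc) fun j hj => (h1 j hj).symm
    rw [← h1 _ le_rfl] at this
    revert this h2
    generalize sg p (k + 1) a = s, sg p k a = x, sg p k b = y
    revert s x y
    decide
  · intro hab
    obtain ⟨k, h1, h2⟩ := ex h0 ha hab
    refine ⟨k, h2, ?_⟩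
    have := mon hab.le h2
    revert this h1
    generalize sg p (k + 1) a = s, sg p k a = x, sg p k b = y
    revert s x y
    decide

/-- The head of the vector with exactly `j` smaller vectors. -/
noncomputable def pick (S : List (List SignType)) (j : ℕ) (d : SignType) : SignType :=
  ((S.find? fun x => decide (S.countP (fun y => cmp y.tail x.tail) = j)).getD [d]).headD 0

lemma countP_lt (n j : ℕ) (h : j ≤ n) : (List.range n).countP (fun i => decide (i < j)) = j := by
  induction n, h using Nat.le_induction with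
  | base =>
    rw [List.countP_eq_length.2 (by simp), List.length_range]
  | succ n h ih => rw [List.range_succ, List.countP_append, ih]; simp [h]

lemma pick_eq {p q : ℝ[X]} (h0 : p ≠ 0) {S : List (List SignType)} (h1 : S.Nodup)
    (h2 : ∀ x, x ∈ S ↔
      x ∈ sv p (q :: (List.range (p.natDegree + 1)).map fun k => derivative^[k] p)) (j : ℕ) :
    pick S j (SignType.sign (q.eval 0)) = SignType.sign (q.eval (rt p j)) := by
  let V : ℕ → List SignType := fun i => SignType.sign (q.eval (rt p i)) :: W p (rt p i)
  have e : sv p (q :: (List.range (p.natDegree + 1)).map fun k => derivative^[k] p) =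
      (List.range (nr p)).map V := by
    simp only [sv, List.map_cons, List.map_map]; rfl
  have c : ∀ i < nr p, ∀ l < nr p, cmp (V i).tail (V l).tail = decide (i < l) := fun i hi l hl => by
    rw [Bool.eq_iff_iff, decide_eq_true_eq, ← rt_lt_iff hi hl]
    exact cmp_iff h0 (rt_root hi)
  have nd : ((List.range (nr p)).map V).Nodup := by
    refine List.Nodup.map_on (fun i hi l hl f => ?_) List.nodup_range
    rw [List.mem_range] at hi hl
    have a1 := c i hi l hl
    have a2 := c l hl i hi
    rw [f, c l hl l hl] at a1 a2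
    simp only [lt_self_iff_false, decide_false, Bool.false_eq, decide_eq_false_iff_not] at a1 a2
    omega
  rw [e] at h2
  have pm := (List.perm_ext_iff_of_nodup h1 nd).2 h2
  have rk : ∀ l < nr p, S.countP (fun y => cmp y.tail (V l).tail) = l := fun l hl => by
    rw [pm.countP_eq, List.countP_map]
    exact (List.countP_congr fun i hi => by
      rw [comp_apply, c i (List.mem_range.1 hi) l hl]).trans (countP_lt (nr p) l hl.le)
  rw [pick]
  rcases f : S.find? fun x => decide (S.countP (fun y => cmp y.tail x.tail) = j) with _ | x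
  · by_cases hj : j < nr p
    · exact absurd (decide_eq_true (rk j hj)) (List.find?_eq_none.1 f _
        ((h2 _).2 (List.mem_map_of_mem (List.mem_range.2 hj))))
    · rw [f, rt, dif_neg hj]; rfl
  · obtain ⟨i, hi, rfl⟩ := List.mem_map.1 ((h2 x).1 (List.mem_of_find?_eq_some f))
    have := List.find?_some f
    rw [rk i (List.mem_range.1 hi), decide_eq_true_eq] at this
    rw [f, ← this]; rfl

variable {α : Type} [RE α]

@[fun_prop] lemma rpt_cmp {x y : α → List SignType} (hx : RPT x) (hy : RPT y) :
    RPT fun a => cmp (x a) (y a) := by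
  unfold cmp; fun_prop

lemma rpt_pick {S : α → List (List SignType)} {j : α → ℕ} {d : α → SignType} (hS : RPT S)
    (hj : RPT j) (hd : RPT d) : RPT fun a => pick (S a) (j a) (d a) := by
  unfold pick; fun_prop

end VSign

theorem signAtU (h1 : TaqU) (h2 : BkrU) : SignAtU := by
  intro α _ p q j hp hq hj h0
  obtain ⟨f, f1, f2⟩ := h2
  constructor
  · refine (h1 α p (fun _ => 1) hp RPT.one h0).ztoNat.of_eq fun a => ?_
    simp [taq, nr]
  · have hl : RPT fun a =>
        q a :: (List.range ((p a).natDegree + 1)).map fun k => derivative^[k] (p a) :=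
      hq.cons (RPT.map_range (by fun_prop) (by fun_prop) (by fun_prop))
    exact (VSign.rpt_pick (f1.comp' ((hp.pair hl).mk h0)) hj
      (hq.eval RPT.zero).sign).of_eq fun a =>
        VSign.pick_eq (h0 a) (f2 _ _ (h0 a)).1 (f2 _ _ (h0 a)).2 _

end Pool.Agent.Lib.MP_837412_lc
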