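import Pool.Agent.Lib.MP_837412_lc.USt
import Pool.Agent.Lib.MP_837412_lc.JMisc

/-!
The change of the normal form at an event: a sorting algorithm on tables.
-/

namespace Pool.Agent.Lib.MP_837412_lc

open Pool.Agent.Shared.Mod2 Set Function Matrix
open Pool.Agent.Shared.PolyTime (PT PB)

namespace VStep

section Abs

variable {ι : Type}

/-- Strict total orders. -/
structure TO (o : ι → ι → Prop) : Prop where
  tr : ∀ i j k, o i j → o j k → o i k
  ir : ∀ i, ¬ o i i
  tot : ∀ i j, i ≠ j → o i j ∨ o j i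

lemma TO.lx {c : ι → ℂ} (h : Injective c) : TO (Lx c) :=
  ⟨fun _ _ _ => JMisc.lx_trans, fun _ => JMisc.lx_irrefl, fun _ _ => JMisc.lx_total h⟩

/-- The order after exchanging two elements. -/
def sw (o : ι → ι → Prop) (i j p q : ι) : Prop := (p = j ∧ q = i) ∨ (o p q ∧ ¬ (p = i ∧ q = j))

lemma TO.swap {o : ι → ι → Prop} (h : TO o) {i j : ι} (hij : o i j)
    (hb : ∀ k, ¬ (o i k ∧ o k j)) : TO (sw o i j) := by
  obtain ⟨tr, ir, tot⟩ := h
  refine ⟨fun p q r => ?_, fun p => ?_, fun p q => ?_⟩ <;> unfold sw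
  · rintro (⟨rfl, rfl⟩ | ⟨a, a'⟩) (⟨e, rfl⟩ | ⟨b, b'⟩)
    · exact absurd (e ▸ hij) (ir _)
    · have := tot p r
      have := hb r
      grind
    · have := tot p r
      have := hb p
      grind
    · have := hb q
      grind
  · grind
  · have := tot p q
    grind

variable [Fintype ι]

lemma adj {o T : ι → ι → Prop} (h : TO o) (h' : TO T) (p q : ι) (h1 : o p q) (h2 : T q p) :
    ∃ i j, o i j ∧ T j i ∧ ∀ k, ¬ (o i k ∧ o k j) := by
  have w1 : WellFounded o := @Finite.wellFounded_of_trans_of_irrefl ι _ o ⟨h.tr⟩ ⟨h.ir⟩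
  have w2 : WellFounded (flip o) :=
    @Finite.wellFounded_of_trans_of_irrefl ι _ (flip o) ⟨fun i j k a b => h.tr k j i b a⟩ ⟨h.ir⟩
  obtain ⟨i, ⟨q, hq⟩, hi⟩ := w2.has_min {i | ∃ j, o i j ∧ T j i} ⟨p, q, h1, h2⟩
  obtain ⟨j, hj, hj'⟩ := w1.has_min {j | o i j ∧ T j i} ⟨q, hq⟩
  refine ⟨i, j, hj.1, hj.2, fun k hk => ?_⟩
  rcases h'.tot i k (fun e => h.ir k (e ▸ hk.1)) with a | a
  · exact hi k ⟨j, hk.2, h'.tr _ _ _ hj.2 a⟩ hk.1
  · exact hj' k ⟨hk.1, a⟩ hk.2

variable [DecidableEq ι]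

omit [Fintype ι] in
lemma uni_tv {r : ι → ι → Prop} {i j : ι} (h : r i j) (hij : i ≠ j) (a : F) :
    Uni r (transvection i j a) := by
  refine ⟨fun p => ?_, fun p q hpq h0 => ?_⟩
  · have : ¬ (i = p ∧ j = p) := fun e => hij (e.1.trans e.2.symm)
    simp [transvection, single, this]
  · by_contra h1
    have : ¬ (i = p ∧ j = q) := fun e => h1 (e.1 ▸ e.2 ▸ h)
    simp [transvection, single, this, hpq] at h0

lemma uni_swap {r r' : ι → ι → Prop} (tr : ∀ i j k, r i j → r j k → r i k) (ir : ∀ i, ¬ r i i)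
    (tr' : ∀ i j k, r' i j → r' j k → r' i k) (ir' : ∀ i, ¬ r' i i) {i j : ι} (h : r i j)
    (h' : r' j i) (hs : ∀ p q, r p q → (p = i ∧ q = j) ∨ r' p q) {M : Matrix ι ι F} (hM : Uni r M)
    (b : F) : Uni r' (transvection j i b * M * transvection i j (M i j)) ∧
      Uni r' (transvection i j (M i j) * M * transvection j i b) := by
  have hij : i ≠ j := fun e => ir j (e ▸ h)
  have key : ∀ X, Uni r X → X i j = 0 → Uni r' X := fun X hX h0 =>
    ⟨hX.1, fun p q hpq h1 => (hs p q (hX.2 p q hpq h1)).resolve_left fun e => h1 (e.1 ▸ e.2 ▸ h0)⟩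
  constructor
  · rw [Matrix.mul_assoc]
    refine JMisc.uni_mul tr' ir' (uni_tv h' hij.symm b)
      (key _ (JMisc.uni_mul tr ir hM (uni_tv h hij _)) ?_)
    rw [mul_transvection_apply_same, hM.1, mul_one, CharTwo.add_self_eq_zero]
  · refine JMisc.uni_mul tr' ir' (key _ (JMisc.uni_mul tr ir (uni_tv h hij _) hM) ?_)
      (uni_tv h' hij.symm b)
    rw [transvection_mul_apply_same, hM.1, mul_one, CharTwo.add_self_eq_zero]

/-- The invariant of the algorithm. -/
structure Inv (c : ι → ℂ) (L₀ R₀ : Matrix ι ι F) (o : ι → ι → Prop) (L R : Matrix ι ι F) :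
    Prop where
  ord : TO o
  ref : ∀ i j, (c i).re < (c j).re → o i j
  uL : Uni (flip o) L
  uR : Uni o R
  rel : Rel c L₀ R₀ L R

lemma Inv.swap {c : ι → ℂ} {L₀ R₀ L R : Matrix ι ι F} {o : ι → ι → Prop} (h : Inv c L₀ R₀ o L R)
    {i j lo hi : ι} (hij : o i j) (hb : ∀ k, ¬ (o i k ∧ o k j)) (hu : Up c lo hi)
    (he : (lo = i ∧ hi = j) ∨ (lo = j ∧ hi = i)) :
    Inv c L₀ R₀ (sw o i j)
      (transvection hi lo (L hi lo + R hi lo) * L * transvection lo hi (L lo hi + R lo hi))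
      (transvection hi lo (L hi lo + R hi lo) * R * transvection lo hi (L lo hi + R lo hi)) := by
  have t := h.ord
  have t' := t.swap hij hb
  have ne : i ≠ j := fun e => t.ir j (e ▸ hij)
  have ne' : lo ≠ hi := fun e => JMisc.up_irrefl (e ▸ hu)
  have z1 : L i j = 0 := by
    by_contra h0
    exact t.ir _ (t.tr _ _ _ hij (h.uL.2 i j ne h0))
  have z2 : R j i = 0 := by
    by_contra h0
    exact t.ir _ (t.tr _ _ _ hij (h.uR.2 j i ne.symm h0))
  have u1 := uni_swap (r := flip o) (r' := flip (sw o i j)) (fun a b c x y => t.tr c b a y x) t.ir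
    (fun a b c x y => t'.tr c b a y x) t'.ir (i := j) (j := i) hij (.inl ⟨rfl, rfl⟩)
    (fun p q x => by unfold flip sw at *; tauto) h.uL (R i j)
  have u2 := uni_swap t.tr t.ir t'.tr t'.ir hij (.inl ⟨rfl, rfl⟩)
    (fun p q x => by unfold sw; tauto) h.uR (L j i)
  refine ⟨t', fun p q x => .inr ⟨h.ref p q x, fun e => ?_⟩, ?_, ?_,
    relT _ _ _ _ _ _ _ _ h.rel ⟨_, _, uni_tv hu ne' (L lo hi + R lo hi),
      uni_tv (r := flip (Up c)) hu ne'.symm (L hi lo + R hi lo), ?_, ?_⟩⟩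
  · have := hu.1
    rcases he with ⟨rfl, rfl⟩ | ⟨rfl, rfl⟩ <;> obtain ⟨rfl, rfl⟩ := e <;> linarith
  · rcases he with ⟨rfl, rfl⟩ | ⟨rfl, rfl⟩ <;> rw [z1, z2, add_zero, zero_add]
    exacts [u1.2, u1.1]
  · rcases he with ⟨rfl, rfl⟩ | ⟨rfl, rfl⟩ <;> rw [z1, z2, add_zero, zero_add]
    exacts [u2.1, u2.2]
  all_goals
    rw [Matrix.mul_assoc _ _ (transvection lo hi _), transvection_mul_transvection_same _ _ ne',
      CharTwo.add_self_eq_zero, transvection_zero, Matrix.mul_one]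

/-- The number of inversions. -/
noncomputable def pot (o T : ι → ι → Prop) : ℕ := {x : ι × ι | o x.1 x.2 ∧ T x.2 x.1}.ncard

omit [DecidableEq ι] in
lemma pot_sw {o T : ι → ι → Prop} (h' : TO T) {i j : ι} (h1 : o i j) (h2 : T j i) :
    pot (sw o i j) T < pot o T := by
  refine Set.ncard_lt_ncard ⟨?_, fun h => ?_⟩ (Set.toFinite _)
  · rintro ⟨p, q⟩ ⟨⟨rfl, rfl⟩ | a, b⟩
    · exact absurd (h'.tr _ _ _ h2 b) (h'.ir _)
    · exact ⟨a.1, b⟩
  · rcases (@h (i, j) ⟨h1, h2⟩).1 with a | a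
    · exact h'.ir j (a.1 ▸ h2)
    · exact a.2 ⟨rfl, rfl⟩

omit [DecidableEq ι] in
lemma rel_perm {κ : Type} [Fintype κ] {c : ι → ℂ} {L R L' R' : Matrix ι ι F}
    (h : Rel c L R L' R') (π : κ ≃ ι) : Rel (c ∘ π) (L.submatrix π π) (R.submatrix π π)
      (L'.submatrix π π) (R'.submatrix π π) := by
  obtain ⟨A, B, a, b, e1, e2⟩ := h
  refine ⟨A.submatrix π π, B.submatrix π π, ⟨fun _ => a.1 _, fun i j x => a.2 _ _ (π.injective.ne x)⟩,
    ⟨fun _ => b.1 _, fun i j x => b.2 _ _ (π.injective.ne x)⟩, ?_, ?_⟩ <;>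
  simp only [submatrix_mul_equiv, e1, e2]

lemma rel_refl (c : ι → ℂ) (L R : Matrix ι ι F) : Rel c L R L R :=
  ⟨1, 1, ⟨one_apply_eq, fun _ _ x y => absurd (one_apply_ne x) y⟩,
    ⟨one_apply_eq, fun _ _ x y => absurd (one_apply_ne x) y⟩, by simp, by simp⟩

end Abs

/-- An entry of a table. -/
def ent (M : Ml) (p q : ℕ) : Bool := (M.getD p []).getD q false

/-- The table of a function. -/
def tab (n : ℕ) (f : ℕ → ℕ → Bool) : Ml := (List.range n).map fun p => (List.range n).map (f p)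

/-- A point of an order type. -/
def pt (t : Tl) (i : ℕ) : ℕ × ℕ := t.getD i (0, 0)

/-- The lexicographic order. -/
def lx (x y : ℕ × ℕ) : Bool := decide (x.1 < y.1) || (x.1 == y.1 && decide (x.2 < y.2))

/-- A row operation. -/
def ro (n i j : ℕ) (b : Bool) (M : Ml) : Ml :=
  tab n fun p q => xor (ent M p q) (p == i && (b && ent M j q))

/-- A column operation. -/
def co (n i j : ℕ) (b : Bool) (M : Ml) : Ml :=
  tab n fun p q => xor (ent M p q) (q == j && (b && ent M p i))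

/-- Both operations. -/
def act (n : ℕ) (y : ℕ × ℕ) (L R M : Ml) : Ml :=
  co n y.1 y.2 (xor (ent L y.1 y.2) (ent R y.1 y.2))
    (ro n y.2 y.1 (xor (ent L y.2 y.1) (ent R y.2 y.1)) M)

/-- Adjacent inversions. -/
def good (t : Tl) (O : Ml) (x : ℕ × ℕ) : Bool :=
  ent O x.1 x.2 && lx (pt t x.2) (pt t x.1) &&
    (List.range t.length).all fun k => !(ent O x.1 k && ent O k x.2)

/-- A pair, ordered by the second coordinates. -/
def up (u : Tl) (x : ℕ × ℕ) : ℕ × ℕ := if (pt u x.1).2 < (pt u x.2).2 then x else x.swap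

/-- Removing an adjacent inversion. -/
def mv (u : Tl) (n : ℕ) (s : Ml × Ml × Ml) (x : ℕ × ℕ) : Ml × Ml × Ml :=
  (tab n fun p q => (p == x.2 && q == x.1) || (ent s.1 p q && !(p == x.1 && q == x.2)),
    act n (up u x) s.2.1 s.2.2 s.2.1, act n (up u x) s.2.1 s.2.2 s.2.2)

/-- One round. -/
def rnd (u t : Tl) (s : Ml × Ml × Ml) : Ml × Ml × Ml :=
  (((List.range t.length).product (List.range t.length)).find? (good t s.1)).elim s
    (mv u t.length s)

/-- The number of members below `v`. -/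
def cnt (l : List ℕ) (v : ℕ) : ℕ := l.countP fun y => decide (y < v)

/-- Matching in one coordinate. -/
def mt1 (l l' : List ℕ) (y x : ℕ) : Bool :=
  decide (cnt l y ≤ cnt l' x) && decide (cnt l' x < cnt l (y + 1))

/-- Matching. -/
def mt (t t' : Tl) (y x : ℕ × ℕ) : Bool :=
  mt1 (t.map fun z => z.1) (t'.map fun z => z.1) y.1 x.1 &&
    mt1 (t.map fun z => z.2) (t'.map fun z => z.2) y.2 x.2

/-- The old label of a new label. -/
def old (t t' : Tl) (b : Bool) (p : ℕ) : ℕ :=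
  t.findIdx fun y => cond b (mt t t' y (pt t' p)) (mt t' t (pt t' p) y)

/-- The old labels. -/
def olds (t t' : Tl) (b : Bool) : List ℕ := (List.range t'.length).map (old t t' b)

/-- The first state. -/
def ini (t : Tl) (g : List ℕ) (n : ℕ) (w : Ml × Ml) : Ml × Ml × Ml :=
  (tab n fun p q => lx (pt t (g.getD p 0)) (pt t (g.getD q 0)),
    tab n fun p q => ent w.1 (g.getD p 0) (g.getD q 0),
    tab n fun p q => ent w.2 (g.getD p 0) (g.getD q 0))

/-- The algorithm. -/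
def step (x : Tl × Tl × Bool × Ml × Ml) : Ml × Ml :=
  ((rnd (cond x.2.2.1 ((olds x.1 x.2.1 x.2.2.1).map (pt x.1)) x.2.1) x.2.1)^[x.2.1.length *
    x.2.1.length] (ini x.1 (olds x.1 x.2.1 x.2.2.1) x.2.1.length x.2.2.2)).2

section Time

variable {α : Type} [N487b59b3 α]

@[fun_prop] lemma ent_pt {M : α → Ml} {p q : α → ℕ} (h1 : PT M) (h2 : PT p) (h3 : PT q) :
    PT fun a => ent (M a) (p a) (q a) := by
  unfold ent; fun_prop

@[fun_prop] lemma tab_pt {n : α → ℕ} {f : α → ℕ → ℕ → Bool} (h1 : PT n) (h2 : PB n)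
    (h3 : PT fun x : (α × ℕ) × ℕ => f x.1.1 x.1.2 x.2) : PT fun a => tab (n a) (f a) :=
  PT.map (PT.range h1 h2) (PT.map (h := fun (x : α × ℕ) q => f x.1 x.2 q)
    ((PT.range h1 h2).comp' PT.id'.fst) h3)

@[fun_prop] lemma pt_pt {t : α → Tl} {i : α → ℕ} (h1 : PT t) (h2 : PT i) :
    PT fun a => pt (t a) (i a) := by
  unfold pt; fun_prop

@[fun_prop] lemma lx_pt {x y : α → ℕ × ℕ} (h1 : PT x) (h2 : PT y) : PT fun a => lx (x a) (y a) := by
  unfold lx; fun_prop

lemma ro_pt {n i j : α → ℕ} {b : α → Bool} {M : α → Ml} (h1 : PT n) (h2 : PB n) (h3 : PT i)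
    (h4 : PT j) (h5 : PT b) (h6 : PT M) : PT fun a => ro (n a) (i a) (j a) (b a) (M a) :=
  tab_pt h1 h2 (by fun_prop)

lemma co_pt {n i j : α → ℕ} {b : α → Bool} {M : α → Ml} (h1 : PT n) (h2 : PB n) (h3 : PT i)
    (h4 : PT j) (h5 : PT b) (h6 : PT M) : PT fun a => co (n a) (i a) (j a) (b a) (M a) :=
  tab_pt h1 h2 (by fun_prop)

@[fun_prop] lemma act_pt {n : α → ℕ} {y : α → ℕ × ℕ} {L R M : α → Ml} (h1 : PT n) (h2 : PB n)
    (h3 : PT y) (h4 : PT L) (h5 : PT R) (h6 : PT M) :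
    PT fun a => act (n a) (y a) (L a) (R a) (M a) :=
  co_pt h1 h2 h3.fst h3.snd (by fun_prop) (ro_pt h1 h2 h3.snd h3.fst (by fun_prop) h6)

@[fun_prop] lemma good_pt {t : α → Tl} {O : α → Ml} {x : α → ℕ × ℕ} (h1 : PT t) (h2 : PT O)
    (h3 : PT x) : PT fun a => good (t a) (O a) (x a) := by
  unfold good; fun_prop

@[fun_prop] lemma up_pt {u : α → Tl} {x : α → ℕ × ℕ} (h1 : PT u) (h3 : PT x) :
    PT fun a => up (u a) (x a) := by
  unfold up; fun_prop

lemma rnd_pt {u t : α → Tl} {s : α → Ml × Ml × Ml} (h1 : PT u) (h2 : PT t) (h3 : PT s) :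
    PT fun a => rnd (u a) (t a) (s a) := by
  unfold rnd mv
  refine PT.elim (by fun_prop) h3 (PT.pair (tab_pt (by fun_prop) (by fun_prop) (by fun_prop)) ?_)
  fun_prop

@[fun_prop] lemma mt1_pt {l l' : α → List ℕ} {y x : α → ℕ} (h1 : PT l) (h2 : PT l') (h3 : PT y)
    (h4 : PT x) : PT fun a => mt1 (l a) (l' a) (y a) (x a) := by
  unfold mt1 cnt; fun_prop

@[fun_prop] lemma mt_pt {l l' : α → Tl} {y x : α → ℕ × ℕ} (h1 : PT l) (h2 : PT l') (h3 : PT y)
    (h4 : PT x) : PT fun a => mt (l a) (l' a) (y a) (x a) := by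
  unfold mt; fun_prop

@[fun_prop] lemma olds_pt {t t' : α → Tl} {b : α → Bool} (h1 : PT t) (h2 : PT t') (h3 : PT b) :
    PT fun a => olds (t a) (t' a) (b a) := by
  unfold olds old; fun_prop

end Time

/-- The size of a state. -/
def Sm (n : ℕ) (s : Ml × Ml × Ml) : Prop := Shared.PolyTime.sz s.1 ≤ n * (2 * (3 * n) + 1) ∧
  Shared.PolyTime.sz s.2.1 ≤ n * (2 * (3 * n) + 1) ∧ Shared.PolyTime.sz s.2.2 ≤ n * (2 * (3 * n) + 1)

lemma sz_tab (n : ℕ) (f : ℕ → ℕ → Bool) :
    Shared.PolyTime.sz (tab n f) ≤ n * (2 * (3 * n) + 1) := by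
  refine (Shared.PolyTime.sz_list_le (B := 3 * n) fun a ha => ?_).trans (by simp [tab])
  obtain ⟨p, -, rfl⟩ := List.mem_map.1 ha
  simp [Shared.PolyTime.sz_listBool]

lemma Sm.rnd {u t : Tl} {s : Ml × Ml × Ml} (h : Sm t.length s) : Sm t.length (rnd u t s) := by
  unfold VStep.rnd
  cases List.find? _ _
  exacts [h, ⟨sz_tab _ _, sz_tab _ _, sz_tab _ _⟩]

lemma step_pt : PT step := by
  refine PT.snd (PT.iterate_inv (rnd_pt (by fun_prop) (by fun_prop) (by fun_prop)) (by fun_prop)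
    (by fun_prop) ?_ (fun x s => Sm x.2.1.length s) (fun _ => ⟨sz_tab _ _, sz_tab _ _, sz_tab _ _⟩)
    (fun _ _ => Sm.rnd) (B := fun x => 5 * (x.2.1.length * (2 * (3 * x.2.1.length) + 1)) + 2)
    (by fun_prop) fun x s h => ?_)
  · exact PT.pair (tab_pt (by fun_prop) (by fun_prop) (by fun_prop))
      (PT.pair (tab_pt (by fun_prop) (by fun_prop) (by fun_prop))
        (tab_pt (by fun_prop) (by fun_prop) (by fun_prop)))
  · obtain ⟨h1, h2, h3⟩ := h
    rw [Shared.PolyTime.sz_prod, Shared.PolyTime.sz_prod s.2]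
    omega

lemma step_sz (x : Tl × Tl × Bool × Ml × Ml) :
    Shared.PolyTime.sz (step x) ≤ 40 * (x.2.1.length + 1) ^ 2 := by
  have : ∀ u s k, Sm x.2.1.length s → Sm x.2.1.length ((rnd u x.2.1)^[k] s) := fun u s k h => by
    induction k with
    | zero => exact h
    | succ k ih => rw [iterate_succ_apply']; exact ih.rnd
  obtain ⟨-, h2, h3⟩ := this _ (ini x.1 (olds x.1 x.2.1 x.2.2.1) x.2.1.length x.2.2.2)
    (x.2.1.length * x.2.1.length) ⟨sz_tab _ _, sz_tab _ _, sz_tab _ _⟩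
  rw [Shared.PolyTime.sz_prod]
  unfold step
  nlinarith

/-- The value of a bit. -/
def bv (b : Bool) : F := if b then 1 else 0

lemma bv_xor (a b : Bool) : bv (xor a b) = bv a + bv b := by cases a <;> cases b <;> decide

lemma bv_and (a b : Bool) : bv (a && b) = bv a * bv b := by cases a <;> cases b <;> decide

lemma mat_eq (n : ℕ) (M : Ml) (p q : Fin n) : mat n M p q = bv (ent M p q) := rfl

lemma ent_tab {n : ℕ} (f : ℕ → ℕ → Bool) (p q : Fin n) : ent (tab n f) p q = f p q := by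
  simp [ent, tab]

lemma mat_ro {n : ℕ} (i j : Fin n) (b : Bool) (M : Ml) :
    mat n (ro n i j b M) = transvection i j (bv b) * mat n M := by
  ext p q
  rw [mat_eq, ro, ent_tab, bv_xor, bv_and, bv_and]
  by_cases h : p = i
  · rw [h, transvection_mul_apply_same, beq_self_eq_true, mat_eq, mat_eq]
    simp [bv]
  · rw [transvection_mul_apply_of_ne _ _ _ _ h, mat_eq,
      beq_eq_false_iff_ne.2 (Fin.val_injective.ne h)]
    simp [bv]

lemma mat_co {n : ℕ} (i j : Fin n) (b : Bool) (M : Ml) :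
    mat n (co n i j b M) = mat n M * transvection i j (bv b) := by
  ext p q
  rw [mat_eq, co, ent_tab, bv_xor, bv_and, bv_and]
  by_cases h : q = j
  · rw [h, mul_transvection_apply_same, beq_self_eq_true, mat_eq, mat_eq]
    simp [bv]
  · rw [mul_transvection_apply_of_ne _ _ _ _ h, mat_eq,
      beq_eq_false_iff_ne.2 (Fin.val_injective.ne h)]
    simp [bv]

lemma mat_act {n : ℕ} (i j : Fin n) (L R M : Ml) : mat n (act n (i, j) L R M) =
    transvection j i (mat n L j i + mat n R j i) * mat n M *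
      transvection i j (mat n L i j + mat n R i j) := by
  rw [act, mat_co, mat_ro, bv_xor, bv_xor]
  rfl

lemma pt_eq (t : Tl) (i : Fin t.length) : pt t i = t[i] := by simp [pt]

lemma pts_re (t : Tl) (i : Fin t.length) : (pts t i).re = t[i].1 := by simp [pts]

lemma pts_im (t : Tl) (i : Fin t.length) : (pts t i).im = t[i].2 := by simp [pts]

lemma lx_iff (t : Tl) (p q : Fin t.length) : lx (pt t p) (pt t q) = true ↔ Lx (pts t) p q := by
  simp [lx, Lx, Up, pts_re, pts_im, pt_eq]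

/-- The relation of a table. -/
def ob (n : ℕ) (O : Ml) (p q : Fin n) : Prop := ent O p q = true

lemma good_iff (t : Tl) (O : Ml) (i j : Fin t.length) : good t O (i, j) = true ↔
    ob _ O i j ∧ Lx (pts t) j i ∧ ∀ k, ¬ (ob _ O i k ∧ ob _ O k j) := by
  rw [good, Bool.and_eq_true, Bool.and_eq_true, lx_iff, and_assoc, List.all_eq_true]
  refine and_congr_right' (and_congr_right' ⟨fun h k => ?_, fun h k hk => ?_⟩)
  · simpa [ob, imp_iff_not_or] using h k (List.mem_range.2 k.2)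
  · simpa [ob, imp_iff_not_or] using h ⟨k, List.mem_range.1 hk⟩

lemma rnd_inv {u t : Tl} {c : Fin t.length → ℂ} (ht : Injective (pts t)) (hc : Injective c)
    (hu : ∀ p, (c p).im = (pt u p).2) (hd : Dn c (pts t)) {L₀ R₀ : Matrix _ _ F} {s : Ml × Ml × Ml}
    (h : Inv c L₀ R₀ (ob _ s.1) (mat _ s.2.1) (mat _ s.2.2)) :
    Inv c L₀ R₀ (ob _ (rnd u t s).1) (mat _ (rnd u t s).2.1) (mat _ (rnd u t s).2.2) ∧
      pot (ob _ (rnd u t s).1) (Lx (pts t)) ≤ pot (ob _ s.1) (Lx (pts t)) - 1 := by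
  have T := TO.lx ht
  unfold rnd
  cases hf : List.find? _ _ with
  | none =>
    refine ⟨h, ?_⟩
    have : pot (ob _ s.1) (Lx (pts t)) = 0 := by
      refine (Set.ncard_eq_zero (Set.toFinite _)).2 (eq_empty_of_forall_notMem fun x hx => ?_)
      obtain ⟨i, j, hij⟩ := adj h.ord T _ _ hx.1 hx.2
      exact List.find?_eq_none.1 hf (i, j) (List.pair_mem_product.2
        ⟨List.mem_range.2 i.2, List.mem_range.2 j.2⟩) ((good_iff t _ i j).2 hij)
    exact this.trans_le (Nat.zero_le _)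
  | some x =>
    obtain ⟨i, j⟩ := x
    obtain ⟨hi, hj⟩ := List.pair_mem_product.1 (List.mem_of_find?_eq_some hf)
    lift i to Fin t.length using List.mem_range.1 hi
    lift j to Fin t.length using List.mem_range.1 hj
    obtain ⟨h1, h2, h3⟩ := (good_iff t _ i j).1 (List.find?_some hf)
    have e : ob t.length (mv u t.length s (i, j)).1 = sw (ob _ s.1) i j := by
      ext p q
      simp [ob, mv, ent_tab, sw, Fin.val_inj, imp_iff_not_or]
    have hre : (c i).re = (c j).re := by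
      refine le_antisymm (not_lt.1 fun x => ?_) (not_lt.1 fun x => ?_)
      · exact h.ord.ir _ (h.ord.tr _ _ _ h1 (h.ref _ _ x))
      · exact T.ir _ (T.tr _ _ _ h2 (.inl ((hd _ _).1 x)))
    rw [Option.elim_some, e]
    refine ⟨?_, Nat.le_sub_one_of_lt (pot_sw T h1 h2)⟩
    by_cases hl : (pt u i).2 < (pt u j).2
    · have : up u (i, j) = (i.1, j.1) := if_pos hl
      simp only [mv, this, mat_act]
      exact h.swap h1 h3 ⟨hre, by rw [hu, hu]; exact_mod_cast hl⟩ (.inl ⟨rfl, rfl⟩)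
    · have : up u (i, j) = (j.1, i.1) := if_neg hl
      simp only [mv, this, mat_act]
      refine h.swap h1 h3 ⟨hre.symm, lt_of_le_of_ne ?_ fun x => ?_⟩ (.inr ⟨rfl, rfl⟩)
      · rw [hu, hu]; exact_mod_cast not_lt.1 hl
      · exact h.ord.ir j (hc (Complex.ext hre x.symm) ▸ h1)

lemma loop {u t : Tl} {c : Fin t.length → ℂ} (ht : Injective (pts t)) (hc : Injective c)
    (hu : ∀ p, (c p).im = (pt u p).2) (hd : Dn c (pts t)) {s : Ml × Ml × Ml}
    (h : Inv c (mat _ s.2.1) (mat _ s.2.2) (ob _ s.1) (mat _ s.2.1) (mat _ s.2.2))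
    {s' : Ml × Ml} (hs : s' = ((rnd u t)^[t.length * t.length] s).2) :
    Tri (pts t) (mat _ s'.1) (mat _ s'.2) ∧
      Rel c (mat _ s.2.1) (mat _ s.2.2) (mat _ s'.1) (mat _ s'.2) := by
  have key : ∀ k, Inv c (mat _ s.2.1) (mat _ s.2.2) (ob _ ((rnd u t)^[k] s).1)
      (mat _ ((rnd u t)^[k] s).2.1) (mat _ ((rnd u t)^[k] s).2.2) ∧
      pot (ob _ ((rnd u t)^[k] s).1) (Lx (pts t)) ≤ t.length * t.length - k := fun k => by
    induction k with
    | zero => exact ⟨h, (Set.ncard_le_card _).trans (by simp)⟩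
    | succ k ih =>
      rw [iterate_succ_apply']
      obtain ⟨a, b⟩ := rnd_inv ht hc hu hd ih.1
      exact ⟨a, by have := ih.2; omega⟩
  obtain ⟨a, b⟩ := key (t.length * t.length)
  rw [Nat.sub_self, Nat.le_zero, pot, Set.ncard_eq_zero (Set.toFinite _)] at b
  have z : ∀ p q, p ≠ q → ob _ ((rnd u t)^[t.length * t.length] s).1 p q → Lx (pts t) p q :=
    fun p q hpq x => (JMisc.lx_total ht hpq).resolve_right fun y =>
      eq_empty_iff_forall_notMem.1 b (p, q) ⟨x, y⟩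
  subst hs
  exact ⟨⟨⟨a.uL.1, fun p q x y => z q p x.symm (a.uL.2 p q x y)⟩,
    ⟨a.uR.1, fun p q x y => z p q x (a.uR.2 p q x y)⟩⟩, a.rel⟩

lemma cnt_eq (t : Tl) (k : ℕ × ℕ → ℕ) (v : ℕ) :
    cnt (t.map k) v = ∑ i : Fin t.length, if k t[i] < v then 1 else 0 := by
  refine .trans ?_ (Fin.sum_univ_fun_getElem t fun y => if k y < v then 1 else 0).symm
  unfold cnt
  induction t with
  | nil => rfl
  | cons y t ih => simp [List.countP_cons, ← ih, add_comm]

lemma mt1_self {t t' : Tl} (k : ℕ × ℕ → ℕ) (f : Fin t.length ≃ Fin t'.length)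
    (h : ∀ i j, k t[i] < k t[j] → k t'[f i] < k t'[f j]) (i : Fin t.length) :
    mt1 (t.map k) (t'.map k) (k t[i]) (k t'[f i]) = true := by
  simp only [mt1, cnt_eq, Bool.and_eq_true, decide_eq_true_eq, ← f.sum_comp]
  refine ⟨Finset.sum_le_sum fun j _ => ?_, Finset.sum_lt_sum (fun j _ => ?_) ⟨i, by simp⟩⟩
  · have := h j i
    split_ifs <;> omega
  · have := h i j
    split_ifs <;> omega

lemma mt1_uniq {l l' : List ℕ} {y z x : ℕ} (h : mt1 l l' y x = true) (h' : mt1 l l' z x = true) :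
    y = z := by
  have mono : ∀ a b, a ≤ b → cnt l a ≤ cnt l b := fun a b hab =>
    List.countP_mono_left fun x _ hx => by simp at hx ⊢; omega
  simp only [mt1, Bool.and_eq_true, decide_eq_true_eq] at h h'
  have := mono (y + 1) z
  have := mono (z + 1) y
  omega

lemma mt_self {t t' : Tl} (f : Fin t.length ≃ Fin t'.length) (h : Dn (pts t) (pts t' ∘ f))
    (i : Fin t.length) : mt t t' t[i] t'[f i] = true :=
  Bool.and_eq_true_iff.2 ⟨mt1_self (fun z => z.1) f
    (fun i j => by simpa [pts_re] using (h i j).1) i,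
    mt1_self (fun z => z.2) f (fun i j => by simpa [pts_im] using (h i j).2) i⟩

lemma mt_uniq {t t' : Tl} {y z x : ℕ × ℕ} (h : mt t t' y x = true) (h' : mt t t' z x = true) :
    y = z :=
  Prod.ext (mt1_uniq (Bool.and_eq_true_iff.1 h).1 (Bool.and_eq_true_iff.1 h').1)
    (mt1_uniq (Bool.and_eq_true_iff.1 h).2 (Bool.and_eq_true_iff.1 h').2)

lemma old_eq {t t' : Tl} {b : Bool} (e : Fin t.length ≃ Fin t'.length) (ht : Injective (pts t))
    (ht' : Injective (pts t')) (h : if b then Dn (pts t) (pts t' ∘ e) else Dn (pts t' ∘ e) (pts t))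
    (i : Fin t.length) : old t t' b (e i) = i := by
  rw [old, List.findIdx_eq i.2, pt_eq]
  cases b
  · have h' : ∀ j : Fin t.length, mt t' t t'[e j] t[j] = true := fun j => by
      simpa using mt_self e.symm (fun p q => by simpa using h (e.symm p) (e.symm q)) (e j)
    refine ⟨h' i, fun j hj => Bool.eq_false_iff.2 fun x => hj.ne ?_⟩
    have : pts t' (e ⟨j, hj.trans i.2⟩) = pts t' (e i) := by
      rw [pts, pts, mt_uniq (h' ⟨j, hj.trans i.2⟩) x]
    exact congrArg Fin.val (e.injective (ht' this))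
  · refine ⟨mt_self e h i, fun j hj => Bool.eq_false_iff.2 fun x => hj.ne ?_⟩
    have : pts t ⟨j, hj.trans i.2⟩ = pts t i := by rw [pts, pts, ← mt_uniq x (mt_self e h i)]; rfl
    exact congrArg Fin.val (ht this)

lemma isStep : IsStep step := by
  intro t t' b w e ht ht' hd hT
  have g : ∀ p : Fin t'.length, (olds t t' b).getD p 0 = e.symm p := fun p => by
    simpa [olds] using old_eq e ht ht' hd (e.symm p)
  set c : Fin t.length → ℂ := if b then pts t else pts t' ∘ e with hc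
  have d : Dn c (pts t) ∧ Dn c (pts t' ∘ e) ∧ Injective c := by
    cases b
    exacts [⟨hd, fun _ _ => ⟨id, id⟩, ht'.comp e.injective⟩, ⟨fun _ _ => ⟨id, id⟩, hd, ht⟩]
  have m : ∀ M : Ml, mat t'.length (tab t'.length fun p q => ent M ((olds t t' b).getD p 0)
      ((olds t t' b).getD q 0)) = (mat _ M).submatrix e.symm e.symm := fun M => by
    ext p q
    rw [mat_eq, ent_tab, g, g]
    rfl
  have o : ob t'.length (ini t (olds t t' b) t'.length w).1 = Lx (pts t ∘ e.symm) := by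
    ext p q
    rw [ob, ini, ent_tab, g, g, lx_iff]
    rfl
  refine (loop (u := cond b ((olds t t' b).map (pt t)) t') (c := c ∘ e.symm)
    (s := ini t (olds t t' b) t'.length w) (s' := step (t, t', b, w)) ht'
    (d.2.2.comp e.symm.injective) (fun p => ?_)
    (fun p q => by simpa using d.2.1 (e.symm p) (e.symm q)) ?_ rfl).imp_right fun h2 => ?_
  · cases b
    · simp [hc, pts_im, pt_eq]
    · have := g p
      simp [olds] at this
      simp [hc, pts_im, pt, olds, this]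
  · rw [o]
    simp only [ini, m]
    exact ⟨TO.lx (ht.comp e.symm.injective), fun p q x => .inl ((d.1 _ _).1 x),
      (hT.perm e.symm).1, (hT.perm e.symm).2, rel_refl _ _ _⟩
  · simpa only [ini, m, submatrix_submatrix, comp_assoc, Equiv.symm_comp_self, comp_id,
      submatrix_id_id] using rel_perm h2 e

end VStep

theorem stepS : StepS := ⟨VStep.step, VStep.step_pt, VStep.step_sz, VStep.isStep⟩

end Pool.Agent.Lib.MP_837412_lc
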