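import Pool.Agent.Lib.MP_837412_lc.USt
import Pool.Agent.Lib.MP_837412_lc.G5

/-!
Sums of polynomials in one variable: critical points and the relation between cycles.
-/

namespace Pool.Agent.Lib.MP_837412_lc

open Pool.Agent.Shared.Mod2 Set Function Filter Topology Polynomial

namespace VSum

lemma tr {E E' ι κ : Type} [TopologicalSpace E] [TopologicalSpace E'] [Fintype ι] [Fintype κ]
    {G : E → ℂ} {c : ι → ℝ} {m : ℕ} {L : Matrix ι ι F} (h : LD G c m L) (f : E' ≃ₜ E) (e : κ ≃ ι)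
    {G' : E' → ℂ} {c' : κ → ℝ} {L' : Matrix κ κ F} (hG : ∀ y, G' y = G (f y))
    (hc : ∀ a, c' a = c (e a)) (hL : ∀ a b, L' a b = L (e a) (e b)) : LD G' c' m L' := by
  obtain ⟨M₀, h⟩ := h
  refine ⟨M₀, fun M' M δ h1 h2 h3 => ?_⟩
  obtain ⟨u, d, a1, a2, a3⟩ := h M' M δ h1 h2 h3
  let φ : C(E, E') := f.symm
  let ψ : C(E', E) := f
  have m1 : ∀ A, MapsTo φ (G ⁻¹' A) (G' ⁻¹' A) := fun A y hy => by simpa [φ, hG] using hy
  have m2 : ∀ A, MapsTo ψ (G' ⁻¹' A) (G ⁻¹' A) := fun A y hy => by simpa [ψ, hG] using hy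
  have e1 : ∀ x, cm ψ (cm φ x) = x := fun x => by
    rw [cm_cm, show ψ.comp φ = ContinuousMap.id E from ContinuousMap.ext fun y => by simp [φ, ψ],
      cm_id]
  refine ⟨fun a => cm φ (u (e a)), fun a => cm φ (d (e a)), fun a => ?_, fun w hw => ?_,
    fun a => ?_⟩
  · rw [hc]
    exact ⟨cm_Zs (m1 _) (m1 _) (a1 _).1, cm_Zs (m1 _) (m1 _) (a1 _).2⟩
  · have := cm_Bs (mapsTo_univ ψ univ) (m2 _) hw
    simp only [map_sum, map_smul, e1] at this
    have h0 := a2 (w ∘ e.symm) (by rw [← e.sum_comp]; simpa using this)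
    exact funext fun a => by simpa using congrFun h0 (e a)
  · have := cm_Bs (mapsTo_univ φ univ) (m1 _) (a3 (e a))
    rw [← e.sum_comp] at this
    simpa only [map_add, map_sum, map_smul, hL] using this

variable {σ : Type} [Fintype σ]

omit [Fintype σ] in
lemma eval_ae (y : σ → ℂ) (i : σ) (q : ℝ[X]) :
    MvPolynomial.eval y (cx' (aeval (MvPolynomial.X i : MvPolynomial σ ℝ) q)) = aeval (y i) q := by
  rw [MvPolynomial.eval_map, ← MvPolynomial.aeval_def, ← aeval_algHom_apply,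
    MvPolynomial.aeval_X]

lemma eval_sum (c : ℝ) (g : σ → ℝ[X]) (y : σ → ℂ) :
    MvPolynomial.eval y (cx' (sumP c g)) = c + ∑ i, aeval (y i) (g i) := by
  simp only [sumP, map_add, map_sum, eval_ae]
  simp

omit [Fintype σ] in
lemma pd_ae [DecidableEq σ] (i j : σ) (q : ℝ[X]) :
    MvPolynomial.pderiv i (aeval (MvPolynomial.X j : MvPolynomial σ ℝ) q) =
      if i = j then aeval (MvPolynomial.X j : MvPolynomial σ ℝ) (derivative q) else 0 := by
  rw [Derivation.map_aeval, MvPolynomial.pderiv_X, Pi.single_apply]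
  by_cases h : i = j
  · simp [h]
  · simp [h, Ne.symm h]

lemma pd_sum (c : ℝ) (g : σ → ℝ[X]) (i : σ) : MvPolynomial.pderiv i (sumP c g) =
    aeval (MvPolynomial.X i : MvPolynomial σ ℝ) (derivative (g i)) := by
  classical
  simp only [sumP, map_add, map_sum, pd_ae]
  simp

lemma eval_pd (c : ℝ) (g : σ → ℝ[X]) (i : σ) (y : σ → ℂ) :
    MvPolynomial.eval y (MvPolynomial.pderiv i (cx' (sumP c g))) =
      aeval (y i) (derivative (g i)) := by
  rw [pderiv_cx, pd_sum, eval_ae]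

lemma ae_real (x : ℝ) (q : ℝ[X]) : aeval (x : ℂ) q = ((q.eval x : ℝ) : ℂ) :=
  aeval_algebraMap_apply_eq_algebraMap_eval x q

lemma dd_ne {m : ℕ} {k : ℝ} {r : Fin m → ℝ} (hk : k ≠ 0) (hr : Injective r) (j : Fin m) :
    (derivative (C k * ∏ l, (X - C (r l)))).eval (r j) ≠ 0 := by
  rw [derivative_C_mul, eval_mul, eval_C, ← Lagrange.nodal_eq,
    Lagrange.eval_nodal_derivative_eval_node_eq (Finset.mem_univ j)]
  exact mul_ne_zero hk (Lagrange.eval_nodal_not_at_node fun l hl e =>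
    (Finset.mem_erase.1 hl).1 (hr e).symm)

lemma big {m : ℕ} {k : ℝ} (r : Fin m → ℝ) (hm : 0 < m) (hk : k ≠ 0) :
    ∃ R : ℝ, ∀ z : ℂ, R ≤ ‖z‖ → 1 ≤ ‖aeval z (C k * ∏ l, (X - C (r l)))‖ := by
  have hd : 0 < ((C k * ∏ l, (X - C (r l))).map (algebraMap ℝ ℂ)).degree := by
    rw [degree_map, degree_C_mul hk, ← Lagrange.nodal_eq, Lagrange.degree_nodal]
    simpa using hm
  have := (tendsto_norm_atTop _ hd (tendsto_comap (f := fun z : ℂ => ‖z‖) (x := atTop))).eventually
    (eventually_ge_atTop 1)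
  obtain ⟨R, hR⟩ := eventually_atTop.1 (eventually_comap.1 this)
  exact ⟨R, fun z hz => by simpa only [eval_map_algebraMap] using hR _ hz z rfl⟩

/-- The hypotheses. -/
structure Hy (m : ℕ) (c : ℝ) (g : σ → ℝ[X]) (κ t : σ → ℝ) (r : σ → Fin m → ℝ) : Prop where
  mono : ∀ i, StrictMono (r i)
  der : ∀ i, derivative (g i) = C (κ i) * ∏ j, (X - C (r i j))
  sgn : ∀ i (j : Fin m), 0 < κ i * (-1) ^ (m - j) * ((g i).eval (r i j) - t i)
  inj : Injective fun a : σ → Fin m => c + ∑ i, (g i).eval (r i (a i))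

variable {m : ℕ} {c : ℝ} {g : σ → ℝ[X]} {κ t : σ → ℝ} {r : σ → Fin m → ℝ}

lemma Hy.ne (h : Hy m c g κ t r) (hm : 0 < m) (i : σ) : κ i ≠ 0 := fun e => by
  simpa [e] using h.sgn i ⟨0, hm⟩

lemma Hy.mor [DecidableEq σ] (h : Hy m c g κ t r) (hm : 0 < m) :
    Mor (cx' (sumP c g)) (fun a : σ → Fin m => ((c + ∑ i, (g i).eval (r i (a i)) : ℝ) : ℂ))
      (fun a i => r i (a i)) where
  inj := Complex.ofReal_injective.comp h.inj
  crit a i := by
    rw [eval_pd, ae_real, h.der, eval_mul, ← Lagrange.nodal_eq,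
      Lagrange.eval_nodal_at_node (Finset.mem_univ _)]
    simp
  val a := by rw [eval_sum]; simp [ae_real]
  all y hy := by
    have : ∀ i, ∃ j, y i = r i j := fun i => by
      have := hy i
      rw [eval_pd, h.der] at this
      simpa [h.ne hm i, Finset.prod_eq_zero_iff, sub_eq_zero] using this
    choose a ha using this
    exact ⟨a, funext ha⟩
  hess a := by
    have : Hess (cx' (sumP c g)) (fun i => (r i (a i) : ℂ)) =
        Matrix.diagonal fun i => (((derivative (derivative (g i))).eval (r i (a i)) : ℝ) : ℂ) := by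
      ext i j
      rw [Hess, Matrix.of_apply, pderiv_cx, pderiv_cx, pd_sum, pd_ae, Matrix.diagonal_apply]
      split_ifs with e
      · rw [eval_ae, ae_real, e]
      · simp
    rw [this, Matrix.det_diagonal]
    refine Finset.prod_ne_zero_iff.2 fun i _ => Complex.ofReal_ne_zero.2 ?_
    rw [h.der]
    exact dd_ne (h.ne hm i) (h.mono i).injective _

lemma Hy.bd (h : Hy m c g κ t r) (hm : 0 < m) :
    ∃ R : ℝ, ∀ y, R ≤ ‖y‖ → 1 ≤ n2 (cx' (sumP c g)) y := by
  choose R hR using fun i => big (r i) hm (h.ne hm i)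
  refine ⟨1 + ∑ i, |R i|, fun y hy => ?_⟩
  obtain ⟨i, hi⟩ : ∃ i, R i ≤ ‖y i‖ := by
    by_contra hc
    push Not at hc
    have := (pi_norm_le_iff_of_nonneg (x := y) (r := ∑ i, |R i|) (by positivity)).2 fun i =>
      ((hc i).le.trans (le_abs_self _)).trans
        (Finset.single_le_sum (f := fun i => |R i|) (fun _ _ => abs_nonneg _) (Finset.mem_univ i))
    linarith
  refine le_trans ?_ (Finset.single_le_sum (f := fun i => ‖MvPolynomial.eval y
    (MvPolynomial.pderiv i (cx' (sumP c g)))‖ ^ 2) (fun _ _ => by positivity) (Finset.mem_univ i))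
  rw [eval_pd, h.der]
  exact one_le_pow₀ (hR i _ hi)

lemma Hy.gen [DecidableEq σ] (h : Hy m c g κ t r) (hm : 0 < m) :
    Sys (fun y => MvPolynomial.eval y (cx' (sumP c g)))
      (fun a : σ → Fin m => ((c + ∑ i, (g i).eval (r i (a i)) : ℝ) : ℂ)) (Fintype.card σ + 1) :=
  all.sys σ _ _ _ _ (h.mor hm) (h.bd hm)

/-- The claim for one type of variables. -/
def P (m : ℕ) (σ : Type) [Fintype σ] : Prop := ∀ [DecidableEq σ] (c : ℝ) (g : σ → ℝ[X])
  (κ t : σ → ℝ) (r : σ → Fin m → ℝ), Hy m c g κ t r →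
  LD (fun y => MvPolynomial.eval y (cx' (sumP c g)))
    (fun a : σ → Fin m => c + ∑ i, (g i).eval (r i (a i))) (Fintype.card σ + 1)
    (Matrix.of fun a b => ∏ i, L1 (fun j => t i < (g i).eval (r i j)) (a i) (b i))

lemma P_equiv {α β : Type} [Fintype α] [Fintype β] (e : α ≃ β) (h : P m α) : P m β := by
  intro _ c g κ t r hy
  classical
  let f : (β → ℂ) ≃ₜ (α → ℂ) :=
    ⟨⟨fun y => y ∘ e, fun y => y ∘ e.symm, fun y => by ext; simp, fun y => by ext; simp⟩,
      by fun_prop, by fun_prop⟩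
  let e' : (β → Fin m) ≃ (α → Fin m) :=
    ⟨fun y => y ∘ e, fun y => y ∘ e.symm, fun y => by ext; simp, fun y => by ext; simp⟩
  have hc : ∀ a : β → Fin m, c + ∑ i, (g i).eval (r i (a i)) =
      c + ∑ i, (g (e i)).eval (r (e i) (e' a i)) := fun a => by rw [← e.sum_comp]; rfl
  have := h c (fun i => g (e i)) (fun i => κ (e i)) (fun i => t (e i)) (fun i => r (e i))
    ⟨fun i => hy.mono _, fun i => hy.der _, fun i => hy.sgn _, by
      rw [← e'.injective_comp, ← show _ = _ ∘ e' from funext hc]; exact hy.inj⟩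
  rw [Fintype.card_congr e] at this
  refine tr this f e' (fun y => ?_) hc fun a b => ?_
  · rw [eval_sum, eval_sum, ← e.sum_comp]; rfl
  · rw [Matrix.of_apply, Matrix.of_apply, ← e.prod_comp]; rfl

lemma P_empty (h1 : GenL) (hm : 0 < m) : P m PEmpty := by
  intro _ c g κ t r hy
  obtain ⟨M₀, h⟩ := h1 _ _ _ _ _ (hy.gen hm)
  refine ⟨M₀, fun M' M δ a1 a2 a3 => ?_⟩
  obtain ⟨-, u, u1, u2⟩ := h M' M δ a1 a2 a3
  refine ⟨u, u, fun a => ⟨u1 a, Cs_mono (fun y _ => ?_) _ (u1 a).1, ?_⟩, u2, fun a => ?_⟩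
  · rw [mem_preimage, eval_sum]
    simp [Wm, a3]
  · have := (u1 a).2
    exact (Cs_zero _ _).le this
  · rw [Fintype.sum_subsingleton _ a]
    simp [aa]

lemma P_option (h1 : GenL) (h2 : TsS) (h3 : OvS) (hm : 0 < m) (α : Type) [Fintype α]
    (h : P m α) : P m (Option α) := by
  intro _ c g κ t r hy
  classical
  let f : (Option α → ℂ) ≃ₜ (α → ℂ) × ℂ :=
    ⟨⟨fun y => (fun i => y (some i), y none), fun q o => o.elim q.2 q.1,
      fun y => by ext (_ | i) <;> rfl, fun q => rfl⟩, by fun_prop,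
      continuous_pi fun o => by cases o <;> simp only [Option.elim] <;> fun_prop⟩
  let e : (Option α → Fin m) ≃ (α → Fin m) × Fin m :=
    ⟨fun y => (fun i => y (some i), y none), fun q o => o.elim q.2 q.1,
      fun y => by funext o; cases o <;> rfl, fun q => rfl⟩
  have hc : ∀ a : Option α → Fin m, c + ∑ i, (g i).eval (r i (a i)) =
      (c + ∑ i, (g (some i)).eval (r (some i) ((e a).1 i))) + (g none).eval (r none (e a).2) :=
    fun a => by rw [Fintype.sum_option, add_assoc, add_comm (eval _ _)]; rfl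
  have hi : Injective fun q : (α → Fin m) × Fin m =>
      (c + ∑ i, (g (some i)).eval (r (some i) (q.1 i))) + (g none).eval (r none q.2) := by
    rw [← e.injective_comp, ← show _ = _ ∘ e from funext hc]; exact hy.inj
  have hG : ∀ y : Option α → ℂ, MvPolynomial.eval y (cx' (sumP c g)) =
      MvPolynomial.eval (f y).1 (cx' (sumP c fun i => g (some i))) + aeval (f y).2 (g none) :=
    fun y => by rw [eval_sum, eval_sum, Fintype.sum_option, add_assoc, add_comm (aeval _ _)]; rfl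
  have l1 := h c (fun i => g (some i)) (fun i => κ (some i)) (fun i => t (some i))
    (fun i => r (some i)) ⟨fun i => hy.mono _, fun i => hy.der _, fun i => hy.sgn _,
      fun a b hab => congrArg Prod.fst (@hi (a, ⟨0, hm⟩) (b, ⟨0, hm⟩) (congrArg (· + _) hab))⟩
  have l2 := h3 m (g none) (κ none) (t none) (r none) (hy.mono _) (hy.der _) (hy.sgn _)
    fun a b hab => congrArg Prod.snd (@hi (fun _ => a, a) (fun _ => a, b) (congrArg (_ + ·) hab))
  have l3 := h2 _ _ _ _ _ _ _ _ _ _ _ (MvPolynomial.continuous_eval _)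
    (Polynomial.continuous_aeval _) l1 l2 (by
      obtain ⟨M₀, hM⟩ := h1 _ _ _ _ _ (hy.gen hm)
      refine ⟨M₀, fun M a => ?_⟩
      have := (hM M M 1 a le_rfl one_pos).1
      rw [Fintype.card_option, Fintype.card_congr e, funext hG] at this
      rw [← this, ← hs_preimage f]
      exact le_rfl)
  rw [Fintype.card_option]
  refine tr l3 f e hG hc fun a b => ?_
  rw [Matrix.of_apply, Matrix.of_apply, Matrix.of_apply, Fintype.prod_option, mul_comm]
  rfl

end VSum

theorem sumS (h1 : GenL) (h2 : TsS) (h3 : OvS) : SumS := by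
  intro σ _ _ m c g κ t r hm a1 a2 a3 a4
  have h : VSum.Hy m c g κ t r := ⟨a1, a2, a3, a4⟩
  refine ⟨h.mor hm, h.bd hm, ?_⟩
  exact Fintype.induction_empty_option (P := fun σ _ => VSum.P m σ)
    (fun _ _ _ e => @VSum.P_equiv _ _ _ (Fintype.ofEquiv _ e.symm) _ e) (VSum.P_empty h1 hm)
    (VSum.P_option h1 h2 h3 hm) σ c g κ t r h

end Pool.Agent.Lib.MP_837412_lc
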