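import Pool.Agent.Lib.MP_837412_lc.RSt
import Pool.Agent.Lib.MP_837412_lc.UP
import Pool.Agent.Lib.MP_837412_lc.JHerm
import Pool.Agent.Lib.MP_837412_lc.JSig

/-!
The machine computes Tarski queries in polynomial time.
-/

namespace Pool.Agent.Lib.MP_837412_lc

open Set Function Polynomial

set_option maxHeartbeats 400000

namespace VTaq

lemma herm_eq {ι : Type} [Fintype ι] (c : ι → ℂ) (q : ℝ[X]) (n : ℕ) (i j : Fin n) :
    herm c q n i j = (∑ l ∈ Finset.range (q.natDegree + 1),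
      ((q.coeff l : ℝ) : ℂ) * ps c (l + ((i : ℕ) + (j : ℕ)))).re := by
  rw [herm, Matrix.of_apply]
  congr 1
  simp only [aeval_eq_sum_range, ps, Finset.mul_sum, Finset.sum_mul]
  rw [Finset.sum_comm]
  refine Finset.sum_congr rfl fun l _ => Finset.sum_congr rfl fun m _ => ?_
  rw [pow_add (c m) l, Complex.real_smul, mul_assoc]

lemma exists_roots {p : ℝ[X]} (h : p ≠ 0) : ∃ c : Fin p.natDegree → ℂ,
    chi c = (Polynomial.C p.leadingCoeff⁻¹ * p).map (algebraMap ℝ ℂ) := by
  have l := leadingCoeff_ne_zero.2 h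
  have m : (Polynomial.C p.leadingCoeff⁻¹ * p).Monic :=
    monic_C_mul_of_mul_leadingCoeff_eq_one (inv_mul_cancel₀ l)
  exact exists_chi (m.map _) (by
    rw [m.natDegree_map, natDegree_C_mul (inv_ne_zero l), Fintype.card_fin])

lemma pc_comp {α β : Type} [RE α] [RE β] {ι : α → Type} [∀ a, Fintype (ι a)] {c : ∀ a, ι a → ℂ}
    (h : PC c) {f : β → α} (hf : RPT f) : PC fun b => c (f b) :=
  RPT.comp' (g := fun a => chi (c a)) h hf

lemma entries (h1 : ChiU) {α : Type} [RE α] {ι : α → Type} [∀ a, Fintype (ι a)] {c : ∀ a, ι a → ℂ}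
    (h : PC c) {q : α → ℝ[X]} (hq : RPT q) :
    RPT fun x : α × Un × Un => (∑ l ∈ Finset.range ((q x.1).natDegree + 1),
      (((q x.1).coeff l : ℝ) : ℂ) * ps (c x.1) (l + (x.2.1.val + x.2.2.val))).re :=
  RPT.re (RPT.sum_range (by fun_prop) (by fun_prop) (RPT.mul (by fun_prop)
    (h1.ps (pc_comp h (f := fun x : (α × Un × Un) × Un => x.1.1) (by fun_prop))
      (j := fun x => x.2.val + (x.1.2.1.val + x.1.2.2.val)) (by fun_prop) (by fun_prop))))

end VTaq

open VTaq in
theorem taqU (h1 : ChiU) (h2 : SigU) : TaqU := by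
  intro α _ p q hp hq p0
  choose c hc using fun a => exists_roots (p0 a)
  have a0 : RPT fun a => (Polynomial.C (p a).leadingCoeff⁻¹ * p a).map (algebraMap ℝ ℂ) :=
    (hp.leadingCoeff.inv.polyC.mul hp).mapReal
  have a1 : PC c := a0.of_eq fun a => (hc a).symm
  have a4 := h2 α (fun a => (p a).natDegree) (fun a => herm (c a) (q a) (p a).natDegree)
    hp.natDegree (.natDegree hp) (fun a => by
      ext i j
      simp only [herm, Matrix.transpose_apply, Matrix.of_apply, add_comm (i : ℕ)])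
    ((entries h1 a1 hq).sub.of_eq fun x =>
      (herm_eq (c x.1.1) (q x.1.1) _ ⟨_, x.2.1⟩ ⟨_, x.2.2⟩).symm)
  refine (RPT.zsub a4.fst.zcast a4.snd.zcast).of_eq fun a => ?_
  rw [← hermS sigRepS _ (c a) _ (q a) _ (hc a) (Fintype.card_fin _).le, taq, taq,
    roots_C_mul _ (inv_ne_zero (leadingCoeff_ne_zero.2 (p0 a)))]

end Pool.Agent.Lib.MP_837412_lc
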