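import Pool.Agent.Lib.MP_837412_lc.RSt
import Pool.Agent.Lib.MP_837412_lc.UP
import Pool.Agent.Lib.MP_837412_lc.JTrace
import Pool.Agent.Lib.MP_837412_lc.JEv

/-!
The polynomial of events and the list of order types are computed in polynomial time.
-/

namespace Pool.Agent.Lib.MP_837412_lc

open Set Function Polynomial

namespace VTrace

variable {α : Type} [RE α]

lemma nnU {f : α → ℝ → ℂ} {n : α → ℕ} (hn : RPT n) (hb : RPB n)
    (hf : ∀ a, IsP Complex.ofReal (n a) (f a)) (h : RPT fun q : α × ℝ => f q.1 q.2) :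
    RPT fun a => nn (f a) := by
  have h1 : RPT fun a => pol (f a) := RPT.pol hn hb hf
    (h.comp' (f := fun x : α × Un => (x.1, (x.2.val : ℝ))) (by fun_prop))
  exact h1.rp.nz.mul h1.ip.nz

end VTrace

open VTrace

theorem evU (h : ChiU) : EvU := by
  intro α _ ι _ c d hd hb hP hc
  have z : RPT fun a : α => (a, (0 : ℝ)) := by fun_prop
  have k1 : RPT fun a => Fintype.card (ι a) := (h.card hc).1.comp' z
  have k2 : RPB fun a => Fintype.card (ι a) := (h.card hc).2.comp z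
  have h1 : RPT fun a => nn fun t => Qv (c a t) :=
    nnU (n := fun a => (Fintype.card (ι a) + Fintype.card (ι a) * Fintype.card (ι a)) * d a)
      (by fun_prop) (by fun_prop) (fun a => JTrace.qvP (hP a)) (h.qv hc)
  have h2 : RPT fun q : α × Un => nn fun t => (chi (Wc (c q.1 t))).coeff q.2.val := by
    have w : RPT fun q : α × ℝ => chi (Wc (c q.1 q.2)) := h.wc hc
    refine nnU (n := fun q : α × Un => Fintype.card (ι q.1) ^ 4 * d q.1)
      ((((k1.npow (.const 4) (.const 4)).nmul hd).comp' (.fst .id')))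
      (((k2.pow 4).mul hb).comp (.fst .id')) (fun q => JTrace.wcP (hP q.1) q.2.val) ?_
    exact (w.comp' (f := fun q : (α × Un) × ℝ => (q.1.1, q.2)) (by fun_prop)).coeff (by fun_prop)
  exact ((RPT.polyX.mul (RPT.polyX.sub' RPT.one)).mul h1).mul
    (RPT.prod_range (n := fun a => Fintype.card (ι a) ^ 4 + 1)
      (h := fun a j => nn fun t => (chi (Wc (c a t))).coeff j)
      ((k1.npow (.const 4) (.const 4)).nadd (.const 1)) ((k2.pow 4).add (.const 1)) h2)

theorem traceU (h1 : SignAtU) (h2 : AdjU) (h3 : TypU) (h4 : EvU) : TraceU := by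
  intro α _ ι _ c d hd hb hP hc
  have hp : RPT fun a => ev (c a) := h4 α ι c d hd hb hP hc
  have p0 : ∀ a, ev (c a) ≠ 0 := fun a => JEv.ev_ne _
  have hT : RPT fun q : α × ℝ => typ (c q.1 q.2) :=
    (h3 (α × ℝ) ℕ (fun q => ι q.1) (fun q => c q.1 q.2) (fun _ _ => 0) hc).1
  have hn : RPT fun a => nr (ev (c a)) := (h1 α _ _ (fun _ => 0) hp hp (.const 0) p0).1
  have hnb : RPB fun a => nr (ev (c a)) := (RPB.natDegree hp).mono fun a => nr_le _
  have hp' : RPT fun q : α × ℕ => ev (c q.1) := hp.comp' (.fst .id')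
  have s1 := (h1 (α × ℕ) _ (fun _ => X) (fun q => q.2) hp' .polyX (.snd .id') fun q => p0 q.1).2
  have s2 := (h1 (α × ℕ) _ (fun _ => X - 1) (fun q => q.2) hp' (RPT.polyX.sub' .one) (.snd .id')
    fun q => p0 q.1).2
  have a1 : ∀ j : α × ℕ → ℕ, RPT j → RPT fun q : α × ℕ => typ (c q.1 (rt (ev (c q.1)) (j q))) :=
    fun j hj => h2 (α × ℕ) Tl _ j _ hp' hj (fun q => p0 q.1)
      ((hT.comp' (f := fun x : {x : (α × ℕ) × ℝ // x.2 = rt (ev (c x.1.1)) (j x.1)} =>
        (x.1.1.1, x.1.2)) (by fun_prop)).of_eq fun x => by rw [← x.2])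
  have a2 : RPT fun q : α × ℕ => typ (c q.1 (mid (ev (c q.1)) q.2)) := by
    refine h2 (α × ℕ) Tl _ (fun q => q.2) _ hp' (.snd .id') (fun q => p0 q.1) ?_
    have hp2 := hp.comp' (f := fun x : {x : (α × ℕ) × ℝ // x.2 = rt (ev (c x.1.1)) x.1.2} =>
      x.1.1.1) (by fun_prop)
    refine h2 {x : (α × ℕ) × ℝ // x.2 = rt (ev (c x.1.1)) x.1.2} Tl (fun x => ev (c x.1.1.1))
      (fun x => x.1.1.2 + 1) _ hp2 (by fun_prop) (fun x => p0 _) ?_
    refine (hT.comp' (f := fun y : {y : {x : (α × ℕ) × ℝ // x.2 = rt (ev (c x.1.1)) x.1.2} × ℝ //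
      y.2 = rt (ev (c y.1.1.1.1)) (y.1.1.1.2 + 1)} => (y.1.1.1.1.1, (y.1.1.1.2 + y.1.2) / 2))
        (by fun_prop)).of_eq fun y => ?_
    rw [mid, ← y.2, ← y.1.1.2]
  unfold segs
  refine RPT.map (RPT.filter (RPT.range hn hnb) ?_)
    ((a1 _ (.snd .id')).pair (a2.pair (a1 (fun q => q.2 + 1) (by fun_prop))))
  refine RPT.decide_iff (((s1.decide_eq (i := fun _ => inferInstance) (.const (-1))).not).and
    (s2.decide_eq (i := fun _ => inferInstance) (.const (-1)))) fun q => ?_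
  simp [sign_eq_neg_one_iff]

end Pool.Agent.Lib.MP_837412_lc
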