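import Pool.Agent.Lib.MP_837412_lc.USt
import Pool.Agent.Lib.MP_837412_lc.JEv
import Pool.Agent.Lib.MP_837412_lc.JOrd

/-!
Order types as lists, and tracking along the events.
-/

namespace Pool.Agent.Lib.MP_837412_lc

open Pool.Agent.Shared.Mod2 Set Function Filter Topology Polynomial

namespace VTrk

variable {ι : Type} [Fintype ι]

lemma mem_typ {c : ι → ℂ} {x : ℕ × ℕ} :
    x ∈ typ c ↔ (x.1 < nr (gU c) ∧ x.2 < nr (gV c)) ∧ gp c x ∈ range c := by
  obtain ⟨a, b⟩ := x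
  simp only [typ, List.mem_filter, List.pair_mem_product, List.mem_range, decide_eq_true_eq]

lemma nodup_typ (c : ι → ℂ) : (typ c).Nodup :=
  (List.Nodup.product List.nodup_range List.nodup_range).filter _

lemma gp_re (c : ι → ℂ) (x : ℕ × ℕ) : (gp c x).re = rt (gU c) x.1 := JTyp.zz_re _ _ _ _

lemma gp_im (c : ι → ℂ) (x : ℕ × ℕ) : (gp c x).im = rt (gV c) x.2 := JTyp.zz_im _ _ _ _

lemma pts_re (t : Tl) (i : Fin t.length) : (pts t i).re = t[i].1 := by simp [pts]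

lemma pts_im (t : Tl) (i : Fin t.length) : (pts t i).im = t[i].2 := by simp [pts]

omit [Fintype ι] in
lemma sim_of_ty {a b : ι → ℂ} {t : Tl} (ha : Ty a t) (hb : Ty b t) : Sim a b := by
  obtain ⟨e, he⟩ := ha
  obtain ⟨e', he'⟩ := hb
  refine ⟨e.symm.trans e', ?_⟩
  have := (he.trans he'.symm).comp e.symm
  simpa [comp_assoc] using this

lemma filter_range {n j0 j1 : ℕ} (p : ℕ → Bool) (h01 : j0 ≤ j1) (h1 : j1 ≤ n)
    (hp : ∀ j < n, p j = true ↔ j0 ≤ j ∧ j < j1) :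
    (List.range n).filter p = List.range' j0 (j1 - j0) := by
  have e : List.range n =
      List.range' 0 j0 ++ (List.range' j0 (j1 - j0) ++ List.range' j1 (n - j1)) := by
    have e1 : List.range' j0 (j1 - j0) ++ List.range' j1 (n - j1) = List.range' j0 (n - j0) := by
      have := List.range'_append_1 (s := j0) (m := j1 - j0) (n := n - j1)
      rwa [show j0 + (j1 - j0) = j1 by omega, show j1 - j0 + (n - j1) = n - j0 by omega] at this
    have e2 := List.range'_append_1 (s := 0) (m := j0) (n := n - j0)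
    rw [zero_add, show j0 + (n - j0) = n by omega] at e2
    rw [e1, e2, List.range_eq_range']
  rw [e, List.filter_append, List.filter_append, List.filter_eq_nil_iff.2, List.filter_eq_self.2,
    List.filter_eq_nil_iff.2, List.nil_append, List.append_nil]
  · intro j hj
    rw [List.mem_range'_1] at hj
    rw [hp j (by omega)]
    omega
  · intro j hj
    rw [List.mem_range'_1] at hj
    rw [hp j (by omega)]
    omega
  · intro j hj
    rw [List.mem_range'_1] at hj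
    rw [hp j (by omega)]
    omega

/-- The three order types of one interval. -/
noncomputable def seg (c : ℝ → ι → ℂ) (j : ℕ) : Tl × Tl × Tl :=
  (typ (c (rt (ev c) j)), typ (c (mid (ev c) j)), typ (c (rt (ev c) (j + 1))))

/-- The events in the unit interval. -/
lemma events {d : ℕ} {c : ℝ → ι → ℂ} (hc : PP Complex.ofReal d c)
    (hQ : ∀ t ∈ Icc (0 : ℝ) 1, Qv (c t) ≠ 0) : ∃ j0 k, rt (ev c) j0 = 0 ∧ rt (ev c) (j0 + k) = 1 ∧
      segs c = (List.range' j0 k).map (seg c) ∧ ∀ i < k, 0 ≤ rt (ev c) (j0 + i) ∧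
        rt (ev c) (j0 + i) < rt (ev c) (j0 + i + 1) ∧ rt (ev c) (j0 + i + 1) ≤ 1 ∧
        ∀ s ∈ Ioo (rt (ev c) (j0 + i)) (rt (ev c) (j0 + i + 1)),
          ∀ t ∈ Ioo (rt (ev c) (j0 + i)) (rt (ev c) (j0 + i + 1)), Sim (c s) (c t) := by
  obtain ⟨p0, z0, z1, hr⟩ := rigS qvS dnS nearS ι d c hc
  obtain ⟨-, hS⟩ := hr ⟨0, hQ 0 (left_mem_Icc.2 zero_le_one)⟩
  obtain ⟨j0, l0, e0⟩ := exists_rt p0 z0
  obtain ⟨j1, l1, e1⟩ := exists_rt p0 z1
  have l01 : j0 ≤ j1 := (rt_le_iff l0 l1).1 (by rw [e0, e1]; exact zero_le_one)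
  refine ⟨j0, j1 - j0, e0, by rwa [Nat.add_sub_cancel' l01], ?_, fun i hi => ⟨?_, ?_, ?_, ?_⟩⟩
  · unfold segs
    rw [filter_range _ l01 l1.le]
    · rfl
    · intro j hj
      rw [decide_eq_true_eq, ← rt_le_iff l0 hj, ← rt_lt_iff hj l1, e0, e1]
  · exact e0 ▸ (rt_le_iff l0 (by omega)).2 (by omega)
  · exact (rt_lt_iff (by omega) (by omega)).2 (by omega)
  · exact e1 ▸ (rt_le_iff (by omega) l1).2 (by omega)
  · exact hS _ _ (JEv.no_root p0 (by omega))

lemma comb_mem {a b u : ℝ} (ha : a ∈ Icc (0 : ℝ) 1) (hb : b ∈ Icc (0 : ℝ) 1)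
    (hu : u ∈ Icc (0 : ℝ) 1) : a + u * (b - a) ∈ Icc (0 : ℝ) 1 := by
  have e1 := mul_nonneg hu.1 hb.1
  have e2 := mul_nonneg (sub_nonneg.2 hu.2) ha.1
  have e3 := mul_nonneg hu.1 (sub_nonneg.2 hb.2)
  have e4 := mul_nonneg (sub_nonneg.2 hu.2) (sub_nonneg.2 ha.2)
  constructor <;> nlinarith

omit [Fintype ι] in
lemma mot_comp {E : Type} [TopologicalSpace E] {N : ℝ} {m : ℕ} {G : ℝ → E → ℂ} {c : ℝ → ι → ℂ}
    (h : Mot N m (fun u : I => G u) fun u : I => c u) {a b : ℝ} (ha : a ∈ Icc (0 : ℝ) 1)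
    (hb : b ∈ Icc (0 : ℝ) 1) :
    Mot N m (fun u : I => G (a + u * (b - a))) fun u : I => c (a + u * (b - a)) := by
  let φ : I → I := fun u => ⟨a + u * (b - a), comb_mem ha hb u.2⟩
  have hφ : Continuous φ := Continuous.subtype_mk (by fun_prop) _
  exact ⟨fun u => h.1 (φ u), fun u δ hδ => (hφ.tendsto u).eventually (h.2 (φ u) δ hδ)⟩

lemma half (h1 : SegS) (h2 : TypM) {step : Tl × Tl × Bool × Ml × Ml → Ml × Ml} (hs : IsStep step)
    {E : Type} [TopologicalSpace E] {N : ℝ} {m : ℕ} {G : ℝ → E → ℂ} {c : ℝ → ι → ℂ}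
    (hQ : ∀ t ∈ Icc (0 : ℝ) 1, Qv (c t) ≠ 0) (h : Mot N m (fun u : I => G u) fun u : I => c u)
    {a b : ℝ} (ha : a ∈ Icc (0 : ℝ) 1) (hb : b ∈ Icc (0 : ℝ) 1) {S : Set ℝ}
    (hS : ∀ s ∈ S, ∀ t ∈ S, Sim (c s) (c t)) (hm : ∀ u, 0 < u → u ≤ 1 → a + u * (b - a) ∈ S)
    (w : Ml × Ml) :
    (St N m (G a) (c a) (typ (c a)) w →
      St N m (G b) (c b) (typ (c b)) (step (typ (c a), typ (c b), true, w))) ∧
    (St N m (G b) (c b) (typ (c b)) w →
      St N m (G a) (c a) (typ (c a)) (step (typ (c b), typ (c a), false, w))) := by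
  have ty : ∀ t ∈ Icc (0 : ℝ) 1, Ty (c t) (typ (c t)) := fun t ht =>
    let ⟨e, he, _⟩ := (h2 ι (c t)).2 ((qvS ι _).1 (hQ t ht)).1
    ⟨e, he⟩
  have pos : ∀ u : I, u ≠ 0 → (0 : ℝ) < u := fun u hu =>
    lt_of_le_of_ne u.2.1 fun e => hu (Subtype.ext e.symm)
  have := h1 step hs E ι N m _ _ (mot_comp h ha hb)
    (fun u u' hu hu' => hS _ (hm u (pos u hu) u.2.2) _ (hm u' (pos u' hu') u'.2.2))
    (typ (c a)) (typ (c b)) w
  simp only [Set.Icc.coe_zero, Set.Icc.coe_one, zero_mul, add_zero, one_mul,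
    add_sub_cancel] at this
  exact this (ty a ha) (ty b hb)

end VTrk

open VTrk

theorem typM : TypM := by
  intro ι _ c
  have hm : ∀ i : Fin (typ c).length, ((typ c)[i].1 < nr (gU c) ∧ (typ c)[i].2 < nr (gV c)) ∧
      gp c (typ c)[i] ∈ range c := fun i => mem_typ.1 (List.getElem_mem i.2)
  choose f hf using fun i => (hm i).2
  have inj : Injective f := fun i j e => by
    have h : gp c (typ c)[i] = gp c (typ c)[j] := (hf i).symm.trans (e ▸ hf j)
    have h1 := congrArg Complex.re h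
    have h2 := congrArg Complex.im h
    rw [gp_re, gp_re, le_antisymm_iff, rt_le_iff (hm i).1.1 (hm j).1.1,
      rt_le_iff (hm j).1.1 (hm i).1.1, ← le_antisymm_iff] at h1
    rw [gp_im, gp_im, le_antisymm_iff, rt_le_iff (hm i).1.2 (hm j).1.2,
      rt_le_iff (hm j).1.2 (hm i).1.2, ← le_antisymm_iff] at h2
    exact Fin.ext ((nodup_typ c).getElem_inj_iff.1 (Prod.ext h1 h2))
  refine ⟨by simpa using Fintype.card_le_of_injective f inj, fun hc => ?_⟩
  have sur : Surjective f := fun a => by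
    obtain ⟨j, hj, ej⟩ := exists_rt (p := gU c) (JTyp.R_ne _ _ _) (JTyp.R_re c a)
    obtain ⟨l, hl, el⟩ := exists_rt (p := gV c) (JTyp.R_ne _ _ _) (JTyp.R_im c a)
    have ez : gp c (j, l) = c a := Complex.ext (by rw [gp_re, ej]) (by rw [gp_im, el])
    obtain ⟨i, hi, e⟩ := List.getElem_of_mem (mem_typ.2 ⟨⟨hj, hl⟩, a, ez.symm⟩)
    exact ⟨⟨i, hi⟩, hc ((hf ⟨i, hi⟩).trans (by rw [← ez, ← e]; rfl))⟩
  refine ⟨Equiv.ofBijective f ⟨inj, sur⟩, fun i j => ?_, hf⟩
  change ((c (f i)).re ≤ (c (f j)).re ↔ _) ∧ ((c (f i)).im ≤ (c (f j)).im ↔ _)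
  rw [hf, hf, gp_re, gp_re, gp_im, gp_im, pts_re, pts_re, pts_im, pts_im, Nat.cast_le, Nat.cast_le]
  exact ⟨rt_le_iff (hm i).1.1 (hm j).1.1, rt_le_iff (hm i).1.2 (hm j).1.2⟩

theorem trkS (h1 : SegS) (h2 : TypM) : TrkS := by
  intro step hs E ι _ _ N m d G c hc hQ hM
  obtain ⟨j0, k, e0, e1, es, hk⟩ := events hc hQ
  have hh : ∀ i < k, ∀ a, a = rt (ev c) (j0 + i) ∨ a = rt (ev c) (j0 + i + 1) → ∀ w, _ :=
    fun i hi a ha w => by
      obtain ⟨p1, p2, p3, p4⟩ := hk i hi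
      refine half h1 h2 hs hQ hM (a := a) (b := mid (ev c) (j0 + i)) ?_ ?_ p4 ?_ w
      · rcases ha with rfl | rfl <;> constructor <;> linarith
      · unfold mid
        constructor <;> linarith
      · intro u u0 u1
        have q1 := mul_pos u0 (sub_pos.2 p2)
        have q2 := mul_nonneg (sub_nonneg.2 u1) (sub_pos.2 p2).le
        unfold mid
        rcases ha with rfl | rfl <;> constructor <;> nlinarith
  have key : ∀ i ≤ k, ∀ w,
      (St N m (G 0) (c 0) (typ (c 0)) w → St N m (G (rt (ev c) (j0 + i))) (c (rt (ev c) (j0 + i)))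
        (typ (c (rt (ev c) (j0 + i)))) (fwd step ((List.range' j0 i).map (seg c)) w)) ∧
      (St N m (G (rt (ev c) (j0 + i))) (c (rt (ev c) (j0 + i))) (typ (c (rt (ev c) (j0 + i)))) w →
        St N m (G 0) (c 0) (typ (c 0)) (bwd step ((List.range' j0 i).map (seg c)) w)) := by
    intro i
    induction i with
    | zero =>
      intro _ w
      rw [add_zero, e0]
      exact ⟨id, id⟩
    | succ i ih =>
      intro hi w
      rw [List.range'_concat, one_mul, List.map_append, fwd, bwd, List.foldl_append,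
        List.foldr_append]
      constructor
      · intro h
        exact (hh i hi _ (Or.inr rfl) _).2 ((hh i hi _ (Or.inl rfl) _).1 ((ih (Nat.le_of_succ_le hi) w).1 h))
      · intro h
        exact (ih (Nat.le_of_succ_le hi) _).2 ((hh i hi _ (Or.inl rfl) _).2 ((hh i hi _ (Or.inr rfl) _).1 h))
  intro w
  have := key k le_rfl w
  rwa [e1, ← es] at this

theorem segEq (h : TypM) : SegEq := by
  intro ι _ d c c' hc hc' hQ hQ' hs R hR h0
  obtain ⟨j0, k, e0, e1, es, hk⟩ := events hc hQ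
  obtain ⟨j0', k', e0', e1', es', hk'⟩ := events hc' hQ'
  rw [es, es'] at hs
  obtain rfl : k = k' := by simpa using congrArg List.length hs
  have hseg : ∀ i < k, seg c (j0 + i) = seg c' (j0' + i) := fun i hi => by
    have := congrArg (·[i]?) hs
    simpa [hi] using this
  have ty : ∀ {c : ℝ → ι → ℂ}, (∀ t ∈ Icc (0 : ℝ) 1, Qv (c t) ≠ 0) →
      ∀ t ∈ Icc (0 : ℝ) 1, Ty (c t) (typ (c t)) := fun {c} hQ t ht =>
    let ⟨e, he, _⟩ := (h ι (c t)).2 ((qvS ι _).1 (hQ t ht)).1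
    ⟨e, he⟩
  have sm : ∀ s ∈ Icc (0 : ℝ) 1, ∀ s' ∈ Icc (0 : ℝ) 1, typ (c s) = typ (c' s') →
      Sim (c s) (c' s') := fun s hs s' hs' e => sim_of_ty (ty hQ s hs) (e ▸ ty hQ' s' hs')
  have key : ∀ i ≤ k, R (rt (ev c) (j0 + i)) (rt (ev c') (j0' + i)) := by
    intro i
    induction i with
    | zero =>
      intro _
      rwa [add_zero, add_zero, e0, e0']
    | succ i ih =>
      intro hi
      obtain ⟨p1, p2, p3, p4⟩ := hk i hi
      obtain ⟨q1, q2, q3, q4⟩ := hk' i hi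
      obtain ⟨s1, s2, s3⟩ : typ (c (rt (ev c) (j0 + i))) = typ (c' (rt (ev c') (j0' + i))) ∧
          typ (c (mid (ev c) (j0 + i))) = typ (c' (mid (ev c') (j0' + i))) ∧
          typ (c (rt (ev c) (j0 + i + 1))) = typ (c' (rt (ev c') (j0' + i + 1))) := by
        simpa only [seg, Prod.mk.injEq] using hseg i hi
      have a1 : rt (ev c) (j0 + i) ∈ Icc (0 : ℝ) 1 := ⟨p1, by linarith⟩
      have a2 : rt (ev c) (j0 + i + 1) ∈ Icc (0 : ℝ) 1 := ⟨by linarith, p3⟩
      have b1 : rt (ev c') (j0' + i) ∈ Icc (0 : ℝ) 1 := ⟨q1, by linarith⟩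
      have b2 : rt (ev c') (j0' + i + 1) ∈ Icc (0 : ℝ) 1 := ⟨by linarith, q3⟩
      refine hR _ a1 _ a2 _ b1 _ b2 (fun u hu => ?_) (ih (Nat.le_of_succ_le hi))
      rcases eq_or_lt_of_le hu.1 with rfl | u0
      · rw [zero_mul, zero_mul, add_zero, add_zero]
        exact sm _ a1 _ b1 s1
      rcases eq_or_lt_of_le hu.2 with rfl | u1
      · rw [one_mul, one_mul, add_sub_cancel, add_sub_cancel]
        exact sm _ a2 _ b2 s3
      have k1 : mid (ev c) (j0 + i) ∈ Ioo (rt (ev c) (j0 + i)) (rt (ev c) (j0 + i + 1)) := by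
        unfold mid
        constructor <;> linarith
      have k2 : mid (ev c') (j0' + i) ∈ Ioo (rt (ev c') (j0' + i)) (rt (ev c') (j0' + i + 1)) := by
        unfold mid
        constructor <;> linarith
      exact (p4 _ (JEv.mem_Ioo p2 u0 u1) _ k1).trans
        ((sm _ ⟨by linarith [k1.1], by linarith [k1.2]⟩ _
          ⟨by linarith [k2.1], by linarith [k2.2]⟩ s2).trans (q4 _ k2 _ (JEv.mem_Ioo q2 u0 u1)))
  have := key k le_rfl
  rwa [e1, e1'] at this

end Pool.Agent.Lib.MP_837412_lc
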