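import Pool.Agent.Lib.MP_837412_lc.USt

/-!
Products of relative cycles with relative cycles of dimension one.
-/

namespace Pool.Agent.Lib.MP_837412_lc

open Pool.Agent.Shared.Mod2 Set Function Filter Topology Polynomial

namespace VTs

variable {E Z : Type} [TopologicalSpace E] [TopologicalSpace Z]

/-- The simplex with one vertex. -/
def pt (z : Z) : Sx Z := ⟨1, ContinuousMap.const _ z⟩

lemma eq_pt (p : C(Sp 1, Z)) (t : Sp 1) : (⟨1, p⟩ : Sx Z) = pt (p t) :=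
  congrArg (Sigma.mk 1) (ContinuousMap.ext fun s => congrArg p (Subsingleton.elim s t))

lemma smap_one {k : ℕ} (γ : C(Sp k, Z)) (a : Sp k) : smap γ (re [a]) = pt (γ a) :=
  (eq_pt (γ.comp (aff [a].get)) (stdSimplex.vertex 0)).trans
    (congrArg (fun s => pt (γ s)) (aff_vertex [a].get 0))

lemma sd_two (γ : C(Sp 2, Z)) : sd (sg (⟨2, γ⟩ : Sx Z)) =
    sg (pt (γ (stdSimplex.vertex 0))) + sg (pt (γ (stdSimplex.vertex 1))) := by
  have e : Shared.Mod2.ev 2 = [stdSimplex.vertex 0, stdSimplex.vertex 1] := by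
    simp [Shared.Mod2.ev, List.ofFn_succ]
  rw [sd, op_sg]
  simp only [e, bdl, map_add, map_zero, add_zero, cone_sg, mp_sg, cm_sg, smap_one]
  exact add_comm _ _

/-- The edge from the first to the second vertex. -/
noncomputable def seg : C(I, Sp 2) :=
  ⟨fun t => ⟨![1 - t, t], fun i => by
      fin_cases i
      · exact sub_nonneg.2 t.2.2
      · exact t.2.1, by simp⟩, by
    refine Continuous.subtype_mk (continuous_pi fun i => ?_) _
    fin_cases i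
    · exact continuous_const.sub continuous_subtype_val
    · exact continuous_subtype_val⟩

lemma seg_zero : seg 0 = stdSimplex.vertex 0 :=
  Subtype.ext (funext fun i => by fin_cases i <;> simp [seg])

lemma seg_one : seg 1 = stdSimplex.vertex 1 :=
  Subtype.ext (funext fun i => by fin_cases i <;> simp [seg])

/-- The slice over a point. -/
def sl (z : Z) : C(E, E × Z) := ⟨fun y => (y, z), by fun_prop⟩

/-- The homotopy along an edge. -/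
noncomputable def hm (γ : C(Sp 2, Z)) : C(I × E, E × Z) :=
  ⟨fun x => (x.2, γ (seg x.1)), by fun_prop⟩

/-- The product with a simplex of dimension at most one. -/
noncomputable def xs : Sx Z → Ch (Sx E) →ₗ[F] Ch (Sx (E × Z))
  | ⟨1, p⟩ => cm (sl (p (stdSimplex.vertex 0)))
  | ⟨2, γ⟩ => prism (hm γ)
  | _ => 0

/-- The product with a chain. -/
noncomputable def X : Ch (Sx Z) →ₗ[F] Ch (Sx E) →ₗ[F] Ch (Sx (E × Z)) := lin xs

lemma X_pt (z : Z) (x : Ch (Sx E)) : X (sg (pt z)) x = cm (sl z) x := by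
  rw [X, lin_sg]; rfl

lemma X_two (γ : C(Sp 2, Z)) (x : Ch (Sx E)) : X (sg ⟨2, γ⟩) x = prism (hm γ) x := by
  rw [X, lin_sg]; rfl

variable {A : Set E} {B : Set Z} {k : ℕ} {c : Ch (Sx Z)} {x : Ch (Sx E)}

lemma X_mem1 (hc : c ∈ Cs B 1) (hx : x ∈ Cs A k) : X c x ∈ Cs (A ×ˢ B) k := by
  refine map_mem (L := X.flip x) ?_ hc
  rintro ⟨_, p⟩ ⟨rfl, h⟩
  rw [LinearMap.flip_apply, eq_pt p (stdSimplex.vertex 0), X_pt]
  exact cm_mem (fun y hy => mk_mem_prod hy (h _)) hx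

lemma X_mem2 (hc : c ∈ Cs B 2) (hx : x ∈ Cs A k) : X c x ∈ Cs (A ×ˢ B) (k + 1) := by
  refine map_mem (L := X.flip x) ?_ hc
  rintro ⟨_, p⟩ ⟨rfl, h⟩
  rw [LinearMap.flip_apply, X_two]
  exact prism_mem (fun t y hy => mk_mem_prod hy (h _)) hx

lemma sd_X1 (hc : c ∈ Cs B 1) (x : Ch (Sx E)) : sd (X c x) = X c (sd x) := by
  refine map_eq (L := sd ∘ₗ X.flip x) (L' := X.flip (sd x)) ?_ hc
  rintro ⟨_, p⟩ ⟨rfl, h⟩
  simp only [LinearMap.comp_apply, LinearMap.flip_apply]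
  rw [eq_pt p (stdSimplex.vertex 0), X_pt, X_pt, cm_sd]

lemma sd_X2 (hc : c ∈ Cs B 2) (x : Ch (Sx E)) : sd (X c x) = X c (sd x) + X (sd c) x := by
  refine map_eq (L := sd ∘ₗ X.flip x) (L' := X.flip (sd x) + X.flip x ∘ₗ sd) ?_ hc
  rintro ⟨_, γ⟩ ⟨rfl, h⟩
  simp only [LinearMap.comp_apply, LinearMap.flip_apply, LinearMap.add_apply]
  rw [sd_two, map_add, LinearMap.add_apply, X_pt, X_pt, X_two, X_two]
  exact prism_eq (fun y => by simp [hm, sl, seg_zero]) (fun y => by simp [hm, sl, seg_one]) x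

/-- The weight of a simplex. -/
noncomputable def wt (φ : Z → F) : Sx (E × Z) → F
  | ⟨0, _⟩ => 0
  | ⟨_ + 1, σ⟩ => φ (σ (stdSimplex.vertex 0)).2

/-- The weighted projection. -/
noncomputable def pr (φ : Z → F) : Ch (Sx (E × Z)) →ₗ[F] Ch (Sx E) :=
  lin fun σ => wt φ σ • sg (smap ContinuousMap.fst σ)

lemma pr_mem (φ : Z → F) {y : Ch (Sx (E × Z))} (hy : y ∈ Cs (A ×ˢ B) k) : pr φ y ∈ Cs A k := by
  refine lin_mem ?_ hy
  exact fun σ hσ => Submodule.smul_mem _ _ (sg_mem ⟨hσ.1, fun t => (hσ.2 t).1⟩)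

lemma pr_sd {φ : Z → F} (h : ∀ k (σ : C(Sp k, Z)), (∀ t, σ t ∈ B) → ∀ t t', φ (σ t) = φ (σ t'))
    {y : Ch (Sx (E × Z))} (hy : y ∈ Cs (A ×ˢ B) (k + 2)) : pr φ (sd y) = sd (pr φ y) := by
  refine map_eq (L := pr φ ∘ₗ sd) (L' := sd ∘ₗ pr φ) ?_ hy
  rintro ⟨_, σ⟩ ⟨rfl, hσ⟩
  have e : ∀ u ∈ Cs (univ : Set (Sp (k + 2))) (k + 1), pr φ (cm σ u) =
      φ (σ (stdSimplex.vertex 0)).2 • cm ContinuousMap.fst (cm σ u) := fun u hu => by
    refine map_eq (L := pr φ ∘ₗ cm σ)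
      (L' := φ (σ (stdSimplex.vertex 0)).2 • (cm ContinuousMap.fst ∘ₗ cm σ)) ?_ hu
    rintro ⟨_, τ⟩ ⟨rfl, -⟩
    simp only [LinearMap.comp_apply, LinearMap.smul_apply, cm_sg, pr, lin_sg]
    congr 1
    exact h _ (ContinuousMap.snd.comp σ) (fun t => (hσ t).2) _ _
  simp only [LinearMap.comp_apply]
  rw [pr, lin_sg, map_smul, ← cm_sg, ← cm_sd, ← pr, sd, op_sg,
    e _ (re_mem (bdl_gr (ev_length _)))]
  rfl

lemma pr_X (l : Ch (Sx Z) →ₗ[F] F) (hc : c ∈ Cs B 1) (hx : x ∈ Cs A (k + 1)) :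
    pr (fun z => l (sg (pt z))) (X c x) = l c • x := by
  refine map_eq (L := pr (fun z => l (sg (pt z))) ∘ₗ X.flip x)
    (L' := LinearMap.toSpanSingleton F _ x ∘ₗ l) ?_ hc
  rintro ⟨_, p⟩ ⟨rfl, -⟩
  simp only [LinearMap.comp_apply, LinearMap.flip_apply, LinearMap.toSpanSingleton_apply]
  rw [eq_pt p (stdSimplex.vertex 0), X_pt]
  refine map_eq (L := pr (fun z => l (sg (pt z))) ∘ₗ cm (sl _))
    (L' := l (sg (pt (p (stdSimplex.vertex 0)))) • LinearMap.id) ?_ hx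
  rintro ⟨_, σ⟩ ⟨rfl, -⟩
  simp only [LinearMap.comp_apply, LinearMap.smul_apply, cm_sg, pr, lin_sg, LinearMap.id_apply]
  rfl

lemma const_of {l : Ch (Sx Z) →ₗ[F] F} (h : ∀ x ∈ Cs B 2, l (sd x) = 0) (k : ℕ) (σ : C(Sp k, Z))
    (hσ : ∀ t, σ t ∈ B) (t t' : Sp k) : l (sg (pt (σ t))) = l (sg (pt (σ t'))) := by
  have := h (sg ⟨2, σ.comp (aff ![t, t'])⟩) (sg_mem ⟨rfl, fun _ => hσ _⟩)
  rw [sd_two, map_add] at this
  simpa [aff_vertex] using eq_of_add_eq_zero this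

variable {ι κ : Type} [Fintype ι] [Fintype κ]

lemma bd_of [ContractibleSpace Z] (hc : c ∈ Cs univ 2) (h : sd c ∈ (Cs B 2).map sd) :
    c ∈ Bs univ B 2 := by
  obtain ⟨w, w1, w2⟩ := h
  obtain ⟨y, y1, y2⟩ := z0_univ 2 (c + w) (add_mem hc (Cs_mono (subset_univ _) _ w1))
    (by rw [map_add, w2, aa])
  exact mem_Br.2 ⟨y, y1, by rwa [y2, ← add_assoc, aa, zero_add]⟩

lemma ind_X [ContractibleSpace Z] (hA : IsOpen A) (hB : IsOpen B) {u : ι → Ch (Sx E)}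
    {u' : κ → Ch (Sx Z)} (hu : ∀ i, u i ∈ Zs univ A (k + 1)) (hu' : ∀ j, u' j ∈ Zs univ B 2)
    (i1 : Ind (Bs univ A (k + 1)) u) (i2 : Ind (Bs univ B 2) u') :
    Ind (Bs univ (univ ×ˢ B ∪ A ×ˢ univ) (k + 2)) fun a : ι × κ => X (u' a.2) (u a.1) := by
  intro a ha
  let γ : ι → Ch (Sx Z) := fun i => ∑ j, a (i, j) • u' j
  have g1 : ∀ i, γ i ∈ Zs univ B 2 := fun i =>
    Submodule.sum_mem _ fun j _ => Submodule.smul_mem _ _ (hu' j)
  have e : ∑ b : ι × κ, a b • X (u' b.2) (u b.1) = ∑ i, X (γ i) (u i) := by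
    simp only [γ, map_sum, map_smul, LinearMap.sum_apply, LinearMap.smul_apply,
      Fintype.sum_prod_type]
  rw [e] at ha
  obtain ⟨b, -, b2⟩ := mem_Br.1 ha
  have z1 : ∑ i, X (sd (γ i)) (u i) ∈ Zs (univ ×ˢ B) (univ ×ˢ B ∩ A ×ˢ univ) (k + 1) :=
    Submodule.sum_mem _ fun i _ => mem_Zr'.2 ⟨X_mem1 (g1 i).2 (hu i).1, by
      rw [sd_X1 (g1 i).2]
      refine Cs_mono ?_ _ (X_mem1 (g1 i).2 (mem_Zr'.1 (hu i)).2)
      exact fun q hq => ⟨⟨trivial, hq.2⟩, hq.1, trivial⟩⟩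
  have z2 : ∑ i, X (sd (γ i)) (u i) ∈ Bs (univ ×ˢ B ∪ A ×ˢ univ) (A ×ˢ univ) (k + 1) := by
    refine mem_Br.2 ⟨_, b2, ?_⟩
    rw [map_add, sd_sd, add_zero, map_sum, ← Finset.sum_add_distrib]
    refine Submodule.sum_mem _ fun i _ => ?_
    rw [sd_X2 (g1 i).1, add_left_comm, aa, add_zero]
    exact X_mem2 (g1 i).1 (mem_Zr'.1 (hu i)).2
  obtain ⟨w, w1, w2⟩ := mem_Br.1
    (exc_into (isOpen_univ.prod hB) (hA.prod isOpen_univ) (k + 1) ⟨z1, z2⟩)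
  funext ⟨i, j⟩
  refine congrFun (i2 (fun j => a (i, j)) (bd_of (g1 i).1 ?_)) j
  by_contra hn
  obtain ⟨l, l1, l2⟩ := Submodule.exists_le_ker_of_notMem hn
  refine l1 (congrFun (i1 (fun i => l (sd (γ i))) (mem_Br.2
    ⟨pr (fun z => l (sg (pt z))) w, pr_mem _ w1, ?_⟩)) i)
  have := pr_mem (fun z => l (sg (pt z))) (Cs_mono inter_subset_right _ w2)
  rw [map_add, pr_sd (const_of fun x hx => l2 ⟨x, hx, rfl⟩) w1, map_sum] at this
  simpa only [pr_X l (g1 _).2 (hu _).1] using this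

lemma nonempty_of [ContractibleSpace Z] {u' : κ → Ch (Sx Z)} (hu' : ∀ j, u' j ∈ Zs univ B 2)
    (i2 : Ind (Bs univ B 2) u') (j : κ) : B.Nonempty := by
  classical
  by_contra hn
  obtain rfl := not_nonempty_iff_eq_empty.1 hn
  have := congrFun (i2 (Pi.single j 1) (by
    simpa [Pi.single_apply] using bd_of (B := ∅) (hu' j).1
      (by rw [Cs_empty (hu' j).2]; exact zero_mem _))) j
  simp at this

lemma X_bs1 (hc : c ∈ Zs univ B 2) (hx : x ∈ Bs univ A k) :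
    X c x ∈ Bs univ (univ ×ˢ B ∪ A ×ˢ univ) (k + 1) := by
  obtain ⟨b, b1, b2⟩ := mem_Br.1 hx
  refine mem_Br.2 ⟨X c b, Cs_mono (subset_univ _) _ (X_mem2 hc.1 b1), ?_⟩
  rw [sd_X2 hc.1, ← add_assoc, ← map_add]
  exact add_mem (Cs_mono subset_union_right _ (X_mem2 hc.1 b2))
    (Cs_mono subset_union_left _ (X_mem1 hc.2 b1))

lemma X_bs2 {Z : Type} [NormedAddCommGroup Z] [NormedSpace ℝ Z] {B : Set Z} {c : Ch (Sx Z)}
    (hB : B.Nonempty) (hc : c ∈ Bs univ B 2) (hx : x ∈ Zs univ A (k + 1)) :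
    X c x ∈ Bs univ (univ ×ˢ B ∪ A ×ˢ univ) (k + 2) := by
  obtain ⟨z, hz⟩ := hB
  obtain ⟨b, b1, b2⟩ := mem_Br.1 hc
  have h1 : X (sd b) x ∈ Zs univ (A ×ˢ univ) (k + 2) := by
    refine mem_Zr'.2 ⟨Cs_mono (subset_univ _) _ (X_mem2 (sd_mem b1) hx.1), ?_⟩
    rw [sd_X2 (sd_mem b1), sd_sd, map_zero, LinearMap.zero_apply, add_zero]
    exact X_mem2 (sd_mem b1) (mem_Zr'.1 hx).2
  refine mem_of_add (y := X (sd b) x) ?_ (wd3 (fun K _ _ => ?_) _ h1)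
  · rw [← LinearMap.add_apply, ← map_add]
    exact Cs_le_Bs _ _ _ (Cs_mono subset_union_left _ (X_mem2 b2 hx.1))
  · refine ⟨⟨fun q => (q.2.1, (1 - (q.1 : ℝ)) • q.2.2 + (q.1 : ℝ) • z), by fun_prop⟩, by simp,
      fun _ _ _ => trivial, fun _ _ _ h => Or.inr ⟨h.1, trivial⟩, fun _ _ => Or.inl ⟨trivial, ?_⟩⟩
    simpa using hz

lemma X_zs {A' : Set E} {B' : Set Z} {S S' : Set (E × Z)} (hc : c ∈ Zs B B' 2)
    (hx : x ∈ Zs A A' (k + 1)) (h : A ×ˢ B ⊆ S) (h1 : A' ×ˢ B ⊆ S') (h2 : A ×ˢ B' ⊆ S') :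
    X c x ∈ Zs S S' (k + 2) := by
  refine mem_Zr'.2 ⟨Cs_mono h _ (X_mem2 hc.1 hx.1), ?_⟩
  rw [sd_X2 hc.1]
  exact add_mem (Cs_mono h1 _ (X_mem2 hc.1 (mem_Zr'.1 hx).2)) (Cs_mono h2 _ (X_mem1 hc.2 hx.1))

lemma bs_of {Y : Type} [TopologicalSpace Y] {S S' : Set Y} (h : S ⊆ S') {U : ι → Ch (Sx Y)}
    (hU : ∀ i, U i ∈ Zs univ S k) (hi : Ind (Bs univ S' k) U) (hd : hs univ S k ≤ Fintype.card ι)
    {r : Ch (Sx Y)} (h1 : r ∈ Zs univ S k) (h2 : r ∈ Bs univ S' k) : r ∈ Bs univ S k := by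
  have hm := Bs_mono (Subset.rfl (s := univ)) h k
  have e := Ind.rk_span (T := Bs univ S k) (fun a ha => hi a (hm ha)) univ
  rw [image_univ, encard_univ, ENat.card_eq_coe_fintype_card] at e
  obtain ⟨y, y1, y2⟩ := mem_sup2.1 (le_of_rk_le (S' := Zs univ S k)
    (le_sup_of_le_left (Submodule.span_le.2 (range_subset_iff.2 hU))) (hd.trans e.ge)
    (by rw [e]; exact ENat.natCast_ne_top _) h1)
  obtain ⟨a, rfl⟩ := (Submodule.mem_span_range_iff_exists_fun F).1 y1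
  have := hi a (mem_of_add (by rw [add_comm]; exact hm y2) h2)
  simpa [this] using y2

end VTs

open VTs in
theorem tsS : TsS := by
  intro E Z ι κ _ _ _ _ _ G g c v m L L' hG hg ⟨M₁, h1⟩ ⟨M₂, h2⟩ ⟨M₃, h3⟩
  refine ⟨max (max (2 * M₁) (2 * M₂)) (max M₃ 0), fun M' M δ hM hM' hδ => ?_⟩
  simp only [max_le_iff] at hM
  obtain ⟨⟨m1, m2⟩, m3, m4⟩ := hM
  obtain ⟨K, hK⟩ := Finite.exists_le (Sum.elim c (Sum.elim v fun _ : Unit => 0))
  have k1 : ∀ i, c i ≤ K := fun i => hK (Sum.inl i)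
  have k2 : ∀ j, v j ≤ K := fun j => hK (Sum.inr (Sum.inl j))
  have k3 : 0 ≤ K := hK (Sum.inr (Sum.inr ()))
  obtain ⟨u, d, a1, a2, a3⟩ := h1 (M' / 2) (M + K + δ) (δ / 2) (by linarith) (by linarith)
    (half_pos hδ)
  obtain ⟨u', d', b1, b2, b3⟩ := h2 (M' / 2) (M + K + δ) (δ / 2) (by linarith) (by linarith)
    (half_pos hδ)
  have hm : ∀ a b : ℝ, a ≤ b → Hl b ⊆ Hl a := fun a b h z hz => hz.trans_le (neg_le_neg h)
  have hl : Hl (M + K + δ) ⊆ Hl (M' / 2) := hm _ _ (by linarith)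
  have ol : IsOpen (Hl (M' / 2)) := isOpen_lt Complex.continuous_re continuous_const
  have c1 : ∀ i, u i ∈ Zs univ (G ⁻¹' Hl (M' / 2)) (m + 1) := fun i =>
    Zs_mono (subset_univ _) (preimage_mono (inter_subset_right.trans hl)) _ (a1 i).1
  have c2 : ∀ j, u' j ∈ Zs univ (g ⁻¹' Hl (M' / 2)) 2 := fun j =>
    Zs_mono (subset_univ _) (preimage_mono (inter_subset_right.trans hl)) _ (b1 j).1
  have c3 : ∀ j, d' j ∈ Zs univ (g ⁻¹' Hl (M' / 2)) 2 := fun j =>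
    Zs_mono (subset_univ _) (preimage_mono (inter_subset_right.trans hl)) _ (b1 j).2
  have hi := ind_X (ol.preimage hG) (ol.preimage hg) c1 c2 a2 b2
  have sub : (fun q : E × Z => G q.1 + g q.2) ⁻¹' Hl M' ⊆
      univ ×ˢ (g ⁻¹' Hl (M' / 2)) ∪ (G ⁻¹' Hl (M' / 2)) ×ˢ univ := fun q hq => by
    simp only [Hl, mem_preimage, mem_ofPred_eq, Complex.add_re, mem_union, mem_prod, mem_univ,
      true_and, and_true] at hq ⊢
    by_contra! hn
    linarith [hn.1, hn.2]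
  have z : ∀ a : ι × κ, X (u' a.2) (u a.1) ∈ Zs ((fun q : E × Z => G q.1 + g q.2) ⁻¹'
      Wp (c a.1 + v a.2) δ) ((fun q : E × Z => G q.1 + g q.2) ⁻¹'
        (Wp (c a.1 + v a.2) δ ∩ Hl M)) (m + 2) ∧
      X (d' a.2) (d a.1) ∈ Zs ((fun q : E × Z => G q.1 + g q.2) ⁻¹'
      Wm (c a.1 + v a.2) δ) ((fun q : E × Z => G q.1 + g q.2) ⁻¹'
        (Wm (c a.1 + v a.2) δ ∩ Hl M)) (m + 2) := fun a => by
    have := k1 a.1
    have := k2 a.2
    refine ⟨X_zs (b1 _).1 (a1 _).1 ?_ ?_ ?_, X_zs (b1 _).2 (a1 _).2 ?_ ?_ ?_⟩ <;>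
    · intro q hq
      simp only [Wp, Wm, Hl, mem_preimage, mem_ofPred_eq, Complex.add_re, Complex.add_im, mem_prod,
        mem_inter_iff] at hq ⊢
      grind
  have hl' : Hl M ⊆ Hl M' := hm _ _ hM'
  have z1 : ∀ a : ι × κ, X (u' a.2) (u a.1) ∈
      Zs univ ((fun q : E × Z => G q.1 + g q.2) ⁻¹' Hl M') (m + 2) := fun a =>
    Zs_mono (subset_univ _) (preimage_mono (inter_subset_right.trans hl')) _ (z a).1
  refine ⟨fun a => X (u' a.2) (u a.1), fun a => X (d' a.2) (d a.1), z,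
    fun a ha => hi a (Bs_mono Subset.rfl sub _ ha), fun a => bs_of sub z1 hi (h3 M' m3)
      (add_mem (Zs_mono (subset_univ _) (preimage_mono (inter_subset_right.trans hl')) _ (z a).2)
        (Submodule.sum_mem _ fun b _ => Submodule.smul_mem _ _ (z1 b))) ?_⟩
  have e : ∑ b : ι × κ, (Matrix.of fun a b : ι × κ => L a.1 b.1 * L' a.2 b.2) a b •
      X (u' b.2) (u b.1) = X (∑ j, L' a.2 j • u' j) (∑ i, L a.1 i • u i) := by
    simp only [map_sum, map_smul, LinearMap.sum_apply, LinearMap.smul_apply, Fintype.sum_prod_type,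
      Matrix.of_apply, Finset.smul_sum, mul_smul]
  have := add_mem (X_bs1 (c3 a.2) (a3 a.1)) (X_bs2 (nonempty_of c2 b2 a.2) (b3 a.2)
    (Submodule.sum_mem _ fun i (_ : i ∈ Finset.univ) => Submodule.smul_mem _ (L a.1 i) (c1 i)))
  rw [e]
  rwa [map_add, map_add, LinearMap.add_apply, add_assoc (X (d' a.2) (d a.1)),
    ← add_assoc (X (d' a.2) (∑ i, L a.1 i • u i)), aa, zero_add] at this

end Pool.Agent.Lib.MP_837412_lc
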