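import Pool.Agent.Lib.MP_837412_lc.RSt
import Pool.Agent.Lib.MP_837412_lc.UP

/-!
The machine computes the order type of a family of complex numbers.
-/

namespace Pool.Agent.Lib.MP_837412_lc

open Set Function Polynomial

namespace VTyp

variable {α β γ : Type} [RE α] [RE β] [RE γ] {ι : α → Type} [∀ a, Fintype (ι a)]
  {c : ∀ a, ι a → ℂ}

lemma hR (h1 : ChiU) (hc : PC c) {x y : ℂ} (hx : RPT fun _ : α => x) (hy : RPT fun _ : α => y) :
    RPT fun a => JTyp.R x y (c a) :=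
  RPT.rp (h1.padd (h1.smul hx hc) (h1.smul hy (h1.conj hc)))

lemma hU (h1 : ChiU) (hc : PC c) : RPT fun a => gU (c a) := hR h1 hc (by fun_prop) (by fun_prop)

lemma hV (h1 : ChiU) (hc : PC c) : RPT fun a => gV (c a) := hR h1 hc (by fun_prop) (by fun_prop)

/-- A point of the grid is adjoined. -/
lemma grid [N487b59b3 β] [Disc β] (h1 : ChiU) (h3 : AdjU) (hc : PC c) {a : γ → α}
    {x : γ → ℕ × ℕ} (ha : RPT a) (hx : RPT x) {f : γ → β}
    (hf : RPT fun q : {q : γ × ℂ // q.2 = gp (c (a q.1)) (x q.1)} => f q.1.1) : RPT f := by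
  refine h3 γ β (fun g => gU (c (a g))) (fun g => (x g).1) f ((hU h1 hc).comp' ha) hx.fst
    (fun _ => JTyp.R_ne _ _ _) (h3 _ β (fun q => gV (c (a q.1.1))) (fun q => (x q.1.1).2) _
      ((hV h1 hc).comp' (by fun_prop)) (by fun_prop) (fun _ => JTyp.R_ne _ _ _) ?_)
  exact hf.comp' (RPT.mk (p := fun q : γ × ℂ => q.2 = gp (c (a q.1)) (x q.1))
    (f := fun q : {q : {q : γ × ℝ // q.2 = rt (gU (c (a q.1))) (x q.1).1} × ℝ //
      q.2 = rt (gV (c (a q.1.1.1))) (x q.1.1.1).2} =>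
        (q.1.1.1.1, (q.1.1.1.2 : ℂ) + (q.1.2 : ℂ) * Complex.I)) (by fun_prop)
    fun q => by rw [q.2, q.1.1.2]; rfl)

lemma typ_rpt (h1 : ChiU) (h2 : SignAtU) (h3 : AdjU) (hc : PC c) : RPT fun a => typ (c a) := by
  classical
  have u := hU h1 hc
  have v := hV h1 hc
  refine RPT.filter (RPT.product
    (RPT.range (h2 α _ _ _ u u (.const 0) fun _ => JTyp.R_ne _ _ _).1
      ((RPB.natDegree u).mono fun _ => nr_le _))
    (RPT.range (h2 α _ _ _ v v (.const 0) fun _ => JTyp.R_ne _ _ _).1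
      ((RPB.natDegree v).mono fun _ => nr_le _)))
    (grid h1 h3 hc (a := Prod.fst) (x := Prod.snd) (by fun_prop) (by fun_prop) ?_)
  refine RPT.decide_iff (f := fun q : {q : (α × ℕ × ℕ) × ℂ // q.2 = gp (c q.1.1) q.1.2} =>
    decide ((chi (c q.1.1.1)).eval q.1.2 = 0))
    (RPT.decide_eq' (RPT.eval (RPT.comp' (g := fun a => chi (c a)) hc (by fun_prop)) (by fun_prop))
      .zero) fun q => ?_
  rw [decide_eq_true_eq, eval_chi_eq_zero, q.2, mem_range]

end VTyp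

open VTyp in
theorem typU (h1 : ChiU) (h2 : SignAtU) (h3 : AdjU) : TypU := by
  intro α β _ _ _ _ _ ι _ c lab hc
  refine ⟨typ_rpt h1 h2 h3 hc, fun hl => RPT.map_sub (typ_rpt h1 h2 h3 hc)
    (grid h1 h3 hc (a := fun p => p.1.1) (x := fun p => p.1.2) (by fun_prop) (by fun_prop) ?_)⟩
  exact (hl.comp' (RPT.mk (p := fun q : α × ℂ => q.2 ∈ range (c q.1))
    (f := fun q : {q : {p : α × ℕ × ℕ // p.2 ∈ typ (c p.1)} × ℂ // q.2 = gp (c q.1.1.1) q.1.1.2} =>
      (q.1.1.1.1, q.1.2)) (by fun_prop) fun q => by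
        rw [q.2]
        simpa using (List.mem_filter.1 q.1.1.2).2)).of_eq fun q => congrArg (lab _) q.2

end Pool.Agent.Lib.MP_837412_lc
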