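import Pool.Agent.Lib.MP_837412_lc.WSt

/-!
Zero sets and substitution of integral functions, and a shear that makes a polynomial monic.
-/

namespace Pool.Agent.Lib.MP_837412_lc.K

open Set Function Filter Topology MvPolynomial

namespace WAlg

lemma cont_ev {σ : Type} {f : (σ → ℝ) → ℝ} (hf : Continuous f)
    (q : Polynomial (MvPolynomial σ ℝ)) : Continuous fun y => (q.map (eval y)).eval (f y) := by
  induction q using Polynomial.induction_on' with
  | add p q a b => simpa using a.fun_add b
  | monomial n a => simpa using (MvPolynomial.continuous_eval a).fun_mul (hf.fun_pow n)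

lemma digits_ne {k b : ℕ} (hb : 1 < b) {v w : Fin k →₀ ℕ} (hv : ∀ i, v i < b) (hw : ∀ i, w i < b)
    (h : ∑ i : Fin k, b ^ i.1 * v i = ∑ i : Fin k, b ^ i.1 * w i) : v = w := by
  refine Finsupp.ext <| congrFun <| List.ofFn_inj.mp ?_
  apply Nat.ofDigits_inj_of_len_eq hb (by simp) (by grind) (by grind)
  simpa only [Nat.ofDigits_eq_sum_mapIdx, List.mapIdx_eq_ofFn, List.get_ofFn, List.length_ofFn,
    Fin.val_cast, mul_comm, List.sum_ofFn] using! h

variable {k : ℕ}

/-- The images of the variables. -/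
noncomputable def gen (k b : ℕ) : Fin (k + 1) → Polynomial (MvPolynomial (Fin k) ℝ) :=
  Fin.cons Polynomial.X fun j => Polynomial.X ^ b ^ j.succ.1 + Polynomial.C (X j)

lemma gen_monic {b : ℕ} (hb : 1 < b) (i : Fin (k + 1)) :
    (gen k b i).Monic ∧ (gen k b i).natDegree = b ^ i.1 := by
  cases i using Fin.cases with
  | zero => simp [gen, Polynomial.monic_X]
  | succ j =>
    simp only [gen, Fin.cons_succ]
    exact ⟨Polynomial.monic_X_pow_add_C _ (by positivity), Polynomial.natDegree_X_pow_add_C⟩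

lemma prod_monic {b : ℕ} (hb : 1 < b) (v : Fin (k + 1) →₀ ℕ) :
    (∏ i, gen k b i ^ v i).Monic ∧
      (∏ i, gen k b i ^ v i).natDegree = ∑ i : Fin (k + 1), b ^ i.1 * v i := by
  refine ⟨Polynomial.monic_prod_of_monic _ _ fun i _ => (gen_monic hb i).1.pow _, ?_⟩
  rw [Polynomial.natDegree_prod_of_monic _ _ fun i _ => (gen_monic hb i).1.pow _]
  exact Finset.sum_congr rfl fun i _ => by
    rw [(gen_monic hb i).1.natDegree_pow, (gen_monic hb i).2, mul_comm]

/-- The shear. -/
noncomputable def shear (k b : ℕ) : (Fin (k + 1) → ℝ) ≃ₜ (Fin (k + 1) → ℝ) where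
  toFun z := Fin.cons (z 0) fun j => z 0 ^ b ^ j.succ.1 + z j.succ
  invFun z := Fin.cons (z 0) fun j => z j.succ - z 0 ^ b ^ j.succ.1
  left_inv z := by ext i; cases i using Fin.cases <;> simp
  right_inv z := by ext i; cases i using Fin.cases <;> simp
  continuous_toFun := continuous_pi fun i => by
    cases i using Fin.cases <;> simp only [Fin.cons_zero, Fin.cons_succ] <;> fun_prop
  continuous_invFun := continuous_pi fun i => by
    cases i using Fin.cases <;> simp only [Fin.cons_zero, Fin.cons_succ] <;> fun_prop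

lemma shear_apply (b : ℕ) (z : Fin (k + 1) → ℝ) :
    shear k b z = Fin.cons (z 0) fun j => z 0 ^ b ^ j.succ.1 + z j.succ := rfl

lemma ev_gen (b : ℕ) (s : ℝ) (x : Fin k → ℝ) (i : Fin (k + 1)) :
    ((gen k b i).map (eval x)).eval s = shear k b (Fin.cons s x) i := by
  cases i using Fin.cases <;> simp [gen, shear_apply]

end WAlg

open WAlg

theorem zloV : ZloV := by
  intro σ f hf hi
  obtain ⟨p, hp, hz⟩ := itg_iff.1 hi
  obtain ⟨q, e, hq⟩ := Polynomial.exists_eq_pow_rootMultiplicity_mul_and_not_dvd p hp.ne_zero 0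
  rw [Polynomial.C_0, sub_zero] at e hq
  refine ⟨q.coeff 0, fun h => hq (Polynomial.X_dvd_iff.2 h), fun x hx h0 => ?_⟩
  have a : (q.map (eval x)).eval (f x) ≠ 0 := by
    rwa [h0, ← Polynomial.coeff_zero_eq_eval_zero, Polynomial.coeff_map]
  filter_upwards [(cont_ev hf q).continuousAt.eventually_ne a] with y hy
  have b := hz y
  rw [e, Polynomial.map_mul, Polynomial.eval_mul, Polynomial.map_pow, Polynomial.map_X,
    Polynomial.eval_pow, Polynomial.eval_X] at b
  exact eq_zero_of_pow_eq_zero ((mul_eq_zero.1 b).resolve_right hy)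

theorem subV : SubV := by
  intro σ σ' g f hg hf
  obtain ⟨p, hp, hz⟩ := itg_iff.1 hf
  let _ := (evf σ).toAlgebra
  let ψ : MvPolynomial σ' ℝ →+* ((σ → ℝ) → ℝ) := RingHom.pi fun x => eval fun i => g i x
  have hψ : ∀ r, Itg fun x => eval (fun i => g i x) r := fun r => by
    induction r using MvPolynomial.induction_on with
    | C a => simpa using Itg.const a
    | add p q a b => simpa using a.add b
    | mul_X p n a => simpa using a.mul (hg n)
  let ψ' : MvPolynomial σ' ℝ →+* integralClosure (MvPolynomial σ ℝ) ((σ → ℝ) → ℝ) :=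
    ψ.codRestrict _ fun r => hψ r
  have h : IsIntegral (integralClosure (MvPolynomial σ ℝ) ((σ → ℝ) → ℝ))
      (fun x : σ → ℝ => f fun i => g i x) := by
    refine ⟨p.map ψ', hp.map _, ?_⟩
    rw [Polynomial.eval₂_map]
    funext x
    have := Polynomial.hom_eval₂ p ψ (Pi.evalRingHom (fun _ : σ → ℝ => ℝ) x)
      fun x : σ → ℝ => f fun i => g i x
    have e := hz fun i => g i x
    rw [Polynomial.eval_map] at e
    exact this.trans e
  exact isIntegral_trans (R := MvPolynomial σ ℝ) _ h

theorem noeV : NoeV := by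
  intro k Q hQ
  set b := 2 + Q.totalDegree with hb
  have b1 : 1 < b := by omega
  have lt : ∀ v ∈ Q.support, ∀ i, v i < b := fun v hv i =>
    ((monomial_le_degreeOf i hv).trans (degreeOf_le_totalDegree Q i)).trans_lt (by omega)
  obtain ⟨v, hv, hm⟩ := Finset.exists_max_image Q.support
    (fun v => ∑ i : Fin (k + 1), b ^ i.1 * v i) (support_nonempty.2 hQ)
  have a0 : coeff v Q ≠ 0 := mem_support_iff.1 hv
  refine ⟨shear k b, ∑ w ∈ Q.support,
    Polynomial.C (C ((coeff v Q)⁻¹ * coeff w Q)) * ∏ i, gen k b i ^ w i, ?_, fun i => ?_,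
    fun s x h => ?_⟩
  · refine Polynomial.monic_of_natDegree_le_of_coeff_eq_one (∑ i : Fin (k + 1), b ^ i.1 * v i)
      (Polynomial.natDegree_sum_le_of_forall_le _ _ fun w hw =>
        (Polynomial.natDegree_C_mul_le _ _).trans ((prod_monic b1 w).2.trans_le (hm w hw))) ?_
    rw [Polynomial.finsetSum_coeff, Finset.sum_eq_single_of_mem v hv fun w hw ne => ?_]
    · rw [Polynomial.coeff_C_mul, ← (prod_monic b1 v).2, (prod_monic b1 v).1.coeff_natDegree,
        inv_mul_cancel₀ a0, C_1, mul_one]
    · rw [Polynomial.coeff_C_mul, Polynomial.coeff_eq_zero_of_natDegree_lt, mul_zero]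
      rw [(prod_monic b1 w).2]
      exact lt_of_le_of_ne (hm w hw) fun e => ne (digits_ne b1 (lt w hw) (lt v hv) e)
  · cases i using Fin.cases with
    | zero => simpa [shear_apply] using Itg.poly (X (0 : Fin (k + 1)))
    | succ j =>
      have e := Itg.poly (σ := Fin (k + 1)) (X 0 ^ b ^ j.succ.1 + X j.succ)
      simp only [MvPolynomial.eval_add, MvPolynomial.eval_pow, eval_X] at e
      simpa only [shear_apply, Fin.cons_succ] using e
  · rw [eval_eq'] at h
    simp only [Polynomial.map_sum, Polynomial.eval_finsetSum, Polynomial.map_mul,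
      Polynomial.eval_mul, Polynomial.map_C, Polynomial.eval_C, eval_C, Polynomial.map_prod,
      Polynomial.eval_prod, Polynomial.map_pow, Polynomial.eval_pow, ev_gen, mul_assoc]
    rw [← Finset.mul_sum, h, mul_zero]

end Pool.Agent.Lib.MP_837412_lc.K
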