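import Pool.Agent.Lib.MP_837412_lc.WSt

/-!
The action of monotone maps lifts to the space between the first and the last of a chain of
functions.
-/

namespace Pool.Agent.Lib.MP_837412_lc.K

open Set Function Filter Topology
open Pool.Agent.Shared.Mod2 (I)

namespace WBand

/-- The part of the interval from `a` to `b` that lies below `s`. -/
def cc (a b s : ℝ) : ℝ := min s b - min s a

/-- A coordinate in a band. -/
noncomputable def bb (u h c : ℝ) : ℝ := u * min (2 * (c / h)) 1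

/-- The height in a band from the two coordinates. -/
noncomputable def dd (h A B U : ℝ) : ℝ := h * ((A - B + U) / (2 * U))

variable {a b s u h c A B U : ℝ}

lemma cc_mem (e : a ≤ b) : cc a b s ∈ Icc 0 (b - a) := by
  simp only [cc, mem_Icc, min_def]; split_ifs <;> constructor <;> linarith

lemma cc_low (e : a ≤ b) (f : s ≤ a) : cc a b s = 0 := by
  rw [cc, min_eq_left f, min_eq_left (f.trans e), sub_self]

lemma cc_high (e : a ≤ b) (f : b ≤ s) : cc a b s = b - a := by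
  rw [cc, min_eq_right f, min_eq_right (e.trans f)]

lemma cc_mid (e : c ∈ Icc 0 (b - a)) : cc a b (a + c) = c := by
  rw [cc, min_eq_left (by linarith [e.2]), min_eq_right (by linarith [e.1])]; ring

lemma flip_mem (e : c ∈ Icc 0 h) : h - c ∈ Icc 0 h := ⟨by linarith [e.2], by linarith [e.1]⟩

lemma bb_mem (hu : 0 ≤ u) (e : c ∈ Icc 0 h) : bb u h c ∈ Icc 0 u :=
  ⟨mul_nonneg hu (le_min (mul_nonneg two_pos.le (div_nonneg e.1 (e.1.trans e.2))) zero_le_one),
    mul_le_of_le_one_right hu (min_le_right _ _)⟩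

lemma bb_zero (e : c ∈ Icc 0 h) (z : u = 0 ↔ h = 0) : bb u h c = 0 ↔ c = 0 := by
  refine ⟨fun g => by_contra fun g' => ?_, fun g => by simp [bb, g]⟩
  have h1 : 0 < c := e.1.lt_of_ne' g'
  have h2 : 0 < h := h1.trans_le e.2
  exact mul_ne_zero (mt z.1 h2.ne') (lt_min (by positivity) one_pos).ne' g

lemma bb_low (e : 0 < h) (f : 2 * c ≤ h) : bb u h c = u * (2 * (c / h)) ∧ bb u h (h - c) = u := by
  rw [bb, bb, min_eq_left, min_eq_right, mul_one]
  · exact ⟨rfl, rfl⟩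
  · rw [← mul_div_assoc, one_le_div e]; linarith
  · rw [← mul_div_assoc, div_le_one e]; linarith

lemma bb_max (hu : 0 ≤ u) (e : c ∈ Icc 0 h) (z : u = 0 ↔ h = 0) :
    max (bb u h c) (bb u h (h - c)) = u := by
  rcases (e.1.trans e.2).eq_or_lt' with g | g
  · simp [bb, z.2 g]
  rcases le_total (2 * c) h with f | f
  · rw [(bb_low g f).2, max_eq_right (bb_mem hu e).2]
  · have := (bb_low (u := u) (c := h - c) g (by linarith)).2
    rw [sub_sub_cancel] at this
    rw [this, max_eq_left (bb_mem hu (flip_mem e)).2]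

lemma dd_bb (e : c ∈ Icc 0 h) (z : u = 0 ↔ h = 0) :
    dd h (bb u h c) (bb u h (h - c)) u = c := by
  rcases (e.1.trans e.2).eq_or_lt' with g | g
  · rw [dd, g, zero_mul]; linarith [e.1, e.2]
  have hu : u ≠ 0 := mt z.1 g.ne'
  rcases le_total (2 * c) h with f | f
  · rw [(bb_low g f).1, (bb_low g f).2, dd]; field_simp; ring
  · have := bb_low (u := u) (c := h - c) g (by linarith)
    rw [sub_sub_cancel] at this
    rw [this.1, this.2, dd]; field_simp; ring

lemma dd_mem (hh : 0 ≤ h) (hA : 0 ≤ A) (hB : 0 ≤ B) (e : max A B = U) : dd h A B U ∈ Icc 0 h := by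
  have h1 : A ≤ U := e ▸ le_max_left _ _
  have h2 : B ≤ U := e ▸ le_max_right _ _
  exact ⟨mul_nonneg hh (div_nonneg (by linarith) (by linarith)),
    mul_le_of_le_one_right hh (div_le_one_of_le₀ (by linarith) (by linarith))⟩

lemma dd_flip (z : U = 0 ↔ h = 0) : h - dd h A B U = dd h B A U := by
  by_cases g : U = 0
  · simp [dd, z.1 g]
  · rw [dd, dd]; field_simp; ring

lemma dd_zero (hB : 0 ≤ B) (e : max 0 B = U) : dd h 0 B U = 0 := by
  rw [← e, max_eq_right hB]; simp [dd]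

lemma bb_dd (hA : 0 ≤ A) (e : max A B = U) (z : U = 0 ↔ h = 0) :
    bb U h (dd h A B U) = A := by
  have h1 : A ≤ U := e ▸ le_max_left _ _
  have h2 : B ≤ U := e ▸ le_max_right _ _
  rcases (hA.trans h1).eq_or_lt' with g | g
  · rw [bb, g, zero_mul]; linarith
  have hh : h ≠ 0 := mt z.2 g.ne'
  have e1 : U * (2 * (dd h A B U / h)) = A - B + U := by rw [dd]; field_simp
  rw [bb, mul_min_of_nonneg _ _ g.le, e1, mul_one]
  rcases le_total A B with f | f
  · rw [max_eq_right f] at e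
    rw [min_eq_left (by linarith)]; linarith
  · rw [max_eq_left f] at e
    rw [min_eq_right (by linarith)]; linarith

lemma cont_of {X : Type} [TopologicalSpace X] {g v : X → ℝ} (hv : Continuous v)
    (h1 : ∀ x, g x ∈ Icc 0 (v x)) (h2 : ∀ x, v x ≠ 0 → ContinuousAt g x) : Continuous g := by
  refine continuous_iff_continuousAt.2 fun x => ?_
  by_cases e : v x = 0
  · have e' : g x = 0 := le_antisymm (e ▸ (h1 x).2) (h1 x).1
    rw [ContinuousAt, e']
    exact squeeze_zero (fun y => (h1 y).1) (fun y => (h1 y).2) (e ▸ hv.tendsto x)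
  · exact h2 x e

lemma bb_cont {X : Type} [TopologicalSpace X] {u h c : X → ℝ} (h1 : Continuous u)
    (h2 : Continuous h) (h3 : Continuous c) (hu : ∀ x, 0 ≤ u x) (e : ∀ x, c x ∈ Icc 0 (h x))
    (z : ∀ x, u x = 0 ↔ h x = 0) : Continuous fun x => bb (u x) (h x) (c x) :=
  cont_of h1 (fun x => bb_mem (hu x) (e x)) fun x g => h1.continuousAt.mul
    ((continuousAt_const.mul (h3.continuousAt.div h2.continuousAt (mt (z x).2 g))).min
      continuousAt_const)

lemma exists_band {x : ℕ → ℝ} {n : ℕ} (h0 : x 0 ≤ s) (h1 : s ≤ x (n + 1)) :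
    ∃ i ≤ n, x i ≤ s ∧ s ≤ x (i + 1) := by
  induction n with
  | zero => exact ⟨0, le_rfl, h0, h1⟩
  | succ n ih =>
    rcases le_total s (x (n + 1)) with g | g
    · exact (ih g).imp fun _ a => ⟨a.1.trans n.le_succ, a.2⟩
    · exact ⟨n + 1, le_rfl, g, h1⟩

lemma stair {x d : ℕ → ℝ} {n i : ℕ} (hx : Monotone x) (hi : i < n)
    (h1 : ∀ j < i, d j = x (j + 1) - x j) (h2 : ∀ j < n, i < j → d j = 0)
    (h3 : d i ∈ Icc 0 (x (i + 1) - x i)) :
    ∀ j < n, cc (x j) (x (j + 1)) (x 0 + ∑ k ∈ Finset.range n, d k) = d j := fun j hj => by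
  have e : x 0 + ∑ k ∈ Finset.range n, d k = x i + d i := by
    rw [← Finset.sum_subset (Finset.range_mono hi : Finset.range (i + 1) ⊆ _) fun k a b =>
      h2 k (Finset.mem_range.1 a) (by simpa using b), Finset.sum_range_succ,
      Finset.sum_congr rfl fun k a => h1 k (Finset.mem_range.1 a), Finset.sum_range_sub]
    ring
  rw [e]
  rcases lt_trichotomy j i with g | rfl | g
  · rw [h1 j g, cc_high (hx j.le_succ) (by linarith [hx (g : j + 1 ≤ i), h3.1])]
  · exact cc_mid h3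
  · rw [h2 j hj g, cc_low (hx j.le_succ) (by linarith [hx (g : i + 1 ≤ j), h3.2])]

section Main

variable {Y κ : Type} [TopologicalSpace Y] {w : κ → Y → ℝ} {ξ v : ℕ → Y → ℝ} {n : ℕ}

/-- The width of a band. -/
def hw (ξ : ℕ → Y → ℝ) (j : ℕ) (y : Y) : ℝ := ξ (j + 1) y - ξ j y

/-- The height in a band. -/
def ht (ξ : ℕ → Y → ℝ) (j : ℕ) (p : Y × ℝ) : ℝ := cc (ξ j p.1) (ξ (j + 1) p.1) p.2

/-- The lower coordinate. -/
noncomputable def bm (ξ v : ℕ → Y → ℝ) (j : ℕ) (p : Y × ℝ) : ℝ :=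
  bb (v j p.1) (hw ξ j p.1) (ht ξ j p)

/-- The upper coordinate. -/
noncomputable def bp (ξ v : ℕ → Y → ℝ) (j : ℕ) (p : Y × ℝ) : ℝ :=
  bb (v j p.1) (hw ξ j p.1) (hw ξ j p.1 - ht ξ j p)

/-- The new height. -/
noncomputable def nw (ξ v : ℕ → Y → ℝ) (φ : ℝ → ℝ) (y' : Y) (p : Y × ℝ) (j : ℕ) : ℝ :=
  dd (hw ξ j y') (φ (bm ξ v j p)) (φ (bp ξ v j p)) (v j y')

/-- The family on the tower. -/
noncomputable def fam (w : κ → Y → ℝ) (ξ v : ℕ → Y → ℝ) (n : ℕ) :
    κ ⊕ Fin n ⊕ Fin n → Tow ξ n → ℝ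
  | .inl q => fun p => w q p.1.1
  | .inr (.inl j) => fun p => bm ξ v j p.1
  | .inr (.inr j) => fun p => bp ξ v j p.1

/-- The data. -/
structure Dt (w : κ → Y → ℝ) (ξ v : ℕ → Y → ℝ) (n : ℕ) : Prop where
  cont : ∀ j, Continuous (ξ j)
  mono : ∀ y, Monotone fun j => ξ j y
  eqv : ∀ j < n, Eqv w (v j)
  zero : ∀ j < n, ∀ y, v j y = 0 ↔ hw ξ j y = 0

namespace Dt

variable (D : Dt w ξ v n) {j : ℕ}
include D

lemma le (j : ℕ) (y : Y) : ξ j y ≤ ξ (j + 1) y := D.mono y j.le_succ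

lemma ht_mem (j : ℕ) (p : Y × ℝ) : ht ξ j p ∈ Icc 0 (hw ξ j p.1) := cc_mem (D.le j _)

lemma hw_cont (j : ℕ) : Continuous (hw ξ j) := (D.cont _).sub (D.cont _)

lemma ht_cont (j : ℕ) : Continuous (ht ξ j) :=
  (continuous_snd.min ((D.cont _).comp continuous_fst)).sub
    (continuous_snd.min ((D.cont _).comp continuous_fst))

lemma bm_mem (hj : j < n) (p : Y × ℝ) : bm ξ v j p ∈ Icc 0 (v j p.1) :=
  bb_mem ((D.eqv j hj).mem _).1 (D.ht_mem j p)

lemma bp_mem (hj : j < n) (p : Y × ℝ) : bp ξ v j p ∈ Icc 0 (v j p.1) :=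
  bb_mem ((D.eqv j hj).mem _).1 (flip_mem (D.ht_mem j p))

lemma bm_cont (hj : j < n) : Continuous (bm ξ v j) :=
  bb_cont ((D.eqv j hj).cont.comp continuous_fst) ((D.hw_cont j).comp continuous_fst) (D.ht_cont j)
    (fun _ => ((D.eqv j hj).mem _).1) (D.ht_mem j) fun _ => D.zero j hj _

lemma bp_cont (hj : j < n) : Continuous (bp ξ v j) :=
  bb_cont ((D.eqv j hj).cont.comp continuous_fst) ((D.hw_cont j).comp continuous_fst)
    (((D.hw_cont j).comp continuous_fst).sub (D.ht_cont j))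
    (fun _ => ((D.eqv j hj).mem _).1) (fun p => flip_mem (D.ht_mem j p)) fun _ => D.zero j hj _

lemma bm_zero (hj : j < n) (p : Y × ℝ) : bm ξ v j p = 0 ↔ ht ξ j p = 0 :=
  bb_zero (D.ht_mem j p) (D.zero j hj _)

lemma bp_zero (hj : j < n) (p : Y × ℝ) : bp ξ v j p = 0 ↔ ht ξ j p = hw ξ j p.1 :=
  (bb_zero (flip_mem (D.ht_mem j p)) (D.zero j hj _)).trans (sub_eq_zero.trans eq_comm)

variable {φ : ℝ → ℝ} {y' : Y} {p : Y × ℝ} (hφ : Mo φ) (hy : ∀ q, w q y' = φ (w q p.1))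
include hφ hy

lemma data (hj : j < n) : 0 ≤ φ (bm ξ v j p) ∧ 0 ≤ φ (bp ξ v j p) ∧
    max (φ (bm ξ v j p)) (φ (bp ξ v j p)) = v j y' :=
  ⟨hφ.2.1.ge.trans (hφ.1 (D.bm_mem hj p).1), hφ.2.1.ge.trans (hφ.1 (D.bp_mem hj p).1), by
    rw [← hφ.1.map_max, (D.eqv j hj).eqv φ hφ _ _ hy, bm, bp,
      bb_max ((D.eqv j hj).mem _).1 (D.ht_mem j p) (D.zero j hj _)]⟩

lemma nw_mem (hj : j < n) : nw ξ v φ y' p j ∈ Icc 0 (hw ξ j y') :=
  let ⟨a, b, c⟩ := D.data hφ hy hj
  dd_mem (sub_nonneg.2 (D.le j _)) a b c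

lemma ht_nw (h0 : ξ 0 p.1 ≤ p.2) (h1 : p.2 ≤ ξ n p.1) (hj : j < n) :
    ht ξ j (y', ξ 0 y' + ∑ k ∈ Finset.range n, nw ξ v φ y' p k) = nw ξ v φ y' p j := by
  obtain ⟨m, rfl⟩ : ∃ m, n = m + 1 := ⟨n - 1, by omega⟩
  obtain ⟨i, hi, i1, i2⟩ := exists_band (x := fun j => ξ j p.1) h0 h1
  refine stair (D.mono y') (Nat.lt_succ_of_le hi) (fun k hk => ?_) (fun k hk hk' => ?_)
    (D.nw_mem hφ hy (Nat.lt_succ_of_le hi)) j hj
  · have hk' : k < m + 1 := by omega
    obtain ⟨a, -, c⟩ := D.data hφ hy hk'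
    have e : bp ξ v k p = 0 :=
      (D.bp_zero hk' p).2 (cc_high (D.le k _) ((D.mono _ (hk : k + 1 ≤ i)).trans i1))
    have := dd_flip (A := φ (bm ξ v k p)) (B := φ (bp ξ v k p)) (D.zero k hk' y')
    rw [max_comm, e, hφ.2.1] at c
    conv_rhs at this => rw [e, hφ.2.1, dd_zero a c]
    exact (sub_eq_zero.1 this).symm
  · obtain ⟨-, b, c⟩ := D.data hφ hy hk
    have e : bm ξ v k p = 0 :=
      (D.bm_zero hk p).2 (cc_low (D.le k _) (i2.trans (D.mono _ (hk' : i + 1 ≤ k))))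
    rw [e, hφ.2.1] at c
    rw [nw, e, hφ.2.1, dd_zero b c]

omit hφ hy in
lemma sc (hw' : Sc w) : Sc (fam w ξ v n) := by
  refine ⟨?_, ?_, fun φ c1 c2 c3 => ?_⟩
  · rintro (q | j | j)
    · exact (hw'.cont q).comp (continuous_fst.comp continuous_subtype_val)
    · exact (D.bm_cont j.2).comp continuous_subtype_val
    · exact (D.bp_cont j.2).comp continuous_subtype_val
  · rintro (q | j | j) p
    · exact hw'.mem q _
    · exact Icc_subset_Icc_right ((D.eqv j j.2).mem _).2 (D.bm_mem j.2 _)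
    · exact Icc_subset_Icc_right ((D.eqv j j.2).mem _).2 (D.bp_mem j.2 _)
  obtain ⟨H, h0, h1⟩ := hw'.act φ c1 c2 c3
  have mem : ∀ (t : I) (p : Y × ℝ), ∀ j < n,
      nw ξ v (φ t) (H (t, p.1)) p j ∈ Icc 0 (hw ξ j (H (t, p.1))) :=
    fun t p j hj => D.nw_mem (c2 t) (fun q => h1 q t _) hj
  have cp : Continuous fun z : I × Tow ξ n => z.2.1 := continuous_subtype_val.comp continuous_snd
  have cH : Continuous fun z : I × Tow ξ n => H (z.1, z.2.1.1) :=
    H.continuous.comp (continuous_fst.prodMk cp.fst)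
  have cn : ∀ j < n, Continuous fun z : I × Tow ξ n =>
      nw ξ v (φ z.1) (H (z.1, z.2.1.1)) z.2.1 j := fun j hj => by
    have cv := (D.eqv j hj).cont.comp cH
    refine cont_of ((D.hw_cont j).comp cH) (fun z => mem _ _ j hj) fun z hz =>
      ((D.hw_cont j).comp cH).continuousAt.mul (ContinuousAt.div (Continuous.continuousAt ?_)
        (continuous_const.mul cv).continuousAt
        (mul_ne_zero two_ne_zero (mt (D.zero j hj _).1 hz)))
    exact ((c1.comp (continuous_fst.prodMk ((D.bm_cont hj).comp cp))).sub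
      (c1.comp (continuous_fst.prodMk ((D.bp_cont hj).comp cp)))).add cv
  refine ⟨⟨fun z => ⟨(H (z.1, z.2.1.1), ξ 0 (H (z.1, z.2.1.1)) +
    ∑ k ∈ Finset.range n, nw ξ v (φ z.1) (H (z.1, z.2.1.1)) z.2.1 k),
      le_add_of_nonneg_right (Finset.sum_nonneg fun k hk => (mem _ _ k (Finset.mem_range.1 hk)).1),
      ?_⟩, (cH.prodMk (((D.cont 0).comp cH).add (continuous_finsetSum _ fun k hk =>
        cn k (Finset.mem_range.1 hk)))).subtype_mk _⟩, fun p => ?_, ?_⟩
  · have := Finset.sum_le_sum fun k (hk : k ∈ Finset.range n) =>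
      (mem z.1 z.2.1 k (Finset.mem_range.1 hk)).2
    rw [show ∑ k ∈ Finset.range n, hw ξ k (H (z.1, z.2.1.1)) = _ from
      Finset.sum_range_sub (fun k => ξ k (H (z.1, z.2.1.1))) n] at this
    exact le_sub_iff_add_le'.1 this
  · refine Subtype.ext (Prod.ext (h0 _) ?_)
    change ξ 0 (H (0, p.1.1)) + ∑ k ∈ Finset.range n, nw ξ v (φ 0) (H (0, p.1.1)) p.1 k = p.1.2
    have e : ∀ k ∈ Finset.range n, nw ξ v (φ 0) p.1.1 p.1 k =
        min p.1.2 (ξ (k + 1) p.1.1) - min p.1.2 (ξ k p.1.1) := fun k hk => by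
      rw [nw, c3, c3]
      exact dd_bb (D.ht_mem k _) (D.zero k (Finset.mem_range.1 hk) _)
    rw [h0, Finset.sum_congr rfl e, Finset.sum_range_sub fun k => min p.1.2 (ξ k p.1.1),
      min_eq_left p.2.2, min_eq_right p.2.1, add_sub_cancel]
  · rintro (q | j | j) t p
    · exact h1 q t _
    · obtain ⟨a, -, c⟩ := D.data (p := p.1) (c2 t) (fun q => h1 q t _) j.2
      exact (congrArg (bb _ _) (D.ht_nw (c2 t) (fun q => h1 q t _) p.2.1 p.2.2 j.2)).trans
        (bb_dd a c (D.zero j j.2 _))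
    · obtain ⟨-, b, c⟩ := D.data (p := p.1) (c2 t) (fun q => h1 q t _) j.2
      exact (congrArg (bb _ _) ((congrArg (_ - ·) (D.ht_nw (c2 t) (fun q => h1 q t _) p.2.1 p.2.2
        j.2)).trans (dd_flip (D.zero j j.2 _)))).trans
        (bb_dd b ((max_comm _ _).trans c) (D.zero j j.2 _))

end Dt

end Main

end WBand

open WBand in
theorem bandV : BandV := by
  intro Y κ _ w ξ n hw' c1 c2 c3
  choose! v v1 v2 using c3
  have D : Dt w ξ v n :=
    ⟨c1, c2, v1, fun j hj y => (v2 j hj y).trans (eq_comm.trans sub_eq_zero.symm)⟩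
  have S := D.sc hw'
  refine ⟨_, WBand.fam w ξ v n, S, fun Z ⟨u, a, b⟩ => ⟨fun p => u p.1.1,
    ⟨a.cont.comp (continuous_fst.comp continuous_subtype_val), fun _ => a.mem _,
      fun φ e p p' f => a.eqv φ e _ _ fun q => f (.inl q)⟩, fun _ => b _⟩, fun j hj => ⟨?_, ?_⟩⟩
  · convert ES.biInter (w := WBand.fam w ξ v n) (Finset.Ico j n)
      (Z := fun k => {p | ht ξ k p.1 = 0}) fun k hk => ?_ using 1
    · ext p
      simp only [mem_ofPred_eq, mem_iInter]
      refine ⟨fun h k hk => cc_low (D.le k _) (h.trans (c2 _ (Finset.mem_Ico.1 hk).1)), fun h => ?_⟩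
      have := (Finset.sum_Ico_sub (fun k => min p.1.2 (ξ k p.1.1)) hj).symm.trans
        (Finset.sum_eq_zero h)
      rw [min_eq_left p.2.2] at this
      exact min_eq_left_iff.1 (by linarith)
    · have hk' := (Finset.mem_Ico.1 hk).2
      exact ⟨_, S.eqv (.inr (.inl ⟨k, hk'⟩)), fun p => D.bm_zero hk' _⟩
  · convert ES.biInter (w := WBand.fam w ξ v n) (Finset.range j)
      (Z := fun k => {p | ht ξ k p.1 = hw ξ k p.1.1}) fun k hk => ?_ using 1
    · ext p
      simp only [mem_ofPred_eq, mem_iInter]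
      refine ⟨fun h k hk => cc_high (D.le k _)
        ((c2 _ (Finset.mem_range.1 hk : k + 1 ≤ j)).trans h), fun h => ?_⟩
      have := Finset.sum_congr (s₁ := Finset.range j) rfl h
      rw [show ∑ k ∈ Finset.range j, ht ξ k p.1 = _ from
        Finset.sum_range_sub (fun k => min p.1.2 (ξ k p.1.1)) j,
        show ∑ k ∈ Finset.range j, hw ξ k p.1.1 = _ from
        Finset.sum_range_sub (fun k => ξ k p.1.1) j, min_eq_right p.2.1] at this
      exact min_eq_right_iff.1 (by linarith)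
    · have hk' := (Finset.mem_range.1 hk).trans_le hj
      exact ⟨_, S.eqv (.inr (.inr ⟨k, hk'⟩)), fun p => D.bp_zero hk' _⟩

end Pool.Agent.Lib.MP_837412_lc.K
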