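import Pool.Agent.Lib.MP_837412_lc.WSt

/-!
Gluing of vanishing relative homology along open covers, and open neighbourhoods of pattern sets.
-/

namespace Pool.Agent.Lib.MP_837412_lc.K

open Set Function Filter Topology
open Pool.Agent.Shared.Mod2 (I Sx)

namespace WCov

lemma clip {a x : ℝ} (h0 : 0 < a) (h1 : a < x) : ∃ ψ : ℝ → ℝ, Continuous ψ ∧ Monotone ψ ∧
    (∀ s, ψ s ≤ s) ∧ (∀ s, x ≤ s → ψ s = s) ∧ ∀ s, 0 ≤ s → s ≤ a → ψ s = 0 := by
  have h2 : 0 < x - a := sub_pos.2 h1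
  have h3 : 0 < x / (x - a) := div_pos (h0.trans h1) h2
  refine ⟨fun s => min s (max 0 ((s - a) * (x / (x - a)))), by fun_prop, fun s s' h => ?_,
    fun s => min_le_left _ _, fun s h => min_eq_left (le_max_of_le_right ?_), fun s h h' => ?_⟩
  · exact min_le_min h (max_le_max le_rfl (by gcongr))
  · rw [← mul_div_assoc, le_div_iff₀ h2]; nlinarith
  · beta_reduce
    rw [max_eq_left (mul_nonpos_of_nonpos_of_nonneg (sub_nonpos.2 h') h3.le), min_eq_right h]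

variable [Coef] {Y : Type} [TopologicalSpace Y] {U W S : Set Y} {k : ℕ}

lemma split {x y : Ch (Sx Y)} (hx : x ∈ Cs U k) (hy : y ∈ Cs W k) (h : x + y ∈ Cs S k) :
    ∃ c ∈ Cs (U ∩ W) k, ∃ s ∈ Cs (U ∩ S) k, x = c + s := by
  have : x + y - y ∈ sup ({σ : Sx Y | σ.1 = k ∧ ∀ t, σ.2 t ∈ W} ∪
      {σ : Sx Y | σ.1 = k ∧ ∀ t, σ.2 t ∈ S}) :=
    sub_mem (sup_mono subset_union_right h) (sup_mono subset_union_left hy)
  rw [add_sub_cancel_right] at this
  refine sup_split (sup_mono ?_ (sup_inter hx this))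
  rintro σ ⟨e, e' | e'⟩
  exacts [Or.inl ⟨e.1, fun t => ⟨e.2 t, e'.2 t⟩⟩, Or.inr ⟨e.1, fun t => ⟨e.2 t, e'.2 t⟩⟩]

lemma mv (hU : IsOpen U) (hW : IsOpen W) (h1 : hs U (U ∩ S) k = 0) (h2 : hs W (W ∩ S) k = 0)
    (h3 : hs (U ∩ W) (U ∩ W ∩ S) (k - 1) = 0) : hs (U ∪ W) ((U ∪ W) ∩ S) k = 0 := by
  cases k with
  | zero => exact hs_zero _ _
  | succ k =>
    refine hh_eq_zero.2 fun z hz => ?_
    obtain ⟨T, t1, u, hu, w, hw, e⟩ := small2 hU hW hz.1
    have z2 : sd z ∈ Cs ((U ∪ W) ∩ S) k := hz.2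
    have e1 : sd u + sd w ∈ Cs S k := by
      rw [← map_add, ← e, map_add, map_add, sd_sd, add_zero]
      exact Cs_mono inter_subset_right k (add_mem z2 (sd_mem (t1 _ _ _ z2)))
    obtain ⟨c, hc, s, hs', e2⟩ := split (sd_mem hu) (sd_mem hw) e1
    have c1 : c ∈ Zs (U ∩ W) (U ∩ W ∩ S) k := by
      refine mem_Zr.2 ⟨hc, Cs_inter ((cx _).mem' hc) (mem_of_add (y := sd s) ?_
        (Cs_mono inter_subset_right _ ((cx _).mem' hs')))⟩
      rw [← map_add, ← e2, sd_sd]; exact zero_mem _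
    obtain ⟨b, b1, b2⟩ := mem_Br.1 (hh_eq_zero.1 h3 c1)
    have u1 : u + b ∈ Cs U (k + 1) := add_mem hu (Cs_mono inter_subset_left _ b1)
    have w1 : w - b ∈ Cs W (k + 1) := sub_mem hw (Cs_mono inter_subset_right _ b1)
    have u2 : sd (u + b) ∈ Cs S k := by
      rw [map_add, e2, add_right_comm]
      exact add_mem (Cs_mono inter_subset_right _ b2) (Cs_mono inter_subset_right _ hs')
    have w2 : sd (w - b) ∈ Cs S k := by
      refine mem_of_add (y := sd (u + b)) ?_ u2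
      rwa [← map_add, show w - b + (u + b) = u + w by abel, map_add]
    have u3 := Bs_mono (subset_union_left (t := W)) (inter_subset_inter_left S
      (subset_union_left (t := W))) _ (hh_eq_zero.1 h1 (mem_Zr'.2 ⟨u1, Cs_inter (sd_mem u1) u2⟩))
    have w3 := Bs_mono (subset_union_right (s := U)) (inter_subset_inter_left S
      (subset_union_right (s := U))) _ (hh_eq_zero.1 h2 (mem_Zr'.2 ⟨w1, Cs_inter (sd_mem w1) w2⟩))
    have := add_mem u3 w3
    rw [show u + b + (w - b) = u + w by abel, ← e] at this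
    exact mem_of_add (mem_of_add this (Cs_le_Bs _ _ _ (t1 _ _ _ z2)))
      (Submodule.mem_sup_left ⟨_, t1 _ _ _ hz.1, rfl⟩)

lemma fin {β : Type} {U : β → Set Y} {n : ℕ} (hU : ∀ b, IsOpen (U b))
    (h : ∀ t : Finset β, t.Nonempty → ∀ j ≤ n, hs (⋂ b ∈ t, U b) ((⋂ b ∈ t, U b) ∩ S) j = 0)
    (s t : Finset β) : ∀ j ≤ n, hs ((⋂ b ∈ t, U b) ∩ ⋃ a ∈ s, U a)
      (((⋂ b ∈ t, U b) ∩ ⋃ a ∈ s, U a) ∩ S) j = 0 := by
  classical
  induction s using Finset.induction_on generalizing t with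
  | empty => intro j _; simpa using Ac.refl (∅ : Set Y) j
  | insert a s _ ih =>
    intro j hj
    have o : IsOpen (⋂ b ∈ t, U b) := isOpen_biInter_finset fun b _ => hU b
    have e : (⋂ b ∈ t, U b) ∩ U a = ⋂ b ∈ insert a t, U b := by
      rw [Finset.set_biInter_insert, inter_comm]
    rw [Finset.set_biUnion_insert, inter_union_distrib_left]
    refine mv (o.inter (hU a)) (o.inter (isOpen_biUnion fun b _ => hU b)) ?_ (ih t j hj) ?_
    · rw [e]; exact h _ (Finset.insert_nonempty a t) j hj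
    · rw [← inter_inter_distrib_left, ← inter_assoc (⋂ b ∈ t, U b) (U a), e]
      exact ih _ _ ((Nat.sub_le j 1).trans hj)

variable {τ : Type} [Fintype τ] {w : τ → Y → ℝ} {𝒜 : Set (Set τ)}

omit [Coef] in
lemma isOpen_Ub (h : Sc w) (A : Set τ) (a b : ℝ) : IsOpen (Ub w A a b) := by
  rw [Ub, ofPred_forall]
  refine isOpen_iInter_of_finite fun q => ?_
  by_cases e : q ∈ A
  · simpa [e] using isOpen_lt continuous_const (h.cont q)
  · simpa [e] using isOpen_lt (h.cont q) continuous_const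

lemma anchor (h : Sc w) {β : Type} {t : Finset β} {A : β → Set τ} {x : β → ℝ} {b₀ : β}
    (h0 : b₀ ∈ t) (h1 : ∀ b ∈ t, x b₀ ≤ x b) (h2 : x b₀ ∈ Ioo (0 : ℝ) 1) (h3 : A b₀ ∈ 𝒜) :
    Ac (⋂ b ∈ t, Ub w (A b) (x b) (x b)) ((⋂ b ∈ t, Ub w (A b) (x b) (x b)) ∩ Pat w 𝒜) := by
  refine wd fun K k1 k2 => ?_
  have k3 : ∀ y ∈ K, y ∈ Ub w (A b₀) (x b₀) (x b₀) := fun y hy => mem_iInter₂.1 (k2 hy) b₀ h0
  have ev : ∀ᶠ a in 𝓝 (x b₀), ∀ y ∈ K, ∀ q, q ∉ A b₀ → w q y < a := by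
    refine k1.eventually_forall_of_forall_eventually fun y hy => eventually_all.2 fun q => ?_
    by_cases e : q ∈ A b₀
    · simp [e]
    · exact (ContinuousAt.eventually_lt (x₀ := (x b₀, y))
        ((h.cont q).comp continuous_snd).continuousAt continuous_fst.continuousAt
        ((k3 y hy q).2 e)).mono fun _ a _ => a
  obtain ⟨a, ⟨a1, a2⟩, a3⟩ := (((ev.and (lt_mem_nhds h2.1)).filter_mono nhdsWithin_le_nhds).and
    (self_mem_nhdsWithin (s := Iio (x b₀)))).exists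
  obtain ⟨ψ, p1, p2, p3, p4, p5⟩ := clip a2 a3
  have p0 := p5 0 le_rfl a2.le
  obtain ⟨H, e0, e⟩ := h.act (fun t s => (1 - t) * s + t * ψ s) (by fun_prop) (fun t =>
    ⟨fun s s' f => add_le_add (mul_le_mul_of_nonneg_left f (sub_nonneg.2 t.2.2))
      (mul_le_mul_of_nonneg_left (p2 f) t.2.1), by simp [p0], by simp [p4 1 h2.2.le]⟩) (by simp)
  have s1 : ∀ u, ∀ y ∈ K, H (u, y) ∈ ⋂ b ∈ t, Ub w (A b) (x b) (x b) := fun u y hy =>
    mem_iInter₂.2 fun b hb q => by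
      have f := mem_iInter₂.1 (k2 hy) b hb q
      rw [e]
      refine ⟨fun g => ?_, fun g => ?_⟩
      · rw [p4 _ ((h1 b hb).trans (f.1 g).le)]; linarith [f.1 g]
      · nlinarith [f.2 g, p3 (w q y), u.2.1]
  have s2 : ∀ y ∈ K, H (1, y) ∈ Pat w 𝒜 := fun y hy => by
    have : {q | 0 < w q (H (1, y))} = A b₀ := by
      ext q
      rw [mem_ofPred, e]
      by_cases g : q ∈ A b₀
      · have := (k3 y hy q).1 g
        simpa [g, p4 _ this.le] using h2.1.trans this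
      · simp [g, p5 _ (h.mem q y).1 (a1 y hy q g).le]
    rwa [Pat, mem_ofPred, this]
  refine ⟨H, e0, s1, fun u y hy f => ⟨s1 u y hy, ?_⟩, fun y hy => ⟨s1 1 y hy, s2 y hy⟩⟩
  rcases eq_or_lt_of_le u.2.2 with g | g
  · rw [show u = 1 from Subtype.ext g]; exact s2 y hy
  · have : {q | 0 < w q (H (u, y))} = {q | 0 < w q y} := by
      ext q
      rw [mem_ofPred, mem_ofPred, e]
      rcases (h.mem q y).1.eq_or_lt with g' | g'
      · simp [← g', p0]
      · have := p0 ▸ p2 g'.le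
        exact iff_of_true (by nlinarith [u.2.1]) g'
    rw [Pat, mem_ofPred, this]; exact f.2

end WCov

variable [Coef]

theorem covV : CovV := by
  intro Y β _ U S n hU h j hj
  refine hh_eq_zero.2 fun z hz => ?_
  obtain ⟨K, k1, k2, k3⟩ := exists_compact hz.1
  obtain ⟨s, hs'⟩ := k1.elim_finite_subcover U hU k2
  have := WCov.fin hU h s ∅ j hj
  simp only [Finset.notMem_empty, iInter_of_empty, iInter_univ, univ_inter] at this
  have z1 := Cs_mono hs' j k3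
  have e : ⋃ a ∈ s, U a ⊆ ⋃ b, U b := iUnion₂_subset fun b _ => subset_iUnion U b
  exact Bs_mono e (inter_subset_inter_left S e) j (hh_eq_zero.1 this (mem_Zr.2
    ⟨z1, Cs_inter ((cx _).mem' z1) (Cs_mono inter_subset_right _ hz.2)⟩))

theorem patV (h : CovV) : PatV := by
  intro Y τ _ _ w 𝒜 G hw g1 g2
  have a : Pat w 𝒜 ⊆ Vg w 𝒜 G := fun y hy => by
    have : ∀ᶠ x in 𝓝 (0 : ℝ), ∀ q, 0 < w q y → x < w q y := eventually_all.2 fun q => by
      by_cases e : 0 < w q y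
      · exact (gt_mem_nhds e).mono fun _ a _ => a
      · simp [e]
    obtain ⟨ε, e0, e1⟩ := Metric.eventually_nhds_iff.1 this
    obtain ⟨x, x1, x2⟩ := g2 ε e0
    have x0 := (g1 x1).1
    refine mem_iUnion₂.2 ⟨_, hy, mem_iUnion₂.2 ⟨x, x1, fun q => ⟨e1 ?_ q, fun f => ?_⟩⟩⟩
    · simpa [abs_of_pos x0] using x2
    · exact (not_lt.1 f).trans_lt x0
  refine ⟨a, fun j => ?_⟩
  have := h Y {p : Set τ × ℝ // p.1 ∈ 𝒜 ∧ p.2 ∈ G} (fun p => Ub w p.1.1 p.1.2 p.1.2) (Pat w 𝒜) j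
    (fun p => WCov.isOpen_Ub hw _ _ _) (fun t ht i _ => by
      obtain ⟨b, b1, b2⟩ := t.exists_min_image (fun p => p.1.2) ht
      exact WCov.anchor (t := t) (A := fun p => p.1.1) (x := fun p => p.1.2) hw b1 b2
        (g1 b.2.2) b.2.1 i)
    j le_rfl
  have e : ⋃ p : {p : Set τ × ℝ // p.1 ∈ 𝒜 ∧ p.2 ∈ G}, Ub w p.1.1 p.1.2 p.1.2 = Vg w 𝒜 G :=
    Subset.antisymm (iUnion_subset fun p y f => mem_iUnion₂.2 ⟨_, p.2.1, mem_iUnion₂.2
      ⟨_, p.2.2, f⟩⟩) (iUnion₂_subset fun A f => iUnion₂_subset fun x g =>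
        subset_iUnion_of_subset ⟨(A, x), f, g⟩ Subset.rfl)
  rwa [e, inter_eq_right.2 a] at this

end Pool.Agent.Lib.MP_837412_lc.K
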