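import Pool.Agent.Lib.MP_837412_lc.WSt

/-!
Polynomials do not vanish on rapidly growing parameters.
-/

namespace Pool.Agent.Lib.MP_837412_lc.K

open Set Function MvPolynomial

namespace WDom

variable {c : ℝ} {M R n : ℕ} {v : ℕ → ℝ}

lemma le_of_mem (hc : 1 ≤ c) (hM : 1 ≤ M) (h : v ∈ Om c M R) {i j : ℕ} (hi : c ≤ v i)
    (hij : i ≤ j) (hj : j ≤ R) : v i ≤ v j := by
  induction j, hij using Nat.le_induction with
  | base => exact le_rfl
  | succ j _ ih =>
    have a := ih (by omega)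
    exact a.trans ((le_self_pow₀ (hc.trans (hi.trans a)) (by omega)).trans (h.2 j hj))

lemma c_le (hc : 1 ≤ c) (hM : 1 ≤ M) (h : v ∈ Om c M R) {j : ℕ} (hj : j ≤ R) : c ≤ v j :=
  h.1.trans (le_of_mem hc hM h h.1 j.zero_le hj)

lemma kr_mem {t : ℝ} (h : c ≤ t) : kr M t ∈ Om c M R :=
  ⟨by simpa [kr] using h, fun r _ => by rw [kr, kr, ← pow_mul, pow_succ]⟩

lemma dom (hc : 1 ≤ c) (h : v ∈ Om c (n + 1) R) {α β : Fin (R + 1) → ℕ} (hα : ∑ i, α i ≤ n)
    (r : Fin (R + 1)) (hr : α r < β r) (he : ∀ i, r < i → α i = β i) :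
    c * ∏ i : Fin (R + 1), v i ^ α i ≤ ∏ i : Fin (R + 1), v i ^ β i := by
  have h1 : ∀ i : Fin (R + 1), 1 ≤ v i := fun i =>
    hc.trans (c_le hc (by omega) h (Nat.lt_succ_iff.1 i.2))
  have h0 : ∀ i : Fin (R + 1), 0 ≤ v i := fun i => zero_le_one.trans (h1 i)
  have hA : c * ∏ i : Fin (R + 1) with i < r, v i ^ α i ≤ v r := by
    obtain ⟨_ | r, hr'⟩ := r
    · simpa [Fin.lt_def] using h.1
    · have a := c_le hc (by omega) h (j := r) (by omega)
      refine le_trans ?_ (h.2 r (by omega))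
      rw [pow_succ']
      refine mul_le_mul a ?_ (Finset.prod_nonneg fun i _ => pow_nonneg (h0 i) _)
        (by linarith)
      calc _ ≤ ∏ i : Fin (R + 1) with i < ⟨r + 1, hr'⟩, v r ^ α i :=
            Finset.prod_le_prod (fun i _ => pow_nonneg (h0 i) _) fun i hi =>
              pow_le_pow_left₀ (h0 i) (le_of_mem hc (by omega) h
                (c_le hc (by omega) h (Nat.lt_succ_iff.1 i.2))
                (Nat.lt_succ_iff.1 (Finset.mem_filter.1 hi).2) (by omega)) _
        _ ≤ _ := by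
            rw [Finset.prod_pow_eq_pow_sum]
            exact pow_le_pow_right₀ (hc.trans a)
              ((Finset.sum_le_sum_of_subset (Finset.filter_subset _ _)).trans hα)
  have hm : r ∈ Finset.univ.filter fun i => ¬i < r := by simp
  have hE : ∏ i ∈ (Finset.univ.filter fun i => ¬i < r).erase r, v i ^ α i =
      ∏ i ∈ (Finset.univ.filter fun i => ¬i < r).erase r, v i ^ β i :=
    Finset.prod_congr rfl fun i hi => by
      simp only [Finset.mem_erase, Finset.mem_filter, not_lt] at hi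
      rw [he i (lt_of_le_of_ne hi.2.2 hi.1.symm)]
  rw [← Finset.prod_filter_mul_prod_filter_not Finset.univ (· < r),
    ← Finset.prod_filter_mul_prod_filter_not Finset.univ (· < r) fun i => v i ^ β i,
    ← Finset.mul_prod_erase _ _ hm, ← Finset.mul_prod_erase _ _ hm, hE, ← mul_assoc, ← mul_assoc,
    ← mul_assoc]
  refine mul_le_mul_of_nonneg_right ?_ (Finset.prod_nonneg fun i _ => pow_nonneg (h0 i) _)
  calc _ ≤ v r * v r ^ α r := mul_le_mul_of_nonneg_right hA (pow_nonneg (h0 r) _)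
    _ ≤ v r ^ β r := by rw [← pow_succ']; exact pow_le_pow_right₀ (h1 r) hr
    _ ≤ _ := le_mul_of_one_le_left (pow_nonneg (h0 r) _)
        (Finset.one_le_prod fun i _ => one_le_pow₀ (h1 i))

lemma tri {α β : Fin (R + 1) → ℕ} (h : α ≠ β) :
    ∃ r, α r ≠ β r ∧ ∀ i, r < i → α i = β i := by
  obtain ⟨r, a, b⟩ := (Finset.univ.filter fun i => α i ≠ β i).exists_max_image id
    (by simpa [Finset.filter_nonempty_iff, ne_iff] using ne_iff.1 h)
  refine ⟨r, (Finset.mem_filter.1 a).2, fun i hi => by_contra fun d => ?_⟩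
  exact (b i (by simpa using d)).not_gt hi

lemma deg {g : MvPolynomial (Fin (R + 1)) ℂ} (h : g.totalDegree ≤ n) {α : Fin (R + 1) →₀ ℕ}
    (hα : α ∈ g.support) : ∑ i, α i ≤ n := by
  have := (le_totalDegree hα).trans h
  rwa [Finsupp.sum_fintype _ _ fun _ => rfl] at this

end WDom

open WDom

theorem omV : OmV := fun c M R hc hM => by
  refine ⟨fun v hv v' hv' a b ha hb hab => ⟨?_, fun r hr => ?_⟩, fun _ => kr_mem,
    fun v hv r hr => hc.trans (c_le hc hM hv hr), fun v hv l hl => ⟨?_, fun r hr => ?_⟩⟩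
  · exact convex_Ici c hv.1 hv'.1 ha hb hab
  · have p := c_le hc hM hv hr.le
    have p' := c_le hc hM hv' hr.le
    refine ((convexOn_pow M).2 (show 0 ≤ v r by linarith) (show 0 ≤ v' r by linarith)
      ha hb hab).trans ?_
    exact add_le_add (mul_le_mul_of_nonneg_left (hv.2 r hr) ha)
      (mul_le_mul_of_nonneg_left (hv'.2 r hr) hb)
  · rcases eq_or_ne 0 R with rfl | e
    · simpa using hv.1.trans hl
    · simpa [update_of_ne e] using hv.1
  · rw [update_of_ne hr.ne]
    rcases eq_or_ne (r + 1) R with rfl | e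
    · simpa using (hv.2 r hr).trans hl
    · simpa [update_of_ne e] using hv.2 r hr

theorem krV : KrV := by
  rintro R n M f ⟨g, hg, hf⟩ hM
  refine ⟨?_, fun γ hγ => ?_⟩
  · refine (IsP.sum g.support (f := fun α (t : ℝ) => coeff α g * (t : ℂ) ^ ∑ i, M ^ i.1 * α i)
      fun α hα => ((IsP.self.pow _).const_mul _).mono ?_).congr fun t => ?_
    · rw [mul_one, mul_comm]
      refine le_trans ?_ (Nat.mul_le_mul_left _ (deg hg hα))
      rw [Finset.mul_sum]
      exact Finset.sum_le_sum fun i _ => Nat.mul_le_mul_right _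
        (Nat.pow_le_pow_right hM (Nat.lt_succ_iff.1 i.2))
    · rw [hf, eval_eq']
      refine Finset.sum_congr rfl fun α _ => ?_
      simp [kr, ← pow_mul, Finset.prod_pow_eq_pow_sum]
  · simp only [hf]
    exact (continuous_eval g).comp (by fun_prop)

theorem domV : DomV := by
  rintro R n f ⟨g, hg, hf⟩ ⟨u, hu⟩
  have h0 : g ≠ 0 := by rintro rfl; simp [hf] at hu
  obtain ⟨β, hβ, hm⟩ := g.support.exists_max_image
    (fun α => ∏ i : Fin (R + 1), kr (n + 1) 2 i ^ α i) (support_nonempty.2 h0)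
  have hb : 0 < ‖coeff β g‖ := norm_pos_iff.2 (mem_support_iff.1 hβ)
  set S := ∑ α ∈ g.support.erase β, ‖coeff α g‖ with hS
  have hS0 : 0 ≤ S := Finset.sum_nonneg fun _ _ => norm_nonneg _
  have hc : 1 ≤ S / ‖coeff β g‖ + 1 := by have := div_nonneg hS0 hb.le; linarith
  refine ⟨_, hc, fun v hv e => ?_⟩
  set c := S / ‖coeff β g‖ + 1 with hc'
  have h1 : ∀ i : Fin (R + 1), 0 < v i := fun i =>
    one_pos.trans_le (hc.trans (c_le hc (by omega) hv (Nat.lt_succ_iff.1 i.2)))
  have hn : ∀ α : Fin (R + 1) →₀ ℕ, ‖coeff α g * ∏ i : Fin (R + 1), (v i : ℂ) ^ α i‖ =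
      ‖coeff α g‖ * ∏ i : Fin (R + 1), v i ^ α i := fun α => by
    simp [abs_of_pos (h1 _)]
  have hd : ∀ α ∈ g.support.erase β,
      c * ∏ i : Fin (R + 1), v i ^ α i ≤ ∏ i : Fin (R + 1), v i ^ β i := fun α hα => by
    obtain ⟨a, b⟩ := Finset.mem_erase.1 hα
    obtain ⟨r, p, q⟩ := tri (α := α) (β := β) fun d => a (DFunLike.coe_injective d)
    rcases p.lt_or_gt with p | p
    · exact dom hc hv (deg hg b) r p q
    · have s := dom one_le_two (kr_mem (le_refl (2 : ℝ))) (deg hg hβ) r p fun i hi => (q i hi).symm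
      have t := hm α b
      have : 0 < ∏ i : Fin (R + 1), kr (n + 1) 2 i ^ β i :=
        Finset.prod_pos fun i _ => by unfold kr; positivity
      linarith
  rw [hf, eval_eq', ← Finset.add_sum_erase _ _ hβ, add_eq_zero_iff_eq_neg] at e
  have hP : 0 < ∏ i : Fin (R + 1), v i ^ β i := Finset.prod_pos fun i _ => pow_pos (h1 i) _
  have e2 : c * (‖coeff β g‖ * ∏ i : Fin (R + 1), v i ^ β i) ≤
      S * ∏ i : Fin (R + 1), v i ^ β i := by
    rw [← hn, e, norm_neg, hS, Finset.sum_mul]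
    refine (mul_le_mul_of_nonneg_left (norm_sum_le _ _) (by linarith)).trans ?_
    rw [Finset.mul_sum]
    refine Finset.sum_le_sum fun α hα => ?_
    rw [hn, mul_left_comm]
    exact mul_le_mul_of_nonneg_left (hd α hα) (norm_nonneg _)
  rw [← mul_assoc, hc', add_mul, div_mul_cancel₀ _ hb.ne', one_mul] at e2
  have := le_of_mul_le_mul_right e2 hP
  linarith

end Pool.Agent.Lib.MP_837412_lc.K
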