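import Pool.Agent.Lib.MP_837412_lc.WSt
import Pool.Agent.Lib.MP_837412_lc.KPort

/-!
Homogenisation of sign sets, and the cell of the join inside a cylinder.
-/

namespace Pool.Agent.Lib.MP_837412_lc.K

open Set Function Filter Topology MvPolynomial

namespace WHom

variable {k s d : ℕ}

lemma sum_le {p : MvPolynomial (Fin k) ℝ} (h : p.totalDegree ≤ d) {α : Fin k →₀ ℕ}
    (hα : coeff α p ≠ 0) : ∑ i, α i ≤ d := by
  have := (le_totalDegree (mem_support_iff.2 hα)).trans h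
  rwa [Finsupp.sum_fintype _ _ fun _ => rfl] at this

lemma deg_hg {p : MvPolynomial (Fin k) ℝ} (h : p.totalDegree ≤ d) : (hg d p).totalDegree ≤ d := by
  refine (totalDegree_finsetSum _ _).trans (Finset.sup_le fun α _ => ?_)
  by_cases e : coeff α p = 0
  · simp [e]
  · have := sum_le h e
    refine (totalDegree_monomial_le _ _).trans ?_
    rw [Finsupp.sum_fintype _ _ fun _ => rfl, Fin.sum_univ_succ]
    simp only [Finsupp.cons_zero, Finsupp.cons_succ, id]
    omega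

lemma eval_hg {p : MvPolynomial (Fin k) ℝ} (h : p.totalDegree ≤ d) {z : Fin (k + 1) → ℝ}
    (hz : z 0 ≠ 0) : eval z (hg d p) = z 0 ^ d * eval (fun i => z i.succ / z 0) p := by
  rw [hg, map_sum, eval_eq', Finset.sum_subset (support_subset_box h) fun α _ hα => by
    rw [notMem_support_iff.1 hα, zero_mul], Finset.mul_sum]
  refine Finset.sum_congr rfl fun α _ => ?_
  by_cases e : coeff α p = 0
  · simp [e]
  obtain ⟨r, rfl⟩ := Nat.exists_eq_add_of_le (sum_le h e)
  rw [eval_monomial, Finsupp.prod_fintype _ _ fun _ => pow_zero _, Fin.prod_univ_succ]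
  simp only [Finsupp.cons_zero, Finsupp.cons_succ, add_tsub_cancel_left, div_pow,
    Finset.prod_div_distrib, Finset.prod_pow_eq_pow_sum, pow_add]
  field_simp

lemma deg_ss : (∑ i, X i ^ 2 : MvPolynomial (Fin (k + 1)) ℝ).totalDegree ≤ 2 :=
  (totalDegree_finsetSum _ _).trans (Finset.sup_le fun i _ => (totalDegree_X_pow i 2).le)

/-- The embedding into the sphere. -/
noncomputable def ph (k : ℕ) : C(Fin k → ℝ, Fin (k + 1) → ℝ) where
  toFun x := Fin.cons (1 + ∑ i, x i ^ 2)⁻¹ fun i => x i * (1 + ∑ i, x i ^ 2)⁻¹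
  continuous_toFun := by
    have : Continuous fun x : Fin k → ℝ => (1 + ∑ i, x i ^ 2)⁻¹ :=
      Continuous.inv₀ (by fun_prop) fun x => by positivity
    refine continuous_pi fun i => ?_
    refine Fin.cases ?_ (fun i => ?_) i
    · exact this
    · exact (continuous_apply i).mul this

lemma ph_zero (x : Fin k → ℝ) : ph k x 0 = (1 + ∑ i, x i ^ 2)⁻¹ := rfl

lemma ph_succ (x : Fin k → ℝ) (i : Fin k) : ph k x i.succ = x i * ph k x 0 := rfl

lemma ph_pos (x : Fin k → ℝ) : 0 < ph k x 0 := by rw [ph_zero]; positivity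

lemma ph_inv (x : Fin k → ℝ) : (fun i : Fin k => ph k x i.succ / ph k x 0) = x :=
  funext fun i => by rw [ph_succ, mul_div_cancel_right₀ _ (ph_pos x).ne']

lemma ph_sum (x : Fin k → ℝ) : ∑ i, ph k x i ^ 2 = ph k x 0 := by
  have : (1 + ∑ i, x i ^ 2) ≠ 0 := by positivity
  simp only [Fin.sum_univ_succ, ph_succ, mul_pow, ← Finset.sum_mul, ph_zero]
  field_simp

lemma ph_eq {z : Fin (k + 1) → ℝ} (h0 : 0 < z 0) (h : ∑ i, z i ^ 2 = z 0) :
    ph k (fun i => z i.succ / z 0) = z := by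
  have e : ph k (fun i => z i.succ / z 0) 0 = z 0 := by
    rw [Fin.sum_univ_succ] at h
    rw [ph_zero]
    simp only [div_pow, ← Finset.sum_div]
    rw [eq_sub_of_add_eq' h]
    field_simp
    ring
  funext i
  refine Fin.cases e (fun i => ?_) i
  rw [ph_succ, e, div_mul_cancel₀ _ h0.ne']

lemma ph_emb : IsEmbedding (ph k) := by
  let f : (Fin k → ℝ) → {z : Fin (k + 1) → ℝ // 0 < z 0} := fun x => ⟨ph k x, ph_pos x⟩
  have : IsEmbedding f := by
    refine LeftInverse.isEmbedding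
      (f := fun (z : {z : Fin (k + 1) → ℝ // 0 < z 0}) (i : Fin k) => z.1 i.succ / z.1 0)
      (fun x => ph_inv x) ?_ ((ph k).continuous.subtype_mk _)
    exact continuous_pi fun i => ((continuous_apply _).comp continuous_subtype_val).div
      ((continuous_apply _).comp continuous_subtype_val) fun z => z.2.ne'
  exact IsEmbedding.subtypeVal.comp this

lemma pat_iff (P : Fin s → MvPolynomial (Fin k) ℝ) (π : Fin s → SignType) (z : Fin (k + 1) → ℝ) :
    pat π = {q | 0 < eval z (hf d P q)} ↔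
      0 < z 0 ∧ ∑ i, z i ^ 2 = z 0 ∧ ∀ j, π j = SignType.sign (eval z (hg d (P j))) := by
  have e : pat π = {q | 0 < eval z (hf d P q)} ↔
      (∀ j, (π j = 1 ↔ 0 < eval z (hg d (P j))) ∧ (π j = -1 ↔ eval z (hg d (P j)) < 0)) ∧
      0 < z 0 ∧ ∑ i, z i ^ 2 ≤ z 0 ∧ z 0 ≤ ∑ i, z i ^ 2 := by
    rw [Set.ext_iff]
    constructor
    · intro h
      refine ⟨fun j => ⟨h (.inl (j, true)), (h (.inl (j, false))).trans ?_⟩, ?_, ?_, ?_⟩
      · simp [hf]
      · simpa [hf] using (h (.inr none)).1 trivial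
      · simpa [hf] using mt (h (.inr (some true))).2 id
      · simpa [hf] using mt (h (.inr (some false))).2 id
    · rintro ⟨h, a, b, c⟩ (⟨j, _ | _⟩ | _ | _ | _)
      · exact (h j).2.trans (by simp [hf])
      · exact (h j).1
      · exact iff_of_true trivial (by simpa [hf] using a)
      · exact iff_of_false id (by simpa [hf] using c)
      · exact iff_of_false id (by simpa [hf] using b)
  rw [e]
  constructor
  · rintro ⟨h, a, b, c⟩
    refine ⟨a, le_antisymm b c, fun j => ?_⟩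
    obtain ⟨h1, h2⟩ := h j
    rcases lt_trichotomy (eval z (hg d (P j))) 0 with t | t | t
    · rw [h2.2 t, sign_neg t]
    · rw [t, lt_self_iff_false] at h1 h2
      rw [t, sign_zero]
      rcases (π j).trichotomy with u | u | u
      · exact (h2.1 u).elim
      · exact u
      · exact (h1.1 u).elim
    · rw [h1.2 t, sign_pos t]
  · rintro ⟨a, b, h⟩
    exact ⟨fun j => by rw [h j]; exact ⟨sign_eq_one_iff, sign_eq_neg_one_iff⟩, a, b.le, b.ge⟩

lemma sign_hg {p : MvPolynomial (Fin k) ℝ} (h : p.totalDegree ≤ d) {z : Fin (k + 1) → ℝ}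
    (hz : 0 < z 0) :
    SignType.sign (eval z (hg d p)) = SignType.sign (eval (fun i => z i.succ / z 0) p) := by
  rw [eval_hg h hz.ne', sign_mul, sign_pos (pow_pos hz d), one_mul]

lemma ps_eq {N : ℕ} {P : Fin s → MvPolynomial (Fin k) ℝ} (e : Fin N → Fin s → SignType)
    (h : ∀ j, (P j).totalDegree ≤ d) :
    (Ps (hf d P) fun c => pat (e c)) = ph k '' signSet P (range e) := by
  ext z
  constructor
  · rintro ⟨c, hc⟩
    obtain ⟨a, b, u⟩ := (pat_iff P (e c) z).1 hc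
    refine ⟨fun i => z i.succ / z 0, ⟨c, funext fun j => ?_⟩, ph_eq a b⟩
    rw [u j, sign_hg (h j) a]
  · rintro ⟨x, ⟨c, hc⟩, rfl⟩
    refine ⟨c, (pat_iff P (e c) _).2 ⟨ph_pos x, ph_sum x, fun j => ?_⟩⟩
    rw [sign_hg (h j) (ph_pos x), ph_inv, hc]

end WHom

variable [Coef]

open WHom in
theorem homV : HomV := by
  intro k s d N P e h
  refine ⟨?_, ⟨Metric.closedBall 0 2, isCompact_closedBall _ _, fun c y hy => ?_⟩, fun j => ?_⟩
  · have x0 : (X 0 : MvPolynomial (Fin (k + 1)) ℝ).totalDegree ≤ 2 :=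
      (totalDegree_X 0).le.trans one_le_two
    rintro (⟨j, _ | _⟩ | _ | _ | _)
    · exact (totalDegree_neg _).le.trans ((deg_hg (h j)).trans (Nat.le_add_right _ _))
    · exact (deg_hg (h j)).trans (Nat.le_add_right _ _)
    · exact x0.trans (Nat.le_add_left _ _)
    · exact ((totalDegree_sub _ _).trans (max_le x0 deg_ss)).trans (Nat.le_add_left _ _)
    · exact ((totalDegree_sub _ _).trans (max_le deg_ss x0)).trans (Nat.le_add_left _ _)
  · have a : ∑ i, y i ^ 2 - y 0 < 1 := by simpa [hf] using (hy (.inr (some true))).2 id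
    have b : ∀ i, y i ^ 2 ≤ ∑ i, y i ^ 2 := fun i =>
      Finset.single_le_sum (f := fun i => y i ^ 2) (fun _ _ => sq_nonneg _) (Finset.mem_univ i)
    have c : y 0 ≤ 2 := by nlinarith [b 0]
    rw [mem_closedBall_zero_iff, pi_norm_le_iff_of_nonneg zero_le_two]
    intro i
    rw [Real.norm_eq_abs]
    exact abs_le_of_sq_le_sq' (by linarith [b i]) zero_le_two |> abs_le.2
  · rw [ps_eq e h, ← hs_image ph_emb (signSet P (range e)), image_empty]

open JBig JJoin in
theorem bigV (h : PsiS) : BigV := by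
  intro σ τ ι _ _ _ _
  refine ⟨fun A j => (hs_preimage (spl σ ι) (Prod.fst ⁻¹' A) ∅ j).trans (KPort.prod_eq A j),
    fun N p => ?_⟩
  have hg := continuous_gm p
  have g1 : ∀ q, 0 < gm p q → q.1 ∈ ⋃ a, cell (p a) fun _ => 1 := fun q hq => by
    obtain ⟨a, ha⟩ := (h τ N _).1 _ (gm_pos.1 hq)
    exact mem_iUnion.2 ⟨a, mem_cell.2 ha⟩
  have g2 : ∀ a : Fin N, ∀ y ∈ cell (p a) fun _ => 1, 0 < gm p (y, ((a : ℕ) : ℝ)) :=
    fun a y hy => gm_pos.2 ((h τ N _).2 a (mem_cell.1 hy))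
  have g3 : ∀ a, IsOpen (cell (p a) fun _ => 1) := fun a => by
    have : (cell (p a) fun _ => 1) = ⋂ l, {y | 0 < MvPolynomial.eval y (p a l)} :=
      Set.ext fun y => by simp only [mem_cell, mem_iInter, mem_ofPred_eq]
    rw [this]
    exact isOpen_iInter_of_finite fun l =>
      isOpen_lt continuous_const (MvPolynomial.continuous_eval _)
  rw [cell_big]
  generalize gm p = g at hg g1 g2 ⊢
  have s1 : {q : (σ → ℝ) × (ι → ℝ × ℝ) | 0 < ∑ i, (q.2 i).2 ^ 2 * g (q.1, (q.2 i).1)} ⊆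
      {q | ∃ i, 0 < (q.2 i).2 ^ 2 * g (q.1, (q.2 i).1)} := fun q hq => by
    by_contra hn
    exact (Finset.sum_nonpos fun i _ => not_lt.1 fun a => hn ⟨i, a⟩).not_gt hq
  have s2 : {q : (σ → ℝ) × (ι → ℝ × ℝ) | ∃ i, 0 < (q.2 i).2 ^ 2 * g (q.1, (q.2 i).1)} ⊆
      Prod.fst ⁻¹' ⋃ a, cell (p a) fun _ => 1 := fun q ⟨i, hi⟩ =>
    g1 (q.1, (q.2 i).1) (pos_of_mul_pos_right hi (sq_nonneg _))
  refine ⟨fun z hz => s2 (s1 hz), fun j hj => ?_⟩
  have key := KPort.lemB (ι := ι) (W := {q : (σ → ℝ) × ℝ × ℝ | 0 < q.2.2 ^ 2 * g (q.1, q.2.1)}) g3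
    (isOpen_lt continuous_const (by fun_prop))
    (fun a => ⟨(((a : ℕ) : ℝ), 1), fun y hy => mul_pos (pow_pos one_pos 2) (g2 a y hy)⟩)
    Finset.univ _ (isOpen_iUnion g3) (by simp) j hj
  rw [show ⋃ i, Aw {q : (σ → ℝ) × ℝ × ℝ | 0 < q.2.2 ^ 2 * g (q.1, q.2.1)} i =
    {q : (σ → ℝ) × (ι → ℝ × ℝ) | ∃ i, 0 < (q.2 i).2 ^ 2 * g (q.1, (q.2 i).1)} from
      Set.ext fun _ => mem_iUnion, inter_eq_right.2 s2] at key
  refine (hs_preimage (spl σ ι) (Prod.fst ⁻¹' ⋃ a, cell (p a) fun _ => 1) _ j).trans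
    (le_zero_iff.1 ((hs_le s1 s2).trans_eq ?_))
  rw [key, scaleS (σ → ℝ) ι g hg j, add_zero]

end Pool.Agent.Lib.MP_837412_lc.K
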