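import Pool.Agent.Lib.MP_837412_lc.WSt

/-!
The approximation with several levels is highly connected in the open neighbourhood.
-/

namespace Pool.Agent.Lib.MP_837412_lc.K

open Set Function Filter Topology
open Pool.Agent.Shared.Mod2 (I)

namespace WLev

variable {Y τ ι : Type} [TopologicalSpace Y] {w : τ → Y → ℝ}

lemma isOpen_Ub [Finite τ] (hw : Sc w) (A : Set τ) (l h : ℝ) : IsOpen (Ub w A l h) := by
  have e : Ub w A l h = ⋂ q, {y | (q ∈ A → h < w q y) ∧ (q ∉ A → w q y < l)} := by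
    ext y
    simp [Ub]
  rw [e]
  refine isOpen_iInter_of_finite fun q => ?_
  by_cases hq : q ∈ A
  · simpa [hq] using isOpen_lt continuous_const (hw.cont q)
  · simpa [hq] using isOpen_lt (hw.cont q) continuous_const

/-- The straight path to a monotone map. -/
lemma flow (hw : Sc w) {φ : ℝ → ℝ} (c : Continuous φ) (m : Mo φ) : ∃ H : C(I × Y, Y),
    (∀ y, H (0, y) = y) ∧ (∀ q y, w q (H (1, y)) = φ (w q y)) ∧
    ∀ A l h, (∀ s, h < s → h < φ s) → (∀ s, s < l → φ s < l) →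
      ∀ t, ∀ y ∈ Ub w A l h, H (t, y) ∈ Ub w A l h := by
  obtain ⟨H, h0, h1⟩ := hw.act (fun t s => (1 - (t : ℝ)) * s + t * φ s) (by
    unfold uncurry; fun_prop) (fun t => ⟨fun a b hab => add_le_add
      (mul_le_mul_of_nonneg_left hab (sub_nonneg.2 t.2.2)) (mul_le_mul_of_nonneg_left (m.1 hab) t.2.1),
      by simp [m.2.1], by simp [m.2.2]⟩) (fun s => by simp)
  refine ⟨H, h0, fun q y => by simp [h1], fun A l h a b t y hy q => ⟨fun hq => ?_, fun hq => ?_⟩⟩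
  · have h2 := (hy q).1 hq
    rw [h1]
    exact (convex_Ioi h) h2 (a _ h2) (sub_nonneg.2 t.2.2) t.2.1 (by ring)
  · have h2 := (hy q).2 hq
    rw [h1]
    exact (convex_Iio l) h2 (b _ h2) (sub_nonneg.2 t.2.2) t.2.1 (by ring)

lemma up [Finite τ] (hw : Sc w) {K : Set Y} (hK : IsCompact K) {A : Set τ} {l h o : ℝ}
    (hA : K ⊆ Ub w A l h) (hl : l ≤ h) (h0 : 0 ≤ h) (ho : h < o) (h1 : o ≤ 1) :
    ∃ H : C(I × Y, Y), (∀ y, H (0, y) = y) ∧
      (∀ y ∈ K, ∀ l' h', l ≤ l' → h' < o → H (1, y) ∈ Ub w A l' h') ∧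
      ∀ A' l' h', l' ≤ h ∨ o < l' → ∀ t, ∀ y ∈ Ub w A' l' h', H (t, y) ∈ Ub w A' l' h' := by
  have ev : ∀ᶠ k in 𝓝[>] h, ∀ q, q ∈ A → ∀ y ∈ K, k ≤ w q y := eventually_all.2 fun q => by
    by_cases hq : q ∈ A
    · obtain ⟨a, a1, a2⟩ := hK.exists_forall_le' (hw.cont q).continuousOn
        fun y hy => (hA hy q).1 hq
      filter_upwards [Ioo_mem_nhdsGT a1] with k hk _ y hy using hk.2.le.trans (a2 y hy)
    · exact .of_forall fun _ a => absurd a hq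
  obtain ⟨k, hk, hk'⟩ := (ev.and self_mem_nhdsWithin).exists
  have k0 : 0 < k - h := sub_pos.2 hk'
  obtain ⟨L, L1, L2⟩ : ∃ L : ℝ, 1 ≤ L ∧ o ≤ h + L * (k - h) := by
    have := div_pos (sub_pos.2 ho) k0
    refine ⟨1 + (o - h) / (k - h), by linarith, ?_⟩
    rw [add_mul, div_mul_cancel₀ _ k0.ne']
    linarith
  have mo : Monotone fun s : ℝ => h + L * (s - h) := fun a b hab =>
    add_le_add le_rfl (mul_le_mul_of_nonneg_left (by linarith) (by linarith))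
  have fix : ∀ s, s ≤ h → max s (min (h + L * (s - h)) o) = s := fun s hs =>
    max_eq_left (min_le_of_left_le (by nlinarith))
  obtain ⟨H, a0, a1, a2⟩ := flow hw (φ := fun s => max s (min (h + L * (s - h)) o)) (by fun_prop)
    ⟨monotone_id.max (mo.min monotone_const), fix 0 h0, max_eq_left (min_le_of_right_le h1)⟩
  refine ⟨H, a0, fun y hy l' h' b1 b2 q => ⟨fun hq => ?_, fun hq => ?_⟩, fun A' l' h' b =>
    a2 A' l' h' (fun s hs => lt_max_of_lt_left hs) fun s hs => ?_⟩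
  · rw [a1]
    exact lt_max_of_lt_right (lt_min (b2.trans_le (L2.trans (mo (hk q hq y hy)))) b2)
  · have := (hA hy q).2 hq
    rw [a1, fix _ (by linarith)]
    linarith
  · rcases b with b | b
    · rw [fix _ (by linarith)]
      exact hs
    · exact max_lt hs (min_lt_of_right_lt b)

lemma down [Finite τ] (hw : Sc w) {K : Set Y} (hK : IsCompact K) {A : Set τ} {l h o : ℝ}
    (hA : K ⊆ Ub w A l h) (hl : l ≤ h) (h0 : 0 ≤ o) (ho : o < l) (h1 : l ≤ 1) :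
    ∃ H : C(I × Y, Y), (∀ y, H (0, y) = y) ∧
      (∀ y ∈ K, ∀ l' h', o < l' → h' ≤ h → H (1, y) ∈ Ub w A l' h') ∧
      ∀ A' l' h', l ≤ h' ∨ h' < o → ∀ t, ∀ y ∈ Ub w A' l' h', H (t, y) ∈ Ub w A' l' h' := by
  have ev : ∀ᶠ k in 𝓝[<] l, ∀ q, q ∉ A → ∀ y ∈ K, w q y ≤ k := eventually_all.2 fun q => by
    by_cases hq : q ∈ A
    · exact .of_forall fun _ a => absurd hq a
    · obtain ⟨a, a1, a2⟩ := hK.exists_forall_le' (hw.cont q).neg.continuousOn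
        fun y hy => neg_lt_neg ((hA hy q).2 hq)
      filter_upwards [Ioo_mem_nhdsLT (neg_lt.1 a1)] with k hk _ y hy
      have h3 : a ≤ -w q y := a2 y hy
      linarith [hk.1]
  obtain ⟨k, hk, hk'⟩ := (ev.and self_mem_nhdsWithin).exists
  have k0 : 0 < l - k := sub_pos.2 hk'
  obtain ⟨L, L1, L2⟩ : ∃ L : ℝ, 1 ≤ L ∧ l + L * (k - l) ≤ o := by
    have := div_pos (sub_pos.2 ho) k0
    refine ⟨1 + (l - o) / (l - k), by linarith, ?_⟩
    rw [← neg_sub l k, mul_neg, add_mul, div_mul_cancel₀ _ k0.ne']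
    linarith
  have mo : Monotone fun s : ℝ => l + L * (s - l) := fun a b hab =>
    add_le_add le_rfl (mul_le_mul_of_nonneg_left (by linarith) (by linarith))
  have fix : ∀ s, l ≤ s → min s (max (l + L * (s - l)) o) = s := fun s hs =>
    min_eq_left (le_max_of_le_left (by nlinarith))
  obtain ⟨H, a0, a1, a2⟩ := flow hw (φ := fun s => min s (max (l + L * (s - l)) o)) (by fun_prop)
    ⟨monotone_id.min (mo.max monotone_const), min_eq_left (le_max_of_le_right h0), fix 1 h1⟩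
  refine ⟨H, a0, fun y hy l' h' b1 b2 q => ⟨fun hq => ?_, fun hq => ?_⟩, fun A' l' h' b =>
    a2 A' l' h' (fun s hs => ?_) fun s hs => min_lt_of_left_lt hs⟩
  · have := (hA hy q).1 hq
    rw [a1, fix _ (by linarith)]
    linarith
  · rw [a1]
    exact min_lt_of_right_lt (max_lt (((mo (hk q hq y hy)).trans L2).trans_lt b1) b1)
  · rcases b with b | b
    · rw [fix _ (by linarith)]
      exact hs
    · exact lt_min hs (lt_max_of_lt_right b)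

/-- One level. -/
def Lv (w : τ → Y → ℝ) (𝒜 : Set (Set τ)) (l h : ℝ) : Set Y := ⋃ A ∈ 𝒜, Ub w A l h

/-- The set given by a family of anchors. -/
def An (w : τ → Y → ℝ) (a : Set (Set τ × ℝ × ℝ)) : Set Y := ⋂ r ∈ a, Ub w r.1 r.2.1 r.2.2

lemma isOpen_Lv [Finite τ] (hw : Sc w) (𝒜 : Set (Set τ)) (l h : ℝ) : IsOpen (Lv w 𝒜 l h) :=
  isOpen_biUnion fun _ _ => isOpen_Ub hw _ _ _

lemma exists_above {S : Set ℝ} (hS : S.Finite) {d e : ℝ} (h : d < e) :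
    ∃ o, d < o ∧ o < e ∧ ∀ x ∈ S, d < x → o < x := by
  have ev : ∀ᶠ o in 𝓝[>] d, ∀ x ∈ S, d < x → o < x := (eventually_all_finite hS).2 fun x _ => by
    by_cases hx : d < x
    · filter_upwards [Ioo_mem_nhdsGT hx] with o a _ using a.2
    · exact .of_forall fun _ a => absurd a hx
  obtain ⟨o, a, b⟩ := (ev.and (Ioo_mem_nhdsGT h)).exists
  exact ⟨o, b.1, b.2, a⟩

lemma exists_below {S : Set ℝ} (hS : S.Finite) {d e : ℝ} (h : e < d) :
    ∃ o, o < d ∧ e < o ∧ ∀ x ∈ S, x < d → x < o := by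
  have ev : ∀ᶠ o in 𝓝[<] d, ∀ x ∈ S, x < d → x < o := (eventually_all_finite hS).2 fun x _ => by
    by_cases hx : x < d
    · filter_upwards [Ioo_mem_nhdsLT hx] with o a _ using a.1
    · exact .of_forall fun _ a => absurd a hx
  obtain ⟨o, a, b⟩ := (ev.and (Ioo_mem_nhdsLT h)).exists
  exact ⟨o, b.2, b.1, a⟩

variable {𝒜 : Set (Set τ)} {lo hi : ι → ℝ}

/-- An anchor is expanded over a nearest level. -/
lemma expand [Finite τ] (hw : Sc w) (hb : ∀ i, 0 < lo i ∧ lo i ≤ hi i ∧ hi i < 1)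
    (hd : ∀ i i', i ≠ i' → hi i < lo i' ∨ hi i' < lo i) {s : Finset ι} (hs : s.Nonempty)
    {a : Set (Set τ × ℝ × ℝ)} (af : a.Finite) (an : a.Nonempty)
    (ha : ∀ r ∈ a, r.1 ∈ 𝒜 ∧ 0 < r.2.1 ∧ r.2.1 ≤ r.2.2 ∧ r.2.2 < 1 ∧
      ∀ i ∈ s, r.2.2 < lo i ∨ hi i < r.2.1) :
    ∃ i₀ ∈ s, ∀ K, IsCompact K → K ⊆ An w a → ∃ H : C(I × Y, Y), (∀ y, H (0, y) = y) ∧
      (∀ y ∈ K, H (1, y) ∈ Lv w 𝒜 (lo i₀) (hi i₀)) ∧ (∀ t, ∀ y ∈ An w a, H (t, y) ∈ An w a) ∧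
      ∀ i ∈ s, i ≠ i₀ → ∀ t, ∀ y ∈ Lv w 𝒜 (lo i) (hi i), H (t, y) ∈ Lv w 𝒜 (lo i) (hi i) := by
  have fin : (a ×ˢ (s : Set ι)).Finite := af.prod s.finite_toSet
  by_cases hu : {p ∈ a ×ˢ (s : Set ι) | p.1.2.2 < lo p.2}.Nonempty
  · obtain ⟨⟨r, i₀⟩, ⟨⟨hr, hi₀⟩, hlt⟩, hm⟩ := exists_min_image _
      (fun p : (Set τ × ℝ × ℝ) × ι => lo p.2 - p.1.2.2) (fin.subset (sep_subset _ _)) hu
    dsimp only at hr hi₀ hlt hm
    obtain ⟨o, o1, o2, o3⟩ := exists_above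
      ((af.image fun r => r.2.1).union (s.finite_toSet.image lo)) (hb i₀).2.2
    obtain ⟨r1, r2, r3, r4, r5⟩ := ha r hr
    have b₀ := hb i₀
    refine ⟨i₀, hi₀, fun K hK hA => ?_⟩
    obtain ⟨H, a0, a1, a2⟩ := up hw hK (o := o) (fun y hy => mem_iInter₂.1 (hA hy) r hr) r3
      (by linarith) (by linarith) o2.le
    refine ⟨H, a0, fun y hy => mem_iUnion₂.2 ⟨r.1, r1, a1 y hy _ _ (by linarith) o1⟩,
      fun t y hy => mem_iInter₂.2 fun r' hr' => a2 _ _ _ ?_ t y (mem_iInter₂.1 hy r' hr'),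
      fun i his hne t y hy => ?_⟩
    · obtain ⟨-, -, c3, -, c5⟩ := ha r' hr'
      rcases c5 i₀ hi₀ with c | c
      · have := hm (r', i₀) ⟨⟨hr', hi₀⟩, c⟩
        dsimp only at this
        exact Or.inl (by linarith)
      · exact Or.inr (o3 _ (Or.inl ⟨r', hr', rfl⟩) c)
    · obtain ⟨A, hA', hy⟩ := mem_iUnion₂.1 hy
      refine mem_iUnion₂.2 ⟨A, hA', a2 _ _ _ ?_ t y hy⟩
      have b := hb i
      rcases hd i i₀ hne with c | c
      · rcases r5 i his with d | d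
        · have := hm (r, i) ⟨⟨hr, his⟩, d⟩
          dsimp only at this
          linarith
        · exact Or.inl (by linarith)
      · exact Or.inr (o3 _ (Or.inr ⟨i, his, rfl⟩) c)
  · have hu' : ∀ r ∈ a, ∀ i ∈ s, hi i < r.2.1 := fun r hr i his =>
      ((ha r hr).2.2.2.2 i his).resolve_left fun c => hu ⟨(r, i), ⟨hr, his⟩, c⟩
    obtain ⟨r, hr, hm⟩ := exists_min_image a (fun r => r.2.1) af an
    obtain ⟨i₀, hi₀, hm'⟩ := s.exists_max_image hi hs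
    obtain ⟨o, o1, o2, o3⟩ := exists_below (s.finite_toSet.image hi) (hb i₀).1
    obtain ⟨r1, r2, r3, r4, -⟩ := ha r hr
    have b₀ := hb i₀
    have hlt := hu' r hr i₀ hi₀
    refine ⟨i₀, hi₀, fun K hK hA => ?_⟩
    obtain ⟨H, a0, a1, a2⟩ := down hw hK (o := o) (fun y hy => mem_iInter₂.1 (hA hy) r hr) r3
      o2.le (by linarith) (by linarith)
    refine ⟨H, a0, fun y hy => mem_iUnion₂.2 ⟨r.1, r1, a1 y hy _ _ o1 (by linarith)⟩,
      fun t y hy => mem_iInter₂.2 fun r' hr' => a2 _ _ _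
        (Or.inl ((hm r' hr').trans (ha r' hr').2.2.1)) t y (mem_iInter₂.1 hy r' hr'),
      fun i his hne t y hy => ?_⟩
    obtain ⟨A, hA', hy⟩ := mem_iUnion₂.1 hy
    refine mem_iUnion₂.2 ⟨A, hA', a2 _ _ _ (Or.inr (o3 _ ⟨i, his, rfl⟩ ?_)) t y hy⟩
    have b := hb i
    have := hm' i his
    rcases hd i i₀ hne with c | c
    · exact c
    · linarith

variable [Coef]

/-- The anchor lemma. -/
lemma anchor [Finite τ] (h1 : CovV) (hw : Sc w) (hb : ∀ i, 0 < lo i ∧ lo i ≤ hi i ∧ hi i < 1)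
    (hd : ∀ i i', i ≠ i' → hi i < lo i' ∨ hi i' < lo i) (n : ℕ) :
    ∀ s : Finset ι, s.card = n → ∀ a : Set (Set τ × ℝ × ℝ), a.Finite → a.Nonempty →
      (∀ r ∈ a, r.1 ∈ 𝒜 ∧ 0 < r.2.1 ∧ r.2.1 ≤ r.2.2 ∧ r.2.2 < 1 ∧
        ∀ i ∈ s, r.2.2 < lo i ∨ hi i < r.2.1) →
      ∀ j ≤ n, hs (An w a) (An w a ∩ ⋃ i ∈ s, Lv w 𝒜 (lo i) (hi i)) j = 0 := by
  classical
  induction n with
  | zero =>
    intro s _ a _ _ _ j hj
    obtain rfl : j = 0 := by omega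
    exact hs_zero _ _
  | succ n ih =>
    intro s hs a af an ha j hj
    obtain ⟨i₀, hi₀, mv⟩ := expand hw hb hd (Finset.card_pos.1 (by omega)) af an ha
    have oX : IsOpen (An w a) := af.isOpen_biInter fun _ _ => isOpen_Ub hw _ _ _
    have oA : IsOpen (⋃ i ∈ s.erase i₀, Lv w 𝒜 (lo i) (hi i)) :=
      isOpen_biUnion fun i _ => isOpen_Lv hw _ _ _
    have e : An w a ∩ ⋃ i ∈ s, Lv w 𝒜 (lo i) (hi i) = An w a ∩ Lv w 𝒜 (lo i₀) (hi i₀) ∪
        An w a ∩ ⋃ i ∈ s.erase i₀, Lv w 𝒜 (lo i) (hi i) := by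
      rw [← inter_union_distrib_left, ← Finset.set_biUnion_insert i₀ (s.erase i₀)
        fun i => Lv w 𝒜 (lo i) (hi i), Finset.insert_erase hi₀]
    rw [e]
    have h2 : K.hs (An w a ∩ Lv w 𝒜 (lo i₀) (hi i₀) ∪
        An w a ∩ ⋃ i ∈ s.erase i₀, Lv w 𝒜 (lo i) (hi i))
        (An w a ∩ ⋃ i ∈ s.erase i₀, Lv w 𝒜 (lo i) (hi i)) (j - 1) = 0 := by
      rw [exc (oX.inter (isOpen_Lv hw _ _ _)) (oX.inter oA)]
      have e2 : An w a ∩ Lv w 𝒜 (lo i₀) (hi i₀) ∩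
          (An w a ∩ ⋃ i ∈ s.erase i₀, Lv w 𝒜 (lo i) (hi i)) =
          An w a ∩ Lv w 𝒜 (lo i₀) (hi i₀) ∩ ⋃ i ∈ s.erase i₀, Lv w 𝒜 (lo i) (hi i) := by
        ext q; simp only [mem_inter_iff]; tauto
      have e3 : An w a ∩ Lv w 𝒜 (lo i₀) (hi i₀) =
          ⋃ b : 𝒜, An w a ∩ Ub w b (lo i₀) (hi i₀) := by
        rw [← inter_iUnion, Lv, biUnion_eq_iUnion]
      rw [e2, e3]
      refine h1 Y 𝒜 _ _ n (fun b => oX.inter (isOpen_Ub hw _ _ _)) (fun t ht k hk => ?_) _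
        (by omega)
      have e4 : ⋂ b ∈ t, An w a ∩ Ub w b.1 (lo i₀) (hi i₀) =
          An w (a ∪ (fun b : 𝒜 => (b.1, lo i₀, hi i₀)) '' t) := by
        obtain ⟨b₀, hb₀⟩ := ht
        rw [An, An, biInter_union, biInter_image]
        ext y
        simp only [mem_iInter, mem_inter_iff, Finset.mem_coe]
        exact ⟨fun h => ⟨(h b₀ hb₀).1, fun b c => (h b c).2⟩, fun h b c => ⟨h.1, h.2 b c⟩⟩
      rw [e4]
      refine ih _ (by rw [Finset.card_erase_of_mem hi₀]; omega) _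
        (af.union (t.finite_toSet.image _)) (an.mono subset_union_left) ?_ k hk
      rintro r (hr | ⟨b, -, rfl⟩)
      · obtain ⟨c1, c2, c3, c4, c5⟩ := ha r hr
        exact ⟨c1, c2, c3, c4, fun i c => c5 i (Finset.mem_of_mem_erase c)⟩
      · exact ⟨b.2, (hb i₀).1, (hb i₀).2.1, (hb i₀).2.2,
          fun i c => hd i₀ i (Finset.ne_of_mem_erase c).symm⟩
    refine hh_eq_zero.2 ((onto_right subset_union_right
      (union_subset inter_subset_left inter_subset_left) h2).trans (sup_le ?_ le_rfl))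
    refine wd3 (fun K hK hA => ?_) j
    obtain ⟨H, a0, a1, a2, a3⟩ := mv K hK hA
    refine ⟨H, a0, fun t y hy => a2 t y (hA hy), fun t y hy hB => Or.inr ⟨a2 t y (hA hy), ?_⟩,
      fun y hy => Or.inl ⟨a2 1 y (hA hy), a1 y hy⟩⟩
    obtain ⟨i, his, hq⟩ := mem_iUnion₂.1 hB.2
    exact mem_iUnion₂.2 ⟨i, his,
      a3 i (Finset.mem_of_mem_erase his) (Finset.ne_of_mem_erase his) t y hq⟩

end WLev

variable [Coef]

open WLev in
theorem levV (h1 : CovV) (h2 : PatV) : LevV := by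
  intro Y τ ι _ _ _ w 𝒜 lo hi hw hb hd j hj
  let G : Set ℝ := {x | x ∈ Ioo (0 : ℝ) 1 ∧ ∀ i, x < lo i ∨ hi i < x}
  have hG : G ⊆ Ioo 0 1 := fun x hx => hx.1
  have p1 := h2 Y τ w 𝒜 (Ioo 0 1) hw Subset.rfl fun ε hε => by
    obtain ⟨x, a, b⟩ := exists_between (lt_min hε one_pos)
    exact ⟨x, ⟨a, b.trans_le (min_le_right _ _)⟩, b.trans_le (min_le_left _ _)⟩
  have p2 := h2 Y τ w 𝒜 G hw hG fun ε hε => by
    obtain ⟨x, a, b, c⟩ := exists_above (finite_range lo) (lt_min hε one_pos)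
    exact ⟨x, ⟨⟨a, b.trans_le (min_le_right _ _)⟩, fun i => Or.inl (c _ ⟨i, rfl⟩ (hb i).1)⟩,
      b.trans_le (min_le_left _ _)⟩
  have s1 : Vg w 𝒜 G ⊆ Vg w 𝒜 (Ioo 0 1) :=
    iUnion₂_mono fun A _ => biUnion_subset_biUnion_left hG
  have s2 : Tg w 𝒜 lo hi ⊆ Vg w 𝒜 G := by
    intro y hy
    obtain ⟨i, hy⟩ := mem_iUnion.1 hy
    obtain ⟨A, hA, hy⟩ := mem_iUnion₂.1 hy
    obtain ⟨x, a, b, c⟩ := exists_above ((finite_range lo).union (finite_range fun q => w q y))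
      (hb i).2.2
    have b₀ := hb i
    refine mem_iUnion₂.2 ⟨A, hA, mem_iUnion₂.2 ⟨x, ⟨⟨by linarith, b⟩, fun i' => ?_⟩, fun q =>
      ⟨fun hq => c _ (Or.inr ⟨q, rfl⟩) ((hy q).1 hq), fun hq => ?_⟩⟩⟩
    · by_cases e : i = i'
      · exact Or.inr (e ▸ a)
      · exact (hd i i' e).imp (c _ (Or.inl ⟨i', rfl⟩)) fun d => by linarith
    · linarith [(hy q).2 hq]
  have a1 : hs (Vg w 𝒜 (Ioo 0 1)) (Vg w 𝒜 G) j = 0 := by
    cases j with
    | zero => exact hs_zero _ _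
    | succ j =>
      refine le_zero_iff.1 ((hs_le' p2.1 s1).trans_eq ?_)
      rw [p1.2, p2.2, add_zero]
  have a2 : hs (Vg w 𝒜 G) (Tg w 𝒜 lo hi) j = 0 := by
    have e : Vg w 𝒜 G = ⋃ b : 𝒜 ×ˢ G, Ub w b.1.1 b.1.2 b.1.2 := by
      rw [← biUnion_eq_iUnion (𝒜 ×ˢ G) fun b _ => Ub w b.1 b.2 b.2, biUnion_prod', Vg]
    rw [← inter_eq_right.2 s2, e]
    refine h1 Y (𝒜 ×ˢ G) _ _ _ (fun b => isOpen_Ub hw _ _ _) (fun t ht k hk => ?_) j hj
    have e4 : ⋂ b ∈ t, Ub w b.1.1 b.1.2 b.1.2 =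
        An w ((fun b : 𝒜 ×ˢ G => (b.1.1, b.1.2, b.1.2)) '' t) := by
      rw [An, biInter_image]
      rfl
    have e5 : Tg w 𝒜 lo hi = ⋃ i ∈ Finset.univ, Lv w 𝒜 (lo i) (hi i) := by
      simp only [Finset.mem_univ, iUnion_true]
      rfl
    rw [e4, e5]
    refine anchor h1 hw hb hd _ Finset.univ rfl _ (t.finite_toSet.image _)
      (Set.Nonempty.image _ ht) ?_ k hk
    rintro _ ⟨b, -, rfl⟩
    exact ⟨b.2.1, b.2.2.1.1, le_rfl, b.2.2.1.2, fun i _ => b.2.2.2 i⟩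
  refine le_zero_iff.1 ((hs_le s2 s1).trans_eq ?_)
  rw [a1, a2, add_zero]

end Pool.Agent.Lib.MP_837412_lc.K
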