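import Pool.Agent.Lib.MP_837412_lc.WSt
import Pool.Agent.Lib.MP_837412_lc.Once

/-!
Polynomial dependence on the parameters.
-/

namespace Pool.Agent.Lib.MP_837412_lc.K

open Set Function MvPolynomial

namespace WPol

/-- A copy of the predicate. -/
def IM (R n : ℕ) (f : (ℕ → ℝ) → ℂ) : Prop := IsM R n f

namespace IM

variable {R n k : ℕ} {f g : (ℕ → ℝ) → ℂ} {β : Type}

lemma mono (h : IM R n f) (e : n ≤ k) : IM R k f := h.imp fun _ a => ⟨a.1.trans e, a.2⟩

lemma congr (h : IM R n f) (e : ∀ v, g v = f v) : IM R n g := funext e ▸ h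

lemma const (z : ℂ) : IM R n fun _ => z := ⟨C z, by simp, by simp⟩

lemma var {r : ℕ} (h : r ≤ R) : IM R 1 fun v => (v r : ℂ) :=
  ⟨X ⟨r, by omega⟩, (totalDegree_X _).le, by simp⟩

lemma add (h : IM R n f) (h' : IM R n g) : IM R n fun v => f v + g v :=
  let ⟨p, a, b⟩ := h
  let ⟨q, c, d⟩ := h'
  ⟨p + q, (totalDegree_add _ _).trans (max_le a c), fun v => by rw [map_add, ← b, ← d]⟩

lemma sub (h : IM R n f) (h' : IM R n g) : IM R n fun v => f v - g v :=
  let ⟨p, a, b⟩ := h
  let ⟨q, c, d⟩ := h'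
  ⟨p - q, (totalDegree_sub _ _).trans (max_le a c), fun v => by rw [map_sub, ← b, ← d]⟩

lemma mul (h : IM R n f) (h' : IM R k g) : IM R (n + k) fun v => f v * g v :=
  let ⟨p, a, b⟩ := h
  let ⟨q, c, d⟩ := h'
  ⟨p * q, (totalDegree_mul _ _).trans (add_le_add a c), fun v => by rw [map_mul, ← b, ← d]⟩

lemma const_mul (z : ℂ) (h : IM R n f) : IM R n fun v => z * f v :=
  ((const (n := 0) z).mul h).mono (zero_add n).le

lemma sum (s : Finset β) {f : β → (ℕ → ℝ) → ℂ} (h : ∀ i ∈ s, IM R n (f i)) :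
    IM R n fun v => ∑ i ∈ s, f i v := by
  classical
  induction s using Finset.induction_on with
  | empty => exact const _
  | insert a s ha ih =>
    simp only [Finset.sum_insert ha]
    exact (h a (by simp)).add (ih fun i hi => h i (by simp [hi]))

lemma prod (s : Finset β) {f : β → (ℕ → ℝ) → ℂ} (h : ∀ i ∈ s, IM R n (f i)) :
    IM R (s.card * n) fun v => ∏ i ∈ s, f i v := by
  classical
  induction s using Finset.induction_on with
  | empty => exact const _
  | insert a s ha ih =>
    simp only [Finset.prod_insert ha, Finset.card_insert_of_notMem ha]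
    exact ((h a (by simp)).mul (ih fun i hi => h i (by simp [hi]))).mono (by ring_nf; rfl)

lemma det {ι : Type} [Fintype ι] [DecidableEq ι] {M : (ℕ → ℝ) → Matrix ι ι ℂ}
    (h : ∀ a b, IM R n fun v => M v a b) : IM R (Fintype.card ι * n) fun v => (M v).det := by
  simp only [Matrix.det_apply']
  exact sum _ fun π _ => const_mul _ (prod _ fun i _ => h _ _)

end IM

variable {σ σ' K β : Type} [CommRing K] {φ : K →+* ℂ} {R n k : ℕ}
  {p q : (ℕ → ℝ) → MvPolynomial σ K}

/-- The images of the coefficients are polynomial functions of the parameters. -/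
def CG (φ : K →+* ℂ) (R n : ℕ) (p : (ℕ → ℝ) → MvPolynomial σ K) : Prop :=
  ∀ α, IM R n fun v => φ (coeff α (p v))

lemma CG.mono (h : CG φ R n p) (e : n ≤ k) : CG φ R k p := fun α => (h α).mono e

lemma CG.const (z : MvPolynomial σ K) : CG φ R n fun _ => z := fun _ => IM.const _

lemma CG.ofC {f : (ℕ → ℝ) → K} (h : IM R n fun v => φ (f v)) :
    CG φ R n fun v => (C (f v) : MvPolynomial σ K) := fun α => by
  classical
  simp only [coeff_C]
  split_ifs
  · exact h
  · exact IM.const _

lemma CG.add (h : CG φ R n p) (h' : CG φ R n q) : CG φ R n fun v => p v + q v := fun α => by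
  simp only [coeff_add, map_add]
  exact (h α).add (h' α)

lemma CG.sub (h : CG φ R n p) (h' : CG φ R n q) : CG φ R n fun v => p v - q v := fun α => by
  simp only [coeff_sub, map_sub]
  exact (h α).sub (h' α)

lemma CG.mul (h : CG φ R n p) (h' : CG φ R k q) : CG φ R (n + k) fun v => p v * q v := fun α => by
  classical
  simp only [coeff_mul, map_sum, map_mul]
  exact IM.sum _ fun x _ => (h _).mul (h' _)

lemma CG.const_mul (z : MvPolynomial σ K) (h : CG φ R n p) : CG φ R n fun v => z * p v :=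
  ((CG.const (n := 0) z).mul h).mono (zero_add n).le

lemma CG.mul_const (h : CG φ R n p) (z : MvPolynomial σ K) : CG φ R n fun v => p v * z :=
  h.mul (CG.const (n := 0) z)

lemma CG.sq (h : CG φ R n p) : CG φ R (2 * n) fun v => p v ^ 2 := by
  simp only [pow_two, two_mul]
  exact h.mul h

lemma CG.sum (s : Finset β) {p : β → (ℕ → ℝ) → MvPolynomial σ K} (h : ∀ i ∈ s, CG φ R n (p i)) :
    CG φ R n fun v => ∑ i ∈ s, p i v := fun α => by
  simp only [coeff_sum, map_sum]
  exact IM.sum _ fun i hi => h i hi α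

lemma CG.prod (s : Finset β) {p : β → (ℕ → ℝ) → MvPolynomial σ K} (h : ∀ i ∈ s, CG φ R n (p i)) :
    CG φ R (s.card * n) fun v => ∏ i ∈ s, p i v := by
  classical
  induction s using Finset.induction_on with
  | empty => exact CG.const _
  | insert a s ha ih =>
    simp only [Finset.prod_insert ha, Finset.card_insert_of_notMem ha]
    exact ((h a (by simp)).mul (ih fun i hi => h i (by simp [hi]))).mono (by ring_nf; rfl)

lemma CG.rename (h : CG φ R n p) {f : σ → σ'} (hf : Injective f) :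
    CG φ R n fun v => rename f (p v) := fun α => by
  by_cases e : ∃ γ : σ →₀ ℕ, γ.mapDomain f = α
  · obtain ⟨γ, rfl⟩ := e
    simp only [coeff_rename_mapDomain f hf]
    exact h γ
  · refine (IM.const 0).congr fun v => ?_
    rw [coeff_rename_eq_zero f _ _ fun γ a => absurd ⟨γ, a⟩ e, map_zero]

lemma CG.pderiv (h : CG φ R n p) (i : σ) : CG φ R n fun v => pderiv i (p v) := fun α => by
  simp only [coeff_pderiv, map_mul]
  exact (h _).mul (IM.const (n := 0) _)

lemma CG.cx {p : (ℕ → ℝ) → MvPolynomial σ ℝ} (h : CG Complex.ofRealHom R n p) :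
    CG (RingHom.id ℂ) R n fun v => cx' (p v) := fun α => by
  simp only [coeff_map]
  exact h α

variable [Fintype σ]

lemma CG.supp {d : ℕ} {q : (ℕ → ℝ) → MvPolynomial σ ℂ} (h : CG (RingHom.id ℂ) R n q)
    (hd : ∀ v, (q v).totalDegree ≤ d) {f : (σ →₀ ℕ) → (ℕ → ℝ) → ℂ} (hf : ∀ g, IM R k (f g)) :
    IM R (n + k) fun v => ∑ g ∈ (q v).support, coeff g (q v) * f g v :=
  (IM.sum (box σ d) fun g _ => (h g).mul (hf g)).congr fun v =>
    Finset.sum_subset (support_subset_box (hd v)) fun g _ hg => by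
      rw [notMem_support_iff.1 hg, zero_mul]

lemma isM_NF (m : ℕ) {d : ℕ} {q : (ℕ → ℝ) → σ → MvPolynomial σ ℂ}
    (hq : ∀ i, CG (RingHom.id ℂ) R n fun v => q v i) (hd : ∀ i v, (q v i).totalDegree ≤ d)
    (j : ℕ) : ∀ β a, IM R (j * n) fun v => NF m (q v) j β a := by
  induction j with
  | zero => intro β a; simp only [NF]; exact IM.const _
  | succ j ih =>
    intro β a
    by_cases h : ∃ i, m ≤ β i
    · simp only [NF, dif_pos h]
      exact ((hq _).supp (hd _) fun g => ih _ a).mono (by ring_nf; rfl)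
    · simp only [NF, dif_neg h]
      exact IM.const _

end WPol

open WPol

theorem polV : PolV := by
  intro σ τ _ _ _ R n m Q hQ hd
  have h1 : CG (RingHom.id ℂ) R (2 * Fintype.card τ * n) fun v => cx' (sq (Q v)) :=
    ((CG.prod Finset.univ fun q _ => CG.sq (φ := Complex.ofRealHom) (hQ q)).mono
      (by rw [Finset.card_univ]; ring_nf; rfl)).cx
  have d1 : ∀ v, (cx' (sq (Q v))).totalDegree < m := fun v => (deg_cx _).trans_lt (hd v)
  have h2 : ∀ i, CG (RingHom.id ℂ) R (2 * Fintype.card τ * n + 1)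
      fun v => qq m (cx' (sq (Q v))) (v R : ℂ) i := fun i =>
    (CG.const _).add (((CG.ofC (n := 1) (((IM.var le_rfl).const_mul ((m + 1 : ℕ) : ℂ)⁻¹).congr
      fun v => div_eq_inv_mul _ _)).mul (h1.pderiv i)).mono (add_comm _ _).le)
  have h3 : CG (RingHom.id ℂ) R (2 * Fintype.card τ * n + 1)
      fun v => Fl m (cx' (sq (Q v))) (v R : ℂ) :=
    (CG.const _).sub (((CG.ofC (IM.var le_rfl)).mul h1).mono (add_comm _ _).le)
  have h4 := IM.det (M := fun v => MM m (qq m (cx' (sq (Q v))) (v R : ℂ))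
    (Fl m (cx' (sq (Q v))) (v R : ℂ))) fun a b => h3.supp (fun v => deg_Fl (d1 v) _) fun g =>
      isM_NF m h2 (fun i v => (deg_qq (d1 v) _ i).le) (Kf σ m) (toF a + g) b
  refine ((h4.const_mul ((-1) ^ Fintype.card (Std σ m))).mono (le_of_eq ?_)).congr fun v => ?_
  · rw [Dp, Fintype.card_fun, Fintype.card_fin]
    ring
  · rw [Gd, Lam, chi_lam, Matrix.det_eq_sign_charpoly_coeff, ← mul_assoc, ← mul_pow]
    simp

theorem bigM : BigM := by
  intro σ τ ι _ _ N n P e χ
  have h1 : ∀ a j, CG Complex.ofRealHom (2 * n) 1 fun v => pp n P e v a j := fun a j => by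
    have := a.divNat.2
    unfold pp lev
    split_ifs
    · exact ((CG.ofC (IM.var (by omega))).mul_const _).sub (CG.const _)
    · exact (CG.const _).sub ((CG.ofC (IM.var (by omega))).mul_const _)
  have h2 : ∀ a j, CG Complex.ofRealHom (2 * n) 1
      fun v => rename (Sum.inl : σ → σ ⊕ ι ⊕ ι) (pp n P e v a j) := fun a j =>
    (h1 a j).rename Sum.inl_injective
  exact CG.sum (φ := Complex.ofRealHom) _ fun i _ => CG.const_mul _ (CG.sub
    (CG.sum _ fun a _ => ((h2 a _).const_mul _).mono one_le_two)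
    ((((CG.const _).add (CG.sum _ fun a _ => CG.sum _ fun j _ => (h2 a j).sq)).const_mul
      _).mul_const _))

end Pool.Agent.Lib.MP_837412_lc.K
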