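import Pool.Agent.Lib.MP_837412_lc.WSt
import Pool.Agent.Lib.MP_837412_lc.JOrd

/-!
The sorted real parts of the complex roots of a monic polynomial are continuous and integral.
-/

namespace Pool.Agent.Lib.MP_837412_lc.K

open Set Function Filter Topology MvPolynomial

namespace WRoot

variable {σ : Type} {n : ℕ}

lemma exists_sorted {p : Polynomial ℂ} (h : p.Monic) (hn : p.natDegree = n) :
    ∃ c : Fin n → ℂ, chi c = p ∧ Monotone fun i => (c i).re := by
  obtain ⟨c, hc⟩ := exists_chi (ι := Fin n) h (by simpa using hn)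
  exact ⟨c ∘ Tuple.sort (fun i => (c i).re), (chi_comp _ _).trans hc,
    Tuple.monotone_sort fun i => (c i).re⟩

lemma re_unique {c c' : Fin n → ℂ} (h : chi c = chi c') (m : Monotone fun i => (c i).re)
    (m' : Monotone fun i => (c' i).re) : (fun i => (c i).re) = fun i => (c' i).re := by
  obtain ⟨τ, rfl⟩ := exists_perm_of_chi h
  exact Tuple.unique_monotone (f := fun i => (c i).re) (σ := 1) (τ := τ) m m'

lemma cont {T : Type} [TopologicalSpace T] [WeaklyLocallyCompactSpace T] {c : T → Fin n → ℂ}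
    (h : ∀ j, Continuous fun t => (chi (c t)).coeff j) (m : ∀ t, Monotone fun i => (c t i).re) :
    Continuous fun t i => (c t i).re := by
  refine continuous_iff_continuousAt.2 fun t₀ => (tendsto_iff_ultrafilter _ _ _).2 fun g hg => ?_
  obtain ⟨K, k1, k2⟩ := exists_compact_mem_nhds t₀
  obtain ⟨N, hN⟩ := bndS T (Fin n) c K k1 h
  obtain ⟨c₀, -, h0⟩ := (isCompact_univ_pi fun _ : Fin n =>
    isCompact_closedBall (0 : ℂ) N).ultrafilter_le_nhds (g.map c) (le_principal_iff.2 (mem_map.2
      (mem_of_superset (hg k2) fun t ht i _ =>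
        mem_closedBall_zero_iff.2 (by linarith [hN t ht i]))))
  have h1 : ∀ i, Tendsto (fun t => c t i) g (𝓝 (c₀ i)) := tendsto_pi_nhds.1 h0
  have h2 : ∀ i, Tendsto (fun t => (c t i).re) g (𝓝 (c₀ i).re) := fun i =>
    (Complex.continuous_re.tendsto _).comp (h1 i)
  have e : chi c₀ = chi (c t₀) := Polynomial.funext fun z => by
    have a : Tendsto (fun t => (chi (c t)).eval z) g (𝓝 ((chi c₀).eval z)) := by
      simp only [chi, Polynomial.eval_prod, Polynomial.eval_sub, Polynomial.eval_X,
        Polynomial.eval_C]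
      exact tendsto_finsetProd _ fun i _ => tendsto_const_nhds.sub (h1 i)
    have b : Continuous fun t => (chi (c t)).eval z := by
      simp only [Polynomial.eval_eq_sum_range, natDegree_chi]
      exact continuous_finsetSum _ fun k _ => (h k).mul continuous_const
    exact tendsto_nhds_unique a ((b.tendsto t₀).mono_left hg)
  beta_reduce
  rw [← re_unique e (fun i j hij => le_of_tendsto_of_tendsto' (h2 i) (h2 j) fun t => m t hij)
    (m t₀)]
  exact tendsto_pi_nhds.2 h2

/-- Polynomials as complex functions. -/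
noncomputable def evc (σ : Type) : MvPolynomial σ ℝ →+* ((σ → ℝ) → ℂ) :=
  RingHom.pi fun x => (algebraMap ℝ ℂ).comp (eval x)

lemma int_iff {f : (σ → ℝ) → ℂ} : (evc σ).IsIntegralElem f ↔
    ∃ p : Polynomial (MvPolynomial σ ℝ), p.Monic ∧
      ∀ x, Polynomial.aeval (f x) (p.map (eval x)) = 0 := by
  refine exists_congr fun p => and_congr_right fun _ => ?_
  rw [funext_iff]
  refine forall_congr' fun x => ?_
  have := Polynomial.hom_eval₂ p (evc σ) (Pi.evalRingHom (fun _ : σ → ℝ => ℂ) x) f
  rw [Polynomial.aeval_def, Polynomial.eval₂_map]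
  exact Eq.congr_left this

lemma itg_re {f : (σ → ℝ) → ℂ} {q : Polynomial (MvPolynomial σ ℝ)} (hq : q.Monic)
    (h : ∀ x, Polynomial.aeval (f x) (q.map (eval x)) = 0) : Itg fun x => (f x).re := by
  have a := int_iff.2 ⟨q, hq, h⟩
  have b : (evc σ).IsIntegralElem fun x => starRingEnd ℂ (f x) :=
    int_iff.2 ⟨q, hq, fun x => by rw [Polynomial.aeval_conj, h, map_zero]⟩
  obtain ⟨p, p1, p2⟩ := int_iff.1 (RingHom.IsIntegralElem.mul _ (RingHom.IsIntegralElem.add _ a b)
    (RingHom.isIntegralElem_map (evc σ) (x := C (1 / 2))))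
  refine itg_iff.2 ⟨p, p1, fun x => Complex.ofReal_injective ?_⟩
  have e : ((f + fun x => starRingEnd ℂ (f x)) * evc σ (C (1 / 2))) x =
      algebraMap ℝ ℂ (f x).re := by
    simp only [evc, Pi.mul_apply, Pi.add_apply, RingHom.pi_apply, RingHom.comp_apply, eval_C,
      Complex.add_conj, Complex.coe_algebraMap]
    push_cast
    ring
  have := p2 x
  rwa [e, Polynomial.aeval_algebraMap_apply_eq_algebraMap_eval] at this

end WRoot

open WRoot in
theorem rootV : RootV := by
  intro σ _ q n hq hn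
  have h1 : ∀ x : σ → ℝ, ∃ c : Fin (n + 1) → ℂ, chi c = (q.map (eval x)).map (algebraMap ℝ ℂ) ∧
      Monotone fun i => (c i).re := fun x => exists_sorted ((hq.map _).map _)
    (by rw [(hq.map _).natDegree_map, hq.natDegree_map, hn])
  choose c c1 c2 using h1
  have h2 : ∀ x z, Polynomial.aeval z (q.map (eval x)) = 0 ↔ ∃ i, c x i = z := fun x z => by
    rw [← eval_chi_eq_zero, c1, Polynomial.eval_map_algebraMap]
  have h3 := cont (fun j => by
    simp only [c1, Polynomial.coeff_map]
    exact Complex.continuous_ofReal.comp (MvPolynomial.continuous_eval _)) c2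
  refine ⟨fun j x => (c x ⟨min j n, Nat.lt_succ_of_le (min_le_right _ _)⟩).re,
    fun j => ⟨(continuous_apply _).comp h3, itg_re hq fun x => (h2 x _).2 ⟨_, rfl⟩⟩,
    fun x i j hij => c2 x (Fin.mk_le_mk.2 (min_le_min_right _ hij)), fun x s hs => ?_⟩
  obtain ⟨i, hi⟩ := (h2 x (algebraMap ℝ ℂ s)).1 (by
    rw [Polynomial.aeval_algebraMap_apply_eq_algebraMap_eval, hs, map_zero])
  refine ⟨i, i.is_le, ?_⟩
  simp only [min_eq_left i.is_le, Fin.eta, hi, Complex.coe_algebraMap, Complex.ofReal_re]

end Pool.Agent.Lib.MP_837412_lc.K
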