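import Pool.Agent.Lib.MP_837412_lc.WSt

/-!
The choice of the parameters: two polynomial approximations with a set between them that has
the homology of the sign set.
-/

namespace Pool.Agent.Lib.MP_837412_lc.K

open Set Function Filter Topology MvPolynomial

namespace WSand

lemma cmp {Y τ : Type} [TopologicalSpace Y] [CompactSpace Y] [Finite τ] {u w : τ → Y → ℝ}
    (hu : ∀ q, Continuous (u q)) (hw : ∀ q, Continuous (w q)) {ε : ℝ}
    (h : ∀ q y, ε ≤ u q y → 0 < w q y) {x : ℝ} (hx : 0 < x) :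
    ∃ δ, 0 < δ ∧ δ < x ∧ ∀ q y, w q y ≤ δ → u q y < ε := by
  have key : ∀ q, ∀ᶠ δ in 𝓝[>] (0 : ℝ), ∀ y, w q y ≤ δ → u q y < ε := fun q => by
    obtain ⟨a, a0, ha⟩ := (isClosed_le continuous_const (hu q)).isCompact.exists_forall_le'
      (hw q).continuousOn (h q)
    filter_upwards [Ioo_mem_nhdsGT a0] with δ hδ y hy
    by_contra hn
    exact absurd ((ha y (not_lt.1 hn)).trans hy) (not_le.2 hδ.2)
  obtain ⟨δ, h1, h2⟩ := ((eventually_all.2 key).and (Ioo_mem_nhdsGT hx)).exists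
  exact ⟨δ, h2.1, h2.2, h1⟩

section

variable {Y τ : Type} [TopologicalSpace Y] [CompactSpace Y] [Finite τ] {p w : τ → Y → ℝ}
  (hp : ∀ q, Continuous (p q)) (hw : ∀ q, Continuous (w q)) (h : ∀ q y, 0 < w q y ↔ 0 < p q y)
include hp hw h

lemma cmpA {a x : ℝ} (ha : 0 < a) (hx : 0 < x) :
    ∃ δ, 0 < δ ∧ δ < x ∧ ∀ q y, w q y ≤ δ → a * p q y < 1 :=
  cmp (u := fun q y => a * p q y) (fun q => continuous_const.mul (hp q)) hw
    (fun q y hy => (h q y).2 ((mul_pos_iff_of_pos_left ha).1 (one_pos.trans_le hy))) hx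

lemma cmpB {δ : ℝ} (hδ : 0 < δ) (a₀ : ℝ) :
    ∃ a, a₀ ≤ a ∧ ∀ q y, a * p q y ≤ 1 → w q y < δ := by
  obtain ⟨η, η0, -, hη⟩ := cmp hw hp (fun q y (hy : δ ≤ w q y) => (h q y).1 (hδ.trans_le hy))
    one_pos
  refine ⟨max a₀ η⁻¹, le_max_left _ _, fun q y hy => hη q y ?_⟩
  by_contra hn
  have h1 : η < p q y := not_le.1 hn
  have h2 : η⁻¹ * p q y ≤ max a₀ η⁻¹ * p q y :=
    mul_le_mul_of_nonneg_right (le_max_right _ _) (η0.trans h1).le
  have h3 : 1 < η⁻¹ * p q y := by rwa [← div_eq_inv_mul, one_lt_div η0]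
  linarith

/-- One level. -/
lemma step (c : ℝ) (M : ℕ) (s : {s : ℝ × ℝ // 1 ≤ s.1 ∧ 0 < s.2 ∧ s.2 ≤ 1}) :
    ∃ (t : {s : ℝ × ℝ // 1 ≤ s.1 ∧ 0 < s.2 ∧ s.2 ≤ 1}) (a' δ a x b : ℝ),
      (c ≤ a' ∧ s.1.1 ^ M ≤ a' ∧ 1 ≤ a' ∧ a' ≤ a ∧ a ^ M ≤ b ∧ 1 ≤ b ∧ b ≤ t.1.1) ∧
      (t.1.2 ≤ δ ∧ δ < s.1.2 ∧ 0 < x ∧ x < 1) ∧
      (∀ q y, w q y ≤ δ → a' * p q y < 1) ∧ (∀ q y, a * p q y ≤ 1 → w q y < δ) ∧
      (∀ q y, w q y ≤ x → a * p q y < 1) ∧ (∀ q y, b * p q y ≤ 1 → w q y < x) ∧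
      (∀ q y, w q y ≤ t.1.2 → b * p q y < 1) ∧ ∀ q y, t.1.1 * p q y ≤ 1 → w q y < t.1.2 := by
  have a1 : 1 ≤ max c (s.1.1 ^ M) := le_max_of_le_right (one_le_pow₀ s.2.1)
  obtain ⟨δ, δ0, δ1, hδ⟩ := cmpA hp hw h (one_pos.trans_le a1) s.2.2.1
  obtain ⟨a, a2, ha⟩ := cmpB hp hw h δ0 (max c (s.1.1 ^ M))
  obtain ⟨x, x0, x1, hx⟩ := cmpA hp hw h (one_pos.trans_le (a1.trans a2)) one_pos
  obtain ⟨b, b1, hb⟩ := cmpB hp hw h x0 (a ^ M)
  have b2 : 1 ≤ b := (one_le_pow₀ (a1.trans a2)).trans b1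
  obtain ⟨ε, ε0, ε1, hε⟩ := cmpA hp hw h (one_pos.trans_le b2) δ0
  obtain ⟨b', b3, hb'⟩ := cmpB hp hw h ε0 b
  exact ⟨⟨(b', ε), b2.trans b3, ε0, (ε1.trans δ1).le.trans s.2.2.2⟩, _, δ, a, x, b,
    ⟨le_max_left _ _, le_max_right _ _, a1, a2, b1, b2, b3⟩, ⟨ε1.le, δ1, x0, x1⟩,
    hδ, ha, hx, hb, hε, hb'⟩

end

/-- Two sequences are interleaved. -/
def il (α β : ℕ → ℝ) (r : ℕ) : ℝ := if r % 2 = 0 then α (r / 2) else β (r / 2)

lemma il_even (α β : ℕ → ℝ) (i : ℕ) : il α β (2 * i) = α i := by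
  rw [il, if_pos (by omega), show 2 * i / 2 = i by omega]

lemma il_odd (α β : ℕ → ℝ) (i : ℕ) : il α β (2 * i + 1) = β i := by
  rw [il, if_neg (by omega), show (2 * i + 1) / 2 = i by omega]

lemma il_om {α β : ℕ → ℝ} {c : ℝ} {M : ℕ} (h0 : c ≤ α 0) (h1 : ∀ i, α i ^ M ≤ β i)
    (h2 : ∀ i, β i ^ M ≤ α (i + 1)) (R : ℕ) : il α β ∈ Om c M R := by
  refine ⟨h0.trans_eq (il_even α β 0).symm, fun r _ => ?_⟩
  obtain ⟨i, rfl | rfl⟩ := Nat.even_or_odd' r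
  · rw [il_even, il_odd]
    exact h1 i
  · rw [il_odd, show 2 * i + 1 + 1 = 2 * (i + 1) by ring, il_even]
    exact h2 i

lemma mem_lev {σ τ : Type} (P : τ → MvPolynomial σ ℝ) (A : Set τ) (a b : ℝ) (y : σ → ℝ) :
    y ∈ cell (lev P A a b) (fun _ => 1) ↔
      ∀ q, (q ∈ A → 1 < a * eval y (P q)) ∧ (q ∉ A → b * eval y (P q) < 1) := by
  refine forall_congr' fun q => ?_
  rw [sign_eq_one_iff, lev]
  split_ifs with hq <;> simp [hq]

lemma mem_Tf {σ τ : Type} {N n : ℕ} (P : τ → MvPolynomial σ ℝ) (e : Fin N → Set τ)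
    (α β : ℕ → ℝ) (y : σ → ℝ) : y ∈ Tf n P e (il α β) ↔ ∃ (i : Fin n) (c : Fin N),
      ∀ q, (q ∈ e c → 1 < α i * eval y (P q)) ∧ (q ∉ e c → β i * eval y (P q) < 1) := by
  simp only [Tf, mem_iUnion, pp, mem_lev, il_even, il_odd]
  refine ⟨fun ⟨a, ha⟩ => ⟨_, _, ha⟩, fun ⟨i, c, ha⟩ => ⟨finProdFinEquiv (i, c), ?_⟩⟩
  have := finProdFinEquiv.symm_apply_apply (i, c)
  rw [finProdFinEquiv_symm_apply, Prod.mk.injEq] at this
  rwa [this.1, this.2]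

lemma itg_max {σ : Type} (P : MvPolynomial σ ℝ) : Itg fun y => max (eval y P) 0 := by
  refine itg_iff.2 ⟨Polynomial.X * (Polynomial.X - Polynomial.C P),
    Polynomial.monic_X.mul (Polynomial.monic_X_sub_C P), fun x => ?_⟩
  rcases le_total (eval x P) 0 with h | h <;> simp [h]

variable [Coef]

lemma le_mid {Y : Type} [TopologicalSpace Y] {A B C : Set Y} {k : ℕ} (h1 : C ⊆ B) (h2 : B ⊆ A)
    (h : hs A C k = 0) : hs A ∅ k ≤ hs B ∅ k := by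
  have e := onto_left (empty_subset C) (h1.trans h2) h
  refine (rk_congr_le (e.trans (sup_le_sup_right (Zs_mono h1 Subset.rfl k) _))
    (le_sup_of_le_left (Zs_mono h2 Subset.rfl k))).trans_le
    (rk_mono le_rfl (Bs_mono h2 Subset.rfl k))

end WSand

open WSand

variable [Coef]

theorem sandV (h1 : TriV) (h2 : PatV) (h3 : LevV) : SandV := by
  intro k N n M τ _ P e c ⟨K, hK, hB⟩ _
  obtain ⟨Y, _, _, E, w, hE, hKE, hw, hz⟩ := h1 k τ (fun q y => max (eval y (P q)) 0) K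
    (fun q => ⟨(continuous_eval (P q)).max continuous_const, itg_max (P q)⟩) hK
  let p : τ → Y → ℝ := fun q y => eval (E y) (P q)
  have hp : ∀ q, Continuous (p q) := fun q => (continuous_eval (P q)).comp E.continuous
  have hpw : ∀ q y, 0 < w q y ↔ 0 < p q y := fun q y => by
    rw [(hw.mem q y).1.lt_iff_ne', Ne, hz, max_eq_right_iff, not_le]
  choose nx a' δ a x b o l c1 c2 c3 c4 c5 c6 using step hp hw.cont hpw c M
  let s : ℕ → {s : ℝ × ℝ // 1 ≤ s.1 ∧ 0 < s.2 ∧ s.2 ≤ 1} := fun i =>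
    Nat.rec ⟨(1, 1), le_rfl, one_pos, le_rfl⟩ (fun _ t => nx t) i
  have hs' : ∀ i, s (i + 1) = nx (s i) := fun _ => rfl
  have himg : ∀ (A : Set Y) j, hs (E '' A) ∅ j = hs A ∅ j := fun A j => by
    simpa using hs_image (E.continuous.isClosedEmbedding hE).isEmbedding A ∅ j
  have hTK : ∀ α β : ℕ → ℝ, (∀ i, 1 ≤ α i) → (∀ i, 1 ≤ β i) → Tf n P e (il α β) ⊆ range E := by
    intro α β hα hβ y hy
    obtain ⟨i, d, hd⟩ := (mem_Tf P e α β y).1 hy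
    refine hKE (hB d y fun q => ⟨fun hq => ?_, fun hq => ?_⟩)
    · exact (mul_pos_iff_of_pos_left (one_pos.trans_le (hα i))).1 (one_pos.trans ((hd q).1 hq))
    · by_contra hn
      exact absurd (one_le_mul_of_one_le_of_one_le (hβ i) (not_lt.1 hn)) (not_le.2 ((hd q).2 hq))
  have hPs : Ps P e = E '' Pat w (range e) := by
    have e1 : ∀ y, {q | 0 < w q y} = {q | 0 < eval (E y) (P q)} := fun y =>
      Set.ext fun q => hpw q y
    refine Subset.antisymm (fun z hz' => ?_) ?_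
    · obtain ⟨d, hd⟩ := id hz'
      obtain ⟨y, rfl⟩ := hKE (hB d z fun q => ⟨fun hq => by rwa [hd] at hq, fun hq => by
        rw [hd] at hq
        exact (not_lt.1 hq).trans_lt one_pos⟩)
      exact ⟨y, by rwa [Pat, mem_ofPred_eq, e1], rfl⟩
    · rintro _ ⟨y, hy, rfl⟩
      rwa [Pat, mem_ofPred_eq, e1] at hy
  obtain ⟨v1, v2⟩ := h2 Y τ w (range e) (Ioo 0 1) hw Subset.rfl fun ε hε =>
    ⟨min ε 1 / 2, ⟨half_pos (lt_min hε one_pos), by linarith [min_le_right ε 1]⟩,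
      by linarith [min_le_left ε 1]⟩
  have anti : Antitone fun i => (s i).1.2 := antitone_nat_of_succ_le fun i =>
    (l (s i)).1.trans (l (s i)).2.1.le
  have lt : ∀ i i' : ℕ, i < i' → δ (s i') < (s (i + 1)).1.2 := fun i i' h =>
    (l (s i')).2.1.trans_le (anti h)
  let T := Tg w (range e) (fun i : Fin n => (s (i + 1)).1.2) fun i => δ (s i)
  have v3 : ∀ j ≤ n, hs (Vg w (range e) (Ioo 0 1)) T j = 0 := fun j hj =>
    h3 Y τ (Fin n) w (range e) _ _ hw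
      (fun i => ⟨(s (i + 1)).2.2.1, (l (s i)).1, (l (s i)).2.1.trans_le (s i).2.2.2⟩)
      (fun i i' hi => (lt_or_gt_of_ne (Fin.val_ne_of_ne hi)).elim (fun h => Or.inr (lt _ _ h))
        fun h => Or.inl (lt _ _ h)) j (by simpa using hj)
  have hT : ∀ y, y ∈ T ↔ ∃ (i : Fin n) (d : Fin N),
      ∀ q, (q ∈ e d → δ (s i) < w q y) ∧ (q ∉ e d → w q y < (s (i + 1)).1.2) := fun y => by
    simp only [T, Tg, Ub, mem_iUnion, mem_range, exists_prop, exists_exists_eq_and, mem_ofPred_eq]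
  have a1 : ∀ i, 1 ≤ a (s i) := fun i => (o _).2.2.1.trans (o _).2.2.2.1
  have s1 : T ⊆ E ⁻¹' Tf n P e (il (fun i => a (s i)) fun i => b (s i)) := fun y hy => by
    obtain ⟨i, d, hd⟩ := (hT y).1 hy
    refine (mem_Tf P e _ _ _).2 ⟨i, d, fun q => ⟨fun hq => ?_, fun hq => ?_⟩⟩
    · exact not_le.1 fun h => absurd ((hd q).1 hq) (not_lt.2 (c2 _ q y h).le)
    · exact c5 _ q y ((hd q).2 hq).le
  have s2 : E ⁻¹' Tf n P e (il (fun i => a (s i)) fun i => b (s i)) ⊆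
      Vg w (range e) (Ioo 0 1) := fun y hy => by
    obtain ⟨i, d, hd⟩ := (mem_Tf P e _ _ _).1 hy
    refine mem_iUnion₂.2 ⟨e d, ⟨d, rfl⟩, mem_iUnion₂.2 ⟨x (s i), (l _).2.2, fun q =>
      ⟨fun hq => ?_, fun hq => ?_⟩⟩⟩
    · exact not_le.1 fun h => absurd ((hd q).1 hq) (not_lt.2 (c3 _ q y h).le)
    · exact c4 _ q y ((hd q).2 hq).le
  refine ⟨il (fun i => a (s i)) fun i => b (s i), il (fun i => a' (s i)) fun i => (s (i + 1)).1.1,
    E '' T, fun R => ⟨il_om ((o _).1.trans (o _).2.2.2.1) (fun i => (o _).2.2.2.2.1) (fun i => ?_) R,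
      il_om (o _).1 (fun i => ?_) (fun i => (o _).2.1) R⟩, fun i => ?_, fun z hz' => ?_,
    image_subset_iff.2 s1, fun j hj => ⟨?_, ?_⟩⟩
  · exact ((pow_le_pow_left₀ (zero_le_one.trans (o (s i)).2.2.2.2.2.1) (o (s i)).2.2.2.2.2.2
      M).trans (o (s (i + 1))).2.1).trans (o _).2.2.2.1
  · exact ((pow_le_pow_left₀ (zero_le_one.trans (o (s i)).2.2.1) (o (s i)).2.2.2.1 M).trans
      (o _).2.2.2.2.1).trans (o _).2.2.2.2.2.2
  · simp only [il_even, il_odd]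
    exact ⟨(o _).2.2.2.1, (o _).2.2.2.2.2.2⟩
  · obtain ⟨y, rfl⟩ := hTK _ _ (fun i => (o _).2.2.1) (fun i => (s (i + 1)).2.1) hz'
    obtain ⟨i, d, hd⟩ := (mem_Tf P e _ _ _).1 hz'
    refine ⟨y, (hT y).2 ⟨i, d, fun q => ⟨fun hq => ?_, fun hq => ?_⟩⟩, rfl⟩
    · exact not_le.1 fun h => absurd ((hd q).1 hq) (not_lt.2 (c1 _ q y h).le)
    · exact c6 _ q y ((hd q).2 hq).le
  · rw [hPs, himg, himg, ← v2.left (empty_subset _) v1,
      hs_left (empty_subset _) (s1.trans s2) (v3 j hj.le) (v3 _ hj)]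
  · rw [hPs, himg, ← v2.left (empty_subset _) v1,
      ← image_preimage_eq_of_subset (hTK _ _ a1 fun i => (o _).2.2.2.2.2.1), himg]
    exact le_mid s1 s2 (v3 j hj.le)

end Pool.Agent.Lib.MP_837412_lc.K
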