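import Pool.Agent.Lib.MP_837412_lc.WSt

/-! Towers over compact sets adapted to finitely many integral functions. -/

namespace Pool.Agent.Lib.MP_837412_lc.K

open Set Function Filter Topology MvPolynomial
open Pool.Agent.Shared.Mod2 (I)

namespace WTri

lemma clopen {G : ℝ → ℝ} (hG : Continuous G) {a b s : ℝ}
    (h : ∀ t ∈ Ioo a b, G t = 0 → ∀ᶠ u in 𝓝 t, G u = 0) (hs : s ∈ Ioo a b) (h0 : G s = 0) :
    ∀ t ∈ Icc a b, G t = 0 := by
  have h1 : Ioo a b ⊆ interior {t | G t = 0} := by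
    refine isPreconnected_Ioo.subset_left_of_subset_union (v := {t | G t ≠ 0}) isOpen_interior
      (isOpen_ne_fun hG continuous_const) ?_ ?_ ⟨s, hs, mem_interior_iff_mem_nhds.2 (h s hs h0)⟩
    · exact Set.disjoint_left.2 fun t ht ht' => ht' (interior_subset (s := {t | G t = 0}) ht)
    · intro t ht
      by_cases e : G t = 0
      · exact Or.inl (mem_interior_iff_mem_nhds.2 (h t ht e))
      · exact Or.inr e
  have h2 : closure (Ioo a b) ⊆ {t | G t = 0} :=
    closure_minimal (h1.trans interior_subset) (isClosed_eq hG continuous_const)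
  rw [closure_Ioo (hs.1.trans hs.2).ne] at h2
  exact fun t ht => h2 ht

lemma zero_iff {G : ℝ → ℝ} (hG : Continuous G) {ξ : ℕ → ℝ} {n : ℕ} {s : ℝ}
    (h : ∀ j, ∀ t ∈ Ioo (ξ j) (ξ (j + 1)), G t = 0 → ∀ᶠ u in 𝓝 t, G u = 0)
    (h0 : ξ 0 ≤ s) (h1 : s ≤ ξ n) :
    G s = 0 ↔ (∃ j : Fin (n + 1), (s ≤ ξ j ∧ ξ j ≤ s) ∧ G (ξ j) = 0) ∨
      ∃ j : Fin n, (ξ j ≤ s ∧ s ≤ ξ (j + 1)) ∧ G ((ξ j + ξ (j + 1)) * (1 / 2)) = 0 := by
  classical
  constructor
  · intro hs
    have ex : ∃ j, s ≤ ξ j := ⟨n, h1⟩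
    have a1 : s ≤ ξ (Nat.find ex) := Nat.find_spec ex
    have a2 : Nat.find ex ≤ n := Nat.find_min' ex h1
    rcases a1.eq_or_lt with e | e
    · exact Or.inl ⟨⟨Nat.find ex, by omega⟩, ⟨e.le, e.ge⟩, e ▸ hs⟩
    · obtain ⟨i, hi⟩ : ∃ i, Nat.find ex = i + 1 := by
        refine Nat.exists_eq_succ_of_ne_zero fun e' => ?_
        rw [e'] at e
        exact absurd h0 (not_le.2 e)
      have a3 : ξ i < s := not_le.1 (Nat.find_min ex (by omega))
      rw [hi] at e a2
      refine Or.inr ⟨⟨i, by omega⟩, ⟨a3.le, e.le⟩, clopen hG (h i) ⟨a3, e⟩ hs _ ⟨?_, ?_⟩⟩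
      · show ξ i ≤ (ξ i + ξ (i + 1)) * (1 / 2)
        linarith
      · show (ξ i + ξ (i + 1)) * (1 / 2) ≤ ξ (i + 1)
        linarith
  · rintro (⟨j, a, b⟩ | ⟨j, a, b⟩)
    · rw [le_antisymm a.1 a.2]
      exact b
    · rcases (a.1.trans a.2).eq_or_lt with e | e
      · have e' : s = (ξ j + ξ (j + 1)) * (1 / 2) := by linarith [a.1, a.2]
        rw [e']
        exact b
      · exact clopen hG (h j) ⟨by linarith, by linarith⟩ b s a

lemma tow_compact {Y : Type} [TopologicalSpace Y] [CompactSpace Y] (ξ : ℕ → Y → ℝ) (n : ℕ)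
    (h : ∀ j, Continuous (ξ j)) : CompactSpace (Tow ξ n) := by
  obtain ⟨m, hm⟩ := (isCompact_range (h 0)).bddBelow
  obtain ⟨M, hM⟩ := (isCompact_range (h n)).bddAbove
  refine (isCompact_iff_compactSpace (s := {p : Y × ℝ | ξ 0 p.1 ≤ p.2 ∧ p.2 ≤ ξ n p.1})).1 ?_
  refine ((isCompact_univ (X := Y)).prod (isCompact_Icc (a := m) (b := M))).of_isClosed_subset
    ((isClosed_le ((h 0).comp continuous_fst) continuous_snd).inter
      (isClosed_le continuous_snd ((h n).comp continuous_fst))) fun p hp => ?_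
  exact ⟨mem_univ _, (hm ⟨_, rfl⟩).trans hp.1, hp.2.trans (hM ⟨_, rfl⟩)⟩

lemma cont_cons {X : Type} [TopologicalSpace X] {k : ℕ} {η : X → ℝ} {x : X → Fin k → ℝ}
    (h : Continuous η) (h' : Continuous x) :
    Continuous fun p => (Fin.cons (η p) (x p) : Fin (k + 1) → ℝ) := by
  refine continuous_pi fun i => ?_
  refine Fin.cases ?_ (fun i => ?_) i
  · exact h
  · exact (continuous_apply i).comp h'

lemma on_graph (h2 : SubV) {k : ℕ} {F : (Fin (k + 1) → ℝ) → ℝ} {η : (Fin k → ℝ) → ℝ}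
    (hF : Continuous F ∧ Itg F) (hη : Continuous η ∧ Itg η) :
    (Continuous fun x => F (Fin.cons (η x) x)) ∧ Itg fun x => F (Fin.cons (η x) x) := by
  refine ⟨hF.1.comp (cont_cons hη.1 continuous_id), ?_⟩
  refine h2 (Fin k) (Fin (k + 1)) (fun i x => (Fin.cons (η x) x : Fin (k + 1) → ℝ) i) F
    (fun i => ?_) hF.2
  refine Fin.cases ?_ (fun i => ?_) i
  · exact hη.2
  · simpa using Itg.poly (σ := Fin k) (X i)

lemma base (κ : Type) (f : κ → (Fin 0 → ℝ) → ℝ) (K : Set (Fin 0 → ℝ)) :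
    ∃ (Y : Type) (_ : TopologicalSpace Y) (_ : CompactSpace Y) (e : C(Y, Fin 0 → ℝ))
      (w : κ → Y → ℝ), Injective e ∧ K ⊆ range e ∧ Sc w ∧ ∀ q y, w q y = 0 ↔ f q (e y) = 0 := by
  classical
  refine ⟨Unit, inferInstance, inferInstance, ContinuousMap.const _ 0,
    fun q _ => if f q 0 = 0 then 0 else 1, fun _ _ _ => rfl,
    fun z _ => ⟨(), Subsingleton.elim _ _⟩, ⟨fun _ => continuous_const, fun q _ => ?_,
      fun φ _ b _ => ⟨ContinuousMap.snd, fun _ => rfl, fun q t _ => ?_⟩⟩, fun q _ => ?_⟩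
  · split_ifs <;> simp
  · split_ifs
    · exact (b t).2.1.symm
    · exact (b t).2.2.symm
  · simp

end WTri

theorem triV (h1 : ZloV) (h2 : SubV) (h3 : NoeV) (h4 : RootV) (h5 : BandV) : TriV := by
  intro k
  induction k with
  | zero => exact fun κ _ f K _ _ => WTri.base κ f K
  | succ k ih =>
    intro κ _ f K hf hK
    have := Fintype.ofFinite κ
    choose a ha0 ha using fun q => h1 _ (f q) (hf q).1 (hf q).2
    obtain ⟨θ, q₀, hq₀, hθ, hr⟩ := h3 k (∏ q, a q) (Finset.prod_ne_zero_iff.2 fun q _ => ha0 q)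
    have hK₀ : IsCompact (θ.symm '' K) := hK.image θ.symm.continuous
    obtain ⟨R, hR⟩ := (hK₀.image (continuous_abs.comp (continuous_apply 0))).bddAbove
    have m1 := Polynomial.monic_X_sub_C (C R : MvPolynomial (Fin k) ℝ)
    have m2 := Polynomial.monic_X_add_C (C R : MvPolynomial (Fin k) ℝ)
    obtain ⟨ξ, hξ, hmono, hroot⟩ := h4 (Fin k)
      (q₀ * (Polynomial.X - Polynomial.C (C R)) * (Polynomial.X + Polynomial.C (C R)))
      (q₀.natDegree + 1) ((hq₀.mul m1).mul m2) (by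
        rw [(hq₀.mul m1).natDegree_mul m2, hq₀.natDegree_mul m1, Polynomial.natDegree_X_sub_C,
          Polynomial.natDegree_X_add_C])
    generalize q₀.natDegree + 1 = n at hroot
    have hev : ∀ (x : Fin k → ℝ) s, ((q₀ * (Polynomial.X - Polynomial.C (C R)) *
        (Polynomial.X + Polynomial.C (C R))).map (eval x)).eval s =
        (q₀.map (eval x)).eval s * (s - R) * (s + R) := fun x s => by simp
    have lo : ∀ x, ξ 0 x ≤ -R := fun x => by
      obtain ⟨j, -, e⟩ := hroot x (-R) (by rw [hev]; simp)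
      exact e ▸ hmono x (Nat.zero_le j)
    have hi : ∀ x, R ≤ ξ n x := fun x => by
      obtain ⟨j, hj, e⟩ := hroot x R (by rw [hev]; simp)
      exact e ▸ hmono x hj
    have hF : ∀ q, (Continuous fun z => f q (θ z)) ∧ Itg fun z => f q (θ z) := fun q =>
      ⟨(hf q).1.comp θ.continuous, h2 _ _ (fun i z => θ z i) (f q) hθ (hf q).2⟩
    have loc : ∀ q x j, ∀ t ∈ Ioo (ξ j x) (ξ (j + 1) x), f q (θ (Fin.cons t x)) = 0 →
        ∀ᶠ u in 𝓝 t, f q (θ (Fin.cons u x)) = 0 := by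
      intro q x j t ht h0
      have c : Continuous fun u : ℝ => θ (Fin.cons u x) :=
        θ.continuous.comp (WTri.cont_cons continuous_id continuous_const)
      refine (c.tendsto t).eventually (ha q _ (fun e => ?_) h0)
      have e1 : eval (θ (Fin.cons t x)) (∏ q, a q) = 0 := by
        rw [map_prod]
        exact Finset.prod_eq_zero (Finset.mem_univ q) e
      obtain ⟨i, -, e2⟩ := hroot x t (by rw [hev, hr t x e1]; simp)
      rcases le_or_gt i j with l | l
      · exact absurd (e2 ▸ hmono x l) (not_le.2 ht.1)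
      · exact absurd (e2 ▸ hmono x (Nat.succ_le_of_lt l)) (not_le.2 ht.2)
    obtain ⟨Y, _, _, e, w, he, hKe, hw, hz⟩ := ih ((κ × Fin (n + 1)) ⊕ (κ × Fin n) ⊕ Fin n)
      (Sum.elim (fun p x => f p.1 (θ (Fin.cons (ξ p.2 x) x)))
        (Sum.elim (fun p x => f p.1 (θ (Fin.cons ((ξ p.2 x + ξ (p.2 + 1) x) * (1 / 2)) x)))
          fun j x => ξ (j + 1) x - ξ j x)) (Fin.tail '' (θ.symm '' K)) (by
        rintro (p | p | j)
        · exact WTri.on_graph h2 (hF p.1) (hξ _)
        · exact WTri.on_graph h2 (hF p.1) ⟨((hξ _).1.add (hξ _).1).mul continuous_const,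
            ((hξ _).2.add (hξ _).2).mul (Itg.const _)⟩
        · exact ⟨(hξ _).1.sub (hξ _).1, (hξ _).2.sub (hξ _).2⟩)
      (hK₀.image (continuous_pi fun i => continuous_apply _))
    have hc : ∀ j, Continuous fun y => ξ j (e y) := fun j => (hξ j).1.comp e.continuous
    obtain ⟨κ', w', hw', hup, hgr⟩ := h5 Y _ w (fun j y => ξ j (e y)) n hw hc
      (fun y => hmono (e y)) (fun j hj => by
        obtain ⟨u, hu, hu'⟩ := hw.es (Sum.inr (Sum.inr ⟨j, hj⟩))
        refine ⟨u, hu, fun y => (hu' y).trans ((hz _ y).trans ?_)⟩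
        exact sub_eq_zero.trans eq_comm)
    have key : ∀ q, ES w' {p | f q (θ (Fin.cons p.1.2 (e p.1.1))) = 0} := by
      intro q
      obtain ⟨u, hu, hu'⟩ := (ES.biUnion Finset.univ fun (j : Fin (n + 1)) _ =>
        ((hgr j (Nat.le_of_lt_succ j.2)).1.inter (hgr j (Nat.le_of_lt_succ j.2)).2).inter
          (hup _ (hw.es (Sum.inl (q, j))))).union (ES.biUnion Finset.univ fun (j : Fin n) _ =>
        ((hgr j j.2.le).2.inter (hgr (j + 1) j.2).1).inter
          (hup _ (hw.es (Sum.inr (Sum.inl (q, j))))))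
      refine ⟨u, hu, fun p => (hu' p).trans ?_⟩
      have := WTri.zero_iff (G := fun t => f q (θ (Fin.cons t (e p.1.1))))
        ((hF q).1.comp (WTri.cont_cons continuous_id continuous_const))
        (ξ := fun j => ξ j (e p.1.1)) (loc q _) p.2.1 p.2.2
      refine Iff.trans ?_ this.symm
      simp only [mem_union, mem_iUnion, mem_inter_iff, mem_ofPred_eq, Finset.mem_univ, exists_const,
        hz, Sum.elim_inl, Sum.elim_inr]
    choose u hu hu' using key
    refine ⟨_, inferInstance, WTri.tow_compact _ n hc, ⟨fun p => θ (Fin.cons p.1.2 (e p.1.1)),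
      θ.continuous.comp (WTri.cont_cons (continuous_snd.comp continuous_subtype_val)
        (e.continuous.comp (continuous_fst.comp continuous_subtype_val)))⟩, u, fun p p' h => ?_,
      fun z hz' => ?_, hw'.of_eqv hu, hu'⟩
    · have h' := Fin.cons_injective2 (θ.injective h)
      exact Subtype.ext (Prod.ext (he h'.2) h'.1)
    · obtain ⟨y, hy⟩ := hKe ⟨_, ⟨z, hz', rfl⟩, rfl⟩
      have b := abs_le.1 (hR ⟨_, ⟨z, hz', rfl⟩, rfl⟩)
      refine ⟨⟨(y, θ.symm z 0), (lo _).trans b.1, b.2.trans (hi _)⟩, ?_⟩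
      show θ (Fin.cons (θ.symm z 0) (e y)) = z
      rw [hy, Fin.cons_self_tail, θ.apply_symm_apply]

end Pool.Agent.Lib.MP_837412_lc.K
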