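import Pool.Agent.Lib.MP_837412_lc.WG
import Pool.Agent.Lib.MP_837412_lc.KG3
import Pool.Agent.Lib.MP_837412_lc.WAlg
import Pool.Agent.Lib.MP_837412_lc.WBand
import Pool.Agent.Lib.MP_837412_lc.WCov
import Pool.Agent.Lib.MP_837412_lc.WDom
import Pool.Agent.Lib.MP_837412_lc.WHom
import Pool.Agent.Lib.MP_837412_lc.WLev
import Pool.Agent.Lib.MP_837412_lc.WPol
import Pool.Agent.Lib.MP_837412_lc.WRoot
import Pool.Agent.Lib.MP_837412_lc.WSand
import Pool.Agent.Lib.MP_837412_lc.WStab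
import Pool.Agent.Lib.MP_837412_lc.WTri

/-!
All statements hold.
-/

namespace Pool.Agent.Lib.MP_837412_lc.K

theorem allV [Coef] : AllV :=
  ⟨domV, krV, omV, polV, bigM, sandV (triV zloV subV noeV rootV bandV) (patV covV)
    (levV covV (patV covV)), stabV acS all.grow, pathV, bigV psiS, homV⟩

theorem mainW [Coef] (k s d : ℕ) (Φ : Set (Fin s → SignType)) :
    ∃ T : Tree (Fin s × (Fin k →₀ ℕ)), T.depth ≤ (s * (d + 1) + 2) ^ (k + 2) ^ 63 ∧
      ∀ P : Fin s → MvPolynomial (Fin k) ℝ, (∀ j, (P j).totalDegree ≤ d) → ∀ i ≤ k,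
        betti F (signSet P Φ) i =
          (T.run (fun q => MvPolynomial.coeff q.2 (P q.1)) []).getD i 0 := by
  rcases s with _ | s
  · obtain ⟨T, a, b⟩ := allV.main0 allK k 0 0 Φ le_rfl (by omega) (by omega)
    exact ⟨T, by simpa using a, fun P _ => b P fun j => j.elim0⟩
  · exact allV.main0 allK k _ d Φ (by omega) (by nlinarith) (by nlinarith)

end Pool.Agent.Lib.MP_837412_lc.K
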