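import Pool.Agent.Lib.MP_837412_lc.WSt
import Pool.Agent.Lib.MP_837412_lc.KPort

/-!
An explicit strict sign cell with the homology of an arbitrary sign set.
-/

namespace Pool.Agent.Lib.MP_837412_lc.K

open Set Function Filter Topology MvPolynomial
open Pool.Agent.Shared.Mod2 (I)

section Basic

variable {σ τ ι : Type} [Fintype τ] [Fintype ι] {N n d m : ℕ}

/-- The join of all pieces, with permuted variables. -/
noncomputable def Qb (θ : Equiv.Perm (σ ⊕ ι ⊕ ι)) (n : ℕ) (P : τ → MvPolynomial σ ℝ)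
    (e : Fin N → Set τ) (v : ℕ → ℝ) (χ : ι → τ) : MvPolynomial (σ ⊕ ι ⊕ ι) ℝ :=
  rename θ (big (pp n P e v) χ)

variable {θ : Equiv.Perm (σ ⊕ ι ⊕ ι)}

omit [Fintype τ] in
lemma deg_lev {P : τ → MvPolynomial σ ℝ} (h : ∀ q, (P q).totalDegree ≤ d) (A : Set τ) (a b : ℝ)
    (q : τ) : (lev P A a b q).totalDegree ≤ d := by
  have e : ∀ c : ℝ, (C c * P q).totalDegree ≤ d := fun c =>
    (totalDegree_mul _ _).trans (by rw [totalDegree_C, zero_add]; exact h q)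
  unfold lev
  split_ifs
  · exact (totalDegree_sub _ _).trans (max_le (e a) (by simp))
  · exact (totalDegree_sub _ _).trans (max_le (by simp) (e b))

lemma deg_big [Fintype σ] {p : Fin N → τ → MvPolynomial σ ℝ} (h : ∀ a q, (p a q).totalDegree ≤ d)
    (χ : ι → τ) : (big p χ).totalDegree ≤ 2 * (N + d + 1) := by
  obtain ⟨B, b1, b2⟩ : ∃ B, 2 ≤ B ∧ (2 * (N + d + 2) ^ 2 + Fintype.card τ + Fintype.card ι) ^
    (Fintype.card σ + 2 * Fintype.card ι + 1) ≤ B := ⟨max 2 _, le_max_left _ _, le_max_right _ _⟩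
  have := Fact.mk b1
  exact (all.bigA Unit σ τ ι B ⟨univ, univ⟩ 0 d N (fun _ => p) χ b2
    (fun a q _ _ => h a q) fun a q α => A.of_has ⟨⟨_, trivial, fun _ _ => rfl⟩,
      ⟨_, trivial, fun _ _ => rfl⟩⟩).2 () trivial

lemma deg_Qb [Fintype σ] {P : τ → MvPolynomial σ ℝ} (h : ∀ q, (P q).totalDegree ≤ d)
    (e : Fin N → Set τ) (v : ℕ → ℝ) (χ : ι → τ) :
    (Qb θ n P e v χ).totalDegree ≤ 2 * (n * N + d + 1) :=
  (totalDegree_rename_le _ _).trans (deg_big (fun _ q => deg_lev h _ _ _ q) χ)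

lemma cm_Qb (h : BigM) (P : τ → MvPolynomial σ ℝ) (e : Fin N → Set τ) (χ : ι → τ) :
    CM (2 * n) 2 fun v => Qb θ n P e v χ := fun α => by
  obtain ⟨β, rfl⟩ := Finsupp.mapDomain_surjective θ.surjective α
  simpa only [Qb, coeff_rename_mapDomain _ θ.injective] using h _ _ _ _ _ P e χ β

lemma Qb_update (P : τ → MvPolynomial σ ℝ) (e : Fin N → Set τ) (v : ℕ → ℝ) (l : ℝ) :
    Qb θ n P e (update v (2 * n) l) = Qb θ n P e v := by
  have : pp n P e (update v (2 * n) l) = pp n P e v := funext fun a => by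
    have := a.divNat.2
    rw [pp, pp, update_of_ne (by omega), update_of_ne (by omega)]
  unfold Qb
  rw [this]

omit [Fintype τ] in
lemma Tf_mono {P : τ → MvPolynomial σ ℝ} {e : Fin N → Set τ} {v v' : ℕ → ℝ}
    (h : ∀ i < n, 0 ≤ v' (2 * i) ∧ v' (2 * i) ≤ v (2 * i) ∧ 0 ≤ v (2 * i + 1) ∧
      v (2 * i + 1) ≤ v' (2 * i + 1)) : Tf n P e v' ⊆ Tf n P e v := by
  refine iUnion_mono fun a y hy q => ?_
  obtain ⟨h1, h2, h3, h4⟩ := h _ a.divNat.2
  have := hy q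
  simp only [pp, lev, sign_eq_one_iff] at this ⊢
  split_ifs at this ⊢
  · simp only [map_sub, map_mul, eval_C, map_one] at this ⊢
    have p : 0 ≤ eval y (P q) := by
      by_contra c
      nlinarith [mul_nonneg h1 (neg_pos.2 (not_le.1 c)).le]
    nlinarith [mul_le_mul_of_nonneg_right h2 p]
  · simp only [map_sub, map_mul, eval_C, map_one] at this ⊢
    rcases le_total 0 (eval y (P q)) with p | p
    · nlinarith [mul_le_mul_of_nonneg_right h4 p]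
    · nlinarith [mul_nonneg h3 (neg_nonneg.2 p)]

variable [Fintype σ]

lemma cell_fam (Q : τ → MvPolynomial σ ℝ) (l : ℝ) : (cell (fam m Q l) fun _ => 1) = Wl m Q l := by
  ext y
  simp [cell, Wl, Option.forall, fam, sign_eq_one_iff]

variable [DecidableEq σ]

lemma reg {Q : τ → MvPolynomial σ ℝ} {l : ℝ} (hm : 2 ≤ m) (hd : (sq Q).totalDegree < m)
    (h : Gd m Q l ≠ 0) (y : σ → ℝ) (hy : Crit (Fl m (sq Q) l) y) : eval y (Fl m (sq Q) l) ≠ 0 := by
  intro e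
  have c : Crit (Fl m (cx' (sq Q)) (l : ℂ)) fun i => (y i : ℂ) := fun i => by
    rw [← cx_Fl, pderiv_cx, eval_cx, hy i, Complex.ofReal_zero]
  obtain ⟨a, ha⟩ := (all.crit σ m _ l hm ((deg_cx _).trans_lt hd) _ c).1
  rw [← cx_Fl, eval_cx, e, Complex.ofReal_zero] at ha
  exact h (by rw [Gd, Polynomial.coeff_zero_eq_eval_zero]; exact eval_chi_eq_zero.2 ⟨a, ha⟩)

lemma Gd_zero {Q : τ → MvPolynomial σ ℝ} (hm : 2 ≤ m) (hd : (sq Q).totalDegree < m) :
    Gd m Q 0 ≠ 0 := fun e => by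
  rw [Gd, Polynomial.coeff_zero_eq_eval_zero, Complex.ofReal_zero] at e
  obtain ⟨a, ha⟩ := eval_chi_eq_zero.1 e
  exact ((all.qv _ _).1 (all.zero σ m _ hm ((deg_cx _).trans_lt hd)).2).2 a ha

end Basic

section Expl

variable {k s N : ℕ}

/-- The index set of the family on the sphere. -/
abbrev Ix (s : ℕ) : Type := (Fin s × Bool) ⊕ Option Bool

/-- The variables of the final family. -/
abbrev Vs (k : ℕ) : Type := Fin (k + 1) ⊕ Fin (k + 2) ⊕ Fin (k + 2)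

/-- The index set of the join. -/
abbrev Jx (k s : ℕ) : Type := Fin (k + 2) → Ix s

/-- The degree of the join. -/
def dW (k d N : ℕ) : ℕ := 2 * ((k + 2) * N + (d + 2) + 1)

/-- The degree of the pencil. -/
def mW (k s d N : ℕ) : ℕ := 2 * Fintype.card (Jx k s) * dW k d N + 3

/-- The growth rate of the parameters. -/
def MW (k s d N : ℕ) : ℕ := Dp (Vs k) (Jx k s) (mW k s d N) 2 + 1

variable (d : ℕ) (P : Fin s → MvPolynomial (Fin k) ℝ) (e : Fin N → Fin s → SignType)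
  (θ : Equiv.Perm (Vs k))

/-- The join on the curve of parameters. -/
noncomputable def QW (t : ℝ) : Jx k s → MvPolynomial (Vs k) ℝ :=
  Qb θ (k + 2) (hf d P) (fun c => pat (e c)) (kr (MW k s d N) t)

/-- Vanishes at the bad parameters. -/
noncomputable def GW (t : ℝ) : ℂ :=
  Gd (mW k s d N) (QW d P e θ t) (kr (MW k s d N) t (2 * (k + 2)))

/-- A good parameter. -/
noncomputable def tW : ℝ := cb (pol (GW d P e θ))

/-- The final family. -/
noncomputable def famW : Option (Jx k s) → MvPolynomial (Vs k) ℝ :=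
  fam (mW k s d N) (QW d P e θ (tW d P e θ)) (kr (MW k s d N) (tW d P e θ) (2 * (k + 2)))

end Expl

variable [Coef]

lemma hs_perm {σ : Type} (θ : Equiv.Perm σ) (A B : Set (σ → ℝ)) (j : ℕ) :
    hs {z : σ → ℝ | z ∘ θ ∈ A} {z | z ∘ θ ∈ B} j = hs A B j :=
  hs_preimage (Homeomorph.piCongrLeft (Y := fun _ => ℝ) θ).symm A B j

/-- The statements that are used in the assembly. -/
structure AllV : Prop where
  dom : DomV
  kr : KrV
  om : OmV
  polV : PolV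
  bigM : BigM
  sand : SandV
  stab : StabV
  path : PathV
  bigV : BigV
  hom : HomV

namespace AllV

variable (H : AllV) {τ ι : Type} [Fintype τ] [Fintype ι] [DecidableEq ι] {k N n d m : ℕ}
  {θ : Equiv.Perm (Fin k ⊕ ι ⊕ ι)} {P : τ → MvPolynomial (Fin k) ℝ} {e : Fin N → Set τ}
  (hm : 2 ≤ m) (ho : Odd m) (hd : ∀ q, (P q).totalDegree ≤ d)
  (hq : ∀ v, (sq (Qb θ n P e v)).totalDegree < m)
include H hq

lemma isM : IsM (2 * n) (Dp (Fin k ⊕ ι ⊕ ι) (ι → τ) m 2)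
    fun v => Gd m (Qb θ n P e v) (v (2 * n)) :=
  H.polV _ _ _ _ _ (Qb θ n P e) (cm_Qb H.bigM P e) hq

include hm ho hd

lemma near {γ : I → ℕ → ℝ} (hγ : Continuous γ) (h0 : ∀ u, 0 < γ u (2 * n))
    (hG : ∀ u, Gd m (Qb θ n P e (γ u)) (γ u (2 * n)) ≠ 0) (u₀ : I) : ∀ᶠ u in 𝓝 u₀,
    Nr (Wl m (Qb θ n P e (γ u)) (γ u (2 * n))) (Wl m (Qb θ n P e (γ u₀)) (γ u₀ (2 * n))) ∧
    Nr (Wl m (Qb θ n P e (γ u₀)) (γ u₀ (2 * n))) (Wl m (Qb θ n P e (γ u)) (γ u (2 * n))) :=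
  H.stab _ _ I m _ (fun u => Qb θ n P e (γ u)) (fun u => γ u (2 * n)) u₀ ho
    (fun χ α => Complex.continuous_re.comp
      ((H.kr _ _ 1 _ (cm_Qb H.bigM P e χ α) le_rfl).2 γ hγ))
    (fun _ χ => deg_Qb hd e _ χ) (fun _ => hq _) ((continuous_apply _).comp hγ) (h0 u₀)
    (reg hm (hq _) (hG u₀))

omit hd in
lemma core0 [Nonempty τ] {v : ℕ → ℝ} (h0 : 0 < v (2 * n))
    (hG : ∀ l, v (2 * n) ≤ l → Gd m (Qb θ n P e v) l ≠ 0) :
    Wl m (Qb θ n P e v) (v (2 * n)) ⊆ {z | (fun i => z (θ (Sum.inl i))) ∈ Tf n P e v} ∧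
    ∀ j ≤ Fintype.card ι, hs {z | (fun i => z (θ (Sum.inl i))) ∈ Tf n P e v}
      (Wl m (Qb θ n P e v) (v (2 * n))) j = 0 := by
  obtain ⟨b0, b2⟩ := (H.bigV (Fin k) τ ι).2 _ (pp n P e v)
  have ce : (cell (Qb θ n P e v) fun _ => 1) = {z | z ∘ θ ∈ cell (big (pp n P e v)) fun _ => 1} :=
    Set.ext fun z => by simp only [cell, Qb, eval_rename, mem_ofPred_eq]
  have b1 : (cell (Qb θ n P e v) fun _ => 1) ⊆ {z | (fun i => z (θ (Sum.inl i))) ∈ Tf n P e v} :=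
    fun z hz => b0 (ce.le hz)
  have a := limS acS all.grow _ m (sq (Qb θ n P e v)) _ _ _ ho (hq v) h0
    (fun l hl => reg hm (hq v) (hG l hl)) (isOpen_cell (π := fun _ => 1) _ fun _ => one_ne_zero)
    (isOpen_oth _ _) (disj_oth _ _) (cov_oth _ _)
  have sub : (cell (Qb θ n P e v) fun _ => 1) ⊆ {y | 0 < eval y (sq (Qb θ n P e v))} :=
    fun y hy => sq_pos.2 fun χ => (sign_eq_one_iff.1 (hy χ)).ne'
  rw [inter_eq_right.2 sub] at a
  refine ⟨inter_subset_right.trans b1, fun j hj => le_zero_iff.1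
    ((hs_le inter_subset_right b1).trans_eq ?_)⟩
  refine add_eq_zero.2 ⟨a j, ?_⟩
  rw [ce]
  exact (hs_perm θ {z | (fun i => z (Sum.inl i)) ∈ Tf n P e v} _ j).trans (b2 j hj)

theorem fin0 [Nonempty τ] (hb : Bdd P e) {M : ℕ} (hM : M = Dp (Fin k ⊕ ι ⊕ ι) (ι → τ) m 2 + 1) :
    (∃ t, Gd m (Qb θ n P e (K.kr M t)) (K.kr M t (2 * n)) ≠ 0) ∧ ∀ t₀ > 0,
      (∀ t, t₀ ≤ t → Gd m (Qb θ n P e (K.kr M t)) (K.kr M t (2 * n)) ≠ 0) →
      ∀ j, j < n → j < Fintype.card ι →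
        hs (Wl m (Qb θ n P e (K.kr M t₀)) (K.kr M t₀ (2 * n))) ∅ j = hs (Ps P e) ∅ j := by
  obtain ⟨c, c1, hc⟩ := H.dom _ _ _ (H.isM hq) ⟨0, Gd_zero hm (hq 0)⟩
  rw [← hM] at hc
  obtain ⟨o1, o2, o3, o4⟩ := H.om c M (2 * n) c1 (by omega)
  refine ⟨⟨c, hc _ (o2 c le_rfl)⟩, fun t₀ t0 ht j hj hj' => ?_⟩
  obtain ⟨v, v', Z, s1, s2, s3, s4, s5⟩ := H.sand k N n M τ P e c hb c1
  have co : ∀ v ∈ Om c M (2 * n), _ := fun v hv => H.core0 (v := v) hm ho hq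
    (one_pos.trans_le (o3 v hv _ le_rfl)) fun l hl => by
      simpa only [Qb_update, update_self] using hc _ (o4 v hv l hl)
  have seg : ∀ a ∈ Om c M (2 * n), ∀ b ∈ Om c M (2 * n), ∀ u : I,
      (1 - (u : ℝ)) • a + (u : ℝ) • b ∈ Om c M (2 * n) := fun a ha b hb u =>
    o1 ha hb (sub_nonneg.2 u.2.2) u.2.1 (by ring)
  have pa := fun a ha b hb => H.path _ _ j (H.near hm ho hd hq
    (γ := fun u : I => (1 - (u : ℝ)) • a + (u : ℝ) • b) (by fun_prop)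
    (fun u => one_pos.trans_le (o3 _ (seg a ha b hb u) _ le_rfl)) fun u => hc _ (seg a ha b hb u))
  have e1 := (H.path _ _ j (H.near hm ho hd hq
    (γ := fun u : I => K.kr M (t₀ + u * (max t₀ c - t₀))) (by unfold K.kr; fun_prop)
    (fun u => pow_pos (add_pos_of_pos_of_nonneg t0
      (mul_nonneg u.2.1 (sub_nonneg.2 (le_max_left _ _)))) _)
    fun u => ht _ (le_add_of_nonneg_right
      (mul_nonneg u.2.1 (sub_nonneg.2 (le_max_left _ _)))))).1
  have e2 := (pa _ (o2 _ (le_max_right t₀ c)) v (s1 _).1).1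
  have e3 := (pa v (s1 _).1 v' (s1 _).2).2
    (fun u => {z | (fun i => z (θ (Sum.inl i))) ∈ Tf n P e ((1 - (u : ℝ)) • v + (u : ℝ) • v')})
    {z | (fun i => z (θ (Sum.inl i))) ∈ Z} (fun u u' h z hz => Tf_mono (fun i hi => by
      have h' : (u : ℝ) ≤ u' := h
      have a1 := o3 _ (seg v (s1 _).1 v' (s1 _).2 u') (2 * i) (by omega)
      have a2 := o3 _ (seg v (s1 _).1 v' (s1 _).2 u) (2 * i + 1) (by omega)
      refine ⟨zero_le_one.trans a1, ?_, zero_le_one.trans a2, ?_⟩ <;>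
        simp only [Pi.add_apply, Pi.smul_apply, smul_eq_mul]
      · nlinarith [mul_nonneg (sub_nonneg.2 h') (sub_nonneg.2 (s2 i).1)]
      · nlinarith [mul_nonneg (sub_nonneg.2 h') (sub_nonneg.2 (s2 i).2)]) hz)
    (fun u => ⟨(co _ (seg v (s1 _).1 v' (s1 _).2 u)).1,
      (co _ (seg v (s1 _).1 v' (s1 _).2 u)).2 j hj'.le⟩)
    (fun z hz => s3 (by simpa using hz)) fun z hz => by simpa using s4 hz
  have cy : ∀ (A : Set (Fin k → ℝ)) j, hs {z : Fin k ⊕ ι ⊕ ι → ℝ |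
      (fun i => z (θ (Sum.inl i))) ∈ A} ∅ j = hs A ∅ j := fun A j =>
    (hs_perm θ {z | (fun i => z (Sum.inl i)) ∈ A} ∅ j).trans ((H.bigV (Fin k) τ ι).1 A j)
  have e4 := hs_left (empty_subset _) (co v (s1 _).1).1 ((co v (s1 _).1).2 j hj'.le)
    ((co v (s1 _).1).2 (j + 1) hj')
  simp only [Icc.coe_zero, Icc.coe_one, zero_mul, one_mul, add_zero, add_sub_cancel, sub_zero,
    sub_self, one_smul, zero_smul, zero_add] at e1 e2 e3
  rw [cy, cy, (s5 j hj).1] at e3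
  rw [e1, e2, ← e4, cy]
  exact le_antisymm e3 (s5 j hj).2

end AllV

theorem AllV.finW (H : AllV) {k s N d : ℕ} {P : Fin s → MvPolynomial (Fin k) ℝ}
    (hd : ∀ j, (P j).totalDegree ≤ d) (e : Fin N → Fin s → SignType) (θ : Equiv.Perm (Vs k)) :
    (∀ t χ, (QW d P e θ t χ).totalDegree ≤ dW k d N) ∧
    IsP Complex.ofReal (Dp (Vs k) (Jx k s) (mW k s d N) 2 * MW k s d N ^ (2 * (k + 2)))
      (GW d P e θ) ∧ pol (GW d P e θ) ≠ 0 ∧
    ∀ j < k + 2, hs (cell (famW d P e θ) fun _ => 1) ∅ j = hs (signSet P (range e)) ∅ j := by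
  obtain ⟨h1, h2, h3⟩ := H.hom k s d N P e hd
  have hq : ∀ v, (sq (Qb θ (k + 2) (hf d P) (fun c => pat (e c)) v)).totalDegree <
      mW k s d N := fun v => deg_sq fun χ => deg_Qb h1 _ v χ
  have ip : IsP Complex.ofReal _ (GW d P e θ) :=
    (H.kr _ _ (MW k s d N) _ (H.isM hq) (Nat.le_add_left _ _)).1
  obtain ⟨⟨t, a⟩, b⟩ := H.fin0 (m := mW k s d N) (Nat.le_add_left 2 _)
    ⟨Fintype.card (Jx k s) * dW k d N + 1, by rw [mW]; ring⟩ h1 hq h2 (M := MW k s d N) rfl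
  have ne : pol (GW d P e θ) ≠ 0 := fun c => a ((ip.pol.2 t).symm.trans (by rw [c]; simp))
  obtain ⟨c1, c2⟩ := all.cbs (pol (GW d P e θ))
  refine ⟨fun t χ => deg_Qb h1 _ _ χ, ip, ne, fun j hj => ?_⟩
  rw [famW, cell_fam, ← h3]
  refine b _ (one_pos.trans_le c1) (fun t ht c => ?_) j hj (by simpa using hj)
  have := c2 ne t ((ip.pol.2 t).trans c)
  rw [Complex.norm_real, Real.norm_eq_abs] at this
  exact (this.trans_le ht).not_ge (le_abs_self t)

end Pool.Agent.Lib.MP_837412_lc.K
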