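import Pool.Agent.Lib.MP_837412_lc.WFin
import Pool.Agent.Lib.MP_837412_lc.KG2

/-!
The tree determines the homology of arbitrary sign sets, over every field.
-/

namespace Pool.Agent.Lib.MP_837412_lc.K

open Set Function MvPolynomial Filter Topology

section Tr

variable {α σ τ ι : Type} [Fintype σ] [Fintype τ] [Fintype ι] {B : ℕ} [hB : Fact (2 ≤ B)]
  {Γ : Ctx α} {N n d m M E k s : ℕ}

lemma AM_Qb {P : α → τ → MvPolynomial σ ℝ} {e : Fin N → Set τ} {t : α → ℝ}
    {θ : Equiv.Perm (σ ⊕ ι ⊕ ι)} (hM : 1 ≤ M)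
    (h2 : M ^ (2 * n) ≤ B) (h3 : (2 * (n * N + d + 2) ^ 2 + Fintype.card τ + Fintype.card ι) ^
      (Fintype.card σ + 2 * Fintype.card ι + 1) ≤ B) (hd : ∀ q, Dm Γ d fun x => P x q)
    (h : ∀ q, AM B Γ E fun x => P x q) (ht : A B Γ E t) (χ : ι → τ) :
    AM B Γ (E + 135) fun x => Qb θ n (P x) e (kr M (t x)) χ := by
  refine (all.bigA α σ τ ι B Γ (E + 14) d (n * N) (fun x => pp n (P x) e (kr M (t x))) χ h3
    (fun a q x hx => deg_lev (fun q => hd q x hx) _ _ _ q) fun a q => ?_).1.rename θ.injective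
  have := a.divNat.2
  have c : ∀ r ≤ 2 * n, AM B Γ (E + 10) fun x => C (kr M (t x) r) * P x q := fun r hr =>
    (AM.C_mul (ht.pow ((Nat.pow_le_pow_right hM hr).trans h2)) (h q)).mono (by omega)
  simp only [pp, lev]
  split_ifs
  · exact ((c _ (by omega)).sub (AM.C A.one)).mono (by omega)
  · exact ((AM.C A.one).sub (c _ (by omega))).mono (by omega)

lemma AM_fam [DecidableEq σ] {Q : α → τ → MvPolynomial σ ℝ} {l : α → ℝ}
    (hm : m = 2 * Fintype.card τ * d + 3) (h1 : sz σ m < B) (h2 : Fintype.card τ ≤ B)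
    (hd : ∀ q, Dm Γ d fun x => Q x q) (h : ∀ q, AM B Γ E fun x => Q x q) (hl : A B Γ E l) :
    (A B Γ (E + 231) fun x => Gd m (Q x) (l x)) ∧ ∀ o, (AM B Γ (E + 113) fun x =>
      fam m (Q x) (l x) o) ∧ Dm Γ (m + 1) fun x => fam m (Q x) (l x) o := by
  have dq : ∀ x ∈ Γ.Y, (sq (Q x)).totalDegree < m := fun x hx => hm ▸ deg_sq fun j => hd j x hx
  have dd : ∀ j : τ, d ≤ m := fun j => by
    have := Fintype.card_pos_iff.2 ⟨j⟩
    nlinarith
  obtain ⟨-, s2, s3, -⟩ := sizes (σ := σ) (by omega : 3 ≤ m)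
  have dc : ∀ x ∈ Γ.Y, (cx' (sq (Q x))).totalDegree < m := fun x hx => (deg_cx _).trans_lt (dq x hx)
  have μ := Nat.le_self_pow two_ne_zero (Fintype.card (Std σ m))
  have pw : ∀ n ≤ m, (n + 1) ^ Fintype.card σ ≤ B := fun n hn =>
    (Nat.pow_le_pow_left (by omega) _).trans (s2.trans h1.le)
  have a1 : AM B Γ (E + 26) fun x => cx' (sq (Q x)) :=
    ((AM.prod Finset.univ h2 (n := 2 * d) (fun j _ => ((h j).mul (h j) (hd j) (pw _ (dd j))).congr
      fun _ _ => pow_two _) (fun j _ x hx => (totalDegree_pow _ _).trans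
        (Nat.mul_le_mul_left 2 (hd j x hx))) (pw _ (by
          rw [Finset.card_univ]; nlinarith))).ofReal).mono (by omega)
  have a2 : A B Γ (E + 26) fun x => (l x : ℂ) := (hl.ofReal (𝕜 := ℂ)).mono (by omega)
  refine ⟨(all.lamA α σ B Γ _ m (sz σ m) _ _ h1.le h1.le dc a1 a2).chi h1 (by omega) 0, ?_⟩
  rintro (_ | q)
  · refine ⟨fun β => (((all.flA α σ B Γ _ m _ _ h1.le (fun x hx => (dc x hx).le) a1 a2).1
      β).re.neg).congr fun x _ => ?_, fun x hx => (totalDegree_neg _).trans_le (deg_Fl (dq x hx) _)⟩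
    beta_reduce
    rw [← cx_Fl, coeff_map]
    simp [fam]
  · exact ⟨(h q).mono (by omega), fun x hx => (hd q x hx).trans (by have := dd q; omega)⟩

lemma AM_hf {P : α → Fin s → MvPolynomial (Fin k) ℝ} (h1 : (d + 1) ^ k ≤ B) (h2 : k + 1 ≤ B)
    (h : ∀ j, AM B Γ 1 fun x => P x j) (q : Ix s) : AM B Γ 13 fun x => hf d (P x) q := by
  have a : ∀ j, AM B Γ 8 fun x => hg d (P x j) := fun j =>
    AM.sum _ (card_box.trans_le (by simpa using h1)) fun β _ => AM.monomial (h j β) _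
  have b : AM B Γ 9 fun _ => ∑ i, (X i ^ 2 : MvPolynomial (Fin (k + 1)) ℝ) :=
    AM.sum _ (by simpa using h2) fun i _ => (AM.monomial A.one _).congr fun _ _ => X_pow_eq_monomial
  rcases q with ⟨j, _ | _⟩ | _ | _ | _
  · exact fun β => (a j β).neg.congr fun _ _ => coeff_neg _ _ _
  · exact (a j).mono (by omega)
  · exact (AM.X 0).mono (by omega)
  · exact (AM.X 0).sub b
  · exact b.sub (AM.X 0)

lemma le4 {x y z w : ℕ} (hx : x ≤ w + 2) (hy : y ≤ w + 2) (hz : z ≤ w + 2 + 2) :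
    2 * x * y + z ≤ (w + 2) ^ 4 := by
  have := Nat.mul_le_mul hx hy
  nlinarith [Nat.zero_le (w ^ 4), Nat.zero_le (w ^ 3), Nat.zero_le (w ^ 2)]

end Tr

variable [Coef]

namespace AllV

variable (H : AllV) (G : AllK) {α : Type} {B : ℕ} [Fact (2 ≤ B)] {Γ : Ctx α} {k s d N : ℕ}
  {p : α → Fin s → MvPolynomial (Fin k) ℝ}
include H G

theorem coreW (e : Fin N → Fin s → SignType)
    (h1 : sz (Vs k) (2 * Fintype.card (Option (Jx k s)) * (mW k s d N + 1 + 1) + 3) ^ 200 ≤ B)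
    (h2 : MW k s d N ^ (2 * (k + 2) + 1) < B)
    (h3 : (2 * ((k + 2) * N + (d + 2) + 2) ^ 2 + Fintype.card (Ix s) +
      Fintype.card (Fin (k + 2))) ^ (Fintype.card (Fin (k + 1)) + 2 * Fintype.card (Fin (k + 2)) + 1)
        ≤ B) (h4 : (d + 1) ^ k ≤ B) (h5 : k + 1 ≤ B) (h6 : sz (Vs k) (mW k s d N) < B)
    (h7 : Fintype.card (Jx k s) ≤ B) (hd : ∀ j, Dm Γ d fun x => p x j)
    (h : ∀ j, AM B Γ 1 fun x => p x j) : D B Γ 4713 fun x y => ∀ j < k + 2,
      hs (signSet (p x) (range e)) ∅ j = hs (signSet (p y) (range e)) ∅ j ∧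
        hs (signSet (p x) (range e)) ∅ j ≠ ⊤ := by
  have hM : 1 ≤ MW k s d N := Nat.le_add_left _ _
  have f := fun x hx => H.finW (fun j => hd j x hx) e 1
  have b1 : MW k s d N ^ (2 * (k + 2)) ≤ B := (Nat.pow_le_pow_right hM (by omega)).trans h2.le
  have b2 : Dp (Vs k) (Jx k s) (mW k s d N) 2 * MW k s d N ^ (2 * (k + 2)) + 1 < B := by
    refine lt_of_le_of_lt ?_ h2
    have := Nat.one_le_pow (2 * (k + 2)) _ hM
    rw [pow_succ, mul_comm (_ ^ _)]
    nth_rw 2 [MW]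
    rw [add_mul]
    omega
  have aF := fun E (hE : 13 ≤ E) (t : α → ℝ) (ht : A B Γ E t) =>
    AM_fam (Q := fun x => QW d (p x) e 1 (t x)) (m := mW k s d N) rfl h6 h7
      (fun χ x hx => (f x hx).1 _ χ) (AM_Qb hM b1 h3
        (fun q x hx => (H.hom k s d N _ e fun j => hd j x hx).1 q)
        (fun q => (AM_hf h4 h5 h q).mono hE) ht) ((ht.pow b1).mono (by omega))
  have a2 : AP B Γ 424 fun x => pol (GW d (p x) e 1) :=
    AP.pol (fun x hx => (f x hx).2.1) b2 fun t ht =>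
      (aF 13 le_rfl (fun _ => t) ((A.nat (by omega)).mono (by omega))).1
  have a4 := (aF 464 (by omega) _ (all.cba α B Γ 424 _ _ (by omega) a2
    (fun x hx => (f x hx).2.1.pol.1) fun x hx => (f x hx).2.2.1)).2
  refine (G.core h1 (fun o => (a4 o).2) fun o => (a4 o).1).imp fun x hx y hy a j hj => ?_
  rw [← (f x hx).2.2.2 j hj, ← (f y hy).2.2.2 j hj]
  exact a _ (fun _ => one_ne_zero) j

theorem det (Φ : Set (Fin s → SignType)) {b : ℕ} (hb : 2 ≤ b)
    (h1 : s ≤ b) (h2 : d ≤ b) (hB : b ^ (k + 2) ^ 50 ≤ B) (hd : ∀ j, Dm Γ d fun x => p x j)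
    (h : ∀ j, AM B Γ 1 fun x => p x j) : D B Γ 5000 fun x y => ∀ j < k + 2,
      hs (signSet (p x) Φ) ∅ j = hs (signSet (p y) Φ) ∅ j ∧ hs (signSet (p x) Φ) ∅ j ≠ ⊤ := by
  classical
  have hn : 2 ≤ k + 2 := by omega
  have le : ∀ {c x}, Sm b (k + 2) c x → c ≤ 50 → x ≤ B := fun a c => (a.mono hb hn c).trans hB
  have sb : Sm b (k + 2) 0 b := by simp [Sm]
  have sn : ∀ {c}, 1 ≤ c → Sm b (k + 2) c (k + 2) := fun a => (Sm.self hb).mono hb hn a
  have p4 : ∀ {x}, x ≤ 8 * (b + 2) ^ 2 → Sm b (k + 2) 4 x := fun a => sb.poly hb hn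
    (a.trans (by rw [show 4 = 2 + 2 from rfl, pow_add]; exact Nat.mul_le_mul_right _ (by nlinarith)))
  have cq : Fintype.card (Fin s × Bool) = s * 2 := by simp
  have dQ : ∀ q, Dm Γ (d + 1) fun x => Qw (p x) q := fun q x hx =>
    (totalDegree_add _ _).trans (max_le ((totalDegree_mul _ _).trans (by
      rw [totalDegree_X, add_comm]
      exact Nat.succ_le_succ ((totalDegree_rename_le _ _).trans (hd _ x hx))))
      (by rw [totalDegree_C]; omega))
  have aQ : ∀ q, AM B Γ 18 fun x => Qw (p x) q := fun q =>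
    ((AM.X none).mul (AM.rename (Option.some_injective _) (h q.1)) (n := 1)
      (fun _ _ => (totalDegree_X _).le) (le ((p4 (by nlinarith)).pow hb hn (j := 1) (by simp))
        (by omega))).add (AM.C (e := 7) (by
          split_ifs
          exacts [A.one.mono (by omega), A.one.neg]))
  have t1 : D B Γ 4019 fun x y => Tq (p x) = Tq (p y) :=
    (all.core (le (((p4 (by rw [cq]; nlinarith)).add hb hn (sn (by omega))).sz hb hn (by simp; omega))
      (by omega)) dQ aQ).imp fun x _ y _ a => Set.ext fun π => and_congr_right fun hπ => by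
        rw [← hs_one, ← hs_one, (a π hπ 1).1]
  refine (P.cases t1 (e' := 4713) fun c Δ le' hc => ?_).mono (by omega)
  rcases Δ.Y.eq_empty_or_nonempty with h0 | ⟨x₀, hx₀⟩
  · exact D.of_forall (by simp [h0])
  have e := (Finite.equivFin ↥(dec '' c ∩ Φ)).symm
  have sN : Sm b (k + 2) 5 (Nat.card ↥(dec '' c ∩ Φ)) := by
    refine le_trans ?_ ((p4 (x := 2 * Fintype.card (Fin s × Bool) * (d + 1) + 3)
      (by rw [cq]; nlinarith)).pow hb hn (j := 1) (y := Fintype.card (Option (Fin k))) (by simp))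
    refine le_trans ?_ (all.count _ _ _ _ fun q => dQ q x₀ (le'.1 hx₀))
    rw [Nat.card_coe_set_eq, ← hc x₀ hx₀]
    exact (ncard_le_ncard inter_subset_left).trans (ncard_image_le (toFinite _))
  generalize Nat.card ↥(dec '' c ∩ Φ) = N at e sN
  have ci : Fintype.card (Ix s) = s * 2 + 3 := by simp
  have sT : Sm b (k + 2) 5 (Fintype.card (Jx k s)) := by
    simpa using (p4 (x := s * 2 + 3) (by nlinarith)).pow hb hn (j := 1) (y := k + 2) (by simp)
  obtain ⟨W, w0, w1, w2, w3, w4, w5⟩ : ∃ W, Sm b (k + 2) 5 W ∧ N ≤ W ∧ Fintype.card (Jx k s) ≤ W ∧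
      k + 2 ≤ W ∧ d ≤ W ∧ s ≤ W := ⟨b ^ (k + 2) ^ 5, le_rfl, sN, sT, sn (c := 5) (by omega),
    h2.trans (sb.mono hb hn (j := 5) (by omega)), h1.trans (sb.mono hb hn (j := 5) (by omega))⟩
  have q4 : (W + 2) ^ 4 = W * W * W * W + 8 * (W * W * W) + 24 * (W * W) + 32 * W + 16 := by ring
  have nN : (k + 2) * N ≤ W * W := Nat.mul_le_mul w3 w1
  have sm : Sm b (k + 2) 9 (mW k s d N + (k + 2)) := w0.poly hb hn (by
    have : 2 * Fintype.card (Jx k s) * dW k d N ≤ 2 * W * (2 * (W * W + W + 3)) :=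
      Nat.mul_le_mul (by omega) (by rw [dW]; omega)
    rw [mW, q4]
    nlinarith)
  have cV : Fintype.card (Vs k) ≤ 3 * (k + 2) := by simp; omega
  have sS := sm.sz hb hn cV
  obtain ⟨s1, s2, -, -, s5, -, s7⟩ := sizes (σ := Vs k) (m := mW k s d N) (Nat.le_add_left _ _)
  have mT : 2 * Fintype.card (Jx k s) * 2 + 1 ≤ mW k s d N :=
    Nat.add_le_add (Nat.mul_le_mul_left _ (by rw [dW]; omega)) (by omega)
  have sM : Sm b (k + 2) 25 (MW k s d N) := by
    refine le_trans ?_ sS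
    have : Dp (Vs k) (Jx k s) (mW k s d N) 2 ≤ sz (Vs k) (mW k s d N) ^ 3 := by
      rw [pow_three]
      exact Nat.mul_le_mul ((Nat.pow_le_pow_left (by omega) _).trans s2)
        (Nat.mul_le_mul (by omega) (by omega))
    exact this.trans_lt (Nat.pow_lt_pow_right (by omega) (by omega))
  have key := H.coreW G (Γ := Δ) (B := B) (p := p) (fun a => (e a).1)
    (le ((sm.poly hb hn (y := _ + (k + 2)) ?_).sz hb hn cV) (by omega))
    (le ((sM.pow hb hn (j := 3) (by nlinarith [Nat.zero_le (k ^ 3), Nat.zero_le (k ^ 2)])).poly hb hn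
      (y := _ + 1) ((Nat.le_succ _).trans (Nat.le_self_pow (by omega) _))) (by omega))
    (le (((w0.poly hb hn (y := (k + 2) * N + (d + 2) + 2 + (s * 2 + 3) + (k + 2))
      (by omega)).poly hb hn ?_).pow hb hn (j := 3)
        (by simp; nlinarith [Nat.zero_le (k ^ 3), Nat.zero_le (k ^ 2)])) (by omega))
    (le ((p4 (by nlinarith)).pow hb hn (j := 1) (by simp)) (by omega))
    ((Nat.le_succ _).trans (le (sn le_rfl) (by omega)))
    (lt_of_lt_of_le ((pow_one _).ge.trans_lt (Nat.pow_lt_pow_right (by omega) (by omega)))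
      (le sS (by omega))) (le sT (by omega)) (fun j => (hd j).ext le') fun j => (h j).ext le'
  · have u : ∀ x ∈ Δ.Y, signSet (p x) (range fun a => (e a).1) = signSet (p x) Φ := fun x hx => by
      obtain rfl := hc x hx
      exact Set.ext fun y => ⟨fun ⟨a, b⟩ => mem_of_eq_of_mem (s := Φ) b.symm (e a).2.2, fun a =>
        ⟨e.symm ⟨_, exists_Tq _ y, a⟩, by simp⟩⟩
    exact key.imp fun x hx y hy a => by rwa [u x hx, u y hy] at a
  · rw [Fintype.card_option]
    exact (add_assoc _ _ _).trans_le (le4 (by omega) (by omega) (by omega))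
  · rw [ci, Fintype.card_fin, pow_two, ← mul_assoc, add_assoc]
    exact le4 (by omega) (by omega) (by omega)

omit [Fact (2 ≤ B)] in
theorem main0 (k s d : ℕ) (Φ : Set (Fin s → SignType)) {b : ℕ} (hb : 2 ≤ b)
    (h1 : s ≤ b) (h2 : d ≤ b) : ∃ T : Tree (Fin s × (Fin k →₀ ℕ)), T.depth ≤ b ^ (k + 2) ^ 63 ∧
      ∀ P : Fin s → MvPolynomial (Fin k) ℝ, (∀ j, (P j).totalDegree ≤ d) → ∀ i ≤ k,
        betti F (signSet P Φ) i = (T.run (fun q => coeff q.2 (P q.1)) []).getD i 0 := by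
  have hn : 2 ≤ k + 2 := by omega
  have : Fact (2 ≤ b ^ (k + 2) ^ 50) := ⟨hb.trans (Nat.le_self_pow (by positivity) _)⟩
  have t := H.det G (Γ := ⟨{P | ∀ j, (P j).totalDegree ≤ d},
    range fun (q : Fin s × (Fin k →₀ ℕ)) P => coeff q.2 (P q.1)⟩) (p := id) Φ hb h1 h2 le_rfl
      (fun j P hP => hP j) fun j m => A.of_real ⟨_, ⟨(j, m), rfl⟩, fun _ _ => rfl⟩
  obtain ⟨T, t1, t2⟩ := all.tree _ _ (fun P (q : Fin s × (Fin k →₀ ℕ)) => coeff q.2 (P q.1)) _
    (fun P => List.ofFn fun i : Fin (k + 1) => (hs (signSet P Φ) ∅ (i + 1)).toNat) _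
    (t.imp fun x _ y _ a => by
      congr 1
      exact funext fun i => congrArg _ (a _ (by omega)).1)
  refine ⟨T, t1.trans ?_, fun P hP i hi => ?_⟩
  · exact Sm.depth hb hn (c := 50) this.1 le_rfl (by norm_num)
  · have e := bettiS (signSet P Φ) i
    rw [← hs_image (φ := ⟨Subtype.val, continuous_subtype_val⟩) IsEmbedding.subtypeVal] at e
    simp only [ContinuousMap.coe_mk, image_univ, Subtype.range_coe_subtype, image_empty,
      ofPred_mem_eq] at e
    rw [t2 P hP, ← Cardinal.toENat_eq_natCast, e]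
    rw [List.getD_eq_getElem _ _ (by simpa using Nat.lt_succ_of_le hi), List.getElem_ofFn]
    exact (ENat.natCast_toNat (t.refl P hP _ (by omega)).2).symm

end AllV

end Pool.Agent.Lib.MP_837412_lc.K
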