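import Pool.Agent.Lib.MP_837412_lc.KSt
import Pool.Agent.Lib.MP_837412_lc.G2

/-!
Statements about integral functions, towers with an action of monotone maps, approximation of
arbitrary sign sets by open sets, and the choice of the parameters.
-/

namespace Pool.Agent.Lib.MP_837412_lc.K

open Set Function Filter Topology MvPolynomial
open Pool.Agent.Shared.Mod2 (I)

section Integral

variable {σ : Type}

/-- Polynomials as functions. -/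
noncomputable def evf (σ : Type) : MvPolynomial σ ℝ →+* ((σ → ℝ) → ℝ) :=
  RingHom.pi fun x => eval x

/-- Functions that are integral over the ring of polynomials. -/
def Itg (f : (σ → ℝ) → ℝ) : Prop := (evf σ).IsIntegralElem f

variable {f g : (σ → ℝ) → ℝ}

lemma Itg.poly (p : MvPolynomial σ ℝ) : Itg fun x => eval x p := RingHom.isIntegralElem_map _

lemma Itg.const (c : ℝ) : Itg fun _ : σ → ℝ => c := by simpa using Itg.poly (σ := σ) (C c)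

lemma Itg.add (h : Itg f) (h' : Itg g) : Itg fun x => f x + g x :=
  RingHom.IsIntegralElem.add _ h h'

lemma Itg.sub (h : Itg f) (h' : Itg g) : Itg fun x => f x - g x :=
  RingHom.IsIntegralElem.sub _ h h'

lemma Itg.mul (h : Itg f) (h' : Itg g) : Itg fun x => f x * g x :=
  RingHom.IsIntegralElem.mul _ h h'

lemma itg_iff : Itg f ↔ ∃ p : Polynomial (MvPolynomial σ ℝ), p.Monic ∧
    ∀ x, (p.map (eval x)).eval (f x) = 0 := by
  refine exists_congr fun p => and_congr_right fun _ => ?_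
  rw [funext_iff]
  refine forall_congr' fun x => ?_
  have := Polynomial.hom_eval₂ p (evf σ) (Pi.evalRingHom (fun _ : σ → ℝ => ℝ) x) f
  rw [Polynomial.eval_map]
  exact Eq.congr_left this

end Integral

section Scal

variable {Y κ κ' τ ι : Type} [TopologicalSpace Y]

/-- Monotone maps that fix zero and one. -/
def Mo (φ : ℝ → ℝ) : Prop := Monotone φ ∧ φ 0 = 0 ∧ φ 1 = 1

/-- Families of functions whose values can be moved by monotone maps. -/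
structure Sc (w : κ → Y → ℝ) : Prop where
  cont : ∀ q, Continuous (w q)
  mem : ∀ q y, w q y ∈ Icc (0 : ℝ) 1
  act : ∀ φ : I → ℝ → ℝ, Continuous (uncurry φ) → (∀ t, Mo (φ t)) → (∀ s, φ 0 s = s) →
    ∃ H : C(I × Y, Y), (∀ y, H (0, y) = y) ∧ ∀ q t y, w q (H (t, y)) = φ t (w q y)

/-- Functions that move together with the family `w`. -/
structure Eqv (w : κ → Y → ℝ) (u : Y → ℝ) : Prop where
  cont : Continuous u
  mem : ∀ y, u y ∈ Icc (0 : ℝ) 1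
  eqv : ∀ φ, Mo φ → ∀ y y', (∀ q, w q y' = φ (w q y)) → u y' = φ (u y)

/-- Zero sets of such functions. -/
def ES (w : κ → Y → ℝ) (Z : Set Y) : Prop := ∃ u, Eqv w u ∧ ∀ y, u y = 0 ↔ y ∈ Z

variable {w : κ → Y → ℝ} {Z Z' : Set Y}

lemma Sc.eqv (h : Sc w) (q : κ) : Eqv w (w q) := ⟨h.cont q, h.mem q, fun _ _ _ _ a => a q⟩

lemma Sc.of_eqv (h : Sc w) {w' : κ' → Y → ℝ} (h' : ∀ q, Eqv w (w' q)) : Sc w' :=
  ⟨fun q => (h' q).cont, fun q => (h' q).mem, fun φ a b c =>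
    (h.act φ a b c).imp fun _ d => ⟨d.1, fun q t y => (h' q).eqv _ (b t) _ _ fun r => d.2 r t y⟩⟩

lemma Sc.es (h : Sc w) (q : κ) : ES w {y | w q y = 0} := ⟨_, h.eqv q, fun _ => Iff.rfl⟩

lemma ES.empty : ES w ∅ :=
  ⟨fun _ => 1, ⟨continuous_const, fun _ => ⟨zero_le_one, le_rfl⟩, fun _ a _ _ _ => a.2.2.symm⟩,
    by simp⟩

lemma ES.univ : ES w univ :=
  ⟨fun _ => 0, ⟨continuous_const, fun _ => ⟨le_rfl, zero_le_one⟩, fun _ a _ _ _ => a.2.1.symm⟩,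
    by simp⟩

lemma ES.inter (h : ES w Z) (h' : ES w Z') : ES w (Z ∩ Z') := by
  obtain ⟨u, a, b⟩ := h
  obtain ⟨v, c, d⟩ := h'
  refine ⟨fun y => max (u y) (v y), ⟨a.cont.max c.cont, fun y =>
    ⟨le_max_of_le_left (a.mem y).1, max_le (a.mem y).2 (c.mem y).2⟩, fun φ e y y' f => ?_⟩,
    fun y => ?_⟩
  · rw [a.eqv φ e y y' f, c.eqv φ e y y' f, e.1.map_max]
  · beta_reduce
    rw [mem_inter_iff, ← b, ← d]
    have := (a.mem y).1
    have := (c.mem y).1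
    rcases le_total (u y) (v y) with e | e
    · rw [max_eq_right e]; exact ⟨fun f => ⟨by linarith, f⟩, fun f => f.2⟩
    · rw [max_eq_left e]; exact ⟨fun f => ⟨f, by linarith⟩, fun f => f.1⟩

lemma ES.union (h : ES w Z) (h' : ES w Z') : ES w (Z ∪ Z') := by
  obtain ⟨u, a, b⟩ := h
  obtain ⟨v, c, d⟩ := h'
  refine ⟨fun y => min (u y) (v y), ⟨a.cont.min c.cont, fun y =>
    ⟨le_min (a.mem y).1 (c.mem y).1, min_le_of_left_le (a.mem y).2⟩, fun φ e y y' f => ?_⟩,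
    fun y => ?_⟩
  · rw [a.eqv φ e y y' f, c.eqv φ e y y' f, e.1.map_min]
  · beta_reduce
    rw [mem_union, ← b, ← d]
    have := (a.mem y).1
    have := (c.mem y).1
    rcases le_total (u y) (v y) with e | e
    · rw [min_eq_left e]; exact ⟨Or.inl, fun f => f.elim id fun f => by linarith⟩
    · rw [min_eq_right e]; exact ⟨Or.inr, fun f => f.elim (fun f => by linarith) id⟩

lemma ES.biUnion (s : Finset ι) {Z : ι → Set Y} (h : ∀ i ∈ s, ES w (Z i)) :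
    ES w (⋃ i ∈ s, Z i) := by
  classical
  induction s using Finset.induction_on with
  | empty => simpa using ES.empty
  | insert a s _ ih =>
    rw [Finset.set_biUnion_insert]
    exact (h a (by simp)).union (ih fun i hi => h i (by simp [hi]))

lemma ES.biInter (s : Finset ι) {Z : ι → Set Y} (h : ∀ i ∈ s, ES w (Z i)) :
    ES w (⋂ i ∈ s, Z i) := by
  classical
  induction s using Finset.induction_on with
  | empty => simpa using ES.univ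
  | insert a s _ ih =>
    rw [Finset.set_biInter_insert]
    exact (h a (by simp)).inter (ih fun i hi => h i (by simp [hi]))

/-- The space between the first and the last of a chain of functions. -/
abbrev Tow (ξ : ℕ → Y → ℝ) (n : ℕ) : Type := {p : Y × ℝ // ξ 0 p.1 ≤ p.2 ∧ p.2 ≤ ξ n p.1}

/-- The functions in `A` are large, the others are small. -/
def Ub (w : τ → Y → ℝ) (A : Set τ) (lo hi : ℝ) : Set Y :=
  {y | ∀ q, (q ∈ A → hi < w q y) ∧ (q ∉ A → w q y < lo)}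

/-- The set of the positive functions belongs to `𝒜`. -/
def Pat (w : τ → Y → ℝ) (𝒜 : Set (Set τ)) : Set Y := {y | {q | 0 < w q y} ∈ 𝒜}

/-- An open neighbourhood. -/
def Vg (w : τ → Y → ℝ) (𝒜 : Set (Set τ)) (G : Set ℝ) : Set Y := ⋃ A ∈ 𝒜, ⋃ x ∈ G, Ub w A x x

/-- The approximation with several levels. -/
def Tg (w : τ → Y → ℝ) (𝒜 : Set (Set τ)) (lo hi : ι → ℝ) : Set Y :=
  ⋃ i, ⋃ A ∈ 𝒜, Ub w A (lo i) (hi i)

end Scal

section Par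

variable {σ τ ι : Type}

/-- Polynomial functions of the first `R + 1` parameters. -/
def IsM (R n : ℕ) (f : (ℕ → ℝ) → ℂ) : Prop :=
  ∃ g : MvPolynomial (Fin (R + 1)) ℂ, g.totalDegree ≤ n ∧
    ∀ v, f v = MvPolynomial.eval (fun r : Fin (R + 1) => (v r : ℂ)) g

/-- Polynomials whose coefficients are polynomial functions of the parameters. -/
def CM (R n : ℕ) (p : (ℕ → ℝ) → MvPolynomial σ ℝ) : Prop :=
  ∀ α, IsM R n fun v => ((coeff α (p v) : ℝ) : ℂ)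

/-- Rapidly growing parameters. -/
def Om (c : ℝ) (M R : ℕ) : Set (ℕ → ℝ) := {v | c ≤ v 0 ∧ ∀ r < R, v r ^ M ≤ v (r + 1)}

/-- A curve of parameters. -/
def kr (M : ℕ) (t : ℝ) (r : ℕ) : ℝ := t ^ M ^ r

open Classical in
/-- The polynomials that are positive on one piece of the approximation. -/
noncomputable def lev (P : τ → MvPolynomial σ ℝ) (A : Set τ) (a b : ℝ) (q : τ) :
    MvPolynomial σ ℝ := if q ∈ A then C a * P q - 1 else 1 - C b * P q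

/-- All pieces. -/
noncomputable def pp {N : ℕ} (n : ℕ) (P : τ → MvPolynomial σ ℝ) (e : Fin N → Set τ) (v : ℕ → ℝ)
    (a : Fin (n * N)) : τ → MvPolynomial σ ℝ :=
  lev P (e a.modNat) (v (2 * a.divNat)) (v (2 * a.divNat + 1))

/-- The approximation. -/
def Tf {N : ℕ} (n : ℕ) (P : τ → MvPolynomial σ ℝ) (e : Fin N → Set τ) (v : ℕ → ℝ) :
    Set (σ → ℝ) := ⋃ a, cell (pp n P e v a) fun _ => 1

/-- The set of the positive polynomials is in the list. -/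
def Ps {N : ℕ} (P : τ → MvPolynomial σ ℝ) (e : Fin N → Set τ) : Set (σ → ℝ) :=
  {y | {q | 0 < eval y (P q)} ∈ range e}

/-- All pieces lie in a compact set. -/
def Bdd {N : ℕ} (P : τ → MvPolynomial σ ℝ) (e : Fin N → Set τ) : Prop :=
  ∃ K, IsCompact K ∧ ∀ c y,
    (∀ q, (q ∈ e c → 0 < eval y (P q)) ∧ (q ∉ e c → eval y (P q) < 1)) → y ∈ K

variable [Fintype σ] [Fintype τ]

/-- A sublevel set in the positive cell. -/
def Wl (m : ℕ) (Q : τ → MvPolynomial σ ℝ) (l : ℝ) : Set (σ → ℝ) :=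
  {y | eval y (Fl m (sq Q) l) < 0} ∩ cell Q fun _ => 1

/-- The same set as a positive cell. -/
noncomputable def fam (m : ℕ) (Q : τ → MvPolynomial σ ℝ) (l : ℝ) : Option τ → MvPolynomial σ ℝ
  | none => -Fl m (sq Q) l
  | some q => Q q

/-- Vanishes if zero is a critical value. -/
noncomputable def Gd [DecidableEq σ] (m : ℕ) (Q : τ → MvPolynomial σ ℝ) (l : ℝ) : ℂ :=
  (chi (Lam m (cx' (sq Q)) (l : ℂ))).coeff 0

/-- The degree in the parameters. -/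
def Dp (σ τ : Type) [Fintype σ] [Fintype τ] (m n : ℕ) : ℕ :=
  m ^ Fintype.card σ * ((Kf σ m + 1) * (2 * Fintype.card τ * n + 1))

variable {k s : ℕ}

/-- Homogenisation. -/
noncomputable def hg (d : ℕ) (p : MvPolynomial (Fin k) ℝ) : MvPolynomial (Fin (k + 1)) ℝ :=
  ∑ α ∈ box (Fin k) d, monomial (Finsupp.cons (d - ∑ i, α i) α) (coeff α p)

/-- The family on a sphere. -/
noncomputable def hf (d : ℕ) (P : Fin s → MvPolynomial (Fin k) ℝ) :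
    (Fin s × Bool) ⊕ Option Bool → MvPolynomial (Fin (k + 1)) ℝ
  | .inl (j, true) => hg d (P j)
  | .inl (j, false) => -hg d (P j)
  | .inr none => X 0
  | .inr (some true) => ∑ i, X i ^ 2 - X 0
  | .inr (some false) => X 0 - ∑ i, X i ^ 2

/-- The positive members for a given vector of signs. -/
def pat (π : Fin s → SignType) : Set ((Fin s × Bool) ⊕ Option Bool)
  | .inl (j, true) => π j = 1
  | .inl (j, false) => π j = -1
  | .inr none => True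
  | .inr (some _) => False

end Par

def ZloV : Prop := ∀ (σ : Type) (f : (σ → ℝ) → ℝ), Continuous f → Itg f →
  ∃ a : MvPolynomial σ ℝ, a ≠ 0 ∧ ∀ x, eval x a ≠ 0 → f x = 0 → ∀ᶠ y in 𝓝 x, f y = 0

def SubV : Prop := ∀ (σ σ' : Type) (g : σ' → (σ → ℝ) → ℝ) (f : (σ' → ℝ) → ℝ),
  (∀ i, Itg (g i)) → Itg f → Itg fun x => f fun i => g i x

def NoeV : Prop := ∀ (k : ℕ) (Q : MvPolynomial (Fin (k + 1)) ℝ), Q ≠ 0 →
  ∃ (θ : (Fin (k + 1) → ℝ) ≃ₜ (Fin (k + 1) → ℝ)) (q : Polynomial (MvPolynomial (Fin k) ℝ)),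
    q.Monic ∧ (∀ i, Itg fun z => θ z i) ∧
    ∀ (s : ℝ) (x : Fin k → ℝ), eval (θ (Fin.cons s x)) Q = 0 → (q.map (eval x)).eval s = 0

def RootV : Prop := ∀ (σ : Type) [Fintype σ] (q : Polynomial (MvPolynomial σ ℝ)) (n : ℕ),
  q.Monic → q.natDegree = n + 1 → ∃ ξ : ℕ → (σ → ℝ) → ℝ, (∀ j, Continuous (ξ j) ∧ Itg (ξ j)) ∧
    (∀ x, Monotone fun j => ξ j x) ∧ ∀ x s, (q.map (eval x)).eval s = 0 → ∃ j ≤ n, ξ j x = s

def BandV : Prop := ∀ (Y κ : Type) [TopologicalSpace Y] (w : κ → Y → ℝ) (ξ : ℕ → Y → ℝ) (n : ℕ),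
  Sc w → (∀ j, Continuous (ξ j)) → (∀ y, Monotone fun j => ξ j y) →
  (∀ j < n, ES w {y | ξ j y = ξ (j + 1) y}) →
  ∃ (κ' : Type) (w' : κ' → Tow ξ n → ℝ), Sc w' ∧ (∀ Z, ES w Z → ES w' {p | p.1.1 ∈ Z}) ∧
    ∀ j ≤ n, ES w' {p | p.1.2 ≤ ξ j p.1.1} ∧ ES w' {p | ξ j p.1.1 ≤ p.1.2}

def TriV : Prop := ∀ (k : ℕ) (κ : Type) [Finite κ] (f : κ → (Fin k → ℝ) → ℝ)
  (K : Set (Fin k → ℝ)), (∀ q, Continuous (f q) ∧ Itg (f q)) → IsCompact K →
  ∃ (Y : Type) (_ : TopologicalSpace Y) (_ : CompactSpace Y) (e : C(Y, Fin k → ℝ))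
    (w : κ → Y → ℝ), Injective e ∧ K ⊆ range e ∧ Sc w ∧ ∀ q y, w q y = 0 ↔ f q (e y) = 0

def DomV : Prop := ∀ (R n : ℕ) (f : (ℕ → ℝ) → ℂ), IsM R n f → (∃ v, f v ≠ 0) →
  ∃ c : ℝ, 1 ≤ c ∧ ∀ v ∈ Om c (n + 1) R, f v ≠ 0

def KrV : Prop := ∀ (R n M : ℕ) (f : (ℕ → ℝ) → ℂ), IsM R n f → 1 ≤ M →
  IsP Complex.ofReal (n * M ^ R) (fun t => f (kr M t)) ∧
  ∀ γ : I → ℕ → ℝ, Continuous γ → Continuous fun u => f (γ u)

def OmV : Prop := ∀ (c : ℝ) (M R : ℕ), 1 ≤ c → 1 ≤ M → Convex ℝ (Om c M R) ∧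
  (∀ t, c ≤ t → kr M t ∈ Om c M R) ∧ (∀ v ∈ Om c M R, ∀ r ≤ R, 1 ≤ v r) ∧
  ∀ v ∈ Om c M R, ∀ l, v R ≤ l → update v R l ∈ Om c M R

def PolV : Prop := ∀ (σ τ : Type) [Fintype σ] [DecidableEq σ] [Fintype τ] (R n m : ℕ)
  (Q : (ℕ → ℝ) → τ → MvPolynomial σ ℝ), (∀ q, CM R n fun v => Q v q) →
  (∀ v, (sq (Q v)).totalDegree < m) → IsM R (Dp σ τ m n) fun v => Gd m (Q v) (v R)

def BigM : Prop := ∀ (σ τ ι : Type) [Fintype τ] [Fintype ι] (N n : ℕ)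
  (P : τ → MvPolynomial σ ℝ) (e : Fin N → Set τ) (χ : ι → τ),
  CM (2 * n) 2 fun v => big (pp n P e v) χ

variable [Coef]

def CovV : Prop := ∀ (Y β : Type) [TopologicalSpace Y] (U : β → Set Y) (S : Set Y) (n : ℕ),
  (∀ b, IsOpen (U b)) → (∀ t : Finset β, t.Nonempty → ∀ j ≤ n,
    hs (⋂ b ∈ t, U b) ((⋂ b ∈ t, U b) ∩ S) j = 0) →
  ∀ j ≤ n, hs (⋃ b, U b) ((⋃ b, U b) ∩ S) j = 0

def PatV : Prop := ∀ (Y τ : Type) [TopologicalSpace Y] [Fintype τ] (w : τ → Y → ℝ)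
  (𝒜 : Set (Set τ)) (G : Set ℝ), Sc w → G ⊆ Ioo 0 1 → (∀ ε > 0, ∃ x ∈ G, x < ε) →
  Pat w 𝒜 ⊆ Vg w 𝒜 G ∧ Ac (Vg w 𝒜 G) (Pat w 𝒜)

def LevV : Prop := ∀ (Y τ ι : Type) [TopologicalSpace Y] [Fintype τ] [Fintype ι] (w : τ → Y → ℝ)
  (𝒜 : Set (Set τ)) (lo hi : ι → ℝ), Sc w → (∀ i, 0 < lo i ∧ lo i ≤ hi i ∧ hi i < 1) →
  (∀ i i', i ≠ i' → hi i < lo i' ∨ hi i' < lo i) →
  ∀ j ≤ Fintype.card ι, hs (Vg w 𝒜 (Ioo 0 1)) (Tg w 𝒜 lo hi) j = 0

def SandV : Prop := ∀ (k N n M : ℕ) (τ : Type) [Fintype τ] (P : τ → MvPolynomial (Fin k) ℝ)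
  (e : Fin N → Set τ) (c : ℝ), Bdd P e → 1 ≤ c → ∃ (v v' : ℕ → ℝ) (Z : Set (Fin k → ℝ)),
    (∀ R, v ∈ Om c M R ∧ v' ∈ Om c M R) ∧ (∀ i, v' (2 * i) ≤ v (2 * i) ∧
      v (2 * i + 1) ≤ v' (2 * i + 1)) ∧ Tf n P e v' ⊆ Z ∧ Z ⊆ Tf n P e v ∧
    ∀ j < n, hs Z ∅ j = hs (Ps P e) ∅ j ∧ hs (Ps P e) ∅ j ≤ hs (Tf n P e v) ∅ j

/-- Two sets with a common core. -/
def Nr {Y : Type} [TopologicalSpace Y] (A B : Set Y) : Prop :=
  ∃ W₁ W₂, W₂ ⊆ W₁ ∧ W₁ ⊆ A ∩ B ∧ Ac A W₂ ∧ Ac B W₁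

def StabV : Prop := ∀ (σ τ T : Type) [Fintype σ] [Fintype τ] [TopologicalSpace T] (m d : ℕ)
  (Q : T → τ → MvPolynomial σ ℝ) (l : T → ℝ) (u₀ : T), Odd m →
  (∀ q α, Continuous fun u => coeff α (Q u q)) → (∀ u q, (Q u q).totalDegree ≤ d) →
  (∀ u, (sq (Q u)).totalDegree < m) → Continuous l → 0 < l u₀ →
  (∀ y, Crit (Fl m (sq (Q u₀)) (l u₀)) y → eval y (Fl m (sq (Q u₀)) (l u₀)) ≠ 0) →
  ∀ᶠ u in 𝓝 u₀, Nr (Wl m (Q u) (l u)) (Wl m (Q u₀) (l u₀)) ∧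
    Nr (Wl m (Q u₀) (l u₀)) (Wl m (Q u) (l u))

def PathV : Prop := ∀ (Y : Type) [TopologicalSpace Y] (W : I → Set Y) (j : ℕ),
  (∀ u₀, ∀ᶠ u in 𝓝 u₀, Nr (W u) (W u₀) ∧ Nr (W u₀) (W u)) → hs (W 0) ∅ j = hs (W 1) ∅ j ∧
  ∀ (T : I → Set Y) (Z : Set Y), Antitone T → (∀ u, W u ⊆ T u ∧ hs (T u) (W u) j = 0) →
    T 1 ⊆ Z → Z ⊆ T 0 → hs (T 0) ∅ j ≤ hs Z ∅ j

def BigV : Prop := ∀ (σ τ ι : Type) [Fintype σ] [Fintype τ] [Nonempty τ] [Fintype ι],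
  (∀ (A : Set (σ → ℝ)) j,
    hs {z : σ ⊕ ι ⊕ ι → ℝ | (fun i => z (Sum.inl i)) ∈ A} ∅ j = hs A ∅ j) ∧
  ∀ (N : ℕ) (p : Fin N → τ → MvPolynomial σ ℝ),
    (cell (big (ι := ι) p) fun _ => 1) ⊆
      {z | (fun i => z (Sum.inl i)) ∈ ⋃ a, cell (p a) fun _ => 1} ∧
    ∀ j ≤ Fintype.card ι, hs {z | (fun i => z (Sum.inl i)) ∈ ⋃ a, cell (p a) fun _ => 1}
      (cell (big (ι := ι) p) fun _ => 1) j = 0

def HomV : Prop := ∀ (k s d N : ℕ) (P : Fin s → MvPolynomial (Fin k) ℝ)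
  (e : Fin N → Fin s → SignType), (∀ j, (P j).totalDegree ≤ d) →
  (∀ q, (hf d P q).totalDegree ≤ d + 2) ∧ Bdd (hf d P) (fun c => pat (e c)) ∧
  ∀ j, hs (Ps (hf d P) fun c => pat (e c)) ∅ j = hs (signSet P (range e)) ∅ j

end Pool.Agent.Lib.MP_837412_lc.K
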