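import Pool.Agent.Lib.MP_837412_lc.WSt
import Pool.Agent.Lib.MP_837412_lc.JRM

/-!
Sublevel sets at a regular value are locally constant in the parameters.
-/

namespace Pool.Agent.Lib.MP_837412_lc.K

open Set Function Filter Topology MvPolynomial
open Pool.Agent.Shared.Mod2 (I)

namespace WStab

section Poly

variable {σ τ T : Type} [TopologicalSpace T]

/-- Families of polynomials with continuous coefficients. -/
def CC (p : T → MvPolynomial σ ℝ) : Prop := ∀ α, Continuous fun u => coeff α (p u)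

lemma CC.mul {p q : T → MvPolynomial σ ℝ} (h : CC p) (h' : CC q) : CC fun u => p u * q u := by
  classical
  intro α
  simp only [coeff_mul]
  exact continuous_finsetSum _ fun x _ => (h _).mul (h' _)

lemma CC.prod {p : T → τ → MvPolynomial σ ℝ} (h : ∀ q, CC fun u => p u q) (s : Finset τ) :
    CC fun u => ∏ q ∈ s, p u q := by
  classical
  induction s using Finset.induction_on with
  | empty => exact fun _ => continuous_const
  | insert a s ha ih =>
    simp only [Finset.prod_insert ha]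
    exact (h a).mul ih

lemma CC.sq [Fintype τ] {p : T → τ → MvPolynomial σ ℝ} (h : ∀ q, CC fun u => p u q) :
    CC fun u => MP_837412_lc.sq (p u) :=
  CC.prod (p := fun u q => p u q ^ 2) (fun q => by simpa only [pow_two] using (h q).mul (h q)) _

variable [Fintype σ]

/-- Joint continuity. -/
lemma CC.eval {p : T → MvPolynomial σ ℝ} (h : CC p) {n : ℕ} (hn : ∀ u, (p u).totalDegree ≤ n)
    (D : MvPolynomial σ ℝ →ₗ[ℝ] MvPolynomial σ ℝ) :
    Continuous fun z : T × (σ → ℝ) => MvPolynomial.eval z.2 (D (p z.1)) := by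
  have e : ∀ u, p u = ∑ α ∈ box σ n, coeff α (p u) • monomial α (1 : ℝ) := fun u => by
    conv_lhs => rw [(p u).as_sum]
    rw [Finset.sum_subset (support_subset_box (hn u)) fun α _ hα => by
      rw [notMem_support_iff.1 hα, map_zero]]
    exact Finset.sum_congr rfl fun α _ => by rw [smul_monomial, smul_eq_mul, mul_one]
  have e' : ∀ z : T × (σ → ℝ), MvPolynomial.eval z.2 (D (p z.1)) =
      ∑ α ∈ box σ n, coeff α (p z.1) * MvPolynomial.eval z.2 (D (monomial α 1)) := fun z => by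
    conv_lhs => rw [e z.1]
    simp only [map_sum, map_smul, smul_eval]
  simp only [e']
  exact continuous_finsetSum _ fun α _ => ((h α).comp continuous_fst).mul
    ((MvPolynomial.continuous_eval _).comp continuous_snd)

/-- A polynomial that dominates all monomials of small degree. -/
noncomputable def dom (σ : Type) [Fintype σ] (e : ℕ) : MvPolynomial σ ℝ := (1 + ∑ i, X i ^ 2) ^ e

lemma deg_dom (e : ℕ) : (dom σ e).totalDegree ≤ 2 * e := by
  refine (totalDegree_pow _ _).trans ?_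
  rw [mul_comm]
  refine Nat.mul_le_mul_right _ ((totalDegree_add _ _).trans (max_le (by simp) ?_))
  exact totalDegree_finsetSum_le fun i _ => (totalDegree_X_pow (R := ℝ) i 2).le

lemma dom_pos (e : ℕ) (y : σ → ℝ) : 0 < MvPolynomial.eval y (dom σ e) := by
  simp only [dom, map_pow, map_add, map_one, map_sum, eval_X]
  positivity

lemma abs_le_dom {p : MvPolynomial σ ℝ} {e : ℕ} (h : p.totalDegree ≤ 2 * e) (y : σ → ℝ) :
    |MvPolynomial.eval y p| ≤
      (∑ α ∈ box σ (2 * e), |coeff α p|) * MvPolynomial.eval y (dom σ e) := by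
  have h0 := (dom_pos e y).le
  rw [eval_eq', Finset.sum_mul]
  refine (Finset.abs_sum_le_sum_abs _ _).trans ((Finset.sum_le_sum fun α hα => ?_).trans
    (Finset.sum_le_sum_of_subset_of_nonneg (support_subset_box h) fun α _ _ =>
      mul_nonneg (abs_nonneg _) h0))
  rw [abs_mul]
  refine mul_le_mul_of_nonneg_left (abs_le_of_sq_le_sq' ?_ h0 |> abs_le.2) (abs_nonneg _)
  have h1 : (1 : ℝ) ≤ 1 + ∑ i, y i ^ 2 :=
    le_add_of_nonneg_right (Finset.sum_nonneg fun i _ => sq_nonneg _)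
  have h2 : ∀ i, y i ^ 2 ≤ 1 + ∑ i, y i ^ 2 := fun i =>
    (Finset.single_le_sum (f := fun i => y i ^ 2) (fun i _ => sq_nonneg _)
      (Finset.mem_univ i)).trans (le_add_of_nonneg_left zero_le_one)
  have h3 : ∑ i, α i ≤ e * 2 := by
    have := (le_totalDegree hα).trans h
    rwa [Finsupp.sum_fintype _ _ fun _ => rfl, mul_comm] at this
  simp only [dom, map_pow, map_add, map_one, map_sum, eval_X]
  calc (∏ i, y i ^ α i) ^ 2 = ∏ i, (y i ^ 2) ^ α i := by
        rw [← Finset.prod_pow]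
        exact Finset.prod_congr rfl fun i _ => pow_right_comm _ _ _
    _ ≤ ∏ i, (1 + ∑ i, y i ^ 2) ^ α i :=
        Finset.prod_le_prod (fun i _ => pow_nonneg (sq_nonneg _) _)
          fun i _ => pow_le_pow_left₀ (sq_nonneg _) (h2 i) _
    _ ≤ _ := by
        rw [Finset.prod_pow_eq_pow_sum, ← pow_mul]
        exact pow_le_pow_right₀ h1 h3

end Poly

/-- Uniform estimates on a compact set. -/
lemma tube {T Y σ τ : Type} [TopologicalSpace T] [TopologicalSpace Y] [Finite τ] {f : T → Y → ℝ}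
    {g : σ → T → Y → ℝ} {r : τ → T → Y → ℝ} (hf : Continuous (uncurry f))
    (hg : ∀ i, Continuous (uncurry (g i))) (hr : ∀ q, Continuous (uncurry (r q))) {K : Set Y}
    (hK : IsCompact K) {u₀ : T} {κ : ℝ} (k0 : 0 < κ)
    (k1 : ∀ y ∈ K, |f u₀ y| ≤ 4 * κ → ¬ ∀ i, g i u₀ y = 0)
    (k2 : ∀ y, f u₀ y < 0 → ∀ q, r q u₀ y ≠ 0) :
    ∀ᶠ u in 𝓝 u₀, ∀ y ∈ K, |f u y - f u₀ y| < κ ∧ (|f u₀ y| ≤ 4 * κ → ¬ ∀ i, g i u y = 0) ∧
      (f u₀ y ≤ -κ → ∀ q, 0 < r q u y * r q u₀ y) := by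
  have c : ∀ {h : T → Y → ℝ}, Continuous (uncurry h) → Continuous fun z : T × Y => h u₀ z.2 :=
    fun a => a.comp (continuous_const.prodMk continuous_snd)
  refine hK.eventually_forall_of_forall_eventually fun y hy => Eventually.and ?_
    (Eventually.and ?_ ?_)
  · exact (hf.sub (c hf)).abs.continuousAt.eventually_lt continuousAt_const (by simpa using k0)
  · rcases le_or_gt |f u₀ y| (4 * κ) with h | h
    · obtain ⟨i, hi⟩ := not_forall.1 (k1 y hy h)
      exact ((hg i).continuousAt.eventually_ne (x := (u₀, y)) hi).mono fun z a _ b => a (b i)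
    · exact (continuousAt_const.eventually_lt (c hf).abs.continuousAt (x₀ := (u₀, y)) h).mono
        fun z a b => absurd b a.not_ge
  · rcases lt_or_ge (f u₀ y) 0 with h | h
    · exact (eventually_all.2 fun q => continuousAt_const.eventually_lt
        ((hr q).mul (c (hr q))).continuousAt (x₀ := (u₀, y))
        (mul_self_pos.2 (k2 y h q))).mono fun z b _ => b
    · exact (continuousAt_const.eventually_lt (c hf).continuousAt (x₀ := (u₀, y))
        (show -κ < f u₀ y by linarith)).mono fun z a b => absurd b a.not_ge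

variable [Coef]

section Top

variable {Y : Type} [TopologicalSpace Y] {A B : Set Y}

lemma nrLe (h : Nr A B) (j : ℕ) : hs A ∅ j ≤ hs B ∅ j := by
  obtain ⟨W₁, W₂, h1, h2, h3, h4⟩ := h
  rw [h4.left (empty_subset _) (h2.trans inter_subset_right)]
  exact h3.le_mid h1 (h2.trans inter_subset_left) j

lemma nr_onto (h : Nr A B) {T T' : Set Y} {j : ℕ} (h1 : A ⊆ T) (h2 : hs T A j = 0) (h3 : B ⊆ T') :
    Zs T ∅ j ≤ Zs T' ∅ j ⊔ Bs T ∅ j := by
  obtain ⟨W₁, W₂, a, b, c, -⟩ := h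
  refine (onto_left (empty_subset _) h1 h2).trans (sup_le ?_ le_sup_right)
  refine (onto_left (empty_subset _) (a.trans (b.trans inter_subset_left)) (c j)).trans ?_
  exact sup_le_sup (Zs_mono (a.trans (b.trans (inter_subset_right.trans h3))) Subset.rfl j)
    (Bs_mono h1 Subset.rfl j)

lemma nr_of {f g : Y → ℝ} {S S' : Set Y} {κ : ℝ} (hκ : 0 < κ)
    (h : ∀ y, f y < -(2 * κ) ∨ g y < -(2 * κ) → |f y - g y| < κ ∧ (y ∈ S ↔ y ∈ S'))
    (a : Ac ({y | f y < 0} ∩ S) ({y | f y < -(3 * κ)} ∩ S))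
    (b : Ac ({y | g y < 0} ∩ S') ({y | g y < -(2 * κ)} ∩ S')) :
    Nr ({y | f y < 0} ∩ S) ({y | g y < 0} ∩ S') := by
  refine ⟨_, _, fun y hy => ?_, fun y hy => ?_, a, b⟩
  · have h1 : f y < -(3 * κ) := hy.1
    obtain ⟨h2, h3⟩ := h y (Or.inl (by linarith))
    exact ⟨show g y < _ by linarith [(abs_lt.1 h2).1], h3.1 hy.2⟩
  · have h1 : g y < -(2 * κ) := hy.1
    obtain ⟨h2, h3⟩ := h y (Or.inr h1)
    exact ⟨⟨show f y < _ by linarith [(abs_lt.1 h2).2], h3.2 hy.2⟩,
      show g y < _ by linarith, hy.2⟩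

end Top

variable {σ τ : Type} [Fintype σ] [Fintype τ]

omit [Coef] in
lemma neg_sq {m : ℕ} {Q : τ → MvPolynomial σ ℝ} {l : ℝ} (hl : 0 < l) {y : σ → ℝ}
    (h0 : 0 < eval y (F0 σ ℝ m)) (h : eval y (Fl m (sq Q) l) < 0) : 0 < eval y (sq Q) := by
  rw [eval_Fl] at h
  exact (pos_iff_pos_of_mul_pos (by linarith : 0 < l * eval y (sq Q))).1 hl

lemma ac_level (h1 : AcS) (h2 : GrowS) {m : ℕ} (hm : Odd m) {Q : τ → MvPolynomial σ ℝ}
    (hQ : (sq Q).totalDegree < m) {l a : ℝ} (hl : 0 < l) (ha : a ≤ 0)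
    (h : ∀ y, eval y (Fl m (sq Q) l) ∈ Icc a 0 → ¬ Crit (Fl m (sq Q) l) y) :
    Ac ({y | eval y (Fl m (sq Q) l) < 0} ∩ cell Q fun _ => 1)
      ({y | eval y (Fl m (sq Q) l) < a} ∩ cell Q fun _ => 1) := by
  obtain ⟨g1, g2⟩ := h2 σ m _ hm hQ
  refine h1 _ _ a 0 _ (oth Q fun _ => 1) (contDiff_eval _) ha
    (isOpen_cell Q fun _ => one_ne_zero) (isOpen_oth _ _) (disj_oth _ _)
    (fun y hy => cov_oth Q _ (neg_sq hl (g1 y) hy)) fun b hb => ?_
  obtain ⟨κ, k1, k2⟩ := JRM.bound (g2 l) a b isOpen_empty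
    fun y hy hy' => h y ⟨hy'.1, hy'.2.trans hb.le⟩ hy
  exact ⟨κ, k1, fun y _ hy => k2 y hy id⟩

end WStab

open WStab

variable [Coef]

theorem stabV (h1 : AcS) (h2 : GrowS) : StabV := by
  intro σ τ T _ _ _ m d Q l u₀ hm hc hd hs hl hl0 hreg
  obtain ⟨e, he⟩ := id hm
  have hs' : ∀ u, (sq (Q u)).totalDegree ≤ 2 * e := fun u => by have := hs u; omega
  have cs : CC fun u => sq (Q u) := CC.sq hc
  have c1 : Continuous fun z : T × (σ → ℝ) => eval z.2 (Fl m (sq (Q z.1)) (l z.1)) := by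
    simp only [eval_Fl]
    exact ((MvPolynomial.continuous_eval _).comp continuous_snd).sub
      ((hl.comp continuous_fst).mul (cs.eval hs' LinearMap.id))
  have c2 : ∀ i, Continuous fun z : T × (σ → ℝ) =>
      eval z.2 (pderiv i (Fl m (sq (Q z.1)) (l z.1))) := fun i => by
    simp only [Fl, map_sub, pderiv_C_mul, map_mul, eval_C]
    exact ((MvPolynomial.continuous_eval _).comp continuous_snd).sub
      ((hl.comp continuous_fst).mul (cs.eval hs' (pderiv i).toLinearMap))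
  have c3 : ∀ q, Continuous fun z : T × (σ → ℝ) => eval z.2 (Q z.1 q) := fun q =>
    CC.eval (hc q) (fun u => hd u q) LinearMap.id
  obtain ⟨K, hK, e1⟩ : ∃ K, IsCompact K ∧ ∀ᶠ u in 𝓝 u₀, ∀ y,
      eval y (Fl m (sq (Q u)) (l u)) ≤ 0 → y ∈ K := by
    have c5 : Continuous fun u => |l u| * ∑ α ∈ box σ (2 * e), |coeff α (sq (Q u))| :=
      hl.abs.mul (continuous_finsetSum _ fun α _ => (cs α).abs)
    refine ⟨_, (h2 σ m (dom σ e) hm ((deg_dom e).trans_lt (by omega))).2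
      (|l u₀| * ∑ α ∈ box σ (2 * e), |coeff α (sq (Q u₀))| + 1) 0, ?_⟩
    filter_upwards [c5.continuousAt.eventually_lt continuousAt_const (lt_add_one _)] with u hu y hy
    rw [eval_Fl] at hy
    have a1 := mul_le_mul_of_nonneg_left (abs_le_dom (hs' u) y) (abs_nonneg (l u))
    rw [← abs_mul, ← mul_assoc] at a1
    have a2 := mul_le_mul_of_nonneg_right hu.le (dom_pos e y).le
    change eval y (Fl m _ _) ≤ 0
    rw [eval_Fl]
    linarith [le_abs_self (l u * eval y (sq (Q u)))]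
  obtain ⟨κ, k0, k1⟩ : ∃ κ > 0, ∀ y ∈ K, |eval y (Fl m (sq (Q u₀)) (l u₀))| ≤ 4 * κ →
      ¬ Crit (Fl m (sq (Q u₀)) (l u₀)) y := by
    obtain ⟨κ, k0, k1⟩ := hK.exists_forall_le' (a := 0) (f := fun y =>
      |eval y (Fl m (sq (Q u₀)) (l u₀))| + n2 (Fl m (sq (Q u₀)) (l u₀)) y)
      ((MvPolynomial.continuous_eval _).abs.add (continuous_n2 _)).continuousOn fun y _ => by
        by_cases h : Crit (Fl m (sq (Q u₀)) (l u₀)) y
        · exact add_pos_of_pos_of_nonneg (abs_pos.2 (hreg y h)) (n2_nonneg _ _)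
        · exact add_pos_of_nonneg_of_pos (abs_nonneg _)
            ((n2_nonneg _ _).lt_of_ne' (mt n2_eq_zero.1 h))
    refine ⟨κ / 5, by linarith, fun y hy a b => ?_⟩
    have := k1 y hy
    simp only [n2_eq_zero.2 b] at this
    linarith
  have e2 : ∀ᶠ u in 𝓝 u₀, ∀ y ∈ K,
      |eval y (Fl m (sq (Q u)) (l u)) - eval y (Fl m (sq (Q u₀)) (l u₀))| < κ ∧
      (|eval y (Fl m (sq (Q u₀)) (l u₀))| ≤ 4 * κ → ¬ Crit (Fl m (sq (Q u)) (l u)) y) ∧
      (eval y (Fl m (sq (Q u₀)) (l u₀)) ≤ -κ → ∀ q, 0 < eval y (Q u q) * eval y (Q u₀ q)) := by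
    exact tube (f := fun u y => eval y (Fl m (sq (Q u)) (l u)))
      (g := fun i u y => eval y (pderiv i (Fl m (sq (Q u)) (l u))))
      (r := fun q u y => eval y (Q u q)) c1 c2 c3 hK k0 k1
      fun y h => sq_pos.1 (neg_sq hl0 ((h2 σ m _ hm (hs u₀)).1 y) h)
  have e3 : ∀ᶠ u in 𝓝 u₀, ∀ a, -(3 * κ) ≤ a → a ≤ 0 →
      Ac ({y | eval y (Fl m (sq (Q u)) (l u)) < 0} ∩ cell (Q u) fun _ => 1)
        ({y | eval y (Fl m (sq (Q u)) (l u)) < a} ∩ cell (Q u) fun _ => 1) := by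
    filter_upwards [e1, e2, continuousAt_const.eventually_lt hl.continuousAt hl0] with u b1 b2 b3
      a a1 a2
    refine ac_level h1 h2 hm (hs u) b3 a2 fun y hy => ?_
    obtain ⟨b4, b5, -⟩ := b2 y (b1 y hy.2)
    have := abs_lt.1 b4
    exact b5 (abs_le.2 ⟨by linarith [hy.1], by linarith [hy.2]⟩)
  have e4 := e3.self_of_nhds
  filter_upwards [e1, e2, e3] with u b1 b2 b3
  have key : ∀ y, eval y (Fl m (sq (Q u)) (l u)) < -(2 * κ) ∨
      eval y (Fl m (sq (Q u₀)) (l u₀)) < -(2 * κ) →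
      |eval y (Fl m (sq (Q u)) (l u)) - eval y (Fl m (sq (Q u₀)) (l u₀))| < κ ∧
      (y ∈ cell (Q u) (fun _ => 1) ↔ y ∈ cell (Q u₀) fun _ => 1) := fun y hy => by
    have a1 : y ∈ K := hy.elim (fun a => b1 y (by linarith))
      fun a => e1.self_of_nhds y (by linarith)
    obtain ⟨b4, -, b5⟩ := b2 y a1
    have a2 := abs_lt.1 b4
    refine ⟨b4, forall_congr' fun q => ?_⟩
    simp only [sign_eq_one_iff]
    exact pos_iff_pos_of_mul_pos (b5 (by rcases hy with a | a <;> linarith) q)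
  exact ⟨nr_of k0 key (b3 _ le_rfl (by linarith)) (e4 _ (by linarith) (by linarith)),
    nr_of k0 (fun y hy => (key y hy.symm).imp (fun a => by rwa [abs_sub_comm]) Iff.symm)
      (e4 _ le_rfl (by linarith)) (b3 _ (by linarith) (by linarith))⟩

theorem pathV : PathV := by
  intro Y _ W j h
  refine ⟨?_, fun T Z hT hW h1 h0 => ?_⟩
  · refine IsLocallyConstant.apply_eq_of_preconnectedSpace (f := fun u => hs (W u) ∅ j) ?_ 0 1
    exact (IsLocallyConstant.iff_eventually_eq _).2 fun u =>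
      (h u).mono fun v a => le_antisymm (nrLe a.1 j) (nrLe a.2 j)
  · have tr : ∀ u v, Nr (W u) (W v) → Zs (T 0) ∅ j ≤ Zs (T u) ∅ j ⊔ Bs (T 0) ∅ j →
        Zs (T 0) ∅ j ≤ Zs (T v) ∅ j ⊔ Bs (T 0) ∅ j := fun u v a b =>
      b.trans (sup_le ((nr_onto a (hW u).1 (hW u).2 (hW v).1).trans
        (sup_le_sup_left (Bs_mono (hT u.2.1) Subset.rfl j) _)) le_sup_right)
    have lc : IsLocallyConstant fun u => Zs (T 0) ∅ j ≤ Zs (T u) ∅ j ⊔ Bs (T 0) ∅ j :=
      (IsLocallyConstant.iff_eventually_eq _).2 fun u =>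
        (h u).mono fun v a => propext ⟨tr _ _ a.1, tr _ _ a.2⟩
    have e := (lc.apply_eq_of_preconnectedSpace 0 1).mp le_sup_left
    exact (rk_congr_le (e.trans (sup_le_sup_right (Zs_mono h1 Subset.rfl j) _))
      (le_sup_of_le_left (Zs_mono h0 Subset.rfl j))).trans_le
      (rk_mono le_rfl (Bs_mono h0 Subset.rfl j))

end Pool.Agent.Lib.MP_837412_lc.K
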