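import Pool.Agent.Lib.MP_837412_lc.XSt
import Pool.Agent.Lib.MP_837412_lc.UM
import Pool.Agent.Lib.MP_837412_lc.UP
import Pool.Agent.Lib.MP_837412_lc.WAll

/-!
The machine computes a strict cell with the homology of a given union of cells.
-/

namespace Pool.Agent.Lib.MP_837412_lc

open Set Function MvPolynomial K

attribute [local irreducible] RPT RPB

namespace XFront

section Lists

/-- Homogenisation. -/
noncomputable def hgL (d : ℕ) (p : MvPolynomial ℕ ℝ) : MvPolynomial ℕ ℝ :=
  ∑ b ∈ p.support, monomial (Finsupp.single 0 (d - b.degree) + b.mapDomain (· + 1)) (coeff b p)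

/-- The family on the sphere. -/
noncomputable def hfL (k d : ℕ) (L : List (MvPolynomial ℕ ℝ)) : List (MvPolynomial ℕ ℝ) :=
  L.map (hgL d) ++ L.map (fun p => -hgL d p) ++ [X 0, ∑ i ∈ Finset.range (k + 1), X i ^ 2 - X 0,
    X 0 - ∑ i ∈ Finset.range (k + 1), X i ^ 2]

/-- The positive members. -/
def patL (x : List SignType) : List Bool :=
  x.map (fun u => decide (u = 1)) ++ x.map (fun u => decide (u = -1)) ++ [true, false, false]

/-- One piece. -/
noncomputable def rowL (V : List ℝ) (E : List (List SignType)) (H : List (MvPolynomial ℕ ℝ))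
    (x : ℕ) : List (MvPolynomial ℕ ℝ) :=
  List.zipWith (fun b h => bif b then MvPolynomial.C (V.getD (2 * (x / E.length)) 0) * h - 1
    else 1 - MvPolynomial.C (V.getD (2 * (x / E.length) + 1) 0) * h)
      (patL (E.getD (x % E.length) [])) H

variable {α : Type} [RE α] {k d x : α → ℕ} {L : α → List (MvPolynomial ℕ ℝ)}

@[fun_prop] lemma rpt_hg {p : α → MvPolynomial ℕ ℝ} (hd : RPT d) (hd' : RPB d) (hp : RPT p) :
    RPT fun a => hgL (d a) (p a) :=
  RPT.sum_support hp (RPT.mvMonomial (RPT.add (by fun_prop) (RPT.mapDomain (f := fun _ i => i + 1)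
    (by fun_prop) (by fun_prop) (by fun_prop))) (by fun_prop))

lemma rpt_hf (hk : RPT k) (hk' : RPB k) (hd : RPT d) (hd' : RPB d) (hL : RPT L) :
    RPT fun a => hfL (k a) (d a) (L a) := by
  unfold hfL; fun_prop

lemma rpt_row {V : α → List ℝ} {E : α → List (List SignType)} (hV : RPT V) (hE : RPT E)
    (hL : RPT L) (hx : RPT x) : RPT fun a => rowL (V a) (E a) (L a) (x a) := by
  unfold rowL patL; fun_prop

end Lists

section Idx

variable {k s d N : ℕ}

/-- The list of all indices. -/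
def il (s : ℕ) : List (Ix s) := (List.finRange s).map (fun j => .inl (j, true)) ++
  (List.finRange s).map (fun j => .inl (j, false)) ++
    [.inr none, .inr (some true), .inr (some false)]

lemma length_il : (il s).length = s + s + 3 := by simp [il]; omega

/-- The numbering of the indices. -/
def ie (s : ℕ) : Fin (il s).length ≃ Ix s :=
  List.Nodup.getEquivOfForallMemList (il s) (by
    have a : ∀ b, ((List.finRange s).map fun j => (.inl (j, b) : Ix s)).Nodup := fun b =>
      (List.nodup_finRange s).map fun _ _ h => by simpa using h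
    simp [il, List.nodup_append, a]) (by
    rintro (⟨j, _ | _⟩ | _ | _ | _) <;> simp [il])

lemma ofFn_ie {X : Type} (f : Ix s → X) : (List.ofFn fun y => f (ie s y)) = (il s).map f := by
  conv_rhs => rw [← List.ofFn_get (il s), List.map_ofFn]
  rfl

/-- The numbering of the members of the join. -/
def je (k s : ℕ) : Fin ((il s).length ^ (k + 2)) ≃ Jx k s :=
  finFunctionFinEquiv.symm.trans (Equiv.piCongrRight fun _ => ie s)

lemma card_Jx : Fintype.card (Jx k s) = (il s).length ^ (k + 2) := by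
  rw [← Fintype.card_congr (je k s), Fintype.card_fin]

lemma hg_eq {p : MvPolynomial (Fin k) ℝ} (h : p.totalDegree ≤ d) :
    rename Fin.val (hg d p) = hgL d (rename Fin.val p) := by
  classical
  rw [hgL, support_rename_of_injective Fin.val_injective,
    Finset.sum_image (Finsupp.mapDomain_injective Fin.val_injective).injOn, hg,
    ← Finset.sum_subset (support_subset_box h) fun α _ hα => by
      rw [notMem_support_iff.1 hα, map_zero], map_sum]
  refine Finset.sum_congr rfl fun β _ => ?_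
  rw [rename_monomial, coeff_rename_mapDomain _ Fin.val_injective, Finsupp.degree_mapDomain,
    Finsupp.degree_eq_sum, ← Finsupp.mapDomain_comp]
  congr 2
  have : Finsupp.cons (d - ∑ i, β i) β =
      Finsupp.single 0 (d - ∑ i, β i) + β.mapDomain Fin.succ := by
    ext i
    refine Fin.cases ?_ (fun i => ?_) i
    · simp [Finsupp.mapDomain_of_notMem_range]
    · simp [Finsupp.mapDomain_apply (Fin.succ_injective _)]
  rw [this, Finsupp.mapDomain_add, Finsupp.mapDomain_single, ← Finsupp.mapDomain_comp]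
  rfl

lemma hf_eq {P : Fin s → MvPolynomial (Fin k) ℝ} (h : ∀ j, (P j).totalDegree ≤ d) :
    ((il s).map fun q => rename Fin.val (hf d P q)) =
      hfL k d (List.ofFn fun j => rename Fin.val (P j)) := by
  simp [il, hfL, hf, List.ofFn_eq_map, comp_def, hg_eq (h _), Finset.sum_range]

open Classical in
lemma pat_eq (π : Fin s → SignType) :
    ((il s).map fun q => decide (q ∈ pat π)) = patL (List.ofFn π) := by
  have a : ∀ j, decide (.inl (j, true) ∈ pat π) = decide (π j = 1) := fun _ =>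
    decide_eq_decide.2 Iff.rfl
  have b : ∀ j, decide (.inl (j, false) ∈ pat π) = decide (π j = -1) := fun _ =>
    decide_eq_decide.2 Iff.rfl
  have c : ∀ q, .inr q ∈ pat π ↔ pat π (.inr q) := fun _ => Iff.rfl
  simp [il, patL, List.ofFn_eq_map, comp_def, a, b, c, pat]

lemma row_eq {P : Fin s → MvPolynomial (Fin k) ℝ} (h : ∀ j, (P j).totalDegree ≤ d)
    (e : Fin N → Fin s → SignType) (v : ℕ → ℝ) (x : Fin ((k + 2) * N)) :
    (List.ofFn fun y => rename Fin.val (pp (k + 2) (hf d P) (fun c => pat (e c)) v x (ie s y))) =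
      rowL ((List.range (2 * (k + 2))).map v) (List.ofFn fun x => List.ofFn (e x))
        (hfL k d (List.ofFn fun j => rename Fin.val (P j))) x := by
  have a := x.divNat.2
  have b := x.modNat.2
  have g : ∀ r < 2 * (k + 2), ((List.range (2 * (k + 2))).map v).getD r 0 = v r := fun r hr => by
    simp [hr]
  rw [ofFn_ie fun q => rename Fin.val (pp (k + 2) (hf d P) (fun c => pat (e c)) v x q), rowL,
    List.length_ofFn, ← Fin.coe_divNat, ← Fin.coe_modNat, g _ (by omega), g _ (by omega),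
    List.getD_eq_getElem _ _ (by simpa using b), List.getElem_ofFn, ← hf_eq h, ← pat_eq,
    List.zipWith_map, List.zipWith_self]
  refine List.map_congr_left fun q _ => ?_
  by_cases c : q ∈ pat (e x.modNat) <;> simp [pp, lev, c, -Fin.coe_modNat]

lemma big_ie {σ ι : Type} [Fintype ι] (p : Fin N → Ix s → MvPolynomial σ ℝ)
    (χ : ι → Fin (il s).length) :
    big (fun x y => p x (ie s y)) χ = big p fun i => ie s (χ i) := by
  simp only [big, psi, ← fun a => (ie s).sum_comp fun j => rename (Sum.inl (β := ι ⊕ ι)) (p a j) ^ 2]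

lemma small (k s d N : ℕ) : sz (Vs k) (mW k s d N) ≤ (s + d + N + 2) ^ (k + 2) ^ 29 ∧
    sz (Vs k) (2 * ((il s).length ^ (k + 2) + 1) * (mW k s d N + 1) + 3) ≤
      (s + d + N + 2) ^ (k + 2) ^ 29 ∧
    MW k s d N ^ (2 * (k + 2) + 1) ≤ (s + d + N + 2) ^ (k + 2) ^ 29 := by
  have hn : 2 ≤ k + 2 := by omega
  obtain ⟨b, eb, hb, h1, h2, h3⟩ : ∃ b, s + d + N + 2 = b ∧ 2 ≤ b ∧ s ≤ b ∧ d ≤ b ∧ N ≤ b :=
    ⟨_, rfl, by omega, by omega, by omega, by omega⟩
  rw [eb, ← card_Jx]
  have sb : Sm b (k + 2) 0 b := by simp [Sm]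
  have sT : Sm b (k + 2) 5 (Fintype.card (Jx k s)) := by
    rw [card_Jx, length_il]
    exact Sm.pow hb hn (c := 4) (j := 1) (sb.poly hb hn (by
      nlinarith [Nat.zero_le (b ^ 4), Nat.zero_le (b ^ 3), Nat.zero_le (b ^ 2)])) (by simp)
  obtain ⟨W, w0, w1, w2, w3⟩ : ∃ W, Sm b (k + 2) 5 W ∧ b ≤ W ∧ Fintype.card (Jx k s) ≤ W ∧
      k + 2 ≤ W := ⟨b ^ (k + 2) ^ 5, le_rfl, sb.mono hb hn (j := 5) (by omega), sT,
    (Sm.self hb).mono hb hn (j := 5) (by omega)⟩
  have q4 : (W + 2) ^ 4 = W * W * W * W + 8 * (W * W * W) + 24 * (W * W) + 32 * W + 16 := by ring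
  have nN : (k + 2) * N ≤ W * W := Nat.mul_le_mul w3 (h3.trans w1)
  have sm : Sm b (k + 2) 9 (mW k s d N + (k + 2)) := w0.poly hb hn (by
    have : 2 * Fintype.card (Jx k s) * dW k d N ≤ 2 * W * (2 * (W * W + W + 3)) :=
      Nat.mul_le_mul (by omega) (by rw [dW]; omega)
    have e : 2 * W * (2 * (W * W + W + 3)) = 4 * (W * W * W) + 4 * (W * W) + 12 * W := by ring
    rw [mW, q4]
    omega)
  have cV : Fintype.card (Vs k) ≤ 3 * (k + 2) := by simp; omega
  have sS := sm.sz hb hn cV
  obtain ⟨s1, s2, -, -, s5, -, s7⟩ := sizes (σ := Vs k) (m := mW k s d N) (Nat.le_add_left _ _)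
  have mT : 2 * Fintype.card (Jx k s) * 2 + 1 ≤ mW k s d N :=
    Nat.add_le_add (Nat.mul_le_mul_left _ (by rw [dW]; omega)) (by omega)
  have sM : Sm b (k + 2) 25 (MW k s d N) := by
    refine le_trans ?_ sS
    have : Dp (Vs k) (Jx k s) (mW k s d N) 2 ≤ sz (Vs k) (mW k s d N) ^ 3 := by
      rw [pow_three]
      exact Nat.mul_le_mul ((Nat.pow_le_pow_left (by omega) _).trans s2)
        (Nat.mul_le_mul (by omega) (by omega))
    exact this.trans_lt (Nat.pow_lt_pow_right (by omega) (by omega))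
  exact ⟨(Nat.le_self_pow (by omega) _).trans (sS.mono hb hn (j := 29) (by omega)),
    (Nat.le_self_pow (by omega) _).trans ((sm.poly hb hn ((add_assoc _ _ _).trans_le
      (le4 (by omega) (by omega) (by omega)))).sz hb hn cV),
    sM.pow hb hn (j := 4) (by
      nlinarith [Nat.zero_le (k ^ 4), Nat.zero_le (k ^ 3), Nat.zero_le (k ^ 2)])⟩

end Idx

variable {α β : Type} [RE α] [RE β]

lemma rpt_sq {σ : α → Type} [∀ a, Fintype (σ a)] {m n d : α → ℕ}
    {Q : ∀ a, Fin (n a) → MvPolynomial (σ a) ℝ} (h : Sz σ m)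
    (hd : ∀ a, 2 * n a * d a < m a ∧ ∀ j, (Q a j).totalDegree ≤ d a)
    (hQ : RPT fun a => List.ofFn fun j => up (Q a j)) : RPT fun a => up (sq (Q a)) := by
  classical
  have z := fun a => sizes (σ := σ a) (h.le a)
  refine (RPT.mvProd (l := fun a => (List.ofFn fun j => up (Q a j)).map fun q => q ^ 2)
    (k := fun a => Fintype.card (σ a)) (D := fun a => min (2 * d a) (m a)) (by fun_prop)
    (fun a q hq => ?_) (h.bd.mono fun a => (Nat.le_self_pow two_ne_zero _).trans (z a).2.2.2.2.2.1)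
    (.min_right (h.bd.mono fun a => (Nat.le_succ _).trans (z a).2.2.2.2.2.2) _)
    (h.bd.mono fun a => le_trans (Nat.pow_le_pow_left (Nat.succ_le_succ ?_) _) (z a).2.1)).of_eq
      fun a => by simp [sq, List.map_ofFn, List.prod_ofFn]
  · rw [List.map_ofFn, List.mem_ofFn] at hq
    obtain ⟨j, rfl⟩ := hq
    have := (hd a).1
    have := j.pos
    exact ((box_up _).pow 2).mono le_rfl ((Nat.mul_le_mul_left 2 ((hd a).2 j)).trans
      (le_min le_rfl (by nlinarith)))
  · rw [List.length_map, List.length_ofFn]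
    exact (Nat.mul_le_mul_left _ (min_le_left _ _)).trans (le_trans (le_of_eq (by ring)) (hd a).1.le)

@[fun_prop] lemma rpt_mW {k s d N : α → ℕ} (hk : RPT k) (bk : RPB k) (hs : RPT s) (hd : RPT d)
    (hN : RPT N) : RPT fun a => mW (k a) (s a) (d a) (N a) := by
  simp only [mW, dW, card_Jx, length_il]
  fun_prop

/-- The data of the input. -/
structure In (k s d N : α → ℕ) (P : ∀ a, Fin (s a) → MvPolynomial (Fin (k a)) ℝ)
    (e : ∀ a, Fin (N a) → Fin (s a) → SignType) (θ : ∀ a, Equiv.Perm (Vs (k a))) : Prop where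
  hk : RPT k
  hs : RPT s
  hd : RPT d
  hb : RPB fun a => (s a + d a + N a + 2) ^ (k a + 2) ^ 29
  deg : ∀ a j, (P a j).totalDegree ≤ d a
  hP : RPT fun a => List.ofFn fun j => rename Fin.val (P a j)
  he : RPT fun a => List.ofFn fun x => List.ofFn (e a x)
  th : ∀ a i, ix (θ a i) = jB (k a + 1) (k a + 2) Fin.val i

namespace In

variable {k s d N : α → ℕ} {P : ∀ a, Fin (s a) → MvPolynomial (Fin (k a)) ℝ}
  {e : ∀ a, Fin (N a) → Fin (s a) → SignType} {θ : ∀ a, Equiv.Perm (Vs (k a))}
  (H : In k s d N P e θ) {t : α → ℝ}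
include H

lemma comp {f : β → α} (hf : RPT f) : In (fun b => k (f b)) (fun b => s (f b)) (fun b => d (f b))
    (fun b => N (f b)) (fun b => P (f b)) (fun b => e (f b)) fun b => θ (f b) :=
  ⟨H.hk.comp' hf, H.hs.comp' hf, H.hd.comp' hf, H.hb.comp hf, fun _ => H.deg _, H.hP.comp' hf,
    H.he.comp' hf, fun _ => H.th _⟩

lemma hN : RPT N := H.he.length.of_eq fun _ => List.length_ofFn

lemma bd {f : α → ℕ} (h : ∀ a, f a ≤ s a + d a + N a + 2 + (k a + 2)) : RPB f :=
  (H.hb.add H.hb).mono fun a => (h a).trans (Nat.add_le_add (Nat.le_self_pow (by positivity) _)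
    ((Sm.self (by omega)).mono (by omega) (by omega) (j := 29) (by omega)))

lemma fw (a : α) : (∀ t χ, (QW (d a) (P a) (e a) (θ a) t χ).totalDegree ≤ dW (k a) (d a) (N a)) ∧
    IsP Complex.ofReal (Dp (Vs (k a)) (Jx (k a) (s a)) (mW (k a) (s a) (d a) (N a)) 2 *
      MW (k a) (s a) (d a) (N a) ^ (2 * (k a + 2))) (GW (d a) (P a) (e a) (θ a)) :=
  letI : Coef := ⟨ℚ⟩
  (allV.finW (H.deg a) _ _).imp_right And.left

lemma card : RPT fun a => Fintype.card (Vs (k a)) := by
  have := H.hk
  simp only [Fintype.card_sum, Fintype.card_fin]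
  fun_prop

lemma sz : Sz (fun a => Vs (k a)) fun a => mW (k a) (s a) (d a) (N a) :=
  ⟨H.card, rpt_mW H.hk (H.bd fun _ => by omega) H.hs H.hd H.hN, H.hb.mono fun _ => (small _ _ _ _).1, fun _ => Nat.le_add_left _ _⟩

lemma hD : RPT fun a => Dp (Vs (k a)) (Jx (k a) (s a)) (mW (k a) (s a) (d a) (N a)) 2 := by
  have := H.hk; have := H.hs; have := H.hd; have := H.hN
  have : RPB k := H.bd fun _ => by omega
  simp only [Dp, Kf, card_Jx, length_il, Fintype.card_sum, Fintype.card_fin]
  fun_prop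

lemma pw {r : α → ℕ} (hr : RPT r) (h : ∀ a, r a ≤ 2 * (k a + 2) + 1) :
    (RPT fun a => MW (k a) (s a) (d a) (N a) ^ r a) ∧
      RPB fun a => MW (k a) (s a) (d a) (N a) ^ r a := by
  have : RPB k := H.bd fun _ => by omega
  exact ⟨(H.hD.nadd (.const 1)).npow hr (RPB.mono (by fun_prop) h), H.hb.mono fun a =>
    (Nat.pow_le_pow_right (Nat.le_add_left _ _) (h a)).trans (small _ _ _ _).2.2⟩

lemma dq (a : α) : 2 * (il (s a)).length ^ (k a + 2) * dW (k a) (d a) (N a) <
    mW (k a) (s a) (d a) (N a) ∧ ∀ j, (QW (d a) (P a) (e a) (θ a) (t a) (je _ _ j)).totalDegree ≤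
      dW (k a) (d a) (N a) :=
  ⟨by rw [mW, card_Jx]; omega, fun _ => (H.fw a).1 _ _⟩

lemma hQ (h4 : BigU) (ht : RPT t) :
    RPT fun a => List.ofFn fun n => up (QW (d a) (P a) (e a) (θ a) (t a) (je _ _ n)) := by
  have := H.hk; have := H.hs; have := H.hd; have := H.hN
  have bk : RPB k := H.bd fun _ => by omega
  have bd : RPB d := H.bd fun _ => by omega
  have bN : RPB N := H.bd fun _ => by omega
  have z := fun a => sizes (σ := Vs (k a)) (H.sz.le a)
  have hV : RPT fun a => (List.range (2 * (k a + 2))).map (kr (MW (k a) (s a) (d a) (N a)) (t a)) :=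
    RPT.map_range_sub (by fun_prop) (by fun_prop) (by
      obtain ⟨a, b⟩ := (H.comp (f := fun p : {p : α × Un // p.2.val < 2 * (k p.1 + 2)} => p.1.1)
        (by fun_prop)).pw (r := fun p => p.1.2.val) (by fun_prop) fun p => by have := p.2; omega
      exact RPT.pow (by fun_prop) a b)
  have hH := rpt_hf H.hk bk H.hd bd H.hP
  have he := H.he
  refine (h4 α (fun a => Fin (k a + 1)) (fun a => k a + 1) (fun a => (k a + 2) * N a)
    (fun a => (il (s a)).length) (fun a => k a + 2) (fun a => d a + 2) (fun _ => Fin.val)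
    (fun a x y => pp (k a + 2) (hf (d a) (P a)) (fun c => pat (e a c))
      (kr (MW (k a) (s a) (d a) (N a)) (t a)) x (ie _ y)) (by fun_prop) (by fun_prop) (by fun_prop)
    (by fun_prop) (by simp only [length_il]; fun_prop) (by fun_prop) (fun _ i => i.2)
    (fun a x y => deg_lev (@homV ⟨ℚ⟩ _ _ _ _ _ (e a) (H.deg a)).1 _ _ _ _)
    (H.sz.bd.mono fun a => ?_) (H.sz.bd.mono fun a => le_trans ?_ (z a).2.1) ?_).of_eq fun a => ?_
  · have := (z a).2.2.2.2.2.2
    have := (H.dq (t := t) a).1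
    have : 1 ≤ dW (k a) (d a) (N a) := by rw [dW]; omega
    nlinarith
  · have := (H.dq (t := t) a).1
    have : 1 ≤ (il (s a)).length ^ (k a + 2) := Nat.one_le_pow _ _ (by rw [length_il]; omega)
    rw [show k a + 1 + 2 * (k a + 2) = Fintype.card (Vs (k a)) by simp; omega]
    exact Nat.pow_le_pow_left (Nat.succ_le_succ (by change dW (k a) (d a) (N a) ≤ _; nlinarith)) _
  · refine (RPT.map_range (n := fun a => (k a + 2) * N a) (h := fun a => rowL
      ((List.range (2 * (k a + 2))).map (kr (MW (k a) (s a) (d a) (N a)) (t a)))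
      (List.ofFn fun x => List.ofFn (e a x))
      (hfL (k a) (d a) (List.ofFn fun j => rename Fin.val (P a j))))
      (by fun_prop) (by fun_prop) (rpt_row (hV.comp' (.fst .id')) (he.comp' (.fst .id')) (hH.comp' (.fst .id'))
        (.unVal (.snd .id')))).of_eq fun a => ?_
    rw [← List.map_coe_finRange_eq_range (n := (k a + 2) * N a), List.map_map, ← List.ofFn_eq_map]
    exact congrArg _ (funext fun x => (row_eq (H.deg a) _ _ x).symm)
  · simp only [big_ie (pp _ _ _ _), QW, Qb, up_rename, H.th a]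
    rfl

lemma hl (ht : RPT t) : RPT fun a => kr (MW (k a) (s a) (d a) (N a)) (t a) (2 * (k a + 2)) := by
  have := H.hk
  obtain ⟨a, b⟩ := H.pw (r := fun a => 2 * (k a + 2)) (by fun_prop) fun _ => by omega
  exact RPT.pow ht a b

lemma hS (h4 : BigU) (ht : RPT t) : RPT fun a => up (sq (QW (d a) (P a) (e a) (θ a) (t a))) :=
  (rpt_sq H.sz H.dq (H.hQ h4 ht)).of_eq fun a => congrArg up
    ((je _ _).prod_comp fun j => QW (d a) (P a) (e a) (θ a) (t a) j ^ 2)

lemma hG (h2 : LamU) (h4 : BigU) (ht : RPT t) :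
    RPT fun a => GW (d a) (P a) (e a) (θ a) (t a) :=
  RPT.coeff (h2 α _ _ (fun a => cx' (sq (QW (d a) (P a) (e a) (θ a) (t a)))) _ H.sz
    (fun a => (deg_cx _).trans_lt (deg_sq ((H.fw a).1 _)))
    ((H.hS h4 ht).mvMapReal.of_eq fun _ => (up_map _ _).symm) (H.hl ht).ofReal) (.const 0)

lemma ht (h2 : LamU) (h4 : BigU) : RPT fun a => tW (d a) (P a) (e a) (θ a) := by
  have := H.hk
  obtain ⟨a, -⟩ := H.pw (r := fun a => 2 * (k a + 2)) (by fun_prop) fun _ => by omega
  obtain ⟨-, b⟩ := H.pw (r := fun a => 2 * (k a + 2) + 1) (by fun_prop) fun _ => le_rfl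
  exact (RPT.pol (H.hD.nmul a) (b.mono fun a => by
    rw [pow_succ, mul_comm]; exact Nat.mul_le_mul_left _ (Nat.le_succ _))
    (fun a => (H.fw a).2) ((H.comp (f := fun x : α × Un => x.1)
      (by fun_prop)).hG h2 h4 (t := fun x => x.2.val) (by fun_prop))).cb

end In

end XFront

open XFront in
theorem frontU (h1 : FlU) (h2 : LamU) (h4 : BigU) : FrontU := by
  refine ⟨29, fun α _ k s d N P e hk hs hd hb hP hL he => ?_⟩
  have th : ∀ a, ∃ θ : Equiv.Perm (Vs (k a)), ∀ i, ix (θ i) = jB (k a + 1) (k a + 2) Fin.val i :=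
    fun a => exists_perm_ix (by
      rintro (i | i | i) (j | j | j) h <;> simp only [jB, Sum.elim_inl, Sum.elim_inr] at h <;>
        first | omega | exact congrArg _ (Fin.ext (by omega)) |
          exact congrArg _ (congrArg _ (Fin.ext (by omega)))) (by
      rintro (i | i | i) <;> simp [jB] <;> omega)
  choose θ th using th
  have H : In k s d N P e θ := ⟨hk, hs, hd, hb, hP, hL, he, th⟩
  have bk : RPB k := H.bd fun _ => by omega
  have hN := H.hN
  have ht := H.ht h2 h4
  refine ⟨fun a => Vs (k a), inferInstance, inferInstance, fun a => 2 *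
    ((il (s a)).length ^ (k a + 2) + 1) * (mW (k a) (s a) (d a) (N a) + 1) + 3,
    fun a => (il (s a)).length ^ (k a + 2) + 1, fun a => mW (k a) (s a) (d a) (N a) + 1,
    fun a => Fin.cons (famW (d a) (P a) (e a) (θ a) none)
      fun n => famW (d a) (P a) (e a) (θ a) (some (je _ _ n)),
    ⟨H.card, ?_, hb.mono fun _ => (small _ _ _ _).2.1, fun _ => Nat.le_add_left _ _⟩,
    fun a => (Even.add_odd (by simp [mul_assoc]) (by decide)),
    fun a => ⟨Nat.lt_add_of_pos_right (by omega), ?_⟩, ?_,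
    fun a => ⟨by simp; omega, fun c j hj => ?_⟩⟩
  · simp only [length_il]
    fun_prop
  · refine Fin.cases ((totalDegree_neg _).trans_le (deg_Fl (deg_sq ((H.fw a).1 _)) _)) fun n =>
      ((H.fw a).1 _ _).trans ?_
    have := (H.dq (t := fun _ => 0) a).1
    have := n.pos
    nlinarith
  · refine ((((h1 α _ _ H.sz).1.sub' ((RPT.mvC (H.hl ht)).mul (H.hS h4 ht))).neg).cons
      (H.hQ h4 ht)).of_eq fun a => ?_
    simp [List.ofFn_succ, famW, fam, Fl]
  · rw [← (allV.finW (hP a) (e a) (θ a)).2.2.2 j hj]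
    congr 1
    ext y
    simp only [cell, mem_ofPred_eq, Fin.forall_fin_succ, Fin.cons_zero, Fin.cons_succ,
      Option.forall, (je _ _).surjective.forall]

end Pool.Agent.Lib.MP_837412_lc
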