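import Pool.Agent.Lib.MP_837412_lc.XSt
import Pool.Agent.Lib.MP_837412_lc.UM
import Pool.Agent.Lib.MP_837412_lc.VInit
import Pool.Agent.Lib.MP_837412_lc.VTrk

/-!
A list that contains all realised vectors of signs.
-/

namespace Pool.Agent.Lib.MP_837412_lc

open Set Function MvPolynomial

attribute [local irreducible] RPT RPB

namespace XSamp

/-- The vector of signs that belongs to a list of strict signs. -/
def decL (s : ℕ) (l : List SignType) : List SignType :=
  (List.range s).map fun j => if l.getD j 0 = 1 then 1 else if l.getD (s + j) 0 = -1 then -1 else 0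

variable {k s : ℕ}

/-- The doubled family, numbered and renamed. -/
noncomputable def Qe (e : Equiv.Perm (Option (Fin k))) (P : Fin s → MvPolynomial (Fin k) ℝ) :
    Fin (s + s) → MvPolynomial (Option (Fin k)) ℝ :=
  Fin.append (fun j => rename e (Qw P (j, false))) fun j => rename e (Qw P (j, true))

lemma decL_eq (π : Fin s × Bool → SignType) :
    decL s (List.ofFn (Fin.append (fun j => π (j, false)) fun j => π (j, true))) =
      List.ofFn (dec π) := by
  rw [List.ofFn_fin_append]
  refine List.ext_getElem (by simp [decL]) fun j h1 h2 => ?_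
  have hj : j < s := by simpa using h2
  simp only [decL, List.getElem_map, List.getElem_range, List.getElem_ofFn, dec]
  rw [List.getD_append _ _ _ _ (by simpa using hj), List.getD_append_right _ _ _ _ (by simp),
    List.getD_eq_getElem _ _ (by simpa using hj), List.getD_eq_getElem _ _ (by simpa using hj)]
  simp

lemma deg_Qe (e : Equiv.Perm (Option (Fin k))) {P : Fin s → MvPolynomial (Fin k) ℝ} {d : ℕ}
    (h : ∀ j, (P j).totalDegree ≤ d) (n : Fin (s + s)) : (Qe e P n).totalDegree ≤ d + 1 := by
  have a : ∀ q, (rename e (Qw P q)).totalDegree ≤ d + 1 := fun q =>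
    (totalDegree_rename_le _ _).trans ((totalDegree_add _ _).trans (max_le
      ((totalDegree_mul _ _).trans (by
        rw [totalDegree_X, add_comm]
        exact Nat.succ_le_succ ((totalDegree_rename_le _ _).trans (h _))))
      (by rw [totalDegree_C]; omega)))
  refine Fin.addCases (fun j => ?_) (fun j => ?_) n
  · rw [Qe, Fin.append_left]; exact a _
  · rw [Qe, Fin.append_right]; exact a _

lemma up_Qe {e : Equiv.Perm (Option (Fin k))} (he : ∀ i, ix (e i) = i.elim k Fin.val)
    (P : Fin s → MvPolynomial (Fin k) ℝ) : (List.ofFn fun n => up (Qe e P n)) =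
      (List.ofFn fun j => rename Fin.val (P j)).map (fun p => X k * p + -1) ++
        (List.ofFn fun j => rename Fin.val (P j)).map fun p => X k * p + 1 := by
  have a : ∀ q, up (rename e (Qw P q)) =
      X k * rename Fin.val (P q.1) + MvPolynomial.C (if q.2 then 1 else -1) := fun q => by
    rw [up_rename, Qw, map_add, map_mul, rename_X, rename_C, rename_rename, he]
    rw [show ((fun i => ix (e i)) ∘ some) = Fin.val from _root_.funext fun i => he (some i)]
    rfl
  rw [List.ofFn_add, List.map_ofFn, List.map_ofFn]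
  congr 2
  · funext j
    rw [show Fin.castLE (Nat.le_add_right s s) j = Fin.castAdd s j from rfl, Qe, Fin.append_left, a]
    simp
  · funext j
    rw [Qe, Fin.append_right, a]
    simp

lemma mem_labs (e : Equiv.Perm (Option (Fin k))) {P : Fin s → MvPolynomial (Fin k) ℝ} {d m : ℕ}
    (h : ∀ j, (P j).totalDegree ≤ d) (hm : m = 2 * (s + s) * (d + 1) + 3) (y : Fin k → ℝ) :
    (List.ofFn fun j => SignType.sign (eval y (P j))) ∈
      (labs m (Qe e P)).map fun x => decL s x.2.2.1 := by
  obtain ⟨π, ⟨h0, z, hz⟩, hπ⟩ := exists_Tq P y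
  have dq : (sq (Qe e P)).totalDegree < m := by
    simpa [hm] using deg_sq (deg_Qe e h)
  obtain ⟨a, ha⟩ := hitS _ _ m (Qe e P) (Fin.append (fun j => π (j, false)) fun j => π (j, true))
    (by omega) ⟨(s + s) * (d + 1) + 1, by rw [hm]; ring⟩ dq
    (fun n => Fin.addCases (fun j => by rw [Fin.append_left]; exact h0 _)
      (fun j => by rw [Fin.append_right]; exact h0 _) n)
    ⟨z ∘ e.symm, fun n => Fin.addCases
      (fun j => by
        rw [Qe, Fin.append_left, Fin.append_left, eval_rename, comp_assoc, e.symm_comp_self]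
        exact hz _)
      (fun j => by
        rw [Qe, Fin.append_right, Fin.append_right, eval_rename, comp_assoc, e.symm_comp_self]
        exact hz _) n⟩
  have inj : Injective (Le m (Qe e P)) :=
    (all.mor_ls (by omega) ((deg_cx _).trans_lt dq)).choose_spec.inj
  obtain ⟨f, -, hf⟩ := (typM _ (Le m (Qe e P))).2 inj
  obtain ⟨i, rfl⟩ := f.surjective a
  rw [labs, List.map_map]
  refine List.mem_map.2 ⟨_, List.getElem_mem i.2, ?_⟩
  show decL s (List.ofFn (lab m (Qe e P) (gp _ (typ (Le m (Qe e P)))[i])).2.2.1) = _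
  rw [← hf i, ha, decL_eq, hπ]

lemma small (k s d : ℕ) : sz (Option (Fin k)) (2 * (s + s) * (d + 1) + 3) ^ 200 ≤
    (s + d + 2) ^ (k + 2) ^ 24 := by
  have hb : 2 ≤ s + d + 2 := by omega
  have hn : 2 ≤ k + 2 := by omega
  have sb : Sm (s + d + 2) (k + 2) 0 (s + d + 2) := by simp [Sm]
  have a : Sm (s + d + 2) (k + 2) 4 (2 * (s + s) * (d + 1) + 3) := sb.poly hb hn (by
    rw [show 4 = 2 + 2 from rfl, pow_add]
    have : 2 * (s + s) * (d + 1) + 3 ≤ 4 * (s + d + 2 + 2) ^ 2 := by nlinarith
    exact this.trans (Nat.mul_le_mul_right _ (by nlinarith)))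
  exact (a.add hb hn ((Sm.self hb).mono hb hn (by omega))).sz hb hn (by simp; omega)

end XSamp

open XSamp

theorem sampU (h : LabU) : SampU := by
  refine ⟨24, fun α _ k s d P hk hs hd hb hP hL => ?_⟩
  have he : ∀ a, ∃ e : Equiv.Perm (Option (Fin (k a))), ∀ i, ix (e i) = i.elim (k a) Fin.val :=
    fun a => exists_perm_ix (fun i j hij => by
      rcases i with _ | i <;> rcases j with _ | j
      · rfl
      · exact absurd hij j.2.ne'
      · exact absurd hij i.2.ne
      · exact congrArg some (Fin.ext hij)) fun i => by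
      rcases i with _ | i
      · simp
      · simp
  choose e he using he
  have z : ∀ a, sz (Option (Fin (k a))) (2 * (s a + s a) * (d a + 1) + 3) ≤
      (s a + d a + 2) ^ (k a + 2) ^ 24 := fun a =>
    (Nat.le_self_pow (by omega) _).trans (small _ _ _)
  have sz' := fun a => sizes (σ := Option (Fin (k a))) (m := 2 * (s a + s a) * (d a + 1) + 3)
    (by omega)
  have bk : RPB k := hb.mono fun a => le_trans (by
    have := (sz' a).2.2.2.2.2.1
    rw [Fintype.card_option, Fintype.card_fin] at this
    nlinarith) (z a)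
  have bs : RPB s := hb.mono fun a => le_trans (by
    have := (sz' a).2.2.2.2.2.2
    nlinarith) (z a)
  have H := (h α (fun a => Option (Fin (k a))) (fun a => 2 * (s a + s a) * (d a + 1) + 3)
    (fun a => s a + s a) (fun a => d a + 1) (fun a => Qe (e a) (P a))
    ⟨by simp only [Fintype.card_option, Fintype.card_fin]; fun_prop, by fun_prop,
      hb.mono z, fun a => by omega⟩ (fun a => ⟨by omega, deg_Qe _ (hP a)⟩)
    (RPT.of_eq (by fun_prop) fun a => (up_Qe (he a) (P a)).symm)).2.2
  refine ⟨fun a => (labs (2 * (s a + s a) * (d a + 1) + 3) (Qe (e a) (P a))).map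
    fun x => decL (s a) x.2.2.1, ?_, fun a => ⟨?_, fun x hx => ?_, mem_labs _ (hP a) rfl⟩⟩
  · unfold decL
    fun_prop
  · rw [List.length_map, labs, List.length_map]
    exact (typM _ _).1.trans ((Nat.le_self_pow two_ne_zero _).trans ((sz' a).2.2.1.trans (z a)))
  · obtain ⟨x, -, rfl⟩ := List.mem_map.1 hx
    simp [decL]

end Pool.Agent.Lib.MP_837412_lc
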