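import Pool.Agent.Lib.MP_837412_lc.YSt
import Pool.Agent.Lib.MP_837412_lc.KReal
import Pool.Agent.Lib.MP_837412_lc.KPort
import Pool.Agent.Lib.MP_837412_lc.G5

/-!
The Betti numbers of a sublevel set are read off from the grid.
-/

namespace Pool.Agent.Lib.MP_837412_lc.K.Y

open Set Function MvPolynomial

variable [Coef]

theorem betS (h1 : GridS) (h2 : PlS) (h3 : EstY) (h4 : NetS) : BetS := by
  intro σ _ _ m R M co a ω hv hm ho hh ⟨g1, g2, g3, g4⟩ hl j
  obtain ⟨p1, -, p3, -⟩ := h2 σ m (by omega)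
  obtain ⟨e1, e2⟩ := h3 σ m co ho
  obtain ⟨n1, n2⟩ := h4.2 σ R M g2
  have M1 : (1 : ℝ) ≤ M := by exact_mod_cast g2
  have c0 : 0 ≤ cB (Fintype.card σ) m co := by unfold cB; positivity
  have bd : ∀ x : σ → ℝ, eval x (Fl m (pl σ m co) 1) < a + 4 * ω → ‖x‖ ≤ R := fun x hx => by
    by_contra hc
    have := e1 x (by nlinarith [sq_nonneg a])
    nlinarith [sq_nonneg (a - 1)]
  have ac : ∀ b, a ≤ b → b ≤ a + 4 * ω → Ac {x | eval x (Fl m (pl σ m co) 1) < b}
      {x | eval x (Fl m (pl σ m co) 1) < a} := fun b ab hb => by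
    have := KReal.ac_part acS ((all.grow σ m _ ho (p1 co)).2 1) ab isOpen_univ isOpen_empty
      (disjoint_empty _) (fun y _ => Or.inl (mem_univ y)) fun y _ hy h0 => by
        obtain ⟨i, hi⟩ := (all.crit σ m _ ((1 : ℝ) : ℂ) hm ((deg_cx _).trans_lt (p1 co))
          (fun i => y i) fun i => by
            rw [← cx_Fl, pderiv_cx, eval_cx, hy i, Complex.ofReal_zero]).1
        rw [← cx_Fl, eval_cx, Complex.ofReal_one] at hi
        exact hl i (by rw [hi, Complex.ofReal_re]; exact ⟨h0.1, h0.2.trans hb⟩)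
    rwa [inter_univ, inter_univ] at this
  rw [h1 (σ → ℝ) ℕ (fun n i => gv R M n (ix i)) {n | n < (2 * R * M + 1) ^ Fintype.card σ}
    (fun y => eval y (Fl m (pl σ m co) 1)) a ω (1 / M) (MvPolynomial.continuous_eval _) g1
    (by positivity) (fun x hx => n1 x (bd x (by linarith))) (fun x y d hx => ?_)
    (ac _ (by linarith) (by linarith)) (ac _ (by linarith) le_rfl), bt, hh, n2, n2]
  · simp only [p3, decide_eq_true_eq, Nat.cast_ofNat, mem_ofPred_eq]
  · have b1 := bd x (by linarith)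
    have d6 : 6 * (1 / (M : ℝ)) ≤ 6 := by
      have := (div_le_one (by positivity)).2 M1
      linarith
    rw [dist_eq_norm] at d
    have b2 : ‖y‖ ≤ R + 6 := by
      have := norm_sub_norm_le y x
      rw [norm_sub_rev] at this
      linarith
    have b3 := e2 (R + 6) x y (by have := Nat.cast_nonneg (α := ℝ) R; linarith) (by linarith) b2
    have b4 := b3.trans (mul_le_mul_of_nonneg_left d (by positivity))
    have b5 : (m + 1) * (Fintype.card σ + cB (Fintype.card σ) m co) * (R + 6) ^ m *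
        (6 * (1 / (M : ℝ))) < ω := by
      rw [← mul_assoc, mul_one_div, div_lt_iff₀ (by positivity)]
      exact g4
    have := (abs_le.1 b4).1
    linarith

end Pool.Agent.Lib.MP_837412_lc.K.Y
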