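import Pool.Agent.Lib.MP_837412_lc.YSt
import Pool.Agent.Lib.MP_837412_lc.JOrd

/-!
Discs that certify a walk exist.
-/

namespace Pool.Agent.Lib.MP_837412_lc.K.Y

open Set Function Filter Topology

namespace YCertC

variable {ι : Type} [Fintype ι]

/-- The order type is refined with a margin. -/
def Mg (g : ℝ) (t : Tl) (c : ι → ℂ) : Prop := ∃ e : Fin t.length ≃ ι, ∀ i j,
  ((pts t i).re < (pts t j).re → (c (e i)).re + g ≤ (c (e j)).re) ∧
  ((pts t i).im < (pts t j).im → (c (e i)).im + g ≤ (c (e j)).im)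

lemma pts_re (t : Tl) {i : ℕ} (h : i < t.length) :
    (pts t ⟨i, h⟩).re = ((t.getD i (0, 0)).1 : ℝ) := by
  simp [pts, List.getD_eq_getElem?_getD, h]

lemma pts_im (t : Tl) {i : ℕ} (h : i < t.length) :
    (pts t ⟨i, h⟩).im = ((t.getD i (0, 0)).2 : ℝ) := by
  simp [pts, List.getD_eq_getElem?_getD, h]

lemma gap {p : Prop} {a b : ℝ} (h : p → a < b) : ∀ᶠ g in 𝓝[>] (0 : ℝ), p → a + g ≤ b := by
  by_cases hp : p
  · filter_upwards [Ioo_mem_nhdsGT (sub_pos.2 (h hp))] with g hg _ using by linarith [hg.2]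
  · exact .of_forall fun _ a => absurd a hp

lemma near {c : ℝ → ι → ℂ} {t : Tl} {s : ℝ} (hc : ∀ j, Continuous fun s => (chi (c s)).coeff j)
    (ht : Injective (pts t)) (h : Ref t (c s)) :
    ∀ᶠ z : ℝ × ℝ in 𝓝 (0, s), Mg z.1 t (c z.2) := by
  obtain ⟨e, he⟩ := h
  have inj : Injective (c s ∘ e) := fun i j hij => ht <| by
    refine Complex.ext (le_antisymm ?_ ?_) (le_antisymm ?_ ?_) <;> refine le_of_not_gt fun a => ?_
    · exact ((he j i).1 a).ne (congrArg _ hij.symm)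
    · exact ((he i j).1 a).ne (congrArg _ hij)
    · exact ((he j i).2 a).ne (congrArg _ hij.symm)
    · exact ((he i j).2 a).ne (congrArg _ hij)
  obtain ⟨g, g1, g0⟩ := ((eventually_all.2 fun i => eventually_all.2 fun j =>
    (gap (he i j).1).and (gap (he i j).2)).and self_mem_nhdsWithin).exists
  have g0 : 0 < g := g0
  have := nearS ℝ ι c s (fun j => (hc j).continuousAt) ((Injective.of_comp_iff' _ e.bijective).1 inj)
    (g / 4) (by positivity)
  filter_upwards [prod_mem_nhds (Iio_mem_nhds (half_pos g0)) this] with z hz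
  obtain ⟨z1, π, z2⟩ := hz
  have z1 : z.1 < g / 2 := z1
  have r : ∀ i, |(c z.2 (π i)).re - (c s i).re| < g / 4 := fun i =>
    (Complex.abs_re_le_norm (_ - _)).trans_lt (z2 i)
  have m : ∀ i, |(c z.2 (π i)).im - (c s i).im| < g / 4 := fun i =>
    (Complex.abs_im_le_norm (_ - _)).trans_lt (z2 i)
  refine ⟨e.trans π, fun i j => ⟨fun a => ?_, fun a => ?_⟩⟩
  · have := (g1 i j).1 a
    simp only [comp_apply, Equiv.trans_apply] at this ⊢
    linarith [abs_lt.1 (r (e i)), abs_lt.1 (r (e j))]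
  · have := (g1 i j).2 a
    simp only [comp_apply, Equiv.trans_apply] at this ⊢
    linarith [abs_lt.1 (m (e i)), abs_lt.1 (m (e j))]

lemma cont {c : ℝ → ι → ℂ} (hc : ∀ j, Continuous fun s => (chi (c s)).coeff j) :
    Continuous fun z : ℝ × ℂ => (chi (c z.1)).eval z.2 := by
  simp only [Polynomial.eval_eq_sum_range, natDegree_chi]
  exact continuous_finsetSum _ fun j _ => ((hc j).comp continuous_fst).mul (continuous_snd.pow _)

lemma tiny {c : ℝ → ι → ℂ} (hc : ∀ j, Continuous fun s => (chi (c s)).coeff j) (A : ℝ) {ε : ℝ}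
    (hε : 0 < ε) : ∃ δ > 0, ∀ s ∈ Icc (0 : ℝ) 1, ∀ i s' w, |s' - s| < δ → ‖w - c s i‖ < δ →
      A * Complex.normSq ((chi (c s')).eval w) < ε := by
  obtain ⟨N, hN⟩ := bndS ℝ ι c _ (isCompact_Icc (a := 0) (b := 1)) hc
  have hK : IsCompact ((Icc (0 : ℝ) 1 ×ˢ Metric.closedBall (0 : ℂ) N) ∩
      {z | (chi (c z.1)).eval z.2 = 0}) := (isCompact_Icc.prod (isCompact_closedBall _ _)).inter_right
    (isClosed_eq (cont hc) continuous_const)
  have cf : Continuous fun z : (ℝ × ℂ) × ℝ × ℂ =>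
      A * Complex.normSq ((chi (c (z.1 + z.2).1)).eval (z.1 + z.2).2) := continuous_const.mul
    (Complex.continuous_normSq.comp ((cont hc).comp (continuous_fst.add continuous_snd)))
  obtain ⟨δ, d0, d1⟩ := Metric.eventually_nhds_iff.1
    (hK.eventually_forall_of_forall_eventually (x₀ := (0 : ℝ × ℂ)) (P := fun u z =>
      A * Complex.normSq ((chi (c (u + z).1)).eval (u + z).2) < ε) fun z hz =>
        cf.continuousAt.eventually_lt continuousAt_const (by
          have : (chi (c z.1)).eval z.2 = 0 := hz.2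
          simpa [this] using hε))
  refine ⟨δ, d0, fun s hs i s' w h1 h2 => ?_⟩
  have := @d1 (s' - s, w - c s i) (by simpa [Prod.dist_eq] using ⟨h1, h2⟩) (s, c s i)
    ⟨⟨hs, by simpa using by linarith [hN s hs i]⟩, eval_chi_eq_zero.2 ⟨i, rfl⟩⟩
  simpa using this

lemma exists_band {τ : ℕ → ℝ} {s : ℝ} {n : ℕ} (h0 : τ 0 ≤ s) (h1 : s < τ n) :
    ∃ a < n, τ a ≤ s ∧ s < τ (a + 1) := by
  induction n with
  | zero => exact absurd h1 h0.not_gt
  | succ n ih =>
    rcases lt_or_ge s (τ n) with g | g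
    · exact (ih g).imp fun _ a => ⟨a.1.trans n.lt_succ_self, a.2⟩
    · exact ⟨n, n.lt_succ_self, g, h1⟩

end YCertC

open YCertC in
theorem certC : CertC := by
  rintro ι _ c T D r₀ hr hc hT ⟨τ, t0, t1, hτ⟩
  have mono : ∀ a b, a ≤ b → b ≤ T.length → τ a ≤ τ b := fun a b h h' => by
    induction h with
    | refl => exact le_rfl
    | step h ih => exact (ih (Nat.le_of_succ_le h')).trans (hτ _ h').1.le
  have hg : ∀ᶠ g in 𝓝 (0 : ℝ), ∀ a ∈ Iio T.length, ∀ s ∈ Icc (τ a) (τ (a + 1)),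
      Mg g (T.getD a []) (c s) := (eventually_all_finite (finite_Iio _)).2 fun a ha =>
    isCompact_Icc.eventually_forall_of_forall_eventually fun s hs =>
      near hc (hT a ha).1 ((hτ a ha).2 s hs)
  obtain ⟨g, g1, g0⟩ := ((hg.filter_mono nhdsWithin_le_nhds).and
    (self_mem_nhdsWithin (s := Ioi (0 : ℝ)))).exists
  have g0 : 0 < g := g0
  obtain ⟨r, r0, r1⟩ := exists_rat_btwn (lt_min hr (div_pos g0 four_pos))
  obtain ⟨r1, r2⟩ := lt_min_iff.1 r1
  obtain ⟨δ, d0, d1⟩ := tiny hc ((((D : ℝ) + 1) * D ^ D) ^ 2)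
    (pow_pos r0 (2 * Fintype.card ι))
  have lim := tendsto_one_div_atTop_nhds_zero_nat (𝕜 := ℝ)
  obtain ⟨Q, ⟨q1, q2⟩, q0⟩ := (((lim.eventually_lt_const d0).and
    ((eventually_all_finite (finite_Iio T.length)).2 fun a ha =>
      lim.eventually_lt_const (sub_pos.2 (hτ a ha).1))).and (eventually_gt_atTop 0)).exists
  have q0' : (0 : ℝ) < Q := Nat.cast_pos.2 q0
  have mem : ∀ q < Q, 0 ≤ (q : ℝ) / Q ∧ (q : ℝ) / Q < 1 := fun q hq =>
    ⟨by positivity, (div_lt_one q0').2 (Nat.cast_lt.2 hq)⟩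
  choose! ty y1 y2 y3 using fun q hq =>
    exists_band (τ := τ) (n := T.length) (t0.trans_le (mem q hq).1) ((mem q hq).2.trans_eq t1.symm)
  have key : ∀ q, ∃ x y : ℕ → ℚ, q < Q → ∀ i < Fintype.card ι,
      (∀ j < Fintype.card ι,
        (((T.getD (ty q) []).getD i (0, 0)).1 < ((T.getD (ty q) []).getD j (0, 0)).1 →
          (x i : ℝ) + 2 * r ≤ x j) ∧
        (((T.getD (ty q) []).getD i (0, 0)).2 < ((T.getD (ty q) []).getD j (0, 0)).2 →
          (y i : ℝ) + 2 * r ≤ y j)) ∧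
      ∃ k, ‖((x i : ℝ) + (y i : ℝ) * Complex.I) - c (q / Q) k‖ < δ := fun q => by
    by_cases hq : q < Q
    swap
    · exact ⟨0, 0, fun a => absurd a hq⟩
    obtain ⟨e, he⟩ := g1 _ (y1 q hq) _ ⟨y2 q hq, (y3 q hq).le⟩
    have el : Fintype.card ι = (T.getD (ty q) []).length := by
      rw [← Fintype.card_congr e, Fintype.card_fin]
    have p0 : 0 < min (r : ℝ) (δ / 2) := lt_min r0 (half_pos d0)
    have ap : ∀ f : ℂ → ℝ, ∃ x : ℕ → ℚ, ∀ i (h : i < (T.getD (ty q) []).length),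
        |f (c (q / Q) (e ⟨i, h⟩)) - x i| < min (r : ℝ) (δ / 2) := fun f => by
      choose x hx using fun i => exists_rat_near (f (c (q / Q) (e i))) p0
      exact ⟨fun i => if h : i < _ then x ⟨i, h⟩ else 0, fun i h => by
        simpa only [dif_pos h] using hx ⟨i, h⟩⟩
    obtain ⟨x, hx⟩ := ap Complex.re
    obtain ⟨y, hy⟩ := ap Complex.im
    simp only [lt_min_iff] at hx hy
    rw [el]
    refine ⟨x, y, fun _ i hi => ⟨fun j hj => ⟨fun a => ?_, fun a => ?_⟩, e ⟨i, hi⟩, ?_⟩⟩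
    · have := (he ⟨i, hi⟩ ⟨j, hj⟩).1 (by rw [pts_re, pts_re]; exact_mod_cast a)
      linarith [abs_lt.1 (hx i hi).1, abs_lt.1 (hx j hj).1]
    · have := (he ⟨i, hi⟩ ⟨j, hj⟩).2 (by rw [pts_im, pts_im]; exact_mod_cast a)
      linarith [abs_lt.1 (hy i hi).1, abs_lt.1 (hy j hj).1]
    · refine (Complex.norm_le_abs_re_add_abs_im _).trans_lt ?_
      have h1 := (hx i hi).2
      have h2 := (hy i hi).2
      rw [abs_sub_comm] at h1 h2
      simpa using add_lt_add h1 h2
  choose x y hxy using key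
  have lp : 0 < T.length := (Nat.zero_le _).trans_lt (y1 0 q0)
  refine ⟨Q, ty, x, y, r, r1.le, q0, r0, ?_, ?_, fun q hq => ?_, fun q hq i hi => ?_⟩
  · by_contra h
    have h1 := mono 1 (ty 0) (by omega) (y1 0 q0).le
    have h2 := y2 0 q0
    have h3 := (hτ 0 lp).1
    simp only [Nat.cast_zero, zero_div, zero_add] at h2 h3
    linarith
  · by_contra h
    have hq : Q - 1 < Q := by omega
    have h0 := y1 _ hq
    have h1 := mono (ty (Q - 1) + 1) (T.length - 1) (by omega) (by omega)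
    have h2 := y3 _ hq
    have h3 := q2 (T.length - 1) (show T.length - 1 < T.length by omega)
    rw [Nat.sub_add_cancel lp, t1] at h3
    rw [Nat.cast_pred q0, sub_div, div_self q0'.ne'] at h2
    linarith
  · have hq0 : q < Q := by omega
    have hq1 : q + 1 < Q := by omega
    have a1 := y1 _ hq0
    have a2 := y2 _ hq0
    have a3 := y3 _ hq0
    have b1 := y1 _ hq1
    have b2 := y2 _ hq1
    have b3 := y3 _ hq1
    rw [Nat.cast_succ, add_div] at b2 b3
    have p : (0 : ℝ) < 1 / Q := by positivity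
    have h1 : ty q ≤ ty (q + 1) := le_of_not_gt fun h => by
      linarith [mono (ty (q + 1) + 1) (ty q) h a1.le]
    have h2 : ty (q + 1) ≤ ty q + 1 := le_of_not_gt fun h => by
      linarith [mono (ty q + 1 + 1) (ty (q + 1)) h b1.le, q2 (ty q + 1) (h.trans b1)]
    omega
  · obtain ⟨h1, k, h2⟩ := hxy q hq i hi
    refine ⟨fun j hj => by simpa using h1 j hj, fun j hj => d1 _ ⟨(mem q hq).1, (mem q hq).2.le⟩
      k _ _ ?_ h2⟩
    have h3 : (j : ℝ) / D ≤ 1 :=
      div_le_one_of_le₀ (Nat.cast_le.2 (Nat.le_of_lt_succ hj)) (Nat.cast_nonneg _)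
    rw [add_div, add_sub_cancel_left, abs_of_nonneg (by positivity)]
    exact (div_le_div_of_nonneg_right h3 q0'.le).trans_lt q1

end Pool.Agent.Lib.MP_837412_lc.K.Y
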