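import Pool.Agent.Lib.MP_837412_lc.YSt

/-!
Discs that pass the test contain the roots, so the path refines the order types.
-/

namespace Pool.Agent.Lib.MP_837412_lc.K.Y

open Set Function Polynomial

namespace YCertS

lemma node {D Q : ℕ} (hD : 0 < D) (hQ : 0 < Q) (q : ℝ) {u : ℝ} (hu : u ∈ Icc (0 : ℝ) 1) {i j : ℕ}
    (hj : j ≤ D) (hij : j ≠ i) :
    |((q + i / D) / Q - (q + j / D) / Q)⁻¹ * ((q + u) / Q - (q + j / D) / Q)| ≤ D := by
  have hD' : (0 : ℝ) < D := by exact_mod_cast hD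
  have hQ' : (0 : ℝ) < Q := by exact_mod_cast hQ
  have h1 : (1 : ℝ) ≤ |(i : ℝ) - j| := by
    have : (1 : ℤ) ≤ |(i : ℤ) - j| := Int.one_le_abs (by omega)
    exact_mod_cast this
  have h0 : (i : ℝ) - j ≠ 0 := by
    intro h
    rw [h, abs_zero] at h1
    linarith
  have e : ((q + i / D) / Q - (q + j / D) / Q)⁻¹ * ((q + u) / Q - (q + j / D) / Q) =
      (u * D - j) / ((i : ℝ) - j) := by
    rw [show (q + i / D) / Q - (q + j / D) / Q = ((i : ℝ) - j) / (D * Q) by field_simp; ring,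
      show (q + u) / Q - (q + j / D) / Q = (u * D - j) / (D * Q) by field_simp; ring]
    field_simp
  rw [e, abs_div]
  have hj' : (j : ℝ) ≤ D := by exact_mod_cast hj
  have hj0 : (0 : ℝ) ≤ j := Nat.cast_nonneg j
  have h2 : |u * D - j| ≤ D := by
    rw [abs_le]
    constructor <;> nlinarith [hu.1, hu.2]
  exact (div_le_self (abs_nonneg _) h1).trans h2

lemma lag {D Q : ℕ} (hD : 0 < D) (hQ : 0 < Q) (p : ℂ[X]) (hp : p.natDegree ≤ D) (q : ℝ) {u R : ℝ}
    (hu : u ∈ Icc (0 : ℝ) 1) (hR : 0 < R)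
    (h : ∀ j < D + 1, (((D : ℝ) + 1) * D ^ D) ^ 2 *
      Complex.normSq (p.eval (((q + j / D) / Q : ℝ) : ℂ)) < R ^ 2) :
    ‖p.eval (((q + u) / Q : ℝ) : ℂ)‖ < R := by
  have hD' : (0 : ℝ) < D := by exact_mod_cast hD
  have hQ' : (0 : ℝ) < Q := by exact_mod_cast hQ
  set v : ℕ → ℂ := fun j => (((q + j / D) / Q : ℝ) : ℂ) with hv
  have hinj : Set.InjOn v (Finset.range (D + 1)) := by
    intro i _ j _ hij
    have h1 : (q + i / D) / Q = (q + j / D) / Q := Complex.ofReal_injective hij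
    have h2 : (i : ℝ) = j := by
      field_simp at h1
      linarith
    exact_mod_cast h2
  have hdeg : p.degree < (Finset.range (D + 1)).card := by
    rw [Finset.card_range]
    exact lt_of_le_of_lt degree_le_natDegree (by exact_mod_cast Nat.lt_succ_of_le hp)
  have hb : ∀ i ∈ Finset.range (D + 1),
      ‖(Lagrange.basis (Finset.range (D + 1)) v i).eval (((q + u) / Q : ℝ) : ℂ)‖ ≤ (D : ℝ) ^ D := by
    intro i hi
    rw [Lagrange.basis, eval_prod, norm_prod]
    have hc : ((Finset.range (D + 1)).erase i).card = D := by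
      rw [Finset.card_erase_of_mem hi, Finset.card_range]
      rfl
    refine (Finset.prod_le_prod (fun j _ => norm_nonneg _) (g := fun _ => (D : ℝ))
      fun j hj => ?_).trans (by rw [Finset.prod_const, hc])
    obtain ⟨hj1, hj2⟩ := Finset.mem_erase.1 hj
    have := node hD hQ q hu (Nat.lt_succ_iff.1 (Finset.mem_range.1 hj2)) hj1
    rw [← Real.norm_eq_abs, ← Complex.norm_real] at this
    rw [Lagrange.basisDivisor, eval_mul, eval_C, eval_sub, eval_X, eval_C]
    simpa only [hv, Complex.ofReal_mul, Complex.ofReal_inv, Complex.ofReal_sub] using this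
  have hs : ∀ i ∈ Finset.range (D + 1), ‖p.eval (v i)‖ * (D : ℝ) ^ D < R / (D + 1) := by
    intro i hi
    have h1 := h i (Finset.mem_range.1 hi)
    rw [Complex.normSq_eq_norm_sq, ← mul_pow] at h1
    have h2 := lt_of_pow_lt_pow_left₀ 2 hR.le h1
    rw [lt_div_iff₀ (by positivity)]
    calc ‖p.eval (v i)‖ * (D : ℝ) ^ D * (D + 1) = ((D : ℝ) + 1) * D ^ D * ‖p.eval (v i)‖ := by ring
      _ < R := h2
  have e := Lagrange.eq_interpolate hinj hdeg
  rw [Lagrange.interpolate_apply] at e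
  calc ‖p.eval (((q + u) / Q : ℝ) : ℂ)‖
      = ‖∑ i ∈ Finset.range (D + 1), p.eval (v i) *
          (Lagrange.basis (Finset.range (D + 1)) v i).eval (((q + u) / Q : ℝ) : ℂ)‖ := by
        conv_lhs => rw [e]
        simp only [eval_finsetSum, eval_mul, eval_C]
    _ ≤ ∑ i ∈ Finset.range (D + 1), ‖p.eval (v i)‖ * (D : ℝ) ^ D := by
        refine (norm_sum_le _ _).trans (Finset.sum_le_sum fun i hi => ?_)
        rw [norm_mul]
        exact mul_le_mul_of_nonneg_left (hb i hi) (norm_nonneg _)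
    _ < ∑ _i ∈ Finset.range (D + 1), R / (D + 1) :=
        Finset.sum_lt_sum_of_nonempty ⟨0, Finset.mem_range.2 (Nat.succ_pos D)⟩ hs
    _ = R := by
        rw [Finset.sum_const, Finset.card_range, nsmul_eq_mul]
        push_cast
        field_simp

lemma root {ι : Type} [Fintype ι] (c : ι → ℂ) (w : ℂ) {r : ℝ} (hr : 0 < r)
    (h : ‖(chi c).eval w‖ < r ^ Fintype.card ι) : ∃ i, ‖c i - w‖ < r := by
  by_contra hn
  push Not at hn
  rw [chi, eval_prod, norm_prod] at h
  refine absurd h (not_lt.2 ?_)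
  calc r ^ Fintype.card ι = ∏ _i : ι, r := by rw [Finset.prod_const, Finset.card_univ]
    _ ≤ _ := Finset.prod_le_prod (fun _ _ => hr.le) fun i _ => by
      rw [eval_sub, eval_X, eval_C, norm_sub_rev]
      exact hn i

lemma loc {ι : Type} [Fintype ι] (c : ι → ℂ) (t : Tl) (z : ℕ → ℂ) {r : ℝ} (hr : 0 < r)
    (hl : t.length = Fintype.card ι) (hinj : Injective (pts t))
    (hsep : ∀ i < Fintype.card ι, ∀ j < Fintype.card ι,
      ((t.getD i (0, 0)).1 < (t.getD j (0, 0)).1 → (z i).re + 2 * r ≤ (z j).re) ∧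
      ((t.getD i (0, 0)).2 < (t.getD j (0, 0)).2 → (z i).im + 2 * r ≤ (z j).im))
    (hev : ∀ i < Fintype.card ι, ‖(chi c).eval (z i)‖ < r ^ Fintype.card ι) :
    ∃ e : Fin t.length ≃ ι, Dn (pts t) (c ∘ e) ∧ ∀ i, ‖c (e i) - z i‖ < r := by
  have hlt : ∀ i : Fin t.length, (i : ℕ) < Fintype.card ι := fun i => hl ▸ i.2
  choose f hf using fun i : Fin t.length => root c (z i) hr (hev i (hlt i))
  have hre : ∀ i, |(c (f i)).re - (z i).re| < r := fun i =>
    lt_of_le_of_lt (by rw [← Complex.sub_re]; exact Complex.abs_re_le_norm _) (hf i)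
  have him : ∀ i, |(c (f i)).im - (z i).im| < r := fun i =>
    lt_of_le_of_lt (by rw [← Complex.sub_im]; exact Complex.abs_im_le_norm _) (hf i)
  have hdn : Dn (pts t) (c ∘ f) := by
    intro i j
    obtain ⟨h1, h2⟩ := hsep i (hlt i) j (hlt j)
    rw [List.getD_eq_getElem _ _ i.2, List.getD_eq_getElem _ _ j.2] at h1 h2
    constructor
    · intro h
      have h3 := h1 (by simpa [pts] using h)
      have h4 := abs_lt.1 (hre i)
      have h5 := abs_lt.1 (hre j)
      show (c (f i)).re < (c (f j)).re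
      linarith [h4.2, h5.1]
    · intro h
      have h3 := h2 (by simpa [pts] using h)
      have h4 := abs_lt.1 (him i)
      have h5 := abs_lt.1 (him j)
      show (c (f i)).im < (c (f j)).im
      linarith [h4.2, h5.1]
  have hfi : Injective f := by
    intro i j hij
    have e : (c ∘ f) i = (c ∘ f) j := congrArg c hij
    refine hinj (Complex.ext (le_antisymm (not_lt.1 fun h => ?_) (not_lt.1 fun h => ?_))
      (le_antisymm (not_lt.1 fun h => ?_) (not_lt.1 fun h => ?_)))
    · exact absurd ((hdn j i).1 h) (by rw [e]; exact lt_irrefl _)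
    · exact absurd ((hdn i j).1 h) (by rw [e]; exact lt_irrefl _)
    · exact absurd ((hdn j i).2 h) (by rw [e]; exact lt_irrefl _)
    · exact absurd ((hdn i j).2 h) (by rw [e]; exact lt_irrefl _)
  have hb : Bijective f :=
    (Fintype.bijective_iff_injective_and_card f).2 ⟨hfi, by rw [Fintype.card_fin, hl]⟩
  exact ⟨Equiv.ofBijective f hb, hdn, hf⟩

lemma slot {A B : ℕ} (h : A + 1 ≤ B) {x : ℝ} (h1 : (A : ℝ) ≤ x) (h2 : x ≤ B) :
    ∃ q : ℕ, A ≤ q ∧ q < B ∧ (q : ℝ) ≤ x ∧ x ≤ q + 1 := by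
  induction B, h using Nat.le_induction with
  | base => exact ⟨A, le_rfl, Nat.lt_succ_self A, h1, by exact_mod_cast h2⟩
  | succ B hB ih =>
    rcases le_total x B with h3 | h3
    · obtain ⟨q, q1, q2, q3⟩ := ih h3
      exact ⟨q, q1, Nat.lt_succ_of_lt q2, q3⟩
    · exact ⟨B, by omega, Nat.lt_succ_self B, h3, by exact_mod_cast h2⟩

lemma mono {Q : ℕ} {ty : ℕ → ℕ} (h : ∀ q < Q - 1, ty (q + 1) = ty q ∨ ty (q + 1) = ty q + 1)
    {a b : ℕ} (hab : a ≤ b) (hb : b < Q) : ty a ≤ ty b := by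
  induction b, hab using Nat.le_induction with
  | base => exact le_rfl
  | succ b _ ih =>
    have h1 := ih (by omega)
    have h2 := h b (by omega)
    omega

end YCertS

open YCertS in
theorem certS : CertS := by
  intro ι _ c T t D Q ty z r hD hP hC hL ht ⟨hQ, hr, h0, h1, hst, hz⟩
  have hQ' : (0 : ℝ) < Q := by exact_mod_cast hQ
  have hty : ∀ q < Q, ty q < T.length := fun q hq => by
    have := mono hst (a := q) (b := Q - 1) (by omega) (by omega)
    omega
  have key : ∀ q < Q, ∀ s : ℝ, (q : ℝ) ≤ s * Q → s * Q ≤ q + 1 →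
      ∃ e : Fin (T.getD (ty q) []).length ≃ ι, Dn (pts (T.getD (ty q) [])) (c s ∘ e) ∧
        ∀ i, ‖c s (e i) - z q i‖ < r := by
    intro q hq s s1 s2
    refine loc (c s) _ (z q) hr (hL _ (hty q hq)) (hC _ (hty q hq)).1
      (fun i hi => (hz q hq i hi).1) fun i hi => ?_
    obtain ⟨p, hp1, hp2⟩ := hP (z q i)
    have hp3 : ∀ x : ℝ, (chi (c x)).eval (z q i) = p.eval (x : ℂ) := hp2
    have e : s = (q + (s * Q - q)) / Q := by
      field_simp
      ring
    rw [hp3, e]
    refine lag hD hQ p hp1 q ⟨by linarith, by linarith⟩ (pow_pos hr _) fun j hj => ?_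
    rw [← hp3, ← pow_mul, Nat.mul_comm]
    exact (hz q hq i hi).2 j hj
  have hex : ∀ a, ∃ q, Q ≤ q ∨ a ≤ ty q := fun a => ⟨Q, Or.inl le_rfl⟩
  have hN : ∀ a < T.length, Nat.find (hex a) < Q ∧ ty (Nat.find (hex a)) = a := by
    intro a ha
    have n1 : Nat.find (hex a) ≤ Q - 1 := Nat.find_min' _ (Or.inr (by omega))
    have n2 := Nat.find_spec (hex a)
    refine ⟨by omega, ?_⟩
    rcases hf : Nat.find (hex a) with _ | n
    · rw [hf] at n2
      omega
    · have n3 := Nat.find_min (hex a) (m := n) (by omega)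
      have n4 := hst n (by omega)
      rw [hf] at n2
      omega
  refine ⟨⟨fun a => (Nat.find (hex a) : ℝ) / Q, ?_, ?_, fun a ha => ?_⟩, ?_⟩
  · have : Nat.find (hex 0) = 0 := (Nat.find_eq_zero _).2 (Or.inr (Nat.zero_le _))
    simp only [this, Nat.cast_zero, zero_div]
  · have : Nat.find (hex T.length) = Q := (Nat.find_eq_iff _).2 ⟨Or.inl le_rfl, fun q hq => by
      have := hty q hq
      omega⟩
    simp only [this]
    exact div_self hQ'.ne'
  · obtain ⟨n1, n2⟩ := hN a ha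
    have n3 : Nat.find (hex a) < Nat.find (hex (a + 1)) := (Nat.lt_find_iff _ _).2 fun q hq => by
      have := mono hst hq n1
      omega
    refine ⟨div_lt_div_of_pos_right (by exact_mod_cast n3) hQ', fun s hs => ?_⟩
    obtain ⟨q, q1, q2, q3, q4⟩ := slot n3 ((div_le_iff₀ hQ').1 hs.1) ((le_div_iff₀ hQ').1 hs.2)
    have q5 := Nat.find_min (hex (a + 1)) q2
    have q6 := mono hst q1 (by omega)
    have q7 : ty q = a := by omega
    obtain ⟨e, he, -⟩ := key q (by omega) s q3 q4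
    rw [← q7]
    exact ⟨e, he⟩
  · have e1 : ((Q - 1 : ℕ) : ℝ) = Q - 1 := by
      rw [Nat.cast_sub hQ]
      simp
    have := key (Q - 1) (by omega) 1 (by rw [e1]; linarith) (by rw [e1]; linarith)
    rw [← ht, show T.length - 1 = ty (Q - 1) by omega]
    exact this

end Pool.Agent.Lib.MP_837412_lc.K.Y
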