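import Pool.Agent.Lib.MP_837412_lc.YSt
import Pool.Agent.Lib.MP_837412_lc.Once
import Pool.Agent.Lib.MP_837412_lc.RSt
import Pool.Agent.Lib.MP_837412_lc.UP
import Pool.Agent.Lib.MP_837412_lc.UM

/-!
The polynomial of the critical values of the pencil of a table of coefficients is computed.
-/

namespace Pool.Agent.Lib.MP_837412_lc.K.Y

open MvPolynomial

namespace YChi

variable {σ τ : Type} [Fintype σ] [Fintype τ]

lemma up_pl (m : ℕ) (co : ℕ → ℝ) : up (pl σ m co) = ∑ n ∈ Finset.range (m ^ Fintype.card σ),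
    if ∑ i ∈ Finset.range (Fintype.card σ), dg m n i < m then
      monomial (∑ i ∈ Finset.range (Fintype.card σ), Finsupp.single i (dg m n i)) (co n)
    else 0 := by
  rw [pl, up_sum]
  refine Finset.sum_congr rfl fun n _ => ?_
  split_ifs
  · rw [up_monomial, Finsupp.mapDomain, Finsupp.sum_fintype _ _ (by simp),
      ← sum_ix (σ := σ) fun i => Finsupp.single i (dg m n i)]
    rfl
  · exact up_zero

lemma deg_pl {m : ℕ} (hm : 0 < m) (co : ℕ → ℝ) : (pl σ m co).totalDegree < m := by
  rw [pl, ← Nat.le_sub_one_iff_lt hm]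
  refine totalDegree_finsetSum_le fun n _ => ?_
  split_ifs with h
  · refine (totalDegree_monomial_le _ _).trans (Nat.le_sub_one_of_lt ?_)
    rw [Finsupp.sum_fintype _ _ (by simp)]
    exact (sum_ix (σ := σ) (dg m n)).trans_lt h
  · simp

lemma deg_cpl {m : ℕ} (hm : 0 < m) (co : ℕ → ℝ) : (cx' (pl σ m co)).totalDegree < m :=
  (Finset.sup_mono (support_map_subset _ _)).trans_lt (deg_pl hm co)

section

variable (e : σ ≃ τ) (he : ∀ i, ix (e i) = ix i)

lemma toF_map {m : ℕ} (a : Std σ m) : (toF a).mapDomain e = toF (a ∘ e.symm) := by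
  ext j
  rw [Finsupp.mapDomain_equiv_apply]
  rfl

include he

lemma pk_map {m : ℕ} {β : σ →₀ ℕ} (h : ∃ i, m ≤ β i) (h' : ∃ j, m ≤ β.mapDomain e j) :
    pk h' = e (pk h) := by
  refine ix_injective (le_antisymm (pk_le h' ?_) ?_)
  · rw [Finsupp.mapDomain_equiv_apply, e.symm_apply_apply]
    exact pk_spec h
  · have := pk_spec h'
    rw [Finsupp.mapDomain_equiv_apply] at this
    rw [he, ← e.apply_symm_apply (pk h'), he]
    exact pk_le h this

lemma nf_map (m : ℕ) {q : σ → MvPolynomial σ ℂ} {q' : τ → MvPolynomial τ ℂ}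
    (hq : ∀ i, q' (e i) = rename e (q i)) (n : ℕ) (β : σ →₀ ℕ) (a : Std σ m) :
    NF m q' n (β.mapDomain e) (a ∘ e.symm) = NF m q n β a := by
  classical
  have b : ∀ β : σ →₀ ℕ, β.mapDomain e = toF (a ∘ e.symm) ↔ β = toF a := fun β => by
    rw [← toF_map, (Finsupp.mapDomain_injective e.injective).eq_iff]
  induction n generalizing β with
  | zero => simp only [NF, b]
  | succ n ih =>
    have c : (∃ j, m ≤ β.mapDomain e j) ↔ ∃ i, m ≤ β i := by
      simp only [Finsupp.mapDomain_equiv_apply]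
      exact e.symm.exists_congr fun _ => Iff.rfl
    by_cases h : ∃ i, m ≤ β i
    · simp only [NF, dif_pos h, dif_pos (c.2 h)]
      rw [pk_map e he h, hq, support_rename_of_injective e.injective,
        Finset.sum_image (Finsupp.mapDomain_injective e.injective).injOn]
      refine Finset.sum_congr rfl fun γ _ => ?_
      rw [coeff_rename_mapDomain _ e.injective, ← ih]
      congr 2
      ext j
      simp [Finsupp.mapDomain_equiv_apply, Finsupp.single_apply, e.eq_symm_apply]
    · simp only [NF, dif_neg h, dif_neg (mt c.1 h), b]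

lemma mm_map (m : ℕ) {q : σ → MvPolynomial σ ℂ} {q' : τ → MvPolynomial τ ℂ}
    (hq : ∀ i, q' (e i) = rename e (q i)) (h : MvPolynomial σ ℂ) :
    MM m q' (rename e h) = Matrix.reindex (e.arrowCongr (.refl _)) (e.arrowCongr (.refl _))
      (MM m q h) := by
  classical
  ext a b
  obtain ⟨a, rfl⟩ := (e.arrowCongr (.refl (Fin m))).surjective a
  obtain ⟨b, rfl⟩ := (e.arrowCongr (.refl (Fin m))).surjective b
  simp only [Matrix.reindex_apply, Matrix.submatrix_apply, Equiv.symm_apply_apply, MM,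
    Matrix.of_apply]
  rw [support_rename_of_injective e.injective,
    Finset.sum_image (Finsupp.mapDomain_injective e.injective).injOn]
  refine Finset.sum_congr rfl fun γ _ => ?_
  rw [coeff_rename_mapDomain _ e.injective, ← nf_map e he m hq, Finsupp.mapDomain_add, toF_map, Kf,
    Kf, Fintype.card_congr e]
  rfl

lemma bb_map (i : σ) : bb (e i) = bb i := congrArg (2 ^ ·) (he i)

lemma chi_map [DecidableEq σ] [DecidableEq τ] (m : ℕ) (p : MvPolynomial σ ℂ) (l : ℂ) :
    chi (Lam m (rename e p) l) = chi (Lam m p l) := by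
  have a : Fl m (rename e p) l = rename e (Fl m p l) := by
    simp only [Fl, F0, map_sub, map_add, map_mul, map_sum, map_pow, rename_C, rename_X,
      ← e.sum_comp, bb_map e he]
  have b : ∀ i, qq m (rename e p) l (e i) = rename e (qq m p l i) := fun i => by
    simp only [qq, map_add, map_mul, rename_C, bb_map e he, pderiv_rename e.injective]
  rw [Lam, Lam, chi_lam, chi_lam, a, mm_map e he m b, Matrix.charpoly_reindex]

lemma pl_map (m : ℕ) (co : ℕ → ℝ) : rename e (pl σ m co) = pl τ m co := by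
  refine up_injective ?_
  rw [up_rename, funext he, up_pl, ← Fintype.card_congr e, ← up_pl]
  rfl

end

lemma chi_pl [DecidableEq σ] [DecidableEq τ] (h : Fintype.card σ = Fintype.card τ) (m : ℕ)
    (co : ℕ → ℝ) (l : ℂ) :
    chi (Lam m (cx' (pl τ m co)) l) = chi (Lam m (cx' (pl σ m co)) l) := by
  let e : σ ≃ τ := (Fintype.equivFin σ).trans ((finCongr h).trans (Fintype.equivFin τ).symm)
  have he : ∀ i, ix (e i) = ix i := fun i => by simp [e, ix]
  rw [← pl_map e he, ← chi_map e he, cx', map_rename]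

/-- The test. -/
def Ts (x : Un × ℕ × ℕ × List ℝ × ℂ × ℂ) : Prop := 3 ≤ x.2.2.1 ∧ x.2.1 ≤ x.1.val ∧
  ((x.2.1 + 1) * (x.2.2.1 + 1) + 1) ^ (2 * min x.2.1 x.1.val + 2) ≤ x.1.val

lemma le_sz (k m : ℕ) : m ^ k ≤ ((k + 1) * (m + 1) + 1) ^ (2 * k + 2) :=
  (Nat.pow_le_pow_left (by nlinarith) _).trans (Nat.pow_le_pow_right (by omega) (by omega))

end YChi

open YChi in
theorem chiY (h : LamU) : ChiY := by
  classical
  refine ⟨fun x => if Ts x then (chi (Lam x.2.2.1 (cx' (pl (Fin x.2.1) x.2.2.1
    fun n => x.2.2.2.1.getD n 0)) x.2.2.2.2.1)).eval x.2.2.2.2.2 else 0, ?_, ?_⟩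
  · refine RPT.branch (p := Ts) (i := fun _ => Classical.propDecidable _)
      (RPT.decide_and (i := fun _ => inferInstance) (j := fun _ => inferInstance) (by fun_prop)
        (RPT.decide_and (i := fun _ => inferInstance) (j := fun _ => inferInstance) (by fun_prop)
          (by fun_prop))) ?_ (RPT.zero.of_eq fun a => (if_neg a.2).symm)
    have k : RPB fun a : {a // Ts a} => a.1.2.1 :=
      RPB.mono (g := fun a => a.1.1.val) (by fun_prop) fun a => a.2.2.1
    have s : RPB fun a : {a // Ts a} =>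
        ((a.1.2.1 + 1) * (a.1.2.2.1 + 1) + 1) ^ (2 * a.1.2.1 + 2) :=
      RPB.mono (g := fun a => a.1.1.val) (by fun_prop) fun a => by
        have := a.2.2.2
        rwa [min_eq_left a.2.2.1] at this
    refine RPT.of_eq (RPT.eval (h {a // Ts a} (fun a => Fin a.1.2.1) (fun a => a.1.2.2.1)
      (fun a => cx' (pl (Fin a.1.2.1) a.1.2.2.1 fun n => a.1.2.2.2.1.getD n 0))
      (fun a => a.1.2.2.2.2.1) ⟨?_, by fun_prop, ?_, fun a => a.2.1⟩
      (fun a => deg_cpl (by have := a.2.1; omega) _) ?_ (by fun_prop))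
      (c := fun a => a.1.2.2.2.2.2) (by fun_prop)) fun a => (if_pos a.2).symm
    · simp only [Fintype.card_fin]; fun_prop
    · simpa only [sz, Kf, Fintype.card_fin] using s
    · simp only [up_map, up_pl, Fintype.card_fin, dg]
      refine RPT.mvMapReal (RPT.sum_range (RPT.npow (by fun_prop) (by fun_prop) k)
        (s.mono fun _ => le_sz _ _) (RPT.ite (RPT.decide_lt (RPT.sum_range (by fun_prop)
          (k.comp (by fun_prop)) (by fun_prop)) (by fun_prop)) (RPT.mvMonomial (RPT.sum_range
            (by fun_prop) (k.comp (by fun_prop)) (by fun_prop)) (by fun_prop)) RPT.zero))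
  · intro σ _ _ m N co l w hm hN
    have h1 : 1 < Kf σ m + 1 := Nat.succ_lt_succ (Nat.mul_pos (by omega) (by omega))
    have h2 : 2 * Fintype.card σ + 2 < sz σ m := Nat.lt_pow_self h1
    have hk : Fintype.card σ ≤ N := by omega
    refine (if_pos ⟨hm, hk, by rw [min_eq_left hk]; exact hN⟩).trans ?_
    exact congrArg _ (chi_pl (Fintype.card_fin _).symm _ _ _)

end Pool.Agent.Lib.MP_837412_lc.K.Y
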