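import Pool.Agent.Lib.MP_837412_lc.YSt

/-!
Estimates for the last member of the pencil, and the grid.
-/

namespace Pool.Agent.Lib.MP_837412_lc.K.Y

open Set Function

namespace YEst

variable {σ : Type} [Fintype σ]

lemma ix_lt (i : σ) : ix i < Fintype.card σ := (Fintype.equivFin σ i).2

lemma exists_ix {n : ℕ} (h : n < Fintype.card σ) : ∃ i : σ, ix i = n :=
  ⟨(Fintype.equivFin σ).symm ⟨n, h⟩, by simp [ix]⟩

lemma sum_ix (f : ℕ → ℕ) : ∑ i : σ, f (ix i) = ∑ n ∈ Finset.range (Fintype.card σ), f n := by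
  rw [Finset.sum_range]
  exact (Fintype.equivFin σ).sum_comp fun j => f j

/-- One term of the polynomial. -/
noncomputable def tm (m : ℕ) (co : ℕ → ℝ) (y : σ → ℝ) (n : ℕ) : ℝ :=
  if ∑ i : σ, dg m n (ix i) < m then co n * ∏ i, y i ^ dg m n (ix i) else 0

lemma eval_eq (m : ℕ) (co : ℕ → ℝ) : ∃ c : ℝ, 0 ≤ c ∧ ∀ y : σ → ℝ,
    MvPolynomial.eval y (Fl m (pl σ m co) 1) =
      ∑ i, y i ^ (m + 1) - ∑ i, ((m + 1) * bb i ^ m : ℕ) * y i + c -
        ∑ n ∈ Finset.range (m ^ Fintype.card σ), tm m co y n := by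
  refine ⟨((1 + (m + 1) * ∑ i : σ, bb i ^ (m + 1) : ℕ) : ℝ), Nat.cast_nonneg _, fun y => ?_⟩
  rw [eval_Fl, one_mul, F0, pl, map_add, map_sum, map_sum, MvPolynomial.eval_C,
    ← Finset.sum_sub_distrib]
  congr 1
  · simp only [map_sub, map_pow, map_mul, MvPolynomial.eval_X, MvPolynomial.eval_C]
  · refine Finset.sum_congr rfl fun n _ => ?_
    rw [tm, sum_ix (dg m n)]
    split_ifs
    · rw [MvPolynomial.eval_monomial, Finsupp.prod_pow]
      rfl
    · exact map_zero _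

lemma bb_le (m : ℕ) (i : σ) :
    (((m + 1) * bb i ^ m : ℕ) : ℝ) ≤ (m + 1) * 2 ^ (Fintype.card σ * m) := by
  have : bb i ^ m ≤ 2 ^ (Fintype.card σ * m) := by
    rw [bb, ← pow_mul]
    exact Nat.pow_le_pow_right two_pos (Nat.mul_le_mul_right _ (ix_lt i).le)
  exact_mod_cast Nat.mul_le_mul_left _ this

lemma abs_le_sq (x : ℝ) : |x| ≤ 1 + x ^ 2 := by
  rw [← sq_abs]
  nlinarith [sq_nonneg (|x| - 1)]

omit [Fintype σ] in
lemma prod_le {x : σ → ℝ} {R : ℝ} (hx : ∀ i, |x i| ≤ R) (e : σ → ℕ) (s : Finset σ) :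
    |∏ i ∈ s, x i ^ e i| ≤ R ^ ∑ i ∈ s, e i := by
  rw [Finset.abs_prod, ← Finset.prod_pow_eq_pow_sum]
  exact Finset.prod_le_prod (fun _ _ => abs_nonneg _) fun i _ => by
    rw [abs_pow]
    exact pow_le_pow_left₀ (abs_nonneg _) (hx i) _

lemma pow_diff {a b R δ : ℝ} (ha : |a| ≤ R) (hb : |b| ≤ R) (h : |a - b| ≤ δ) (n : ℕ) :
    |a ^ n - b ^ n| ≤ n * R ^ (n - 1) * δ := by
  have h0 : 0 ≤ δ := (abs_nonneg _).trans h
  have h1 : max |a| |b| ^ (n - 1) ≤ R ^ (n - 1) :=
    pow_le_pow_left₀ ((abs_nonneg _).trans (le_max_left _ _)) (max_le ha hb) _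
  calc |a ^ n - b ^ n| ≤ |a - b| * n * max |a| |b| ^ (n - 1) := abs_pow_sub_pow_le a b n
    _ ≤ δ * n * R ^ (n - 1) := by gcongr
    _ = _ := by ring

omit [Fintype σ] in
lemma prod_diff {x y : σ → ℝ} {R δ : ℝ} (hR : 1 ≤ R) (hδ : 0 ≤ δ) (hx : ∀ i, |x i| ≤ R)
    (hy : ∀ i, |y i| ≤ R) (h : ∀ i, |x i - y i| ≤ δ) (e : σ → ℕ) (s : Finset σ) :
    |∏ i ∈ s, x i ^ e i - ∏ i ∈ s, y i ^ e i| ≤ (∑ i ∈ s, e i : ℕ) * R ^ (∑ i ∈ s, e i) * δ := by
  classical
  induction s using Finset.induction_on with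
  | empty => simp
  | insert j s hj ih =>
    rw [Finset.prod_insert hj, Finset.prod_insert hj, Finset.sum_insert hj]
    have h0 : 0 ≤ R := zero_le_one.trans hR
    have a1 : |x j ^ e j - y j ^ e j| ≤ e j * R ^ e j * δ :=
      (pow_diff (hx j) (hy j) (h j) _).trans (by gcongr; omega)
    have a2 := prod_le hx e s
    have a3 : |y j ^ e j| ≤ R ^ e j := by
      rw [abs_pow]
      exact pow_le_pow_left₀ (abs_nonneg _) (hy j) _
    calc _ = |(x j ^ e j - y j ^ e j) * ∏ i ∈ s, x i ^ e i +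
          y j ^ e j * (∏ i ∈ s, x i ^ e i - ∏ i ∈ s, y i ^ e i)| := by congr 1; ring
      _ ≤ e j * R ^ e j * δ * R ^ (∑ i ∈ s, e i) +
          R ^ e j * ((∑ i ∈ s, e i : ℕ) * R ^ (∑ i ∈ s, e i) * δ) := by
        refine (abs_add_le _ _).trans ?_
        rw [abs_mul, abs_mul]
        gcongr
      _ = _ := by
        rw [pow_add, Nat.cast_add]
        ring

lemma exists_dg {G : ℕ} (len : ℕ) : ∀ f : ℕ → ℕ, (∀ i < len, f i < G) →
    ∃ x < G ^ len, ∀ i < len, dg G x i = f i := by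
  induction len with
  | zero => exact fun f _ => ⟨0, by simp, by simp⟩
  | succ len ih =>
    intro f hf
    obtain ⟨x, hx, h⟩ := ih (fun i => f (i + 1)) fun i hi => hf _ (by omega)
    have h0 := hf 0 (by omega)
    refine ⟨f 0 + G * x, ?_, fun i hi => ?_⟩
    · have := Nat.mul_le_mul_left G (Nat.succ_le_of_lt hx)
      rw [pow_succ', Nat.mul_succ] at *
      omega
    · rcases i with _ | i
      · simp [dg, Nat.mod_eq_of_lt h0]
      · rw [← h i (by omega), dg, dg, pow_succ', ← Nat.div_div_eq_div_mul,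
          Nat.add_mul_div_left _ _ (by omega), Nat.div_eq_of_lt h0, zero_add]

lemma mem_tup {G len : ℕ} {l : List ℕ} : l ∈ tup G len ↔ l.length = len ∧ ∀ i ∈ l, i < G := by
  simp only [tup, List.mem_map, List.mem_range]
  constructor
  · rintro ⟨x, hx, rfl⟩
    refine ⟨by simp, fun i hi => ?_⟩
    obtain ⟨j, hj, rfl⟩ := List.mem_map.1 hi
    refine Nat.mod_lt _ (Nat.pos_of_ne_zero ?_)
    rintro rfl
    rw [zero_pow (by have := List.mem_range.1 hj; omega)] at hx
    omega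
  · rintro ⟨rfl, h⟩
    obtain ⟨x, hx, e⟩ := exists_dg (G := G) l.length (fun i => l.getD i 0) fun i hi => by
      rw [List.getD_eq_getElem _ _ hi]
      exact h _ (List.getElem_mem hi)
    refine ⟨x, hx, List.ext_getElem (by simp) fun i _ hi => ?_⟩
    rw [List.getElem_map, List.getElem_range, e i hi, List.getD_eq_getElem _ _ hi]

lemma dist_gv {R M : ℕ} (hM : 0 < M) (e a b : ℕ) :
    dist (fun i : σ => gv R M a (ix i)) (fun i => gv R M b (ix i)) ≤ e * (1 / M) ↔
      ∀ i < Fintype.card σ, dg (2 * R * M + 1) a i ≤ dg (2 * R * M + 1) b i + e ∧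
        dg (2 * R * M + 1) b i ≤ dg (2 * R * M + 1) a i + e := by
  have h0 : (0 : ℝ) < M := Nat.cast_pos.2 hM
  have key : ∀ i, dist (gv R M a i) (gv R M b i) ≤ e * (1 / M) ↔
      dg (2 * R * M + 1) a i ≤ dg (2 * R * M + 1) b i + e ∧
        dg (2 * R * M + 1) b i ≤ dg (2 * R * M + 1) a i + e := fun i => by
    rw [Real.dist_eq, gv, gv, ← sub_div, abs_div, abs_of_pos h0, mul_one_div,
      div_le_div_iff_of_pos_right h0, abs_le, ← Nat.cast_le (α := ℝ), ← Nat.cast_le (α := ℝ),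
      Nat.cast_add, Nat.cast_add]
    constructor <;> rintro ⟨h1, h2⟩ <;> constructor <;> linarith
  rw [dist_pi_le_iff (by positivity)]
  refine ⟨fun h i hi => ?_, fun h i => (key _).2 (h _ (ix_lt i))⟩
  obtain ⟨j, rfl⟩ := exists_ix hi
  exact (key _).1 (h j)

end YEst

open YEst

theorem estY : EstY := by
  intro σ _ m co hm
  obtain ⟨c, hc, he⟩ := eval_eq (σ := σ) m co
  have m1 : 1 ≤ m := hm.pos
  have hA : (0 : ℝ) ≤ Fintype.card σ * (m + 1) * 2 ^ (Fintype.card σ * m) := by positivity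
  have hS : (0 : ℝ) ≤ ∑ n ∈ Finset.range (m ^ Fintype.card σ), (1 + co n ^ 2) := by positivity
  have hn : ∀ (y : σ → ℝ) i, |y i| ≤ ‖y‖ := fun y i => norm_le_pi_norm y i
  refine ⟨fun y hy => ?_, fun R x y hR hx hy => ?_⟩
  · rw [he]
    unfold cB at hy ⊢
    have r1 : 1 ≤ ‖y‖ := by linarith
    have r2 : ‖y‖ ≤ ‖y‖ ^ m := le_self_pow₀ r1 (by omega)
    have a1 : ‖y‖ ^ (m + 1) ≤ ∑ i, y i ^ (m + 1) := by
      obtain ⟨i, hi⟩ : ∃ i, ‖y‖ ≤ |y i| := by
        by_contra h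
        push Not at h
        exact lt_irrefl _ ((pi_norm_lt_iff (by linarith)).2 h)
      refine (pow_le_pow_left₀ (norm_nonneg _) hi _).trans ?_
      rw [hm.add_one.pow_abs]
      exact Finset.single_le_sum (f := fun i => y i ^ (m + 1))
        (fun j _ => hm.add_one.pow_nonneg _) (Finset.mem_univ i)
    have a2 : ∑ i, ((m + 1) * bb i ^ m : ℕ) * y i ≤
        Fintype.card σ * (m + 1) * 2 ^ (Fintype.card σ * m) * ‖y‖ ^ m := by
      refine (Finset.sum_le_card_nsmul _ _ ((m + 1) * 2 ^ (Fintype.card σ * m) * ‖y‖ ^ m)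
        fun i _ => ?_).trans_eq (by rw [nsmul_eq_mul, Finset.card_univ]; ring)
      exact (mul_le_mul_of_nonneg_left ((le_abs_self _).trans ((hn y i).trans r2))
        (Nat.cast_nonneg _)).trans (mul_le_mul_of_nonneg_right (bb_le m i) (by positivity))
    have a3 : ∑ n ∈ Finset.range (m ^ Fintype.card σ), tm m co y n ≤
        (∑ n ∈ Finset.range (m ^ Fintype.card σ), (1 + co n ^ 2)) * ‖y‖ ^ m := by
      rw [Finset.sum_mul]
      refine Finset.sum_le_sum fun n _ => ?_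
      unfold tm
      split_ifs with h
      · refine (le_abs_self _).trans ?_
        rw [abs_mul]
        exact mul_le_mul (abs_le_sq _) ((prod_le (hn y) _ _).trans (pow_le_pow_right₀ r1 h.le))
          (abs_nonneg _) (by positivity)
      · positivity
    have a4 := mul_le_mul_of_nonneg_left (r1.trans r2) (show 0 ≤ ‖y‖ -
      (Fintype.card σ * (m + 1) * 2 ^ (Fintype.card σ * m) +
        ∑ n ∈ Finset.range (m ^ Fintype.card σ), (1 + co n ^ 2)) by linarith)
    rw [pow_succ] at a1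
    linarith
  · have h0 : 0 ≤ R := zero_le_one.trans hR
    have hx' : ∀ i, |x i| ≤ R := fun i => (hn x i).trans hx
    have hy' : ∀ i, |y i| ≤ R := fun i => (hn y i).trans hy
    have hd : ∀ i, |x i - y i| ≤ ‖x - y‖ := fun i => hn (x - y) i
    have hδ := norm_nonneg (x - y)
    generalize ‖x - y‖ = δ at hd hδ ⊢
    have q : δ ≤ (m + 1) * R ^ m * δ := le_mul_of_one_le_left hδ
      (one_le_mul_of_one_le_of_one_le (by linarith [Nat.cast_nonneg (α := ℝ) m]) (one_le_pow₀ hR))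
    have a1 : |∑ i, x i ^ (m + 1) - ∑ i, y i ^ (m + 1)| ≤
        Fintype.card σ * ((m + 1) * R ^ m * δ) := by
      rw [← Finset.sum_sub_distrib]
      refine (Finset.abs_sum_le_sum_abs _ _).trans ((Finset.sum_le_card_nsmul _ _ _
        fun i _ => pow_diff (hx' i) (hy' i) (hd i) (m + 1)).trans_eq ?_)
      rw [nsmul_eq_mul, Finset.card_univ, Nat.add_sub_cancel, Nat.cast_succ]
    have a2 : |∑ i, ((m + 1) * bb i ^ m : ℕ) * x i - ∑ i, ((m + 1) * bb i ^ m : ℕ) * y i| ≤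
        Fintype.card σ * (m + 1) * 2 ^ (Fintype.card σ * m) * ((m + 1) * R ^ m * δ) := by
      rw [← Finset.sum_sub_distrib]
      refine (Finset.abs_sum_le_sum_abs _ _).trans ((Finset.sum_le_card_nsmul _ _
        ((m + 1) * 2 ^ (Fintype.card σ * m) * ((m + 1) * R ^ m * δ)) fun i _ => ?_).trans_eq
          (by rw [nsmul_eq_mul, Finset.card_univ]; ring))
      rw [← mul_sub, abs_mul, Nat.abs_cast]
      exact mul_le_mul (bb_le m i) ((hd i).trans q) (abs_nonneg _) (by positivity)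
    have a3 : |∑ n ∈ Finset.range (m ^ Fintype.card σ), tm m co x n -
        ∑ n ∈ Finset.range (m ^ Fintype.card σ), tm m co y n| ≤
        (∑ n ∈ Finset.range (m ^ Fintype.card σ), (1 + co n ^ 2)) * ((m + 1) * R ^ m * δ) := by
      rw [← Finset.sum_sub_distrib, Finset.sum_mul]
      refine (Finset.abs_sum_le_sum_abs _ _).trans (Finset.sum_le_sum fun n _ => ?_)
      unfold tm
      split_ifs with h
      · rw [← mul_sub, abs_mul]
        refine mul_le_mul (abs_le_sq _) ((prod_diff hR hδ hx' hy' hd _ _).trans ?_)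
          (abs_nonneg _) (by positivity)
        have b1 : ((∑ i : σ, dg m n (ix i) : ℕ) : ℝ) ≤ m + 1 := by
          exact_mod_cast h.le.trans (Nat.le_succ m)
        have b2 := pow_le_pow_right₀ hR h.le
        gcongr
      · rw [sub_self, abs_zero]
        positivity
    rw [he, he]
    unfold cB
    rw [abs_le] at a1 a2 a3 ⊢
    constructor <;> linarith [a1.1, a1.2, a2.1, a2.2, a3.1, a3.2]

theorem netS : NetS := by
  refine ⟨fun _ _ _ => mem_tup, fun σ _ R M hM => ⟨fun y hy => ?_, fun e len ok => ?_⟩⟩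
  · have h0 : (0 : ℝ) < M := Nat.cast_pos.2 hM
    have hb : ∀ i, 0 ≤ (y i + R) * M ∧ (y i + R) * M ≤ (2 * R * M : ℕ) := fun i => by
      have := abs_le.1 ((norm_le_pi_norm y i).trans hy)
      push_cast
      exact ⟨mul_nonneg (by linarith) h0.le, mul_le_mul_of_nonneg_right (by linarith) h0.le⟩
    obtain ⟨n, hn, h⟩ := exists_dg (G := 2 * R * M + 1) (Fintype.card σ)
      (fun j => if h : j < Fintype.card σ then
        ⌊(y ((Fintype.equivFin σ).symm ⟨j, h⟩) + R) * M⌋₊ else 0) fun j hj => by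
      rw [dif_pos hj]
      exact Nat.lt_succ_of_le (Nat.floor_le_of_le (hb _).2)
    refine ⟨n, hn, (dist_pi_le_iff (by positivity)).2 fun i => ?_⟩
    have e : (Fintype.equivFin σ).symm ⟨ix i, ix_lt i⟩ = i := (Fintype.equivFin σ).symm_apply_apply i
    have a1 := Nat.floor_le (hb i).1
    have a2 := Nat.lt_floor_add_one ((y i + R) * M)
    rw [Real.dist_eq, gv, h _ (ix_lt i), dif_pos (ix_lt i), e, div_sub' h0.ne', abs_div,
      abs_of_pos h0, div_le_div_iff_of_pos_right h0, abs_le]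
    constructor <;> linarith
  · ext l
    simp only [vr, VR, mem_ofPred_eq, List.mem_filter, mem_tup, Bool.and_eq_true, List.all_eq_true,
      List.mem_range, decide_eq_true_eq, dist_gv hM]
    exact ⟨fun ⟨⟨a, b⟩, c, d⟩ => ⟨a, fun i hi => ⟨b i hi, c i hi⟩,
      fun i hi j hj k hk => ⟨d i hi j hj k hk, d j hj i hi k hk⟩⟩,
      fun ⟨a, b, c⟩ => ⟨⟨a, fun i hi => (b i hi).1⟩, fun i hi => (b i hi).2,
        fun i hi j hj k hk => (c i hi j hj k hk).1⟩⟩

end Pool.Agent.Lib.MP_837412_lc.K.Y
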