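import Pool.Agent.Lib.MP_837412_lc.YSt

/-!
The homology of a sublevel set is read off from lists of close points of a net.
-/

namespace Pool.Agent.Lib.MP_837412_lc.K.Y

open Pool.Agent.Shared.Mod2 Set Function

namespace YGrid

variable {E ι Y : Type} [NormedAddCommGroup E] [NormedSpace ℝ E] [TopologicalSpace Y]

instance : Fact (Convex ℝ (univ : Set E)) := ⟨convex_univ⟩

/-- The inclusion. -/
def vl (E : Type) [NormedAddCommGroup E] : C((univ : Set E), E) :=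
  ⟨Subtype.val, continuous_subtype_val⟩

/-- The affine map with given values on the vertices. -/
noncomputable def af {k : ℕ} (v : Fin k → E) : C(Sp k, E) :=
  (vl E).comp (aff fun i => ⟨v i, mem_univ _⟩)

/-- The affine simplex of a list. -/
noncomputable def ar (l : List E) : Sx E := smap (vl E) (re (l.map fun x => ⟨x, mem_univ _⟩))

lemma ar_ofFn {k : ℕ} (v : Fin k → E) : ar (List.ofFn v) = ⟨k, af v⟩ := by
  rw [ar, List.map_ofFn, re_ofFn]
  rfl

lemma af_mem {k : ℕ} {v : Fin k → E} {s : Set E} (hs : Convex ℝ s) (h : ∀ i, v i ∈ s) (t : Sp k) :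
    af v t ∈ s := hs.sum_mem (fun i _ => t.2.1 i) t.2.2 fun i _ => h i

lemma af_vertex {k : ℕ} (v : Fin k → E) (i : Fin k) : af v (stdSimplex.vertex i) = v i :=
  congrArg Subtype.val (aff_vertex (V := (univ : Set E)) (fun i => ⟨v i, mem_univ _⟩) i)

lemma af_comp {k m : ℕ} (v : Fin k → E) (w : Fin m → Sp k) :
    (af v).comp (aff w) = af fun j => af v (w j) :=
  congrArg (vl E).comp (isAff_aff (V := (univ : Set E)) (fun i => ⟨v i, mem_univ _⟩) m w)

lemma ar_mem {l : List E} {s : Set E} (hs : Convex ℝ s) (h : ∀ x ∈ l, x ∈ s) (t) :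
    (ar l).2 t ∈ s := by
  revert t
  rw [← List.ofFn_get l, ar_ofFn]
  exact af_mem hs fun i => h _ (List.get_mem _ i)

lemma ar_len (l : List E) : (ar l).1 = l.length := List.length_map _

/-- The list of vertices. -/
noncomputable def vt (σ : Sx Y) : List Y := (Shared.Mod2.ev σ.1).map σ.2

lemma vt_len (σ : Sx Y) : (vt σ).length = σ.1 := by rw [vt, List.length_map, ev_length]

lemma vt_re {A : Type} [NormedAddCommGroup A] [NormedSpace ℝ A] {V : Set A} [Fact (Convex ℝ V)]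
    (σ : C(V, Y)) (l : List V) : vt (smap σ (re l)) = l.map σ := by
  conv_rhs => rw [← map_ev l, List.map_map]
  rfl

lemma vt_ar (l : List E) : vt (ar l) = l := by
  rw [ar, vt_re, List.map_map]
  exact List.map_id _

/-- A simplex together with the affine simplex on the moved vertices. -/
noncomputable def lift (r : E → E) (σ : Sx E) : Sx (E × E) :=
  ⟨σ.1, σ.2.prodMk (af fun i => r (σ.2 (stdSimplex.vertex i)))⟩

lemma snd_lift (r : E → E) (σ : Sx E) :
    smap ContinuousMap.snd (lift r σ) = ar ((vt σ).map r) := by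
  rw [vt, Shared.Mod2.ev, List.map_ofFn, List.map_ofFn, ar_ofFn]
  rfl

lemma lift_re (r : E → E) (σ : Sx E) {l : List (Sp σ.1)} (h : ∀ x ∈ l, x ∈ Shared.Mod2.ev σ.1) :
    lift r (smap σ.2 (re l)) = smap (lift r σ).2 (re l) := by
  refine congrArg (Sigma.mk l.length) (ContinuousMap.ext fun t => Prod.ext rfl ?_)
  refine Eq.trans ?_ (ContinuousMap.congr_fun (af_comp _ l.get) t).symm
  refine congrArg (fun v => af v t) (funext fun j => ?_)
  obtain ⟨i, hi⟩ := List.mem_ofFn.1 (h _ (List.get_mem l j))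
  rw [← hi, af_vertex, hi]
  exact congrArg (fun x => r (σ.2 x)) (aff_vertex l.get j)

/-- The straight line homotopy. -/
noncomputable def ln (E : Type) [NormedAddCommGroup E] [NormedSpace ℝ E] : C(I × (E × E), E) :=
  ⟨fun p => (1 - (p.1 : ℝ)) • p.2.1 + (p.1 : ℝ) • p.2.2, by fun_prop⟩

variable [Coef]

lemma map_lin_bdl {V W : Type} (g : V → W) (x : Ch (List V)) :
    mp (List.map g) (lin bdl x) = lin bdl (mp (List.map g) x) :=
  map_eq' (L := mp (List.map g) ∘ₗ lin bdl) (L' := lin bdl ∘ₗ mp (List.map g))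
    (fun l => by simp [map_bdl]) x

lemma sd_ar (x : Ch (List E)) : sd (mp ar x) = mp ar (lin bdl x) := by
  have e : ∀ x : Ch (List E), mp ar x =
      cm (vl E) (mp re (mp (List.map fun x => ⟨x, mem_univ _⟩) x)) := fun x => by
    rw [cm, mp_mp, mp_mp]; rfl
  rw [e, e, ← cm_sd, sd_re, map_lin_bdl]

lemma vt_sd (x : Ch (Sx Y)) : mp vt (sd x) = lin bdl (mp vt x) :=
  map_eq' (L := mp vt ∘ₗ sd) (L' := lin bdl ∘ₗ mp vt) (fun σ => by
    simp only [LinearMap.comp_apply, mp_sg, lin_sg, sd, op_sg, cm, mp_mp, vt_re]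
    exact map_bdl _ _) x

lemma lift_sd (r : E → E) (x : Ch (Sx E)) : sd (mp (lift r) x) = mp (lift r) (sd x) :=
  map_eq' (L := sd ∘ₗ mp (lift r)) (L' := mp (lift r) ∘ₗ sd) (fun σ => by
    simp only [LinearMap.comp_apply, mp_sg, sd, op_sg, cm, mp_mp]
    exact mp_congr (fun l hl => (lift_re r σ fun x hx => hl.1.subset hx).symm) (bdl_mem _)) x

lemma lift_eq (r : E → E) (x : Ch (Sx E)) : sd (prism (ln E) (mp (lift r) x)) =
    mp ar (mp (List.map r) (mp vt x)) - x - prism (ln E) (mp (lift r) (sd x)) := by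
  rw [prism_eq (f := ContinuousMap.fst) (g := ContinuousMap.snd) (fun y => by simp [ln])
    (fun y => by simp [ln]), lift_sd]
  simp only [cm, mp_mp, snd_lift]
  congr 2
  exact mp_id x

lemma PL_mem {W W' : Type} (i j : W → W') (l : List W) :
    PL i j l ∈ sup {c | ∀ x ∈ c, ∃ y ∈ l, x = i y ∨ x = j y} := by
  induction l with
  | nil => exact zero_mem _
  | cons a l ih =>
    refine mp_mem (s := {c | ∀ x ∈ c, ∃ y ∈ a :: l, x = i y ∨ x = j y}) (fun c hc => ?_)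
      (sub_mem (sg_mem fun x hx => ?_) (sup_mono (fun c hc x hx => ?_) ih))
    · exact List.forall_mem_cons.2 ⟨⟨a, List.mem_cons_self, Or.inl rfl⟩, hc⟩
    · obtain ⟨y, hy, rfl⟩ := List.mem_map.1 hx
      exact ⟨y, hy, Or.inr rfl⟩
    · exact (hc x hx).imp fun y hy => ⟨List.mem_cons_of_mem _ hy.1, hy.2⟩

lemma PL_lin {W : Type} (j : W → W) (x : Ch (List W)) : lin bdl (lin (PL id j) x) =
    mp (List.map j) x - x - lin (PL id j) (lin bdl x) :=
  map_eq' (L := lin bdl ∘ₗ lin (PL id j))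
    (L' := mp (List.map j) - LinearMap.id - lin (PL id j) ∘ₗ lin bdl) (fun l => by simp [PL_eq]) x

lemma bd_eq {n : ℕ} {x : Ch (List ι)} (hx : x ∈ Gr ι (n + 2)) : lin bd x = lin bdl x := by
  refine lin_congr (fun l hl => ?_) hx
  have : l.length = n + 2 := hl
  exact if_neg (by omega)

lemma bd_one {x : Ch (List ι)} (hx : x ∈ Gr ι 1) : lin bd x = 0 :=
  map_zero' (fun _ hl => (lin_sg _ _).trans (if_pos hl)) hx

omit [NormedSpace ℝ E] in
lemma vr_gr {g : ι → E} {G : Set ι} {δ : ℝ} {n : ℕ} : sup (VR g G δ n) ≤ Gr ι n :=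
  sup_mono fun _ h => h.1

/-- The data. -/
structure Net (g : ι → E) (G : Set ι) (f : E → ℝ) (a ω ε : ℝ) (ρ : E → ι) : Prop where
  cont : Continuous f
  ω0 : 0 < ω
  ε0 : 0 < ε
  net : ∀ x, f x < a + 2 * ω → ρ x ∈ G ∧ dist (g (ρ x)) x ≤ ε
  lip : ∀ x y, dist x y ≤ 6 * ε → f x < a + 3 * ω → f y < f x + ω

/-- Realisation. -/
noncomputable def al (g : ι → E) : Ch (List ι) →ₗ[F] Ch (Sx E) := mp ar ∘ₗ mp (List.map g)

/-- Rounding. -/
noncomputable def mu (ρ : E → ι) : Ch (Sx E) →ₗ[F] Ch (List ι) := mp (List.map ρ) ∘ₗ mp vt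

variable {g : ι → E} {G : Set ι} {f : E → ℝ} {a ω ε c δ : ℝ} {ρ : E → ι} {n : ℕ}

lemma al_sg (l : List ι) : al g (sg l) = sg (ar (l.map g)) := by simp [al]

lemma sd_al (x : Ch (List ι)) : sd (al g x) = al g (lin bdl x) := by
  simp only [al, LinearMap.comp_apply, sd_ar, map_lin_bdl]

omit [NormedSpace ℝ E] in
lemma mu_sd (x : Ch (Sx E)) : mu ρ (sd x) = lin bdl (mu ρ x) := by
  simp only [mu, LinearMap.comp_apply, vt_sd, map_lin_bdl]

lemma mu_al (x : Ch (List ι)) : mu ρ (al g x) = mp (List.map (ρ ∘ g)) x := by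
  simp only [mu, al, LinearMap.comp_apply, mp_mp, vt_ar, List.map_map]

omit [Coef] in
lemma ar_near {G : Set ι} {l : List ι} (hl : l ∈ VR g G δ n) {i : ι} (hi : i ∈ l) (t) :
    dist ((ar (l.map g)).2 t) (g i) ≤ δ :=
  ar_mem (convex_closedBall (g i) δ) (fun x hx => by
    obtain ⟨j, hj, rfl⟩ := List.mem_map.1 hx
    exact hl.2.2 j hj i hi) t

omit [Coef] in
lemma ar_lt (N : Net g G f a ω ε ρ) (hc : c ≤ a + 3 * ω) (hδ : δ ≤ 6 * ε) {l : List ι}
    (hl : l ∈ VR g {i ∈ G | f (g i) < c} δ (n + 1)) (t) : f ((ar (l.map g)).2 t) < c + ω := by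
  obtain ⟨i, hi⟩ := List.exists_mem_of_length_eq_add_one hl.1
  have e := (hl.2.1 i hi).2
  have := N.lip (g i) _ ((dist_comm _ _).trans_le ((ar_near hl hi t).trans hδ)) (by linarith)
  linarith

lemma al_mem (N : Net g G f a ω ε ρ) (hc : c ≤ a + 3 * ω) (hδ : δ ≤ 6 * ε) {x : Ch (List ι)}
    (hx : x ∈ sup (VR g {i ∈ G | f (g i) < c} δ (n + 1))) :
    al g x ∈ Cs {y | f y < c + ω} (n + 1) :=
  map_mem (fun l hl => by
    rw [al_sg]
    exact sg_mem ⟨by rw [ar_len, List.length_map, hl.1], ar_lt N hc hδ hl⟩) hx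

omit [Coef] [NormedSpace ℝ E] in
lemma rnd (N : Net g G f a ω ε ρ) (hc : c ≤ a + 2 * ω) {x : E} (hx : f x < c) :
    (ρ x ∈ G ∧ f (g (ρ x)) < c + ω) ∧ dist (g (ρ x)) x ≤ ε := by
  obtain ⟨h1, h2⟩ := N.net x (by linarith)
  have := N.lip x _ ((dist_comm _ _).trans_le (h2.trans (by linarith [N.ε0])))
    (by linarith [N.ω0])
  exact ⟨⟨h1, by linarith⟩, h2⟩

omit [NormedSpace ℝ E] in
lemma mu_mem (N : Net g G f a ω ε ρ) (hc : c ≤ a + 2 * ω) {s : Set E} (h1 : ∀ x ∈ s, f x < c)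
    (h2 : ∀ x ∈ s, ∀ y ∈ s, dist x y ≤ δ) {c' δ' : ℝ} (e : c + ω ≤ c') (e' : δ + 2 * ε ≤ δ')
    {x : Ch (Sx E)} (hx : x ∈ Cs s n) : mu ρ x ∈ sup (VR g {i ∈ G | f (g i) < c'} δ' n) := by
  refine map_mem (fun σ hσ => ?_) hx
  simp only [mu, LinearMap.comp_apply, mp_sg]
  have k : ∀ i ∈ (vt σ).map ρ, ∃ x ∈ s, ρ x = i := fun i hi => by
    obtain ⟨x, hx, rfl⟩ := List.mem_map.1 hi
    obtain ⟨t, -, rfl⟩ := List.mem_map.1 hx
    exact ⟨_, hσ.2 t, rfl⟩
  refine sg_mem ⟨by rw [List.length_map, vt_len, hσ.1], fun i hi => ?_, fun i hi j hj => ?_⟩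
  · obtain ⟨x, hx, rfl⟩ := k i hi
    exact (rnd N hc (h1 x hx)).1.imp_right fun b => b.trans_le e
  · obtain ⟨x, hx, rfl⟩ := k i hi
    obtain ⟨y, hy, rfl⟩ := k j hj
    linarith [dist_triangle4_right (g (ρ x)) (g (ρ y)) x y, (rnd N hc (h1 x hx)).2,
      (rnd N hc (h1 y hy)).2, h2 x hx y hy]

omit [NormedSpace ℝ E] in
lemma mu_small (N : Net g G f a ω ε ρ) (hc : c ≤ a + 2 * ω) {c' δ' : ℝ} (e : c + ω ≤ c')
    (e' : 4 * ε ≤ δ') {x : Ch (Sx E)}
    (hx : x ∈ sup {τ : Sx E | τ.1 = n ∧ ∃ y, ∀ t, τ.2 t ∈ Metric.ball y ε ∩ {y | f y < c}}) :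
    mu ρ x ∈ sup (VR g {i ∈ G | f (g i) < c'} δ' n) := by
  refine map_mem ?_ hx
  rintro τ ⟨h, y, hy⟩
  exact mu_mem N hc (δ := 2 * ε) (s := Metric.ball y ε ∩ {y | f y < c})
    (fun _ b => b.2) (fun u b v d => by
      linarith [dist_triangle_right u v y, Metric.mem_ball.1 b.1, Metric.mem_ball.1 d.1])
    e (by linarith) (sg_mem ⟨h, hy⟩)

omit [NormedSpace ℝ E] in
lemma small' (N : Net g G f a ω ε ρ) {x : Ch (Sx E)} (hx : x ∈ Cs {y | f y < c} n) :
    ∃ T : Ch (Sx E) →ₗ[F] Ch (Sx E), (∀ s k, ∀ x ∈ Cs s k, T x ∈ Cs s (k + 1)) ∧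
      x + sd (T x) + T (sd x) ∈
        sup {τ : Sx E | τ.1 = n ∧ ∃ y, ∀ t, τ.2 t ∈ Metric.ball y ε ∩ {y | f y < c}} :=
  small (U := fun y => Metric.ball y ε ∩ {y | f y < c})
    (fun _ => Metric.isOpen_ball.inter (isOpen_lt N.cont continuous_const))
    (Cs_mono (fun y hy => mem_iUnion.2 ⟨y, mem_inter (Metric.mem_ball_self N.ε0) hy⟩) n hx)

/-- Every cycle comes from the net. -/
lemma onto (N : Net g G f a ω ε ρ) : Zs {y | f y < a} ∅ (n + 1) ≤
    (sup (VR g {i ∈ G | f (g i) < a + ω} (4 * ε) (n + 1)) ⊓ LinearMap.ker (lin bd)).map (al g) ⊔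
      Bs {y | f y < a + 4 * ω} ∅ (n + 1) := by
  intro z hz
  have ω0 := N.ω0
  have ε0 := N.ε0
  obtain ⟨T, t1, t2⟩ := small' N hz.1
  have hz' : sd z ∈ Cs ∅ n := hz.2
  rw [Cs_empty (t1 _ _ _ hz'), add_zero] at t2
  have e : sd (z + sd (T z)) = sd z := by rw [map_add, sd_sd, add_zero]
  have u1 := mu_small N (by linarith) le_rfl le_rfl t2
  have u2 : lin bd (mu ρ (z + sd (T z))) = 0 := by
    cases n with
    | zero => exact bd_one (vr_gr u1)
    | succ n => rw [bd_eq (vr_gr u1), ← mu_sd, e, Cs_empty hz', map_zero]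
  have p1 : prism (ln E) (mp (lift (g ∘ ρ)) (z + sd (T z))) ∈ Cs {y | f y < a + 4 * ω} (n + 2) := by
    refine map_mem (L := prism (ln E) ∘ₗ mp (lift (g ∘ ρ))) ?_ t2
    rintro ⟨k, σ⟩ ⟨rfl, y, hy⟩
    rw [LinearMap.comp_apply, mp_sg]
    refine prism_mem (s := Metric.closedBall y (2 * ε) ×ˢ Metric.closedBall y (2 * ε))
      (fun t p hp => ?_) (sg_mem ⟨rfl, fun t => ⟨?_, af_mem (convex_closedBall _ _) (fun i => ?_) t⟩⟩)
    · have b : dist (ln E (t, p)) y ≤ 2 * ε :=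
        convex_closedBall y (2 * ε) hp.1 hp.2 (sub_nonneg.2 t.2.2) t.2.1 (by ring)
      obtain ⟨d, d'⟩ := hy (stdSimplex.vertex 0)
      have d2 : f (σ (stdSimplex.vertex 0)) < a := d'
      have := N.lip (σ (stdSimplex.vertex 0)) (ln E (t, p))
        (by linarith [dist_triangle_right (σ (stdSimplex.vertex 0)) (ln E (t, p)) y,
          Metric.mem_ball.1 d]) (by linarith)
      exact lt_trans this (by linarith)
    · exact (Metric.mem_ball.1 (hy t).1).le.trans (by linarith)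
    · have b := (rnd N (by linarith) (hy (stdSimplex.vertex i)).2).2
      have d := Metric.mem_ball.1 (hy (stdSimplex.vertex i)).1
      exact (dist_triangle _ _ _).trans ((add_le_add b d.le).trans (by linarith))
  have p2 : prism (ln E) (mp (lift (g ∘ ρ)) (sd z)) = 0 := by
    refine Cs_empty (k := n) (prism_mem (s := ∅) (fun _ _ h => h.elim) (mp_mem ?_ hz'))
    exact fun σ h => ⟨h.1, fun t => h.2 t⟩
  have p3 := lift_eq (g ∘ ρ) (z + sd (T z))
  rw [e, p2, sub_zero] at p3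
  have p4 : al g (mu ρ (z + sd (T z))) =
      mp ar (mp (List.map (g ∘ ρ)) (mp vt (z + sd (T z)))) := by
    simp only [al, mu, LinearMap.comp_apply, mp_mp, List.map_map]
  refine mem_sup2.2 ⟨_, neg_mem ⟨_, ⟨u1, u2⟩, rfl⟩, mem_Br.2
    ⟨_, add_mem (Cs_mono (fun y (hy : f y < a) => (by linarith : f y < a + 4 * ω)) _
      (t1 _ _ _ hz.1)) p1, ?_⟩⟩
  rw [map_add sd, p3, p4]
  convert (Cs (∅ : Set E) (n + 1)).zero_mem using 1
  abel

/-- Cycles of the net that bound in the space bound in the net. -/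
lemma into (N : Net g G f a ω ε ρ) {z : Ch (List ι)}
    (h1 : z ∈ sup (VR g {i ∈ G | f (g i) < a + ω} (4 * ε) (n + 1))) (h2 : lin bd z = 0)
    (h3 : al g z ∈ Bs {y | f y < a + 2 * ω} ∅ (n + 1)) :
    z ∈ (sup (VR g {i ∈ G | f (g i) < a + 3 * ω} (6 * ε) (n + 2))).map (lin bd) := by
  have ω0 := N.ω0
  have ε0 := N.ε0
  obtain ⟨b, b1, b2⟩ := mem_Br.1 h3
  have b3 : sd b = -al g z := eq_neg_of_add_eq_zero_right (Cs_empty b2)
  obtain ⟨T, t1, t2⟩ := small' N b1
  have w1 := mu_small N le_rfl (c' := a + 3 * ω) (δ' := 6 * ε) (by linarith) (by linarith) t2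
  have w2 : mu ρ (T (al g z)) ∈ sup (VR g {i ∈ G | f (g i) < a + 3 * ω} (6 * ε) (n + 2)) := by
    refine map_mem (L := mu ρ ∘ₗ T ∘ₗ al g) (fun l hl => ?_) h1
    rw [LinearMap.comp_apply, LinearMap.comp_apply, al_sg]
    refine mu_mem N (c := a + ω + ω) (δ := 4 * ε) (s := range (ar (l.map g)).2) (by linarith)
      ?_ ?_ (by linarith) (by linarith)
      (t1 _ _ _ (sg_mem ⟨by rw [ar_len, List.length_map, hl.1], fun t => ⟨t, rfl⟩⟩))
    · rintro _ ⟨t, rfl⟩
      exact ar_lt N (by linarith) (by linarith) hl t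
    · rintro _ ⟨t, rfl⟩ _ ⟨u, rfl⟩
      refine ar_mem (convex_closedBall _ _) (fun x hx => ?_) t
      obtain ⟨j, hj, rfl⟩ := List.mem_map.1 hx
      exact (dist_comm _ _).trans_le (ar_near hl hj u)
  have w3 : lin (PL id (ρ ∘ g)) z ∈
      sup (VR g {i ∈ G | f (g i) < a + 3 * ω} (6 * ε) (n + 2)) := by
    refine lin_mem (fun l hl => sup_mono (fun c hc => ?_)
      (sup_inter (PL_gr id (ρ ∘ g) l) (PL_mem id (ρ ∘ g) l))) h1
    have k : ∀ i ∈ c, (i ∈ G ∧ f (g i) < a + 3 * ω) ∧ ∃ j ∈ l, dist (g i) (g j) ≤ ε := by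
      intro i hi
      obtain ⟨j, hj, e | rfl⟩ := hc.2 i hi
      · obtain rfl : j = i := e.symm
        exact ⟨(hl.2.1 j hj).imp_right fun b => b.trans (by linarith), j, hj, by simpa using ε0.le⟩
      · have := rnd N (c := a + ω) (by linarith) (hl.2.1 j hj).2
        exact ⟨this.1.imp_right fun b => b.trans (by linarith), j, hj, this.2⟩
    refine ⟨hc.1.trans (congrArg (· + 1) hl.1), fun i hi => (k i hi).1, fun i hi i' hi' => ?_⟩
    obtain ⟨j, hj, d⟩ := (k i hi).2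
    obtain ⟨j', hj', d'⟩ := (k i' hi').2
    linarith [dist_triangle4_right (g i) (g i') (g j) (g j'), hl.2.2 j hj j' hj']
  have e : lin (PL id (ρ ∘ g)) (lin bdl z) = 0 := by
    cases n with
    | zero =>
      have k : lin bdl z ∈ Gr ι 0 := lin_mem (fun l hl => bdl_gr hl.1) h1
      refine map_zero' (fun l hl => ?_) k
      rw [List.length_eq_zero_iff.1 hl, lin_sg, PL]
    | succ n => rw [← bd_eq (vr_gr h1), h2, map_zero]
  have w := neg_mem (add_mem (add_mem w1 w2) w3)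
  refine ⟨_, w, ?_⟩
  rw [bd_eq (vr_gr w), map_neg, map_add (lin bdl), map_add (lin bdl), PL_lin, e, ← mu_sd, ← mu_sd,
    ← mu_al]
  simp only [map_add, sd_sd, b3, map_neg, map_zero]
  abel

section Rk

variable {M M' : Type} [AddCommGroup M] [Module F M] [AddCommGroup M'] [Module F M']
  {Z B : Submodule F M} {Z' B' : Submodule F M'}

lemma rk_onto (φ : M →ₗ[F] M') (h1 : Z' ≤ Z.map φ ⊔ B') (h2 : B ≤ B'.comap φ) :
    rk Z' B' ≤ rk Z B := by
  refine (rk_mono h1 le_rfl).trans ?_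
  rw [rk_congr (S' := Z.map φ) (by rw [sup_assoc, sup_idem]), rk_map]
  exact rk_mono le_rfl h2

lemma rk_into (φ : M →ₗ[F] M') (h1 : Z.map φ ≤ Z') (h2 : Z ⊓ B'.comap φ ≤ B) :
    rk Z B ≤ rk Z' B' := by
  refine (rk_mono le_rfl h2).trans ?_
  rw [rk_congr' (T' := B'.comap φ) (by rw [← inf_assoc, inf_idem]), ← rk_map]
  exact rk_mono h1 le_rfl

end Rk

end YGrid

open YGrid

variable [Coef]

theorem gridS : GridS := by
  intro E ι _ _ g G f a ω ε hf ω0 ε0 net lip A2 A4 n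
  have m : ∀ {u v : ℝ}, u ≤ v → {y | f y < u} ⊆ {y | f y < v} := fun e _ hy => lt_of_lt_of_le hy e
  rcases isEmpty_or_nonempty ι with hι | hι
  · rw [show {x | f x < a} = ∅ from eq_empty_of_forall_notMem fun x (hx : f x < a) =>
      (net x (by linarith)).elim fun i _ => hι.elim i, Ac.refl]
    refine (rk_eq_zero.2 fun x hx => ?_).symm
    rw [eq_zero_of_mem hx.1 fun l hl =>
      (List.exists_mem_of_length_eq_add_one hl.1).elim fun i _ => hι.elim i]
    exact zero_mem _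
  choose! ρ hρ using net
  have N : Net g G f a ω ε ρ := ⟨hf, ω0, ε0, hρ, lip⟩
  refine le_antisymm ?_ ?_
  · have e : hs {x | f x < a} ∅ (n + 1) =
        rk (Zs {x | f x < a} ∅ (n + 1)) (Bs {x | f x < a + 4 * ω} ∅ (n + 1)) :=
      rk_congr' (le_antisymm (inf_le_inf_left _ (Bs_mono (m (by linarith)) Subset.rfl _))
        (le_inf inf_le_left (into_left (empty_subset _) (m (by linarith)) (A4 _))))
    rw [e]
    refine rk_onto (al g) (onto N) ?_
    rintro _ ⟨x, hx, rfl⟩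
    refine mem_Br.2 ⟨-al g x, neg_mem (Cs_mono (m (by linarith)) _ (al_mem N le_rfl le_rfl hx)), ?_⟩
    rw [bd_eq (vr_gr hx), map_neg, sd_al, add_neg_cancel]
    exact zero_mem _
  · rw [← A2.left (empty_subset _) (m (by linarith))]
    refine rk_into (al g) ?_ fun z hz => into N hz.1.1 hz.1.2 hz.2
    rintro _ ⟨z, hz, rfl⟩
    have h1 := Cs_mono (m (by linarith : a + ω + ω ≤ a + 2 * ω)) _
      (al_mem N (by linarith) (by linarith) hz.1)
    refine mem_Zr'.2 ⟨h1, ?_⟩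
    cases n with
    | zero => exact (Cs_zero _ (∅ : Set E)).le (sd_mem h1)
    | succ n =>
      rw [sd_al, ← bd_eq (vr_gr hz.1), show lin bd z = 0 from hz.2, map_zero]
      exact zero_mem _

end Pool.Agent.Lib.MP_837412_lc.K.Y
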