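import Pool.Agent.Lib.MP_837412_lc.YSt

/-!
The dimension of cycles modulo boundaries from three ranks of integer matrices.
-/

namespace Pool.Agent.Lib.MP_837412_lc.K.Y

open Set

namespace YHom

/-- A face. -/
def fa (l : List ℕ) (i : ℕ) : List ℕ := l.take i ++ l.drop (i + 1)

/-- All faces. -/
def fc (l : List ℕ) : List (List ℕ) := (List.range l.length).map (fa l)

/-- The coefficient of `c` in the boundary of `l`. -/
def ent (l c : List ℕ) : ℤ := if l.length = 1 then 0 else
  ((List.range l.length).map fun i =>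
    if fa l i = c then (if i % 2 = 0 then (1 : ℤ) else -1) else 0).sum

/-- The coefficient of `c` in `l`. -/
def unit (l c : List ℕ) : ℤ := if l = c then 1 else 0

/-- The columns. -/
def cols (A A' : List (List ℕ)) : List (List ℕ) := A ++ (A ++ A').flatMap fc

/-- The rows. -/
def rows (e : List ℕ → List ℕ → ℤ) (L A : List (List ℕ)) : List (List ℤ) :=
  A.map fun l => L.map (e l)

/-- The number. -/
def hv (rq : List (List ℤ) → ℕ) (x : List (List ℕ) × List (List ℕ)) : ℕ :=
  rq (rows ent (cols x.1 x.2) x.2 ++ rows unit (cols x.1 x.2) x.1) -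
    rq (rows ent (cols x.1 x.2) x.2) - rq (rows ent (cols x.1 x.2) x.1)

section Time

variable {α : Type} [RE α]

@[fun_prop] theorem rpt_fa {l : α → List ℕ} {i : α → ℕ} (hl : RPT l) (hi : RPT i) :
    RPT fun a => fa (l a) (i a) := by
  unfold fa; fun_prop

@[fun_prop] theorem rpt_fc {l : α → List ℕ} (hl : RPT l) : RPT fun a => fc (l a) := by
  unfold fc; fun_prop

@[fun_prop] theorem rpt_ent {l c : α → List ℕ} (hl : RPT l) (hc : RPT c) :
    RPT fun a => ent (l a) (c a) := by
  unfold ent
  refine RPT.ite (by fun_prop) (.const 0) (RPT.zsum (RPT.map (by fun_prop) ?_))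
  exact RPT.ite (by fun_prop) (RPT.ite (by fun_prop) (.const 1) (.const (-1))) (.const 0)

@[fun_prop] theorem rpt_unit {l c : α → List ℕ} (hl : RPT l) (hc : RPT c) :
    RPT fun a => unit (l a) (c a) := by
  unfold unit
  exact RPT.ite (by fun_prop) (.const 1) (.const 0)

@[fun_prop] theorem rpt_cols {A A' : α → List (List ℕ)} (h : RPT A) (h' : RPT A') :
    RPT fun a => cols (A a) (A' a) := by
  unfold cols; fun_prop

theorem rpt_hv {rq : List (List ℤ) → ℕ} (h : RPT rq) : RPT (hv rq) := by
  have a1 : RPT fun x : List (List ℕ) × List (List ℕ) => rows ent (cols x.1 x.2) x.2 := by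
    unfold rows; fun_prop
  have a2 : RPT fun x : List (List ℕ) × List (List ℕ) => rows ent (cols x.1 x.2) x.1 := by
    unfold rows; fun_prop
  have a3 : RPT fun x : List (List ℕ) × List (List ℕ) => rows unit (cols x.1 x.2) x.1 := by
    unfold rows; fun_prop
  exact ((h.comp' (a1.append a3)).nsub (h.comp' a1)).nsub (h.comp' a2)

end Time

variable [Coef]

theorem bdl_eq (l : List ℕ) :
    bdl l = ∑ i ∈ Finset.range l.length, ((-1 : F) ^ i) • sg (l.eraseIdx i) := by
  induction l with
  | nil => simp [bdl]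
  | cons a l ih =>
    rw [bdl, ih, List.length_cons, Finset.sum_range_succ', map_sum, sub_eq_neg_add,
      ← Finset.sum_neg_distrib]
    congr 1
    · refine Finset.sum_congr rfl fun i _ => ?_
      rw [map_smul, cone_sg, List.eraseIdx_cons_succ, pow_succ, mul_neg_one, neg_smul]
    · simp

omit [Coef] in
theorem list_sum (f : ℕ → ℤ) (n : ℕ) :
    ((List.range n).map f).sum = ∑ i ∈ Finset.range n, f i := by
  induction n with
  | zero => simp
  | succ n ih => rw [List.sum_range_succ, Finset.sum_range_succ, ih]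

theorem sg_apply (l c : List ℕ) : sg l c = (unit l c : F) := by
  unfold sg unit
  rw [Finsupp.single_apply]
  split_ifs <;> simp

theorem bd_apply (l c : List ℕ) : bd l c = (ent l c : F) := by
  unfold bd ent
  split_ifs with h
  · simp
  · rw [bdl_eq, list_sum, Finsupp.finsetSum_apply, Int.cast_sum]
    refine Finset.sum_congr rfl fun i _ => ?_
    rw [Finsupp.smul_apply, sg_apply, unit, fa, ← List.eraseIdx_eq_take_drop_succ]
    by_cases e : l.eraseIdx i = c
    · rcases Nat.mod_two_eq_zero_or_one i with h2 | h2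
      · have : Even i := Nat.even_iff.2 h2
        simp [e, h2, this.neg_one_pow]
      · have : Odd i := Nat.odd_iff.2 h2
        simp [e, h2, this.neg_one_pow]
    · simp [e]

theorem bd_mem (l : List ℕ) : bd l ∈ sup {c | c ∈ fc l} := by
  unfold bd
  split_ifs with h
  · exact zero_mem _
  · rw [bdl_eq]
    refine Submodule.sum_mem _ fun i hi => Submodule.smul_mem _ _ (sg_mem ?_)
    exact List.mem_map.2 ⟨i, List.mem_range.2 (Finset.mem_range.1 hi),
      (List.eraseIdx_eq_take_drop_succ l i).symm⟩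

theorem bd_bd (l : List ℕ) : lin bd (bd l) = 0 := by
  by_cases h : l.length = 1
  · rw [bd, if_pos h, map_zero]
  · rw [bd, if_neg h]
    by_cases h2 : l.length = 2
    · refine map_zero' (fun c hc => ?_) (bdl_mem l)
      rw [lin_sg, bd, if_pos (by have := hc.2; omega)]
    · rw [← bdl_bdl l]
      refine lin_congr (fun c hc => ?_) (bdl_mem l)
      rw [bd, if_neg (by have := hc.2; omega)]

/-- The row of a chain. -/
noncomputable def ph (L : List (List ℕ)) : Ch (List ℕ) →ₗ[F] (ℕ → F) :=
  LinearMap.pi fun j => if h : j < L.length then Finsupp.lapply L[j] else 0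

theorem ph_apply (L : List (List ℕ)) (x : Ch (List ℕ)) (j : ℕ) :
    ph L x j = if h : j < L.length then x L[j] else 0 := by
  unfold ph
  rw [LinearMap.pi_apply]
  split_ifs <;> rfl

/-- The span of the rows. -/
def sp (V : List (List ℤ)) : Submodule F (ℕ → F) :=
  Submodule.span F {x : ℕ → F | ∃ v ∈ V, x = fun j => ((v.getD j 0 : ℤ) : F)}

theorem sp_append (V V' : List (List ℤ)) : sp (V ++ V') = sp V ⊔ sp V' := by
  rw [sp, sp, sp, ← Submodule.span_union]
  congr 1
  ext x
  simp only [List.mem_append, mem_ofPred_eq, mem_union, or_and_right, exists_or]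

theorem sp_rows (e : List ℕ → List ℕ → ℤ) (g : List ℕ → Ch (List ℕ))
    (h : ∀ l c, g l c = (e l c : F)) (L A : List (List ℕ)) :
    sp (rows e L A) = ((sup {l | l ∈ A}).map (lin g)).map (ph L) := by
  have k : ∀ l, (fun j => (((L.map (e l)).getD j 0 : ℤ) : F)) = ph L (g l) := by
    intro l
    funext j
    rw [ph_apply]
    split_ifs with hj
    · rw [List.getD_eq_getElem _ _ (by simpa using hj), List.getElem_map, h]
    · rw [List.getD_eq_default _ _ (by simpa using hj), Int.cast_zero]
  rw [sup, Finsupp.supported_eq_span_single, Submodule.map_span, Submodule.map_span, image_image,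
    image_image, sp]
  congr 1
  ext x
  simp only [rows, List.mem_map, mem_ofPred_eq, mem_image]
  constructor
  · rintro ⟨_, ⟨l, hl, rfl⟩, rfl⟩
    exact ⟨l, hl, by rw [k]; exact congrArg _ (lin_sg g l)⟩
  · rintro ⟨l, hl, rfl⟩
    exact ⟨_, ⟨l, hl, rfl⟩, by rw [k]; exact congrArg _ (lin_sg g l)⟩

theorem rk_bot {M : Type} [AddCommGroup M] [Module F M] (S : Submodule F M) :
    rk S ⊥ = (Module.rank F S).toENat := by
  rw [rk, ← (Submodule.equivMapOfInjective _
    (LinearMap.ker_eq_bot.1 (Submodule.ker_mkQ (⊥ : Submodule F M))) S).rank_eq]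

theorem rk_sp (V : List (List ℤ)) : (Module.finrank F (sp V) : ℕ∞) = rk (sp V) ⊥ := by
  have hf : {x : ℕ → F | ∃ v ∈ V, x = fun j => ((v.getD j 0 : ℤ) : F)}.Finite := by
    refine ((List.finite_toSet V).image fun v => fun j => ((v.getD j 0 : ℤ) : F)).subset ?_
    rintro _ ⟨v, hv, rfl⟩
    exact ⟨v, hv, rfl⟩
  have : Module.Finite F (sp V) := Module.Finite.span_of_finite F hf
  rw [rk_bot, ← Module.finrank_eq_rank]
  simp

theorem rk_ph {L : List (List ℕ)} {S : Submodule F (Ch (List ℕ))} (h : S ≤ sup {c | c ∈ L}) :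
    rk (S.map (ph L)) ⊥ = rk S ⊥ := by
  rw [rk_map]
  refine rk_congr' (le_antisymm ?_ (inf_le_inf_left _ bot_le))
  rintro x ⟨hx, hx'⟩
  refine ⟨hx, ?_⟩
  have e : ph L x = 0 := hx'
  refine Finsupp.ext fun c => ?_
  by_cases hc : c ∈ L
  · obtain ⟨j, hj, rfl⟩ := List.getElem_of_mem hc
    have := congrFun e j
    rwa [ph_apply, dif_pos hj] at this
  · exact mem_sup'.1 (h hx) c hc

theorem gen (rq : List (List ℤ) → ℕ) (h : ∀ V, rq V = Module.finrank F (sp V))
    (A A' : List (List ℕ)) : (hv rq (A, A') : ℕ∞) = hvr {l | l ∈ A} {l | l ∈ A'} := by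
  have hb : ∀ X : List (List ℕ), (∀ l ∈ X, l ∈ A ++ A') →
      (sup {l | l ∈ X}).map (lin bd) ≤ sup {c | c ∈ cols A A'} := by
    rintro X hX _ ⟨x, hx, rfl⟩
    refine lin_mem (fun l hl => sup_mono (fun c hc => ?_) (bd_mem l)) hx
    exact List.mem_append_right _ (List.mem_flatMap.2 ⟨l, hX l hl, hc⟩)
  have hK : (sup {l | l ∈ A}).map (lin sg) = sup {l | l ∈ A} := by
    have : (lin sg : Ch (List ℕ) →ₗ[F] Ch (List ℕ)) = LinearMap.id :=
      LinearMap.ext fun x => mp_id x
    rw [this, Submodule.map_id]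
  have hA : sup {l | l ∈ A} ≤ sup {c | c ∈ cols A A'} :=
    sup_mono fun c hc => List.mem_append_left _ hc
  have hB := hb A' fun l hl => List.mem_append_right _ hl
  have hD := hb A fun l hl => List.mem_append_left _ hl
  have e1 := rk_sp (rows ent (cols A A') A' ++ rows unit (cols A A') A)
  have e2 := rk_sp (rows ent (cols A A') A')
  have e3 := rk_sp (rows ent (cols A A') A)
  rw [← h] at e1 e2 e3
  rw [sp_append, sp_rows ent bd bd_apply, sp_rows unit sg sg_apply, hK, ← Submodule.map_sup,
    rk_ph (sup_le hB hA), rk_sup, sup_bot_eq] at e1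
  rw [sp_rows ent bd bd_apply, rk_ph hB] at e2
  rw [sp_rows ent bd bd_apply, rk_ph hD, rk_map, Submodule.comap_bot] at e3
  have hle : (sup {l | l ∈ A'}).map (lin bd) ≤ LinearMap.ker (lin (bd (ι := ℕ))) := by
    rintro _ ⟨x, hx, rfl⟩
    rw [LinearMap.mem_ker, map_lin]
    exact map_zero' (fun l _ => by rw [lin_sg, bd_bd]) hx
  rw [rk_add _ hle, ← e2, ← e3] at e1
  unfold hvr hv
  generalize rk (sup {l | l ∈ A} ⊓ LinearMap.ker (lin bd)) ((sup {l | l ∈ A'}).map (lin bd)) = x
    at e1 ⊢
  induction x using ENat.recTopCoe with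
  | top => simp at e1
  | coe x =>
    norm_cast at e1 ⊢
    simp only
    omega

end YHom

theorem homR (h : RkQ) : HomR := by
  obtain ⟨rq, h1, h2⟩ := h
  exact ⟨YHom.hv rq, YHom.rpt_hv h1, fun A A' => @YHom.gen cQ rq h2 A A'⟩

end Pool.Agent.Lib.MP_837412_lc.K.Y
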