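import Pool.Agent.Lib.MP_837412_lc.YSt

/-!
Two paths that refine the same order types can be run through at the same time.
-/

namespace Pool.Agent.Lib.MP_837412_lc.K.Y

open Set Function Filter Topology
open Pool.Agent.Shared.Mod2 (I)

set_option maxHeartbeats 400000

namespace YJoin

variable {ι κ κ' : Type}

lemma fix [Fintype κ] {f x : κ → ℝ} (π : Equiv.Perm κ) (h : ∀ i j, f i < f j → x i < x j)
    (h' : ∀ i j, f i < f j → x (π i) < x (π j)) (i : κ) : f (π i) = f i := by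
  have le : ∀ i, f (π i) ≤ f i := fun i => by
    by_contra! hi
    have : ¬ MapsTo π {j | f i < f j} {j | f i < f j} := fun m => by
      simpa using Equiv.Perm.perm_symm_mapsTo_of_mapsTo π m hi
    simp only [MapsTo, mem_ofPred_eq, not_forall, not_lt] at this
    obtain ⟨j, j1, j2⟩ := this
    exact (h' i j j1).not_gt (h _ _ (j2.trans_lt hi))
  exact (Finset.sum_eq_sum_iff_of_le fun i _ => le i).1 (Equiv.sum_comp π f) i (Finset.mem_univ i)

lemma dn_trans {d : κ → ℂ} {d' : κ' → ℂ} {x : ι → ℂ} {ε : κ ≃ κ'} {f : κ' ≃ ι}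
    (h : Dn d (d' ∘ ε)) (h' : Dn d' (x ∘ f)) : Dn d (x ∘ ε.trans f) := fun i j =>
  ⟨fun a => (h' _ _).1 ((h i j).1 a), fun a => (h' _ _).2 ((h i j).2 a)⟩

lemma mix_lt {r : I} {a b a' b' : ℝ} (h : a < b) (h' : a' < b') :
    (1 - r) * a + r * a' < (1 - r) * b + r * b' := by
  rcases eq_or_lt_of_le r.2.1 with e | e
  · rw [← e]; linarith
  · nlinarith [mul_nonneg (sub_nonneg.2 r.2.2) (sub_pos.2 h).le, mul_pos e (sub_pos.2 h')]

lemma mix_inj {d : κ → ℂ} (hd : Injective d) {x y : ι → ℂ} {e : κ ≃ ι} (h : Dn d (x ∘ e))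
    (h' : Dn d (y ∘ e)) (r : I) : Injective fun i => (1 - (r : ℝ)) * x i + (r : ℝ) * y i := by
  intro i j a
  obtain ⟨i, rfl⟩ := e.surjective i
  obtain ⟨j, rfl⟩ := e.surjective j
  have e1 : (1 - r) * (x (e i)).re + r * (y (e i)).re = (1 - r) * (x (e j)).re + r * (y (e j)).re := by
    simpa using congrArg Complex.re a
  have e2 : (1 - r) * (x (e i)).im + r * (y (e i)).im = (1 - r) * (x (e j)).im + r * (y (e j)).im := by
    simpa using congrArg Complex.im a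
  refine congrArg e (hd (Complex.ext ?_ ?_))
  · rcases lt_trichotomy (d i).re (d j).re with c | c | c
    exacts [absurd e1 (mix_lt ((h i j).1 c) ((h' i j).1 c)).ne, c,
      absurd e1 (mix_lt ((h j i).1 c) ((h' j i).1 c)).ne']
  · rcases lt_trichotomy (d i).im (d j).im with c | c | c
    exacts [absurd e2 (mix_lt ((h i j).2 c) ((h' i j).2 c)).ne, c,
      absurd e2 (mix_lt ((h j i).2 c) ((h' j i).2 c)).ne']

lemma mono {τ : ℕ → ℝ} {n : ℕ} (h : ∀ a < n, τ a < τ (a + 1)) {j k : ℕ} (h1 : j ≤ k)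
    (h2 : k ≤ n) : τ j ≤ τ k := by
  induction k, h1 using Nat.le_induction with
  | base => exact le_rfl
  | succ k _ ih => exact (ih (by omega)).trans (h k h2).le

variable [Fintype ι] (h : DnU)
include h

lemma const_e {d : κ → ℂ} (hd : Injective d) {a : ℝ → ι → ℂ} (ha : Continuous a) {x y : ℝ}
    (hxy : x ≤ y) (H : ∀ s ∈ Icc x y, ∃ e : κ ≃ ι, Dn d (a s ∘ e)) :
    ∃ e : κ ≃ ι, ∀ s ∈ Icc x y, Dn d (a s ∘ e) := by
  obtain ⟨e, he⟩ := H x (left_mem_Icc.2 hxy)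
  have : Finite κ := Finite.of_equiv _ e.symm
  have o : ∀ f : κ ≃ ι, IsOpen {s | Dn d (a s ∘ f)} := fun f => by
    simp only [Dn, ofPred_forall, ofPred_and, comp_apply]
    exact isOpen_iInter_of_finite fun i => isOpen_iInter_of_finite fun j =>
      (isOpen_iInter_of_finite fun _ => isOpen_lt (by fun_prop) (by fun_prop)).inter
        (isOpen_iInter_of_finite fun _ => isOpen_lt (by fun_prop) (by fun_prop))
  refine ⟨e, isPreconnected_Icc.subset_left_of_subset_union (o e)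
    (isOpen_biUnion (s := {f | f ≠ e}) fun f _ => o f) (disjoint_left.2 fun s a b => ?_)
    (fun s hs => ?_) ⟨x, left_mem_Icc.2 hxy, he⟩⟩
  · obtain ⟨f, f1, f2⟩ := mem_iUnion₂.1 b
    exact f1 (h _ _ _ _ _ _ hd f2 a)
  · obtain ⟨f, hf⟩ := H s hs
    by_cases c : f = e
    · exact Or.inl (c ▸ hf)
    · exact Or.inr (mem_iUnion₂.2 ⟨f, c, hf⟩)

lemma step {d : κ → ℂ} {d' : κ' → ℂ} (hd : Injective d) (hd' : Injective d')
    (hr : (∃ ε : κ ≃ κ', Dn d (d' ∘ ε)) ∨ ∃ ε : κ' ≃ κ, Dn d' (d ∘ ε)) {x y : ι → ℂ} {e : κ ≃ ι}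
    {f f' : κ' ≃ ι} (h1 : Dn d (x ∘ e)) (h2 : Dn d (y ∘ e)) (h3 : Dn d' (x ∘ f))
    (h4 : Dn d' (y ∘ f')) : f = f' := by
  rcases hr with ⟨ε, a⟩ | ⟨ε, a⟩
  · have := (h _ _ _ _ _ _ hd (dn_trans a h3) h1).trans (h _ _ _ _ _ _ hd h2 (dn_trans a h4))
    refine Equiv.ext fun i => ?_
    simpa using congrArg (fun g : κ ≃ ι => g (ε.symm i)) this
  · exact (h _ _ _ _ _ _ hd' h3 (dn_trans a h1)).trans (h _ _ _ _ _ _ hd' (dn_trans a h2) h4)

end YJoin

open YJoin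

theorem dnU : DnU := by
  intro ι κ _ d c e e' hd h h'
  let _ := Fintype.ofEquiv _ e.symm
  let π : Equiv.Perm κ := e'.trans e.symm
  have a : ∀ i, e (π i) = e' i := fun i => e.apply_symm_apply _
  refine Equiv.ext fun i => ?_
  rw [← a, hd (Complex.ext
    (fix (x := fun i => (c (e i)).re) π (fun i j => (h i j).1)
      (fun i j => by simp only [a]; exact (h' i j).1) i)
    (fix (x := fun i => (c (e i)).im) π (fun i j => (h i j).2)
      (fun i j => by simp only [a]; exact (h' i j).2) i))]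

theorem joinY (h : DnU) : JoinS := by
  rintro ι _ a b T t ha hb h0 hT ⟨τ, t0, t1, t2⟩ ⟨τ', s0, s1, s2⟩ rfl
  obtain ⟨n, hn⟩ : ∃ n, T.length = n + 1 := Nat.exists_eq_succ_of_ne_zero fun e => by
    rw [e, t0] at t1; exact zero_ne_one t1
  have key : ∀ k < T.length, ∃ e : Fin (T.getD k []).length ≃ ι,
      (∀ s ∈ Icc (τ k) (τ (k + 1)), Dn (pts (T.getD k [])) (a s ∘ e)) ∧
      ∀ s ∈ Icc (τ' k) (τ' (k + 1)), Dn (pts (T.getD k [])) (b s ∘ e) := fun k hk => by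
    induction k with
    | zero =>
      obtain ⟨e, he⟩ := const_e h (hT 0 hk).1 ha (t2 0 hk).1.le (t2 0 hk).2
      obtain ⟨e', he'⟩ := const_e h (hT 0 hk).1 hb (s2 0 hk).1.le (s2 0 hk).2
      have a1 := he _ (left_mem_Icc.2 (t2 0 hk).1.le)
      have a2 := he' _ (left_mem_Icc.2 (s2 0 hk).1.le)
      rw [t0, h0] at a1
      rw [s0] at a2
      obtain rfl := h _ _ _ _ _ _ (hT 0 hk).1 a1 a2
      exact ⟨e, he, he'⟩
    | succ k ih =>
      have hk' : k < T.length := by omega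
      obtain ⟨e, e1, e2⟩ := ih hk'
      obtain ⟨f, hf⟩ := const_e h (hT _ hk).1 ha (t2 _ hk).1.le (t2 _ hk).2
      obtain ⟨f', hf'⟩ := const_e h (hT _ hk).1 hb (s2 _ hk).1.le (s2 _ hk).2
      obtain rfl := step h (hT k hk').1 (hT _ hk).1 ((hT k hk').2 hk)
        (e1 _ (right_mem_Icc.2 (t2 k hk').1.le)) (e2 _ (right_mem_Icc.2 (s2 k hk').1.le))
        (hf _ (left_mem_Icc.2 (t2 _ hk).1.le)) (hf' _ (left_mem_Icc.2 (s2 _ hk).1.le))
      exact ⟨f, hf, hf'⟩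
  let W : Set (ℝ × ℝ) := {x | x.1 ∈ Icc (0 : ℝ) 1 ∧ x.2 ∈ Icc (0 : ℝ) 1 ∧ ∀ r : I,
    Injective fun i => (1 - (r : ℝ)) * a x.1 i + (r : ℝ) * b x.2 i}
  have sub : ∀ {τ : ℕ → ℝ}, τ 0 = 0 → τ T.length = 1 → (∀ k < T.length, τ k < τ (k + 1)) →
      ∀ k < T.length, Icc (τ k) (τ (k + 1)) ⊆ Icc 0 1 := fun a b c k hk =>
    Icc_subset_Icc (a ▸ mono c (Nat.zero_le k) hk.le) (b ▸ mono c hk le_rfl)
  have seg : ∀ k < T.length, JoinedIn W (τ k, τ' k) (τ (k + 1), τ' (k + 1)) := fun k hk => by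
    obtain ⟨e, e1, e2⟩ := key k hk
    refine .of_segment_subset ((((convex_Icc (τ k) (τ (k + 1))).prod
      (convex_Icc (τ' k) (τ' (k + 1)))).segment_subset
      ⟨left_mem_Icc.2 (t2 k hk).1.le, left_mem_Icc.2 (s2 k hk).1.le⟩
      ⟨right_mem_Icc.2 (t2 k hk).1.le, right_mem_Icc.2 (s2 k hk).1.le⟩).trans fun x hx => ?_)
    exact ⟨sub t0 t1 (fun k hk => (t2 k hk).1) k hk hx.1,
      sub s0 s1 (fun k hk => (s2 k hk).1) k hk hx.2,
      mix_inj (hT k hk).1 (e1 _ hx.1) (e2 _ hx.2)⟩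
  have all : ∀ k < T.length, JoinedIn W (τ 0, τ' 0) (τ (k + 1), τ' (k + 1)) := fun k hk => by
    induction k with
    | zero => exact seg 0 hk
    | succ k ih => exact (ih (by omega)).trans (seg _ hk)
  obtain ⟨γ, hγ⟩ := all n (by omega)
  obtain ⟨e, e1, e2⟩ := key (T.length - 1) (by omega)
  have l : T.length - 1 + 1 = T.length := by omega
  have a1 := e1 _ (right_mem_Icc.2 (t2 _ (by omega)).1.le)
  have a2 := e2 _ (right_mem_Icc.2 (s2 _ (by omega)).1.le)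
  rw [l, t1] at a1
  rw [l, s1] at a2
  refine ⟨fun u => (γ u).1, fun u => (γ u).2, e, by fun_prop, by fun_prop, ?_, ?_, ?_, ?_, a1, a2,
    hγ⟩
  · simp [t0]
  · simp [s0]
  · simp [← hn, t1]
  · simp [← hn, s1]

end Pool.Agent.Lib.MP_837412_lc.K.Y
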