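import Pool.Agent.Lib.MP_837412_lc.YSt
import Pool.Agent.Lib.MP_837412_lc.Once

/-!
Polynomials given by lists of coefficients.
-/

namespace Pool.Agent.Lib.MP_837412_lc.K.Y

open Set Function MvPolynomial

namespace YPl

variable {σ : Type} [Fintype σ] {m : ℕ}

lemma sum_ix {A : Type} [AddCommMonoid A] (f : ℕ → A) :
    ∑ i : σ, f (ix i) = ∑ i ∈ Finset.range (Fintype.card σ), f i :=
  (Equiv.sum_comp (Fintype.equivFin σ) fun i => f i).trans (Fin.sum_univ_eq_sum_range _ _)

lemma prod_ix (f : ℕ → ℝ) : ∏ i : σ, f (ix i) = ∏ i ∈ Finset.range (Fintype.card σ), f i :=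
  (Equiv.prod_comp (Fintype.equivFin σ) fun i => f i).trans (Fin.prod_univ_eq_prod_range _ _)

/-- The exponent with a given number. -/
noncomputable def ex (σ : Type) [Fintype σ] (m n : ℕ) : σ →₀ ℕ :=
  Finsupp.equivFunOnFinite.symm fun i => dg m n (ix i)

lemma ex_sum (n : ℕ) :
    (ex σ m n).sum (fun _ => id) = ∑ i ∈ Finset.range (Fintype.card σ), dg m n i := by
  rw [Finsupp.sum_fintype _ _ fun _ => rfl]
  exact sum_ix (dg m n)

lemma ex_inj {n n' : ℕ} (h : n < m ^ Fintype.card σ) (h' : n' < m ^ Fintype.card σ)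
    (e : ex σ m n = ex σ m n') : n = n' := by
  have : finFunctionFinEquiv.symm ⟨n, h⟩ = finFunctionFinEquiv.symm ⟨n', h'⟩ := by
    funext b
    obtain ⟨i, rfl⟩ := (Fintype.equivFin σ).surjective b
    exact Fin.ext (DFunLike.congr_fun e i)
  exact congrArg Fin.val (finFunctionFinEquiv.symm.injective this)

lemma ex_surj {α : σ →₀ ℕ} (h : ∀ i, α i < m) : ∃ n < m ^ Fintype.card σ, ex σ m n = α := by
  obtain ⟨n, e⟩ := (finFunctionFinEquiv (m := m)).symm.surjective
    fun b => ⟨α ((Fintype.equivFin σ).symm b), h _⟩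
  refine ⟨n, n.2, Finsupp.ext fun i => ?_⟩
  have := congrArg Fin.val (congrFun e (Fintype.equivFin σ i))
  rw [Equiv.symm_apply_apply] at this
  exact this

lemma deg_pl (hm : 0 < m) (co : ℕ → ℝ) : (pl σ m co).totalDegree < m := by
  refine (totalDegree_finsetSum_le (d := m - 1) fun n _ => ?_).trans_lt (by omega)
  split_ifs with h
  · exact (totalDegree_monomial_le _ _).trans ((ex_sum n).trans_le (by omega))
  · simp

lemma coeff_pl [DecidableEq σ] (co : ℕ → ℝ) (α : σ →₀ ℕ) : coeff α (pl σ m co) =
    ∑ n ∈ Finset.range (m ^ Fintype.card σ),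
      if ∑ i ∈ Finset.range (Fintype.card σ), dg m n i < m ∧ ex σ m n = α then co n else 0 := by
  rw [pl, coeff_sum]
  refine Finset.sum_congr rfl fun n _ => ?_
  by_cases h : ∑ i ∈ Finset.range (Fintype.card σ), dg m n i < m
  · simp only [h, if_true, true_and, coeff_monomial]
    rfl
  · simp [h]

lemma onto [DecidableEq σ] {p : MvPolynomial σ ℝ} (h : p.totalDegree < m) :
    pl σ m (fun n => coeff (ex σ m n) p) = p := by
  ext α
  rw [coeff_pl]
  by_cases a : α ∈ p.support
  · obtain ⟨n, b, rfl⟩ := ex_surj (α := α) fun i =>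
      ((monomial_le_degreeOf i a).trans (degreeOf_le_totalDegree p i)).trans_lt h
    rw [Finset.sum_eq_single_of_mem n (Finset.mem_range.2 b) fun n' c d =>
      if_neg fun e => d (ex_inj (Finset.mem_range.1 c) b e.2), 
      if_pos ⟨(ex_sum n).symm.trans_lt ((le_totalDegree a).trans_lt h), rfl⟩]
  · rw [notMem_support_iff.1 a]
    refine Finset.sum_eq_zero fun n _ => ?_
    split_ifs with e
    · rw [e.2, notMem_support_iff.1 a]
    · rfl

variable {X : Type} [TopologicalSpace X]

lemma cont_sum {q : X → MvPolynomial σ ℂ} {d : ℕ} (hd : ∀ x, (q x).totalDegree ≤ d)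
    (hq : ∀ α, Continuous fun x => coeff α (q x)) {f : (σ →₀ ℕ) → X → ℂ}
    (hf : ∀ g, Continuous (f g)) :
    Continuous fun x => ∑ g ∈ (q x).support, coeff g (q x) * f g x := by
  refine (continuous_finsetSum (box σ d) (f := fun g x => coeff g (q x) * f g x)
    fun g _ => (hq g).mul (hf g)).congr fun x => ?_
  exact (Finset.sum_subset (support_subset_box (hd x)) fun g _ hg => by
    rw [notMem_support_iff.1 hg, zero_mul]).symm

lemma cont_NF {q : X → σ → MvPolynomial σ ℂ} {d : ℕ} (hd : ∀ x i, (q x i).totalDegree ≤ d)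
    (hq : ∀ i α, Continuous fun x => coeff α (q x i)) (n : ℕ) :
    ∀ β a, Continuous fun x => NF m (q x) n β a := by
  induction n with
  | zero => intro β a; simp only [NF]; exact continuous_const
  | succ n ih =>
    intro β a
    by_cases h : ∃ i, m ≤ β i
    · simp only [NF, dif_pos h]
      exact cont_sum (fun x => hd x _) (hq _) fun g => ih _ a
    · simp only [NF, dif_neg h]
      exact continuous_const

lemma cont_chi [DecidableEq σ] {p : X → MvPolynomial σ ℂ} (hd : ∀ x, (p x).totalDegree < m)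
    (hp : ∀ α, Continuous fun x => coeff α (p x)) (l w : ℂ) :
    Continuous fun x => (chi (Lam m (p x) l)).eval w := by
  simp only [Lam, chi_lam, Matrix.eval_charpoly]
  refine (continuous_const.sub (continuous_matrix fun a b => ?_)).matrix_det
  refine cont_sum (fun x => deg_Fl (hd x) l) (fun α => ?_) fun g =>
    cont_NF (fun x i => (deg_qq (hd x) l i).le) (fun i α => ?_) _ _ _
  · simp only [Fl, coeff_sub, coeff_C_mul]
    exact continuous_const.sub (continuous_const.mul (hp α))
  · simp only [qq, coeff_add, coeff_C_mul, coeff_pderiv]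
    exact continuous_const.add (continuous_const.mul ((hp _).mul continuous_const))

end YPl

open YPl

theorem plS : PlS := fun σ _ _ m hm => by
  refine ⟨deg_pl hm, fun p h => ⟨_, onto h⟩, fun co x => ?_, fun l w => cont_chi
    (fun co => lt_of_le_of_lt (Finset.sup_mono (support_map_subset _ _)) (deg_pl hm co))
    (fun α => ?_) l w⟩
  · rw [eval_Fl, one_mul, fN, ← sum_ix (σ := σ), ← sum_ix (σ := σ) fun i => ((2 : ℝ) ^ i) ^ (m + 1)]
    congr 1
    · simp [F0, bb, ix, mul_assoc]
    · rw [pl, map_sum]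
      refine Finset.sum_congr rfl fun n _ => ?_
      split_ifs
      · rw [eval_monomial, Finsupp.prod_fintype _ _ fun _ => pow_zero _,
          ← prod_ix (σ := σ) fun i => x i ^ dg m n i]
        rfl
      · simp
  · simp only [cx', coeff_map, coeff_pl, Complex.coe_algebraMap]
    refine Complex.continuous_ofReal.comp (continuous_finsetSum _ fun n _ => ?_)
    split_ifs
    exacts [continuous_apply n, continuous_const]

end Pool.Agent.Lib.MP_837412_lc.K.Y
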