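import Pool.Agent.Lib.MP_837412_lc.YSt
import Pool.Agent.Lib.MP_837412_lc.KReal

/-!
The Betti numbers of a part of a sublevel set as a sum of jumps of the total Betti numbers.
-/

namespace Pool.Agent.Lib.MP_837412_lc.K.Y

open Set KReal

variable [Coef]

theorem realF : RealF := by
  classical
  intro E ι _ _ f S S' v s s' δ A R hδ gap neg inj hA j
  have ac : ∀ a b, a ≤ b → b ≤ 0 → (∀ i, s i → v i ∉ Icc a b) →
      hs ({y | f y < b} ∩ S) ∅ j = hs ({y | f y < a} ∩ S) ∅ j := fun a b ab hb h =>
    (R.ac a b ab hb h).left (empty_subset _) (sub f _ ab) j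
  have key : ∀ (B : Finset ι) (t : ℝ), t ≤ 0 → (∀ i, s i → v i ≠ t) →
      (∀ i, i ∈ B ↔ s i ∧ v i < t) → hs ({y | f y < t} ∩ S) ∅ j +
        ∑ i ∈ B, hs {y | f y < v i - δ} ∅ j = ∑ i ∈ B, hs {y | f y < v i + δ} ∅ j := by
    intro B
    induction B using Finset.induction_on_max_value v with
    | empty =>
      intro t ht ne hB
      obtain ⟨a, ha⟩ := (finite_range v).bddBelow
      rw [Finset.sum_empty, Finset.sum_empty, add_zero, ac (min a t) t (min_le_right _ _) ht
        fun i hi h => by simpa using (hB i).2 ⟨hi, h.2.lt_of_ne (ne i hi)⟩,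
        R.bot _ (min_le_of_right_le ht) fun i => min_le_of_left_le (ha ⟨i, rfl⟩), empty_inter]
      exact Ac.refl ∅ j
    | insert a B ha mx ih =>
      intro t ht ne hB
      obtain ⟨a1, a2⟩ := (hB a).1 (Finset.mem_insert_self _ _)
      have a3 := neg a (a2.trans_le ht)
      have up : ∀ i, s i → v i < t → v i ≤ v a := fun i h1 h2 => by
        rcases Finset.mem_insert.1 ((hB i).2 ⟨h1, h2⟩) with rfl | h
        exacts [le_rfl, mx i h]
      have e1 : hs ({y | f y < t} ∩ S) ∅ j = hs ({y | f y < v a + δ} ∩ S) ∅ j := by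
        rcases le_total t (v a + δ) with h | h
        · exact (ac _ _ h a3.le fun i _ b => (gap a i (a2.trans_le b.1)).not_ge b.2).symm
        · exact ac _ _ h ht fun i hi b => by linarith [up i hi (b.2.lt_of_ne (ne i hi)), b.1]
      have l : v a - δ ≤ v a + δ := by linarith
      have e2 := (R.ac' _ _ l a3.le fun i hi b => by
        rcases (R.sep a i a1 hi).lt_or_gt with h | h
        · exact (gap a i h).not_ge b.2
        · linarith [gap i a h, b.1]).left (empty_subset _) (sub f _ l) j
      have e3 := ih (v a - δ) (l.trans a3.le)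
        (fun i _ h => by linarith [gap i a (by linarith)]) fun i => ⟨fun h => by
          have b := ((hB i).1 (Finset.mem_insert_of_mem h)).1
          exact ⟨b, by
            linarith [gap i a ((mx i h).lt_of_ne fun c => ha (inj i a b a1 c ▸ h))]⟩,
          fun h => (Finset.mem_insert.1 ((hB i).2 ⟨h.1, by linarith [h.2]⟩)).resolve_left
            fun c => by linarith [c ▸ h.2]⟩
      rw [Finset.sum_insert ha, Finset.sum_insert ha, ← e3, e1, split R a3.le,
        split R (l.trans a3.le), e2]
      ac_rfl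
  refine ⟨key A 0 le_rfl (fun i hi => R.ne i (.inl hi)) hA, ?_⟩
  obtain ⟨a, a1, a2⟩ := below v 0
  rw [ac a 0 a1.le le_rfl fun i hi h => (a2 i (h.2.lt_of_ne (R.ne i (.inl hi)))).not_ge h.1]
  exact (WithTop.add_ne_top.1 (split R a1.le j ▸ R.fin a a1.le
    (fun i h => (a2 i (h.trans_lt a1)).ne h) j)).1

end Pool.Agent.Lib.MP_837412_lc.K.Y
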