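import Pool.Agent.Lib.MP_837412_lc.YSt

/-!
The rational rank of a table of integers on the machine: elimination column by column.
-/

namespace Pool.Agent.Lib.MP_837412_lc.K.Y

open Set

namespace YRkQ

variable {K L : Type} [Field K] [Field L]

/-- A row operation on the first `W` positions. -/
def xr (W j : ℕ) (p v : List K) : List K :=
  (List.range W).map fun i => v.getD i 0 - v.getD j 0 / p.getD j 0 * p.getD i 0

open Classical in
/-- Clear the column `j`. -/
noncomputable def cl (W : ℕ) (s : ℕ × List (List K)) (j : ℕ) : ℕ × List (List K) :=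
  (s.2.find? fun v => decide (v.getD j 0 ≠ 0)).elim s fun p => (s.1 + 1, s.2.map (xr W j p))

/-- The state after `i` columns. -/
noncomputable def st (W : ℕ) (V : List (List K)) (i : ℕ) : ℕ × List (List K) :=
  (List.range i).foldl (cl W) (0, V)

/-- A row as a vector. -/
def vec (v : List K) : ℕ → K := fun j => v.getD j 0

/-- The span of the rows. -/
def sp (V : List (List K)) : Submodule K (ℕ → K) := Submodule.span K {x | ∃ v ∈ V, x = vec v}

instance (V : List (List K)) : FiniteDimensional K (sp V) :=
  FiniteDimensional.span_of_finite K ((V.finite_toSet.image vec).subset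
    fun _ ⟨v, a, b⟩ => ⟨v, a, b.symm⟩)

lemma st_succ (W : ℕ) (V : List (List K)) (i : ℕ) : st W V (i + 1) = cl W (st W V i) i := by
  rw [st, List.range_succ, List.foldl_append]; rfl

lemma vec_xr {W : ℕ} (j : ℕ) {p v : List K} (hp : p.length ≤ W) (hv : v.length ≤ W) :
    vec (xr W j p v) = vec v - (vec v j / vec p j) • vec p := by
  funext i
  simp only [vec, Pi.sub_apply, Pi.smul_apply, smul_eq_mul]
  by_cases h : i < W
  · simp [xr, h]
  · rw [List.getD_eq_default _ _ (by simp [xr]; omega), List.getD_eq_default v _ (by omega),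
      List.getD_eq_default p (n := i) _ (by omega)]
    simp

lemma cl_cases (W : ℕ) (s : ℕ × List (List K)) (j : ℕ) :
    (cl W s j = s ∧ ∀ v ∈ s.2, vec v j = 0) ∨ ∃ p ∈ s.2, vec p j ≠ 0 ∧
      cl W s j = (s.1 + 1, s.2.map (xr W j p)) := by
  classical
  rcases hp : s.2.find? fun v => decide (v.getD j 0 ≠ 0) with _ | p
  · exact Or.inl ⟨by rw [cl, hp]; rfl, fun v hv => by
      simpa [vec] using List.find?_eq_none.1 hp v hv⟩
  · exact Or.inr ⟨p, List.mem_of_find?_eq_some hp, by simpa [vec] using List.find?_some hp,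
      by rw [cl, hp]; rfl⟩

lemma st_inv {W : ℕ} {V : List (List K)} (hV : ∀ v ∈ V, v.length ≤ W) (i : ℕ) :
    (st W V i).1 ≤ i ∧ (st W V i).2.length = V.length ∧ (∀ v ∈ (st W V i).2, v.length ≤ W) ∧
      (∀ v ∈ (st W V i).2, ∀ j < i, vec v j = 0) ∧
      (st W V i).1 + Module.finrank K (sp (st W V i).2) = Module.finrank K (sp V) := by
  induction i with
  | zero => exact ⟨le_rfl, rfl, hV, fun _ _ _ h => absurd h (Nat.not_lt_zero _), zero_add _⟩
  | succ i ih =>
    rw [st_succ]
    generalize st W V i = s at *
    obtain ⟨a1, a2, a3, a4, a5⟩ := ih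
    rcases cl_cases W s i with ⟨h, h0⟩ | ⟨p, hm, h1, h⟩ <;> rw [h]
    · refine ⟨by omega, a2, a3, fun v hv j hj => ?_, a5⟩
      rcases Nat.lt_succ_iff_lt_or_eq.1 hj with hj | rfl
      exacts [a4 v hv j hj, h0 v hv]
    · have z : ∀ v ∈ s.2.map (xr W i p), ∀ j < i + 1, vec v j = 0 := fun v hv j hj => by
        obtain ⟨u, hu, rfl⟩ := List.mem_map.1 hv
        rw [vec_xr i (a3 p hm) (a3 u hu), Pi.sub_apply, Pi.smul_apply, smul_eq_mul]
        rcases Nat.lt_succ_iff_lt_or_eq.1 hj with hj | rfl
        · rw [a4 u hu j hj, a4 p hm j hj, mul_zero, sub_zero]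
        · rw [div_mul_cancel₀ _ h1, sub_self]
      refine ⟨by omega, by simpa using a2, fun v hv => ?_, z, ?_⟩
      · obtain ⟨u, -, rfl⟩ := List.mem_map.1 hv
        simp [xr]
      have hn : vec p ∉ sp (s.2.map (xr W i p)) := fun h => by
        have hk : sp (s.2.map (xr W i p)) ≤
            LinearMap.ker (LinearMap.proj (R := K) (φ := fun _ : ℕ => K) i) := by
          refine Submodule.span_le.2 ?_
          rintro _ ⟨v, hv, rfl⟩
          exact z v hv i (Nat.lt_succ_self i)
        exact h1 (hk h)
      have hp' : vec p ∈ sp s.2 := Submodule.subset_span ⟨p, hm, rfl⟩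
      have he : sp s.2 = sp (s.2.map (xr W i p)) ⊔ Submodule.span K {vec p} := by
        refine le_antisymm (Submodule.span_le.2 ?_)
          (sup_le (Submodule.span_le.2 ?_) (Submodule.span_le.2 (singleton_subset_iff.2 hp')))
        · rintro _ ⟨v, hv, rfl⟩
          have e : vec v = vec (xr W i p v) + (vec v i / vec p i) • vec p := by
            rw [vec_xr i (a3 p hm) (a3 v hv), sub_add_cancel]
          rw [e]
          exact Submodule.add_mem_sup (Submodule.subset_span ⟨_, List.mem_map_of_mem hv, rfl⟩)
            (Submodule.smul_mem _ _ (Submodule.mem_span_singleton_self _))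
        · rintro _ ⟨w, hw, rfl⟩
          obtain ⟨v, hv, rfl⟩ := List.mem_map.1 hw
          rw [vec_xr i (a3 p hm) (a3 v hv)]
          exact Submodule.sub_mem _ (Submodule.subset_span ⟨v, hv, rfl⟩)
            (Submodule.smul_mem _ _ hp')
      have := Submodule.finrank_sup_add_finrank_inf_eq (sp (s.2.map (xr W i p)))
        (Submodule.span K {vec p})
      rw [← he, disjoint_iff.1 (Submodule.disjoint_span_singleton_of_notMem hn), finrank_bot,
        finrank_span_singleton fun e : vec p = 0 => h1 (congrFun e i)] at this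
      dsimp only
      omega

lemma st_rank {W : ℕ} {V : List (List K)} (hV : ∀ v ∈ V, v.length ≤ W) :
    (st W V W).1 = Module.finrank K (sp V) := by
  obtain ⟨-, -, a3, a4, a5⟩ := st_inv hV W
  have : sp (st W V W).2 = ⊥ := by
    refine Submodule.span_eq_bot.2 ?_
    rintro _ ⟨v, hv, rfl⟩
    funext j
    rcases lt_or_ge j W with h | h
    exacts [a4 v hv j h, List.getD_eq_default _ _ ((a3 v hv).trans h)]
  rwa [this, finrank_bot] at a5

lemma getD_map (φ : K →+* L) (v : List K) (j : ℕ) : (v.map φ).getD j 0 = φ (v.getD j 0) := by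
  rw [← List.getD_map (f := φ), map_zero]

open Classical in
lemma st_map (φ : K →+* L) (W : ℕ) (V : List (List K)) (i : ℕ) :
    st W (V.map (List.map φ)) i = ((st W V i).1, (st W V i).2.map (List.map φ)) := by
  induction i with
  | zero => rfl
  | succ i ih =>
    rw [st_succ, st_succ, ih]
    generalize st W V i = s
    have e : (fun v : List L => decide (v.getD i 0 ≠ 0)) ∘ List.map φ =
        fun v => decide (v.getD i 0 ≠ 0) :=
      funext fun v => decide_eq_decide.2 (by rw [getD_map, map_ne_zero])
    simp only [cl]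
    rw [List.find?_map, e]
    cases s.2.find? _ with
    | none => rfl
    | some p =>
      simp only [Option.map_some, Option.elim_some, List.map_map]
      refine congrArg _ (List.map_congr_left fun v _ => ?_)
      simp only [Function.comp_def, xr, getD_map, List.map_map, map_sub, map_mul, map_div₀]

lemma len_le {β : Type} {V : List (List β)} : ∀ v ∈ V, v.length ≤ V.flatten.length :=
  fun _ h => (List.sublist_flatten_of_mem h).length_le

lemma st_rpt : RPT fun V : List (List ℝ) => st V.flatten.length V V.flatten.length := by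
  refine RPT.seq (u := fun V : List (List ℝ) => st V.flatten.length V)
    (f := fun V s i => cl V.flatten.length s i)
    (RPT.sub (f := fun p : List (List ℝ) × (ℕ × List (List ℝ)) × Un =>
      cl p.1.flatten.length p.2.1 p.2.2.val) ?_) (by fun_prop) (by fun_prop)
    (RPT.of_eq (f := fun V : List (List ℝ) => (0, V)) (by fun_prop) fun _ => rfl)
    (fun V i _ => st_succ _ V i)
    (B := fun V => 2 * V.flatten.length + 1 + V.length * (2 * (V.flatten.length * 3) + 1))
    (by fun_prop) fun V i hi => ?_
  · unfold cl xr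
    refine RPT.elim (RPT.find? (by fun_prop) (by fun_prop)) (by fun_prop)
      (RPT.pair (by fun_prop) (RPT.map (by fun_prop)
        (RPT.map_range (by fun_prop) (by fun_prop) (by fun_prop))))
  · obtain ⟨a1, a2, a3, -⟩ := st_inv (len_le (V := V)) i
    have k1 := rsz_nat_le (st V.flatten.length V i).1
    have k2 := rsz_list_le (B := V.flatten.length * 3) fun v hv =>
      (rsz_list_le (B := 1) fun x _ => (rsz_real x).le).trans (Nat.mul_le_mul_right 3 (a3 v hv))
    rw [a2] at k2
    rw [rsz_prod]
    omega

end YRkQ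

open YRkQ in
theorem rkQ : RkQ := by
  refine ⟨_, (st_rpt.comp' (f := fun V : List (List ℤ) => V.map (List.map fun z : ℤ => (z : ℝ)))
    (by fun_prop)).fst, fun V => ?_⟩
  have e : V.map (List.map fun z : ℤ => (z : ℝ)) =
      (V.map (List.map fun z : ℤ => (z : ℚ))).map (List.map (Rat.castHom ℝ)) := by
    simp [Function.comp_def]
  have h : ∀ v ∈ V.map (List.map fun z : ℤ => (z : ℚ)),
      v.length ≤ (V.map (List.map fun z : ℤ => (z : ℝ))).flatten.length := fun v hv => by
    have := len_le _ (e ▸ List.mem_map_of_mem (f := List.map (Rat.castHom ℝ)) hv)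
    rwa [List.length_map] at this
  generalize (V.map (List.map fun z : ℤ => (z : ℝ))).flatten.length = W at h ⊢
  have g : ∀ v : List ℤ,
      YRkQ.vec (v.map fun z : ℤ => (z : ℚ)) = fun j => ((v.getD j 0 : ℤ) : ℚ) := fun v =>
    funext fun j => by rw [YRkQ.vec, ← List.getD_map (f := fun z : ℤ => (z : ℚ)), Int.cast_zero]
  rw [e, st_map, st_rank h, YRkQ.sp]
  refine congrArg (fun S : Set (ℕ → ℚ) => Module.finrank ℚ (Submodule.span ℚ S)) ?_
  ext x
  simp only [mem_ofPred_eq, List.mem_map, exists_exists_and_eq_and, g]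

end Pool.Agent.Lib.MP_837412_lc.K.Y
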