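import Pool.Agent.Lib.MP_837412_lc.YSt
import Pool.Agent.Shared.ExpTime

/-!
A Turing machine that simulates the real machine on integer registers and tries all candidates.
-/

namespace Pool.Agent.Lib.MP_837412_lc.K.Y

open Function
open Pool.Agent.Shared.PolyTime hiding sz
open N487b59b3 (bitEncode delimit)

namespace YSim

section Loop

variable {σ β : Type} [N487b59b3 σ] [N487b59b3 β]

/-- Unbounded iteration until an output appears. -/
lemma loop_run {step : σ → σ} {out : σ → Option β} (hs : PT step) (ho : PT out) :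
    ∃ p : Prog, ∀ n s, (out (step^[n] s)).isSome → ∃ i b T, out (step^[i] s) = some b ∧
      Run p (io (bitEncode s)) (io (bitEncode b)) T := by
  have hF : PT fun s => cond (out s).isSome ([] : List Bool) [true] := by fun_prop
  have hN : PT fun s => cond (out s).isSome s (step s) := by fun_prop
  obtain ⟨pS, qS, hS⟩ := RP.pair hF.raw hN
  obtain ⟨pO, qO, hO⟩ := RP.fstR.post ho
  have body : ∀ s, ∃ T, Run (.seq (.pop 1) (.seq (callAt 0 pS) split)) (st (bitEncode s) [true] [])
      (st (bitEncode (cond (out s).isSome s (step s)))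
        (cond (out s).isSome ([] : List Bool) [true]).reverse []) T := fun s => by
    have h1 : Run (.pop 1) (st (bitEncode s) [true] []) (st (bitEncode s) [] []) 0 :=
      (Run.pop _ _).cast (by simp) le_rfl
    have h2 := (hS s).callAt (a := 0) (by omega) (bitEncode s) [] [] rfl
    rw [update_st_zero] at h2
    have h3 := run_split (delimit (cond (out s).isSome ([] : List Bool) [true]) ++
      bitEncode (cond (out s).isSome s (step s)))
    rw [fstR_delimit, sndR_delimit] at h3
    exact ⟨_, Run.seq h1 (Run.seq h2 h3)⟩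
  have key : ∀ n s, (out (step^[n] s)).isSome → ∃ i T, (out (step^[i] s)).isSome ∧
      Run (.loop 1 (.seq (.pop 1) (.seq (callAt 0 pS) split))) (st (bitEncode s) [true] [])
        (st (bitEncode (step^[i] s)) [] []) T := by
    have fin : ∀ s, (out s).isSome → ∃ i T, (out (step^[i] s)).isSome ∧
        Run (.loop 1 (.seq (.pop 1) (.seq (callAt 0 pS) split))) (st (bitEncode s) [true] [])
          (st (bitEncode (step^[i] s)) [] []) T := fun s h => by
      obtain ⟨T, hT⟩ := body s
      rw [h] at hT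
      exact ⟨0, _, h, Run.loopS (by simp) hT (Run.loopE rfl)⟩
    intro n
    induction n with
    | zero => exact fin
    | succ n ih =>
      intro s h
      cases h' : (out s).isSome with
      | true => exact fin s h'
      | false =>
        obtain ⟨T, hT⟩ := body s
        rw [h'] at hT
        obtain ⟨i, T', h1, h2⟩ := ih (step s) h
        exact ⟨i + 1, _, h1, Run.loopS (by simp) hT h2⟩
  refine ⟨.seq (.push 1 true) (.seq (.loop 1 (.seq (.pop 1) (.seq (callAt 0 pS) split))) pO),
    fun n s h => ?_⟩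
  obtain ⟨i, T, h1, h2⟩ := key n s h
  obtain ⟨b, hb⟩ := Option.isSome_iff_exists.1 h1
  have h3 := hO (step^[i] s)
  simp only [hb, enc_option, Option.toList_some, enc_cons, fstR_delimit] at h3
  rw [io_eq] at h3
  have h4 : Run (.push 1 true) (io (bitEncode s)) (st (bitEncode s) [true] []) 1 :=
    (Run.push 1 true _).cast (by simp [io_eq]) le_rfl
  exact ⟨i, b, _, hb, Run.seq h4 (Run.seq h2 h3)⟩

end Loop

/-- One bit of the description of a list. -/
def upd (b : Bool) (s : List ℕ) : List ℕ :=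
  cond b (lcase s [] fun x xs => (x + 1) :: xs) (0 :: s)

/-- An enumeration of all lists. -/
def cand (n : ℕ) : List ℕ := n.bits.foldr upd []

lemma pt_cand : PT cand := by
  refine PT.foldr_grow (f := fun _ => upd) (s0 := fun _ => []) (by unfold upd; fun_prop)
    (by fun_prop) (by fun_prop) (g := fun _ => 4) (by fun_prop) fun _ s b _ => ?_
  cases b
  · simp [upd, sz_nat]
    omega
  · cases s with
    | nil => simp [upd]
    | cons x xs =>
      have h1 := sz_add_le x 1
      have h2 : Shared.PolyTime.sz 1 = 1 := by simp [sz_nat]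
      simp only [upd, cond_true, lcase_cons, sz_cons]
      omega

lemma cand_bit (b : Bool) {n : ℕ} (h : n ≠ 0) : cand (Nat.bit b n) = upd b (cand n) := by
  rw [cand, Nat.bits_append_bit n b fun e => absurd e h]
  rfl

lemma cand_onto (c : List ℕ) : ∃ n, n ≠ 0 ∧ cand n = c := by
  induction c with
  | nil => exact ⟨1, one_ne_zero, by simp [cand, upd]⟩
  | cons x xs ih =>
    induction x with
    | zero =>
      obtain ⟨n, h1, h2⟩ := ih
      exact ⟨Nat.bit false n, Nat.bit_ne_zero _ h1, by rw [cand_bit _ h1, h2]; rfl⟩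
    | succ x ih' =>
      obtain ⟨n, h1, h2⟩ := ih'
      exact ⟨Nat.bit true n, Nat.bit_ne_zero _ h1, by rw [cand_bit _ h1, h2]; rfl⟩

/-- The value of an instruction on integer registers. -/
def valZ (r : List ℤ) (c : Ins) : ℤ :=
  if c.1 = 0 then 1 else if c.1 = 1 then r.getD c.2.1 0 + r.getD c.2.2 0
  else if c.1 = 2 then r.getD c.2.1 0 - r.getD c.2.2 0 else r.getD c.2.1 0 * r.getD c.2.2 0

lemma valZ_cast (r : List ℤ) (c : Ins) : (valZ r c : ℝ) = Ins.val (r.map (↑)) c := by
  have h : ∀ i, (r.map ((↑) : ℤ → ℝ)).getD i 0 = (r.getD i 0 : ℤ) := fun i => by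
    rw [← List.getD_map r 0 ((↑) : ℤ → ℝ), Int.cast_zero]
  unfold valZ Ins.val
  simp only [h]
  split_ifs <;> simp

/-- The sign of an integer. -/
def sgZ (z : ℤ) : ℤ := if 0 < z then 1 else if z < 0 then -1 else 0

lemma sg_cast (z : ℤ) : sgn (z : ℝ) = sgZ z := by
  unfold sgn sgZ
  rw [sign_apply]
  simp only [Int.cast_pos, Int.cast_lt_zero]
  split_ifs <;> rfl

lemma map_sg (r : List ℤ) : (r.map ((↑) : ℤ → ℝ)).map sgn = r.map sgZ := by
  rw [List.map_map]
  exact List.map_congr_left fun z _ => sg_cast z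

lemma pt_sg : PT sgZ :=
  PT.ite (PT.intLt (.const _) .id') (.const _) (PT.ite (PT.intLt .id' (.const _)) (.const _)
    (.const _))

section Sim

variable {α γ β : Type} (R : α → ℕ → List ℤ → Res γ) (o : γ → Option β)

/-- One step of the search. -/
def stp (s : α × ℕ × List ℤ) : α × ℕ × List ℤ :=
  cond (R s.1 s.2.1 (s.2.2.map sgZ)).1.isSome (s.1, s.2.1 + 1, [])
    (s.1, s.2.1, s.2.2 ++ [valZ s.2.2 (R s.1 s.2.1 (s.2.2.map sgZ)).2])

/-- The output of the search. -/
def outp (s : α × ℕ × List ℤ) : Option β :=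
  (R s.1 s.2.1 (s.2.2.map sgZ)).1.bind fun p => o p.1

variable {R}

lemma reach {a : α} {n : ℕ} {u u' : List ℝ} {c : γ} (h : Go (R a n) u u' c) :
    ∀ r : List ℤ, r.map (↑) = u → ∃ i r' k, (stp R)^[i] (a, n, r) = (a, n, r') ∧
      (R a n (r'.map sgZ)).1 = some (c, k) := by
  induction h with
  | fin h =>
    rintro r rfl
    exact ⟨0, r, _, rfl, by rw [← map_sg, h _ List.prefix_rfl]⟩
  | @step u u' c i h1 _ _ ih =>
    rintro r rfl
    rw [map_sg] at h1
    obtain ⟨j, r', k, h2, h3⟩ := ih (r ++ [valZ r i]) (by simp [valZ_cast])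
    refine ⟨j + 1, r', k, ?_, h3⟩
    rw [iterate_succ_apply, ← h2]
    simp only [stp, h1, Option.isSome_none, cond_false]

variable {o} {F : α → ℕ → Option β}
  (hR : ∀ a n, ∃ u' c, Go (R a n) [] u' c ∧ o c = F a n)
include hR

lemma halts (a : α) (k : ℕ) : ∀ n, (F a (n + k)).isSome →
    ∃ i, (outp R o ((stp R)^[i] (a, n, []))).isSome := by
  induction k with
  | zero =>
    intro n h
    obtain ⟨u', c, h1, h2⟩ := hR a n
    obtain ⟨i, r', k, h3, h4⟩ := reach h1 [] rfl
    refine ⟨i, ?_⟩
    rw [h3]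
    simpa only [outp, h4, Option.bind_some, h2, add_zero] using h
  | succ k ih =>
    intro n h
    obtain ⟨u', c, h1, -⟩ := hR a n
    obtain ⟨i, r', k', h3, h4⟩ := reach h1 [] rfl
    obtain ⟨j, hj⟩ := ih (n + 1) (by rwa [add_assoc, add_comm 1 k])
    refine ⟨j + 1 + i, ?_⟩
    rw [iterate_add_apply, h3, iterate_succ_apply]
    simpa only [stp, h4, Option.isSome_some, cond_true] using hj

lemma inv (a : α) (i : ℕ) : ∃ n r, (stp R)^[i] (a, 0, []) = (a, n, r) ∧
    ∃ u' c, Go (R a n) (r.map (↑)) u' c ∧ o c = F a n := by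
  induction i with
  | zero => exact ⟨0, [], rfl, hR a 0⟩
  | succ i ih =>
    obtain ⟨n, r, h1, u', c, h2, h3⟩ := ih
    rw [iterate_succ_apply', h1]
    generalize hu : r.map ((↑) : ℤ → ℝ) = u at h2
    cases h2 with
    | fin h =>
      have h4 := h _ List.prefix_rfl
      rw [← hu, map_sg] at h4
      exact ⟨n + 1, [], by simp only [stp, h4, Option.isSome_some, cond_true], hR a _⟩
    | @step _ _ _ j h4 _ h5 =>
      subst hu
      rw [map_sg] at h4
      exact ⟨n, r ++ [valZ r j], by simp only [stp, h4, Option.isSome_none, cond_false], u', c,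
        by simpa [valZ_cast] using h5, h3⟩

lemma sound {a : α} {i : ℕ} {b : β} (h : outp R o ((stp R)^[i] (a, 0, [])) = some b) :
    ∃ n, F a n = some b := by
  obtain ⟨n, r, h1, u', c, h2, h3⟩ := inv hR a i
  rw [h1] at h
  generalize hu : r.map ((↑) : ℤ → ℝ) = u at h2
  cases h2 with
  | fin h' =>
    have h4 := h' _ List.prefix_rfl
    rw [← hu, map_sg] at h4
    exact ⟨n, by simpa only [outp, h4, Option.bind_some, h3] using h⟩
  | step h4 _ _ =>
    rw [← hu, map_sg] at h4
    simp [outp, h4] at h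

end Sim

end YSim

open YSim

theorem simS : SimS := by
  intro α β _ _ _ _ _ _ f ⟨P, g, hP, _, _, hf⟩
  refine ⟨PT.map (h := fun _ => Bool.toNat) PT.id'.bitEncode (by fun_prop), ?_⟩
  let R : α → ℕ → List ℤ → Res (C (Option β)) := fun a n s => P (Disc.toC (a, cand n)) 0 s
  have hR : ∀ a n, ∃ u' c, Go (R a n) [] u' c ∧ Disc.ofC c = f (a, cand n) := fun a n => by
    obtain ⟨r', c', h1, h2, -⟩ := hf [] _ _ (Disc.rep_to [] (a, cand n))
    exact ⟨r', c', h1, Disc.rep_of h2⟩
  have h1 : PT fun s : α × ℕ × List ℤ => R s.1 s.2.1 (s.2.2.map sgZ) :=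
    hP.comp' (f := fun s : α × ℕ × List ℤ => (Disc.toC (s.1, cand s.2.1), 0, s.2.2.map sgZ))
      (PT.pair (Disc.pt_to.comp' (PT.pair (by fun_prop) (pt_cand.comp' (by fun_prop))))
        (PT.pair (.const _) (PT.map (h := fun _ => sgZ) (by fun_prop) (pt_sg.comp' (by fun_prop)))))
  have h2 : PT fun p : List ℤ × Ins => valZ p.1 p.2 := by unfold valZ; fun_prop
  have hs : PT (stp R) := PT.cond h1.fst.isSome (by fun_prop)
    (PT.pair (by fun_prop) (PT.pair (by fun_prop) (PT.append (by fun_prop)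
      (PT.cons (h2.comp' (PT.pair (by fun_prop) h1.snd)) (.const _)))))
  have ho : PT (outp R (Disc.ofC : C (Option β) → Option β)) :=
    PT.obind (h := fun _ (p : C (Option β) × ℕ) => (Disc.ofC p.1 : Option β)) h1.fst
      (Disc.pt_of.comp' (by fun_prop))
  obtain ⟨p, hp⟩ := loop_run hs ho
  have h3 : PT fun l : List ℕ => l.map fun x => decide (x ≠ 0) :=
    PT.map (h := fun _ x => decide (x ≠ 0)) .id' (by fun_prop)
  obtain ⟨p0, q0, h4⟩ := h3.raw
  obtain ⟨p1, q1, h5⟩ : PT fun a : α => (a, 0, ([] : List ℤ)) := by fun_prop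
  refine ⟨machineAux (.seq p0 (.seq p1 p)), fun a b ⟨c, hc⟩ hu => ?_⟩
  obtain ⟨n, -, rfl⟩ := cand_onto c
  obtain ⟨i, hi⟩ := halts hR a n 0 (by rwa [zero_add])
  obtain ⟨j, b', T, h6, h7⟩ := hp i _ hi
  obtain ⟨m, hm⟩ := sound hR h6
  obtain rfl := hu _ _ hm
  have h8 := h4 (ser a)
  have e : ((ser a).map fun x => decide (x ≠ 0)) = bitEncode a := by
    rw [ser, List.map_map]
    exact (List.map_congr_left fun x _ => by cases x <;> rfl).trans (List.map_id _)
  simp only [e] at h8
  have e1 : ∀ l : List Bool, List.map (Equiv.refl Bool).invFun l = l := by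
    intro l; simp
  have h9 := (Run.seq h8 (Run.seq (h5 a) h7)).toTM2
  rw [← e1 (bitEncode (ser a)), ← e1 (bitEncode b')] at h9
  exact ⟨_, h9⟩

end Pool.Agent.Lib.MP_837412_lc.K.Y
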