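import Pool.Agent.Lib.MP_837412_lc.YSt
import Pool.Agent.Lib.MP_837412_lc.VTrk

/-!
The path refines the order types of its walk.
-/

namespace Pool.Agent.Lib.MP_837412_lc.K.Y

open Set Function Filter Topology

namespace YWalk

lemma len (s : List (Tl × Tl × Tl)) (t : Tl) : (walk s t).length = 2 * s.length + 1 := by
  induction s with
  | nil => rfl
  | cons x s ih =>
    change (walk s t).length + 1 + 1 = _
    rw [ih, List.length_cons]
    omega

lemma get (s : List (Tl × Tl × Tl)) (t : Tl) (j : ℕ) (h : j ≤ s.length) :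
    (walk s t).getD (2 * j) [] = (s.map fun x => x.1).getD j t ∧
      (walk s t).getD (2 * j + 1) [] = (s.map fun x => x.2.1).getD j [] := by
  induction s generalizing j with
  | nil =>
    obtain rfl : j = 0 := Nat.le_zero.1 h
    exact ⟨rfl, rfl⟩
  | cons x s ih =>
    cases j with
    | zero => exact ⟨rfl, rfl⟩
    | succ j => exact ih j (Nat.le_of_succ_le_succ h)

variable {ι : Type} [Fintype ι]

lemma key {d : ℕ} {c : ℝ → ι → ℂ} (hc : PP Complex.ofReal d c) {x : ℝ} (hx : Injective (c x))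
    {S : Set ℝ} (hS : ∀ s ∈ S, ∀ t ∈ S, Sim (c s) (c t)) (h : x ∈ closure S) :
    ∀ s ∈ S, Ref (typ (c x)) (c s) := by
  intro s hs
  obtain ⟨e0, h0, -⟩ := (typM ι (c x)).2 hx
  obtain ⟨δ, hδ, hD⟩ := dnS ι (c x)
  obtain ⟨y, ⟨e, he⟩, hy⟩ := mem_closure_iff_nhds.1 h _ (nearS ℝ ι c x
    (fun j => ((hc.coeff_chi j).continuous Complex.continuous_ofReal).continuousAt) hx δ hδ)
  obtain ⟨f, hf⟩ := hS y hy s hs
  have h1 := (hD (c y ∘ e) he).1
  exact ⟨e0.trans (e.trans f), fun i j =>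
    ⟨fun a => (hf.re_lt _ _).1 ((h1 _ _).1 ((h0.re_lt i j).2 a)),
      fun a => (hf.im_lt _ _).1 ((h1 _ _).2 ((h0.im_lt i j).2 a))⟩⟩

lemma inj {c : ι → ℂ} (h : Injective c) : Injective (pts (typ c)) := by
  obtain ⟨e, he, -⟩ := (typM ι c).2 h
  exact fun i j a => e.injective (h (Complex.ext ((he.re_eq i j).2 (congrArg _ a))
    ((he.im_eq i j).2 (congrArg _ a))))

lemma ref_pts {t : Tl} {c : ι → ℂ} (h : Injective c) (h' : Ref t c) : Ref t (pts (typ c)) := by
  obtain ⟨e, he, -⟩ := (typM ι c).2 h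
  obtain ⟨f, hf⟩ := h'
  exact ⟨f.trans e.symm, fun i j =>
    ⟨fun a => (he.re_lt _ _).1 (by simpa using (hf i j).1 a),
      fun a => (he.im_lt _ _).1 (by simpa using (hf i j).2 a)⟩⟩

end YWalk

open YWalk in
theorem walkS : WalkS := by
  intro ι _ d c hc hQ
  obtain ⟨j0, k, e0, e1, es, hk⟩ := VTrk.events hc hQ
  have hi : ∀ t ∈ Icc (0 : ℝ) 1, Injective (c t) := fun t ht => ((qvS ι _).1 (hQ t ht)).1
  obtain ⟨y, hy⟩ : ∃ y : ℕ → ℝ, ∀ j, y j = rt (ev c) (j0 + min j k) := ⟨_, fun _ => rfl⟩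
  have y1 : ∀ j ≤ k, y j = rt (ev c) (j0 + j) := fun j h => by rw [hy, min_eq_left h]
  have y0 : y 0 = 0 := by rw [y1 0 (Nat.zero_le _), add_zero, e0]
  have yk : y k = 1 := by rw [y1 k le_rfl, e1]
  have yk' : y (k + 1) = 1 := by rw [hy, min_eq_right (Nat.le_succ k), e1]
  have k0 : 0 < k := Nat.pos_of_ne_zero fun e => zero_ne_one (y0.symm.trans (e ▸ yk))
  have hj : ∀ j < k, 0 ≤ y j ∧ y j < y (j + 1) ∧ y (j + 1) ≤ 1 ∧
      ∀ s ∈ Ioo (y j) (y (j + 1)), ∀ t ∈ Ioo (y j) (y (j + 1)), Sim (c s) (c t) := fun j h => by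
    rw [y1 j h.le, y1 (j + 1) h]
    exact hk j h
  have ym : ∀ j ≤ k, y j ∈ Icc (0 : ℝ) 1 := fun j h => by
    rcases h.eq_or_lt with rfl | h
    · exact ⟨by rw [yk]; exact zero_le_one, yk.le⟩
    · exact ⟨(hj j h).1, (hj j h).2.1.le.trans (hj j h).2.2.1⟩
  have hl : (segs c).length = k := by simp [es]
  have g0 : ∀ j ≤ k, (walk (segs c) (typ (c 1))).getD (2 * j) [] = typ (c (y j)) := fun j h => by
    rw [(get _ _ j (hl ▸ h)).1, es]
    rcases h.eq_or_lt with rfl | h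
    · simp [yk]
    · simp [h, VTrk.seg, y1 j h.le]
  have g1 : ∀ j < k, (walk (segs c) (typ (c 1))).getD (2 * j + 1) [] =
      typ (c ((y j + y (j + 1)) / 2)) := fun j h => by
    rw [(get _ _ j (hl ▸ h.le)).2, es, y1 j h.le, y1 (j + 1) h]
    simp [h, VTrk.seg, mid, add_assoc]
  have m : ∀ j < k, (y j + y (j + 1)) / 2 ∈ Ioo (y j) (y (j + 1)) := fun j h => by
    have := (hj j h).2.1
    constructor <;> linarith
  have mi : ∀ j < k, Injective (c ((y j + y (j + 1)) / 2)) := fun j h =>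
    hi _ ⟨(hj j h).1.trans (m j h).1.le, (m j h).2.le.trans (hj j h).2.2.1⟩
  have kl : ∀ j < k, ∀ s ∈ Ioo (y j) (y (j + 1)), Ref (typ (c (y j))) (c s) := fun j h =>
    key hc (hi _ (ym j h.le)) (hj j h).2.2.2
      (by rw [closure_Ioo (hj j h).2.1.ne]; exact left_mem_Icc.2 (hj j h).2.1.le)
  have kr : ∀ j < k, ∀ s ∈ Ioo (y j) (y (j + 1)), Ref (typ (c (y (j + 1)))) (c s) := fun j h =>
    key hc (hi _ (ym _ h)) (hj j h).2.2.2
      (by rw [closure_Ioo (hj j h).2.1.ne]; exact right_mem_Icc.2 (hj j h).2.1.le)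
  obtain ⟨τ, t0, t1⟩ : ∃ τ : ℕ → ℝ, (∀ j, τ (2 * j) = (y (j - 1) + 2 * y j) / 3) ∧
      ∀ j, τ (2 * j + 1) = (2 * y j + y (j + 1)) / 3 :=
    ⟨fun a => if a % 2 = 0 then (y (a / 2 - 1) + 2 * y (a / 2)) / 3
      else (2 * y (a / 2) + y (a / 2 + 1)) / 3, fun j => by simp, fun j => by
        simp only [show (2 * j + 1) / 2 = j by omega, if_neg (show ¬ (2 * j + 1) % 2 = 0 by omega)]⟩
  refine ⟨⟨τ, by simpa [y0] using t0 0, by rw [len, hl, t1, yk, yk']; norm_num,
    fun a ha => ?_⟩, fun a ha => ?_⟩ <;> rw [len, hl] at ha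
  · obtain ⟨j, rfl | rfl⟩ := Nat.even_or_odd' a
    · have A : y (j - 1) = y j ∧ j = 0 ∨ y (j - 1) < y j ∧
          ∀ s ∈ Ioo (y (j - 1)) (y j), Ref (typ (c (y j))) (c s) := by
        cases j with
        | zero => exact .inl ⟨rfl, rfl⟩
        | succ j => exact .inr ⟨(hj j (by omega)).2.1, kr j (by omega)⟩
      have B : y (j + 1) = y j ∧ j = k ∨ y j < y (j + 1) ∧
          ∀ s ∈ Ioo (y j) (y (j + 1)), Ref (typ (c (y j))) (c s) := by
        rcases (show j ≤ k by omega).eq_or_lt with rfl | h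
        exacts [.inl ⟨yk'.trans yk.symm, rfl⟩, .inr ⟨(hj j h).2.1, kl j h⟩]
      rw [t0, t1, g0 j (by omega)]
      refine ⟨?_, fun s hs => ?_⟩
      · rcases A with A | A <;> rcases B with B | B
        · omega
        all_goals linarith [A.1, B.1]
      · rcases lt_trichotomy s (y j) with h | rfl | h
        · rcases A with A | A
          · linarith [A.1, hs.1]
          · exact A.2 s ⟨by linarith [A.1, hs.1], h⟩
        · exact key hc (hi _ (ym j (by omega))) (S := {y j})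
            (by rintro _ rfl _ rfl; exact .refl _) (subset_closure rfl) _ rfl
        · rcases B with B | B
          · linarith [B.1, hs.2]
          · exact B.2 s ⟨h, by linarith [B.1, hs.2]⟩
    · have h : j < k := by omega
      have := (hj j h).2.1
      rw [t1, show 2 * j + 1 + 1 = 2 * (j + 1) by ring, t0, g1 j h, Nat.add_sub_cancel]
      exact ⟨by linarith, fun s hs => key hc (mi j h) (hj j h).2.2.2 (subset_closure (m j h)) s
        ⟨by linarith [hs.1], by linarith [hs.2]⟩⟩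
  · rw [len, hl]
    obtain ⟨j, rfl | rfl⟩ := Nat.even_or_odd' a
    · rw [g0 j (by omega)]
      refine ⟨inj (hi _ (ym j (by omega))), fun h => .inl ?_⟩
      rw [g1 j (by omega)]
      exact ref_pts (mi j (by omega)) (kl j (by omega) _ (m j (by omega)))
    · have h : j < k := by omega
      rw [g1 j h, show 2 * j + 1 + 1 = 2 * (j + 1) by ring, g0 _ h]
      exact ⟨inj (mi j h), fun _ => .inr (ref_pts (mi j h) (kr j h _ (m j h)))⟩

end Pool.Agent.Lib.MP_837412_lc.K.Y
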