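import Pool.Agent.Lib.MP_837412_lc.YTake
import Pool.Agent.Lib.MP_837412_lc.YSim
import Pool.Agent.Lib.MP_837412_lc.YRkQ
import Pool.Agent.Lib.MP_837412_lc.YHom
import Pool.Agent.Lib.MP_837412_lc.YWalk
import Pool.Agent.Lib.MP_837412_lc.YJoin
import Pool.Agent.Lib.MP_837412_lc.YCertS
import Pool.Agent.Lib.MP_837412_lc.YCertC
import Pool.Agent.Lib.MP_837412_lc.YPl
import Pool.Agent.Lib.MP_837412_lc.YEst
import Pool.Agent.Lib.MP_837412_lc.YChi
import Pool.Agent.Lib.MP_837412_lc.YChk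
import Pool.Agent.Lib.MP_837412_lc.YGrid
import Pool.Agent.Lib.MP_837412_lc.YReal
import Pool.Agent.Lib.MP_837412_lc.YBet

/-!
All statements about the last stage hold.
-/

namespace Pool.Agent.Lib.MP_837412_lc.K.Y

theorem postY (h : LamU) : PostT :=
  postT simS (homR rkQ) walkS certS certC plS (chiY h) chkR (@keyS cQ (joinY dnU) dnU)
    (@realF cQ) (@betS cQ (@gridS cQ) plS estY netS)

end Pool.Agent.Lib.MP_837412_lc.K.Y
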