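import Pool.Agent.Lib.MP_837412_lc.XMain
import Pool.Agent.Lib.MP_837412_lc.XFront
import Pool.Agent.Lib.MP_837412_lc.XSamp
import Pool.Agent.Lib.MP_837412_lc.YAll
import Pool.Agent.Lib.MP_837412_lc.VAdj
import Pool.Agent.Lib.MP_837412_lc.VBig
import Pool.Agent.Lib.MP_837412_lc.VBkr
import Pool.Agent.Lib.MP_837412_lc.VChi
import Pool.Agent.Lib.MP_837412_lc.VFm
import Pool.Agent.Lib.MP_837412_lc.VIni
import Pool.Agent.Lib.MP_837412_lc.VLab
import Pool.Agent.Lib.MP_837412_lc.VLam
import Pool.Agent.Lib.MP_837412_lc.VLin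
import Pool.Agent.Lib.MP_837412_lc.VMM
import Pool.Agent.Lib.MP_837412_lc.VMat
import Pool.Agent.Lib.MP_837412_lc.VPath
import Pool.Agent.Lib.MP_837412_lc.VSig
import Pool.Agent.Lib.MP_837412_lc.VSign
import Pool.Agent.Lib.MP_837412_lc.VTaq
import Pool.Agent.Lib.MP_837412_lc.VTrace
import Pool.Agent.Lib.MP_837412_lc.VTyp

/-!
All statements about the machine hold.
-/

namespace Pool.Agent.Lib.MP_837412_lc

theorem mainU : Main2 ∧ MainQ :=
  have mt := matU chiU
  have sg := sigU chiU mt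
  have tq := taqU chiU sg
  have sa := signAtU tq (bkrU tq linU)
  have ad := adjU sa
  have ty := typU chiU sa ad
  have la := lamU flU mmU mt
  have pa := pathU chiU sa (traceU sa ad ty (evU chiU)) la
  have lb := labU sg ty flU la (rurU chiU flU mmU mt) pa
  have fr := frontU flU la bigU
  ⟨main2 (sampU lb) fr (backT lb pa (iniU flU) ty la) fmU inpU,
    mainQ (sampU lb) fr (K.Y.backQ lb pa (K.Y.postY la)) fmU inpU⟩

end Pool.Agent.Lib.MP_837412_lc
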