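import Pool.Agent.Lib.MP_837412_lc.XCore
import Pool.Agent.Lib.MP_837412_lc.VStep
import Pool.Agent.Lib.MP_837412_lc.UM

/-!
The machine computes the mod 2 homology of the positive cell.
-/

namespace Pool.Agent.Lib.MP_837412_lc

open Pool.Agent.Shared.Mod2 Set Function MvPolynomial
open Pool.Agent.Shared.PolyTime (PT PB length_le_sz sz_mem sz_prod)

attribute [local irreducible] RPT RPB

section Fold

variable {step : Tl × Tl × Bool × Ml × Ml → Ml × Ml} (h1 : PT step)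
  (h2 : ∀ x, Shared.PolyTime.sz (step x) ≤ 40 * (x.2.1.length + 1) ^ 2)

lemma len_seg {s : List (Tl × Tl × Tl)} {x : Tl × Tl × Tl} (h : x ∈ s) :
    x.1.length ≤ Shared.PolyTime.sz s ∧ x.2.2.length ≤ Shared.PolyTime.sz s := by
  have a := sz_mem h
  rw [sz_prod, sz_prod] at a
  have := length_le_sz x.1
  have := length_le_sz x.2.2
  omega

include h1 h2

lemma pt_fwd : PT fun z : List (Tl × Tl × Tl) × Ml × Ml => fwd step z.1 z.2 :=
  PT.foldl_inv (f := fun _ w (x : Tl × Tl × Tl) =>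
      step (x.2.1, x.2.2, false, step (x.1, x.2.1, true, w))) (by fun_prop) (by fun_prop)
    (by fun_prop) (fun z w => Shared.PolyTime.sz w ≤
      Shared.PolyTime.sz z.2 + 40 * (Shared.PolyTime.sz z.1 + 1) ^ 2) (fun _ => Nat.le_add_right _ _)
    (fun _ _ _ hx _ => (h2 _).trans (le_add_left (Nat.mul_le_mul_left _ (Nat.pow_le_pow_left
      (Nat.succ_le_succ (len_seg hx).2) 2)))) (by fun_prop) fun _ _ h => h

lemma pt_bwd : PT fun z : List (Tl × Tl × Tl) × Ml × Ml => bwd step z.1 z.2 :=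
  PT.foldr_inv (f := fun _ (x : Tl × Tl × Tl) w =>
      step (x.2.1, x.1, false, step (x.2.2, x.2.1, true, w))) (by fun_prop) (by fun_prop)
    (by fun_prop) (fun z w => Shared.PolyTime.sz w ≤
      Shared.PolyTime.sz z.2 + 40 * (Shared.PolyTime.sz z.1 + 1) ^ 2) (fun _ => Nat.le_add_right _ _)
    (fun _ _ _ hx _ => (h2 _).trans (le_add_left (Nat.mul_le_mul_left _ (Nat.pow_le_pow_left
      (Nat.succ_le_succ (len_seg hx).1) 2)))) (by fun_prop) fun _ _ h => h

end Fold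

def BackT : Prop := ∀ (α : Type) [RE α] (σ : α → Type) [∀ a, Fintype (σ a)]
  [∀ a, DecidableEq (σ a)] (m n d r : α → ℕ) (P : ∀ a, Fin (n a) → MvPolynomial (σ a) ℝ), Sz σ m →
  (∀ a, Odd (m a)) → (∀ a, 2 * n a * d a < m a ∧ ∀ j, (P a j).totalDegree ≤ d a) →
  (RPT fun a => List.ofFn fun j => up (P a j)) → RPT r → RPB r →
  ∃ W : α → List ℕ, RPT W ∧ ∀ a, (W a).length = r a ∧ ∀ j < r a,
    hs (cell (P a) fun _ => 1) ∅ (j + 1) = (W a).getD j 0

theorem backT (h1 : LabU) (h2 : PathU) (h3 : IniU) (h4 : TypU) (h5 : LamU) : BackT := by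
  obtain ⟨step, s1, s2, s3⟩ := stepS
  obtain ⟨out, o1, o2⟩ := core_out
  intro α _ σ _ _ m n d r P z ho hd hP hr hr'
  obtain ⟨l1, l2, l3⟩ := h1 α σ m n d P z hd hP
  have hm : ∀ a, 2 ≤ m a := fun a => by have := z.le a; omega
  have dg : ∀ a, (sq (P a)).totalDegree < m a := fun a =>
    ((totalDegree_finsetProd _ _).trans (Finset.sum_le_card_nsmul _ _ (2 * d a) fun j _ =>
      (totalDegree_pow _ _).trans (Nat.mul_le_mul_left 2 ((hd a).2 j)))).trans_lt (by
        have := (hd a).1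
        simp only [Finset.card_univ, Fintype.card_fin, smul_eq_mul]
        nlinarith)
  obtain ⟨p1, p2⟩ := h2 α σ m (fun a => cx' (sq (P a))) z (fun a => (deg_cx _).trans_lt (dg a)) l1
  have p3 := p2 _ p1
  obtain ⟨i1, i2, i3⟩ := h3 α σ m z
  have d0 : ∀ a, (cx' (p0 (σ a) (m a))).totalDegree < m a := fun a => (deg_cx _).trans_lt
    (initS (sumS genL tsS (ovS genL)) ldatS oneS _ _ (hm a) (ho a)).1
  have i4 : RPT fun a => up (cx' (p0 (σ a) (m a))) :=
    (RPT.mvMapReal i1).of_eq fun a => (up_map _ _).symm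
  have p4 := (h2 α σ m _ z d0 i4).2 (fun _ => 1) RPT.one
  have p5 := (h4 α Bool _ _ (fun _ _ => true) (h5 α σ m _ (fun _ => 1) z d0 i4 RPT.one)).1
  have w0 := RPT.pt s1 (i2.pair (p5.pair ((RPT.const true).pair ((i3 1).pair (i3 0)))))
  have w1 := RPT.pt (pt_bwd s1 s2) (p4.pair w0)
  have w2 : RPT fun a => coreW step (m a) (cx' (sq (P a))) := RPT.pt (pt_fwd s1 s2) (p3.pair w1)
  have l4 : RPT fun a => (labs (m a) (P a)).map lbl := by unfold lbl; fun_prop
  refine ⟨fun a => (List.range (r a)).map fun j => out (typ (Le (m a) (P a)),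
    (coreW step (m a) (cx' (sq (P a)))).1, (labs (m a) (P a)).map lbl, j + 1),
    RPT.map_range hr hr' (RPT.pt o1 ?_), fun a => ⟨by simp, fun j hj => ?_⟩⟩
  · exact (l2.comp' (by fun_prop)).pair ((w2.fst.comp' (by fun_prop)).pair
      ((l4.comp' (by fun_prop)).pair (by fun_prop)))
  · rw [o2 step s3 _ _ _ _ (hm a) (ho a) (dg a)]
    simp [List.getD_eq_getElem?_getD, hj]

end Pool.Agent.Lib.MP_837412_lc
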