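import Pool.Agent.Lib.MP_837412_lc.RSt
import Pool.Agent.Lib.MP_837412_lc.VSeg
import Pool.Agent.Lib.MP_837412_lc.VTrk
import Pool.Agent.Lib.MP_837412_lc.VOut
import Pool.Agent.Lib.MP_837412_lc.VRank
import Pool.Agent.Lib.MP_837412_lc.VReal
import Pool.Agent.Lib.MP_837412_lc.VInit
import Pool.Agent.Lib.MP_837412_lc.VSum
import Pool.Agent.Lib.MP_837412_lc.VLDat
import Pool.Agent.Lib.MP_837412_lc.VTs
import Pool.Agent.Lib.MP_837412_lc.VOv
import Pool.Agent.Lib.MP_837412_lc.VOne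

/-!
The homology of the positive cell is read off from the tracked normal form.
-/

namespace Pool.Agent.Lib.MP_837412_lc

open Pool.Agent.Shared.Mod2 Set Function Filter Topology MvPolynomial

variable {σ : Type} [Fintype σ] [DecidableEq σ] {m n : ℕ} {p : MvPolynomial σ ℂ} {l : ℝ}
  {step : Tl × Tl × Bool × Ml × Ml → Ml × Ml}

lemma eta_good (hm : 2 ≤ m) (hp : p.totalDegree < m) (l0 : l ≠ 0) (h : Qv (Lam m p l) ≠ 0)
    (s : ℝ) : Qv (Lam m p (arc l (eta m p l) s)) ≠ 0 := by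
  classical
  obtain ⟨η, a, b⟩ := all.arcs (Qp m p) _ l (all.isP_Q p).pol.1 l0
    (by rw [all.Qp_eval]; exact (all.zero σ m p hm hp).2) (by rw [all.Qp_eval]; exact h)
  simp only [all.Qp_eval] at b
  unfold eta
  rcases e : (List.range (nQ σ m + 1)).find? fun η => ∀ s, Qv (Lam m p (arc l η s)) ≠ 0 with _ | x
  · exact absurd (List.find?_eq_none.1 e η (List.mem_range.2 (by omega))) (by simpa using b)
  · have := List.find?_some e
    exact of_decide_eq_true this s

lemma path_l (hm : 2 ≤ m) (hp : p.totalDegree < m) {η : ℕ}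
    (h : ∀ s, Qv (Lam m p (arc l η s)) ≠ 0) : ∀ s ∈ Icc (0 : ℝ) 1, Pv m p (arc l η s) := by
  refine IsClosed.Icc_subset_of_forall_mem_nhdsWithin (s := {s | Pv m p (arc l η s)})
    (((all.cls σ m p hp).preimage (continuous_arc _ η)).inter isClosed_Icc) ?_ fun s hs => ?_
  · rw [mem_ofPred_eq, arc_zero]; exact (all.zero σ m p hm hp).1
  · exact mem_nhdsWithin_of_mem_nhds ((continuous_arc _ η).tendsto s
      (all.opn σ m p _ hm hp hs.1 ((all.qv _ _).1 (h s)).1))

lemma trk_bd (p : MvPolynomial σ ℂ) (l : ℝ) : ∃ N₀ : ℝ, ∀ N, N₀ ≤ N → ∀ t ∈ Icc (0 : ℝ) 1,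
    Bn N (Lam m p (arc l (eta m p l) t)) :=
  (all.bnd ℝ _ (fun t => Lam m p (arc l (eta m p l) t)) _ isCompact_Icc fun j =>
    (all.cont_chi p j).comp (continuous_arc _ _)).imp fun _ a _ b t ht i => (a t ht i).trans_le b

lemma trk_st (hs : IsStep step) (hm : 2 ≤ m) (hp : p.totalDegree < m) (l0 : l ≠ 0)
    (h : Qv (Lam m p l) ≠ 0) {N : ℝ}
    (hN : ∀ t ∈ Icc (0 : ℝ) 1, Bn N (Lam m p (arc l (eta m p l) t))) (w : Ml × Ml) :
    (St N (Fintype.card σ + 1) (Gl m p 0) (Lam m p 0) (typ (Lam m p 0)) w →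
      St N (Fintype.card σ + 1) (Gl m p l) (Lam m p l) (typ (Lam m p l))
        (fwd step (trk m p l) w)) ∧
    (St N (Fintype.card σ + 1) (Gl m p l) (Lam m p l) (typ (Lam m p l)) w →
      St N (Fintype.card σ + 1) (Gl m p 0) (Lam m p 0) (typ (Lam m p 0))
        (bwd step (trk m p l) w)) := by
  have g := eta_good hm hp l0 h
  have := trkS segS typM step hs _ _ N (Fintype.card σ + 1) _
    (fun s => Gl m p (arc l (eta m p l) s)) (fun s => Lam m p (arc l (eta m p l) s))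
    ((all.lamP σ m p).comp (isP_arc l _)) (fun s _ => g s)
    (all.mot hm hp (γ := fun u : I => arc l (eta m p l) u)
      ((continuous_arc _ _).comp continuous_subtype_val) fun u =>
        ⟨path_l hm hp g _ u.2, g _, hN _ u.2⟩) w
  simp only [arc_zero, arc_one] at this
  exact this

/-- The normal form at the end of the pencil. -/
noncomputable def coreW (step : Tl × Tl × Bool × Ml × Ml → Ml × Ml) (m : ℕ)
    (p : MvPolynomial σ ℂ) : Ml × Ml :=
  fwd step (trk m p (ls m p)) (bwd step (trk m (cx' (p0 σ m)) 1)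
    (step (iniT (Fintype.card σ) m, typ (Lam m (cx' (p0 σ m)) 1), true,
      iniM (Fintype.card σ) m 1, iniM (Fintype.card σ) m 0)))

lemma core_st (hs : IsStep step) (hm : 2 ≤ m) (ho : Odd m) (hp : p.totalDegree < m) :
    ∃ N, Bn N (Lam m p (ls m p)) ∧ St N (Fintype.card σ + 1) (Gl m p (ls m p)) (Lam m p (ls m p))
      (typ (Lam m p (ls m p))) (coreW step m p) := by
  obtain ⟨i1, i2, i3⟩ := initS (sumS genL tsS (ovS genL)) ldatS oneS σ m hm ho
  have hq := (deg_cx _).trans_lt i1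
  obtain ⟨N₁, n1⟩ := trk_bd (m := m) (cx' (p0 σ m)) 1
  obtain ⟨N₂, n2⟩ := trk_bd (m := m) p (ls m p)
  have b1 := n1 _ (le_max_left N₁ N₂)
  have b2 := n2 _ (le_max_right N₁ N₂)
  have o : (1 : ℝ) ∈ Icc (0 : ℝ) 1 := ⟨zero_le_one, le_rfl⟩
  have i2' : Qv (Lam m (cx' (p0 σ m)) (1 : ℝ)) ≠ 0 := by simpa using i2
  have c1 : Bn (max N₁ N₂) (Lam m (cx' (p0 σ m)) 1) := by simpa [arc_one] using b1 1 o
  have s0 := i3 _ c1
  have pv : Pv m (cx' (p0 σ m)) 1 := by
    simpa [arc_one] using path_l hm hq (eta_good hm hq one_ne_zero i2') 1 o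
  have s1 := (segS step hs _ _ _ _ _ _ (all.mot hm hq (γ := fun _ : I => 1) continuous_const
    fun _ => ⟨pv, i2, c1⟩) (fun _ _ _ _ => Sim.refl _) _ (typ (Lam m (cx' (p0 σ m)) 1)) _
    (s0.imp fun _ a => a.1) (((typM _ _).2 ((all.qv _ _).1 i2).1).imp fun _ a => a.1)).1 s0
  have s2 := (trk_st hs hm hq one_ne_zero i2' b1 _).2 (by simpa using s1)
  have e : Gl m (cx' (p0 σ m)) 0 = Gl m p 0 := by ext y; simp only [Gl, Fl_zero]
  rw [e, Lam_zero m _ p] at s2
  exact ⟨_, by simpa only [arc_one] using b2 1 o,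
    (trk_st hs hm hp (all.ls_pos p).ne' (all.qv_large hm hp le_rfl) b2 _).1 s2⟩

lemma RM.comp {E ι κ : Type} [TopologicalSpace E] {f : E → ℝ} {S S' : Set E} {v : ι → ℝ}
    {real side : ι → Prop} {n : ι → ℕ} (h : RM f S S' v real side n) (e : κ ≃ ι) :
    RM f S S' (fun i => v (e i)) (fun i => real (e i)) (fun i => side (e i)) fun i => n (e i) :=
  ⟨h.oS, h.oS', h.dis, h.cov, fun _ _ a b c => e.injective (h.inj _ _ a b c), fun _ => h.ne _,
    fun t a => h.bot t (e.forall_congr_right.1 a), fun a b c d g =>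
      h.ac a b c d (e.forall_congr_right.1 g), fun a b i c d g u => h.cell a b _ c d g fun j hj => by
        obtain ⟨j, rfl⟩ := e.surjective j
        exact u j fun x => hj (congrArg e x)⟩

lemma iso_uniq {ι κ : Type} [Fintype κ] {c : ι → ℂ} {b : κ → ℂ} {e e' : κ ≃ ι} (h : Injective c)
    (i1 : Iso (c ∘ e) b) (i2 : Iso (c ∘ e') b) : e = e' := by
  have := all.aut _ b (c ∘ e') (e.trans e'.symm) 1 (h.comp e'.injective)
    (by simpa [comp_def] using i1.symm) i2.symm
  exact Equiv.ext fun i => e'.symm.injective ((congrArg (· i) this).trans (by simp))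

/-- The label that the last step needs. -/
def lbl (x : ℤ × ℤ × List SignType × ℕ) : Lb :=
  (x.1, x.2.1, x.2.2.1.all fun s => decide (s = 1), x.2.2.2 + 1)

theorem core_out : ∃ out : Tl × Ml × List Lb × ℕ → ℕ, Shared.PolyTime.PT out ∧
    ∀ step, IsStep step → ∀ (σ : Type) [Fintype σ] [DecidableEq σ] (m n : ℕ)
      (P : Fin n → MvPolynomial σ ℝ), 2 ≤ m → Odd m → (sq P).totalDegree < m → ∀ j,
      hs (cell P fun _ => 1) ∅ j =
        out (typ (Le m P), (coreW step m (cx' (sq P))).1, (labs m P).map lbl, j) := by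
  obtain ⟨out, o1, o2⟩ := outS rankS realU
  refine ⟨out, o1, fun step hs σ _ _ m n P hm ho hp j => ?_⟩
  have hc := (deg_cx _).trans_lt hp
  obtain ⟨N, n1, e, i1, d1, t1⟩ := core_st hs hm ho hc
  obtain ⟨x, hx⟩ := all.mor_ls hm hc
  obtain ⟨e', i2, g⟩ := (typM _ (Le m P)).2 hx.inj
  obtain rfl : e = e' := iso_uniq hx.inj i1 i2
  obtain ⟨r1, q1⟩ := all.rm_of hm ho hp (π := fun _ => 1) (fun _ => one_ne_zero) 1
  rw [q1]
  refine o2 σ _ _ (Le m P ∘ e) N _ _ _ _ _ _ _ (by rw [cx_Fl]; exact (all.sys_of hc hx).perm e)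
    (fun i => n1 _) i1 (by rw [cx_Fl]; exact d1) t1
    ((r1.comp e).congr (fun i => sign_eq_zero_iff.symm) (fun _ _ => Iff.rfl) fun _ => rfl)
    (fun i => ⟨(List.ofFn (lab m P (Le m P (e i))).2.2.1).all fun s => decide (s = 1), ?_, ?_⟩) j
  · simp [funext_iff]
  · rw [labs, List.map_map, List.getElem?_map, List.getElem?_eq_getElem (l := typ (Le m P)) i.2]
    exact congrArg (fun z => some (lbl (sgn z.re, sgn z.im, labL m P z))) (g i).symm

end Pool.Agent.Lib.MP_837412_lc
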