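import Pool.Agent.Lib.MP_837412_lc.RSt
import Pool.Agent.Lib.MP_837412_lc.KSt

/-!
Statements about the first phases of the algorithm.
-/

namespace Pool.Agent.Lib.MP_837412_lc

open Set Function MvPolynomial

/-- A list that contains all realised vectors of signs is computed. -/
def SampU : Prop := ∃ c : ℕ, ∀ (α : Type) [RE α] (k s d : α → ℕ)
  (P : ∀ a, Fin (s a) → MvPolynomial (Fin (k a)) ℝ), RPT k → RPT s → RPT d →
  (RPB fun a => (s a + d a + 2) ^ (k a + 2) ^ c) → (∀ a j, (P a j).totalDegree ≤ d a) →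
  (RPT fun a => List.ofFn fun j => rename Fin.val (P a j)) →
  ∃ T : α → List (List SignType), RPT T ∧ ∀ a, (T a).length ≤ (s a + d a + 2) ^ (k a + 2) ^ c ∧
    (∀ x ∈ T a, x.length = s a) ∧ ∀ y, (List.ofFn fun j => SignType.sign (eval y (P a j))) ∈ T a

/-- A strict cell with the homology of a given union of cells is computed. -/
def FrontU : Prop := ∃ c : ℕ, ∀ (α : Type) [RE α] (k s d N : α → ℕ)
  (P : ∀ a, Fin (s a) → MvPolynomial (Fin (k a)) ℝ) (e : ∀ a, Fin (N a) → Fin (s a) → SignType),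
  RPT k → RPT s → RPT d → (RPB fun a => (s a + d a + N a + 2) ^ (k a + 2) ^ c) →
  (∀ a j, (P a j).totalDegree ≤ d a) → (RPT fun a => List.ofFn fun j => rename Fin.val (P a j)) →
  (RPT fun a => List.ofFn fun x => List.ofFn (e a x)) →
  ∃ (σ : α → Type) (_ : ∀ a, Fintype (σ a)) (_ : ∀ a, DecidableEq (σ a)) (m n D : α → ℕ)
    (Q : ∀ a, Fin (n a) → MvPolynomial (σ a) ℝ), Sz σ m ∧ (∀ a, Odd (m a)) ∧
    (∀ a, 2 * n a * D a < m a ∧ ∀ j, (Q a j).totalDegree ≤ D a) ∧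
    (RPT fun a => List.ofFn fun j => up (Q a j)) ∧ ∀ a, k a ≤ Fintype.card (σ a) ∧
      ∀ (_ : K.Coef), ∀ j < k a + 2,
        K.hs (cell (Q a) fun _ => 1) ∅ j = K.hs (signSet (P a) (range (e a))) ∅ j

end Pool.Agent.Lib.MP_837412_lc
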