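import Pool.Agent.Lib.MP_837412_lc.YTake
import Pool.Agent.Lib.MP_837412_lc.RSt
import Pool.Agent.Lib.MP_837412_lc.VTrk

/-!
The discrete data are computed by the real machine.
-/

namespace Pool.Agent.Lib.MP_837412_lc.K.Y

open Set Function MvPolynomial
open Pool.Agent.Shared.PolyTime (Outputs PT)

attribute [local irreducible] RPT RPB

lemma eta_good {σ : Type} [Fintype σ] [DecidableEq σ] {m : ℕ} {p : MvPolynomial σ ℂ} (hm : 2 ≤ m)
    (hp : p.totalDegree < m) (s : ℝ) : Qv (La m p (eta m p (ls m p)) s) ≠ 0 := by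
  classical
  obtain ⟨η, h1, h2⟩ := all.good_arc hm hp
  obtain ⟨a, ha⟩ := Option.isSome_iff_exists.1 (List.find?_isSome
    (p := fun η => decide (∀ s, Qv (Lam m p (arc (ls m p) η s)) ≠ 0)).2
      ⟨η, List.mem_range.2 (Nat.lt_succ_of_le h1), decide_eq_true h2⟩)
  have e : eta m p (ls m p) = a := by
    rw [eta]
    convert congrArg (Option.getD · 0) ha
    rfl
  rw [e]
  have := List.find?_some ha
  exact of_decide_eq_true this s

/-- The marks of the critical values. -/
def mark (x : ℤ × ℤ × List SignType × ℕ) : Bool :=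
  decide (x.1 = -1) && (decide (x.2.1 = 0) && x.2.2.1.all fun s => decide ((s : ℤ) = 1))

def BackQ : Prop := ∃ M : Turing.TM2ComputableAux Bool Bool, ∀ (α : Type) [RE α] (σ : α → Type)
  [∀ a, Fintype (σ a)] [∀ a, DecidableEq (σ a)] (m n d r : α → ℕ)
  (P : ∀ a, Fin (n a) → MvPolynomial (σ a) ℝ), Sz σ m → (∀ a, Odd (m a)) →
  (∀ a, 2 * n a * d a < m a ∧ ∀ j, (P a j).totalDegree ≤ d a) →
  (RPT fun a => List.ofFn fun j => up (P a j)) → RPT r → (∀ a, r a ≤ Fintype.card (σ a) + 1) →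
  ∃ W : α → List ℕ, RPT W ∧ ∀ a, (∀ j, @hs cQ _ _ (cell (P a) fun _ => 1) ∅ j ≠ ⊤) ∧
    ∃ T, Outputs M (N487b59b3.bitEncode (W a)) (N487b59b3.bitEncode ((List.range (r a)).map
      fun j => (@hs cQ _ _ (cell (P a) fun _ => 1) ∅ (j + 1)).toNat)) T

theorem backQ (h1 : LabU) (h2 : PathU) (h3 : PostT) : BackQ := by
  obtain ⟨s, M, h3⟩ := h3
  refine ⟨M, fun α _ σ _ _ m n d r P z ho hd hP hr hr' => ?_⟩
  obtain ⟨l1, l2, l3⟩ := h1 α σ m n d P z hd hP
  have dg : ∀ a, (sq (P a)).totalDegree < m a := fun a =>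
    ((totalDegree_finsetProd _ _).trans (Finset.sum_le_card_nsmul _ _ (2 * d a) fun j _ =>
      (totalDegree_pow _ _).trans (Nat.mul_le_mul_left 2 ((hd a).2 j)))).trans_lt (by
        have := (hd a).1
        simp only [Finset.card_univ, Fintype.card_fin, smul_eq_mul]
        nlinarith)
  obtain ⟨p1, p2⟩ := h2 α σ m (fun a => cx' (sq (P a))) z
    (fun a => (deg_cx _).trans_lt (dg a)) l1
  have p3 := p2 _ p1
  have z1 := z.card
  have z2 := z.deg
  refine ⟨fun a => ser ((r a, Fintype.card (σ a), m a, trk (m a) (cx' (sq (P a)))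
    (ls (m a) (cx' (sq (P a)))), typ (Le (m a) (P a)), (labs (m a) (P a)).map mark) : ℕ × Wd),
    RPT.pt s (by unfold mark; fun_prop), fun a => ?_⟩
  have hm : 2 ≤ m a := by have := z.le a; omega
  obtain ⟨e, e1, e2⟩ := (typM _ (Le (m a) (P a))).2
    ((all.qv _ _).1 (all.qv_large hm ((deg_cx _).trans_lt (dg a)) le_rfl)).1
  refine h3 _ _ (r a) (m a) _ (P a) _ _ e (hr' a) hm (ho a) (dg a) (fun _ => one_ne_zero)
    (fun s _ => eta_good hm ((deg_cx _).trans_lt (dg a)) s) e1 fun i => ?_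
  have : ((labs (m a) (P a)).map mark).getD i false = mark (sgn (Le (m a) (P a) (e i)).re,
      sgn (Le (m a) (P a) (e i)).im, labL (m a) (P a) (Le (m a) (P a) (e i))) := by
    simp [labs, List.getD_eq_getElem?_getD, e2]
  have c : ∀ s t : SignType, (s : ℤ) = t ↔ s = t := by decide
  rw [this, mark]
  simp only [Bool.and_eq_true, decide_eq_true_eq, sgn, labL, List.all_eq_true, List.mem_ofFn,
    forall_exists_index, forall_apply_eq_imp_iff, _root_.funext_iff]
  exact and_congr ((c _ (-1)).trans sign_eq_neg_one_iff)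
    (and_congr ((c _ 0).trans sign_eq_zero_iff) (forall_congr' fun j => c _ 1))

end Pool.Agent.Lib.MP_837412_lc.K.Y
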