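import Pool.Agent.Lib.MP_837412_lc.XRun
import Pool.Agent.Lib.MP_837412_lc.XBack
import Pool.Agent.Lib.MP_837412_lc.XSt
import Pool.Agent.Lib.MP_837412_lc.YBack
import Pool.Agent.Lib.MP_837412_lc.KBetti

/-!
The assembly of the algorithm.
-/

namespace Pool.Agent.Lib.MP_837412_lc

open Set Function MvPolynomial
open Pool.Agent.Shared.PolyTime (PT PB Outputs)

attribute [local irreducible] RPT RPB

/-- Inputs. -/
structure Inp (c : ℕ) where
  k : ℕ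
  s : ℕ
  d : ℕ
  n : ℕ
  φ : Fm s
  P : Fin s → MvPolynomial (Fin k) ℝ
  deg : ∀ j, (P j).totalDegree ≤ d
  le : (s * (d + 1) + 2) ^ (k + 2) ^ c ≤ n

namespace Inp

variable {c : ℕ}

/-- What the machine gets. -/
noncomputable def enc (x : Inp c) : Hid (ℕ × ℕ × ℕ × List ℕ) × List Bool × List ℝ :=
  (⟨(x.k, x.s, x.d, x.φ.code)⟩, List.replicate x.n true, coeffs x.d x.P)

noncomputable instance : RE (Inp c) := .ofFun enc

/-- The degree, replaced by zero if there are no polynomials. -/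
def e (x : Inp c) : ℕ := min x.d (x.s * x.d)

lemma e_le (x : Inp c) : x.s + x.e + 2 ≤ x.s * (x.d + 1) + 2 := by
  have : x.e ≤ x.s * x.d := min_le_right _ _
  rw [mul_add]; omega

lemma e_eq (x : Inp c) (j : Fin x.s) : x.e = x.d :=
  min_eq_left (Nat.le_mul_of_pos_left _ j.pos)

lemma deg' (x : Inp c) (j : Fin x.s) : (x.P j).totalDegree ≤ x.e := x.e_eq j ▸ x.deg j

lemma coeffs_e (x : Inp c) : coeffs x.d x.P = coeffs x.e x.P :=
  List.flatMap_congr fun j _ => by rw [x.e_eq j]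

lemma sm (x : Inp c) {j y : ℕ} (h : Sm (x.s * (x.d + 1) + 2) (x.k + 2) j y) (hj : j ≤ c) :
    y ≤ x.n := (h.mono (by omega) (by omega) hj).trans x.le

lemma sm0 (x : Inp c) : Sm (x.s * (x.d + 1) + 2) (x.k + 2) 0 (x.s + x.e + 2) := by
  simpa [Sm] using x.e_le

lemma pw_le (x : Inp (c + 1)) : (x.s + x.e + 2) ^ (x.k + 2) ≤ x.n :=
  x.sm (x.sm0.pow (by omega) (by omega) (j := 1) (by simp)) (by omega)

lemma len_enc (x : Inp c) : x.enc.2.2.length = x.s * (x.e + 1) ^ x.k := by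
  rw [enc, coeffs_e]
  simp [coeffs]

lemma rpt_enc : RPT (enc : Inp c → _) := RPT.ofFun_iff.1 RPT.id'

lemma rpb_n : RPB (n : Inp c → ℕ) := (RPB.length rpt_enc.snd.fst).mono fun x => by simp [enc]

lemma small (x : Inp (c + 1)) : x.k + 2 ≤ x.n ∧ x.s + x.e + 2 ≤ x.n ∧
    (x.e + 1) ^ x.k ≤ x.n ∧ x.s * (x.e + 1) ^ x.k ≤ x.n := by
  have a := x.pw_le
  have b : (x.e + 1) ^ x.k ≤ (x.s + x.e + 2) ^ x.k := Nat.pow_le_pow_left (by omega) _
  have d : (x.s + x.e + 2) * (x.s + x.e + 2) ^ x.k ≤ x.n :=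
    le_trans (by rw [← pow_succ']; exact Nat.pow_le_pow_right (by omega) (by omega)) a
  refine ⟨(Nat.lt_pow_self (by omega)).le.trans a, (Nat.le_self_pow (by omega) _).trans a,
    b.trans ((Nat.le_mul_of_pos_left _ (by omega)).trans d), (Nat.mul_le_mul (by omega) b).trans d⟩

lemma rpt_par {g : ℕ × ℕ × ℕ × List ℕ → ℕ} (hg : PT g) {f : Inp c → ℕ}
    (e : ∀ x, g x.enc.1.val = f x) (h : ∀ x, f x ≤ x.n) : RPT f :=
  ((RPT.hid hg rpt_enc.fst).unhide (rpb_n.mono fun x =>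
    (rsz_nat_le _).trans ((e x).trans_le (h x)))).of_eq e

end Inp

lemma betti_hs [K.Coef] {Y : Type} [TopologicalSpace Y] (A : Set Y) (i : ℕ) :
    (betti K.F A i).toENat = K.hs A ∅ (i + 1) := by
  rw [K.bettiS, ← K.hs_image (φ := ⟨Subtype.val, continuous_subtype_val⟩)
    Topology.IsEmbedding.subtypeVal]
  simp

lemma betti_hs2 {Y : Type} [TopologicalSpace Y] (A : Set Y) (i : ℕ) :
    (betti (ZMod 2) A i).toENat = hs A ∅ (i + 1) := by
  refine (all.betti A i).trans ?_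
  rw [← hs_image (φ := ⟨Subtype.val, continuous_subtype_val⟩) Topology.IsEmbedding.subtypeVal]
  simp

theorem run_inp {c : ℕ} {W : Inp (c + 1) → List ℕ} (hW : RPT W) : ∃ (c' : ℕ)
    (A : (ℕ × ℕ × ℕ × List ℕ) × List Bool × List ℤ → Bool × List ℕ × Ins),
    N68a2faeb.IsPolyTime A ∧ ∀ (k s d : ℕ) (φ : Fm s) (P : Fin s → MvPolynomial (Fin k) ℝ)
      (hP : ∀ j, (P j).totalDegree ≤ d), ∀ n, n = (s * (d + 1) + 2) ^ (k + 2) ^ c' →
      ∀ w, w = answer (fun h => A ((k, s, d, φ.code), List.replicate n true, h)) (n ^ c')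
        (coeffs d P) → w.1 = true ∧ ∃ le, w.2.1 = W ⟨k, s, d, n, φ, P, hP, le⟩ := by
  obtain ⟨c', A, a1, a2⟩ := RPT.run' Inp.enc (RPT.hide hW)
    (len := fun z => z.1.2.1 * (min z.1.2.2.1 (z.1.2.1 * z.1.2.2.1) + 1) ^ min z.1.1 z.2.length)
    (by fun_prop) fun x => by
      have := x.small
      rw [x.len_enc]
      simp only [Inp.enc, List.length_replicate, min_eq_left (by omega : x.k ≤ x.n)]
      exact ⟨rfl, by omega, by omega⟩
  refine ⟨max c' (c + 1), A, a1, fun k s d φ P hP N hN w hw => ?_⟩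
  let x : Inp (c + 1) := ⟨k, s, d, N, φ, P, hP, hN ▸ Nat.pow_le_pow_right (by omega)
    (Nat.pow_le_pow_right (by omega) (le_max_right _ _))⟩
  obtain ⟨b1, b2⟩ := a2 x (N ^ max c' (c + 1)) (by
    rw [Inp.enc, List.length_replicate]
    exact Nat.pow_le_pow_right (by have := x.small; omega) (le_max_left _ _))
  exact ⟨hw ▸ b1, x.le, hw ▸ b2⟩

theorem front (h1 : SampU) (h2 : FrontU) (h5 : FmU) (h6 : InpU) : ∃ (c : ℕ)
    (σ : Inp (c + 1) → Type) (_ : ∀ a, Fintype (σ a)) (_ : ∀ a, DecidableEq (σ a))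
    (m n D : Inp (c + 1) → ℕ) (Q : ∀ a, Fin (n a) → MvPolynomial (σ a) ℝ), Sz σ m ∧
    (∀ a, Odd (m a)) ∧ (∀ a, 2 * n a * D a < m a ∧ ∀ j, (Q a j).totalDegree ≤ D a) ∧
    (RPT fun a => List.ofFn fun j => up (Q a j)) ∧ (RPT fun a : Inp (c + 1) => a.k + 1) ∧
    (RPB fun a : Inp (c + 1) => a.k + 1) ∧ ∀ a, a.k ≤ Fintype.card (σ a) ∧
      ∀ (_ : K.Coef), ∀ j < a.k + 2,
        K.hs (cell (Q a) fun _ => 1) ∅ j = K.hs (signSet a.P a.φ.set) ∅ j := by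
  obtain ⟨c1, h1⟩ := h1
  obtain ⟨c2, h2⟩ := h2
  obtain ⟨f, f1, f2⟩ := h5
  have hk : RPT fun x : Inp (c1 + 4 + c2 + 1) => x.k :=
    Inp.rpt_par (g := fun z => z.1) (by fun_prop) (fun _ => rfl) fun x => by have := x.small; omega
  have hs : RPT fun x : Inp (c1 + 4 + c2 + 1) => x.s :=
    Inp.rpt_par (g := fun z => z.2.1) (by fun_prop) (fun _ => rfl) fun x => by
      have := x.small; omega
  have hd : RPT fun x : Inp (c1 + 4 + c2 + 1) => x.e :=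
    Inp.rpt_par (g := fun z => min z.2.2.1 (z.2.1 * z.2.2.1)) (by fun_prop) (fun _ => rfl)
      fun x => by have := x.small; omega
  have bk : RPB fun x : Inp (c1 + 4 + c2 + 1) => x.k :=
    Inp.rpb_n.mono fun x => by have := x.small; omega
  have hP := h6 _ _ _ _ (fun x : Inp (c1 + 4 + c2 + 1) => x.P) hk hs hd bk
    (Inp.rpb_n.mono fun x => by have := x.small; omega) (Inp.rpb_n.mono fun x => x.small.2.2.1)
    Inp.deg' (Inp.rpt_enc.snd.snd.of_eq Inp.coeffs_e)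
  have m1 : ∀ x : Inp (c1 + 4 + c2 + 1), Sm (x.s * (x.d + 1) + 2) (x.k + 2) c1
      ((x.s + x.e + 2) ^ (x.k + 2) ^ c1) := fun x => Nat.pow_le_pow_left x.e_le _
  obtain ⟨T, t1, t2⟩ := h1 _ _ _ _ _ hk hs hd (Inp.rpb_n.mono fun x => x.sm (m1 x) (by omega))
    Inp.deg' hP
  let T' := fun x : Inp (c1 + 4 + c2 + 1) => (T x).filter fun v => f (x.φ.code, v)
  have t3 : RPT T' := RPT.filter t1 (RPT.unhide (RPT.hid f1 (RPT.hid_pair
    (RPT.hid (g := fun z => z.2.2.2) (by fun_prop) (Inp.rpt_enc.fst.comp' (RPT.fst RPT.id')))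
    (RPT.hide (RPT.snd RPT.id')))) (.const 1))
  let e := fun (x : Inp (c1 + 4 + c2 + 1)) (i : Fin (T' x).length) (j : Fin x.s) =>
    (T' x)[i].getD j 0
  have e1 : ∀ x i, List.ofFn (e x i) = (T' x)[i] := fun x i => by
    have := (t2 x).2.1 _ (List.mem_of_mem_filter (List.getElem_mem i.2))
    exact List.ext_getElem (by simpa using this.symm) fun j _ b => by
      rw [List.getElem_ofFn]
      exact List.getD_eq_getElem _ _ b
  have e2 : ∀ x, signSet x.P (range (e x)) = signSet x.P x.φ.set := fun x => by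
    ext y
    refine ⟨fun ⟨i, a⟩ => (f2 _ _ _).1 ?_, fun a => ?_⟩
    · rw [← a, e1]
      exact (List.mem_filter.1 (List.getElem_mem i.2)).2
    · obtain ⟨i, b, d⟩ := List.getElem_of_mem (List.mem_filter.2 ⟨(t2 x).2.2 y, (f2 _ _ _).2 a⟩ :
        _ ∈ T' x)
      exact ⟨⟨i, b⟩, List.ofFn_injective ((e1 x _).trans d)⟩
  obtain ⟨σ, _, _, m, n, D, Q, q1, q2, q3, q4, q5⟩ := h2 _ _ _ _ _ _ e hk hs hd
    (Inp.rpb_n.mono fun x => x.sm (j := c1 + 4 + c2) (Sm.pow (by omega) (by omega)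
      (le_trans ((Nat.add_right_comm _ _ _).le.trans (Nat.add_le_add_left
        ((List.length_filter_le _ _).trans (t2 x).1) _))
        ((x.sm0.mono (by omega) (by omega) c1.zero_le).add (by omega) (by omega) (m1 x))) le_rfl)
      (by omega)) Inp.deg' hP (t3.of_eq fun x => by simp [e1])
  exact ⟨_, σ, _, inferInstance, m, n, D, Q, q1, q2, q3, q4, by fun_prop, by fun_prop,
    fun x => e2 x ▸ q5 x⟩

def Main2 : Prop := ∃ (c : ℕ)
    (A : (ℕ × ℕ × ℕ × List ℕ) × List Bool × List ℤ → Bool × List ℕ × Ins),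
    N68a2faeb.IsPolyTime A ∧
    ∀ (k s d : ℕ) (φ : Fm s) (P : Fin s → MvPolynomial (Fin k) ℝ), (∀ j, (P j).totalDegree ≤ d) →
      ∀ n, n = (s * (d + 1) + 2) ^ (k + 2) ^ c →
      ∀ w, w = answer (fun h => A ((k, s, d, φ.code), List.replicate n true, h)) (n ^ c)
        (coeffs d P) → w.1 = true ∧
        ∀ i ≤ k, betti (ZMod 2) (signSet P φ.set) i = w.2.1.getD i 0

def MainQ : Prop := ∃ (c : ℕ)
    (A : (ℕ × ℕ × ℕ × List ℕ) × List Bool × List ℤ → Bool × List ℕ × Ins)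
    (M : Turing.TM2ComputableAux Bool Bool), N68a2faeb.IsPolyTime A ∧
    ∀ (k s d : ℕ) (φ : Fm s) (P : Fin s → MvPolynomial (Fin k) ℝ), (∀ j, (P j).totalDegree ≤ d) →
      ∀ n, n = (s * (d + 1) + 2) ^ (k + 2) ^ c →
      ∀ w, w = answer (fun h => A ((k, s, d, φ.code), List.replicate n true, h)) (n ^ c)
        (coeffs d P) → w.1 = true ∧
        ∃ (b : List ℕ) (T : ℕ), Outputs M (N487b59b3.bitEncode w.2.1) (N487b59b3.bitEncode b) T ∧
          ∀ i ≤ k, betti ℚ (signSet P φ.set) i = b.getD i 0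

theorem main2 (h1 : SampU) (h2 : FrontU) (h3 : BackT) (h5 : FmU) (h6 : InpU) : Main2 := by
  obtain ⟨c, σ, _, _, m, n, D, Q, q1, q2, q3, q4, r1, r2, q5⟩ := front h1 h2 h5 h6
  obtain ⟨W, w1, w2⟩ := h3 _ σ m n D _ Q q1 q2 q3 q4 r1 r2
  obtain ⟨c', A, a1, a2⟩ := run_inp w1
  refine ⟨c', A, a1, fun k s d φ P hP N hN w hw => ?_⟩
  obtain ⟨b1, le, b2⟩ := a2 k s d φ P hP N hN w hw
  refine ⟨b1, fun i hi => ?_⟩
  rw [b2, ← Cardinal.toENat_eq_natCast, ← (w2 _).2 i (Nat.lt_succ_of_le hi), ← betti_hs2]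
  exact (@betti_hs ⟨ZMod 2⟩ _ _ _ i).trans (((q5 ⟨k, s, d, N, φ, P, hP, le⟩).2 ⟨ZMod 2⟩ _
    (Nat.succ_lt_succ (Nat.lt_succ_of_le hi))).symm.trans (@betti_hs ⟨ZMod 2⟩ _ _ _ i).symm)

theorem mainQ (h1 : SampU) (h2 : FrontU) (h4 : K.Y.BackQ) (h5 : FmU) (h6 : InpU) : MainQ := by
  obtain ⟨c, σ, _, _, m, n, D, Q, q1, q2, q3, q4, r1, r2, q5⟩ := front h1 h2 h5 h6
  obtain ⟨M, h4⟩ := h4
  obtain ⟨W, w1, w2⟩ := h4 _ σ m n D _ Q q1 q2 q3 q4 r1 fun x => Nat.succ_le_succ (q5 x).1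
  obtain ⟨c', A, a1, a2⟩ := run_inp w1
  refine ⟨c', A, M, a1, fun k s d φ P hP N hN w hw => ?_⟩
  obtain ⟨b1, le, b2⟩ := a2 k s d φ P hP N hN w hw
  obtain ⟨u1, t, u2⟩ := w2 ⟨k, s, d, N, φ, P, hP, le⟩
  refine ⟨b1, _, t, b2 ▸ u2, fun i hi => ?_⟩
  rw [← Cardinal.toENat_eq_natCast, List.getD_eq_getElem _ _ (by simp; omega),
    List.getElem_map, List.getElem_range, ENat.natCast_toNat (u1 _)]
  exact (@betti_hs K.Y.cQ _ _ _ i).trans ((q5 ⟨k, s, d, N, φ, P, hP, le⟩).2 _ _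
    (Nat.succ_lt_succ (Nat.lt_succ_of_le hi))).symm

end Pool.Agent.Lib.MP_837412_lc
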