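import Pool.Agent.Lib.MP_837412_lc.U3

/-!
From programs to controls, for inputs that are given through an encoding.
-/

namespace Pool.Agent.Lib.MP_837412_lc

open Pool.Agent.Shared.PolyTime List

theorem RPT.run' {D X : Type} [N487b59b3 D] (φ : X → Hid D × List Bool × List ℝ)
    {f : X → List ℕ} (hf : @RPT X _ (.ofFun φ) _ fun x => Hid.mk (f x)) {len : D × List Bool → ℕ}
    (hl : PT len) (h : ∀ x, len ((φ x).1.val, (φ x).2.1) = (φ x).2.2.length ∧
      (φ x).2.2.length ≤ (φ x).2.1.length ∧ 2 ≤ (φ x).2.1.length) :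
    ∃ (c : ℕ) (A : D × List Bool × List ℤ → Bool × List ℕ × Ins), N68a2faeb.IsPolyTime A ∧
      ∀ x n, (φ x).2.1.length ^ c ≤ n →
        (answer (fun s => A ((φ x).1.val, (φ x).2.1, s)) n (φ x).2.2).1 = true ∧
        (answer (fun s => A ((φ x).1.val, (φ x).2.1, s)) n (φ x).2.2).2.1 = f x := by
  letI : RE X := .ofFun φ
  obtain ⟨P, g, a1, ⟨q, a2⟩, -, a4⟩ := hf
  obtain ⟨c, hc⟩ := eval_le_pow (q.comp (12 * Polynomial.X) + 1)
  let F : D × List Bool × List ℤ → Res (List ℕ) := fun z =>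
    (emit (0, 0, 0) (len (z.1, z.2.1)) z.2.2).bind fun o n => P ((z.1, z.2.1,
      (List.range (min (len (z.1, z.2.1)) z.2.1.length)).map fun i => (i, o)) :
        D × List Bool × List (ℕ × ℕ)) n z.2.2
  have hF : PT F := pt_bind (by fun_prop) (a1.comp'
    (f := fun y : (D × List Bool × List ℤ) × ℕ × ℕ => (((y.1.1, y.1.2.1, (List.range (min
      (len (y.1.1, y.1.2.1)) y.1.2.1.length)).map fun i => (i, y.2.1)) :
        D × List Bool × List (ℕ × ℕ)), y.2.2, y.1.2.2)) (by fun_prop))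
  refine ⟨c, fun z => ((F z).1.isSome, ((F z).1.map Prod.fst).getD [], (F z).2),
    PT.isPolyTime (by fun_prop), fun x n hn => ?_⟩
  obtain ⟨h1, h2, h3⟩ := h x
  have c0 := Go.emit (u := (φ x).2.2) (i := (0, 0, 0)) (by simp [WF])
  obtain ⟨r, o, b1, b2, b3⟩ := a4 ((φ x).2.2 ++ [Ins.val (φ x).2.2 (0, 0, 0)]) (((φ x).1.val, (φ x).2.1,
    (List.range (φ x).2.2.length).map fun i => (i, (φ x).2.2.length)) : D × List Bool × List (ℕ × ℕ)) x
    ⟨rfl, forall₂_same.2 fun _ _ => rfl, forall₂_of_length_eq_of_get (by simp) fun i h1 h2 =>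
      rep_real.2 ⟨_, _, by simpa using At.mono ⟨h2, rfl⟩ (prefix_append _ _),
        by simpa using At.snoc _ _, by simp [Ins.val], by simp [Ins.val, h2]⟩⟩
  have b := (c0.bind (k := fun o => P (((φ x).1.val, (φ x).2.1, (List.range (φ x).2.2.length).map
    fun i => (i, o)) : D × List Bool × List (ℕ × ℕ))) b1).run (n := n)
    (ctl := fun s => ((F ((φ x).1.val, (φ x).2.1, s)).1.isSome,
      ((F ((φ x).1.val, (φ x).2.1, s)).1.map Prod.fst).getD [], (F ((φ x).1.val, (φ x).2.1, s)).2))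
    (fun s => by simp only [F, h1, min_eq_left h2, and_self]) (by
      have e1 := rsz_list_le (l := (φ x).2.1) (B := 1) (by simp)
      have e2 := rsz_list_le (l := (φ x).2.2) (B := 1) (by simp)
      have e3 := (a2 x).trans (eval_mono q (show rsz (φ x) ≤ 12 * (φ x).2.1.length by
        change 2 * 0 + 1 + (2 * rsz (φ x).2.1 + 1 + rsz (φ x).2.2) ≤ _
        omega))
      have e4 := hc _ h3
      simp only [Polynomial.eval_add, Polynomial.eval_comp, Polynomial.eval_mul, Polynomial.eval_X,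
        Polynomial.eval_ofNat, Polynomial.eval_one, length_append, length_singleton] at e4 b3
      omega)
  unfold answer
  rw [b.1]
  simp only [F, h1, min_eq_left h2, b.2]
  exact ⟨rfl, b2⟩

end Pool.Agent.Lib.MP_837412_lc
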