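import Pool.Agent.Lib.MP_837412_lc.YSt
import Pool.Agent.Lib.MP_837412_lc.UP

/-!
The test for a candidate and the answer are computed by the machine in polynomial time.
-/

namespace Pool.Agent.Lib.MP_837412_lc.K.Y

open Set Function

namespace YChk

variable {α : Type} [RE α]

/-- Decided by the machine in polynomial time. -/
def RQ (p : α → Prop) : Prop := RPT fun a => @decide (p a) (Classical.dec _)

namespace RQ

variable {p q r : α → Prop} {n : α → ℕ}

theorem of {i : ∀ a, Decidable (p a)} (h : RPT fun a => @decide (p a) (i a)) : RQ p :=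
  h.of_eq fun _ => by simp

theorem and' (hp : RQ p) (hq : RQ fun a : {a // p a} => q a.1) : RQ fun a => p a ∧ q a :=
  RPT.branch hp (hq.of_eq fun a => by simp [a.2])
    ((RPT.const false).of_eq fun a => by simp [a.2])

theorem and (hp : RQ p) (hq : RQ q) : RQ fun a => p a ∧ q a := RPT.decide_and hp hq

theorem or (hp : RQ p) (hq : RQ q) : RQ fun a => p a ∨ q a := RPT.decide_or hp hq

theorem imp (hp : RQ p) (hq : RQ q) : RQ fun a => p a → q a :=
  (hp.not.or hq).of_eq fun a => by by_cases h : p a <;> simp [h]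

theorem ite {i : ∀ a, Decidable (p a)} (hp : RQ p) (hq : RQ q) (hr : RQ r) :
    RQ fun a => @ite _ (p a) (i a) (q a) (r a) :=
  (RPT.ite hp hq hr).of_eq fun a => by by_cases h : p a <;> simp [h]

theorem ball {p : α → ℕ → Prop} (hn : RPT n) (hb : RPB n)
    (hp : RQ fun x : α × Un => p x.1 x.2.val) : RQ fun a => ∀ i < n a, p a i :=
  RPT.decide_iff (RPT.all (h := fun a (x : Un) => @decide (p a x.val) (Classical.dec _))
    (RPT.rangeU hn hb) hp) fun a => by simp

end RQ

theorem all_range {n : α → ℕ} {p : α → ℕ → Bool} (hn : RPT n) (hb : RPB n)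
    (hp : RPT fun x : α × Un => p x.1 x.2.val) : RPT fun a => (List.range (n a)).all (p a) :=
  (RPT.all (h := fun a (x : Un) => p a x.val) (RPT.rangeU hn hb) hp).of_eq fun a => by
    rw [List.all_map]; rfl

variable {k m n t i j R M G B e len : α → ℕ} {c : α → List ℕ} {u w : α → ℝ}

@[fun_prop] theorem pair (hi : RPT i) (hj : RPT j) : RPT fun a => Nat.pair (i a) (j a) := by
  unfold Nat.pair; fun_prop

@[fun_prop] theorem gN' (hc : RPT c) (ht : RPT t) (hj : RPT j) :
    RPT fun a => gN (c a) (t a) (j a) := by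
  unfold gN; fun_prop

@[fun_prop] theorem gR' (hc : RPT c) (ht : RPT t) (hj : RPT j) :
    RPT fun a => gR (c a) (t a) (j a) := by
  unfold gR; fun_prop

@[fun_prop] theorem gZ' (hc : RPT c) (hi : RPT i) (hj : RPT j) :
    RPT fun a => gZ (c a) (i a) (j a) := by
  unfold gZ; fun_prop

lemma gZ_re (c : List ℕ) (q i : ℕ) : (gZ c q i).re = gR c 3 (Nat.pair q i) := by simp [gZ]

lemma gZ_im (c : List ℕ) (q i : ℕ) : (gZ c q i).im = gR c 4 (Nat.pair q i) := by simp [gZ]

@[fun_prop] theorem dg' (hm : RPT m) (hn : RPT n) (hi : RPT i) (hb : RPB i) :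
    RPT fun a => dg (m a) (n a) (i a) := by
  unfold dg; fun_prop

@[fun_prop] theorem dg_b (hn : RPB n) : RPB fun a => dg (m a) (n a) (i a) := by
  unfold dg; fun_prop

@[fun_prop] theorem gv' (hR : RPT R) (hM : RPT M) (hn : RPT n) (hi : RPT i) (hb : RPB i) :
    RPT fun a => gv (R a) (M a) (n a) (i a) := by
  unfold gv; fun_prop

theorem tup' (hG : RPT G) (hl : RPT len) (hb : RPB len) (h : RPB fun a => G a ^ len a) :
    RPT fun a => tup (G a) (len a) :=
  RPT.map (RPT.range (by fun_prop) h) (RPT.map_range (by fun_prop) (by fun_prop) (by fun_prop))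

theorem vr' {ok : α → ℕ → Bool} (hk : RPT k) (kb : RPB k) (hB : RPT B) (he : RPT e)
    (hl : RPT len) (hb : RPB len) (h : RPB fun a => (B a ^ k a) ^ len a)
    (ho : RPT fun x : α × ℕ => ok x.1 x.2) :
    RPT fun a => vr (k a) (B a) (e a) (len a) (ok a) :=
  RPT.filter (tup' (by fun_prop) hl hb h) (RPT.and (RPT.all (by fun_prop) (by fun_prop))
    (RPT.all (by fun_prop) (RPT.all (by fun_prop)
      (all_range (by fun_prop) (by fun_prop) (by fun_prop)))))

@[fun_prop] theorem walk' {s : α → List (Tl × Tl × Tl)} {t : α → Tl} (hs : RPT s) (ht : RPT t) :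
    RPT fun a => walk (s a) (t a) := by
  unfold walk; fun_prop

section

variable (hk : RPT k) (kb : RPB k) (hm : RPT m) (mb : RPB m) (hb : RPB fun a => m a ^ k a)
  (hc : RPT c)
include hk kb hm mb hb hc

theorem fN' (hR : RPT R) (hM : RPT M) (hn : RPT n) :
    RPT fun a => fN (k a) (m a) (gR (c a) 2) (gv (R a) (M a) (n a)) := by
  unfold fN
  refine RPT.sub' (RPT.add (RPT.sum_range hk kb (by fun_prop)) (RPT.add .one (RPT.mul
    (by fun_prop) (RPT.sum_range hk kb (by fun_prop))))) (RPT.sum_range (by fun_prop) hb ?_)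
  exact RPT.ite (RPT.decide_lt (RPT.sum_range (by fun_prop) (by fun_prop) (by fun_prop))
    (by fun_prop)) (RPT.mul (by fun_prop)
      (RPT.prod_range (by fun_prop) (by fun_prop) (by fun_prop))) .zero

theorem cB' : RPT fun a => cB (k a) (m a) (gR (c a) 2) := by
  unfold cB
  exact RPT.add (by fun_prop) (RPT.sum_range (by fun_prop) hb (by fun_prop))

theorem gOk (hu : RPT u) (hw : RPT w) (hR : RPT R) (hM : RPT M) :
    RQ fun a => GOk (k a) (m a) (gR (c a) 2) (u a) (w a) (R a) (M a) := by
  have := cB' hk kb hm mb hb hc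
  exact .and (.of (RPT.decide_rlt (i := fun _ => inferInstance) (by fun_prop) hw))
    (.and (.of (RPT.decide_lt (i := fun _ => inferInstance) (by fun_prop) hM))
    (.and (.of (RPT.decide_rle (i := fun _ => inferInstance)
      ((((RPT.ofNat 2).add this).add (by fun_prop)).add (by fun_prop)) (by fun_prop)))
    (.of (RPT.decide_rlt (i := fun _ => inferInstance) (((RPT.mul (by fun_prop)
      (RPT.add (by fun_prop) this)).mul (by fun_prop)).mul (by fun_prop)) (by fun_prop)))))

theorem bt' {hv : List (List ℕ) × List (List ℕ) → ℕ} (h : RPT hv) (hu : RPT u) (hw : RPT w)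
    (hR : RPT R) (hM : RPT M) (hj : RPT j) (jb : RPB j)
    (gb : RPB fun a => ((2 * R a * M a + 1) ^ k a) ^ (j a + 2)) :
    RPT fun a => bt hv (k a) (m a) (gR (c a) 2) (u a) (w a) (R a) (M a) (j a) := by
  have f : RPT fun x : α × ℕ => fN (k x.1) (m x.1) (gR (c x.1) 2) (gv (R x.1) (M x.1) x.2) :=
    fN' (by fun_prop) (by fun_prop) (by fun_prop) (by fun_prop) (hb.comp (.fst .id'))
      (by fun_prop) (by fun_prop) (by fun_prop) (by fun_prop)
  exact h.comp' (RPT.pair
    (vr' hk kb (by fun_prop) (by fun_prop) (by fun_prop) (by fun_prop) (gb.mono fun a =>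
      Nat.pow_le_pow_right (by positivity) (by omega)) (RPT.decide_rlt f (by fun_prop)))
    (vr' hk kb (by fun_prop) (by fun_prop) (by fun_prop) (by fun_prop) gb
      (RPT.decide_rlt f (by fun_prop))))

theorem tot' {hv : List (List ℕ) × List (List ℕ) → ℕ} (h : RPT hv) {lb : α → List Bool}
    (hl : RPT lb) (b : ℕ) (hj : RPT j) (jb : RPB j)
    (gb : RPB fun a => ((2 * gN (c a) 0 2 * gN (c a) 0 3 + 1) ^ k a) ^ (j a + 2)) :
    RPT fun a => tot hv (k a) (m a) (lb a) (c a) b (j a) :=
  RPT.sum_range (by fun_prop) hb (RPT.ite (by fun_prop) (bt' (by fun_prop) (by fun_prop)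
    (by fun_prop) (by fun_prop) (hb.comp (.fst .id')) (by fun_prop) h (by fun_prop) (by fun_prop)
    (by fun_prop) (by fun_prop) (by fun_prop) (by fun_prop) (gb.comp (.fst .id'))) (.const 0))

end

theorem cert {x : α → ℝ → ℂ → ℂ} {T : α → List Tl} {D Q : α → ℕ}
    (hx : RPT fun p : α × ℝ × ℂ => x p.1 p.2.1 p.2.2) (hT : RPT T) (hn : RPT n) (nb : RPB n)
    (hD : RPT D) (Db : RPB D) (hQ : RPT Q) (Qb : RPB Q) (hc : RPT c) (hu : RPT u) :
    RQ fun a => Cert (x a) (T a) (n a) (D a) (Q a) (gN (c a) 1) (gZ (c a)) (u a) := by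
  simp only [Cert, gZ_re, gZ_im]
  refine .and (.of (RPT.decide_lt (i := fun _ => inferInstance) (by fun_prop) hQ))
    (.and (.of (RPT.decide_rlt (i := fun _ => inferInstance) (by fun_prop) hu))
    (.and (.of (RPT.decide_eq (i := fun _ => inferInstance) (by fun_prop) (by fun_prop)))
    (.and (.of (RPT.decide_eq (i := fun _ => inferInstance) (by fun_prop) (by fun_prop)))
    (.and (.ball (by fun_prop) (by fun_prop)
      (.or (.of (RPT.decide_eq (i := fun _ => inferInstance) (by fun_prop) (by fun_prop)))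
        (.of (RPT.decide_eq (i := fun _ => inferInstance) (by fun_prop) (by fun_prop)))))
    (.ball hQ Qb (.ball (by fun_prop) (by fun_prop) (.and
      (.ball (by fun_prop) (by fun_prop) (.and
        (.imp (.of (RPT.decide_lt (i := fun _ => inferInstance) (by fun_prop) (by fun_prop)))
          (.of (RPT.decide_rle (i := fun _ => inferInstance) (by fun_prop) (by fun_prop))))
        (.imp (.of (RPT.decide_lt (i := fun _ => inferInstance) (by fun_prop) (by fun_prop)))
          (.of (RPT.decide_rle (i := fun _ => inferInstance) (by fun_prop) (by fun_prop))))))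
      (.ball (by fun_prop) (by fun_prop)
        (.of (RPT.decide_rlt (i := fun _ => inferInstance) (by fun_prop) (by fun_prop)))))))))))

theorem pad (hk : RPT k) (hm : RPT m) (hc : RPT c) : RQ fun a => Pad (k a) (m a) (c a) := by
  refine .and' (.of (RPT.decide_le (i := fun _ => inferInstance) hk hc.length)) ?_
  have kb : RPB fun a : {a // k a ≤ (c a).length} => k a.1 :=
    (RPB.length hc.sub).mono fun a => a.2
  exact .and (.of (RPT.decide_le (i := fun _ => inferInstance) (by fun_prop) (by fun_prop)))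
    (.and (.of (RPT.decide_le (i := fun _ => inferInstance)
      (RPT.npow (by fun_prop) (by fun_prop) (((RPB.const 2).mul kb).add (.const 2))) (by fun_prop)))
    (.and (.of (RPT.decide_le (i := fun _ => inferInstance)
      (RPT.nmul (RPT.npow (by fun_prop) (by fun_prop) kb) (by fun_prop)) (by fun_prop)))
    (.and (.of (RPT.decide_le (i := fun _ => inferInstance) (by fun_prop) (by fun_prop)))
    (.of (RPT.decide_le (i := fun _ => inferInstance) (RPT.npow
      (RPT.npow (by fun_prop) (by fun_prop) kb) (by fun_prop) (kb.add (.const 2))) (by fun_prop))))))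

theorem pow_b (hc : RPT c) (h : ∀ a, Pad (k a) (m a) (c a)) : RPB fun a => m a ^ k a :=
  (RPB.length hc).mono fun a =>
    (Nat.le_mul_of_pos_right _ (by positivity)).trans (h a).2.2.2.1

theorem ok {cv : Un × ℕ × ℕ × List ℝ × ℂ × ℂ → ℂ} (h : RPT cv) {T : α → List Tl} {t : α → Tl}
    (hk : RPT k) (hm : RPT m) (hT : RPT T) (ht : RPT t) (hc : RPT c) :
    RQ fun a => Ok cv (k a) (m a) (T a) (t a) (c a) := by
  refine .and' (pad hk hm hc) ?_
  have key : ∀ {β : Type} [RE β] (f : β → α), RPT f → (∀ b, Pad (k (f b)) (m (f b)) (c (f b))) →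
      (RPB fun b => k (f b)) ∧ (RPB fun b => m (f b)) ∧ (RPB fun b => m (f b) ^ k (f b)) ∧
      (RPB fun b => m (f b) ^ k (f b) * (((k (f b) + 1) * (m (f b) + 1) + 1) * 2)) ∧
      RPB fun b => gN (c (f b)) 0 0 := fun f hf hp =>
    have l := RPB.length (hc.comp' hf)
    ⟨l.mono fun b => (hp b).1, l.mono fun b => (hp b).2.1, pow_b (hc.comp' hf) hp,
      l.mono fun b => (hp b).2.2.2.1, l.mono fun b => (hp b).2.2.2.2.1⟩
  obtain ⟨kb, mb, pb, Db, Qb⟩ := key (Subtype.val : {a // Pad (k a) (m a) (c a)} → α)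
    (.val .id') fun a => a.2
  have pw : RPT fun a : {a // Pad (k a) (m a) (c a)} => m a.1 ^ k a.1 :=
    RPT.npow hm.sub hk.sub kb
  have ls : RPT fun a : {a // Pad (k a) (m a) (c a)} =>
      (List.range (m a.1 ^ k a.1)).map (gR (c a.1) 2) := RPT.map_range pw pb (by fun_prop)
  refine .and (cert (h.comp' (RPT.pair (by fun_prop) (RPT.pair (by fun_prop) (RPT.pair
    (by fun_prop) (RPT.pair (ls.comp' (.fst .id')) (by fun_prop)))))) hT.sub pw pb
    (pw.nmul (by fun_prop)) Db (by fun_prop) Qb hc.sub (by fun_prop))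
    (.ball pw pb (.ball (.const 2) (.const 2) (.and ?_ (.ball (pw.comp' (.fst (.fst .id')))
      (pb.comp (.fst (.fst .id'))) ?_))))
  · exact gOk (by fun_prop) (kb.comp (.fst (.fst .id'))) (by fun_prop) (mb.comp (.fst (.fst .id')))
      (pb.comp (.fst (.fst .id'))) (by fun_prop) (by fun_prop) (by fun_prop) (by fun_prop)
      (by fun_prop)
  · simp only [gZ_re]
    exact .ite (.of (RPT.decide_lt (i := fun _ => inferInstance) (by fun_prop) (by fun_prop)))
      (.of (RPT.decide_rle (i := fun _ => inferInstance) (by fun_prop) (by fun_prop)))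
      (.of (RPT.decide_rle (i := fun _ => inferInstance) (by fun_prop) (by fun_prop)))

theorem ans {hv : List (List ℕ) × List (List ℕ) → ℕ} (h : RPT hv) {lb : α → List Bool}
    (hk : RPT k) (hm : RPT m) (hl : RPT lb) (hc : RPT c) (hp : ∀ a, Pad (k a) (m a) (c a)) :
    RPT fun a => (List.range (k a + 1)).map fun j =>
      tot hv (k a) (m a) (lb a) (c a) 1 j - tot hv (k a) (m a) (lb a) (c a) 0 j := by
  have kb : RPB k := (RPB.length hc).mono fun a => (hp a).1
  have mb : RPB m := (RPB.length hc).mono fun a => (hp a).2.1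
  have t : ∀ b, RPT fun x : {x : α × Un // x.2.val < k x.1 + 1} =>
      tot hv (k x.1.1) (m x.1.1) (lb x.1.1) (c x.1.1) b x.1.2.val := fun b =>
    tot' (by fun_prop) (by fun_prop) (by fun_prop) (by fun_prop)
      ((pow_b hc hp).comp (.fst (.val .id'))) (by fun_prop) h (by fun_prop) b (by fun_prop)
      (by fun_prop) ((RPB.length (hc.comp' (.fst (.val .id')))).mono fun x =>
        (Nat.pow_le_pow_right (by positivity) (by have := x.2; omega)).trans (hp x.1.1).2.2.2.2.2)
  exact RPT.map_range_sub (by fun_prop) (by fun_prop) ((t 1).nsub (t 0))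

end YChk

open YChk in
theorem chkR : ChkR := by
  intro cv hv h1 h2
  refine RPT.branch (ok h1 (α := Wd × List ℕ) (k := fun x => x.1.1) (m := fun x => x.1.2.1)
    (T := fun x => walk x.1.2.2.1 x.1.2.2.2.1) (t := fun x => x.1.2.2.2.1) (c := fun x => x.2)
    (by fun_prop) (by fun_prop) (by fun_prop) (by fun_prop) (by fun_prop))
    ((ans h2 (by fun_prop) (by fun_prop) (by fun_prop) (by fun_prop) fun a => a.2.1).some'.of_eq
      fun a => (if_pos a.2).symm) (RPT.none'.of_eq fun a => (if_neg a.2).symm)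

end Pool.Agent.Lib.MP_837412_lc.K.Y
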