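import Pool.Agent.Lib.MP_837412_lc.YSt
import Pool.Agent.Lib.MP_837412_lc.KG3

/-!
Two pencils with the same walk have real sublevel sets with the same homology.
-/

namespace Pool.Agent.Lib.MP_837412_lc.K.Y

open Set Function Filter Topology MvPolynomial
open Pool.Agent.Shared.Mod2 (I)

namespace YKey

variable {σ ι : Type} {c c' : ℝ → ι → ℂ} {T : List Tl}

lemma tau_mono {τ : ℕ → ℝ} {n : ℕ} (h : ∀ a < n, τ a < τ (a + 1)) {a b : ℕ} (ab : a ≤ b)
    (hb : b ≤ n) : τ a ≤ τ b := by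
  induction b, ab using Nat.le_induction with
  | base => exact le_rfl
  | succ b _ ih => exact (ih (by omega)).trans (h b (by omega)).le

lemma cover {τ : ℕ → ℝ} {s : ℝ} (h0 : τ 0 ≤ s) (n : ℕ) (h : s ≤ τ (n + 1)) :
    ∃ a < n + 1, s ∈ Icc (τ a) (τ (a + 1)) := by
  induction n with
  | zero => exact ⟨0, one_pos, h0, h⟩
  | succ n ih =>
    rcases le_total s (τ (n + 1)) with e | e
    · obtain ⟨a, a1, a2⟩ := ih e
      exact ⟨a, by omega, a2⟩
    · exact ⟨n + 1, by omega, e, h⟩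

lemma pos (h : Wk c T) : 0 < T.length := by
  obtain ⟨τ, h0, h1, -⟩ := h
  refine Nat.pos_of_ne_zero fun e => ?_
  rw [e, h0] at h1
  exact zero_ne_one h1

lemma ref_at (h : Wk c T) {s : ℝ} (hs : s ∈ Icc (0 : ℝ) 1) :
    ∃ a < T.length, Ref (T.getD a []) (c s) := by
  have hp := pos h
  obtain ⟨τ, h0, h1, h2⟩ := h
  obtain ⟨n, hn⟩ : ∃ n, T.length = n + 1 := ⟨_, (Nat.succ_pred_eq_of_pos hp).symm⟩
  obtain ⟨a, a1, a2⟩ := cover (τ := τ) (h0 ▸ hs.1) n (by rw [← hn, h1]; exact hs.2)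
  exact ⟨a, hn ▸ a1, (h2 a (hn ▸ a1)).2 s a2⟩

lemma dn_inj {d x : ι → ℂ} (hd : Injective d) (h : Dn d x) : Injective x := fun i j e => by
  refine hd (Complex.ext ?_ ?_)
  · rcases lt_trichotomy (d i).re (d j).re with c | c | c
    exacts [absurd (congrArg Complex.re e) ((h i j).1 c).ne, c,
      absurd (congrArg Complex.re e) ((h j i).1 c).ne']
  · rcases lt_trichotomy (d i).im (d j).im with c | c | c
    exacts [absurd (congrArg Complex.im e) ((h i j).2 c).ne, c,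
      absurd (congrArg Complex.im e) ((h j i).2 c).ne']

lemma inj (hT : Chn T) (h : Wk c T) {s : ℝ} (hs : s ∈ Icc (0 : ℝ) 1) : Injective (c s) := by
  obtain ⟨a, a1, e, he⟩ := ref_at h hs
  exact (e.injective_comp _).1 (dn_inj (hT a a1).1 he)

lemma congr (h : Wk c T) (e : ∀ s ∈ Icc (0 : ℝ) 1, ∃ f : Equiv.Perm ι, c' s = c s ∘ f) :
    Wk c' T := by
  obtain ⟨τ, h0, h1, h2⟩ := h
  refine ⟨τ, h0, h1, fun a ha => ⟨(h2 a ha).1, fun s hs => ?_⟩⟩
  obtain ⟨f, hf⟩ := e s ⟨(h0 ▸ tau_mono (fun a ha => (h2 a ha).1) a.zero_le ha.le).trans hs.1,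
    hs.2.trans (h1 ▸ tau_mono (fun a ha => (h2 a ha).1) ha le_rfl)⟩
  obtain ⟨g, hg⟩ := (h2 a ha).2 s hs
  exact ⟨g.trans f.symm, by simpa [hf, comp_def] using hg⟩

variable [Fintype σ] [DecidableEq σ] {m : ℕ}

lemma lift {p : MvPolynomial σ ℂ} {l : ℝ} {η : ℕ} (hT : Chn T)
    (h : Wk (fun s => Lam m p (arc l η s)) T) : ∃ a : ℝ → Std σ m → ℂ, Continuous a ∧
      a 0 = Lam m p 0 ∧ Wk a T ∧
      ∀ s ∈ Icc (0 : ℝ) 1, ∃ f : Equiv.Perm (Std σ m), a s = Lam m p (arc l η s) ∘ f := by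
  obtain ⟨a, a1, a2, a3⟩ := liftS nearS _ (fun u : I => Lam m p (arc l η u))
    (fun j => (all.cont_chi _ j).comp ((continuous_arc l η).comp continuous_subtype_val))
    fun u => inj hT h u.2
  have e : ∀ s ∈ Icc (0 : ℝ) 1, ∃ f : Equiv.Perm (Std σ m),
      a (projIcc 0 1 zero_le_one s) = Lam m p (arc l η s) ∘ f := fun s hs => by
    rw [projIcc_of_mem _ hs]; exact a3 _
  refine ⟨fun s => a (projIcc 0 1 zero_le_one s), a1.comp continuous_projIcc, ?_, congr h e, e⟩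
  simp only [projIcc_left]
  exact a2.trans (by simp [arc_zero])

variable [Coef]

lemma core {p p' : MvPolynomial σ ℝ} (hm : 2 ≤ m) (ho : Odd m) (hp : p.totalDegree < m)
    (hp' : p'.totalDegree < m) {l l' : I → ℂ} {L L' : ℝ} (c1 : Continuous l) (c2 : Continuous l')
    (z1 : l 0 = 0) (z2 : l' 0 = 0) (o1 : l 1 = L) (o2 : l' 1 = L') {a b : I → Std σ m → ℂ}
    (a1 : Continuous a) (b1 : Continuous b) (ab : a 0 = b 0)
    (a3 : ∀ u, ∃ f : Equiv.Perm _, a u = Lam m (cx' p) (l u) ∘ f)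
    (b3 : ∀ u, ∃ f : Equiv.Perm _, b u = Lam m (cx' p') (l' u) ∘ f)
    (hi : ∀ u (r : I), Injective fun i => (1 - (r : ℝ)) * a u i + (r : ℝ) * b u i) {t t' : ℝ}
    (ht : ∀ i, (a 1 i).re ≠ t ∧ (b 1 i).re ≠ t' ∧ ((a 1 i).re < t ↔ (b 1 i).re < t')) (j : ℕ) :
    hs {y | eval y (Fl m p L) < t} ∅ j = hs {y | eval y (Fl m p' L') < t'} ∅ j := by
  have hc := (deg_cx _).trans_lt hp
  have hc' := (deg_cx _).trans_lt hp'
  let c : I × I → Std σ m → ℂ := fun x i => (1 - (x.2 : ℝ)) * a x.1 i + (x.2 : ℝ) * b x.1 i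
  obtain ⟨ψ, p1, p2, p3⟩ := allK.plane _ c (by fun_prop) fun x => hi x.1 x.2
  have ne : ∀ (r : I) i, (c (1, r) i).re ≠ (1 - r) * t + r * t' := fun r i => by
    obtain ⟨t1, t2, t3⟩ := ht i
    have e2 : (c (1, r) i).re = (1 - r) * (a 1 i).re + r * (b 1 i).re := by simp [c]
    rw [e2]
    rcases t1.lt_or_gt with d | d
    · exact (mix_lt d (t3.1 d)).ne
    · exact (mix_lt d (t2.lt_or_gt.resolve_left fun d' => d.not_gt (t3.2 d'))).ne'
  let γ : I → I × I := fun s => (projIcc 0 1 zero_le_one (max (1 - 3 * s) (3 * s - 2)),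
    projIcc 0 1 zero_le_one (3 * s - 1))
  have cγ : Continuous γ := (continuous_projIcc.comp (by fun_prop)).prodMk
    (continuous_projIcc.comp (by fun_prop))
  have γ0 : γ 0 = (1, 0) := Prod.ext (projIcc_of_right_le zero_le_one (by simp))
    (projIcc_of_le_left zero_le_one (by simp))
  have γ1 : γ 1 = (1, 1) := Prod.ext (projIcc_of_right_le zero_le_one (by norm_num))
    (projIcc_of_right_le zero_le_one (by norm_num))
  have γu : ∀ s, (γ s).2 = 0 ∨ (γ s).1 = 0 ∨ (γ s).2 = 1 := fun s => by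
    rcases le_total (3 * s : ℝ) 1 with d | d
    · exact Or.inl (projIcc_of_le_left zero_le_one (by linarith))
    rcases le_total (3 * s : ℝ) 2 with d' | d'
    · exact Or.inr (Or.inl (projIcc_of_le_left zero_le_one (max_le (by linarith) (by linarith))))
    · exact Or.inr (Or.inr (projIcc_of_right_le zero_le_one (by linarith)))
  have f0 : ∀ z : ℂ, Fl2 m (cx' p) (cx' p') z 0 = Fl m (cx' p) z := fun z => by simp [Fl2]
  have f1 : ∀ z : ℂ, Fl2 m (cx' p) (cx' p') 0 z = Fl m (cx' p') z := fun z => by simp [Fl2, Fl]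
  obtain ⟨w, ε, κ, B, w0, tm⟩ := allK.tame σ I m (cx' p) (cx' p')
    (fun s => (1 - ((γ s).2 : ℝ)) * l (γ s).1) (fun s => ((γ s).2 : ℝ) * l' (γ s).1)
    (fun s => (1 - (γ s).2) * t + (γ s).2 * t') (fun s => ψ (γ s)) ho hc hc' (by fun_prop)
    (by fun_prop) (by fun_prop) (p1.comp cγ) fun s z hz => by
      have hu := γu s
      generalize γ s = x at hu hz ⊢
      obtain ⟨u, r⟩ := x
      suffices ∃ i, MvPolynomial.eval z (Fl2 m (cx' p) (cx' p') ((1 - (r : ℝ)) * l u) ((r : ℝ) * l' u)) =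
          c (u, r) i by
        obtain ⟨i, hi⟩ := this
        rw [hi, p3]
        exact ne r i
      rcases hu with rfl | rfl | rfl
      · obtain ⟨f, hf⟩ := a3 u
        simp only [Icc.coe_zero, Complex.ofReal_zero, sub_zero, one_mul, zero_mul, f0] at hz ⊢
        obtain ⟨i, hi⟩ := (all.crit σ m _ _ hm hc z hz).1
        exact ⟨f.symm i, by simp [c, hf, hi]⟩
      · simp only [z1, z2, mul_zero, f0] at hz ⊢
        obtain ⟨f, hf⟩ := a3 0
        obtain ⟨i, hi⟩ := (all.crit σ m _ _ hm hc z hz).1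
        refine ⟨f.symm i, ?_⟩
        simp only [c, ← ab, hf, z1, comp_apply, Equiv.apply_symm_apply, hi]
        ring
      · obtain ⟨f, hf⟩ := b3 u
        simp only [Icc.coe_one, Complex.ofReal_one, sub_self, one_mul, zero_mul, f1] at hz ⊢
        obtain ⟨i, hi⟩ := (all.crit σ m _ _ hm hc' z hz).1
        exact ⟨f.symm i, by simp [c, hf, hi]⟩
  have zx : ∀ x : σ → ℝ, zz (x, 0) = fun i => (x i : ℂ) := fun x => by ext i; simp [zz]
  have := allK.ends σ I _ _ ε κ B 0 1 (Fl m p L) (Fl m p' L') tm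
    (fun q => by simp [γ0, p2, f0, o1, cx_Fl]) (fun q => by simp [γ1, p2, f1, o2, cx_Fl]) j
  simpa [γ0, γ1, p2, f0, f1, o1, o2, ← cx_Fl, zx, eval_cx, div_neg_iff, w0, (w0 _).not_gt,
    -eval_map] using this

end YKey

open YKey

theorem keyS [Coef] (h1 : JoinS) (h2 : DnU) : KeyS := by
  intro σ _ _ m η η' p p' l l' a a' T t e e' hm ho hp hp' hT w w' ht d d' hl j
  obtain ⟨A, A1, A2, A3, A4⟩ := lift hT w
  obtain ⟨B, B1, B2, B3, B4⟩ := lift hT w'
  have ab : A 0 = B 0 := by rw [A2, B2]; exact Lam_zero m _ _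
  obtain ⟨γ, γ', e0, c1, c2, z1, z2, o1, o2, d1, d2, hu⟩ := h1 _ A B T t A1 B1 ab hT A3 B3 ht
  have it : Injective (pts t) := ht ▸ (hT _ (Nat.sub_one_lt (pos w).ne')).1
  obtain ⟨f, hf⟩ := A4 1 ⟨zero_le_one, le_rfl⟩
  obtain ⟨f', hf'⟩ := B4 1 ⟨zero_le_one, le_rfl⟩
  rw [arc_one] at hf hf'
  obtain rfl : e = e0.trans f := h2 _ _ _ _ _ _ it d (by rw [hf] at d1; exact d1)
  obtain rfl : e' = e0.trans f' := h2 _ _ _ _ _ _ it d' (by rw [hf'] at d2; exact d2)
  refine core hm ho hp hp' (l := fun u => arc l η (γ u)) (l' := fun u => arc l' η' (γ' u))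
    (a := fun u => A (γ u)) (b := fun u => B (γ' u)) ((continuous_arc _ _).comp c1)
    ((continuous_arc _ _).comp c2) (by simp [z1, arc_zero]) (by simp [z2, arc_zero])
    (by simp [o1, arc_one]) (by simp [o2, arc_one]) (A1.comp c1) (B1.comp c2) (by simp [z1, z2, ab])
    (fun u => A4 _ (hu u).1) (fun u => B4 _ (hu u).2.1) (fun u => (hu u).2.2) (fun i => ?_) j
  obtain ⟨i, rfl⟩ := e0.surjective i
  simpa [o1, o2, hf, hf'] using hl i

end Pool.Agent.Lib.MP_837412_lc.K.Y
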