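import Pool.Agent.Lib.MP_837412_lc.YKey

/-!
Accepted candidates give the right answer.
-/

namespace Pool.Agent.Lib.MP_837412_lc.K.Y

open Set Function Filter Topology MvPolynomial
open Pool.Agent.Shared.Mod2 (I)

namespace YP

variable {σ τ ι : Type} [Fintype σ] {m : ℕ}

lemma pl_congr {co co' : ℕ → ℝ} (h : ∀ n < m ^ Fintype.card σ, co n = co' n) :
    pl σ m co = pl σ m co' :=
  Finset.sum_congr rfl fun n hn => by rw [h n (Finset.mem_range.1 hn)]

lemma pl_list (co : ℕ → ℝ) :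
    (pl σ m fun n => ((List.range (m ^ Fintype.card σ)).map co).getD n 0) = pl σ m co :=
  pl_congr fun n hn => by simp [List.getD_eq_getElem?_getD, hn]

lemma isP_chi {T : Type} [Fintype ι] {φ : T → ℂ} {d : ℕ} {c : T → ι → ℂ} (h : PP φ d c) (w : ℂ) :
    IsP φ (Fintype.card ι * d) fun t => (chi (c t)).eval w :=
  (IsP.sum (Finset.range (Fintype.card ι + 1)) fun j _ =>
    (h.coeff_chi j).const_mul (w ^ j)).congr fun t => by
      rw [Polynomial.eval_eq_sum_range, natDegree_chi]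
      exact Finset.sum_congr rfl fun j _ => mul_comm _ _

lemma walk_last (s : List (Tl × Tl × Tl)) (t : Tl) :
    (walk s t).getD ((walk s t).length - 1) [] = t := by
  simp [walk, List.getD_eq_getElem?_getD]

lemma wk_len [Fintype ι] {c : ℝ → ι → ℂ} {T : List Tl} (h : Wk c T) {a : ℕ} (ha : a < T.length) :
    (T.getD a []).length = Fintype.card ι := by
  obtain ⟨τ, -, -, h⟩ := h
  obtain ⟨e, -⟩ := (h a ha).2 _ ⟨le_rfl, (h a ha).1.le⟩
  simpa using Fintype.card_congr e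

lemma gap [Finite ι] (v : ι → ℝ) : ∃ δ > 0, (∀ i j, v i < v j → v i + δ < v j) ∧
    ∀ i, v i < 0 → v i + δ < 0 := by
  have h : ∀ a b : ℝ, ∀ᶠ δ in 𝓝[>] (0 : ℝ), a < b → a + δ < b := fun a b => by
    by_cases hi : a < b
    · exact ((eventually_lt_nhds (sub_pos.2 hi)).filter_mono nhdsWithin_le_nhds).mono
        fun _ h _ => by linarith
    · exact Eventually.of_forall fun _ h => absurd h hi
  exact ((eventually_mem_nhdsWithin (s := Ioi (0 : ℝ))).and ((eventually_all.2 fun i =>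
    eventually_all.2 fun j => h (v i) (v j)).and (eventually_all.2 fun i => h (v i) 0))).exists

lemma iso_dn {a b : ι → ℂ} (h : Iso a b) : Dn b a :=
  fun i j => ⟨(h.re_lt i j).2, (h.im_lt i j).2⟩

lemma pts_lt {t : Tl} (i j : Fin t.length) :
    (pts t i).re < (pts t j).re ↔ (t.getD i (0, 0)).1 < (t.getD j (0, 0)).1 := by
  simp [pts, List.getD_eq_getElem?_getD]

variable [DecidableEq σ] [Fintype τ]

lemma card_std : Fintype.card (Std σ m) = m ^ Fintype.card σ := by simp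

lemma pp_arc (p : MvPolynomial σ ℂ) (l : ℝ) (η : ℕ) :
    PP Complex.ofReal ((Kf σ m + 1) * 2) fun s => Lam m p (arc l η s) :=
  (all.lamP σ m p).comp (isP_arc l η)

lemma La_one (P : τ → MvPolynomial σ ℝ) (η : ℕ) : La m (cx' (sq P)) η 1 = Le m P := by
  rw [La, arc_one, Le]

variable [Coef]

/-- The homology of the cell from the homology of sublevel sets. -/
lemma cell_eq (h : RealF) {P : τ → MvPolynomial σ ℝ} {π : τ → SignType} {lb : List Bool} {t : Tl}
    (e : Fin t.length ≃ Std σ m) (hm : 2 ≤ m) (ho : Odd m) (hp : (sq P).totalDegree < m)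
    (hπ : ∀ j, π j ≠ 0)
    (hl : ∀ i : Fin _, lb.getD (i : ℕ) false = true ↔ (Le m P (e i)).re < 0 ∧
      (Le m P (e i)).im = 0 ∧ (lab m P (Le m P (e i))).2.2.1 = π) {δ : ℝ} (h0 : 0 < δ)
    (h1 : ∀ i j, (Le m P i).re < (Le m P j).re → (Le m P i).re + δ < (Le m P j).re)
    (h2 : ∀ i, (Le m P i).re < 0 → (Le m P i).re + δ < 0) (j : ℕ) :
    hs (cell P π) ∅ j + ∑ i : Fin t.length, (if lb.getD (i : ℕ) false then
      hs {y | eval y (Fl m (sq P) (ls m (cx' (sq P)))) < (Le m P (e i)).re - δ} ∅ j else 0) =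
    ∑ i : Fin t.length, (if lb.getD (i : ℕ) false then
      hs {y | eval y (Fl m (sq P) (ls m (cx' (sq P)))) < (Le m P (e i)).re + δ} ∅ j else 0) ∧
    hs (cell P π) ∅ j ≠ ⊤ := by
  obtain ⟨R, hR⟩ := allK.rm_of hm ho hp hπ 1
  obtain ⟨x, hx⟩ := all.mor_ls hm ((deg_cx _).trans_lt hp)
  have := h _ _ _ _ _ _ _ _ δ (Finset.univ.filter fun i => lb.getD (e.symm i : ℕ) false) R h0 h1 h2
    (fun i j a b c => hx.inj (Complex.ext c
      ((sign_eq_zero_iff.1 a.1).trans (sign_eq_zero_iff.1 b.1).symm)))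
    (fun i => by
      obtain ⟨i, rfl⟩ := e.surjective i
      simp only [Finset.mem_filter, Finset.mem_univ, true_and, Equiv.symm_apply_apply, hl,
        Equiv.Perm.coe_one, id_eq]
      exact ⟨fun a => ⟨⟨sign_eq_zero_iff.2 a.2.1, a.2.2⟩, a.1⟩,
        fun a => ⟨a.2, sign_eq_zero_iff.1 a.1.1, a.1.2⟩⟩) j
  rw [← hR, Finset.sum_filter, Finset.sum_filter, ← e.sum_comp, ← e.sum_comp] at this
  simpa only [Equiv.symm_apply_apply, Equiv.Perm.coe_one, id_eq] using this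

/-- One level of an accepted candidate. -/
lemma level (h1 : CertS) (h2 : PlS) (h3 : KeyS) (h4 : BetS)
    {cv : Un × ℕ × ℕ × List ℝ × ℂ × ℂ → ℂ} {hv : List (List ℕ) × List (List ℕ) → ℕ}
    (hcv : ∀ (N : ℕ) (co : List ℝ) (l w : ℂ), sz σ m ≤ N → cv (⟨N⟩, Fintype.card σ, m, co, l, w) =
      (chi (Lam m (cx' (pl σ m fun n => co.getD n 0)) l)).eval w)
    (hhv : ∀ A A', (hv (A, A') : ℕ∞) = hvr {l | l ∈ A} {l | l ∈ A'})
    {p : MvPolynomial σ ℝ} {l : ℝ} {η : ℕ} {T : List Tl} {t : Tl} (e : Fin t.length ≃ Std σ m)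
    (hm : 2 ≤ m) (ho : Odd m) (hp : p.totalDegree < m) (hT : Chn T)
    (hw : Wk (fun s => Lam m (cx' p) (arc l η s)) T) (ht : T.getD (T.length - 1) [] = t)
    (he : Dn (pts t) (Lam m (cx' p) l ∘ e)) {c : List ℕ} (ok : Ok cv (Fintype.card σ) m T t c)
    {i b : ℕ} (hi : i < m ^ Fintype.card σ) (hb : b < 2) {a : ℝ}
    (ha : ∀ j, (Lam m (cx' p) l (e j)).re ≠ a ∧ ((Lam m (cx' p) l (e j)).re < a ↔
      (t.getD j (0, 0)).1 < (t.getD i (0, 0)).1 + b)) (j : ℕ) :
    hs {y | eval y (Fl m p l) < a} ∅ (j + 1) = bt hv (Fintype.card σ) m (gR c 2)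
      (gR c 5 (2 * i + b)) (gR c 1 1) (gN c 0 2) (gN c 0 3) j := by
  obtain ⟨pad, cert, lev⟩ := ok
  obtain ⟨go, lev⟩ := lev i hi b hb
  have hd := (h2 σ m (by omega)).1 (gR c 2)
  simp only [hcv _ _ _ _ pad.2.2.1, pl_list] at cert
  obtain ⟨w', e', d', hz⟩ := h1 _ (fun s => Lam m (cx' (pl σ m (gR c 2))) (arc 1 (gN c 0 1) s)) T t
    _ _ _ _ _ (by rw [card_std]; positivity) (fun w => isP_chi (pp_arc _ 1 _) w) hT
    (fun a ha => wk_len hw ha) ht (by rw [card_std]; exact cert)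
  simp only [arc_one] at d' hz
  have hn : t.length = m ^ Fintype.card σ := by simpa using Fintype.card_congr e
  have q : ∀ j : Fin t.length, if (t.getD (j : ℕ) (0, 0)).1 < (t.getD i (0, 0)).1 + b then
      (Lam m (cx' (pl σ m (gR c 2))) (1 : ℝ) (e' j)).re < gR c 5 (2 * i + b) else
      gR c 5 (2 * i + b) + 4 * gR c 1 1 < (Lam m (cx' (pl σ m (gR c 2))) (1 : ℝ) (e' j)).re :=
    fun j => by
      have a1 := lev j (hn ▸ j.2)
      have a2 := abs_lt.1 ((Complex.abs_re_le_norm _).trans_lt (hz j))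
      rw [Complex.sub_re] at a2
      split_ifs at a1 ⊢ <;> linarith [a2.1, a2.2]
  have ω0 := go.1
  rw [← h4 σ m _ _ _ _ _ hv hm ho hhv go (fun k hk => by
    obtain ⟨k, rfl⟩ := e'.surjective k
    have := q k
    rw [Complex.ofReal_one] at this
    split_ifs at this <;> linarith [hk.1, hk.2])]
  refine h3 σ m η _ p _ l 1 _ _ T t e e' hm ho hp hd hT hw w' ht he d' (fun k => ?_) _
  have := q k
  rw [(ha k).2]
  split_ifs at this with g
  · exact ⟨(ha k).1, this.ne, iff_of_true g this⟩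
  · exact ⟨(ha k).1, by intro g'; linarith, iff_of_false g (by linarith)⟩

end YP

end Pool.Agent.Lib.MP_837412_lc.K.Y
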