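import Pool.Agent.Lib.MP_837412_lc.YP1

/-!
There is a candidate that is accepted.
-/

namespace Pool.Agent.Lib.MP_837412_lc.K.Y

open Set Function Filter Topology MvPolynomial
open Pool.Agent.Shared.Mod2 (I)

namespace YP

variable {σ τ ι : Type} [Fintype σ] {m : ℕ}

lemma table (g0 g1 : ℕ → ℕ) (G : ℕ → ℕ → ℚ) (J : ℕ) : ∃ c : List ℕ, J ≤ c.length ∧ ∀ j < J,
    gN c 0 j = g0 j ∧ gN c 1 j = g1 j ∧ ∀ t, 1 ≤ t → t < 6 → gR c t j = G t j := by
  let g : ℕ → ℕ → ℕ := fun t j => if t = 0 then g0 j else if t = 1 then g1 j else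
    if t % 3 = 0 then (G (t / 3) j).num.toNat else if t % 3 = 1 then (-(G (t / 3) j).num).toNat
    else (G (t / 3) j).den - 1
  have key : ∀ j < J, ∀ t < 18, gN ((List.range ((J + 18) ^ 2)).map fun x =>
      g x.unpair.1 x.unpair.2) t j = g t j := fun j hj t ht => by
    have : Nat.pair t j < (J + 18) ^ 2 := (Nat.pair_lt_max_add_one_sq t j).trans_le
      (Nat.pow_le_pow_left (by omega) 2)
    simp [gN, List.getD_eq_getElem?_getD, this]
  refine ⟨_, by simp; nlinarith, fun j hj => ⟨key j hj 0 (by omega), key j hj 1 (by omega),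
    fun t h1 h6 => ?_⟩⟩
  rw [gR, key j hj _ (by omega), key j hj _ (by omega), key j hj _ (by omega)]
  have a0 : g (3 * t) j = (G t j).num.toNat := by
    simp only [g]
    rw [if_neg (by omega), if_neg (by omega), if_pos (by omega), show 3 * t / 3 = t by omega]
  have a1 : g (3 * t + 1) j = (-(G t j).num).toNat := by
    simp only [g]
    rw [if_neg (by omega), if_neg (by omega), if_neg (by omega), if_pos (by omega),
      show (3 * t + 1) / 3 = t by omega]
  have a2 : g (3 * t + 2) j + 1 = (G t j).den := by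
    simp only [g]
    rw [if_neg (by omega), if_neg (by omega), if_neg (by omega), if_neg (by omega),
      show (3 * t + 2) / 3 = t by omega]
    exact Nat.succ_pred_eq_of_pos (G t j).pos
  rw [a0, a1, Rat.cast_def, ← a2, ← Int.toNat_sub_toNat_neg (G t j).num]
  push_cast
  simp

lemma cB_congr {k : ℕ} {co co' : ℕ → ℝ} (h : ∀ n < m ^ k, co n = co' n) : cB k m co = cB k m co' := by
  rw [cB, cB, Finset.sum_congr rfl fun n hn => by rw [h n (Finset.mem_range.1 hn)]]

lemma cert_congr {x x' : ℝ → ℂ → ℂ} {T : List Tl} {n D Q : ℕ} {ty ty' : ℕ → ℕ} {z z' : ℕ → ℕ → ℂ}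
    {r : ℝ} (h : Cert x T n D Q ty z r) (h1 : ∀ q < Q, ty' q = ty q)
    (h2 : ∀ q < Q, ∀ i < n, z' q i = z q i)
    (h3 : ∀ q < Q, ∀ i < n, ∀ j < D + 1, (((D : ℝ) + 1) * D ^ D) ^ 2 *
      Complex.normSq (x' ((q + j / D) / Q) (z q i)) < r ^ (2 * n)) : Cert x' T n D Q ty' z' r := by
  obtain ⟨a1, a2, a3, a4, a5, a6⟩ := h
  refine ⟨a1, a2, (h1 0 a1).trans a3, h1 _ (Nat.sub_one_lt a1.ne') ▸ a4, fun q hq => ?_,
    fun q hq i hi => ⟨fun j hj => ?_, ?_⟩⟩
  · rw [h1 _ (by omega), h1 _ (by omega)]; exact a5 q hq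
  · rw [h1 q hq, h2 q hq i hi, h2 q hq j hj]; exact (a6 q hq i hi).1 j hj
  · rw [h2 q hq i hi]; exact h3 q hq i hi

lemma exists_level {t : Tl} {u : Fin t.length → ℝ} {x : ℕ → ℚ} {γ : ℝ} {r ω : ℚ}
    (hu : ∀ i j : Fin t.length, (t.getD i (0, 0)).1 < (t.getD j (0, 0)).1 → u i + γ < u j)
    (hx : ∀ i, |u i - x i| < r) (h : 4 * (r : ℝ) + 4 * ω ≤ γ) (N : ℕ) : ∃ a : ℚ,
    ∀ j < t.length, if (t.getD j (0, 0)).1 < N then (x j : ℝ) + r ≤ a else a + 4 * (ω : ℝ) ≤ x j - r := by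
  obtain ⟨a, a1, a2⟩ := Finset.exists_between'
    (((Finset.range t.length).filter fun j => (t.getD j (0, 0)).1 < N).image fun j => x j + r)
    (((Finset.range t.length).filter fun j => ¬ (t.getD j (0, 0)).1 < N).image
      fun j => x j - r - 4 * ω) (by
      simp only [Finset.forall_mem_image, Finset.mem_filter, Finset.mem_range]
      intro i hi j hj
      have b1 := hu ⟨i, hi.1⟩ ⟨j, hj.1⟩ (by have := hi.2; have := hj.2; dsimp only; omega)
      have b2 := abs_lt.1 (hx ⟨i, hi.1⟩)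
      have b3 := abs_lt.1 (hx ⟨j, hj.1⟩)
      rw [← Rat.cast_lt (K := ℝ)]
      push_cast
      dsimp only at b2 b3
      linarith [b2.1, b3.2])
  simp only [Finset.forall_mem_image, Finset.mem_filter, Finset.mem_range] at a1 a2
  refine ⟨a, fun j hj => ?_⟩
  split_ifs with g
  · exact_mod_cast (a1 ⟨hj, g⟩).le
  · have := (Rat.cast_lt (K := ℝ)).2 (a2 ⟨hj, g⟩)
    push_cast at this
    linarith

variable [DecidableEq σ]

lemma Lam_scale (p : MvPolynomial σ ℝ) (a : ℝ) (l : ℂ) :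
    Lam m (cx' (MvPolynomial.C a * p)) l = Lam m (cx' p) (a * l) := by
  have e : cx' (MvPolynomial.C a * p) = MvPolynomial.C (a : ℂ) * cx' p := by simp [cx']
  have e1 : qq m (cx' (MvPolynomial.C a * p)) l = qq m (cx' p) (a * l) := by
    funext i
    rw [e, qq, qq, pderiv_C_mul, ← mul_assoc, ← map_mul]
    congr 3
    ring
  have e2 : Fl m (cx' (MvPolynomial.C a * p)) l = Fl m (cx' p) (a * l) := by
    rw [e, Fl, Fl, ← mul_assoc, ← map_mul, mul_comm l]
  rw [Lam, Lam, e1, e2]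

lemma complete (h1 : CertS) (h1' : CertC) (h2 : PlS) {cv : Un × ℕ × ℕ × List ℝ × ℂ × ℂ → ℂ}
    (hcv : ∀ (N : ℕ) (co : List ℝ) (l w : ℂ), sz σ m ≤ N → cv (⟨N⟩, Fintype.card σ, m, co, l, w) =
      (chi (Lam m (cx' (pl σ m fun n => co.getD n 0)) l)).eval w)
    {p : MvPolynomial σ ℝ} {l : ℝ} {η : ℕ} {T : List Tl} {t : Tl} (hm : 2 ≤ m)
    (hp : p.totalDegree < m) (hT : Chn T) (hw : Wk (fun s => Lam m (cx' p) (arc l η s)) T)
    (ht : T.getD (T.length - 1) [] = t) : ∃ c, Ok cv (Fintype.card σ) m T t c := by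
  obtain ⟨-, p2, -, p4⟩ := h2 σ m (by omega)
  obtain ⟨co, hco⟩ := p2 (MvPolynomial.C l * p) ((totalDegree_mul _ _).trans_lt (by simpa using hp))
  obtain ⟨γ, γ0, hγ, -⟩ := gap fun i => (Lam m (cx' p) (arc l η 1) i).re
  obtain ⟨ω, ω0, ω1⟩ := exists_rat_btwn (show (0 : ℝ) < γ / 8 by positivity)
  set k := Fintype.card σ with hk
  set D := m ^ k * (((k + 1) * (m + 1) + 1) * 2) with hD
  obtain ⟨Q, ty, x, y, r, hr, cert⟩ := h1' _ _ T D (γ / 8) (by positivity)
    (fun j => (all.cont_chi (cx' p) j).comp (continuous_arc l η)) hT hw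
  obtain ⟨-, e, d, hz⟩ := h1 _ _ T t D Q ty _ r (by positivity)
    (fun w => (isP_chi (pp_arc (cx' p) l η) w).mono (by rw [card_std]; exact le_rfl)) hT
    (fun a ha => wk_len hw ha) ht cert
  have hn : t.length = m ^ k := by simpa using Fintype.card_congr e
  rw [card_std, ← hk] at cert
  choose a ha using exists_level (u := fun i => (Lam m (cx' p) (arc l η 1) (e i)).re)
    (x := x (Q - 1)) (r := r) (ω := ω) (fun i j h => hγ _ _ ((d i j).1 ((pts_lt i j).2 h)))
    (fun i => by simpa using (Complex.abs_re_le_norm _).trans_lt (hz i)) (by linarith)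
  have op : ∀ᶠ co' in 𝓝 co, ∀ q < Q, ∀ i < m ^ k, ∀ j < D + 1, (((D : ℝ) + 1) * D ^ D) ^ 2 *
      Complex.normSq ((chi (Lam m (cx' (pl σ m co')) (arc 1 η ((q + j / D) / Q)))).eval
        ((x q i : ℝ) + (y q i : ℝ) * Complex.I)) < (r : ℝ) ^ (2 * m ^ k) := by
    refine (eventually_all_finite (finite_lt_nat Q)).2 fun q hq =>
      (eventually_all_finite (finite_lt_nat _)).2 fun i hi =>
      (eventually_all_finite (finite_lt_nat _)).2 fun j hj => ?_
    refine ContinuousAt.eventually_lt (continuous_const.mul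
      (Complex.continuous_normSq.comp (p4 _ _))).continuousAt continuousAt_const ?_
    have e : ∀ s, Lam m (cx' (pl σ m co)) (arc 1 η s) = Lam m (cx' p) (arc l η s) := fun s => by
      rw [hco, Lam_scale, arc, arc, Complex.ofReal_one, one_mul]
    rw [e]
    exact (cert.2.2.2.2.2 q hq i hi).2 j hj
  obtain ⟨ρ, hρ⟩ := (DenseRange.piMap fun _ : ℕ => Rat.denseRange_cast (𝕜 := ℝ)).mem_nhds op
  let A : ℕ → ℚ := fun n => a ((t.getD (n / 2) (0, 0)).1 + n % 2)
  obtain ⟨R, hR⟩ : ∃ R : ℕ, ∀ n < 2 * m ^ k,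
      2 + cB k m (fun n => ρ n) + (A n : ℝ) ^ 2 + 4 * ω ≤ R :=
    ((eventually_all_finite (finite_lt_nat _)).2 fun n _ =>
      tendsto_natCast_atTop_atTop.eventually_ge_atTop _).exists
  obtain ⟨M, hM⟩ := exists_nat_gt (|(m + 1) * (k + cB k m fun n => ρ n) * (R + 6) ^ m * 6| / ω)
  rw [div_lt_iff₀' ω0] at hM
  have M0 : 0 < M := Nat.pos_of_ne_zero fun e => by
    rw [e, Nat.cast_zero, mul_zero] at hM; exact hM.not_ge (abs_nonneg _)
  obtain ⟨c, c1, c2⟩ := table (fun j => [Q, η, R, M].getD j 0) ty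
    (fun t j => if t = 1 then if j = 0 then r else ω else if t = 2 then ρ j else
      if t = 3 then x j.unpair.1 j.unpair.2 else if t = 4 then y j.unpair.1 j.unpair.2 else A j)
    (4 + k + m + ((k + 1) * (m + 1) + 1) ^ (2 * k + 2) + D + Q + ((2 * R * M + 1) ^ k) ^ (k + 2) +
      2 * m ^ k + (Q + m ^ k) ^ 2)
  have e0 : gN c 0 0 = Q := (c2 0 (by omega)).1
  have e1 : gN c 0 1 = η := (c2 1 (by omega)).1
  have e2 : gN c 0 2 = R := (c2 2 (by omega)).1
  have e3 : gN c 0 3 = M := (c2 3 (by omega)).1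
  have e4 : gR c 1 0 = r := (c2 0 (by omega)).2.2 1 le_rfl (by omega)
  have e5 : gR c 1 1 = ω := (c2 1 (by omega)).2.2 1 le_rfl (by omega)
  have e6 : ∀ n < m ^ k, gR c 2 n = ρ n := fun n hn => (c2 n (by omega)).2.2 2 (by omega) (by omega)
  have e7 : ∀ n < 2 * m ^ k, gR c 5 n = A n := fun n hn =>
    (c2 n (by omega)).2.2 5 (by omega) (by omega)
  have e8 : ∀ q < Q, ∀ i < m ^ k, gZ c q i = (x q i : ℝ) + (y q i : ℝ) * Complex.I :=
    fun q hq i hi => by
      have : Nat.pair q i < (Q + m ^ k) ^ 2 := (Nat.pair_lt_max_add_one_sq q i).trans_le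
        (Nat.pow_le_pow_left (by omega) 2)
      rw [gZ, (c2 _ (by omega)).2.2 3 (by omega) (by omega),
        (c2 _ (by omega)).2.2 4 (by omega) (by omega)]
      simp
  refine ⟨c, ⟨by omega, by omega, by omega, by omega, by omega, by rw [e2, e3]; omega⟩, ?_,
    fun i hi b hb => ?_⟩
  · rw [e0, e1, e4]
    refine cert_congr cert (fun q hq => (c2 q (by omega)).2.1) e8 fun q hq i hi j hj => ?_
    rw [hcv _ _ _ _ (by unfold sz Kf; rw [← hk]; omega), pl_list, pl_congr e6]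
    exact hρ q hq i hi j hj
  · rw [e0, e2, e3, e4, e5, e7 _ (by omega)]
    refine ⟨⟨ω0, M0, ?_, ?_⟩, fun j hj => ?_⟩
    · rw [cB_congr e6]; exact hR _ (by omega)
    · rw [cB_congr e6]; exact (le_abs_self _).trans_lt hM
    · have := ha ((t.getD i (0, 0)).1 + b) j (hn ▸ hj)
      rw [e8 _ (Nat.sub_one_lt cert.1.ne') j hj]
      simpa [A, show (2 * i + b) / 2 = i by omega, show (2 * i + b) % 2 = b by omega] using this

end YP

end Pool.Agent.Lib.MP_837412_lc.K.Y
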