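import Pool.Agent.Lib.MP_837412_lc.YP2

/-!
The machine that reads the rational Betti numbers off the discrete data.
-/

namespace Pool.Agent.Lib.MP_837412_lc.K.Y

open Set Function Filter Topology MvPolynomial YP

theorem postS (h0 : SimS) (h1 : HomR) (h2 : WalkS) (h3 : CertS) (h4 : CertC) (h5 : PlS)
    (h6 : ChiY) (h7 : ChkR) (h8 : @KeyS cQ) (h9 : @RealF cQ) (h10 : @BetS cQ) : PostS := by
  obtain ⟨cv, c1, c2⟩ := h6
  obtain ⟨hv, v1, v2⟩ := h1
  obtain ⟨s1, M, s2⟩ := h0 Wd (List ℕ) (chk cv hv) (h7 cv hv c1 v1)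
  refine ⟨s1, M, fun σ τ _ _ _ m η P π lb e hm ho hp hπ hq he hl => ?_⟩
  letI := cQ
  have m3 : 3 ≤ m := by obtain ⟨n, rfl⟩ := ho; omega
  obtain ⟨w, hT⟩ := h2 _ _ _ (all.pp_La (cx' (sq P)) η) hq
  rw [La_one] at w hT
  obtain ⟨δ, d0, d1, d2⟩ := gap fun i => (Le m P i).re
  have ce := cell_eq h9 e hm ho hp hπ hl d0 d1 d2
  have hcv := fun N co l w => c2 σ m N co l w m3
  refine ⟨fun j => (ce j).2, s2 _ _ ?_ fun c b hb => ?_⟩
  · obtain ⟨c, hc⟩ := complete h3 h4 h5 hcv hm hp hT w (walk_last _ _)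
    exact ⟨c, by rw [chk, if_pos hc]; rfl⟩
  rw [chk] at hb
  split_ifs at hb with ok
  obtain rfl := Option.some.inj hb
  refine List.map_congr_left fun j _ => ?_
  have hn : (typ (Le m P)).length = m ^ Fintype.card σ := by simpa using Fintype.card_congr e
  have lt : ∀ i j : Fin _, (Le m P (e i)).re < (Le m P (e j)).re ↔
      ((typ (Le m P)).getD i (0, 0)).1 < ((typ (Le m P)).getD j (0, 0)).1 :=
    fun i j => (he.re_lt i j).trans (pts_lt i j)
  have lv := fun i b hi hb a ha => level h3 h5 h8 h10 hcv v2 e hm ho hp hT w (walk_last _ _)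
    (iso_dn he) ok (i := i) (b := b) hi hb (a := a) ha j
  have tt : ∀ b (a : Fin _ → ℝ), b < 2 → (∀ i j : Fin _, (Le m P (e j)).re ≠ a i ∧
      ((Le m P (e j)).re < a i ↔ ((typ (Le m P)).getD j (0, 0)).1 <
        ((typ (Le m P)).getD i (0, 0)).1 + b)) →
      ∑ i : Fin (typ (Le m P)).length, (if lb.getD (i : ℕ) false then
        hs {y | eval y (Fl m (sq P) (ls m (cx' (sq P)))) < a i} ∅ (j + 1) else 0) =
      tot hv (Fintype.card σ) m lb c b j := fun b a hb ha => by
    rw [tot, ← hn, Finset.sum_range, Nat.cast_sum]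
    refine Finset.sum_congr rfl fun i _ => ?_
    rw [lv i b (hn ▸ i.2) hb (a i) (ha i)]
    split_ifs <;> rfl
  have := (ce (j + 1)).1
  rw [tt 0 (fun i => (Le m P (e i)).re - δ) two_pos, tt 1 (fun i => (Le m P (e i)).re + δ)
    one_lt_two, ← ENat.natCast_toNat (ce (j + 1)).2] at this
  · have : (hs (cell P π) ∅ (j + 1)).toNat + tot hv (Fintype.card σ) m lb c 0 j =
        tot hv (Fintype.card σ) m lb c 1 j := by exact_mod_cast this
    dsimp only
    omega
  · intro i k
    rw [Nat.lt_succ_iff, ← Nat.not_lt, ← lt]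
    rcases lt_or_ge (Le m P (e i)).re (Le m P (e k)).re with g | g
    · have := d1 _ _ g
      exact ⟨this.ne', iff_of_false this.not_gt (not_not.2 g)⟩
    · exact ⟨by intro g'; linarith, iff_of_true (by linarith) g.not_gt⟩
  · intro i k
    rw [add_zero, ← lt]
    rcases lt_or_ge (Le m P (e k)).re (Le m P (e i)).re with g | g
    · have := d1 _ _ g
      exact ⟨by intro g'; linarith, iff_of_true (by linarith) g⟩
    · exact ⟨by intro g'; linarith, iff_of_false (by linarith) g.not_gt⟩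

end Pool.Agent.Lib.MP_837412_lc.K.Y
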