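import Pool.Agent.Lib.MP_837412_lc.USt
import Pool.Agent.Lib.MP_837412_lc.U3
import Pool.Agent.Lib.MP_837412_lc.KSt
import Pool.Agent.Shared.ClockedRun

/-!
Rational Betti numbers from the discrete output: definitions and statements.
-/

namespace Pool.Agent.Lib.MP_837412_lc.K.Y

open Set Function Filter Topology
open Pool.Agent.Shared.PolyTime (Outputs PT)
open Pool.Agent.Shared.Mod2 (I)

section Defs

variable {ι : Type}

/-- `c` refines the order type `t`. -/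
def Ref (t : Tl) (c : ι → ℂ) : Prop := ∃ e : Fin t.length ≃ ι, Dn (pts t) (c ∘ e)

/-- The path refines the order types of the list one after the other. -/
def Wk (c : ℝ → ι → ℂ) (T : List Tl) : Prop := ∃ τ : ℕ → ℝ, τ 0 = 0 ∧ τ T.length = 1 ∧
  ∀ a < T.length, τ a < τ (a + 1) ∧ ∀ s ∈ Icc (τ a) (τ (a + 1)), Ref (T.getD a []) (c s)

/-- Consecutive order types are comparable. -/
def Chn (T : List Tl) : Prop := ∀ a < T.length, Injective (pts (T.getD a [])) ∧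
  (a + 1 < T.length → Ref (T.getD a []) (pts (T.getD (a + 1) [])) ∨
    Ref (T.getD (a + 1) []) (pts (T.getD a [])))

/-- The list of all order types. -/
def walk (s : List (Tl × Tl × Tl)) (t : Tl) : List Tl := (s.flatMap fun x => [x.1, x.2.1]) ++ [t]

/-- Discs that contain the roots. -/
def Cert (x : ℝ → ℂ → ℂ) (T : List Tl) (n D Q : ℕ) (ty : ℕ → ℕ) (z : ℕ → ℕ → ℂ) (r : ℝ) : Prop :=
  0 < Q ∧ 0 < r ∧ ty 0 = 0 ∧ ty (Q - 1) + 1 = T.length ∧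
  (∀ q < Q - 1, ty (q + 1) = ty q ∨ ty (q + 1) = ty q + 1) ∧ ∀ q < Q, ∀ i < n,
    (∀ j < n, (((T.getD (ty q) []).getD i (0, 0)).1 < ((T.getD (ty q) []).getD j (0, 0)).1 →
        (z q i).re + 2 * r ≤ (z q j).re) ∧
      (((T.getD (ty q) []).getD i (0, 0)).2 < ((T.getD (ty q) []).getD j (0, 0)).2 →
        (z q i).im + 2 * r ≤ (z q j).im)) ∧
    ∀ j < D + 1, (((D : ℝ) + 1) * D ^ D) ^ 2 * Complex.normSq (x ((q + j / D) / Q) (z q i)) <
      r ^ (2 * n)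

/-- Digits. -/
def dg (m n i : ℕ) : ℕ := n / m ^ i % m

/-- The polynomial with the given coefficients. -/
noncomputable def pl (σ : Type) [Fintype σ] (m : ℕ) (co : ℕ → ℝ) : MvPolynomial σ ℝ :=
  ∑ n ∈ Finset.range (m ^ Fintype.card σ),
    if ∑ i ∈ Finset.range (Fintype.card σ), dg m n i < m then
      MvPolynomial.monomial (Finsupp.equivFunOnFinite.symm fun i => dg m n (ix i)) (co n) else 0

/-- The values of the last member of the pencil. -/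
noncomputable def fN (k m : ℕ) (co x : ℕ → ℝ) : ℝ :=
  ∑ i ∈ Finset.range k, (x i ^ (m + 1) - (m + 1) * (2 ^ i) ^ m * x i) +
    (1 + (m + 1) * ∑ i ∈ Finset.range k, (2 ^ i) ^ (m + 1)) -
  ∑ n ∈ Finset.range (m ^ k), if ∑ i ∈ Finset.range k, dg m n i < m then
    co n * ∏ i ∈ Finset.range k, x i ^ dg m n i else 0

/-- A bound for the coefficients. -/
noncomputable def cB (k m : ℕ) (co : ℕ → ℝ) : ℝ :=
  k * (m + 1) * 2 ^ (k * m) + ∑ n ∈ Finset.range (m ^ k), (1 + co n ^ 2)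

/-- The coordinates of a point of the grid. -/
noncomputable def gv (R M n i : ℕ) : ℝ := ((dg (2 * R * M + 1) n i : ℝ) - R * M) / M

/-- All lists of numbers below `G` with the given length. -/
def tup (G len : ℕ) : List (List ℕ) :=
  (List.range (G ^ len)).map fun x => (List.range len).map (dg G x)

/-- Lists of good points of the grid that are close to each other. -/
def vr (k B e len : ℕ) (ok : ℕ → Bool) : List (List ℕ) := (tup (B ^ k) len).filter fun l =>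
  l.all ok && l.all fun a => l.all fun b => (List.range k).all fun i => dg B a i ≤ dg B b i + e

/-- The grid is large and fine. -/
def GOk (k m : ℕ) (co : ℕ → ℝ) (a ω : ℝ) (R M : ℕ) : Prop := 0 < ω ∧ 0 < M ∧
  2 + cB k m co + a ^ 2 + 4 * ω ≤ R ∧ (m + 1) * (k + cB k m co) * (R + 6) ^ m * 6 < ω * M

/-- The Betti number read off from the grid. -/
noncomputable def bt (hv : List (List ℕ) × List (List ℕ) → ℕ) (k m : ℕ) (co : ℕ → ℝ) (a ω : ℝ)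
    (R M j : ℕ) : ℕ :=
  hv (vr k (2 * R * M + 1) 4 (j + 1) fun n => decide (fN k m co (gv R M n) < a + ω),
    vr k (2 * R * M + 1) 6 (j + 2) fun n => decide (fN k m co (gv R M n) < a + 3 * ω))

/-- A table of natural numbers. -/
def gN (c : List ℕ) (t j : ℕ) : ℕ := c.getD (Nat.pair t j) 0

/-- A table of rational numbers. -/
noncomputable def gR (c : List ℕ) (t j : ℕ) : ℝ :=
  ((gN c (3 * t) j : ℝ) - gN c (3 * t + 1) j) / (gN c (3 * t + 2) j + 1)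

/-- The centres of the discs. -/
noncomputable def gZ (c : List ℕ) (q i : ℕ) : ℂ :=
  gR c 3 (Nat.pair q i) + gR c 4 (Nat.pair q i) * Complex.I

/-- The discrete data. -/
abbrev Wd : Type := ℕ × ℕ × List (Tl × Tl × Tl) × Tl × List Bool

/-- All loops are short. -/
def Pad (k m : ℕ) (c : List ℕ) : Prop := k ≤ c.length ∧ m ≤ c.length ∧
  ((k + 1) * (m + 1) + 1) ^ (2 * k + 2) ≤ c.length ∧
  m ^ k * (((k + 1) * (m + 1) + 1) * 2) ≤ c.length ∧ gN c 0 0 ≤ c.length ∧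
  ((2 * gN c 0 2 * gN c 0 3 + 1) ^ k) ^ (k + 2) ≤ c.length

/-- The test for a candidate. -/
def Ok (cv : Un × ℕ × ℕ × List ℝ × ℂ × ℂ → ℂ) (k m : ℕ) (T : List Tl) (t : Tl) (c : List ℕ) :
    Prop := Pad k m c ∧
  Cert (fun s w => cv (⟨c.length⟩, k, m, (List.range (m ^ k)).map (gR c 2), arc 1 (gN c 0 1) s, w))
    T (m ^ k) (m ^ k * (((k + 1) * (m + 1) + 1) * 2)) (gN c 0 0) (gN c 1) (gZ c) (gR c 1 0) ∧
  ∀ i < m ^ k, ∀ b < 2, GOk k m (gR c 2) (gR c 5 (2 * i + b)) (gR c 1 1) (gN c 0 2) (gN c 0 3) ∧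
    ∀ j < m ^ k, if (t.getD j (0, 0)).1 < (t.getD i (0, 0)).1 + b then
      (gZ c (gN c 0 0 - 1) j).re + gR c 1 0 ≤ gR c 5 (2 * i + b)
    else gR c 5 (2 * i + b) + 4 * gR c 1 1 ≤ (gZ c (gN c 0 0 - 1) j).re - gR c 1 0

/-- The sums over the marked critical values. -/
noncomputable def tot (hv : List (List ℕ) × List (List ℕ) → ℕ) (k m : ℕ) (lb : List Bool)
    (c : List ℕ) (b j : ℕ) : ℕ := ∑ i ∈ Finset.range (m ^ k), if lb.getD i false then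
  bt hv k m (gR c 2) (gR c 5 (2 * i + b)) (gR c 1 1) (gN c 0 2) (gN c 0 3) j else 0

open Classical in
/-- The answer for a candidate. -/
noncomputable def chk (cv : Un × ℕ × ℕ × List ℝ × ℂ × ℂ → ℂ)
    (hv : List (List ℕ) × List (List ℕ) → ℕ) (x : Wd × List ℕ) : Option (List ℕ) :=
  if Ok cv x.1.1 x.1.2.1 (walk x.1.2.2.1 x.1.2.2.2.1) x.1.2.2.2.1 x.2 then
    some ((List.range (x.1.1 + 1)).map fun j =>
      tot hv x.1.1 x.1.2.1 x.1.2.2.2.2 x.2 1 j - tot hv x.1.1 x.1.2.1 x.1.2.2.2.2 x.2 0 j)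
  else none

/-- The code as a list of numbers. -/
def ser {α : Type} [N487b59b3 α] (a : α) : List ℕ := (N487b59b3.bitEncode a).map Bool.toNat

/-- The rational numbers as coefficients. -/
@[instance_reducible] def cQ : Coef := ⟨ℚ⟩

/-- Lists of points of `G` that are close to each other. -/
def VR {E : Type} [PseudoMetricSpace E] (g : ι → E) (G : Set ι) (δ : ℝ) (n : ℕ) : Set (List ι) :=
  {l | l.length = n ∧ (∀ i ∈ l, i ∈ G) ∧ ∀ i ∈ l, ∀ j ∈ l, dist (g i) (g j) ≤ δ}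

variable [Coef]

/-- The boundary without augmentation. -/
noncomputable def bd (l : List ι) : Ch (List ι) := if l.length = 1 then 0 else bdl l

/-- Cycles on `S` modulo boundaries from `S'`. -/
noncomputable def hvr (S S' : Set (List ι)) : ℕ∞ :=
  rk (sup S ⊓ LinearMap.ker (lin bd)) ((sup S').map (lin bd))

end Defs

def SimS : Prop := ∀ (α β : Type) [RE α] [RE β] [N487b59b3 α] [N487b59b3 β] [Disc α] [Disc β]
  (f : α × List ℕ → Option β), RPT f → PT (ser : α → List ℕ) ∧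
  ∃ M : Turing.TM2ComputableAux Bool Bool, ∀ a b, (∃ c, (f (a, c)).isSome) →
    (∀ c b', f (a, c) = some b' → b' = b) →
    ∃ T, Outputs M (N487b59b3.bitEncode (ser a)) (N487b59b3.bitEncode b) T

def RkQ : Prop := ∃ rq : List (List ℤ) → ℕ, RPT rq ∧ ∀ V, rq V =
  Module.finrank ℚ (Submodule.span ℚ {x : ℕ → ℚ | ∃ v ∈ V, x = fun j => ((v.getD j 0 : ℤ) : ℚ)})

def HomR : Prop := ∃ hv : List (List ℕ) × List (List ℕ) → ℕ, RPT hv ∧
  ∀ A A', (hv (A, A') : ℕ∞) = @hvr ℕ cQ {l | l ∈ A} {l | l ∈ A'}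

def WalkS : Prop := ∀ (ι : Type) [Fintype ι] (d : ℕ) (c : ℝ → ι → ℂ), PP Complex.ofReal d c →
  (∀ t ∈ Icc (0 : ℝ) 1, Qv (c t) ≠ 0) →
  Wk c (walk (segs c) (typ (c 1))) ∧ Chn (walk (segs c) (typ (c 1)))

def DnU : Prop := ∀ (ι κ : Type) [Fintype ι] (d : κ → ℂ) (c : ι → ℂ) (e e' : κ ≃ ι), Injective d →
  Dn d (c ∘ e) → Dn d (c ∘ e') → e = e'

def JoinS : Prop := ∀ (ι : Type) [Fintype ι] (a b : ℝ → ι → ℂ) (T : List Tl) (t : Tl),
  Continuous a → Continuous b → a 0 = b 0 → Chn T → Wk a T → Wk b T →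
  T.getD (T.length - 1) [] = t → ∃ (γ γ' : I → ℝ) (e : Fin t.length ≃ ι), Continuous γ ∧
    Continuous γ' ∧ γ 0 = 0 ∧ γ' 0 = 0 ∧ γ 1 = 1 ∧ γ' 1 = 1 ∧ Dn (pts t) (a 1 ∘ e) ∧
    Dn (pts t) (b 1 ∘ e) ∧ ∀ u, γ u ∈ Icc (0 : ℝ) 1 ∧ γ' u ∈ Icc (0 : ℝ) 1 ∧ ∀ r : I,
      Injective fun i => (1 - (r : ℝ)) * a (γ u) i + (r : ℝ) * b (γ' u) i

def CertS : Prop := ∀ (ι : Type) [Fintype ι] (c : ℝ → ι → ℂ) (T : List Tl) (t : Tl) (D Q : ℕ)
  (ty : ℕ → ℕ) (z : ℕ → ℕ → ℂ) (r : ℝ), 0 < D →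
  (∀ w, IsP Complex.ofReal D fun s => (chi (c s)).eval w) → Chn T →
  (∀ a < T.length, (T.getD a []).length = Fintype.card ι) → T.getD (T.length - 1) [] = t →
  Cert (fun s w => (chi (c s)).eval w) T (Fintype.card ι) D Q ty z r →
  Wk c T ∧ ∃ e : Fin t.length ≃ ι, Dn (pts t) (c 1 ∘ e) ∧ ∀ i, ‖c 1 (e i) - z (Q - 1) i‖ < r

def CertC : Prop := ∀ (ι : Type) [Fintype ι] (c : ℝ → ι → ℂ) (T : List Tl) (D : ℕ) (r₀ : ℝ),
  0 < r₀ → (∀ j, Continuous fun s => (chi (c s)).coeff j) → Chn T → Wk c T →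
  ∃ (Q : ℕ) (ty : ℕ → ℕ) (x y : ℕ → ℕ → ℚ) (r : ℚ), (r : ℝ) ≤ r₀ ∧
    Cert (fun s w => (chi (c s)).eval w) T (Fintype.card ι) D Q ty
      (fun q i => (x q i : ℝ) + (y q i : ℝ) * Complex.I) r

def PlS : Prop := ∀ (σ : Type) [Fintype σ] [DecidableEq σ] (m : ℕ), 0 < m →
  (∀ co, (pl σ m co).totalDegree < m) ∧
  (∀ p : MvPolynomial σ ℝ, p.totalDegree < m → ∃ co, pl σ m co = p) ∧
  (∀ co (x : ℕ → ℝ), MvPolynomial.eval (fun i => x (ix i)) (Fl m (pl σ m co) 1) =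
    fN (Fintype.card σ) m co x) ∧
  ∀ l w : ℂ, Continuous fun co : ℕ → ℝ => (chi (Lam m (cx' (pl σ m co)) l)).eval w

def EstY : Prop := ∀ (σ : Type) [Fintype σ] (m : ℕ) (co : ℕ → ℝ), Odd m →
  (∀ y : σ → ℝ, 1 + cB (Fintype.card σ) m co ≤ ‖y‖ →
    ‖y‖ - cB (Fintype.card σ) m co ≤ MvPolynomial.eval y (Fl m (pl σ m co) 1)) ∧
  ∀ (R : ℝ) (x y : σ → ℝ), 1 ≤ R → ‖x‖ ≤ R → ‖y‖ ≤ R →
    |MvPolynomial.eval x (Fl m (pl σ m co) 1) - MvPolynomial.eval y (Fl m (pl σ m co) 1)| ≤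
      (m + 1) * (Fintype.card σ + cB (Fintype.card σ) m co) * R ^ m * ‖x - y‖

def NetS : Prop := (∀ G len l, l ∈ tup G len ↔ l.length = len ∧ ∀ i ∈ l, i < G) ∧
  ∀ (σ : Type) [Fintype σ] (R M : ℕ), 0 < M →
  (∀ y : σ → ℝ, ‖y‖ ≤ R → ∃ n < (2 * R * M + 1) ^ Fintype.card σ,
    dist (fun i => gv R M n (ix i)) y ≤ 1 / M) ∧
  ∀ (e len : ℕ) (ok : ℕ → Bool), {l | l ∈ vr (Fintype.card σ) (2 * R * M + 1) e len ok} =
    VR (fun n (i : σ) => gv R M n (ix i)) {n | n < (2 * R * M + 1) ^ Fintype.card σ ∧ ok n}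
      (e * (1 / M)) len

def ChiY : Prop := ∃ cv : Un × ℕ × ℕ × List ℝ × ℂ × ℂ → ℂ, RPT cv ∧
  ∀ (σ : Type) [Fintype σ] [DecidableEq σ] (m N : ℕ) (co : List ℝ) (l w : ℂ), 3 ≤ m →
    sz σ m ≤ N → cv (⟨N⟩, Fintype.card σ, m, co, l, w) =
      (chi (Lam m (cx' (pl σ m fun n => co.getD n 0)) l)).eval w

def ChkR : Prop := ∀ cv hv, RPT cv → RPT hv → RPT (chk cv hv)

def PostS : Prop := PT (ser : Wd → List ℕ) ∧ ∃ M : Turing.TM2ComputableAux Bool Bool,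
  ∀ (σ τ : Type) [Fintype σ] [DecidableEq σ] [Fintype τ] (m η : ℕ) (P : τ → MvPolynomial σ ℝ)
    (π : τ → SignType) (lb : List Bool) (e : Fin (typ (Le m P)).length ≃ Std σ m), 2 ≤ m → Odd m →
    (sq P).totalDegree < m → (∀ j, π j ≠ 0) →
    (∀ s ∈ Icc (0 : ℝ) 1, Qv (La m (cx' (sq P)) η s) ≠ 0) →
    Iso (Le m P ∘ e) (pts (typ (Le m P))) →
    (∀ i : Fin _, lb.getD (i : ℕ) false = true ↔ (Le m P (e i)).re < 0 ∧ (Le m P (e i)).im = 0 ∧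
      (lab m P (Le m P (e i))).2.2.1 = π) →
    (∀ j, @hs cQ _ _ (cell P π) ∅ j ≠ ⊤) ∧ ∃ T, Outputs M (N487b59b3.bitEncode (ser
      ((Fintype.card σ, m, segs (La m (cx' (sq P)) η), typ (Le m P), lb) : Wd)))
      (N487b59b3.bitEncode ((List.range (Fintype.card σ + 1)).map fun j =>
        (@hs cQ _ _ (cell P π) ∅ (j + 1)).toNat)) T

variable [Coef]

def GridS : Prop := ∀ (E ι : Type) [NormedAddCommGroup E] [NormedSpace ℝ E] (g : ι → E) (G : Set ι)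
  (f : E → ℝ) (a ω ε : ℝ), Continuous f → 0 < ω → 0 < ε →
  (∀ x, f x < a + 2 * ω → ∃ i ∈ G, dist (g i) x ≤ ε) →
  (∀ x y, dist x y ≤ 6 * ε → f x < a + 3 * ω → f y < f x + ω) →
  Ac {x | f x < a + 2 * ω} {x | f x < a} → Ac {x | f x < a + 4 * ω} {x | f x < a} →
  ∀ n, hs {x | f x < a} ∅ (n + 1) = hvr (VR g {i ∈ G | f (g i) < a + ω} (4 * ε) (n + 1))
    (VR g {i ∈ G | f (g i) < a + 3 * ω} (6 * ε) (n + 2))

def RealF : Prop := ∀ (E ι : Type) [TopologicalSpace E] [Finite ι] (f : E → ℝ) (S S' : Set E)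
  (v : ι → ℝ) (s s' : ι → Prop) (δ : ℝ) (A : Finset ι), RM f S S' v s s' → 0 < δ →
  (∀ i j, v i < v j → v i + δ < v j) → (∀ i, v i < 0 → v i + δ < 0) →
  (∀ i j, s i → s j → v i = v j → i = j) → (∀ i, i ∈ A ↔ s i ∧ v i < 0) → ∀ j,
  hs ({y | f y < 0} ∩ S) ∅ j + ∑ i ∈ A, hs {y | f y < v i - δ} ∅ j =
    ∑ i ∈ A, hs {y | f y < v i + δ} ∅ j ∧ hs ({y | f y < 0} ∩ S) ∅ j ≠ ⊤

def KeyS : Prop := ∀ (σ : Type) [Fintype σ] [DecidableEq σ] (m η η' : ℕ)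
  (p p' : MvPolynomial σ ℝ) (l l' a a' : ℝ) (T : List Tl) (t : Tl)
  (e e' : Fin t.length ≃ Std σ m), 2 ≤ m → Odd m → p.totalDegree < m → p'.totalDegree < m →
  Chn T → Wk (fun s => Lam m (cx' p) (arc l η s)) T → Wk (fun s => Lam m (cx' p') (arc l' η' s)) T →
  T.getD (T.length - 1) [] = t → Dn (pts t) (Lam m (cx' p) l ∘ e) →
  Dn (pts t) (Lam m (cx' p') l' ∘ e') →
  (∀ i, (Lam m (cx' p) l (e i)).re ≠ a ∧ (Lam m (cx' p') l' (e' i)).re ≠ a' ∧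
    ((Lam m (cx' p) l (e i)).re < a ↔ (Lam m (cx' p') l' (e' i)).re < a')) →
  ∀ j, hs {y | MvPolynomial.eval y (Fl m p l) < a} ∅ j =
    hs {y | MvPolynomial.eval y (Fl m p' l') < a'} ∅ j

def BetS : Prop := ∀ (σ : Type) [Fintype σ] [DecidableEq σ] (m R M : ℕ) (co : ℕ → ℝ) (a ω : ℝ)
  (hv : List (List ℕ) × List (List ℕ) → ℕ), 2 ≤ m → Odd m →
  (∀ A A', (hv (A, A') : ℕ∞) = hvr {l | l ∈ A} {l | l ∈ A'}) → GOk (Fintype.card σ) m co a ω R M →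
  (∀ i, (Lam m (cx' (pl σ m co)) 1 i).re ∉ Icc a (a + 4 * ω)) →
  ∀ j, hs {y | MvPolynomial.eval y (Fl m (pl σ m co) 1) < a} ∅ (j + 1) =
    bt hv (Fintype.card σ) m co a ω R M j

end Pool.Agent.Lib.MP_837412_lc.K.Y
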